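import Pool.Agent.MLD.Blk

/-!
Elementary facts on order functions.
-/

open MvPolynomial Filter

namespace MLD

universe u

namespace OrdFn
variable {k : Type u} [Field k] {K : Type*} [Field K] [Algebra k K] (v : OrdFn k K)

theorem ord_mul {f g : K} (hf : f ≠ 0) (hg : g ≠ 0) : v.ord (f * g) = v.ord f + v.ord g :=
  v.ord_mul' f g hf hg

theorem ord_one : v.ord 1 = 0 := by
  have := v.ord_mul (f := (1 : K)) (g := 1) one_ne_zero one_ne_zero
  rw [mul_one] at this
  omega

theorem ord_neg_one : v.ord (-1) = 0 := by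
  have h := v.ord_const' (-1) (neg_ne_zero.mpr one_ne_zero)
  simpa using h

theorem ord_neg (f : K) (hf : f ≠ 0) : v.ord (-f) = v.ord f := by
  have : -f = (-1) * f := by ring
  rw [this, v.ord_mul (neg_ne_zero.mpr one_ne_zero) hf, ord_neg_one, zero_add]

theorem ord_inv (f : K) (hf : f ≠ 0) : v.ord f⁻¹ = - v.ord f := by
  have h := v.ord_mul hf (inv_ne_zero hf)
  rw [mul_inv_cancel₀ hf, v.ord_one] at h
  omega

theorem ord_div {f g : K} (hf : f ≠ 0) (hg : g ≠ 0) : v.ord (f / g) = v.ord f - v.ord g := by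
  rw [div_eq_mul_inv, v.ord_mul hf (inv_ne_zero hg), v.ord_inv g hg]
  ring

theorem ord_pow {f : K} (hf : f ≠ 0) (n : ℕ) : v.ord (f ^ n) = n * v.ord f := by
  induction n with
  | zero => simp [v.ord_one]
  | succ n ih =>
    rw [pow_succ, v.ord_mul (pow_ne_zero _ hf) hf, ih]
    push_cast
    ring

theorem ord_prod {ι : Type*} (s : Finset ι) (f : ι → K) (hf : ∀ i ∈ s, f i ≠ 0) :
    v.ord (∏ i ∈ s, f i) = ∑ i ∈ s, v.ord (f i) := by
  classical
  induction s using Finset.induction_on with
  | empty => simp [v.ord_one]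
  | insert a s ha ih =>
    rw [Finset.prod_insert ha, Finset.sum_insert ha,
      v.ord_mul (hf a (Finset.mem_insert_self a s))
        (Finset.prod_ne_zero_iff.mpr fun i hi => hf i (Finset.mem_insert_of_mem hi)),
      ih fun i hi => hf i (Finset.mem_insert_of_mem hi)]

theorem ord_algebraMap {c : k} (hc : c ≠ 0) : v.ord (algebraMap k K c) = 0 :=
  v.ord_const' c hc

/-- `ord f ≥ N` or `f = 0` -/
def ge (N : ℤ) (f : K) : Prop := f = 0 ∨ N ≤ v.ord f

theorem ge_zero (N : ℤ) : v.ge N 0 := Or.inl rfl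

theorem ge_self (f : K) : v.ge (v.ord f) f := Or.inr le_rfl

theorem ge_mono {M N : ℤ} (h : M ≤ N) {f : K} (hf : v.ge N f) : v.ge M f := by
  rcases hf with hf | hf
  · exact Or.inl hf
  · exact Or.inr (h.trans hf)

theorem ge_add {N : ℤ} {f g : K} (hf : v.ge N f) (hg : v.ge N g) : v.ge N (f + g) := by
  rcases hf with rfl | hf
  · simpa using hg
  rcases hg with rfl | hg
  · rw [add_zero]; exact Or.inr hf
  by_cases h0 : f + g = 0
  · exact Or.inl h0
  by_cases f0 : f = 0
  · subst f0; rw [zero_add]; exact Or.inr hg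
  by_cases g0 : g = 0
  · subst g0; rw [add_zero]; exact Or.inr hf
  exact Or.inr ((le_min hf hg).trans (v.ord_add' f g f0 g0 h0))

theorem ge_neg {N : ℤ} {f : K} (hf : v.ge N f) : v.ge N (-f) := by
  rcases hf with rfl | hf
  · left; simp
  by_cases f0 : f = 0
  · left; simp [f0]
  · right; rwa [v.ord_neg f f0]

theorem ge_sub {N : ℤ} {f g : K} (hf : v.ge N f) (hg : v.ge N g) : v.ge N (f - g) := by
  rw [sub_eq_add_neg]
  exact v.ge_add hf (v.ge_neg hg)

theorem ge_mul {M N : ℤ} {f g : K} (hf : v.ge M f) (hg : v.ge N g) : v.ge (M + N) (f * g) := by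
  by_cases f0 : f = 0
  · left; simp [f0]
  by_cases g0 : g = 0
  · left; simp [g0]
  rcases hf with hf | hf
  · exact absurd hf f0
  rcases hg with hg | hg
  · exact absurd hg g0
  right
  rw [v.ord_mul f0 g0]
  exact add_le_add hf hg

theorem ge_const (c : k) : v.ge 0 (algebraMap k K c) := by
  by_cases hc : c = 0
  · left; simp [hc]
  · right; rw [v.ord_algebraMap hc]

theorem ge_pow {M : ℤ} {f : K} (hf : v.ge M f) (n : ℕ) : v.ge (n * M) (f ^ n) := by
  induction n with
  | zero => simp only [Nat.cast_zero, zero_mul, pow_zero]; right; rw [v.ord_one]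
  | succ n ih =>
    rw [pow_succ]
    have := v.ge_mul ih hf
    push_cast
    rwa [show ((n : ℤ) + 1) * M = n * M + M by ring]

theorem ge_sum {N : ℤ} {ι : Type*} (s : Finset ι) (f : ι → K) (hf : ∀ i ∈ s, v.ge N (f i)) :
    v.ge N (∑ i ∈ s, f i) := by
  classical
  induction s using Finset.induction_on with
  | empty => simpa using v.ge_zero N
  | insert a s ha ih =>
    rw [Finset.sum_insert ha]
    exact v.ge_add (hf a (Finset.mem_insert_self a s))
      (ih fun i hi => hf i (Finset.mem_insert_of_mem hi))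

theorem ge_prod {ι : Type*} (s : Finset ι) (f : ι → K) (N : ι → ℤ)
    (hf : ∀ i ∈ s, v.ge (N i) (f i)) : v.ge (∑ i ∈ s, N i) (∏ i ∈ s, f i) := by
  classical
  induction s using Finset.induction_on with
  | empty => simp only [Finset.sum_empty, Finset.prod_empty]; right; rw [v.ord_one]
  | insert a s ha ih =>
    rw [Finset.sum_insert ha, Finset.prod_insert ha]
    exact v.ge_mul (hf a (Finset.mem_insert_self a s))
      (ih fun i hi => hf i (Finset.mem_insert_of_mem hi))

/-- the smaller order wins -/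
theorem ord_add_eq {f g : K} (hf : f ≠ 0) (hg : v.ge (v.ord f + 1) g) :
    f + g ≠ 0 ∧ v.ord (f + g) = v.ord f := by
  by_cases g0 : g = 0
  · subst g0; simp [hf]
  have hg' : v.ord f + 1 ≤ v.ord g := by
    rcases hg with h | h
    · exact absurd h g0
    · exact h
  have hne : f + g ≠ 0 := by
    intro h
    have : g = -f := by linear_combination h
    rw [this, v.ord_neg f hf] at hg'
    omega
  refine ⟨hne, le_antisymm ?_ ?_⟩
  · have h2 := v.ord_add' (f + g) (-g) hne (neg_ne_zero.mpr g0) (by simpa using hf)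
    rw [v.ord_neg g g0] at h2
    have h3 : f + g + -g = f := by ring
    rw [h3] at h2
    rcases min_le_iff.mp h2 with h4 | h4
    · exact h4
    · omega
  · have h2 := v.ord_add' f g hf g0 hne
    rw [min_eq_left (by omega)] at h2
    exact h2

variable {B : Type}

/-- if `ord (x b) ≥ w b` and all monomials of `G` have weight `≥ N` then `ord G(x) ≥ N` -/
theorem ge_aeval (x : B → K) (w : B → ℤ) (hx : ∀ b, v.ge (w b) (x b)) (G : MvPolynomial B k)
    (N : ℤ) (hG : ∀ m : B →₀ ℕ, coeff m G ≠ 0 → N ≤ m.sum fun b n => (n : ℤ) * w b) :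
    v.ge N (aeval x G) := by
  rw [aeval_def, eval₂_eq]
  refine v.ge_sum _ _ fun m hm => ?_
  have h1 := v.ge_const (coeff m G)
  have h2 := v.ge_prod m.support (fun b => x b ^ m b) (fun b => (m b : ℤ) * w b)
    fun b _ => v.ge_pow (hx b) (m b)
  have h3 := v.ge_mul h1 h2
  refine v.ge_mono ?_ h3
  have := hG m (mem_support_iff.mp hm)
  rw [zero_add]
  exact this

/-- a polynomial has nonnegative order if the coordinates have -/
theorem ge_zero_aeval (x : B → K) (hx : ∀ b, v.ge 0 (x b)) (G : MvPolynomial B k) :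
    v.ge 0 (aeval x G) := by
  refine v.ge_aeval x (fun _ => 0) hx G 0 fun m _ => ?_
  simp [Finsupp.sum]

/-- a polynomial with nonzero constant term is a unit at the centre -/
theorem ord_aeval_of_coeff_zero (x : B → K) (hx : ∀ b, v.ge 1 (x b)) (G : MvPolynomial B k)
    (hG : coeff 0 G ≠ 0) : aeval x G ≠ 0 ∧ v.ord (aeval x G) = 0 := by
  have h1 : aeval x G = algebraMap k K (coeff 0 G) + aeval x (G - C (coeff 0 G)) := by
    rw [map_sub, aeval_C]; ring
  have hc : algebraMap k K (coeff 0 G) ≠ 0 := by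
    rwa [Ne, map_eq_zero]
  have h2 : v.ge (v.ord (algebraMap k K (coeff 0 G)) + 1) (aeval x (G - C (coeff 0 G))) := by
    rw [v.ord_algebraMap hG, zero_add]
    refine v.ge_aeval x (fun _ => 1) hx _ 1 fun m hm => ?_
    have hm0 : m ≠ 0 := by
      rintro rfl
      simp at hm
    obtain ⟨b, hb⟩ : ∃ b, m b ≠ 0 := by
      by_contra h
      push Not at h
      exact hm0 (Finsupp.ext h)
    have : (m.sum fun b n => (n : ℤ) * 1) = ∑ b ∈ m.support, (m b : ℤ) := by
      simp [Finsupp.sum]
    rw [this]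
    have h4 : (m b : ℤ) ≤ ∑ b ∈ m.support, (m b : ℤ) :=
      Finset.single_le_sum (f := fun b => (m b : ℤ)) (fun _ _ => by positivity)
        (Finsupp.mem_support_iff.mpr hb)
    omega
  rw [h1]
  obtain ⟨h3, h4⟩ := v.ord_add_eq hc h2
  exact ⟨h3, by rw [h4, v.ord_algebraMap hG]⟩

end OrdFn

end MLD
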