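import Pool.Agent.MLD.IdOrd

/-!
PIECE MLD-I2: from boundedness to the uniform ideal-adic semicontinuity.

`Bdd 𝒞 lam`: there is `ℓ` such that every `r`-tuple of nonzero ideals in the class `𝒞` has a
divisor `E` centred at the origin with `logDisc E ≤ ℓ` which computes the minimal log
discrepancy (or has negative log discrepancy).

PROOF of `q1_fixed`. Let `lam0 > 0` be smaller than all positive `lam j`; `s := ⌊ℓ / lam0⌋ + 1`.
Let `a_j + m^s = b_j + m^s`. (i) If `mld a < 0`, then `E` from `Bdd` has `aDisc a < 0` (in the second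
case of `Bdd` the infimum is attained by `E`); `logDisc E ≤ ℓ` is real (`logDisc_real`). If
all `ordI (a j) < s` for `lam j > 0`, then `ordI (b j) = ordI (a j)` for these `j` and
`aDisc E b = aDisc E a < 0`. Otherwise some `ordI (a j) ≥ s`, `lam j > 0`, then `ordI (b j) ≥ s` and
`aDisc E b ≤ ℓ - lam j * s < 0`. So `mld b < 0`. By symmetry `0 ≤ mld a ↔ 0 ≤ mld b`.
(ii) Both `≥ 0`: `E` for `a` has `aDisc E a = mld a ≥ 0`, so `lam j * ordI (a j) ≤ ℓ`,
`ordI (a j) < s` for `lam j > 0`, `aDisc E b = aDisc E a`, `mld b ≤ mld a`. Symmetric.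
PROOF of `q1_general`: let `t : Fin R → ℝ` enumerate the finite set `S`. For given `r, lam, a`
put `c i := ∏ j with lam j = t i, a j` (products of elements of `𝒞`, `h1`, `hm`). Then
`∑ j, lam j * ordI (a j) = ∑ i, t i * ordI (c i)` (`ordI_prod`, `Finset.sum_fiberwise`), so
`mld lam a = mld t c`; and `c_i + m^s = d_i + m^s` follows from the same for the factors (in the
quotient ring by `m^s`: `Ideal.map (Ideal.Quotient.mk _)`, `Ideal.map_mul`).
-/

open MvPolynomial Filter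

namespace MLD

universe u

variable {k : Type u} [Field k] {σ : Type} [Fintype σ] [DecidableEq σ]

/-- boundedness of divisors computing the minimal log discrepancy, for the class `𝒞` of ideals
and the exponents `lam` -/
def Bdd (𝒞 : Ideal (MvPolynomial σ k) → Prop) {r : ℕ} (lam : Fin r → ℝ) : Prop :=
  ∃ ℓ : ℕ, ∀ a : Fin r → Ideal (MvPolynomial σ k), (∀ j, a j ≠ ⊥) → (∀ j, 𝒞 (a j)) →
    ∃ E : DivisorOver k σ, E.CenterZero ∧ E.logDisc ≤ ((ℓ : ℝ) : EReal) ∧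
      (E.aDisc lam a < 0 ∨
        ∀ E' : DivisorOver k σ, E'.CenterZero → E.aDisc lam a ≤ E'.aDisc lam a)

omit [DecidableEq σ] in
theorem Q1_exists_s {r : ℕ} (lam : Fin r → ℝ) (hlam : ∀ j, 0 ≤ lam j) (ℓ : ℕ) :
    ∃ s : ℕ, 1 ≤ s ∧ ∀ j, 0 < lam j → (ℓ : ℝ) < lam j * s := by
  have h : ∀ j, ∃ n : ℕ, 0 < lam j → (ℓ : ℝ) < lam j * n := by
    intro j
    by_cases hj : 0 < lam j
    · obtain ⟨n, hn⟩ := exists_nat_gt ((ℓ : ℝ) / lam j)
      refine ⟨n, fun _ => ?_⟩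
      rw [div_lt_iff₀ hj] at hn
      linarith
    · exact ⟨0, fun h => absurd h hj⟩
  choose n hn using h
  refine ⟨1 + ∑ j, n j, by omega, ?_⟩
  intro j hj
  have h1 : n j ≤ 1 + ∑ j, n j :=
    (Finset.single_le_sum (f := n) (fun i _ => Nat.zero_le _) (Finset.mem_univ j)).trans
      (by omega)
  have h2 : (n j : ℝ) ≤ ((1 + ∑ j, n j : ℕ) : ℝ) := by exact_mod_cast h1
  exact (hn j hj).trans_le (mul_le_mul_of_nonneg_left h2 (hlam j))

theorem Q1_aDisc (E : DivisorOver k σ) {r : ℕ} (lam : Fin r → ℝ)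
    (a : Fin r → Ideal (MvPolynomial σ k)) {B : ℝ} (hB : E.logDisc = (B : EReal)) :
    E.aDisc lam a = ((B - ∑ j, lam j * (E.ordI (a j) : ℝ) : ℝ) : EReal) := by
  unfold DivisorOver.aDisc
  rw [hB, EReal.coe_sub]

/-- transfer of the discrepancy along one divisor -/
theorem Q1_transfer [Nonempty σ] {r : ℕ} (lam : Fin r → ℝ) (hlam : ∀ j, 0 ≤ lam j) {ℓ s : ℕ}
    (hs : ∀ j, 0 < lam j → (ℓ : ℝ) < lam j * s) (a b : Fin r → Ideal (MvPolynomial σ k))
    (ha : ∀ j, a j ≠ ⊥) (hb : ∀ j, b j ≠ ⊥)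
    (hab : ∀ j, a j ⊔ mm k σ ^ s = b j ⊔ mm k σ ^ s) (E : DivisorOver k σ) (hE : E.CenterZero)
    (hl : E.logDisc ≤ ((ℓ : ℝ) : EReal)) :
    E.aDisc lam b = E.aDisc lam a ∨ (E.aDisc lam a < 0 ∧ E.aDisc lam b < 0) := by
  obtain ⟨B, _, hBl, hB⟩ := logDisc_real E ℓ hl
  rw [Q1_aDisc E lam a hB, Q1_aDisc E lam b hB]
  by_cases h : ∃ j, 0 < lam j ∧ s ≤ E.ordI (a j)
  · right
    have key : ∀ c : Fin r → Ideal (MvPolynomial σ k), (∃ j, 0 < lam j ∧ s ≤ E.ordI (c j)) →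
        ((B - ∑ j, lam j * (E.ordI (c j) : ℝ) : ℝ) : EReal) < 0 := by
      rintro c ⟨j, hj, hc⟩
      have h1 : lam j * s ≤ lam j * (E.ordI (c j) : ℝ) :=
        mul_le_mul_of_nonneg_left (by exact_mod_cast hc) (hlam j)
      have h2 : lam j * (E.ordI (c j) : ℝ) ≤ ∑ j, lam j * (E.ordI (c j) : ℝ) :=
        Finset.single_le_sum (f := fun j => lam j * (E.ordI (c j) : ℝ))
          (fun i _ => mul_nonneg (hlam i) (Nat.cast_nonneg _)) (Finset.mem_univ j)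
      have h3 := hs j hj
      have h4 : B - ∑ j, lam j * (E.ordI (c j) : ℝ) < 0 := by linarith
      exact_mod_cast h4
    obtain ⟨j, hj, hja⟩ := h
    exact ⟨key a ⟨j, hj, hja⟩,
      key b ⟨j, hj, le_ordI_of_le E hE (ha j) (hb j) s (hab j) hja⟩⟩
  · left
    push Not at h
    congr 2
    apply Finset.sum_congr rfl
    intro j _
    by_cases hj : 0 < lam j
    · rw [ordI_eq_of_lt E hE (ha j) (hb j) s (hab j) (h j hj)]
    · have h0 : lam j = 0 := le_antisymm (not_lt.1 hj) (hlam j)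
      rw [h0, zero_mul, zero_mul]

theorem Q1_mld_le (E : DivisorOver k σ) (hE : E.CenterZero) {r : ℕ} (lam : Fin r → ℝ)
    (a : Fin r → Ideal (MvPolynomial σ k)) : mld lam a ≤ E.aDisc lam a :=
  iInf_le (fun E : {E : DivisorOver k σ // E.CenterZero} => E.1.aDisc lam a) ⟨E, hE⟩

theorem Q1_le_mld {r : ℕ} (lam : Fin r → ℝ) (a : Fin r → Ideal (MvPolynomial σ k)) (x : EReal)
    (h : ∀ E' : DivisorOver k σ, E'.CenterZero → x ≤ E'.aDisc lam a) : x ≤ mld lam a := by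
  unfold mld
  apply le_iInf
  intro E'
  exact h E'.1 E'.2

theorem q1_fixed [Nonempty σ] (𝒞 : Ideal (MvPolynomial σ k) → Prop) {r : ℕ} (lam : Fin r → ℝ)
    (hlam : ∀ j, 0 ≤ lam j) (hb : Bdd 𝒞 lam) :
    ∃ s : ℕ, 1 ≤ s ∧ ∀ a b : Fin r → Ideal (MvPolynomial σ k), (∀ j, a j ≠ ⊥) → (∀ j, b j ≠ ⊥) →
      (∀ j, 𝒞 (a j)) → (∀ j, 𝒞 (b j)) →
      (∀ j, a j ⊔ mm k σ ^ s = b j ⊔ mm k σ ^ s) →
      (0 ≤ mld lam a ↔ 0 ≤ mld lam b) ∧
        (0 ≤ mld lam a → 0 ≤ mld lam b → mld lam a = mld lam b) := by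
  obtain ⟨ℓ, hℓ⟩ := hb
  obtain ⟨s, hs1, hs⟩ := Q1_exists_s lam hlam ℓ
  refine ⟨s, hs1, ?_⟩
  have one : ∀ a b : Fin r → Ideal (MvPolynomial σ k), (∀ j, a j ≠ ⊥) → (∀ j, b j ≠ ⊥) →
      (∀ j, 𝒞 (a j)) → (∀ j, a j ⊔ mm k σ ^ s = b j ⊔ mm k σ ^ s) →
      (0 ≤ mld lam b → 0 ≤ mld lam a) ∧ (0 ≤ mld lam a → mld lam b ≤ mld lam a) := by
    intro a b ha hb hca hab
    obtain ⟨E, hE, hl, hE2⟩ := hℓ a ha hca
    have htr := Q1_transfer lam hlam hs a b ha hb hab E hE hl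
    have hla := Q1_mld_le E hE lam a
    have hlb := Q1_mld_le E hE lam b
    constructor
    · intro h0
      by_contra hneg
      rw [not_le] at hneg
      have h1 : E.aDisc lam a < 0 := by
        rcases hE2 with h2 | h2
        · exact h2
        · exact lt_of_le_of_lt (Q1_le_mld lam a _ h2) hneg
      have h3 : E.aDisc lam b < 0 := by
        rcases htr with h4 | h4
        · rw [h4]; exact h1
        · exact h4.2
      exact absurd (h0.trans hlb) (not_le.2 h3)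
    · intro h0
      rcases htr with h4 | h4
      · rcases hE2 with h2 | h2
        · exact absurd (h0.trans hla) (not_le.2 h2)
        · calc mld lam b ≤ E.aDisc lam b := hlb
            _ = E.aDisc lam a := h4
            _ ≤ mld lam a := Q1_le_mld lam a _ h2
      · exact absurd (h0.trans hla) (not_le.2 h4.1)
  intro a b ha hb hca hcb hab
  have h1 := one a b ha hb hca hab
  have h2 := one b a hb ha hcb fun j => (hab j).symm
  exact ⟨⟨h2.1, h1.1⟩, fun h3 h4 => le_antisymm (h2.2 h4) (h1.2 h3)⟩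

theorem Q1_mul {A : Type*} [CommRing A] (I J M : Ideal A) :
    I * J ⊔ M = (I ⊔ M) * (J ⊔ M) ⊔ M := by
  apply le_antisymm
  · exact sup_le_sup (Ideal.mul_mono le_sup_left le_sup_left) le_rfl
  · refine sup_le ?_ le_sup_right
    rw [Ideal.sup_mul, Ideal.mul_sup]
    refine sup_le (sup_le le_sup_left ?_) ?_
    · exact Ideal.mul_le_right.trans le_sup_right
    · exact Ideal.mul_le_left.trans le_sup_right

omit [Fintype σ] [DecidableEq σ] in
theorem Q1_prod {ι : Type*} (T : Finset ι) (a b : ι → Ideal (MvPolynomial σ k))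
    (M : Ideal (MvPolynomial σ k)) (h : ∀ j ∈ T, a j ⊔ M = b j ⊔ M) :
    (∏ j ∈ T, a j) ⊔ M = (∏ j ∈ T, b j) ⊔ M := by
  classical
  induction T using Finset.induction_on with
  | empty => rfl
  | insert x T hx ih =>
    rw [Finset.prod_insert hx, Finset.prod_insert hx, Q1_mul (a x), Q1_mul (b x),
      h x (Finset.mem_insert_self _ _), ih fun j hj => h j (Finset.mem_insert_of_mem hj)]

omit [Fintype σ] [DecidableEq σ] in
theorem Q1_prod_mem (𝒞 : Ideal (MvPolynomial σ k) → Prop) (h1 : 𝒞 ⊤)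
    (hm : ∀ I J, 𝒞 I → 𝒞 J → 𝒞 (I * J)) {ι : Type*} (T : Finset ι)
    (a : ι → Ideal (MvPolynomial σ k)) (h : ∀ j, 𝒞 (a j)) (h0 : ∀ j, a j ≠ ⊥) :
    𝒞 (∏ j ∈ T, a j) ∧ (∏ j ∈ T, a j) ≠ ⊥ := by
  classical
  induction T using Finset.induction_on with
  | empty =>
    rw [Finset.prod_empty, Ideal.one_eq_top]
    exact ⟨h1, top_ne_bot⟩
  | insert x T hx ih =>
    rw [Finset.prod_insert hx]
    refine ⟨hm _ _ (h x) ih.1, fun h2 => ?_⟩
    rcases Ideal.mul_eq_bot.1 h2 with h3 | h3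
    · exact h0 x h3
    · exact ih.2 h3

theorem Q1_group {r R : ℕ} (lam : Fin r → ℝ) (t : Fin R → ℝ) (g : Fin r → Fin R)
    (hg : ∀ j, t (g j) = lam j) (a : Fin r → Ideal (MvPolynomial σ k)) (ha : ∀ j, a j ≠ ⊥) :
    mld lam a = mld t (fun i => ∏ j ∈ Finset.univ.filter (fun j => g j = i), a j) := by
  unfold mld
  refine iInf_congr fun E => ?_
  unfold DivisorOver.aDisc
  congr 2
  have h1 : ∀ i, E.1.ordI (∏ j ∈ Finset.univ.filter (fun j => g j = i), a j) =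
      ∑ j ∈ Finset.univ.filter (fun j => g j = i), E.1.ordI (a j) := fun i =>
    ordI_prod E.1 _ a fun j _ => ha j
  rw [← Finset.sum_fiberwise Finset.univ g (fun j => lam j * (E.1.ordI (a j) : ℝ))]
  apply Finset.sum_congr rfl
  intro i _
  rw [h1 i]
  push_cast
  rw [Finset.mul_sum]
  apply Finset.sum_congr rfl
  intro j hj
  rw [Finset.mem_filter] at hj
  rw [← hg j, hj.2]

theorem q1_general [Nonempty σ] (𝒞 : Ideal (MvPolynomial σ k) → Prop) (h1 : 𝒞 ⊤)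
    (hm : ∀ I J, 𝒞 I → 𝒞 J → 𝒞 (I * J))
    (hb : ∀ (r : ℕ) (lam : Fin r → ℝ), (∀ j, 0 ≤ lam j) → Bdd 𝒞 lam)
    (S : Set ℝ) (hS : S.Finite) (hS0 : ∀ t ∈ S, 0 ≤ t) :
    ∃ s : ℕ, 1 ≤ s ∧ ∀ (r : ℕ) (lam : Fin r → ℝ) (a b : Fin r → Ideal (MvPolynomial σ k)),
      (∀ j, lam j ∈ S) → (∀ j, a j ≠ ⊥) → (∀ j, b j ≠ ⊥) → (∀ j, 𝒞 (a j)) → (∀ j, 𝒞 (b j)) →
      (∀ j, a j ⊔ mm k σ ^ s = b j ⊔ mm k σ ^ s) →
      (0 ≤ mld lam a ↔ 0 ≤ mld lam b) ∧
        (0 ≤ mld lam a → 0 ≤ mld lam b → mld lam a = mld lam b) := by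
  classical
  set F : Finset ℝ := hS.toFinset with hF
  let e := F.equivFin
  set t : Fin F.card → ℝ := fun i => ((e.symm i : F) : ℝ) with ht
  have ht0 : ∀ i, 0 ≤ t i := fun i => hS0 _ (hS.mem_toFinset.1 (e.symm i).2)
  obtain ⟨s, hs1, hs⟩ := q1_fixed 𝒞 t ht0 (hb _ t ht0)
  refine ⟨s, hs1, ?_⟩
  intro r lam a b hlam ha hb' hca hcb hab
  have hmem : ∀ j, lam j ∈ F := fun j => hS.mem_toFinset.2 (hlam j)
  let g : Fin r → Fin F.card := fun j => e ⟨lam j, hmem j⟩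
  have hg : ∀ j, t (g j) = lam j := fun j => by
    show ((e.symm (e ⟨lam j, hmem j⟩) : F) : ℝ) = lam j
    rw [Equiv.symm_apply_apply]
  rw [Q1_group lam t g hg a ha, Q1_group lam t g hg b hb']
  apply hs
  · exact fun i => (Q1_prod_mem 𝒞 h1 hm _ a hca ha).2
  · exact fun i => (Q1_prod_mem 𝒞 h1 hm _ b hcb hb').2
  · exact fun i => (Q1_prod_mem 𝒞 h1 hm _ a hca ha).1
  · exact fun i => (Q1_prod_mem 𝒞 h1 hm _ b hcb hb').1
  · exact fun i => Q1_prod _ a b _ fun j _ => hab j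

end MLD
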