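import Pool.Agent.MLD.Ord

/-!
PIECE MLD-C2: coordinate derivatives on the function field, and the automorphism of the function
field given by a birational substitution.

PROOF of `exists_pderivFF`: the ring homomorphism `MvPolynomial σ k → TrivSqZeroExt (FF k σ) (FF k σ)`,
`f ↦ (f, pderiv i f)` maps nonzero `f` to units (`TrivSqZeroExt` over a field: unit iff the first
component is nonzero), so it lifts to the fraction field (`IsLocalization.lift`); the second
component of the lift is the derivation (`k`-linear because constants go to `(c, 0)`). Or use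
formal etaleness of localizations and `KaehlerDifferential`.
PROOF of `exists_birEquiv`: `aeval p` is injective (first part of `Bir`), so it extends to a ring
hom of the fraction fields (`IsFractionRing.lift`/`map`), `k`-linear, injective; surjective: the
image is a subfield containing all `x_b` by the second part of `Bir`
(`x_b = (aeval p N) / (aeval p D)`), hence everything (`IsFractionRing.div_surjective`,
`MvPolynomial.induction_on`).
-/

open MvPolynomial Filter

namespace MLD

universe u

private theorem Der_one (k : Type u) [Field k] (σ : Type) (i : σ) :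
    ∃ d : Derivation k (FF k σ) (FF k σ),
      ∀ f, d (toFF k σ f) = toFF k σ (pderiv i f) := by
  classical
  let K := FF k σ
  let R := MvPolynomial σ k
  let g : R →+* TrivSqZeroExt K K :=
    { toFun := fun f => TrivSqZeroExt.inl (toFF k σ f) + TrivSqZeroExt.inr (toFF k σ (pderiv i f))
      map_one' := by
        rw [Derivation.map_one_eq_zero, map_zero, TrivSqZeroExt.inr_zero, add_zero, map_one,
          TrivSqZeroExt.inl_one]
      map_zero' := by
        rw [map_zero, map_zero, map_zero, TrivSqZeroExt.inr_zero, add_zero,
          TrivSqZeroExt.inl_zero]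
      map_add' := by
        intro a b
        rw [map_add, map_add, map_add, TrivSqZeroExt.inl_add, TrivSqZeroExt.inr_add]
        abel
      map_mul' := by
        intro a b
        rw [Derivation.leibniz, map_mul]
        ext
        · simp
        · simp only [smul_eq_mul, TrivSqZeroExt.snd_add, TrivSqZeroExt.snd_inl,
            TrivSqZeroExt.snd_inr, TrivSqZeroExt.snd_mul, TrivSqZeroExt.fst_add,
            TrivSqZeroExt.fst_inl, TrivSqZeroExt.fst_inr, map_add, map_mul, zero_add, add_zero,
            MulOpposite.smul_eq_mul_unop, MulOpposite.unop_op]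
          ring }
  have hg : ∀ f : R, g f = TrivSqZeroExt.inl (toFF k σ f) +
      TrivSqZeroExt.inr (toFF k σ (pderiv i f)) := fun _ => rfl
  have hg1 : ∀ f : R, (g f).fst = toFF k σ f := by
    intro f
    rw [hg, TrivSqZeroExt.fst_add, TrivSqZeroExt.fst_inl, TrivSqZeroExt.fst_inr, add_zero]
  have hg2 : ∀ f : R, (g f).snd = toFF k σ (pderiv i f) := by
    intro f
    rw [hg, TrivSqZeroExt.snd_add, TrivSqZeroExt.snd_inl, TrivSqZeroExt.snd_inr, zero_add]
  have hunit : ∀ s : nonZeroDivisors R, IsUnit (g s) := by
    intro s
    rw [TrivSqZeroExt.isUnit_iff_isUnit_fst, hg1]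
    rw [isUnit_iff_ne_zero]
    intro h
    have h1 : (s : R) = 0 := by
      have h2 : algebraMap R K s = 0 := h
      exact (IsFractionRing.injective R K) (by rw [h2, map_zero])
    exact nonZeroDivisors.ne_zero s.2 h1
  let G : K →+* TrivSqZeroExt K K := IsLocalization.lift (M := nonZeroDivisors R) hunit
  have hG : ∀ f : R, G (toFF k σ f) = g f := by
    intro f
    exact IsLocalization.lift_eq (M := nonZeroDivisors R) hunit f
  have hG1 : ∀ x : K, (G x).fst = x := by
    have h1 : ((TrivSqZeroExt.fstHom K K K).toRingHom.comp G) = RingHom.id K := by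
      apply IsLocalization.ringHom_ext (nonZeroDivisors R)
      ext f
      · show (G (toFF k σ (C f))).fst = toFF k σ (C f)
        rw [hG, hg1]
      · show (G (toFF k σ (X f))).fst = toFF k σ (X f)
        rw [hG, hg1]
    intro x
    exact congrArg (fun h : K →+* K => h x) h1
  have hleib : ∀ x y : K, (G (x * y)).snd = x * (G y).snd + y * (G x).snd := by
    intro x y
    rw [map_mul, TrivSqZeroExt.snd_mul, hG1, hG1]
    simp [mul_comm]
  refine ⟨Derivation.mk' { toFun := fun x => (G x).snd, map_add' := ?_, map_smul' := ?_ } ?_, ?_⟩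
  · intro x y
    rw [map_add, TrivSqZeroExt.snd_add]
  · intro c x
    have h1 : c • x = toFF k σ (C c) * x := by
      rw [Algebra.smul_def]
      congr 1
    rw [h1, hleib, hG, hg2, pderiv_C, map_zero, mul_zero, add_zero, RingHom.id_apply,
      Algebra.smul_def]
    congr 1
  · intro x y
    exact hleib x y
  · intro f
    show (G (toFF k σ f)).snd = _
    rw [hG, hg2]

theorem exists_pderivFF (k : Type u) [Field k] (σ : Type) :
    ∃ d : σ → Derivation k (FF k σ) (FF k σ),
      ∀ i f, d i (toFF k σ f) = toFF k σ (pderiv i f) := by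
  choose d hd using Der_one k σ
  exact ⟨d, hd⟩

theorem exists_birEquiv {k : Type u} [Field k] {σ : Type} (p : σ → MvPolynomial σ k)
    (hp : Bir p) :
    ∃ Φ : FF k σ ≃ₐ[k] FF k σ, ∀ f : MvPolynomial σ k, Φ (toFF k σ f) = toFF k σ (aeval p f) := by
  have htoinj : Function.Injective (toFF k σ) := IsFractionRing.injective (MvPolynomial σ k) _
  let g : MvPolynomial σ k →ₐ[k] FF k σ := (toFF k σ).comp (aeval p)
  have hg : Function.Injective g := by
    rw [injective_iff_map_eq_zero]
    intro f hf
    by_contra hne
    apply hp.1 f hne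
    apply htoinj
    rw [map_zero]
    exact hf
  let Φ : FF k σ →ₐ[k] FF k σ := IsFractionRing.liftAlgHom hg
  have hΦ : ∀ f : MvPolynomial σ k, Φ (toFF k σ f) = toFF k σ (aeval p f) := by
    intro f
    exact IsFractionRing.lift_algebraMap (K := FF k σ) (g := g.toRingHom) hg f
  have hinj : Function.Injective Φ := RingHom.injective (Φ : FF k σ →+* FF k σ)
  have hX : ∀ b, ∃ y, Φ y = toFF k σ (X b) := by
    intro b
    obtain ⟨N, D, hD, hND⟩ := hp.2 b
    refine ⟨toFF k σ N / toFF k σ D, ?_⟩
    rw [map_div₀, hΦ, hΦ]
    have h1 : toFF k σ (aeval p D) ≠ 0 := by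
      intro h
      apply hD
      apply htoinj
      rw [h, map_zero]
    rw [div_eq_iff h1, ← map_mul, hND]
  have hpoly : ∀ f : MvPolynomial σ k, ∃ y, Φ y = toFF k σ f := by
    intro f
    induction f using MvPolynomial.induction_on with
    | C c =>
      refine ⟨toFF k σ (C c), ?_⟩
      rw [hΦ]
      congr 1
      simp
    | add f g hf hg =>
      obtain ⟨y, hy⟩ := hf
      obtain ⟨z, hz⟩ := hg
      exact ⟨y + z, by rw [map_add, hy, hz, map_add]⟩
    | mul_X f b hf =>
      obtain ⟨y, hy⟩ := hf
      obtain ⟨z, hz⟩ := hX b
      exact ⟨y * z, by rw [map_mul, hy, hz, map_mul]⟩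
  have hsurj : Function.Surjective Φ := by
    intro z
    obtain ⟨a, b, -, rfl⟩ := IsFractionRing.div_surjective (A := MvPolynomial σ k) z
    obtain ⟨y, hy⟩ := hpoly a
    obtain ⟨w, hw⟩ := hpoly b
    exact ⟨y / w, by rw [map_div₀, hy, hw]; rfl⟩
  refine ⟨AlgEquiv.ofBijective Φ ⟨hinj, hsurj⟩, ?_⟩
  intro f
  exact hΦ f

/-- chain rule: a derivation of a field of a polynomial expression -/
theorem der_aeval {k : Type u} [Field k] {K : Type*} [Field K] [Algebra k K] {B : Type}
    [Fintype B] (D : Derivation k K K) (x : B → K) (G : MvPolynomial B k) :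
    D (aeval x G) = ∑ b, aeval x (pderiv b G) * D (x b) := by
  classical
  induction G using MvPolynomial.induction_on with
  | C c =>
    simp
  | add f g hf hg =>
    rw [map_add, map_add, hf, hg, ← Finset.sum_add_distrib]
    apply Finset.sum_congr rfl
    intro b _
    rw [map_add, map_add, add_mul]
  | mul_X f b hf =>
    rw [map_mul, aeval_X, Derivation.leibniz, hf]
    have h1 : ∀ c, aeval x (pderiv c (f * X b)) * D (x c)
        = x b * (aeval x (pderiv c f) * D (x c)) + (if c = b then aeval x f * D (x c) else 0) := by
      intro c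
      rw [Derivation.leibniz, pderiv_X, map_add, smul_eq_mul, smul_eq_mul, map_mul, map_mul,
        aeval_X]
      by_cases hcb : c = b
      · subst hcb
        rw [Pi.single_eq_same, map_one, if_pos rfl]
        ring
      · rw [Pi.single_eq_of_ne (Ne.symm hcb), map_zero, if_neg hcb]
        ring
    rw [Finset.sum_congr rfl (fun c _ => h1 c), Finset.sum_add_distrib, ← Finset.mul_sum,
      Finset.sum_ite_eq' Finset.univ b, if_pos (Finset.mem_univ b), smul_eq_mul, smul_eq_mul]
    ring

end MLD
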