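import Pool.Agent.MLD.ArcDefs

/-!
PIECE MLD-R01: the easy direction of the Jacobian criterion.

PROOF. Suppose not algebraically independent: there is `P ≠ 0` in `MvPolynomial I k` with
`aeval c P = 0`; choose `P` of minimal `totalDegree`. For `D ∈ 𝒟` the chain rule (`der_aeval` in
`Der.lean` is for `Fintype B`, field `K`; or copy its proof by `MvPolynomial.induction_on`) gives
`0 = D (aeval c P) = ∑ t, aeval c (pderiv t P) * D (c t)`. By the hypothesis with
`a t := aeval c (pderiv t P)` all `aeval c (pderiv t P) = 0`; `pderiv t P` has smaller total degree or is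
zero, so `pderiv t P = 0` for all `t` by minimality. In characteristic zero `P` is a constant
(`coeff m P * m t = 0` for all `m, t`), a nonzero constant, but `aeval c P = 0`: contradiction.
-/

open MvPolynomial

namespace MLD

universe u

private theorem ArcJac_chain {k L : Type*} [Field k] [Field L] [Algebra k L] {I : Type} [Fintype I]
    (c : I → L) (D : Derivation k L L) (P : MvPolynomial I k) :
    D (aeval c P) = ∑ t, aeval c (pderiv t P) * D (c t) := by
  classical
  induction P using MvPolynomial.induction_on with
  | C a =>
    rw [aeval_C, Derivation.map_algebraMap]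
    symm
    refine Finset.sum_eq_zero fun t _ => ?_
    rw [pderiv_C, map_zero, zero_mul]
  | add p q hp hq =>
    rw [map_add, map_add, hp, hq, ← Finset.sum_add_distrib]
    refine Finset.sum_congr rfl fun t _ => ?_
    rw [map_add, map_add, add_mul]
  | mul_X p i hp =>
    rw [map_mul, aeval_X, Derivation.leibniz, hp, smul_eq_mul, smul_eq_mul, Finset.mul_sum]
    have h1 : ∀ t, aeval c (pderiv t (p * X i)) * D (c t) =
        aeval c p * (if t = i then D (c t) else 0) + c i * (aeval c (pderiv t p) * D (c t)) := by
      intro t
      rw [pderiv_mul, pderiv_X, map_add, map_mul, map_mul, aeval_X]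
      by_cases ht : t = i
      · subst ht
        rw [if_pos rfl, Pi.single_eq_same, map_one]
        ring
      · rw [if_neg ht, Pi.single_eq_of_ne (Ne.symm ht), map_zero]
        ring
    rw [Finset.sum_congr rfl fun t _ => h1 t, Finset.sum_add_distrib, ← Finset.mul_sum,
      ← Finset.mul_sum, Finset.sum_ite_eq' Finset.univ i, if_pos (Finset.mem_univ i)]

theorem arc_jac {k L : Type*} [Field k] [CharZero k] [Field L] [Algebra k L] {I : Type} [Fintype I]
    (c : I → L) (𝒟 : Set (Derivation k L L))
    (h : ∀ a : I → L, (∀ D ∈ 𝒟, ∑ t, a t * D (c t) = 0) → a = 0) :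
    AlgebraicIndependent k c := by
  classical
  rw [algebraicIndependent_iff]
  have key : ∀ n : ℕ, ∀ P : MvPolynomial I k, P.totalDegree = n → aeval c P = 0 → P = 0 := by
    intro n
    induction n using Nat.strong_induction_on with
    | _ n ih =>
      intro P hn hP
      have h1 : ∀ t, aeval c (pderiv t P) = 0 := by
        have h2 := h (fun t => aeval c (pderiv t P)) (fun D _ => by
          rw [← ArcJac_chain c D P, hP, map_zero])
        exact fun t => congrFun h2 t
      have h3 : ∀ t, pderiv t P = 0 := by
        intro t
        by_contra hne
        have hlt : (pderiv t P).totalDegree < n := by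
          have hle : ∀ m ∈ (pderiv t P).support, (m.sum fun _ e => e) + 1 ≤ n := by
            intro m hm
            have h4 : coeff (m + Finsupp.single t 1) P ≠ 0 := by
              intro h5
              rw [mem_support_iff, coeff_pderiv, h5, zero_mul] at hm
              exact hm rfl
            have h6 := le_totalDegree (mem_support_iff.2 h4)
            rw [Finsupp.sum_add_index' (fun _ => rfl) (fun _ _ _ => rfl),
              Finsupp.sum_single_index rfl, hn] at h6
            exact h6
          obtain ⟨m0, hm0⟩ := Finset.nonempty_iff_ne_empty.2
            (fun he => hne (support_eq_empty.1 he))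
          have hn0 : 0 < n := lt_of_lt_of_le (Nat.succ_pos _) (hle m0 hm0)
          rw [totalDegree, Finset.sup_lt_iff (by exact hn0)]
          intro m hm
          exact hle m hm
        exact hne (ih _ hlt _ rfl (h1 t))
      have h7 : P = C (coeff 0 P) := by
        ext m
        rw [coeff_C]
        by_cases hm : 0 = m
        · rw [if_pos hm, ← hm]
        · rw [if_neg hm]
          obtain ⟨t, ht⟩ : ∃ t, m t ≠ 0 := by
            by_contra hcon
            push Not at hcon
            exact hm (Finsupp.ext fun t => (hcon t).symm)
          have h8 : m - Finsupp.single t 1 + Finsupp.single t 1 = m :=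
            tsub_add_cancel_of_le (Finsupp.single_le_iff.2 (Nat.one_le_iff_ne_zero.2 ht))
          have h9 := coeff_pderiv (i := t) P (m - Finsupp.single t 1)
          rw [h3 t, coeff_zero, h8] at h9
          rcases mul_eq_zero.1 h9.symm with h10 | h10
          · exact h10
          · exact absurd h10 (Nat.cast_add_one_ne_zero _)
      rw [h7, aeval_C] at hP
      rw [h7, (map_eq_zero _).1 hP, C_0]
  exact fun P hP => key _ P rfl hP

/-- square version: nonzero Jacobian determinant -/
theorem arc_jac_det {k L : Type*} [Field k] [CharZero k] [Field L] [Algebra k L] {I : Type}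
    [Fintype I] [DecidableEq I] (c : I → L) (D : I → Derivation k L L)
    (h : (Matrix.of fun i j => D i (c j)).det ≠ 0) : AlgebraicIndependent k c := by
  refine arc_jac c (Set.range D) fun a ha => ?_
  refine Matrix.eq_zero_of_mulVec_eq_zero h ?_
  funext i
  have h1 := ha (D i) ⟨i, rfl⟩
  rw [Matrix.mulVec, dotProduct, Pi.zero_apply, ← h1]
  refine Finset.sum_congr rfl fun t _ => ?_
  rw [Matrix.of_apply, mul_comm]

end MLD
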