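import Pool.Agent.MLD.ArcDefs

/-!
PIECE MLD-R19: valuation ring and residue field of an order function.

PROOF. `O := {f | v.ge 0 f}` is a subalgebra (`ge_add`, `ge_mul`, `ge_const`). The set
`{f : O | v.ge 1 f}` is a maximal ideal: if `¬ v.ge 1 f`, `f ∈ O`, then `f ≠ 0`, `v.ord f = 0`, `f⁻¹ ∈ O`,
so `f` is a unit of `O`. `κ := O ⧸ M` (a field: `Ideal.Quotient.field`), `res := Ideal.Quotient.mkₐ k M`.
-/

open MvPolynomial

namespace MLD

universe u

theorem exists_vr {k K : Type u} [Field k] [Field K] [Algebra k K] (v : OrdFn k K) :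
    ∃ O : Subalgebra k K, (∀ f, f ∈ O ↔ v.ge 0 f) ∧
      ∃ (κ : Type u) (_ : Field κ) (_ : Algebra k κ) (res : O →ₐ[k] κ),
        Function.Surjective res ∧ ∀ f : O, res f = 0 ↔ v.ge 1 (f : K) := by
  let O : Subalgebra k K :=
    { carrier := {f | v.ge 0 f}
      mul_mem' := fun {a b} ha hb => by
        have h := v.ge_mul (M := 0) (N := 0) ha hb
        rwa [add_zero] at h
      add_mem' := fun {a b} ha hb => v.ge_add ha hb
      algebraMap_mem' := fun c => v.ge_const c }
  have hO : ∀ f : K, f ∈ O ↔ v.ge 0 f := fun f => Iff.rfl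
  let M : Ideal O :=
    { carrier := {f | v.ge 1 (f : K)}
      add_mem' := fun {a b} ha hb => v.ge_add (f := (a : K)) (g := (b : K)) ha hb
      zero_mem' := v.ge_zero 1
      smul_mem' := fun c x hx => by
        have h := v.ge_mul (M := 0) (N := 1) ((hO (c : K)).1 c.2) hx
        rwa [zero_add] at h }
  have hMm : ∀ f : O, f ∈ M ↔ v.ge 1 (f : K) := fun f => Iff.rfl
  have hM : M.IsMaximal := by
    rw [Ideal.isMaximal_iff]
    refine ⟨fun h => ?_, fun J x _ hxM hxJ => ?_⟩
    · rcases (hMm 1).1 h with h | h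
      · exact one_ne_zero h
      · rw [OneMemClass.coe_one, v.ord_one] at h
        omega
    · have hx0 : (x : K) ≠ 0 := fun h => hxM ((hMm x).2 (Or.inl h))
      have h1 : 0 ≤ v.ord (x : K) := by
        rcases (hO (x : K)).1 x.2 with h | h
        · exact absurd h hx0
        · exact h
      have h2 : ¬ 1 ≤ v.ord (x : K) := fun h => hxM ((hMm x).2 (Or.inr h))
      have h3 : (x : K)⁻¹ ∈ O := by
        rw [hO]
        right
        rw [v.ord_inv _ hx0]
        omega
      have h4 := J.mul_mem_left (⟨(x : K)⁻¹, h3⟩ : O) hxJ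
      have h5 : (⟨(x : K)⁻¹, h3⟩ : O) * x = 1 := by
        apply Subtype.ext
        simp [hx0]
      rwa [h5] at h4
  refine ⟨O, hO, O ⧸ M, Ideal.Quotient.field M, inferInstance, Ideal.Quotient.mkₐ k M,
    Ideal.Quotient.mkₐ_surjective k M, fun f => ?_⟩
  rw [← hMm f]
  exact Ideal.Quotient.eq_zero_iff_mem

end MLD
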