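import Pool.Agent.MLD.ArcDefs

/-!
PIECE MLD-R02: dual derivations of an algebraically independent family (characteristic zero).

PROOF. Extend the algebraically independent family to a transcendence basis `B` of `L` over `k`
(`exists_isTranscendenceBasis_superset` or similar in
`Mathlib/RingTheory/AlgebraicIndependent/TranscendenceBasis.lean`). Let `R := Algebra.adjoin k B`, a
polynomial ring, resp. the intermediate field `F := IntermediateField.adjoin k B`. `L / F` is algebraic, so
separable (char 0), so `Algebra.FormallyEtale F L` (`Algebra.FormallyEtale.of_isSeparable`), and also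
`F` is a localization of `R`, so `R → L` is formally etale. Hence (`KaehlerDifferential.
tensorKaehlerEquivOfFormallyEtale`, `Ω[R/k]` free on `d X_b` for the polynomial ring `R`,
`KaehlerDifferential.mvPolynomialBasis`) every function `B → L` extends to a unique
`k`-derivation `L → L` with prescribed values on `B`. Take the values `1` at `c t` and `0` at the other
elements of `B`.
ALTERNATIVE: Zorn's lemma or the lemmas on extending derivations (`Derivation` to
`TrivSqZeroExt`/dual numbers: an algebra hom `F → DualNumber L` lifting the inclusion extends uniquely to
`L` since `F → L` is formally etale: `Algebra.FormallyEtale.lift` for the square-zero ideal of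
`TrivSqZeroExt L L`). The derivation is the second component. First `MvPolynomial B k → TrivSqZeroExt L L`
(`aeval (fun b => inl b + inr (δ b))`), it maps nonzero elements to units, so it extends to the field of
fractions of the polynomial ring, i.e. to `F`.
-/

open MvPolynomial

namespace MLD

universe u

theorem arc_der {k L : Type u} [Field k] [CharZero k] [Field L] [Algebra k L] {I : Type}
    (c : I → L) (hc : AlgebraicIndependent k c) (t : I) :
    ∃ D : Derivation k L L, D (c t) = 1 ∧ ∀ s, s ≠ t → D (c s) = 0 := by
  classical
  obtain ⟨S, hS, hx⟩ := exists_isTranscendenceBasis_superset hc.coe_range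
  let _ : Algebra (MvPolynomial S k) L :=
    (aeval (fun i : S => (i : L)) : MvPolynomial S k →ₐ[k] L).toRingHom.toAlgebra
  have hR : ∀ r : MvPolynomial S k, algebraMap (MvPolynomial S k) L r =
    aeval (fun i : S => (i : L)) r := fun _ => rfl
  have : IsScalarTower k (MvPolynomial S k) L := IsScalarTower.of_algebraMap_eq fun a => by
    rw [hR, MvPolynomial.algebraMap_eq, aeval_C]
  have : FaithfulSMul (MvPolynomial S k) L :=
    (faithfulSMul_iff_algebraMap_injective _ _).mpr hx.1
  haveI alg : Algebra.IsAlgebraic (MvPolynomial S k) L := by
    have := hx.isAlgebraic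
    refine Algebra.IsAlgebraic.of_ringHom_of_comp_eq (hx.1.aevalEquiv.toRingEquiv)
      (RingHom.id L) hx.1.aevalEquiv.surjective Function.injective_id ?_
    ext i
    · simp [hR]
    · simp [hR]
  let _ := FractionRing.liftAlgebra (MvPolynomial S k) L
  have : Algebra.IsAlgebraic (FractionRing (MvPolynomial S k)) L :=
    (IsFractionRing.comap_isAlgebraic_iff (A := MvPolynomial S k)
      (K := FractionRing (MvPolynomial S k)) (C := L)).mp alg
  have : CharZero (FractionRing (MvPolynomial S k)) :=
    charZero_of_injective_algebraMap
      (FaithfulSMul.algebraMap_injective k (FractionRing (MvPolynomial S k)))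
  have : Algebra.FormallyEtale (FractionRing (MvPolynomial S k)) L :=
    Algebra.FormallyEtale.of_isSeparable _ _
  have : Algebra.FormallyEtale (MvPolynomial S k) (FractionRing (MvPolynomial S k)) :=
    Algebra.FormallyEtale.of_isLocalization (nonZeroDivisors (MvPolynomial S k))
  have : Algebra.FormallyEtale (MvPolynomial S k) L :=
    Algebra.FormallyEtale.comp (MvPolynomial S k) (FractionRing (MvPolynomial S k)) L
  let d0 : Derivation k (MvPolynomial S k) L :=
    mkDerivation k (fun i : S => if (i : L) = c t then (1 : L) else 0)
  let D : Derivation k L L :=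
    ((d0.liftKaehlerDifferential.liftBaseChange L).comp
      (KaehlerDifferential.tensorKaehlerEquivOfFormallyEtale k (MvPolynomial S k)
        L).symm.toLinearMap).compDer (KaehlerDifferential.D k L)
  have key : ∀ i : S, D (i : L) = if (i : L) = c t then 1 else 0 := by
    intro i
    have h1 : (i : L) = algebraMap (MvPolynomial S k) L (X i) := by
      rw [hR, aeval_X]
    change (d0.liftKaehlerDifferential.liftBaseChange L)
      ((KaehlerDifferential.tensorKaehlerEquivOfFormallyEtale k (MvPolynomial S k)
        L).symm (KaehlerDifferential.D k L (i : L))) = _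
    conv_lhs => rw [h1]
    rw [KaehlerDifferential.tensorKaehlerEquivOfFormallyEtale_symm_D_algebraMap,
      LinearMap.liftBaseChange_tmul, one_smul, Derivation.liftKaehlerDifferential_comp_D,
      mkDerivation_X]
  refine ⟨D, ?_, fun s hs => ?_⟩
  · have := key ⟨c t, hS ⟨t, rfl⟩⟩
    simpa using this
  · have := key ⟨c s, hS ⟨s, rfl⟩⟩
    have hne : c s ≠ c t := fun h => hs (hc.injective h)
    simpa [hne] using this

end MLD
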