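import Pool.Agent.MLD.ArcDefs
import Pool.Agent.MLD.Der

/-!
PIECE MLD-R04: derivations of a purely transcendental extension.

`FF L σ` is the field of rational functions in the variables `z i = xx L i` over `L`.
PROOF of `exists_extDer`: `MvPolynomial σ L`: apply `δ` to the coefficients (a `k`-derivation; e.g. the
`k`-linear map `Finsupp.mapRange.linearMap`, or `Derivation.mapCoeffs` of
`Mathlib/RingTheory/Derivation/MapCoeffs.lean` is for one variable only); Leibniz rule by
`MvPolynomial.coeff_mul`, or define the ring homomorphism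
`MvPolynomial σ L → TrivSqZeroExt (FF L σ) (FF L σ)` as `eval₂Hom` of the ring hom
`L → TrivSqZeroExt`, `a ↦ inl a + inr (δ a)` and `X i ↦ inl (z i)` - this is the shortest way. It
maps nonzero polynomials to units (first component), so it lifts to `FF L σ` (`IsLocalization.lift`), as in
`Der_one` of `Der.lean`. The second component is the derivation.
PROOF of `exists_zDer`: `exists_pderivFF L σ` (`Der.lean`) and `Derivation.restrictScalars k`.
-/

open MvPolynomial

namespace MLD

universe u

variable {k L : Type u} [Field k] [Field L] [Algebra k L] {σ : Type}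

private theorem ArcExtD_alg (a : L) :
    algebraMap L (FF L σ) a = toFF L σ (C a) := rfl

private theorem ArcExtD_algk (c : k) :
    algebraMap k (FF L σ) c = toFF L σ (C (algebraMap k L c)) := by
  rw [IsScalarTower.algebraMap_apply k (MvPolynomial σ L) (FF L σ)]
  rfl

private theorem ArcExtD_hom (δ : Derivation k L L) :
    ∃ g : MvPolynomial σ L →+* TrivSqZeroExt (FF L σ) (FF L σ),
      (∀ p, (g p).fst = toFF L σ p) ∧
      ∀ p : MvPolynomial σ L, ∃ q : MvPolynomial σ L, (∀ m, coeff m q = δ (coeff m p)) ∧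
        (g p).snd = toFF L σ q := by
  classical
  let K := FF L σ
  let φ : L →+* TrivSqZeroExt K K :=
    { toFun := fun a => TrivSqZeroExt.inl (toFF L σ (C a)) + TrivSqZeroExt.inr (toFF L σ (C (δ a)))
      map_one' := by
        rw [Derivation.map_one_eq_zero, C_0, C_1, map_zero, TrivSqZeroExt.inr_zero, add_zero,
          map_one, TrivSqZeroExt.inl_one]
      map_zero' := by
        rw [map_zero δ, C_0, map_zero, TrivSqZeroExt.inr_zero, add_zero,
          TrivSqZeroExt.inl_zero]
      map_add' := by
        intro a b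
        rw [map_add δ, C_add, C_add, map_add, map_add, TrivSqZeroExt.inl_add,
          TrivSqZeroExt.inr_add]
        abel
      map_mul' := by
        intro a b
        rw [Derivation.leibniz, C_mul, map_mul]
        ext
        · simp
        · simp only [smul_eq_mul, TrivSqZeroExt.snd_add, TrivSqZeroExt.snd_inl,
            TrivSqZeroExt.snd_inr, TrivSqZeroExt.snd_mul, TrivSqZeroExt.fst_add,
            TrivSqZeroExt.fst_inl, TrivSqZeroExt.fst_inr, map_add, map_mul, zero_add, add_zero,
            MulOpposite.smul_eq_mul_unop, MulOpposite.unop_op, C_add, C_mul]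
          ring }
  have hφ : ∀ a : L, φ a = TrivSqZeroExt.inl (toFF L σ (C a)) +
      TrivSqZeroExt.inr (toFF L σ (C (δ a))) := fun _ => rfl
  let g : MvPolynomial σ L →+* TrivSqZeroExt K K :=
    eval₂Hom φ (fun i => TrivSqZeroExt.inl (toFF L σ (X i)))
  have hgC : ∀ a, g (C a) = φ a := fun a => eval₂Hom_C _ _ a
  have hgX : ∀ i, g (X i) = TrivSqZeroExt.inl (toFF L σ (X i)) := fun i => eval₂Hom_X' _ _ i
  have hg1 : ∀ p, (g p).fst = toFF L σ p := by
    intro p
    induction p using MvPolynomial.induction_on with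
    | C a =>
      rw [hgC, hφ, TrivSqZeroExt.fst_add, TrivSqZeroExt.fst_inl, TrivSqZeroExt.fst_inr, add_zero]
    | add f h hf hh => rw [map_add, TrivSqZeroExt.fst_add, hf, hh, map_add]
    | mul_X f i hf =>
      rw [map_mul, TrivSqZeroExt.fst_mul, hf, hgX, TrivSqZeroExt.fst_inl, map_mul]
  refine ⟨g, hg1, ?_⟩
  intro p
  induction p using MvPolynomial.induction_on with
  | C a =>
    refine ⟨C (δ a), ?_, ?_⟩
    · intro m
      rw [coeff_C, coeff_C]
      split_ifs
      · rfl
      · rw [map_zero]
    · rw [hgC, hφ, TrivSqZeroExt.snd_add, TrivSqZeroExt.snd_inl, TrivSqZeroExt.snd_inr, zero_add]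
  | add f h hf hh =>
    obtain ⟨q, hq, hq'⟩ := hf
    obtain ⟨r, hr, hr'⟩ := hh
    refine ⟨q + r, ?_, ?_⟩
    · intro m
      rw [coeff_add, coeff_add, hq, hr, map_add]
    · rw [map_add, TrivSqZeroExt.snd_add, hq', hr', map_add]
  | mul_X f i hf =>
    obtain ⟨q, hq, hq'⟩ := hf
    refine ⟨q * X i, ?_, ?_⟩
    · intro m
      rw [coeff_mul_X', coeff_mul_X']
      split_ifs
      · exact hq _
      · rw [map_zero]
    · rw [map_mul, TrivSqZeroExt.snd_mul, hq', hgX, TrivSqZeroExt.snd_inl, TrivSqZeroExt.fst_inl,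
        smul_zero, zero_add, map_mul]
      rfl

theorem exists_extDer (δ : Derivation k L L) :
    ∃ D : Derivation k (FF L σ) (FF L σ),
      (∀ p : MvPolynomial σ L, ∃ q : MvPolynomial σ L, (∀ m, coeff m q = δ (coeff m p)) ∧
        D (toFF L σ p) = toFF L σ q) ∧
      (∀ a : L, D (algebraMap L (FF L σ) a) = algebraMap L (FF L σ) (δ a)) ∧
      ∀ i, D (xx L i) = 0 := by
  classical
  obtain ⟨g, hg1, hg2⟩ := ArcExtD_hom (σ := σ) δ
  let K := FF L σ
  let R := MvPolynomial σ L
  have hunit : ∀ s : nonZeroDivisors R, IsUnit (g s) := by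
    intro s
    rw [TrivSqZeroExt.isUnit_iff_isUnit_fst, hg1]
    rw [isUnit_iff_ne_zero]
    intro h
    have h1 : (s : R) = 0 := by
      have h2 : algebraMap R K s = 0 := h
      exact (IsFractionRing.injective R K) (by rw [h2, map_zero])
    exact nonZeroDivisors.ne_zero s.2 h1
  let G : K →+* TrivSqZeroExt K K := IsLocalization.lift (M := nonZeroDivisors R) hunit
  have hG : ∀ f : R, G (toFF L σ f) = g f := by
    intro f
    exact IsLocalization.lift_eq (M := nonZeroDivisors R) hunit f
  have hG1 : ∀ x : K, (G x).fst = x := by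
    have h1 : ((TrivSqZeroExt.fstHom K K K).toRingHom.comp G) = RingHom.id K := by
      apply IsLocalization.ringHom_ext (nonZeroDivisors R)
      ext f
      · show (G (toFF L σ (C f))).fst = toFF L σ (C f)
        rw [hG, hg1]
      · show (G (toFF L σ (X f))).fst = toFF L σ (X f)
        rw [hG, hg1]
    intro x
    exact congrArg (fun h : K →+* K => h x) h1
  have hleib : ∀ x y : K, (G (x * y)).snd = x * (G y).snd + y * (G x).snd := by
    intro x y
    rw [map_mul, TrivSqZeroExt.snd_mul, hG1, hG1]
    simp [mul_comm]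
  have hC : ∀ a : L, (g (C a)).snd = toFF L σ (C (δ a)) := by
    intro a
    obtain ⟨q, hq, hq'⟩ := hg2 (C a)
    rw [hq']
    congr 1
    ext m
    rw [hq, coeff_C, coeff_C]
    split_ifs
    · rfl
    · rw [map_zero]
  refine ⟨Derivation.mk' { toFun := fun x => (G x).snd, map_add' := ?_, map_smul' := ?_ } ?_,
    ?_, ?_, ?_⟩
  · intro x y
    rw [map_add, TrivSqZeroExt.snd_add]
  · intro c x
    have h1 : c • x = toFF L σ (C (algebraMap k L c)) * x := by
      rw [Algebra.smul_def, ArcExtD_algk]
    rw [h1, hleib, hG, hC, Derivation.map_algebraMap, C_0, map_zero, mul_zero, add_zero,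
      RingHom.id_apply, Algebra.smul_def, ArcExtD_algk]
  · intro x y
    exact hleib x y
  · intro p
    obtain ⟨q, hq, hq'⟩ := hg2 p
    refine ⟨q, hq, ?_⟩
    show (G (toFF L σ p)).snd = _
    rw [hG, hq']
  · intro a
    show (G (algebraMap L (FF L σ) a)).snd = _
    rw [ArcExtD_alg, ArcExtD_alg, hG, hC]
  · intro i
    show (G (toFF L σ (X i))).snd = 0
    rw [hG]
    obtain ⟨q, hq, hq'⟩ := hg2 (X i)
    rw [hq']
    have : q = 0 := by
      ext m
      rw [hq, coeff_X, coeff_zero]
      split_ifs
      · exact Derivation.map_one_eq_zero δ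
      · rw [map_zero]
    rw [this, map_zero]

theorem exists_zDer [DecidableEq σ] :
    ∃ D : σ → Derivation k (FF L σ) (FF L σ), ∀ i,
      (∀ p : MvPolynomial σ L, D i (toFF L σ p) = toFF L σ (pderiv i p)) ∧
      (∀ a : L, D i (algebraMap L (FF L σ) a) = 0) ∧
      ∀ j, D i (xx L j) = if i = j then 1 else 0 := by
  obtain ⟨d, hd⟩ := exists_pderivFF L σ
  refine ⟨fun i => (d i).restrictScalars k, fun i => ⟨fun p => hd i p, fun a => ?_, fun j => ?_⟩⟩
  · show d i (algebraMap L (FF L σ) a) = 0
    exact Derivation.map_algebraMap _ _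
  · show d i (toFF L σ (X j)) = _
    rw [hd, pderiv_X]
    by_cases h : i = j
    · subst h
      rw [if_pos rfl, Pi.single_eq_same, map_one]
    · rw [if_neg h, Pi.single_eq_of_ne (Ne.symm h), map_zero]

end MLD
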