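import Mathlib

/-!
PIECE MLD-R16: regrading a power series by weights.

`R f = ∑ n, (sum of the terms of weight n of f) X^n`.

PROOF. For `n : ℕ` the set of `m : I →₀ ℕ` with `Finsupp.weight wt m = n` is finite (weights positive:
`m a ≤ n`; e.g. `Finsupp.finite_of_nat_weight_le`, `MvPolynomial.weightedHomogeneous` files), so
`p n := ∑ m in that finite set, monomial m (coeff m f)` is a polynomial and `R f := PowerSeries.mk p`. The
coefficient formula is immediate. It is additive, `R 1 = 1`, commutes with constants. Multiplicativity: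
compare coefficients, `coeff m (coeff n (R (f g))) = if weight m = n then ∑_(a+b=m) f_a g_b else 0`, and
`coeff m (coeff n (R f * R g)) = ∑_(p+q=n) ∑_(a+b=m) [weight a = p][weight b = q] f_a g_b`; exchange the
sums, for fixed `(a,b)` the inner sum over `(p,q)` is `[weight a + weight b = n]`.
-/

namespace MLD

universe u

private theorem ArcRegr_fin {I : Type} [Fintype I] (wt : I → ℕ) (hwt : ∀ i, 0 < wt i) (n : ℕ) :
    {m : I →₀ ℕ | Finsupp.weight wt m = n}.Finite :=
  (Finsupp.finite_of_nat_weight_le wt (fun i => (hwt i).ne') n).subset fun m hm =>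
    le_of_eq hm

private noncomputable def ArcRegr_p {κ : Type u} [Field κ] {I : Type} [Fintype I] (wt : I → ℕ)
    (hwt : ∀ i, 0 < wt i) (f : MvPowerSeries I κ) (n : ℕ) : MvPolynomial I κ :=
  ∑ m ∈ (ArcRegr_fin wt hwt n).toFinset, MvPolynomial.monomial m (MvPowerSeries.coeff m f)

private theorem ArcRegr_coeff {κ : Type u} [Field κ] {I : Type} [Fintype I] (wt : I → ℕ)
    (hwt : ∀ i, 0 < wt i) (f : MvPowerSeries I κ) (n : ℕ) (m : I →₀ ℕ) :
    MvPolynomial.coeff m (ArcRegr_p wt hwt f n) =
      if Finsupp.weight wt m = n then MvPowerSeries.coeff m f else 0 := by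
  classical
  unfold ArcRegr_p
  rw [MvPolynomial.coeff_sum]
  simp only [MvPolynomial.coeff_monomial]
  rw [Finset.sum_ite_eq']
  simp only [Set.Finite.mem_toFinset, Set.mem_ofPred_eq]

private theorem ArcRegr_inner {κ : Type u} [Field κ] (a b n : ℕ) (x y : κ) :
    ∑ pq ∈ Finset.HasAntidiagonal.antidiagonal n, (if a = pq.1 then x else 0) * (if b = pq.2 then y else 0) =
      if a + b = n then x * y else 0 := by
  split_ifs with h
  · rw [Finset.sum_eq_single (a, b)]
    · simp
    · rintro ⟨p, q⟩ _ hne
      by_cases hp : a = p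
      · by_cases hq : b = q
        · exact absurd (by rw [hp, hq]) hne
        · simp [hq]
      · simp [hp]
    · intro hn
      exact absurd (Finset.HasAntidiagonal.mem_antidiagonal.2 h) hn
  · refine Finset.sum_eq_zero ?_
    rintro ⟨p, q⟩ hpq
    rw [Finset.HasAntidiagonal.mem_antidiagonal] at hpq
    by_cases hp : a = p
    · by_cases hq : b = q
      · exact absurd (by rw [hp, hq]; exact hpq) h
      · simp [hq]
    · simp [hp]

theorem arc_regr {κ : Type u} [Field κ] {I : Type} [Fintype I] [DecidableEq I] (wt : I → ℕ)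
    (hwt : ∀ i, 0 < wt i) :
    ∃ R : MvPowerSeries I κ →ₐ[κ] PowerSeries (MvPolynomial I κ),
      ∀ f n m, MvPolynomial.coeff m (PowerSeries.coeff n (R f)) =
        if Finsupp.weight wt m = n then MvPowerSeries.coeff m f else 0 := by
  have hone : PowerSeries.mk (fun n => ArcRegr_p wt hwt (1 : MvPowerSeries I κ) n) = 1 := by
    ext n m
    rw [PowerSeries.coeff_mk, ArcRegr_coeff, PowerSeries.coeff_one, MvPowerSeries.coeff_one]
    rcases eq_or_ne m 0 with rfl | hm
    · rw [map_zero]
      rcases eq_or_ne n 0 with rfl | hn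
      · simp
      · rw [if_neg hn.symm, if_neg hn, MvPolynomial.coeff_zero]
    · rw [if_neg hm, ite_self]
      rcases eq_or_ne n 0 with rfl | hn
      · rw [if_pos rfl, MvPolynomial.coeff_one, if_neg hm.symm]
      · rw [if_neg hn, MvPolynomial.coeff_zero]
  refine ⟨
    { toFun := fun f => PowerSeries.mk (fun n => ArcRegr_p wt hwt f n)
      map_one' := hone
      map_mul' := ?_
      map_zero' := ?_
      map_add' := ?_
      commutes' := ?_ }, ?_⟩
  · intro f g
    ext n m
    rw [PowerSeries.coeff_mk, ArcRegr_coeff, PowerSeries.coeff_mul, MvPolynomial.coeff_sum,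
      MvPowerSeries.coeff_mul]
    simp only [PowerSeries.coeff_mk, MvPolynomial.coeff_mul, ArcRegr_coeff]
    rw [Finset.sum_comm]
    have h1 : ∀ x ∈ Finset.HasAntidiagonal.antidiagonal m,
        ∑ pq ∈ Finset.HasAntidiagonal.antidiagonal n,
          (if Finsupp.weight wt x.1 = pq.1 then MvPowerSeries.coeff x.1 f else 0) *
            (if Finsupp.weight wt x.2 = pq.2 then MvPowerSeries.coeff x.2 g else 0) =
        if Finsupp.weight wt m = n then
          MvPowerSeries.coeff x.1 f * MvPowerSeries.coeff x.2 g else 0 := by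
      intro x hx
      rw [ArcRegr_inner, ← map_add, Finset.HasAntidiagonal.mem_antidiagonal.1 hx]
    rw [Finset.sum_congr rfl h1]
    split_ifs with h
    · rfl
    · rw [Finset.sum_const_zero]
  · ext n m
    rw [PowerSeries.coeff_mk, ArcRegr_coeff]
    simp
  · intro f g
    ext n m
    rw [PowerSeries.coeff_mk, ArcRegr_coeff]
    simp only [map_add, PowerSeries.coeff_mk, MvPolynomial.coeff_add, ArcRegr_coeff]
    split_ifs
    · rfl
    · rw [add_zero]
  · intro c
    ext n m
    rw [PowerSeries.coeff_mk, ArcRegr_coeff, MvPowerSeries.algebraMap_apply,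
      MvPowerSeries.coeff_C, PowerSeries.algebraMap_apply, PowerSeries.coeff_C]
    rcases eq_or_ne m 0 with rfl | hm
    · rw [map_zero]
      rcases eq_or_ne n 0 with rfl | hn
      · simp
      · rw [if_neg hn.symm, if_neg hn, MvPolynomial.coeff_zero]
    · rw [if_neg hm, ite_self]
      rcases eq_or_ne n 0 with rfl | hn
      · rw [if_pos rfl, MvPolynomial.algebraMap_eq, MvPolynomial.coeff_C, if_neg hm.symm]
      · rw [if_neg hn, MvPolynomial.coeff_zero]
  · intro f n m
    change MvPolynomial.coeff m (PowerSeries.coeff n (PowerSeries.mk _)) = _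
    rw [PowerSeries.coeff_mk, ArcRegr_coeff]

end MLD
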