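import Pool.Agent.MLD.ArcTaylor
import Pool.Agent.MLD.ArcRegr

/-!
PIECE MLD-R17: the universal arc.

PROOF. `I := σ × Fin m`, weights `wt (b, l) := l + 1`, the commuting family `D (b, l) := dd b`.
`Θ` from `arc_taylor`, `res` applied to the coefficients (`MvPowerSeries.map`, as a `k`-algebra hom),
`R` from `arc_regr` restricted to scalars `k` (`AlgHom.restrictScalars`). `γ f := R (map res (Θ f))`. So
`coeff t (coeff n (γ f)) = if weight t = n then res (coeff t (Θ f)) else 0` (*).
(2): `t = 0` has weight `0`. (3): the coefficient of `X^0`: only `t = 0` has weight 0 (weights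
positive). (4): compare the coefficients at `t` of both sides: left hand side `(t (b,l) + 1) *
coeff (t + single (b,l) 1) (coeff n (γ f))`, by (*) and `arc_taylor`: `if weight t + (l+1) = n then
res (coeff t (Θ (dd b f))) else 0`, which is the right hand side. (`MvPolynomial.coeff_pderiv` or
`pderiv_monomial`; the formula `coeff t (pderiv i p) = (t i + 1) * coeff (t + single i 1) p` may have to be
proved by `MvPolynomial.induction_on'`.)
(5): `δ (res a) = res (dd b a)`; so need `dd b (coeff t (Θ f)) = coeff t (Θ (dd b f))` for all `t`: by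
induction on the degree of `t` from the recursion of `arc_taylor`, since `dd b` commutes with all `D`:
`(t a + 1) * dd b (coeff (t + single a 1) (Θ f)) = dd b (coeff t (Θ (D a f))) = coeff t (Θ (dd b (D a f))) =
coeff t (Θ (D a (dd b f))) = (t a + 1) * coeff (t + single a 1) (Θ (dd b f))`, and `t a + 1` is invertible in
the `k`-algebra `O`.
-/

open MvPolynomial

namespace MLD

universe u

private theorem arcGamma_coeff_pderiv {κ I : Type*} [CommRing κ] [DecidableEq I] (i : I)
    (p : MvPolynomial I κ) (t : I →₀ ℕ) :
    coeff t (pderiv i p) = ((t i : κ) + 1) * coeff (t + Finsupp.single i 1) p := by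
  induction p using MvPolynomial.induction_on' with
  | monomial s a =>
    rw [pderiv_monomial, coeff_monomial, coeff_monomial]
    by_cases h : s = t + Finsupp.single i 1
    · subst h
      simp [mul_comm]
    · rw [if_neg h, mul_zero]
      by_cases hs : s i = 0
      · simp [hs]
      · rw [if_neg]
        rintro rfl
        apply h
        ext j
        by_cases hj : j = i
        · subst hj
          simp
          omega
        · simp [Ne.symm hj]
  | add p q hp hq => rw [map_add, coeff_add, hp, hq, coeff_add, mul_add]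

private theorem arcGamma_unit {k O : Type*} [Field k] [CharZero k] [CommRing O] [Algebra k O]
    (n : ℕ) : IsUnit ((n : O) + 1) := by
  have h : IsUnit (algebraMap k O ((n : k) + 1)) :=
    (IsUnit.mk0 _ (Nat.cast_add_one_ne_zero n)).map _
  rwa [map_add, map_natCast, map_one] at h

private theorem arcGamma_smul {k O : Type*} [Field k] [CommRing O] [Algebra k O]
    (d : Derivation k O O) (n : ℕ) (x : O) : d (((n : O) + 1) * x) = ((n : O) + 1) * d x := by
  have h : ∀ y : O, ((n : O) + 1) * y = ((n : k) + 1) • y := by
    intro y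
    rw [Algebra.smul_def, map_add, map_natCast, map_one]
  rw [h, h, d.map_smul]

theorem arc_gamma {k κ O : Type u} [Field k] [CharZero k] [CommRing O] [Algebra k O] [Field κ]
    [Algebra k κ] (res : O →ₐ[k] κ) {σ : Type} [Fintype σ] [DecidableEq σ]
    (dd : σ → Derivation k O O) (hcomm : ∀ a b f, dd a (dd b f) = dd b (dd a f)) (m : ℕ) :
    ∃ γ : O →ₐ[k] PowerSeries (MvPolynomial (σ × Fin m) κ),
      (∀ f n, coeff 0 (PowerSeries.coeff n (γ f)) = if n = 0 then res f else 0) ∧
      (∀ f, PowerSeries.coeff 0 (γ f) = C (res f)) ∧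
      (∀ f b (l : Fin m) n, pderiv (b, l) (PowerSeries.coeff n (γ f)) =
        if l.val + 1 ≤ n then PowerSeries.coeff (n - (l.val + 1)) (γ (dd b f)) else 0) ∧
      ∀ (b : σ) (δ : Derivation k κ κ), (∀ f, δ (res f) = res (dd b f)) →
        ∀ f n t, δ (coeff t (PowerSeries.coeff n (γ f))) =
          coeff t (PowerSeries.coeff n (γ (dd b f))) := by
  classical
  obtain ⟨Θ, hΘ0, hΘ⟩ := arc_taylor (I := σ × Fin m) (fun p => dd p.1)
    (fun a b f => hcomm a.1 b.1 f)
  obtain ⟨R, hR⟩ := arc_regr (κ := κ) (I := σ × Fin m) (fun p => p.2.val + 1)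
    (fun p => Nat.succ_pos _)
  set wt : σ × Fin m → ℕ := fun p => p.2.val + 1 with hwt
  let γ : O →ₐ[k] PowerSeries (MvPolynomial (σ × Fin m) κ) :=
    { toRingHom := R.toRingHom.comp ((MvPowerSeries.map res.toRingHom).comp Θ.toRingHom)
      commutes' := by
        intro c
        show R (MvPowerSeries.map res.toRingHom (Θ (algebraMap k O c))) = _
        rw [AlgHom.commutes, MvPowerSeries.algebraMap_apply, MvPowerSeries.map_C]
        have h1 : res.toRingHom (algebraMap k O c) = algebraMap k κ c := res.commutes c
        rw [h1]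
        have h2 : (MvPowerSeries.C (algebraMap k κ c) : MvPowerSeries (σ × Fin m) κ) =
            algebraMap κ _ (algebraMap k κ c) := by
          rw [MvPowerSeries.algebraMap_apply]
          rfl
        rw [h2, AlgHom.commutes, PowerSeries.algebraMap_apply, PowerSeries.algebraMap_apply]
        rfl }
  have hγ : ∀ f n t, coeff t (PowerSeries.coeff n (γ f)) =
      if Finsupp.weight wt t = n then res (MvPowerSeries.coeff t (Θ f)) else 0 := by
    intro f n t
    have h1 : γ f = R (MvPowerSeries.map res.toRingHom (Θ f)) := rfl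
    rw [h1, hR, MvPowerSeries.coeff_map]
    rfl
  have hw0 : ∀ t : σ × Fin m →₀ ℕ, Finsupp.weight wt t = 0 ↔ t = 0 := by
    intro t
    constructor
    · intro h
      ext p
      have h1 := Finsupp.le_weight wt (Nat.succ_ne_zero p.2.val : wt p ≠ 0) t
      rw [h] at h1
      simpa using h1
    · rintro rfl
      exact map_zero _
  have hws : ∀ (t : σ × Fin m →₀ ℕ) (p : σ × Fin m),
      Finsupp.weight wt (t + Finsupp.single p 1) = Finsupp.weight wt t + (p.2.val + 1) := by
    intro t p
    rw [map_add, Finsupp.weight_single, one_smul]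
  have hcoef0 : ∀ f, MvPowerSeries.coeff 0 (Θ f) = f := by
    intro f
    rw [MvPowerSeries.coeff_zero_eq_constantCoeff_apply, hΘ0]
  have hdd : ∀ (b : σ) (N : ℕ) (t : σ × Fin m →₀ ℕ), ∑ p, t p = N → ∀ f,
      dd b (MvPowerSeries.coeff t (Θ f)) = MvPowerSeries.coeff t (Θ (dd b f)) := by
    intro b N
    induction N with
    | zero =>
      intro t ht f
      have h1 : t = 0 := by
        ext p
        exact (Finset.sum_eq_zero_iff.1 ht) p (Finset.mem_univ p)
      rw [h1, hcoef0, hcoef0]
    | succ N ih =>
      intro t ht f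
      obtain ⟨a, ha⟩ : ∃ a, t a ≠ 0 := by
        by_contra hcon
        push Not at hcon
        rw [Finset.sum_eq_zero fun p _ => hcon p] at ht
        omega
      obtain ⟨t', rfl⟩ : ∃ t', t = t' + Finsupp.single a 1 := by
        refine ⟨t - Finsupp.single a 1, ?_⟩
        rw [tsub_add_cancel_of_le]
        rw [Finsupp.single_le_iff]
        omega
      have hsum : ∑ p, t' p = N := by
        have h2 : ∑ p, (t' + Finsupp.single a 1 : σ × Fin m →₀ ℕ) p = ∑ p, t' p + 1 := by
          simp only [Finsupp.add_apply, Finset.sum_add_distrib]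
          congr 1
          rw [Finset.sum_eq_single a]
          · simp
          · intro p _ hp
            simp [Ne.symm hp]
          · intro h
            exact absurd (Finset.mem_univ a) h
        omega
      have e1 := congrArg (dd b) (hΘ f a t')
      rw [arcGamma_smul, ih t' hsum] at e1
      have e2 := hΘ (dd b f) a t'
      rw [hcomm b a.1 f] at e1
      rw [← e2] at e1
      exact (arcGamma_unit (k := k) (t' a)).mul_left_cancel e1
  refine ⟨γ, ?_, ?_, ?_, ?_⟩
  · intro f n
    rw [hγ, map_zero, hcoef0]
    simp only [eq_comm]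
  · intro f
    ext t
    rw [hγ, coeff_C]
    by_cases ht : t = 0
    · subst ht
      rw [if_pos (map_zero _), if_pos rfl, hcoef0]
    · rw [if_neg (fun h => ht ((hw0 t).1 h)), if_neg (Ne.symm ht)]
  · intro f b l n
    ext t
    rw [arcGamma_coeff_pderiv, hγ, hws]
    by_cases hn : l.val + 1 ≤ n
    · rw [if_pos hn, hγ]
      by_cases ht : Finsupp.weight wt t = n - (l.val + 1)
      · have e1 := hΘ f (b, l) t
        rw [if_pos ht, if_pos (show Finsupp.weight wt t + (l.val + 1) = n by omega), ← e1,
          map_mul, map_add, map_natCast, map_one]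
      · rw [if_neg ht, if_neg (show ¬ Finsupp.weight wt t + (l.val + 1) = n by omega), mul_zero]
    · rw [if_neg hn, if_neg (show ¬ Finsupp.weight wt t + (l.val + 1) = n by omega), mul_zero,
        coeff_zero]
  · intro b δ hδ f n t
    rw [hγ, hγ]
    by_cases ht : Finsupp.weight wt t = n
    · rw [if_pos ht, if_pos ht, hδ, hdd b _ t rfl]
    · rw [if_neg ht, if_neg ht, map_zero]

end MLD
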