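import Pool.Agent.MLD.ArcLen

/-!
PIECE MLD-R13: the rank of the coefficient matrix.

PROOF. `I := σ × Fin m`, `n := card σ`. Let `Φ` be the `L`-matrix with rows `(b, l) : σ × Fin m`, columns
`t : I`, entries `coeff t.2 (X^l * H t.1 b)`. Choose `T` such that the columns in `T` are linearly
independent and `T.card = Φ.rank` (a basis of the column space among the columns:
`exists_linearIndependent'`, or `Matrix.rank_eq_finrank_span_cols` and
`exists_linearIndependent`). The last condition of the statement is the linear independence of the columns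
in `T`. It remains to show `n m ≤ Φ.rank + μ`. The space of the covectors: let `Kr := {ℓ : I → L | ∀ (b,l),
∑ t, ℓ t * Φ (b,l) t = 0}` (kernel of `Φ.mulVecLin`), `finrank Kr = n m - rank Φ`. Suppose `finrank Kr > μ`,
choose `N := μ + 1` linearly independent `ℓ_0, ..., ℓ_μ ∈ Kr` and dual vectors `v_0, ..., v_μ ∈ I → L` with
`∑ t, ℓ_p t * v_q t = if p = q then 1 else 0` (linearly independent functionals have dual vectors). Put
`V_q : σ → L⟦X⟧`, `V_q s := ∑ j, C (v_q (s, j)) * X^j`. By `arc_len` there is `a ≠ 0` with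
`∑ a_q V_q = H *ᵥ w`. Apply the functional `F_p (u) := ∑ t, ℓ_p t * coeff t.2 (u t.1)`: the left hand side
gives `a_p`. The right hand side gives `∑ t, ℓ_p t * coeff t.2 (∑ b, H t.1 b * w b)`; write
`w b = ∑_(l < m) C (w_bl) X^l + X^m (..)`; the coefficients `t.2 < m` only see the first part, so it is
`∑_(b,l) w_bl ∑ t, ℓ_p t * coeff t.2 (X^l H t.1 b) = 0`. So `a = 0`, contradiction.
-/

open Matrix

namespace MLD

universe u

private theorem arcRank_cols {L : Type u} [Field L] {I J : Type} [Fintype I] [Fintype J]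
    [DecidableEq J] (A : Matrix I J L) :
    ∃ T : Finset J, T.card = A.rank ∧ ∀ a : J → L, (∀ t, t ∉ T → a t = 0) →
      (∀ i, ∑ t, a t * A i t = 0) → a = 0 := by
  obtain ⟨κ, e, he, hspan, hli⟩ := exists_linearIndependent' L A.col
  haveI : Finite κ := Finite.of_injective e he
  haveI : Fintype κ := Fintype.ofFinite κ
  refine ⟨Finset.univ.map ⟨e, he⟩, ?_, ?_⟩
  · rw [Finset.card_map, Finset.card_univ, Matrix.rank_eq_finrank_span_cols, ← hspan,
      finrank_span_eq_card hli]
  · intro a ha hA
    rw [Fintype.linearIndependent_iff] at hli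
    have h1 : ∑ c, a (e c) • (A.col ∘ e) c = 0 := by
      ext i
      rw [Finset.sum_apply, Pi.zero_apply, ← hA i]
      have h2 : ∑ t, a t * A i t = ∑ t ∈ Finset.univ.map ⟨e, he⟩, a t * A i t := by
        symm
        apply Finset.sum_subset (Finset.subset_univ _)
        intro t _ ht
        rw [ha t ht, zero_mul]
      rw [h2, Finset.sum_map]
      rfl
    have h2 := hli _ h1
    ext t
    by_cases ht : t ∈ Finset.univ.map ⟨e, he⟩
    · rw [Finset.mem_map] at ht
      obtain ⟨c, _, hc⟩ := ht
      rw [← hc]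
      exact h2 c
    · exact ha t ht

private theorem arcRank_dual {L : Type u} [Field L] {I J : Type} [Fintype I] [Fintype J]
    [DecidableEq J] (A : Matrix I J L) (N : ℕ) (hN : A.rank + N ≤ Fintype.card J) :
    ∃ l v : Fin N → J → L, (∀ p i, ∑ t, l p t * A i t = 0) ∧
      ∀ p q, ∑ t, l p t * v q t = if p = q then 1 else 0 := by
  have h1 := LinearMap.finrank_range_add_finrank_ker A.mulVecLin
  rw [Module.finrank_fintype_fun_eq_card] at h1
  have h2 : N ≤ Module.finrank L (LinearMap.ker A.mulVecLin) := by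
    have h3 : A.rank = Module.finrank L (LinearMap.range A.mulVecLin) := rfl
    omega
  let b := Module.finBasis L (LinearMap.ker A.mulVecLin)
  let l : Fin N → J → L := fun p => (b (Fin.castLE h2 p) : J → L)
  have hli : LinearIndependent L l := by
    have h3 : LinearIndependent L (fun p : Fin N => b (Fin.castLE h2 p)) :=
      b.linearIndependent.comp _ (Fin.castLE_injective h2)
    exact h3.map' (LinearMap.ker A.mulVecLin).subtype (Submodule.ker_subtype _)
  let f : (Fin N → L) →ₗ[L] (J → L) := Fintype.linearCombination L l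
  have hf : LinearMap.ker f = ⊥ := by
    rw [LinearMap.ker_eq_bot']
    intro c hc
    rw [Fintype.linearIndependent_iff] at hli
    ext i
    exact hli c hc i
  obtain ⟨g, hg⟩ := LinearMap.exists_leftInverse_of_injective f hf
  refine ⟨l, fun q t => g (Pi.single t 1) q, ?_, ?_⟩
  · intro p i
    have h3 : A.mulVecLin (l p) = 0 := (b (Fin.castLE h2 p)).2
    have h4 := congrFun h3 i
    rw [Matrix.mulVecLin_apply, Pi.zero_apply] at h4
    rw [← h4]
    exact Finset.sum_congr rfl fun t _ => mul_comm _ _
  · intro p q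
    have h3 : f (Pi.single p 1) = l p := by
      show ∑ i, (Pi.single p (1 : L) : Fin N → L) i • l i = l p
      rw [Finset.sum_eq_single p]
      · rw [Pi.single_eq_same, one_smul]
      · intro i _ hi
        rw [Pi.single_eq_of_ne hi, zero_smul]
      · intro h
        exact absurd (Finset.mem_univ p) h
    have h4 : g (l p) = Pi.single p 1 := by
      rw [← h3]
      exact congrArg (fun φ : (Fin N → L) →ₗ[L] (Fin N → L) => φ (Pi.single p 1)) hg
    have h5 : l p = ∑ t, l p t • (Pi.single t (1 : L) : J → L) := by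
      ext t
      rw [Finset.sum_apply, Finset.sum_eq_single t]
      · rw [Pi.smul_apply, Pi.single_eq_same, smul_eq_mul, mul_one]
      · intro i _ hi
        rw [Pi.smul_apply, Pi.single_eq_of_ne hi.symm, smul_zero]
      · intro h
        exact absurd (Finset.mem_univ t) h
    have h6 : g (l p) q = ∑ t, l p t * g (Pi.single t 1) q := by
      conv_lhs => rw [h5, map_sum]
      rw [Finset.sum_apply]
      refine Finset.sum_congr rfl fun t _ => ?_
      rw [map_smul, Pi.smul_apply, smul_eq_mul]
    show ∑ t, l p t * g (Pi.single t 1) q = _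
    rw [← h6, h4, Pi.single_apply]
    by_cases hpq : p = q
    · rw [if_pos hpq, if_pos hpq.symm]
    · rw [if_neg hpq, if_neg (fun h => hpq h.symm)]

private theorem arcRank_coeff {L : Type u} [Field L] (h w : PowerSeries L) (m n : ℕ)
    (hn : n < m) :
    PowerSeries.coeff n (h * w) =
      ∑ l : Fin m, PowerSeries.coeff l.val w *
        PowerSeries.coeff n ((PowerSeries.X : PowerSeries L) ^ l.val * h) := by
  have h1 : ∀ l : Fin m, PowerSeries.coeff l.val w *
        PowerSeries.coeff n ((PowerSeries.X : PowerSeries L) ^ l.val * h) =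
      (fun l : ℕ => if l ≤ n then PowerSeries.coeff l w * PowerSeries.coeff (n - l) h else 0)
        l.val := by
    intro l
    rw [PowerSeries.coeff_X_pow_mul', mul_ite, mul_zero]
  rw [Finset.sum_congr rfl fun l _ => h1 l, Fin.sum_univ_eq_sum_range
    (fun l : ℕ => if l ≤ n then PowerSeries.coeff l w * PowerSeries.coeff (n - l) h else 0) m,
    mul_comm h w, PowerSeries.coeff_mul,
    Finset.Nat.sum_antidiagonal_eq_sum_range_succ
      (fun i j => PowerSeries.coeff i w * PowerSeries.coeff j h) n]
  have h2 : Finset.range n.succ ⊆ Finset.range m := by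
    intro x hx
    rw [Finset.mem_range] at hx ⊢
    omega
  rw [← Finset.sum_subset h2 (fun x _ hx => if_neg (by
    rw [Finset.mem_range] at hx
    omega))]
  refine Finset.sum_congr rfl fun x hx => ?_
  rw [if_pos (by
    rw [Finset.mem_range] at hx
    omega)]

theorem arc_rank {L : Type u} [Field L] {σ : Type} [Fintype σ] [DecidableEq σ]
    (H : Matrix σ σ (PowerSeries L)) (hH : H.det ≠ 0) (μ : ℕ) (hμ : H.det.order = μ) (m : ℕ) :
    ∃ T : Finset (σ × Fin m), Fintype.card σ * m ≤ T.card + μ ∧
      ∀ a : σ × Fin m → L, (∀ t, t ∉ T → a t = 0) →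
        (∀ (b : σ) (l : Fin m), ∑ t : σ × Fin m,
          a t * PowerSeries.coeff t.2.val ((PowerSeries.X : PowerSeries L) ^ l.val * H t.1 b) = 0) →
        a = 0 := by
  let A : Matrix (σ × Fin m) (σ × Fin m) L := Matrix.of fun bl t =>
    PowerSeries.coeff t.2.val ((PowerSeries.X : PowerSeries L) ^ bl.2.val * H t.1 bl.1)
  have hA : ∀ bl t, A bl t =
    PowerSeries.coeff t.2.val ((PowerSeries.X : PowerSeries L) ^ bl.2.val * H t.1 bl.1) :=
    fun _ _ => rfl
  obtain ⟨T, hT, hT2⟩ := arcRank_cols A
  refine ⟨T, ?_, fun a ha h => hT2 a ha fun i => h i.1 i.2⟩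
  by_contra hlt
  have hcard : Fintype.card (σ × Fin m) = Fintype.card σ * m := by
    rw [Fintype.card_prod, Fintype.card_fin]
  obtain ⟨l, v, hl, hlv⟩ := arcRank_dual A (μ + 1) (by omega)
  let V : Fin (μ + 1) → σ → PowerSeries L := fun q s => PowerSeries.mk fun n =>
    if h : n < m then v q (s, ⟨n, h⟩) else 0
  have hV : ∀ q (t : σ × Fin m), PowerSeries.coeff t.2.val (V q t.1) = v q t := by
    intro q t
    rw [PowerSeries.coeff_mk, dif_pos t.2.2]
  obtain ⟨a, ha, w, hw⟩ := arc_len H hH (N := μ + 1) (by
    rw [hμ]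
    exact_mod_cast Nat.lt_succ_self μ) V
  apply ha
  ext p
  rw [Pi.zero_apply]
  have h1 : ∑ t : σ × Fin m, l p t * PowerSeries.coeff t.2.val
      ((fun s => ∑ i, PowerSeries.C (a i) * V i s) t.1) = a p := by
    have h2 : ∀ t : σ × Fin m, l p t * PowerSeries.coeff t.2.val
        ((fun s => ∑ i, PowerSeries.C (a i) * V i s) t.1) =
          ∑ i, a i * (l p t * v i t) := by
      intro t
      show l p t * PowerSeries.coeff t.2.val (∑ i, PowerSeries.C (a i) * V i t.1) = _
      rw [map_sum, Finset.mul_sum]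
      refine Finset.sum_congr rfl fun i _ => ?_
      rw [PowerSeries.coeff_C_mul, hV]
      ring
    rw [Finset.sum_congr rfl fun t _ => h2 t, Finset.sum_comm]
    have h3 : ∀ i, ∑ t : σ × Fin m, a i * (l p t * v i t) = if p = i then a i else 0 := by
      intro i
      rw [← Finset.mul_sum, hlv p i, mul_ite, mul_one, mul_zero]
    rw [Finset.sum_congr rfl fun i _ => h3 i, Finset.sum_ite_eq, if_pos (Finset.mem_univ p)]
  have h2 : ∑ t : σ × Fin m, l p t * PowerSeries.coeff t.2.val ((H.mulVec w) t.1) = 0 := by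
    have h3 : ∀ t : σ × Fin m, l p t * PowerSeries.coeff t.2.val ((H.mulVec w) t.1) =
        ∑ b : σ, ∑ j : Fin m, PowerSeries.coeff j.val (w b) * (l p t * A (b, j) t) := by
      intro t
      have h4 : (H.mulVec w) t.1 = ∑ b, H t.1 b * w b := rfl
      rw [h4, map_sum, Finset.mul_sum]
      refine Finset.sum_congr rfl fun b _ => ?_
      rw [arcRank_coeff (H t.1 b) (w b) m t.2.val t.2.2, Finset.mul_sum]
      refine Finset.sum_congr rfl fun j _ => ?_
      rw [hA]
      ring
    rw [Finset.sum_congr rfl fun t _ => h3 t, Finset.sum_comm]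
    refine Finset.sum_eq_zero fun b _ => ?_
    rw [Finset.sum_comm]
    refine Finset.sum_eq_zero fun j _ => ?_
    rw [← Finset.mul_sum, hl p (b, j), mul_zero]
  rw [← h1, hw, h2]

end MLD
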