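import Pool.Agent.MLD.ArcDefs

/-!
PIECE MLD-R07: residually algebraically independent families and transcendence degree.

PROOF of `arc_abh`. Suppose not: `¬ ResAlg v y f`, so for every `P ≠ 0` in `(MvPolynomial B k)[T]`
`P(y,f) ≠ 0` and `v.ord (P(y,f)) ≤ 0`; since `y b` (`hy (X b)`) and `f` have order `≥ 0`, the order is `0`.
Then `π, f, y b` are algebraically independent: let `Q ≠ 0` be a polynomial in `Option (Option B)` variables
(or in `Polynomial (Polynomial (MvPolynomial B k))`), `Q = ∑ π^j Q_j(y,f)`; every nonzero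
`Q_j(y,f)` has order 0, so the terms `π^j Q_j(y,f)` have different orders `j * ord π`, and the smallest
one wins (`ord_add_eq`): `Q(π,f,y) ≠ 0`. So `FF k σ` contains `card B + 2 = card σ + 1` algebraically
independent elements, but its transcendence degree over `k` is `card σ` (`MvPolynomial.trdeg_of_isDomain` or
`Algebra.trdeg` lemmas, `AlgebraicIndependent.cardinalMk_le_trdeg` ..., the variables form a transcendence
basis of the field of fractions; see `Mathlib/RingTheory/AlgebraicIndependent`).
`resAlg_of_not_rai`: if `y : Fin d → K` is residually independent but no family `Fin (d+1) → K` is, then every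
`f` of order `≥ 0` is residually algebraic: apply the hypothesis to `Fin.cons f y`, get `P ≠ 0` in
`MvPolynomial (Fin (d+1)) k` with `aeval .. P = 0` or order `≠ 0`, the order is `≥ 0` so `ge 1`; transport `P`
by `MvPolynomial.finSuccEquiv`.
-/

open MvPolynomial

namespace MLD

universe u

private theorem ArcAbh_ge0 {k K : Type u} [Field k] [Field K] [Algebra k K] (v : OrdFn k K)
    {B : Type*} (z : B → K) (hz : ∀ P : MvPolynomial B k, v.ge 0 (aeval z P))
    (b : K) (hb : v.ge 0 b) (R : Polynomial (MvPolynomial B k)) :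
    v.ge 0 (Polynomial.eval₂ (aeval z : MvPolynomial B k →ₐ[k] K).toRingHom b R) := by
  rw [Polynomial.eval₂_eq_sum_range]
  refine v.ge_sum _ _ fun i _ => ?_
  have h1 : v.ge 0 ((aeval z : MvPolynomial B k →ₐ[k] K).toRingHom (R.coeff i)) := hz _
  have h2 := v.ge_mul h1 (v.ge_pow hb i)
  simpa using h2

private theorem ArcAbh_rai_ge {k K : Type u} [Field k] [Field K] [Algebra k K] (v : OrdFn k K)
    {B : Type*} (z : B → K) (hz : RAI v z) (P : MvPolynomial B k) : v.ge 0 (aeval z P) := by
  by_cases hP : P = 0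
  · rw [hP, map_zero]
    exact v.ge_zero 0
  · exact Or.inr (hz P hP).2.ge

private theorem ArcAbh_opt {k K : Type u} [Field k] [Field K] [Algebra k K]
    {B : Type*} (z : B → K) (b : K) (P : MvPolynomial (Option B) k) :
    aeval (fun o : Option B => o.elim b z) P =
      Polynomial.eval₂ (aeval z : MvPolynomial B k →ₐ[k] K).toRingHom b (optionEquivLeft k B P) := by
  induction P using MvPolynomial.induction_on with
  | C a =>
    rw [optionEquivLeft_C, Polynomial.eval₂_C, aeval_C]
    exact ((aeval z : MvPolynomial B k →ₐ[k] K).commutes a).symm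
  | add p q hp hq => rw [map_add, map_add, Polynomial.eval₂_add, hp, hq]
  | mul_X p i hp =>
    rw [map_mul, map_mul, Polynomial.eval₂_mul, hp, aeval_X]
    congr 1
    cases i with
    | none => rw [optionEquivLeft_X_none, Polynomial.eval₂_X]; rfl
    | some j =>
      rw [optionEquivLeft_X_some, Polynomial.eval₂_C]
      exact (aeval_X z j).symm

private theorem ArcAbh_fin {k K : Type u} [Field k] [Field K] [Algebra k K]
    {d : ℕ} (z : Fin d → K) (b : K) (P : MvPolynomial (Fin (d + 1)) k) :
    aeval (Fin.cons b z : Fin (d + 1) → K) P =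
      Polynomial.eval₂ (aeval z : MvPolynomial (Fin d) k →ₐ[k] K).toRingHom b
        (finSuccEquiv k d P) := by
  induction P using MvPolynomial.induction_on with
  | C a =>
    have h := RingHom.congr_fun (finSuccEquiv_comp_C_eq_C (R := k) d) a
    have h2 : finSuccEquiv k d (C a) = Polynomial.C (C a) := by
      simpa using (finSuccEquiv k d).commutes a
    rw [h2, Polynomial.eval₂_C, aeval_C]
    exact ((aeval z : MvPolynomial (Fin d) k →ₐ[k] K).commutes a).symm
  | add p q hp hq => rw [map_add, map_add, Polynomial.eval₂_add, hp, hq]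
  | mul_X p i hp =>
    rw [map_mul, map_mul, Polynomial.eval₂_mul, hp, aeval_X]
    congr 1
    refine Fin.cases ?_ (fun j => ?_) i
    · rw [finSuccEquiv_X_zero, Polynomial.eval₂_X]; rfl
    · rw [finSuccEquiv_X_succ, Polynomial.eval₂_C]
      exact (aeval_X z j).symm

/-- a polynomial in an element of positive order, with coefficients polynomials in a residually
independent family, does not vanish -/
private theorem ArcAbh_pi {k K : Type u} [Field k] [Field K] [Algebra k K] (v : OrdFn k K)
    {B : Type*} (z : B → K) (hz : RAI v z) (π : K) (hπ : π ≠ 0) (hπ0 : 0 < v.ord π) :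
    ∀ (n : ℕ) (P : Polynomial (MvPolynomial B k)), P.natDegree < n → P ≠ 0 →
      Polynomial.eval₂ (aeval z : MvPolynomial B k →ₐ[k] K).toRingHom π P ≠ 0 := by
  intro n
  induction n with
  | zero => intro P h; omega
  | succ n ih =>
    intro P hn hP
    have hdec : Polynomial.eval₂ (aeval z : MvPolynomial B k →ₐ[k] K).toRingHom π P =
        aeval z (P.coeff 0) +
          π * Polynomial.eval₂ (aeval z : MvPolynomial B k →ₐ[k] K).toRingHom π P.divX := by
      conv_lhs => rw [← Polynomial.X_mul_divX_add P]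
      rw [Polynomial.eval₂_add, Polynomial.eval₂_mul, Polynomial.eval₂_X, Polynomial.eval₂_C,
        add_comm]
      rfl
    rw [hdec]
    have hge : v.ge 1 (π * Polynomial.eval₂ (aeval z : MvPolynomial B k →ₐ[k] K).toRingHom π
        P.divX) := by
      have h1 : v.ge 1 π := Or.inr hπ0
      have h2 := ArcAbh_ge0 v z (ArcAbh_rai_ge v z hz) π (v.ge_mono (by norm_num) h1) P.divX
      simpa using v.ge_mul h1 h2
    by_cases h0 : P.coeff 0 = 0
    · rw [h0, map_zero, zero_add]
      refine mul_ne_zero hπ ?_
      have hdne : P.divX ≠ 0 := by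
        intro h
        have := Polynomial.X_mul_divX_add P
        rw [h, h0] at this
        apply hP
        rw [← this]
        simp
      have hnd : P.natDegree ≠ 0 := by
        intro h
        apply hP
        rw [Polynomial.eq_C_of_natDegree_eq_zero h, h0, map_zero]
      refine ih _ ?_ hdne
      rw [Polynomial.natDegree_divX_eq_natDegree_tsub_one]
      omega
    · obtain ⟨h1, h2⟩ := hz _ h0
      have := v.ord_add_eq h1 (g := π * Polynomial.eval₂
        (aeval z : MvPolynomial B k →ₐ[k] K).toRingHom π P.divX) (by rw [h2]; simpa using hge)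
      exact this.1

private theorem ArcAbh_trdeg {k : Type u} [Field k] {σ : Type} [Fintype σ] {C : Type} [Fintype C]
    (x : C → FF k σ) (hx : AlgebraicIndependent k x) : Fintype.card C ≤ Fintype.card σ := by
  have h1 := hx.lift_cardinalMk_le_trdeg
  have h2 : Algebra.trdeg k (FF k σ) = Cardinal.lift.{u} (Cardinal.mk σ) := by
    have h3 := _root_.trdeg_add_eq k (MvPolynomial σ k) (A := FF k σ)
    have : Algebra.IsAlgebraic (MvPolynomial σ k) (FF k σ) :=
      (IsFractionRing.comap_isAlgebraic_iff (A := MvPolynomial σ k) (K := FF k σ) (C := FF k σ)).2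
        inferInstance
    rw [_root_.trdeg_eq_zero (R := MvPolynomial σ k), MvPolynomial.trdeg_of_isDomain] at h3
    rw [← h3]
    simp
  rw [h2] at h1
  simpa using h1

theorem arc_abh {k : Type u} [Field k] {σ : Type} [Fintype σ] (v : OrdFn k (FF k σ))
    (π : FF k σ) (hπ : π ≠ 0) (hπ0 : 0 < v.ord π) {B : Type} [Fintype B]
    (hB : Fintype.card B + 1 = Fintype.card σ) (y : B → FF k σ) (hy : RAI v y)
    (f : FF k σ) (hf : f ≠ 0) (hf0 : 0 ≤ v.ord f) : ResAlg v y f := by
  by_contra hcon
  have hz : RAI v (fun o : Option B => o.elim f y) := by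
    intro P hP
    rw [ArcAbh_opt y f P]
    have hne : optionEquivLeft k B P ≠ 0 := by
      rwa [Ne, EmbeddingLike.map_eq_zero_iff]
    have h1 : ¬ v.ge 1 (Polynomial.eval₂ (aeval y : MvPolynomial B k →ₐ[k] FF k σ).toRingHom f
        (optionEquivLeft k B P)) := fun h => hcon ⟨_, hne, h⟩
    have h2 := ArcAbh_ge0 v y (ArcAbh_rai_ge v y hy) f (Or.inr hf0) (optionEquivLeft k B P)
    have h3 : Polynomial.eval₂ (aeval y : MvPolynomial B k →ₐ[k] FF k σ).toRingHom f
        (optionEquivLeft k B P) ≠ 0 := fun h => h1 (Or.inl h)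
    refine ⟨h3, ?_⟩
    rcases h2 with h2 | h2
    · exact absurd h2 h3
    · have h4 : ¬ (1 : ℤ) ≤ v.ord (Polynomial.eval₂
          (aeval y : MvPolynomial B k →ₐ[k] FF k σ).toRingHom f (optionEquivLeft k B P)) :=
        fun h => h1 (Or.inr h)
      omega
  have hind : AlgebraicIndependent k
      (fun o : Option (Option B) => o.elim π (fun o : Option B => o.elim f y)) := by
    rw [algebraicIndependent_iff]
    intro P hP
    by_contra hne
    rw [ArcAbh_opt] at hP
    refine ArcAbh_pi v _ hz π hπ hπ0 _ (optionEquivLeft k (Option B) P) (Nat.lt_succ_self _) ?_ hP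
    rwa [Ne, EmbeddingLike.map_eq_zero_iff]
  have := ArcAbh_trdeg _ hind
  rw [Fintype.card_option, Fintype.card_option] at this
  omega

theorem resAlg_of_not_rai {k K : Type u} [Field k] [Field K] [Algebra k K] (v : OrdFn k K)
    {d : ℕ} (y : Fin d → K) (hy : RAI v y) (hmax : ¬ ∃ y' : Fin (d + 1) → K, RAI v y')
    (f : K) (hf : f ≠ 0) (hf0 : 0 ≤ v.ord f) : ResAlg v y f := by
  by_contra hcon
  apply hmax
  refine ⟨Fin.cons f y, fun P hP => ?_⟩
  rw [ArcAbh_fin y f P]
  have hne : finSuccEquiv k d P ≠ 0 := by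
    rwa [Ne, EmbeddingLike.map_eq_zero_iff]
  have h1 : ¬ v.ge 1 (Polynomial.eval₂ (aeval y : MvPolynomial (Fin d) k →ₐ[k] K).toRingHom f
      (finSuccEquiv k d P)) := fun h => hcon ⟨_, hne, h⟩
  have h2 := ArcAbh_ge0 v y (ArcAbh_rai_ge v y hy) f (Or.inr hf0) (finSuccEquiv k d P)
  have h3 : Polynomial.eval₂ (aeval y : MvPolynomial (Fin d) k →ₐ[k] K).toRingHom f
      (finSuccEquiv k d P) ≠ 0 := fun h => h1 (Or.inl h)
  refine ⟨h3, ?_⟩
  rcases h2 with h2 | h2
  · exact absurd h2 h3
  · have h4 : ¬ (1 : ℤ) ≤ v.ord (Polynomial.eval₂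
        (aeval y : MvPolynomial (Fin d) k →ₐ[k] K).toRingHom f (finSuccEquiv k d P)) :=
      fun h => h1 (Or.inr h)
    omega

end MLD
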