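import Pool.Agent.MLD.ArcDefs
import Pool.Agent.MLD.Der

/-!
PIECE MLD-R05: derivations along a homomorphism from the function field.

PROOF. Both sides are additive and satisfy the Leibniz rule `δ (f g) = ι f * δ g + ι g * δ f` and vanish on
constants; they agree on `X i` (`d j (X i) = if ..`), so on polynomials (`MvPolynomial.induction_on`), so on
quotients: from `f * b = a` one gets `ι b * δ f = δ a - ι f * δ b`, `ι b ≠ 0`. (`PsDer.lean`,
`derPF`, contains the same argument for another target.)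
-/

open MvPolynomial

namespace MLD

universe u

/-- the chain rule with values in a field -/
private theorem ArcFW_gen {k : Type*} [Field k] {σ : Type} {K : Type*} [Field K] [Algebra k K]
    [Fintype σ] (Φ : FF k σ →ₐ[k] K) (D : Derivation k K K)
    (d : σ → Derivation k (FF k σ) (FF k σ))
    (hd : ∀ i f, d i (toFF k σ f) = toFF k σ (pderiv i f)) (f : FF k σ) :
    D (Φ f) = ∑ j, D (Φ (xx k j)) * Φ (d j f) := by
  classical
  have hx : ∀ p : MvPolynomial σ k, Φ (toFF k σ p) = aeval (fun j => Φ (xx k j)) p := by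
    intro p
    have h1 : (Φ.comp (toFF k σ)) = aeval (fun j => Φ (xx k j)) := by
      apply MvPolynomial.algHom_ext
      intro j
      rw [aeval_X]
      rfl
    exact congrArg (fun h : MvPolynomial σ k →ₐ[k] K => h p) h1
  have hp : ∀ p : MvPolynomial σ k, D (Φ (toFF k σ p)) =
      ∑ j, D (Φ (xx k j)) * Φ (d j (toFF k σ p)) := by
    intro p
    rw [hx, der_aeval]
    refine Finset.sum_congr rfl fun j _ => ?_
    rw [hd, hx, mul_comm]
  obtain ⟨a, b, hb, rfl⟩ := IsFractionRing.div_surjective (A := MvPolynomial σ k) f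
  have hb0 : toFF k σ b ≠ 0 := by
    intro h
    have h1 : b = 0 := (IsFractionRing.injective (MvPolynomial σ k) (FF k σ)) (by
      rw [map_zero]; exact h)
    exact nonZeroDivisors.ne_zero hb h1
  have hab : toFF k σ a = (toFF k σ a / toFF k σ b) * toFF k σ b := by
    rw [div_mul_cancel₀ _ hb0]
  set f := toFF k σ a / toFF k σ b with hf
  change D (Φ f) = ∑ j, D (Φ (xx k j)) * Φ (d j f)
  have hΦb : Φ (toFF k σ b) ≠ 0 := by rwa [Ne, map_eq_zero]
  have h1 : D (Φ (toFF k σ a)) = Φ f * D (Φ (toFF k σ b)) + Φ (toFF k σ b) * D (Φ f) := by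
    rw [hab, map_mul, Derivation.leibniz, smul_eq_mul, smul_eq_mul]
  have h2 : ∑ j, D (Φ (xx k j)) * Φ (d j (toFF k σ a)) =
      Φ f * (∑ j, D (Φ (xx k j)) * Φ (d j (toFF k σ b))) +
        Φ (toFF k σ b) * ∑ j, D (Φ (xx k j)) * Φ (d j f) := by
    rw [Finset.mul_sum, Finset.mul_sum, ← Finset.sum_add_distrib]
    refine Finset.sum_congr rfl fun j _ => ?_
    conv_lhs => rw [hab]
    rw [Derivation.leibniz, smul_eq_mul, smul_eq_mul, map_add, map_mul, map_mul]
    ring
  rw [hp a, h2, hp b] at h1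
  have h3 := add_left_cancel h1
  exact (mul_left_cancel₀ hΦb h3).symm

theorem arc_fw {k : Type u} [Field k] {σ : Type} [Fintype σ] {W : Type u} [Field W] [Algebra k W]
    (ι : FF k σ →ₐ[k] W) (D : Derivation k W W) (d : σ → Derivation k (FF k σ) (FF k σ))
    (hd : ∀ i f, d i (toFF k σ f) = toFF k σ (pderiv i f)) (f : FF k σ) :
    D (ι f) = ∑ j, D (ι (xx k j)) * ι (d j f) := ArcFW_gen ι D d hd f

end MLD
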