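import Pool.Agent.MLD.ArcIT
import Pool.Agent.MLD.ArcAbh
import Pool.Agent.MLD.ArcFW

/-!
PIECE MLD-R09: integral dual derivations of a residually transcendental basis and a uniformizer.

Conventions: `V := v.comap ι` on `FF k σ`; `d j` the coordinate derivations (`exists_pderivFF`).

PROOF. (1) For every derivation `δ` of `FF k σ` there are `a i ∈ W` with
`ι (δ f) = ∑ i, a i * D i (ι f)` for all `f`: choose `a` with `∑ i, a i * D i (ι (xx j)) = ι (δ (xx j))` for all
`j` (the matrix is invertible, `hdet`), then use `arc_fw` for `D i` and `δ f = ∑ j, δ (xx j) * d j f` (`arc_fw`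
with `ι := AlgHom.id`). So with `D' := ∑ i, a i • D i`: `D' (ι f) = ι (δ f)`, and for `V.ord f ≥ 0` the order
of `D' (ι f)` is `≥ C := ` minimum of the orders of the nonzero `a i` (`hD`).
(2) So `arc_it` (with `B := {b // b ≠ i₀}`, `π := z i₀`, `hmax` from `arc_abh`; `card B + 1 = card σ`) applies: if
`V.ge M (δ (z b))` for all `b` then `V.ge M (δ f)` for all `f` with `V.ord f ≥ 0`.
(3) `Z := Matrix.of fun j b => d j (z b)` is invertible: otherwise there is `a ≠ 0` in `FF k σ` with
`∑ j, a j * d j (z b) = 0` for all `b`; `δ := ∑ j, a j • d j` kills all `z b`, so by (2) for all `M`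
`δ f = 0` for `V.ord f ≥ 0`, and by inversion for all `f`; but `δ (xx j) = a j`. Contradiction.
(4) `dd b := ∑ j, (Z⁻¹) b j • d j`; `dd b (z c) = if b = c then 1 else 0`. Integrality: (2) with `M = 0`.
`δ f = ∑ b, δ (z b) * dd b f`: both sides are derivations, write `δ = ∑ j, δ (xx j) • d j` and
`d j = ∑ b, d j (z b) • dd b`. `jac dd = det (Z⁻¹ ) * 1 ≠ 0` as `dd b (xx j) = (Z⁻¹) b j`.
(5) the last formula: `D' i (ι (xx j)) = ∑ b, D' i (ι (z b)) * ι (dd b (xx j))`. Indeed by `arc_fw`
`D' i (ι (z b)) = ∑ l, D' i (ι (xx l)) * ι (d l (z b))`, so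
`∑ b, D' i (ι (z b)) * ι (dd b (xx j)) = ∑ l, D' i (ι (xx l)) * ι (∑ b, d l (z b) * dd b (xx j))` and the
inner sum is `d l (xx j)` by (4). Then take determinants (`Matrix.det_mul`, `RingHom.map_det`).
-/

open MvPolynomial

namespace MLD

universe u

section
variable {k : Type u} [Field k] {σ : Type} [Fintype σ] [DecidableEq σ]

omit [DecidableEq σ] in
/-- a derivation of the function field is the combination of the coordinate derivations -/
private theorem ArcDual_exp (d : σ → Derivation k (FF k σ) (FF k σ))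
    (hd : ∀ i f, d i (toFF k σ f) = toFF k σ (pderiv i f))
    (δ : Derivation k (FF k σ) (FF k σ)) (f : FF k σ) :
    δ f = ∑ j, δ (xx k j) * d j f := by
  have h := arc_fw (AlgHom.id k (FF k σ)) δ d hd f
  simpa using h

omit [Fintype σ] in
private theorem ArcDual_dx (d : σ → Derivation k (FF k σ) (FF k σ))
    (hd : ∀ i f, d i (toFF k σ f) = toFF k σ (pderiv i f)) (i j : σ) :
    d i (xx k j) = if j = i then 1 else 0 := by
  rw [xx, hd, pderiv_X, Pi.single_apply]
  split_ifs
  · rw [map_one]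
  · rw [map_zero]

/-- value of a combination of derivations -/
private theorem ArcDual_sum {K : Type*} [Field K] [Algebra k K] {I : Type*} [Fintype I]
    (a : I → K) (D : I → Derivation k K K) (f : K) :
    (∑ i, a i • D i) f = ∑ i, a i * D i f := by
  have h := congrFun (map_sum (Derivation.coeFnAddMonoidHom (R := k) (A := K) (M := K))
    (fun i => a i • D i) Finset.univ) f
  rw [Finset.sum_apply] at h
  exact h

/-- step (1) -/
private theorem ArcDual_lift {W : Type u} [Field W] [Algebra k W] (ι : FF k σ →ₐ[k] W)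
    (D : σ → Derivation k W W)
    (hdet : (Matrix.of fun i j => D i (ι (xx k j))).det ≠ 0)
    (d : σ → Derivation k (FF k σ) (FF k σ))
    (hd : ∀ i f, d i (toFF k σ f) = toFF k σ (pderiv i f))
    (δ : Derivation k (FF k σ) (FF k σ)) :
    ∃ a : σ → W, ∀ f : FF k σ, (∑ i, a i • D i) (ι f) = ι (δ f) := by
  set Mx : Matrix σ σ W := Matrix.of fun i j => D i (ι (xx k j)) with hMx
  have hu : IsUnit Mx.det := hdet.isUnit
  let w : σ → W := fun j => ι (δ (xx k j))
  refine ⟨Matrix.vecMul w Mx⁻¹, fun f => ?_⟩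
  set a := Matrix.vecMul w Mx⁻¹ with ha
  have h1 : Matrix.vecMul a Mx = w := by
    rw [ha, Matrix.vecMul_vecMul, Matrix.nonsing_inv_mul _ hu, Matrix.vecMul_one]
  have h2 : ∀ j, ∑ i, a i * D i (ι (xx k j)) = ι (δ (xx k j)) := by
    intro j
    have := congrFun h1 j
    rw [Matrix.vecMul, dotProduct] at this
    exact this
  rw [ArcDual_sum]
  have h3 : ∀ i, a i * D i (ι f) = ∑ j, a i * D i (ι (xx k j)) * ι (d j f) := by
    intro i
    rw [arc_fw ι (D i) d hd f, Finset.mul_sum]
    refine Finset.sum_congr rfl fun j _ => ?_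
    ring
  rw [Finset.sum_congr rfl fun i _ => h3 i, Finset.sum_comm, ArcDual_exp d hd δ f, map_sum]
  refine Finset.sum_congr rfl fun j _ => ?_
  rw [← Finset.sum_mul, h2, map_mul]

end

theorem arc_dual {k : Type u} [Field k] [CharZero k] {σ : Type} [Fintype σ] [DecidableEq σ]
    {W : Type u} [Field W] [Algebra k W] (v : OrdFn k W) (ι : FF k σ →ₐ[k] W)
    (D : σ → Derivation k W W)
    (hD : ∀ i (f : FF k σ), f ≠ 0 → 0 ≤ (v.comap ι).ord f → v.ge 0 (D i (ι f)))
    (hdet : (Matrix.of fun i j => D i (ι (xx k j))).det ≠ 0)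
    (i₀ : σ) (z : σ → FF k σ) (hz0 : z i₀ ≠ 0) (hz1 : 0 < (v.comap ι).ord (z i₀))
    (hmin : ∀ f : FF k σ, f ≠ 0 → 0 < (v.comap ι).ord f →
      (v.comap ι).ord (z i₀) ≤ (v.comap ι).ord f)
    (hz : RAI (v.comap ι) (fun b : {b // b ≠ i₀} => z b)) :
    ∃ dd : σ → Derivation k (FF k σ) (FF k σ),
      (∀ b c, dd b (z c) = if b = c then 1 else 0) ∧
      (∀ b (f : FF k σ), f ≠ 0 → 0 ≤ (v.comap ι).ord f → (v.comap ι).ge 0 (dd b f)) ∧
      (∀ (δ : Derivation k (FF k σ) (FF k σ)) (f : FF k σ), δ f = ∑ b, δ (z b) * dd b f) ∧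
      DivisorOver.jac dd ≠ 0 ∧
      ∀ D' : σ → Derivation k W W, (Matrix.of fun i j => D' i (ι (xx k j))).det =
        (Matrix.of fun i b => D' i (ι (z b))).det * ι (DivisorOver.jac dd) := by
  obtain ⟨d, hd⟩ := exists_pderivFF k σ
  set V := v.comap ι with hV
  have hcard : Fintype.card {b // b ≠ i₀} + 1 = Fintype.card σ := by
    have h1 : Fintype.card {b // b ≠ i₀} = Fintype.card σ - 1 := by
      rw [Fintype.card_subtype_compl, Fintype.card_subtype_eq]
    have h2 : 0 < Fintype.card σ := Fintype.card_pos_iff.mpr ⟨i₀⟩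
    omega
  have hmax : ∀ f : FF k σ, f ≠ 0 → 0 ≤ V.ord f →
      ResAlg V (fun b : {b // b ≠ i₀} => z b) f := fun f hf hf0 =>
    arc_abh V (z i₀) hz0 hz1 hcard _ hz f hf hf0
  -- step (2)
  have small : ∀ (δ : Derivation k (FF k σ) (FF k σ)) (M : ℤ), (∀ b, V.ge M (δ (z b))) →
      ∀ f : FF k σ, f ≠ 0 → 0 ≤ V.ord f → V.ge M (δ f) := by
    intro δ M hM f hf hf0
    obtain ⟨a, ha⟩ := ArcDual_lift ι D hdet d hd δ
    obtain ⟨C, hC⟩ := (Set.finite_range fun i => v.ord (a i)).bddBelow
    have hC' : ∀ i, C ≤ v.ord (a i) := fun i => hC ⟨i, rfl⟩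
    have h := arc_it v ι (∑ i, a i • D i) (fun b : {b // b ≠ i₀} => z b) (z i₀) hz0 hz1 hmin hz
      hmax C M ?_ ?_ ?_ f hf hf0
    · rw [ha] at h
      rw [hV, OrdFn.comap_ge]
      exact h
    · intro g hg hg0
      rw [ArcDual_sum]
      refine v.ge_sum _ _ fun i _ => ?_
      have h1 := v.ge_mul (Or.inr (hC' i) : v.ge C (a i)) (hD i g hg hg0)
      rwa [add_zero] at h1
    · rw [ha]
      have := hM i₀
      rwa [hV, OrdFn.comap_ge] at this
    · intro b
      rw [ha]
      have := hM b
      rwa [hV, OrdFn.comap_ge] at this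
  -- step (3)
  set Z : Matrix σ σ (FF k σ) := Matrix.of fun j b => d j (z b) with hZ
  have hZdet : Z.det ≠ 0 := by
    intro h0
    obtain ⟨a, ha, ha0⟩ := Matrix.exists_vecMul_eq_zero_iff.mpr h0
    apply ha
    set δ : Derivation k (FF k σ) (FF k σ) := ∑ j, a j • d j with hδ
    have h1 : ∀ b, δ (z b) = 0 := by
      intro b
      rw [hδ, ArcDual_sum]
      have := congrFun ha0 b
      rw [Matrix.vecMul, dotProduct] at this
      exact this
    have h2 : ∀ f : FF k σ, f ≠ 0 → 0 ≤ V.ord f → δ f = 0 := by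
      intro f hf hf0
      by_contra hne
      have h3 := small δ (V.ord (δ f) + 1) (fun b => Or.inl (h1 b)) f hf hf0
      rcases h3 with h3 | h3
      · exact hne h3
      · omega
    have h4 : ∀ f : FF k σ, δ f = 0 := by
      intro f
      by_cases hf : f = 0
      · rw [hf, map_zero]
      by_cases hf0 : 0 ≤ V.ord f
      · exact h2 f hf hf0
      · have h5 : δ f⁻¹ = 0 := by
          apply h2 _ (inv_ne_zero hf)
          rw [V.ord_inv f hf]
          omega
        have h6 : δ (f * f⁻¹) = 0 := by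
          rw [mul_inv_cancel₀ hf]
          exact δ.map_one_eq_zero
        rw [Derivation.leibniz, h5, smul_zero, zero_add, smul_eq_mul] at h6
        rcases mul_eq_zero.mp h6 with h7 | h7
        · exact absurd h7 (inv_ne_zero hf)
        · exact h7
    funext j
    have h8 := h4 (xx k j)
    rw [hδ, ArcDual_sum] at h8
    simp only [ArcDual_dx d hd, mul_ite, mul_one, mul_zero] at h8
    rw [Finset.sum_ite_eq] at h8
    simpa using h8
  have hZu : IsUnit Z.det := hZdet.isUnit
  -- step (4)
  set dd : σ → Derivation k (FF k σ) (FF k σ) := fun b => ∑ j, Z⁻¹ b j • d j with hdd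
  have hddf : ∀ b f, dd b f = ∑ j, Z⁻¹ b j * d j f := fun b f => ArcDual_sum _ _ f
  have hdz : ∀ b c, dd b (z c) = if b = c then 1 else 0 := by
    intro b c
    rw [hddf]
    have h1 := congrFun (congrFun (Matrix.nonsing_inv_mul Z hZu) b) c
    rw [Matrix.mul_apply, Matrix.one_apply] at h1
    exact h1
  have hexp : ∀ (δ : Derivation k (FF k σ) (FF k σ)) (f : FF k σ),
      δ f = ∑ b, δ (z b) * dd b f := by
    intro δ f
    have h1 : ∀ b, δ (z b) * dd b f = ∑ l, ∑ j, δ (xx k l) * (Z l b * Z⁻¹ b j) * d j f := by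
      intro b
      rw [ArcDual_exp d hd δ (z b), hddf, Finset.sum_mul]
      refine Finset.sum_congr rfl fun l _ => ?_
      rw [Finset.mul_sum]
      refine Finset.sum_congr rfl fun j _ => ?_
      rw [hZ, Matrix.of_apply]
      ring
    rw [Finset.sum_congr rfl fun b _ => h1 b, Finset.sum_comm]
    rw [ArcDual_exp d hd δ f]
    refine Finset.sum_congr rfl fun l _ => ?_
    rw [Finset.sum_comm]
    have h2 : ∀ j, ∑ b, δ (xx k l) * (Z l b * Z⁻¹ b j) * d j f =
        δ (xx k l) * (if l = j then 1 else 0) * d j f := by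
      intro j
      rw [← Finset.sum_mul, ← Finset.mul_sum]
      have h3 := congrFun (congrFun (Matrix.mul_nonsing_inv Z hZu) l) j
      rw [Matrix.mul_apply, Matrix.one_apply] at h3
      rw [h3]
    rw [Finset.sum_congr rfl fun j _ => h2 j]
    simp
  have hjac : DivisorOver.jac dd = (Z⁻¹).det := by
    unfold DivisorOver.jac
    congr 1
    ext b j
    rw [Matrix.of_apply, hddf]
    simp only [ArcDual_dx d hd, mul_ite, mul_one, mul_zero]
    rw [Finset.sum_ite_eq]
    simp
  refine ⟨dd, hdz, ?_, hexp, ?_, ?_⟩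
  · intro b f hf hf0
    refine small (dd b) 0 (fun c => ?_) f hf hf0
    rw [hdz]
    split_ifs
    · right
      rw [V.ord_one]
    · exact V.ge_zero 0
  · rw [hjac]
    intro h
    have h1 := congrArg Matrix.det (Matrix.mul_nonsing_inv Z hZu)
    rw [Matrix.det_mul, h, mul_zero, Matrix.det_one] at h1
    exact zero_ne_one h1
  · intro D'
    have h1 : (Matrix.of fun i j => D' i (ι (xx k j))) =
        (Matrix.of fun i b => D' i (ι (z b))) *
          ((Matrix.of fun b j : σ => dd b (xx k j)).map ι) := by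
      ext i j
      rw [Matrix.mul_apply, Matrix.of_apply]
      simp only [Matrix.of_apply, Matrix.map_apply]
      have h2 : ∀ b, D' i (ι (z b)) * ι (dd b (xx k j)) =
          ∑ l, D' i (ι (xx k l)) * (ι (d l (z b)) * ι (dd b (xx k j))) := by
        intro b
        rw [arc_fw ι (D' i) d hd (z b), Finset.sum_mul]
        refine Finset.sum_congr rfl fun l _ => ?_
        ring
      rw [Finset.sum_congr rfl fun b _ => h2 b, Finset.sum_comm]
      rw [arc_fw ι (D' i) d hd (xx k j)]
      refine Finset.sum_congr rfl fun l _ => ?_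
      rw [← Finset.mul_sum]
      congr 1
      rw [hexp (d l) (xx k j), map_sum]
      refine Finset.sum_congr rfl fun b _ => ?_
      rw [map_mul]
    rw [h1, Matrix.det_mul]
    congr 1
    unfold DivisorOver.jac
    rw [AlgHom.map_det]
    rfl

end MLD
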