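import Pool.Agent.MLD.ArcRes
import Pool.Agent.MLD.ArcDual

/-!
PIECE MLD-R10: the divisor of a valuation of an extension field with enough derivations.

PROOF. `V := v.comap ι`. `Nonempty σ` and `hpos` give an element of positive order; let `π` have the
smallest positive order `g`. All values of `V` are divisible by `g` (division with remainder: if
`V.ord f = q g + ρ`, `0 < ρ < g` then `f / π ^ q` has order `ρ`). Put `E.ord f := V.ord f / g`; this is
an `OrdFn`; surjective (`π`); nonnegative on polynomials: `V.ge_zero_aeval` with `x i = xx k i`, and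
`aeval_xx` (`Core2.lean`) or `MvPolynomial.aeval_def`; `residue'`: `arc_res` with `D` reindexed by
`Fintype.equivFin σ` (`n = card σ`), `hli` from `hdet`: if `∑ i, a i * D i (ι (xx j)) = 0` for all `j` then `a = 0`
(`Matrix.eq_zero_of_vecMul_eq_zero`). RAI for `V` is RAI for `E` (`ord = 0` iff). So `E` is a
`DivisorOver k σ`, `E.CenterZero` (positive multiples of `g`, divided by `g`).
Choose `i₀ : σ` and an equivalence `Fin (card σ - 1) ≃ {b // b ≠ i₀}`; let `z i₀ := π`, `z b := y ..` for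
`b ≠ i₀`. `arc_dual` gives `dd`, integral for `E` (`DivisorOver.IntegralDer`: `dd b f = 0 ∨ 0 ≤ E.ord (dd b f)`),
`jac dd ≠ 0`; put `A₁ := (1 + E.ord (jac dd)).toNat`; `jac dd` is integral (`ge_sum`, `ge_prod`; its
entries `dd b (xx j)` are integral since `xx j` is), so `(A₁ : ℤ) = 1 + E.ord (jac dd)` and `E.logDisc ≤ A₁`
(`iInf_le`). Finally `det (D i (ι (xx j))) = det (D i (ι (z b))) * ι (jac dd)`; in the first matrix the column
`i₀` has order `≥ g` (`hD` and `V.ord π = g`) and the other columns have order `≥ 0` (`hD`), so its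
determinant has order `≥ g` (Leibniz formula, `Matrix.det_apply`, cf. `LogForm_det` in `LogForm.lean`);
the second factor has order `g * E.ord (jac dd)`. Sum: `≥ g * A₁`.
-/

open MvPolynomial

namespace MLD

universe u

section
variable {k : Type u} [Field k]

private theorem ArcGen_toFF_ne {σ : Type} {G : MvPolynomial σ k} (hG : G ≠ 0) :
    toFF k σ G ≠ 0 := by
  intro h0
  apply hG
  have h2 : (algebraMap (MvPolynomial σ k) (FF k σ)) G = 0 := h0
  exact (map_eq_zero_iff _ (IsFractionRing.injective _ _)).mp h2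

private theorem ArcGen_aeval_xx {σ : Type} (G : MvPolynomial σ k) :
    aeval (fun i => xx k i) G = toFF k σ G := by
  have : (aeval (fun i => xx k i) : _ →ₐ[k] FF k σ) = toFF k σ := by
    apply MvPolynomial.algHom_ext
    intro c
    rw [aeval_X]
    rfl
  rw [this]

private theorem ArcGen_xx_ne {σ : Type} (i : σ) : xx k i ≠ 0 :=
  ArcGen_toFF_ne (X_ne_zero i)

variable {K : Type*} [Field K] [Algebra k K] (v : OrdFn k K)

private theorem ArcGen_zpow {f : K} (hf : f ≠ 0) (n : ℤ) : v.ord (f ^ n) = n * v.ord f := by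
  obtain ⟨m, rfl | rfl⟩ := n.eq_nat_or_neg
  · rw [zpow_natCast, v.ord_pow hf]
  · rw [zpow_neg, zpow_natCast, v.ord_inv _ (pow_ne_zero _ hf), v.ord_pow hf]
    ring

private theorem ArcGen_det {σ : Type} [Fintype σ] [DecidableEq σ] (M : Matrix σ σ K)
    (N : σ → ℤ) (hM : ∀ i j, v.ge (N j) (M i j)) : v.ge (∑ j, N j) M.det := by
  rw [Matrix.det_apply]
  refine v.ge_sum _ _ fun τ _ => ?_
  have h1 : v.ge (∑ i, N i) (∏ i, M (τ i) i) := v.ge_prod _ _ _ fun i _ => hM _ _
  rcases Int.units_eq_one_or (Equiv.Perm.sign τ) with h | h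
  · rw [h, one_smul]
    exact h1
  · rw [h, Units.neg_smul, one_smul]
    exact v.ge_neg h1

private theorem ArcGen_rai {B C : Type*} (y : C → K) (e : B → C) (he : Function.Injective e)
    (h : RAI v y) : RAI v (fun b => y (e b)) := by
  intro P hP
  have h1 : (rename e) P ≠ 0 := by
    intro h0
    exact hP (rename_injective e he (h0.trans (map_zero _).symm))
  have h2 := h _ h1
  rw [aeval_rename] at h2
  exact h2

private theorem ArcGen_rai_ord {B : Type*} (y : B → K) (h : RAI v y) (b : B) :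
    y b ≠ 0 ∧ v.ord (y b) = 0 := by
  have h1 := h (X b) (X_ne_zero b)
  rwa [aeval_X] at h1

/-- the smallest positive value -/
private theorem ArcGen_min (hpos : ∃ f : K, f ≠ 0 ∧ 0 < v.ord f) :
    ∃ (g : ℕ) (π : K), 0 < g ∧ π ≠ 0 ∧ v.ord π = g ∧
      (∀ f : K, f ≠ 0 → 0 < v.ord f → (g : ℤ) ≤ v.ord f) ∧
      ∀ f : K, f ≠ 0 → v.ord f = g * (v.ord f / g) := by
  classical
  have hex : ∃ n : ℕ, 0 < n ∧ ∃ f : K, f ≠ 0 ∧ v.ord f = n := by
    obtain ⟨f, hf, hf1⟩ := hpos
    exact ⟨(v.ord f).toNat, by omega, f, hf, by omega⟩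
  obtain ⟨hg, π, hπ, hπg⟩ := Nat.find_spec hex
  set g := Nat.find hex with hgdef
  have hmin : ∀ f : K, f ≠ 0 → 0 < v.ord f → (g : ℤ) ≤ v.ord f := by
    intro f hf hf1
    have h1 : g ≤ (v.ord f).toNat := Nat.find_min' hex ⟨by omega, f, hf, by omega⟩
    omega
  refine ⟨g, π, hg, hπ, hπg, hmin, fun f hf => ?_⟩
  have hg' : (0 : ℤ) < g := by exact_mod_cast hg
  have h1 : v.ord (f * π ^ (-(v.ord f / g))) = v.ord f % g := by
    rw [v.ord_mul hf (zpow_ne_zero _ hπ), ArcGen_zpow v hπ, hπg]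
    have := Int.emod_add_mul_ediv (v.ord f) g
    linarith
  have h2 : 0 ≤ v.ord f % g := Int.emod_nonneg _ hg'.ne'
  have h3 : v.ord f % g < g := Int.emod_lt_of_pos _ hg'
  have h4 : v.ord f % g = 0 := by
    by_contra hne
    have h5 := hmin _ (mul_ne_zero hf (zpow_ne_zero _ hπ)) (by rw [h1]; omega)
    rw [h1] at h5
    omega
  have h6 := Int.emod_add_mul_ediv (v.ord f) g
  linarith

/-- division of the values -/
private noncomputable def ArcGen_div (g : ℕ) (hg : 0 < g)
    (h : ∀ f : K, f ≠ 0 → v.ord f = g * (v.ord f / g)) : OrdFn k K where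
  ord f := v.ord f / g
  ord_mul' f f' hf hf' := by
    have hg' : (g : ℤ) ≠ 0 := by exact_mod_cast hg.ne'
    have h1 := h f hf
    have h2 := h f' hf'
    have h3 := h (f * f') (mul_ne_zero hf hf')
    have h4 := v.ord_mul hf hf'
    apply mul_left_cancel₀ hg'
    rw [mul_add, ← h1, ← h2, ← h3, h4]
  ord_add' f f' hf hf' hff := by
    have hg' : (0 : ℤ) < g := by exact_mod_cast hg
    rcases min_le_iff.1 (v.ord_add' f f' hf hf' hff) with h1 | h1
    · exact min_le_iff.2 (Or.inl (Int.ediv_le_ediv hg' h1))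
    · exact min_le_iff.2 (Or.inr (Int.ediv_le_ediv hg' h1))
  ord_const' c hc := by
    rw [v.ord_algebraMap hc, Int.zero_ediv]

end

theorem gen_divisor {k : Type u} [Field k] [CharZero k] {σ : Type} [Fintype σ] [DecidableEq σ]
    [Nonempty σ] {W : Type u} [Field W] [Algebra k W] (v : OrdFn k W) (ι : FF k σ →ₐ[k] W)
    (hpos : ∀ i, 0 < v.ord (ι (xx k i)))
    (D : σ → Derivation k W W) (hD : ∀ i f, f ≠ 0 → v.ge (v.ord f) (D i f))
    (hdet : (Matrix.of fun i j => D i (ι (xx k j))).det ≠ 0) :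
    ∃ (E : DivisorOver k σ) (g A₁ : ℕ), 0 < g ∧ E.CenterZero ∧
      (∀ f : FF k σ, f ≠ 0 → v.ord (ι f) = g * E.ord f) ∧
      E.logDisc ≤ (((A₁ : ℕ) : ℝ) : EReal) ∧
      ((g * A₁ : ℕ) : ℤ) ≤ v.ord (Matrix.of fun i j => D i (ι (xx k j))).det := by
  classical
  set V := v.comap ι with hV
  have hVo : ∀ f, V.ord f = v.ord (ι f) := fun f => rfl
  obtain ⟨i₁⟩ := (inferInstance : Nonempty σ)
  have hposV : ∃ f : FF k σ, f ≠ 0 ∧ 0 < V.ord f := ⟨xx k i₁, ArcGen_xx_ne i₁, hpos i₁⟩
  obtain ⟨g, π, hg, hπ, hπg, hmin, hdvd⟩ := ArcGen_min V hposV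
  have hg' : (0 : ℤ) < g := by exact_mod_cast hg
  let E₀ : OrdFn k (FF k σ) := ArcGen_div V g hg hdvd
  have hE₀ : ∀ f, E₀.ord f = V.ord f / g := fun f => rfl
  have hE₁ : ∀ f : FF k σ, f ≠ 0 → V.ord f = g * E₀.ord f := fun f hf => hdvd f hf
  -- the residues
  let e := Fintype.equivFin σ
  obtain ⟨y, hy⟩ : ∃ y : Fin (Fintype.card σ - 1) → FF k σ, RAI V y := by
    refine arc_res v ι (fun i => D (e.symm i)) (fun i f hf => hD _ f hf) ?_ hposV
    intro a ha
    have h1 : Matrix.vecMul (fun s => a (e s)) (Matrix.of fun i j => D i (ι (xx k j))) = 0 := by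
      ext j
      have h2 := ha (xx k j)
      rw [← e.sum_comp] at h2
      simpa [Matrix.vecMul, dotProduct] using h2
    have h3 := Matrix.eq_zero_of_vecMul_eq_zero hdet h1
    ext i
    have h4 := congrFun h3 (e.symm i)
    simpa using h4
  let E : DivisorOver k σ :=
    { E₀ with
      ord_surj' := ⟨π, hπ, by
        change E₀.ord π = 1
        rw [hE₀, hπg, Int.ediv_self hg'.ne']⟩
      ord_poly' := by
        intro p hp
        change 0 ≤ E₀.ord (toFF k σ p)
        have h1 := V.ge_zero_aeval (fun i => xx k i) (fun i => Or.inr (hpos i).le) p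
        rw [ArcGen_aeval_xx] at h1
        rcases h1 with h1 | h1
        · exact absurd h1 (ArcGen_toFF_ne hp)
        · rw [hE₀]
          exact Int.ediv_nonneg h1 hg'.le
      residue' := ⟨y, by
        intro P hP
        obtain ⟨h1, h2⟩ := hy P hP
        refine ⟨h1, ?_⟩
        change E₀.ord (aeval y P) = 0
        rw [hE₀, h2, Int.zero_ediv]⟩ }
  have hEo : ∀ f, E.ord f = E₀.ord f := fun f => rfl
  have hE : ∀ f : FF k σ, f ≠ 0 → V.ord f = g * E.ord f := hE₁
  -- the dual derivations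
  have hcard : Fintype.card {b : σ // b ≠ i₁} = Fintype.card σ - 1 := by
    rw [Fintype.card_subtype_compl, Fintype.card_subtype_eq]
  let e' := Fintype.equivFinOfCardEq hcard
  let z : σ → FF k σ := fun b => if h : b = i₁ then π else y (e' ⟨b, h⟩)
  have hzi : z i₁ = π := dif_pos rfl
  have hzb : ∀ b : {b : σ // b ≠ i₁}, z b = y (e' b) := fun b => dif_neg b.2
  have hz : RAI V (fun b : {b : σ // b ≠ i₁} => z b) := by
    have h1 := ArcGen_rai V y e' e'.injective hy
    have h2 : (fun b : {b : σ // b ≠ i₁} => z b) = fun b => y (e' b) := funext hzb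
    rw [h2]
    exact h1
  obtain ⟨dd, -, hint, -, hjac, hdd⟩ := arc_dual v ι D
    (fun i f hf h0 => v.ge_mono h0 (hD i (ι f) ((map_ne_zero ι).2 hf))) hdet i₁ z
    (by rw [hzi]; exact hπ) (by rw [hzi]; change 0 < V.ord π; rw [hπg]; exact hg')
    (by
      intro f hf h0
      rw [hzi]
      change V.ord π ≤ V.ord f
      rw [hπg]
      exact hmin f hf h0) hz
  have hVge : ∀ f : FF k σ, V.ge 0 f → E.toOrdFn.ge 0 f := by
    intro f hf
    rcases hf with hf | hf
    · exact Or.inl hf
    · right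
      change 0 ≤ E₀.ord f
      rw [hE₀]
      exact Int.ediv_nonneg hf hg'.le
  have hintE : ∀ b, E.IntegralDer (dd b) := by
    intro b f hf h0
    have h1 : 0 ≤ V.ord f := by
      rw [hE f hf]
      exact mul_nonneg hg'.le h0
    exact hVge _ (hint b f hf h1)
  have hjac0 : 0 ≤ E.ord (DivisorOver.jac dd) := by
    have h1 : E.toOrdFn.ge (∑ _j : σ, 0) (DivisorOver.jac dd) := by
      refine ArcGen_det E.toOrdFn _ (fun _ => 0) fun i j => ?_
      rw [Matrix.of_apply]
      exact hVge _ (hint i (xx k j) (ArcGen_xx_ne j) (hpos j).le)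
    rw [Finset.sum_const_zero] at h1
    rcases h1 with h1 | h1
    · exact absurd h1 hjac
    · exact h1
  have hA : (((1 + E.ord (DivisorOver.jac dd)).toNat : ℕ) : ℤ) =
      1 + E.ord (DivisorOver.jac dd) := by omega
  refine ⟨E, g, (1 + E.ord (DivisorOver.jac dd)).toNat, hg, ?_, hE, ?_, ?_⟩
  · intro i
    have h1 := hE (xx k i) (ArcGen_xx_ne i)
    have h2 : 0 < V.ord (xx k i) := hpos i
    rw [h1] at h2
    exact (mul_pos_iff_of_pos_left hg').1 h2
  · refine (iInf_le _ ⟨dd, hintE, hjac⟩).trans (le_of_eq ?_)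
    have h1 : ((1 + E.ord (DivisorOver.jac dd) : ℤ) : ℝ) =
        (((1 + E.ord (DivisorOver.jac dd)).toNat : ℕ) : ℝ) := by
      have h2 := congrArg (Int.cast : ℤ → ℝ) hA
      rw [Int.cast_natCast] at h2
      exact h2.symm
    exact congrArg _ h1
  · have hdet' := hdd D
    have hne : (Matrix.of fun i b => D i (ι (z b))).det ≠ 0 := by
      intro h0
      rw [h0, zero_mul] at hdet'
      exact hdet hdet'
    have h1 : v.ge (∑ b : σ, if b = i₁ then (g : ℤ) else 0)
        (Matrix.of fun i b => D i (ι (z b))).det := by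
      refine ArcGen_det v _ _ fun i b => ?_
      rw [Matrix.of_apply]
      by_cases hb : b = i₁
      · subst hb
        rw [if_pos rfl, hzi]
        have h2 := hD i (ι π) ((map_ne_zero ι).2 hπ)
        rwa [← hVo, hπg] at h2
      · rw [if_neg hb]
        obtain ⟨h3, h4⟩ := ArcGen_rai_ord V _ hz ⟨b, hb⟩
        have h2 := hD i (ι (z b)) ((map_ne_zero ι).2 h3)
        rwa [← hVo, h4] at h2
    rw [Finset.sum_ite_eq' Finset.univ i₁ (fun _ => (g : ℤ)), if_pos (Finset.mem_univ _)] at h1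
    have h5 : (g : ℤ) ≤ v.ord (Matrix.of fun i b => D i (ι (z b))).det := by
      rcases h1 with h1 | h1
      · exact absurd h1 hne
      · exact h1
    rw [hdet', v.ord_mul hne ((map_ne_zero ι).2 hjac), ← hVo, hE _ hjac]
    push_cast
    rw [hA]
    linarith

end MLD
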