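import Pool.Agent.MLD.ArcLen

/-!
PIECE MLD-R12: a minor of small order.

`G` is the family of vectors in `σ → L⟦X⟧` indexed by `T ⊕ σ`: for `t ∈ T` the vector with coordinates
`∑ j, γ t i j X^(j+1)`, and for `i : σ` the vector `X^(m+1) e_i`.

PROOF. `R := PowerSeries L`. For `e : σ → T ⊕ σ` let `Δ e := det (G (e a) i)`. `Δ inr = X^((m+1) n) ≠ 0`
(`Matrix.det_diagonal`), `n = card σ`. Choose `e` with `Δ e ≠ 0` and `μ := order (Δ e)` minimal. Let `S` be
the matrix with COLUMNS `G (e a)`: `S i a := G (e a) i`, `det S = Δ e` (transpose).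
(1) Every `G x`, `x : T ⊕ σ`, lies in the image of `S`: by Cramer's rule `Δ e • G x = S *ᵥ (cramer)`, where the
`a`-th coordinate of `Matrix.cramer S (G x)` is the determinant of `S` with column `a` replaced by `G x`,
i.e. `Δ (Function.update e a x)`, of order `≥ μ` or zero by minimality, so divisible by `Δ e` in `R` (for
power series over a field: `f ∣ g` if `order f ≤ order g`; `f = X^order * unit`). Divide by `Δ e`.
(2) In particular `X^(m+1) e_i = S *ᵥ (col i of H')` for a matrix `H'` with `S * H' = X^(m+1) • 1`;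
determinants: `Δ e * det H' = X^((m+1) n)`, so `order (det H') = n (m+1) - μ`.
(3) Suppose `T.card + μ > n (m+1)`. Then `N := T.card > order (det H')`. `G (inl t) = S *ᵥ u t`. By `arc_len` for
`H'` and the vectors `u t` (reindex `T ≃ Fin N`) there is `a ≠ 0` with `∑ a t u t = H' *ᵥ w`, so
`∑ a t • G (inl t) = S *ᵥ (H' *ᵥ w) = X^(m+1) • w`. But the coefficient of `X^(j'+1)` in the
coordinate `i'` of the left hand side, for `t' = (i', j') ∈ T`, is `∑ a t γ t i' j' = a t'` (`hγ`), and
`j' + 1 ≤ m < m + 1`, so it vanishes: `a = 0`. Contradiction. So `T.card + μ ≤ n (m+1)`.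
-/

open Matrix

namespace MLD

universe u

/-- the vectors -/
noncomputable def arcG {L : Type u} [Field L] {σ : Type} [DecidableEq σ] {m : ℕ}
    (T : Finset (σ × Fin m)) (γ : T → σ → Fin m → L) : T ⊕ σ → σ → PowerSeries L :=
  Sum.elim
    (fun t i => ∑ j, PowerSeries.C (γ t i j) * (PowerSeries.X : PowerSeries L) ^ (j.val + 1))
    (fun i' i => if i' = i then (PowerSeries.X : PowerSeries L) ^ (m + 1) else 0)

private theorem ArcMin_dvd {L : Type u} [Field L] {f g : PowerSeries L} (hf : f ≠ 0)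
    (h : g ≠ 0 → f.order.toNat ≤ g.order.toNat) : f ∣ g := by
  by_cases hg : g = 0
  · rw [hg]
    exact dvd_zero f
  · have h1 : PowerSeries.X ^ g.order.toNat ∣ g := PowerSeries.X_pow_order_dvd
    have h2 : (PowerSeries.X : PowerSeries L) ^ f.order.toNat ∣ g :=
      (pow_dvd_pow _ (h hg)).trans h1
    obtain ⟨c, hc⟩ := h2
    obtain ⟨U, hU⟩ := PowerSeries.isUnit_divided_by_X_pow_order hf
    have h3 : f = PowerSeries.X ^ f.order.toNat * (U : PowerSeries L) := by
      rw [hU, PowerSeries.X_pow_order_mul_divXPowOrder]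
    refine ⟨(U⁻¹ : (PowerSeries L)ˣ) * c, ?_⟩
    rw [hc]
    nth_rewrite 2 [h3]
    rw [mul_assoc, Units.mul_inv_cancel_left]

theorem arc_min {L : Type u} [Field L] {σ : Type} [Fintype σ] [DecidableEq σ] {m : ℕ}
    (T : Finset (σ × Fin m)) (γ : T → σ → Fin m → L)
    (hγ : ∀ t t' : T, γ t t'.1.1 t'.1.2 = if t = t' then 1 else 0) :
    ∃ (e : σ → T ⊕ σ) (μ : ℕ), T.card + μ ≤ Fintype.card σ * (m + 1) ∧
      (Matrix.of fun a i => arcG T γ (e a) i).det ≠ 0 ∧
      (Matrix.of fun a i => arcG T γ (e a) i).det.order = μ := by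
  classical
  let Δ : (σ → T ⊕ σ) → PowerSeries L := fun e => (Matrix.of fun a i => arcG T γ (e a) i).det
  have hΔ : ∀ e, Δ e = (Matrix.of fun a i => arcG T γ (e a) i).det := fun _ => rfl
  have hX : ∀ n : ℕ, (PowerSeries.X : PowerSeries L) ^ n ≠ 0 := fun n =>
    pow_ne_zero n PowerSeries.X_ne_zero
  have hex : ∃ n : ℕ, ∃ e, Δ e ≠ 0 ∧ (Δ e).order.toNat = n := by
    refine ⟨_, Sum.inr, ?_, rfl⟩
    have h1 : (Matrix.of fun a i => arcG T γ (Sum.inr a) i) =
        Matrix.diagonal (fun _ : σ => (PowerSeries.X : PowerSeries L) ^ (m + 1)) := by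
      ext1 a i
      rfl
    rw [hΔ, h1, Matrix.det_diagonal, Finset.prod_const]
    exact pow_ne_zero _ (hX _)
  obtain ⟨e, he0, heμ⟩ := Nat.find_spec hex
  have hmin : ∀ e', Δ e' ≠ 0 → (Δ e).order.toNat ≤ (Δ e').order.toNat := by
    intro e' he'
    rw [heμ]
    exact Nat.find_min' hex ⟨e', he', rfl⟩
  have hdvd : ∀ e', Δ e ∣ Δ e' := fun e' => ArcMin_dvd he0 (hmin e')
  refine ⟨e, (Δ e).order.toNat, ?_, he0, (PowerSeries.coe_toNat_order he0).symm⟩
  set S : Matrix σ σ (PowerSeries L) := (Matrix.of fun a i => arcG T γ (e a) i)ᵀ with hS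
  have hSdet : S.det = Δ e := by rw [hS, Matrix.det_transpose]
  -- every vector is in the image
  have himg : ∀ x : T ⊕ σ, ∃ u : σ → PowerSeries L, S *ᵥ u = arcG T γ x := by
    intro x
    have h1 := Matrix.mulVec_cramer S (arcG T γ x)
    have h2 : ∀ a, Δ e ∣ Matrix.cramer S (arcG T γ x) a := by
      intro a
      have h3 : Matrix.cramer S (arcG T γ x) a = Δ (Function.update e a x) := by
        rw [hS, Matrix.cramer_transpose_apply, hΔ]
        congr 1
        ext1 b i
        by_cases hb : b = a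
        · subst hb
          rw [Matrix.updateRow_self, Matrix.of_apply, Function.update_self]
        · rw [Matrix.updateRow_ne hb, Matrix.of_apply, Matrix.of_apply,
            Function.update_of_ne hb]
      rw [h3]
      exact hdvd _
    choose u hu using h2
    refine ⟨u, ?_⟩
    have h4 : Matrix.cramer S (arcG T γ x) = Δ e • u := funext hu
    rw [h4, Matrix.mulVec_smul, hSdet] at h1
    funext i
    have h5 := congrFun h1 i
    rw [Pi.smul_apply, Pi.smul_apply, smul_eq_mul, smul_eq_mul] at h5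
    exact mul_left_cancel₀ he0 h5
  choose u hu using himg
  -- the matrix H'
  set H : Matrix σ σ (PowerSeries L) := Matrix.of fun a i => u (Sum.inr i) a with hH
  have hSH : S * H = ((PowerSeries.X : PowerSeries L) ^ (m + 1)) • (1 : Matrix σ σ _) := by
    ext1 j i
    have h1 := congrFun (hu (Sum.inr i)) j
    have h2 : (S * H) j i = (S *ᵥ u (Sum.inr i)) j := rfl
    rw [h2, h1, Matrix.smul_apply, Matrix.one_apply, smul_eq_mul]
    change (if i = j then (PowerSeries.X : PowerSeries L) ^ (m + 1) else 0) = _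
    by_cases hij : i = j
    · rw [if_pos hij, if_pos hij.symm, mul_one]
    · rw [if_neg hij, if_neg (Ne.symm hij), mul_zero]
  have hdetH : Δ e * H.det = ((PowerSeries.X : PowerSeries L) ^ (m + 1)) ^ Fintype.card σ := by
    rw [← hSdet, ← Matrix.det_mul, hSH, Matrix.det_smul, Matrix.det_one, mul_one]
  have hH0 : H.det ≠ 0 := by
    intro h
    rw [h, mul_zero] at hdetH
    exact pow_ne_zero _ (hX _) hdetH.symm
  have hord : (Δ e).order.toNat + H.det.order.toNat = Fintype.card σ * (m + 1) := by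
    have h1 := congrArg PowerSeries.order hdetH
    rw [PowerSeries.order_mul, ← pow_mul, PowerSeries.order_X_pow,
      ← PowerSeries.coe_toNat_order he0, ← PowerSeries.coe_toNat_order hH0] at h1
    have h2 : (Δ e).order.toNat + H.det.order.toNat = (m + 1) * Fintype.card σ := by
      exact_mod_cast h1
    rw [h2, mul_comm]
  by_contra hcon
  push Not at hcon
  have hN : H.det.order < T.card := by
    rw [← PowerSeries.coe_toNat_order hH0]
    have : H.det.order.toNat < T.card := by omega
    exact_mod_cast this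
  have hcard : Fintype.card T = T.card := Fintype.card_coe T
  let φ : T ≃ Fin T.card := Fintype.equivFinOfCardEq hcard
  obtain ⟨a, ha, w, hw⟩ := arc_len H hH0 hN (fun i => u (Sum.inl (φ.symm i)))
  apply ha
  have h1 : ∀ i' : σ, ∑ i, PowerSeries.C (a i) * arcG T γ (Sum.inl (φ.symm i)) i' =
      PowerSeries.X ^ (m + 1) * w i' := by
    intro i'
    have h2 : S *ᵥ (H *ᵥ w) = (PowerSeries.X : PowerSeries L) ^ (m + 1) • w := by
      rw [Matrix.mulVec_mulVec, hSH, Matrix.smul_mulVec, Matrix.one_mulVec]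
    rw [← hw] at h2
    have h3 := congrFun h2 i'
    rw [Pi.smul_apply, smul_eq_mul] at h3
    rw [← h3, Matrix.mulVec, dotProduct]
    have h4 : ∀ i, PowerSeries.C (a i) * arcG T γ (Sum.inl (φ.symm i)) i' =
        ∑ s, S i' s * (PowerSeries.C (a i) * u (Sum.inl (φ.symm i)) s) := by
      intro i
      rw [← hu (Sum.inl (φ.symm i)), Matrix.mulVec, dotProduct, Finset.mul_sum]
      refine Finset.sum_congr rfl fun s _ => ?_
      ring
    rw [Finset.sum_congr rfl fun i _ => h4 i, Finset.sum_comm]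
    refine Finset.sum_congr rfl fun s _ => ?_
    rw [Finset.mul_sum]
  funext i0
  have h5 := congrArg (PowerSeries.coeff ((φ.symm i0).1.2.val + 1)) (h1 (φ.symm i0).1.1)
  rw [PowerSeries.coeff_X_pow_mul', if_neg (by omega), map_sum] at h5
  have h6 : ∀ i, PowerSeries.coeff ((φ.symm i0).1.2.val + 1)
      (PowerSeries.C (a i) * arcG T γ (Sum.inl (φ.symm i)) (φ.symm i0).1.1) =
      if i = i0 then a i else 0 := by
    intro i
    rw [PowerSeries.coeff_C_mul]
    have h7 : PowerSeries.coeff ((φ.symm i0).1.2.val + 1)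
        (arcG T γ (Sum.inl (φ.symm i)) (φ.symm i0).1.1) =
        γ (φ.symm i) (φ.symm i0).1.1 (φ.symm i0).1.2 := by
      change PowerSeries.coeff ((φ.symm i0).1.2.val + 1)
        (∑ j, PowerSeries.C (γ (φ.symm i) (φ.symm i0).1.1 j) *
          (PowerSeries.X : PowerSeries L) ^ (j.val + 1)) = _
      rw [map_sum, Finset.sum_eq_single (φ.symm i0).1.2]
      · rw [PowerSeries.coeff_C_mul, PowerSeries.coeff_X_pow_self, mul_one]
      · intro j _ hj
        rw [PowerSeries.coeff_C_mul, PowerSeries.coeff_X_pow, if_neg, mul_zero]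
        intro h
        exact hj (Fin.ext (by omega))
      · intro h
        exact absurd (Finset.mem_univ _) h
    rw [h7, hγ]
    by_cases hi : i = i0
    · rw [if_pos hi, if_pos (by rw [hi]), mul_one]
    · rw [if_neg hi, if_neg (fun h => hi (φ.symm.injective h)), mul_zero]
  rw [Finset.sum_congr rfl fun i _ => h6 i, Finset.sum_ite_eq' Finset.univ i0,
    if_pos (Finset.mem_univ i0)] at h5
  exact h5

end MLD
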