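import Pool.Agent.MLD.Ord

/-!
PIECE MLD-C1: extension of a valuation of a domain to its fraction field, and the weighted
order as an order function of the function field.
-/

open MvPolynomial Filter

namespace MLD

universe u

theorem wo_mul {k : Type u} [Field k] {σ : Type} (w : σ → ℕ) (f g : MvPolynomial σ k) :
    wo w (f * g) = wo w f + wo w g := by
  rw [wo, wo, wo, MvPolynomial.coe_mul]
  exact MvPowerSeries.weightedOrder_mul w _ _

theorem extend_ord {k : Type u} [Field k] {R F : Type u} [CommRing R] [IsDomain R] [Algebra k R]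
    [Field F] [Algebra R F] [IsFractionRing R F] [Algebra k F] [IsScalarTower k R F] (u : R → ℕ)
    (hmul : ∀ f g, f ≠ 0 → g ≠ 0 → u (f * g) = u f + u g)
    (hadd : ∀ f g, f ≠ 0 → g ≠ 0 → f + g ≠ 0 → min (u f) (u g) ≤ u (f + g))
    (hc : ∀ c : k, c ≠ 0 → u (algebraMap k R c) = 0) :
    ∃ v : OrdFn k F, ∀ f : R, f ≠ 0 → v.ord (algebraMap R F f) = u f := by
  classical
  have hinj : Function.Injective (algebraMap R F) := IsFractionRing.injective R F
  have hex : ∀ f : F, ∃ a b : R, b ≠ 0 ∧ algebraMap R F a / algebraMap R F b = f := by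
    intro f
    obtain ⟨a, b, hb, hab⟩ := IsFractionRing.div_surjective (A := R) f
    exact ⟨a, b, nonZeroDivisors.ne_zero hb, hab⟩
  choose num den hden hfrac using hex
  have hnum : ∀ f : F, f ≠ 0 → num f ≠ 0 := by
    intro f hf h0
    apply hf
    rw [← hfrac f, h0, map_zero, zero_div]
  have key : ∀ a b : R, a ≠ 0 → b ≠ 0 →
      (u (num (algebraMap R F a / algebraMap R F b)) : ℤ) -
        u (den (algebraMap R F a / algebraMap R F b)) = u a - u b := by
    intro a b ha hb
    set f := algebraMap R F a / algebraMap R F b with hf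
    have ha' : algebraMap R F a ≠ 0 := fun h => ha (hinj (by rw [h, map_zero]))
    have hb' : algebraMap R F b ≠ 0 := fun h => hb (hinj (by rw [h, map_zero]))
    have hf0 : f ≠ 0 := div_ne_zero ha' hb'
    have hd' : algebraMap R F (den f) ≠ 0 := fun h => hden f (hinj (by rw [h, map_zero]))
    have h1 := hfrac f
    rw [hf] at h1
    rw [← hf] at h1
    rw [hf, div_eq_div_iff hd' hb', ← map_mul, ← map_mul] at h1
    rw [← hf] at h1
    have h2 := hinj h1
    have h3 := hmul (num f) b (hnum f hf0) hb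
    have h4 := hmul a (den f) ha (hden f)
    rw [h2, h4] at h3
    omega
  have hrep : ∀ f : F, f ≠ 0 → ∃ a b : R, a ≠ 0 ∧ b ≠ 0 ∧
      f = algebraMap R F a / algebraMap R F b := fun f hf =>
    ⟨num f, den f, hnum f hf, hden f, (hfrac f).symm⟩
  have hu1 : u 1 = 0 := by
    have := hmul 1 1 one_ne_zero one_ne_zero
    rw [mul_one] at this
    omega
  refine ⟨⟨fun f => (u (num f) : ℤ) - u (den f), ?_, ?_, ?_⟩, ?_⟩
  · intro f g hf hg
    obtain ⟨a, b, ha, hb, rfl⟩ := hrep f hf
    obtain ⟨c, d, hc', hd, rfl⟩ := hrep g hg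
    have h1 : algebraMap R F a / algebraMap R F b * (algebraMap R F c / algebraMap R F d) =
        algebraMap R F (a * c) / algebraMap R F (b * d) := by
      rw [div_mul_div_comm, map_mul, map_mul]
    rw [h1, key _ _ (mul_ne_zero ha hc') (mul_ne_zero hb hd), key _ _ ha hb, key _ _ hc' hd,
      hmul a c ha hc', hmul b d hb hd]
    push_cast
    ring
  · intro f g hf hg hfg
    obtain ⟨a, b, ha, hb, rfl⟩ := hrep f hf
    obtain ⟨c, d, hc', hd, rfl⟩ := hrep g hg
    have hb' : algebraMap R F b ≠ 0 := fun h => hb (hinj (by rw [h, map_zero]))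
    have hd' : algebraMap R F d ≠ 0 := fun h => hd (hinj (by rw [h, map_zero]))
    have h1 : algebraMap R F a / algebraMap R F b + algebraMap R F c / algebraMap R F d =
        algebraMap R F (a * d + b * c) / algebraMap R F (b * d) := by
      rw [div_add_div _ _ hb' hd', map_add, map_mul, map_mul, map_mul]
    have h2 : a * d + b * c ≠ 0 := by
      intro h0
      apply hfg
      rw [h1, h0, map_zero, zero_div]
    rw [h1, key _ _ h2 (mul_ne_zero hb hd), key _ _ ha hb, key _ _ hc' hd, hmul b d hb hd]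
    have h3 := hadd (a * d) (b * c) (mul_ne_zero ha hd) (mul_ne_zero hb hc') h2
    rw [hmul a d ha hd, hmul b c hb hc'] at h3
    omega
  · intro c hc0
    have h1 : algebraMap k F c = algebraMap R F (algebraMap k R c) / algebraMap R F 1 := by
      rw [map_one, div_one, ← IsScalarTower.algebraMap_apply]
    have h2 : algebraMap k R c ≠ 0 := by
      rw [Ne, map_eq_zero]
      exact hc0
    rw [h1, key _ _ h2 one_ne_zero, hc c hc0, hu1]
    simp
  · intro f hf
    have h1 : algebraMap R F f = algebraMap R F f / algebraMap R F 1 := by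
      rw [map_one, div_one]
    change (u (num (algebraMap R F f)) : ℤ) - u (den (algebraMap R F f)) = u f
    have h2 := key f 1 hf one_ne_zero
    rw [← h1, hu1] at h2
    simpa using h2

theorem exists_wval {k : Type u} [Field k] {σ : Type} (w : σ → ℕ) :
    ∃ v : OrdFn k (FF k σ), ∀ f : MvPolynomial σ k, f ≠ 0 →
      ∃ m : ℕ, v.ord (toFF k σ f) = m ∧ wo w f = m := by
  have hfin : ∀ f : MvPolynomial σ k, f ≠ 0 → ((wo w f).toNat : ℕ∞) = wo w f := by
    intro f hf
    refine (MvPowerSeries.ne_zero_iff_weightedOrder_finite w).1 ?_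
    intro h
    apply hf
    exact_mod_cast h
  have hmul : ∀ f g : MvPolynomial σ k, f ≠ 0 → g ≠ 0 →
      (wo w (f * g)).toNat = (wo w f).toNat + (wo w g).toNat := by
    intro f g hf hg
    have h1 := wo_mul w f g
    rw [← hfin f hf, ← hfin g hg, ← hfin (f * g) (mul_ne_zero hf hg)] at h1
    exact_mod_cast h1
  have hadd : ∀ f g : MvPolynomial σ k, f ≠ 0 → g ≠ 0 → f + g ≠ 0 →
      min (wo w f).toNat (wo w g).toNat ≤ (wo w (f + g)).toNat := by
    intro f g hf hg hfg
    have h1 : min (wo w f) (wo w g) ≤ wo w (f + g) := by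
      rw [wo, wo, wo, MvPolynomial.coe_add]
      exact MvPowerSeries.min_weightedOrder_le_add w
    rw [← hfin f hf, ← hfin g hg, ← hfin (f + g) hfg] at h1
    rw [min_le_iff] at h1 ⊢
    exact_mod_cast h1
  have hconst : ∀ c : k, c ≠ 0 → (wo w (algebraMap k (MvPolynomial σ k) c)).toNat = 0 := by
    intro c hc
    have h1 : wo w (algebraMap k (MvPolynomial σ k) c) = 0 := by
      rw [wo, MvPolynomial.algebraMap_eq, MvPolynomial.coe_C]
      have h2 := MvPowerSeries.weightedOrder_monomial_of_ne_zero w (d := (0 : σ →₀ ℕ)) hc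
      rw [map_zero] at h2
      simpa using h2
    rw [h1]
    rfl
  obtain ⟨v, hv⟩ := extend_ord (k := k) (R := MvPolynomial σ k) (F := FF k σ)
    (fun f => (wo w f).toNat) hmul hadd hconst
  exact ⟨v, fun f hf => ⟨(wo w f).toNat, hv f hf, (hfin f hf).symm⟩⟩

end MLD
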