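import Pool.Agent.MLD.ArcDefs
import Pool.Agent.MLD.ExtVal

/-!
PIECE MLD-R03: the order function of the field of Laurent series `VV L` and coefficientwise
derivations.

PROOF of `exists_ordV`: `extend_ord` (`ExtVal.lean`) with `R := PowerSeries L`, `F := VV L`,
`u f := f.order.toNat` (`PowerSeries.order_mul`, `min_order_le_order_add`; nonzero series have finite
order; constants `algebraMap k (PowerSeries L) c = C (algebraMap k L c)` have order 0).
PROOF of `exists_coefDer`: coefficientwise application of `δ` is a `k`-derivation of `PowerSeries L`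
(Leibniz by `PowerSeries.coeff_mul` and the Leibniz rule of `δ`); it extends to the field of fractions by the
quotient rule: exactly as in `Der_one` of `Der.lean` (lift the ring hom `PowerSeries L → TrivSqZeroExt
(VV L) (VV L)` through `IsLocalization.lift`).
PROOF of `coefDer_ge`: coefficientwise `δ` does not lower the order of a power series; for `f = a / b` use
`D (a / b) = D a / b - a * D b / b ^ 2` (`Derivation.leibniz_div` or multiply `f * b = a`), and the `ge`
lemmas of `Ord.lean`.
-/

open MvPolynomial

namespace MLD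

universe u

variable {k L : Type u} [Field k] [Field L] [Algebra k L]

/-- `v` is the order function of the Laurent series -/
def IsOrdV (v : OrdFn k (VV L)) : Prop :=
  ∀ f : PowerSeries L, f ≠ 0 → v.ord (algebraMap (PowerSeries L) (VV L) f) = f.order.toNat

private theorem ArcPs_inj : Function.Injective (algebraMap (PowerSeries L) (VV L)) :=
  IsFractionRing.injective (PowerSeries L) (VV L)

theorem exists_ordV : ∃ v : OrdFn k (VV L), IsOrdV v := by
  have hfin : ∀ f : PowerSeries L, f ≠ 0 → ((f.order.toNat : ℕ) : ℕ∞) = f.order :=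
    fun f hf => PowerSeries.coe_toNat_order hf
  refine extend_ord (k := k) (R := PowerSeries L) (F := VV L) (fun f => f.order.toNat) ?_ ?_ ?_
  · intro f g hf hg
    have h1 := PowerSeries.order_mul f g
    rw [← hfin f hf, ← hfin g hg, ← hfin (f * g) (mul_ne_zero hf hg)] at h1
    exact_mod_cast h1
  · intro f g hf hg hfg
    have h1 := PowerSeries.min_order_le_order_add f g
    rw [← hfin f hf, ← hfin g hg, ← hfin (f + g) hfg] at h1
    rw [min_le_iff] at h1 ⊢
    exact_mod_cast h1
  · intro c hc
    have h1 : IsUnit (algebraMap k (PowerSeries L) c) := (isUnit_iff_ne_zero.2 hc).map _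
    change (algebraMap k (PowerSeries L) c).order.toNat = 0
    rw [PowerSeries.order_zero_of_unit h1]
    rfl

theorem ordV_ge {v : OrdFn k (VV L)} (hv : IsOrdV v) (f : PowerSeries L) (n : ℕ) :
    v.ge n (algebraMap (PowerSeries L) (VV L) f) ↔ PowerSeries.X ^ n ∣ f := by
  by_cases hf : f = 0
  · subst hf
    rw [map_zero]
    exact ⟨fun _ => dvd_zero _, fun _ => v.ge_zero _⟩
  · have hf' : algebraMap (PowerSeries L) (VV L) f ≠ 0 := by
      intro h
      exact hf (ArcPs_inj (by rw [h, map_zero]))
    rw [PowerSeries.X_pow_dvd_iff]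
    constructor
    · intro h m hm
      rcases h with h | h
      · exact absurd h hf'
      · rw [hv f hf] at h
        exact PowerSeries.coeff_of_lt_order_toNat m (lt_of_lt_of_le hm (by exact_mod_cast h))
    · intro h
      right
      rw [hv f hf]
      have h1 := PowerSeries.nat_le_order f n h
      rw [← PowerSeries.coe_toNat_order hf] at h1
      exact_mod_cast h1

/-- coefficientwise application of a derivation -/
def CoefDer (δ : Derivation k L L) (D : Derivation k (VV L) (VV L)) : Prop :=
  ∀ f : PowerSeries L, D (algebraMap (PowerSeries L) (VV L) f) =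
    algebraMap (PowerSeries L) (VV L) (PowerSeries.mk fun n => δ (PowerSeries.coeff n f))

private noncomputable def ArcPs_d (δ : Derivation k L L) (f : PowerSeries L) : PowerSeries L :=
  PowerSeries.mk fun n => δ (PowerSeries.coeff n f)

private theorem ArcPs_coeff (δ : Derivation k L L) (f : PowerSeries L) (n : ℕ) :
    PowerSeries.coeff n (ArcPs_d δ f) = δ (PowerSeries.coeff n f) := PowerSeries.coeff_mk _ _

private theorem ArcPs_add (δ : Derivation k L L) (f g : PowerSeries L) :
    ArcPs_d δ (f + g) = ArcPs_d δ f + ArcPs_d δ g := by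
  ext n
  rw [map_add, ArcPs_coeff, ArcPs_coeff, ArcPs_coeff, map_add, map_add]

private theorem ArcPs_mul (δ : Derivation k L L) (f g : PowerSeries L) :
    ArcPs_d δ (f * g) = f * ArcPs_d δ g + g * ArcPs_d δ f := by
  ext n
  rw [ArcPs_coeff, map_add, mul_comm g, PowerSeries.coeff_mul, PowerSeries.coeff_mul,
    PowerSeries.coeff_mul, map_sum, ← Finset.sum_add_distrib]
  refine Finset.sum_congr rfl fun p _ => ?_
  rw [Derivation.leibniz, ArcPs_coeff, ArcPs_coeff, smul_eq_mul, smul_eq_mul]
  ring

private theorem ArcPs_const (δ : Derivation k L L) (c : k) :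
    ArcPs_d δ (algebraMap k (PowerSeries L) c) = 0 := by
  ext n
  rw [ArcPs_coeff, PowerSeries.algebraMap_apply, PowerSeries.coeff_C, map_zero]
  by_cases hn : n = 0
  · rw [if_pos hn, Derivation.map_algebraMap]
  · rw [if_neg hn, map_zero]

theorem exists_coefDer (δ : Derivation k L L) : ∃ D : Derivation k (VV L) (VV L), CoefDer δ D := by
  classical
  let R := PowerSeries L
  let K := VV L
  have hzero : ArcPs_d δ 0 = 0 := by
    have := ArcPs_const δ 0
    rwa [map_zero] at this
  have hone : ArcPs_d δ 1 = 0 := by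
    have := ArcPs_const δ 1
    rwa [map_one] at this
  let g : R →+* TrivSqZeroExt K K :=
    { toFun := fun f => TrivSqZeroExt.inl (algebraMap R K f) +
        TrivSqZeroExt.inr (algebraMap R K (ArcPs_d δ f))
      map_one' := by
        rw [hone, map_zero, TrivSqZeroExt.inr_zero, add_zero, map_one, TrivSqZeroExt.inl_one]
      map_zero' := by
        rw [hzero, map_zero, TrivSqZeroExt.inr_zero, add_zero, TrivSqZeroExt.inl_zero]
      map_add' := by
        intro a b
        rw [ArcPs_add, map_add, map_add, TrivSqZeroExt.inl_add, TrivSqZeroExt.inr_add]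
        abel
      map_mul' := by
        intro a b
        rw [ArcPs_mul]
        ext
        · simp only [TrivSqZeroExt.fst_add, TrivSqZeroExt.fst_inl, TrivSqZeroExt.fst_inr,
            TrivSqZeroExt.fst_mul, map_mul, add_zero]
        · simp only [TrivSqZeroExt.snd_add, TrivSqZeroExt.snd_inl,
            TrivSqZeroExt.snd_inr, TrivSqZeroExt.snd_mul, TrivSqZeroExt.fst_add,
            TrivSqZeroExt.fst_inl, TrivSqZeroExt.fst_inr, map_add, map_mul, zero_add, add_zero,
            MulOpposite.smul_eq_mul_unop, MulOpposite.unop_op, smul_eq_mul]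
          ring }
  have hg : ∀ f : R, g f = TrivSqZeroExt.inl (algebraMap R K f) +
      TrivSqZeroExt.inr (algebraMap R K (ArcPs_d δ f)) := fun _ => rfl
  have hg1 : ∀ f : R, (g f).fst = algebraMap R K f := by
    intro f
    rw [hg, TrivSqZeroExt.fst_add, TrivSqZeroExt.fst_inl, TrivSqZeroExt.fst_inr, add_zero]
  have hg2 : ∀ f : R, (g f).snd = algebraMap R K (ArcPs_d δ f) := by
    intro f
    rw [hg, TrivSqZeroExt.snd_add, TrivSqZeroExt.snd_inl, TrivSqZeroExt.snd_inr, zero_add]
  have hunit : ∀ s : nonZeroDivisors R, IsUnit (g s) := by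
    intro s
    rw [TrivSqZeroExt.isUnit_iff_isUnit_fst, hg1, isUnit_iff_ne_zero]
    intro h
    exact nonZeroDivisors.ne_zero s.2 (ArcPs_inj (by rw [h, map_zero]))
  let G : K →+* TrivSqZeroExt K K := IsLocalization.lift (M := nonZeroDivisors R) hunit
  have hG : ∀ f : R, G (algebraMap R K f) = g f := by
    intro f
    exact IsLocalization.lift_eq (M := nonZeroDivisors R) hunit f
  have hG1 : ∀ x : K, (G x).fst = x := by
    have h1 : ((TrivSqZeroExt.fstHom K K K).toRingHom.comp G) = RingHom.id K := by
      apply IsLocalization.ringHom_ext (nonZeroDivisors R)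
      refine RingHom.ext fun f => ?_
      show (G (algebraMap R K f)).fst = algebraMap R K f
      rw [hG, hg1]
    intro x
    exact congrArg (fun h : K →+* K => h x) h1
  have hleib : ∀ x y : K, (G (x * y)).snd = x * (G y).snd + y * (G x).snd := by
    intro x y
    rw [map_mul, TrivSqZeroExt.snd_mul, hG1, hG1]
    simp [mul_comm]
  refine ⟨Derivation.mk' { toFun := fun x => (G x).snd, map_add' := ?_, map_smul' := ?_ } ?_, ?_⟩
  · intro x y
    rw [map_add, TrivSqZeroExt.snd_add]
  · intro c x
    have h1 : c • x = algebraMap R K (algebraMap k R c) * x := by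
      rw [Algebra.smul_def, ← IsScalarTower.algebraMap_apply]
    rw [h1, hleib, hG, hg2, ArcPs_const, map_zero, mul_zero, add_zero, RingHom.id_apply,
      Algebra.smul_def, IsScalarTower.algebraMap_apply k R K]
  · intro x y
    exact hleib x y
  · intro f
    show (G (algebraMap R K f)).snd = _
    rw [hG, hg2]
    rfl

theorem coefDer_ge {v : OrdFn k (VV L)} (hv : IsOrdV v) {δ : Derivation k L L}
    {D : Derivation k (VV L) (VV L)} (hD : CoefDer δ D) (f : VV L) (hf : f ≠ 0) :
    v.ge (v.ord f) (D f) := by
  have key : ∀ a : PowerSeries L, a ≠ 0 →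
      v.ge (v.ord (algebraMap (PowerSeries L) (VV L) a))
        (D (algebraMap (PowerSeries L) (VV L) a)) := by
    intro a ha
    rw [hv a ha, hD a, ordV_ge hv, PowerSeries.X_pow_dvd_iff]
    intro m hm
    rw [PowerSeries.coeff_mk, PowerSeries.coeff_of_lt_order_toNat m hm, map_zero]
  obtain ⟨a, b, hb, rfl⟩ := IsFractionRing.div_surjective (A := PowerSeries L) f
  have hb0 : b ≠ 0 := nonZeroDivisors.ne_zero hb
  have ha0 : a ≠ 0 := by
    rintro rfl
    rw [map_zero, zero_div] at hf
    exact hf rfl
  set ι := algebraMap (PowerSeries L) (VV L) with hι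
  have hb' : ι b ≠ 0 := fun h => hb0 (ArcPs_inj (by rw [← hι, h, map_zero]))
  have ha' : ι a ≠ 0 := fun h => ha0 (ArcPs_inj (by rw [← hι, h, map_zero]))
  have hord : v.ord (ι a) = v.ord (ι a / ι b) + v.ord (ι b) := by
    rw [← v.ord_mul hf hb', div_mul_cancel₀ _ hb']
  have h1 : D (ι a) = ι a / ι b * D (ι b) + ι b * D (ι a / ι b) := by
    have h2 := D.leibniz (ι a / ι b) (ι b)
    rw [div_mul_cancel₀ _ hb', smul_eq_mul, smul_eq_mul] at h2
    exact h2
  have h3 : D (ι a / ι b) = (ι b)⁻¹ * (D (ι a) - ι a / ι b * D (ι b)) := by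
    rw [h1, add_sub_cancel_left, inv_mul_cancel_left₀ hb']
  have h4 : v.ge (v.ord (ι a)) (D (ι a) - ι a / ι b * D (ι b)) := by
    refine v.ge_sub (key a ha0) ?_
    rw [hord]
    exact v.ge_mul (v.ge_self _) (key b hb0)
  have h5 : v.ge (v.ord (ι b)⁻¹) (ι b)⁻¹ := v.ge_self _
  have h6 := v.ge_mul h5 h4
  rw [← h3, v.ord_inv _ hb', hord] at h6
  have h7 : -v.ord (ι b) + (v.ord (ι a / ι b) + v.ord (ι b)) = v.ord (ι a / ι b) := by ring
  rw [h7] at h6
  exact h6

end MLD
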