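import Pool.Agent.MLD.ArcRem

/-!
PIECE MLD-R23: dimension of a hypersurface section of an affine domain.

PROOF. Noether normalization (`exists_integral_inj_algHom_of_fg`): `s` and an injective integral
`φ : B := MvPolynomial (Fin s) k →ₐ[k] A`. `A` contains `N + 1` algebraically independent elements and is
algebraic over `B`, so `N + 1 ≤ s` (transcendence degree of `B` is `s`).
`B` is a UFD, integrally closed, `K := FractionRing B`, `F := FractionRing A` algebraic over `K`. `τ` is integral
over `B`; let `q₀ ∈ B[T]` be its minimal polynomial over `B` (`minpoly B τ`; `minpoly.isIntegrallyClosed_*`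
lemmas: it is also the minimal polynomial over `K`), and `a₀` its constant coefficient, `a₀ ≠ 0` since `τ ≠ 0`.
`a₀ ∈ τ A` (from `q₀(τ) = 0`), `a₀` is not a unit since `τ` is not. Let `p` be an irreducible (prime) factor of
`a₀` in `B`.
CLAIM: if `τ * a = φ t` with `a ∈ A`, `t ∈ B`, then `p ∣ t`. (`t ≠ 0` w.l.o.g.) `a` is integral over `B`; in `F`,
`a = t / τ`. With `q₀ = T^d + a_(d-1) T^(d-1) + .. + a₀` the polynomial
`T^d + .. + (t^(j) a_(j) / a₀ ..) + t^d / a₀` (the reversed polynomial scaled: `t^d/a₀ * ∑ a_i (T/t)^(d-i)`...,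
i.e. `Q(T) := (T^d / a₀) q₀(t / T)` written as a polynomial in `T`, monic of degree `d`) kills `a`, and it is the
minimal polynomial of `a` over `K` because `K(a) = K(τ)` has degree `d`. The minimal polynomial of
the integral element `a` has coefficients in `B`; its constant coefficient is `t^d / a₀`. So `a₀ ∣ t^d` and
`p ∣ t^d`, `p ∣ t`. (Alternative: use the field norm `Algebra.norm K` of the finite extension `K(τ)/K`,
or `Algebra.norm`/`minpoly` lemmas: `N(τ) N(a) = t^d`, norms of integral elements are in `B`, `N(τ) = ± a₀`.)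
Let `S := φ (B ∖ (p))`, a multiplicative set of `A`. By the claim `τ A ∩ S = ∅`, so there is a prime ideal
`q ⊇ (τ)` of `A` with `q ∩ S = ∅` (`Ideal.exists_le_prime_disjoint`). `φ⁻¹(q) ⊆ (p)`.
Let `y' : Fin (s-1) → Fin s` as in `arc_rem` for `p`. The elements `φ (X (y' i))` are algebraically
independent modulo `q`: if `P ≠ 0` and `P(φ (X ∘ y')) = φ (rename y' P) ∈ q` then `rename y' P ∈ (p)`,
contradicting `arc_rem`. Take the first `N ≤ s - 1` of them.
-/

namespace MLD

universe u

section ArcHt

open Polynomial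

/-- the constant coefficient of the minimal polynomial of a nonzero element -/
private theorem ArcHt_coeff_ne {B A : Type u} [CommRing B] [CommRing A] [IsDomain A] [Algebra B A]
    [Nontrivial B] {x : A} (hx : IsIntegral B x) (h0 : x ≠ 0) : (minpoly B x).coeff 0 ≠ 0 := by
  intro h
  obtain ⟨f, hf⟩ := X_dvd_iff.2 h
  have h1 := minpoly.aeval B x
  rw [hf, map_mul, aeval_X] at h1
  have h2 : aeval x f = 0 := (mul_eq_zero.1 h1).resolve_left h0
  have hm := minpoly.monic hx
  rw [hf] at hm
  have hfm : f.Monic := monic_X.of_mul_monic_left hm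
  have h3 := minpoly.min B x hfm h2
  rw [hf] at h3
  have h4 := natDegree_le_natDegree h3
  rw [monic_X.natDegree_mul hfm, natDegree_X] at h4
  omega

/-- the claim of the header -/
private theorem ArcHt_claim {B A : Type u} [CommRing B] [IsDomain B] [IsIntegrallyClosed B]
    [CommRing A] [IsDomain A] [Algebra B A] [Module.IsTorsionFree B A] [Algebra.IsIntegral B A]
    {x a : A} {t : B}
    (h : x * a = algebraMap B A t) :
    ∃ e : ℕ, (minpoly B x).coeff 0 ∣ t ^ e := by
  have ha := Algebra.IsIntegral.isIntegral (R := B) a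
  have hx := Algebra.IsIntegral.isIntegral (R := B) x
  set f := minpoly B a with hf
  set e := f.natDegree with he
  let P : B[X] := ∑ i ∈ Finset.range (e + 1), C (f.coeff i * t ^ i) * X ^ (e - i)
  have hP : aeval x P = 0 := by
    have h1 : aeval a f = 0 := minpoly.aeval B a
    rw [aeval_eq_sum_range] at h1
    have h2 : aeval x P = x ^ e * ∑ i ∈ Finset.range (e + 1), f.coeff i • a ^ i := by
      simp only [P, map_sum, map_mul, aeval_C, map_pow, aeval_X]
      rw [Finset.mul_sum]
      refine Finset.sum_congr rfl fun i hi => ?_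
      have hie : i ≤ e := Nat.lt_succ_iff.1 (Finset.mem_range.1 hi)
      rw [← h, mul_pow, Algebra.smul_def]
      have h3 : x ^ e = x ^ i * x ^ (e - i) := by rw [← pow_add, Nat.add_sub_cancel' hie]
      rw [h3]
      ring
    rw [h2, h1, mul_zero]
  obtain ⟨g, hg⟩ := minpoly.isIntegrallyClosed_dvd hx hP
  refine ⟨e, g.coeff 0, ?_⟩
  have h4 : P.coeff 0 = t ^ e := by
    simp only [P, finsetSum_coeff, coeff_C_mul, coeff_X_pow]
    rw [Finset.sum_eq_single e]
    · have h5 : f.coeff e = 1 := (minpoly.monic ha).coeff_natDegree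
      simp [h5]
    · intro i hi hie
      have h6 : i < e := lt_of_le_of_ne (Nat.lt_succ_iff.1 (Finset.mem_range.1 hi)) hie
      have h7 : (0 : ℕ) ≠ e - i := by omega
      simp [h7]
    · intro h8
      exact absurd (Finset.self_mem_range_succ e) h8
  rw [← h4, hg, mul_coeff_zero]

end ArcHt

theorem arc_ht {k A : Type u} [Field k] [CommRing A] [IsDomain A] [Algebra k A]
    [Algebra.FiniteType k A] (τ : A) (hτ0 : τ ≠ 0) (hτ : ¬ IsUnit τ) (N : ℕ)
    (y : Fin (N + 1) → A) (hy : AlgebraicIndependent k y) :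
    ∃ q : Ideal A, q.IsPrime ∧ τ ∈ q ∧
      ∃ y' : Fin N → A, AlgebraicIndependent k (fun i => Ideal.Quotient.mk q (y' i)) := by
  classical
  obtain ⟨s, g, ginj, gint⟩ := exists_integral_inj_algHom_of_fg k A
  let _ : Algebra (MvPolynomial (Fin s) k) A := g.toRingHom.toAlgebra
  have : IsScalarTower k (MvPolynomial (Fin s) k) A :=
    IsScalarTower.of_algebraMap_eq (fun r => (g.commutes r).symm)
  have : Algebra.IsIntegral (MvPolynomial (Fin s) k) A := ⟨fun x => gint x⟩
  have hinj : Function.Injective (algebraMap (MvPolynomial (Fin s) k) A) := ginj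
  have : FaithfulSMul (MvPolynomial (Fin s) k) A :=
    (faithfulSMul_iff_algebraMap_injective _ A).2 hinj
  have : Module.IsTorsionFree (MvPolynomial (Fin s) k) A := inferInstance
  -- the number of variables
  have hNs : N + 1 ≤ s := by
    have h1 := hy.lift_cardinalMk_le_trdeg
    have h2 : Algebra.trdeg k (MvPolynomial (Fin s) k) +
        Algebra.trdeg (MvPolynomial (Fin s) k) A = Algebra.trdeg k A := trdeg_add_eq _ _
    have h3 : Algebra.trdeg (MvPolynomial (Fin s) k) A = 0 := trdeg_eq_zero
    rw [h3, add_zero, MvPolynomial.trdeg_of_isDomain] at h2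
    rw [← h2] at h1
    simpa using h1
  -- the constant coefficient
  have hτi := Algebra.IsIntegral.isIntegral (R := MvPolynomial (Fin s) k) τ
  obtain ⟨a₀, ha₀⟩ : ∃ a₀, a₀ = (minpoly (MvPolynomial (Fin s) k) τ).coeff 0 := ⟨_, rfl⟩
  have ha0 : a₀ ≠ 0 := by
    rw [ha₀]
    exact ArcHt_coeff_ne hτi hτ0
  have hau : ¬ IsUnit a₀ := by
    intro hu
    apply hτ
    have h1 := minpoly.aeval (MvPolynomial (Fin s) k) τ
    rw [← Polynomial.divX_mul_X_add (minpoly (MvPolynomial (Fin s) k) τ), map_add, map_mul,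
      Polynomial.aeval_X, Polynomial.aeval_C, ← ha₀] at h1
    have h2 : IsUnit (algebraMap (MvPolynomial (Fin s) k) A a₀) := hu.map _
    have h3 : algebraMap (MvPolynomial (Fin s) k) A a₀ =
        τ * -(Polynomial.aeval τ (minpoly (MvPolynomial (Fin s) k) τ).divX) := by
      linear_combination h1
    rw [h3] at h2
    exact isUnit_of_mul_isUnit_left h2
  obtain ⟨p, hpi, hpa⟩ := WfDvdMonoid.exists_irreducible_factor hau ha0
  have hpp : Prime p := hpi.prime
  have hclaim : ∀ (a : A) (t : MvPolynomial (Fin s) k),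
      τ * a = algebraMap (MvPolynomial (Fin s) k) A t → p ∣ t := by
    intro a t h
    obtain ⟨e, he⟩ := ArcHt_claim h
    exact hpp.dvd_of_dvd_pow (hpa.trans (ha₀ ▸ he))
  have hprime : (Ideal.span {p}).IsPrime :=
    (Ideal.span_singleton_prime hpp.ne_zero).2 hpp
  have hdisj : Disjoint ((Ideal.span {τ} : Ideal A) : Set A)
      ((Ideal.primeCompl (Ideal.span {p})).map
        (algebraMap (MvPolynomial (Fin s) k) A) : Submonoid A) := by
    rw [Set.disjoint_left]
    rintro x hx ⟨t, ht, rfl⟩
    obtain ⟨a, ha⟩ := Ideal.mem_span_singleton'.1 hx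
    apply ht
    rw [SetLike.mem_coe, Ideal.mem_span_singleton]
    exact hclaim a t (by rw [mul_comm]; exact ha)
  obtain ⟨q, hq, hle, hqd⟩ := Ideal.exists_le_prime_disjoint _ _ hdisj
  refine ⟨q, hq, hle (Ideal.mem_span_singleton_self τ), ?_⟩
  obtain ⟨y', hy'⟩ := arc_rem p hpp.ne_zero hpp.not_isUnit
  have hN : N ≤ s - 1 := by omega
  refine ⟨fun i => algebraMap (MvPolynomial (Fin s) k) A
    (MvPolynomial.X (y' (Fin.castLE hN i))), ?_⟩
  rw [algebraicIndependent_iff]
  intro P hP
  by_contra hP0
  have h1 : MvPolynomial.aeval (fun i => Ideal.Quotient.mk q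
      (algebraMap (MvPolynomial (Fin s) k) A (MvPolynomial.X (y' (Fin.castLE hN i))))) P =
      Ideal.Quotient.mk q (algebraMap (MvPolynomial (Fin s) k) A
        (MvPolynomial.rename y' (MvPolynomial.rename (Fin.castLE hN) P))) := by
    have h2 : (MvPolynomial.aeval (fun i => Ideal.Quotient.mk q
      (algebraMap (MvPolynomial (Fin s) k) A (MvPolynomial.X (y' (Fin.castLE hN i)))))) =
      ((Ideal.Quotient.mkₐ k q).comp ((IsScalarTower.toAlgHom k (MvPolynomial (Fin s) k) A).comp
        ((MvPolynomial.rename y').comp (MvPolynomial.rename (Fin.castLE hN))))) := by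
      apply MvPolynomial.algHom_ext
      intro i
      simp
    exact DFunLike.congr_fun h2 P
  rw [h1, Ideal.Quotient.eq_zero_iff_mem] at hP
  have h3 : MvPolynomial.rename (Fin.castLE hN) P ≠ 0 := by
    intro h4
    apply hP0
    apply MvPolynomial.rename_injective _ (Fin.castLE_injective hN)
    rw [h4, map_zero]
  apply hy' _ h3
  by_contra h5
  refine Set.disjoint_left.1 hqd hP ⟨_, ?_, rfl⟩
  intro h6
  rw [SetLike.mem_coe, Ideal.mem_span_singleton] at h6
  exact h5 h6

end MLD
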