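import Mathlib

/-!
PIECE MLD-R21: transcendence bases among the generators.

PROOF. `A` is algebraic over the subalgebra generated by a maximal algebraically independent subfamily `T` of
`g` (`exists_isTranscendenceBasis_subset`-type lemmas in
`Mathlib/RingTheory/AlgebraicIndependent/TranscendenceBasis.lean`: a subset `s` of `Set.range g` which is a
transcendence basis of `A`, since `A` is algebraic over `adjoin k (range g) = ⊤`), and the cardinality of any
algebraically independent family is at most that of a transcendence basis (`trdeg`), here finite. Choose for
each element of the basis an index in `G`.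
-/

namespace MLD

universe u

theorem arc_tb {k A : Type u} [Field k] [CommRing A] [IsDomain A] [Algebra k A] {G : Type}
    [Fintype G] [DecidableEq G] (g : G → A) (hg : Algebra.adjoin k (Set.range g) = ⊤) (N : ℕ)
    (y : Fin N → A) (hy : AlgebraicIndependent k y) :
    ∃ T : Finset G, N ≤ T.card ∧ AlgebraicIndependent k (fun t : T => g t) := by
  classical
  have halg : Algebra.IsAlgebraic (Algebra.adjoin k (Set.range g)) A := by
    refine ⟨fun a => ?_⟩
    have ha : a ∈ Algebra.adjoin k (Set.range g) := by
      rw [hg]
      exact Algebra.mem_top
    have h := isAlgebraic_algebraMap (R := Algebra.adjoin k (Set.range g)) (A := A)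
      (⟨a, ha⟩ : Algebra.adjoin k (Set.range g))
    exact h
  obtain ⟨t, hts, ht⟩ := exists_isTranscendenceBasis_subset (R := k) (Set.range g)
  have htf : t.Finite := (Set.finite_range g).subset hts
  have hcard : (N : Cardinal) ≤ Cardinal.mk t := by
    have h1 := hy.lift_cardinalMk_le_trdeg
    rw [← ht.cardinalMk_eq_trdeg] at h1
    simpa using h1
  have hidx : ∀ a : t, ∃ i : G, g i = a := fun a => hts a.2
  choose idx hidx using hidx
  have hinj : Function.Injective idx := by
    intro a b hab
    apply Subtype.ext
    rw [← hidx a, ← hidx b, hab]
  let _ : Fintype t := htf.fintype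
  refine ⟨Finset.univ.image idx, ?_, ?_⟩
  · rw [Finset.card_image_of_injective _ hinj, Finset.card_univ]
    rw [Cardinal.mk_fintype] at hcard
    exact_mod_cast hcard
  · have hmem : ∀ i : (Finset.univ.image idx : Finset G), ∃ a : t, idx a = i := by
      intro i
      obtain ⟨a, -, ha⟩ := Finset.mem_image.1 i.2
      exact ⟨a, ha⟩
    choose back hback using hmem
    have hbinj : Function.Injective back := by
      intro i j hij
      apply Subtype.ext
      rw [← hback i, ← hback j, hij]
    have h := ht.1.comp back hbinj
    have h2 : (fun i : (Finset.univ.image idx : Finset G) => g i) =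
        ((↑) : t → A) ∘ back := by
      funext i
      show g i = (back i : A)
      rw [← hidx (back i), hback i]
    rw [h2]
    exact h

end MLD
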