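import Pool.Agent.MLD.IdOrd

/-!
Initial forms, jets, pull back of valuations, residually independent families.
-/

open MvPolynomial

namespace MLD

universe u

section
variable {k : Type u} [Field k] {σ : Type}

/-- the lowest weight of the monomials of `f` -/
noncomputable def wlow (w : σ → ℕ) (f : MvPolynomial σ k) : ℕ :=
  sInf {d | ∃ m ∈ f.support, Finsupp.weight w m = d}

/-- the initial form of `f`: the weighted homogeneous component of lowest weight -/
noncomputable def inw (w : σ → ℕ) (f : MvPolynomial σ k) : MvPolynomial σ k :=
  weightedHomogeneousComponent w (wlow w f) f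

end

/-- the power series without constant term with coefficient `c i j` at `X ^ (j + 1)` -/
noncomputable def jetS {L : Type*} [CommRing L] {σ : Type} {m : ℕ} (c : σ → Fin m → L) (i : σ) :
    PowerSeries L :=
  ∑ j, PowerSeries.C (c i j) * PowerSeries.X ^ (j.val + 1)

/-- pull back of an order function by a homomorphism of fields -/
def OrdFn.comap {k K W : Type*} [Field k] [Field K] [Algebra k K] [Field W] [Algebra k W]
    (v : OrdFn k W) (ι : K →ₐ[k] W) : OrdFn k K where
  ord f := v.ord (ι f)
  ord_mul' f g hf hg := by
    rw [map_mul]
    exact v.ord_mul' _ _ ((map_ne_zero ι).2 hf) ((map_ne_zero ι).2 hg)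
  ord_add' f g hf hg h := by
    rw [map_add]
    exact v.ord_add' _ _ ((map_ne_zero ι).2 hf) ((map_ne_zero ι).2 hg)
      (by rw [← map_add]; exact (map_ne_zero ι).2 h)
  ord_const' c hc := by
    rw [AlgHom.commutes]
    exact v.ord_const' c hc

theorem OrdFn.comap_ord {k K W : Type*} [Field k] [Field K] [Algebra k K] [Field W] [Algebra k W]
    (v : OrdFn k W) (ι : K →ₐ[k] W) (f : K) : (v.comap ι).ord f = v.ord (ι f) := rfl

theorem OrdFn.comap_ge {k K W : Type*} [Field k] [Field K] [Algebra k K] [Field W] [Algebra k W]
    (v : OrdFn k W) (ι : K →ₐ[k] W) (N : ℤ) (f : K) : (v.comap ι).ge N f ↔ v.ge N (ι f) := by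
  unfold OrdFn.ge
  rw [map_eq_zero]
  rfl

/-- `y` is a family of elements of order zero with algebraically independent residues -/
def RAI {k K : Type*} [Field k] [Field K] [Algebra k K] (v : OrdFn k K) {B : Type*} (y : B → K) :
    Prop :=
  ∀ P : MvPolynomial B k, P ≠ 0 → aeval y P ≠ 0 ∧ v.ord (aeval y P) = 0

/-- The residue of `f` is algebraic over the field generated by the residues of `y`:
there is a nonzero polynomial `P` (in one variable, with coefficients polynomials in `y`) such that
`P(f)` has positive order. -/
def ResAlg {k K : Type*} [Field k] [Field K] [Algebra k K] (v : OrdFn k K) {B : Type*} (y : B → K)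
    (f : K) : Prop :=
  ∃ P : Polynomial (MvPolynomial B k), P ≠ 0 ∧
    v.ge 1 (Polynomial.eval₂ (aeval y : MvPolynomial B k →ₐ[k] K).toRingHom f P)

/-- The field of Laurent series, as the field of fractions of the power series. -/
abbrev VV (L : Type u) [Field L] : Type u := FractionRing (PowerSeries L)

end MLD
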