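import Pool.Agent.MLD.ArcDefs
import Pool.Agent.MLD.ArcHt
import Pool.Agent.MLD.ArcTB

/-!
PIECE MLD-R24: degeneration of jets.

PROOF. Let `B := LaurentPolynomial L` (a domain, `k`-algebra through `L`), `τ := T 1`, and
`c' i j := LaurentPolynomial.C (c i j) * T (-(w i))`. `A := Algebra.adjoin k ({τ} ∪ {c' i j})`, a subalgebra of `B`,
finitely generated, a domain; generators `g : Option (σ × Fin m) → A`.
(1) `τ` is not a unit of `A`: otherwise `T (-1) ∈ A`, i.e. `T (-1) = aeval .. G` for a polynomial `G` in the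
variables `τ` and `C i j`: `1 = ∑_d G_d(c') T^(d+1)`, `G_d ∈ k[C i j]`. Expand each `G_d` in monomials `C^μ`:
`C^μ(c') = c^μ T^(-∑ w i μ)`. The coefficient of `T^0` of the identity: `1 = H(c)` where
`H := ∑_(d,μ : d + 1 = ∑ w i μ(i,j)) (coeff of τ^d C^μ in G) C^μ`, a polynomial with zero constant
coefficient (`μ = 0` would need `d + 1 = 0`). So `F := H - 1` satisfies `aeval c F = 0` and
`constantCoeff F = -1 ≠ 0`: contradiction to `h0`.
(More abstractly: the set of elements `f` of `A` whose `T^0`-coefficient lies in ... ; any proof is fine.)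
(2) Let `N := T.card`. The `N + 1` elements `τ` and `c' t`, `t ∈ T`, of `A` are algebraically independent over
`k`: let `P ≠ 0` be a polynomial in `τ, C t`; multiply the variables: `P(τ, c t τ^(-w t))`, write
`P = ∑ P_(d,μ) τ^d C^μ`; its `T^e`-coefficient is `∑_(d - w μ = e) P_(d,μ) c^μ`, a nonzero polynomial in
`c t` for some `e` (for given `μ` and `e` there is at most one `d`), nonzero since `c t` are independent.
(3) `arc_ht` gives a prime `q ∋ τ` of `A` and `N` elements independent modulo `q`. `A' := A ⧸ q`, a domain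
generated by the images of `τ` (which is `0`) and `c' i j`. `arc_tb` for `A'` with generators
`σ × Fin m` (the image of `τ` is `0`, so not needed) gives `T₀` with `T.card ≤ T₀.card` such that the images of
`c' t`, `t ∈ T₀`, are independent. `L₀ := FractionRing A'`, `c₀ i j :=` image of `c' i j`.
(4) Let `f ≠ 0`, `X^r ∣ aeval (jetS c) f` in `PowerSeries L`, `e := wlow w f`. In `PowerSeries B`:
`jetS (C ∘ c) i = C (T (w i)) * jetS c' i`, so with `f = ∑ f_μ x^μ`,
`aeval (jetS (C ∘ c)) f = ∑ f_μ T^(w μ) (jetS c')^μ = T^e * ∑ f_μ T^(w μ - e) (jetS c')^μ =: T^e * Φ`, where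
`w μ ≥ e` for all `μ ∈ f.support`, and `Φ` is the image of a series `Φ_A ∈ PowerSeries A` (same formula in
`A`). `T^e` is a unit of `B`, so `X^r ∣ Φ` in `PowerSeries B`, i.e. the coefficients `< r` of `Φ_A` vanish
(`A → B` injective). Apply `A → A' → L₀`: `τ ↦ 0`, so `Φ_A ↦ ∑_(w μ = e) f_μ (jetS c₀)^μ =
aeval (jetS c₀) (inw w f)`, whose coefficients `< r` vanish: `X^r` divides it (`PowerSeries.X_pow_dvd_iff`).
-/

open MvPolynomial

namespace MLD

universe u

section sub
variable {k : Type*} [Field k] {κ : Type*}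

/-- the elements `T`, `c t * T ^ (- w t)` -/
private noncomputable def gen {R : Type*} [CommRing R] (w : κ → ℕ) (c : κ → R) (o : Option κ) :
    LaurentPolynomial R :=
  o.elim (LaurentPolynomial.T 1)
    (fun t => LaurentPolynomial.C (c t) * LaurentPolynomial.T (-(w t : ℤ)))

private noncomputable def sbs (k : Type*) [Field k] {κ : Type*} {R : Type*} [CommRing R]
    [Algebra k R] (w : κ → ℕ) (c : κ → R) :
    MvPolynomial (Option κ) k →ₐ[k] LaurentPolynomial R :=
  aeval (gen w c)

private theorem sbs_nat {R R' : Type*} [CommRing R] [Algebra k R] [CommRing R'] [Algebra k R']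
    (φ : R →ₐ[k] R') (w : κ → ℕ) (c : κ → R) (P : MvPolynomial (Option κ) k) (n : ℤ) :
    (sbs k w (fun t => φ (c t)) P).coeff n = φ ((sbs k w c P).coeff n) := by
  have h : (AddMonoidAlgebra.mapAlgHom ℤ φ).comp (sbs k w c) = sbs k w (fun t => φ (c t)) := by
    apply MvPolynomial.algHom_ext
    intro o
    simp only [sbs, AlgHom.comp_apply, aeval_X]
    cases o with
    | none =>
      simp only [gen, Option.elim]
      unfold LaurentPolynomial.T
      rw [AddMonoidAlgebra.mapAlgHom_single, map_one]
    | some t =>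
      simp only [gen, Option.elim]
      rw [← LaurentPolynomial.single_eq_C_mul_T, ← LaurentPolynomial.single_eq_C_mul_T,
        AddMonoidAlgebra.mapAlgHom_single]
  rw [← h, AlgHom.comp_apply, AddMonoidAlgebra.coeff_mapAlgHom]

/-- the unit `T` -/
private noncomputable def Tu (R : Type*) [CommRing R] : (LaurentPolynomial R)ˣ :=
  ⟨LaurentPolynomial.T 1, LaurentPolynomial.T (-1), by
    rw [← LaurentPolynomial.T_add, add_neg_cancel, LaurentPolynomial.T_zero], by
    rw [← LaurentPolynomial.T_add, neg_add_cancel, LaurentPolynomial.T_zero]⟩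

private theorem Tu_zpow (R : Type*) [CommRing R] (n : ℤ) :
    ((Tu R ^ n : (LaurentPolynomial R)ˣ) : LaurentPolynomial R) = LaurentPolynomial.T n := by
  obtain ⟨m, rfl | rfl⟩ := Int.eq_nat_or_neg n
  · rw [zpow_natCast, Units.val_pow_eq_pow_val]
    change (LaurentPolynomial.T 1) ^ m = _
    rw [LaurentPolynomial.T_pow, mul_one]
  · rw [zpow_neg, zpow_natCast, ← inv_pow, Units.val_pow_eq_pow_val]
    change (LaurentPolynomial.T (-1)) ^ m = _
    rw [LaurentPolynomial.T_pow, mul_neg, mul_one]

private noncomputable def f0 (k : Type*) [Field k] {κ : Type*} (w : κ → ℕ) :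
    MvPolynomial κ k →ₐ[k] LaurentPolynomial (MvPolynomial κ k) :=
  aeval fun t => LaurentPolynomial.C (X t) * LaurentPolynomial.T (w t : ℤ)

private noncomputable def Th (k : Type*) [Field k] {κ : Type*} (w : κ → ℕ) :
    LaurentPolynomial (MvPolynomial κ k) →+* LaurentPolynomial (MvPolynomial κ k) :=
  LaurentPolynomial.eval₂ (f0 k w).toRingHom (Tu _)

private theorem Th_C (w : κ → ℕ) (a : MvPolynomial κ k) :
    Th k w (LaurentPolynomial.C a) = f0 k w a := by
  unfold Th
  rw [LaurentPolynomial.eval₂_C]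
  rfl

private theorem Th_T (w : κ → ℕ) (n : ℤ) :
    Th k w (LaurentPolynomial.T n) = LaurentPolynomial.T n := by
  unfold Th
  rw [LaurentPolynomial.eval₂_T, Tu_zpow]

private theorem Th_key (w : κ → ℕ) (P : MvPolynomial (Option κ) k) :
    Th k w (sbs k w (X : κ → MvPolynomial κ k) P) =
      Polynomial.toLaurent (optionEquivLeft k κ P) := by
  induction P using MvPolynomial.induction_on with
  | C a =>
    have e1 : sbs k w (X : κ → MvPolynomial κ k) (C a) =
        LaurentPolynomial.C (algebraMap k (MvPolynomial κ k) a) := by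
      rw [sbs, aeval_C, LaurentPolynomial.algebraMap_apply]
    have e2 : f0 k w (algebraMap k (MvPolynomial κ k) a) =
        LaurentPolynomial.C (algebraMap k (MvPolynomial κ k) a) := by
      rw [AlgHom.commutes, LaurentPolynomial.algebraMap_apply]
    rw [e1, Th_C, e2, optionEquivLeft_C, Polynomial.toLaurent_C, MvPolynomial.algebraMap_eq]
  | add p q hp hq => rw [map_add, map_add, map_add, map_add, hp, hq]
  | mul_X p o hp =>
    have e0 : Th k w (sbs k w (X : κ → MvPolynomial κ k) (X o)) =
        Polynomial.toLaurent (optionEquivLeft k κ (X o)) := by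
      rw [sbs, aeval_X]
      cases o with
      | none =>
        rw [optionEquivLeft_X_none, Polynomial.toLaurent_X]
        simp only [gen, Option.elim]
        rw [Th_T]
      | some t =>
        rw [optionEquivLeft_X_some, Polynomial.toLaurent_C]
        simp only [gen, Option.elim]
        rw [map_mul, Th_C, Th_T, f0, aeval_X, LaurentPolynomial.mul_T_assoc, add_neg_cancel,
          LaurentPolynomial.T_zero, mul_one]
    rw [map_mul, map_mul, map_mul, map_mul, hp, e0]

private theorem sbs_inj (w : κ → ℕ) :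
    Function.Injective (sbs k w (X : κ → MvPolynomial κ k)) := by
  intro P Q hPQ
  have h1 : Polynomial.toLaurent (optionEquivLeft k κ P) =
      Polynomial.toLaurent (optionEquivLeft k κ Q) := by
    rw [← Th_key w, ← Th_key w, hPQ]
  exact (optionEquivLeft k κ).injective (Polynomial.toLaurent_injective h1)

/-- the elements `T`, `c t * T ^ (- w t)` are independent if the `c t` are -/
private theorem gen_indep {R : Type*} [CommRing R] [Algebra k R] (w : κ → ℕ) (c : κ → R)
    (hc : AlgebraicIndependent k c) : AlgebraicIndependent k (gen w c) := by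
  have h0 : Function.Injective (sbs k w c) := by
    intro P Q hPQ
    apply sbs_inj w
    apply LaurentPolynomial.ext
    intro n
    apply hc
    have h1 := sbs_nat (aeval c : MvPolynomial κ k →ₐ[k] R) w X P n
    have h2 := sbs_nat (aeval c : MvPolynomial κ k →ₐ[k] R) w X Q n
    simp only [aeval_X] at h1 h2
    rw [← h1, ← h2, hPQ]
  exact h0

/-- `T⁻¹` is not in the algebra generated by `T` and the `c t * T ^ (- w t)` -/
private theorem gen_unit {R : Type*} [CommRing R] [Algebra k R] (w : κ → ℕ) (c : κ → R)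
    (h0 : ∀ F : MvPolynomial κ k, aeval c F = 0 → constantCoeff F = 0) :
    LaurentPolynomial.T (-1) ∉ Algebra.adjoin k (Set.range (gen w c)) := by
  intro hmem
  rw [Algebra.adjoin_range_eq_range_aeval] at hmem
  obtain ⟨G, hG⟩ := hmem
  have hG' : sbs k w c G = LaurentPolynomial.T (-1) := hG
  have h1 := sbs_nat (aeval c : MvPolynomial κ k →ₐ[k] R) w X G (-1)
  simp only [aeval_X] at h1
  rw [hG', LaurentPolynomial.T_apply, if_pos rfl] at h1
  set H := (sbs k w (X : κ → MvPolynomial κ k) G).coeff (-1) with hH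
  -- the constant coefficient of `H` vanishes
  have h2 : constantCoeff H = 0 := by
    let ε : MvPolynomial κ k →ₐ[k] k := aeval (fun _ => (0 : k))
    have hε : ε H = constantCoeff H := by
      simp only [ε]
      rw [aeval_zero']
      rfl
    have h3 := sbs_nat ε w X G (-1)
    have h4 : ∀ P : MvPolynomial (Option κ) k, ∃ p : Polynomial k,
        sbs k w (fun t => ε (X t)) P = Polynomial.toLaurent p := by
      intro P
      induction P using MvPolynomial.induction_on with
      | C a =>
        refine ⟨Polynomial.C a, ?_⟩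
        rw [Polynomial.toLaurent_C, sbs, aeval_C]
        rfl
      | add p q hp hq =>
        obtain ⟨p', hp'⟩ := hp
        obtain ⟨q', hq'⟩ := hq
        exact ⟨p' + q', by rw [map_add, map_add, hp', hq']⟩
      | mul_X p o hp =>
        obtain ⟨p', hp'⟩ := hp
        cases o with
        | none =>
          refine ⟨p' * Polynomial.X, ?_⟩
          rw [map_mul, map_mul, hp', Polynomial.toLaurent_X, sbs, aeval_X]
          rfl
        | some t =>
          refine ⟨0, ?_⟩
          rw [map_mul, hp', sbs, aeval_X, map_zero]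
          simp only [gen, Option.elim, ε, aeval_X, map_zero, zero_mul, mul_zero]
    obtain ⟨p, hp⟩ := h4 G
    rw [hp] at h3
    rw [← hε, hH, ← h3]
    rw [LaurentPolynomial.coeff_toLaurent]
    refine Finsupp.mapDomain_of_notMem_range _ _ ?_
    rintro ⟨n, hn⟩
    have hn' : ((n : ℕ) : ℤ) = -1 := hn
    omega
  have h5 : aeval c (H - 1) = 0 := by
    rw [map_sub, map_one, ← h1, sub_self]
  have h6 := h0 _ h5
  rw [map_sub, h2, map_one, zero_sub, neg_eq_zero] at h6
  exact one_ne_zero h6

end sub

section Phi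

variable {k : Type*} [Field k] {σ : Type} {m : ℕ}

private theorem jetS_map {R R' : Type*} [CommRing R] [CommRing R'] (φ : R →+* R')
    (c : σ → Fin m → R) (i : σ) :
    PowerSeries.map φ (jetS c i) = jetS (fun i j => φ (c i j)) i := by
  unfold jetS
  rw [map_sum]
  refine Finset.sum_congr rfl fun j _ => ?_
  rw [map_mul, map_pow, PowerSeries.map_C, PowerSeries.map_X]

/-- the series with `t ^ (weight - lowest weight)` -/
private noncomputable def Phi {R : Type*} [CommRing R] [Algebra k R] (w : σ → ℕ) (t : R)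
    (c : σ → Fin m → R) (f : MvPolynomial σ k) : PowerSeries R :=
  ∑ μ ∈ f.support, PowerSeries.C (algebraMap k R (coeff μ f) *
    t ^ (Finsupp.weight w μ - wlow w f)) * ∏ i ∈ μ.support, jetS c i ^ μ i

private theorem Phi_map {R R' : Type*} [CommRing R] [Algebra k R] [CommRing R'] [Algebra k R']
    (φ : R →+* R') (hφ : ∀ a : k, φ (algebraMap k R a) = algebraMap k R' a) (w : σ → ℕ) (t : R)
    (c : σ → Fin m → R) (f : MvPolynomial σ k) :
    PowerSeries.map φ (Phi w t c f) = Phi w (φ t) (fun i j => φ (c i j)) f := by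
  unfold Phi
  rw [map_sum]
  refine Finset.sum_congr rfl fun μ _ => ?_
  rw [map_mul, PowerSeries.map_C, map_mul, map_pow, hφ, map_prod]
  congr 1
  refine Finset.prod_congr rfl fun i _ => ?_
  rw [map_pow, jetS_map]

private theorem aeval_jetS {R : Type*} [CommRing R] [Algebra k R]
    (c : σ → Fin m → R) (f : MvPolynomial σ k) :
    aeval (jetS c) f = ∑ μ ∈ f.support, PowerSeries.C (algebraMap k R (coeff μ f)) *
      ∏ i ∈ μ.support, jetS c i ^ μ i := by
  rw [aeval_def, eval₂_eq]
  refine Finset.sum_congr rfl fun μ _ => ?_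
  rw [PowerSeries.algebraMap_apply]

private theorem aeval_jetS_map {R R' : Type*} [CommRing R] [Algebra k R] [CommRing R']
    [Algebra k R'] (φ : R →+* R') (hφ : ∀ a : k, φ (algebraMap k R a) = algebraMap k R' a)
    (c : σ → Fin m → R) (f : MvPolynomial σ k) :
    PowerSeries.map φ (aeval (jetS c) f) = aeval (jetS fun i j => φ (c i j)) f := by
  rw [aeval_jetS, aeval_jetS, map_sum]
  refine Finset.sum_congr rfl fun μ _ => ?_
  rw [map_mul, PowerSeries.map_C, hφ, map_prod]
  congr 1
  refine Finset.prod_congr rfl fun i _ => ?_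
  rw [map_pow, jetS_map]

private theorem wlow_le (w : σ → ℕ) (f : MvPolynomial σ k) (μ : σ →₀ ℕ) (hμ : μ ∈ f.support) :
    wlow w f ≤ Finsupp.weight w μ := Nat.sInf_le ⟨μ, hμ, rfl⟩

private theorem Phi_unit {R : Type*} [CommRing R] [Algebra k R] (w : σ → ℕ) (t : R)
    (c : σ → Fin m → R) (f : MvPolynomial σ k) :
    PowerSeries.C (t ^ wlow w f) * Phi w t c f = aeval (jetS fun i j => t ^ w i * c i j) f := by
  rw [aeval_jetS, Phi, Finset.mul_sum]
  refine Finset.sum_congr rfl fun μ hμ => ?_
  have h1 : ∀ i, jetS (fun i j => t ^ w i * c i j) i = PowerSeries.C (t ^ w i) * jetS c i := by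
    intro i
    unfold jetS
    rw [Finset.mul_sum]
    refine Finset.sum_congr rfl fun j _ => ?_
    rw [map_mul, mul_assoc]
  have h2 : ∏ i ∈ μ.support, jetS (fun i j => t ^ w i * c i j) i ^ μ i =
      PowerSeries.C (t ^ Finsupp.weight w μ) * ∏ i ∈ μ.support, jetS c i ^ μ i := by
    have h3 : PowerSeries.C (t ^ Finsupp.weight w μ) =
        ∏ i ∈ μ.support, PowerSeries.C (t ^ w i) ^ μ i := by
      rw [Finsupp.weight_apply, Finsupp.sum, ← Finset.prod_pow_eq_pow_sum, map_prod]
      refine Finset.prod_congr rfl fun i _ => ?_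
      rw [← map_pow, ← pow_mul, smul_eq_mul, mul_comm]
    rw [h3, ← Finset.prod_mul_distrib]
    refine Finset.prod_congr rfl fun i _ => ?_
    rw [h1, mul_pow]
  have h4 : t ^ Finsupp.weight w μ = t ^ wlow w f * t ^ (Finsupp.weight w μ - wlow w f) := by
    rw [← pow_add, Nat.add_sub_cancel' (wlow_le w f μ hμ)]
  rw [h2, h4, map_mul, map_mul]
  ring

private theorem Phi_zero {R : Type*} [CommRing R] [Algebra k R] (w : σ → ℕ)
    (c : σ → Fin m → R) (f : MvPolynomial σ k) :
    Phi w 0 c f = aeval (jetS c) (inw w f) := by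
  classical
  have h1 : (inw w f).support = f.support.filter (fun μ => Finsupp.weight w μ = wlow w f) := by
    ext μ
    rw [mem_support_iff, inw, coeff_weightedHomogeneousComponent, Finset.mem_filter,
      mem_support_iff]
    split_ifs with h
    · simp [h]
    · simp [h]
  rw [aeval_jetS, Phi, h1, Finset.sum_filter]
  refine Finset.sum_congr rfl fun μ hμ => ?_
  split_ifs with h
  · rw [h, Nat.sub_self, pow_zero, mul_one, inw, coeff_weightedHomogeneousComponent, if_pos h]
  · have h2 : Finsupp.weight w μ - wlow w f ≠ 0 := by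
      have := wlow_le w f μ hμ
      omega
    rw [zero_pow h2, mul_zero, map_zero, zero_mul]

end Phi

private theorem degen_alg {k B : Type u} [Field k] [CommRing B] [IsDomain B] [Algebra k B]
    {ι : Type} [Fintype ι] [DecidableEq ι] (g : Option ι → B) (b : B) (hb : g none * b = 1)
    (hbA : b ∉ Algebra.adjoin k (Set.range g)) (T : Finset ι)
    (hT : AlgebraicIndependent k (fun o : Option T => g (o.map Subtype.val))) :
    ∃ (L₀ : Type u) (_ : Field L₀) (_ : Algebra k L₀)
      (π : Algebra.adjoin k (Set.range g) →ₐ[k] L₀),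
      π ⟨g none, Algebra.subset_adjoin ⟨none, rfl⟩⟩ = 0 ∧ ∃ T₀ : Finset ι, T.card ≤ T₀.card ∧
        AlgebraicIndependent k
          (fun t : T₀ => π ⟨g (some t), Algebra.subset_adjoin ⟨some t, rfl⟩⟩) := by
  set A := Algebra.adjoin k (Set.range g) with hA
  have hfin : Algebra.FiniteType k A :=
    (Subalgebra.fg_iff_finiteType _).1 (Subalgebra.fg_def.2 ⟨_, Set.finite_range g, rfl⟩)
  let gA : Option ι → A := fun o => ⟨g o, Algebra.subset_adjoin ⟨o, rfl⟩⟩
  have e : Fin (T.card + 1) ≃ Option T := (Fintype.equivFinOfCardEq (by simp)).symm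
  have hne : gA none ≠ 0 := by
    intro h
    have h1 : g none = 0 := congrArg Subtype.val h
    rw [h1, zero_mul] at hb
    exact zero_ne_one hb
  have hnu : ¬ IsUnit (gA none) := by
    intro h
    obtain ⟨a, ha⟩ := h.exists_right_inv
    have h1 : g none * (a : B) = 1 := congrArg Subtype.val ha
    have h2 : (a : B) = b := by
      have h3 : g none ≠ 0 := fun h0 => hne (Subtype.ext h0)
      exact mul_left_cancel₀ h3 (h1.trans hb.symm)
    exact hbA (h2 ▸ a.2)
  have hy0 : AlgebraicIndependent k (fun o : Option T => gA (o.map Subtype.val)) := by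
    rw [← AlgHom.algebraicIndependent_iff A.val Subtype.val_injective]
    exact hT
  have hy : AlgebraicIndependent k ((fun o : Option T => gA (o.map Subtype.val)) ∘ e) :=
    (algebraicIndependent_equiv e).2 hy0
  obtain ⟨q, hq, hτ, y', hy'⟩ := arc_ht (gA none) hne hnu T.card _ hy
  have hdom : IsDomain (A ⧸ q) := Ideal.Quotient.isDomain q
  let g' : ι → A ⧸ q := fun t => Ideal.Quotient.mk q (gA (some t))
  have hg' : Algebra.adjoin k (Set.range g') = ⊤ := by
    have h1 : Algebra.adjoin k (Set.range gA) = ⊤ := by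
      apply Subalgebra.map_injective (f := A.val) Subtype.val_injective
      rw [AlgHom.map_adjoin, Algebra.map_top, Subalgebra.range_val, ← Set.range_comp]
      exact hA.symm
    have h2 : (Algebra.adjoin k (Set.range gA)).map (Ideal.Quotient.mkₐ k q) = ⊤ := by
      rw [h1, Algebra.map_top, AlgHom.range_eq_top]
      exact Ideal.Quotient.mkₐ_surjective k q
    rw [eq_top_iff, ← h2, AlgHom.map_adjoin, ← Set.range_comp, Algebra.adjoin_le_iff]
    rintro _ ⟨o, rfl⟩
    cases o with
    | none =>
      have h3 : (Ideal.Quotient.mkₐ k q) (gA none) = 0 := Ideal.Quotient.eq_zero_iff_mem.2 hτ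
      rw [Function.comp_apply, h3]
      exact Subalgebra.zero_mem _
    | some t => exact Algebra.subset_adjoin ⟨t, rfl⟩
  obtain ⟨T₀, hT₀, hind⟩ := arc_tb g' hg' T.card _ hy'
  refine ⟨FractionRing (A ⧸ q), inferInstance, inferInstance,
    (IsScalarTower.toAlgHom k (A ⧸ q) (FractionRing (A ⧸ q))).comp (Ideal.Quotient.mkₐ k q),
    ?_, T₀, hT₀, ?_⟩
  · have h3 : (Ideal.Quotient.mkₐ k q) (gA none) = 0 := Ideal.Quotient.eq_zero_iff_mem.2 hτ
    change (IsScalarTower.toAlgHom k (A ⧸ q) (FractionRing (A ⧸ q)))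
      ((Ideal.Quotient.mkₐ k q) (gA none)) = 0
    rw [h3, map_zero]
  · exact (AlgHom.algebraicIndependent_iff
      (IsScalarTower.toAlgHom k (A ⧸ q) (FractionRing (A ⧸ q)))
      (IsFractionRing.injective (A ⧸ q) (FractionRing (A ⧸ q)))).2 hind

theorem jet_degen {k : Type u} [Field k] {σ : Type} [Fintype σ] [DecidableEq σ]
    {L : Type u} [Field L] [Algebra k L] {m : ℕ} (c : σ → Fin m → L) (w : σ → ℕ)
    (T : Finset (σ × Fin m)) (hind : AlgebraicIndependent k (fun t : T => c t.1.1 t.1.2))
    (h0 : ∀ F : MvPolynomial (σ × Fin m) k, aeval (fun t : σ × Fin m => c t.1 t.2) F = 0 →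
      constantCoeff F = 0) :
    ∃ (L₀ : Type u) (_ : Field L₀) (_ : Algebra k L₀) (c₀ : σ → Fin m → L₀),
      (∀ f : MvPolynomial σ k, f ≠ 0 → ∀ r : ℕ,
        (PowerSeries.X : PowerSeries L) ^ r ∣ aeval (jetS c) f →
        (PowerSeries.X : PowerSeries L₀) ^ r ∣ aeval (jetS c₀) (inw w f)) ∧
      ∃ T₀ : Finset (σ × Fin m), T.card ≤ T₀.card ∧
        AlgebraicIndependent k (fun t : T₀ => c₀ t.1.1 t.1.2) := by
  classical
  have hT := gen_indep (k := k) (fun t : T => w t.1.1) _ hind
  have hu := gen_unit (k := k) (fun t : σ × Fin m => w t.1) (fun t : σ × Fin m => c t.1 t.2) h0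
  set g : Option (σ × Fin m) → LaurentPolynomial L :=
    gen (fun t : σ × Fin m => w t.1) (fun t : σ × Fin m => c t.1 t.2) with hg
  have hT' : AlgebraicIndependent k (fun o : Option T => g (o.map Subtype.val)) := by
    have h1 : (fun o : Option T => g (o.map Subtype.val)) =
        gen (fun t : T => w t.1.1) (fun t : T => c t.1.1 t.1.2) := by
      funext o
      cases o <;> rfl
    rw [h1]
    exact hT
  have hb : g none * LaurentPolynomial.T (-1) = 1 := by
    change LaurentPolynomial.T 1 * LaurentPolynomial.T (-1) = 1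
    rw [← LaurentPolynomial.T_add, add_neg_cancel, LaurentPolynomial.T_zero]
  obtain ⟨L₀, iF, iA, π, hπ, T₀, hT₀, hind₀⟩ := degen_alg g _ hb hu T hT'
  refine ⟨L₀, iF, iA, fun i j => π ⟨g (some (i, j)), Algebra.subset_adjoin ⟨some (i, j), rfl⟩⟩,
    ?_, T₀, hT₀, hind₀⟩
  intro f _ r hr
  have hT1 : (LaurentPolynomial.T 1 : LaurentPolynomial L) ≠ 0 :=
    (LaurentPolynomial.isUnit_T 1).ne_zero
  -- the series over the algebra
  set P : PowerSeries (Algebra.adjoin k (Set.range g)) :=
    Phi w ⟨g none, Algebra.subset_adjoin ⟨none, rfl⟩⟩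
      (fun i j => ⟨g (some (i, j)), Algebra.subset_adjoin ⟨some (i, j), rfl⟩⟩) f with hP
  have e1 : PowerSeries.map (Algebra.adjoin k (Set.range g)).val.toRingHom P =
      Phi w (LaurentPolynomial.T 1) (fun i j => LaurentPolynomial.C (c i j) *
        LaurentPolynomial.T (-(w i : ℤ))) f := by
    rw [hP, Phi_map _ (fun a => (Algebra.adjoin k (Set.range g)).val.commutes a)]
    rfl
  have e2 : PowerSeries.C (LaurentPolynomial.T 1 ^ wlow w f) *
      PowerSeries.map (Algebra.adjoin k (Set.range g)).val.toRingHom P =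
      PowerSeries.map (LaurentPolynomial.C : L →+* LaurentPolynomial L) (aeval (jetS c) f) := by
    have e0 := aeval_jetS_map (k := k) (R := L) (R' := LaurentPolynomial L) LaurentPolynomial.C
      (fun a => rfl) c f
    rw [e1, Phi_unit, e0]
    have e5 : (fun (i : σ) (j : Fin m) => (LaurentPolynomial.T 1 : LaurentPolynomial L) ^ w i *
        (LaurentPolynomial.C (c i j) * LaurentPolynomial.T (-(w i : ℤ)))) =
        fun i j => LaurentPolynomial.C (c i j) := by
      funext i j
      rw [LaurentPolynomial.T_pow, mul_one, mul_comm, LaurentPolynomial.mul_T_assoc,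
        neg_add_cancel, LaurentPolynomial.T_zero, mul_one]
    rw [e5]
  have e3 : ∀ n < r, PowerSeries.coeff n P = 0 := by
    intro n hn
    have h1 := congrArg (PowerSeries.coeff n) e2
    rw [PowerSeries.coeff_C_mul, PowerSeries.coeff_map, PowerSeries.coeff_map,
      PowerSeries.X_pow_dvd_iff.1 hr n hn, map_zero] at h1
    have h2 := (mul_eq_zero.1 h1).resolve_left (pow_ne_zero _ hT1)
    exact Subtype.ext h2
  have e4 : PowerSeries.map π.toRingHom P = aeval (jetS (fun i j =>
      π ⟨g (some (i, j)), Algebra.subset_adjoin ⟨some (i, j), rfl⟩⟩)) (inw w f) := by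
    rw [hP, Phi_map _ (fun a => π.commutes a), ← Phi_zero]
    congr 1
  rw [← e4, PowerSeries.X_pow_dvd_iff]
  intro n hn
  rw [PowerSeries.coeff_map, e3 n hn, map_zero]

end MLD
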