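import Pool.Agent.MLD.ArcP1
import Pool.Agent.MLD.ArcP2
import Pool.Agent.MLD.ArcP3

/-!
PIECE MLD-R25: degeneration of divisors to initial forms (semicontinuity).

PROOF. Choose `m ≥ 1` with `E.ord (toFF (f l)) ≤ m + 1` for all `l` (finitely many). `exists_jet` gives
`L, c, T`; `jet_degen` gives `L₀, c₀, T₀`; `exists_divisor_of_jet` for `c₀, T₀` gives `E₀, g, A₁`. For `l`, let
`r := (E.ord (toFF (f l))).toNat ≤ m + 1` (`E.ord_poly'`). `X^r ∣ aeval (jetS c) (f l)`, so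
`X^r ∣ aeval (jetS c₀) (inw w (f l))`, and `inw w (f l) ≠ 0` (the lowest weight is attained: `Nat.sInf_mem`,
`coeff_weightedHomogeneousComponent`), so `r ≤ g * E₀.ord (..)`.
-/

open MvPolynomial

namespace MLD

universe u

theorem inw_ne_zero {k : Type u} [Field k] {σ : Type} (w : σ → ℕ) (f : MvPolynomial σ k)
    (hf : f ≠ 0) : inw w f ≠ 0 := by
  classical
  obtain ⟨m0, hm0⟩ := MvPolynomial.support_nonempty.mpr hf
  have hne : {d | ∃ m ∈ f.support, Finsupp.weight w m = d}.Nonempty := ⟨_, m0, hm0, rfl⟩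
  obtain ⟨m1, hm1, hw⟩ := Nat.sInf_mem hne
  intro h
  have h1 : coeff m1 (inw w f) = coeff m1 f := by
    unfold inw
    rw [coeff_weightedHomogeneousComponent, if_pos]
    exact hw
  rw [h, coeff_zero] at h1
  exact (MvPolynomial.mem_support_iff.mp hm1) h1.symm

theorem arc_degen {k : Type u} [Field k] [CharZero k] {σ : Type} [Fintype σ]
    [DecidableEq σ] [Nonempty σ] (E : DivisorOver k σ) (hE : E.CenterZero) (A : ℕ)
    (hA : E.logDisc ≤ (((A : ℕ) : ℝ) : EReal)) (w : σ → ℕ) {I : Type} [Finite I]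
    (f : I → MvPolynomial σ k) (hf : ∀ l, f l ≠ 0) :
    ∃ (E₀ : DivisorOver k σ) (g A₁ : ℕ), 0 < g ∧ E₀.CenterZero ∧
      E₀.logDisc ≤ (((A₁ : ℕ) : ℝ) : EReal) ∧ g * A₁ ≤ A ∧
      ∀ l, E.ord (toFF k σ (f l)) ≤ g * E₀.ord (toFF k σ (inw w (f l))) := by
  obtain ⟨M, hM⟩ := (Set.finite_range fun l => (E.ord (toFF k σ (f l))).toNat).bddAbove
  obtain ⟨L, _, _, c, hc, ⟨T, hT, hind⟩, h0⟩ := exists_jet E hE A hA (M + 1) (by omega)
  obtain ⟨L₀, _, _, c₀, hc₀, T₀, hTT, hind₀⟩ := jet_degen c w T hind h0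
  obtain ⟨E₀, g, A₁, hg, hE₀, hlog, hgA, hord⟩ :=
    exists_divisor_of_jet c₀ A T₀ (by omega) hind₀
  refine ⟨E₀, g, A₁, hg, hE₀, hlog, hgA, fun l => ?_⟩
  have h1 : 0 ≤ E.ord (toFF k σ (f l)) := E.ord_poly' _ (hf l)
  have h2 : (((E.ord (toFF k σ (f l))).toNat : ℕ) : ℤ) = E.ord (toFF k σ (f l)) :=
    Int.toNat_of_nonneg h1
  have h3 : (E.ord (toFF k σ (f l))).toNat ≤ M := hM ⟨l, rfl⟩
  have h4 : (E.ord (toFF k σ (f l))).toNat ≤ M + 1 + 1 := by omega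
  have h5 := hc (f l) (hf l) _ h2.le h4
  have h6 := hord _ (inw_ne_zero w (f l) (hf l)) _ h4 (hc₀ (f l) (hf l) _ h5)
  rw [h2] at h6
  exact h6

end MLD
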