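import Pool.Agent.MLD.Ord

/-!
PIECE MLD-I1: orders of ideals along divisors, elementary comparison of log discrepancies.

HINTS. For `I ≠ ⊥` the set in the definition of `ordI` is nonempty (`E.ord_poly'`), so
`Nat.sInf_mem`, `Nat.sInf_le`. `ordI_span`: elements of the span are finite sums
`∑ c_i s_i`, `ge_sum`, `ge_mul`, `E.ord_poly'`. `ordI_mul`: generators `f * g`.
`ordI_mm_pow`: `mm ^ s` is generated by products of `s` variables.
`logDisc_real`: `jac D` has order `≥ 0` for integral `D` (`D i (xx k j)` is integral because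
`E.ord_poly' (X j)`; determinant by `Matrix.det_apply`, `ge_sum`, `ge_prod`), so the infimum is
`≥ 1`; if it is `≤ A` it is a real number in `[1, A]`.
-/

open MvPolynomial Filter

namespace MLD

universe u

variable {k : Type u} [Field k] {σ : Type} [Fintype σ] (E : DivisorOver k σ)

omit [Fintype σ] in
private theorem IdOrd_ne {f : MvPolynomial σ k} (h0 : f ≠ 0) : toFF k σ f ≠ 0 := by
  have h : Function.Injective (algebraMap (MvPolynomial σ k) (FF k σ)) :=
    IsFractionRing.injective (MvPolynomial σ k) (FF k σ)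
  intro h1
  apply h0
  apply h
  rw [map_zero]
  exact h1

private theorem IdOrd_ge_poly (f : MvPolynomial σ k) : E.ge 0 (toFF k σ f) := by
  by_cases h0 : f = 0
  · left
    rw [h0, map_zero]
  · exact Or.inr (E.ord_poly' f h0)

theorem ordI_le {I : Ideal (MvPolynomial σ k)} {f : MvPolynomial σ k} (hf : f ∈ I)
    (h0 : f ≠ 0) : (E.ordI I : ℤ) ≤ E.ord (toFF k σ f) := by
  have h1 := E.ord_poly' f h0
  have h2 : E.ordI I ≤ (E.ord (toFF k σ f)).toNat :=
    Nat.sInf_le ⟨f, hf, h0, (Int.toNat_of_nonneg h1).symm⟩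
  have h3 := Int.toNat_of_nonneg h1
  omega

theorem ordI_mem {I : Ideal (MvPolynomial σ k)} (hI : I ≠ ⊥) :
    ∃ f ∈ I, f ≠ 0 ∧ E.ord (toFF k σ f) = E.ordI I := by
  obtain ⟨f, hf, h0⟩ := Submodule.exists_mem_ne_zero_of_ne_bot hI
  have h1 := E.ord_poly' f h0
  have hne : {m : ℕ | ∃ f ∈ I, f ≠ 0 ∧ E.ord (toFF k σ f) = m}.Nonempty :=
    ⟨(E.ord (toFF k σ f)).toNat, f, hf, h0, (Int.toNat_of_nonneg h1).symm⟩
  exact Nat.sInf_mem hne

theorem le_ordI {I : Ideal (MvPolynomial σ k)} (hI : I ≠ ⊥) (N : ℕ)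
    (h : ∀ f ∈ I, f ≠ 0 → (N : ℤ) ≤ E.ord (toFF k σ f)) : N ≤ E.ordI I := by
  obtain ⟨f, hf, h0, h1⟩ := ordI_mem E hI
  have h2 := h f hf h0
  omega

private theorem IdOrd_le_of_ge {I : Ideal (MvPolynomial σ k)} (hI : I ≠ ⊥) (N : ℕ)
    (h : ∀ f ∈ I, E.ge N (toFF k σ f)) : N ≤ E.ordI I := by
  refine le_ordI E hI N fun f hf h0 => ?_
  rcases h f hf with h1 | h1
  · exact absurd h1 (IdOrd_ne h0)
  · exact h1

private theorem IdOrd_ge {I : Ideal (MvPolynomial σ k)} {f : MvPolynomial σ k} (hf : f ∈ I) :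
    E.ge (E.ordI I) (toFF k σ f) := by
  by_cases h0 : f = 0
  · left
    rw [h0, map_zero]
  · exact Or.inr (ordI_le E hf h0)

theorem le_ordI_span {S : Set (MvPolynomial σ k)} (hI : Ideal.span S ≠ ⊥) (N : ℕ)
    (h : ∀ f ∈ S, f ≠ 0 → (N : ℤ) ≤ E.ord (toFF k σ f)) : N ≤ E.ordI (Ideal.span S) := by
  refine IdOrd_le_of_ge E hI N fun f hf => ?_
  refine Submodule.span_induction ?_ ?_ ?_ ?_ hf
  · intro x hx
    by_cases h0 : x = 0
    · left
      rw [h0, map_zero]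
    · exact Or.inr (h x hx h0)
  · left
    rw [map_zero]
  · intro x y _ _ hx hy
    rw [map_add]
    exact E.ge_add hx hy
  · intro a x _ hx
    rw [smul_eq_mul, map_mul]
    have h1 := E.ge_mul (IdOrd_ge_poly E a) hx
    rwa [zero_add] at h1

theorem ordI_mono {I J : Ideal (MvPolynomial σ k)} (hI : I ≠ ⊥) (h : I ≤ J) :
    E.ordI J ≤ E.ordI I := by
  obtain ⟨f, hf, h0, h1⟩ := ordI_mem E hI
  have h2 := ordI_le E (h hf) h0
  omega

theorem ordI_top : E.ordI (⊤ : Ideal (MvPolynomial σ k)) = 0 := by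
  have h1 := ordI_le E (I := ⊤) (f := 1) Submodule.mem_top one_ne_zero
  rw [map_one, E.ord_one] at h1
  omega

theorem ordI_mul {I J : Ideal (MvPolynomial σ k)} (hI : I ≠ ⊥) (hJ : J ≠ ⊥) :
    E.ordI (I * J) = E.ordI I + E.ordI J := by
  have hIJ : I * J ≠ ⊥ := by
    intro h
    rcases Ideal.mul_eq_bot.1 h with h | h
    · exact hI h
    · exact hJ h
  apply le_antisymm
  · obtain ⟨f, hf, hf0, hf1⟩ := ordI_mem E hI
    obtain ⟨g, hg, hg0, hg1⟩ := ordI_mem E hJ
    have h1 := ordI_le E (Ideal.mul_mem_mul hf hg) (mul_ne_zero hf0 hg0)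
    rw [map_mul, E.ord_mul (IdOrd_ne hf0) (IdOrd_ne hg0)] at h1
    omega
  · refine IdOrd_le_of_ge E hIJ _ fun f hf => ?_
    refine Submodule.mul_induction_on hf ?_ ?_
    · intro m hm n hn
      rw [map_mul]
      have h1 := E.ge_mul (IdOrd_ge E hm) (IdOrd_ge E hn)
      push_cast
      exact h1
    · intro x y hx hy
      rw [map_add]
      exact E.ge_add hx hy

theorem ordI_prod {ι : Type*} (s : Finset ι) (I : ι → Ideal (MvPolynomial σ k))
    (hI : ∀ i ∈ s, I i ≠ ⊥) : E.ordI (∏ i ∈ s, I i) = ∑ i ∈ s, E.ordI (I i) := by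
  classical
  have key : (∏ i ∈ s, I i) ≠ ⊥ ∧ E.ordI (∏ i ∈ s, I i) = ∑ i ∈ s, E.ordI (I i) := by
    induction s using Finset.induction_on with
    | empty =>
      rw [Finset.prod_empty, Finset.sum_empty, Ideal.one_eq_top]
      exact ⟨top_ne_bot, ordI_top E⟩
    | insert a s ha ih =>
      obtain ⟨h1, h2⟩ := ih fun i hi => hI i (Finset.mem_insert_of_mem hi)
      have h3 := hI a (Finset.mem_insert_self a s)
      rw [Finset.prod_insert ha, Finset.sum_insert ha]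
      refine ⟨fun h => ?_, ?_⟩
      · rcases Ideal.mul_eq_bot.1 h with h | h
        · exact h3 h
        · exact h1 h
      · rw [ordI_mul E h3 h1, h2]
  exact key.2

theorem ordI_sup {I J : Ideal (MvPolynomial σ k)} (hI : I ≠ ⊥) (hJ : J ≠ ⊥) :
    E.ordI (I ⊔ J) = min (E.ordI I) (E.ordI J) := by
  have hIJ : I ⊔ J ≠ ⊥ := by
    intro h
    rw [sup_eq_bot_iff] at h
    exact hI h.1
  apply le_antisymm
  · exact le_min (ordI_mono E hI le_sup_left) (ordI_mono E hJ le_sup_right)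
  · refine IdOrd_le_of_ge E hIJ _ fun f hf => ?_
    obtain ⟨a, ha, b, hb, rfl⟩ := Submodule.mem_sup.1 hf
    rw [map_add]
    refine E.ge_add (E.ge_mono ?_ (IdOrd_ge E ha)) (E.ge_mono ?_ (IdOrd_ge E hb))
    · exact_mod_cast min_le_left _ _
    · exact_mod_cast min_le_right _ _

omit [Fintype σ] in
private theorem IdOrd_mm_ne [Nonempty σ] : mm k σ ≠ ⊥ := by
  obtain ⟨i⟩ := ‹Nonempty σ›
  intro h
  have h1 : (X i : MvPolynomial σ k) ∈ mm k σ := Ideal.subset_span ⟨i, rfl⟩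
  rw [h, Ideal.mem_bot] at h1
  exact X_ne_zero i h1

omit [Fintype σ] in
private theorem IdOrd_mm_pow_ne [Nonempty σ] (s : ℕ) : mm k σ ^ s ≠ ⊥ := by
  induction s with
  | zero =>
    rw [pow_zero, Ideal.one_eq_top]
    exact top_ne_bot
  | succ s ih =>
    rw [pow_succ]
    intro h
    rcases Ideal.mul_eq_bot.1 h with h | h
    · exact ih h
    · exact IdOrd_mm_ne h

theorem ordI_mm_pow [Nonempty σ] (hE : E.CenterZero) (s : ℕ) : s ≤ E.ordI (mm k σ ^ s) := by
  have h1 : 1 ≤ E.ordI (mm k σ) := by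
    refine le_ordI_span E IdOrd_mm_ne 1 fun f hf _ => ?_
    obtain ⟨i, rfl⟩ := hf
    have := hE i
    exact_mod_cast this
  induction s with
  | zero => exact Nat.zero_le _
  | succ s ih =>
    rw [pow_succ, ordI_mul E (IdOrd_mm_pow_ne s) IdOrd_mm_ne]
    exact Nat.add_le_add ih h1

theorem ordI_eq_of_lt [Nonempty σ] (hE : E.CenterZero) {I J : Ideal (MvPolynomial σ k)}
    (hI : I ≠ ⊥) (hJ : J ≠ ⊥) (s : ℕ) (h : I ⊔ mm k σ ^ s = J ⊔ mm k σ ^ s)
    (hlt : E.ordI I < s) : E.ordI J = E.ordI I := by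
  have h1 := ordI_mm_pow E hE s
  have h2 := ordI_sup E hI (IdOrd_mm_pow_ne (k := k) (σ := σ) s)
  have h3 := ordI_sup E hJ (IdOrd_mm_pow_ne (k := k) (σ := σ) s)
  rw [h, h3] at h2
  rw [min_def, min_def] at h2
  split_ifs at h2 <;> omega

theorem le_ordI_of_le [Nonempty σ] (hE : E.CenterZero) {I J : Ideal (MvPolynomial σ k)}
    (hI : I ≠ ⊥) (hJ : J ≠ ⊥) (s : ℕ) (h : I ⊔ mm k σ ^ s = J ⊔ mm k σ ^ s)
    (hlt : s ≤ E.ordI I) : s ≤ E.ordI J := by
  have h1 := ordI_mm_pow E hE s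
  have h2 := ordI_sup E hI (IdOrd_mm_pow_ne (k := k) (σ := σ) s)
  have h3 := ordI_sup E hJ (IdOrd_mm_pow_ne (k := k) (σ := σ) s)
  rw [h, h3] at h2
  rw [min_def, min_def] at h2
  split_ifs at h2 <;> omega

private theorem IdOrd_jac [DecidableEq σ] (D : σ → Derivation k (FF k σ) (FF k σ))
    (hD : ∀ i, E.IntegralDer (D i)) : E.ge 0 (DivisorOver.jac D) := by
  rw [DivisorOver.jac, Matrix.det_apply]
  refine E.ge_sum _ _ fun τ _ => ?_
  have h1 : E.ge 0 (∏ i, (Matrix.of fun i j : σ => D i (xx k j)) (τ i) i) := by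
    have h2 := E.ge_prod Finset.univ (fun i => (Matrix.of fun i j : σ => D i (xx k j)) (τ i) i)
      (fun _ => 0) fun i _ => ?_
    · rwa [Finset.sum_const_zero] at h2
    · rw [Matrix.of_apply]
      have hx : xx k i ≠ 0 := IdOrd_ne (X_ne_zero i)
      exact hD (τ i) (xx k i) hx (E.ord_poly' (X i) (X_ne_zero i))
  rcases Int.units_eq_one_or (Equiv.Perm.sign τ) with h | h
  · rw [h, one_smul]
    exact h1
  · rw [h, Units.neg_smul, one_smul]
    exact E.ge_neg h1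

theorem one_le_logDisc [DecidableEq σ] : (1 : EReal) ≤ E.logDisc := by
  refine le_iInf fun D => ?_
  have h1 := IdOrd_jac E D.1 D.2.1
  have h2 : (0 : ℤ) ≤ E.ord (DivisorOver.jac D.1) := by
    rcases h1 with h1 | h1
    · exact absurd h1 D.2.2
    · exact h1
  have h3 : ((1 : ℝ)) ≤ (((1 + E.ord (DivisorOver.jac D.1) : ℤ)) : ℝ) := by
    have : (1 : ℤ) ≤ 1 + E.ord (DivisorOver.jac D.1) := by omega
    exact_mod_cast this
  exact_mod_cast EReal.coe_le_coe_iff.2 h3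

theorem logDisc_real [DecidableEq σ] (A : ℝ) (h : E.logDisc ≤ (A : EReal)) :
    ∃ B : ℝ, 1 ≤ B ∧ B ≤ A ∧ E.logDisc = (B : EReal) := by
  have h1 := one_le_logDisc E
  have htop : E.logDisc ≠ ⊤ := by
    intro ht
    rw [ht, top_le_iff] at h
    exact EReal.coe_ne_top A h
  have hbot : E.logDisc ≠ ⊥ := by
    intro hb
    rw [hb, le_bot_iff] at h1
    exact EReal.coe_ne_bot 1 h1
  have h2 := EReal.coe_toReal htop hbot
  refine ⟨E.logDisc.toReal, ?_, ?_, h2.symm⟩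
  · rw [← h2] at h1
    exact_mod_cast h1
  · rw [← h2] at h
    exact_mod_cast h

end MLD
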