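import Pool.Agent.MLD.ArcDual
import Pool.Agent.MLD.IdOrd

/-!
PIECE MLD-R18: coordinates of the valuation ring of a divisor with dual derivations.

PROOF. From `hA` there is an integral family `D` with `jac D ≠ 0` and `1 + E.ord (jac D) ≤ A` (otherwise
all `1 + E.ord (jac D) ≥ A + 1` and `E.logDisc ≥ A + 1`, `le_iInf`). Let `π` with `E.ord π = 1`
(`E.ord_surj'`), `y` from `E.residue'`; choose `i₀ : σ`, an equivalence
`Fin (card σ - 1) ≃ {b // b ≠ i₀}`, and put `z i₀ := π`, `z b := y ..`. Apply `arc_dual` with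
`W := FF k σ`, `ι := AlgHom.id`, `v := E.toOrdFn` (`v.comap (AlgHom.id ..)` has the same `ord`), `D`
(`hD`: `IntegralDer`, `jac D ≠ 0` is `hdet`). It gives `dd`. `E.IntegralDer (dd b)` is the second
property. Commutation: `δ := [dd a, dd b]` (the commutator of derivations, Lie bracket `⁅dd a, dd b⁆`, is a
derivation) kills all `z c` (`dd b (z c)` is `0` or `1`), so `δ f = ∑ c, δ (z c) * dd c f = 0`.
Minimality: the last property with `D' := D`: `jac D = det (D i (z b)) * jac dd`, the entries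
`D i (z b)` are integral, so `E.ord (jac D) ≥ E.ord (jac dd)`. `E.ord (z b) = 0` for `b ≠ i₀`: from `RAI` with
`P := X b`.
-/

open MvPolynomial

namespace MLD

universe u

private theorem ArcDualE_det {k K : Type*} [Field k] [Field K] [Algebra k K] (v : OrdFn k K)
    {n : Type} [Fintype n] [DecidableEq n] (M : Matrix n n K) (hM : ∀ i j, v.ge 0 (M i j)) :
    v.ge 0 M.det := by
  rw [Matrix.det_apply]
  refine v.ge_sum _ _ fun s _ => ?_
  have h1 : v.ge 0 (∏ i, M (s i) i) := by
    have h2 := v.ge_prod Finset.univ (fun i => M (s i) i) (fun _ => 0) fun i _ => hM _ _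
    simpa using h2
  rcases Int.units_eq_one_or (Equiv.Perm.sign s) with h | h
  · rw [h, one_smul]
    exact h1
  · rw [h, Units.neg_smul, one_smul]
    exact v.ge_neg h1

theorem exists_dualE {k : Type u} [Field k] [CharZero k] {σ : Type} [Fintype σ] [DecidableEq σ]
    [Nonempty σ] (E : DivisorOver k σ) (A : ℕ) (hA : E.logDisc ≤ (((A : ℕ) : ℝ) : EReal)) :
    ∃ (i₀ : σ) (z : σ → FF k σ) (dd : σ → Derivation k (FF k σ) (FF k σ)),
      (∀ b, z b ≠ 0) ∧ E.ord (z i₀) = 1 ∧ (∀ b, b ≠ i₀ → E.ord (z b) = 0) ∧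
      (∀ b, E.IntegralDer (dd b)) ∧ (∀ b c, dd b (z c) = if b = c then 1 else 0) ∧
      (∀ a b f, dd a (dd b f) = dd b (dd a f)) ∧
      DivisorOver.jac dd ≠ 0 ∧ 1 + E.ord (DivisorOver.jac dd) ≤ A := by
  classical
  obtain ⟨D, hDi, hDj, hDA⟩ : ∃ D : σ → Derivation k (FF k σ) (FF k σ),
      (∀ i, E.IntegralDer (D i)) ∧ DivisorOver.jac D ≠ 0 ∧
        1 + E.ord (DivisorOver.jac D) ≤ A := by
    by_contra hcon
    push Not at hcon
    have h1 : (((A + 1 : ℕ) : ℝ) : EReal) ≤ E.logDisc := by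
      refine le_iInf fun D => ?_
      have h2 := hcon D.1 D.2.1 D.2.2
      have h3 : ((A + 1 : ℕ) : ℤ) ≤ 1 + E.ord (DivisorOver.jac D.1) := by
        push_cast
        omega
      have h4 : ((A + 1 : ℕ) : ℝ) ≤ ((1 + E.ord (DivisorOver.jac D.1) : ℤ) : ℝ) := by
        exact_mod_cast h3
      exact EReal.coe_le_coe_iff.2 h4
    have h5 := h1.trans hA
    rw [EReal.coe_le_coe_iff] at h5
    have h6 : A + 1 ≤ A := by exact_mod_cast h5
    omega
  obtain ⟨π, hπ0, hπ1⟩ := E.ord_surj'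
  obtain ⟨y, hy⟩ := E.residue'
  let i₀ : σ := Classical.arbitrary σ
  have hc : Fintype.card {b // b ≠ i₀} = Fintype.card σ - 1 := by
    rw [Fintype.card_subtype_compl]
    simp
  let e : {b // b ≠ i₀} ≃ Fin (Fintype.card σ - 1) := Fintype.equivFinOfCardEq hc
  let z : σ → FF k σ := fun b => if h : b = i₀ then π else y (e ⟨b, h⟩)
  have hz0 : z i₀ = π := dif_pos rfl
  have hzb : ∀ b : {b // b ≠ i₀}, z b = y (e b) := fun b => dif_neg b.2
  have hRAI : RAI (E.toOrdFn.comap (AlgHom.id k (FF k σ))) (fun b : {b // b ≠ i₀} => z b) := by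
    intro P hP
    have h1 : (fun b : {b // b ≠ i₀} => z b) = y ∘ e := funext fun b => hzb b
    have h2 : rename e P ≠ 0 := by
      intro h3
      apply hP
      apply rename_injective e e.injective
      rw [h3, map_zero]
    have h4 := hy (rename e P) h2
    rw [aeval_rename] at h4
    rw [h1]
    exact h4
  have hX : ∀ b : {b // b ≠ i₀}, z b ≠ 0 ∧ E.ord (z b) = 0 := by
    intro b
    have h1 := hRAI (X b) (X_ne_zero b)
    rw [aeval_X] at h1
    exact h1
  have hord : ∀ b, z b ≠ 0 ∧ 0 ≤ E.ord (z b) := by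
    intro b
    by_cases hb : b = i₀
    · rw [hb, hz0]
      exact ⟨hπ0, by rw [hπ1]; norm_num⟩
    · have h1 := hX ⟨b, hb⟩
      exact ⟨h1.1, h1.2.ge⟩
  obtain ⟨dd, h1, h2, h3, h4, h5⟩ := arc_dual E.toOrdFn (AlgHom.id k (FF k σ)) D
    (fun i f hf h => hDi i f hf h) hDj i₀ z (by rw [hz0]; exact hπ0)
    (by
      show 0 < E.ord (z i₀)
      rw [hz0, hπ1]; norm_num)
    (fun f hf h => by
      show E.ord (z i₀) ≤ E.ord f
      have h' : 0 < E.ord f := h
      rw [hz0, hπ1]
      omega) hRAI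
  refine ⟨i₀, z, dd, fun b => (hord b).1, by rw [hz0]; exact hπ1, fun b hb => (hX ⟨b, hb⟩).2,
    fun b f hf h => h2 b f hf h, h1, ?_, h4, ?_⟩
  · intro a b f
    have hk : ∀ c, (⁅dd a, dd b⁆ : Derivation k (FF k σ) (FF k σ)) (z c) = 0 := by
      intro c
      rw [Derivation.commutator_apply, h1, h1]
      split_ifs <;> simp
    have h6 := h3 ⁅dd a, dd b⁆ f
    rw [Finset.sum_eq_zero (fun c _ => by rw [hk c, zero_mul]), Derivation.commutator_apply] at h6
    exact sub_eq_zero.1 h6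
  · have h6 : DivisorOver.jac D = (Matrix.of fun i b => D i (z b)).det * DivisorOver.jac dd := h5 D
    have h7 : E.toOrdFn.ge 0 (Matrix.of fun i b => D i (z b)).det :=
      ArcDualE_det E.toOrdFn _ fun i b => hDi i (z b) (hord b).1 (hord b).2
    have h8 : (Matrix.of fun i b => D i (z b)).det ≠ 0 := by
      intro h9
      rw [h9, zero_mul] at h6
      exact hDj h6
    have h10 : 0 ≤ E.ord (Matrix.of fun i b => D i (z b)).det := h7.resolve_left h8
    have h11 : E.ord (DivisorOver.jac D) =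
        E.ord (Matrix.of fun i b => D i (z b)).det + E.ord (DivisorOver.jac dd) := by
      rw [h6]
      exact E.ord_mul' _ _ h8 h4
    omega

end MLD
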