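import Pool.Agent.MLD.ArcDefs

/-!
PIECE MLD-R06: a derivation which is bounded on the valuation ring and small on a
residually transcendental basis and on a uniformizer is small on the valuation ring.

Write `V := v.comap ι`, `O := {f | V.ge 0 f}`, `g := V.ord π`.

PROOF. CLAIM: if `v.ge C (D (ι f))` for all `f ∈ O` then `v.ge (min M (g + C)) (D (ι f))` for all `f ∈ O`.
Iterating the claim `N` times gives the bound `min M (C + N g)`, and `g ≥ 1`; take `N` large.
Proof of the claim: let `f ∈ O`, `f ≠ 0`. By `hmax` there is `P ≠ 0` with `V.ge 1 (P(y,f))`, where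
`P(y,f) := Polynomial.eval₂ (aeval y) f P`. Choose such a `P` with minimal `natDegree`. If `natDegree = 0` then
`P = C p`, `p ≠ 0`, `P(y,f) = aeval y p` is nonzero of order `0` by `hy`: contradiction. So
`natDegree P ≥ 1`, and `P' := derivative P ≠ 0` (`CharZero`) has smaller degree, so `¬ V.ge 1 (P'(y,f))`;
all `P(y,f)` lie in `O` (`y b ∈ O`: `hy (X b)`; `ge_zero_aeval`, `ge_pow`, `ge_sum`), so
`P'(y,f) ≠ 0` and `V.ord (P'(y,f)) = 0`. Let `h := P(y,f)`. If `h = 0` put `f₁ := 0`, otherwise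
`V.ord h ≥ 1`, so `≥ g` by `hmin`, and `f₁ := h / π ∈ O`; in both cases `h = π * f₁`. So
`D (ι h) = ι π * D (ι f₁) + ι f₁ * D (ι π)` has order `≥ min (g + C) M`. On the other hand by
the chain rule
`D (ι h) = ι (P'(y,f)) * D (ι f) + ∑ b, ι (P_b(y,f)) * D (ι (y b))`, with `P_b` = coefficientwise
`pderiv b` of `P` (finite sum over `b`; state the chain rule as: for every `P` there are elements
`e b ∈ O` of `K` with `D (ι (P(y,f))) = ι (P'(y,f)) * D (ι f) + ∑ b, ι (e b) * D (ι (y b))`; induction on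
`P` (`Polynomial.induction_on'`) and for the coefficients `MvPolynomial.induction_on`). So
`ι (P'(y,f)) * D (ι f)` has order `≥ min M (g + C)` and `ι (P'(y,f))` has order 0.
-/

open MvPolynomial

namespace MLD

universe u

section
variable {k : Type u} [Field k] {K W : Type u} [Field K] [Algebra k K] [Field W] [Algebra k W]
  (v : OrdFn k W) (ι : K →ₐ[k] W) (D : Derivation k W W) {B : Type} [Fintype B] (y : B → K)

/-- Chain rule for polynomials in `y`. -/
private theorem ArcIT_chain1 (hy0 : ∀ b, (v.comap ι).ge 0 (y b)) (p : MvPolynomial B k) :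
    ∃ e : B → K, (∀ b, (v.comap ι).ge 0 (e b)) ∧
      D (ι (aeval y p)) = ∑ b, ι (e b) * D (ι (y b)) := by
  classical
  induction p using MvPolynomial.induction_on with
  | C a =>
    refine ⟨fun _ => 0, fun _ => (v.comap ι).ge_zero 0, ?_⟩
    rw [aeval_C, AlgHom.commutes, Derivation.map_algebraMap]
    simp
  | add p q hp hq =>
    obtain ⟨e, he, h1⟩ := hp
    obtain ⟨e', he', h2⟩ := hq
    refine ⟨fun b => e b + e' b, fun b => (v.comap ι).ge_add (he b) (he' b), ?_⟩
    rw [map_add, map_add, map_add, h1, h2, ← Finset.sum_add_distrib]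
    refine Finset.sum_congr rfl fun b _ => ?_
    rw [map_add, add_mul]
  | mul_X p c hp =>
    obtain ⟨e, he, h1⟩ := hp
    have hp0 : (v.comap ι).ge 0 (aeval y p) := (v.comap ι).ge_zero_aeval y hy0 p
    refine ⟨fun b => y c * e b + if b = c then aeval y p else 0, fun b => ?_, ?_⟩
    · refine (v.comap ι).ge_add ?_ ?_
      · have := (v.comap ι).ge_mul (hy0 c) (he b)
        rwa [zero_add] at this
      · split_ifs
        · exact hp0
        · exact (v.comap ι).ge_zero 0
    · rw [map_mul, aeval_X, map_mul, Derivation.leibniz, smul_eq_mul, smul_eq_mul, h1]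
      have h2 : ∀ b, ι (y c * e b + if b = c then aeval y p else 0) * D (ι (y b)) =
          ι (y c) * (ι (e b) * D (ι (y b))) +
            if b = c then ι (aeval y p) * D (ι (y c)) else 0 := by
        intro b
        rw [map_add, map_mul]
        split_ifs with hb
        · subst hb
          ring
        · rw [map_zero]
          ring
      rw [Finset.sum_congr rfl fun b _ => h2 b, Finset.sum_add_distrib, ← Finset.mul_sum,
        Finset.sum_ite_eq' Finset.univ c, if_pos (Finset.mem_univ c)]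
      ring

/-- polynomials in `y` and `f` lie in the valuation ring -/
private theorem ArcIT_ge (hy0 : ∀ b, (v.comap ι).ge 0 (y b)) (f : K) (hf : (v.comap ι).ge 0 f)
    (P : Polynomial (MvPolynomial B k)) : (v.comap ι).ge 0
      (Polynomial.eval₂ (aeval y : MvPolynomial B k →ₐ[k] K).toRingHom f P) := by
  induction P using Polynomial.induction_on' with
  | add P Q hP hQ =>
    rw [Polynomial.eval₂_add]
    exact (v.comap ι).ge_add hP hQ
  | monomial n a =>
    rw [Polynomial.eval₂_monomial]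
    have h1 := (v.comap ι).ge_mul ((v.comap ι).ge_zero_aeval y hy0 a) ((v.comap ι).ge_pow hf n)
    rw [mul_zero, add_zero] at h1
    exact h1

/-- Chain rule for polynomials in `y` and `f`. -/
private theorem ArcIT_chain2 (hy0 : ∀ b, (v.comap ι).ge 0 (y b)) (f : K)
    (hf : (v.comap ι).ge 0 f) (P : Polynomial (MvPolynomial B k)) :
    ∃ e : B → K, (∀ b, (v.comap ι).ge 0 (e b)) ∧
      D (ι (Polynomial.eval₂ (aeval y : MvPolynomial B k →ₐ[k] K).toRingHom f P)) =
        ι (Polynomial.eval₂ (aeval y : MvPolynomial B k →ₐ[k] K).toRingHom f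
          (Polynomial.derivative P)) * D (ι f) + ∑ b, ι (e b) * D (ι (y b)) := by
  induction P using Polynomial.induction_on' with
  | add P Q hP hQ =>
    obtain ⟨e, he, h1⟩ := hP
    obtain ⟨e', he', h2⟩ := hQ
    refine ⟨fun b => e b + e' b, fun b => (v.comap ι).ge_add (he b) (he' b), ?_⟩
    rw [Polynomial.eval₂_add, map_add, map_add, h1, h2, Polynomial.derivative_add,
      Polynomial.eval₂_add, map_add]
    have h3 : ∑ b, ι (e b + e' b) * D (ι (y b)) =
        ∑ b, ι (e b) * D (ι (y b)) + ∑ b, ι (e' b) * D (ι (y b)) := by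
      rw [← Finset.sum_add_distrib]
      refine Finset.sum_congr rfl fun b _ => ?_
      rw [map_add, add_mul]
    rw [h3]
    ring
  | monomial n a =>
    obtain ⟨e, he, h1⟩ := ArcIT_chain1 v ι D y hy0 a
    have hfn : (v.comap ι).ge 0 (f ^ n) := by
      have := (v.comap ι).ge_pow hf n
      rwa [mul_zero] at this
    refine ⟨fun b => f ^ n * e b, fun b => ?_, ?_⟩
    · have := (v.comap ι).ge_mul hfn (he b)
      rwa [zero_add] at this
    · have e1 : (aeval y : MvPolynomial B k →ₐ[k] K).toRingHom a = aeval y a := rfl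
      have e2 : (aeval y : MvPolynomial B k →ₐ[k] K).toRingHom (a * (n : MvPolynomial B k)) =
          aeval y a * (n : K) := by
        have : (aeval y : MvPolynomial B k →ₐ[k] K).toRingHom (a * (n : MvPolynomial B k)) =
          aeval y (a * (n : MvPolynomial B k)) := rfl
        rw [this, map_mul, map_natCast]
      rw [Polynomial.derivative_monomial, Polynomial.eval₂_monomial, Polynomial.eval₂_monomial,
        e1, e2, map_mul, Derivation.leibniz, smul_eq_mul, smul_eq_mul, h1, map_pow,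
        Derivation.leibniz_pow, map_mul, map_mul, map_pow, map_natCast]
      have h3 : ∑ b, ι (f ^ n * e b) * D (ι (y b)) =
          ι f ^ n * ∑ b, ι (e b) * D (ι (y b)) := by
        rw [Finset.mul_sum]
        refine Finset.sum_congr rfl fun b _ => ?_
        rw [map_mul, map_pow]
        ring
      rw [h3]
      simp only [nsmul_eq_mul, smul_eq_mul]
      ring

/-- The step of the iteration. -/
private theorem ArcIT_step [CharZero k] (π : K) (hπ : π ≠ 0)
    (hπ0 : 0 < (v.comap ι).ord π)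
    (hmin : ∀ f : K, f ≠ 0 → 0 < (v.comap ι).ord f → (v.comap ι).ord π ≤ (v.comap ι).ord f)
    (hy : RAI (v.comap ι) y)
    (hmax : ∀ f : K, f ≠ 0 → 0 ≤ (v.comap ι).ord f → ResAlg (v.comap ι) y f)
    (C M : ℤ) (hC : ∀ f : K, f ≠ 0 → 0 ≤ (v.comap ι).ord f → v.ge C (D (ι f)))
    (hMπ : v.ge M (D (ι π))) (hMy : ∀ b, v.ge M (D (ι (y b)))) :
    ∀ f : K, f ≠ 0 → 0 ≤ (v.comap ι).ord f →
      v.ge (min M ((v.comap ι).ord π + C)) (D (ι f)) := by
  classical
  intro f hf hf0
  have hy0 : ∀ b, (v.comap ι).ge 0 (y b) := by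
    intro b
    have h1 := hy (X b) (X_ne_zero b)
    rw [aeval_X] at h1
    exact Or.inr h1.2.ge
  have hfge : (v.comap ι).ge 0 f := Or.inr hf0
  -- a polynomial of minimal degree
  obtain ⟨P, hP0, hP1, hPmin⟩ : ∃ P : Polynomial (MvPolynomial B k), P ≠ 0 ∧
      (v.comap ι).ge 1 (Polynomial.eval₂ (aeval y : MvPolynomial B k →ₐ[k] K).toRingHom f P) ∧
      ∀ Q : Polynomial (MvPolynomial B k), Q ≠ 0 →
        (v.comap ι).ge 1 (Polynomial.eval₂ (aeval y : MvPolynomial B k →ₐ[k] K).toRingHom f Q) →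
        P.natDegree ≤ Q.natDegree := by
    obtain ⟨P, hP0, hP1⟩ := hmax f hf hf0
    have hex : ∃ n, ∃ P : Polynomial (MvPolynomial B k), P ≠ 0 ∧ (v.comap ι).ge 1
        (Polynomial.eval₂ (aeval y : MvPolynomial B k →ₐ[k] K).toRingHom f P) ∧
        P.natDegree = n := ⟨_, P, hP0, hP1, rfl⟩
    obtain ⟨P', hP0', hP1', hP2'⟩ := Nat.find_spec hex
    refine ⟨P', hP0', hP1', fun Q hQ0 hQ1 => ?_⟩
    rw [hP2']
    exact Nat.find_min' hex ⟨Q, hQ0, hQ1, rfl⟩
  have hdeg : P.natDegree ≠ 0 := by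
    intro h0
    rw [Polynomial.eq_C_of_natDegree_eq_zero h0, Polynomial.eval₂_C] at hP1
    have hp : P.coeff 0 ≠ 0 := by
      intro h1
      apply hP0
      rw [Polynomial.eq_C_of_natDegree_eq_zero h0, h1, map_zero]
    have h2 := hy _ hp
    have h3 : (v.comap ι).ge 1 (aeval y (P.coeff 0)) := hP1
    rcases h3 with h3 | h3
    · exact h2.1 h3
    · rw [h2.2] at h3
      omega
  have hder : Polynomial.derivative P ≠ 0 := by
    intro h0
    exact hdeg (Polynomial.natDegree_eq_zero_of_derivative_eq_zero h0)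
  have hdlt := Polynomial.natDegree_derivative_lt hdeg
  obtain ⟨q, hq⟩ : ∃ q : K, q = Polynomial.eval₂
    (aeval y : MvPolynomial B k →ₐ[k] K).toRingHom f (Polynomial.derivative P) := ⟨_, rfl⟩
  have hq1 : ¬ (v.comap ι).ge 1 q := by
    intro h1
    rw [hq] at h1
    have h2 := hPmin _ hder h1
    omega
  have hq0 : (v.comap ι).ge 0 q := by
    rw [hq]
    exact ArcIT_ge v ι y hy0 f hfge _
  have hqne : q ≠ 0 := fun h => hq1 (Or.inl h)
  have hqord : (v.comap ι).ord q = 0 := by
    rcases hq0 with h | h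
    · exact absurd h hqne
    · by_contra h2
      exact hq1 (Or.inr (by omega))
  obtain ⟨e, he, hch⟩ := ArcIT_chain2 v ι D y hy0 f hfge P
  rw [← hq] at hch
  obtain ⟨h, hh⟩ : ∃ h : K, h = Polynomial.eval₂
    (aeval y : MvPolynomial B k →ₐ[k] K).toRingHom f P := ⟨_, rfl⟩
  rw [← hh] at hch hP1
  obtain ⟨f₁, hf₁⟩ : ∃ f₁ : K, f₁ = h / π := ⟨_, rfl⟩
  have hhf : h = π * f₁ := by rw [hf₁, mul_div_cancel₀ h hπ]
  have hf₁0 : (v.comap ι).ge 0 f₁ := by
    by_cases h0 : h = 0
    · left
      rw [hf₁, h0, zero_div]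
    · right
      rw [hf₁, (v.comap ι).ord_div h0 hπ]
      rcases hP1 with h1 | h1
      · exact absurd h1 h0
      · have := hmin h h0 (by omega)
        omega
  have hDf₁ : v.ge C (D (ι f₁)) := by
    rcases hf₁0 with h1 | h1
    · rw [h1, map_zero, map_zero]
      exact v.ge_zero C
    · by_cases h2 : f₁ = 0
      · rw [h2, map_zero, map_zero]
        exact v.ge_zero C
      · exact hC f₁ h2 h1
  have hDh : v.ge (min M ((v.comap ι).ord π + C)) (D (ι h)) := by
    rw [hhf, map_mul, Derivation.leibniz, smul_eq_mul, smul_eq_mul]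
    refine v.ge_add ?_ ?_
    · refine v.ge_mono (min_le_right _ _) (v.ge_mul ?_ hDf₁)
      exact Or.inr (le_of_eq (OrdFn.comap_ord v ι π))
    · have h1 := v.ge_mul ((v.comap_ge ι 0 f₁).1 hf₁0) hMπ
      rw [zero_add] at h1
      exact v.ge_mono (min_le_left _ _) h1
  have hsum : v.ge (min M ((v.comap ι).ord π + C)) (∑ b, ι (e b) * D (ι (y b))) := by
    refine v.ge_sum _ _ fun b _ => ?_
    have h1 := v.ge_mul ((v.comap_ge ι 0 (e b)).1 (he b)) (hMy b)
    rw [zero_add] at h1
    exact v.ge_mono (min_le_left _ _) h1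
  have hιq : ι q ≠ 0 := (map_ne_zero ι).2 hqne
  have hfin : D (ι f) = (ι q)⁻¹ * (D (ι h) - ∑ b, ι (e b) * D (ι (y b))) := by
    rw [hch, add_sub_cancel_right, inv_mul_cancel_left₀ hιq]
  rw [hfin]
  have hinv : v.ge 0 (ι q)⁻¹ := by
    right
    rw [v.ord_inv _ hιq, ← OrdFn.comap_ord, hqord]
    simp
  have h1 := v.ge_mul hinv (v.ge_sub hDh hsum)
  rw [zero_add] at h1
  exact h1

end

theorem arc_it {k : Type u} [Field k] [CharZero k] {K W : Type u} [Field K] [Algebra k K]
    [Field W] [Algebra k W] (v : OrdFn k W) (ι : K →ₐ[k] W) (D : Derivation k W W)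
    {B : Type} [Fintype B] (y : B → K) (π : K) (hπ : π ≠ 0) (hπ0 : 0 < (v.comap ι).ord π)
    (hmin : ∀ f : K, f ≠ 0 → 0 < (v.comap ι).ord f → (v.comap ι).ord π ≤ (v.comap ι).ord f)
    (hy : RAI (v.comap ι) y)
    (hmax : ∀ f : K, f ≠ 0 → 0 ≤ (v.comap ι).ord f → ResAlg (v.comap ι) y f)
    (C M : ℤ) (hC : ∀ f : K, f ≠ 0 → 0 ≤ (v.comap ι).ord f → v.ge C (D (ι f)))
    (hMπ : v.ge M (D (ι π))) (hMy : ∀ b, v.ge M (D (ι (y b)))) :
    ∀ f : K, f ≠ 0 → 0 ≤ (v.comap ι).ord f → v.ge M (D (ι f)) := by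
  have key : ∀ N : ℕ, ∀ f : K, f ≠ 0 → 0 ≤ (v.comap ι).ord f →
      v.ge (min M (C + N * (v.comap ι).ord π)) (D (ι f)) := by
    intro N
    induction N with
    | zero =>
      intro f hf hf0
      refine v.ge_mono ?_ (hC f hf hf0)
      simp
    | succ N ih =>
      intro f hf hf0
      refine v.ge_mono ?_ (ArcIT_step v ι D y π hπ hπ0 hmin hy hmax _ M ih hMπ hMy f hf hf0)
      have e1 : C + ((N + 1 : ℕ) : ℤ) * (v.comap ι).ord π =
          (v.comap ι).ord π + (C + N * (v.comap ι).ord π) := by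
        push_cast
        ring
      rw [e1]
      obtain ⟨x, hx⟩ : ∃ x : ℤ, x = C + N * (v.comap ι).ord π := ⟨_, rfl⟩
      rw [← hx]
      omega
  intro f hf hf0
  refine v.ge_mono ?_ (key (M - C).toNat f hf hf0)
  refine le_min le_rfl ?_
  have h1 : M - C ≤ ((M - C).toNat : ℤ) := Int.self_le_toNat _
  have h2 : ((M - C).toNat : ℤ) * 1 ≤ ((M - C).toNat : ℤ) * (v.comap ι).ord π :=
    mul_le_mul_of_nonneg_left (by omega) (by positivity)
  omega

end MLD
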