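import Mathlib

/-!
PIECE MLD-R11: the cokernel of a square matrix over `L⟦X⟧` has `L`-dimension at most the order of the
determinant.

STATEMENT in elementary form: if `N` is larger than the order of `det H` then for any `N` vectors
`v_0, ..., v_(N-1)` some nontrivial `L`-linear combination lies in the image of `H`.

PROOF. `R := PowerSeries L` is a discrete valuation ring (a PID). Let `M := LinearMap.range (mulVecLin H)`, a
submodule of full rank of `σ → R` (`det H ≠ 0`). Smith normal form
(`Submodule.smithNormalForm`, `Submodule.quotientEquivPiSpan`-like lemmas): `(σ → R) / M ≃ ∏ R / (a i)`, with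
`∏ a i` associated to `det H` (the determinant of the inclusion of `M` in adapted bases; see
`Submodule.natAbs_det_equiv`/`Ideal.Norm` files for the argument over `ℤ`), and `dim_L R / (a) = order a` (`a` is
a unit times `X ^ order`). So the dimension is `∑ order (a i) = order (det H) < N`.
ALTERNATIVE elementary PROOF by induction on `order (det H) = μ`: if `μ = 0`, `H` is invertible and everything
lies in the image (`N ≥ 1`, any `a`). If `μ > 0`, the matrix `H₀ := H mod X` over `L` is singular, so there is a
row vector `ℓ ≠ 0` over `L` with `ℓ H₀ = 0`; so `ℓ · (H w)` has zero constant coefficient for all `w`.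
Choose `s₀` with `ℓ s₀ ≠ 0`, and let `U` be the invertible constant matrix replacing coordinate `s₀` by
`ℓ ·`: then the row `s₀` of `U H` is divisible by `X`: `U H = diag(1,..,X,..,1) H'` with `det H'` of
order `μ - 1`. Given `N ≥ μ + 1` vectors `v i`: if all `ℓ · v i` have zero constant coefficient put
`v' i := diag(..)⁻¹ U v i` and apply the induction hypothesis to `H'` and `v'`. Otherwise let `ℓ · v j` have
constant coefficient `c ≠ 0` and replace the other `v i` by `v i - (c i / c) v j`, `N - 1 ≥ μ` vectors,
and `N - 1 > μ - 1`: the induction hypothesis gives a nontrivial combination.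
-/

open Matrix

namespace MLD

universe u

private theorem arclen_unit {L : Type u} [Field L] {σ : Type} [Fintype σ] [DecidableEq σ]
    (H : Matrix σ σ (PowerSeries L)) (hH : PowerSeries.constantCoeff H.det ≠ 0)
    (y : σ → PowerSeries L) : ∃ w, y = H.mulVec w := by
  have hu : IsUnit H.det := by
    rw [PowerSeries.isUnit_iff_constantCoeff]
    exact isUnit_iff_ne_zero.mpr hH
  refine ⟨H⁻¹.mulVec y, ?_⟩
  rw [Matrix.mulVec_mulVec, Matrix.mul_nonsing_inv H hu, Matrix.one_mulVec]

private theorem arclen_lift {L : Type u} [Field L] {σ : Type} [Fintype σ] [DecidableEq σ]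
    (H : Matrix σ σ (PowerSeries L)) (l : σ → L) (s₀ : σ) (hs₀ : l s₀ ≠ 0)
    (r : σ → PowerSeries L)
    (hr : ∀ t, ∑ s, PowerSeries.C (l s) * H s t = PowerSeries.X * r t)
    (y : σ → PowerSeries L) (z : PowerSeries L)
    (hz : ∑ s, PowerSeries.C (l s) * y s = PowerSeries.X * z) (w : σ → PowerSeries L)
    (hw : Function.update y s₀ z = (H.updateRow s₀ r).mulVec w) : y = H.mulVec w := by
  have h1 : ∀ s, s ≠ s₀ → y s = H.mulVec w s := by
    intro s hs
    have h := congrFun hw s
    rw [Function.update_of_ne hs] at h
    rw [h, Matrix.mulVec, Matrix.mulVec, Matrix.updateRow_ne hs]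
  have h2 : ∑ s, PowerSeries.C (l s) * y s =
      ∑ s, PowerSeries.C (l s) * H.mulVec w s := by
    have h := congrFun hw s₀
    rw [Function.update_self, Matrix.mulVec, Matrix.updateRow_self] at h
    rw [hz, h, dotProduct, Finset.mul_sum]
    have e : ∀ t, PowerSeries.X * (r t * w t) =
        ∑ s, PowerSeries.C (l s) * (H s t * w t) := by
      intro t
      rw [← mul_assoc, ← hr, Finset.sum_mul]
      exact Finset.sum_congr rfl fun s _ => by ring
    rw [Finset.sum_congr rfl fun t _ => e t, Finset.sum_comm]
    refine Finset.sum_congr rfl fun s _ => ?_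
    rw [Matrix.mulVec, dotProduct, Finset.mul_sum]
  have hC : (PowerSeries.C (l s₀) : PowerSeries L) ≠ 0 := by
    rw [Ne, map_eq_zero]
    exact hs₀
  funext s
  by_cases hs : s = s₀
  · subst hs
    rw [← Finset.add_sum_erase _ _ (Finset.mem_univ s),
      ← Finset.add_sum_erase _ (fun s => PowerSeries.C (l s) * H.mulVec w s)
        (Finset.mem_univ s)] at h2
    have h3 : ∑ x ∈ Finset.univ.erase s, PowerSeries.C (l x) * y x =
        ∑ x ∈ Finset.univ.erase s, PowerSeries.C (l x) * H.mulVec w x :=
      Finset.sum_congr rfl fun x hx => by rw [h1 x (Finset.ne_of_mem_erase hx)]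
    rw [h3] at h2
    exact mul_left_cancel₀ hC (add_right_cancel h2)
  · exact h1 s hs

private theorem arclen_ind {L : Type u} [Field L] {σ : Type} [Fintype σ] [DecidableEq σ]
    (n : ℕ) : ∀ (H : Matrix σ σ (PowerSeries L)), H.det ≠ 0 → H.det.order ≤ n →
    ∀ (ι : Type) [Fintype ι], n < Fintype.card ι → ∀ v : ι → σ → PowerSeries L,
    ∃ a : ι → L, a ≠ 0 ∧ ∃ w : σ → PowerSeries L,
      (fun s => ∑ i, PowerSeries.C (a i) * v i s) = H.mulVec w := by
  classical
  induction n with
  | zero =>
    intro H hH hord ι _ hι v
    have h0 : PowerSeries.constantCoeff H.det ≠ 0 := by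
      intro h
      have h1 : H.det.order ≠ 0 := PowerSeries.order_ne_zero_iff_constCoeff_eq_zero.mpr h
      exact h1 (le_antisymm (by simpa using hord) bot_le)
    have : Nonempty ι := Fintype.card_pos_iff.mp hι
    refine ⟨fun _ => 1, fun h => ?_, arclen_unit H h0 _⟩
    exact one_ne_zero (congrFun h (Classical.arbitrary ι))
  | succ n ih =>
    intro H hH hord ι _ hι v
    have : Nonempty ι := Fintype.card_pos_iff.mp (by omega)
    by_cases h0 : PowerSeries.constantCoeff H.det = 0
    swap
    · refine ⟨fun _ => 1, fun h => ?_, arclen_unit H h0 _⟩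
      exact one_ne_zero (congrFun h (Classical.arbitrary ι))
    have hdet : (H.map (PowerSeries.constantCoeff (R := L))).det = 0 := by
      rw [← h0, RingHom.map_det]
      rfl
    obtain ⟨l, hl0, hl⟩ := Matrix.exists_vecMul_eq_zero_iff.mpr hdet
    obtain ⟨s₀, hs₀⟩ : ∃ s, l s ≠ 0 := by
      by_contra hcon
      push Not at hcon
      exact hl0 (funext hcon)
    have hr' : ∀ t, ∃ r : PowerSeries L,
        ∑ s, PowerSeries.C (l s) * H s t = PowerSeries.X * r := by
      intro t
      have h1 : PowerSeries.constantCoeff (∑ s, PowerSeries.C (l s) * H s t) = 0 := by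
        rw [map_sum]
        have := congrFun hl t
        simp only [Matrix.vecMul, dotProduct, Matrix.map_apply, Pi.zero_apply] at this
        simpa using this
      exact PowerSeries.X_dvd_iff.mpr h1
    choose r hr using hr'
    have hmul : PowerSeries.C (l s₀) * H.det =
        PowerSeries.X * (H.updateRow s₀ r).det := by
      have h1 := Matrix.det_updateRow_sum H s₀ (fun s => PowerSeries.C (l s))
      have h2 : (∑ k, (fun s => (PowerSeries.C (l s) : PowerSeries L)) k • H k) =
          (PowerSeries.X : PowerSeries L) • r := by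
        funext t
        rw [Finset.sum_apply, Pi.smul_apply, smul_eq_mul, ← hr]
        rfl
      rw [h2, Matrix.det_updateRow_smul, smul_eq_mul] at h1
      exact h1.symm
    have hC : (PowerSeries.C (l s₀) : PowerSeries L) ≠ 0 := by
      rw [Ne, map_eq_zero]
      exact hs₀
    have hH' : (H.updateRow s₀ r).det ≠ 0 := by
      intro h
      rw [h, mul_zero] at hmul
      exact (mul_ne_zero hC hH) hmul
    have hord' : (H.updateRow s₀ r).det.order ≤ n := by
      have h1 := congrArg PowerSeries.order hmul
      rw [PowerSeries.order_mul, PowerSeries.order_mul, PowerSeries.order_X] at h1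
      have h2 : (PowerSeries.C (l s₀) : PowerSeries L).order ≤ 0 :=
        PowerSeries.order_le 0 (by rw [PowerSeries.coeff_zero_C]; exact hs₀)
      have h3 : (PowerSeries.C (l s₀) : PowerSeries L).order = 0 := le_antisymm h2 bot_le
      rw [h3, zero_add] at h1
      rw [h1] at hord
      have h4 : (H.updateRow s₀ r).det.order ≠ ⊤ := by
        rw [Ne, PowerSeries.order_eq_top]
        exact hH'
      obtain ⟨q, hq⟩ := ENat.ne_top_iff_exists.mp h4
      rw [← hq] at hord ⊢
      have h5 : 1 + q ≤ n + 1 := by exact_mod_cast hord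
      exact_mod_cast (by omega : q ≤ n)
    have stepA : ∀ (ι' : Type) [Fintype ι'], n < Fintype.card ι' →
        ∀ v : ι' → σ → PowerSeries L,
        (∀ i, PowerSeries.constantCoeff (∑ s, PowerSeries.C (l s) * v i s) = 0) →
        ∃ a : ι' → L, a ≠ 0 ∧ ∃ w : σ → PowerSeries L,
          (fun s => ∑ i, PowerSeries.C (a i) * v i s) = H.mulVec w := by
      intro ι' _ hι' v hv
      have hz' : ∀ i, ∃ z : PowerSeries L,
          ∑ s, PowerSeries.C (l s) * v i s = PowerSeries.X * z :=
        fun i => PowerSeries.X_dvd_iff.mpr (hv i)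
      choose z hz using hz'
      obtain ⟨a, ha, w, hw⟩ := ih (H.updateRow s₀ r) hH' hord' ι' hι'
        (fun i => Function.update (v i) s₀ (z i))
      refine ⟨a, ha, w, ?_⟩
      refine arclen_lift H l s₀ hs₀ r hr _ (∑ i, PowerSeries.C (a i) * z i) ?_ w ?_
      · rw [Finset.mul_sum]
        have e : ∀ i, PowerSeries.X * (PowerSeries.C (a i) * z i) =
            ∑ s, PowerSeries.C (l s) * (PowerSeries.C (a i) * v i s) := by
          intro i
          rw [mul_left_comm, ← hz, Finset.mul_sum]
          exact Finset.sum_congr rfl fun s _ => by ring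
        rw [Finset.sum_congr rfl fun i _ => e i, Finset.sum_comm]
        exact Finset.sum_congr rfl fun s _ => by rw [Finset.mul_sum]
      · rw [← hw]
        funext s
        by_cases hs : s = s₀
        · subst hs
          simp
        · rw [Function.update_of_ne hs]
          exact Finset.sum_congr rfl fun i _ => by rw [Function.update_of_ne hs]
    by_cases hall : ∀ i, PowerSeries.constantCoeff (∑ s, PowerSeries.C (l s) * v i s) = 0
    · exact stepA ι (by omega) v hall
    push Not at hall
    obtain ⟨j, hj⟩ := hall
    set c : ι → L := fun i => PowerSeries.constantCoeff (∑ s, PowerSeries.C (l s) * v i s)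
      with hc
    have hcj : c j ≠ 0 := hj
    obtain ⟨a', ha', w, hw⟩ := stepA {i : ι // i ≠ j}
      (by rw [Fintype.card_subtype_compl, Fintype.card_subtype_eq]; omega)
      (fun i s => v i.1 s - PowerSeries.C (c i.1 / c j) * v j s) (by
        intro i
        have e : (∑ s, PowerSeries.C (l s) *
            (v i.1 s - PowerSeries.C (c i.1 / c j) * v j s)) =
            (∑ s, PowerSeries.C (l s) * v i.1 s) -
              PowerSeries.C (c i.1 / c j) * ∑ s, PowerSeries.C (l s) * v j s := by
          rw [Finset.mul_sum, ← Finset.sum_sub_distrib]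
          exact Finset.sum_congr rfl fun s _ => by ring
        rw [e, map_sub, map_mul, PowerSeries.constantCoeff_C]
        change c i.1 - c i.1 / c j * c j = 0
        rw [div_mul_cancel₀ _ hcj, sub_self])
    obtain ⟨i₀, hi₀⟩ : ∃ i, a' i ≠ 0 := by
      by_contra hcon
      push Not at hcon
      exact ha' (funext hcon)
    obtain ⟨A, hA1, hA2⟩ : ∃ A : ι → L, (∀ i : {i : ι // i ≠ j}, A i.1 = a' i) ∧
        A j = -∑ i', a' i' * (c i'.1 / c j) := by
      refine ⟨fun i => if h : i ≠ j then a' ⟨i, h⟩ else -∑ i', a' i' * (c i'.1 / c j),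
        fun i => ?_, ?_⟩
      · exact dif_pos i.2
      · exact dif_neg (fun h => h rfl)
    refine ⟨A, fun h => ?_, w, ?_⟩
    · apply hi₀
      rw [← hA1, h]
      rfl
    · rw [← hw]
      funext s
      rw [Fintype.sum_eq_add_sum_subtype_ne _ j, hA2]
      simp only [hA1]
      rw [map_neg, map_sum, neg_mul, Finset.sum_mul, neg_add_eq_sub, ← Finset.sum_sub_distrib]
      refine Finset.sum_congr rfl fun i _ => ?_
      rw [map_mul]
      ring

theorem arc_len {L : Type u} [Field L] {σ : Type} [Fintype σ] [DecidableEq σ]
    (H : Matrix σ σ (PowerSeries L)) (hH : H.det ≠ 0) {N : ℕ} (hN : H.det.order < N)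
    (v : Fin N → σ → PowerSeries L) :
    ∃ a : Fin N → L, a ≠ 0 ∧ ∃ w : σ → PowerSeries L,
      (fun s => ∑ i, PowerSeries.C (a i) * v i s) = H.mulVec w := by
  have h4 : H.det.order ≠ ⊤ := by
    rw [Ne, PowerSeries.order_eq_top]
    exact hH
  obtain ⟨q, hq⟩ := ENat.ne_top_iff_exists.mp h4
  rw [← hq] at hN
  have hN' : q < N := by exact_mod_cast hN
  exact arclen_ind q H hH (by rw [← hq]) (Fin N) (by simpa using hN') v

end MLD
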