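import Pool.Agent.MLD.ArcDualE
import Pool.Agent.MLD.ArcVR
import Pool.Agent.MLD.ArcGamma
import Pool.Agent.MLD.ArcRank
import Pool.Agent.MLD.ArcJac
import Pool.Agent.MLD.ArcExtD

/-!
PIECE MLD-R20: the generic jets of a divisor.

PROOF. `exists_dualE` gives `i₀, z, dd`; `exists_vr` for `E.toOrdFn` gives `O, κ, res`. `dd b` maps `O` to `O`
(`IntegralDer`), so it restricts to `dd' b : Derivation k O O`; they commute. `arc_gamma` gives
`γ : O →ₐ[k] PowerSeries (MvPolynomial (σ × Fin m) κ)`. Let `L := FF κ (σ × Fin m)`, `τ := toFF κ _`,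
`x i := xx k i ∈ O` (`E.CenterZero`; `res (x i) = 0`), `Γ := PowerSeries.map τ ∘ γ : O → PowerSeries L`,
`c i j := τ (coeff (j+1) (γ (x i)))`. Since `coeff 0 (γ (x i)) = C (res (x i)) = 0`,
`Γ (x i) ≡ jetS c i` modulo `X^(m+1)`.
(a) `X ∣ Γ (z i₀)` (its constant coefficient is `res (z i₀) = 0`). For `f ≠ 0` in `MvPolynomial σ k`,
`r ≤ E.ord (toFF f)`: `toFF f = z i₀ ^ r * u`, `u ∈ O`, so `X^r ∣ Γ (toFF f) = aeval (Γ ∘ x) f` (`Γ` is
a `k`-algebra hom on `O`, `toFF f` is the value of `f` at `x`), and `aeval (Γ ∘ x) f ≡ aeval (jetS c) f` modulo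
`X^(m+1)`, `r ≤ m+1`.
(b) `Γ (dd b (x i))` is divisible by `X` for `b ≠ i₀`: `res (dd b (x i)) = 0`, since `x i = z i₀ * u`, `u ∈ O`,
`dd b (x i) = z i₀ * dd b u`. Let `H i b := Γ (dd b (x i)) / X` for `b ≠ i₀` and `H i i₀ := Γ (dd i₀ (x i))`. Then
`X^(n-1) * det H = det (Γ (dd b (x i))) = Γ (jac dd)` (up to transposition), `n = card σ`. The order of
`Γ u` is `E.ord u` for `0 ≠ u ∈ O`: for `E.ord u = 0` the constant coefficient `C (res u)` is nonzero; and
`Γ (z i₀)` has order 1: the coefficient of `X^1` has derivative `pderiv (i₀, 0) = coeff 0 (γ (dd i₀ (z i₀))) =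
coeff 0 (γ 1) = 1 ≠ 0` (here `m ≥ 1`). So `det H ≠ 0` has order `μ = E.ord (jac dd) - (n - 1)`, i.e.
`μ + n = 1 + E.ord (jac dd) ≤ A` (note `X^(n-1) ∣ Γ (jac dd)`). `arc_rank` gives `T` with `n m ≤ T.card + μ`, so
`n (m+1) ≤ T.card + A`.
Algebraic independence: `arc_jac` for the family `c` restricted to `T` and for `𝒟` consisting of the
derivations of `L` over `k`: `∂/∂(b,l)` (`exists_zDer` with `L := κ`, variables `σ × Fin m`), and for `b ≠ i₀` the
derivation `δ b` of `κ` induced by `dd' b` (it maps the maximal ideal `(z i₀)` to itself because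
`dd b (z i₀) = 0`; so `δ b (res f) := res (dd b f)` is well defined, a `k`-derivation of `κ`; `res` is
surjective), extended to `L` by `exists_extDer`. Values: `∂/∂(b,l) (c i j) = τ (coeff (j - l) (γ (dd b (x i))))` if
`l ≤ j` and `0` otherwise (property (4) of `arc_gamma` with `n = j+1`); `δ b (c i j) = τ (coeff (j+1)
(γ (dd b (x i))))` (property (5)). In terms of `H`: for `b = i₀`: `coeff j (X^l * H i i₀)`; for `b ≠ i₀`:
`∂/∂(b,l) (c i j) = coeff j (X^(l+1) * H i b)` and `δ b (c i j) = coeff j (H i b)`. So if `∑ t, a t * D (c t) = 0` for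
all these `D` then the hypotheses of `arc_rank` hold for all `(b, l)` (for `b ≠ i₀`: `l = 0` from `δ b`,
`l = l' + 1` from `∂/∂(b,l')`), `a` extended by zero outside `T`: `a = 0`.
(c) `coeff 0 (coeff n (γ f)) = 0` for `n ≥ 1`: the polynomials `p i j := coeff (j+1) (γ (x i))` have zero
constant coefficient. If `aeval c F = 0` then `aeval p F = 0` in `MvPolynomial (σ × Fin m) κ` (`τ` injective),
and applying `constantCoeff` gives `algebraMap k κ (constantCoeff F) = 0`.
-/

open MvPolynomial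

namespace MLD

universe u

private theorem ArcP1_der {k O κ : Type u} [Field k] [CommRing O] [Algebra k O] [Field κ]
    [Algebra k κ] (res : O →ₐ[k] κ) (hres : Function.Surjective res) (D : Derivation k O O)
    (h : ∀ f, res f = 0 → res (D f) = 0) :
    ∃ δ : Derivation k κ κ, ∀ f, δ (res f) = res (D f) := by
  choose s hs using hres
  have key : ∀ f g, res f = res g → res (D f) = res (D g) := by
    intro f g hfg
    have h1 := h (f - g) (by rw [map_sub, hfg, sub_self])
    rw [map_sub, map_sub] at h1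
    exact sub_eq_zero.1 h1
  let δ₀ : κ →ₗ[k] κ :=
    { toFun := fun a => res (D (s a))
      map_add' := fun a b => by
        rw [← map_add, ← map_add]
        exact key _ _ (by rw [map_add, hs, hs, hs])
      map_smul' := fun c a => by
        have h1 : D (c • s a) = c • D (s a) := D.map_smul c (s a)
        rw [RingHom.id_apply, ← map_smul res, ← h1]
        exact key _ _ (by rw [map_smul, hs, hs]) }
  have hδ : ∀ f, δ₀ (res f) = res (D f) := fun f => key _ _ (hs _)
  refine ⟨Derivation.mk' δ₀ fun a b => ?_, fun f => hδ f⟩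
  rw [← hs a, ← hs b, ← map_mul, hδ, hδ, hδ, D.leibniz, map_add, smul_eq_mul, smul_eq_mul,
    map_mul, map_mul, smul_eq_mul, smul_eq_mul]

private theorem ArcP1_congr {k L : Type u} [Field k] [Field L] [Algebra k L] {σ : Type}
    (a b : σ → PowerSeries L) (N : ℕ)
    (h : ∀ i, (PowerSeries.X : PowerSeries L) ^ N ∣ a i - b i) (f : MvPolynomial σ k) :
    (PowerSeries.X : PowerSeries L) ^ N ∣ aeval a f - aeval b f := by
  induction f using MvPolynomial.induction_on with
  | C c => rw [aeval_C, aeval_C, sub_self]; exact dvd_zero _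
  | add p q hp hq =>
    rw [map_add, map_add]
    have : aeval a p + aeval a q - (aeval b p + aeval b q) =
        (aeval a p - aeval b p) + (aeval a q - aeval b q) := by ring
    rw [this]
    exact dvd_add hp hq
  | mul_X p i hp =>
    rw [map_mul, map_mul, aeval_X, aeval_X]
    have : aeval a p * a i - aeval b p * b i =
        (aeval a p - aeval b p) * a i + aeval b p * (a i - b i) := by ring
    rw [this]
    exact dvd_add (hp.mul_right _) ((h i).mul_left _)

private theorem ArcP1_core {k κ O : Type u} [Field k] [CharZero k] [CommRing O] [Algebra k O]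
    [Field κ] [Algebra k κ] (res : O →ₐ[k] κ) (hres : Function.Surjective res) {σ : Type}
    [Fintype σ] [DecidableEq σ] (dd : σ → Derivation k O O)
    (hcomm : ∀ a b f, dd a (dd b f) = dd b (dd a f)) (i₀ : σ) (z : O) (hz0 : res z = 0)
    (hz : ∀ b, dd b z = if b = i₀ then 1 else 0) (hker : ∀ f, res f = 0 → ∃ u, f = z * u)
    (x : σ → O) (hx : ∀ i, res (x i) = 0) (N : ℕ) (u : O) (hu : res u ≠ 0)
    (hjac : (Matrix.of fun i j => dd i (x j)).det = z ^ N * u) (A : ℕ) (hA : 1 + N ≤ A)
    (m : ℕ) (hm : 1 ≤ m) :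
    ∃ (L : Type u) (_ : Field L) (_ : Algebra k L) (c : σ → Fin m → L),
      (∀ f : MvPolynomial σ k, ∀ r : ℕ, (∃ u, aeval x f = z ^ r * u) → r ≤ m + 1 →
        (PowerSeries.X : PowerSeries L) ^ r ∣ aeval (jetS c) f) ∧
      (∃ T : Finset (σ × Fin m), Fintype.card σ * (m + 1) ≤ T.card + A ∧
        AlgebraicIndependent k (fun t : T => c t.1.1 t.1.2)) ∧
      ∀ F : MvPolynomial (σ × Fin m) k, aeval (fun t : σ × Fin m => c t.1 t.2) F = 0 →
        constantCoeff F = 0 := by
  classical
  obtain ⟨γ, h1, h2, h3, h4⟩ := arc_gamma res dd hcomm m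
  let τ : MvPolynomial (σ × Fin m) κ →ₐ[k] FF κ (σ × Fin m) :=
    IsScalarTower.toAlgHom k (MvPolynomial (σ × Fin m) κ) (FF κ (σ × Fin m))
  have hτ : Function.Injective τ :=
    IsFractionRing.injective (MvPolynomial (σ × Fin m) κ) (FF κ (σ × Fin m))
  have hτF : ∀ p, toFF κ (σ × Fin m) p = τ p := fun p => rfl
  let Γ : O →ₐ[k] PowerSeries (FF κ (σ × Fin m)) := (PowerSeries.mapAlgHom τ).comp γ
  have hΓ : ∀ f n, PowerSeries.coeff n (Γ f) = τ (PowerSeries.coeff n (γ f)) := by
    intro f n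
    show PowerSeries.coeff n (PowerSeries.mapAlgHom τ (γ f)) = _
    rw [PowerSeries.mapAlgHom_apply, PowerSeries.coeff_map]
    rfl
  have hΓ0 : ∀ f, PowerSeries.coeff 0 (Γ f) = τ (C (res f)) := fun f => by rw [hΓ, h2]
  have hΓz0 : PowerSeries.coeff 0 (Γ z) = 0 := by rw [hΓ0, hz0, C_0, map_zero]
  have hdvd0 : ∀ f, res f = 0 → (PowerSeries.X : PowerSeries (FF κ (σ × Fin m))) ∣ Γ f := by
    intro f hf
    rw [PowerSeries.X_dvd_iff, ← PowerSeries.coeff_zero_eq_constantCoeff_apply, hΓ0, hf, C_0,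
      map_zero]
  -- orders
  have hzord : (Γ z).order = ((1 : ℕ) : ℕ∞) := by
    rw [PowerSeries.order_eq_nat]
    refine ⟨fun h => ?_, fun i hi => ?_⟩
    · rw [hΓ] at h
      have h5 : PowerSeries.coeff 1 (γ z) = 0 := hτ (by rw [h, map_zero])
      have h6 := h3 z i₀ ⟨0, hm⟩ 1
      rw [h5, map_zero, if_pos (le_refl _), hz, if_pos rfl] at h6
      simp only [zero_add, Nat.sub_self, map_one] at h6
      rw [PowerSeries.coeff_zero_eq_constantCoeff_apply, map_one] at h6
      exact zero_ne_one h6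
    · obtain rfl : i = 0 := by omega
      exact hΓz0
  have huord : ∀ u, res u ≠ 0 → (Γ u).order = ((0 : ℕ) : ℕ∞) := by
    intro u hu
    rw [PowerSeries.order_eq_nat]
    refine ⟨fun h => ?_, fun i hi => absurd hi (Nat.not_lt_zero i)⟩
    rw [hΓ0] at h
    have h5 : (C (res u) : MvPolynomial (σ × Fin m) κ) = 0 := hτ (by rw [h, map_zero])
    exact hu (by rwa [C_eq_zero] at h5)
  have hNord : (Γ (z ^ N * u)).order = ((N : ℕ) : ℕ∞) := by
    rw [map_mul, map_pow, PowerSeries.order_mul, PowerSeries.order_pow, hzord, huord u hu]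
    simp
  -- the jets
  let c : σ → Fin m → FF κ (σ × Fin m) := fun i j =>
    τ (PowerSeries.coeff (j.val + 1) (γ (x i)))
  have hjet : ∀ i, (PowerSeries.X : PowerSeries (FF κ (σ × Fin m))) ^ (m + 1) ∣
      jetS c i - Γ (x i) := by
    intro i
    rw [PowerSeries.X_pow_dvd_iff]
    intro n hn
    rw [map_sub, sub_eq_zero, hΓ]
    unfold jetS
    rw [map_sum]
    simp only [PowerSeries.coeff_C_mul_X_pow]
    rcases Nat.eq_zero_or_pos n with rfl | hn0
    · rw [h2, hx, C_0, map_zero]
      refine Finset.sum_eq_zero fun j _ => ?_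
      rw [if_neg (by omega)]
    · rw [Finset.sum_eq_single (⟨n - 1, by omega⟩ : Fin m)]
      · rw [if_pos (by simp only; omega)]
        show τ (PowerSeries.coeff (n - 1 + 1) (γ (x i))) = _
        rw [Nat.sub_add_cancel hn0]
      · intro j _ hj
        rw [if_neg]
        intro h
        apply hj
        apply Fin.ext
        simp only
        omega
      · intro h
        exact absurd (Finset.mem_univ _) h
  -- the matrix H
  choose w hw using fun i => hker (x i) (hx i)
  obtain ⟨g, hg⟩ := hdvd0 z hz0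
  have hddx : ∀ i b, b ≠ i₀ → dd b (x i) = z * dd b (w i) := by
    intro i b hb
    rw [hw i, (dd b).leibniz, hz, if_neg hb, smul_zero, add_zero, smul_eq_mul]
  let H : Matrix σ σ (PowerSeries (FF κ (σ × Fin m))) := Matrix.of fun i b =>
    if b = i₀ then Γ (dd b (x i)) else g * Γ (dd b (w i))
  have hH : ∀ i b, Γ (dd b (x i)) = (if b = i₀ then 1 else PowerSeries.X) * H i b := by
    intro i b
    by_cases hb : b = i₀
    · rw [if_pos hb, one_mul]
      show _ = if b = i₀ then _ else _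
      rw [if_pos hb]
    · rw [if_neg hb, hddx i b hb, map_mul, hg]
      show _ = _ * (if b = i₀ then _ else _)
      rw [if_neg hb, mul_assoc]
  have hprod : (∏ b : σ, (if b = i₀ then (1 : PowerSeries (FF κ (σ × Fin m)))
      else PowerSeries.X)) = PowerSeries.X ^ (Fintype.card σ - 1) := by
    rw [← Finset.mul_prod_erase Finset.univ _ (Finset.mem_univ i₀), if_pos rfl, one_mul,
      Finset.prod_congr rfl fun b hb => if_neg (Finset.ne_of_mem_erase hb), Finset.prod_const,
      Finset.card_erase_of_mem (Finset.mem_univ i₀), Finset.card_univ]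
  have hdet : Γ (z ^ N * u) = PowerSeries.X ^ (Fintype.card σ - 1) * H.det := by
    rw [← hjac, AlgHom.map_det, ← Matrix.det_transpose, ← hprod, ← Matrix.det_mul_row]
    congr 1
    ext1 i b
    exact hH i b
  have hord : ((Fintype.card σ - 1 : ℕ) : ℕ∞) + H.det.order = ((N : ℕ) : ℕ∞) := by
    rw [← hNord, hdet, PowerSeries.order_mul, PowerSeries.order_X_pow]
  have hHne : H.det ≠ 0 := by
    intro h
    rw [h, PowerSeries.order_zero, add_top] at hord
    exact ENat.top_ne_natCast _ hord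
  obtain ⟨μ, hμ⟩ : ∃ μ : ℕ, H.det.order = (μ : ℕ∞) := by
    have : H.det.order ≠ ⊤ := by rwa [Ne, PowerSeries.order_eq_top]
    exact ⟨_, (ENat.natCast_toNat this).symm⟩
  have hμN : Fintype.card σ - 1 + μ = N := by
    rw [hμ] at hord
    exact_mod_cast hord
  have hcard : 1 ≤ Fintype.card σ := Fintype.card_pos_iff.2 ⟨i₀⟩
  obtain ⟨T, hT, hTind⟩ := arc_rank H hHne μ hμ m
  refine ⟨FF κ (σ × Fin m), inferInstance, inferInstance, c, ?_, ⟨T, ?_, ?_⟩, ?_⟩
  · intro f r hr hrm
    obtain ⟨v, hv⟩ := hr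
    have h5 : aeval (fun i => Γ (x i)) f = Γ (aeval x f) := by
      rw [← AlgHom.comp_apply, MvPolynomial.comp_aeval]
    have h6 : (PowerSeries.X : PowerSeries (FF κ (σ × Fin m))) ^ r ∣
        aeval (fun i => Γ (x i)) f := by
      rw [h5, hv, map_mul, map_pow, hg, mul_pow]
      exact Dvd.intro _ (mul_assoc _ _ _).symm
    have h7 := ArcP1_congr (k := k) (jetS c) (fun i => Γ (x i)) (m + 1) hjet f
    have h8 := (pow_dvd_pow (PowerSeries.X : PowerSeries (FF κ (σ × Fin m))) hrm).trans h7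
    have h9 := dvd_add h8 h6
    rwa [sub_add_cancel] at h9
  · have : Fintype.card σ * (m + 1) = Fintype.card σ * m + Fintype.card σ := by ring
    omega
  · refine arc_jac _ Set.univ fun a ha => ?_
    let a' : σ × Fin m → FF κ (σ × Fin m) := fun t => if ht : t ∈ T then a ⟨t, ht⟩ else 0
    have ha'0 : ∀ t, t ∉ T → a' t = 0 := fun t ht => dif_neg ht
    have ha'1 : ∀ t : T, a' t.1 = a t := fun t => dif_pos t.2
    have hsum : ∀ F : σ × Fin m → FF κ (σ × Fin m),
        ∑ t, a' t * F t = ∑ t : T, a t * F t.1 := by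
      intro F
      rw [← Finset.sum_subset (Finset.subset_univ T) fun t _ ht => by rw [ha'0 t ht, zero_mul],
        ← Finset.sum_coe_sort T]
      exact Finset.sum_congr rfl fun t _ => by rw [ha'1]
    have hD : ∀ (b : σ) (l : Fin m), ∃ D : Derivation k (FF κ (σ × Fin m)) (FF κ (σ × Fin m)),
        ∀ t : σ × Fin m, D (c t.1 t.2) =
          PowerSeries.coeff t.2.val ((PowerSeries.X : PowerSeries (FF κ (σ × Fin m))) ^ l.val *
            H t.1 b) := by
      intro b l
      obtain ⟨Dz, hDz⟩ := exists_zDer (k := k) (L := κ) (σ := σ × Fin m)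
      have hval : ∀ (l : Fin m) (t : σ × Fin m), Dz (b, l) (c t.1 t.2) =
          PowerSeries.coeff t.2.val ((PowerSeries.X : PowerSeries (FF κ (σ × Fin m))) ^ l.val *
            Γ (dd b (x t.1))) := by
        intro l t
        have h5 : c t.1 t.2 = toFF κ (σ × Fin m)
          (PowerSeries.coeff (t.2.val + 1) (γ (x t.1))) := rfl
        rw [h5, (hDz (b, l)).1, h3, PowerSeries.coeff_X_pow_mul', hτF]
        by_cases h6 : l.val ≤ t.2.val
        · rw [if_pos (by omega), if_pos h6, hΓ, Nat.add_sub_add_right]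
        · rw [if_neg (by omega), if_neg h6, map_zero]
      by_cases hb : b = i₀
      · refine ⟨Dz (b, l), fun t => ?_⟩
        rw [hval, hH, if_pos hb, one_mul]
      · rcases Nat.eq_zero_or_pos l.val with hl | hl
        · obtain ⟨δ, hδ⟩ := ArcP1_der res hres (dd b) (by
            intro f hf
            obtain ⟨v, rfl⟩ := hker f hf
            rw [(dd b).leibniz, hz, if_neg hb, smul_zero, add_zero, smul_eq_mul, map_mul, hz0,
              zero_mul])
          obtain ⟨D, hD1, _⟩ := exists_extDer (σ := σ × Fin m) δ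
          refine ⟨D, fun t => ?_⟩
          obtain ⟨q, hq1, hq2⟩ := hD1 (PowerSeries.coeff (t.2.val + 1) (γ (x t.1)))
          have hq3 : q = PowerSeries.coeff (t.2.val + 1) (γ (dd b (x t.1))) := by
            ext e
            rw [hq1, h4 b δ hδ]
          have h5 : c t.1 t.2 = toFF κ (σ × Fin m)
            (PowerSeries.coeff (t.2.val + 1) (γ (x t.1))) := rfl
          rw [h5, hq2, hq3, hτF, ← hΓ, hH, if_neg hb, PowerSeries.coeff_succ_X_mul, hl, pow_zero,
            one_mul]
        · refine ⟨Dz (b, ⟨l.val - 1, by omega⟩), fun t => ?_⟩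
          rw [hval, hH, if_neg hb, ← mul_assoc, ← pow_succ]
          simp only
          rw [Nat.sub_add_cancel hl]
    have ha' : a' = 0 := by
      refine hTind a' ha'0 fun b l => ?_
      obtain ⟨D, hD⟩ := hD b l
      rw [hsum, ← ha D (Set.mem_univ _)]
      exact Finset.sum_congr rfl fun t _ => by rw [hD]
    funext t
    rw [← ha'1, ha']
    rfl
  · intro F hF
    let p : σ × Fin m → MvPolynomial (σ × Fin m) κ := fun t =>
      PowerSeries.coeff (t.2.val + 1) (γ (x t.1))
    have h5 : aeval (fun t : σ × Fin m => c t.1 t.2) F = τ (aeval p F) := by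
      rw [← AlgHom.comp_apply, MvPolynomial.comp_aeval]
    have h6 : aeval p F = 0 := hτ (by rw [← h5, hF, map_zero])
    have h7 := congrArg (constantCoeff : MvPolynomial (σ × Fin m) κ →+* κ) h6
    have h8 : ∀ t, (constantCoeff : MvPolynomial (σ × Fin m) κ →+* κ) (p t) = 0 := by
      intro t
      have := h1 (x t.1) (t.2.val + 1)
      rw [if_neg (Nat.succ_ne_zero _)] at this
      exact this
    rw [map_zero, map_aeval] at h7
    simp only [h8] at h7
    rw [eval₂Hom_zero'_apply, RingHom.comp_apply, MvPolynomial.algebraMap_apply,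
      constantCoeff_C] at h7
    exact (map_eq_zero _).1 h7

theorem exists_jet {k : Type u} [Field k] [CharZero k] {σ : Type} [Fintype σ]
    [DecidableEq σ] [Nonempty σ] (E : DivisorOver k σ) (hE : E.CenterZero) (A : ℕ)
    (hA : E.logDisc ≤ (((A : ℕ) : ℝ) : EReal)) (m : ℕ) (hm : 1 ≤ m) :
    ∃ (L : Type u) (_ : Field L) (_ : Algebra k L) (c : σ → Fin m → L),
      (∀ f : MvPolynomial σ k, f ≠ 0 → ∀ r : ℕ, (r : ℤ) ≤ E.ord (toFF k σ f) → r ≤ m + 1 →
        (PowerSeries.X : PowerSeries L) ^ r ∣ aeval (jetS c) f) ∧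
      (∃ T : Finset (σ × Fin m), Fintype.card σ * (m + 1) ≤ T.card + A ∧
        AlgebraicIndependent k (fun t : T => c t.1.1 t.1.2)) ∧
      ∀ F : MvPolynomial (σ × Fin m) k, aeval (fun t : σ × Fin m => c t.1 t.2) F = 0 →
        constantCoeff F = 0 := by
  obtain ⟨i₀, z, dd, hz0, hz1, hz2, hint, hdual, hcomm, hjac, hA'⟩ := exists_dualE E A hA
  obtain ⟨O, hO, κ, _, _, res, hres, hker⟩ := exists_vr E.toOrdFn
  have hge : ∀ b f, E.ge 0 f → E.ge 0 (dd b f) := by
    intro b f hf
    rcases hf with rfl | hf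
    · rw [map_zero]
      exact E.ge_zero 0
    · by_cases hf0 : f = 0
      · rw [hf0, map_zero]
        exact E.ge_zero 0
      · exact hint b f hf0 hf
  let dd' : σ → Derivation k O O := fun b => Derivation.mk'
    { toFun := fun f => ⟨dd b f, (hO _).2 (hge b _ ((hO _).1 f.2))⟩
      map_add' := fun f g => Subtype.ext (map_add (dd b) (f : FF k σ) g)
      map_smul' := fun c f => Subtype.ext ((dd b).map_smul c (f : FF k σ)) }
    fun f g => Subtype.ext ((dd b).leibniz (f : FF k σ) g)
  have hdd' : ∀ b (f : O), ((dd' b f : O) : FF k σ) = dd b f := fun b f => rfl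
  have hfac : ∀ (f : FF k σ) (N : ℕ), E.ge N f → ∃ v : O, f = z i₀ ^ N * v := by
    intro f N hf
    by_cases hf0 : f = 0
    · exact ⟨0, by rw [hf0]; simp⟩
    · have hf1 : (N : ℤ) ≤ E.ord f := hf.resolve_left hf0
      have h1 : E.ord (f / z i₀ ^ N) = E.ord f - N := by
        rw [E.ord_div hf0 (pow_ne_zero _ (hz0 i₀)), E.ord_pow (hz0 i₀), hz1, mul_one]
      refine ⟨⟨f / z i₀ ^ N, (hO _).2 (Or.inr (by rw [h1]; omega))⟩, ?_⟩
      show f = z i₀ ^ N * (f / z i₀ ^ N)
      rw [mul_div_cancel₀ _ (pow_ne_zero _ (hz0 i₀))]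
  let z' : O := ⟨z i₀, (hO _).2 (Or.inr (by rw [hz1]; norm_num))⟩
  let x : σ → O := fun i => ⟨xx k i, (hO _).2 (Or.inr (hE i).le)⟩
  have hker' : ∀ f : O, res f = 0 → ∃ v, f = z' * v := by
    intro f hf
    obtain ⟨v, hv⟩ := hfac f 1 ((hker f).1 hf)
    exact ⟨v, Subtype.ext (by rw [hv, pow_one]; rfl)⟩
  have hdet : (((Matrix.of fun i j => dd' i (x j)).det : O) : FF k σ) = DivisorOver.jac dd := by
    show O.val _ = _
    rw [AlgHom.map_det]
    rfl
  have hN0 : 0 ≤ E.ord (DivisorOver.jac dd) := by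
    have h1 : E.ge 0 (DivisorOver.jac dd) := by
      rw [← hdet]
      exact (hO _).1 (Subtype.mem _)
    exact h1.resolve_left hjac
  obtain ⟨N, hN⟩ := Int.eq_ofNat_of_zero_le hN0
  obtain ⟨u, hu⟩ := hfac (DivisorOver.jac dd) N (Or.inr hN.symm.le)
  have hu0 : (u : FF k σ) ≠ 0 := by
    intro h
    rw [h, mul_zero] at hu
    exact hjac hu
  have hu1 : res u ≠ 0 := by
    intro h
    have h1 : (1 : ℤ) ≤ E.ord (u : FF k σ) := ((hker u).1 h).resolve_left hu0
    have h2 : E.ord (DivisorOver.jac dd) = N + E.ord (u : FF k σ) := by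
      rw [hu, E.ord_mul (pow_ne_zero _ (hz0 i₀)) hu0, E.ord_pow (hz0 i₀), hz1, mul_one]
    omega
  obtain ⟨L, _, _, c, hc1, hc2, hc3⟩ := ArcP1_core res hres dd'
    (fun a b f => Subtype.ext (hcomm a b f)) i₀ z'
    ((hker z').2 (Or.inr (by show 1 ≤ E.ord (z i₀); rw [hz1])))
    (fun b => Subtype.ext (by
      rw [hdd']
      show dd b (z i₀) = _
      rw [hdual]
      by_cases hb : b = i₀
      · rw [if_pos hb, if_pos hb]; rfl
      · rw [if_neg hb, if_neg hb]; rfl)) hker' x
    (fun i => (hker (x i)).2 (Or.inr (hE i))) N u hu1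
    (Subtype.ext (by rw [hdet, hu]; rfl)) A (by omega) m hm
  refine ⟨L, inferInstance, inferInstance, c, ?_, hc2, hc3⟩
  intro f hf r hr hrm
  refine hc1 f r ?_ hrm
  obtain ⟨v, hv⟩ := hfac (toFF k σ f) r (Or.inr hr)
  refine ⟨v, Subtype.ext ?_⟩
  have h1 : O.val (aeval x f) = toFF k σ f := by
    rw [← AlgHom.comp_apply, MvPolynomial.comp_aeval]
    have h2 : toFF k σ = aeval (fun i => O.val (x i)) := by
      rw [MvPolynomial.aeval_unique (toFF k σ)]
      rfl
    rw [h2]
  show O.val (aeval x f) = _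
  rw [h1, hv]
  rfl

end MLD
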