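import Mathlib

/-!
PIECE MLD-R22: `s - 1` variables are independent modulo a nonconstant polynomial.

PROOF. `p` is not a constant, so some variable `j` occurs in `p` (`MvPolynomial.vars`, `degreeOf j p > 0`). The
other variables: `y' : Fin (s - 1) → Fin s` injective, avoiding `j` (for `s = 0` there are no nonconstant
polynomials; for `s = s' + 1` use `Fin.succAbove j`). If `P ≠ 0` and `p ∣ rename y' P` then, comparing degrees in
`X j` (`MvPolynomial.degreeOf_mul_eq` for domains, or `degreeOf` via `MvPolynomial.finSuccEquiv`/`optionEquivLeft`),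
`0 = degreeOf j (rename y' P) ≥ degreeOf j p > 0` as `rename y' P ≠ 0`.
-/

namespace MLD

universe u

theorem arc_rem {k : Type u} [Field k] {s : ℕ} (p : MvPolynomial (Fin s) k) (hp0 : p ≠ 0)
    (hp : ¬ IsUnit p) :
    ∃ y' : Fin (s - 1) → Fin s, ∀ P : MvPolynomial (Fin (s - 1)) k, P ≠ 0 →
      ¬ p ∣ MvPolynomial.rename y' P := by
  classical
  have hv : p.vars.Nonempty := by
    rw [Finset.nonempty_iff_ne_empty]
    intro h
    rw [MvPolynomial.vars_eq_empty_iff_eq_C] at h
    apply hp
    have h1 : p.coeff 0 ≠ 0 := by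
      intro h2
      rw [h2, MvPolynomial.C_0] at h
      exact hp0 h
    rw [h]
    exact (isUnit_iff_ne_zero.mpr h1).map MvPolynomial.C
  obtain ⟨j, hj⟩ := hv
  cases s with
  | zero => exact j.elim0
  | succ n =>
    refine ⟨j.succAbove, fun P hP hdvd => ?_⟩
    obtain ⟨q, hq⟩ := hdvd
    have hinj : Function.Injective (j.succAbove : Fin n → Fin (n + 1)) :=
      Fin.succAbove_right_injective
    have hr : MvPolynomial.rename j.succAbove P ≠ 0 := by
      intro h
      exact hP (MvPolynomial.rename_injective _ hinj (by rw [h, map_zero]))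
    have hq0 : q ≠ 0 := by
      rintro rfl
      rw [mul_zero] at hq
      exact hr hq
    have h1 := MvPolynomial.degreeOf_mul_eq (n := j) hp0 hq0
    rw [← hq] at h1
    have h2 : MvPolynomial.degreeOf j (MvPolynomial.rename j.succAbove P) = 0 := by
      by_contra hc
      rw [← ne_eq, ← MvPolynomial.mem_vars_iff_degreeOf_ne_zero] at hc
      obtain ⟨i, _, hi⟩ := MvPolynomial.mem_vars_rename _ _ hc
      exact Fin.succAbove_ne j i hi
    have h3 := MvPolynomial.mem_vars_iff_degreeOf_ne_zero.mp hj
    omega

end MLD
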