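import Pool.Agent.MLD.ArcIT
import Pool.Agent.MLD.ArcAbh

/-!
PIECE MLD-R08: the residue field is large if there are many integral derivations.

PROOF. Let `S := {d | ∃ y : Fin d → K, RAI (v.comap ι) y}`. `0 ∈ S` (a nonzero polynomial in no variables is a
nonzero constant). If `n - 1 ∉ S` there is `d < n - 1` with `d ∈ S`, `d + 1 ∉ S` (`Nat.find` of the complement).
Let `y : Fin d → K` be residually independent. `resAlg_of_not_rai` gives `hmax` of `arc_it`.
Let `π` be an element with the smallest positive `v.comap ι`-order (`hpos`, well-ordering of positive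
integers). Consider the `d + 1 < n` linear equations
`∑ i, a i * D i (ι (y b)) = 0` (`b : Fin d`), `∑ i, a i * D i (ι π) = 0` in the `n` unknowns `a i ∈ W`: there
is a solution `a ≠ 0` (`Matrix.exists_mulVec_eq_zero_iff`, or
`LinearMap.exists_ne_zero... finrank`: `Module.exists_ne_zero_of_finrank_lt`...).
Put `D' := ∑ i, a i • D i : Derivation k W W`. For `f` with `0 ≤ ord`, `D' (ι f)` has order `≥ C :=`
the minimum of the orders of the nonzero `a i` (`hD`). `D' (ι π) = 0`, `D' (ι (y b)) = 0`, so by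
`arc_it` `v.ge M (D' (ι f))` for every `M : ℤ`, so `D' (ι f) = 0` for all `f ≠ 0` with
order `≥ 0`; if the order of `f` is negative apply this to `f⁻¹` (`D' (ι f)⁻¹`: `Derivation.leibniz_inv`).
So `∑ i, a i * D i (ι f) = 0` for all `f`, and `hli` gives `a = 0`: contradiction.
-/

open MvPolynomial

namespace MLD

universe u

private theorem rai_zero {k K : Type*} [Field k] [Field K] [Algebra k K] (v : OrdFn k K)
    (y : Fin 0 → K) : RAI v y := by
  intro P hP
  obtain ⟨c, rfl⟩ := MvPolynomial.C_surjective (Fin 0) P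
  have hc : c ≠ 0 := fun h => hP (by rw [h, map_zero])
  rw [aeval_C]
  exact ⟨(map_ne_zero _).2 hc, v.ord_const' c hc⟩

private theorem sum_der {k W : Type*} [Field k] [Field W] [Algebra k W] {n : ℕ} (a : Fin n → W)
    (D : Fin n → Derivation k W W) (w : W) :
    (∑ i, a i • D i : Derivation k W W) w = ∑ i, a i * D i w := by
  classical
  have key : ∀ s : Finset (Fin n),
      (∑ i ∈ s, a i • D i : Derivation k W W) w = ∑ i ∈ s, a i * D i w := by
    intro s
    induction s using Finset.induction_on with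
    | empty => simp
    | insert i s hi ih =>
      rw [Finset.sum_insert hi, Finset.sum_insert hi, Derivation.add_apply, ih]
      rfl
  exact key _

theorem arc_res {k : Type u} [Field k] [CharZero k] {K W : Type u} [Field K] [Algebra k K]
    [Field W] [Algebra k W] (v : OrdFn k W) (ι : K →ₐ[k] W) {n : ℕ}
    (D : Fin n → Derivation k W W) (hD : ∀ i f, f ≠ 0 → v.ge (v.ord f) (D i f))
    (hli : ∀ a : Fin n → W, (∀ f : K, ∑ i, a i * D i (ι f) = 0) → a = 0)
    (hpos : ∃ f : K, f ≠ 0 ∧ 0 < (v.comap ι).ord f) :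
    ∃ y : Fin (n - 1) → K, RAI (v.comap ι) y := by
  classical
  by_contra hno
  -- the largest number of residually independent elements
  have hex : ∃ m : ℕ, ¬ ∃ y : Fin m → K, RAI (v.comap ι) y := ⟨_, hno⟩
  obtain ⟨m, hm⟩ : ∃ m : ℕ, m = Nat.find hex := ⟨_, rfl⟩
  have h1 : ¬ ∃ y : Fin m → K, RAI (v.comap ι) y := hm ▸ Nat.find_spec hex
  have h2 : ∀ j < m, ∃ y : Fin j → K, RAI (v.comap ι) y := by
    intro j hj
    have := Nat.find_min hex (m := j) (hm ▸ hj)
    exact not_not.1 this
  have h3 : m ≤ n - 1 := hm ▸ Nat.find_min' hex hno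
  obtain _ | d := m
  · exact h1 ⟨Fin.elim0, rai_zero _ _⟩
  obtain ⟨y, hy⟩ := h2 d (Nat.lt_succ_self d)
  have hmax : ∀ f : K, f ≠ 0 → 0 ≤ (v.comap ι).ord f → ResAlg (v.comap ι) y f :=
    fun f hf hf0 => resAlg_of_not_rai (v.comap ι) y hy h1 f hf hf0
  -- a uniformizer
  have hex2 : ∃ g : ℕ, ∃ f : K, f ≠ 0 ∧ 0 < (v.comap ι).ord f ∧ (v.comap ι).ord f = g := by
    obtain ⟨f, hf, hf0⟩ := hpos
    exact ⟨((v.comap ι).ord f).toNat, f, hf, hf0, (Int.toNat_of_nonneg hf0.le).symm⟩
  obtain ⟨π, hπ, hπ0, hπg⟩ := Nat.find_spec hex2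
  have hmin : ∀ f : K, f ≠ 0 → 0 < (v.comap ι).ord f →
      (v.comap ι).ord π ≤ (v.comap ι).ord f := by
    intro f hf hf0
    have h4 := Nat.find_min' hex2 (m := ((v.comap ι).ord f).toNat)
      ⟨f, hf, hf0, (Int.toNat_of_nonneg hf0.le).symm⟩
    rw [hπg]
    omega
  -- the equations
  let c : Fin (d + 1) → K := Fin.cons π y
  let A : Matrix (Fin (d + 1)) (Fin n) W := Matrix.of fun b i => D i (ι (c b))
  have hker : LinearMap.ker A.mulVecLin ≠ ⊥ := by
    apply LinearMap.ker_ne_bot_of_finrank_lt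
    rw [Module.finrank_fin_fun, Module.finrank_fin_fun]
    omega
  obtain ⟨a, ha, ha0⟩ := Submodule.exists_mem_ne_zero_of_ne_bot hker
  have hA : ∀ b, ∑ i, a i * D i (ι (c b)) = 0 := by
    intro b
    have h5 := congrFun (LinearMap.mem_ker.1 ha) b
    have h6 : (A.mulVecLin a) b = ∑ i, D i (ι (c b)) * a i := rfl
    rw [h6] at h5
    refine Eq.trans ?_ h5
    exact Finset.sum_congr rfl fun i _ => mul_comm _ _
  -- the derivation
  obtain ⟨D', hD'⟩ : ∃ D' : Derivation k W W, ∀ w, D' w = ∑ i, a i * D i w :=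
    ⟨∑ i, a i • D i, sum_der a D⟩
  have hca : ∀ i, v.ge (-∑ i, |v.ord (a i)|) (a i) := by
    intro i
    right
    have h7 : |v.ord (a i)| ≤ ∑ i, |v.ord (a i)| :=
      Finset.single_le_sum (f := fun i => |v.ord (a i)|) (fun j _ => abs_nonneg _)
        (Finset.mem_univ i)
    have h8 := neg_abs_le (v.ord (a i))
    linarith
  have hC : ∀ f : K, f ≠ 0 → 0 ≤ (v.comap ι).ord f →
      v.ge (-∑ i, |v.ord (a i)|) (D' (ι f)) := by
    intro f hf hf0
    rw [hD']
    refine v.ge_sum _ _ fun i _ => ?_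
    have h9 := hD i (ι f) ((map_ne_zero ι).2 hf)
    have h10 := v.ge_mul (hca i) (v.ge_mono hf0 h9)
    rwa [add_zero] at h10
  have hz : ∀ f : K, f ≠ 0 → 0 ≤ (v.comap ι).ord f → D' (ι f) = 0 := by
    intro f hf hf0
    have h11 := arc_it v ι D' y π hπ hπ0 hmin hy hmax (-∑ i, |v.ord (a i)|)
      (v.ord (D' (ι f)) + 1) hC
      (by
        have := hA 0
        rw [← hD'] at this
        rw [show ι π = ι (c 0) from rfl, this]
        exact v.ge_zero _)
      (by
        intro b
        have := hA b.succ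
        rw [← hD'] at this
        rw [show ι (y b) = ι (c b.succ) from rfl, this]
        exact v.ge_zero _) f hf hf0
    rcases h11 with h | h
    · exact h
    · omega
  have hz' : ∀ f : K, D' (ι f) = 0 := by
    intro f
    by_cases hf : f = 0
    · rw [hf, map_zero, map_zero]
    · rcases le_total 0 ((v.comap ι).ord f) with h | h
      · exact hz f hf h
      · have h12 := hz f⁻¹ (inv_ne_zero hf) (by rw [OrdFn.ord_inv _ f hf]; omega)
        have h13 : ι f = (ι f⁻¹)⁻¹ := by rw [map_inv₀, inv_inv]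
        rw [h13, Derivation.leibniz_inv, h12, smul_zero]
  exact ha0 (hli a fun f => by rw [← hD']; exact hz' f)

end MLD
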