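import Mathlib

/-!
PIECE MLD-R15: Taylor expansion along commuting derivations.

PROOF. Let `P : MvPolynomial I k →ₐ[k] Module.End k O` be the algebra homomorphism with `P (X a) = D a`
(the `D a` commute: use `Algebra.adjoin k (Set.range fun a => (D a : Module.End k O))` which is commutative,
`Algebra.adjoinCommRingOfComm`, `MvPolynomial.aeval` into it). Write `D^m := P (monomial m 1)`; so
`D^(m + single a 1) = D^m ∘ D a`. Put `Θ f := fun m => (1 / m!) • D^m f` with `m! := ∏ a, (m a)!`
(`k` has characteristic zero, `O` is a `k`-algebra). Then `(m a + 1) • coeff (m + single a 1) (Θ f) =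
coeff m (Θ (D a f))` (*), `constantCoeff (Θ f) = f`, `Θ` is additive and `k`-linear, `Θ (algebraMap c)` is the
constant series.
MULTIPLICATIVITY: let `h f g := Θ (f g) - Θ f * Θ g`. For series write `pd a F` for the series with
coefficients `(m a + 1) • coeff (m + single a 1) F` (partial derivative, satisfies the Leibniz rule; or check
coefficientwise with `MvPowerSeries.coeff_mul`). By (*) `pd a (Θ f) = Θ (D a f)`, so
`pd a (h f g) = h (D a f) g + h f (D a g)`. By induction on the degree of `m`, for all `f, g`, `coeff m (h f g)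
= 0`: `m = 0` clear; `m = m' + single a 1`: `(m' a + 1) • coeff m (h f g) = coeff m' (h (D a f) g) +
coeff m' (h f (D a g)) = 0` and `m' a + 1` is invertible in `k`.
(There may be a Leibniz rule for `MvPowerSeries` derivatives in `Pool/Agent/MLD/PsDer.lean`:
`pderivPS`/`exists_pderivPF`; or prove the Leibniz rule by hand through antidiagonals.)
-/

namespace MLD

universe u

private theorem ArcTaylor_pow {k O : Type u} [Field k] [CommRing O] [Algebra k O] {I : Type}
    (D : I → Derivation k O O) (hcomm : ∀ a b f, D a (D b f) = D b (D a f)) :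
    ∃ T : (I →₀ ℕ) → (O →ₗ[k] O), (∀ f, T 0 f = f) ∧
      ∀ m a f, T (m + Finsupp.single a 1) f = T m (D a f) := by
  classical
  have hc : ∀ x ∈ Set.range (fun a => ((D a : O →ₗ[k] O) : Module.End k O)),
      ∀ y ∈ Set.range (fun a => ((D a : O →ₗ[k] O) : Module.End k O)), x * y = y * x := by
    rintro _ ⟨a, rfl⟩ _ ⟨b, rfl⟩
    exact LinearMap.ext fun f => hcomm a b f
  letI := Algebra.adjoinCommRingOfComm k hc
  let P : MvPolynomial I k →ₐ[k] Module.End k O :=
    (Algebra.adjoin k (Set.range (fun a => ((D a : O →ₗ[k] O) : Module.End k O)))).val.comp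
      (MvPolynomial.aeval fun a => (⟨(D a : O →ₗ[k] O), Algebra.subset_adjoin ⟨a, rfl⟩⟩ :
        Algebra.adjoin k (Set.range (fun a => ((D a : O →ₗ[k] O) : Module.End k O)))))
  have hP : ∀ a, P (MvPolynomial.X a) = (D a : O →ₗ[k] O) := by
    intro a
    simp [P]
  refine ⟨fun m => P (MvPolynomial.monomial m 1), ?_, ?_⟩
  · intro f
    show P (MvPolynomial.monomial 0 1) f = f
    have h1 : (MvPolynomial.monomial (0 : I →₀ ℕ) (1 : k)) = 1 := rfl
    rw [h1, map_one]
    rfl
  · intro m a f
    show P (MvPolynomial.monomial (m + Finsupp.single a 1) 1) f =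
      P (MvPolynomial.monomial m 1) (D a f)
    rw [MvPolynomial.monomial_add_single, pow_one, map_mul, hP]
    rfl

private theorem ArcTaylor_split {I : Type} [DecidableEq I] (m : I →₀ ℕ) (hm : m ≠ 0) :
    ∃ m' a, m = m' + Finsupp.single a 1 ∧ m'.degree + 1 = m.degree := by
  obtain ⟨a, ha⟩ : ∃ a, m a ≠ 0 := by
    by_contra h
    push Not at h
    exact hm (Finsupp.ext h)
  have h1 : m - Finsupp.single a 1 + Finsupp.single a 1 = m := by
    apply tsub_add_cancel_of_le
    rw [Finsupp.single_le_iff]
    exact Nat.one_le_iff_ne_zero.mpr ha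
  refine ⟨m - Finsupp.single a 1, a, h1.symm, ?_⟩
  conv_rhs => rw [← h1]
  rw [map_add, Finsupp.degree_single]

theorem arc_taylor {k O : Type u} [Field k] [CharZero k] [CommRing O] [Algebra k O] {I : Type}
    [Fintype I] [DecidableEq I] (D : I → Derivation k O O)
    (hcomm : ∀ a b f, D a (D b f) = D b (D a f)) :
    ∃ Θ : O →ₐ[k] MvPowerSeries I O, (∀ f, MvPowerSeries.constantCoeff (Θ f) = f) ∧
      ∀ (f : O) (a : I) (m : I →₀ ℕ),
        ((m a : O) + 1) * MvPowerSeries.coeff (m + Finsupp.single a 1) (Θ f) =
          MvPowerSeries.coeff m (Θ (D a f)) := by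
  obtain ⟨T, hT0, hT1⟩ := ArcTaylor_pow D hcomm
  have hw0 : ∀ n : ℕ, ((n.factorial : ℕ) : k) ≠ 0 := fun n =>
    Nat.cast_ne_zero.mpr (Nat.factorial_ne_zero n)
  obtain ⟨w, hw1, hw2⟩ : ∃ w : (I →₀ ℕ) → k, w 0 = 1 ∧
      ∀ m a, ((m a : k) + 1) * w (m + Finsupp.single a 1) = w m := by
    refine ⟨fun m => (∏ a, (((m a).factorial : ℕ) : k))⁻¹, ?_, ?_⟩
    · simp
    · intro m a
      have e1 : (∏ b, ((((m + Finsupp.single a 1 : I →₀ ℕ) b).factorial : ℕ) : k)) =
          ((m a : k) + 1) * ∏ b, (((m b).factorial : ℕ) : k) := by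
        rw [← Finset.mul_prod_erase Finset.univ _ (Finset.mem_univ a),
          ← Finset.mul_prod_erase Finset.univ (fun b => (((m b).factorial : ℕ) : k))
            (Finset.mem_univ a), ← mul_assoc]
        congr 1
        · rw [Finsupp.add_apply, Finsupp.single_eq_same, Nat.factorial_succ, Nat.cast_mul]
          push_cast
          rfl
        · apply Finset.prod_congr rfl
          intro b hb
          rw [Finsupp.add_apply, Finsupp.single_eq_of_ne (Finset.ne_of_mem_erase hb), add_zero]
      show ((m a : k) + 1) * (∏ b, ((((m + Finsupp.single a 1 : I →₀ ℕ) b).factorial : ℕ) : k))⁻¹ =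
        (∏ b, (((m b).factorial : ℕ) : k))⁻¹
      rw [e1, mul_inv, ← mul_assoc, mul_inv_cancel₀, one_mul]
      exact Nat.cast_add_one_ne_zero (m a)
  let L : O →ₗ[k] MvPowerSeries I O :=
    { toFun := fun f => fun m => w m • T m f
      map_add' := by
        intro f g
        funext m
        show w m • T m (f + g) = w m • T m f + w m • T m g
        rw [map_add, smul_add]
      map_smul' := by
        intro c f
        funext m
        show w m • T m (c • f) = c • (w m • T m f)
        rw [map_smul, smul_comm] }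
  have hL : ∀ f m, MvPowerSeries.coeff m (L f) = w m • T m f := fun f m => rfl
  have hL0 : ∀ f, MvPowerSeries.coeff 0 (L f) = f := by
    intro f
    rw [hL, hw1, one_smul, hT0]
  have hL1 : ∀ (f : O) (a : I) (m : I →₀ ℕ),
      ((m a : O) + 1) * MvPowerSeries.coeff (m + Finsupp.single a 1) (L f) =
        MvPowerSeries.coeff m (L (D a f)) := by
    intro f a m
    rw [hL, hL, hT1]
    have e1 : ((m a : O) + 1) = algebraMap k O ((m a : k) + 1) := by
      rw [map_add, map_natCast, map_one]
    rw [e1, ← Algebra.smul_def, smul_smul, hw2]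
  have hpd : ∀ a f, MvPowerSeries.pderiv O a (L f) = L (D a f) := by
    intro a f
    apply MvPowerSeries.ext
    intro m
    rw [MvPowerSeries.coeff_pderiv, mul_comm, hL1]
  have hun : ∀ n : ℕ, IsUnit ((n : O) + 1) := by
    intro n
    have h1 : ((n : O) + 1) = algebraMap k O ((n : k) + 1) := by
      rw [map_add, map_natCast, map_one]
    rw [h1]
    exact (IsUnit.mk0 _ (Nat.cast_add_one_ne_zero n)).map (algebraMap k O)
  have hmul : ∀ n : ℕ, ∀ m : I →₀ ℕ, m.degree = n → ∀ f g,
      MvPowerSeries.coeff m (L (f * g) - L f * L g) = 0 := by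
    intro n
    induction n with
    | zero =>
      intro m hm f g
      have h0 : m = 0 := by
        by_contra h
        obtain ⟨m', a, h1, h2⟩ := ArcTaylor_split m h
        omega
      have hm2 : MvPowerSeries.coeff 0 (L f * L g) = f * g := by
        rw [MvPowerSeries.coeff_zero_eq_constantCoeff_apply, map_mul,
          ← MvPowerSeries.coeff_zero_eq_constantCoeff_apply,
          ← MvPowerSeries.coeff_zero_eq_constantCoeff_apply, hL0, hL0]
      rw [h0, map_sub, hm2, hL0, sub_self]
    | succ n ih =>
      intro m hm f g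
      have h0 : m ≠ 0 := by
        intro h
        rw [h, map_zero] at hm
        omega
      obtain ⟨m', a, h1, h2⟩ := ArcTaylor_split m h0
      have h3 : m'.degree = n := by omega
      have h4 : MvPowerSeries.pderiv O a (L (f * g) - L f * L g) =
          (L (f * D a g) - L f * L (D a g)) + (L (g * D a f) - L g * L (D a f)) := by
        rw [map_sub, hpd, Derivation.leibniz, Derivation.leibniz, hpd, hpd]
        simp only [smul_eq_mul, map_add]
        ring
      have h5 := congrArg (MvPowerSeries.coeff m') h4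
      rw [MvPowerSeries.coeff_pderiv, map_add, ih m' h3, ih m' h3, add_zero, ← h1] at h5
      exact (hun (m' a)).mul_left_eq_zero.mp h5
  have hone : L 1 = 1 := by
    apply MvPowerSeries.ext
    intro m
    by_cases h : m = 0
    · rw [h, hL0, MvPowerSeries.coeff_zero_one]
    · rw [MvPowerSeries.coeff_one, if_neg h]
      obtain ⟨m', a, h1, h2⟩ := ArcTaylor_split m h
      rw [hL, h1, hT1, Derivation.map_one_eq_zero, map_zero, smul_zero]
  refine ⟨AlgHom.ofLinearMap L hone ?_, ?_, ?_⟩
  · intro f g
    apply MvPowerSeries.ext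
    intro m
    have h := hmul _ m rfl f g
    rw [map_sub] at h
    exact sub_eq_zero.mp h
  · intro f
    rw [← MvPowerSeries.coeff_zero_eq_constantCoeff_apply]
    exact hL0 f
  · intro f a m
    exact hL1 f a m

end MLD
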