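import Pool.Agent.MLD.Defs

/-!
Block theory: sequences of polynomials along a nonprincipal ultrafilter, weighted orders,
birational substitutions, linear types, domination and realization.
-/

open MvPolynomial Filter

namespace MLD

universe u

/-- The ultrafilter used for all limits. -/
noncomputable abbrev UU : Ultrafilter ℕ := hyperfilter ℕ

section
variable {k : Type u} [Field k] {B : Type} {Λ : Type}

/-- The limit of the sequence of polynomials `F` is nonzero. -/
def LNZ (F : ℕ → MvPolynomial B k) : Prop := ∃ m : B →₀ ℕ, ∀ᶠ i in UU, coeff m (F i) ≠ 0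

/-- Weighted order of a polynomial (`⊤` for `0`). -/
noncomputable def wo (w : B → ℕ) (f : MvPolynomial B k) : ℕ∞ :=
  MvPowerSeries.weightedOrder w (f : MvPowerSeries B k)

/-- Jacobian determinant of a polynomial substitution. -/
noncomputable def jacP [Fintype B] [DecidableEq B] (p : B → MvPolynomial B k) :
    MvPolynomial B k := Matrix.det (Matrix.of fun i j : B => pderiv i (p j))

/-- The substitution `p` is birational (the `p b` are algebraically independent and the
variables are rational functions of them). -/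
def Bir (p : B → MvPolynomial B k) : Prop :=
  (∀ G : MvPolynomial B k, G ≠ 0 → aeval p G ≠ 0) ∧
    ∀ b, ∃ N D : MvPolynomial B k, aeval p D ≠ 0 ∧ X b * aeval p D = aeval p N

/-- A linear type: parameters `θ ≥ lo` in `ℕ^q`, a log discrepancy `A·θ` and values
`val l · θ`. -/
structure LinType (Λ : Type) where
  q : ℕ
  lo : Fin q → ℕ
  A : Fin q → ℕ
  val : Λ → Fin q → ℕ

/-- log discrepancy of a linear type -/
def LinType.aa (τ : LinType Λ) (θ : Fin τ.q → ℕ) : ℕ := ∑ c, τ.A c * θ c
/-- value of a linear type -/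
def LinType.vv (τ : LinType Λ) (l : Λ) (θ : Fin τ.q → ℕ) : ℕ := ∑ c, τ.val l c * θ c

/-- The valuation `v` with coordinates `x` is dominated by the linear type `τ` with
parameters `θ`. -/
def Dmd1 [Fintype B] [DecidableEq B] (τ : LinType Λ) (θ : Fin τ.q → ℕ)
    (T : Λ → MvPolynomial B k) (J : MvPolynomial B k)
    {K : Type u} [Field K] [Algebra k K] (v : OrdFn k K) (x : B → K) : Prop :=
  ∃ (g : B → K) (P : Matrix B B K), (∀ b, g b ≠ 0) ∧ P.det ≠ 0 ∧
    (∀ D : Derivation k K K, ∀ b, D (g b) = ∑ c, P b c * D (x c)) ∧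
    ((τ.aa θ : ℕ) : ℤ) ≤ ∑ b, v.ord (g b) - v.ord P.det + v.ord (aeval x J) ∧
    ∀ l, v.ord (aeval x (T l)) ≤ ((τ.vv l θ : ℕ) : ℤ)

/-- The valuation `v` with coordinates `x` is dominated by one of the linear types. -/
def Dmd [Fintype B] [DecidableEq B] {ι : Type} (τ : ι → LinType Λ)
    (T : Λ → MvPolynomial B k) (J : MvPolynomial B k)
    {K : Type u} [Field K] [Algebra k K] (v : OrdFn k K) (x : B → K) : Prop :=
  ∃ (t : ι) (θ : Fin (τ t).q → ℕ), (τ t).lo ≤ θ ∧ Dmd1 (τ t) θ T J v x

/-- `x` are algebraically independent and vanish at the centre of `v`. -/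
def Cen {K : Type u} [Field K] [Algebra k K] (v : OrdFn k K) (x : B → K) : Prop :=
  (∀ b, 0 < v.ord (x b)) ∧ ∀ G : MvPolynomial B k, G ≠ 0 → aeval x G ≠ 0

/-- Domination: every valuation centred at the origin of the chart is dominated by one of the
linear types. -/
def Dom [Fintype B] [DecidableEq B] {ι : Type} (τ : ι → LinType Λ) (T : Λ → MvPolynomial B k)
    (J : MvPolynomial B k) : Prop :=
  ∀ (K : Type u) [Field K] [Algebra k K] (v : OrdFn k K) (x : B → K), Cen v x → Dmd τ T J v x

/-- Realization of the linear type `τ` with parameters `θ`. -/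
def Rlz [Fintype B] [DecidableEq B] (τ : LinType Λ) (θ : Fin τ.q → ℕ)
    (T : Λ → MvPolynomial B k) (J : MvPolynomial B k) : Prop :=
  ∃ (p : B → MvPolynomial B k) (w : B → ℕ), Bir p ∧ (∀ b, 1 ≤ wo w (p b)) ∧
    ((∑ b, w b : ℕ) : ℕ∞) + wo w (jacP p) + wo w (aeval p J) ≤ (τ.aa θ : ℕ) ∧
    ∀ l, ((τ.vv l θ : ℕ) : ℕ∞) ≤ wo w (aeval p (T l))

/-- The sequences `T_l` (with Jacobian `J`) have finitely many linear types which dominate all
valuations and are realized. -/
def HasTypes [Fintype B] [DecidableEq B] (T : Λ → ℕ → MvPolynomial B k)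
    (J : ℕ → MvPolynomial B k) : Prop :=
  ∃ (ι : Type) (_ : Finite ι) (τ : ι → LinType Λ),
    (∀ᶠ i in UU, Dom τ (fun l => T l i) (J i)) ∧
      ∀ (t : ι) (θ : Fin (τ t).q → ℕ), (τ t).lo ≤ θ →
        ∀ᶠ i in UU, Rlz (τ t) θ (fun l => T l i) (J i)

end

/-- Block theorem for the class `𝓕` of polynomials in the variables `B`. -/
def BlockOK (k : Type u) [Field k] (B : Type) [Fintype B] [DecidableEq B]
    (𝓕 : Set (MvPolynomial B k)) : Prop :=
  ∀ (Λ : Type) [Finite Λ] (F : Λ → ℕ → MvPolynomial B k),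
    (∀ l i, F l i ∈ 𝓕) → (∀ l, LNZ (F l)) → HasTypes F (fun _ => 1)

end MLD
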