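import Pool.Agent.MLD.Ord

/-!
Strong domination: one of the functions `T l₀` may be used as a member of the dominating tuple.
-/

open MvPolynomial Filter

namespace MLD

universe u

section
variable {k : Type u} [Field k] {B : Type} {Λ : Type}

/-- domination with `T l₀` as a member of the tuple -/
def Dmd2 [Fintype B] [DecidableEq B] (τ : LinType Λ) (θ : Fin τ.q → ℕ)
    (T : Λ → MvPolynomial B k) (J : MvPolynomial B k) (l₀ : Λ)
    {K : Type u} [Field K] [Algebra k K] (v : OrdFn k K) (x : B → K) : Prop :=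
  ∃ (b₀ : B) (g : B → K) (P : Matrix B B K), g b₀ = aeval x (T l₀) ∧ (∀ b, g b ≠ 0) ∧
    P.det ≠ 0 ∧ (∀ D : Derivation k K K, ∀ b, D (g b) = ∑ c, P b c * D (x c)) ∧
    ((τ.aa θ : ℕ) : ℤ) ≤ (((τ.vv l₀ θ : ℕ) : ℤ) - v.ord (g b₀)) +
      ∑ b, v.ord (g b) - v.ord P.det + v.ord (aeval x J)

/-- strong domination by one of the linear types, for the special index `l₀` -/
def DmdS [Fintype B] [DecidableEq B] {ι : Type} (τ : ι → LinType Λ)
    (T : Λ → MvPolynomial B k) (J : MvPolynomial B k) (l₀ : Λ)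
    {K : Type u} [Field K] [Algebra k K] (v : OrdFn k K) (x : B → K) : Prop :=
  ∃ (t : ι) (θ : Fin (τ t).q → ℕ), (τ t).lo ≤ θ ∧ Dmd1 (τ t) θ T J v x ∧
    (0 < v.ord (aeval x (T l₀)) → Dmd2 (τ t) θ T J l₀ v x)

/-- strong domination -/
def DomS [Fintype B] [DecidableEq B] {ι : Type} (τ : ι → LinType Λ) (T : Λ → MvPolynomial B k)
    (J : MvPolynomial B k) : Prop :=
  ∀ (K : Type u) [Field K] [Algebra k K] (v : OrdFn k K) (x : B → K), Cen v x →
    ∀ l₀, DmdS τ T J l₀ v x

/-- finitely many linear types which dominate strongly and are realized -/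
def HasTypesS [Fintype B] [DecidableEq B] (T : Λ → ℕ → MvPolynomial B k)
    (J : ℕ → MvPolynomial B k) : Prop :=
  ∃ (ι : Type) (_ : Finite ι) (τ : ι → LinType Λ),
    (∀ᶠ i in UU, DomS τ (fun l => T l i) (J i)) ∧
      ∀ (t : ι) (θ : Fin (τ t).q → ℕ), (τ t).lo ≤ θ →
        ∀ᶠ i in UU, Rlz (τ t) θ (fun l => T l i) (J i)

end

/-- Strong block theorem for all polynomials in the variables `B`. -/
def BlockOKS (k : Type u) [Field k] (B : Type) [Fintype B] [DecidableEq B] : Prop :=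
  ∀ (Λ : Type) [Finite Λ] (F : Λ → ℕ → MvPolynomial B k), (∀ l, LNZ (F l)) →
    HasTypesS F (fun _ => 1)

end MLD
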