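import Pool.Agent.MLD.LogForm
import Pool.Agent.MLD.ExtVal

/-!
PIECE MLD-F2: combination of blocks, birationality and log discrepancy.
-/

open MvPolynomial Filter

namespace MLD

universe u

variable {k : Type u} [Field k]
variable {σ : Type} [Fintype σ] [DecidableEq σ] {β : Type} [Fintype β] [DecidableEq β]
  (blk : σ → β)

omit [DecidableEq σ] in
/-- a substitution such that the variables are rational functions of it is injective -/
theorem CombB_injective (P : σ → MvPolynomial σ k)
    (h : ∀ i, ∃ N D : MvPolynomial σ k, aeval P D ≠ 0 ∧ X i * aeval P D = aeval P N) :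
    Function.Injective (aeval P : MvPolynomial σ k →ₐ[k] MvPolynomial σ k) := by
  have hmem : ∀ G : MvPolynomial σ k, aeval P G ∈ Algebra.adjoin k (Set.range P) := by
    intro G
    rw [Algebra.adjoin_range_eq_range_aeval]
    exact ⟨G, rfl⟩
  have halg : Algebra.IsAlgebraic (Algebra.adjoin k (Set.range P)) (MvPolynomial σ k) := by
    refine ⟨fun a => ?_⟩
    induction a using MvPolynomial.induction_on with
    | C c =>
      have : (C c : MvPolynomial σ k) =
          algebraMap (Algebra.adjoin k (Set.range P)) (MvPolynomial σ k)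
            (algebraMap k (Algebra.adjoin k (Set.range P)) c) := by
        rw [← IsScalarTower.algebraMap_apply]
        rfl
      rw [this]
      exact isAlgebraic_algebraMap _
    | add p q hp hq => exact hp.add hq
    | mul_X p i hp =>
      refine hp.mul ?_
      obtain ⟨N, D, hD, hN⟩ := h i
      refine ⟨Polynomial.C ⟨aeval P D, hmem D⟩ * Polynomial.X - Polynomial.C ⟨aeval P N, hmem N⟩,
        ?_, ?_⟩
      · intro h0
        have h1 := congrArg (fun f => Polynomial.coeff f 1) h0
        simp only [Polynomial.coeff_sub, Polynomial.coeff_C_mul, Polynomial.coeff_X_one, mul_one,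
          Polynomial.coeff_C_succ, sub_zero, Polynomial.coeff_zero] at h1
        exact hD (congrArg Subtype.val h1)
      · rw [map_sub, map_mul, Polynomial.aeval_C, Polynomial.aeval_C, Polynomial.aeval_X]
        show aeval P D * X i - aeval P N = 0
        rw [← hN]
        ring
  have hb := Algebra.IsAlgebraic.isTranscendenceBasis_of_lift_le_trdeg_of_finite k P (by simp)
  exact hb.1

omit [Fintype σ] [DecidableEq σ] [Fintype β] [DecidableEq β] in
private theorem CombB_aeval (p : ∀ b, {i // blk i = b} → MvPolynomial {i // blk i = b} k) (b : β)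
    (f : MvPolynomial {i // blk i = b} k) :
    aeval (fun i => rename Subtype.val (p (blk i) ⟨i, rfl⟩) : σ → MvPolynomial σ k)
      (rename Subtype.val f) = rename Subtype.val (aeval (p b) f) := by
  rw [aeval_rename, ← AlgHom.comp_apply]
  congr 1
  ext i : 1
  obtain ⟨i, rfl⟩ := i
  simp

theorem comb_bir (p : ∀ b, {i // blk i = b} → MvPolynomial {i // blk i = b} k)
    (hp : ∀ b, Bir (p b)) :
    Bir (fun i => rename Subtype.val (p (blk i) ⟨i, rfl⟩) : σ → MvPolynomial σ k) := by
  have h2 : ∀ i, ∃ N D : MvPolynomial σ k,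
      aeval (fun i => rename Subtype.val (p (blk i) ⟨i, rfl⟩) : σ → MvPolynomial σ k) D ≠ 0 ∧
      X i * aeval (fun i => rename Subtype.val (p (blk i) ⟨i, rfl⟩) : σ → MvPolynomial σ k) D =
        aeval (fun i => rename Subtype.val (p (blk i) ⟨i, rfl⟩) : σ → MvPolynomial σ k) N := by
    intro i
    obtain ⟨N, D, hD, hN⟩ := (hp (blk i)).2 ⟨i, rfl⟩
    refine ⟨rename Subtype.val N, rename Subtype.val D, ?_, ?_⟩
    · rw [CombB_aeval]
      intro h0
      apply hD
      apply rename_injective Subtype.val Subtype.val_injective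
      rw [h0, map_zero]
    · rw [CombB_aeval, CombB_aeval, ← hN, map_mul, rename_X]
  refine ⟨fun G hG h0 => hG ?_, h2⟩
  apply CombB_injective _ h2
  rw [h0, map_zero]

omit [Fintype σ] [DecidableEq σ] [Fintype β] [DecidableEq β] in
private theorem CombB_sig (j : σ) (b : β) (hj : blk j = b) :
    (⟨blk j, ⟨j, rfl⟩⟩ : Σ b, {i // blk i = b}) = ⟨b, ⟨j, hj⟩⟩ := by
  subst hj
  rfl

/-- determinant of a block diagonal matrix -/
theorem CombB_det {R : Type*} [CommRing R] (M : Matrix σ σ R)
    (h : ∀ i j, blk i ≠ blk j → M i j = 0) :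
    M.det = ∏ b, (Matrix.of fun i j : {i // blk i = b} => M i.1 j.1).det := by
  let _ : LinearOrder β :=
    LinearOrder.lift' (Fintype.equivFin β) (Fintype.equivFin β).injective
  have hb : M.BlockTriangular blk := fun i j hij => h i j (ne_of_gt hij)
  exact hb.det_fintype

theorem comb_logDisc [CharZero k] (E : DivisorOver k σ) (A : β → ℤ)
    (h : ∀ b, ∃ (g : {i // blk i = b} → FF k σ)
      (P : Matrix {i // blk i = b} {i // blk i = b} (FF k σ)),
      (∀ c, g c ≠ 0) ∧ P.det ≠ 0 ∧
      (∀ D : Derivation k (FF k σ) (FF k σ), ∀ c, D (g c) = ∑ d, P c d * D (xx k d.1)) ∧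
      A b ≤ ∑ c, E.ord (g c) - E.ord P.det) :
    (((∑ b, A b : ℤ) : ℝ) : EReal) ≤ E.logDisc := by
  choose g P hg hP hD hA using h
  have hdet : (Matrix.reindex (Equiv.sigmaFiberEquiv blk) (Equiv.sigmaFiberEquiv blk)
      (Matrix.blockDiagonal' P)).det = ∏ b, (P b).det := by
    rw [CombB_det blk]
    · refine Finset.prod_congr rfl fun b _ => ?_
      congr 1
      ext i j
      obtain ⟨i, rfl⟩ := i
      obtain ⟨j, hj⟩ := j
      show Matrix.blockDiagonal' P ⟨blk i, ⟨i, rfl⟩⟩ ⟨blk j, ⟨j, rfl⟩⟩ = P (blk i) ⟨i, rfl⟩ ⟨j, hj⟩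
      rw [CombB_sig blk j (blk i) hj, Matrix.blockDiagonal'_apply_eq]
    · intro i j hij
      exact Matrix.blockDiagonal'_apply_ne P _ _ hij
  have key := logDisc_ge E (fun i => g (blk i) ⟨i, rfl⟩)
    (Matrix.reindex (Equiv.sigmaFiberEquiv blk) (Equiv.sigmaFiberEquiv blk)
      (Matrix.blockDiagonal' P)) (fun i => hg _ _)
    (by rw [hdet]; exact Finset.prod_ne_zero_iff.mpr fun b _ => hP b)
    (by
      intro D i
      rw [← (Equiv.sigmaFiberEquiv blk).sum_comp, Fintype.sum_sigma,
        Finset.sum_eq_single (blk i)]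
      · rw [hD]
        refine Finset.sum_congr rfl fun c _ => ?_
        congr 1
        simp only [Matrix.reindex_apply, Matrix.submatrix_apply, Equiv.symm_apply_apply]
        show P (blk i) ⟨i, rfl⟩ c = Matrix.blockDiagonal' P ⟨blk i, ⟨i, rfl⟩⟩ ⟨blk i, c⟩
        rw [Matrix.blockDiagonal'_apply_eq]
      · intro b _ hb
        refine Finset.sum_eq_zero fun c _ => ?_
        simp only [Matrix.reindex_apply, Matrix.submatrix_apply, Equiv.symm_apply_apply]
        have : Matrix.blockDiagonal' P ((Equiv.sigmaFiberEquiv blk).symm i) ⟨b, c⟩ = 0 := by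
          show Matrix.blockDiagonal' P ⟨blk i, ⟨i, rfl⟩⟩ ⟨b, c⟩ = 0
          exact Matrix.blockDiagonal'_apply_ne P _ _ (Ne.symm hb)
        rw [this, zero_mul]
      · intro hb
        exact absurd (Finset.mem_univ _) hb)
  refine le_trans ?_ key
  rw [EReal.coe_le_coe_iff, Int.cast_le, hdet,
    E.ord_prod _ _ fun b _ => hP b, ← (Equiv.sigmaFiberEquiv blk).sum_comp, Fintype.sum_sigma,
    ← Finset.sum_sub_distrib]
  refine Finset.sum_le_sum fun b _ => (hA b).trans ?_
  refine sub_le_sub_right (le_of_eq (Finset.sum_congr rfl fun c _ => ?_)) _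
  obtain ⟨i, rfl⟩ := c
  rfl

end MLD
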