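import Pool.Agent.MLD.LogForm
import Pool.Agent.MLD.ExtVal
import Pool.Agent.MLD.CombB

/-!
PIECE MLD-F: combination of blocks. `blk : σ → β` is a partition of the variables; the
substitutions `p b` in the variables of block `b` combine to a substitution of all variables.

HINTS.
* `comb_aeval`: both sides are algebra homs in `f`; `aeval_rename`, `rename` of `aeval`
  (`MvPolynomial.algHom_ext`).
* `comb_bir`, second part: from `X c * aeval (p b) D = aeval (p b) N` by `rename` and `comb_aeval`.
  first part (injectivity of `aeval P`): it is enough that the images `P i` are algebraically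
  independent over `k`. One way: by the second part every variable lies in the field
  `k(P i : i)`, so the transcendence degree of `k(P i)` is `card σ` and a generating family of
  `card σ` elements of a field of transcendence degree `card σ` is algebraically independent
  (`AlgebraicIndependent`, `Algebra.trdeg`, `IsTranscendenceBasis`); if this is awkward, do the
  blocks one after the other: view `MvPolynomial σ k` as polynomials over the other blocks.
* `comb_jac`: the Jacobian matrix is block diagonal: reindex by `Equiv.sigmaFiberEquiv blk`,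
  `Matrix.det_blockDiagonal'`, `pderiv` of a renamed polynomial w.r.t. a variable of another
  block is `0` (`pderiv_eq_zero_of_notMem_vars`), of the same block `pderiv_rename`.
* `comb_wo`: coefficients of `rename` along an injection (`coeff_rename_mapDomain`,
  `coeff_rename_eq_zero`), `MvPowerSeries.le_weightedOrder`, `weightedOrder_le`.
* `comb_logDisc`: choose `g_b, P_b`; `g i := g_(blk i) ⟨i, rfl⟩`, `P` block diagonal
  (`P i j := if h : blk i = blk j then P_b .. else 0`), `det P = ∏ det P_b`
  (`Matrix.det_blockDiagonal'` after reindexing), apply `logDisc_ge`.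
-/

open MvPolynomial Filter

namespace MLD

universe u

variable {k : Type u} [Field k]
variable {σ : Type} [Fintype σ] [DecidableEq σ] {β : Type} [Fintype β] [DecidableEq β]
  (blk : σ → β)

omit [Fintype σ] [DecidableEq σ] [Fintype β] [DecidableEq β] in
theorem Comb_fiber (p : ∀ b, {i // blk i = b} → MvPolynomial {i // blk i = b} k) (b : β)
    (c : {i // blk i = b}) :
    (rename Subtype.val (p (blk c.1) ⟨c.1, rfl⟩) : MvPolynomial σ k) =
      rename Subtype.val (p b c) := by
  obtain ⟨i, rfl⟩ := c
  rfl

omit [Fintype σ] [DecidableEq σ] [Fintype β] [DecidableEq β] in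
theorem Comb_pderiv_ne (b : β) (f : MvPolynomial {i // blk i = b} k) {i : σ} (hi : blk i ≠ b) :
    pderiv i (rename Subtype.val f : MvPolynomial σ k) = 0 := by
  classical
  apply pderiv_eq_zero_of_notMem_vars
  intro h
  obtain ⟨c, _, hc⟩ := Finset.mem_image.1 (vars_rename _ _ h)
  exact hi (hc ▸ c.2)

omit [Fintype σ] [DecidableEq σ] [Fintype β] [DecidableEq β] in
theorem Comb_weight (w : ∀ b, {i // blk i = b} → ℕ) (b : β) (u : {i // blk i = b} →₀ ℕ) :
    Finsupp.weight (fun i => w (blk i) ⟨i, rfl⟩) (u.mapDomain Subtype.val : σ →₀ ℕ) =
      Finsupp.weight (w b) u := by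
  rw [Finsupp.weight_apply, Finsupp.weight_apply, Finsupp.sum_mapDomain_index
    (fun i => by simp) (fun i m n => by rw [add_smul])]
  apply Finsupp.sum_congr
  rintro ⟨i, rfl⟩ _
  rfl

theorem comb_aeval (p : ∀ b, {i // blk i = b} → MvPolynomial {i // blk i = b} k) (b : β)
    (f : MvPolynomial {i // blk i = b} k) :
    aeval (fun i => rename Subtype.val (p (blk i) ⟨i, rfl⟩) : σ → MvPolynomial σ k)
      (rename Subtype.val f) = rename Subtype.val (aeval (p b) f) := by
  rw [aeval_rename, comp_aeval_apply]
  congr 1
  apply congrArg
  funext c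
  exact Comb_fiber blk p b c

theorem comb_jac (p : ∀ b, {i // blk i = b} → MvPolynomial {i // blk i = b} k) :
    jacP (fun i => rename Subtype.val (p (blk i) ⟨i, rfl⟩) : σ → MvPolynomial σ k) =
      ∏ b, rename Subtype.val (jacP (p b)) := by
  let e := Fintype.equivFin β
  let _ : LinearOrder β := LinearOrder.lift' e e.injective
  unfold jacP
  rw [Matrix.BlockTriangular.det_fintype (b := blk)]
  · apply Finset.prod_congr rfl
    intro b _
    rw [AlgHom.map_det]
    congr 1
    ext i j
    rw [Matrix.toSquareBlock_def]
    simp only [Matrix.of_apply, AlgHom.mapMatrix_apply, Matrix.map_apply]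
    rw [Comb_fiber blk p b j, pderiv_rename Subtype.val_injective]
  · intro i j hij
    rw [Matrix.of_apply]
    exact Comb_pderiv_ne blk (blk j) _ hij.ne'

theorem comb_wo (w : ∀ b, {i // blk i = b} → ℕ) (b : β) (f : MvPolynomial {i // blk i = b} k) :
    wo (fun i => w (blk i) ⟨i, rfl⟩) (rename Subtype.val f : MvPolynomial σ k) = wo (w b) f := by
  unfold wo
  apply le_antisymm
  · apply MvPowerSeries.le_weightedOrder
    intro d hd
    rw [← Comb_weight blk w b d] at hd
    have h := MvPowerSeries.coeff_eq_zero_of_lt_weightedOrder _ hd
    rw [MvPolynomial.coeff_coe] at h ⊢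
    rwa [coeff_rename_mapDomain _ Subtype.val_injective] at h
  · apply MvPowerSeries.le_weightedOrder
    intro d hd
    rw [MvPolynomial.coeff_coe]
    by_contra hne
    obtain ⟨u, rfl, hu⟩ := coeff_rename_ne_zero _ _ _ hne
    rw [Comb_weight blk w b u] at hd
    have h := MvPowerSeries.coeff_eq_zero_of_lt_weightedOrder _ hd
    rw [MvPolynomial.coeff_coe] at h
    exact hu h

end MLD
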