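import Pool.Agent.MLD.Comb

/-!
PIECE MLD-S6: the logarithmic form inequality with one row replaced.

PROOF. As `comb_logDisc` in `CombB.lean`: `G i := g (blk i) ⟨i, rfl⟩` for `i ≠ c₀.1` and `G c₀.1 := f`;
`M i j := P (blk i) ⟨i, rfl⟩ ⟨j, _⟩` if `blk i = blk j`, `0` otherwise, for `i ≠ c₀.1`, and
`M c₀.1 j := R j`. Then `det M = ∏ b, (P b).det`: `M` is block triangular (order the blocks with
`b₀` first; only the row `c₀` has entries outside its block), `Matrix.BlockTriangular.det_fintype` or
`det_of_...`; the diagonal block of `b₀` is `P b₀` by `hR`. Apply `logDisc_ge`.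
-/

open MvPolynomial Filter

namespace MLD

universe u

variable {k : Type u} [Field k]
variable {σ : Type} [Fintype σ] [DecidableEq σ] {β : Type} [Fintype β] [DecidableEq β]
  (blk : σ → β)

omit [Fintype σ] [DecidableEq σ] [Fintype β] [DecidableEq β] in
private theorem CombS_val (P : ∀ b, Matrix {i // blk i = b} {i // blk i = b} (FF k σ)) (b : β)
    (c d : {i // blk i = b}) (h : blk d.1 = blk c.1) :
    P (blk c.1) ⟨c.1, rfl⟩ ⟨d.1, h⟩ = P b c d := by
  obtain ⟨i, rfl⟩ := c
  rfl

omit [DecidableEq σ] in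
/-- determinant of a block triangular matrix, the block `b₀` being the first one -/
private theorem CombS_det {A : Type*} [CommRing A] [DecidableEq σ] (M : Matrix σ σ A) (b₀ : β)
    (h : ∀ i j, blk i ≠ blk j → blk i ≠ b₀ → M i j = 0) :
    M.det = ∏ b, (Matrix.of fun i j : {i // blk i = b} => M i.1 j.1).det := by
  let q : β → ℕ := fun b => if b = b₀ then 0 else (Fintype.equivFin β b : ℕ) + 1
  have hq : Function.Injective q := by
    intro b b' hbb
    simp only [q] at hbb
    split_ifs at hbb with h1 h2 h2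
    · rw [h1, h2]
    · exact (Fintype.equivFin β).injective (Fin.ext (by omega))
  let _ : LinearOrder β := LinearOrder.lift' q hq
  have hb : M.BlockTriangular blk := by
    intro i j hij
    have hij' : q (blk j) < q (blk i) := hij
    refine h i j (fun h' => ?_) (fun h' => ?_)
    · rw [h'] at hij'
      exact lt_irrefl _ hij'
    · rw [h'] at hij'
      simp [q] at hij'
  exact hb.det_fintype

theorem comb_logDiscS [CharZero k] (E : DivisorOver k σ)
    (g : ∀ b, {i // blk i = b} → FF k σ)
    (P : ∀ b, Matrix {i // blk i = b} {i // blk i = b} (FF k σ))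
    (b₀ : β) (c₀ : {i // blk i = b₀}) (f : FF k σ) (R : σ → FF k σ)
    (hg : ∀ b, ∀ c : {i // blk i = b}, g b c ≠ 0) (hf : f ≠ 0) (hP : ∀ b, (P b).det ≠ 0)
    (hD : ∀ D : Derivation k (FF k σ) (FF k σ), ∀ b, ∀ c : {i // blk i = b}, c.1 ≠ c₀.1 →
      D (g b c) = ∑ d, P b c d * D (xx k d.1))
    (hDf : ∀ D : Derivation k (FF k σ) (FF k σ), D f = ∑ j, R j * D (xx k j))
    (hR : ∀ d : {i // blk i = b₀}, P b₀ c₀ d = R d.1) :
    (((E.ord f - E.ord (g b₀ c₀) + ∑ b, (∑ c, E.ord (g b c) - E.ord (P b).det) : ℤ) : ℝ) : EReal) ≤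
      E.logDisc := by
  classical
  let M : Matrix σ σ (FF k σ) := Matrix.of fun i j =>
    if i = c₀.1 then R j else if h : blk j = blk i then P (blk i) ⟨i, rfl⟩ ⟨j, h⟩ else 0
  let G : σ → FF k σ := Function.update (fun i => g (blk i) ⟨i, rfl⟩) c₀.1 f
  have hM1 : ∀ j, M c₀.1 j = R j := fun j => by
    simp only [M, Matrix.of_apply, if_true]
  have hM2 : ∀ i j, i ≠ c₀.1 → ∀ h : blk j = blk i, M i j = P (blk i) ⟨i, rfl⟩ ⟨j, h⟩ := by
    intro i j hi h
    simp only [M, Matrix.of_apply, if_neg hi, dif_pos h]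
  have hM3 : ∀ i j, i ≠ c₀.1 → blk j ≠ blk i → M i j = 0 := by
    intro i j hi h
    simp only [M, Matrix.of_apply, if_neg hi, dif_neg h]
  have hdet : M.det = ∏ b, (P b).det := by
    rw [CombS_det blk M b₀]
    · refine Finset.prod_congr rfl fun b _ => ?_
      congr 1
      ext i j
      rw [Matrix.of_apply]
      by_cases hi : i.1 = c₀.1
      · have hb : b = b₀ := by rw [← i.2, hi, c₀.2]
        subst hb
        have hic : i = c₀ := Subtype.ext hi
        subst hic
        rw [hM1, hR]
      · have hji : blk j.1 = blk i.1 := by rw [j.2, i.2]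
        rw [hM2 _ _ hi hji]
        exact CombS_val blk P b i j hji
    · intro i j hij hib
      refine hM3 i j (fun h => hib ?_) (Ne.symm hij)
      rw [h, c₀.2]
  have key := logDisc_ge E G M
    (by
      intro i
      by_cases hi : i = c₀.1
      · subst hi
        simp only [G, Function.update_self]
        exact hf
      · simp only [G, Function.update_of_ne hi]
        exact hg _ _)
    (by rw [hdet]; exact Finset.prod_ne_zero_iff.mpr fun b _ => hP b)
    (by
      intro D i
      by_cases hi : i = c₀.1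
      · subst hi
        simp only [G, Function.update_self]
        rw [hDf]
        exact Finset.sum_congr rfl fun j _ => by rw [hM1]
      · simp only [G, Function.update_of_ne hi]
        rw [hD D (blk i) ⟨i, rfl⟩ hi, ← (Equiv.sigmaFiberEquiv blk).sum_comp, Fintype.sum_sigma,
          Finset.sum_eq_single (blk i)]
        · refine Finset.sum_congr rfl fun c _ => ?_
          congr 1
          exact (hM2 i c.1 hi c.2).symm
        · intro b _ hb
          refine Finset.sum_eq_zero fun c _ => ?_
          have : M i c.1 = 0 := hM3 i c.1 hi (by rw [c.2]; exact hb)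
          change M i c.1 * D (xx k c.1) = 0
          rw [this, zero_mul]
        · intro hb
          exact absurd (Finset.mem_univ _) hb)
  refine le_trans ?_ key
  rw [EReal.coe_le_coe_iff, Int.cast_le, hdet, E.ord_prod _ _ fun b _ => hP b]
  have h1 : ∑ i, E.ord (G i) = E.ord f - E.ord (g b₀ c₀) + ∑ b, ∑ c, E.ord (g b c) := by
    have h2 : ∑ i, E.ord (g (blk i) ⟨i, rfl⟩) = ∑ b, ∑ c, E.ord (g b c) := by
      rw [← (Equiv.sigmaFiberEquiv blk).sum_comp, Fintype.sum_sigma]
      refine Finset.sum_congr rfl fun b _ => Finset.sum_congr rfl fun c _ => ?_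
      obtain ⟨i, rfl⟩ := c
      rfl
    have h3 : g (blk c₀.1) ⟨c₀.1, rfl⟩ = g b₀ c₀ := by
      obtain ⟨i, rfl⟩ := c₀
      rfl
    rw [← h2, ← Finset.add_sum_erase _ _ (Finset.mem_univ c₀.1),
      ← Finset.add_sum_erase _ (fun i => E.ord (g (blk i) ⟨i, rfl⟩)) (Finset.mem_univ c₀.1)]
    have h4 : E.ord (G c₀.1) = E.ord f := by
      simp only [G, Function.update_self]
    have h5 : ∑ i ∈ Finset.univ.erase c₀.1, E.ord (G i) =
        ∑ i ∈ Finset.univ.erase c₀.1, E.ord (g (blk i) ⟨i, rfl⟩) := by
      refine Finset.sum_congr rfl fun i hi => ?_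
      simp only [G, Function.update_of_ne (Finset.ne_of_mem_erase hi)]
    rw [h4, h5, h3]
    ring
  rw [h1, Finset.sum_sub_distrib]
  apply le_of_eq
  ring

end MLD
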