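import Pool.Agent.MLD.Q1T

/-!
PIECE MLD-Q3: Q1 for split tuples from boundedness.

PROOF of `q1_split`: `IsSplit` is stable under replacing `a_1, ..., a_r` by the products
`c_{i+1} := ∏_{j : lam (j+1) = t i} a_{j+1}` (`t : Fin R → ℝ` enumerates `I`, `c_0 := a_0`): if
`hatI (a j) = span (φ '' products)` for all `j` then also for products (`Ideal.map_mul`,
`Ideal.span_mul_span'`, `Ideal.map_prod`; empty product: `⊤ = span {φ 1}`). For every value `t₀ ∈ I`, `t₀ ≤ 1`,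
of `lam 0` apply `hB` and `q1_fixedT` to `Fin.cons t₀ t`; take the maximum of the finitely many `s` (a
congruence modulo `m^s` implies the one modulo `m^s'`, `s' ≤ s`). See `q1_general` in `Q1.lean` for the
comparison of `mld lam a` with `mld (Fin.cons t₀ t) c`.
-/

open MvPolynomial Filter

namespace MLD

universe u

variable {k : Type u} [Field k]

theorem SplitQ1_inBlock_one {n : ℕ} {β : Type*} (blk : Fin n → β) (b : β) :
    InBlock blk b (1 : MvPowerSeries (Fin n) k) := by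
  classical
  intro m hm i hi
  rw [MvPowerSeries.coeff_one] at hm
  by_cases h : m = 0
  · rw [h] at hi
    exact absurd rfl hi
  · rw [if_neg h] at hm
    exact absurd rfl hm

theorem SplitQ1_inBlock_mul {n : ℕ} {β : Type*} (blk : Fin n → β) (b : β)
    {f g : MvPowerSeries (Fin n) k} (hf : InBlock blk b f) (hg : InBlock blk b g) :
    InBlock blk b (f * g) := by
  classical
  intro m hm i hi
  rw [MvPowerSeries.coeff_mul] at hm
  obtain ⟨p, hp, hne⟩ := Finset.exists_ne_zero_of_sum_ne_zero hm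
  rw [Finset.HasAntidiagonal.mem_antidiagonal] at hp
  have h1 : MvPowerSeries.coeff p.1 f ≠ 0 := left_ne_zero_of_mul hne
  have h2 : MvPowerSeries.coeff p.2 g ≠ 0 := right_ne_zero_of_mul hne
  by_cases h3 : p.1 i = 0
  · have h4 : p.2 i ≠ 0 := by
      intro h4
      apply hi
      rw [← hp, Finsupp.add_apply, h3, h4]
    exact hg _ h2 i h4
  · exact hf _ h1 i h3

theorem SplitQ1_top {n : ℕ} {β : Type*} [Fintype β] (blk : Fin n → β)
    (φ : MvPowerSeries (Fin n) k ≃ₐ[k] MvPowerSeries (Fin n) k) :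
    FormalBlockIdeal blk φ (⊤ : Ideal (MvPolynomial (Fin n) k)) := by
  refine ⟨{fun _ => 1}, ?_, ?_⟩
  · intro g hg b
    rw [Set.mem_singleton_iff] at hg
    rw [hg]
    exact SplitQ1_inBlock_one blk b
  · unfold hatI
    rw [Ideal.map_top, Set.image_singleton, Finset.prod_const_one, map_one, Ideal.span_singleton_one]

theorem SplitQ1_mul {n : ℕ} {β : Type*} [Fintype β] (blk : Fin n → β)
    (φ : MvPowerSeries (Fin n) k ≃ₐ[k] MvPowerSeries (Fin n) k)
    {I J : Ideal (MvPolynomial (Fin n) k)}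
    (hI : FormalBlockIdeal blk φ I) (hJ : FormalBlockIdeal blk φ J) :
    FormalBlockIdeal blk φ (I * J) := by
  obtain ⟨S, hS, hS2⟩ := hI
  obtain ⟨T, hT, hT2⟩ := hJ
  refine ⟨{f | ∃ g ∈ S, ∃ h ∈ T, f = fun b => g b * h b}, ?_, ?_⟩
  · rintro f ⟨g, hg, h, hh, rfl⟩ b
    exact SplitQ1_inBlock_mul blk b (hS g hg b) (hT h hh b)
  · unfold hatI at hS2 hT2 ⊢
    rw [Ideal.map_mul, hS2, hT2, Ideal.span_mul_span']
    congr 1
    ext x
    constructor
    · rintro ⟨y, ⟨g, hg, rfl⟩, z, ⟨h, hh, rfl⟩, rfl⟩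
      refine ⟨fun b => g b * h b, ⟨g, hg, h, hh, rfl⟩, ?_⟩
      show φ (∏ b, g b * h b) = φ (∏ b, g b) * φ (∏ b, h b)
      rw [Finset.prod_mul_distrib, map_mul]
    · rintro ⟨f, ⟨g, hg, h, hh, rfl⟩, rfl⟩
      refine ⟨_, ⟨g, hg, rfl⟩, _, ⟨h, hh, rfl⟩, ?_⟩
      show φ (∏ b, g b) * φ (∏ b, h b) = φ (∏ b, g b * h b)
      rw [Finset.prod_mul_distrib, map_mul]

theorem SplitQ1_prod {n : ℕ} {β : Type*} [Fintype β] (blk : Fin n → β)
    (φ : MvPowerSeries (Fin n) k ≃ₐ[k] MvPowerSeries (Fin n) k) {ι : Type*} (T : Finset ι)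
    (a : ι → Ideal (MvPolynomial (Fin n) k)) (h : ∀ j ∈ T, FormalBlockIdeal blk φ (a j)) :
    FormalBlockIdeal blk φ (∏ j ∈ T, a j) := by
  classical
  induction T using Finset.induction_on with
  | empty =>
    rw [Finset.prod_empty, Ideal.one_eq_top]
    exact SplitQ1_top blk φ
  | insert x T hx ih =>
    rw [Finset.prod_insert hx]
    exact SplitQ1_mul blk φ (h x (Finset.mem_insert_self _ _))
      (ih fun j hj => h j (Finset.mem_insert_of_mem hj))

theorem SplitQ1_split {n r R : ℕ} (g : Fin r → Fin R)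
    (a : Fin (r + 1) → Ideal (MvPolynomial (Fin n) k)) (ha : IsSplit a) :
    IsSplit (fun i : Fin (R + 1) => ∏ j ∈ Finset.univ.filter
      (fun j => (Fin.cons 0 (fun j => (g j).succ) : Fin (r + 1) → Fin (R + 1)) j = i), a j) := by
  classical
  obtain ⟨blk, φ, h1, h2, h3⟩ := ha
  refine ⟨blk, φ, h1, ?_, ?_⟩
  · have h4 : Finset.univ.filter (fun j : Fin (r + 1) =>
        (Fin.cons 0 (fun j => (g j).succ) : Fin (r + 1) → Fin (R + 1)) j = 0) = {0} := by
      ext j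
      simp only [Finset.mem_filter, Finset.mem_univ, true_and, Finset.mem_singleton]
      refine Fin.cases ?_ (fun j => ?_) j
      · simp
      · simp [Fin.succ_ne_zero]
    show FormalBlockSum blk φ (∏ j ∈ Finset.univ.filter (fun j : Fin (r + 1) =>
        (Fin.cons 0 (fun j => (g j).succ) : Fin (r + 1) → Fin (R + 1)) j = 0), a j)
    rw [h4, Finset.prod_singleton]
    exact h2
  · intro i
    apply SplitQ1_prod
    intro j hj
    rw [Finset.mem_filter] at hj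
    revert hj
    refine Fin.cases ?_ (fun j => ?_) j
    · intro hj
      have := hj.2
      rw [Fin.cons_zero] at this
      exact absurd this.symm (Fin.succ_ne_zero i)
    · intro _
      exact h3 j

theorem q1_split (n : ℕ) (hn : 0 < n)
    (hB : ∀ (R : ℕ) (lam : Fin (R + 1) → ℝ), (∀ j, 0 ≤ lam j) → lam 0 ≤ 1 →
      BddT (IsSplit (k := k) (n := n) (r := R)) lam)
    (I : Set ℝ) (hI : I.Finite) (hI0 : ∀ t ∈ I, 0 ≤ t) :
    ∃ s : ℕ, 1 ≤ s ∧ ∀ (r : ℕ) (lam : Fin (r + 1) → ℝ)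
      (a b : Fin (r + 1) → Ideal (MvPolynomial (Fin n) k)),
      (∀ j, lam j ∈ I) → lam 0 ≤ 1 → (∀ j, a j ≠ ⊥) → (∀ j, b j ≠ ⊥) → IsSplit a → IsSplit b →
      (∀ j, a j ⊔ mm k (Fin n) ^ s = b j ⊔ mm k (Fin n) ^ s) →
      (0 ≤ mld lam a ↔ 0 ≤ mld lam b) ∧
        (0 ≤ mld lam a → 0 ≤ mld lam b → mld lam a = mld lam b) := by
  classical
  have : Nonempty (Fin n) := ⟨⟨0, hn⟩⟩
  set F : Finset ℝ := hI.toFinset with hF
  let e := F.equivFin
  set t : Fin F.card → ℝ := fun i => ((e.symm i : F) : ℝ) with ht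
  have ht0 : ∀ i, 0 ≤ t i := fun i => hI0 _ (hI.mem_toFinset.1 (e.symm i).2)
  have hfix : ∀ t0 : ℝ, ∃ s : ℕ, 1 ≤ s ∧ (t0 ∈ I → t0 ≤ 1 →
      ∀ a b : Fin (F.card + 1) → Ideal (MvPolynomial (Fin n) k),
        (∀ j, a j ≠ ⊥) → (∀ j, b j ≠ ⊥) → IsSplit a → IsSplit b →
        (∀ j, a j ⊔ mm k (Fin n) ^ s = b j ⊔ mm k (Fin n) ^ s) →
        (0 ≤ mld (Fin.cons t0 t : Fin (F.card + 1) → ℝ) a ↔
          0 ≤ mld (Fin.cons t0 t : Fin (F.card + 1) → ℝ) b) ∧
        (0 ≤ mld (Fin.cons t0 t : Fin (F.card + 1) → ℝ) a →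
          0 ≤ mld (Fin.cons t0 t : Fin (F.card + 1) → ℝ) b →
          mld (Fin.cons t0 t : Fin (F.card + 1) → ℝ) a =
            mld (Fin.cons t0 t : Fin (F.card + 1) → ℝ) b)) := by
    intro t0
    by_cases h : t0 ∈ I ∧ t0 ≤ 1
    · have hnn : ∀ j, 0 ≤ (Fin.cons t0 t : Fin (F.card + 1) → ℝ) j := by
        intro j
        refine Fin.cases ?_ (fun j => ?_) j
        · rw [Fin.cons_zero]
          exact hI0 _ h.1
        · rw [Fin.cons_succ]
          exact ht0 j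
      have hle : (Fin.cons t0 t : Fin (F.card + 1) → ℝ) 0 ≤ 1 := by
        rw [Fin.cons_zero]
        exact h.2
      obtain ⟨s, hs1, hs⟩ := q1_fixedT IsSplit (Fin.cons t0 t : Fin (F.card + 1) → ℝ) hnn
        (hB _ _ hnn hle)
      exact ⟨s, hs1, fun _ _ => hs⟩
    · exact ⟨1, le_rfl, fun h1 h2 => absurd ⟨h1, h2⟩ h⟩
  choose sf hsf1 hsf using hfix
  refine ⟨1 + ∑ t0 ∈ F, sf t0, by omega, ?_⟩
  intro r lam a b hlam h01 ha hb hsa hsb hab
  have hmem : ∀ j, lam j ∈ F := fun j => hI.mem_toFinset.2 (hlam j)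
  let g : Fin r → Fin F.card := fun j => e ⟨lam j.succ, hmem j.succ⟩
  have hg : ∀ j : Fin r, t (g j) = lam j.succ := fun j => by
    show ((e.symm (e ⟨lam j.succ, hmem j.succ⟩) : F) : ℝ) = lam j.succ
    rw [Equiv.symm_apply_apply]
  have hg' : ∀ j, (Fin.cons (lam 0) t : Fin (F.card + 1) → ℝ)
      ((Fin.cons 0 (fun j => (g j).succ) : Fin (r + 1) → Fin (F.card + 1)) j) = lam j := by
    intro j
    refine Fin.cases ?_ (fun j => ?_) j
    · rw [Fin.cons_zero, Fin.cons_zero]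
    · rw [Fin.cons_succ, Fin.cons_succ]
      exact hg j
  rw [Q1_group lam (Fin.cons (lam 0) t : Fin (F.card + 1) → ℝ) _ hg' a ha,
    Q1_group lam (Fin.cons (lam 0) t : Fin (F.card + 1) → ℝ) _ hg' b hb]
  have hsle : sf (lam 0) ≤ 1 + ∑ t0 ∈ F, sf t0 :=
    (Finset.single_le_sum (f := sf) (fun i _ => Nat.zero_le _) (hmem 0)).trans (by omega)
  have hpow : mm k (Fin n) ^ (1 + ∑ t0 ∈ F, sf t0) ≤ mm k (Fin n) ^ sf (lam 0) :=
    Ideal.pow_le_pow_right hsle
  have hab' : ∀ j, a j ⊔ mm k (Fin n) ^ sf (lam 0) = b j ⊔ mm k (Fin n) ^ sf (lam 0) := by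
    intro j
    have h := hab j
    calc a j ⊔ mm k (Fin n) ^ sf (lam 0)
        = (a j ⊔ mm k (Fin n) ^ (1 + ∑ t0 ∈ F, sf t0)) ⊔ mm k (Fin n) ^ sf (lam 0) := by
          rw [sup_assoc, sup_eq_right.2 hpow]
      _ = (b j ⊔ mm k (Fin n) ^ (1 + ∑ t0 ∈ F, sf t0)) ⊔ mm k (Fin n) ^ sf (lam 0) := by rw [h]
      _ = b j ⊔ mm k (Fin n) ^ sf (lam 0) := by
          rw [sup_assoc, sup_eq_right.2 hpow]
  apply hsf (lam 0) (hlam 0) h01
  · exact fun i => (Q1_prod_mem (fun _ => True) trivial (fun _ _ _ _ => trivial) _ a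
      (fun _ => trivial) ha).2
  · exact fun i => (Q1_prod_mem (fun _ => True) trivial (fun _ _ _ _ => trivial) _ b
      (fun _ => trivial) hb).2
  · exact SplitQ1_split g a hsa
  · exact SplitQ1_split g b hsb
  · exact fun i => Q1_prod _ a b _ fun j _ => hab' j

end MLD
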