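import Pool.Agent.MLD.Splitting
import Pool.Agent.MLD.SplitQ1

/-!
PIECE MLD-W5: principal ideals of corank at most two.

`isSplit_corank`. If `f(0) ≠ 0`: `hatI (span {f}) = ⊤ = span {id 1}`, `blk := id`, `g 0 := 1`, other
`g b := 0`. If the linear part is not zero: `exists_automorphism` with `y` = `f` in one position and
variables elsewhere gives `φ (X i₀) = f` for some `i₀`; `blk := id`. Otherwise `f` has `Low 2` and
`splitting`. In all cases `hatI (mm) ` is the maximal ideal, generated by the `φ (X i)`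
(`X i` is the product over the blocks of `X i` for the block of `i` and `1` for the others);
`φ` maps the maximal ideal `{g | constantCoeff g = 0} = span {X i}` to itself; its power `m i` is
generated by products of `m i` variables.
`isSplit_congr`: if `f' - f ∈ mm ^ 3` (`3 ≤ s`) the hypothesis for `f` implies the one for `f'` (the
coefficients of degree `≤ 2` agree).
`q1_corank`. Let `R`-tuples be `Fin.cons (span {f}) (fun _ => mm)`. Since `mld` for `(f)^λ ∏ m^(lam j)`
depends only on `λ` and `μ := ∑ lam j`, one may group equal exponents as in `q1_general`: but the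
number of exponents is bounded: let `t : Fin R → ℝ` enumerate `I`; `c_{i+1} := mm ^ (number of j with
lam (j+1) = t i)` is of split type by `isSplit_corank`, so `hB` for
`IsSplit` and `Fin.cons t₀ t` gives one constant `ℓ` for all `r`, and a bounded divisor `E` for
`(f)^(lam 0) ∏_j mm^(lam j)`. Take `s ≥ 3`, `s ≥` the constant of `q1_split`, `ℓ < t * s` for all
`0 < t ∈ I`. Let `b` be given. `b 0` contains some `f'` with `f - f' ∈ mm ^ s` (`f ∈ b 0 ⊔ mm ^ s`), `f' ≠ 0`.
For `j ≥ 1`: `E'.ordI (b j) ≤ E'.ordI mm` for every `E'` centred at the origin? By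
`b j ⊔ mm ^ s = mm ⊔ mm ^ s = mm`, so `E'.ordI mm = min (E'.ordI (b j)) (E'.ordI (mm ^ s))`, and
`E'.ordI (mm ^ s) = s * E'.ordI mm > E'.ordI mm ≥ 1`; hence `E'.ordI (b j) = E'.ordI mm`. Moreover
`E'.ordI (b 0) ≤ E'.ordI (span {f'})`. So `mld lam (cons (span {f'}) mm) ≤ mld lam b`, and by `q1_split` (for
`f` and `f'`, both split) `0 ≤ mld lam a` implies `mld lam a = mld lam (cons (span {f'}) mm) ≤ mld lam b`.
Apply `q1_oneside`.
-/

open MvPolynomial Filter

namespace MLD

universe u

variable {k : Type u} [Field k]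

/-- The polynomial `f` has corank at most two at the origin: it does not vanish at the origin, or
its gradient at the origin is not zero, or its Hessian matrix at the origin has rank at least
`n - 2`. -/
def CorankLeTwo {n : ℕ} (f : MvPolynomial (Fin n) k) : Prop :=
  constantCoeff f ≠ 0 ∨ (∃ i, constantCoeff (pderiv i f) ≠ 0) ∨
    n ≤ (Matrix.of fun i j => constantCoeff (pderiv i (pderiv j f))).rank + 2

private theorem corank_mem_span {n : ℕ} (g : MvPowerSeries (Fin n) k)
    (hg : MvPowerSeries.constantCoeff g = 0) :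
    g ∈ Ideal.span (Set.range (MvPowerSeries.X : Fin n → MvPowerSeries (Fin n) k)) := by
  classical
  let idx : (Fin n →₀ ℕ) → Option (Fin n) := fun m =>
    if h : ∃ i, m i ≠ 0 then some (Classical.choose h) else none
  have idx1 : ∀ m i, idx m = some i → m i ≠ 0 := by
    intro m i h
    by_cases h1 : ∃ i, m i ≠ 0
    · have h2 : idx m = some (Classical.choose h1) := dif_pos h1
      rw [h2, Option.some.injEq] at h
      rw [← h]
      exact Classical.choose_spec h1
    · have h2 : idx m = none := dif_neg h1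
      rw [h2] at h
      exact absurd h (by simp)
  have idx2 : ∀ m, m ≠ 0 → ∃ i, idx m = some i := by
    intro m hm
    have h1 : ∃ i, m i ≠ 0 := by
      by_contra h
      push Not at h
      exact hm (Finsupp.ext h)
    exact ⟨Classical.choose h1, dif_pos h1⟩
  let G : Fin n → MvPowerSeries (Fin n) k := fun i m =>
    if idx (m + Finsupp.single i 1) = some i then
      MvPowerSeries.coeff (m + Finsupp.single i 1) g else 0
  have hG : ∀ i m, MvPowerSeries.coeff m (G i) =
      if idx (m + Finsupp.single i 1) = some i then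
        MvPowerSeries.coeff (m + Finsupp.single i 1) g else 0 := fun i m => rfl
  have key : g = ∑ i, MvPowerSeries.X i * G i := by
    ext m
    rw [map_sum]
    have h1 : ∀ i, MvPowerSeries.coeff m (MvPowerSeries.X i * G i) =
        if idx m = some i then MvPowerSeries.coeff m g else 0 := by
      intro i
      rw [MvPowerSeries.X_def, MvPowerSeries.coeff_monomial_mul, one_mul, hG]
      by_cases h2 : Finsupp.single i 1 ≤ m
      · rw [if_pos h2, tsub_add_cancel_of_le h2]
      · rw [if_neg h2, if_neg]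
        intro h3
        apply h2
        rw [Finsupp.single_le_iff]
        exact Nat.one_le_iff_ne_zero.2 (idx1 m i h3)
    simp only [h1]
    by_cases hm : m = 0
    · subst hm
      rw [MvPowerSeries.coeff_zero_eq_constantCoeff_apply, hg]
      simp
    · obtain ⟨i, hi⟩ := idx2 m hm
      rw [hi]
      simp
  rw [key]
  exact Ideal.sum_mem _ fun i _ => Ideal.mul_mem_right _ _ (Ideal.subset_span ⟨i, rfl⟩)

private theorem corank_const {n : ℕ}
    (φ : MvPowerSeries (Fin n) k ≃ₐ[k] MvPowerSeries (Fin n) k) (i : Fin n) :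
    MvPowerSeries.constantCoeff (φ (MvPowerSeries.X i)) = 0 := by
  by_contra h
  have h1 : IsUnit (φ (MvPowerSeries.X i)) := by
    rw [MvPowerSeries.isUnit_iff_constantCoeff]
    exact isUnit_iff_ne_zero.2 h
  have h2 : IsUnit (MvPowerSeries.X i : MvPowerSeries (Fin n) k) := by
    have h3 := h1.map φ.symm
    rwa [AlgEquiv.symm_apply_apply] at h3
  rw [MvPowerSeries.isUnit_iff_constantCoeff, MvPowerSeries.constantCoeff_X] at h2
  exact not_isUnit_zero h2

private theorem corank_span_map {n : ℕ}
    (φ : MvPowerSeries (Fin n) k ≃ₐ[k] MvPowerSeries (Fin n) k) :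
    Ideal.span (Set.range fun i => φ (MvPowerSeries.X i)) =
      Ideal.span (Set.range (MvPowerSeries.X : Fin n → MvPowerSeries (Fin n) k)) := by
  apply le_antisymm
  · rw [Ideal.span_le]
    rintro _ ⟨i, rfl⟩
    exact corank_mem_span _ (corank_const φ i)
  · rw [Ideal.span_le]
    rintro _ ⟨i, rfl⟩
    have h1 := corank_mem_span _ (corank_const φ.symm i)
    have h2 := Ideal.mem_map_of_mem (φ : MvPowerSeries (Fin n) k →+* MvPowerSeries (Fin n) k) h1
    rw [Ideal.map_span, ← Set.range_comp] at h2
    have h3 : (φ : MvPowerSeries (Fin n) k →+* MvPowerSeries (Fin n) k)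
        (φ.symm (MvPowerSeries.X i)) = MvPowerSeries.X i := φ.apply_symm_apply _
    rw [h3] at h2
    exact h2

private theorem corank_span_pow {A : Type*} [CommRing A] {ι : Type*} (y : ι → A) (e : ℕ) :
    Ideal.span (Set.range y) ^ e =
      Ideal.span (Set.range fun a : Fin e → ι => ∏ t, y (a t)) := by
  induction e with
  | zero =>
    rw [pow_zero, Ideal.one_eq_top]
    symm
    rw [Ideal.eq_top_iff_one]
    exact Ideal.subset_span ⟨Fin.elim0, by simp⟩
  | succ e ih =>
    rw [pow_succ', ih, Ideal.span_mul_span']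
    congr 1
    ext x
    rw [Set.mem_mul]
    constructor
    · rintro ⟨_, ⟨i, rfl⟩, _, ⟨a, rfl⟩, rfl⟩
      refine ⟨Fin.cons i a, ?_⟩
      simp only [Fin.prod_univ_succ, Fin.cons_zero, Fin.cons_succ]
    · rintro ⟨a, rfl⟩
      refine ⟨y (a 0), ⟨a 0, rfl⟩, ∏ t : Fin e, y (a t.succ), ⟨fun t => a t.succ, rfl⟩, ?_⟩
      simp only [Fin.prod_univ_succ]

private theorem corank_hat_pow {n : ℕ} (e : ℕ) :
    hatI (mm k (Fin n) ^ e) =
      Ideal.span (Set.range (MvPowerSeries.X : Fin n → MvPowerSeries (Fin n) k)) ^ e := by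
  unfold hatI mm
  rw [Ideal.map_pow, Ideal.map_span, ← Set.range_comp]
  congr 2
  congr 1
  funext i
  exact MvPolynomial.coe_X i

private theorem corank_inBlock_one {σ β : Type*} (blk : σ → β) (b : β) :
    InBlock blk b (1 : MvPowerSeries σ k) := by
  classical
  intro m hm i hi
  rw [MvPowerSeries.coeff_one] at hm
  split_ifs at hm with h
  · rw [h] at hi
    exact absurd rfl hi
  · exact absurd rfl hm

private theorem corank_inBlock_zero {σ β : Type*} (blk : σ → β) (b : β) :
    InBlock blk b (0 : MvPowerSeries σ k) := by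
  intro m hm i _
  rw [map_zero] at hm
  exact absurd rfl hm

private theorem corank_inBlock_X {σ β : Type*} (blk : σ → β) (i : σ) :
    InBlock blk (blk i) (MvPowerSeries.X i : MvPowerSeries σ k) := by
  classical
  intro m hm j hj
  rw [MvPowerSeries.coeff_X] at hm
  split_ifs at hm with h
  · rw [h] at hj
    by_cases hij : i = j
    · rw [hij]
    · rw [Finsupp.single_apply, if_neg hij] at hj
      exact absurd rfl hj
  · exact absurd rfl hm

private theorem corank_inBlock_mul {σ β : Type*} (blk : σ → β) (b : β) {f g : MvPowerSeries σ k}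
    (hf : InBlock blk b f) (hg : InBlock blk b g) : InBlock blk b (f * g) := by
  classical
  intro m hm i hi
  rw [MvPowerSeries.coeff_mul] at hm
  obtain ⟨p, hp, hne⟩ := Finset.exists_ne_zero_of_sum_ne_zero hm
  rw [Finset.HasAntidiagonal.mem_antidiagonal] at hp
  have h1 : MvPowerSeries.coeff p.1 f ≠ 0 := left_ne_zero_of_mul hne
  have h2 : MvPowerSeries.coeff p.2 g ≠ 0 := right_ne_zero_of_mul hne
  by_cases h3 : p.1 i = 0
  · refine hg p.2 h2 i fun h4 => hi ?_
    rw [← hp, Finsupp.add_apply, h3, h4]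
  · exact hf p.1 h1 i h3

private theorem corank_inBlock_prod {σ β ι : Type*} (blk : σ → β) (b : β) (s : Finset ι)
    (f : ι → MvPowerSeries σ k) (h : ∀ t ∈ s, InBlock blk b (f t)) :
    InBlock blk b (∏ t ∈ s, f t) := by
  classical
  induction s using Finset.induction_on with
  | empty =>
    rw [Finset.prod_empty]
    exact corank_inBlock_one blk b
  | insert x s hx ih =>
    rw [Finset.prod_insert hx]
    exact corank_inBlock_mul blk b (h x (Finset.mem_insert_self _ _))
      (ih fun t ht => h t (Finset.mem_insert_of_mem ht))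

/-- powers of the maximal ideal are block ideals in all formal coordinates -/
private theorem corank_mm_block {n : ℕ} (blk : Fin n → Fin n)
    (φ : MvPowerSeries (Fin n) k ≃ₐ[k] MvPowerSeries (Fin n) k) (e : ℕ) :
    FormalBlockIdeal blk φ (mm k (Fin n) ^ e) := by
  classical
  refine ⟨Set.range fun (a : Fin e → Fin n) (b : Fin n) =>
    ∏ t, if blk (a t) = b then (MvPowerSeries.X (a t) : MvPowerSeries (Fin n) k) else 1, ?_, ?_⟩
  · rintro _ ⟨a, rfl⟩ b
    refine corank_inBlock_prod blk b _ _ fun t _ => ?_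
    split_ifs with h
    · rw [← h]
      exact corank_inBlock_X blk (a t)
    · exact corank_inBlock_one blk b
  · rw [corank_hat_pow, ← corank_span_map φ, corank_span_pow, ← Set.range_comp]
    congr 2
    funext a
    simp only [Function.comp_apply]
    rw [Finset.prod_comm, map_prod]
    refine Finset.prod_congr rfl fun t _ => ?_
    rw [Finset.prod_ite_eq, if_pos (Finset.mem_univ _)]

private theorem corank_constantCoeff_coe {n : ℕ} (f : MvPolynomial (Fin n) k) :
    MvPowerSeries.constantCoeff (f : MvPowerSeries (Fin n) k) = constantCoeff f := by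
  rw [← MvPowerSeries.coeff_zero_eq_constantCoeff_apply, MvPolynomial.coeff_coe]
  rfl

private theorem corank_coeff_pderiv {n : ℕ} (f : MvPolynomial (Fin n) k) (i : Fin n) :
    constantCoeff (pderiv i f) = coeff (Finsupp.single i 1) f := by
  rw [← corank_constantCoeff_coe, ← MvPowerSeries.pderiv_coe,
    ← MvPowerSeries.coeff_zero_eq_constantCoeff_apply, MvPowerSeries.coeff_pderiv,
    MvPolynomial.coeff_coe]
  simp

private theorem corank_hess {n : ℕ} (f : MvPolynomial (Fin n) k) :
    hess (f : MvPowerSeries (Fin n) k) =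
      Matrix.of fun i j => constantCoeff (pderiv i (pderiv j f)) := by
  unfold hess
  ext i j
  simp only [Matrix.of_apply]
  rw [MvPowerSeries.pderiv_coe, MvPowerSeries.pderiv_coe, corank_constantCoeff_coe]

private theorem corank_hat_span {n : ℕ} (f : MvPolynomial (Fin n) k) :
    hatI (Ideal.span {f}) = Ideal.span {(f : MvPowerSeries (Fin n) k)} := by
  unfold hatI
  rw [Ideal.map_span, Set.image_singleton]
  rfl

/-- the three cases for the function `f` -/
private theorem corank_sum [IsAlgClosed k] [CharZero k] {n : ℕ} (hn : 0 < n)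
    (f : MvPolynomial (Fin n) k) (hf : CorankLeTwo f) :
    ∃ (blk : Fin n → Fin n) (φ : MvPowerSeries (Fin n) k ≃ₐ[k] MvPowerSeries (Fin n) k),
      (∀ b, Fintype.card {i // blk i = b} ≤ 2) ∧ FormalBlockSum blk φ (Ideal.span {f}) := by
  classical
  have hid : ∀ b : Fin n, Fintype.card {i // id i = b} ≤ 2 := by
    intro b
    have h1 : Fintype.card {i : Fin n // id i = b} ≤ 1 := by
      rw [Fintype.card_le_one_iff]
      intro x y
      exact Subtype.ext (x.2.trans y.2.symm)
    omega
  by_cases h0 : constantCoeff f = 0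
  · by_cases h1 : ∃ i, constantCoeff (pderiv i f) ≠ 0
    · obtain ⟨i₀, hi₀⟩ := h1
      let y : Fin n → MvPowerSeries (Fin n) k := fun j =>
        if j = i₀ then (f : MvPowerSeries (Fin n) k) else MvPowerSeries.X j
      have hy0 : ∀ i, MvPowerSeries.constantCoeff (y i) = 0 := by
        intro i
        simp only [y]
        split_ifs
        · rw [corank_constantCoeff_coe, h0]
        · exact MvPowerSeries.constantCoeff_X i
      have hdet : (Matrix.of fun i j : Fin n =>
          MvPowerSeries.coeff (Finsupp.single i 1) (y j)).det ≠ 0 := by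
        have h2 : (Matrix.of fun i j : Fin n =>
            MvPowerSeries.coeff (Finsupp.single i 1) (y j)) =
            (1 : Matrix (Fin n) (Fin n) k).updateCol i₀
              (fun i => coeff (Finsupp.single i 1) f) := by
          ext i j
          simp only [Matrix.of_apply, Matrix.updateCol_apply, y]
          by_cases hj : j = i₀
          · rw [if_pos hj, if_pos hj, MvPolynomial.coeff_coe]
          · rw [if_neg hj, if_neg hj, MvPowerSeries.coeff_X, Matrix.one_apply]
            by_cases hij : i = j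
            · rw [if_pos hij, if_pos (by rw [hij])]
            · rw [if_neg hij, if_neg]
              intro h3
              exact hij (Finsupp.single_left_injective one_ne_zero h3)
        rw [h2, ← Matrix.cramer_apply, Matrix.cramer_one]
        simp only [Module.End.one_apply]
        rw [← corank_coeff_pderiv]
        exact hi₀
      obtain ⟨φ, hφ⟩ := exists_automorphism y hy0 hdet
      refine ⟨id, φ, hid, fun b => if b = i₀ then MvPowerSeries.X i₀ else 0, ?_, ?_⟩
      · intro b
        simp only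
        split_ifs with hb
        · rw [hb]
          exact corank_inBlock_X id i₀
        · exact corank_inBlock_zero id b
      · rw [corank_hat_span, Finset.sum_ite_eq' Finset.univ i₀, if_pos (Finset.mem_univ _), hφ]
        simp only [y, if_true]
    · push Not at h1
      have hlow : Low 2 (f : MvPowerSeries (Fin n) k) := by
        intro m hm
        rw [MvPolynomial.coeff_coe]
        rcases Nat.eq_zero_or_pos m.degree with h2 | h2
        · rw [Finsupp.degree_eq_zero_iff] at h2
          rw [h2]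
          exact h0
        · have h3 : m.degree = 1 := by omega
          obtain ⟨i, rfl⟩ : ∃ i, Finsupp.single i 1 = m := by
            have h4 : m ∈ {d : Fin n →₀ ℕ | d.degree = 1} := h3
            rw [← Finsupp.range_single_one] at h4
            exact h4
          rw [← corank_coeff_pderiv]
          exact h1 i
      have hH : n ≤ (hess (f : MvPowerSeries (Fin n) k)).rank + 2 := by
        rw [corank_hess]
        rcases hf with h | h | h
        · exact absurd h0 h
        · obtain ⟨i, hi⟩ := h
          exact absurd (h1 i) hi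
        · exact h
      obtain ⟨blk, φ, g, h2, h3, h4⟩ := splitting n _ hlow hH
      exact ⟨blk, φ, h2, g, h3, by rw [corank_hat_span, ← h4]⟩
  · refine ⟨id, AlgEquiv.refl, hid, fun b => if b = ⟨0, hn⟩ then 1 else 0, ?_, ?_⟩
    · intro b
      simp only
      split_ifs
      · exact corank_inBlock_one id b
      · exact corank_inBlock_zero id b
    · rw [corank_hat_span, Finset.sum_ite_eq' Finset.univ, if_pos (Finset.mem_univ _), map_one]
      rw [Ideal.span_singleton_one, Ideal.span_singleton_eq_top,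
        MvPowerSeries.isUnit_iff_constantCoeff, corank_constantCoeff_coe]
      exact isUnit_iff_ne_zero.2 h0

theorem isSplit_corank [IsAlgClosed k] [CharZero k] {n : ℕ} (hn : 0 < n)
    (f : MvPolynomial (Fin n) k) (hf : CorankLeTwo f) (r : ℕ) (m : Fin r → ℕ) :
    IsSplit (Fin.cons (Ideal.span {f}) (fun i : Fin r => mm k (Fin n) ^ m i)) := by
  obtain ⟨blk, φ, h1, h2⟩ := corank_sum hn f hf
  refine ⟨blk, φ, h1, ?_, fun j => ?_⟩
  · rw [Fin.cons_zero]
    exact h2
  · rw [Fin.cons_succ]
    exact corank_mm_block blk φ (m j)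

theorem corank_congr {n : ℕ} (f f' : MvPolynomial (Fin n) k) (hf : CorankLeTwo f)
    (h : f - f' ∈ mm k (Fin n) ^ 3) : CorankLeTwo f' := by
  have h1 : ∀ x : Fin n →₀ ℕ, x.degree < 3 → coeff x f = coeff x f' := by
    intro x hx
    have h2 := (MvPolynomial.mem_pow_idealOfVars_iff' 3 (f - f')).1 h x hx
    rw [coeff_sub, sub_eq_zero] at h2
    exact h2
  have e0 : constantCoeff f = constantCoeff f' := h1 0 (by simp)
  have e1 : ∀ i, constantCoeff (pderiv i f) = constantCoeff (pderiv i f') := by
    intro i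
    rw [corank_coeff_pderiv, corank_coeff_pderiv]
    apply h1
    rw [Finsupp.degree_single]
    omega
  have e2 : ∀ i j, constantCoeff (pderiv i (pderiv j f)) =
      constantCoeff (pderiv i (pderiv j f')) := by
    intro i j
    rw [corank_coeff_pderiv, corank_coeff_pderiv]
    rw [← MvPolynomial.coeff_coe, ← MvPolynomial.coeff_coe, ← MvPowerSeries.pderiv_coe,
      ← MvPowerSeries.pderiv_coe, MvPowerSeries.coeff_pderiv, MvPowerSeries.coeff_pderiv,
      MvPolynomial.coeff_coe, MvPolynomial.coeff_coe]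
    rw [h1]
    rw [map_add, Finsupp.degree_single, Finsupp.degree_single]
    omega
  unfold CorankLeTwo at hf ⊢
  rw [← e0]
  simp only [← e1, ← e2]
  exact hf

private theorem corank_mm_ne {n : ℕ} (hn : 0 < n) : mm k (Fin n) ≠ ⊥ := by
  intro h
  have h1 : (X ⟨0, hn⟩ : MvPolynomial (Fin n) k) ∈ mm k (Fin n) :=
    Ideal.subset_span ⟨⟨0, hn⟩, rfl⟩
  rw [h, Ideal.mem_bot] at h1
  exact X_ne_zero _ h1

private theorem corank_pow_ne {n : ℕ} (hn : 0 < n) (s : ℕ) : mm k (Fin n) ^ s ≠ ⊥ := by
  induction s with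
  | zero =>
    rw [pow_zero, Ideal.one_eq_top]
    exact top_ne_bot
  | succ s ih =>
    rw [pow_succ]
    intro h
    rcases Ideal.mul_eq_bot.1 h with h | h
    · exact ih h
    · exact corank_mm_ne hn h

private theorem corank_ordI_pow {n : ℕ} (hn : 0 < n) (E : DivisorOver k (Fin n)) (s : ℕ) :
    E.ordI (mm k (Fin n) ^ s) = s * E.ordI (mm k (Fin n)) := by
  induction s with
  | zero => rw [pow_zero, Ideal.one_eq_top, ordI_top, zero_mul]
  | succ s ih =>
    rw [pow_succ, ordI_mul E (corank_pow_ne hn s) (corank_mm_ne hn), ih]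
    ring

theorem q1_corank [IsAlgClosed k] [CharZero k] (n : ℕ) (hn : 0 < n)
    (hB : ∀ (R : ℕ) (lam : Fin (R + 1) → ℝ), (∀ j, 0 ≤ lam j) → lam 0 ≤ 1 →
      BddT (IsSplit (k := k) (n := n) (r := R)) lam)
    (I : Set ℝ) (hI : I.Finite) (hI0 : ∀ t ∈ I, 0 ≤ t) :
    ∃ s : ℕ, 1 ≤ s ∧ ∀ (r : ℕ) (lam : Fin (r + 1) → ℝ) (f : MvPolynomial (Fin n) k)
      (b : Fin (r + 1) → Ideal (MvPolynomial (Fin n) k)),
      (∀ j, lam j ∈ I) → lam 0 ≤ 1 → f ≠ 0 → CorankLeTwo f → (∀ j, b j ≠ ⊥) →
      Ideal.span {f} ⊔ mm k (Fin n) ^ s = b 0 ⊔ mm k (Fin n) ^ s →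
      (∀ j : Fin r, mm k (Fin n) ⊔ mm k (Fin n) ^ s = b j.succ ⊔ mm k (Fin n) ^ s) →
      (0 ≤ mld lam (Fin.cons (Ideal.span {f}) (fun _ : Fin r => mm k (Fin n))) ↔
        0 ≤ mld lam b) ∧
      (0 ≤ mld lam (Fin.cons (Ideal.span {f}) (fun _ : Fin r => mm k (Fin n))) →
        0 ≤ mld lam b →
        mld lam (Fin.cons (Ideal.span {f}) (fun _ : Fin r => mm k (Fin n))) = mld lam b) := by
  classical
  have : Nonempty (Fin n) := ⟨⟨0, hn⟩⟩
  obtain ⟨s₁, hs₁, hq⟩ := q1_split n hn hB I hI hI0
  set F : Finset ℝ := hI.toFinset with hF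
  let e := F.equivFin
  set t : Fin F.card → ℝ := fun i => ((e.symm i : F) : ℝ) with ht
  have ht0 : ∀ i, 0 ≤ t i := fun i => hI0 _ (hI.mem_toFinset.1 (e.symm i).2)
  have hbd : ∀ t₀ : ℝ, ∃ ℓ : ℕ, t₀ ∈ I → t₀ ≤ 1 →
      ∀ a : Fin (F.card + 1) → Ideal (MvPolynomial (Fin n) k), (∀ j, a j ≠ ⊥) → IsSplit a →
        ∃ E : DivisorOver k (Fin n), E.CenterZero ∧ E.logDisc ≤ ((ℓ : ℝ) : EReal) ∧
          (E.aDisc (Fin.cons t₀ t) a < 0 ∨ ∀ E' : DivisorOver k (Fin n), E'.CenterZero →
            E.aDisc (Fin.cons t₀ t) a ≤ E'.aDisc (Fin.cons t₀ t) a) := by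
    intro t₀
    by_cases h1 : t₀ ∈ I ∧ t₀ ≤ 1
    · obtain ⟨ℓ, hℓ⟩ := hB F.card (Fin.cons t₀ t) (by
        intro j
        refine Fin.cases ?_ (fun i => ?_) j
        · rw [Fin.cons_zero]
          exact hI0 t₀ h1.1
        · rw [Fin.cons_succ]
          exact ht0 i) (by
        rw [Fin.cons_zero]
        exact h1.2)
      exact ⟨ℓ, fun _ _ => hℓ⟩
    · exact ⟨0, fun h2 h3 => absurd ⟨h2, h3⟩ h1⟩
  choose L hL using hbd
  set ℓ : ℕ := ∑ x ∈ F, L x with hℓ
  have hLℓ : ∀ x ∈ I, L x ≤ ℓ := fun x hx =>
    Finset.single_le_sum (f := L) (fun _ _ => Nat.zero_le _) (hI.mem_toFinset.2 hx)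
  obtain ⟨s₂, hs₂, hs2⟩ := Q1_exists_s t ht0 ℓ
  refine ⟨3 + s₁ + s₂, by omega, ?_⟩
  set s : ℕ := 3 + s₁ + s₂ with hs
  intro r lam f b hlam hlam0 hf0 hf hb hfb hbb
  have hmem : ∀ j, lam j ∈ F := fun j => hI.mem_toFinset.2 (hlam j)
  have hlnn : ∀ j, 0 ≤ lam j := fun j => hI0 _ (hlam j)
  let g : Fin r → Fin F.card := fun j => e ⟨lam j.succ, hmem j.succ⟩
  have hg : ∀ j, t (g j) = lam j.succ := fun j => by
    show ((e.symm (e ⟨lam j.succ, hmem j.succ⟩) : F) : ℝ) = lam j.succ
    rw [Equiv.symm_apply_apply]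
  have hspan : ∀ f : MvPolynomial (Fin n) k, f ≠ 0 → Ideal.span {f} ≠ ⊥ := by
    intro f hf h
    rw [Ideal.span_singleton_eq_bot] at h
    exact hf h
  set a : Fin (r + 1) → Ideal (MvPolynomial (Fin n) k) :=
    Fin.cons (Ideal.span {f}) (fun _ : Fin r => mm k (Fin n)) with ha
  have ha0 : ∀ j, a j ≠ ⊥ := by
    intro j
    refine Fin.cases ?_ (fun i => ?_) j
    · rw [ha, Fin.cons_zero]
      exact hspan f hf0
    · rw [ha, Fin.cons_succ]
      exact corank_mm_ne hn
  have hpm : mm k (Fin n) ^ s ≤ mm k (Fin n) := by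
    have h1 := Ideal.pow_le_pow_right (I := mm k (Fin n)) (show 1 ≤ s by omega)
    rwa [pow_one] at h1
  apply q1_oneside lam hlnn ℓ s ?_ a b ha0 hb ?_ ?_ ?_
  · -- the constant
    intro j hj
    have h1 : t (e ⟨lam j, hmem j⟩) = lam j := by
      show ((e.symm (e ⟨lam j, hmem j⟩) : F) : ℝ) = lam j
      rw [Equiv.symm_apply_apply]
    have h2 := hs2 (e ⟨lam j, hmem j⟩) (by rw [h1]; exact hj)
    rw [h1] at h2
    refine h2.trans_le ?_
    refine mul_le_mul_of_nonneg_left ?_ (hlnn j)
    have h3 : s₂ ≤ s := by omega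
    exact_mod_cast h3
  · intro j
    refine Fin.cases ?_ (fun i => ?_) j
    · rw [ha, Fin.cons_zero]
      exact hfb
    · rw [ha, Fin.cons_succ]
      exact hbb i
  · -- the bounded divisor
    set c : Fin (F.card + 1) → Ideal (MvPolynomial (Fin n) k) :=
      Fin.cons (Ideal.span {f}) (fun i : Fin F.card => mm k (Fin n) ^
        (Finset.univ.filter fun j => g j = i).card) with hc
    have hc0 : ∀ j, c j ≠ ⊥ := by
      intro j
      refine Fin.cases ?_ (fun i => ?_) j
      · rw [hc, Fin.cons_zero]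
        exact hspan f hf0
      · rw [hc, Fin.cons_succ]
        exact corank_pow_ne hn _
    have hac : ∀ E : DivisorOver k (Fin n), E.aDisc (Fin.cons (lam 0) t) c = E.aDisc lam a := by
      intro E
      unfold DivisorOver.aDisc
      congr 2
      rw [Fin.sum_univ_succ, Fin.sum_univ_succ]
      congr 1
      simp only [ha, hc, Fin.cons_succ, corank_ordI_pow hn E]
      rw [← Finset.sum_fiberwise Finset.univ g
        (fun j => lam j.succ * (E.ordI (mm k (Fin n)) : ℝ))]
      apply Finset.sum_congr rfl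
      intro i _
      have h1 : ∀ j ∈ Finset.univ.filter (fun j => g j = i),
          lam j.succ * (E.ordI (mm k (Fin n)) : ℝ) = t i * (E.ordI (mm k (Fin n)) : ℝ) := by
        intro j hj
        rw [Finset.mem_filter] at hj
        rw [← hg j, hj.2]
      rw [Finset.sum_congr rfl h1, Finset.sum_const, nsmul_eq_mul]
      push_cast
      ring
    obtain ⟨E, hE1, hE2, hE3⟩ := hL (lam 0) (hlam 0) hlam0 c hc0 (isSplit_corank hn f hf _ _)
    refine ⟨E, hE1, hE2.trans ?_, ?_⟩
    · have h1 := hLℓ (lam 0) (hlam 0)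
      have h2 : ((L (lam 0) : ℕ) : ℝ) ≤ (ℓ : ℝ) := by exact_mod_cast h1
      exact_mod_cast h2
    · simp only [hac] at hE3
      exact hE3
  · -- the lower bound
    intro h0
    obtain ⟨f', hf'b, hf'0, hff'⟩ : ∃ f' ∈ b 0, f' ≠ 0 ∧ f - f' ∈ mm k (Fin n) ^ s := by
      have h1 : f ∈ b 0 ⊔ mm k (Fin n) ^ s := by
        rw [← hfb]
        exact Ideal.mem_sup_left (Ideal.mem_span_singleton_self f)
      obtain ⟨x, hx, y, hy, hxy⟩ := Submodule.mem_sup.1 h1
      by_cases hx0 : x = 0
      · obtain ⟨z, hz, hz0⟩ := Submodule.exists_mem_ne_zero_of_ne_bot (hb 0)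
        obtain ⟨w, hw, hw0⟩ := Submodule.exists_mem_ne_zero_of_ne_bot
          (corank_pow_ne (k := k) hn s)
        refine ⟨z * w, Ideal.mul_mem_right _ _ hz, mul_ne_zero hz0 hw0, ?_⟩
        apply Ideal.sub_mem
        · rw [← hxy, hx0, zero_add]
          exact hy
        · exact Ideal.mul_mem_left _ _ hw
      · refine ⟨x, hx, hx0, ?_⟩
        rw [← hxy, add_sub_cancel_left]
        exact hy
    have hcor : CorankLeTwo f' :=
      corank_congr f f' hf (Ideal.pow_le_pow_right (show 3 ≤ s by omega) hff')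
    set a' : Fin (r + 1) → Ideal (MvPolynomial (Fin n) k) :=
      Fin.cons (Ideal.span {f'}) (fun _ : Fin r => mm k (Fin n)) with ha'
    have ha'0 : ∀ j, a' j ≠ ⊥ := by
      intro j
      refine Fin.cases ?_ (fun i => ?_) j
      · rw [ha', Fin.cons_zero]
        exact hspan f' hf'0
      · rw [ha', Fin.cons_succ]
        exact corank_mm_ne hn
    have hsp : ∀ f : MvPolynomial (Fin n) k, CorankLeTwo f →
        IsSplit (Fin.cons (Ideal.span {f}) (fun _ : Fin r => mm k (Fin n))) := by
      intro f hf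
      have h1 := isSplit_corank hn f hf r (fun _ => 1)
      simp only [pow_one] at h1
      exact h1
    have hq' := hq r lam a a' hlam hlam0 ha0 ha'0 (hsp f hf) (hsp f' hcor) (by
      intro j
      refine Fin.cases ?_ (fun i => ?_) j
      · rw [ha, ha', Fin.cons_zero, Fin.cons_zero]
        have hle : mm k (Fin n) ^ s ≤ mm k (Fin n) ^ s₁ :=
          Ideal.pow_le_pow_right (show s₁ ≤ s by omega)
        apply le_antisymm
        · refine sup_le ?_ le_sup_right
          rw [Ideal.span_singleton_le_iff_mem]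
          have h1 : f = f' + (f - f') := by ring
          rw [h1]
          exact Ideal.add_mem _ (Ideal.mem_sup_left (Ideal.mem_span_singleton_self f'))
            (Ideal.mem_sup_right (hle hff'))
        · refine sup_le ?_ le_sup_right
          rw [Ideal.span_singleton_le_iff_mem]
          have h1 : f' = f - (f - f') := by ring
          rw [h1]
          exact Ideal.sub_mem _ (Ideal.mem_sup_left (Ideal.mem_span_singleton_self f))
            (Ideal.mem_sup_right (hle hff'))
      · rw [ha, ha', Fin.cons_succ, Fin.cons_succ])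
    have h2 : mld lam a = mld lam a' := hq'.2 h0 (hq'.1.1 h0)
    rw [h2]
    unfold mld
    refine iInf_mono fun E' => ?_
    unfold DivisorOver.aDisc
    refine EReal.sub_le_sub le_rfl ?_
    rw [EReal.coe_le_coe_iff]
    refine Finset.sum_le_sum fun j _ => ?_
    refine mul_le_mul_of_nonneg_left ?_ (hlnn j)
    rw [Nat.cast_le]
    refine Fin.cases ?_ (fun i => ?_) j
    · rw [ha', Fin.cons_zero]
      refine ordI_mono E'.1 (hspan f' hf'0) ?_
      rw [Ideal.span_singleton_le_iff_mem]
      exact hf'b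
    · rw [ha', Fin.cons_succ]
      have h3 := hbb i
      rw [sup_eq_left.2 hpm] at h3
      have h4 := ordI_sup E'.1 (hb i.succ) (corank_pow_ne (k := k) hn s)
      rw [← h3, corank_ordI_pow hn] at h4
      have h5 : 1 ≤ E'.1.ordI (mm k (Fin n)) := by
        have h6 := ordI_mm_pow E'.1 E'.2 1
        rwa [pow_one] at h6
      have h7 : 3 * E'.1.ordI (mm k (Fin n)) ≤ s * E'.1.ordI (mm k (Fin n)) :=
        Nat.mul_le_mul_right _ (by omega)
      have h8 : E'.1.ordI (mm k (Fin n)) < s * E'.1.ordI (mm k (Fin n)) := by omega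
      rcases min_choice (E'.1.ordI (b i.succ)) (s * E'.1.ordI (mm k (Fin n))) with h9 | h9
      · rw [h9] at h4
        exact h4.symm.le
      · rw [h9] at h4
        omega

end MLD
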