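import Mathlib

/-!
PIECE MLD-G: the minimum of a piecewise linear function over the lattice points is attained if it
is bounded below.

PROOF. Suppose not. For every `θ ≥ lo` pick for every `j` an index `l j` with
`∑ val j (l j) c θ c` minimal, i.e. a cell `l : ∀ j, Λ j` (finitely many cells), with slacks
`s j l' := ∑ val j l' c θ c - ∑ val j (l j) c θ c : ℕ`. There is a sequence `θ n ≥ lo` with `φ (θ n)`
strictly decreasing (no minimum); infinitely many `n` have the same cell; by Dickson's lemma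
(`Pi.isPWO`/`wellQuasiOrdered` for `ι → ℕ` together with the slacks) there are `m < n` with the same
cell, `θ m ≤ θ n` and slacks `s m ≤ s n`. Put `d := θ n - θ m`. For every `t : ℕ` the point
`θ m + t • d` is `≥ lo` and has the same cell (all differences
`∑ val j l' c (θ m + t d) c - ∑ val j (l j) c (θ m + t d) c = s m + t (s n - s m) ≥ 0`), so
`φ (θ m + t • d) = φ (θ m) + t * (φ (θ n) - φ (θ m))`, which is negative for large `t`.
Contradiction. (A cleaner order: show that the set of values is well founded: `Set.IsWF`, or use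
`exists_seq`-free: `WellFounded.has_min` of the relation via `Set.PartiallyWellOrderedOn`.)
-/

namespace MLD

private theorem Dick_lin {ι : Type} [Fintype ι] (a θ d : ι → ℕ) (t : ℕ) :
    ∑ c, a c * (θ c + t * d c) = ∑ c, a c * θ c + t * ∑ c, a c * d c := by
  rw [Finset.mul_sum, ← Finset.sum_add_distrib]
  refine Finset.sum_congr rfl fun c _ => ?_
  ring

private theorem Dick_inf {L : Type} [Fintype L] [Nonempty L] (f : L → ℕ) (l : L)
    (h : ∀ l', f l ≤ f l') : Finset.univ.inf' Finset.univ_nonempty f = f l := by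
  apply le_antisymm
  · exact Finset.inf'_le f (Finset.mem_univ l)
  · exact Finset.le_inf' _ _ fun l' _ => h l'

theorem min_attained {ι : Type} [Fintype ι] (lo A : ι → ℕ) {Jt : Type} [Fintype Jt]
    (Λ : Jt → Type) [∀ j, Fintype (Λ j)] [∀ j, Nonempty (Λ j)] (val : ∀ j, Λ j → ι → ℕ)
    (lam : Jt → ℝ) (φ : (ι → ℕ) → ℝ)
    (hφ : ∀ θ, φ θ = ((∑ c, A c * θ c : ℕ) : ℝ) -
      ∑ j, lam j *
        ((Finset.univ.inf' Finset.univ_nonempty fun l : Λ j => ∑ c, val j l c * θ c : ℕ) : ℝ))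
    (hpos : ∀ θ, lo ≤ θ → 0 ≤ φ θ) :
    ∃ θ₀, lo ≤ θ₀ ∧ ∀ θ, lo ≤ θ → φ θ₀ ≤ φ θ := by
  classical
  by_contra hcon
  push Not at hcon
  -- a strictly decreasing sequence
  choose g hg1 hg2 using hcon
  let nx : {θ : ι → ℕ // lo ≤ θ} → {θ : ι → ℕ // lo ≤ θ} := fun x => ⟨g x.1 x.2, hg1 x.1 x.2⟩
  let sq : ℕ → {θ : ι → ℕ // lo ≤ θ} := fun n => nx^[n] ⟨lo, le_refl lo⟩
  have hsq : ∀ n, φ (sq (n + 1)).1 < φ (sq n).1 := by
    intro n
    have h1 : sq (n + 1) = nx (sq n) := Function.iterate_succ_apply' nx n _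
    rw [h1]
    exact hg2 (sq n).1 (sq n).2
  have hanti : StrictAnti fun n => φ (sq n).1 := strictAnti_nat_of_succ_lt hsq
  -- the cells
  have hcell : ∀ (θ : ι → ℕ) (j : Jt), ∃ l : Λ j, ∀ l' : Λ j,
      ∑ c, val j l c * θ c ≤ ∑ c, val j l' c * θ c := by
    intro θ j
    obtain ⟨l, -, hl⟩ := Finset.exists_min_image (Finset.univ : Finset (Λ j))
      (fun l => ∑ c, val j l c * θ c) Finset.univ_nonempty
    exact ⟨l, fun l' => hl l' (Finset.mem_univ l')⟩
  choose cell hc using hcell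
  -- Dickson
  let F : ℕ → (ι → ℕ) × (((Σ j, Λ j) → ℕ) × ((Σ j, Λ j) → ℕ)) := fun n =>
    ((sq n).1, (fun p => ∑ c, val p.1 p.2 c * (sq n).1 c -
      ∑ c, val p.1 (cell (sq n).1 p.1) c * (sq n).1 c),
      (fun p => if cell (sq n).1 p.1 = p.2 then 1 else 0))
  obtain ⟨m, n, hmn, hF⟩ := wellQuasiOrdered_le F
  obtain ⟨hF1, hF2, hF3⟩ : (F m).1 ≤ (F n).1 ∧ (F m).2.1 ≤ (F n).2.1 ∧ (F m).2.2 ≤ (F n).2.2 :=
    ⟨hF.1, hF.2.1, hF.2.2⟩
  have hθ : ∀ c, (sq m).1 c ≤ (sq n).1 c := hF1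
  have hceq : ∀ j, cell (sq n).1 j = cell (sq m).1 j := by
    intro j
    have h1 := hF3 ⟨j, cell (sq m).1 j⟩
    change (if cell (sq m).1 j = cell (sq m).1 j then 1 else 0) ≤
      (if cell (sq n).1 j = cell (sq m).1 j then 1 else 0) at h1
    rw [if_pos rfl] at h1
    by_contra h2
    rw [if_neg h2] at h1
    exact Nat.not_succ_le_zero 0 h1
  obtain ⟨θ, hθdef⟩ : ∃ θ, θ = (sq m).1 := ⟨_, rfl⟩
  obtain ⟨d, hd⟩ : ∃ d : ι → ℕ, ∀ c, (sq n).1 c = θ c + d c := by
    refine ⟨fun c => (sq n).1 c - θ c, fun c => ?_⟩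
    rw [hθdef]
    exact (Nat.add_sub_of_le (hθ c)).symm
  have hn : (sq n).1 = fun c => θ c + 1 * d c := by
    funext c
    rw [hd c, one_mul]
  have hlo : lo ≤ θ := by
    rw [hθdef]
    exact (sq m).2
  -- the direction
  have hdir : ∀ j (l' : Λ j), ∑ c, val j (cell θ j) c * d c ≤ ∑ c, val j l' c * d c := by
    intro j l'
    have h1 := hF2 ⟨j, l'⟩
    change ∑ c, val j l' c * (sq m).1 c - ∑ c, val j (cell (sq m).1 j) c * (sq m).1 c ≤
      ∑ c, val j l' c * (sq n).1 c - ∑ c, val j (cell (sq n).1 j) c * (sq n).1 c at h1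
    rw [hceq j, ← hθdef, hn] at h1
    rw [Dick_lin, Dick_lin] at h1
    have h2 := hc θ j l'
    have h3 := hc (sq n).1 j l'
    rw [hceq j, ← hθdef, hn, Dick_lin, Dick_lin] at h3
    omega
  have hval : ∀ t : ℕ, φ (fun c => θ c + t * d c) =
      φ θ + t * (((∑ c, A c * d c : ℕ) : ℝ) -
        ∑ j, lam j * ((∑ c, val j (cell θ j) c * d c : ℕ) : ℝ)) := by
    intro t
    rw [hφ, hφ θ]
    have h1 : ∀ j, (Finset.univ.inf' Finset.univ_nonempty
        fun l : Λ j => ∑ c, val j l c * (θ c + t * d c)) =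
        ∑ c, val j (cell θ j) c * (θ c + t * d c) := by
      intro j
      refine Dick_inf (fun l : Λ j => ∑ c, val j l c * (θ c + t * d c)) (cell θ j) fun l' => ?_
      change ∑ c, val j (cell θ j) c * (θ c + t * d c) ≤ ∑ c, val j l' c * (θ c + t * d c)
      rw [Dick_lin, Dick_lin]
      exact Nat.add_le_add (hc θ j l') (Nat.mul_le_mul_left t (hdir j l'))
    have h2 : ∀ j, (Finset.univ.inf' Finset.univ_nonempty
        fun l : Λ j => ∑ c, val j l c * θ c) = ∑ c, val j (cell θ j) c * θ c := fun j =>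
      Dick_inf (fun l : Λ j => ∑ c, val j l c * θ c) (cell θ j) (hc θ j)
    have e1 : ∑ j, lam j * ((Finset.univ.inf' Finset.univ_nonempty
        fun l : Λ j => ∑ c, val j l c * (θ c + t * d c) : ℕ) : ℝ) =
        ∑ j, lam j * ((∑ c, val j (cell θ j) c * θ c +
          t * ∑ c, val j (cell θ j) c * d c : ℕ) : ℝ) :=
      Finset.sum_congr rfl fun j _ => by rw [h1 j, Dick_lin]
    have e2 : ∑ j, lam j * ((Finset.univ.inf' Finset.univ_nonempty
        fun l : Λ j => ∑ c, val j l c * θ c : ℕ) : ℝ) =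
        ∑ j, lam j * ((∑ c, val j (cell θ j) c * θ c : ℕ) : ℝ) :=
      Finset.sum_congr rfl fun j _ => by rw [h2 j]
    rw [e1, e2, Dick_lin]
    push_cast
    have h3 : ∑ j, lam j * ((∑ c, (val j (cell θ j) c : ℝ) * (θ c : ℝ)) +
        (t : ℝ) * ∑ c, (val j (cell θ j) c : ℝ) * (d c : ℝ)) =
        ∑ j, lam j * (∑ c, (val j (cell θ j) c : ℝ) * (θ c : ℝ)) +
        (t : ℝ) * ∑ j, lam j * ∑ c, (val j (cell θ j) c : ℝ) * (d c : ℝ) := by
      rw [Finset.mul_sum, ← Finset.sum_add_distrib]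
      refine Finset.sum_congr rfl fun j _ => ?_
      ring
    rw [h3]
    ring
  set δ : ℝ := ((∑ c, A c * d c : ℕ) : ℝ) -
        ∑ j, lam j * ((∑ c, val j (cell θ j) c * d c : ℕ) : ℝ) with hδ
  have hneg : δ < 0 := by
    have h1 := hanti hmn
    change φ (sq n).1 < φ (sq m).1 at h1
    have h2 := hval 1
    rw [← hθdef, hn] at h1
    push_cast at h2
    rw [one_mul] at h2
    have h3 : φ (fun c => θ c + 1 * d c) = φ θ + δ := by
      simpa using h2
    rw [h3] at h1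
    linarith
  obtain ⟨t, ht⟩ := exists_nat_gt (φ θ / (-δ))
  have h1 := hpos (fun c => θ c + t * d c) (fun c => by
    exact le_trans (hlo c) (Nat.le_add_right _ _))
  rw [hval t] at h1
  have h2 : φ θ < t * (-δ) := by
    rwa [div_lt_iff₀ (by linarith)] at ht
  nlinarith

end MLD
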