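import Pool.Agent.MLD.TwoA
import Pool.Agent.MLD.ExtVal

/-!
PIECE MLD-E7: realization of the terminal types.

HINTS. `wo w F ≥ n` iff all monomials of `F` have weight `≥ n` (`MvPowerSeries.le_weightedOrder`,
`MvPowerSeries.weightedOrder_le`, `MvPolynomial.coeff_coe`); `wo_mul`; `wo w (X i) = w i`;
`wo w V = 0` if `coeff 0 V ≠ 0`; `Finsupp.weight w (mon a b) = a * w 0 + b * w 1`.
`rlz_div`, `rlz_t0`: `p := X` (`Bir X`: `aeval X = id`), `jacP X = 1`; weights `(θ 0, θ 0)` resp.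
`(θ 0, θ 1)`. `rlz_t1`: `p := sh ψ`, weights `w = (θ 0, θ 1)`; `jacP (sh ψ) = 1` (the
derivative matrix is triangular); `Bir (sh ψ)`: inverse `sh (-ψ)`; `wo w (sh ψ 0) ≥ 1` because
`ψ` has no constant term; `aeval (sh ψ) V` has the constant term of `V`; for
`aeval (sh ψ) (F l)`: if the coefficient at `mon p q` is nonzero then
`θ 0 * p + q ≥ θ 0 * N l`, hence `p * θ 0 + q * θ 1 ≥ N l * θ 0` (`θ 1 ≥ 1`).
-/

open MvPolynomial Filter

namespace MLD

universe u

variable {k : Type u} [Field k] {Λ : Type}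

theorem bir_X {B : Type} : Bir (X : B → MvPolynomial B k) := by
  constructor
  · intro G hG
    rwa [aeval_X_left_apply]
  · intro b
    refine ⟨X b, 1, ?_, ?_⟩
    · rw [map_one]
      exact one_ne_zero
    · rw [map_one, mul_one, aeval_X_left_apply]

private theorem twoE_ge {B : Type} (w : B → ℕ) (F : MvPolynomial B k) (n : ℕ)
    (h : ∀ m, coeff m F ≠ 0 → n ≤ Finsupp.weight w m) : (n : ℕ∞) ≤ wo w F := by
  refine MvPowerSeries.nat_le_weightedOrder w fun d hd => ?_
  rw [MvPolynomial.coeff_coe]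
  by_contra h1
  exact absurd (h d h1) (not_le.2 hd)

private theorem twoE_le {B : Type} (w : B → ℕ) (F : MvPolynomial B k) (m : B →₀ ℕ)
    (h : coeff m F ≠ 0) : wo w F ≤ (Finsupp.weight w m : ℕ) := by
  refine MvPowerSeries.weightedOrder_le w ?_
  rwa [MvPolynomial.coeff_coe]

private theorem twoE_unit {B : Type} (w : B → ℕ) (F : MvPolynomial B k)
    (h : coeff 0 F ≠ 0) : wo w F = 0 := by
  have h1 := twoE_le w F 0 h
  rw [map_zero, Nat.cast_zero] at h1
  exact le_antisymm h1 (zero_le)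

private theorem twoE_X {B : Type} (w : B → ℕ) (i : B) (n : ℕ) :
    wo w ((X i : MvPolynomial B k) ^ n) = ((n * w i : ℕ) : ℕ∞) := by
  unfold wo
  have h1 : (((X i : MvPolynomial B k) ^ n : MvPolynomial B k) : MvPowerSeries B k) =
      MvPowerSeries.monomial (Finsupp.single i n) 1 := by
    rw [X_pow_eq_monomial, MvPolynomial.coe_monomial]
  rw [h1, MvPowerSeries.weightedOrder_monomial_of_ne_zero w one_ne_zero, Finsupp.weight_single,
    smul_eq_mul]

private theorem twoE_X1 {B : Type} (w : B → ℕ) (i : B) :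
    wo w (X i : MvPolynomial B k) = ((w i : ℕ) : ℕ∞) := by
  have h := twoE_X (k := k) w i 1
  rwa [pow_one, one_mul] at h

private theorem twoE_one {B : Type} (w : B → ℕ) : wo w (1 : MvPolynomial B k) = 0 :=
  twoE_unit w 1 (by rw [MvPolynomial.coeff_zero_one]; exact one_ne_zero)

private theorem twoE_jacX : jacP (X : Fin 2 → MvPolynomial (Fin 2) k) = 1 := by
  unfold jacP
  rw [Matrix.det_fin_two]
  simp [pderiv_X]

private theorem twoE_weight (w : Fin 2 → ℕ) (m : Fin 2 →₀ ℕ) :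
    Finsupp.weight w m = m 0 * w 0 + m 1 * w 1 := by
  rw [Finsupp.weight_apply, Finsupp.sum_fintype _ _ (by intro i; simp), Fin.sum_univ_two]
  simp

private theorem twoE_degree (m : Fin 2 →₀ ℕ) : m.degree = m 0 + m 1 := by
  rw [Finsupp.degree_eq_sum, Fin.sum_univ_two]

theorem rlz_div (α β : ℕ) (L M e : Λ → ℕ) (F : Λ → MvPolynomial (Fin 2) k)
    (V : MvPolynomial (Fin 2) k) (T : Λ → MvPolynomial (Fin 2) k) (J : MvPolynomial (Fin 2) k)
    (hT : ∀ l, T l = X 0 ^ L l * X 1 ^ M l * F l) (hJ : J = X 0 ^ α * X 1 ^ β * V)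
    (hV : coeff 0 V ≠ 0) (he : ∀ l, ∀ m : Fin 2 →₀ ℕ, m.degree < e l → coeff m (F l) = 0)
    (θ : Fin (divType α β L M e).q → ℕ) (hθ : (divType α β L M e).lo ≤ θ) :
    Rlz (divType α β L M e) θ T J := by
  obtain ⟨t, ht⟩ : ∃ t : ℕ, t = θ (0 : Fin 1) := ⟨_, rfl⟩
  have ht1 : 1 ≤ t := by
    rw [ht]
    exact hθ (0 : Fin 1)
  have ha : (divType α β L M e).aa θ = (2 + α + β) * t := by
    unfold LinType.aa
    have h : ∑ c : Fin 1, (divType α β L M e).A c * θ c = (2 + α + β) * t := by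
      rw [Fin.sum_univ_one, ← ht]
      rfl
    exact h
  have hv : ∀ l, (divType α β L M e).vv l θ = (L l + M l + e l) * t := by
    intro l
    unfold LinType.vv
    have h : ∑ c : Fin 1, (divType α β L M e).val l c * θ c = (L l + M l + e l) * t := by
      rw [Fin.sum_univ_one, ← ht]
      rfl
    exact h
  refine ⟨X, fun _ => t, bir_X, fun b => ?_, ?_, fun l => ?_⟩
  · rw [twoE_X1]
    exact_mod_cast ht1
  · rw [ha, twoE_jacX, twoE_one, aeval_X_left_apply, hJ, wo_mul, wo_mul, twoE_X, twoE_X,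
      twoE_unit _ V hV, Fin.sum_univ_two]
    refine le_of_eq ?_
    push_cast
    ring
  · rw [hv, aeval_X_left_apply, hT, wo_mul, wo_mul, twoE_X, twoE_X]
    have h1 : ((e l * t : ℕ) : ℕ∞) ≤ wo (fun _ => t) (F l) := by
      refine twoE_ge _ _ _ fun m hm => ?_
      rw [twoE_weight]
      have h2 : e l ≤ m.degree := by
        by_contra h3
        exact hm (he l m (not_le.1 h3))
      rw [twoE_degree] at h2
      have h3 := Nat.mul_le_mul_right t h2
      rw [add_mul] at h3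
      exact h3
    have h4 : (((L l + M l + e l) * t : ℕ) : ℕ∞) =
        ((L l * t : ℕ) : ℕ∞) + ((M l * t : ℕ) : ℕ∞) + ((e l * t : ℕ) : ℕ∞) := by
      push_cast
      ring
    rw [h4]
    gcongr

theorem rlz_t0 (α β : ℕ) (L M : Λ → ℕ) (F : Λ → MvPolynomial (Fin 2) k)
    (V : MvPolynomial (Fin 2) k) (T : Λ → MvPolynomial (Fin 2) k) (J : MvPolynomial (Fin 2) k)
    (hT : ∀ l, T l = X 0 ^ L l * X 1 ^ M l * F l) (hJ : J = X 0 ^ α * X 1 ^ β * V)
    (hV : coeff 0 V ≠ 0)
    (θ : Fin (t0Type α β L M).q → ℕ) (hθ : (t0Type α β L M).lo ≤ θ) :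
    Rlz (t0Type α β L M) θ T J := by
  obtain ⟨w, hw⟩ : ∃ w : Fin 2 → ℕ, w = θ := ⟨_, rfl⟩
  have hw1 : ∀ b, 1 ≤ w b := by
    intro b
    rw [hw]
    exact hθ b
  have ha : (t0Type α β L M).aa θ = (1 + α) * w 0 + (1 + β) * w 1 := by
    unfold LinType.aa
    have h : ∑ c : Fin 2, (t0Type α β L M).A c * θ c = (1 + α) * w 0 + (1 + β) * w 1 := by
      rw [Fin.sum_univ_two, hw]
      rfl
    exact h
  have hv : ∀ l, (t0Type α β L M).vv l θ = L l * w 0 + M l * w 1 := by
    intro l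
    unfold LinType.vv
    have h : ∑ c : Fin 2, (t0Type α β L M).val l c * θ c = L l * w 0 + M l * w 1 := by
      rw [Fin.sum_univ_two, hw]
      rfl
    exact h
  refine ⟨X, w, bir_X, fun b => ?_, ?_, fun l => ?_⟩
  · rw [twoE_X1]
    exact_mod_cast hw1 b
  · rw [ha, twoE_jacX, twoE_one, aeval_X_left_apply, hJ, wo_mul, wo_mul, twoE_X, twoE_X,
      twoE_unit _ V hV, Fin.sum_univ_two]
    refine le_of_eq ?_
    push_cast
    ring
  · rw [hv, aeval_X_left_apply, hT, wo_mul, wo_mul, twoE_X, twoE_X]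
    push_cast
    exact le_self_add

private theorem twoE_sh0 (ψ : Polynomial k) :
    sh ψ 0 = X 0 + Polynomial.aeval (X 1) ψ := rfl

private theorem twoE_sh1 (ψ : Polynomial k) : sh ψ 1 = (X 1 : MvPolynomial (Fin 2) k) := rfl

private theorem twoE_aeval_aeval (ψ : Polynomial k) (φ : Fin 2 → MvPolynomial (Fin 2) k) :
    aeval φ (Polynomial.aeval (X 1 : MvPolynomial (Fin 2) k) ψ) =
      Polynomial.aeval (φ 1) ψ := by
  rw [← Polynomial.aeval_algHom_apply, aeval_X]

private theorem twoE_comp (ψ : Polynomial k) (G : MvPolynomial (Fin 2) k) :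
    aeval (sh (-ψ)) (aeval (sh ψ) G) = G := by
  have h : (aeval (sh (-ψ)) : MvPolynomial (Fin 2) k →ₐ[k] MvPolynomial (Fin 2) k).comp
      (aeval (sh ψ)) = AlgHom.id k _ := by
    refine MvPolynomial.algHom_ext fun i => ?_
    fin_cases i
    · change aeval (sh (-ψ)) (aeval (sh ψ) (X 0)) = X 0
      rw [aeval_X, twoE_sh0, map_add, aeval_X, twoE_aeval_aeval, twoE_sh0, twoE_sh1, map_neg]
      ring
    · change aeval (sh (-ψ)) (aeval (sh ψ) (X 1)) = X 1
      rw [aeval_X, twoE_sh1, aeval_X, twoE_sh1]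
  exact congrArg (fun f : MvPolynomial (Fin 2) k →ₐ[k] MvPolynomial (Fin 2) k => f G) h

private theorem twoE_bir (ψ : Polynomial k) : Bir (sh ψ) := by
  constructor
  · intro G hG h
    apply hG
    rw [← twoE_comp ψ G, h, map_zero]
  · intro b
    refine ⟨aeval (sh (-ψ)) (X b : MvPolynomial (Fin 2) k), 1, ?_, ?_⟩
    · rw [map_one]
      exact one_ne_zero
    · have h := twoE_comp (-ψ) (X b : MvPolynomial (Fin 2) k)
      rw [neg_neg] at h
      rw [map_one, mul_one, h]

private theorem twoE_jac (ψ : Polynomial k) : jacP (sh ψ) = 1 := by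
  unfold jacP
  rw [Matrix.det_fin_two]
  simp only [Matrix.of_apply, twoE_sh0, twoE_sh1, pderiv_X, map_add]
  have h : pderiv 0 (Polynomial.aeval (X 1 : MvPolynomial (Fin 2) k) ψ) = 0 := by
    rw [Derivation.map_aeval, pderiv_X]
    simp
  simp [h]

private theorem twoE_const (ψ : Polynomial k) (hψ : ψ.coeff 0 = 0)
    (V : MvPolynomial (Fin 2) k) : coeff 0 (aeval (sh ψ) V) = coeff 0 V := by
  have h1 : ∀ i : Fin 2, (constantCoeff : MvPolynomial (Fin 2) k →+* k) (sh ψ i) = 0 := by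
    intro i
    fin_cases i
    · change constantCoeff (sh ψ 0) = 0
      rw [twoE_sh0, map_add, constantCoeff_X, zero_add, Polynomial.aeval_def,
        Polynomial.hom_eval₂, constantCoeff_X, Polynomial.eval₂_at_zero, hψ, map_zero]
    · change constantCoeff (sh ψ 1) = 0
      rw [twoE_sh1, constantCoeff_X]
  have h2 : (constantCoeff : MvPolynomial (Fin 2) k →+* k).comp
      ((aeval (sh ψ) : MvPolynomial (Fin 2) k →ₐ[k] MvPolynomial (Fin 2) k) :
        MvPolynomial (Fin 2) k →+* MvPolynomial (Fin 2) k) = constantCoeff := by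
    refine MvPolynomial.ringHom_ext (fun a => ?_) fun i => ?_
    · simp
    · rw [RingHom.comp_apply, RingHom.coe_coe, aeval_X, h1, constantCoeff_X]
  exact congrArg (fun f : MvPolynomial (Fin 2) k →+* k => f V) h2

theorem rlz_t1 (β : ℕ) (M N : Λ → ℕ) (F : Λ → MvPolynomial (Fin 2) k)
    (V : MvPolynomial (Fin 2) k) (T : Λ → MvPolynomial (Fin 2) k) (J : MvPolynomial (Fin 2) k)
    (hT : ∀ l, T l = X 1 ^ M l * F l) (hJ : J = X 1 ^ β * V)
    (hV : coeff 0 V ≠ 0)
    (θ : Fin (t1Type β M N).q → ℕ) (hθ : (t1Type β M N).lo ≤ θ) (b a : ℕ)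
    (hb : b = θ (0 : Fin 2)) (ha : a = θ (1 : Fin 2)) (ψ : Polynomial k) (hψ : ψ.coeff 0 = 0)
    (hF : ∀ l, ∀ p q : ℕ, b * p + q < b * N l →
      coeff (mon p q) (aeval (sh ψ) (F l)) = 0) :
    Rlz (t1Type β M N) θ T J := by
  obtain ⟨w, hw⟩ : ∃ w : Fin 2 → ℕ, w = θ := ⟨_, rfl⟩
  have hw1 : ∀ b, 1 ≤ w b := by
    intro b
    rw [hw]
    exact hθ b
  have hbw : b = w 0 := by rw [hb, hw]
  have ha' : (t1Type β M N).aa θ = 1 * w 0 + (1 + β) * w 1 := by
    unfold LinType.aa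
    have h : ∑ c : Fin 2, (t1Type β M N).A c * θ c = 1 * w 0 + (1 + β) * w 1 := by
      rw [Fin.sum_univ_two, hw]
      rfl
    exact h
  have hv : ∀ l, (t1Type β M N).vv l θ = N l * w 0 + M l * w 1 := by
    intro l
    unfold LinType.vv
    have h : ∑ c : Fin 2, (t1Type β M N).val l c * θ c = N l * w 0 + M l * w 1 := by
      rw [Fin.sum_univ_two, hw]
      rfl
    exact h
  refine ⟨sh ψ, w, twoE_bir ψ, fun c => ?_, ?_, fun l => ?_⟩
  · have h1 : coeff 0 (sh ψ c) = 0 := by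
      have h2 := twoE_const ψ hψ (X c)
      rw [aeval_X, MvPolynomial.coeff_zero_X] at h2
      exact h2
    have h3 : ((1 : ℕ) : ℕ∞) ≤ wo w (sh ψ c) := by
      refine twoE_ge _ _ _ fun m hm => ?_
      rw [twoE_weight]
      have hm0 : m ≠ 0 := by
        rintro rfl
        exact hm h1
      by_contra h4
      apply hm0
      have h5 : m 0 * w 0 + m 1 * w 1 = 0 := by omega
      rw [Nat.add_eq_zero_iff, mul_eq_zero, mul_eq_zero] at h5
      have h6 := hw1 0
      have h7 := hw1 1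
      ext i
      fin_cases i
      · change m 0 = 0
        omega
      · change m 1 = 0
        omega
    exact_mod_cast h3
  · rw [ha', twoE_jac, twoE_one, hJ, map_mul, map_pow, aeval_X, twoE_sh1, wo_mul, twoE_X,
      twoE_unit _ (aeval (sh ψ) V) (by rw [twoE_const ψ hψ]; exact hV), Fin.sum_univ_two]
    refine le_of_eq ?_
    push_cast
    ring
  · rw [hv, hT, map_mul, map_pow, aeval_X, twoE_sh1, wo_mul, twoE_X]
    have h1 : ((N l * w 0 : ℕ) : ℕ∞) ≤ wo w (aeval (sh ψ) (F l)) := by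
      refine twoE_ge _ _ _ fun m hm => ?_
      rw [twoE_weight]
      have h2 : b * N l ≤ b * m 0 + m 1 := by
        by_contra h3
        apply hm
        rw [eq_mon m]
        exact hF l _ _ (not_le.1 h3)
      have h4 : m 1 ≤ m 1 * w 1 := Nat.le_mul_of_pos_right _ (hw1 1)
      rw [hbw] at h2
      rw [mul_comm (N l), mul_comm (m 0)]
      omega
    push_cast at h1 ⊢
    rw [add_comm]
    gcongr

end MLD
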