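import Pool.Agent.MLD.CoreA
import Pool.Agent.MLD.Q1
import Pool.Agent.MLD.Dick
import Pool.Agent.MLD.TwoE

/-!
The main theorem: boundedness of divisors computing minimal log discrepancies for ideals
generated by products of polynomials in the blocks of a partition of the variables.
-/

open MvPolynomial Filter

namespace MLD

universe u

theorem noeth_ev {k : Type u} [Field k] {σ : Type} [Finite σ] (S : ℕ → Set (MvPolynomial σ k))
    (hS : ∀ i, (S i).Nonempty) :
    ∃ (N : ℕ) (p : Fin N → ℕ → MvPolynomial σ k), (∀ l i, p l i ∈ S i) ∧ (∀ l, LNZ (p l)) ∧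
      ∀ n : ℕ, ∀ᶠ i in UU, ∀ q ∈ S i, ∃ h : Fin N → MvPolynomial σ k, ∀ m : σ →₀ ℕ,
        m.degree < n → coeff m (q - ∑ l, h l * p l i) = 0 := by
  classical
  obtain ⟨N, p, h1, h2, h3⟩ := noeth_seq S hS
  refine ⟨N, p, h1, h2, fun n => ?_⟩
  let bad : ℕ → MvPolynomial σ k → Prop := fun i q => q ∈ S i ∧
    ¬ ∃ h : Fin N → MvPolynomial σ k, ∀ m : σ →₀ ℕ, m.degree < n →
      coeff m (q - ∑ l, h l * p l i) = 0
  let q : ℕ → MvPolynomial σ k := fun i =>
    if hb : ∃ q, bad i q then hb.choose else (hS i).some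
  have hq : ∀ i, q i ∈ S i := by
    intro i
    by_cases hb : ∃ q, bad i q
    · have : q i = hb.choose := dif_pos hb
      rw [this]
      exact hb.choose_spec.1
    · have : q i = (hS i).some := dif_neg hb
      rw [this]
      exact (hS i).some_mem
  obtain ⟨h, hh⟩ := h3 q hq n
  filter_upwards [hh] with i hi f hf
  by_contra hcon
  have hb : ∃ q, bad i q := ⟨f, hf, hcon⟩
  have : q i = hb.choose := dif_pos hb
  apply hb.choose_spec.2
  refine ⟨fun l => h l i, ?_⟩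
  rw [← this]
  exact hi

variable {k : Type u} [Field k] {σ : Type} [Fintype σ] [DecidableEq σ]
  {β : Type} [Fintype β] [DecidableEq β] (blk : σ → β)

/-- the product of polynomials in the single blocks -/
noncomputable def bprod (g : ∀ b, MvPolynomial {i // blk i = b} k) : MvPolynomial σ k :=
  ∏ b, rename Subtype.val (g b)

/-- ideals generated by products of elements of `𝓕 b` -/
def ClassOf (𝓕 : ∀ b, Set (MvPolynomial {i // blk i = b} k)) (I : Ideal (MvPolynomial σ k)) :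
    Prop :=
  ∃ S : Set (∀ b, MvPolynomial {i // blk i = b} k), (∀ g ∈ S, ∀ b, g b ∈ 𝓕 b) ∧
    I = Ideal.span (bprod blk '' S)

/-- divisors from realized types -/
theorem real_div [CharZero k] [Nonempty σ]
    (p : ∀ b, {i // blk i = b} → MvPolynomial {i // blk i = b} k)
    (w : ∀ b, {i // blk i = b} → ℕ) (A : β → ℕ)
    (hp : ∀ b, Bir (p b)) (h1 : ∀ b c, 1 ≤ wo (w b) (p b c))
    (hA : ∀ b, ((∑ c, w b c : ℕ) : ℕ∞) + wo (w b) (jacP (p b)) ≤ (A b : ℕ)) :
    ∃ (E : DivisorOver k σ) (g A0 : ℕ), 1 ≤ g ∧ E.CenterZero ∧ E.logDisc ≤ ((A0 : ℝ) : EReal) ∧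
      g * A0 ≤ ∑ b, A b ∧
      ∀ f : MvPolynomial σ k, f ≠ 0 → ∃ m : ℕ, E.ord (toFF k σ f) = m ∧
        wo (fun i => w (blk i) ⟨i, rfl⟩)
          (aeval (fun i => rename Subtype.val (p (blk i) ⟨i, rfl⟩) : σ → MvPolynomial σ k) f) =
            ((g * m : ℕ) : ℕ∞) := by
  set P : σ → MvPolynomial σ k := fun i => rename Subtype.val (p (blk i) ⟨i, rfl⟩) with hPdef
  set W : σ → ℕ := fun i => w (blk i) ⟨i, rfl⟩ with hWdef
  have hP : Bir P := comb_bir blk p hp
  have hP1 : ∀ i, 1 ≤ wo W (P i) := by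
    intro i
    rw [hPdef, hWdef]
    simp only
    rw [comb_wo blk w (blk i)]
    exact h1 _ _
  have hsumW : ∑ i, W i = ∑ b, ∑ c, w b c := by
    rw [← Fintype.sum_fiberwise blk W]
    refine Finset.sum_congr rfl fun b _ => Finset.sum_congr rfl fun c _ => ?_
    obtain ⟨i, rfl⟩ := c
    rfl
  have hjac : wo W (jacP P) = ∑ b, wo (w b) (jacP (p b)) := by
    rw [hPdef, comb_jac, wo_prod]
    refine Finset.sum_congr rfl fun b _ => ?_
    exact comb_wo blk w b _
  have htot : ((∑ i, W i : ℕ) : ℕ∞) + wo W (jacP P) ≤ ((∑ b, A b : ℕ) : ℕ∞) := by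
    rw [hsumW, hjac]
    push_cast
    rw [← Finset.sum_add_distrib]
    refine Finset.sum_le_sum fun b _ => ?_
    have := hA b
    push_cast at this
    exact this
  have hJ : jacP P ≠ 0 := by
    intro h0
    rw [h0, wo_zero, add_top] at htot
    exact absurd htot (by simp)
  obtain ⟨E, g, A0, hg, hE, hlog, hgA, hord⟩ := exists_divisor P W hP hP1 hJ
  refine ⟨E, g, A0, hg, hE, hlog, ?_, hord⟩
  rw [← hgA] at htot
  exact_mod_cast htot

/-- estimates from dominating types -/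
theorem dom_div [CharZero k] (E : DivisorOver k σ) (hE : E.CenterZero) {Λ : Type}
    {ι : β → Type} (τ : ∀ b, ι b → LinType Λ) (T : ∀ b, Λ → MvPolynomial {i // blk i = b} k)
    (h : ∀ b, Dom (τ b) (T b) 1) (hT : ∀ b l, T b l ≠ 0) :
    ∃ (t : ∀ b, ι b) (θ : ∀ b, Fin (τ b (t b)).q → ℕ), (∀ b, (τ b (t b)).lo ≤ θ b) ∧
      (((∑ b, (τ b (t b)).aa (θ b) : ℕ) : ℝ) : EReal) ≤ E.logDisc ∧
      ∀ l, E.ord (toFF k σ (bprod blk fun b => T b l)) ≤
        ((∑ b, (τ b (t b)).vv l (θ b) : ℕ) : ℤ) := by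
  have hinj : ∀ G : MvPolynomial σ k, G ≠ 0 → toFF k σ G ≠ 0 := by
    intro G hG h0
    apply hG
    have h2 : (algebraMap (MvPolynomial σ k) (FF k σ)) G = 0 := h0
    exact (map_eq_zero_iff _ (IsFractionRing.injective _ _)).mp h2
  have hren : ∀ b (G : MvPolynomial {i // blk i = b} k),
      aeval (fun c : {i // blk i = b} => xx k c.1) G = toFF k σ (rename Subtype.val G) := by
    intro b G
    have : (aeval (fun c : {i // blk i = b} => xx k c.1) : _ →ₐ[k] FF k σ) =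
        (toFF k σ).comp (rename Subtype.val) := by
      apply MvPolynomial.algHom_ext
      intro c
      rw [aeval_X, AlgHom.comp_apply, rename_X]
      rfl
    rw [this]
    rfl
  have hreninj : ∀ b (G : MvPolynomial {i // blk i = b} k), G ≠ 0 →
      (rename Subtype.val G : MvPolynomial σ k) ≠ 0 := by
    intro b G hG h0
    exact hG (rename_injective _ Subtype.val_injective (by rw [h0, map_zero]))
  have hcen : ∀ b, Cen E.toOrdFn (fun c : {i // blk i = b} => xx k c.1) := by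
    intro b
    refine ⟨fun c => hE c.1, fun G hG => ?_⟩
    rw [hren]
    exact hinj _ (hreninj b G hG)
  have h' := fun b => h b (FF k σ) E.toOrdFn _ (hcen b)
  choose t θ hlo g P hg hP hD hA hV using h'
  refine ⟨t, θ, hlo, ?_, ?_⟩
  · have := comb_logDisc blk E (fun b => ((τ b (t b)).aa (θ b) : ℤ)) (fun b => by
      refine ⟨g b, P b, hg b, hP b, hD b, ?_⟩
      have h1 := hA b
      rw [map_one, E.toOrdFn.ord_one, add_zero] at h1
      exact h1)
    push_cast at this ⊢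
    exact this
  · intro l
    unfold bprod
    rw [map_prod, E.toOrdFn.ord_prod _ _ fun b _ => hinj _ (hreninj b _ (hT b l))]
    push_cast
    refine Finset.sum_le_sum fun b _ => ?_
    rw [← hren]
    exact hV b l

theorem wo_X_one (i : σ) : 1 ≤ wo (fun _ : σ => 1) (X i : MvPolynomial σ k) := by
  classical
  unfold wo
  have : ((1 : ℕ) : ℕ∞) ≤ MvPowerSeries.weightedOrder (fun _ : σ => 1)
      ((X i : MvPolynomial σ k) : MvPowerSeries σ k) := by
    refine MvPowerSeries.nat_le_weightedOrder _ fun d hd => ?_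
    have h0 : d = 0 := by
      by_contra hne
      obtain ⟨j, hj⟩ := Finsupp.ne_iff.mp hne
      rw [Finsupp.weight_apply, Finsupp.sum] at hd
      have h1 : d j • 1 ≤ ∑ a ∈ d.support, d a • 1 :=
        Finset.single_le_sum (f := fun a => d a • 1) (fun _ _ => Nat.zero_le _)
          (Finsupp.mem_support_iff.mpr hj)
      simp only [smul_eq_mul, mul_one] at h1 hd
      have h2 : d j ≠ 0 := hj
      omega
    rw [MvPolynomial.coeff_coe, h0]
    show constantCoeff (X i : MvPolynomial σ k) = 0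
    simp
  exact_mod_cast this

theorem jacP_X : jacP (X : σ → MvPolynomial σ k) = 1 := by
  unfold jacP
  have : (Matrix.of fun i j : σ => pderiv i (X j : MvPolynomial σ k)) = 1 := by
    ext i j
    rw [Matrix.of_apply, pderiv_X, Matrix.one_apply, Pi.single_apply]
    simp only [eq_comm]
  rw [this, Matrix.det_one]

/-- the order along the realized divisor of an ideal with approximated generators -/
theorem ordI_ge_of_gen (E : DivisorOver k σ) (g : ℕ) (P : σ → MvPolynomial σ k) (W : σ → ℕ)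
    (hP : ∀ i, 1 ≤ wo W (P i))
    (hord : ∀ f : MvPolynomial σ k, f ≠ 0 → ∃ m : ℕ, E.ord (toFF k σ f) = m ∧
      wo W (aeval P f) = ((g * m : ℕ) : ℕ∞))
    (S : Set (MvPolynomial σ k)) (hS : Ideal.span S ≠ ⊥) (μ : ℕ) {N : ℕ}
    (p : Fin N → MvPolynomial σ k) (hp : ∀ l, (μ : ℕ∞) ≤ wo W (aeval P (p l)))
    (h : ∀ q ∈ S, ∃ h : Fin N → MvPolynomial σ k, ∀ m : σ →₀ ℕ,
        m.degree < μ → coeff m (q - ∑ l, h l * p l) = 0) :
    μ ≤ g * E.ordI (Ideal.span S) := by
  have hgen : ∀ q ∈ S, (μ : ℕ∞) ≤ wo W (aeval P q) := by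
    intro q hq
    obtain ⟨h, hh⟩ := h q hq
    have h1 : q = (q - ∑ l, h l * p l) + ∑ l, h l * p l := by ring
    rw [h1, map_add]
    refine le_wo_add W (le_wo_aeval W P hP μ _ hh) ?_
    rw [map_sum]
    refine le_wo_sum W _ _ fun l _ => ?_
    rw [map_mul, wo_mul]
    exact (hp l).trans le_add_self
  have hspan : ∀ f ∈ Ideal.span S, (μ : ℕ∞) ≤ wo W (aeval P f) := by
    intro f hf
    refine Submodule.span_induction (p := fun f _ => (μ : ℕ∞) ≤ wo W (aeval P f)) ?_ ?_ ?_ ?_ hf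
    · intro x hx; exact hgen x hx
    · rw [map_zero, wo_zero]; exact le_top
    · intro x y _ _ hx hy
      rw [map_add]; exact le_wo_add W hx hy
    · intro a x _ hx
      rw [smul_eq_mul, map_mul, wo_mul]
      exact hx.trans le_add_self
  obtain ⟨f, hf, hf0, hfo⟩ := ordI_mem E hS
  obtain ⟨m, hm1, hm2⟩ := hord f hf0
  have h1 : m = E.ordI (Ideal.span S) := by
    rw [hfo] at hm1
    exact_mod_cast hm1.symm
  have h2 := hspan f hf
  rw [hm2, h1] at h2
  exact_mod_cast h2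

/-- **Main theorem.** Boundedness for ideals generated by products of polynomials in the classes
`𝓕 b` in the blocks of a partition, if the block theorem holds for all `𝓕 b`. -/
theorem core [CharZero k] [Nonempty σ] (𝓕 : ∀ b, Set (MvPolynomial {i // blk i = b} k))
    (hB : ∀ b, BlockOK k {i // blk i = b} (𝓕 b)) {r : ℕ} (lam : Fin r → ℝ)
    (hlam : ∀ j, 0 ≤ lam j) : Bdd (ClassOf blk 𝓕) lam := by
  classical
  by_contra hcon
  unfold Bdd at hcon
  push Not at hcon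
  choose a ha0 haC hE using hcon
  choose S hS1 hS2 using haC
  have hne : ∀ ℓ j, (bprod blk '' S ℓ j).Nonempty := by
    intro ℓ j
    rw [Set.nonempty_iff_ne_empty]
    intro h0
    apply ha0 ℓ j
    rw [hS2, h0, Ideal.span_empty]
  have hspan : ∀ ℓ j, Ideal.span (bprod blk '' S ℓ j) ≠ ⊥ := by
    intro ℓ j
    rw [← hS2]
    exact ha0 ℓ j
  have hnoeth := fun j => noeth_ev (fun ℓ => bprod blk '' S ℓ j) (fun ℓ => hne ℓ j)
  choose N p hp1 hp2 hp3 using hnoeth
  have hge : ∀ A : ℕ, ∀ᶠ ℓ in UU, A ≤ ℓ := fun A => by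
    have h1 : ∀ᶠ ℓ in (Filter.cofinite : Filter ℕ), A ≤ ℓ := by
      rw [Nat.cofinite_eq_atTop]
      exact eventually_ge_atTop A
    exact h1.filter_mono (hyperfilter_le_cofinite)
  -- the reference divisor
  obtain ⟨E0, g0, A0, hg0, hE0, hlog0, -, hord0⟩ := exists_divisor (k := k) (σ := σ) X
    (fun _ => 1) bir_X wo_X_one (by rw [jacP_X]; exact one_ne_zero)
  -- the limits are not zero
  have hN : ∀ j, 0 < lam j → 0 < N j := by
    intro j hj
    by_contra hN0
    have hN0 : N j = 0 := by omega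
    obtain ⟨n0, hn0⟩ := exists_nat_gt ((A0 : ℝ) / lam j)
    refine core_ev_false ?_
    filter_upwards [hge A0, hp3 j (g0 * n0)] with ℓ hℓ hgen
    have hlogℓ : E0.logDisc ≤ ((ℓ : ℝ) : EReal) := hlog0.trans (by exact_mod_cast hℓ)
    obtain ⟨hpos, -⟩ := hE ℓ E0 hE0 hlogℓ
    have h1 := hpos.trans (aDisc_le E0 lam hlam (a ℓ) A0 hlog0 (fun j => (E0.ordI (a ℓ j) : ℝ))
      (fun _ _ => le_rfl))
    have h2 : 0 ≤ (A0 : ℝ) - ∑ j, lam j * (E0.ordI (a ℓ j) : ℝ) := by exact_mod_cast h1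
    have h3 : lam j * (E0.ordI (a ℓ j) : ℝ) ≤ ∑ j, lam j * (E0.ordI (a ℓ j) : ℝ) :=
      Finset.single_le_sum (f := fun j => lam j * (E0.ordI (a ℓ j) : ℝ))
        (fun i _ => mul_nonneg (hlam i) (Nat.cast_nonneg _)) (Finset.mem_univ j)
    have h4 : (E0.ordI (a ℓ j) : ℝ) < n0 := by
      refine lt_of_le_of_lt ?_ hn0
      rw [le_div_iff₀ hj]
      linarith
    have h5 : E0.ordI (a ℓ j) < n0 := by exact_mod_cast h4
    have h6 : n0 ≤ E0.ordI (a ℓ j) := by
      rw [hS2]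
      refine le_ordI_span E0 (hspan ℓ j) n0 fun f hf hf0 => ?_
      obtain ⟨h, hh⟩ := hgen f hf
      have h7 : ∀ m : σ →₀ ℕ, m.degree < g0 * n0 → coeff m f = 0 := by
        intro m hm
        have h8 := hh m hm
        have h9 : ∑ l, h l * p j l ℓ = 0 := by
          apply Finset.sum_eq_zero
          intro l _
          exact absurd l.2 (by omega)
        rwa [h9, sub_zero] at h8
      have h8 := le_wo_aeval (fun _ : σ => 1) X wo_X_one (g0 * n0) f h7
      obtain ⟨m, hm1, hm2⟩ := hord0 f hf0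
      rw [hm2] at h8
      rw [hm1]
      have h9 : g0 * n0 ≤ g0 * m := by exact_mod_cast h8
      exact_mod_cast Nat.le_of_mul_le_mul_left h9 (by omega)
    omega
  -- factors
  choose G hG1 hG2 using hp1
  let Λ : Type := Σ j : Fin r, Fin (N j)
  let T : ∀ b, Λ → ℕ → MvPolynomial {i // blk i = b} k := fun b l ℓ => G l.1 l.2 ℓ b
  have hTmem : ∀ b l ℓ, T b l ℓ ∈ 𝓕 b := fun b l ℓ => hS1 ℓ l.1 _ (hG1 l.1 l.2 ℓ) b
  have hTprod : ∀ l ℓ, bprod blk (fun b => T b l ℓ) = p l.1 l.2 ℓ := fun l ℓ => hG2 l.1 l.2 ℓ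
  have hTL : ∀ b l, LNZ (T b l) := by
    intro b l
    refine LNZ_of_rename (σ := {i // blk i = b}) (τ := σ) Subtype.val Subtype.val_injective
      (F := T b l) ?_
    refine LNZ_of_mul (G := fun ℓ => ∏ b' ∈ Finset.univ.erase b, rename Subtype.val (T b' l ℓ)) ?_
    have : (fun ℓ => (rename Subtype.val (T b l ℓ) : MvPolynomial σ k) *
        ∏ b' ∈ Finset.univ.erase b, rename Subtype.val (T b' l ℓ)) = p l.1 l.2 := by
      funext ℓ
      rw [← hTprod l ℓ, bprod, ← Finset.mul_prod_erase Finset.univ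
        (fun b => (rename Subtype.val (T b l ℓ) : MvPolynomial σ k)) (Finset.mem_univ b)]
    rw [this]
    exact hp2 l.1 l.2
  have htypes := fun b => hB b Λ (T b) (hTmem b) (hTL b)
  choose ι hι τ hdom hrlz using htypes
  -- the linear data
  let Jt : Type := {j : Fin r // 0 < lam j}
  have hNe : ∀ j : Jt, Nonempty (Fin (N j.1)) := fun j => ⟨⟨0, hN j.1 j.2⟩⟩
  let tup : Type := ∀ b, ι b
  let lo : ∀ t : tup, (Σ b, Fin (τ b (t b)).q) → ℕ := fun t c => (τ c.1 (t c.1)).lo c.2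
  let AA : ∀ t : tup, (Σ b, Fin (τ b (t b)).q) → ℕ := fun t c => (τ c.1 (t c.1)).A c.2
  let vl : ∀ t : tup, ∀ j : Jt, Fin (N j.1) → (Σ b, Fin (τ b (t b)).q) → ℕ :=
    fun t j l c => (τ c.1 (t c.1)).val ⟨j.1, l⟩ c.2
  let μ : ∀ t : tup, ((Σ b, Fin (τ b (t b)).q) → ℕ) → Jt → ℕ := fun t θ j =>
    Finset.univ.inf' Finset.univ_nonempty fun l : Fin (N j.1) => ∑ c, vl t j l c * θ c
  let φ : ∀ t : tup, ((Σ b, Fin (τ b (t b)).q) → ℕ) → ℝ := fun t θ =>
    ((∑ c, AA t c * θ c : ℕ) : ℝ) - ∑ j : Jt, lam j.1 * (μ t θ j : ℝ)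
  have hAA : ∀ (t : tup) (θ : (Σ b, Fin (τ b (t b)).q) → ℕ),
      ∑ c, AA t c * θ c = ∑ b, (τ b (t b)).aa (fun c => θ ⟨b, c⟩) := by
    intro t θ
    rw [Fintype.sum_sigma]
    rfl
  have hvl : ∀ (t : tup) (θ : (Σ b, Fin (τ b (t b)).q) → ℕ) (j : Jt) (l : Fin (N j.1)),
      ∑ c, vl t j l c * θ c = ∑ b, (τ b (t b)).vv ⟨j.1, l⟩ (fun c => θ ⟨b, c⟩) := by
    intro t θ j l
    rw [Fintype.sum_sigma]
    rfl
  have hsumJ : ∀ (f : Jt → ℝ), ∑ j, lam j * (if h : 0 < lam j then f ⟨j, h⟩ else 0) =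
      ∑ j : Jt, lam j.1 * f j := by
    intro f
    exact sum_pos_subtype lam f
  -- upper estimate
  have hU : ∀ (t : tup) (θ : (Σ b, Fin (τ b (t b)).q) → ℕ), lo t ≤ θ →
      0 ≤ φ t θ ∧ ∀ᶠ ℓ in UU, ∃ E : DivisorOver k σ, E.CenterZero ∧
        E.logDisc ≤ (((∑ c, AA t c * θ c : ℕ) : ℝ) : EReal) ∧
        E.aDisc lam (a ℓ) ≤ ((φ t θ : ℝ) : EReal) := by
    intro t θ hθ
    have hkey : ∀ᶠ ℓ in UU, ∃ E : DivisorOver k σ, E.CenterZero ∧
        E.logDisc ≤ (((∑ c, AA t c * θ c : ℕ) : ℝ) : EReal) ∧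
        E.aDisc lam (a ℓ) ≤ ((φ t θ : ℝ) : EReal) ∧ 0 ≤ φ t θ := by
      have e1 := Filter.eventually_all.mpr fun b => hrlz b (t b) (fun c => θ ⟨b, c⟩)
        (fun c => hθ ⟨b, c⟩)
      have e2 := Filter.eventually_all.mpr fun j : Jt => hp3 j.1 (μ t θ j)
      filter_upwards [e1, e2, hge (∑ c, AA t c * θ c)] with ℓ h1 h2 h3
      choose q w hq1 hq2 hq3 hq4 using h1
      obtain ⟨E, g, A1, hg, hEc, hlog, hgA, hord⟩ := real_div blk q w
        (fun b => (τ b (t b)).aa (fun c => θ ⟨b, c⟩)) hq1 hq2 (fun b => by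
          have := hq3 b
          rw [map_one, wo_one, add_zero] at this
          exact this)
      rw [← hAA] at hgA
      have hP1 : ∀ i, 1 ≤ wo (fun i => w (blk i) ⟨i, rfl⟩)
          ((fun i => rename Subtype.val (q (blk i) ⟨i, rfl⟩) : σ → MvPolynomial σ k) i) := by
        intro i
        simp only
        rw [comb_wo blk w (blk i)]
        exact hq2 _ _
      have hμ : ∀ j : Jt, μ t θ j ≤ g * E.ordI (a ℓ j.1) := by
        intro j
        rw [hS2]
        refine ordI_ge_of_gen E g _ _ hP1 hord _ (hspan ℓ j.1) (μ t θ j) (fun l => p j.1 l ℓ)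
          ?_ (h2 j)
        intro l
        have h4 : p j.1 l ℓ = bprod blk (fun b => T b ⟨j.1, l⟩ ℓ) := (hTprod ⟨j.1, l⟩ ℓ).symm
        rw [h4, bprod, map_prod, wo_prod]
        have h5 : ∀ b, wo (fun i => w (blk i) ⟨i, rfl⟩)
            (aeval (fun i => rename Subtype.val (q (blk i) ⟨i, rfl⟩) : σ → MvPolynomial σ k)
              (rename Subtype.val (T b ⟨j.1, l⟩ ℓ))) = wo (w b) (aeval (q b) (T b ⟨j.1, l⟩ ℓ)) := by
          intro b
          rw [comb_aeval, comb_wo]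
        rw [Finset.sum_congr rfl fun b _ => h5 b]
        calc ((μ t θ j : ℕ) : ℕ∞) ≤ ((∑ c, vl t j l c * θ c : ℕ) : ℕ∞) := by
              exact_mod_cast Finset.inf'_le _ (Finset.mem_univ l)
          _ = ∑ b, (((τ b (t b)).vv ⟨j.1, l⟩ (fun c => θ ⟨b, c⟩) : ℕ) : ℕ∞) := by
              rw [hvl]; push_cast; rfl
          _ ≤ _ := Finset.sum_le_sum fun b _ => hq4 b ⟨j.1, l⟩
      have hg' : (0 : ℝ) < g := by exact_mod_cast hg
      have haD := aDisc_le E lam hlam (a ℓ) A1 hlog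
        (fun j => if h : 0 < lam j then ((μ t θ ⟨j, h⟩ : ℝ) / g) else 0) (fun j hj => by
          simp only [dif_pos hj]
          rw [div_le_iff₀ hg', mul_comm]
          exact_mod_cast hμ ⟨j, hj⟩)
      rw [hsumJ (fun j => (μ t θ j : ℝ) / g)] at haD
      have hle : (A1 : ℝ) - ∑ j : Jt, lam j.1 * ((μ t θ j : ℝ) / g) ≤ φ t θ / g := by
        rw [le_div_iff₀ hg', sub_mul, Finset.sum_mul]
        have h5 : (A1 : ℝ) * g ≤ ((∑ c, AA t c * θ c : ℕ) : ℝ) := by
          rw [mul_comm]; exact_mod_cast hgA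
        have h6 : ∑ j : Jt, lam j.1 * ((μ t θ j : ℝ) / g) * g = ∑ j : Jt, lam j.1 * (μ t θ j : ℝ) := by
          refine Finset.sum_congr rfl fun j _ => ?_
          field_simp
        rw [h6]
        exact sub_le_sub_right h5 _
      have hA1 : (A1 : ℝ) ≤ ((∑ c, AA t c * θ c : ℕ) : ℝ) := by
        have : A1 ≤ g * A1 := Nat.le_mul_of_pos_left _ (by omega)
        exact_mod_cast this.trans hgA
      have hlog' : E.logDisc ≤ (((∑ c, AA t c * θ c : ℕ) : ℝ) : EReal) :=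
        hlog.trans (by exact_mod_cast hA1)
      have hpos := (hE ℓ E hEc (hlog'.trans (by exact_mod_cast h3))).1
      have h7 : (0 : ℝ) ≤ φ t θ / g := by
        have := hpos.trans (haD.trans (EReal.coe_le_coe_iff.mpr hle))
        exact_mod_cast this
      have h8 : 0 ≤ φ t θ := by
        have := mul_nonneg h7 hg'.le
        rwa [div_mul_cancel₀ _ hg'.ne'] at this
      have h9 : φ t θ / g ≤ φ t θ := div_le_self h8 (by exact_mod_cast hg)
      exact ⟨E, hEc, hlog', haD.trans (EReal.coe_le_coe_iff.mpr (hle.trans h9)), h8⟩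
    obtain ⟨ℓ, E, -, -, -, h0⟩ := hkey.exists
    exact ⟨h0, hkey.mono fun ℓ ⟨E, h1, h2, h3, _⟩ => ⟨E, h1, h2, h3⟩⟩
  -- lower estimate
  have hL : ∀ᶠ ℓ in UU, ∀ E : DivisorOver k σ, E.CenterZero → ∃ (t : tup)
      (θ : (Σ b, Fin (τ b (t b)).q) → ℕ), lo t ≤ θ ∧
        ((φ t θ : ℝ) : EReal) ≤ E.aDisc lam (a ℓ) := by
    have e1 := Filter.eventually_all.mpr hdom
    have e2 : ∀ᶠ ℓ in UU, ∀ b l, T b l ℓ ≠ 0 := by
      rw [Filter.eventually_all]
      intro b
      rw [Filter.eventually_all]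
      intro l
      obtain ⟨m, hm⟩ := hTL b l
      exact hm.mono fun ℓ h h0 => h (by rw [h0, coeff_zero])
    filter_upwards [e1, e2] with ℓ h1 h2 E hEc
    obtain ⟨t, θ, hlo, hlog, hV⟩ := dom_div blk E hEc τ (fun b l => T b l ℓ) h1 h2
    refine ⟨t, fun c => θ c.1 c.2, fun c => hlo c.1 c.2, ?_⟩
    have h3 := le_aDisc E lam hlam (a ℓ) _ hlog
      (fun j => if h : 0 < lam j then (μ t (fun c => θ c.1 c.2) ⟨j, h⟩ : ℝ) else 0)
      (fun j hj => by
        simp only [dif_pos hj]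
        have h4 : E.ordI (a ℓ j) ≤ μ t (fun c => θ c.1 c.2) ⟨j, hj⟩ := by
          refine Finset.le_inf' _ _ fun l _ => ?_
          rw [hvl]
          have h5 := hV ⟨j, l⟩
          have h6 : bprod blk (fun b => T b ⟨j, l⟩ ℓ) = p j l ℓ := hTprod ⟨j, l⟩ ℓ
          rw [h6] at h5
          have h7 : p j l ℓ ∈ a ℓ j := by
            rw [hS2, ← hG2 j l ℓ]
            exact Ideal.subset_span ⟨_, hG1 j l ℓ, rfl⟩
          have h8 : p j l ℓ ≠ 0 := by
            rw [← h6, bprod, Finset.prod_ne_zero_iff]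
            intro b _ h0
            exact h2 b ⟨j, l⟩ (rename_injective _ Subtype.val_injective (by rw [h0, map_zero]))
          have h9 := (ordI_le E h7 h8).trans h5
          exact_mod_cast h9
        exact_mod_cast h4)
    rw [hsumJ (fun j => (μ t (fun c => θ c.1 c.2) j : ℝ))] at h3
    refine le_trans ?_ h3
    rw [EReal.coe_le_coe_iff]
    have h4 := hAA t (fun c => θ c.1 c.2)
    show ((∑ c, AA t c * θ c.1 c.2 : ℕ) : ℝ) - _ ≤ _
    rw [h4]
  -- the minimum
  have hmin : ∀ t : tup, ∃ θ₀, lo t ≤ θ₀ ∧ ∀ θ, lo t ≤ θ → φ t θ₀ ≤ φ t θ := fun t =>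
    min_attained (lo t) (AA t) (fun j : Jt => Fin (N j.1)) (vl t) (fun j => lam j.1) (φ t)
      (fun θ => rfl) (fun θ hθ => (hU t θ hθ).1)
  choose θ₀ hθ₀ hφmin using hmin
  have hfin : Finite tup := inferInstance
  have hnonempty : Nonempty tup := by
    obtain ⟨ℓ, hℓ⟩ := hL.exists
    obtain ⟨t, -⟩ := hℓ E0 hE0
    exact ⟨t⟩
  obtain ⟨ts, hts⟩ := Finite.exists_min (fun t : tup => φ t (θ₀ t))
  have hend : ∀ᶠ _ℓ : ℕ in UU, False := by
    filter_upwards [(hU ts (θ₀ ts) (hθ₀ ts)).2, hL, hge (∑ c, AA ts c * θ₀ ts c)] with ℓ h1 h2 h3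
    obtain ⟨E, hEc, hlog, haD⟩ := h1
    obtain ⟨-, E', hE'c, hlt⟩ := hE ℓ E hEc (hlog.trans (by exact_mod_cast h3))
    obtain ⟨t, θ, hlo, hle⟩ := h2 E' hE'c
    have h4 := (hle.trans_lt hlt).trans_le haD
    have h5 : φ t θ < φ ts (θ₀ ts) := by exact_mod_cast h4
    have h6 := (hts t).trans (hφmin t θ hlo)
    linarith
  exact core_ev_false hend

end MLD
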