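import Pool.Agent.MLD.ExtVal
import Pool.Agent.MLD.TwoE

/-!
Products of linear forms: definitions. PIECE MLD-L1 (`adapted_basis`), PIECE MLD-L2 (`flag`).

`lf c = ∑ b, c b * X b` is the linear form with coefficients `c`.
PROOF of `adapted_basis`. The sets `V N := {c : B → k | v.ge N (∑ c b • x b)}` are subspaces,
decreasing in `N`, `V N = ⊤` for `N ≤ min ord (x b)`, and `V N = ⊥` for large `N` (every nonzero `c`
has a finite order since `aeval x (lf c) ≠ 0`; finite dimension: the decreasing chain of subspaces
stabilizes, and its intersection is `⊥`). Choose a basis adapted to this finite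
filtration (by induction on the dimension of the space, e.g.: strong induction on `m` for a
`m`-dimensional subspace `W` of `B → k` with at most .. : let `N` be the minimal order of the
nonzero elements of `W`; `W' := W ⊓ V (N+1)` is smaller; take a basis of `W'` by induction and
complete it by a basis of a complement of `W'` in `W`, all of whose nonzero elements have order
exactly `N`). Order the basis so that the orders `w` are decreasing. Then for
`c = ∑ a j • e j` the order of `∑ c b • x b` is the minimum of `w j` over `a j ≠ 0`.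
PROOF of `flag`: `V j := span {c t | s t ≤ j}` is an increasing chain of subspaces with
`finrank (V j) ≤ j + 1`. Construct subspaces `W j ⊇ V j`, `W j ≤ W (j+1)`, `finrank (W j) = j + 1`
(induction on `j`: `W j ⊔ V (j+1)` may be too big! go DOWN instead: `W (N-1) = ⊤`; given
`W (j+1) ⊇ V (j+1) ⊇ V j` of dimension `j+2` choose a subspace `W j` of dimension `j+1` between
`V j` and `W (j+1)`), and a basis `e` with `e j ∈ W j \ W (j-1)`, so `W j = span {e i | i ≤ j}`.
-/

open MvPolynomial Filter

namespace MLD

universe u

variable {k : Type u} [Field k] {B : Type} [Fintype B]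

/-- the linear form with coefficients `c` -/
noncomputable def lf (c : B → k) : MvPolynomial B k := ∑ b, C (c b) * X b

/-- products of linear forms -/
def linProd (k : Type u) [Field k] (B : Type) [Fintype B] : Set (MvPolynomial B k) :=
  {f | ∃ s : Multiset (B → k), f = (s.map lf).prod}

private theorem lin_adapt {K : Type*} [Field K] [Algebra k K] (v : OrdFn k K) :
    ∀ (n : ℕ) (V : Type u) [AddCommGroup V] [Module k V] [FiniteDimensional k V]
      (L : V →ₗ[k] K), Module.finrank k V = n → (∀ c, c ≠ 0 → L c ≠ 0) →
      (∀ c, c ≠ 0 → 1 ≤ v.ord (L c)) →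
      ∃ (e : Module.Basis (Fin n) k V) (w : Fin n → ℕ), Antitone w ∧
        (∀ j, v.ord (L (e j)) = w j) ∧
        ∀ (c : V) (j : Fin n), e.repr c j ≠ 0 → (∀ i, j < i → e.repr c i = 0) →
          v.ord (L c) = w j := by
  intro n
  induction n with
  | zero =>
    intro V _ _ _ L hn hL hpos
    refine ⟨Module.finBasisOfFinrankEq k V hn, fun j => j.elim0, ?_, fun j => j.elim0,
      fun c j => j.elim0⟩
    intro i
    exact i.elim0
  | succ n ih =>
    intro V _ _ _ L hn hL hpos
    classical
    have hex : ∃ m : ℕ, ∃ c : V, c ≠ 0 ∧ v.ord (L c) = m := by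
      obtain ⟨c, hc⟩ : ∃ c : V, c ≠ 0 := by
        have : Nontrivial V := Module.nontrivial_of_finrank_pos (R := k) (by omega)
        exact exists_ne 0
      refine ⟨(v.ord (L c)).toNat, c, hc, ?_⟩
      have := hpos c hc
      omega
    obtain ⟨N, ⟨c₀, hc₀, hN⟩, hNmin⟩ : ∃ N : ℕ, (∃ c : V, c ≠ 0 ∧ v.ord (L c) = N) ∧
        ∀ m : ℕ, m < N → ¬ ∃ c : V, c ≠ 0 ∧ v.ord (L c) = m :=
      ⟨Nat.find hex, Nat.find_spec hex, fun m hm => Nat.find_min hex hm⟩
    have hmin : ∀ c : V, c ≠ 0 → (N : ℤ) ≤ v.ord (L c) := by
      intro c hc
      by_contra hlt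
      have h1 := hpos c hc
      exact hNmin (v.ord (L c)).toNat (by omega) ⟨c, hc, by omega⟩
    let U : Submodule k V :=
      { carrier := {c | v.ge (N + 1) (L c)}
        add_mem' := by
          intro a b ha hb
          change v.ge (N + 1) (L (a + b))
          rw [map_add]
          exact v.ge_add ha hb
        zero_mem' := by
          change v.ge (N + 1) (L 0)
          rw [map_zero]
          exact v.ge_zero _
        smul_mem' := by
          intro a c hc
          change v.ge (N + 1) (L (a • c))
          rw [map_smul, Algebra.smul_def]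
          have h1 := v.ge_mul (v.ge_const a) hc
          rwa [zero_add] at h1 }
    have hUmem : ∀ c : V, c ∈ U ↔ v.ge (N + 1) (L c) := fun c => Iff.rfl
    have hU : U < ⊤ := by
      rw [lt_top_iff_ne_top]
      intro h
      have h1 : c₀ ∈ U := by rw [h]; exact Submodule.mem_top
      rcases (hUmem c₀).mp h1 with h2 | h2
      · exact hL c₀ hc₀ h2
      · omega
    obtain ⟨φ, hφ, hUφ⟩ := U.exists_le_ker_of_lt_top hU
    obtain ⟨y, hy⟩ : ∃ y, φ y ≠ 0 := by
      by_contra h
      push Not at h
      exact hφ (LinearMap.ext h)
    have hy0 : y ≠ 0 := by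
      rintro rfl
      exact hy (map_zero φ)
    have hyU : ∀ c : V, φ c ≠ 0 → v.ord (L c) = N := by
      intro c hc
      have hc0 : c ≠ 0 := by
        rintro rfl
        exact hc (map_zero φ)
      have h1 : ¬ v.ge (N + 1) (L c) := fun h => hc (hUφ h)
      have h2 : ¬ ((N : ℤ) + 1 ≤ v.ord (L c)) := fun h => h1 (Or.inr h)
      have h3 := hmin c hc0
      omega
    have hker : Module.finrank k (LinearMap.ker φ) = n := by
      have := Module.Dual.finrank_ker_add_one_of_ne_zero hφ
      omega
    obtain ⟨e', w', hw', he', hc'⟩ := ih (LinearMap.ker φ)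
      (L.comp (LinearMap.ker φ).subtype) hker
      (fun c hc => hL c fun h => hc (Subtype.ext h))
      (fun c hc => hpos c fun h => hc (Subtype.ext h))
    have hli : ∀ (c : k), ∀ z ∈ LinearMap.ker φ, c • y + z = 0 → c = 0 := by
      intro c z hz h
      have h1 := congrArg φ h
      rw [map_add, map_smul, LinearMap.mem_ker.mp hz, add_zero, map_zero, smul_eq_mul] at h1
      exact (mul_eq_zero.mp h1).resolve_right hy
    have hsp : ∀ z : V, ∃ c : k, z + c • y ∈ LinearMap.ker φ := by
      intro z
      refine ⟨-(φ z / φ y), ?_⟩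
      rw [LinearMap.mem_ker, map_add, map_smul, smul_eq_mul]
      field_simp
      ring
    have hw'N : ∀ i, N ≤ w' i := by
      intro i
      have h1 := he' i
      have h2 : ((e' i : LinearMap.ker φ) : V) ≠ 0 := fun h => e'.ne_zero i (Subtype.ext h)
      have h3 := hmin _ h2
      have h4 : v.ord (L ((e' i : LinearMap.ker φ) : V)) = w' i := h1
      omega
    have hesc : ∀ i : Fin n, Module.Basis.mkFinSnoc e' y hli hsp (Fin.castSucc i) =
        ((e' i : LinearMap.ker φ) : V) := by
      intro i
      rw [Module.Basis.coe_mkFinSnoc, Fin.snoc_castSucc]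
      rfl
    have hela : Module.Basis.mkFinSnoc e' y hli hsp (Fin.last n) = y := by
      rw [Module.Basis.coe_mkFinSnoc, Fin.snoc_last]
    set e := Module.Basis.mkFinSnoc e' y hli hsp with hedef
    have hsum : ∀ c : V, c = ((∑ i : Fin n, e.repr c (Fin.castSucc i) • e' i :
        LinearMap.ker φ) : V) + e.repr c (Fin.last n) • y := by
      intro c
      conv_lhs => rw [← e.sum_repr c]
      rw [Fin.sum_univ_castSucc, hela]
      congr 1
      rw [Submodule.coe_sum]
      refine Finset.sum_congr rfl fun i _ => ?_
      rw [hesc]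
      rfl
    refine ⟨e, Fin.snoc w' N, ?_, ?_, ?_⟩
    · intro i j hij
      induction j using Fin.lastCases with
      | last =>
        rw [Fin.snoc_last]
        induction i using Fin.lastCases with
        | last => rw [Fin.snoc_last]
        | cast i => rw [Fin.snoc_castSucc]; exact hw'N i
      | cast j =>
        induction i using Fin.lastCases with
        | last =>
          exfalso
          have := Fin.castSucc_lt_last j
          exact absurd hij (not_le.mpr this)
        | cast i =>
          rw [Fin.snoc_castSucc, Fin.snoc_castSucc]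
          exact hw' (Fin.castSucc_le_castSucc_iff.mp hij)
    · intro j
      induction j using Fin.lastCases with
      | last => rw [Fin.snoc_last, hela]; exact hyU y hy
      | cast j => rw [Fin.snoc_castSucc, hesc]; exact he' j
    · intro c j hcj hij
      induction j using Fin.lastCases with
      | last =>
        rw [Fin.snoc_last]
        apply hyU
        rw [hsum c, map_add, LinearMap.mem_ker.mp (Subtype.prop _), zero_add, map_smul,
          smul_eq_mul]
        exact mul_ne_zero hcj hy
      | cast j =>
        rw [Fin.snoc_castSucc]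
        have h1 : e.repr c (Fin.last n) = 0 := hij _ (Fin.castSucc_lt_last j)
        have h2 := hsum c
        rw [h1, zero_smul, add_zero] at h2
        have h3 : ∀ i, e'.repr (∑ i : Fin n, e.repr c (Fin.castSucc i) • e' i) i =
            e.repr c (Fin.castSucc i) := by
          intro i
          rw [e'.repr_sum_self]
        have h4 := hc' (∑ i : Fin n, e.repr c (Fin.castSucc i) • e' i) j
          (by rw [h3]; exact hcj)
          (fun i hi => by
            rw [h3]
            exact hij _ (Fin.castSucc_lt_castSucc_iff.mpr hi))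
        rw [← h4]
        conv_lhs => rw [h2]
        rfl

private theorem lin_aeval {K : Type*} [Field K] [Algebra k K] (x : B → K) (c : B → k) :
    aeval x (lf c) = ∑ b, algebraMap k K (c b) * x b := by
  rw [lf, map_sum]
  refine Finset.sum_congr rfl fun b _ => ?_
  rw [map_mul, aeval_C, aeval_X]

private theorem lin_lf_ne_zero (c : B → k) (hc : c ≠ 0) : lf c ≠ 0 := by
  classical
  intro h
  apply hc
  funext b₀
  have h1 : coeff (Finsupp.single b₀ 1) (lf c) = c b₀ := by
    rw [lf, coeff_sum, Finset.sum_eq_single b₀]
    · rw [coeff_C_mul, coeff_X, if_pos rfl, mul_one]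
    · intro b _ hb
      rw [coeff_C_mul, coeff_X, if_neg, mul_zero]
      intro h2
      exact hb (Finsupp.single_left_injective one_ne_zero h2)
    · intro h2
      exact absurd (Finset.mem_univ _) h2
  rw [← h1, h, coeff_zero]
  rfl

/-- a basis of the space of linear forms adapted to the valuation `v` -/
theorem adapted_basis {K : Type*} [Field K] [Algebra k K] (v : OrdFn k K) (x : B → K)
    (hx : ∀ b, 0 < v.ord (x b)) (hind : ∀ G : MvPolynomial B k, G ≠ 0 → aeval x G ≠ 0) :
    ∃ (e : Module.Basis (Fin (Fintype.card B)) k (B → k)) (w : Fin (Fintype.card B) → ℕ),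
      Antitone w ∧ (∀ j, 1 ≤ w j) ∧
      (∀ j, v.ord (aeval x (lf (e j))) = w j) ∧
      ∀ (c : B → k) (j : Fin (Fintype.card B)), e.repr c j ≠ 0 → (∀ i, j < i → e.repr c i = 0) →
        v.ord (aeval x (lf c)) = w j := by
  let L : (B → k) →ₗ[k] K :=
    { toFun := fun c => aeval x (lf c)
      map_add' := by
        intro c d
        rw [lin_aeval, lin_aeval, lin_aeval, ← Finset.sum_add_distrib]
        refine Finset.sum_congr rfl fun b _ => ?_
        rw [Pi.add_apply, map_add, add_mul]
      map_smul' := by
        intro a c
        rw [lin_aeval, lin_aeval, RingHom.id_apply, Finset.smul_sum]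
        refine Finset.sum_congr rfl fun b _ => ?_
        rw [Pi.smul_apply, smul_eq_mul, map_mul, Algebra.smul_def, mul_assoc] }
  have hL : ∀ c : B → k, L c = aeval x (lf c) := fun c => rfl
  have hL0 : ∀ c : B → k, c ≠ 0 → L c ≠ 0 := fun c hc => hind _ (lin_lf_ne_zero c hc)
  have hpos : ∀ c : B → k, c ≠ 0 → 1 ≤ v.ord (L c) := by
    intro c hc
    have h1 : v.ge 1 (L c) := by
      rw [hL, lin_aeval]
      refine v.ge_sum _ _ fun b _ => ?_
      have h2 := v.ge_mul (v.ge_const (c b)) (f := algebraMap k K (c b)) (g := x b) (N := 1)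
        (Or.inr (hx b))
      rwa [zero_add] at h2
    rcases h1 with h1 | h1
    · exact absurd h1 (hL0 c hc)
    · exact h1
  obtain ⟨e, w, h1, h2, h3⟩ := lin_adapt v (Fintype.card B) (B → k) L
    (Module.finrank_fintype_fun_eq_card k) hL0 hpos
  refine ⟨e, w, h1, fun j => ?_, h2, h3⟩
  have h4 := hpos (e j) (e.ne_zero j)
  rw [h2 j] at h4
  exact_mod_cast h4

end MLD
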