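import Pool.Agent.MLD.LinB
import Pool.Agent.MLD.Lin

/-!
PIECE MLD-L3: the block theorem for products of linear forms.

PROOF. Let `N := Fintype.card B`. `F l i = ∏ lf (c)`, `c` in a multiset of cardinality `n l i`. `F l i`
is homogeneous of degree `n l i` (or zero); since the limit is nonzero, `n l i = n l` is constant
for almost all `i` (the degree of the monomial in `LNZ`), and `F l i ≠ 0`, so all factors are nonzero.
Choose `c (l,t) : ℕ → (B → k)`, `t < n l`, with `F l i = ∏ t, lf (c (l,t) i)` for almost all `i`, and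
`Θ := Σ l, Fin (n l)`. For every subset `S` of `Θ` the rank
`finrank (span {c θ i | θ ∈ S})` is constant `= r S` for almost all `i` (bounded by `N`;
`Ultrafilter.eventually_exists_iff`), finitely many `S`.
Types: `ι := {s : Θ → Fin N | ∀ j, r {θ | s θ ≤ j} ≤ j + 1}`, parameters `δ : Fin N → ℕ`,
`lo j = 1` for the last `j` (`j = N - 1`) and `0` otherwise, weights `w j := ∑ i ≥ j, δ i`,
`A i := i + 1` (so `A · δ = ∑ w j`), `val l i := #{t | s (l,t) ≤ i}` (so `val l · δ = ∑ t, w (s (l,t))`).
`Dom` (for all `i` with `r` and the factorization correct): `adapted_basis` gives `e, w`;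
`s θ :=` the largest `j` with `e.repr (c θ i) j ≠ 0`; the `c θ i` with `s θ ≤ j` lie in
`span {e i | i ≤ j}`, so the rank condition holds; `δ j := w j - w (j+1)` (`w N = 0`); `g b :=
aeval x (lf (e j))` (reindex `B ≃ Fin N`), `P` = constant invertible matrix of the `e j`,
`det P` a nonzero constant of order `0`; `∑ ord g = ∑ w j`; `ord (aeval x (F l i)) =
∑ t, w (s (l,t))`.
`Rlz`: `flag` gives a basis `e` with `c θ i ∈ span {e j | j ≤ s θ}`; substitution `p b := ∑ j, (e^* b) ..`
i.e. the linear substitution with `aeval p (lf (e j)) = X j` (variables reindexed by `B ≃ Fin N`),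
weights `w`; then `aeval p (lf (c θ i))` is a linear form in the `X j`, `j ≤ s θ`, of weight
`≥ w (s θ)`. `Bir p`: inverse linear substitution; `jacP p` is a nonzero constant.
For `B` empty everything is trivial (`N = 0`, all `F l i = 1` or `n l i = 0`; forms are `0`).
-/

open MvPolynomial Filter

namespace MLD

universe u

section

variable {k : Type u} [Field k] {B : Type} [Fintype B]

private theorem LB_const {N : ℕ} (f : ℕ → ℕ) (h : ∀ i, f i ≤ N) :
    ∃ a, ∀ᶠ i in UU, f i = a := by
  have h1 : ∀ᶠ i in (UU : Filter ℕ), ∃ a : Fin (N + 1), f i = a :=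
    Filter.Eventually.of_forall fun i => ⟨⟨f i, Nat.lt_succ_of_le (h i)⟩, rfl⟩
  obtain ⟨a, ha⟩ := Ultrafilter.eventually_exists_iff.1 h1
  exact ⟨a, ha⟩

private theorem LB_lf_zero : lf (0 : B → k) = 0 := by
  simp [lf]

private theorem LB_lf_sum {ι : Type*} (s : Finset ι) (a : ι → k) (c : ι → B → k) :
    lf (∑ i ∈ s, a i • c i) = ∑ i ∈ s, C (a i) * lf (c i) := by
  simp only [lf, Finset.sum_apply, Pi.smul_apply, smul_eq_mul, map_sum, map_mul,
    Finset.sum_mul, Finset.mul_sum]
  rw [Finset.sum_comm]
  refine Finset.sum_congr rfl fun i _ => Finset.sum_congr rfl fun b _ => ?_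
  ring

private theorem LB_lf_single [DecidableEq B] (b : B) : lf (Pi.single b (1 : k)) = X b := by
  simp only [lf]
  rw [Finset.sum_eq_single b]
  · simp
  · intro b' _ h
    simp [Pi.single_eq_of_ne h]
  · intro h
    exact absurd (Finset.mem_univ b) h

private theorem LB_homog (c : B → k) : (lf c).IsHomogeneous 1 := by
  unfold lf
  refine IsHomogeneous.sum _ _ _ fun b _ => ?_
  have := (isHomogeneous_C B (c b)).mul (isHomogeneous_X k b)
  simpa using this

private theorem LB_homog_prod (s : Multiset (B → k)) :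
    ((s.map lf).prod).IsHomogeneous (Multiset.card s) := by
  induction s using Multiset.induction_on with
  | empty => simpa using isHomogeneous_one B k
  | cons a s ih =>
    rw [Multiset.map_cons, Multiset.prod_cons, Multiset.card_cons, add_comm]
    exact (LB_homog a).mul ih

private theorem LB_factor (s : Multiset (B → k)) (n : ℕ) (h : Multiset.card s = n) :
    ∃ c : Fin n → (B → k), (s.map lf).prod = ∏ t, lf (c t) := by
  subst h
  obtain ⟨l, rfl⟩ : ∃ l : List (B → k), s = (l : Multiset (B → k)) := ⟨s.toList, by simp⟩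
  refine ⟨fun t => l.get (t.cast (by simp)), ?_⟩
  rw [Multiset.map_coe, Multiset.prod_coe]
  rw [← List.prod_ofFn]
  congr 1
  apply List.ext_get
  · simp
  · intro m h1 h2
    simp

end

private theorem LB_sum_swap {N : ℕ} {T : Type*} [Fintype T] (s : T → Fin N) (δ : Fin N → ℕ) :
    ∑ i, (Finset.univ.filter fun t => s t ≤ i).card * δ i =
      ∑ t, ∑ i ∈ Finset.univ.filter (fun i => s t ≤ i), δ i := by
  simp only [Finset.card_filter, Finset.sum_mul, Finset.sum_filter]
  rw [Finset.sum_comm]
  refine Finset.sum_congr rfl fun t _ => Finset.sum_congr rfl fun i _ => ?_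
  split_ifs <;> simp

private theorem LB_card {N : ℕ} (i : Fin N) :
    (Finset.univ.filter fun t : Fin N => t ≤ i).card = (i : ℕ) + 1 := by
  have h : (Finset.univ.filter fun t : Fin N => t ≤ i) = Finset.Iic i := by
    ext t
    simp
  rw [h, Fin.card_Iic]

private theorem LB_tel {N : ℕ} (w : Fin N → ℕ) (hw : Antitone w) (hw1 : ∀ j, 1 ≤ w j) :
    ∃ δ : Fin N → ℕ, (∀ j : Fin N, (j : ℕ) + 1 = N → 1 ≤ δ j) ∧
      ∀ j, ∑ i ∈ Finset.univ.filter (fun i => j ≤ i), δ i = w j := by
  let w' : ℕ → ℕ := fun m => if h : m < N then w ⟨m, h⟩ else 0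
  have hw' : ∀ j : Fin N, w' j = w j := fun j => by simp [w']
  have hanti : ∀ m, w' (m + 1) ≤ w' m := by
    intro m
    by_cases h1 : m + 1 < N
    · have h0 : m < N := by omega
      simp only [w', h1, h0, dif_pos]
      exact hw (by simp [Fin.le_def])
    · simp [w', h1]
  have htel : ∀ d m, m + d = N → ∑ i ∈ Finset.Ico m N, (w' i - w' (i + 1)) = w' m := by
    intro d
    induction d with
    | zero =>
      intro m hm
      have : m = N := by omega
      subst this
      simp [w']
    | succ d ih =>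
      intro m hm
      rw [Finset.sum_eq_sum_Ico_succ_bot (by omega : m < N), ih (m + 1) (by omega)]
      have := hanti m
      omega
  refine ⟨fun j => w' j - w' (j + 1), ?_, ?_⟩
  · intro j hj
    have h1 : w' ((j : ℕ) + 1) = 0 := by simp [w', hj]
    simp only [h1, hw', Nat.sub_zero]
    exact hw1 j
  · intro j
    have h1 := htel (N - j) j (by omega)
    rw [← hw' j, ← h1]
    rw [← Finset.sum_image (f := fun m : ℕ => w' m - w' (m + 1))
      (s := Finset.univ.filter (fun i : Fin N => j ≤ i)) (g := fun i : Fin N => (i : ℕ))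
      (fun a _ b _ h => Fin.ext h)]
    congr 1
    ext m
    simp only [Finset.mem_image, Finset.mem_filter, Finset.mem_univ, true_and, Finset.mem_Ico]
    constructor
    · rintro ⟨i, hi, rfl⟩
      exact ⟨hi, i.2⟩
    · rintro ⟨h2, h3⟩
      exact ⟨⟨m, h3⟩, h2, rfl⟩

section

variable {k : Type u} [Field k] {B : Type} [Fintype B]

private theorem LB_wo_lf (w : B → ℕ) (c : B → k) (N : ℕ) (h : ∀ b, c b ≠ 0 → N ≤ w b) :
    (N : ℕ∞) ≤ wo w (lf c) := by
  classical
  refine MvPowerSeries.nat_le_weightedOrder w fun d hd => ?_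
  rw [MvPolynomial.coeff_coe]
  simp only [lf, coeff_sum, coeff_C_mul]
  refine Finset.sum_eq_zero fun b _ => ?_
  rw [MvPolynomial.coeff_X]
  split_ifs with h1
  · subst h1
    by_cases hc : c b = 0
    · simp [hc]
    · have := h b hc
      rw [Finsupp.weight_single] at hd
      simp at hd
      omega
  · simp

omit [Fintype B] in
private theorem LB_wo_C (w : B → ℕ) (a : k) (ha : a ≠ 0) : wo w (C a : MvPolynomial B k) = 0 := by
  rw [wo, MvPolynomial.coe_C]
  have h2 := MvPowerSeries.weightedOrder_monomial_of_ne_zero w (d := (0 : B →₀ ℕ)) ha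
  rw [map_zero] at h2
  simpa using h2

omit [Fintype B] in
private theorem LB_wo_prod (w : B → ℕ) {ι : Type} (s : Finset ι) (f : ι → MvPolynomial B k)
    (N : ι → ℕ) (h : ∀ t ∈ s, (N t : ℕ∞) ≤ wo w (f t)) :
    ((∑ t ∈ s, N t : ℕ) : ℕ∞) ≤ wo w (∏ t ∈ s, f t) := by
  classical
  induction s using Finset.induction_on with
  | empty => simp
  | insert a s ha ih =>
    rw [Finset.sum_insert ha, Finset.prod_insert ha, wo_mul]
    push_cast
    refine add_le_add (h a (Finset.mem_insert_self a s)) ?_
    have := ih fun t ht => h t (Finset.mem_insert_of_mem ht)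
    exact_mod_cast this

private theorem LB_aeval_lf {A : Type*} [CommRing A] [Algebra k A] (p : B → A) (c : B → k) :
    aeval p (lf c) = ∑ b, algebraMap k A (c b) * p b := by
  simp [lf]

private theorem LB_pderiv [DecidableEq B] (i : B) (c : B → k) : pderiv i (lf c) = C (c i) := by
  simp only [lf, map_sum, Derivation.leibniz, pderiv_C, pderiv_X, smul_eq_mul, mul_zero,
    add_zero]
  rw [Finset.sum_eq_single i]
  · simp
  · intro b _ h
    rw [Pi.single_eq_of_ne h, mul_zero]
  · intro h
    exact absurd (Finset.mem_univ i) h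

/-- Realization from an adapted flag. -/
private theorem LB_subst [DecidableEq B] (φ : B ≃ Fin (Fintype.card B))
    (e : Module.Basis (Fin (Fintype.card B)) k (B → k)) :
    ∃ p : B → MvPolynomial B k, Bir p ∧
      (∀ c, aeval p (lf c) = lf (fun b => e.repr c (φ b))) ∧
      (∀ b, p b = lf (fun b' => e.repr (Pi.single b 1) (φ b'))) ∧
      ∃ a : k, a ≠ 0 ∧ jacP p = C a := by
  let A : B → B → k := fun b b' => e.repr (Pi.single b 1) (φ b')
  have hA : ∀ c : B → k, (∑ b, c b • A b) = fun b => e.repr c (φ b) := by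
    intro c
    funext b'
    have h1 : c = ∑ b, c b • (Pi.single b (1 : k) : B → k) := by
      funext b
      simp [Finset.sum_apply, Pi.single_apply]
    conv_rhs => rw [h1]
    simp only [map_sum, map_smul, Finsupp.coe_finsetSum, Finsupp.coe_smul, Finset.sum_apply,
      Pi.smul_apply, A]
  have hp : ∀ c : B → k, aeval (fun b => lf (A b)) (lf c) = lf (fun b => e.repr c (φ b)) := by
    intro c
    rw [LB_aeval_lf, ← hA c, LB_lf_sum]
    rfl
  let q : B → MvPolynomial B k := fun b => lf (e (φ b))
  have hq : ∀ c : B → k, aeval q (lf c) = lf (∑ b, c b • e (φ b)) := by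
    intro c
    rw [LB_aeval_lf, LB_lf_sum]
    rfl
  have hqp : ∀ b, aeval q (lf (A b)) = X b := by
    intro b
    rw [hq, ← LB_lf_single (k := k) b]
    congr 1
    have h1 := e.sum_repr (Pi.single b 1)
    rw [← h1]
    exact Equiv.sum_comp φ (fun j => e.repr (Pi.single b 1) j • e j)
  have hpq : ∀ b, aeval (fun b => lf (A b)) (q b) = X b := by
    intro b
    simp only [q]
    rw [hp, ← LB_lf_single (k := k) b]
    congr 1
    funext b'
    rw [e.repr_self, Finsupp.single_apply, Pi.single_apply]
    by_cases h : b' = b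
    · subst h; simp
    · have : φ b ≠ φ b' := fun h' => h (φ.injective h').symm
      simp [h, this]
  have hcomp : ∀ G : MvPolynomial B k, aeval q (aeval (fun b => lf (A b)) G) = G := by
    intro G
    have h1 : ((aeval q : MvPolynomial B k →ₐ[k] MvPolynomial B k).comp
        (aeval (fun b => lf (A b)))) = AlgHom.id k _ := by
      apply MvPolynomial.algHom_ext
      intro b
      rw [AlgHom.comp_apply, aeval_X, hqp b]
      rfl
    have h2 := congrArg (fun f : MvPolynomial B k →ₐ[k] MvPolynomial B k => f G) h1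
    exact h2
  refine ⟨fun b => lf (A b), ⟨?_, ?_⟩, hp, fun b => rfl, ?_⟩
  · intro G hG h0
    apply hG
    rw [← hcomp G, h0, map_zero]
  · intro b
    refine ⟨q b, 1, by simp, ?_⟩
    rw [map_one, mul_one, hpq b]
  · let M : Matrix B B k := Matrix.of fun i j => A j i
    refine ⟨M.det, ?_, ?_⟩
    · -- `M` is invertible
      let M' : Matrix B B k := Matrix.of fun i j => e (φ i) j
      have hMM : M' * M.transpose = 1 := by
        ext i j
        rw [Matrix.mul_apply, Matrix.one_apply]
        have h1 := congrFun (hA (e (φ i))) j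
        simp only [Finset.sum_apply, Pi.smul_apply, smul_eq_mul] at h1
        have h2 : ∑ b, M' i b * M.transpose b j = ∑ b, e (φ i) b * A b j := rfl
        rw [h2, h1, e.repr_self, Finsupp.single_apply]
        simp [φ.injective.eq_iff]
      intro h0
      have h3 := congrArg Matrix.det hMM
      rw [Matrix.det_mul, Matrix.det_transpose, h0, mul_zero, Matrix.det_one] at h3
      exact zero_ne_one h3
    · have h4 : jacP (fun b => lf (A b)) = ((C : k →+* MvPolynomial B k).mapMatrix M).det := by
        unfold jacP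
        congr 1
        ext1 i j
        simp only [Matrix.of_apply, LB_pderiv, RingHom.mapMatrix_apply, Matrix.map_apply, M]
      rw [h4, ← RingHom.map_det]

private noncomputable def LBtype {Λ : Type} {N : ℕ} (n : Λ → ℕ)
    (s : (Σ l, Fin (n l)) → Fin N) : LinType Λ :=
  ⟨N, fun j => if (j : ℕ) + 1 = N then 1 else 0, fun i => i + 1,
    fun l i => (Finset.univ.filter fun t : Fin (n l) => s ⟨l, t⟩ ≤ i).card⟩

private theorem LB_rlz [DecidableEq B] {Λ : Type} [Finite Λ] (n : Λ → ℕ)
    (s : (Σ l, Fin (n l)) → Fin (Fintype.card B)) (c : (Σ l, Fin (n l)) → (B → k))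
    (F : Λ → MvPolynomial B k) (hF : ∀ l, F l = ∏ t, lf (c ⟨l, t⟩))
    (h : ∀ j : Fin (Fintype.card B),
      Module.finrank k (Submodule.span k (c '' {t | s t ≤ j})) ≤ j + 1)
    (δ : Fin (Fintype.card B) → ℕ) (hδ : (LBtype n s).lo ≤ δ) :
    Rlz (LBtype n s) δ F 1 := by
  classical
  obtain ⟨e, he⟩ := flag2 c s h
  let φ := Fintype.equivFin B
  obtain ⟨p, hb, hp, hpb, a, ha, hj⟩ := LB_subst φ e
  let w : Fin (Fintype.card B) → ℕ := fun j => ∑ i ∈ Finset.univ.filter (fun i => j ≤ i), δ i
  have hanti : Antitone w := by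
    intro i j hij
    refine Finset.sum_le_sum_of_subset ?_
    intro m hm
    simp only [Finset.mem_filter, Finset.mem_univ, true_and] at hm ⊢
    exact hij.trans hm
  have hw1 : ∀ j, 1 ≤ w j := by
    intro j
    have hN : 0 < Fintype.card B := lt_of_le_of_lt (Nat.zero_le _) j.2
    let m : Fin (Fintype.card B) := ⟨Fintype.card B - 1, by omega⟩
    have h1 : 1 ≤ δ m := by
      have h0 := hδ m
      have h2 : (LBtype n s).lo m = 1 := by
        show (if ((m : ℕ) + 1 = Fintype.card B) then 1 else 0) = 1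
        rw [if_pos]
        simp only [m]
        omega
      rw [h2] at h0
      exact h0
    have hjm : j ≤ m := by
      rw [Fin.le_def]
      simp only [m]
      have := j.2
      omega
    have h2 : δ m ≤ w j := Finset.single_le_sum (f := δ) (fun _ _ => Nat.zero_le _)
      (Finset.mem_filter.2 ⟨Finset.mem_univ m, hjm⟩)
    omega
  refine ⟨p, fun b => w (φ b), hb, ?_, ?_, ?_⟩
  · intro b
    rw [hpb]
    exact LB_wo_lf _ _ 1 fun b' _ => hw1 _
  · have h1 : wo (fun b => w (φ b)) (1 : MvPolynomial B k) = 0 := by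
      have := LB_wo_C (fun b => w (φ b)) (1 : k) one_ne_zero
      rwa [C_1] at this
    rw [hj, LB_wo_C _ _ ha, map_one, h1]
    have h3 : ∑ b, w (φ b) = (LBtype n s).aa δ := by
      rw [Equiv.sum_comp φ w]
      have h4 := LB_sum_swap (fun i : Fin (Fintype.card B) => i) δ
      simp only [LB_card] at h4
      exact h4.symm
    rw [h3]
    simp
  · intro l
    rw [hF, map_prod]
    have h4 : (LBtype n s).vv l δ = ∑ t, w (s ⟨l, t⟩) := LB_sum_swap (fun t => s ⟨l, t⟩) δ
    rw [h4]
    refine LB_wo_prod _ _ _ _ fun t _ => ?_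
    rw [hp]
    refine LB_wo_lf _ _ _ fun b hb => ?_
    by_contra hlt
    push Not at hlt
    apply hb
    apply he
    by_contra hle
    push Not at hle
    exact absurd (hanti hle) (not_le.2 hlt)

private theorem LB_lf_ne (c : B → k) (h : c ≠ 0) : lf c ≠ 0 := by
  classical
  intro h0
  apply h
  funext b
  have h1 := congrArg (fun f => coeff 0 (pderiv b f)) h0
  simpa [LB_pderiv] using h1

private theorem LB_dom [DecidableEq B] {Λ : Type} [Finite Λ] (n : Λ → ℕ)
    (r : Set (Σ l, Fin (n l)) → ℕ) (c : (Σ l, Fin (n l)) → (B → k))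
    (F : Λ → MvPolynomial B k) (hF : ∀ l, F l = ∏ t, lf (c ⟨l, t⟩)) (hF0 : ∀ l, F l ≠ 0)
    (hr : ∀ S, Module.finrank k (Submodule.span k (c '' S)) = r S) :
    Dom (fun s : {s : (Σ l, Fin (n l)) → Fin (Fintype.card B) //
      ∀ j, r {t | s t ≤ j} ≤ (j : ℕ) + 1} => LBtype n s.1) F 1 := by
  classical
  intro K _ _ v x hx
  obtain ⟨e, w, hw, hw1, hwe, hwc⟩ := adapted_basis v x hx.1 hx.2
  have hc0 : ∀ θ, c θ ≠ 0 := by
    rintro ⟨l, t⟩ h0
    apply hF0 l
    rw [hF l]
    apply Finset.prod_eq_zero (Finset.mem_univ t)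
    rw [h0, LB_lf_zero]
  have hs : ∀ θ, ∃ j, e.repr (c θ) j ≠ 0 ∧ ∀ i, j < i → e.repr (c θ) i = 0 := by
    intro θ
    have h1 : (e.repr (c θ)).support.Nonempty := by
      rw [Finsupp.support_nonempty_iff]
      simpa using hc0 θ
    refine ⟨(e.repr (c θ)).support.max' h1, ?_, ?_⟩
    · exact Finsupp.mem_support_iff.1 (Finset.max'_mem _ h1)
    · intro i hi
      by_contra h2
      exact absurd (Finset.le_max' _ i (Finsupp.mem_support_iff.2 h2)) (not_le.2 hi)
  choose s hs1 hs2 using hs
  have hrank : ∀ j, r {t | s t ≤ j} ≤ (j : ℕ) + 1 := by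
    intro j
    rw [← hr]
    have h1 : Submodule.span k (c '' {t | s t ≤ j}) ≤
        Submodule.span k (((Finset.Iic j).image e : Finset (B → k)) : Set (B → k)) := by
      rw [Submodule.span_le]
      rintro _ ⟨θ, hθ, rfl⟩
      rw [SetLike.mem_coe, ← e.sum_repr (c θ)]
      refine Submodule.sum_mem _ fun i _ => ?_
      by_cases hi : i ≤ j
      · refine Submodule.smul_mem _ _ (Submodule.subset_span ?_)
        rw [Finset.coe_image]
        exact ⟨i, by simpa using hi, rfl⟩
      · have h2 : e.repr (c θ) i = 0 := hs2 θ i (lt_of_le_of_lt hθ (not_le.1 hi))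
        rw [h2, zero_smul]
        exact Submodule.zero_mem _
    refine (Submodule.finrank_mono h1).trans ?_
    refine (finrank_span_finset_le_card _).trans ?_
    refine Finset.card_image_le.trans ?_
    rw [Fin.card_Iic]
  obtain ⟨δ, hδ1, hδ⟩ := LB_tel w hw hw1
  refine ⟨⟨s, hrank⟩, δ, ?_, ?_⟩
  · intro j
    show (if (j : ℕ) + 1 = Fintype.card B then 1 else 0) ≤ δ j
    split_ifs with h
    · exact hδ1 j h
    · exact Nat.zero_le _
  · let φ := Fintype.equivFin B
    have hne : ∀ c : B → k, c ≠ 0 → aeval x (lf c) ≠ 0 := fun c hc => hx.2 _ (LB_lf_ne c hc)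
    have hdet : (Matrix.of fun b b' => algebraMap k K (e (φ b) b')).det =
        algebraMap k K (Matrix.of fun b b' => e (φ b) b').det := by
      rw [RingHom.map_det]
      rfl
    have hdet0 : (Matrix.of fun b b' => e (φ b) b').det ≠ 0 := by
      have h1 : LinearIndependent k (Matrix.of fun b b' => e (φ b) b').row :=
        e.linearIndependent.comp φ φ.injective
      rw [Matrix.linearIndependent_rows_iff_isUnit, Matrix.isUnit_iff_isUnit_det] at h1
      exact h1.ne_zero
    refine ⟨fun b => aeval x (lf (e (φ b))),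
      Matrix.of fun b b' => algebraMap k K (e (φ b) b'), ?_, ?_, ?_, ?_, ?_⟩
    · intro b
      exact hne _ (e.ne_zero _)
    · rw [hdet]
      intro h0
      exact hdet0 ((map_eq_zero _).1 h0)
    · intro D b
      show D (aeval x (lf (e (φ b)))) = ∑ b', algebraMap k K (e (φ b) b') * D (x b')
      rw [LB_aeval_lf, map_sum]
      refine Finset.sum_congr rfl fun b' _ => ?_
      rw [Derivation.leibniz, Derivation.map_algebraMap, smul_zero, add_zero, smul_eq_mul]
    · rw [hdet, v.ord_algebraMap hdet0, map_one, v.ord_one]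
      have h3 : ∑ b, v.ord (aeval x (lf (e (φ b)))) = ((∑ j, w j : ℕ) : ℤ) := by
        rw [← Equiv.sum_comp φ w]
        push_cast
        exact Finset.sum_congr rfl fun b _ => hwe _
      rw [h3]
      have h5 : ((LBtype n s).aa δ) = ∑ j, w j := by
        have h4 := LB_sum_swap (fun i : Fin (Fintype.card B) => i) δ
        simp only [LB_card, hδ] at h4
        exact h4
      show (((LBtype n s).aa δ : ℕ) : ℤ) ≤ _
      rw [h5]
      simp
    · intro l
      rw [hF l, map_prod, v.ord_prod _ _ fun t _ => hne _ (hc0 _)]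
      have h4 : (LBtype n s).vv l δ = ∑ t, w (s ⟨l, t⟩) := by
        have h5 := LB_sum_swap (fun t => s ⟨l, t⟩) δ
        simp only [hδ] at h5
        exact h5
      show _ ≤ (((LBtype n s).vv l δ : ℕ) : ℤ)
      rw [h4]
      push_cast
      refine le_of_eq (Finset.sum_congr rfl fun t _ => ?_)
      exact hwc _ _ (hs1 ⟨l, t⟩) (hs2 ⟨l, t⟩)

end

theorem blockOK_linProd (k : Type u) [Field k] (B : Type) [Fintype B] [DecidableEq B] :
    BlockOK k B (linProd k B) := by
  classical
  intro Λ _ F hF hL
  choose S hS using hF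
  choose m hm using hL
  have hgood1 : ∀ᶠ i in UU, ∀ l, coeff (m l) (F l i) ≠ 0 := Filter.eventually_all.2 hm
  let n : Λ → ℕ := fun l => (m l).degree
  have hcard : ∀ i, (∀ l, coeff (m l) (F l i) ≠ 0) → ∀ l, Multiset.card (S l i) = n l := by
    intro i hi l
    have h1 := LB_homog_prod (S l i)
    rw [← hS l i] at h1
    rw [← h1 (hi l)]
    show _ = (m l).degree
    rw [Finsupp.degree_eq_weight_one]
    rfl
  have hc : ∀ l i, ∃ c : Fin (n l) → (B → k), Multiset.card (S l i) = n l →
      F l i = ∏ t, lf (c t) := by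
    intro l i
    by_cases h : Multiset.card (S l i) = n l
    · obtain ⟨c, hc⟩ := LB_factor (S l i) (n l) h
      exact ⟨c, fun _ => (hS l i).trans hc⟩
    · exact ⟨fun _ => 0, fun h' => absurd h' h⟩
  choose c hc using hc
  let cc : ℕ → (Σ l, Fin (n l)) → (B → k) := fun i θ => c θ.1 i θ.2
  have hrk : ∀ T : Set (Σ l, Fin (n l)), ∃ a, ∀ᶠ i in UU,
      Module.finrank k (Submodule.span k (cc i '' T)) = a := by
    intro T
    refine LB_const (N := Fintype.card B) _ fun i => ?_
    have := Submodule.finrank_le (Submodule.span k (cc i '' T))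
    rwa [Module.finrank_fintype_fun_eq_card] at this
  choose r hr using hrk
  have hgood2 : ∀ᶠ i in UU, ∀ T, Module.finrank k (Submodule.span k (cc i '' T)) = r T :=
    Filter.eventually_all.2 hr
  refine ⟨{s : (Σ l, Fin (n l)) → Fin (Fintype.card B) //
      ∀ j, r {t | s t ≤ j} ≤ (j : ℕ) + 1}, inferInstance, fun s => LBtype n s.1, ?_, ?_⟩
  · filter_upwards [hgood1, hgood2] with i h1 h2
    refine LB_dom n r (cc i) (fun l => F l i) (fun l => hc l i (hcard i h1 l)) ?_ h2
    intro l h0
    apply h1 l
    have h0' : F l i = 0 := h0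
    rw [h0', coeff_zero]
  · intro t θ hθ
    filter_upwards [hgood1, hgood2] with i h1 h2
    refine LB_rlz n t.1 (cc i) (fun l => F l i) (fun l => hc l i (hcard i h1 l)) ?_ θ hθ
    intro j
    rw [h2]
    exact t.2 j

end MLD
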