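import Pool.Agent.MLD.ExtVal
import Pool.Agent.MLD.Der
import Pool.Agent.MLD.TwoE

/-!
PIECE MLD-S: blocks with at most one variable, and transport along bijections of the variables.
-/

open MvPolynomial Filter

namespace MLD

universe u

variable {k : Type u} [Field k]

private theorem Small_empty (B : Type) [Fintype B] [DecidableEq B] [IsEmpty B] :
    BlockOK k B Set.univ := by
  intro Λ _ F _ hF
  have h0 : ∀ᶠ i in UU, ∀ l, coeff 0 (F l i) ≠ 0 := by
    rw [eventually_all]
    intro l
    obtain ⟨m, hm⟩ := hF l
    obtain rfl : m = 0 := Subsingleton.elim _ _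
    exact hm
  refine ⟨Unit, inferInstance, fun _ => ⟨0, 0, 0, fun _ => 0⟩, ?_, ?_⟩
  · filter_upwards [h0] with i hi
    intro K _ _ v x hx
    refine ⟨(), 0, le_refl _, fun b => isEmptyElim b, 1, fun b => isEmptyElim b, ?_,
      fun _ b => isEmptyElim b, ?_, ?_⟩
    · rw [Matrix.det_one]
      exact one_ne_zero
    · rw [Matrix.det_one, map_one, v.ord_one]
      simp [LinType.aa]
    · intro l
      rw [(v.ord_aeval_of_coeff_zero x (fun b => isEmptyElim b) (F l i) (hi l)).2]
      simp [LinType.vv]
  · intro t θ _
    filter_upwards [h0] with i hi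
    refine ⟨fun b => isEmptyElim b, fun b => isEmptyElim b, ⟨?_, fun b => isEmptyElim b⟩,
      fun b => isEmptyElim b, ?_, ?_⟩
    · intro G hG
      have h1 : G = C (coeff 0 G) := by
        ext m
        obtain rfl : m = 0 := Subsingleton.elim _ _
        simp
      rw [h1, aeval_C]
      intro h2
      apply hG
      rw [h1]
      rw [MvPolynomial.algebraMap_eq] at h2
      exact h2
    · rw [map_one, jacP, Matrix.det_isEmpty, wo, MvPolynomial.coe_one]
      simp [LinType.aa]
    · intro l
      simp [LinType.vv]

private theorem Small_eq_single {B : Type} [Unique B] (d : B →₀ ℕ) :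
    d = Finsupp.single default (d default) := by
  ext
  simp

private theorem Small_unique (B : Type) [Fintype B] [DecidableEq B] [Unique B] :
    BlockOK k B Set.univ := by
  classical
  intro Λ _ F _ hF
  have hex : ∀ l, ∃ n : ℕ, (∀ᶠ i in UU, coeff (Finsupp.single (default : B) n) (F l i) ≠ 0) ∧
      ∀ n' < n, ∀ᶠ i in UU, coeff (Finsupp.single (default : B) n') (F l i) = 0 := by
    intro l
    have h1 : ∃ n : ℕ, ∀ᶠ i in UU, coeff (Finsupp.single (default : B) n) (F l i) ≠ 0 := by
      obtain ⟨m, hm⟩ := hF l
      refine ⟨m default, ?_⟩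
      rw [← Small_eq_single m]
      exact hm
    refine ⟨Nat.find h1, Nat.find_spec h1, fun n' hn' => ?_⟩
    have h2 := Nat.find_min h1 hn'
    rw [← Ultrafilter.eventually_not] at h2
    filter_upwards [h2] with i hi
    exact not_not.1 hi
  choose m hm1 hm2 using hex
  have h0 : ∀ᶠ i in UU, ∀ l, coeff (Finsupp.single (default : B) (m l)) (F l i) ≠ 0 ∧
      ∀ n ∈ Finset.range (m l), coeff (Finsupp.single (default : B) n) (F l i) = 0 := by
    rw [eventually_all]
    intro l
    refine (hm1 l).and ?_
    rw [eventually_all_finset]
    intro n hn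
    exact hm2 l n (Finset.mem_range.1 hn)
  have h00 : ∀ᶠ i in UU, ∀ l, coeff (Finsupp.single (default : B) (m l)) (F l i) ≠ 0 ∧
      ∀ d : B →₀ ℕ, coeff d (F l i) ≠ 0 → m l ≤ d default := by
    filter_upwards [h0] with i hi
    intro l
    refine ⟨(hi l).1, fun d hd => ?_⟩
    by_contra hlt
    apply hd
    rw [Small_eq_single d]
    exact (hi l).2 _ (Finset.mem_range.2 (not_le.1 hlt))
  refine ⟨Unit, inferInstance, fun _ => ⟨1, 1, 1, fun l _ => m l⟩, ?_, ?_⟩
  · filter_upwards [h00] with i hi
    intro K _ _ v x hx
    have hx0 : ∀ b, x b ≠ 0 := by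
      intro b
      have := hx.2 (X b) (X_ne_zero b)
      rwa [aeval_X] at this
    have hpos := hx.1 default
    have hto : (((v.ord (x default)).toNat : ℕ) : ℤ) = v.ord (x default) :=
      Int.toNat_of_nonneg hpos.le
    refine ⟨(), fun _ => (v.ord (x default)).toNat, ?_, x, 1, hx0, ?_, ?_, ?_, ?_⟩
    · intro c
      change 1 ≤ (v.ord (x default)).toNat
      omega
    · rw [Matrix.det_one]
      exact one_ne_zero
    · intro D b
      rw [Fintype.sum_unique, Subsingleton.elim b default, Matrix.one_apply_eq, one_mul]
    · rw [Matrix.det_one, map_one, v.ord_one, Fintype.sum_unique]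
      have h1 : (LinType.aa (⟨1, 1, 1, fun l _ => m l⟩ : LinType Λ)
          fun _ => (v.ord (x default)).toNat) = (v.ord (x default)).toNat := by
        simp [LinType.aa]
      rw [h1, hto]
      simp
    · intro l
      have h1 : (LinType.vv (⟨1, 1, 1, fun l _ => m l⟩ : LinType Λ) l
          fun _ => (v.ord (x default)).toNat) = m l * (v.ord (x default)).toNat := by
        simp [LinType.vv]
      rw [h1, Nat.cast_mul, hto]
      obtain ⟨hc, hd⟩ := hi l
      set c := coeff (Finsupp.single (default : B) (m l)) (F l i) with hcdef
      have h2 : aeval x (F l i) = algebraMap k K c * x default ^ (m l) +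
          aeval x (F l i - monomial (Finsupp.single (default : B) (m l)) c) := by
        have h20 : (Finsupp.single (default : B) (m l)).prod (fun b n => x b ^ n) =
            x default ^ (m l) := Finsupp.prod_single_index (pow_zero _)
        rw [map_sub, aeval_monomial, h20]
        ring
      have h3 : algebraMap k K c ≠ 0 := by
        rwa [Ne, map_eq_zero]
      have h4 : algebraMap k K c * x default ^ (m l) ≠ 0 :=
        mul_ne_zero h3 (pow_ne_zero _ (hx0 _))
      have h5 : v.ord (algebraMap k K c * x default ^ (m l)) = m l * v.ord (x default) := by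
        rw [v.ord_mul h3 (pow_ne_zero _ (hx0 _)), v.ord_algebraMap hc, v.ord_pow (hx0 _),
          zero_add]
      have h6 : v.ge (v.ord (algebraMap k K c * x default ^ (m l)) + 1)
          (aeval x (F l i - monomial (Finsupp.single (default : B) (m l)) c)) := by
        rw [h5]
        refine v.ge_aeval x (fun _ => v.ord (x default)) (fun b => ?_) _ _ fun d hdne => ?_
        · rw [Subsingleton.elim b default]
          exact v.ge_self _
        · rw [Small_eq_single d, Finsupp.sum_single_index (by simp)]
          have h7 : m l < d default := by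
            by_contra hle
            have h8 : d default = m l ∨ d default < m l := by omega
            rcases h8 with h8 | h8
            · apply hdne
              rw [Small_eq_single d, h8, coeff_sub, coeff_monomial, if_pos rfl, ← hcdef,
                sub_self]
            · apply hdne
              rw [coeff_sub, coeff_monomial, if_neg, sub_zero]
              · by_contra h9
                exact absurd (hd d h9) (by omega)
              · intro h9
                rw [← h9, Finsupp.single_eq_same] at h8
                exact lt_irrefl _ h8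
          have h8 : (m l : ℤ) + 1 ≤ (d default : ℤ) := by exact_mod_cast h7
          nlinarith
      rw [h2, (v.ord_add_eq h4 h6).2, h5]
  · intro t θ hθ
    filter_upwards [h00] with i hi
    have hθ0 : 1 ≤ θ 0 := hθ 0
    refine ⟨X, fun _ => θ 0, ⟨?_, ?_⟩, ?_, ?_, ?_⟩
    · intro G hG
      rw [aeval_X_left_apply]
      exact hG
    · intro b
      refine ⟨X b, 1, ?_, ?_⟩
      · rw [map_one]
        exact one_ne_zero
      · rw [map_one, mul_one, aeval_X_left_apply]
    · intro b
      have h1 : wo (fun _ : B => θ 0) (X b : MvPolynomial B k) = (θ 0 : ℕ) := by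
        have h2 := MvPowerSeries.weightedOrder_monomial_of_ne_zero (fun _ : B => θ 0)
          (d := Finsupp.single b 1) (one_ne_zero (α := k))
        rw [wo, MvPolynomial.X, MvPolynomial.coe_monomial, h2]
        simp [Finsupp.weight_apply]
      rw [h1]
      exact_mod_cast hθ0
    · have h1 : jacP (X : B → MvPolynomial B k) = 1 := by
        rw [jacP]
        have h2 : (Matrix.of fun i j : B => pderiv i (X j : MvPolynomial B k)) = 1 := by
          ext i' j'
          rw [Matrix.of_apply, pderiv_X, Matrix.one_apply, Pi.single_apply]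
          simp only [eq_comm]
        rw [h2, Matrix.det_one]
      rw [h1, map_one, wo, MvPolynomial.coe_one, MvPowerSeries.weightedOrder_one]
      simp [LinType.aa]
    · intro l
      rw [aeval_X_left_apply]
      have h1 : (LinType.vv (⟨1, 1, 1, fun l _ => m l⟩ : LinType Λ) l θ) = m l * θ 0 := by
        simp [LinType.vv]
      rw [h1, wo]
      refine MvPowerSeries.le_weightedOrder _ fun d hd => ?_
      rw [MvPolynomial.coeff_coe]
      by_contra hne
      have h2 := (hi l).2 d hne
      have h3 : Finsupp.weight (fun _ : B => θ 0) d = d default * θ 0 := by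
        rw [Small_eq_single d]
        simp [Finsupp.weight_apply]
      rw [h3] at hd
      have h4 : d default * θ 0 < m l * θ 0 := by exact_mod_cast hd
      exact absurd (Nat.mul_le_mul_right (θ 0) h2) (not_le.2 h4)

theorem blockOK_card_le_one (B : Type) [Fintype B] [DecidableEq B] (hB : Fintype.card B ≤ 1) :
    BlockOK k B Set.univ := by
  have hs : Subsingleton B := Fintype.card_le_one_iff_subsingleton.1 hB
  rcases isEmpty_or_nonempty B with h | ⟨⟨b⟩⟩
  · exact Small_empty B
  · have : Unique B := uniqueOfSubsingleton b
    exact Small_unique B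

private theorem Small_wo_rename {B B' : Type} (e : B ≃ B') (w : B → ℕ) (f : MvPolynomial B k) :
    wo (w ∘ e.symm) (rename e f) = wo w f := by
  have hw : ∀ u : B →₀ ℕ, Finsupp.weight (w ∘ e.symm) (u.mapDomain e) = Finsupp.weight w u := by
    intro u
    rw [Finsupp.weight_apply, Finsupp.weight_apply, Finsupp.sum_mapDomain_index
      (fun i => by simp) (fun i m n => by rw [add_smul])]
    apply Finsupp.sum_congr
    intro b _
    simp
  unfold wo
  apply le_antisymm
  · apply MvPowerSeries.le_weightedOrder
    intro d hd
    rw [← hw d] at hd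
    have h := MvPowerSeries.coeff_eq_zero_of_lt_weightedOrder _ hd
    rw [MvPolynomial.coeff_coe] at h ⊢
    rwa [coeff_rename_mapDomain _ e.injective] at h
  · apply MvPowerSeries.le_weightedOrder
    intro d hd
    rw [MvPolynomial.coeff_coe]
    by_contra hne
    obtain ⟨u, rfl, hu⟩ := coeff_rename_ne_zero _ _ _ hne
    rw [hw u] at hd
    have h := MvPowerSeries.coeff_eq_zero_of_lt_weightedOrder _ hd
    rw [MvPolynomial.coeff_coe] at h
    exact hu h

theorem blockOK_equiv {B B' : Type} [Fintype B] [DecidableEq B] [Fintype B'] [DecidableEq B']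
    (e : B ≃ B') (h : BlockOK k B Set.univ) : BlockOK k B' Set.univ := by
  intro Λ _ F' _ hF'
  have hren : ∀ f : MvPolynomial B' k, rename e (rename e.symm f) = f := by
    intro f
    rw [rename_rename, Equiv.self_comp_symm, rename_id_apply]
  obtain ⟨ι, hι, τ, hD, hR⟩ := h Λ (fun l i => rename e.symm (F' l i)) (fun _ _ => trivial)
    (fun l => by
      obtain ⟨m, hm⟩ := hF' l
      refine ⟨m.mapDomain e.symm, ?_⟩
      filter_upwards [hm] with i hi
      rw [coeff_rename_mapDomain _ e.symm.injective]
      exact hi)
  refine ⟨ι, hι, τ, ?_, ?_⟩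
  · filter_upwards [hD] with i hi
    intro K _ _ v x' hx'
    have hcen : Cen v (x' ∘ e) := by
      refine ⟨fun b => hx'.1 (e b), fun G hG => ?_⟩
      rw [← aeval_rename]
      refine hx'.2 _ fun h0 => hG ?_
      exact rename_injective e e.injective (by rw [h0, map_zero])
    obtain ⟨t, θ, hlo, g, P, hg, hP, hder, hA, hV⟩ := hi K v (x' ∘ e) hcen
    refine ⟨t, θ, hlo, g ∘ e.symm, P.submatrix e.symm e.symm, fun b' => hg _, ?_, ?_, ?_, ?_⟩
    · rw [Matrix.det_submatrix_equiv_self]
      exact hP
    · intro D b'
      rw [Function.comp_apply, hder D (e.symm b'), ← Equiv.sum_comp e.symm]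
      refine Finset.sum_congr rfl fun c _ => ?_
      rw [Matrix.submatrix_apply, Function.comp_apply, Equiv.apply_symm_apply]
    · rw [Matrix.det_submatrix_equiv_self, map_one]
      rw [map_one] at hA
      have h1 : ∑ b', v.ord ((g ∘ e.symm) b') = ∑ b, v.ord (g b) :=
        Equiv.sum_comp e.symm fun b => v.ord (g b)
      rw [h1]
      exact hA
    · intro l
      have h1 := hV l
      rw [← aeval_rename, hren] at h1
      exact h1
  · intro t θ hlo
    filter_upwards [hR t θ hlo] with i hi
    obtain ⟨p, w, ⟨hb1, hb2⟩, hp, hA, hV⟩ := hi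
    have hae : ∀ G : MvPolynomial B k, aeval (fun b' => rename e (p (e.symm b'))) (rename e G) =
        rename e (aeval p G) := by
      intro G
      rw [aeval_rename, comp_aeval_apply]
      congr 2
      funext b
      simp
    have hae' : ∀ G : MvPolynomial B' k, aeval (fun b' => rename e (p (e.symm b'))) G =
        rename e (aeval p (rename e.symm G)) := by
      intro G
      rw [← hae, hren]
    refine ⟨fun b' => rename e (p (e.symm b')), w ∘ e.symm, ⟨?_, ?_⟩, ?_, ?_, ?_⟩
    · intro G hG
      rw [hae']
      intro h0
      have h1 : aeval p (rename e.symm G) = 0 :=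
        rename_injective e e.injective (by rw [h0, map_zero])
      refine hb1 _ (fun h2 => hG ?_) h1
      exact rename_injective e.symm e.symm.injective (by rw [h2, map_zero])
    · intro b'
      obtain ⟨N, D, h1, h2⟩ := hb2 (e.symm b')
      refine ⟨rename e N, rename e D, ?_, ?_⟩
      · rw [hae]
        intro h0
        exact h1 (rename_injective e e.injective (by rw [h0, map_zero]))
      · rw [hae, hae, ← h2, map_mul, rename_X, Equiv.apply_symm_apply]
    · intro b'
      rw [Small_wo_rename]
      exact hp _
    · have h1 : jacP (fun b' => rename e (p (e.symm b'))) = rename e (jacP p) := by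
        rw [jacP, jacP, AlgHom.map_det, ← Matrix.det_submatrix_equiv_self e.symm]
        congr 1
        ext i' j'
        rw [Matrix.of_apply, Matrix.submatrix_apply, AlgHom.mapMatrix_apply, Matrix.map_apply,
          Matrix.of_apply]
        have h2 := pderiv_rename e.injective (R := k) (e.symm i') (p (e.symm j'))
        rw [Equiv.apply_symm_apply] at h2
        exact congrArg (coeff _) h2
      rw [h1, Small_wo_rename, map_one]
      rw [map_one] at hA
      have h3 : ∑ b', (w ∘ e.symm) b' = ∑ b, w b := Equiv.sum_comp e.symm w
      have h4 : wo (w ∘ e.symm) (1 : MvPolynomial B' k) = wo w (1 : MvPolynomial B k) := by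
        rw [← Small_wo_rename e w 1, map_one]
      rw [h3, h4]
      exact hA
    · intro l
      rw [hae', Small_wo_rename]
      exact hV l

end MLD
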