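import Pool.Agent.MLD.TwoA
import Pool.Agent.MLD.ExtVal

/-!
PIECE MLD-E4: realization goes down from the charts of the blow-up.
-/

open MvPolynomial Filter

namespace MLD

universe u

variable {k : Type u} [Field k] {Λ : Type}

private theorem TwoC_rational {B : Type} (m : B → MvPolynomial B k) (hm : Bir m)
    (G : MvPolynomial B k) :
    ∃ A E : MvPolynomial B k, aeval m E ≠ 0 ∧ G * aeval m E = aeval m A := by
  induction G using MvPolynomial.induction_on with
  | C a =>
    refine ⟨C a, 1, by simp, ?_⟩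
    rw [map_one, mul_one, MvPolynomial.aeval_C]
    rfl
  | add p q hp hq =>
    obtain ⟨A1, E1, h1, e1⟩ := hp
    obtain ⟨A2, E2, h2, e2⟩ := hq
    refine ⟨A1 * E2 + A2 * E1, E1 * E2, ?_, ?_⟩
    · rw [map_mul]; exact mul_ne_zero h1 h2
    · rw [map_mul, map_add, map_mul, map_mul, ← e1, ← e2]; ring
  | mul_X p b hp =>
    obtain ⟨A1, E1, h1, e1⟩ := hp
    obtain ⟨N, D, h2, e2⟩ := hm.2 b
    refine ⟨A1 * N, E1 * D, ?_, ?_⟩
    · rw [map_mul]; exact mul_ne_zero h1 h2
    · rw [map_mul, map_mul, ← e1, ← e2]; ring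

private theorem TwoC_aeval_comp {B : Type} (m p : B → MvPolynomial B k) (G : MvPolynomial B k) :
    aeval (fun b => aeval p (m b)) G = aeval p (aeval m G) := by
  have h : (aeval (fun b => aeval p (m b)) : MvPolynomial B k →ₐ[k] MvPolynomial B k) =
      (aeval p : MvPolynomial B k →ₐ[k] MvPolynomial B k).comp (aeval m) := by
    apply MvPolynomial.algHom_ext
    intro b
    simp
  rw [h]
  rfl

private theorem TwoC_toFF_inj (G : MvPolynomial (Fin 2) k) (h : toFF k (Fin 2) G = 0) : G = 0 := by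
  have h' : algebraMap (MvPolynomial (Fin 2) k) (FF k (Fin 2)) G = 0 := h
  exact (IsFractionRing.to_map_eq_zero_iff (R := MvPolynomial (Fin 2) k)
    (K := FF k (Fin 2))).1 h'

private theorem TwoC_inj (m : Fin 2 → MvPolynomial (Fin 2) k) (x : Fin 2 → FF k (Fin 2))
    (h : ∀ b, aeval x (m b) = toFF k (Fin 2) (X b)) (G : MvPolynomial (Fin 2) k) (hG : G ≠ 0) :
    aeval m G ≠ 0 := by
  intro h0
  apply hG
  apply TwoC_toFF_inj
  have e : ((aeval x : MvPolynomial (Fin 2) k →ₐ[k] FF k (Fin 2)).comp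
      (aeval m : MvPolynomial (Fin 2) k →ₐ[k] MvPolynomial (Fin 2) k)) = toFF k (Fin 2) := by
    apply MvPolynomial.algHom_ext
    intro b
    rw [AlgHom.comp_apply, aeval_X, h b]
  rw [← e, AlgHom.comp_apply, h0, map_zero]

private theorem TwoC_x1 : toFF k (Fin 2) (X 1) ≠ 0 := fun h => X_ne_zero _ (TwoC_toFF_inj _ h)
private theorem TwoC_x0 : toFF k (Fin 2) (X 0) ≠ 0 := fun h => X_ne_zero _ (TwoC_toFF_inj _ h)

theorem bir_m1 (c : k) : Bir (m1 c) := by
  refine ⟨?_, ?_⟩
  · intro G hG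
    refine TwoC_inj (m1 c) ![toFF k (Fin 2) (X 0) / toFF k (Fin 2) (X 1) - algebraMap k _ c,
      toFF k (Fin 2) (X 1)] ?_ G hG
    intro b
    fin_cases b
    · have h1 := TwoC_x1 (k := k)
      simp only [m1, Fin.zero_eta, Matrix.cons_val_zero, map_mul, map_add, aeval_X, aeval_C,
        Matrix.cons_val_one]
      rw [sub_add_cancel, mul_div_cancel₀ _ h1]
    · simp [m1]
  · intro b
    fin_cases b
    · refine ⟨X 0 - C c * X 1, X 1, ?_, ?_⟩
      · simp [m1]
      · simp only [m1, Fin.zero_eta, map_sub, map_mul, aeval_X, aeval_C, Matrix.cons_val_zero,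
          Matrix.cons_val_one, algebraMap_eq]
        ring
    · refine ⟨X 1, 1, ?_, ?_⟩
      · simp
      · simp [m1]

theorem bir_m2 : Bir (m2 k) := by
  refine ⟨?_, ?_⟩
  · intro G hG
    refine TwoC_inj (m2 k) ![toFF k (Fin 2) (X 1) / toFF k (Fin 2) (X 0),
      toFF k (Fin 2) (X 0)] ?_ G hG
    intro b
    fin_cases b
    · simp [m2]
    · have h1 := TwoC_x0 (k := k)
      simp only [m2, Fin.mk_one, Matrix.cons_val_zero, map_mul, aeval_X,
        Matrix.cons_val_one]
      rw [mul_div_cancel₀ _ h1]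
  · intro b
    fin_cases b
    · refine ⟨X 1, X 0, ?_, ?_⟩
      · simp [m2]
      · simp only [m2, Fin.zero_eta, aeval_X, Matrix.cons_val_zero, Matrix.cons_val_one]
        ring
    · refine ⟨X 0, 1, ?_, ?_⟩
      · simp
      · simp [m2]

theorem bir_comp {B : Type} (m p : B → MvPolynomial B k) (hm : Bir m) (hp : Bir p) :
    Bir (fun b => aeval p (m b)) := by
  refine ⟨?_, ?_⟩
  · intro G hG
    rw [TwoC_aeval_comp]
    exact hp.1 _ (hm.1 _ hG)
  · intro b
    obtain ⟨N, D, h1, e1⟩ := hp.2 b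
    obtain ⟨A1, E1, hE1, eA1⟩ := TwoC_rational m hm D
    obtain ⟨A2, E2, hE2, eA2⟩ := TwoC_rational m hm N
    have k1 := congrArg (aeval p) eA1
    have k2 := congrArg (aeval p) eA2
    rw [map_mul] at k1 k2
    refine ⟨A2 * E1, A1 * E2, ?_, ?_⟩
    · rw [TwoC_aeval_comp, map_mul, map_mul, ← k1]
      exact mul_ne_zero (mul_ne_zero h1 (hp.1 _ hE1)) (hp.1 _ hE2)
    · rw [TwoC_aeval_comp, TwoC_aeval_comp, map_mul, map_mul, map_mul, map_mul, ← k1, ← k2, ← e1]
      ring

private theorem TwoC_jac1 (c : k) (p : Fin 2 → MvPolynomial (Fin 2) k) :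
    jacP (fun b => aeval p (m1 c b)) = p 1 * jacP p := by
  simp only [jacP, Matrix.det_fin_two, Matrix.of_apply, m1, Matrix.cons_val_zero,
    Matrix.cons_val_one, map_mul, map_add, aeval_X, aeval_C, algebraMap_eq, Derivation.leibniz,
    pderiv_C, smul_eq_mul]
  ring

private theorem TwoC_jac2 (p : Fin 2 → MvPolynomial (Fin 2) k) :
    jacP (fun b => aeval p (m2 k b)) = p 1 * (- jacP p) := by
  simp only [jacP, Matrix.det_fin_two, Matrix.of_apply, m2, Matrix.cons_val_zero,
    Matrix.cons_val_one, map_mul, aeval_X, Derivation.leibniz, smul_eq_mul]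
  ring

private theorem TwoC_wo_neg {σ : Type} (w : σ → ℕ) (f : MvPolynomial σ k) :
    wo w (-f) = wo w f := by
  unfold wo
  have h : ((-f : MvPolynomial σ k) : MvPowerSeries σ k) = -(f : MvPowerSeries σ k) := by
    have := map_neg (MvPolynomial.coeToMvPowerSeries.ringHom (σ := σ) (R := k)) f
    simpa using this
  rw [h, MvPowerSeries.weightedOrder_neg]

theorem rlz_m1 (τ : LinType Λ) (θ : Fin τ.q → ℕ) (T : Λ → MvPolynomial (Fin 2) k)
    (J : MvPolynomial (Fin 2) k) (c : k)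
    (h : Rlz τ θ (fun l => aeval (m1 c) (T l)) (aeval (m1 c) J * X 1)) : Rlz τ θ T J := by
  obtain ⟨p, w, hb, h1, hs, hv⟩ := h
  refine ⟨fun b => aeval p (m1 c b), w, bir_comp _ _ (bir_m1 c) hb, ?_, ?_, ?_⟩
  · intro b
    fin_cases b
    · have : aeval p (m1 c 0) = p 1 * (p 0 + C c) := by
        simp [m1, algebraMap_eq]
      show 1 ≤ wo w (aeval p (m1 c 0))
      rw [this, wo_mul]
      exact le_trans (h1 1) le_self_add
    · have : aeval p (m1 c 1) = p 1 := by
        simp [m1]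
      show 1 ≤ wo w (aeval p (m1 c 1))
      rw [this]
      exact h1 1
  · rw [TwoC_jac1, wo_mul, TwoC_aeval_comp]
    refine le_trans (le_of_eq ?_) hs
    rw [map_mul, wo_mul, aeval_X]
    ring
  · intro l
    rw [TwoC_aeval_comp]
    exact hv l

theorem rlz_m2 (τ : LinType Λ) (θ : Fin τ.q → ℕ) (T : Λ → MvPolynomial (Fin 2) k)
    (J : MvPolynomial (Fin 2) k)
    (h : Rlz τ θ (fun l => aeval (m2 k) (T l)) (aeval (m2 k) J * X 1)) : Rlz τ θ T J := by
  obtain ⟨p, w, hb, h1, hs, hv⟩ := h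
  refine ⟨fun b => aeval p (m2 k b), w, bir_comp _ _ bir_m2 hb, ?_, ?_, ?_⟩
  · intro b
    fin_cases b
    · have : aeval p (m2 k 0) = p 1 := by
        simp [m2]
      show 1 ≤ wo w (aeval p (m2 k 0))
      rw [this]
      exact h1 1
    · have : aeval p (m2 k 1) = p 1 * p 0 := by
        simp [m2]
      show 1 ≤ wo w (aeval p (m2 k 1))
      rw [this, wo_mul]
      exact le_trans (h1 1) le_self_add
  · rw [TwoC_jac2, wo_mul, TwoC_wo_neg, TwoC_aeval_comp]
    refine le_trans (le_of_eq ?_) hs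
    rw [map_mul, wo_mul, aeval_X]
    ring
  · intro l
    rw [TwoC_aeval_comp]
    exact hv l

end MLD
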