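import Pool.Agent.MLD.TwoA
import Pool.Agent.MLD.Der

/-!
PIECE MLD-E3c: the valuations centred at the generic point of the exceptional curve.

PROOF. `Y := x 0`, `Z := x 1`, `q := ord Y = ord Z ≥ 1`. `t := ()`, `θ := fun _ => q.toNat`.
Let `F := F l`, `e := e l`. `F = ∑_{j ≤ e} a_j Y^j Z^(e-j) + (terms of degree ≥ e+1)`, so
`aeval x F = Z^e * f(Y/Z) + R`, `f := ini e F ≠ 0`, `v.ge ((e+1) q) R` (`ge_aeval` with weights `q`).
`k` is algebraically closed, so `f = c ∏ (X - ρ)`, (`Polynomial.Splits`,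
`IsAlgClosed.splits`, `Polynomial.eval`...), and every factor `Y/Z - ρ` is nonzero
(independence: otherwise `aeval x (X 0 - C ρ * X 1) = 0`) and has order `0`: the order of `Y/Z - ρ`
is `≥ 0` (both terms have order `≥ 0`) and not positive by `hroot`. So `f(Y/Z) ≠ 0` has order
`0`, and `ord (aeval x F) = e q` by `ord_add_eq`. So
`ord (aeval x (T l)) = L q + M q + e q`.
`g := ![Y / Z, Z]`, `P := !![1/Z, -Y/Z^2; 0, 1]` (rows: `D(Y/Z) = (1/Z) D Y - (Y/Z^2) D Z`),
`det P = 1/Z`; `∑ ord g - ord det = 0 + q + q`; `ord (aeval x J) = α q + β q`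
(`ord_aeval_of_coeff_zero` for `V`).
-/

open MvPolynomial Filter

namespace MLD

universe u

/-- a polynomial all of whose roots are avoided by `w` has order `0` at `w` -/
theorem genOrd_poly {k : Type u} [Field k] [IsAlgClosed k] {K : Type u} [Field K] [Algebra k K]
    (v : OrdFn k K) (w : K) :
    ∀ (n : ℕ) (f : Polynomial k), f.natDegree = n → f ≠ 0 →
      (∀ ρ : k, f.IsRoot ρ → w - algebraMap k K ρ ≠ 0 ∧ v.ord (w - algebraMap k K ρ) = 0) →
      Polynomial.aeval w f ≠ 0 ∧ v.ord (Polynomial.aeval w f) = 0 := by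
  intro n
  induction n with
  | zero =>
    intro f hn hf _
    rw [Polynomial.eq_C_of_natDegree_eq_zero hn] at hf ⊢
    have hc : f.coeff 0 ≠ 0 := by
      intro h
      rw [h] at hf
      simp at hf
    rw [Polynomial.aeval_C]
    exact ⟨by rwa [Ne, map_eq_zero], v.ord_algebraMap hc⟩
  | succ n ih =>
    intro f hn hf hr
    have hdeg : f.degree ≠ 0 := by
      intro h
      have := Polynomial.natDegree_eq_zero_iff_degree_le_zero.mpr h.le
      omega
    obtain ⟨ρ, hρ⟩ := IsAlgClosed.exists_root f hdeg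
    obtain ⟨g, hg⟩ := Polynomial.dvd_iff_isRoot.mpr hρ
    have hX : (Polynomial.X - Polynomial.C ρ : Polynomial k) ≠ 0 := Polynomial.X_sub_C_ne_zero ρ
    have hg0 : g ≠ 0 := by
      rintro rfl
      exact hf (by rw [hg, mul_zero])
    have hgn : g.natDegree = n := by
      have h1 : f.natDegree = (Polynomial.X - Polynomial.C ρ : Polynomial k).natDegree
          + g.natDegree := by
        rw [← Polynomial.natDegree_mul hX hg0, ← hg]
      rw [Polynomial.natDegree_X_sub_C] at h1
      omega
    obtain ⟨h2, h3⟩ := ih g hgn hg0 fun σ hσ => hr σ (by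
      rw [hg, Polynomial.IsRoot.def, Polynomial.eval_mul, Polynomial.IsRoot.def.mp hσ, mul_zero])
    obtain ⟨h4, h5⟩ := hr ρ hρ
    have h6 : Polynomial.aeval w f = (w - algebraMap k K ρ) * Polynomial.aeval w g := by
      conv_lhs => rw [hg]
      rw [map_mul, map_sub, Polynomial.aeval_X, Polynomial.aeval_C]
    rw [h6]
    exact ⟨mul_ne_zero h4 h2, by rw [v.ord_mul h4 h2, h5, h3, add_zero]⟩

theorem aeval_monomial_mon {k : Type u} [Field k] {K : Type u} [Field K] [Algebra k K]
    (x : Fin 2 → K) (a b : ℕ) (c : k) :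
    aeval x (monomial (mon a b) c) = algebraMap k K c * (x 0 ^ a * x 1 ^ b) := by
  rw [aeval_monomial]
  congr 1
  rw [mon, Finsupp.prod_add_index' (by simp) (by intros; rw [pow_add]),
    Finsupp.prod_single_index (by simp), Finsupp.prod_single_index (by simp)]

theorem genOrd_F {k : Type u} [Field k] [IsAlgClosed k] {K : Type u} [Field K] [Algebra k K]
    (v : OrdFn k K) (x : Fin 2 → K) (hx : Cen v x) (hord : v.ord (x 0) = v.ord (x 1))
    (e : ℕ) (F : MvPolynomial (Fin 2) k)
    (he : ∀ m : Fin 2 →₀ ℕ, m.degree < e → coeff m F = 0)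
    (hi : ini e F ≠ 0)
    (hroot : ∀ ρ : k, (ini e F).IsRoot ρ → ¬ 0 < v.ord (x 0 / x 1 - algebraMap k K ρ)) :
    aeval x F ≠ 0 ∧ v.ord (aeval x F) = e * v.ord (x 1) := by
  classical
  have hY : x 0 ≠ 0 := by
    have := hx.2 (X 0) (X_ne_zero 0)
    rwa [aeval_X] at this
  have hZ : x 1 ≠ 0 := by
    have := hx.2 (X 1) (X_ne_zero 1)
    rwa [aeval_X] at this
  have hYZ : v.ord (x 0 / x 1) = 0 := by
    rw [v.ord_div hY hZ, hord, sub_self]
  -- the dehomogenized initial form
  obtain ⟨hf1, hf2⟩ := genOrd_poly v (x 0 / x 1) _ (ini e F) rfl hi fun ρ hρ => by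
    have hne : x 0 / x 1 - algebraMap k K ρ ≠ 0 := by
      intro h
      have h1 : x 0 = algebraMap k K ρ * x 1 := by
        rw [sub_eq_zero, div_eq_iff hZ] at h
        exact h
      have h2 : (X 0 - C ρ * X 1 : MvPolynomial (Fin 2) k) ≠ 0 := by
        intro h3
        have h4 := congrArg (coeff (Finsupp.single (0 : Fin 2) 1)) h3
        have h5 : ¬ (Finsupp.single (1 : Fin 2) 1 = Finsupp.single (0 : Fin 2) 1) := by
          intro h5
          have h6 := DFunLike.congr_fun h5 1
          rw [Finsupp.single_eq_same, Finsupp.single_eq_of_ne (by decide)] at h6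
          exact one_ne_zero h6
        rw [coeff_sub, coeff_C_mul, coeff_X, coeff_X, coeff_zero, if_neg h5, if_pos rfl] at h4
        simp at h4
      apply hx.2 _ h2
      rw [map_sub, map_mul, aeval_X, aeval_X, aeval_C, h1, sub_self]
    refine ⟨hne, le_antisymm (not_lt.mp (hroot ρ hρ)) ?_⟩
    have h5 : v.ge 0 (x 0 / x 1 - algebraMap k K ρ) :=
      v.ge_sub (Or.inr hYZ.ge) (v.ge_const ρ)
    rcases h5 with h5 | h5
    · exact absurd h5 hne
    · exact h5
  -- decomposition
  set Fe : MvPolynomial (Fin 2) k :=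
    ∑ j ∈ Finset.range (e + 1), monomial (mon j (e - j)) (coeff (mon j (e - j)) F) with hFe
  have hA : aeval x Fe = x 1 ^ e * Polynomial.aeval (x 0 / x 1) (ini e F) := by
    rw [hFe, ini, map_sum, map_sum, Finset.mul_sum]
    refine Finset.sum_congr rfl fun j hj => ?_
    have hj' : j ≤ e := by
      rw [Finset.mem_range] at hj
      omega
    rw [aeval_monomial_mon, map_mul, Polynomial.aeval_C, map_pow, Polynomial.aeval_X]
    have h1 : x 1 ^ e = x 1 ^ j * x 1 ^ (e - j) := by
      rw [← pow_add]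
      congr 1
      omega
    rw [h1, div_pow]
    field_simp
  have hR : v.ge ((e + 1 : ℤ) * v.ord (x 1)) (aeval x (F - Fe)) := by
    refine v.ge_aeval x (fun _ => v.ord (x 1)) (fun b => ?_) _ _ fun m hm => ?_
    · fin_cases b
      · exact Or.inr hord.ge
      · exact Or.inr le_rfl
    · have hdeg : e + 1 ≤ m.degree := by
        by_contra hcon
        apply hm
        rw [coeff_sub]
        by_cases hme : m.degree = e
        · have h0 : m 0 + m 1 = e := by
            conv_lhs at hme => rw [eq_mon m]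
            rwa [mon_degree] at hme
          have h1 : coeff m Fe = coeff m F := by
            rw [hFe, coeff_sum, Finset.sum_eq_single (m 0)]
            · rw [coeff_monomial]
              have h2 : mon (m 0) (e - m 0) = m := by
                conv_rhs => rw [eq_mon m]
                congr 1
                omega
              rw [if_pos h2, h2]
            · intro j _ hj
              rw [coeff_monomial, if_neg]
              intro h3
              apply hj
              have h4 := DFunLike.congr_fun h3 0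
              rw [mon_apply_zero] at h4
              exact h4
            · intro h3
              exfalso
              apply h3
              rw [Finset.mem_range]
              omega
          rw [h1, sub_self]
        · have h1 : coeff m Fe = 0 := by
            rw [hFe, coeff_sum]
            refine Finset.sum_eq_zero fun j hj => ?_
            have hj' : j ≤ e := by
              rw [Finset.mem_range] at hj
              omega
            rw [coeff_monomial, if_neg]
            intro h3
            apply hme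
            rw [← h3, mon_degree]
            omega
          rw [h1, he m (by omega), sub_self]
      have h1 : (m.sum fun _ n => (n : ℤ) * v.ord (x 1)) = (m.degree : ℤ) * v.ord (x 1) := by
        rw [Finsupp.sum, Finsupp.degree_apply, ← Finset.sum_mul]
        push_cast
        rfl
      rw [h1]
      have h2 := hx.1 1
      have h3 : (e : ℤ) + 1 ≤ (m.degree : ℤ) := by exact_mod_cast hdeg
      exact mul_le_mul_of_nonneg_right h3 h2.le
  have hZe : x 1 ^ e ≠ 0 := pow_ne_zero _ hZ
  have hmain0 : x 1 ^ e * Polynomial.aeval (x 0 / x 1) (ini e F) ≠ 0 := mul_ne_zero hZe hf1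
  have hmain : v.ord (x 1 ^ e * Polynomial.aeval (x 0 / x 1) (ini e F)) = e * v.ord (x 1) := by
    rw [v.ord_mul hZe hf1, v.ord_pow hZ, hf2, add_zero]
  have hdec : aeval x F = x 1 ^ e * Polynomial.aeval (x 0 / x 1) (ini e F)
      + aeval x (F - Fe) := by
    rw [← hA, map_sub]
    ring
  obtain ⟨h7, h8⟩ := v.ord_add_eq hmain0 (g := aeval x (F - Fe)) (by
    rw [hmain]
    refine v.ge_mono ?_ hR
    have := hx.1 1
    nlinarith)
  rw [hdec]
  exact ⟨h7, by rw [h8, hmain]⟩

theorem dmd_generic {k : Type u} [Field k] [IsAlgClosed k] {Λ : Type}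
    (α β : ℕ) (L M e : Λ → ℕ) (F : Λ → MvPolynomial (Fin 2) k) (V : MvPolynomial (Fin 2) k)
    (T : Λ → MvPolynomial (Fin 2) k) (J : MvPolynomial (Fin 2) k)
    (hT : ∀ l, T l = X 0 ^ L l * X 1 ^ M l * F l) (hJ : J = X 0 ^ α * X 1 ^ β * V)
    (hV : coeff 0 V ≠ 0) (he : ∀ l, ∀ m : Fin 2 →₀ ℕ, m.degree < e l → coeff m (F l) = 0)
    (hi : ∀ l, ini (e l) (F l) ≠ 0)
    {K : Type u} [Field K] [Algebra k K] (v : OrdFn k K) (x : Fin 2 → K) (hx : Cen v x)
    (hord : v.ord (x 0) = v.ord (x 1))
    (hroot : ∀ l, ∀ ρ : k, (ini (e l) (F l)).IsRoot ρ →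
      ¬ 0 < v.ord (x 0 / x 1 - algebraMap k K ρ)) :
    Dmd (fun _ : Unit => divType α β L M e) T J v x := by
  have hY : x 0 ≠ 0 := by
    have := hx.2 (X 0) (X_ne_zero 0)
    rwa [aeval_X] at this
  have hZ : x 1 ≠ 0 := by
    have := hx.2 (X 1) (X_ne_zero 1)
    rwa [aeval_X] at this
  have hq : 0 < v.ord (x 1) := hx.1 1
  have hYZ : v.ord (x 0 / x 1) = 0 := by
    rw [v.ord_div hY hZ, hord, sub_self]
  have hqn : ((v.ord (x 1)).toNat : ℤ) = v.ord (x 1) := Int.toNat_of_nonneg hq.le
  refine ⟨(), fun _ => (v.ord (x 1)).toNat, ?_, ?_⟩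
  · intro c
    show 1 ≤ (v.ord (x 1)).toNat
    omega
  have hdet : (!![1 / x 1, -(x 0 / x 1 ^ 2); 0, 1] : Matrix (Fin 2) (Fin 2) K).det = 1 / x 1 := by
    rw [Matrix.det_fin_two_of]
    ring
  refine ⟨![x 0 / x 1, x 1], !![1 / x 1, -(x 0 / x 1 ^ 2); 0, 1], ?_, ?_, ?_, ?_, ?_⟩
  · intro b
    fin_cases b
    · exact div_ne_zero hY hZ
    · exact hZ
  · rw [hdet]
    exact one_div_ne_zero hZ
  · intro D b
    rw [Fin.sum_univ_two]
    fin_cases b
    · show D (x 0 / x 1) = 1 / x 1 * D (x 0) + -(x 0 / x 1 ^ 2) * D (x 1)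
      rw [Derivation.leibniz_div]
      simp only [smul_eq_mul]
      field_simp
      ring
    · show D (x 1) = 0 * D (x 0) + 1 * D (x 1)
      ring
  · have hJord : v.ord (aeval x J) = α * v.ord (x 1) + β * v.ord (x 1) := by
      obtain ⟨hV1, hV2⟩ := v.ord_aeval_of_coeff_zero x (fun b => Or.inr (hx.1 b)) V hV
      rw [hJ, map_mul, map_mul, map_pow, map_pow, aeval_X, aeval_X,
        v.ord_mul (mul_ne_zero (pow_ne_zero _ hY) (pow_ne_zero _ hZ)) hV1,
        v.ord_mul (pow_ne_zero _ hY) (pow_ne_zero _ hZ), v.ord_pow hY, v.ord_pow hZ, hV2, hord,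
        add_zero]
    rw [hdet, hJord, Fin.sum_univ_two]
    have h1 : v.ord (1 / x 1) = - v.ord (x 1) := by
      rw [one_div, v.ord_inv _ hZ]
    rw [h1]
    show (((divType α β L M e).aa fun _ => (v.ord (x 1)).toNat : ℕ) : ℤ) ≤
      v.ord (x 0 / x 1) + v.ord (x 1) - -v.ord (x 1) + (α * v.ord (x 1) + β * v.ord (x 1))
    rw [hYZ]
    have h2 : ((divType α β L M e).aa fun _ => (v.ord (x 1)).toNat)
        = (2 + α + β) * (v.ord (x 1)).toNat := by
      rw [LinType.aa]
      exact Fin.sum_univ_one (fun _ : Fin 1 => (2 + α + β) * (v.ord (x 1)).toNat)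
    rw [h2]
    push_cast
    rw [hqn]
    linarith
  · intro l
    obtain ⟨hF1, hF2⟩ := genOrd_F v x hx hord (e l) (F l) (he l) (hi l) (hroot l)
    have h2 : ((divType α β L M e).vv l fun _ => (v.ord (x 1)).toNat)
        = (L l + M l + e l) * (v.ord (x 1)).toNat := by
      rw [LinType.vv]
      exact Fin.sum_univ_one (fun _ : Fin 1 => (L l + M l + e l) * (v.ord (x 1)).toNat)
    rw [h2, hT, map_mul, map_mul, map_pow, map_pow, aeval_X, aeval_X,
      v.ord_mul (mul_ne_zero (pow_ne_zero _ hY) (pow_ne_zero _ hZ)) hF1,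
      v.ord_mul (pow_ne_zero _ hY) (pow_ne_zero _ hZ), v.ord_pow hY, v.ord_pow hZ, hF2, hord]
    push_cast
    rw [hqn]
    linarith

end MLD
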