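import Pool.Agent.MLD.TwoA
import Pool.Agent.MLD.Der

/-!
PIECE MLD-E5: domination at terminal points.

PROOF of `dom_t0`: `θ := ![ord Y, ord Z]` (`toNat`), `g := x`, `P := 1`;
`ord (aeval x (T l)) = L l * ord Y + M l * ord Z` (`ord_aeval_of_coeff_zero`).
PROOF of `dom_t1`. `Y := x 0`, `Z := x 1`. Let `F := F l`, `N := N l`. For `j ≤ N` the polynomial
`G j := (pderiv 0)^[j] F` is nonzero and `G N` has constant term `N! * coeff (mon N 0) F ≠ 0`, so
`ord (aeval x (G N)) = 0`. Put `δ l j := ord (aeval x (G j)) - ord (aeval x (G (j+1)))` for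
`j < N`; `∑ j < N, δ l j = ord (aeval x F)`. Let `b` be the maximum of `ord Y` and all `δ l j`
(finitely many `l`, `j`), `b ≥ 1`. Then `ord (aeval x F) ≤ N * b`. `θ := ![b, ord Z]`.
The pair `g`: if `b = ord Y` take `g := x`, `P := 1`. If `b = δ l j`: `g := ![aeval x (G j), Z]`,
`P := !![aeval x (pderiv 0 (G j)), aeval x (pderiv 1 (G j)); 0, 1]` (`der_aeval`),
`det P = aeval x (G (j+1))`. In both cases
`∑ ord g - ord det P + ord (aeval x J) = b + ord Z + β * ord Z`.
-/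

open MvPolynomial Filter

namespace MLD

universe u

variable {k : Type u} [Field k] {Λ : Type}

private theorem twoF_ge {K : Type u} [Field K] [Algebra k K] {v : OrdFn k K} {x : Fin 2 → K}
    (hx : Cen v x) : ∀ b, v.ge 1 (x b) := fun b => Or.inr (by have := hx.1 b; omega)

private theorem twoF_ne {K : Type u} [Field K] [Algebra k K] {v : OrdFn k K} {x : Fin 2 → K}
    (hx : Cen v x) (b : Fin 2) : x b ≠ 0 := by
  have h := hx.2 (X b) (X_ne_zero b)
  rwa [aeval_X] at h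

private theorem twoF_mon {K : Type u} [Field K] [Algebra k K] {v : OrdFn k K} {x : Fin 2 → K}
    (hx : Cen v x) (a b : ℕ) (G : MvPolynomial (Fin 2) k) (hG : aeval x G ≠ 0) :
    v.ord (aeval x (X 0 ^ a * X 1 ^ b * G)) =
      a * v.ord (x 0) + b * v.ord (x 1) + v.ord (aeval x G) := by
  have h0 := twoF_ne hx 0
  have h1 := twoF_ne hx 1
  rw [map_mul, map_mul, map_pow, map_pow, aeval_X, aeval_X,
    v.ord_mul (mul_ne_zero (pow_ne_zero _ h0) (pow_ne_zero _ h1)) hG,
    v.ord_mul (pow_ne_zero _ h0) (pow_ne_zero _ h1), v.ord_pow h0, v.ord_pow h1]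

theorem dom_t0 (α β : ℕ) (L M : Λ → ℕ) (F : Λ → MvPolynomial (Fin 2) k)
    (V : MvPolynomial (Fin 2) k) (T : Λ → MvPolynomial (Fin 2) k) (J : MvPolynomial (Fin 2) k)
    (hT : ∀ l, T l = X 0 ^ L l * X 1 ^ M l * F l) (hJ : J = X 0 ^ α * X 1 ^ β * V)
    (hV : coeff 0 V ≠ 0) (hF : ∀ l, coeff 0 (F l) ≠ 0) :
    Dom (fun _ : Unit => t0Type α β L M) T J := by
  intro K _ _ v x hx
  have hge := twoF_ge hx
  have h0 := hx.1 0
  have h1 := hx.1 1
  obtain ⟨a, ha⟩ := Int.eq_ofNat_of_zero_le h0.le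
  obtain ⟨b, hb⟩ := Int.eq_ofNat_of_zero_le h1.le
  have hV' := v.ord_aeval_of_coeff_zero x hge V hV
  refine ⟨(), ![a, b], ?_, x, 1, twoF_ne hx, ?_, ?_, ?_, ?_⟩
  · intro c
    change (1 : ℕ) ≤ (![a, b] : Fin 2 → ℕ) c
    fin_cases c
    · change 1 ≤ a
      omega
    · change 1 ≤ b
      omega
  · rw [Matrix.det_one]
    exact one_ne_zero
  · intro D c
    rw [Fin.sum_univ_two]
    fin_cases c
    · change D (x 0) = (1 : Matrix (Fin 2) (Fin 2) K) 0 0 * D (x 0) + (1 : Matrix (Fin 2) (Fin 2) K) 0 1 * D (x 1)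
      rw [Matrix.one_apply_eq, Matrix.one_apply_ne (by decide)]
      ring
    · change D (x 1) = (1 : Matrix (Fin 2) (Fin 2) K) 1 0 * D (x 0) + (1 : Matrix (Fin 2) (Fin 2) K) 1 1 * D (x 1)
      rw [Matrix.one_apply_eq, Matrix.one_apply_ne (by decide)]
      ring
  · have haa : (t0Type α β L M).aa ![a, b] = (1 + α) * a + (1 + β) * b := by
      change ∑ c : Fin 2, (![1 + α, 1 + β] : Fin 2 → ℕ) c * (![a, b] : Fin 2 → ℕ) c = _
      rw [Fin.sum_univ_two]
      rfl
    rw [haa, hJ, twoF_mon hx α β V hV'.1, hV'.2, Matrix.det_one, v.ord_one, Fin.sum_univ_two,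
      ha, hb]
    push_cast
    apply le_of_eq
    ring
  · intro l
    have hvv : (t0Type α β L M).vv l ![a, b] = L l * a + M l * b := by
      change ∑ c : Fin 2, (![L l, M l] : Fin 2 → ℕ) c * (![a, b] : Fin 2 → ℕ) c = _
      rw [Fin.sum_univ_two]
      rfl
    have hF' := v.ord_aeval_of_coeff_zero x hge (F l) (hF l)
    rw [hvv, hT, twoF_mon hx _ _ (F l) hF'.1, hF'.2, ha, hb]
    push_cast
    apply le_of_eq
    ring

private theorem twoF_iter [CharZero k] (F : MvPolynomial (Fin 2) k) (j : ℕ) :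
    ∀ n, coeff (mon (n + j) 0) F ≠ 0 → coeff (mon n 0) ((pderiv 0)^[j] F) ≠ 0 := by
  induction j with
  | zero =>
    intro n h
    exact h
  | succ j ih =>
    intro n h
    rw [Function.iterate_succ_apply', coeff_pderiv]
    have e1 : mon n 0 + Finsupp.single (0 : Fin 2) 1 = mon (n + 1) 0 := by
      unfold mon
      rw [Finsupp.single_zero, add_zero, add_zero, ← Finsupp.single_add]
    rw [e1]
    apply mul_ne_zero
    · apply ih
      have : n + 1 + j = n + (j + 1) := by ring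
      rw [this]
      exact h
    · exact Nat.cast_add_one_ne_zero _

private theorem twoF_t1 {K : Type u} [Field K] [Algebra k K] {v : OrdFn k K} {x : Fin 2 → K}
    (β : ℕ) (M N : Λ → ℕ) (F : Λ → MvPolynomial (Fin 2) k)
    (V : MvPolynomial (Fin 2) k) (T : Λ → MvPolynomial (Fin 2) k) (J : MvPolynomial (Fin 2) k)
    (hT : ∀ l, T l = X 1 ^ M l * F l) (hJ : J = X 1 ^ β * V)
    (hV : coeff 0 V ≠ 0) (hF : ∀ l, F l ≠ 0) (hx : Cen v x) (b : ℕ) (hb : 1 ≤ b)
    (hFb : ∀ l, v.ord (aeval x (F l)) ≤ (N l : ℤ) * b)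
    (g0 P00 P01 : K) (hg0 : g0 ≠ 0) (hP : P00 ≠ 0)
    (hD : ∀ D : Derivation k K K, D g0 = P00 * D (x 0) + P01 * D (x 1))
    (hord : (b : ℤ) = v.ord g0 - v.ord P00) :
    Dmd (fun _ : Unit => t1Type β M N) T J v x := by
  have hge := twoF_ge hx
  have h1 := hx.1 1
  obtain ⟨z, hz⟩ := Int.eq_ofNat_of_zero_le h1.le
  have hV' := v.ord_aeval_of_coeff_zero x hge V hV
  have hdet : (!![P00, P01; 0, 1] : Matrix (Fin 2) (Fin 2) K).det = P00 := by
    rw [Matrix.det_fin_two_of]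
    ring
  refine ⟨(), ![b, z], ?_, ![g0, x 1], !![P00, P01; 0, 1], ?_, ?_, ?_, ?_, ?_⟩
  · intro c
    change (1 : ℕ) ≤ (![b, z] : Fin 2 → ℕ) c
    fin_cases c
    · exact hb
    · change 1 ≤ z
      omega
  · intro c
    fin_cases c
    · exact hg0
    · exact twoF_ne hx 1
  · rw [hdet]
    exact hP
  · intro D c
    rw [Fin.sum_univ_two]
    fin_cases c
    · exact hD D
    · change D (x 1) = 0 * D (x 0) + 1 * D (x 1)
      ring
  · have haa : (t1Type β M N).aa ![b, z] = 1 * b + (1 + β) * z := by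
      change ∑ c : Fin 2, (![1, 1 + β] : Fin 2 → ℕ) c * (![b, z] : Fin 2 → ℕ) c = _
      rw [Fin.sum_univ_two]
      rfl
    have hJ' : J = X 0 ^ 0 * X 1 ^ β * V := by
      rw [hJ, pow_zero, one_mul]
    rw [haa, hJ', twoF_mon hx 0 β V hV'.1, hV'.2, hdet, Fin.sum_univ_two, hz]
    change _ ≤ v.ord g0 + v.ord (x 1) - v.ord P00 + _
    rw [hz]
    push_cast
    nlinarith
  · intro l
    have hvv : (t1Type β M N).vv l ![b, z] = N l * b + M l * z := by
      change ∑ c : Fin 2, (![N l, M l] : Fin 2 → ℕ) c * (![b, z] : Fin 2 → ℕ) c = _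
      rw [Fin.sum_univ_two]
      rfl
    have hT' : T l = X 0 ^ 0 * X 1 ^ M l * F l := by
      rw [hT, pow_zero, one_mul]
    have h2 := hFb l
    rw [hvv, hT', twoF_mon hx _ _ (F l) (hx.2 _ (hF l)), hz]
    push_cast
    linarith

theorem dom_t1 [CharZero k] [Finite Λ] (β : ℕ) (M N : Λ → ℕ) (F : Λ → MvPolynomial (Fin 2) k)
    (V : MvPolynomial (Fin 2) k) (T : Λ → MvPolynomial (Fin 2) k) (J : MvPolynomial (Fin 2) k)
    (hT : ∀ l, T l = X 1 ^ M l * F l) (hJ : J = X 1 ^ β * V)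
    (hV : coeff 0 V ≠ 0) (hF : ∀ l, coeff (mon (N l) 0) (F l) ≠ 0) :
    Dom (fun _ : Unit => t1Type β M N) T J := by
  intro K _ _ v x hx
  have hge := twoF_ge hx
  -- the derivatives
  let G : Λ → ℕ → MvPolynomial (Fin 2) k := fun l j => (pderiv 0)^[j] (F l)
  have hG1 : ∀ l j, G l (j + 1) = pderiv 0 (G l j) := fun l j =>
    Function.iterate_succ_apply' _ _ _
  have hGne : ∀ l j, j ≤ N l → G l j ≠ 0 := by
    intro l j hj h
    have h1 := twoF_iter (F l) j (N l - j) (by rw [Nat.sub_add_cancel hj]; exact hF l)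
    change coeff _ (G l j) ≠ 0 at h1
    rw [h, coeff_zero] at h1
    exact h1 rfl
  have hFne : ∀ l, F l ≠ 0 := fun l => hGne l 0 (Nat.zero_le _)
  have hGN : ∀ l, v.ord (aeval x (G l (N l))) = 0 := by
    intro l
    apply (v.ord_aeval_of_coeff_zero x hge _ _).2
    have h1 := twoF_iter (F l) (N l) 0 (by rw [zero_add]; exact hF l)
    have h2 : mon 0 0 = (0 : Fin 2 →₀ ℕ) := by
      unfold mon
      rw [Finsupp.single_zero, Finsupp.single_zero, add_zero]
    rw [h2] at h1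
    exact h1
  let δ : (Option (Σ l : Λ, Fin (N l))) → ℤ := fun o => o.elim (v.ord (x 0))
    (fun p => v.ord (aeval x (G p.1 p.2)) - v.ord (aeval x (G p.1 (p.2 + 1))))
  obtain ⟨o, ho⟩ := Finite.exists_max δ
  have ho1 : 1 ≤ δ o := by
    have h1 : δ none ≤ δ o := ho none
    have h2 : 0 < v.ord (x 0) := hx.1 0
    change v.ord (x 0) ≤ δ o at h1
    omega
  obtain ⟨b, hb⟩ := Int.eq_ofNat_of_zero_le (a := δ o) (by omega)
  have hb' : δ o = (b : ℤ) := hb
  have hb1 : 1 ≤ b := by omega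
  have hFb : ∀ l, v.ord (aeval x (F l)) ≤ (N l : ℤ) * b := by
    intro l
    have h1 : ∑ j ∈ Finset.range (N l), (v.ord (aeval x (G l j)) - v.ord (aeval x (G l (j + 1)))) =
        v.ord (aeval x (G l 0)) - v.ord (aeval x (G l (N l))) :=
      Finset.sum_range_sub' (fun j => v.ord (aeval x (G l j))) (N l)
    rw [hGN, sub_zero] at h1
    change v.ord (aeval x (G l 0)) ≤ _
    rw [← h1]
    have h2 : ∀ j ∈ Finset.range (N l),
        v.ord (aeval x (G l j)) - v.ord (aeval x (G l (j + 1))) ≤ (b : ℤ) := by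
      intro j hj
      have h3 := ho (some ⟨l, ⟨j, Finset.mem_range.1 hj⟩⟩)
      rw [hb'] at h3
      exact h3
    have h4 := Finset.sum_le_card_nsmul _ _ _ h2
    rw [Finset.card_range, nsmul_eq_mul] at h4
    exact h4
  cases o with
  | none =>
    refine twoF_t1 β M N F V T J hT hJ hV hFne hx b hb1 hFb (x 0) 1 0 (twoF_ne hx 0) one_ne_zero
      (fun D => by ring) ?_
    rw [v.ord_one, sub_zero]
    exact hb'.symm
  | some p =>
    have hp2 := p.2.2
    refine twoF_t1 β M N F V T J hT hJ hV hFne hx b hb1 hFb (aeval x (G p.1 p.2))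
      (aeval x (pderiv 0 (G p.1 p.2))) (aeval x (pderiv 1 (G p.1 p.2)))
      (hx.2 _ (hGne _ _ hp2.le)) ?_ ?_ ?_
    · rw [← hG1]
      exact hx.2 _ (hGne _ _ hp2)
    · intro D
      rw [der_aeval, Fin.sum_univ_two]
    · rw [← hG1]
      exact hb'.symm

end MLD
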