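import Pool.Agent.MLD.TwoB
import Pool.Agent.MLD.TwoC
import Pool.Agent.MLD.TwoD
import Pool.Agent.MLD.TwoE
import Pool.Agent.MLD.TwoF

/-!
The block theorem for two variables: states, children, termination.
-/

open MvPolynomial Filter

namespace MLD

universe u

section gen
variable {k : Type u} [Field k] {B : Type} [Fintype B] [DecidableEq B] {Λ : Type}

theorem Dmd.comp {ι ι' : Type} {τ : ι → LinType Λ} {τ' : ι' → LinType Λ} (f : ι → ι')
    (hf : ∀ t, τ t = τ' (f t)) {T : Λ → MvPolynomial B k} {J : MvPolynomial B k}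
    {K : Type u} [Field K] [Algebra k K] {v : OrdFn k K} {x : B → K} (h : Dmd τ T J v x) :
    Dmd τ' T J v x := by
  obtain ⟨t, θ, h1, h2⟩ := h
  have : ∃ (θ : Fin (τ' (f t)).q → ℕ), (τ' (f t)).lo ≤ θ ∧ Dmd1 (τ' (f t)) θ T J v x := by
    rw [← hf t]
    exact ⟨θ, h1, h2⟩
  obtain ⟨θ', h1', h2'⟩ := this
  exact ⟨f t, θ', h1', h2'⟩

/-- the ultrafilter version of `∃` over a finite type -/
theorem ev_exists {ι : Type} [Finite ι] {P : ι → ℕ → Prop} (h : ∀ᶠ i in UU, ∃ t, P t i) :
    ∃ t, ∀ᶠ i in UU, P t i := Ultrafilter.eventually_exists_iff.mp h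

theorem ev_not {P : ℕ → Prop} (h : ¬ ∀ᶠ i in UU, P i) : ∀ᶠ i in UU, ¬ P i :=
  Ultrafilter.eventually_not.mpr h

theorem ev_false (h : ∀ᶠ _i : ℕ in UU, False) : False := by
  obtain ⟨_, h⟩ := h.exists
  exact h

end gen

section poly
variable {k : Type u} [Field k]

/-- lowest order coefficient of a sequence of polynomials of bounded degree -/
theorem low_coeff (H : ℕ → Polynomial k) (e : ℕ)
    (hH : ∀ᶠ i in UU, H i ≠ 0 ∧ (H i).natDegree ≤ e) :
    ∃ j ≤ e, ∀ᶠ i in UU, (H i).coeff j ≠ 0 ∧ ∀ j' < j, (H i).coeff j' = 0 := by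
  have h1 : ∀ᶠ i in UU, ∃ j : Fin (e + 1), (H i).coeff j ≠ 0 ∧ ∀ j' < (j : ℕ), (H i).coeff j' = 0 := by
    filter_upwards [hH] with i hi
    obtain ⟨h0, hd⟩ := hi
    have hex : ∃ j, (H i).coeff j ≠ 0 := by
      by_contra hcon
      push Not at hcon
      exact h0 (Polynomial.ext (by simpa using hcon))
    classical
    refine ⟨⟨Nat.find hex, ?_⟩, Nat.find_spec hex, fun j' hj' => ?_⟩
    · have := Polynomial.le_natDegree_of_ne_zero (Nat.find_spec hex)
      omega
    · have := Nat.find_min hex hj'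
      simpa using this
  obtain ⟨j, hj⟩ := ev_exists h1
  exact ⟨j, by omega, hj⟩

/-- the order of the limit of a sequence -/
theorem exists_order {σ : Type} [Finite σ] (F : ℕ → MvPolynomial σ k) (j : ℕ) (m : σ →₀ ℕ)
    (hm : m.degree = j) (h : ∀ᶠ i in UU, coeff m (F i) ≠ 0) :
    ∃ e ≤ j, (∀ᶠ i in UU, ∀ m : σ →₀ ℕ, m.degree < e → coeff m (F i) = 0) ∧
      ∃ m : σ →₀ ℕ, m.degree = e ∧ ∀ᶠ i in UU, coeff m (F i) ≠ 0 := by
  classical
  have hex : ∃ e, ∃ m : σ →₀ ℕ, m.degree = e ∧ ∀ᶠ i in UU, coeff m (F i) ≠ 0 := ⟨j, m, hm, h⟩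
  refine ⟨Nat.find hex, Nat.find_min' hex ⟨m, hm, h⟩, ?_, Nat.find_spec hex⟩
  have hfin : {m : σ →₀ ℕ | m.degree < Nat.find hex}.Finite := by
    have := Set.Finite.of_finite_image (s := {m : σ →₀ ℕ | m.degree < Nat.find hex})
      (f := fun m => (fun i => m i : σ → ℕ)) ?_ ?_
    · exact this
    · refine (Set.Finite.pi' (t := fun _ : σ => Set.Iio (Nat.find hex)) fun _ =>
        Set.finite_Iio _).subset ?_
      rintro f ⟨m, hm, rfl⟩ i
      exact lt_of_le_of_lt (Finsupp.le_degree i m) hm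
    · intro a _ b _ hab
      exact Finsupp.ext fun i => congrFun hab i
  have := (Filter.eventually_all_finite hfin (l := (UU : Filter ℕ))
    (p := fun m i => coeff m (F i) = 0)).mpr ?_
  · exact this
  · intro m hm
    have h1 := Nat.find_min hex hm
    push Not at h1
    have h2 := h1 m rfl
    have h3 := ev_not (P := fun i => coeff m (F i) ≠ 0) (by simpa using h2)
    simpa using h3

theorem coeff_zero_aeval {σ : Type} (p : σ → MvPolynomial σ k) (hp : ∀ b, coeff 0 (p b) = 0)
    (V : MvPolynomial σ k) : coeff 0 (aeval p V) = coeff 0 V := by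
  have h1 : ∀ G : MvPolynomial σ k, coeff 0 G = constantCoeff G := fun _ => rfl
  rw [h1, h1]
  have h2 : (constantCoeff : MvPolynomial σ k →+* k).comp (aeval p : _ →ₐ[k] _).toRingHom
      = constantCoeff := by
    refine MvPolynomial.ringHom_ext (fun c => ?_) (fun b => ?_)
    · simp
    · simpa [h1] using hp b
  exact congrArg (fun f : MvPolynomial σ k →+* k => f V) h2

end poly

section st

/-- A state of the resolution process. -/
structure St (k : Type u) [Field k] (Λ : Type) where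
  T : Λ → ℕ → MvPolynomial (Fin 2) k
  J : ℕ → MvPolynomial (Fin 2) k
  F : Λ → ℕ → MvPolynomial (Fin 2) k
  V : ℕ → MvPolynomial (Fin 2) k
  L : Λ → ℕ
  M : Λ → ℕ
  α : ℕ
  β : ℕ
  e : Λ → ℕ
  fY : Prop
  fZ : Prop
  hT : ∀ l, ∀ᶠ i in UU, T l i = X 0 ^ L l * X 1 ^ M l * F l i
  hJ : ∀ᶠ i in UU, J i = X 0 ^ α * X 1 ^ β * V i
  hV : ∀ᶠ i in UU, coeff 0 (V i) ≠ 0
  he0 : ∀ l, ∀ᶠ i in UU, ∀ m : Fin 2 →₀ ℕ, m.degree < e l → coeff m (F l i) = 0
  he1 : ∀ l, ∃ m : Fin 2 →₀ ℕ, m.degree = e l ∧ ∀ᶠ i in UU, coeff m (F l i) ≠ 0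
  hfY : ¬ fY → α = 0 ∧ ∀ l, L l = 0
  hfZ : ¬ fZ → β = 0 ∧ ∀ l, M l = 0
  hY : fY → ∀ l, ∃ q, ∀ᶠ i in UU, coeff (mon 0 q) (F l i) ≠ 0
  hZ : fZ → ∀ l, ∃ p, ∀ᶠ i in UU, coeff (mon p 0) (F l i) ≠ 0

variable {k : Type u} [Field k] {Λ : Type}

theorem ini_ev (s : St k Λ) (l : Λ) : ∀ᶠ i in UU, ini (s.e l) (s.F l i) ≠ 0 := by
  obtain ⟨m, hm, h⟩ := s.he1 l
  filter_upwards [h] with i hi
  exact ini_ne_zero _ _ m hm hi

theorem ini_natDegree (e : ℕ) (F : MvPolynomial (Fin 2) k) : (ini e F).natDegree ≤ e := by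
  rw [Polynomial.natDegree_le_iff_coeff_eq_zero]
  intro j hj
  rw [coeff_ini, if_neg (by omega)]

theorem aeval_m1_X0 (c : k) :
    aeval (m1 c) (X 0 : MvPolynomial (Fin 2) k) = X 1 * (X 0 + C c) := by
  simp [m1]

theorem aeval_m1_X1 (c : k) :
    aeval (m1 c) (X 1 : MvPolynomial (Fin 2) k) = X 1 := by
  simp [m1]

/-- first child -/
theorem child1 (s : St k Λ) (c : ℕ → k) :
    ∃ s' : St k Λ, (∀ l i, s'.T l i = aeval (m1 (c i)) (s.T l i)) ∧
      (∀ i, s'.J i = aeval (m1 (c i)) (s.J i) * X 1) ∧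
      (∀ l, s'.e l ≤ s.e l) ∧
      (∀ l, s'.e l = s.e l → ∀ᶠ i in UU, coeff (mon (s.e l) 0) (s'.F l i) ≠ 0) ∧
      (s'.fY ↔ s.fY ∧ ∀ᶠ i in UU, c i = 0) ∧
      (¬ s.fY ∨ (∀ᶠ i in UU, c i = 0) →
        ∀ l, ∀ᶠ i in UU, s'.F l i = ch1 (c i) (s.e l) (s.F l i)) := by
  classical
  -- the polynomials
  set F' : Λ → ℕ → MvPolynomial (Fin 2) k := fun l i =>
    if ∀ᶠ i in UU, c i = 0 then ch1 (c i) (s.e l) (s.F l i)
    else (X 0 + C (c i)) ^ s.L l * ch1 (c i) (s.e l) (s.F l i) with hF'
  set V' : ℕ → MvPolynomial (Fin 2) k := fun i =>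
    if ∀ᶠ i in UU, c i = 0 then aeval (m1 (c i)) (s.V i)
    else (X 0 + C (c i)) ^ s.α * aeval (m1 (c i)) (s.V i) with hV'
  have hcm : ∀ (c : k) (V : MvPolynomial (Fin 2) k), coeff 0 (aeval (m1 c) V) = coeff 0 V := by
    intro c V
    refine coeff_zero_aeval _ (fun b => ?_) V
    fin_cases b
    · show constantCoeff (X 1 * (X 0 + C c) : MvPolynomial (Fin 2) k) = 0
      simp
    · show constantCoeff (X 1 : MvPolynomial (Fin 2) k) = 0
      simp
  -- lowest coefficient in `Y`
  have hlow : ∀ l, ∃ j ≤ s.e l, ∀ᶠ i in UU,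
      coeff (mon j 0) (F' l i) ≠ 0 ∧ ∀ j' < j, coeff (mon j' 0) (F' l i) = 0 := by
    intro l
    obtain ⟨j, hj, h⟩ := low_coeff
      (fun i => (ini (s.e l) (s.F l i)).comp (Polynomial.X + Polynomial.C (c i))) (s.e l) (by
        filter_upwards [ini_ev s l] with i hi
        refine ⟨?_, ?_⟩
        · intro h0
          apply hi
          have := congrArg (fun P : Polynomial k => P.comp (Polynomial.X - Polynomial.C (c i))) h0
          simpa [Polynomial.comp_assoc] using this
        · rw [Polynomial.natDegree_comp]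
          simpa using ini_natDegree _ _)
    refine ⟨j, hj, ?_⟩
    by_cases hc : ∀ᶠ i in UU, c i = 0
    · filter_upwards [h, s.he0 l] with i hi he
      have hco : ∀ j, coeff (mon j 0) (F' l i) =
          ((ini (s.e l) (s.F l i)).comp (Polynomial.X + Polynomial.C (c i))).coeff j := by
        intro j
        rw [← coeff_atY, ← atY_ch1 _ _ _ he]
        simp only [hF', if_pos hc]
      exact ⟨by rw [hco]; exact hi.1, fun j' hj' => by rw [hco]; exact hi.2 j' hj'⟩
    · have hc' := ev_not hc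
      filter_upwards [h, s.he0 l, hc'] with i hi he hci
      have hco : ∀ j, coeff (mon j 0) (F' l i) =
          ((Polynomial.X + Polynomial.C (c i)) ^ s.L l *
            (ini (s.e l) (s.F l i)).comp (Polynomial.X + Polynomial.C (c i))).coeff j := by
        intro j
        rw [← coeff_atY, ← atY_ch1 _ _ _ he]
        simp only [hF', if_neg hc, map_mul, map_pow, map_add]
        congr 3
        simp [atY]
      have hlo : ∀ j', (∀ j'' < j', ((ini (s.e l) (s.F l i)).comp
          (Polynomial.X + Polynomial.C (c i))).coeff j'' = 0) →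
          coeff (mon j' 0) (F' l i) = c i ^ s.L l * ((ini (s.e l) (s.F l i)).comp
          (Polynomial.X + Polynomial.C (c i))).coeff j' := by
        intro j' hj'
        rw [hco, Polynomial.coeff_mul, Finset.sum_eq_single (0, j')]
        · congr 1
          rw [Polynomial.coeff_zero_eq_eval_zero]
          simp
        · rintro ⟨a, b⟩ hab hne
          rw [Finset.HasAntidiagonal.mem_antidiagonal] at hab
          simp only at hab ⊢
          have : b < j' := by
            rcases Nat.eq_zero_or_pos a with h | h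
            · subst h
              exact absurd (by simp at hab; simp [hab]) hne
            · omega
          rw [hj' b this, mul_zero]
        · intro h
          exact absurd (Finset.HasAntidiagonal.mem_antidiagonal.mpr (by simp)) h
      refine ⟨?_, fun j' hj' => ?_⟩
      · rw [hlo j hi.2]
        exact mul_ne_zero (pow_ne_zero _ hci) hi.1
      · rw [hlo j' (fun j'' h'' => hi.2 j'' (h''.trans hj')), hi.2 j' hj', mul_zero]
  -- orders
  have hord : ∀ l, ∃ e ≤ s.e l,
      (∀ᶠ i in UU, ∀ m : Fin 2 →₀ ℕ, m.degree < e → coeff m (F' l i) = 0) ∧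
      (∃ m : Fin 2 →₀ ℕ, m.degree = e ∧ ∀ᶠ i in UU, coeff m (F' l i) ≠ 0) ∧
      (e = s.e l → ∀ᶠ i in UU, coeff (mon (s.e l) 0) (F' l i) ≠ 0) := by
    intro l
    obtain ⟨j, hj, h⟩ := hlow l
    obtain ⟨e, he, h1, h2⟩ := exists_order (F' l) j (mon j 0) (by rw [mon_degree]; omega)
      (h.mono fun i hi => hi.1)
    refine ⟨e, he.trans hj, h1, h2, ?_⟩
    intro heq
    have : j = s.e l := by omega
    rw [← this]
    exact h.mono fun i hi => hi.1
  choose e' he'le he'0 he'1 he'reg using hord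
  refine ⟨{
    T := fun l i => aeval (m1 (c i)) (s.T l i)
    J := fun i => aeval (m1 (c i)) (s.J i) * X 1
    F := F'
    V := V'
    L := fun l => if ∀ᶠ i in UU, c i = 0 then s.L l else 0
    M := fun l => s.L l + s.M l + s.e l
    α := if ∀ᶠ i in UU, c i = 0 then s.α else 0
    β := 1 + s.α + s.β
    e := e'
    fY := s.fY ∧ ∀ᶠ i in UU, c i = 0
    fZ := True
    hT := ?_
    hJ := ?_
    hV := ?_
    he0 := he'0
    he1 := he'1
    hfY := ?_
    hfZ := fun h => absurd trivial h
    hY := ?_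
    hZ := ?_ }, fun _ _ => rfl, fun _ => rfl, he'le, he'reg, Iff.rfl, ?_⟩
  · intro l
    by_cases hc : ∀ᶠ i in UU, c i = 0
    · filter_upwards [s.hT l, s.he0 l, hc] with i hi he hci
      simp only [hF', if_pos hc]
      rw [hi, map_mul, map_mul, map_pow, map_pow, aeval_m1_eq _ _ _ he, aeval_m1_X0,
        aeval_m1_X1, hci, C_0]
      ring
    · filter_upwards [s.hT l, s.he0 l] with i hi he
      simp only [hF', if_neg hc]
      rw [hi, map_mul, map_mul, map_pow, map_pow, aeval_m1_eq _ _ _ he, aeval_m1_X0,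
        aeval_m1_X1, mul_pow]
      ring
  · by_cases hc : ∀ᶠ i in UU, c i = 0
    · filter_upwards [s.hJ, hc] with i hi hci
      simp only [hV', if_pos hc]
      rw [hi, map_mul, map_mul, map_pow, map_pow, aeval_m1_X0, aeval_m1_X1, hci, C_0]
      ring
    · filter_upwards [s.hJ] with i hi
      simp only [hV', if_neg hc]
      rw [hi, map_mul, map_mul, map_pow, map_pow, aeval_m1_X0, aeval_m1_X1, mul_pow]
      ring
  · by_cases hc : ∀ᶠ i in UU, c i = 0
    · filter_upwards [s.hV] with i hi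
      simp only [hV', if_pos hc, hcm]
      exact hi
    · filter_upwards [s.hV, ev_not hc] with i hi hci
      simp only [hV', if_neg hc]
      have h1 : ∀ G : MvPolynomial (Fin 2) k, coeff 0 G = constantCoeff G := fun _ => rfl
      rw [h1, map_mul, map_pow, map_add, constantCoeff_X,
        constantCoeff_C, zero_add, ← h1, hcm]
      exact mul_ne_zero (pow_ne_zero _ hci) hi
  · intro hn
    by_cases hc : ∀ᶠ i in UU, c i = 0
    · have hsf : ¬ s.fY := fun h => hn ⟨h, hc⟩
      simp only [if_pos hc]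
      exact s.hfY hsf
    · simp only [if_neg hc]
      exact ⟨trivial, fun _ => trivial⟩
  · rintro ⟨h1, hc⟩ l
    obtain ⟨q, hq⟩ := s.hY h1 l
    -- coefficient (0, q) of F is coefficient (0, q - e) of ch1 0 e F
    have : ∀ᶠ i in UU, s.e l ≤ q ∧ coeff (mon 0 (q - s.e l)) (F' l i) ≠ 0 := by
      filter_upwards [hq, s.he0 l, hc] with i hi he hci
      have hz := atZ_ch1_zero (s.e l) (s.F l i) he
      have h2 : (Polynomial.X ^ s.e l * atZ (ch1 0 (s.e l) (s.F l i))).coeff q ≠ 0 := by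
        rw [hz, coeff_atZ]; exact hi
      rw [Polynomial.coeff_X_pow_mul'] at h2
      split_ifs at h2 with h3
      · refine ⟨h3, ?_⟩
        rw [coeff_atZ] at h2
        simp only [hF', if_pos hc, hci]
        exact h2
      · exact absurd rfl h2
    exact ⟨q - s.e l, this.mono fun i hi => hi.2⟩
  · intro _ l
    obtain ⟨j, hj, h⟩ := hlow l
    exact ⟨j, h.mono fun i hi => hi.1⟩
  · intro h l
    by_cases hc : ∀ᶠ i in UU, c i = 0
    · exact Eventually.of_forall fun i => by simp only [hF', if_pos hc]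
    · have hL := (s.hfY (h.resolve_right hc)).2 l
      exact Eventually.of_forall fun i => by simp only [hF', if_neg hc, hL, pow_zero, one_mul]

theorem aeval_m2_X0 : aeval (m2 k) (X 0 : MvPolynomial (Fin 2) k) = X 1 := by
  simp [m2]

theorem aeval_m2_X1 : aeval (m2 k) (X 1 : MvPolynomial (Fin 2) k) = X 1 * X 0 := by
  simp [m2]

/-- second child -/
theorem child2 (s : St k Λ) :
    ∃ s' : St k Λ, (∀ l i, s'.T l i = aeval (m2 k) (s.T l i)) ∧
      (∀ i, s'.J i = aeval (m2 k) (s.J i) * X 1) ∧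
      (∀ l, s'.e l ≤ s.e l) ∧
      (∀ l, s'.e l = s.e l → ∀ᶠ i in UU, coeff (mon (s.e l) 0) (s'.F l i) ≠ 0) ∧
      (∀ l, (∀ᶠ i in UU, coeff (mon (s.e l) 0) (s.F l i) ≠ 0) → s'.e l = 0) := by
  classical
  set F' : Λ → ℕ → MvPolynomial (Fin 2) k := fun l i => ch2 (s.e l) (s.F l i) with hF'
  have hcm : ∀ (V : MvPolynomial (Fin 2) k), coeff 0 (aeval (m2 k) V) = coeff 0 V := by
    intro V
    refine coeff_zero_aeval _ (fun b => ?_) V
    fin_cases b
    · show constantCoeff (X 1 : MvPolynomial (Fin 2) k) = 0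
      simp
    · show constantCoeff (X 1 * X 0 : MvPolynomial (Fin 2) k) = 0
      simp
  -- the restriction to `Z = 0`
  have hco : ∀ l i, (∀ m : Fin 2 →₀ ℕ, m.degree < s.e l → coeff m (s.F l i) = 0) → ∀ j,
      coeff (mon j 0) (F' l i) = if j ≤ s.e l then coeff (mon (s.e l - j) j) (s.F l i) else 0 := by
    intro l i he j
    rw [← coeff_atY, hF']
    simp only
    rw [atY_ch2 _ _ he, Polynomial.finsetSum_coeff]
    simp only [Polynomial.coeff_C_mul, Polynomial.coeff_X_pow, mul_ite, mul_one, mul_zero]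
    rw [Finset.sum_ite_eq]
    simp only [Finset.mem_range, Nat.lt_succ_iff]
  have hlow : ∀ l, ∃ j ≤ s.e l, ∀ᶠ i in UU,
      coeff (mon j 0) (F' l i) ≠ 0 ∧ ∀ j' < j, coeff (mon j' 0) (F' l i) = 0 := by
    intro l
    obtain ⟨j, hj, h⟩ := low_coeff
      (fun i => atY (F' l i)) (s.e l) (by
        obtain ⟨m, hm, h1⟩ := s.he1 l
        filter_upwards [h1, s.he0 l] with i hi he
        refine ⟨?_, ?_⟩
        · intro h0
          have h2 := congrArg (fun P : Polynomial k => P.coeff (m 1)) h0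
          simp only [coeff_atY, Polynomial.coeff_zero] at h2
          have hd : m 0 + m 1 = s.e l := by
            rw [← hm, eq_mon m, mon_degree, mon_apply_zero, mon_apply_one]
          rw [hco l i he, if_pos (by omega), show s.e l - m 1 = m 0 by omega, ← eq_mon] at h2
          exact hi h2
        · rw [Polynomial.natDegree_le_iff_coeff_eq_zero]
          intro j hj
          rw [coeff_atY, hco l i he, if_neg (by omega)])
    refine ⟨j, hj, ?_⟩
    filter_upwards [h] with i hi
    simpa only [coeff_atY] using hi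
  -- orders
  have hord : ∀ l, ∃ e ≤ s.e l,
      (∀ᶠ i in UU, ∀ m : Fin 2 →₀ ℕ, m.degree < e → coeff m (F' l i) = 0) ∧
      (∃ m : Fin 2 →₀ ℕ, m.degree = e ∧ ∀ᶠ i in UU, coeff m (F' l i) ≠ 0) ∧
      (e = s.e l → ∀ᶠ i in UU, coeff (mon (s.e l) 0) (F' l i) ≠ 0) ∧
      ((∀ᶠ i in UU, coeff (mon (s.e l) 0) (s.F l i) ≠ 0) → e = 0) := by
    intro l
    obtain ⟨j, hj, h⟩ := hlow l
    obtain ⟨e, he, h1, h2⟩ := exists_order (F' l) j (mon j 0) (by rw [mon_degree]; omega)
      (h.mono fun i hi => hi.1)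
    refine ⟨e, he.trans hj, h1, h2, ?_, ?_⟩
    · intro heq
      have : j = s.e l := by omega
      rw [← this]
      exact h.mono fun i hi => hi.1
    · intro h3
      by_contra hne
      refine ev_false ?_
      filter_upwards [h3, h, s.he0 l] with i hi1 hi2 hi3
      have := hi2.2 0 (by omega)
      rw [hco l i hi3, if_pos (by omega)] at this
      exact hi1 (by simpa using this)
  choose e' he'le he'0 he'1 he'reg he'z using hord
  refine ⟨{
    T := fun l i => aeval (m2 k) (s.T l i)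
    J := fun i => aeval (m2 k) (s.J i) * X 1
    F := F'
    V := fun i => aeval (m2 k) (s.V i)
    L := s.M
    M := fun l => s.L l + s.M l + s.e l
    α := s.β
    β := 1 + s.α + s.β
    e := e'
    fY := s.fZ
    fZ := True
    hT := ?_
    hJ := ?_
    hV := ?_
    he0 := he'0
    he1 := he'1
    hfY := s.hfZ
    hfZ := fun h => absurd trivial h
    hY := ?_
    hZ := ?_ }, fun _ _ => rfl, fun _ => rfl, he'le, he'reg, he'z⟩
  · intro l
    filter_upwards [s.hT l, s.he0 l] with i hi he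
    simp only [hF']
    rw [hi, map_mul, map_mul, map_pow, map_pow, aeval_m2_eq _ _ he, aeval_m2_X0,
      aeval_m2_X1, mul_pow]
    ring
  · filter_upwards [s.hJ] with i hi
    rw [hi, map_mul, map_mul, map_pow, map_pow, aeval_m2_X0, aeval_m2_X1, mul_pow]
    ring
  · filter_upwards [s.hV] with i hi
    rw [hcm]
    exact hi
  · intro h1 l
    obtain ⟨p, hp⟩ := s.hZ h1 l
    have : ∀ᶠ i in UU, s.e l ≤ p ∧ coeff (mon 0 (p - s.e l)) (F' l i) ≠ 0 := by
      filter_upwards [hp, s.he0 l] with i hi he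
      have hz := atZ_ch2 (s.e l) (s.F l i) he
      have h2 : (Polynomial.X ^ s.e l * atZ (ch2 (s.e l) (s.F l i))).coeff p ≠ 0 := by
        rw [hz, coeff_atY]; exact hi
      rw [Polynomial.coeff_X_pow_mul'] at h2
      split_ifs at h2 with h3
      · refine ⟨h3, ?_⟩
        rw [coeff_atZ] at h2
        exact h2
      · exact absurd rfl h2
    exact ⟨p - s.e l, this.mono fun i hi => hi.2⟩
  · intro _ l
    obtain ⟨j, hj, h⟩ := hlow l
    exact ⟨j, h.mono fun i hi => hi.1⟩

/-- if all children have types, then so does the state -/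
theorem node [IsAlgClosed k] [Finite Λ] (s : St k Λ)
    (h1 : ∀ c : ℕ → k, HasTypes (fun l i => aeval (m1 (c i)) (s.T l i))
      (fun i => aeval (m1 (c i)) (s.J i) * X 1))
    (h2 : HasTypes (fun l i => aeval (m2 k) (s.T l i)) (fun i => aeval (m2 k) (s.J i) * X 1)) :
    HasTypes s.T s.J := by
  classical
  -- special sequences
  let cc : Option (Σ l : Λ, Fin (s.e l)) → ℕ → k := fun o i =>
    match o with
    | none => 0
    | some ⟨l, t⟩ => (ini (s.e l) (s.F l i)).roots.toList.getD t 0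
  have hcc : ∀ l i ρ, ini (s.e l) (s.F l i) ≠ 0 → (ini (s.e l) (s.F l i)).IsRoot ρ →
      ∃ o, cc o i = ρ := by
    intro l i ρ h0 hρ
    have hmem : ρ ∈ (ini (s.e l) (s.F l i)).roots.toList := by
      rw [Multiset.mem_toList, Polynomial.mem_roots h0]
      exact hρ
    obtain ⟨t, ht, heq⟩ := List.mem_iff_getElem.mp hmem
    have hlen : t < s.e l := by
      have h3 := Polynomial.card_roots' (ini (s.e l) (s.F l i))
      have h4 := ini_natDegree (s.e l) (s.F l i)
      rw [Multiset.length_toList] at ht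
      omega
    refine ⟨some ⟨l, ⟨t, hlen⟩⟩, ?_⟩
    show (ini (s.e l) (s.F l i)).roots.toList.getD t 0 = ρ
    rw [List.getD_eq_getElem _ _ ht, heq]
  have h1' : ∀ o, ∃ (ι : Type) (_ : Finite ι) (τ : ι → LinType Λ),
    (∀ᶠ i in UU, Dom τ (fun l => aeval (m1 (cc o i)) (s.T l i))
      (aeval (m1 (cc o i)) (s.J i) * X 1)) ∧
      ∀ (t : ι) (θ : Fin (τ t).q → ℕ), (τ t).lo ≤ θ →
        ∀ᶠ i in UU, Rlz (τ t) θ (fun l => aeval (m1 (cc o i)) (s.T l i))
          (aeval (m1 (cc o i)) (s.J i) * X 1) := fun o => h1 (cc o)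
  choose ι hι τ hdom hrlz using h1'
  obtain ⟨ι2, hι2, τ2, hdom2, hrlz2⟩ := h2
  refine ⟨(Σ o, ι o) ⊕ ι2 ⊕ Unit, inferInstance,
    Sum.elim (fun p => τ p.1 p.2) (Sum.elim τ2 (fun _ => divType s.α s.β s.L s.M s.e)), ?_, ?_⟩
  · have e1 := Filter.eventually_all.mpr hdom
    have e2 := Filter.eventually_all.mpr s.hT
    have e3 := Filter.eventually_all.mpr s.he0
    have e4 := Filter.eventually_all.mpr (ini_ev s)
    filter_upwards [e1, hdom2, e2, e3, e4, s.hJ, s.hV] with i hi1 hi2 hiT hie hini hiJ hiV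
    intro K _ _ v x hx
    have hJ0 : s.J i ≠ 0 := by
      rw [hiJ]
      refine mul_ne_zero (mul_ne_zero (pow_ne_zero _ (X_ne_zero _)) (pow_ne_zero _
        (X_ne_zero _))) ?_
      intro h0
      rw [h0] at hiV
      exact hiV (coeff_zero _)
    rcases lt_trichotomy (v.ord (x 0)) (v.ord (x 1)) with hlt | heq | hgt
    · have := dmd_m2 τ2 (fun l => s.T l i) (s.J i) hJ0 v x hx hi2 hlt
      exact Dmd.comp (fun t => Sum.inr (Sum.inl t)) (fun _ => rfl) this
    · by_cases hex : ∃ l, ∃ ρ, (ini (s.e l) (s.F l i)).IsRoot ρ ∧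
          0 < v.ord (x 0 / x 1 - algebraMap k K ρ)
      · obtain ⟨l, ρ, hρ, hpos⟩ := hex
        obtain ⟨o, ho⟩ := hcc l i ρ (hini l) hρ
        have := dmd_m1 (τ o) (fun l => s.T l i) (s.J i) hJ0 v x hx (cc o i) (hi1 o)
          (by rw [ho]; exact hpos)
        exact Dmd.comp (fun t => Sum.inl ⟨o, t⟩) (fun _ => rfl) this
      · push Not at hex
        have := dmd_generic s.α s.β s.L s.M s.e (fun l => s.F l i) (s.V i) (fun l => s.T l i)
          (s.J i) hiT hiJ hiV hie hini v x hx heq (fun l ρ hρ => not_lt.mpr (hex l ρ hρ))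
        exact Dmd.comp (fun t => Sum.inr (Sum.inr t)) (fun _ => rfl) this
    · have h0 : 0 < v.ord (x 0 / x 1 - algebraMap k K 0) := by
        have hx0 : x 0 ≠ 0 := by
          have := hx.2 (X 0) (X_ne_zero 0)
          rwa [aeval_X] at this
        have hx1 : x 1 ≠ 0 := by
          have := hx.2 (X 1) (X_ne_zero 1)
          rwa [aeval_X] at this
        rw [map_zero, sub_zero, v.ord_div hx0 hx1]
        omega
      have := dmd_m1 (τ none) (fun l => s.T l i) (s.J i) hJ0 v x hx (cc none i) (hi1 none) h0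
      exact Dmd.comp (fun t => Sum.inl ⟨none, t⟩) (fun _ => rfl) this
  · rintro (⟨o, t⟩ | t | t) θ hθ
    · filter_upwards [hrlz o t θ hθ] with i hi
      exact rlz_m1 _ _ _ _ _ hi
    · filter_upwards [hrlz2 t θ hθ] with i hi
      exact rlz_m2 _ _ _ _ hi
    · have e2 := Filter.eventually_all.mpr s.hT
      have e3 := Filter.eventually_all.mpr s.he0
      filter_upwards [e2, e3, s.hJ, s.hV] with i hiT hie hiJ hiV
      exact rlz_div s.α s.β s.L s.M s.e (fun l => s.F l i) (s.V i) (fun l => s.T l i)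
          (s.J i) hiT hiJ hiV hie θ hθ

/-- normal crossing states have types -/
theorem terminal0 [Finite Λ] (s : St k Λ) (h : ∀ l, s.e l = 0) : HasTypes s.T s.J := by
  have hF : ∀ l, ∀ᶠ i in UU, coeff 0 (s.F l i) ≠ 0 := by
    intro l
    obtain ⟨m, hm, h1⟩ := s.he1 l
    rw [h l] at hm
    have : m = 0 := by
      rw [eq_mon m, mon_degree] at hm
      rw [eq_mon m, show m 0 = 0 by omega, show m 1 = 0 by omega]
      simp [mon]
    rwa [this] at h1
  have e1 := Filter.eventually_all.mpr hF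
  have e2 := Filter.eventually_all.mpr s.hT
  refine ⟨Unit, inferInstance, fun _ => t0Type s.α s.β s.L s.M, ?_, ?_⟩
  · filter_upwards [e1, e2, s.hJ, s.hV] with i hF hT hJ hV
    exact dom_t0 s.α s.β s.L s.M (fun l => s.F l i) (s.V i) (fun l => s.T l i) (s.J i) hT hJ hV hF
  · intro _ θ hθ
    filter_upwards [e2, s.hJ, s.hV] with i hT hJ hV
    exact rlz_t0 s.α s.β s.L s.M (fun l => s.F l i) (s.V i) (fun l => s.T l i) (s.J i) hT hJ hV
      θ hθ

/-- states on a smooth unflagged branch have types -/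
theorem terminal1 [CharZero k] [Finite Λ] (s : St k Λ) (hf : ¬ s.fY)
    (hreg : ∀ l, ∀ᶠ i in UU, coeff (mon (s.e l) 0) (s.F l i) ≠ 0)
    (hψ : ∀ b : ℕ, ∃ ψ : ℕ → Polynomial k, ∀ᶠ i in UU, (ψ i).coeff 0 = 0 ∧
      ∀ l, ∀ p q : ℕ, b * p + q < b * s.e l →
        coeff (mon p q) (aeval (sh (ψ i)) (s.F l i)) = 0) : HasTypes s.T s.J := by
  obtain ⟨hα, hL⟩ := s.hfY hf
  have e1 := Filter.eventually_all.mpr hreg
  have e2 := Filter.eventually_all.mpr s.hT
  refine ⟨Unit, inferInstance, fun _ => t1Type s.β s.M s.e, ?_, ?_⟩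
  · filter_upwards [e1, e2, s.hJ, s.hV] with i hF hT hJ hV
    refine dom_t1 s.β s.M s.e (fun l => s.F l i) (s.V i) (fun l => s.T l i) (s.J i) ?_ ?_ hV hF
    · intro l
      rw [hT l, hL l]
      ring
    · rw [hJ, hα]
      ring
  · intro _ θ hθ
    obtain ⟨ψ, h⟩ := hψ (θ (0 : Fin 2))
    filter_upwards [e2, s.hJ, s.hV, h] with i hT hJ hV hi
    refine rlz_t1 s.β s.M s.e (fun l => s.F l i) (s.V i) (fun l => s.T l i) (s.J i) ?_ ?_ hV
      θ hθ _ _ rfl rfl (ψ i) hi.1 hi.2
    · intro l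
      rw [hT l, hL l]
      ring
    · rw [hJ, hα]
      ring

section term
variable [IsAlgClosed k] [CharZero k] [Fintype Λ]

/-- a bad regular state has a bad regular child -/
theorem bad_child (N : ℕ) (hN : 0 < N)
    (hmin : ∀ s : St k Λ, ∑ l, s.e l < N → HasTypes s.T s.J) (s : St k Λ)
    (hs : ∑ l, s.e l = N) (hbad : ¬ HasTypes s.T s.J)
    (hreg : ∀ l, ∀ᶠ i in UU, coeff (mon (s.e l) 0) (s.F l i) ≠ 0) :
    ∃ (c : ℕ → k) (s' : St k Λ), ¬ HasTypes s'.T s'.J ∧ s'.e = s.e ∧
      (∀ l, ∀ᶠ i in UU, coeff (mon (s'.e l) 0) (s'.F l i) ≠ 0) ∧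
      (s'.fY ↔ s.fY ∧ ∀ᶠ i in UU, c i = 0) ∧
      (¬ s.fY ∨ (∀ᶠ i in UU, c i = 0) →
        ∀ l, ∀ᶠ i in UU, s'.F l i = ch1 (c i) (s.e l) (s.F l i)) := by
  by_contra hcon
  push Not at hcon
  apply hbad
  apply node s
  · intro c
    obtain ⟨s', hT, hJ, hle, hr, hf, hF⟩ := child1 s c
    have hT' : s'.T = fun l i => aeval (m1 (c i)) (s.T l i) := funext fun l => funext fun i => hT l i
    have hJ' : s'.J = fun i => aeval (m1 (c i)) (s.J i) * X 1 := funext hJ
    rw [← hT', ← hJ']
    by_contra hb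
    have hsum : ¬ ∑ l, s'.e l < N := fun h => hb (hmin s' h)
    have heq : ∀ l, s'.e l = s.e l := by
      have h1 : ∑ l, s'.e l = ∑ l, s.e l :=
        le_antisymm (Finset.sum_le_sum fun l _ => hle l) (by omega)
      intro l
      exact (Finset.sum_eq_sum_iff_of_le fun l _ => hle l).mp h1 l (Finset.mem_univ l)
    obtain ⟨h1, h2⟩ := hcon c s' hb (funext heq) (fun l => by rw [heq l]; exact hr l (heq l)) hf
    obtain ⟨l, h2⟩ := h2
    exact ev_false ((h2.and (hF h1 l)).mono fun i hi => hi.1 hi.2)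
  · obtain ⟨s', hT, hJ, hle, hr, hz⟩ := child2 s
    have hT' : s'.T = fun l i => aeval (m2 k) (s.T l i) := funext fun l => funext fun i => hT l i
    have hJ' : s'.J = fun i => aeval (m2 k) (s.J i) * X 1 := funext hJ
    rw [← hT', ← hJ']
    apply hmin
    rw [Finset.sum_eq_zero fun l _ => hz l (hreg l)]
    exact hN

theorem not_bad_unflagged (N : ℕ) (hN : 0 < N)
    (hmin : ∀ s : St k Λ, ∑ l, s.e l < N → HasTypes s.T s.J) (s : St k Λ)
    (hs : ∑ l, s.e l = N) (hf : ¬ s.fY)
    (hreg : ∀ l, ∀ᶠ i in UU, coeff (mon (s.e l) 0) (s.F l i) ≠ 0) : HasTypes s.T s.J := by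
  by_contra hbad
  refine hbad (terminal1 s hf hreg ?_)
  intro b
  induction b generalizing s with
  | zero =>
    refine ⟨fun _ => 0, Eventually.of_forall fun i => ⟨by simp, ?_⟩⟩
    intro l p q h
    omega
  | succ b ih =>
    obtain ⟨c, s', hb', he', hr', hf', hF'⟩ := bad_child N hN hmin s hs hbad hreg
    obtain ⟨ψ, hψ⟩ := ih s' (by rw [he', hs]) (fun h => hf (hf'.mp h).1) hr' hb'
    have e1 := Filter.eventually_all.mpr (hF' (Or.inl hf))
    have e2 := Filter.eventually_all.mpr s.he0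
    refine ⟨fun i => Polynomial.X * (Polynomial.C (c i) + ψ i), ?_⟩
    filter_upwards [hψ, e1, e2] with i hi hF he
    refine ⟨by simp, ?_⟩
    intro l p q hpq
    rw [shift_coeff _ _ _ _ (he l)]
    split_ifs with hle
    · rw [← hF l]
      apply hi.2
      rw [he']
      have h1 : (b + 1) * p + q = b * p + (p + q) := by ring
      have h2 : (b + 1) * s.e l = b * s.e l + s.e l := by ring
      omega
    · rfl

theorem not_bad_regular (N : ℕ) (hN : 0 < N)
    (hmin : ∀ s : St k Λ, ∑ l, s.e l < N → HasTypes s.T s.J) (s : St k Λ)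
    (hs : ∑ l, s.e l = N)
    (hreg : ∀ l, ∀ᶠ i in UU, coeff (mon (s.e l) 0) (s.F l i) ≠ 0) : HasTypes s.T s.J := by
  by_contra hbad
  have hf : s.fY := by
    by_contra hf
    exact hbad (not_bad_unflagged N hN hmin s hs hf hreg)
  have key : ∀ b : ℕ, ∀ l, ∀ᶠ i in UU, ∀ q < b * s.e l, coeff (mon 0 q) (s.F l i) = 0 := by
    intro b
    clear hf
    induction b generalizing s with
    | zero =>
      intro l
      exact Eventually.of_forall fun i q hq => by omega
    | succ b ih =>
      obtain ⟨c, s', hb', he', hr', hf', hF'⟩ := bad_child N hN hmin s hs hbad hreg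
      have hfs' : s'.fY := by
        by_contra hf
        exact hb' (not_bad_unflagged N hN hmin s' (by rw [he', hs]) hf hr')
      have hc0 := (hf'.mp hfs').2
      have ih' := ih s' (by rw [he', hs]) hr' hb'
      intro l
      filter_upwards [ih' l, hF' (Or.inr hc0) l, s.he0 l, hc0] with i hi hF he hc q hq
      have hz := atZ_ch1_zero (s.e l) (s.F l i) he
      rw [← coeff_atZ, ← hz, Polynomial.coeff_X_pow_mul']
      split_ifs with hle
      · rw [coeff_atZ]
        rw [hc] at hF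
        rw [← hF]
        apply hi
        rw [he']
        have h2 : (b + 1) * s.e l = b * s.e l + s.e l := by ring
        omega
      · rfl
  obtain ⟨l, hl⟩ : ∃ l, 0 < s.e l := by
    by_contra hcon
    push Not at hcon
    have : ∑ l, s.e l = 0 := Finset.sum_eq_zero fun l _ => by have := hcon l; omega
    omega
  obtain ⟨q, hq⟩ := s.hY hf l
  refine ev_false ?_
  filter_upwards [hq, key (q + 1) l] with i h1 h2
  exact h1 (h2 q (by nlinarith))

theorem all_types (s : St k Λ) : HasTypes s.T s.J := by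
  have key : ∀ N : ℕ, ∀ s : St k Λ, ∑ l, s.e l = N → HasTypes s.T s.J := by
    intro N
    induction N using Nat.strong_induction_on with
    | _ N ih =>
      intro s hs
      rcases Nat.eq_zero_or_pos N with h0 | hN
      · subst h0
        apply terminal0
        intro l
        exact (Finset.sum_eq_zero_iff.mp hs) l (Finset.mem_univ l)
      · have hmin : ∀ s : St k Λ, ∑ l, s.e l < N → HasTypes s.T s.J :=
          fun s' hs' => ih _ hs' s' rfl
        apply node s
        · intro c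
          obtain ⟨s', hT, hJ, hle, hr, -, -⟩ := child1 s c
          have hT' : s'.T = fun l i => aeval (m1 (c i)) (s.T l i) :=
            funext fun l => funext fun i => hT l i
          have hJ' : s'.J = fun i => aeval (m1 (c i)) (s.J i) * X 1 := funext hJ
          rw [← hT', ← hJ']
          by_cases hlt : ∑ l, s'.e l < N
          · exact hmin s' hlt
          · have h1 : ∑ l, s'.e l = ∑ l, s.e l :=
              le_antisymm (Finset.sum_le_sum fun l _ => hle l) (by omega)
            have heq : ∀ l, s'.e l = s.e l := fun l =>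
              (Finset.sum_eq_sum_iff_of_le fun l _ => hle l).mp h1 l (Finset.mem_univ l)
            exact not_bad_regular N hN hmin s' (by omega)
              (fun l => by rw [heq l]; exact hr l (heq l))
        · obtain ⟨s', hT, hJ, hle, hr, -⟩ := child2 s
          have hT' : s'.T = fun l i => aeval (m2 k) (s.T l i) :=
            funext fun l => funext fun i => hT l i
          have hJ' : s'.J = fun i => aeval (m2 k) (s.J i) * X 1 := funext hJ
          rw [← hT', ← hJ']
          by_cases hlt : ∑ l, s'.e l < N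
          · exact hmin s' hlt
          · have h1 : ∑ l, s'.e l = ∑ l, s.e l :=
              le_antisymm (Finset.sum_le_sum fun l _ => hle l) (by omega)
            have heq : ∀ l, s'.e l = s.e l := fun l =>
              (Finset.sum_eq_sum_iff_of_le fun l _ => hle l).mp h1 l (Finset.mem_univ l)
            exact not_bad_regular N hN hmin s' (by omega)
              (fun l => by rw [heq l]; exact hr l (heq l))
  exact key _ s rfl

end term

end st

/-- The block theorem for two variables. -/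
theorem blockOK_two (k : Type u) [Field k] [IsAlgClosed k] [CharZero k] :
    BlockOK k (Fin 2) Set.univ := by
  intro Λ _ F _ hF
  have := Fintype.ofFinite Λ
  have h : ∀ l, ∃ e, (∀ᶠ i in UU, ∀ m : Fin 2 →₀ ℕ, m.degree < e → coeff m (F l i) = 0) ∧
      ∃ m : Fin 2 →₀ ℕ, m.degree = e ∧ ∀ᶠ i in UU, coeff m (F l i) ≠ 0 := by
    intro l
    obtain ⟨m, hm⟩ := hF l
    obtain ⟨e, _, h1, h2⟩ := exists_order (F l) _ m rfl hm
    exact ⟨e, h1, h2⟩
  choose e he0 he1 using h
  exact all_types {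
    T := F
    J := fun _ => 1
    F := F
    V := fun _ => 1
    L := fun _ => 0
    M := fun _ => 0
    α := 0
    β := 0
    e := e
    fY := False
    fZ := False
    hT := fun l => Eventually.of_forall fun i => by simp
    hJ := Eventually.of_forall fun i => by simp
    hV := Eventually.of_forall fun i => by
      show constantCoeff (1 : MvPolynomial (Fin 2) k) ≠ 0
      simp
    he0 := he0
    he1 := he1
    hfY := fun _ => ⟨rfl, fun _ => rfl⟩
    hfZ := fun _ => ⟨rfl, fun _ => rfl⟩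
    hY := fun h => h.elim
    hZ := fun h => h.elim }

end MLD
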