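import Pool.Agent.MLD.Core
import Pool.Agent.MLD.TwoG
import Pool.Agent.MLD.Small
import Pool.Agent.MLD.LinBlock

/-!
Conversion between block ideals and the classes of the main theorem; unit factors.
-/

open MvPolynomial Filter

namespace MLD

universe u

section unit
variable {k : Type u} [Field k] {B : Type} [Fintype B] [DecidableEq B]

/-- multiples of the elements of `𝓕` by polynomials which do not vanish at the origin -/
def unitMul (𝓕 : Set (MvPolynomial B k)) : Set (MvPolynomial B k) :=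
  {f | ∃ U g : MvPolynomial B k, coeff 0 U ≠ 0 ∧ g ∈ 𝓕 ∧ f = U * g}

theorem blockOK_unitMul (𝓕 : Set (MvPolynomial B k)) (h : BlockOK k B 𝓕) :
    BlockOK k B (unitMul 𝓕) := by
  intro Λ _ F hF hL
  choose U g hU hg hFU using hF
  have hL' : ∀ l, LNZ (g l) := by
    intro l
    refine LNZ_of_mul (G := U l) ?_
    have : (fun i => g l i * U l i) = F l := funext fun i => by rw [hFU l i, mul_comm]
    rw [this]
    exact hL l
  obtain ⟨ι, hι, τ, hdom, hrlz⟩ := h Λ g hg hL'
  refine ⟨ι, hι, τ, ?_, ?_⟩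
  · have hne : ∀ l, ∀ᶠ i in UU, g l i ≠ 0 := by
      intro l
      obtain ⟨m, hm⟩ := hL' l
      exact hm.mono fun i hi h0 => hi (by rw [h0, coeff_zero])
    filter_upwards [hdom, Filter.eventually_all.mpr hne] with i hi hne K _ _ v x hx
    obtain ⟨t, θ, hlo, g', P, h1, h2, h3, h4, h5⟩ := hi K v x hx
    refine ⟨t, θ, hlo, g', P, h1, h2, h3, h4, fun l => ?_⟩
    have h6 := v.ord_aeval_of_coeff_zero x (fun b => Or.inr (hx.1 b)) (U l i) (hU l i)
    have h7 : aeval x (g l i) ≠ 0 := hx.2 _ (hne l)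
    show v.ord (aeval x (F l i)) ≤ _
    rw [hFU l i, map_mul, v.ord_mul h6.1 h7, h6.2, zero_add]
    exact h5 l
  · intro t θ hθ
    filter_upwards [hrlz t θ hθ] with i hi
    obtain ⟨p, w, h1, h2, h3, h4⟩ := hi
    refine ⟨p, w, h1, h2, h3, fun l => ?_⟩
    show _ ≤ wo w (aeval p (F l i))
    rw [hFU l i, map_mul, wo_mul]
    exact (h4 l).trans le_add_self

end unit

section cls
variable {k : Type u} [Field k] {σ : Type} [Fintype σ] [DecidableEq σ]
  {β : Type} [Fintype β] [DecidableEq β] (blk : σ → β)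

theorem classOf_top (𝓕 : ∀ b, Set (MvPolynomial {i // blk i = b} k)) (h1 : ∀ b, 1 ∈ 𝓕 b) :
    ClassOf blk 𝓕 ⊤ := by
  refine ⟨{fun _ => 1}, ?_, ?_⟩
  · rintro g rfl b
    exact h1 b
  · rw [Set.image_singleton]
    have : bprod blk (fun _ => (1 : MvPolynomial _ k)) = 1 := by
      unfold bprod
      simp
    rw [this, Ideal.span_singleton_one]

theorem classOf_mul (𝓕 : ∀ b, Set (MvPolynomial {i // blk i = b} k))
    (hm : ∀ b, ∀ f ∈ 𝓕 b, ∀ g ∈ 𝓕 b, f * g ∈ 𝓕 b) (I J : Ideal (MvPolynomial σ k))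
    (hI : ClassOf blk 𝓕 I) (hJ : ClassOf blk 𝓕 J) : ClassOf blk 𝓕 (I * J) := by
  obtain ⟨S, hS, rfl⟩ := hI
  obtain ⟨T, hT, rfl⟩ := hJ
  refine ⟨{h | ∃ f ∈ S, ∃ g ∈ T, h = fun b => f b * g b}, ?_, ?_⟩
  · rintro h ⟨f, hf, g, hg, rfl⟩ b
    exact hm b _ (hS f hf b) _ (hT g hg b)
  · rw [Ideal.span_mul_span']
    congr 1
    have hb : ∀ f g : ∀ b, MvPolynomial {i // blk i = b} k,
        bprod blk (fun b => f b * g b) = bprod blk f * bprod blk g := by
      intro f g
      unfold bprod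
      rw [← Finset.prod_mul_distrib]
      exact Finset.prod_congr rfl fun b _ => map_mul _ _ _
    ext x
    constructor
    · rintro ⟨_, ⟨f, hf, rfl⟩, _, ⟨g, hg, rfl⟩, rfl⟩
      exact ⟨_, ⟨f, hf, g, hg, rfl⟩, hb f g⟩
    · rintro ⟨_, ⟨f, hf, g, hg, rfl⟩, rfl⟩
      exact ⟨_, ⟨f, hf, rfl⟩, _, ⟨g, hg, rfl⟩, (hb f g).symm⟩

omit [Fintype σ] [DecidableEq σ] [Fintype β] [DecidableEq β] in
theorem exists_block (b : β) (g : MvPolynomial σ k) (h : ∀ i ∈ g.vars, blk i = b) :
    ∃ g' : MvPolynomial {i // blk i = b} k, rename Subtype.val g' = g := by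
  have := exists_rename_eq_of_vars_subset_range g (Subtype.val : {i // blk i = b} → σ)
    Subtype.val_injective (by
      intro i hi
      exact ⟨⟨i, h i (by simpa using hi)⟩, rfl⟩)
  exact this

theorem classOf_of_isBlockIdeal (I : Ideal (MvPolynomial σ k)) (h : IsBlockIdeal blk I) :
    ClassOf blk (fun _ => Set.univ) I := by
  obtain ⟨S, hS, rfl⟩ := h
  refine ⟨{g | bprod blk g ∈ S}, fun _ _ _ => Set.mem_univ _, ?_⟩
  congr 1
  ext f
  constructor
  · intro hf
    obtain ⟨g, hg, rfl⟩ := hS f hf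
    choose g' hg' using fun b => exists_block blk b (g b) (hg b)
    refine ⟨g', ?_, ?_⟩
    · show bprod blk g' ∈ S
      unfold bprod
      rw [Finset.prod_congr rfl fun b _ => hg' b]
      exact hf
    · unfold bprod
      exact Finset.prod_congr rfl fun b _ => hg' b
  · rintro ⟨g, hg, rfl⟩
    exact hg

theorem blockOK_le_two [IsAlgClosed k] [CharZero k] (b : β)
    (hb : Fintype.card {i // blk i = b} ≤ 2) : BlockOK k {i // blk i = b} Set.univ := by
  rcases Nat.lt_or_ge (Fintype.card {i // blk i = b}) 2 with h | h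
  · exact blockOK_card_le_one _ (by omega)
  · have h2 : Fintype.card {i // blk i = b} = 2 := le_antisymm hb h
    exact blockOK_equiv (Fintype.equivFinOfCardEq h2).symm (blockOK_two k)

end cls

end MLD
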