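import Pool.Agent.MLD.Ord

/-!
PIECE MLD-B: the inequality of log forms.

PROOF. `E.logDisc` is an infimum over families `D i` of integral derivations with
`J := jac D = det (D i (x j)) ≠ 0`, so fix such a `D` (`le_iInf`) and show
`∑ ord (g i) - ord P.det ≤ 1 + ord J`.
By `hD`: `det (D i (g j))_{ij} = J * P.det` (matrix `of (fun i j => D i (g j))` is
`of (fun i j => D i (x j)) * Pᵀ`). It is nonzero.
Let `π` be an element of order 1 (`E.ord_surj'`), `n j := ord (g j)`, `u j := g j / π ^ n j`
(order 0). `D i (g j) = g j * (D i (u j) / u j + n j * D i π / π)`. So with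
`M i j := D i (u j) / u j + n j * D i π / π` one has `det (D i (g j)) = (∏ g j) * det M`, and it is
enough that `det M` has order `≥ -1`. If all `n j = 0` then all entries have order `≥ 0`.
Otherwise pick `j0` with `n j0 ≠ 0` (invertible in `k`, char 0) and subtract
`(n j / n j0) *` column `j0` from column `j` (`Matrix.det_eq_of_forall_col_eq_smul_add_const` or
`det_updateCol`): the new columns `j ≠ j0` are integral, and column `j0` has entries of order
`≥ -1` (as `π * M i j0` is integral). So `π * det` is the determinant of an integral matrix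
(every product in the Leibniz formula has order `≥ -1`; `Matrix.det_apply`, `ge_sum`, `ge_prod`).
-/

open MvPolynomial Filter

namespace MLD

universe u

section

variable {k : Type u} [Field k] {K : Type*} [Field K] [Algebra k K] (v : OrdFn k K)

private theorem LogForm_zpow {f : K} (hf : f ≠ 0) (n : ℤ) : v.ord (f ^ n) = n * v.ord f := by
  obtain ⟨m, rfl | rfl⟩ := n.eq_nat_or_neg
  · rw [zpow_natCast, v.ord_pow hf]
  · rw [zpow_neg, zpow_natCast, v.ord_inv _ (pow_ne_zero m hf), v.ord_pow hf]
    ring

/-- the determinant of a matrix with one column of order at least `-1` and the others integral -/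
private theorem LogForm_det {σ : Type} [Fintype σ] [DecidableEq σ] (M : Matrix σ σ K)
    (N : σ → ℤ) (hM : ∀ i j, v.ge (N j) (M i j)) : v.ge (∑ j, N j) M.det := by
  rw [Matrix.det_apply]
  refine v.ge_sum _ _ fun τ _ => ?_
  have h1 : v.ge (∑ i, N i) (∏ i, M (τ i) i) := v.ge_prod _ _ _ fun i _ => hM _ _
  rcases Int.units_eq_one_or (Equiv.Perm.sign τ) with h | h
  · rw [h, one_smul]
    exact h1
  · rw [h, Units.neg_smul, one_smul]
    exact v.ge_neg h1

/-- the logarithmic derivatives -/
private theorem LogForm_dlog (D : Derivation k K K)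
    (hD : ∀ f : K, f ≠ 0 → 0 ≤ v.ord f → D f = 0 ∨ 0 ≤ v.ord (D f))
    {π g : K} (hπ : π ≠ 0) (hπ1 : v.ord π = 1) (hg : g ≠ 0) :
    ∃ a : K, v.ge 0 a ∧ D g = g * (a + (v.ord g : K) * (D π / π)) := by
  have hz : π ^ v.ord g ≠ 0 := zpow_ne_zero _ hπ
  have hu0 : g / π ^ v.ord g ≠ 0 := div_ne_zero hg hz
  have hu1 : v.ord (g / π ^ v.ord g) = 0 := by
    rw [v.ord_div hg hz, LogForm_zpow v hπ, hπ1, mul_one, sub_self]
  refine ⟨D (g / π ^ v.ord g) / (g / π ^ v.ord g), ?_, ?_⟩
  · have h1 : v.ge 0 (D (g / π ^ v.ord g)) := hD _ hu0 hu1.ge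
    have h2 : v.ge 0 (g / π ^ v.ord g)⁻¹ := by
      right
      rw [v.ord_inv _ hu0, hu1, neg_zero]
    rw [div_eq_mul_inv]
    exact v.ge_mul h1 h2
  · have h3 : D g = D (g / π ^ v.ord g * π ^ v.ord g) := by rw [div_mul_cancel₀ g hz]
    rw [h3, Derivation.leibniz, Derivation.leibniz_zpow, smul_eq_mul, smul_eq_mul, smul_eq_mul,
      zsmul_eq_mul, zpow_sub_one₀ hπ]
    field_simp
    ring

end

variable {k : Type u} [Field k]

theorem logDisc_ge [CharZero k] {σ : Type} [Fintype σ] [DecidableEq σ]
    (E : DivisorOver k σ) (g : σ → FF k σ) (P : Matrix σ σ (FF k σ)) (hg : ∀ i, g i ≠ 0)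
    (hP : P.det ≠ 0)
    (hD : ∀ D : Derivation k (FF k σ) (FF k σ), ∀ i, D (g i) = ∑ j, P i j * D (xx k j)) :
    (((∑ i, E.ord (g i) - E.ord P.det : ℤ) : ℝ) : EReal) ≤ E.logDisc := by
  unfold DivisorOver.logDisc
  refine le_iInf fun D => ?_
  obtain ⟨D, hDi, hJ⟩ := D
  rw [EReal.coe_le_coe_iff, Int.cast_le]
  show ∑ i, E.ord (g i) - E.ord P.det ≤ 1 + E.ord (DivisorOver.jac D)
  set v : OrdFn k (FF k σ) := E.toOrdFn with hv
  obtain ⟨π, hπ, hπ1⟩ := E.ord_surj'
  have hex : ∀ i j, ∃ a : FF k σ, v.ge 0 a ∧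
      D i (g j) = g j * (a + (v.ord (g j) : FF k σ) * (D i π / π)) := fun i j =>
    LogForm_dlog v (D i) (hDi i) hπ hπ1 (hg j)
  choose a ha1 ha2 using hex
  set M : Matrix σ σ (FF k σ) :=
    Matrix.of fun i j => a i j + (v.ord (g j) : FF k σ) * (D i π / π) with hM
  have hW : (∏ j, g j) * M.det = DivisorOver.jac D * P.det := by
    rw [← Matrix.det_mul_row, DivisorOver.jac, ← Matrix.det_transpose P, ← Matrix.det_mul]
    congr 1
    ext i j
    rw [Matrix.of_apply, hM, Matrix.of_apply, ← ha2, hD, Matrix.mul_apply]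
    refine Finset.sum_congr rfl fun l _ => ?_
    rw [Matrix.of_apply, Matrix.transpose_apply, mul_comm]
  have hW0 : DivisorOver.jac D * P.det ≠ 0 := mul_ne_zero hJ hP
  have hM0 : M.det ≠ 0 := by
    intro h
    rw [h, mul_zero] at hW
    exact hW0 hW.symm
  have hg0 : ∏ j, g j ≠ 0 := Finset.prod_ne_zero_iff.2 fun j _ => hg j
  have hord : ∑ j, v.ord (g j) + v.ord M.det = v.ord (DivisorOver.jac D) + v.ord P.det := by
    rw [← v.ord_prod _ _ fun j _ => hg j, ← v.ord_mul hg0 hM0, hW, v.ord_mul hJ hP]
  have hkey : v.ge (-1) M.det := by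
    have hπd : ∀ i, v.ge (-1) (D i π / π) := by
      intro i
      have h1 : v.ge 0 (D i π) := hDi i π hπ (by rw [hπ1]; norm_num)
      have h2 : v.ge (-1) π⁻¹ := by
        right
        rw [v.ord_inv _ hπ]
        exact (congrArg Neg.neg hπ1).ge
      rw [div_eq_mul_inv]
      exact v.ge_mul h1 h2
    have hint : ∀ n : ℤ, v.ge 0 ((n : FF k σ)) := by
      intro n
      have := v.ge_const (n : k)
      rwa [map_intCast] at this
    by_cases hall : ∀ j, v.ord (g j) = 0
    · refine v.ge_mono (by norm_num : (-1 : ℤ) ≤ ∑ j : σ, (0 : ℤ)) ?_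
      refine LogForm_det v M (fun _ => 0) fun i j => ?_
      rw [hM, Matrix.of_apply, hall j, Int.cast_zero, zero_mul, add_zero]
      exact ha1 i j
    · push Not at hall
      obtain ⟨j0, hj0⟩ := hall
      have hk0 : (v.ord (g j0) : k) ≠ 0 := Int.cast_ne_zero.2 hj0
      have hj0' : (v.ord (g j0) : FF k σ) ≠ 0 := by
        have := (map_ne_zero (algebraMap k (FF k σ))).2 hk0
        rwa [map_intCast] at this
      set c : σ → FF k σ := fun j => if j = j0 then 0 else
        (v.ord (g j) : FF k σ) / (v.ord (g j0) : FF k σ) with hc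
      have hcge : ∀ j, v.ge 0 (c j) := by
        intro j
        simp only [hc]
        split_ifs
        · exact v.ge_zero 0
        · have := v.ge_const ((v.ord (g j) : k) / (v.ord (g j0) : k))
          rwa [map_div₀, map_intCast, map_intCast] at this
      set B : Matrix σ σ (FF k σ) := Matrix.of fun i j => M i j - c j * M i j0 with hB
      have hdet : M.det = B.det := by
        rw [← Matrix.det_transpose M, ← Matrix.det_transpose B]
        refine Matrix.det_eq_of_forall_row_eq_smul_add_const c j0 ?_ fun i j => ?_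
        · simp [hc]
        · rw [Matrix.transpose_apply, Matrix.transpose_apply, Matrix.transpose_apply, hB,
            Matrix.of_apply, Matrix.of_apply]
          have : c j0 = 0 := by simp [hc]
          rw [this, zero_mul, sub_zero, sub_add_cancel]
      rw [hdet]
      have hsum : ∑ j, (if j = j0 then (-1 : ℤ) else 0) = -1 := by
        rw [Finset.sum_ite_eq' Finset.univ j0 (fun _ => (-1 : ℤ)), if_pos (Finset.mem_univ j0)]
      rw [← hsum]
      refine LogForm_det v B (fun j => if j = j0 then (-1 : ℤ) else 0) fun i j => ?_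
      by_cases hj : j = j0
      · subst hj
        have hcj : c j = 0 := by simp [hc]
        rw [if_pos rfl, hB, Matrix.of_apply, hcj, zero_mul, sub_zero, hM, Matrix.of_apply]
        refine v.ge_add (v.ge_mono (by norm_num) (ha1 i j)) ?_
        have := v.ge_mul (hint (v.ord (g j))) (hπd i)
        rwa [zero_add] at this
      · rw [if_neg hj, hB, Matrix.of_apply]
        have hcj : c j = (v.ord (g j) : FF k σ) / (v.ord (g j0) : FF k σ) := by
          simp only [hc]
          rw [if_neg hj]
        have e : M i j - c j * M i j0 = a i j - c j * a i j0 := by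
          rw [hM, Matrix.of_apply, Matrix.of_apply, hcj]
          field_simp
          ring
        rw [e]
        refine v.ge_sub (ha1 i j) ?_
        have := v.ge_mul (hcge j) (ha1 i j0)
        rwa [zero_add] at this
  have hfin : -1 ≤ v.ord M.det := by
    rcases hkey with h | h
    · exact absurd h hM0
    · exact h
  change ∑ i, v.ord (g i) - v.ord P.det ≤ 1 + v.ord (DivisorOver.jac D)
  omega

end MLD
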