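import Pool.Agent.MLD.IdOrd
import Pool.Agent.MLD.LogForm
import Pool.Agent.MLD.Der

/-!
PIECE MLD-T1b: the linear bound of the order along a divisor by the order at the origin.

`izumi`: induction on `m.degree`. Degree `0`: `ord_aeval_of_coeff_zero` (order `0`). Otherwise choose
`i` with `m i ≠ 0`; `pderiv i f` has a nonzero coefficient at `m - single i 1` (characteristic
zero); `logDisc_ge` with `g := Function.update (xx k) i (toFF f)` and `P` = identity matrix with the
row `i` replaced by `toFF (pderiv j f)`, `det P = toFF (pderiv i f)`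
(`Matrix.det_updateRow..`/`Matrix.det_one_updateRow`-like, or Laplace), gives
`ord f + ∑_{j ≠ i} ord x_j - ord (pderiv i f) ≤ A`.
-/

open MvPolynomial Filter

namespace MLD

universe u

variable {k : Type u} [Field k] {σ : Type}

private theorem PsIzumi_toFF (f : MvPolynomial σ k) : toFF k σ f = aeval (xx k) f := by
  have h : toFF k σ = aeval (xx k) := by
    apply MvPolynomial.algHom_ext
    intro i
    rw [aeval_X, xx]
  rw [h]

private theorem PsIzumi_ne {f : MvPolynomial σ k} (h0 : f ≠ 0) : toFF k σ f ≠ 0 := by
  have h : Function.Injective (algebraMap (MvPolynomial σ k) (FF k σ)) :=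
    IsFractionRing.injective (MvPolynomial σ k) (FF k σ)
  intro h1
  apply h0
  apply h
  rw [map_zero]
  exact h1

/-- one step -/
private theorem PsIzumi_step [CharZero k] [Fintype σ] [DecidableEq σ] (E : DivisorOver k σ)
    (hE : E.CenterZero) (A : ℕ) (hA : E.logDisc ≤ ((A : ℝ) : EReal)) (f : MvPolynomial σ k)
    (i : σ) (hf : pderiv i f ≠ 0) :
    E.ord (toFF k σ f) ≤ A + E.ord (toFF k σ (pderiv i f)) := by
  have hf0 : f ≠ 0 := by
    rintro rfl
    exact hf (map_zero _)
  set r : σ → FF k σ := fun j => toFF k σ (pderiv j f) with hr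
  have hdet : (Matrix.updateRow (1 : Matrix σ σ (FF k σ)) i r).det = r i := by
    rw [← Matrix.cramer_transpose_apply, Matrix.transpose_one, Matrix.cramer_one]
    rfl
  have h1 := logDisc_ge E (Function.update (xx k) i (toFF k σ f))
    (Matrix.updateRow (1 : Matrix σ σ (FF k σ)) i r) (fun l => ?_) ?_ (fun D l => ?_)
  · rw [hdet] at h1
    have h2 := h1.trans hA
    rw [EReal.coe_le_coe_iff] at h2
    have h3 : (∑ l, E.ord (Function.update (xx k) i (toFF k σ f) l) - E.ord (r i) : ℤ) ≤ A := by
      exact_mod_cast h2
    have h4 : E.ord (toFF k σ f) ≤ ∑ l, E.ord (Function.update (xx k) i (toFF k σ f) l) := by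
      have h5 := Finset.single_le_sum (s := Finset.univ)
        (f := fun l => E.ord (Function.update (xx k) i (toFF k σ f) l)) (fun l _ => ?_)
        (Finset.mem_univ i)
      · simpa using h5
      · by_cases hl : l = i
        · subst hl
          simpa using E.ord_poly' f hf0
        · simpa [Function.update_of_ne hl] using (hE l).le
    have h6 : E.ord (r i) = E.ord (toFF k σ (pderiv i f)) := rfl
    rw [h6] at h3
    linarith
  · by_cases hl : l = i
    · subst hl
      simpa using PsIzumi_ne hf0
    · rw [Function.update_of_ne hl, xx]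
      exact PsIzumi_ne (X_ne_zero l)
  · rw [hdet]
    exact PsIzumi_ne hf
  · by_cases hl : l = i
    · subst hl
      rw [Function.update_self, PsIzumi_toFF, der_aeval]
      refine Finset.sum_congr rfl fun j _ => ?_
      rw [Matrix.updateRow_self, hr]
      dsimp only
      rw [PsIzumi_toFF]
    · rw [Function.update_of_ne hl]
      rw [Finset.sum_eq_single l]
      · rw [Matrix.updateRow_ne hl, Matrix.one_apply_eq, one_mul]
      · intro j _ hj
        rw [Matrix.updateRow_ne hl, Matrix.one_apply_ne (Ne.symm hj), zero_mul]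
      · intro h
        exact absurd (Finset.mem_univ l) h

theorem izumi [CharZero k] [Fintype σ] [DecidableEq σ] [Nonempty σ] (E : DivisorOver k σ)
    (hE : E.CenterZero) (A : ℕ) (hA : E.logDisc ≤ ((A : ℝ) : EReal)) (f : MvPolynomial σ k)
    (m : σ →₀ ℕ) (hm : coeff m f ≠ 0) : E.ord (toFF k σ f) ≤ ((m.degree * A : ℕ) : ℤ) := by
  obtain ⟨d, hd⟩ : ∃ d, d = m.degree := ⟨_, rfl⟩
  induction d generalizing m f with
  | zero =>
    have h0 : m = 0 := (Finsupp.degree_eq_zero_iff m).1 hd.symm
    subst h0
    have h1 := E.toOrdFn.ord_aeval_of_coeff_zero (xx k) (fun b => Or.inr (hE b)) f hm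
    rw [PsIzumi_toFF, h1.2]
    positivity
  | succ d ih =>
    obtain ⟨i, hi⟩ : ∃ i, m i ≠ 0 := by
      by_contra h
      push Not at h
      have : m = 0 := Finsupp.ext h
      rw [this, map_zero] at hd
      omega
    obtain ⟨m', rfl⟩ : ∃ m', m = m' + Finsupp.single i 1 := by
      refine ⟨m - Finsupp.single i 1, ?_⟩
      rw [tsub_add_cancel_of_le]
      rw [Finsupp.single_le_iff]
      omega
    have hdeg : d = m'.degree := by
      rw [map_add, Finsupp.degree_single] at hd
      omega
    have hc : coeff m' (pderiv i f) ≠ 0 := by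
      rw [coeff_pderiv]
      refine mul_ne_zero hm ?_
      have : ((m' i : ℕ) : k) + 1 ≠ 0 := Nat.cast_add_one_ne_zero _
      exact this
    have hne : pderiv i f ≠ 0 := by
      intro h
      rw [h, coeff_zero] at hc
      exact hc rfl
    have h1 := ih (pderiv i f) m' hc hdeg
    have h2 := PsIzumi_step E hE A hA f i hne
    rw [map_add, Finsupp.degree_single]
    push_cast at h1 ⊢
    linarith

end MLD
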