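import Pool.Agent.MLD.PsBase
import Pool.Agent.MLD.PsIzumi
import Pool.Agent.MLD.ExtVal

/-!
PIECE MLD-T2: the extension of a divisor with centre the origin to the formal germ.

PROOF of `exists_hat`. For a power series `g ≠ 0` let `d` be the degree of some nonzero coefficient
(e.g. the minimal one), and `u g := (E.ord (toFF (truncTotal (d * A + d + 1) g))).toNat`. By `izumi`
`E.ord (truncTotal N g) ≤ d * A` for all `N > d`, and for `N, N' > d * A` the difference of the two
truncations has no terms of degree `< min N N'`, so its order is `≥ min N N' > d * A`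
(every monomial of degree `≥ N` has order `≥ N` because `E.CenterZero`: `OrdFn.ge_aeval` with weights
`1`): so `E.ord (truncTotal N g)` does not depend on `N > d * A + d`. This gives
`u (f g) = u f + u g` (`truncTotal N (f g) - truncTotal N f * truncTotal N g` has no terms of degree
`< N`, take `N` large), `min (u f) (u g) ≤ u (f + g)`, `u c = 0`. Apply `extend_ord`.
For polynomials take `N > totalDegree`. For `Low N g`, `g ≠ 0`: `u g ≥ N`.
-/

open MvPolynomial Filter

namespace MLD

universe u

/-- the fraction field of the ring of power series -/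
abbrev PF (k : Type u) [Field k] (σ : Type) : Type u := FractionRing (MvPowerSeries σ k)

/-- a power series as an element of the fraction field -/
noncomputable abbrev toPF (k : Type u) [Field k] (σ : Type) : MvPowerSeries σ k →ₐ[k] PF k σ :=
  IsScalarTower.toAlgHom k (MvPowerSeries σ k) (PF k σ)

/-- `v` extends the order function `E` to the formal germ -/
structure Hat {k : Type u} [Field k] {σ : Type} [Fintype σ] (E : DivisorOver k σ)
    (v : OrdFn k (PF k σ)) : Prop where
  poly : ∀ f : MvPolynomial σ k, f ≠ 0 →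
    v.ord (toPF k σ (f : MvPowerSeries σ k)) = E.ord (toFF k σ f)
  low : ∀ (N : ℕ) (g : MvPowerSeries σ k), Low N g → v.ge N (toPF k σ g)

section

variable {k : Type u} [Field k] {σ : Type}

private theorem PsVal_toFF (f : MvPolynomial σ k) : toFF k σ f = aeval (xx k) f := by
  have h : toFF k σ = aeval (xx k) := by
    apply MvPolynomial.algHom_ext
    intro i
    rw [aeval_X, xx]
  rw [h]

private theorem PsVal_ne {f : MvPolynomial σ k} (h0 : f ≠ 0) : toFF k σ f ≠ 0 := by
  have h : Function.Injective (algebraMap (MvPolynomial σ k) (FF k σ)) :=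
    IsFractionRing.injective (MvPolynomial σ k) (FF k σ)
  intro h1
  apply h0
  apply h
  rw [map_zero]
  exact h1

/-- polynomials without terms of degree `< N` have order at least `N` -/
private theorem PsVal_ge [Fintype σ] (E : DivisorOver k σ) (hE : E.CenterZero) (N : ℕ)
    (f : MvPolynomial σ k) (hf : ∀ m : σ →₀ ℕ, m.degree < N → coeff m f = 0) :
    E.toOrdFn.ge N (toFF k σ f) := by
  rw [PsVal_toFF]
  refine E.toOrdFn.ge_aeval (xx k) (fun _ => 1) (fun b => Or.inr (hE b)) f N fun m hm => ?_
  have h1 : N ≤ m.degree := by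
    by_contra h
    exact hm (hf m (by omega))
  have h2 : (m.sum fun _ n => (n : ℤ) * 1) = (m.degree : ℤ) := by
    rw [Finsupp.degree_apply]
    push_cast
    simp [Finsupp.sum]
  rw [h2]
  exact_mod_cast h1

/-- the order of the truncations is eventually constant -/
private theorem PsVal_ev [CharZero k] [Fintype σ] [DecidableEq σ] [Nonempty σ]
    (E : DivisorOver k σ) (hE : E.CenterZero) (A : ℕ) (hA : E.logDisc ≤ ((A : ℝ) : EReal))
    (g : MvPowerSeries σ k) (hg : g ≠ 0) :
    ∃ u : ℕ, ∀ᶠ N in atTop, MvPowerSeries.truncTotal N g ≠ 0 ∧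
      E.ord (toFF k σ (MvPowerSeries.truncTotal N g)) = u := by
  obtain ⟨m, hm⟩ : ∃ m, MvPowerSeries.coeff m g ≠ 0 := by
    by_contra h
    push Not at h
    exact hg (MvPowerSeries.ext h)
  have hc : ∀ N, m.degree < N → coeff m (MvPowerSeries.truncTotal N g) ≠ 0 := by
    intro N hN
    rwa [MvPowerSeries.coeff_truncTotal _ hN]
  have hne : ∀ N, m.degree < N → MvPowerSeries.truncTotal N g ≠ 0 := by
    intro N hN h
    apply hc N hN
    rw [h, coeff_zero]
  set N0 := m.degree * A + m.degree + 1 with hN0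
  have h0 : m.degree < N0 := by
    rw [hN0]
    have := Nat.zero_le (m.degree * A)
    omega
  have hiz := izumi E hE A hA _ m (hc N0 h0)
  have hpos := E.ord_poly' _ (hne N0 h0)
  refine ⟨(E.ord (toFF k σ (MvPowerSeries.truncTotal N0 g))).toNat, ?_⟩
  filter_upwards [eventually_ge_atTop N0] with N hN
  refine ⟨hne N (by omega), ?_⟩
  rw [Int.toNat_of_nonneg hpos]
  have h1 : toFF k σ (MvPowerSeries.truncTotal N g) =
      toFF k σ (MvPowerSeries.truncTotal N0 g) +
        toFF k σ (MvPowerSeries.truncTotal N g - MvPowerSeries.truncTotal N0 g) := by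
    rw [← map_add, add_sub_cancel]
  rw [h1]
  refine (E.toOrdFn.ord_add_eq (PsVal_ne (hne N0 h0)) ?_).2
  refine E.toOrdFn.ge_mono ?_ (PsVal_ge E hE N0 _ fun m' hm' => ?_)
  · have h2 : ((m.degree * A : ℕ) : ℤ) + 1 ≤ (N0 : ℤ) := by
      rw [hN0]
      push_cast
      have := Int.natCast_nonneg m.degree
      linarith
    linarith
  · rw [coeff_sub, MvPowerSeries.coeff_truncTotal _ hm', MvPowerSeries.coeff_truncTotal _ (by omega),
      sub_self]

end

theorem exists_hat {k : Type u} [Field k] [CharZero k] {σ : Type} [Fintype σ] [DecidableEq σ]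
    [Nonempty σ] (E : DivisorOver k σ) (hE : E.CenterZero) (A : ℕ)
    (hA : E.logDisc ≤ ((A : ℝ) : EReal)) : ∃ v : OrdFn k (PF k σ), Hat E v := by
  classical
  have hex : ∀ g : MvPowerSeries σ k, ∃ u : ℕ, g ≠ 0 → ∀ᶠ N in atTop,
      MvPowerSeries.truncTotal N g ≠ 0 ∧ E.ord (toFF k σ (MvPowerSeries.truncTotal N g)) = u := by
    intro g
    by_cases hg : g = 0
    · exact ⟨0, fun h => absurd hg h⟩
    · obtain ⟨u, hu⟩ := PsVal_ev E hE A hA g hg
      exact ⟨u, fun _ => hu⟩
  choose u hu using hex
  have hmul : ∀ f g : MvPowerSeries σ k, f ≠ 0 → g ≠ 0 → u (f * g) = u f + u g := by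
    intro f g hf hg
    obtain ⟨N, hN⟩ := ((hu f hf).and ((hu g hg).and ((hu (f * g) (mul_ne_zero hf hg)).and
      (eventually_gt_atTop (u f + u g))))).exists
    obtain ⟨⟨hf1, hf2⟩, ⟨hg1, hg2⟩, ⟨-, hfg2⟩, hlt⟩ := hN
    have h1 : toFF k σ (MvPowerSeries.truncTotal N (f * g)) =
        toFF k σ (MvPowerSeries.truncTotal N f) * toFF k σ (MvPowerSeries.truncTotal N g) +
          toFF k σ (MvPowerSeries.truncTotal N (f * g) -
            MvPowerSeries.truncTotal N f * MvPowerSeries.truncTotal N g) := by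
      rw [← map_mul, ← map_add, add_sub_cancel]
    have h2 : E.ord (toFF k σ (MvPowerSeries.truncTotal N f) *
        toFF k σ (MvPowerSeries.truncTotal N g)) = u f + u g := by
      rw [E.ord_mul' _ _ (PsVal_ne hf1) (PsVal_ne hg1), hf2, hg2]
    have h3 := (E.toOrdFn.ord_add_eq (mul_ne_zero (PsVal_ne hf1) (PsVal_ne hg1))
      (E.toOrdFn.ge_mono (M := E.ord (toFF k σ (MvPowerSeries.truncTotal N f) *
        toFF k σ (MvPowerSeries.truncTotal N g)) + 1) (N := N) ?_
        (PsVal_ge E hE N (MvPowerSeries.truncTotal N (f * g) -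
            MvPowerSeries.truncTotal N f * MvPowerSeries.truncTotal N g) fun m hm => ?_))).2
    · rw [← h1, hfg2, h2] at h3
      exact_mod_cast h3
    · rw [h2]
      exact_mod_cast hlt
    · rw [coeff_sub, MvPowerSeries.coeff_truncTotal _ hm,
        MvPowerSeries.coeff_truncTotal_mul_truncTotal_eq_coeff_mul _ _ hm, sub_self]
  have hadd : ∀ f g : MvPowerSeries σ k, f ≠ 0 → g ≠ 0 → f + g ≠ 0 →
      min (u f) (u g) ≤ u (f + g) := by
    intro f g hf hg hfg
    obtain ⟨N, ⟨hf1, hf2⟩, ⟨hg1, hg2⟩, ⟨hfg1, hfg2⟩⟩ := ((hu f hf).and ((hu g hg).and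
      (hu (f + g) hfg))).exists
    have h1 : toFF k σ (MvPowerSeries.truncTotal N (f + g)) =
        toFF k σ (MvPowerSeries.truncTotal N f) + toFF k σ (MvPowerSeries.truncTotal N g) := by
      rw [map_add, map_add]
    have h2 := E.ord_add' _ _ (PsVal_ne hf1) (PsVal_ne hg1) (by rw [← h1]; exact PsVal_ne hfg1)
    rw [← h1, hf2, hg2, hfg2] at h2
    exact_mod_cast h2
  have hconst : ∀ c : k, c ≠ 0 → u (algebraMap k (MvPowerSeries σ k) c) = 0 := by
    intro c hc
    have hne : algebraMap k (MvPowerSeries σ k) c ≠ 0 := by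
      rw [Ne, map_eq_zero]
      exact hc
    obtain ⟨N, ⟨-, h2⟩, hN⟩ := ((hu _ hne).and (eventually_gt_atTop 0)).exists
    have h3 := E.toOrdFn.ord_aeval_of_coeff_zero (xx k) (fun b => Or.inr (hE b))
      (MvPowerSeries.truncTotal N (algebraMap k (MvPowerSeries σ k) c)) ?_
    · rw [← PsVal_toFF, h2] at h3
      exact_mod_cast h3.2
    · rw [MvPowerSeries.coeff_truncTotal _ (by rw [map_zero]; exact hN)]
      rw [MvPowerSeries.algebraMap_apply]
      simpa using hc
  have : IsDomain (MvPowerSeries σ k) := NoZeroDivisors.to_isDomain _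
  obtain ⟨v, hv⟩ := extend_ord (k := k) (R := MvPowerSeries σ k) (F := PF k σ) u hmul hadd hconst
  refine ⟨v, ?_, ?_⟩
  · intro f hf
    have hne : (f : MvPowerSeries σ k) ≠ 0 := by
      intro h
      apply hf
      exact_mod_cast h
    obtain ⟨N, ⟨-, h2⟩, hN⟩ := ((hu _ hne).and (eventually_gt_atTop f.totalDegree)).exists
    rw [(MvPowerSeries.truncTotal_coe_eq_self_iff f (by omega)).2 hN] at h2
    rw [h2]
    exact hv _ hne
  · intro N g hg
    by_cases h0 : g = 0
    · left
      rw [h0, map_zero]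
    · right
      obtain ⟨M, h1, h2⟩ := (hu _ h0).exists
      have h3 := PsVal_ge E hE N (MvPowerSeries.truncTotal M g) fun m hm => by
        rw [MvPowerSeries.coeff_truncTotal_eq_ite]
        split_ifs
        · exact hg m hm
        · rfl
      rcases h3 with h3 | h3
      · exact absurd h3 (PsVal_ne h1)
      · rw [h2] at h3
        have h4 : v.ord (toPF k σ g) = u g := hv _ h0
        rw [h4]
        exact h3

end MLD
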