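import Pool.Agent.MLD.FormDefs
import Pool.Agent.MLD.PsVal
import Pool.Agent.MLD.Fin1

/-!
PIECE MLD-F3a: orders of ideals with formal generators; truncation of block series.

`ordI_formal`. =>: for `g ∈ G`, `g ∈ (hatI I).map ψ` is a finite sum `∑ c_i * ψ f_i`, `f_i ∈ I`
(`hatI I` is spanned by `I`), and `v.ge N (toPF (ψ f_i))` since `f_i = 0` or
`E'.ord f_i ≥ E'.ordI I ≥ N` (`ordI_le`). <=: `ordI_mem` gives `f ∈ I`, `f ≠ 0` with
`E'.ord f = E'.ordI I`, and `ψ f ∈ span G`, so `v.ge N (toPF (ψ f))`; `toPF (ψ f) ≠ 0`.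
`mem_mm_pow_of_low`: every monomial of degree `≥ T` lies in `mm ^ T`.
-/

open MvPolynomial Filter

namespace MLD

universe u

variable {k : Type u} [Field k] {σ : Type}

private theorem FormOrd_inj (f : MvPowerSeries σ k) (h : toPF k σ f = 0) : f = 0 := by
  have h1 : Function.Injective (algebraMap (MvPowerSeries σ k) (PF k σ)) :=
    IsFractionRing.injective (MvPowerSeries σ k) (PF k σ)
  apply h1
  rw [map_zero]
  exact h

private theorem FormOrd_span (v : OrdFn k (PF k σ))
    (hpos : ∀ g : MvPowerSeries σ k, v.ge 0 (toPF k σ g)) (N : ℤ)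
    (G : Set (MvPowerSeries σ k)) (hG : ∀ g ∈ G, v.ge N (toPF k σ g))
    (x : MvPowerSeries σ k) (hx : x ∈ Ideal.span G) : v.ge N (toPF k σ x) := by
  refine Submodule.span_induction ?_ ?_ ?_ ?_ hx
  · intro x hx
    exact hG x hx
  · left
    rw [map_zero]
  · intro x y _ _ hx hy
    rw [map_add]
    exact v.ge_add hx hy
  · intro a x _ hx
    rw [smul_eq_mul, map_mul]
    have h1 := v.ge_mul (hpos a) hx
    rwa [zero_add] at h1

theorem ordI_formal [Fintype σ] (E' : DivisorOver k σ) (v : OrdFn k (PF k σ))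
    (ψ : MvPowerSeries σ k ≃ₐ[k] MvPowerSeries σ k)
    (h : ∀ f : MvPolynomial σ k, f ≠ 0 →
      E'.ord (toFF k σ f) = v.ord (toPF k σ (ψ (f : MvPowerSeries σ k))))
    (hpos : ∀ g : MvPowerSeries σ k, v.ge 0 (toPF k σ g))
    (I : Ideal (MvPolynomial σ k)) (hI : I ≠ ⊥) (G : Set (MvPowerSeries σ k))
    (hG : (hatI I).map (ψ : MvPowerSeries σ k →+* MvPowerSeries σ k) = Ideal.span G) (N : ℕ) :
    N ≤ E'.ordI I ↔ ∀ g ∈ G, v.ge N (toPF k σ g) := by
  constructor
  · intro hN g hg
    have h1 : g ∈ (hatI I).map (ψ : MvPowerSeries σ k →+* MvPowerSeries σ k) := by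
      rw [hG]
      exact Ideal.subset_span hg
    rw [hatI, Ideal.map_map, Ideal.map] at h1
    refine FormOrd_span v hpos N _ ?_ g h1
    rintro _ ⟨f, hf, rfl⟩
    have h4 : f ∈ I := hf
    by_cases h5 : f = 0
    · left
      rw [h5, map_zero, map_zero]
    · right
      have h6 := ordI_le E' h4 h5
      rw [h f h5] at h6
      have h7 : (N : ℤ) ≤ E'.ordI I := by exact_mod_cast hN
      exact h7.trans h6
  · intro hN
    obtain ⟨f, hf, h0, h1⟩ := ordI_mem E' hI
    have h2 : ψ (f : MvPowerSeries σ k) ∈ Ideal.span G := by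
      rw [← hG]
      exact Ideal.mem_map_of_mem (ψ : MvPowerSeries σ k →+* MvPowerSeries σ k)
        (Ideal.mem_map_of_mem _ hf)
    have h3 := FormOrd_span v hpos N G hN _ h2
    rcases h3 with h4 | h4
    · exfalso
      have h5 := FormOrd_inj _ h4
      rw [map_eq_zero_iff ψ ψ.injective] at h5
      apply h0
      have : (f : MvPowerSeries σ k) = ((0 : MvPolynomial σ k) : MvPowerSeries σ k) := by
        rw [h5]
        simp
      exact MvPolynomial.coe_injective σ k this
    · rw [← h f h0, h1] at h4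
      exact_mod_cast h4

theorem ge_congr_low [Fintype σ] {E : DivisorOver k σ} {v : OrdFn k (PF k σ)} (hv : Hat E v)
    {N T : ℕ} (hNT : N ≤ T) {g p : MvPowerSeries σ k} (h : Low T (g - p)) :
    v.ge N (toPF k σ g) ↔ v.ge N (toPF k σ p) := by
  have h1 : v.ge N (toPF k σ (g - p)) := v.ge_mono (by exact_mod_cast hNT) (hv.low T _ h)
  constructor
  · intro h2
    have h3 := v.ge_sub h2 h1
    rwa [← map_sub, sub_sub_cancel] at h3
  · intro h2
    have h3 := v.ge_add h1 h2
    rwa [← map_add, sub_add_cancel] at h3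

theorem trunc_block [Finite σ] {β : Type} (blk : σ → β) (b : β) (g : MvPowerSeries σ k)
    (hg : InBlock blk b g) (T : ℕ) :
    ∃ g' : MvPolynomial {i // blk i = b} k,
      rename Subtype.val g' = (MvPowerSeries.truncTotal T g : MvPolynomial σ k) := by
  refine exists_block blk b _ fun i hi => ?_
  rw [mem_vars_iff_mem_support] at hi
  obtain ⟨m, hm, hi⟩ := hi
  rw [mem_support_iff, MvPowerSeries.coeff_truncTotal_eq_ite] at hm
  split_ifs at hm with h1
  · exact hg m hm i (Finsupp.mem_support_iff.1 hi)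
  · exact absurd rfl hm

theorem low_sum {β : Type} [Fintype β] (T : ℕ) (g p : β → MvPowerSeries σ k)
    (h : ∀ b, Low T (g b - p b)) : Low T (∑ b, g b - ∑ b, p b) := by
  classical
  rw [← Finset.sum_sub_distrib]
  refine Finset.sum_induction _ (Low T) (fun _ _ h1 h2 => Low.add h1 h2) (low_zero T) ?_
  intro b _
  exact h b

theorem low_prod {β : Type} [Fintype β] (T : ℕ) (g p : β → MvPowerSeries σ k)
    (h : ∀ b, Low T (g b - p b)) : Low T (∏ b, g b - ∏ b, p b) := by
  classical
  have key : ∀ s : Finset β, Low T (∏ b ∈ s, g b - ∏ b ∈ s, p b) := by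
    intro s
    induction s using Finset.induction_on with
    | empty =>
      rw [Finset.prod_empty, Finset.prod_empty, sub_self]
      exact low_zero T
    | insert a s ha ih =>
      rw [Finset.prod_insert ha, Finset.prod_insert ha]
      have h1 : g a * ∏ b ∈ s, g b - p a * ∏ b ∈ s, p b =
          g a * (∏ b ∈ s, g b - ∏ b ∈ s, p b) + (∏ b ∈ s, p b) * (g a - p a) := by ring
      rw [h1]
      exact Low.add (Low.mul_left _ ih) (Low.mul_left _ (h a))
  exact key Finset.univ

theorem mem_mm_pow_of_low [Finite σ] (T : ℕ) (f : MvPolynomial σ k)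
    (h : Low T (f : MvPowerSeries σ k)) : f ∈ mm k σ ^ T := by
  refine (mem_pow_idealOfVars_iff' T f).2 fun m hm => ?_
  have := h m hm
  rwa [MvPolynomial.coeff_coe] at this

theorem hatI_ne_bot (I : Ideal (MvPolynomial σ k)) (hI : I ≠ ⊥) : hatI I ≠ ⊥ := by
  intro h
  obtain ⟨f, hf, h0⟩ := Submodule.exists_mem_ne_zero_of_ne_bot hI
  have h1 : (MvPolynomial.coeToMvPowerSeries.ringHom (σ := σ) (R := k)) f ∈ hatI I :=
    Ideal.mem_map_of_mem _ hf
  rw [h, Ideal.mem_bot] at h1
  apply h0
  have : (f : MvPowerSeries σ k) = ((0 : MvPolynomial σ k) : MvPowerSeries σ k) := by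
    simpa using h1
  exact MvPolynomial.coe_injective σ k this

end MLD
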