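import Pool.Agent.MLD.PsVal

/-!
PIECE MLD-T4: derivations of the fraction field of the power series ring.

PROOF. `exists_pderivPF`: extend `MvPowerSeries.pderiv k i` by the quotient rule (see
`exists_pderivFF` in `Der.lean`; do the same for a general domain). `exists_incl`: the inclusion
`Φ₁ : FF → PF`. `derPF`: any two `k`-derivations of `FF` with values in `PF` (module structure by `Φ`)
which agree on the variables agree: so for `D : Derivation k (PF) (PF)` and
`Φ : FF →ₐ[k] PF`: `D (Φ f) = ∑ j, Φ (d j f) * D (Φ (xx k j))` with the coordinate derivations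
`d j` of `FF` (`exists_pderivFF`); first for polynomials, then for quotients.
`hat_integral`: let `D̂ := ∑ m, Φ₁ (a m) * ∂̂_m` where `a m := D (xx k m)`, `D` an integral derivation for
`E`. For `h = toPF P / toPF Q` with `0 ≤ v.ord h`, `h ≠ 0`, let `P', Q'` be the truncations of `P, Q` in
degrees `< N`, `f := P'/Q' : FF`. Then `h - Φ₁ f = w / (Q Q')` with `w = P Q' - P' Q`, `Low N w`, and
`∂̂_m (h - Φ₁ f) = ∂_m w / (Q Q') - w ∂_m(Q Q') / (Q Q')^2` has order `≥ N - 1 - 4 * v.ord Q`; for
`N` large `0 ≤ E.ord f`, `D f = 0 ∨ 0 ≤ E.ord (D f)`, `D̂ (Φ₁ f) = Φ₁ (D f)`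
(`derPF` for `Φ₁`), and `D̂ h = D̂ (Φ₁ f) + ∑ m, Φ₁ (a m) * ∂̂_m (h - Φ₁ f)`.
-/

open MvPolynomial Filter

namespace MLD

universe u

section
variable {k : Type u} [Field k] {σ : Type}

/-- extension of a derivation of a domain to the fraction field -/
private theorem PsDer_one {R : Type u} [CommRing R] [Nontrivial R] [NoZeroDivisors R] [Algebra k R]
    (δ : Derivation k R R) :
    ∃ d : Derivation k (FractionRing R) (FractionRing R),
      ∀ f, d (algebraMap R (FractionRing R) f) = algebraMap R (FractionRing R) (δ f) := by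
  classical
  let K := FractionRing R
  let g : R →+* TrivSqZeroExt K K :=
    { toFun := fun f => TrivSqZeroExt.inl (algebraMap R K f) +
        TrivSqZeroExt.inr (algebraMap R K (δ f))
      map_one' := by
        rw [Derivation.map_one_eq_zero, map_zero, TrivSqZeroExt.inr_zero, add_zero, map_one,
          TrivSqZeroExt.inl_one]
      map_zero' := by
        rw [map_zero, map_zero, map_zero, TrivSqZeroExt.inr_zero, add_zero,
          TrivSqZeroExt.inl_zero]
      map_add' := by
        intro a b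
        rw [map_add, map_add, map_add, TrivSqZeroExt.inl_add, TrivSqZeroExt.inr_add]
        abel
      map_mul' := by
        intro a b
        rw [Derivation.leibniz, map_mul]
        ext
        · simp only [TrivSqZeroExt.fst_add, TrivSqZeroExt.fst_inl, TrivSqZeroExt.fst_inr,
            TrivSqZeroExt.fst_mul, add_zero]
        · simp only [smul_eq_mul, TrivSqZeroExt.snd_add, TrivSqZeroExt.snd_inl,
            TrivSqZeroExt.snd_inr, TrivSqZeroExt.snd_mul, TrivSqZeroExt.fst_add,
            TrivSqZeroExt.fst_inl, TrivSqZeroExt.fst_inr, map_add, map_mul, zero_add, add_zero,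
            MulOpposite.smul_eq_mul_unop, MulOpposite.unop_op]
          ring }
  have hg : ∀ f : R, g f = TrivSqZeroExt.inl (algebraMap R K f) +
      TrivSqZeroExt.inr (algebraMap R K (δ f)) := fun _ => rfl
  have hg1 : ∀ f : R, (g f).fst = algebraMap R K f := by
    intro f
    rw [hg, TrivSqZeroExt.fst_add, TrivSqZeroExt.fst_inl, TrivSqZeroExt.fst_inr, add_zero]
  have hg2 : ∀ f : R, (g f).snd = algebraMap R K (δ f) := by
    intro f
    rw [hg, TrivSqZeroExt.snd_add, TrivSqZeroExt.snd_inl, TrivSqZeroExt.snd_inr, zero_add]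
  have hunit : ∀ s : nonZeroDivisors R, IsUnit (g s) := by
    intro s
    rw [TrivSqZeroExt.isUnit_iff_isUnit_fst, hg1]
    rw [isUnit_iff_ne_zero]
    intro h
    have h1 : (s : R) = 0 := (IsFractionRing.injective R K) (by rw [h, map_zero])
    exact nonZeroDivisors.ne_zero s.2 h1
  let G : K →+* TrivSqZeroExt K K := IsLocalization.lift (M := nonZeroDivisors R) hunit
  have hG : ∀ f : R, G (algebraMap R K f) = g f := by
    intro f
    exact IsLocalization.lift_eq (M := nonZeroDivisors R) hunit f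
  have hG1 : ∀ x : K, (G x).fst = x := by
    have h1 : ((TrivSqZeroExt.fstHom K K K).toRingHom.comp G) = RingHom.id K := by
      apply IsLocalization.ringHom_ext (nonZeroDivisors R)
      refine RingHom.ext fun f => ?_
      show (G (algebraMap R K f)).fst = algebraMap R K f
      rw [hG, hg1]
    intro x
    exact congrArg (fun h : K →+* K => h x) h1
  have hleib : ∀ x y : K, (G (x * y)).snd = x * (G y).snd + y * (G x).snd := by
    intro x y
    rw [map_mul, TrivSqZeroExt.snd_mul, hG1, hG1]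
    simp [mul_comm]
  refine ⟨Derivation.mk' { toFun := fun x => (G x).snd, map_add' := ?_, map_smul' := ?_ } ?_, ?_⟩
  · intro x y
    rw [map_add, TrivSqZeroExt.snd_add]
  · intro c x
    have h1 : c • x = algebraMap R K (algebraMap k R c) * x := by
      rw [Algebra.smul_def, IsScalarTower.algebraMap_apply k R K]
    rw [h1, hleib, hG, hg2, Derivation.map_algebraMap, map_zero, mul_zero, add_zero,
      RingHom.id_apply, Algebra.smul_def, IsScalarTower.algebraMap_apply k R K]
  · intro x y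
    exact hleib x y
  · intro f
    show (G (algebraMap R K f)).snd = _
    rw [hG, hg2]

theorem exists_pderivPF (k : Type u) [Field k] (σ : Type) :
    ∃ d : σ → Derivation k (PF k σ) (PF k σ),
      ∀ i f, d i (toPF k σ f) = toPF k σ (MvPowerSeries.pderiv k i f) := by
  choose d hd using fun i : σ => PsDer_one (MvPowerSeries.pderiv k i)
  exact ⟨d, hd⟩

theorem exists_incl (k : Type u) [Field k] (σ : Type) :
    ∃ Φ₁ : FF k σ →ₐ[k] PF k σ, ∀ f : MvPolynomial σ k,
      Φ₁ (toFF k σ f) = toPF k σ (f : MvPowerSeries σ k) := by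
  let g : MvPolynomial σ k →ₐ[k] PF k σ :=
    (toPF k σ).comp (MvPolynomial.coeToMvPowerSeries.algHom k)
  have hg0 : ∀ f, g f = toPF k σ (f : MvPowerSeries σ k) := by
    intro f
    change toPF k σ (MvPolynomial.coeToMvPowerSeries.algHom k f) = _
    rw [MvPolynomial.coeToMvPowerSeries.algHom_apply]
    simp
  have hg : Function.Injective g := by
    rw [injective_iff_map_eq_zero]
    intro f hf
    rw [hg0] at hf
    have h1 : (f : MvPowerSeries σ k) = 0 :=
      (IsFractionRing.injective (MvPowerSeries σ k) (PF k σ)) (by rw [map_zero]; exact hf)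
    exact (MvPolynomial.coe_eq_zero_iff).1 h1
  refine ⟨IsFractionRing.liftAlgHom hg, fun f => ?_⟩
  rw [← hg0]
  exact IsFractionRing.lift_algebraMap (K := FF k σ) (g := g.toRingHom) hg f

/-- the chain rule with values in a field -/
private theorem PsDer_gen {K : Type*} [Field K] [Algebra k K] [Fintype σ] (Φ : FF k σ →ₐ[k] K)
    (D : Derivation k K K)
    (d : σ → Derivation k (FF k σ) (FF k σ))
    (hd : ∀ i f, d i (toFF k σ f) = toFF k σ (pderiv i f)) (f : FF k σ) :
    D (Φ f) = ∑ j, Φ (d j f) * D (Φ (xx k j)) := by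
  classical
  have hx : ∀ p : MvPolynomial σ k, Φ (toFF k σ p) = aeval (fun j => Φ (xx k j)) p := by
    intro p
    have h1 : (Φ.comp (toFF k σ)) = aeval (fun j => Φ (xx k j)) := by
      apply MvPolynomial.algHom_ext
      intro j
      rw [aeval_X]
      rfl
    exact congrArg (fun h : MvPolynomial σ k →ₐ[k] K => h p) h1
  have hp : ∀ p : MvPolynomial σ k, D (Φ (toFF k σ p)) =
      ∑ j, Φ (d j (toFF k σ p)) * D (Φ (xx k j)) := by
    intro p
    rw [hx, der_aeval]
    refine Finset.sum_congr rfl fun j _ => ?_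
    rw [hd, hx]
  obtain ⟨a, b, hb, rfl⟩ := IsFractionRing.div_surjective (A := MvPolynomial σ k) f
  have hb0 : toFF k σ b ≠ 0 := by
    intro h
    have h1 : b = 0 := (IsFractionRing.injective (MvPolynomial σ k) (FF k σ)) (by
      rw [map_zero]; exact h)
    exact nonZeroDivisors.ne_zero hb h1
  have hab : toFF k σ a = (toFF k σ a / toFF k σ b) * toFF k σ b := by
    rw [div_mul_cancel₀ _ hb0]
  set f := toFF k σ a / toFF k σ b with hf
  change D (Φ f) = ∑ j, Φ (d j f) * D (Φ (xx k j))
  have hΦb : Φ (toFF k σ b) ≠ 0 := by rwa [Ne, map_eq_zero]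
  have h1 : D (Φ (toFF k σ a)) = Φ f * D (Φ (toFF k σ b)) + Φ (toFF k σ b) * D (Φ f) := by
    rw [hab, map_mul, Derivation.leibniz, smul_eq_mul, smul_eq_mul]
  have h2 : ∑ j, Φ (d j (toFF k σ a)) * D (Φ (xx k j)) =
      Φ f * (∑ j, Φ (d j (toFF k σ b)) * D (Φ (xx k j))) +
        Φ (toFF k σ b) * ∑ j, Φ (d j f) * D (Φ (xx k j)) := by
    rw [Finset.mul_sum, Finset.mul_sum, ← Finset.sum_add_distrib]
    refine Finset.sum_congr rfl fun j _ => ?_
    conv_lhs => rw [hab]
    rw [Derivation.leibniz, smul_eq_mul, smul_eq_mul, map_add, map_mul, map_mul]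
    ring
  rw [hp a, h2, hp b] at h1
  have h3 := add_left_cancel h1
  exact (mul_left_cancel₀ hΦb h3).symm

theorem derPF [Fintype σ] (Φ : FF k σ →ₐ[k] PF k σ) (D : Derivation k (PF k σ) (PF k σ))
    (d : σ → Derivation k (FF k σ) (FF k σ))
    (hd : ∀ i f, d i (toFF k σ f) = toFF k σ (pderiv i f)) (f : FF k σ) :
    D (Φ f) = ∑ j, Φ (d j f) * D (Φ (xx k j)) := PsDer_gen Φ D d hd f

theorem hat_integral [CharZero k] [Fintype σ] [DecidableEq σ] [Nonempty σ] (E : DivisorOver k σ)
    (v : OrdFn k (PF k σ)) (hv : Hat E v) (Φ₁ : FF k σ →ₐ[k] PF k σ)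
    (h₁ : ∀ f : MvPolynomial σ k, Φ₁ (toFF k σ f) = toPF k σ (f : MvPowerSeries σ k))
    (dd : σ → Derivation k (PF k σ) (PF k σ))
    (hdd : ∀ i f, dd i (toPF k σ f) = toPF k σ (MvPowerSeries.pderiv k i f))
    (D : Derivation k (FF k σ) (FF k σ)) (hD : E.IntegralDer D) (h : PF k σ)
    (h0 : v.ge 0 h) : v.ge 0 (∑ m, Φ₁ (D (xx k m)) * dd m h) := by
  classical
  rcases eq_or_ne h 0 with rfl | hne
  · left
    refine Finset.sum_eq_zero fun m _ => ?_
    rw [map_zero, mul_zero]
  obtain ⟨P, Q, hQ, rfl⟩ := IsFractionRing.div_surjective (A := MvPowerSeries σ k) h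
  have hinj : Function.Injective (toPF k σ) :=
    IsFractionRing.injective (MvPowerSeries σ k) (PF k σ)
  have hinjF : Function.Injective (toFF k σ) :=
    IsFractionRing.injective (MvPolynomial σ k) (FF k σ)
  have hQ0 : toPF k σ Q ≠ 0 := by
    intro h'
    exact nonZeroDivisors.ne_zero hQ (hinj (by rw [map_zero]; exact h'))
  change v.ge 0 (toPF k σ P / toPF k σ Q) at h0
  change toPF k σ P / toPF k σ Q ≠ 0 at hne
  change v.ge 0 (∑ m, Φ₁ (D (xx k m)) * dd m (toPF k σ P / toPF k σ Q))
  have hge0 : ∀ g : MvPowerSeries σ k, v.ge 0 (toPF k σ g) := by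
    intro g
    have h2 := hv.low 0 g (fun m hm => absurd hm (Nat.not_lt_zero _))
    exact_mod_cast h2
  set q : ℤ := v.ord (toPF k σ Q) with hq
  have hq0 : 0 ≤ q := (hge0 Q).resolve_left hQ0
  -- the derivation
  obtain ⟨d, hd⟩ := exists_pderivFF k σ
  let D' : Derivation k (PF k σ) (PF k σ) := ∑ m, Φ₁ (D (xx k m)) • dd m
  have hD' : ∀ x, D' x = ∑ m, Φ₁ (D (xx k m)) * dd m x := by
    intro x
    have h2 : D' x = ∑ m, (Φ₁ (D (xx k m)) • dd m) x := by
      change (Derivation.coeFnAddMonoidHom (∑ m, Φ₁ (D (xx k m)) • dd m)) x = _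
      rw [map_sum, Finset.sum_apply]
      rfl
    rw [h2]
    rfl
  have hD'x : ∀ j, D' (Φ₁ (xx k j)) = Φ₁ (D (xx k j)) := by
    intro j
    rw [hD']
    have h2 : ∀ m, dd m (Φ₁ (xx k j)) = if m = j then 1 else 0 := by
      intro m
      change dd m (Φ₁ (toFF k σ (X j))) = _
      rw [h₁, hdd, MvPowerSeries.pderiv_coe, pderiv_X]
      by_cases hmj : m = j
      · subst hmj
        rw [Pi.single_eq_same, if_pos rfl, MvPolynomial.coe_one, map_one]
      · rw [Pi.single_eq_of_ne (Ne.symm hmj), if_neg hmj, MvPolynomial.coe_zero, map_zero]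
    rw [Finset.sum_eq_single j]
    · rw [h2, if_pos rfl, mul_one]
    · intro m _ hm
      rw [h2, if_neg hm, mul_zero]
    · intro h'
      exact absurd (Finset.mem_univ j) h'
  have hD'Φ : ∀ f, D' (Φ₁ f) = Φ₁ (D f) := by
    intro f
    rw [derPF Φ₁ D' d hd f]
    have h2 := PsDer_gen (AlgHom.id k (FF k σ)) D d hd f
    simp only [AlgHom.id_apply] at h2
    rw [h2, map_sum]
    refine Finset.sum_congr rfl fun j _ => ?_
    rw [hD'x, map_mul]
  -- the orders on the small field
  have hord : ∀ f : FF k σ, f ≠ 0 → v.ord (Φ₁ f) = E.ord f := by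
    intro f hf
    obtain ⟨a, b, hb, rfl⟩ := IsFractionRing.div_surjective (A := MvPolynomial σ k) f
    change toFF k σ a / toFF k σ b ≠ 0 at hf
    change v.ord (Φ₁ (toFF k σ a / toFF k σ b)) = E.ord (toFF k σ a / toFF k σ b)
    have ha0 : toFF k σ a ≠ 0 := by
      intro h'
      apply hf
      rw [h', zero_div]
    have hb0 : toFF k σ b ≠ 0 := by
      intro h'
      apply hf
      rw [h', div_zero]
    have ha : a ≠ 0 := by
      rintro rfl
      exact ha0 (map_zero _)
    have hb' : b ≠ 0 := by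
      rintro rfl
      exact hb0 (map_zero _)
    have ha1 : Φ₁ (toFF k σ a) ≠ 0 := by rwa [Ne, map_eq_zero]
    have hb1 : Φ₁ (toFF k σ b) ≠ 0 := by rwa [Ne, map_eq_zero]
    rw [map_div₀, v.ord_div ha1 hb1, E.toOrdFn.ord_div ha0 hb0, h₁, h₁, hv.poly a ha,
      hv.poly b hb']
  -- the size of the truncation
  let c : σ → ℤ := fun m => v.ord (Φ₁ (D (xx k m)))
  let N : ℕ := 6 * q.toNat + 2 + ∑ m, (c m).natAbs
  have hqN : (q.toNat : ℤ) = q := Int.toNat_of_nonneg hq0
  have hN0 : (N : ℤ) = 6 * q + 2 + ∑ m, ((c m).natAbs : ℤ) := by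
    simp only [N]
    push_cast
    rw [hqN]
  have hcm : ∀ m, -((c m).natAbs : ℤ) ≤ c m := by
    intro m
    rw [Int.natCast_natAbs]
    exact neg_abs_le _
  have hsum : ∀ m, ((c m).natAbs : ℤ) ≤ ∑ m, ((c m).natAbs : ℤ) := fun m =>
    Finset.single_le_sum (f := fun m => ((c m).natAbs : ℤ)) (fun _ _ => by positivity)
      (Finset.mem_univ m)
  have hsum0 : 0 ≤ ∑ m, ((c m).natAbs : ℤ) := Finset.sum_nonneg fun _ _ => by positivity
  let P' : MvPolynomial σ k := MvPowerSeries.truncTotal N P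
  let Q' : MvPolynomial σ k := MvPowerSeries.truncTotal N Q
  have hP' : Low N (P - (P' : MvPowerSeries σ k)) := low_sub_trunc N P
  have hQ' : Low N (Q - (Q' : MvPowerSeries σ k)) := low_sub_trunc N Q
  have hQ'1 : toPF k σ (Q' : MvPowerSeries σ k) ≠ 0 ∧
      v.ord (toPF k σ (Q' : MvPowerSeries σ k)) = q := by
    have h2 : toPF k σ (Q' : MvPowerSeries σ k) =
        toPF k σ Q + -(toPF k σ (Q - (Q' : MvPowerSeries σ k))) := by
      rw [map_sub]
      ring
    rw [h2]
    refine v.ord_add_eq hQ0 (v.ge_neg (v.ge_mono ?_ (hv.low N _ hQ')))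
    rw [hN0]
    linarith
  obtain ⟨hQ'0, hQ'ord⟩ := hQ'1
  let f : FF k σ := toFF k σ P' / toFF k σ Q'
  have hΦf : Φ₁ f = toPF k σ (P' : MvPowerSeries σ k) / toPF k σ (Q' : MvPowerSeries σ k) := by
    simp only [f]
    rw [map_div₀, h₁, h₁]
  let w : MvPowerSeries σ k := P * (Q' : MvPowerSeries σ k) - (P' : MvPowerSeries σ k) * Q
  have hw : Low N w := by
    have h2 : w = Q * (P - (P' : MvPowerSeries σ k)) - P * (Q - (Q' : MvPowerSeries σ k)) := by
      simp only [w]
      ring
    rw [h2]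
    exact (Low.mul_left Q hP').sub (Low.mul_left P hQ')
  let B : MvPowerSeries σ k := Q * (Q' : MvPowerSeries σ k)
  have hB : toPF k σ B = toPF k σ Q * toPF k σ (Q' : MvPowerSeries σ k) := by
    simp only [B]
    rw [map_mul]
  have hB0 : toPF k σ B ≠ 0 := by
    rw [hB]
    exact mul_ne_zero hQ0 hQ'0
  have hBord : v.ord (toPF k σ B) = 2 * q := by
    rw [hB, v.ord_mul hQ0 hQ'0, hQ'ord]
    ring
  have hr : toPF k σ P / toPF k σ Q = Φ₁ f + toPF k σ w / toPF k σ B := by
    rw [hΦf, hB]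
    have hwe : toPF k σ w = toPF k σ P * toPF k σ (Q' : MvPowerSeries σ k) -
        toPF k σ (P' : MvPowerSeries σ k) * toPF k σ Q := by
      simp only [w]
      rw [map_sub, map_mul, map_mul]
    rw [hwe]
    field_simp
    ring
  have hinv : v.ge (-(2 * q)) (toPF k σ B)⁻¹ := by
    right
    rw [v.ord_inv _ hB0, hBord]
  have hrge : v.ge 0 (toPF k σ w / toPF k σ B) := by
    rw [div_eq_mul_inv]
    refine v.ge_mono ?_ (v.ge_mul (hv.low N w hw) hinv)
    rw [hN0]
    linarith
  have hfge : v.ge 0 (Φ₁ f) := by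
    have h2 : Φ₁ f = toPF k σ P / toPF k σ Q - toPF k σ w / toPF k σ B := by
      rw [hr]
      ring
    rw [h2]
    exact v.ge_sub h0 hrge
  have hDf : v.ge 0 (Φ₁ (D f)) := by
    by_cases hf0 : f = 0
    · left
      rw [hf0, map_zero, map_zero]
    · have h2 : 0 ≤ E.ord f := by
        rw [← hord f hf0]
        exact hfge.resolve_left (by rwa [map_eq_zero])
      rcases hD f hf0 h2 with h3 | h3
      · left
        rw [h3, map_zero]
      · by_cases hDf0 : D f = 0
        · left
          rw [hDf0, map_zero]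
        · right
          rw [hord _ hDf0]
          exact h3
  have hfin : ∑ m, Φ₁ (D (xx k m)) * dd m (toPF k σ P / toPF k σ Q) =
      Φ₁ (D f) + ∑ m, Φ₁ (D (xx k m)) * dd m (toPF k σ w / toPF k σ B) := by
    rw [← hD'Φ f, hD', ← Finset.sum_add_distrib]
    refine Finset.sum_congr rfl fun m _ => ?_
    rw [hr, map_add, mul_add]
  rw [hfin]
  refine v.ge_add hDf (v.ge_sum _ _ fun m _ => ?_)
  have hpw : v.ge ((N : ℤ) - 1) (dd m (toPF k σ w)) := by
    rw [hdd]
    have hN1 : 1 ≤ N := by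
      simp only [N]
      omega
    obtain ⟨N', hN'⟩ : ∃ N', N = N' + 1 := ⟨N - 1, by omega⟩
    have h2 : Low N' (MvPowerSeries.pderiv k m w) := Low.pderiv (by rw [← hN']; exact hw) m
    have h3 := hv.low N' _ h2
    refine v.ge_mono ?_ h3
    rw [hN']
    push_cast
    linarith
  have hpB : v.ge 0 (dd m (toPF k σ B)) := by
    rw [hdd]
    exact hge0 _
  have hnum : v.ge ((N : ℤ) - 1)
      (toPF k σ B * dd m (toPF k σ w) - toPF k σ w * dd m (toPF k σ B)) := by
    refine v.ge_sub ?_ ?_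
    · have h2 := v.ge_mul (hge0 B) hpw
      rwa [zero_add] at h2
    · refine v.ge_mono ?_ (v.ge_mul (hv.low N w hw) hpB)
      linarith
  have hder : v.ge ((N : ℤ) - 1 - 4 * q) (dd m (toPF k σ w / toPF k σ B)) := by
    rw [Derivation.leibniz_div, smul_eq_mul, smul_eq_mul, smul_eq_mul]
    have h2 := v.ge_mul (v.ge_pow hinv 2) hnum
    refine v.ge_mono ?_ h2
    push_cast
    linarith
  refine v.ge_mono ?_ (v.ge_mul (v.ge_self (Φ₁ (D (xx k m)))) hder)
  have h5 := hcm m
  have h6 := hsum m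
  change (0 : ℤ) ≤ c m + ((N : ℤ) - 1 - 4 * q)
  rw [hN0]
  linarith

end

end MLD
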