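import Pool.Agent.MLD.PsPull
import Pool.Agent.MLD.PsDer

/-!
PIECE MLD-T5: the log discrepancy of the pulled back divisor; transport of divisors.

PROOF of `logDisc_pullback`. `DivisorOver.logDisc` is an infimum: let `D : σ → Derivation` be
integral for `E` with `jac D ≠ 0`; it is enough to find `D'`, integral for `E'`, with `jac D' ≠ 0` and
`E'.ord (jac D') = E.ord (jac D)`. Let `Φ₁` be the inclusion (`exists_incl`), `dd m` the coordinate
derivations of `PF` (`exists_pderivPF`), `d j` those of `FF` (`exists_pderivFF`),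
`D̂ i := ∑ m, Φ₁ (D i (xx k m)) • dd m` (a derivation of `PF`), `b i j := D̂ i (Φ (xx k j))
= ∑ m, Φ₁ (D i (xx k m)) * toPF (∂_m (φ (X j)))`. So the matrix `b` is the product of
`Φ₁ (D i (xx k m))` and `toPF (∂_m (φ (X j)))`; `v.ord (det b) = E.ord (jac D)`, because
the determinant of the second matrix is a unit (`linear_part`; a unit of the power series ring has
order `0`: both it and its inverse have order `≥ 0` by `Hat.low` with `N = 0`) and
`v.ord (Φ₁ f) = E.ord f` for all `f ≠ 0`.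
By `derPF`: (1) `D̂ i (Φ f) = ∑ j, Φ (d j f) * b i j`. So `Φ (d j f) = ∑ i, (b⁻¹) j i * D̂ i (Φ f)`, and by
`hat_integral` `v.ge (-C) (Φ (d j f))` for all `f` with `v.ge 0 (Φ f)`, where `C ≥ 0` is such that all
entries of `b⁻¹` have order `≥ -C` (or vanish).
Choose `b' i j : FF` with `v.ge M (Φ (b' i j) - b i j)` (`approx`), `M` large; `D' i := ∑ j, b' i j • d j`.
Then `Φ (D' i f) = D̂ i (Φ f) + ∑ j (Φ (b' i j) - b i j) * Φ (d j f)` has order `≥ 0` if `M ≥ C`.
`jac D' = det b'`, and `v.ord (det (Φ b')) = v.ord (det b)` for `M` large: write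
`Φ b' = b + ε`, `det (b + ε) - det b` has order `≥ M - C'` (`C'` depends on `b`; e.g. `Matrix.det_apply`
and products of entries, or `det (b + ε) = det b * det (1 + b⁻¹ ε)` and `det (1 + η)` for a
matrix `η` with entries of order `≥ 1`: `det (1 + η) - 1` has order `≥ 1`), `OrdFn.ord_add_eq`.
`transport`: combine `exists_hat`, `exists_Phi`, `exists_pullback`, `logDisc_pullback`.
-/

open MvPolynomial Filter

namespace MLD

universe u

section
variable {k : Type u} [Field k] {L : Type*} [Field L] [Algebra k L] (v : OrdFn k L)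

private theorem PsLog_ge_one : v.ge 0 (1 : L) := Or.inr v.ord_one.ge

private theorem PsLog_prod_sub {ι : Type*} (s : Finset ι) (x y : ι → L)
    (hx : ∀ i ∈ s, v.ge 0 (x i)) (hy : ∀ i ∈ s, v.ge 0 (y i))
    (hxy : ∀ i ∈ s, v.ge 1 (x i - y i)) : v.ge 1 (∏ i ∈ s, x i - ∏ i ∈ s, y i) := by
  classical
  induction s using Finset.induction_on with
  | empty =>
    rw [Finset.prod_empty, Finset.prod_empty, sub_self]
    exact v.ge_zero 1
  | insert a s ha ih =>
    rw [Finset.prod_insert ha, Finset.prod_insert ha]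
    have h1 := ih (fun i hi => hx i (Finset.mem_insert_of_mem hi))
      (fun i hi => hy i (Finset.mem_insert_of_mem hi))
      (fun i hi => hxy i (Finset.mem_insert_of_mem hi))
    have h2 : v.ge 0 (∏ i ∈ s, y i) := by
      have h3 := v.ge_prod s y (fun _ => 0) fun i hi => hy i (Finset.mem_insert_of_mem hi)
      rwa [Finset.sum_const_zero] at h3
    have h4 : x a * ∏ i ∈ s, x i - y a * ∏ i ∈ s, y i =
        x a * (∏ i ∈ s, x i - ∏ i ∈ s, y i) + (x a - y a) * ∏ i ∈ s, y i := by ring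
    rw [h4]
    refine v.ge_add ?_ ?_
    · have h5 := v.ge_mul (hx a (Finset.mem_insert_self a s)) h1
      rwa [zero_add] at h5
    · have h5 := v.ge_mul (hxy a (Finset.mem_insert_self a s)) h2
      rwa [add_zero] at h5

private theorem PsLog_det_sub {σ : Type} [Fintype σ] [DecidableEq σ] (A B : Matrix σ σ L)
    (hA : ∀ i j, v.ge 0 (A i j)) (hB : ∀ i j, v.ge 0 (B i j))
    (hAB : ∀ i j, v.ge 1 (A i j - B i j)) : v.ge 1 (A.det - B.det) := by
  rw [Matrix.det_apply, Matrix.det_apply, ← Finset.sum_sub_distrib]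
  refine v.ge_sum _ _ fun τ _ => ?_
  rw [← smul_sub]
  have h1 := PsLog_prod_sub v Finset.univ (fun i => A (τ i) i) (fun i => B (τ i) i)
    (fun i _ => hA _ _) (fun i _ => hB _ _) (fun i _ => hAB _ _)
  rcases Int.units_eq_one_or (Equiv.Perm.sign τ) with h | h
  · rw [h, one_smul]
    exact h1
  · rw [h, Units.neg_smul, one_smul]
    exact v.ge_neg h1

private theorem PsLog_det_one_add {σ : Type} [Fintype σ] [DecidableEq σ] (η : Matrix σ σ L)
    (hη : ∀ i j, v.ge 1 (η i j)) : (1 + η).det ≠ 0 ∧ v.ord (1 + η).det = 0 := by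
  have h1 : ∀ i j, v.ge 0 ((1 : Matrix σ σ L) i j) := by
    intro i j
    rw [Matrix.one_apply]
    split_ifs
    · exact PsLog_ge_one v
    · exact v.ge_zero 0
  have h2 := PsLog_det_sub v (1 + η) 1
    (fun i j => v.ge_add (h1 i j) (v.ge_mono (by norm_num) (hη i j))) h1 (fun i j => by
      rw [Matrix.add_apply, add_sub_cancel_left]
      exact hη i j)
  rw [Matrix.det_one] at h2
  have h3 := v.ord_add_eq (f := (1 : L)) (g := (1 + η).det - 1) one_ne_zero (by
    rw [v.ord_one, zero_add]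
    exact h2)
  rw [add_sub_cancel, v.ord_one] at h3
  exact h3

private theorem PsLog_der_sum {ι : Type*} (s : Finset ι) (a : ι → L)
    (D : ι → Derivation k L L) (h : L) : (∑ m ∈ s, a m • D m) h = ∑ m ∈ s, a m * D m h := by
  classical
  induction s using Finset.induction_on with
  | empty => rfl
  | insert m s hm ih =>
    rw [Finset.sum_insert hm, Finset.sum_insert hm, Derivation.add_apply, ih,
      Derivation.smul_apply, smul_eq_mul]

private theorem PsLog_bound {ι : Type*} [Fintype ι] (x : ι → L) :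
    ∃ C : ℤ, 0 ≤ C ∧ ∀ i, v.ge (-C) (x i) := by
  refine ⟨∑ i, |v.ord (x i)|, Finset.sum_nonneg fun i _ => abs_nonneg _, fun i => ?_⟩
  refine v.ge_mono ?_ (v.ge_self (x i))
  have h1 : |v.ord (x i)| ≤ ∑ i, |v.ord (x i)| :=
    Finset.single_le_sum (f := fun i => |v.ord (x i)|) (fun i _ => abs_nonneg _)
      (Finset.mem_univ i)
  have h2 := neg_abs_le (v.ord (x i))
  omega

end

variable {k : Type u} [Field k] [CharZero k] {σ : Type} [Fintype σ] [DecidableEq σ] [Nonempty σ]

theorem logDisc_pullback (E : DivisorOver k σ) (v : OrdFn k (PF k σ)) (hv : Hat E v)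
    (φ : MvPowerSeries σ k ≃ₐ[k] MvPowerSeries σ k) (Φ : FF k σ →ₐ[k] PF k σ)
    (hΦ : ∀ f : MvPolynomial σ k, Φ (toFF k σ f) = toPF k σ (φ (f : MvPowerSeries σ k)))
    (E' : DivisorOver k σ) (hE' : ∀ f : FF k σ, f ≠ 0 → E'.ord f = v.ord (Φ f)) :
    E'.logDisc ≤ E.logDisc := by
  classical
  obtain ⟨Φ₁, h₁⟩ := exists_incl k σ
  obtain ⟨dd, hdd⟩ := exists_pderivPF k σ
  obtain ⟨d, hd⟩ := exists_pderivFF k σ
  have hinj₁ : Function.Injective Φ₁ := RingHom.injective (Φ₁ : FF k σ →+* PF k σ)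
  have hinj : Function.Injective Φ := RingHom.injective (Φ : FF k σ →+* PF k σ)
  have htoinj : Function.Injective (toFF k σ) := IsFractionRing.injective (MvPolynomial σ k) _
  have hne : ∀ f : MvPolynomial σ k, f ≠ 0 → toFF k σ f ≠ 0 := fun f hf h =>
    hf (htoinj (h.trans (map_zero _).symm))
  -- the inclusion preserves orders
  have hord₁ : ∀ f : FF k σ, f ≠ 0 → v.ord (Φ₁ f) = E.ord f := by
    intro f hf
    obtain ⟨a, b, hb, rfl⟩ := IsFractionRing.div_surjective (A := MvPolynomial σ k) f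
    have hb0 : b ≠ 0 := nonZeroDivisors.ne_zero hb
    have ha0 : a ≠ 0 := by
      rintro rfl
      exact hf (by rw [map_zero, zero_div])
    have e1 : Φ₁ (toFF k σ a / toFF k σ b) = Φ₁ (toFF k σ a) / Φ₁ (toFF k σ b) := map_div₀ _ _ _
    have e2 : Φ₁ (toFF k σ a) ≠ 0 := (map_ne_zero_iff Φ₁ hinj₁).2 (hne a ha0)
    have e3 : Φ₁ (toFF k σ b) ≠ 0 := (map_ne_zero_iff Φ₁ hinj₁).2 (hne b hb0)
    change v.ord (Φ₁ (toFF k σ a / toFF k σ b)) = E.ord (toFF k σ a / toFF k σ b)
    rw [e1, v.ord_div e2 e3, h₁, h₁, hv.poly a ha0, hv.poly b hb0,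
      E.toOrdFn.ord_div (hne a ha0) (hne b hb0)]
  have hge : ∀ g : MvPowerSeries σ k, v.ge 0 (toPF k σ g) := fun g =>
    hv.low 0 g fun m hm => absurd hm (Nat.not_lt_zero _)
  unfold DivisorOver.logDisc
  refine le_iInf fun DD => ?_
  obtain ⟨D, hDi, hJ⟩ := DD
  set Dh : σ → Derivation k (PF k σ) (PF k σ) := fun i => ∑ m, Φ₁ (D i (xx k m)) • dd m with hDh
  have hDh1 : ∀ i h, Dh i h = ∑ m, Φ₁ (D i (xx k m)) * dd m h := by
    intro i h
    exact PsLog_der_sum _ _ _ _
  have hint : ∀ i h, v.ge 0 h → v.ge 0 (Dh i h) := by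
    intro i h h0
    rw [hDh1]
    exact hat_integral E v hv Φ₁ h₁ dd hdd (D i) (hDi i) h h0
  set b : Matrix σ σ (PF k σ) := Matrix.of fun i j => Dh i (Φ (xx k j)) with hb
  set U : Matrix σ σ (MvPowerSeries σ k) := Matrix.of fun i j : σ =>
      MvPowerSeries.pderiv k i (φ (MvPowerSeries.X j)) with hU
  have hdetb : b.det = Φ₁ (DivisorOver.jac D) * toPF k σ U.det := by
    have e1 : Φ₁ (DivisorOver.jac D) =
        (Matrix.of fun i m : σ => Φ₁ (D i (xx k m))).det := by
      rw [DivisorOver.jac, AlgHom.map_det]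
      rfl
    have e2 : toPF k σ U.det = (Matrix.of fun i j : σ => toPF k σ (U i j)).det := by
      rw [AlgHom.map_det]
      rfl
    rw [e1, e2, ← Matrix.det_mul]
    congr 1
    ext i j
    rw [hb, Matrix.of_apply, Matrix.mul_apply, hDh1]
    refine Finset.sum_congr rfl fun m _ => ?_
    rw [Matrix.of_apply, Matrix.of_apply, hU, Matrix.of_apply, ← hdd]
    congr 2
    rw [xx, hΦ, MvPolynomial.coe_X]
  have hJ1 : Φ₁ (DivisorOver.jac D) ≠ 0 := (map_ne_zero_iff Φ₁ hinj₁).2 hJ
  obtain ⟨hU0, hUord⟩ : toPF k σ U.det ≠ 0 ∧ v.ord (toPF k σ U.det) = 0 := by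
    obtain ⟨u, hu⟩ := linear_part φ
    have hu' : (u : MvPowerSeries σ k) = U.det := hu
    have e1 : toPF k σ U.det * toPF k σ ((u⁻¹ : (MvPowerSeries σ k)ˣ) : MvPowerSeries σ k) = 1 := by
      rw [← map_mul, ← hu', Units.mul_inv, map_one]
    have e2 : toPF k σ U.det ≠ 0 := left_ne_zero_of_mul_eq_one e1
    have e3 : toPF k σ ((u⁻¹ : (MvPowerSeries σ k)ˣ) : MvPowerSeries σ k) ≠ 0 :=
      right_ne_zero_of_mul_eq_one e1
    refine ⟨e2, ?_⟩
    have e4 := v.ord_mul e2 e3
    rw [e1, v.ord_one] at e4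
    have e5 := (hge U.det).resolve_left e2
    have e6 := (hge ((u⁻¹ : (MvPowerSeries σ k)ˣ) : MvPowerSeries σ k)).resolve_left e3
    omega
  have hb0 : b.det ≠ 0 := by
    rw [hdetb]
    exact mul_ne_zero hJ1 hU0
  have hbord : v.ord b.det = E.ord (DivisorOver.jac D) := by
    rw [hdetb, v.ord_mul hJ1 hU0, hUord, add_zero, hord₁ _ hJ]
  have hbunit : IsUnit b.det := isUnit_iff_ne_zero.2 hb0
  obtain ⟨C, hC0, hC⟩ := PsLog_bound v (fun p : σ × σ => b⁻¹ p.1 p.2)
  have hCb : ∀ i j, v.ge (-C) (b⁻¹ i j) := fun i j => hC (i, j)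
  -- the basic formula
  have hbas : ∀ i f, Dh i (Φ f) = ∑ j, b i j * Φ (d j f) := by
    intro i f
    rw [derPF Φ (Dh i) d hd f]
    refine Finset.sum_congr rfl fun j _ => ?_
    rw [hb, Matrix.of_apply, mul_comm]
  have hinv : ∀ j f, Φ (d j f) = ∑ i, b⁻¹ j i * Dh i (Φ f) := by
    intro j f
    have e1 : b.mulVec (fun j => Φ (d j f)) = fun i => Dh i (Φ f) := by
      funext i
      rw [hbas]
      rfl
    have e2 : b⁻¹.mulVec (fun i => Dh i (Φ f)) = fun j => Φ (d j f) := by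
      rw [← e1, Matrix.mulVec_mulVec, Matrix.nonsing_inv_mul b hbunit, Matrix.one_mulVec]
    exact (congrFun e2 j).symm
  have hdge : ∀ j f, v.ge 0 (Φ f) → v.ge (-C) (Φ (d j f)) := by
    intro j f hf
    rw [hinv]
    refine v.ge_sum _ _ fun i _ => ?_
    have e1 := v.ge_mul (hCb j i) (hint i _ hf)
    rwa [add_zero] at e1
  choose b' hb' using fun i j => approx E v hv φ Φ hΦ (b i j) (C + 1)
  set D' : σ → Derivation k (FF k σ) (FF k σ) := fun i => ∑ j, b' i j • d j with hD'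
  have hD'1 : ∀ i f, D' i f = ∑ j, b' i j * d j f := by
    intro i f
    exact PsLog_der_sum _ _ _ _
  have hD'int : ∀ i, E'.IntegralDer (D' i) := by
    intro i f hf0 hf
    by_cases hz : D' i f = 0
    · exact Or.inl hz
    right
    rw [hE' _ hz]
    have e1 : v.ge 0 (Φ f) := Or.inr (by rw [← hE' f hf0]; exact hf)
    have e2 : Φ (D' i f) = Dh i (Φ f) + ∑ j, (Φ (b' i j) - b i j) * Φ (d j f) := by
      rw [hbas, hD'1, map_sum, ← Finset.sum_add_distrib]
      refine Finset.sum_congr rfl fun j _ => ?_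
      rw [map_mul]
      ring
    have e3 : v.ge 0 (Φ (D' i f)) := by
      rw [e2]
      refine v.ge_add (hint i _ e1) (v.ge_sum _ _ fun j _ => ?_)
      exact v.ge_mono (by omega) (v.ge_mul (hb' i j) (hdge j f e1))
    exact e3.resolve_left ((map_ne_zero_iff Φ hinj).2 hz)
  have hD'x : ∀ i j, D' i (xx k j) = b' i j := by
    intro i j
    rw [hD'1]
    have e1 : ∀ l, b' i l * d l (xx k j) = if l = j then b' i j else 0 := by
      intro l
      rw [xx, hd, pderiv_X]
      by_cases hlj : l = j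
      · subst hlj
        rw [Pi.single_eq_same, map_one, mul_one, if_pos rfl]
      · rw [Pi.single_eq_of_ne (Ne.symm hlj), map_zero, mul_zero, if_neg hlj]
    rw [Finset.sum_congr rfl fun l _ => e1 l, Finset.sum_ite_eq' Finset.univ j,
      if_pos (Finset.mem_univ j)]
  have hjac : Φ (DivisorOver.jac D') = (Matrix.of fun i j : σ => Φ (b' i j)).det := by
    rw [DivisorOver.jac, AlgHom.map_det]
    congr 1
    ext i j
    change Φ (D' i (xx k j)) = Φ (b' i j)
    rw [hD'x]
  set eps : Matrix σ σ (PF k σ) := Matrix.of fun i j => Φ (b' i j) - b i j with heps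
  have hfac : (Matrix.of fun i j : σ => Φ (b' i j)) = b * (1 + b⁻¹ * eps) := by
    rw [mul_add, mul_one, ← mul_assoc, Matrix.mul_nonsing_inv b hbunit, one_mul]
    ext i j
    rw [Matrix.add_apply, heps, Matrix.of_apply, Matrix.of_apply]
    ring
  have hη : ∀ i j, v.ge 1 ((b⁻¹ * eps) i j) := by
    intro i j
    rw [Matrix.mul_apply]
    refine v.ge_sum _ _ fun l _ => ?_
    have e1 : v.ge (C + 1) (eps l j) := by
      rw [heps, Matrix.of_apply]
      exact hb' l j
    exact v.ge_mono (by omega) (v.ge_mul (hCb i l) e1)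
  obtain ⟨h5, h6⟩ := PsLog_det_one_add v (b⁻¹ * eps) hη
  have hjac2 : Φ (DivisorOver.jac D') = b.det * (1 + b⁻¹ * eps).det := by
    rw [hjac, hfac, Matrix.det_mul]
  have hjac0 : DivisorOver.jac D' ≠ 0 := by
    intro h
    rw [h, map_zero] at hjac2
    exact mul_ne_zero hb0 h5 hjac2.symm
  have hjord : E'.ord (DivisorOver.jac D') = E.ord (DivisorOver.jac D) := by
    rw [hE' _ hjac0, hjac2, v.ord_mul hb0 h5, h6, add_zero, hbord]
  refine iInf_le_of_le ⟨D', hD'int, hjac0⟩ ?_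
  change (((1 + E'.ord (DivisorOver.jac D') : ℤ) : ℝ) : EReal) ≤ _
  rw [hjord]

/-- Transport of divisors by automorphisms of the formal germ. -/
theorem transport (E : DivisorOver k σ) (hE : E.CenterZero) (A : ℕ)
    (hA : E.logDisc ≤ ((A : ℝ) : EReal)) (φ : MvPowerSeries σ k ≃ₐ[k] MvPowerSeries σ k) :
    ∃ (v : OrdFn k (PF k σ)) (E' : DivisorOver k σ), Hat E v ∧ E'.CenterZero ∧
      E'.logDisc ≤ E.logDisc ∧
      ∀ f : MvPolynomial σ k, f ≠ 0 →
        E'.ord (toFF k σ f) = v.ord (toPF k σ (φ (f : MvPowerSeries σ k))) := by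
  obtain ⟨v, hv⟩ := exists_hat E hE A hA
  obtain ⟨Φ, hΦ⟩ := exists_Phi φ
  obtain ⟨E', hE'0, hE'⟩ := exists_pullback E v hv φ Φ hΦ
  refine ⟨v, E', hv, hE'0, logDisc_pullback E v hv φ Φ hΦ E' hE', fun f hf => ?_⟩
  have htoinj : Function.Injective (toFF k σ) := IsFractionRing.injective (MvPolynomial σ k) _
  have hne : toFF k σ f ≠ 0 := fun h => hf (htoinj (h.trans (map_zero _).symm))
  rw [hE' _ hne, hΦ]

end MLD
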