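import Pool.Agent.MLD.Q1T
import Pool.Agent.MLD.PsLog
import Pool.Agent.MLD.FormOrd

/-!
PIECE MLD-F3: from polynomial block ideals to block ideals in formal coordinates.

Let `E` be a divisor with `E.CenterZero`, `E.logDisc ≤ A`, `φ` an automorphism. `transport` for `φ.symm`
gives `v` (`Hat E v`) and `E'` with `E'.logDisc ≤ E.logDisc`, `E'.ord f = v.ord (φ.symm f)`.

`ordI_formal` (`FormOrd.lean`) with `ψ := φ.symm`: if `hatI I = span (φ '' G)`, then `N ≤ E'.ordI I` iff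
`v.ge N (toPF g)` for all `g ∈ G`. With `ψ := refl`, `v` and `E`: if `c = span S'`, `c ≠ ⊥`, then `N ≤ E.ordI c`
iff `v.ge N (toPF p)` for all `p ∈ S'`; if the elements of `G` and `S'` correspond to each other with
`Low T (g - p)` and `N ≤ T` then the two conditions agree (`ge_congr_low`).

PROOF of `form_bdd`. Let `ℓ` be the constant of `h`. Let `a` be a tuple of nonzero ideals, `φ`, and
the formal generators be given: `g : β → series` for `a 0`, `S j` for `a (j+1)`. For `T : ℕ` let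
`c T : Fin (r+1) → Ideal` be the polynomial tuple: `c T 0 = span {∑ b, truncTotal T (g b)}`,
`c T (j+1) = span {∏ b, truncTotal T (g b) | g ∈ S j}`. Then `PolySplit blk (c T)` (truncations of series
in a block are renamed polynomials in the block variables, `exists_block` in `Fin1.lean`), and
`c T j ≠ ⊥` for all `T ≥ T0`. The generators of `c T j` and the formal ones agree up to `Low T`.
Let `s` be the constant of `q1_fixedT` for `PolySplit blk`; fix `T ≥ T0, s, 1` with `ℓ < lam j * T` for all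
`j` with `0 < lam j`. `h` gives `E` for `c T`; let `E'` be its transport. For `N ≤ T`:
`N ≤ E'.ordI (a j) ↔ N ≤ E.ordI (c T j)` (*).
(i) `E.aDisc lam (c T) < 0`: then `E'.aDisc lam a < 0`: if all `E.ordI (c T j) < T` (`0 < lam j`) then the
orders agree by (*) and `E'.logDisc ≤ E.logDisc`; otherwise some `E'.ordI (a j) ≥ T` and
`E'.aDisc lam a ≤ ℓ - lam j * T < 0`. Done.
(ii) `E` computes the infimum for `c T`. If `E.aDisc lam (c T) < 0` use (i). Otherwise all orders (with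
`0 < lam j`) are `< T`, so `E'.aDisc lam a ≤ E.aDisc lam (c T) = mld lam (c T)`. Claim: `E'` serves for `a`.
Let `E''` be centred at the origin with `E''.aDisc lam a < E'.aDisc lam a`; so
`E''.logDisc` is not `⊤`, bounded by some natural number; transport it by `φ`: `E'''`,
`E'''.logDisc ≤ E''.logDisc`, `E'''.ord f = v''.ord (φ f)`, so as in (*) for all `T' `
large `E'''.ordI (c T' j) = E''.ordI (a j)` (here `N ≤ E'''.ordI (c T' j)` iff
`v''.ge N (toPF (φ g))` for the formal generators `g` iff `N ≤ E''.ordI (a j)`, `N ≤ T'`). Hence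
`mld lam (c T') ≤ E'''.aDisc lam (c T') ≤ E''.aDisc lam a < mld lam (c T)`, for some `T' ≥ T`. But `c T j`
and `c T' j` agree modulo `m^T` (`Low T` polynomials lie in `mm ^ T`), so by `q1_fixedT`
`0 ≤ mld lam (c T)` gives `0 ≤ mld lam (c T')` and `mld lam (c T) = mld lam (c T')`: contradiction.
`split_bdd`: maximum of the constants over the finitely many `blk : Fin n → Fin n`.
-/

open MvPolynomial Filter

namespace MLD

universe u

section aux

variable {k : Type u} [Field k] {σ : Type} [Fintype σ]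

private theorem FormBdd_eq {x y T : ℕ} (h : ∀ N ≤ T, N ≤ x ↔ N ≤ y) (hx : x < T) : y = x := by
  have h1 := (h x hx.le).1 le_rfl
  have h2 : ¬ (x + 1 ≤ y) := fun h3 => by
    have := (h (x + 1) hx).2 h3
    omega
  omega

/-- `G` and `P` agree up to terms of degree `≥ T` -/
private def FormBddM (T : ℕ) (G : Set (MvPowerSeries σ k)) (P : Set (MvPolynomial σ k)) : Prop :=
  (∀ g ∈ G, ∃ p ∈ P, Low T (g - (p : MvPowerSeries σ k))) ∧
    ∀ p ∈ P, ∃ g ∈ G, Low T (g - (p : MvPowerSeries σ k))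

private theorem FormBdd_hpos {E : DivisorOver k σ} {v : OrdFn k (PF k σ)} (hv : Hat E v)
    (g : MvPowerSeries σ k) : v.ge 0 (toPF k σ g) := by
  have h := hv.low 0 g (fun m hm => absurd hm (Nat.not_lt_zero _))
  exact_mod_cast h

omit [Fintype σ] in
private theorem FormBdd_map_symm (φ : MvPowerSeries σ k ≃ₐ[k] MvPowerSeries σ k)
    (G : Set (MvPowerSeries σ k)) :
    (Ideal.span (φ '' G)).map (φ.symm : MvPowerSeries σ k →+* MvPowerSeries σ k) =
      Ideal.span G := by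
  rw [Ideal.map_span, Set.image_image]
  congr 1
  ext x
  simp

omit [Fintype σ] in
private theorem FormBdd_map_refl (I : Ideal (MvPowerSeries σ k)) :
    I.map ((AlgEquiv.refl : MvPowerSeries σ k ≃ₐ[k] MvPowerSeries σ k) :
      MvPowerSeries σ k →+* MvPowerSeries σ k) = I := by
  have h : ((AlgEquiv.refl : MvPowerSeries σ k ≃ₐ[k] MvPowerSeries σ k) :
      MvPowerSeries σ k →+* MvPowerSeries σ k) = RingHom.id _ := by
    ext x
    rfl
  rw [h, Ideal.map_id]

omit [Fintype σ] in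
private theorem FormBdd_hat_span (P : Set (MvPolynomial σ k)) :
    hatI (Ideal.span P) = Ideal.span ((fun p : MvPolynomial σ k => (p : MvPowerSeries σ k)) '' P) := by
  unfold hatI
  rw [Ideal.map_span]
  rfl

private theorem FormBdd_ord1 (E E' : DivisorOver k σ) (v : OrdFn k (PF k σ)) (hv : Hat E v)
    (φ : MvPowerSeries σ k ≃ₐ[k] MvPowerSeries σ k)
    (hE' : ∀ f : MvPolynomial σ k, f ≠ 0 →
      E'.ord (toFF k σ f) = v.ord (toPF k σ (φ.symm (f : MvPowerSeries σ k))))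
    (I : Ideal (MvPolynomial σ k)) (hI : I ≠ ⊥) (G : Set (MvPowerSeries σ k))
    (hG : hatI I = Ideal.span (φ '' G)) {T : ℕ} {P : Set (MvPolynomial σ k)}
    (hP : Ideal.span P ≠ ⊥) (hGP : FormBddM T G P) :
    ∀ N ≤ T, N ≤ E'.ordI I ↔ N ≤ E.ordI (Ideal.span P) := by
  intro N hN
  have h1 := ordI_formal E' v φ.symm hE' (FormBdd_hpos hv) I hI G
    (by rw [hG, FormBdd_map_symm]) N
  have h2 := ordI_formal E v AlgEquiv.refl (fun f hf => (hv.poly f hf).symm) (FormBdd_hpos hv)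
    (Ideal.span P) hP ((fun p : MvPolynomial σ k => (p : MvPowerSeries σ k)) '' P)
    (by rw [FormBdd_map_refl, FormBdd_hat_span]) N
  rw [h1, h2]
  constructor
  · rintro h _ ⟨p, hp, rfl⟩
    obtain ⟨g, hg, hl⟩ := hGP.2 p hp
    exact (ge_congr_low hv hN hl).1 (h g hg)
  · intro h g hg
    obtain ⟨p, hp, hl⟩ := hGP.1 g hg
    exact (ge_congr_low hv hN hl).2 (h _ ⟨p, hp, rfl⟩)

private theorem FormBdd_ord2 (E E' : DivisorOver k σ) (v : OrdFn k (PF k σ)) (hv : Hat E v)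
    (φ : MvPowerSeries σ k ≃ₐ[k] MvPowerSeries σ k)
    (hE' : ∀ f : MvPolynomial σ k, f ≠ 0 →
      E'.ord (toFF k σ f) = v.ord (toPF k σ (φ (f : MvPowerSeries σ k))))
    (I : Ideal (MvPolynomial σ k)) (hI : I ≠ ⊥) (G : Set (MvPowerSeries σ k))
    (hG : hatI I = Ideal.span (φ '' G)) {T : ℕ} {P : Set (MvPolynomial σ k)}
    (hP : Ideal.span P ≠ ⊥) (hGP : FormBddM T G P) :
    ∀ N ≤ T, N ≤ E.ordI I ↔ N ≤ E'.ordI (Ideal.span P) := by
  intro N hN
  have h1 := ordI_formal E v AlgEquiv.refl (fun f hf => (hv.poly f hf).symm) (FormBdd_hpos hv)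
    I hI (φ '' G) (by rw [FormBdd_map_refl, hG]) N
  have h2 := ordI_formal E' v φ hE' (FormBdd_hpos hv) (Ideal.span P) hP
    (φ '' ((fun p : MvPolynomial σ k => (p : MvPowerSeries σ k)) '' P))
    (by rw [FormBdd_hat_span, Ideal.map_span]; rfl) N
  rw [h1, h2]
  have hlow : ∀ g p : MvPowerSeries σ k, Low T (g - p) → Low T (φ g - φ p) := by
    intro g p h
    rw [← map_sub]
    exact low_automorphism φ h
  constructor
  · rintro h _ ⟨_, ⟨p, hp, rfl⟩, rfl⟩
    obtain ⟨g, hg, hl⟩ := hGP.2 p hp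
    exact (ge_congr_low hv hN (hlow _ _ hl)).1 (h _ ⟨g, hg, rfl⟩)
  · rintro h _ ⟨g, hg, rfl⟩
    obtain ⟨p, hp, hl⟩ := hGP.1 g hg
    exact (ge_congr_low hv hN (hlow _ _ hl)).2 (h _ ⟨_, ⟨p, hp, rfl⟩, rfl⟩)

private theorem FormBdd_cong {s T T' : ℕ} (hs : s ≤ T) (hT : T ≤ T')
    {G : Set (MvPowerSeries σ k)} {P P' : Set (MvPolynomial σ k)} (h : FormBddM T G P)
    (h' : FormBddM T' G P') :
    Ideal.span P ⊔ mm k σ ^ s = Ideal.span P' ⊔ mm k σ ^ s := by
  have hmem : ∀ (g : MvPowerSeries σ k) (p p' : MvPolynomial σ k),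
      Low T (g - (p : MvPowerSeries σ k)) → Low T' (g - (p' : MvPowerSeries σ k)) →
      p - p' ∈ mm k σ ^ s := by
    intro g p p' hp hp'
    have h1 : Low T ((p - p' : MvPolynomial σ k) : MvPowerSeries σ k) := by
      have h2 := (hp'.mono hT).sub hp
      have h3 : ((p - p' : MvPolynomial σ k) : MvPowerSeries σ k) =
          (g - (p' : MvPowerSeries σ k)) - (g - (p : MvPowerSeries σ k)) := by
        have h4 : ((p - p' : MvPolynomial σ k) : MvPowerSeries σ k) =
            (p : MvPowerSeries σ k) - (p' : MvPowerSeries σ k) :=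
          map_sub (MvPolynomial.coeToMvPowerSeries.ringHom (σ := σ) (R := k)) p p'
        rw [h4]
        ring
      rw [h3]
      exact h2
    exact Ideal.pow_le_pow_right hs (mem_mm_pow_of_low T _ h1)
  apply le_antisymm
  · refine sup_le ?_ le_sup_right
    rw [Ideal.span_le]
    intro p hp
    obtain ⟨g, hg, hl⟩ := h.2 p hp
    obtain ⟨p', hp', hl'⟩ := h'.1 g hg
    have h1 := hmem g p p' hl hl'
    have h2 : p = p' + (p - p') := by ring
    show p ∈ Ideal.span P' ⊔ mm k σ ^ s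
    rw [h2]
    exact Submodule.add_mem_sup (Ideal.subset_span hp') h1
  · refine sup_le ?_ le_sup_right
    rw [Ideal.span_le]
    intro p' hp'
    obtain ⟨g, hg, hl'⟩ := h'.2 p' hp'
    obtain ⟨p, hp, hl⟩ := h.1 g hg
    have h1 := hmem g p p' hl hl'
    have h2 : p' = p + -(p - p') := by ring
    show p' ∈ Ideal.span P ⊔ mm k σ ^ s
    rw [h2]
    exact Submodule.add_mem_sup (Ideal.subset_span hp) (Submodule.neg_mem _ h1)

omit [Fintype σ] in
private theorem FormBdd_ne {r : ℕ} (a : Fin r → Ideal (MvPolynomial σ k)) (ha : ∀ j, a j ≠ ⊥)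
    (φ : MvPowerSeries σ k ≃ₐ[k] MvPowerSeries σ k) (G : Fin r → Set (MvPowerSeries σ k))
    (hG : ∀ j, hatI (a j) = Ideal.span (φ '' G j)) (P : ℕ → Fin r → Set (MvPolynomial σ k))
    (hP : ∀ T j, FormBddM T (G j) (P T j)) :
    ∃ T0 : ℕ, ∀ T, T0 ≤ T → ∀ j, Ideal.span (P T j) ≠ ⊥ := by
  have h1 : ∀ j, ∃ g ∈ G j, g ≠ 0 := by
    intro j
    by_contra hcon
    push Not at hcon
    apply hatI_ne_bot (a j) (ha j)
    rw [hG j, Ideal.span_eq_bot]
    rintro _ ⟨g, hg, rfl⟩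
    rw [hcon g hg, map_zero]
  have h2 : ∀ j, ∃ g ∈ G j, ∃ m : σ →₀ ℕ, MvPowerSeries.coeff m g ≠ 0 := by
    intro j
    obtain ⟨g, hg, hg0⟩ := h1 j
    refine ⟨g, hg, ?_⟩
    by_contra hcon
    push Not at hcon
    exact hg0 (MvPowerSeries.ext fun m => by rw [hcon m, map_zero])
  choose g hg m hm using h2
  refine ⟨∑ j, ((m j).degree + 1), fun T hT j => ?_⟩
  have h3 : (m j).degree + 1 ≤ ∑ j, ((m j).degree + 1) :=
    Finset.single_le_sum (f := fun j => (m j).degree + 1) (fun i _ => Nat.zero_le _)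
      (Finset.mem_univ j)
  obtain ⟨p, hp, hl⟩ := (hP T j).1 (g j) (hg j)
  intro hbot
  rw [Ideal.span_eq_bot] at hbot
  have h4 := hl (m j) (by omega)
  rw [hbot p hp, map_sub] at h4
  apply hm j
  have h5 : MvPowerSeries.coeff (m j) ((0 : MvPolynomial σ k) : MvPowerSeries σ k) = 0 := by
    rw [MvPolynomial.coeff_coe]
    exact MvPolynomial.coeff_zero _
  rw [h5, sub_zero] at h4
  exact h4

end aux

section core

variable {k : Type u} [Field k] {σ : Type} [Fintype σ] [DecidableEq σ]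

private theorem FormBdd_le {r : ℕ} (lam : Fin r → ℝ) (hlam : ∀ j, 0 ≤ lam j) {ℓ T : ℕ}
    (hT : ∀ j, 0 < lam j → (ℓ : ℝ) < lam j * T) (E E' : DivisorOver k σ)
    (hl : E.logDisc ≤ ((ℓ : ℝ) : EReal)) (hll : E'.logDisc ≤ E.logDisc)
    (a c : Fin r → Ideal (MvPolynomial σ k))
    (h : ∀ j, ∀ N ≤ T, N ≤ E'.ordI (a j) ↔ N ≤ E.ordI (c j)) :
    E'.aDisc lam a ≤ E.aDisc lam c ∨ E'.aDisc lam a < 0 := by
  obtain ⟨B, _, hBl, hB⟩ := logDisc_real E ℓ hl
  obtain ⟨B', _, hBl', hB'⟩ := logDisc_real E' B (hB ▸ hll)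
  rw [Q1_aDisc E lam c hB, Q1_aDisc E' lam a hB']
  by_cases hbig : ∃ j, 0 < lam j ∧ T ≤ E'.ordI (a j)
  · right
    obtain ⟨j, hj, hja⟩ := hbig
    have h1 : lam j * T ≤ lam j * (E'.ordI (a j) : ℝ) :=
      mul_le_mul_of_nonneg_left (by exact_mod_cast hja) (hlam j)
    have h2 : lam j * (E'.ordI (a j) : ℝ) ≤ ∑ j, lam j * (E'.ordI (a j) : ℝ) :=
      Finset.single_le_sum (f := fun j => lam j * (E'.ordI (a j) : ℝ))
        (fun i _ => mul_nonneg (hlam i) (Nat.cast_nonneg _)) (Finset.mem_univ j)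
    have h3 := hT j hj
    have h4 : B' - ∑ j, lam j * (E'.ordI (a j) : ℝ) < 0 := by linarith
    exact_mod_cast h4
  · left
    push Not at hbig
    have h1 : ∑ j, lam j * (E'.ordI (a j) : ℝ) = ∑ j, lam j * (E.ordI (c j) : ℝ) := by
      refine Finset.sum_congr rfl fun j _ => ?_
      by_cases hj : 0 < lam j
      · rw [FormBdd_eq (h j) (hbig j hj)]
      · have h0 : lam j = 0 := le_antisymm (not_lt.1 hj) (hlam j)
        rw [h0, zero_mul, zero_mul]
    rw [h1]
    have h2 : B' - ∑ j, lam j * (E.ordI (c j) : ℝ) ≤ B - ∑ j, lam j * (E.ordI (c j) : ℝ) := by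
      linarith
    exact_mod_cast h2

private theorem FormBdd_core [CharZero k] [Nonempty σ] {r : ℕ}
    (𝒯 : (Fin r → Ideal (MvPolynomial σ k)) → Prop) (lam : Fin r → ℝ)
    (hlam : ∀ j, 0 ≤ lam j) (ℓ : ℕ)
    (hℓ : ∀ a : Fin r → Ideal (MvPolynomial σ k), (∀ j, a j ≠ ⊥) → 𝒯 a →
      ∃ E : DivisorOver k σ, E.CenterZero ∧ E.logDisc ≤ ((ℓ : ℝ) : EReal) ∧
        (E.aDisc lam a < 0 ∨
          ∀ E' : DivisorOver k σ, E'.CenterZero → E.aDisc lam a ≤ E'.aDisc lam a))
    (a : Fin r → Ideal (MvPolynomial σ k)) (ha : ∀ j, a j ≠ ⊥)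
    (φ : MvPowerSeries σ k ≃ₐ[k] MvPowerSeries σ k) (G : Fin r → Set (MvPowerSeries σ k))
    (hG : ∀ j, hatI (a j) = Ideal.span (φ '' G j)) (P : ℕ → Fin r → Set (MvPolynomial σ k))
    (hP : ∀ T j, FormBddM T (G j) (P T j))
    (hcT : ∀ T, 𝒯 (fun j => Ideal.span (P T j))) :
    ∃ E : DivisorOver k σ, E.CenterZero ∧ E.logDisc ≤ ((ℓ : ℝ) : EReal) ∧
      (E.aDisc lam a < 0 ∨
        ∀ E' : DivisorOver k σ, E'.CenterZero → E.aDisc lam a ≤ E'.aDisc lam a) := by
  obtain ⟨T0, hT0⟩ := FormBdd_ne a ha φ G hG P hP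
  obtain ⟨s, hs1, hs⟩ := q1_fixedT 𝒯 lam hlam ⟨ℓ, hℓ⟩
  obtain ⟨T1, _, hT1⟩ := Q1_exists_s lam hlam ℓ
  set T : ℕ := T0 + s + T1 with hTdef
  have hT : ∀ j, 0 < lam j → (ℓ : ℝ) < lam j * T := by
    intro j hj
    refine (hT1 j hj).trans_le (mul_le_mul_of_nonneg_left ?_ hj.le)
    exact_mod_cast (by omega : T1 ≤ T)
  have hcne : ∀ j, Ideal.span (P T j) ≠ ⊥ := hT0 T (by omega)
  obtain ⟨E, hE, hEl, hE2⟩ := hℓ (fun j => Ideal.span (P T j)) hcne (hcT T)
  obtain ⟨v, E', hv, hE'c, hE'l, hE'o⟩ := transport E hE ℓ hEl φ.symm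
  have hord : ∀ j, ∀ N ≤ T, N ≤ E'.ordI (a j) ↔ N ≤ E.ordI (Ideal.span (P T j)) := fun j =>
    FormBdd_ord1 E E' v hv φ hE'o (a j) (ha j) (G j) (hG j) (hcne j) (hP T j)
  have hcmp := FormBdd_le lam hlam hT E E' hEl hE'l a (fun j => Ideal.span (P T j)) hord
  refine ⟨E', hE'c, hE'l.trans hEl, ?_⟩
  by_cases hneg : E'.aDisc lam a < 0
  · exact Or.inl hneg
  right
  have hle : E'.aDisc lam a ≤ E.aDisc lam (fun j => Ideal.span (P T j)) :=
    hcmp.resolve_right hneg
  have hE0 : 0 ≤ E.aDisc lam (fun j => Ideal.span (P T j)) := (not_lt.1 hneg).trans hle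
  have hEmin := hE2.resolve_left (not_lt.2 hE0)
  intro E'' hE''
  by_contra hcon
  rw [not_le] at hcon
  have htop : E''.logDisc ≠ ⊤ := by
    intro ht
    unfold DivisorOver.aDisc at hcon
    rw [ht, EReal.top_sub_coe] at hcon
    exact not_top_lt hcon
  have hbot : E''.logDisc ≠ ⊥ := by
    intro hb
    have h1 := one_le_logDisc E''
    rw [hb, le_bot_iff] at h1
    exact EReal.coe_ne_bot 1 h1
  obtain ⟨A, hA⟩ := exists_nat_ge E''.logDisc.toReal
  have hA' : E''.logDisc ≤ ((A : ℝ) : EReal) := by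
    rw [← EReal.coe_toReal htop hbot]
    exact_mod_cast hA
  obtain ⟨v2, E3, hv2, hE3c, hE3l, hE3o⟩ := transport E'' hE'' A hA' φ
  set T' : ℕ := T + 1 + ∑ j, E''.ordI (a j) with hT'def
  have hc'ne : ∀ j, Ideal.span (P T' j) ≠ ⊥ := hT0 T' (by omega)
  have hord2 : ∀ j, E3.ordI (Ideal.span (P T' j)) = E''.ordI (a j) := by
    intro j
    refine FormBdd_eq (FormBdd_ord2 E'' E3 v2 hv2 φ hE3o (a j) (ha j) (G j) (hG j)
      (hc'ne j) (hP T' j)) ?_
    have h1 : E''.ordI (a j) ≤ ∑ j, E''.ordI (a j) :=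
      Finset.single_le_sum (f := fun j => E''.ordI (a j)) (fun i _ => Nat.zero_le _)
        (Finset.mem_univ j)
    omega
  have hdisc : E3.aDisc lam (fun j => Ideal.span (P T' j)) ≤ E''.aDisc lam a := by
    unfold DivisorOver.aDisc
    have h1 : ∑ j, lam j * (E3.ordI (Ideal.span (P T' j)) : ℝ) =
        ∑ j, lam j * (E''.ordI (a j) : ℝ) :=
      Finset.sum_congr rfl fun j _ => by rw [hord2 j]
    rw [h1]
    exact EReal.sub_le_sub hE3l le_rfl
  have hmld' : mld lam (fun j => Ideal.span (P T' j)) < mld lam (fun j => Ideal.span (P T j)) := by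
    calc mld lam (fun j => Ideal.span (P T' j))
        ≤ E3.aDisc lam (fun j => Ideal.span (P T' j)) := Q1_mld_le E3 hE3c lam _
      _ ≤ E''.aDisc lam a := hdisc
      _ < E'.aDisc lam a := hcon
      _ ≤ E.aDisc lam (fun j => Ideal.span (P T j)) := hle
      _ ≤ mld lam (fun j => Ideal.span (P T j)) := Q1_le_mld lam _ _ hEmin
  have h0 : 0 ≤ mld lam (fun j => Ideal.span (P T j)) :=
    hE0.trans (Q1_le_mld lam _ _ hEmin)
  have hcong := hs (fun j => Ideal.span (P T j)) (fun j => Ideal.span (P T' j)) hcne hc'ne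
    (hcT T) (hcT T') fun j => FormBdd_cong (by omega) (by omega) (hP T j) (hP T' j)
  have h1 := hcong.2 h0 (hcong.1.1 h0)
  rw [h1] at hmld'
  exact lt_irrefl _ hmld'

/-- The general form: the formal generators `G j` of the ideals (after an automorphism) are
approximated by polynomials such that the polynomial tuples belong to the class `𝒯`. -/
theorem form_bdd_gen [CharZero k] [Nonempty σ] {r : ℕ}
    (𝒯 : (Fin r → Ideal (MvPolynomial σ k)) → Prop) (lam : Fin r → ℝ)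
    (hlam : ∀ j, 0 ≤ lam j) (h : BddT 𝒯 lam) :
    BddT (fun a : Fin r → Ideal (MvPolynomial σ k) =>
      ∃ (φ : MvPowerSeries σ k ≃ₐ[k] MvPowerSeries σ k) (G : Fin r → Set (MvPowerSeries σ k)),
        (∀ j, hatI (a j) = Ideal.span (φ '' G j)) ∧
        ∀ T : ℕ, ∃ p : Fin r → MvPowerSeries σ k → MvPolynomial σ k,
          (∀ j, ∀ g ∈ G j, Low T (g - (p j g : MvPowerSeries σ k))) ∧
          𝒯 (fun j => Ideal.span (p j '' G j))) lam := by
  obtain ⟨ℓ, hℓ⟩ := h
  refine ⟨ℓ, fun a ha h𝒯 => ?_⟩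
  obtain ⟨φ, G, hG, hp⟩ := h𝒯
  choose p hp1 hp2 using hp
  refine FormBdd_core 𝒯 lam hlam ℓ hℓ a ha φ G hG (fun T j => p T j '' G j) ?_ hp2
  intro T j
  constructor
  · intro g hg
    exact ⟨_, ⟨g, hg, rfl⟩, hp1 T j g hg⟩
  · rintro _ ⟨g, hg, rfl⟩
    exact ⟨g, hg, hp1 T j g hg⟩

end core

variable {k : Type u} [Field k] {σ : Type} [Fintype σ] [DecidableEq σ]
  {β : Type} [Fintype β] [DecidableEq β] (blk : σ → β)

/-- `a_0` is generated by a sum of polynomials in the single blocks, `a_1, ..., a_r` are generated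
by products of polynomials in the single blocks -/
def PolySplit {r : ℕ} (a : Fin (r + 1) → Ideal (MvPolynomial σ k)) : Prop :=
  (∃ g : ∀ b, MvPolynomial {i // blk i = b} k,
    a 0 = Ideal.span {∑ b, rename Subtype.val (g b)}) ∧
  ∀ j : Fin r, ClassOf blk (fun _ => Set.univ) (a j.succ)

theorem form_bdd [CharZero k] [Nonempty σ] {r : ℕ} (lam : Fin (r + 1) → ℝ)
    (hlam : ∀ j, 0 ≤ lam j) (h : BddT (PolySplit (k := k) blk) lam) :
    BddT (fun a : Fin (r + 1) → Ideal (MvPolynomial σ k) =>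
      ∃ φ : MvPowerSeries σ k ≃ₐ[k] MvPowerSeries σ k, FormalBlockSum blk φ (a 0) ∧
        ∀ j : Fin r, FormalBlockIdeal blk φ (a j.succ)) lam := by
  obtain ⟨ℓ, hℓ⟩ := h
  refine ⟨ℓ, fun a ha h𝒯 => ?_⟩
  obtain ⟨φ, ⟨g, hg, hg2⟩, hS⟩ := h𝒯
  choose S hS1 hS2 using hS
  have htr : ∀ (T : ℕ) (b : β) (g : MvPowerSeries σ k), ∃ g' : MvPolynomial {i // blk i = b} k,
      InBlock blk b g →
        rename Subtype.val g' = (MvPowerSeries.truncTotal T g : MvPolynomial σ k) := by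
    intro T b g
    by_cases h : InBlock blk b g
    · obtain ⟨g', hg'⟩ := trunc_block blk b g h T
      exact ⟨g', fun _ => hg'⟩
    · exact ⟨0, fun h' => absurd h' h⟩
  choose tr htr using htr
  have hlow : ∀ (T : ℕ) (b : β) (g : MvPowerSeries σ k), InBlock blk b g →
      Low T (g - ((rename Subtype.val (tr T b g) : MvPolynomial σ k) : MvPowerSeries σ k)) := by
    intro T b g h
    rw [htr T b g h]
    exact low_sub_trunc T g
  refine FormBdd_core (PolySplit (k := k) blk) lam hlam ℓ hℓ a ha φ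
    (Fin.cons {∑ b, g b} fun j => (fun f : β → MvPowerSeries σ k => ∏ b, f b) '' S j)
    ?_
    (fun T => Fin.cons {∑ b, rename Subtype.val (tr T b (g b))}
      fun j => bprod blk '' ((fun (f : β → MvPowerSeries σ k) b => tr T b (f b)) '' S j))
    ?_ ?_
  · intro j
    refine Fin.cases ?_ (fun j => ?_) j
    · rw [Fin.cons_zero, Set.image_singleton]
      exact hg2
    · rw [Fin.cons_succ, Set.image_image]
      exact hS2 j
  · intro T j
    refine Fin.cases ?_ (fun j => ?_) j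
    · rw [Fin.cons_zero, Fin.cons_zero]
      have h1 : Low T (∑ b, g b - ((∑ b, rename Subtype.val (tr T b (g b)) :
          MvPolynomial σ k) : MvPowerSeries σ k)) := by
        have h2 := low_sum T g
          (fun b => ((rename Subtype.val (tr T b (g b)) : MvPolynomial σ k) :
            MvPowerSeries σ k)) fun b => hlow T b (g b) (hg b)
        have h3 : ((∑ b, rename Subtype.val (tr T b (g b)) : MvPolynomial σ k) :
            MvPowerSeries σ k) = ∑ b, ((rename Subtype.val (tr T b (g b)) :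
              MvPolynomial σ k) : MvPowerSeries σ k) :=
          map_sum (MvPolynomial.coeToMvPowerSeries.ringHom (σ := σ) (R := k)) _ _
        rw [h3]
        exact h2
      exact ⟨fun x hx => ⟨_, rfl, by rw [Set.mem_singleton_iff.1 hx]; exact h1⟩,
        fun x hx => ⟨_, rfl, by rw [Set.mem_singleton_iff.1 hx]; exact h1⟩⟩
    · rw [Fin.cons_succ, Fin.cons_succ]
      have h1 : ∀ f ∈ S j, Low T ((∏ b, f b) - ((bprod blk (fun b => tr T b (f b)) :
          MvPolynomial σ k) : MvPowerSeries σ k)) := by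
        intro f hf
        have h2 := low_prod T f
          (fun b => ((rename Subtype.val (tr T b (f b)) : MvPolynomial σ k) :
            MvPowerSeries σ k)) fun b => hlow T b (f b) (hS1 j f hf b)
        have h3 : ((bprod blk (fun b => tr T b (f b)) : MvPolynomial σ k) :
            MvPowerSeries σ k) = ∏ b, ((rename Subtype.val (tr T b (f b)) :
              MvPolynomial σ k) : MvPowerSeries σ k) :=
          map_prod (MvPolynomial.coeToMvPowerSeries.ringHom (σ := σ) (R := k)) _ _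
        rw [h3]
        exact h2
      constructor
      · rintro _ ⟨f, hf, rfl⟩
        exact ⟨_, ⟨_, ⟨f, hf, rfl⟩, rfl⟩, h1 f hf⟩
      · rintro _ ⟨_, ⟨f, hf, rfl⟩, rfl⟩
        exact ⟨_, ⟨f, hf, rfl⟩, h1 f hf⟩
  · intro T
    refine ⟨⟨fun b => tr T b (g b), rfl⟩, fun j => ?_⟩
    exact ⟨(fun (f : β → MvPowerSeries σ k) b => tr T b (f b)) '' S j,
      fun _ _ _ => Set.mem_univ _, rfl⟩

theorem split_bdd [CharZero k] (n : ℕ) (hn : 0 < n) {r : ℕ} (lam : Fin (r + 1) → ℝ)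
    (hlam : ∀ j, 0 ≤ lam j)
    (h : ∀ blk : Fin n → Fin n, (∀ b, Fintype.card {i // blk i = b} ≤ 2) →
      BddT (PolySplit (k := k) (r := r) blk) lam) :
    BddT (IsSplit (k := k) (n := n) (r := r)) lam := by
  have hne : Nonempty (Fin n) := ⟨⟨0, hn⟩⟩
  have h1 : ∀ blk : Fin n → Fin n, ∃ ℓ : ℕ, (∀ b, Fintype.card {i // blk i = b} ≤ 2) →
      ∀ a : Fin (r + 1) → Ideal (MvPolynomial (Fin n) k), (∀ j, a j ≠ ⊥) →
      (∃ φ : MvPowerSeries (Fin n) k ≃ₐ[k] MvPowerSeries (Fin n) k,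
        FormalBlockSum blk φ (a 0) ∧ ∀ j : Fin r, FormalBlockIdeal blk φ (a j.succ)) →
      ∃ E : DivisorOver k (Fin n), E.CenterZero ∧ E.logDisc ≤ ((ℓ : ℝ) : EReal) ∧
        (E.aDisc lam a < 0 ∨
          ∀ E' : DivisorOver k (Fin n), E'.CenterZero → E.aDisc lam a ≤ E'.aDisc lam a) := by
    intro blk
    by_cases hb : ∀ b, Fintype.card {i // blk i = b} ≤ 2
    · obtain ⟨ℓ, hℓ⟩ := form_bdd blk lam hlam (h blk hb)
      exact ⟨ℓ, fun _ => hℓ⟩
    · exact ⟨0, fun hb' => absurd hb' hb⟩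
  choose ℓ hℓ using h1
  refine ⟨∑ blk, ℓ blk, fun a ha h𝒯 => ?_⟩
  obtain ⟨blk, φ, hb, h2, h3⟩ := h𝒯
  obtain ⟨E, hE, hEl, hE2⟩ := hℓ blk hb a ha ⟨φ, h2, h3⟩
  refine ⟨E, hE, hEl.trans ?_, hE2⟩
  have h4 : ℓ blk ≤ ∑ blk, ℓ blk :=
    Finset.single_le_sum (f := fun blk => ℓ blk) (fun i _ => Nat.zero_le _) (Finset.mem_univ blk)
  exact_mod_cast h4

end MLD
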