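import Pool.Agent.MLD.Core
import Pool.Agent.MLD.CombS
import Pool.Agent.MLD.Blk2
import Pool.Agent.MLD.FormBdd

/-!
Boundedness for block ideals together with one factor generated by a sum of polynomials in the
single blocks.
-/

open MvPolynomial Filter

namespace MLD

universe u

variable {k : Type u} [Field k] {σ : Type} [Fintype σ] [DecidableEq σ]
  {β : Type} [Fintype β] [DecidableEq β] (blk : σ → β)

omit [DecidableEq σ] in
theorem toFF_ne {G : MvPolynomial σ k} (hG : G ≠ 0) : toFF k σ G ≠ 0 := by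
  intro h0
  apply hG
  have h2 : (algebraMap (MvPolynomial σ k) (FF k σ)) G = 0 := h0
  exact (map_eq_zero_iff _ (IsFractionRing.injective _ _)).mp h2

omit [DecidableEq σ] in
theorem aeval_xx (G : MvPolynomial σ k) : aeval (fun i => xx k i) G = toFF k σ G := by
  have : (aeval (fun i => xx k i) : _ →ₐ[k] FF k σ) = toFF k σ := by
    apply MvPolynomial.algHom_ext
    intro c
    rw [aeval_X]
    rfl
  rw [this]

/-- estimates from strongly dominating types -/
theorem dom_divS [CharZero k] (E : DivisorOver k σ) (hE : E.CenterZero) {Λ : Type}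
    {ι : β → Type} (τ : ∀ b, ι b → LinType (Option Λ))
    (T : ∀ b, Option Λ → MvPolynomial {i // blk i = b} k)
    (h : ∀ b, DomS (τ b) (T b) 1) (hT : ∀ b l, T b l ≠ 0) :
    ∃ (t : ∀ b, ι b) (θ : ∀ b, Fin (τ b (t b)).q → ℕ), (∀ b, (τ b (t b)).lo ≤ θ b) ∧
      (((∑ b, (τ b (t b)).aa (θ b) : ℕ) : ℝ) : EReal) ≤ E.logDisc ∧
      (∀ l, E.ord (toFF k σ (bprod blk fun b => T b (some l))) ≤
        ((∑ b, (τ b (t b)).vv (some l) (θ b) : ℕ) : ℤ)) ∧
      ∀ (b₀ : β) (f : MvPolynomial σ k), f ≠ 0 →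
        0 < E.ord (toFF k σ (rename Subtype.val (T b₀ none))) →
        (∀ c : {i // blk i = b₀}, pderiv c.1 f = rename Subtype.val (pderiv c (T b₀ none))) →
        ((((∑ b, (τ b (t b)).aa (θ b) : ℕ) : ℝ) - ((τ b₀ (t b₀)).vv none (θ b₀) : ℝ) +
          (E.ord (toFF k σ f) : ℝ) : ℝ) : EReal) ≤ E.logDisc := by
  classical
  have hren : ∀ b (G : MvPolynomial {i // blk i = b} k),
      aeval (fun c : {i // blk i = b} => xx k c.1) G = toFF k σ (rename Subtype.val G) := by
    intro b G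
    have : (aeval (fun c : {i // blk i = b} => xx k c.1) : _ →ₐ[k] FF k σ) =
        (toFF k σ).comp (rename Subtype.val) := by
      apply MvPolynomial.algHom_ext
      intro c
      rw [aeval_X, AlgHom.comp_apply, rename_X]
      rfl
    rw [this]
    rfl
  have hreninj : ∀ b (G : MvPolynomial {i // blk i = b} k), G ≠ 0 →
      (rename Subtype.val G : MvPolynomial σ k) ≠ 0 := by
    intro b G hG h0
    exact hG (rename_injective _ Subtype.val_injective (by rw [h0, map_zero]))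
  have hcen : ∀ b, Cen E.toOrdFn (fun c : {i // blk i = b} => xx k c.1) := by
    intro b
    refine ⟨fun c => hE c.1, fun G hG => ?_⟩
    rw [hren]
    exact toFF_ne (hreninj b _ hG)
  have h' := fun b => h b (FF k σ) E.toOrdFn _ (hcen b) none
  choose t θ hlo hD1 hD2 using h'
  have hD1' := hD1
  choose g P hg hP hD hA hV using hD1
  refine ⟨t, θ, hlo, ?_, ?_, ?_⟩
  · have := comb_logDisc blk E (fun b => ((τ b (t b)).aa (θ b) : ℤ)) (fun b => by
      refine ⟨g b, P b, hg b, hP b, hD b, ?_⟩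
      have h1 := hA b
      rw [map_one, E.toOrdFn.ord_one, add_zero] at h1
      exact h1)
    push_cast at this ⊢
    exact this
  · intro l
    unfold bprod
    rw [map_prod, E.toOrdFn.ord_prod _ _ fun b _ => toFF_ne (hreninj b _ (hT b _))]
    push_cast
    refine Finset.sum_le_sum fun b _ => ?_
    rw [← hren]
    exact hV b (some l)
  · intro b₀ f hf hpos hder
    obtain ⟨c₀, g₂, P₂, hgc, hg2, hP2, hDg2, hA2⟩ := hD2 b₀ (by rw [hren]; exact hpos)
    obtain ⟨d, hd⟩ := exists_pderivFF k σ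
    -- the combined tuple
    let gt : ∀ b, {i // blk i = b} → FF k σ := fun b =>
      if hb : b = b₀ then hb ▸ g₂ else g b
    let Pt : ∀ b, Matrix {i // blk i = b} {i // blk i = b} (FF k σ) := fun b =>
      if hb : b = b₀ then hb ▸ P₂ else P b
    have hgt0 : gt b₀ = g₂ := by simp [gt]
    have hPt0 : Pt b₀ = P₂ := by simp [Pt]
    have hgt : ∀ b, b ≠ b₀ → gt b = g b := fun b hb => by simp [gt, hb]
    have hPt : ∀ b, b ≠ b₀ → Pt b = P b := fun b hb => by simp [Pt, hb]
    have hDt : ∀ D : Derivation k (FF k σ) (FF k σ), ∀ b, ∀ c : {i // blk i = b},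
        D (gt b c) = ∑ e, Pt b c e * D (xx k e.1) := by
      intro D b c
      by_cases hb : b = b₀
      · subst hb
        rw [hgt0, hPt0]
        exact hDg2 D c
      · rw [hgt b hb, hPt b hb]
        exact hD b D c
    have hrow : ∀ e : {i // blk i = b₀}, P₂ c₀ e = toFF k σ (pderiv e.1 f) := by
      intro e
      have h1 := hDg2 (d e.1) c₀
      rw [hgc, hren, hd, pderiv_rename Subtype.val_injective] at h1
      rw [hder e, h1, Finset.sum_eq_single e]
      · have h2 : d e.1 (xx k e.1) = 1 := by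
          rw [xx, hd, pderiv_X_self, map_one]
        rw [h2, mul_one]
      · intro e' _ hne
        have h2 : d e.1 (xx k e'.1) = 0 := by
          rw [xx, hd, pderiv_X_of_ne (fun h => hne (Subtype.ext h)), map_zero]
        rw [h2, mul_zero]
      · intro h
        exact absurd (Finset.mem_univ e) h
    have hmain := comb_logDiscS blk E gt Pt b₀ c₀ (toFF k σ f) (fun j => toFF k σ (pderiv j f))
      (by
        intro b c
        by_cases hb : b = b₀
        · subst hb
          rw [hgt0]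
          exact hg2 c
        · rw [hgt b hb]
          exact hg b c)
      (toFF_ne hf)
      (by
        intro b
        by_cases hb : b = b₀
        · subst hb
          rw [hPt0]
          exact hP2
        · rw [hPt b hb]
          exact hP b)
      (fun D b c _ => hDt D b c)
      (by
        intro D
        have h1 := der_aeval D (fun i => xx k i) f
        rw [aeval_xx] at h1
        rw [h1]
        refine Finset.sum_congr rfl fun j _ => ?_
        rw [aeval_xx])
      (by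
        intro e
        rw [hPt0]
        exact hrow e)
    refine le_trans ?_ hmain
    rw [EReal.coe_le_coe_iff]
    have hrest : ∀ b, b ≠ b₀ → ((τ b (t b)).aa (θ b) : ℤ) ≤
        ∑ c, E.ord (gt b c) - E.ord (Pt b).det := by
      intro b hb
      have h1 := hA b
      rw [map_one, E.toOrdFn.ord_one, add_zero] at h1
      rw [hgt b hb, hPt b hb]
      exact h1
    have hb0 : ((τ b₀ (t b₀)).aa (θ b₀) : ℤ) - ((τ b₀ (t b₀)).vv none (θ b₀) : ℤ) ≤
        - E.ord (gt b₀ c₀) + (∑ c, E.ord (gt b₀ c) - E.ord (Pt b₀).det) := by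
      rw [map_one, E.toOrdFn.ord_one, add_zero] at hA2
      rw [hgt0, hPt0]
      omega
    have hsum : ∑ b, ((τ b (t b)).aa (θ b) : ℤ) - ((τ b₀ (t b₀)).vv none (θ b₀) : ℤ) ≤
        - E.ord (gt b₀ c₀) + ∑ b, (∑ c, E.ord (gt b c) - E.ord (Pt b).det) := by
      rw [← Finset.add_sum_erase Finset.univ _ (Finset.mem_univ b₀),
        ← Finset.add_sum_erase Finset.univ (fun b => ∑ c, E.ord (gt b c) - E.ord (Pt b).det)
          (Finset.mem_univ b₀)]
      have h1 : ∑ b ∈ Finset.univ.erase b₀, ((τ b (t b)).aa (θ b) : ℤ) ≤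
          ∑ b ∈ Finset.univ.erase b₀, (∑ c, E.ord (gt b c) - E.ord (Pt b).det) :=
        Finset.sum_le_sum fun b hb => hrest b (Finset.ne_of_mem_erase hb)
      linarith
    have hfin : (((∑ b, (τ b (t b)).aa (θ b) : ℕ) : ℤ) - ((τ b₀ (t b₀)).vv none (θ b₀) : ℤ) +
        E.ord (toFF k σ f) : ℤ) ≤ E.ord (toFF k σ f) - E.ord (gt b₀ c₀) +
          ∑ b, (∑ c, E.ord (gt b c) - E.ord (Pt b).det) := by
      push_cast
      linarith
    exact_mod_cast hfin

/-- polynomials without constant term have positive order -/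
theorem pos_of_coeff_zero (E : DivisorOver k σ) (hE : E.CenterZero) (G : MvPolynomial σ k)
    (hG : G ≠ 0) (h0 : coeff 0 G = 0) : 0 < E.ord (toFF k σ G) := by
  have h1 : E.toOrdFn.ge 1 (aeval (fun i => xx k i) G) := by
    refine E.toOrdFn.ge_aeval (fun i => xx k i) (fun _ => 1) (fun i => Or.inr (hE i)) G 1
      fun m hm => ?_
    have hm0 : m ≠ 0 := fun h => hm (by rw [h]; exact h0)
    obtain ⟨j, hj⟩ := Finsupp.ne_iff.mp hm0
    have hj' : m j ≠ 0 := hj
    rw [Finsupp.sum]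
    have h2 : (m j : ℤ) * 1 ≤ ∑ a ∈ m.support, (m a : ℤ) * 1 :=
      Finset.single_le_sum (f := fun a => (m a : ℤ) * 1)
        (fun a _ => by positivity) (Finsupp.mem_support_iff.mpr hj')
    omega
  rw [aeval_xx] at h1
  rcases h1 with h1 | h1
  · exact absurd h1 (toFF_ne hG)
  · omega

theorem ordI_span_singleton (E : DivisorOver k σ) (f : MvPolynomial σ k) (hf : f ≠ 0) :
    ((E.ordI (Ideal.span {f}) : ℕ) : ℤ) = E.ord (toFF k σ f) := by
  have hne : Ideal.span ({f} : Set (MvPolynomial σ k)) ≠ ⊥ := by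
    rw [Ne, Ideal.span_singleton_eq_bot]; exact hf
  apply le_antisymm
  · exact ordI_le E (Ideal.mem_span_singleton_self f) hf
  · have h0 : 0 ≤ E.ord (toFF k σ f) := E.ord_poly' f hf
    obtain ⟨N, hN⟩ := Int.eq_ofNat_of_zero_le h0
    rw [hN]
    have := le_ordI_span E hne N (fun g hg _ => by
      rw [Set.mem_singleton_iff.mp hg, hN])
    exact_mod_cast this

/-- **Main theorem, second version.** -/
theorem core2 [CharZero k] [Nonempty σ] (hB : ∀ b, BlockOKS k {i // blk i = b}) {r : ℕ}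
    (lam : Fin (r + 1) → ℝ) (hlam : ∀ j, 0 ≤ lam j) (hlam1 : lam 0 ≤ 1) :
    BddT (PolySplit (k := k) (r := r) blk) lam := by
  classical
  -- the plain block theorem
  have hBplain : ∀ b, BlockOK k {i // blk i = b} Set.univ := by
    intro b Λ _ F _ hF
    obtain ⟨ι, hι, τ, hdom, hrlz⟩ := hB b (Option Λ)
      (fun o => match o with | none => fun _ => 1 | some l => F l) (fun o => by
        cases o with
        | none =>
          refine ⟨0, Eventually.of_forall fun i => ?_⟩
          show constantCoeff (1 : MvPolynomial {i // blk i = b} k) ≠ 0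
          simp
        | some l => exact hF l)
    refine ⟨ι, hι, fun t => ⟨(τ t).q, (τ t).lo, (τ t).A, fun l => (τ t).val (some l)⟩, ?_, ?_⟩
    · filter_upwards [hdom] with i hi K _ _ v x hx
      obtain ⟨t, θ, hlo, ⟨g, P, h1, h2, h3, h4, h5⟩, -⟩ := hi K v x hx none
      exact ⟨t, θ, hlo, g, P, h1, h2, h3, h4, fun l => h5 (some l)⟩
    · intro t θ hθ
      filter_upwards [hrlz t θ hθ] with i hi
      obtain ⟨p, w, h1, h2, h3, h4⟩ := hi
      exact ⟨p, w, h1, h2, h3, fun l => h4 (some l)⟩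
  obtain ⟨ℓ0, hℓ0⟩ := core blk (fun _ => Set.univ) hBplain (fun j : Fin r => lam j.succ)
    (fun j => hlam _)
  by_contra hcon
  unfold BddT at hcon
  push Not at hcon
  choose a ha0 haC hE using hcon
  have hgex : ∀ ℓ, ∃ g : ∀ b, MvPolynomial {i // blk i = b} k,
    a ℓ 0 = Ideal.span {∑ b, rename Subtype.val (g b)} := fun ℓ => (haC ℓ).1
  choose g hg using hgex
  have hSex : ∀ ℓ, ∀ j : Fin r, ClassOf blk (fun _ => Set.univ) (a ℓ j.succ) :=
    fun ℓ => (haC ℓ).2
  have hSex' : ∀ ℓ, ∀ j : Fin r, ∃ S : Set (∀ b, MvPolynomial {i // blk i = b} k),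
      a ℓ j.succ = Ideal.span (bprod blk '' S) := by
    intro ℓ j
    obtain ⟨S, -, hS⟩ := hSex ℓ j
    exact ⟨S, hS⟩
  choose S hS2 using hSex'
  let f : ℕ → MvPolynomial σ k := fun ℓ => ∑ b, rename Subtype.val (g ℓ b)
  have hf0 : ∀ ℓ, f ℓ ≠ 0 := by
    intro ℓ h0
    apply ha0 ℓ 0
    rw [hg ℓ]
    have : (∑ b, rename Subtype.val (g ℓ b) : MvPolynomial σ k) = 0 := h0
    rw [this, Ideal.span_singleton_eq_bot]
  have haf : ∀ ℓ, a ℓ 0 = Ideal.span {f ℓ} := fun ℓ => hg ℓ
  have hordf : ∀ ℓ (E : DivisorOver k σ), ((E.ordI (a ℓ 0) : ℕ) : ℤ) = E.ord (toFF k σ (f ℓ)) :=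
    fun ℓ E => by rw [haf ℓ]; exact ordI_span_singleton E _ (hf0 ℓ)
  -- the first factor is active
  have hact : ∀ ℓ, ℓ0 ≤ ℓ → 0 < lam 0 ∧ coeff 0 (f ℓ) = 0 := by
    intro ℓ hℓ
    by_contra hna
    -- the first factor does not matter
    have hzero : ∀ E : DivisorOver k σ, E.CenterZero → lam 0 * (E.ordI (a ℓ 0) : ℝ) = 0 := by
      intro E hEc
      rcases (hlam 0).eq_or_lt with h | h
      · rw [← h, zero_mul]
      · have h1 : coeff 0 (f ℓ) ≠ 0 := fun h2 => hna ⟨h, h2⟩
        have h2 := E.toOrdFn.ord_aeval_of_coeff_zero (fun i => xx k i) (fun i => Or.inr (hEc i))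
          (f ℓ) h1
        rw [aeval_xx] at h2
        have h3 := hordf ℓ E
        rw [h2.2] at h3
        have h4 : E.ordI (a ℓ 0) = 0 := by exact_mod_cast h3
        rw [h4]; simp
    have haD : ∀ E : DivisorOver k σ, E.CenterZero →
        E.aDisc lam (a ℓ) = E.aDisc (fun j : Fin r => lam j.succ) (fun j => a ℓ j.succ) := by
      intro E hEc
      unfold DivisorOver.aDisc
      rw [Fin.sum_univ_succ, hzero E hEc, zero_add]
    obtain ⟨E, hEc, hlog, hor⟩ := hℓ0 (fun j => a ℓ j.succ) (fun j => ha0 ℓ _)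
      (fun j => hSex ℓ j)
    obtain ⟨h1, E', hE'c, h2⟩ := hE ℓ E hEc (hlog.trans (by exact_mod_cast hℓ))
    rcases hor with h3 | h3
    · rw [haD E hEc] at h1
      exact absurd h3 (not_lt.mpr h1)
    · have h4 := h3 E' hE'c
      rw [haD E hEc, haD E' hE'c] at h2
      exact absurd h2 (not_lt.mpr h4)
  have hlam0 : 0 < lam 0 := (hact ℓ0 le_rfl).1
  have hge : ∀ A : ℕ, ∀ᶠ ℓ in UU, A ≤ ℓ := fun A => by
    have h1 : ∀ᶠ ℓ in (Filter.cofinite : Filter ℕ), A ≤ ℓ := by
      rw [Nat.cofinite_eq_atTop]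
      exact eventually_ge_atTop A
    exact h1.filter_mono (hyperfilter_le_cofinite)
  have hfc : ∀ᶠ ℓ in UU, coeff 0 (f ℓ) = 0 := (hge ℓ0).mono fun ℓ hℓ => (hact ℓ hℓ).2
  -- the summands without constant terms
  let gg : ∀ b, ℕ → MvPolynomial {i // blk i = b} k := fun b ℓ => g ℓ b - C (coeff 0 (g ℓ b))
  have hgg0 : ∀ b ℓ, coeff 0 (gg b ℓ) = 0 := by
    intro b ℓ
    have h1 : ∀ G : MvPolynomial {i // blk i = b} k, coeff 0 G = constantCoeff G := fun _ => rfl
    show coeff 0 (g ℓ b - C (coeff 0 (g ℓ b))) = 0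
    rw [h1, map_sub, constantCoeff_C, h1, sub_self]
  have hfgg : ∀ᶠ ℓ in UU, f ℓ = ∑ b, rename Subtype.val (gg b ℓ) := by
    filter_upwards [hfc] with ℓ hℓ
    have h1 : ∀ G : MvPolynomial σ k, coeff 0 G = constantCoeff G := fun _ => rfl
    have h2 : ∀ b, (rename Subtype.val (gg b ℓ) : MvPolynomial σ k) =
        rename Subtype.val (g ℓ b) - C (coeff 0 (g ℓ b)) := by
      intro b
      show rename Subtype.val (g ℓ b - C (coeff 0 (g ℓ b))) = _
      rw [map_sub, rename_C]
    rw [Finset.sum_congr rfl fun b _ => h2 b, Finset.sum_sub_distrib, ← map_sum C]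
    have h3 : ∑ b, coeff 0 (g ℓ b) = 0 := by
      rw [← hℓ, h1]
      show _ = constantCoeff (∑ b, rename Subtype.val (g ℓ b))
      rw [map_sum]
      refine Finset.sum_congr rfl fun b _ => ?_
      rw [constantCoeff_rename]
      rfl
    rw [h3, C_0, sub_zero]
  have hne : ∀ ℓ j, (bprod blk '' S ℓ j).Nonempty := by
    intro ℓ j
    rw [Set.nonempty_iff_ne_empty]
    intro h0
    apply ha0 ℓ j.succ
    rw [hS2, h0, Ideal.span_empty]
  have hspan : ∀ ℓ j, Ideal.span (bprod blk '' S ℓ j) ≠ ⊥ := by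
    intro ℓ j
    rw [← hS2]
    exact ha0 ℓ _
  have hnoeth := fun j => noeth_ev (fun ℓ => bprod blk '' S ℓ j) (fun ℓ => hne ℓ j)
  choose N p hp1 hp2 hp3 using hnoeth
  -- the reference divisor
  obtain ⟨E0, g0, A0, hg0, hE0, hlog0, -, hord0⟩ := exists_divisor (k := k) (σ := σ) X
    (fun _ => 1) bir_X wo_X_one (by rw [jacP_X]; exact one_ne_zero)
  have hbound : ∀ (j : Fin (r + 1)), 0 < lam j → ∀ n0 : ℕ, (A0 : ℝ) / lam j < n0 →
      ∀ ℓ, A0 ≤ ℓ → E0.ordI (a ℓ j) < n0 := by
    intro j hj n0 hn0 ℓ hℓ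
    have hlogℓ : E0.logDisc ≤ ((ℓ : ℝ) : EReal) := hlog0.trans (by exact_mod_cast hℓ)
    obtain ⟨hpos, -⟩ := hE ℓ E0 hE0 hlogℓ
    have h1 := hpos.trans (aDisc_le E0 lam hlam (a ℓ) A0 hlog0 (fun j => (E0.ordI (a ℓ j) : ℝ))
      (fun _ _ => le_rfl))
    have h2 : 0 ≤ (A0 : ℝ) - ∑ j, lam j * (E0.ordI (a ℓ j) : ℝ) := by exact_mod_cast h1
    have h3 : lam j * (E0.ordI (a ℓ j) : ℝ) ≤ ∑ j, lam j * (E0.ordI (a ℓ j) : ℝ) :=
      Finset.single_le_sum (f := fun j => lam j * (E0.ordI (a ℓ j) : ℝ))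
        (fun i _ => mul_nonneg (hlam i) (Nat.cast_nonneg _)) (Finset.mem_univ j)
    have h4 : (E0.ordI (a ℓ j) : ℝ) < n0 := by
      refine lt_of_le_of_lt ?_ hn0
      rw [le_div_iff₀ hj]
      linarith
    exact_mod_cast h4
  have hlow0 : ∀ n0 : ℕ, ∀ f : MvPolynomial σ k, f ≠ 0 →
      (∀ m : σ →₀ ℕ, m.degree < g0 * n0 → coeff m f = 0) → (n0 : ℤ) ≤ E0.ord (toFF k σ f) := by
    intro n0 f hf h7
    have h8 := le_wo_aeval (fun _ : σ => 1) X wo_X_one (g0 * n0) f h7
    obtain ⟨m, hm1, hm2⟩ := hord0 f hf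
    rw [hm2] at h8
    rw [hm1]
    have h9 : g0 * n0 ≤ g0 * m := by exact_mod_cast h8
    exact_mod_cast Nat.le_of_mul_le_mul_left h9 (by omega)
  -- the limits are not zero
  have hN : ∀ j : Fin r, 0 < lam j.succ → 0 < N j := by
    intro j hj
    by_contra hN0
    have hN0 : N j = 0 := by omega
    obtain ⟨n0, hn0⟩ := exists_nat_gt ((A0 : ℝ) / lam j.succ)
    refine core_ev_false ?_
    filter_upwards [hge A0, hp3 j (g0 * n0)] with ℓ hℓ hgen
    have h5 := hbound j.succ hj n0 hn0 ℓ hℓ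
    have h6 : n0 ≤ E0.ordI (a ℓ j.succ) := by
      rw [hS2]
      refine le_ordI_span E0 (hspan ℓ j) n0 fun f hf hf0 => ?_
      obtain ⟨h, hh⟩ := hgen f hf
      refine hlow0 n0 f hf0 ?_
      intro m hm
      have h8 := hh m hm
      have h9 : ∑ l, h l * p j l ℓ = 0 := by
        apply Finset.sum_eq_zero
        intro l _
        exact absurd l.2 (by omega)
      rwa [h9, sub_zero] at h8
    omega
  have hfinm : ∀ n : ℕ, {m : σ →₀ ℕ | m.degree < n}.Finite := by
    intro n
    have := Set.Finite.of_finite_image (s := {m : σ →₀ ℕ | m.degree < n})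
      (f := fun m => (fun i => m i : σ → ℕ)) ?_ ?_
    · exact this
    · refine (Set.Finite.pi' (t := fun _ : σ => Set.Iio n) fun _ => Set.finite_Iio _).subset ?_
      rintro f ⟨m, hm, rfl⟩ i
      exact lt_of_le_of_lt (Finsupp.le_degree i m) hm
    · intro a _ b _ hab
      exact Finsupp.ext fun i => congrFun hab i
  have hfL : LNZ f := by
    by_contra hnL
    obtain ⟨n0, hn0⟩ := exists_nat_gt ((A0 : ℝ) / lam 0)
    refine core_ev_false ?_
    have hvan : ∀ m : σ →₀ ℕ, ∀ᶠ ℓ in UU, coeff m (f ℓ) = 0 := by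
      intro m
      by_contra h1
      apply hnL
      exact ⟨m, Ultrafilter.eventually_not.mpr h1⟩
    have hvan2 : ∀ᶠ ℓ in UU, ∀ m ∈ {m : σ →₀ ℕ | m.degree < g0 * n0}, coeff m (f ℓ) = 0 :=
      (Filter.eventually_all_finite (hfinm _)).mpr fun m _ => hvan m
    filter_upwards [hge A0, hvan2] with ℓ hℓ hv
    have h5 := hbound 0 hlam0 n0 hn0 ℓ hℓ
    have h6 := hlow0 n0 (f ℓ) (hf0 ℓ) (fun m hm => hv m hm)
    rw [← hordf ℓ E0] at h6
    have h7 : n0 ≤ E0.ordI (a ℓ 0) := by exact_mod_cast h6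
    omega
  -- some summand has a nonzero limit
  have hB1 : ∃ b, LNZ (gg b) := by
    obtain ⟨m, hm⟩ := hfL
    have h1 : ∀ᶠ ℓ in UU, ∃ b, coeff m (rename Subtype.val (gg b ℓ) : MvPolynomial σ k) ≠ 0 := by
      filter_upwards [hm, hfgg] with ℓ h1 h2
      by_contra h3
      push Not at h3
      apply h1
      rw [h2, coeff_sum]
      exact Finset.sum_eq_zero fun b _ => h3 b
    obtain ⟨b, hb⟩ := Ultrafilter.eventually_exists_iff.mp h1
    exact ⟨b, LNZ_of_rename Subtype.val Subtype.val_injective ⟨m, hb⟩⟩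
  -- factors
  have hp1' : ∀ j l i, ∃ G, G ∈ S i j ∧ bprod blk G = p j l i := fun j l i => hp1 j l i
  choose G hG1 hG2 using hp1'
  let Λ : Type := Σ j : Fin r, Fin (N j)
  let T : ∀ b, Option Λ → ℕ → MvPolynomial {i // blk i = b} k := fun b o ℓ =>
    match o with
    | none => if LNZ (gg b) then gg b ℓ else 1
    | some l => G l.1 l.2 ℓ b
  have hTprod : ∀ l ℓ, bprod blk (fun b => T b (some l) ℓ) = p l.1 l.2 ℓ :=
    fun l ℓ => hG2 l.1 l.2 ℓ
  have hTnone : ∀ b, LNZ (gg b) → T b none = gg b := by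
    intro b hb
    funext ℓ
    show (if LNZ (gg b) then gg b ℓ else 1) = _
    rw [if_pos hb]
  have hTL : ∀ b o, LNZ (T b o) := by
    intro b o
    cases o with
    | none =>
      by_cases hb : LNZ (gg b)
      · rw [hTnone b hb]; exact hb
      · refine ⟨0, Eventually.of_forall fun i => ?_⟩
        show coeff 0 (if LNZ (gg b) then gg b i else 1) ≠ 0
        rw [if_neg hb]
        show constantCoeff (1 : MvPolynomial {i // blk i = b} k) ≠ 0
        simp
    | some l =>
      refine LNZ_of_rename (σ := {i // blk i = b}) (τ := σ) Subtype.val Subtype.val_injective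
        (F := T b (some l)) ?_
      refine LNZ_of_mul (G := fun ℓ => ∏ b' ∈ Finset.univ.erase b,
        rename Subtype.val (T b' (some l) ℓ)) ?_
      have : (fun ℓ => (rename Subtype.val (T b (some l) ℓ) : MvPolynomial σ k) *
          ∏ b' ∈ Finset.univ.erase b, rename Subtype.val (T b' (some l) ℓ)) = p l.1 l.2 := by
        funext ℓ
        rw [← hTprod l ℓ, bprod, ← Finset.mul_prod_erase Finset.univ
          (fun b => (rename Subtype.val (T b (some l) ℓ) : MvPolynomial σ k)) (Finset.mem_univ b)]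
      rw [this]
      exact hp2 l.1 l.2
  have htypes := fun b => hB b (Option Λ) (T b) (hTL b)
  choose ι hι τ hdom hrlz using htypes
  -- the linear data
  let Jt : Type := {j : Fin r // 0 < lam j.succ}
  let B1 : Type := {b // LNZ (gg b)}
  have hB1ne : Nonempty B1 := by
    obtain ⟨b, hb⟩ := hB1
    exact ⟨⟨b, hb⟩⟩
  have hNe : ∀ j : Jt, Nonempty (Fin (N j.1)) := fun j => ⟨⟨0, hN j.1 j.2⟩⟩
  let LL : Option Jt → Type := fun o => match o with
    | none => B1
    | some j => Fin (N j.1)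
  have hLLf : ∀ o, Fintype (LL o) := fun o => match o with
    | none => inferInstanceAs (Fintype B1)
    | some j => inferInstanceAs (Fintype (Fin (N j.1)))
  have hLLn : ∀ o, Nonempty (LL o) := fun o => match o with
    | none => hB1ne
    | some j => hNe j
  let tup : Type := ∀ b, ι b
  let lo : ∀ t : tup, (Σ b, Fin (τ b (t b)).q) → ℕ := fun t c => (τ c.1 (t c.1)).lo c.2
  let AA : ∀ t : tup, (Σ b, Fin (τ b (t b)).q) → ℕ := fun t c => (τ c.1 (t c.1)).A c.2
  let vl : ∀ t : tup, ∀ o : Option Jt, LL o → (Σ b, Fin (τ b (t b)).q) → ℕ :=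
    fun t o => match o with
    | none => fun (b : B1) c => if c.1 = b.1 then (τ c.1 (t c.1)).val none c.2 else 0
    | some j => fun (l : Fin (N j.1)) c => (τ c.1 (t c.1)).val (some ⟨j.1, l⟩) c.2
  let μ : ∀ t : tup, ((Σ b, Fin (τ b (t b)).q) → ℕ) → Option Jt → ℕ := fun t θ o =>
    Finset.univ.inf' Finset.univ_nonempty fun l : LL o => ∑ c, vl t o l c * θ c
  have hμle : ∀ t θ o (l : LL o), μ t θ o ≤ ∑ c, vl t o l c * θ c :=
    fun t θ o l => Finset.inf'_le _ (Finset.mem_univ l)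
  have hμge : ∀ t θ o (n : ℕ), (∀ l : LL o, n ≤ ∑ c, vl t o l c * θ c) → n ≤ μ t θ o :=
    fun t θ o n h => Finset.le_inf' _ _ fun l _ => h l
  have hμatt : ∀ t θ o, ∃ l : LL o, μ t θ o = ∑ c, vl t o l c * θ c := by
    intro t θ o
    obtain ⟨l, -, hl⟩ := Finset.exists_mem_eq_inf' (Finset.univ_nonempty (α := LL o))
      (fun l : LL o => ∑ c, vl t o l c * θ c)
    exact ⟨l, hl⟩
  let lamO : Option Jt → ℝ := fun o => match o with
    | none => lam 0
    | some j => lam j.1.succ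
  let φ : ∀ t : tup, ((Σ b, Fin (τ b (t b)).q) → ℕ) → ℝ := fun t θ =>
    ((∑ c, AA t c * θ c : ℕ) : ℝ) - ∑ o : Option Jt, lamO o * (μ t θ o : ℝ)
  have hAA : ∀ (t : tup) (θ : (Σ b, Fin (τ b (t b)).q) → ℕ),
      ∑ c, AA t c * θ c = ∑ b, (τ b (t b)).aa (fun c => θ ⟨b, c⟩) := by
    intro t θ
    rw [Fintype.sum_sigma]
    rfl
  have hvl : ∀ (t : tup) (θ : (Σ b, Fin (τ b (t b)).q) → ℕ) (j : Jt) (l : Fin (N j.1)),
      ∑ c, vl t (some j) l c * θ c =
        ∑ b, (τ b (t b)).vv (some ⟨j.1, l⟩) (fun c => θ ⟨b, c⟩) := by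
    intro t θ j l
    rw [Fintype.sum_sigma]
    rfl
  have hvln : ∀ (t : tup) (θ : (Σ b, Fin (τ b (t b)).q) → ℕ) (b : B1),
      ∑ c, vl t none b c * θ c = (τ b.1 (t b.1)).vv none (fun c => θ ⟨b.1, c⟩) := by
    intro t θ b
    rw [Fintype.sum_sigma, Finset.sum_eq_single b.1]
    · unfold LinType.vv
      refine Finset.sum_congr rfl fun c _ => ?_
      show (if b.1 = b.1 then (τ b.1 (t b.1)).val none c else 0) * _ = _
      rw [if_pos rfl]
    · intro b' _ hb'
      refine Finset.sum_eq_zero fun c _ => ?_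
      show (if b' = b.1 then (τ b' (t b')).val none c else 0) * _ = _
      rw [if_neg hb', zero_mul]
    · intro h
      exact absurd (Finset.mem_univ _) h
  -- conversion of sums
  let ext : (Option Jt → ℝ) → Fin (r + 1) → ℝ := fun F =>
    Fin.cons (F none) (fun j => if h : 0 < lam (Fin.succ j) then F (some ⟨j, h⟩) else 0)
  have hsumJ : ∀ F : Option Jt → ℝ, ∑ j, lam j * ext F j = ∑ o : Option Jt, lamO o * F o := by
    intro F
    rw [Fin.sum_univ_succ, Fintype.sum_option]
    congr 1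
    exact sum_pos_subtype (fun j : Fin r => lam j.succ) (fun j => F (some j))
  have hext : ∀ (F : Option Jt → ℝ) (Q : Fin (r + 1) → ℝ → Prop),
      Q 0 (F none) → (∀ j : Jt, Q j.1.succ (F (some j))) → ∀ j, 0 < lam j → Q j (ext F j) := by
    intro F Q h0 hs j
    refine Fin.cases (fun _ => ?_) (fun j hj => ?_) j
    · exact h0
    · have h1 : ext F j.succ = F (some ⟨j, hj⟩) := by
        show (if h : 0 < lam (Fin.succ j) then F (some ⟨j, h⟩) else 0) = _
        rw [dif_pos hj]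
      rw [h1]
      exact hs ⟨j, hj⟩
  -- summands with zero limit
  have hsmall : ∀ n : ℕ, ∀ᶠ ℓ in UU, ∀ b, ¬ LNZ (gg b) →
      ∀ m : {i // blk i = b} →₀ ℕ, m.degree < n → coeff m (gg b ℓ) = 0 := by
    intro n
    rw [Filter.eventually_all]
    intro b
    by_cases hb : LNZ (gg b)
    · exact Eventually.of_forall fun ℓ h => absurd hb h
    · have hfinb : {m : {i // blk i = b} →₀ ℕ | m.degree < n}.Finite := by
        have := Set.Finite.of_finite_image (s := {m : {i // blk i = b} →₀ ℕ | m.degree < n})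
          (f := fun m => (fun i => m i : {i // blk i = b} → ℕ)) ?_ ?_
        · exact this
        · refine (Set.Finite.pi' (t := fun _ : {i // blk i = b} => Set.Iio n)
            fun _ => Set.finite_Iio _).subset ?_
          rintro f ⟨m, hm, rfl⟩ i
          exact lt_of_le_of_lt (Finsupp.le_degree i m) hm
        · intro a _ b _ hab
          exact Finsupp.ext fun i => congrFun hab i
      have h1 : ∀ᶠ ℓ in UU, ∀ m ∈ {m : {i // blk i = b} →₀ ℕ | m.degree < n},
          coeff m (gg b ℓ) = 0 := by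
        refine (Filter.eventually_all_finite hfinb).mpr fun m _ => ?_
        by_contra h2
        exact hb ⟨m, Ultrafilter.eventually_not.mpr h2⟩
      exact h1.mono fun ℓ h _ m hm => h m hm
  -- upper estimate
  have hU : ∀ (t : tup) (θ : (Σ b, Fin (τ b (t b)).q) → ℕ), lo t ≤ θ →
      0 ≤ φ t θ ∧ ∀ᶠ ℓ in UU, ∃ E : DivisorOver k σ, E.CenterZero ∧
        E.logDisc ≤ (((∑ c, AA t c * θ c : ℕ) : ℝ) : EReal) ∧
        E.aDisc lam (a ℓ) ≤ ((φ t θ : ℝ) : EReal) := by
    intro t θ hθ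
    have hkey : ∀ᶠ ℓ in UU, ∃ E : DivisorOver k σ, E.CenterZero ∧
        E.logDisc ≤ (((∑ c, AA t c * θ c : ℕ) : ℝ) : EReal) ∧
        E.aDisc lam (a ℓ) ≤ ((φ t θ : ℝ) : EReal) ∧ 0 ≤ φ t θ := by
      have e1 := Filter.eventually_all.mpr fun b => hrlz b (t b) (fun c => θ ⟨b, c⟩)
        (fun c => hθ ⟨b, c⟩)
      have e2 := Filter.eventually_all.mpr fun j : Jt => hp3 j.1 (μ t θ (some j))
      filter_upwards [e1, e2, hge (∑ c, AA t c * θ c), hfgg, hsmall (μ t θ none)] with
        ℓ h1 h2 h3 hfg hsm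
      choose q w hq1 hq2 hq3 hq4 using h1
      obtain ⟨E, g', A1, hg', hEc, hlog, hgA, hord⟩ := real_div blk q w
        (fun b => (τ b (t b)).aa (fun c => θ ⟨b, c⟩)) hq1 hq2 (fun b => by
          have := hq3 b
          rw [map_one, wo_one, add_zero] at this
          exact this)
      rw [← hAA] at hgA
      have hP1 : ∀ i, 1 ≤ wo (fun i => w (blk i) ⟨i, rfl⟩)
          ((fun i => rename Subtype.val (q (blk i) ⟨i, rfl⟩) : σ → MvPolynomial σ k) i) := by
        intro i
        simp only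
        rw [comb_wo blk w (blk i)]
        exact hq2 _ _
      have hμ : ∀ j : Jt, μ t θ (some j) ≤ g' * E.ordI (a ℓ j.1.succ) := by
        intro j
        rw [hS2]
        refine ordI_ge_of_gen E g' _ _ hP1 hord _ (hspan ℓ j.1) (μ t θ (some j))
          (fun l => p j.1 l ℓ) ?_ (h2 j)
        intro l
        have h4 : p j.1 l ℓ = bprod blk (fun b => T b (some ⟨j.1, l⟩) ℓ) :=
          (hTprod ⟨j.1, l⟩ ℓ).symm
        rw [h4, bprod, map_prod, wo_prod]
        have h5 : ∀ b, wo (fun i => w (blk i) ⟨i, rfl⟩)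
            (aeval (fun i => rename Subtype.val (q (blk i) ⟨i, rfl⟩) : σ → MvPolynomial σ k)
              (rename Subtype.val (T b (some ⟨j.1, l⟩) ℓ))) =
            wo (w b) (aeval (q b) (T b (some ⟨j.1, l⟩) ℓ)) := by
          intro b
          rw [comb_aeval, comb_wo]
        rw [Finset.sum_congr rfl fun b _ => h5 b]
        calc ((μ t θ (some j) : ℕ) : ℕ∞) ≤ ((∑ c, vl t (some j) l c * θ c : ℕ) : ℕ∞) := by
              exact_mod_cast hμle t θ (some j) l
          _ = ∑ b, (((τ b (t b)).vv (some ⟨j.1, l⟩) (fun c => θ ⟨b, c⟩) : ℕ) : ℕ∞) := by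
              rw [hvl]; push_cast; rfl
          _ ≤ _ := Finset.sum_le_sum fun b _ => hq4 b (some ⟨j.1, l⟩)
      have hμ0 : μ t θ none ≤ g' * E.ordI (a ℓ 0) := by
        rw [haf]
        refine ordI_ge_of_gen E g' _ _ hP1 hord {f ℓ} (by
          rw [← haf]; exact ha0 ℓ 0) (μ t θ none) (fun _ : Fin 1 => f ℓ) ?_ ?_
        · intro _
          rw [hfg, map_sum]
          refine le_wo_sum _ _ _ fun b _ => ?_
          rw [comb_aeval, comb_wo]
          by_cases hb : LNZ (gg b)
          · have h5 : (((τ b (t b)).vv none (fun c => θ ⟨b, c⟩) : ℕ) : ℕ∞) ≤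
                wo (w b) (aeval (q b) (T b none ℓ)) := hq4 b none
            have h6 : T b none ℓ = gg b ℓ := congrFun (hTnone b hb) ℓ
            rw [h6] at h5
            refine le_trans ?_ h5
            rw [← hvln t θ ⟨b, hb⟩]
            exact_mod_cast hμle t θ none (⟨b, hb⟩ : B1)
          · exact le_wo_aeval (w b) (q b) (hq2 b) _ _ (hsm b hb)
        · intro q' hq'
          rw [Set.mem_singleton_iff.mp hq']
          refine ⟨fun _ => 1, fun m _ => ?_⟩
          simp
      have hg'' : (0 : ℝ) < g' := by exact_mod_cast hg'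
      have haD := aDisc_le E lam hlam (a ℓ) A1 hlog (ext fun o => (μ t θ o : ℝ) / g')
        (hext (fun o => (μ t θ o : ℝ) / g') (fun j x => x ≤ (E.ordI (a ℓ j) : ℝ)) (by
          rw [div_le_iff₀ hg'', mul_comm]
          exact_mod_cast hμ0) (fun j => by
          rw [div_le_iff₀ hg'', mul_comm]
          exact_mod_cast hμ j))
      rw [hsumJ (fun o => (μ t θ o : ℝ) / g')] at haD
      have hle : (A1 : ℝ) - ∑ o : Option Jt, lamO o * ((μ t θ o : ℝ) / g') ≤ φ t θ / g' := by
        rw [le_div_iff₀ hg'', sub_mul, Finset.sum_mul]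
        have h5 : (A1 : ℝ) * g' ≤ ((∑ c, AA t c * θ c : ℕ) : ℝ) := by
          rw [mul_comm]; exact_mod_cast hgA
        have h6 : ∑ o : Option Jt, lamO o * ((μ t θ o : ℝ) / g') * g' =
            ∑ o : Option Jt, lamO o * (μ t θ o : ℝ) := by
          refine Finset.sum_congr rfl fun j _ => ?_
          field_simp
        rw [h6]
        exact sub_le_sub_right h5 _
      have hA1 : (A1 : ℝ) ≤ ((∑ c, AA t c * θ c : ℕ) : ℝ) := by
        have : A1 ≤ g' * A1 := Nat.le_mul_of_pos_left _ (by omega)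
        exact_mod_cast this.trans hgA
      have hlog' : E.logDisc ≤ (((∑ c, AA t c * θ c : ℕ) : ℝ) : EReal) :=
        hlog.trans (by exact_mod_cast hA1)
      have hpos := (hE ℓ E hEc (hlog'.trans (by exact_mod_cast h3))).1
      have h7 : (0 : ℝ) ≤ φ t θ / g' := by
        have := hpos.trans (haD.trans (EReal.coe_le_coe_iff.mpr hle))
        exact_mod_cast this
      have h8 : 0 ≤ φ t θ := by
        have := mul_nonneg h7 hg''.le
        rwa [div_mul_cancel₀ _ hg''.ne'] at this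
      have h9 : φ t θ / g' ≤ φ t θ := div_le_self h8 (by exact_mod_cast hg')
      exact ⟨E, hEc, hlog', haD.trans (EReal.coe_le_coe_iff.mpr (hle.trans h9)), h8⟩
    obtain ⟨ℓ, E, -, -, -, h0⟩ := hkey.exists
    exact ⟨h0, hkey.mono fun ℓ ⟨E, h1, h2, h3, _⟩ => ⟨E, h1, h2, h3⟩⟩
  -- lower estimate
  have hL : ∀ᶠ ℓ in UU, ∀ E : DivisorOver k σ, E.CenterZero → ∃ (t : tup)
      (θ : (Σ b, Fin (τ b (t b)).q) → ℕ), lo t ≤ θ ∧
        ((φ t θ : ℝ) : EReal) ≤ E.aDisc lam (a ℓ) := by
    have e1 := Filter.eventually_all.mpr hdom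
    have e2 : ∀ᶠ ℓ in UU, ∀ b l, T b l ℓ ≠ 0 := by
      rw [Filter.eventually_all]
      intro b
      rw [Filter.eventually_all]
      intro l
      obtain ⟨m, hm⟩ := hTL b l
      exact hm.mono fun ℓ h h0 => h (by rw [h0, coeff_zero])
    filter_upwards [e1, e2, hfgg] with ℓ h1 h2 hfg E hEc
    obtain ⟨t, θ', hlo, hlog, hV, hstr⟩ := dom_divS blk E hEc τ (fun b l => T b l ℓ) h1 h2
    let θ : (Σ b, Fin (τ b (t b)).q) → ℕ := fun c => θ' c.1 c.2
    refine ⟨t, θ, fun c => hlo c.1 c.2, ?_⟩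
    have hmain : ∀ j : Jt, (E.ordI (a ℓ j.1.succ) : ℝ) ≤ (μ t θ (some j) : ℝ) := by
      rintro ⟨j, hj⟩
      have h4 : E.ordI (a ℓ j.succ) ≤ μ t θ (some ⟨j, hj⟩) := by
        refine hμge t θ (some ⟨j, hj⟩) _ fun l => ?_
        rw [hvl]
        have h5 := hV ⟨j, l⟩
        have h6 : bprod blk (fun b => T b (some ⟨j, l⟩) ℓ) = p j l ℓ := hTprod ⟨j, l⟩ ℓ
        rw [h6] at h5
        have h7 : p j l ℓ ∈ a ℓ j.succ := by
          rw [hS2, ← hG2 j l ℓ]
          exact Ideal.subset_span ⟨_, hG1 j l ℓ, rfl⟩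
        have h8 : p j l ℓ ≠ 0 := by
          rw [← h6, bprod, Finset.prod_ne_zero_iff]
          intro b _ h0
          exact h2 b (some ⟨j, l⟩)
            (rename_injective _ Subtype.val_injective (by rw [h0, map_zero]))
        have h9 := (ordI_le E h7 h8).trans h5
        exact_mod_cast h9
      exact_mod_cast h4
    have hAAθ : ∑ c, AA t c * θ c = ∑ b, (τ b (t b)).aa (θ' b) := hAA t θ
    -- the block attaining the minimum
    obtain ⟨bs, hbs⟩ := hμatt t θ none
    have hbs' : μ t θ none = (τ (bs : B1).1 (t (bs : B1).1)).vv none (θ' (bs : B1).1) := by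
      rw [hbs]
      exact hvln t θ bs
    have hTbs : T (bs : B1).1 none ℓ = gg (bs : B1).1 ℓ := congrFun (hTnone _ (bs : B1).2) ℓ
    have hggne : gg (bs : B1).1 ℓ ≠ 0 := by
      rw [← hTbs]; exact h2 _ none
    have hpos : 0 < E.ord (toFF k σ (rename Subtype.val (T (bs : B1).1 none ℓ))) := by
      rw [hTbs]
      refine pos_of_coeff_zero E hEc _ (fun h0 => hggne
        (rename_injective _ Subtype.val_injective (by rw [h0, map_zero]))) ?_
      have h3 : ∀ G : MvPolynomial σ k, coeff 0 G = constantCoeff G := fun _ => rfl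
      rw [h3, constantCoeff_rename]
      exact hgg0 _ ℓ
    have hstrong := hstr (bs : B1).1 (f ℓ) (hf0 ℓ) hpos (by
      intro c
      rw [hfg, map_sum, Finset.sum_eq_single (bs : B1).1]
      · rw [pderiv_rename Subtype.val_injective]
        show rename Subtype.val (pderiv c (gg (bs : B1).1 ℓ)) =
          rename Subtype.val (pderiv c (T (bs : B1).1 none ℓ))
        rw [hTbs]
      · intro b _ hb
        exact Comb_pderiv_ne blk b _ (fun h => hb (by rw [← h]; exact c.2))
      · intro h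
        exact absurd (Finset.mem_univ _) h)
    rcases le_or_gt (E.ordI (a ℓ 0)) (μ t θ none) with hcase | hcase
    · have h3 := le_aDisc E lam hlam (a ℓ) _ hlog (ext fun o => (μ t θ o : ℝ))
        (hext (fun o => (μ t θ o : ℝ)) (fun j x => (E.ordI (a ℓ j) : ℝ) ≤ x)
          (by exact_mod_cast hcase) hmain)
      rw [hsumJ (fun o => (μ t θ o : ℝ))] at h3
      refine le_trans ?_ h3
      rw [EReal.coe_le_coe_iff]
      show ((∑ c, AA t c * θ c : ℕ) : ℝ) - _ ≤ _
      rw [hAAθ]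
    · let F : Option Jt → ℝ := fun o => match o with
          | none => (E.ordI (a ℓ 0) : ℝ)
          | some j => (μ t θ (some j) : ℝ)
      have h3 := le_aDisc E lam hlam (a ℓ) _ hstrong (ext F)
        (hext F (fun j x => (E.ordI (a ℓ j) : ℝ) ≤ x) le_rfl hmain)
      rw [hsumJ F] at h3
      refine le_trans ?_ h3
      rw [EReal.coe_le_coe_iff]
      show ((∑ c, AA t c * θ c : ℕ) : ℝ) - ∑ o : Option Jt, lamO o * (μ t θ o : ℝ) ≤ _
      rw [hAAθ, Fintype.sum_option, Fintype.sum_option]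
      have h5 : (E.ord (toFF k σ (f ℓ)) : ℝ) = (E.ordI (a ℓ 0) : ℝ) := by
        have := hordf ℓ E
        exact_mod_cast this.symm
      have h6 : ((τ (bs : B1).1 (t (bs : B1).1)).vv none (θ' (bs : B1).1) : ℝ) =
          (μ t θ none : ℝ) := by
        rw [hbs']
      rw [h5, h6]
      have h7 : (μ t θ none : ℝ) < (E.ordI (a ℓ 0) : ℝ) := by exact_mod_cast hcase
      have h8 : 0 ≤ (1 - lam 0) * ((E.ordI (a ℓ 0) : ℝ) - (μ t θ none : ℝ)) :=
        mul_nonneg (by linarith) (by linarith)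
      show _ - (lam 0 * (μ t θ none : ℝ) + ∑ j : Jt, lam j.1.succ * (μ t θ (some j) : ℝ)) ≤
        _ - (lam 0 * (E.ordI (a ℓ 0) : ℝ) + ∑ j : Jt, lam j.1.succ * (μ t θ (some j) : ℝ))
      nlinarith
  -- the minimum
  have hmin : ∀ t : tup, ∃ θ₀, lo t ≤ θ₀ ∧ ∀ θ, lo t ≤ θ → φ t θ₀ ≤ φ t θ := fun t =>
    min_attained (lo t) (AA t) LL (vl t) lamO (φ t)
      (fun θ => rfl) (fun θ hθ => (hU t θ hθ).1)
  choose θ₀ hθ₀ hφmin using hmin
  have hfin : Finite tup := inferInstance
  have hnonempty : Nonempty tup := by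
    obtain ⟨ℓ, hℓ⟩ := hL.exists
    obtain ⟨t, -⟩ := hℓ E0 hE0
    exact ⟨t⟩
  obtain ⟨ts, hts⟩ := Finite.exists_min (fun t : tup => φ t (θ₀ t))
  have hend : ∀ᶠ _ℓ : ℕ in UU, False := by
    filter_upwards [(hU ts (θ₀ ts) (hθ₀ ts)).2, hL, hge (∑ c, AA ts c * θ₀ ts c)] with ℓ h1 h2 h3
    obtain ⟨E, hEc, hlog, haD⟩ := h1
    obtain ⟨-, E', hE'c, hlt⟩ := hE ℓ E hEc (hlog.trans (by exact_mod_cast h3))
    obtain ⟨t, θ, hlo, hle⟩ := h2 E' hE'c
    have h4 := (hle.trans_lt hlt).trans_le haD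
    have h5 : φ t θ < φ ts (θ₀ ts) := by exact_mod_cast h4
    have h6 := (hts t).trans (hφmin t θ hlo)
    linarith
  exact core_ev_false hend

end MLD
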