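import Pool.Agent.MLD.Blk

/-!
PIECE MLD-D: limits of sequences of polynomials along the ultrafilter.

PROOF. `K := (UU : Filter ℕ).Germ k` is a field (`Filter.Germ.instField`). For a sequence
`F : ℕ → MvPolynomial σ k` let `lim F : MvPowerSeries σ K` be the power series with coefficients
`coeff m (lim F) = ↑(fun i => coeff m (F i))`. It is a ring homomorphism
`(ℕ → MvPolynomial σ k) →+* MvPowerSeries σ K` (coefficients of products are finite sums over
`antidiagonal`). `LNZ F` iff `lim F ≠ 0` (ultrafilter). `MvPowerSeries σ K` is Noetherian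
(`MvPowerSeries.isNoetherianRing`, `σ` finite), so the ideal generated by all `lim q`, `q i ∈ S i`
for all `i`, is generated by finitely many `lim (p l)` (`Submodule.fg_span_iff...`/
`Ideal.exists_finset_subset_span`: a finite subset of the generating set generates); drop the ones
with `lim (p l) = 0`. For a given `q`: `lim q = ∑ H l * lim (p l)`, `H l : MvPowerSeries σ K`;
let `h l i` be a polynomial whose coefficients of degree `< n` represent those of `H l` at `i`
(`Quotient.out` of the germ, finitely many monomials of degree `< n`). Then all coefficients of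
`lim (q - ∑ h l * p l)` of degree `< n` vanish, i.e. vanish for almost all `i`; finitely many
monomials, so simultaneously for almost all `i`.
-/

open MvPolynomial Filter

namespace MLD

universe u

variable {k : Type u} [Field k]

/-- The field of germs of sequences along the ultrafilter. -/
private abbrev SeqK (k : Type u) [Field k] : Type u := Germ (UU : Filter ℕ) k

/-- The limit of a sequence of polynomials. -/
private noncomputable def SeqLim (σ : Type) (k : Type u) [Field k] :
    (ℕ → MvPolynomial σ k) →+* MvPowerSeries σ (SeqK k) where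
  toFun F := fun m => Germ.coeRingHom (UU : Filter ℕ) (fun i => coeff m (F i))
  map_zero' := by
    refine MvPowerSeries.ext fun m => ?_
    change Germ.coeRingHom (UU : Filter ℕ) (fun _ => coeff m (0 : MvPolynomial σ k)) = 0
    rw [show (fun _ : ℕ => coeff m (0 : MvPolynomial σ k)) = 0 from funext fun _ => coeff_zero m,
      map_zero]
  map_one' := by
    classical
    refine MvPowerSeries.ext fun m => ?_
    change Germ.coeRingHom (UU : Filter ℕ) (fun _ => coeff m (1 : MvPolynomial σ k)) = _
    rw [MvPowerSeries.coeff_one]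
    by_cases hm : m = 0
    · rw [if_pos hm, hm]
      rw [show (fun _ : ℕ => coeff 0 (1 : MvPolynomial σ k)) = 1 from
        funext fun _ => coeff_zero_one, map_one]
    · rw [if_neg hm]
      rw [show (fun _ : ℕ => coeff m (1 : MvPolynomial σ k)) = 0 from
        funext fun _ => by rw [coeff_one, if_neg (Ne.symm hm)]; rfl, map_zero]
  map_add' F G := by
    refine MvPowerSeries.ext fun m => ?_
    change Germ.coeRingHom (UU : Filter ℕ) (fun i => coeff m (F i + G i)) =
      Germ.coeRingHom (UU : Filter ℕ) (fun i => coeff m (F i)) +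
        Germ.coeRingHom (UU : Filter ℕ) (fun i => coeff m (G i))
    rw [← map_add]
    rfl
  map_mul' F G := by
    classical
    refine MvPowerSeries.ext fun m => ?_
    rw [MvPowerSeries.coeff_mul]
    change Germ.coeRingHom (UU : Filter ℕ) (fun i => coeff m (F i * G i)) =
      ∑ x ∈ Finset.HasAntidiagonal.antidiagonal m,
        Germ.coeRingHom (UU : Filter ℕ) (fun i => coeff x.1 (F i)) *
          Germ.coeRingHom (UU : Filter ℕ) (fun i => coeff x.2 (G i))
    rw [show (fun i => coeff m (F i * G i)) = ∑ x ∈ Finset.HasAntidiagonal.antidiagonal m,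
      ((fun i => coeff x.1 (F i)) * (fun i => coeff x.2 (G i)) : ℕ → k) from by
        funext i
        rw [coeff_mul, Finset.sum_apply]
        rfl]
    rw [map_sum]
    exact Finset.sum_congr rfl fun x _ => map_mul _ _ _

private theorem Seq_coeff {σ : Type} (F : ℕ → MvPolynomial σ k) (m : σ →₀ ℕ) :
    MvPowerSeries.coeff m (SeqLim σ k F) =
      ((fun i => coeff m (F i) : ℕ → k) : SeqK k) := rfl

private theorem Seq_coeff_eq_zero {σ : Type} (F : ℕ → MvPolynomial σ k) (m : σ →₀ ℕ) :
    MvPowerSeries.coeff m (SeqLim σ k F) = 0 ↔ ∀ᶠ i in UU, coeff m (F i) = 0 := by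
  rw [Seq_coeff]
  exact Germ.coe_eq

private theorem Seq_LNZ {σ : Type} (F : ℕ → MvPolynomial σ k) : LNZ F ↔ SeqLim σ k F ≠ 0 := by
  rw [Ne, MvPowerSeries.eq_zero_iff_forall_coeff_zero, not_forall]
  refine exists_congr fun m => ?_
  rw [Seq_coeff_eq_zero]
  exact Ultrafilter.eventually_not

private theorem Seq_trunc {σ : Type} [Finite σ] (H : MvPowerSeries σ (SeqK k)) (n : ℕ) :
    ∃ h : ℕ → MvPolynomial σ k, ∀ m : σ →₀ ℕ, m.degree < n →
      MvPowerSeries.coeff m (SeqLim σ k h) = MvPowerSeries.coeff m H := by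
  classical
  have hfin : {f : σ →₀ ℕ | f.degree < n}.Finite := Finsupp.finite_of_degree_lt n
  obtain ⟨g, hg⟩ : ∃ g : SeqK k → ℕ → k, ∀ x, ((g x : ℕ → k) : SeqK k) = x :=
    ⟨Quotient.out, Quotient.out_eq⟩
  refine ⟨fun i => ∑ m ∈ hfin.toFinset,
    monomial m (g (MvPowerSeries.coeff m H) i), fun m hm => ?_⟩
  rw [Seq_coeff]
  have h1 : (fun i => coeff m (∑ m' ∈ hfin.toFinset,
      monomial m' (g (MvPowerSeries.coeff m' H) i) : MvPolynomial σ k)) =
      g (MvPowerSeries.coeff m H) := by
    funext i
    rw [coeff_sum]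
    simp only [coeff_monomial]
    rw [Finset.sum_ite_eq', if_pos (hfin.mem_toFinset.2 hm)]
  rw [h1]
  exact hg _

theorem noeth_seq {σ : Type} [Finite σ] (S : ℕ → Set (MvPolynomial σ k))
    (hS : ∀ i, (S i).Nonempty) :
    ∃ (N : ℕ) (p : Fin N → ℕ → MvPolynomial σ k), (∀ l i, p l i ∈ S i) ∧ (∀ l, LNZ (p l)) ∧
      ∀ q : ℕ → MvPolynomial σ k, (∀ i, q i ∈ S i) → ∀ n : ℕ,
        ∃ h : Fin N → ℕ → MvPolynomial σ k, ∀ᶠ i in UU, ∀ m : σ →₀ ℕ, m.degree < n →
          coeff m (q i - ∑ l, h l i * p l i) = 0 := by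
  classical
  set A : Set (MvPowerSeries σ (SeqK k)) := SeqLim σ k '' {q | ∀ i, q i ∈ S i} with hA
  obtain ⟨s, hsA, hs⟩ := (Submodule.fg_span_iff_fg_span_finset_subset A).1
    (IsNoetherian.noetherian (Submodule.span (MvPowerSeries σ (SeqK k)) A))
  set s' := s.filter (fun x => x ≠ 0) with hs'
  have hspan : ∀ x, x ∈ A → x ∈ Ideal.span (s' : Set (MvPowerSeries σ (SeqK k))) := by
    intro x hx
    have h1 : x ∈ Submodule.span (MvPowerSeries σ (SeqK k)) A := Submodule.subset_span hx
    rw [hs] at h1
    have h2 : Submodule.span (MvPowerSeries σ (SeqK k)) (s : Set (MvPowerSeries σ (SeqK k))) ≤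
        Ideal.span (s' : Set (MvPowerSeries σ (SeqK k))) := by
      rw [Submodule.span_le]
      intro y hy
      by_cases hy0 : y = 0
      · rw [hy0]
        exact Submodule.zero_mem _
      · exact Ideal.subset_span (Finset.mem_coe.2 (Finset.mem_filter.2 ⟨hy, hy0⟩))
    exact h2 h1
  let e := s'.equivFin
  have hpre : ∀ l : Fin s'.card, ∃ q : ℕ → MvPolynomial σ k, (∀ i, q i ∈ S i) ∧
      SeqLim σ k q = (e.symm l : MvPowerSeries σ (SeqK k)) := by
    intro l
    have h1 : ((e.symm l : s') : MvPowerSeries σ (SeqK k)) ∈ s :=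
      (Finset.mem_filter.1 (e.symm l).2).1
    exact hsA h1
  choose p hp1 hp2 using hpre
  refine ⟨s'.card, p, hp1, fun l => ?_, fun q hq n => ?_⟩
  · rw [Seq_LNZ, hp2]
    exact (Finset.mem_filter.1 (e.symm l).2).2
  · have h1 := hspan _ ⟨q, hq, rfl⟩
    have h2 : (s' : Set (MvPowerSeries σ (SeqK k))) = Set.range fun l => SeqLim σ k (p l) := by
      ext x
      constructor
      · intro hx
        refine ⟨e ⟨x, hx⟩, ?_⟩
        simp only [hp2, Equiv.symm_apply_apply]
      · rintro ⟨l, rfl⟩
        simp only [hp2]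
        exact (e.symm l).2
    rw [h2, Ideal.mem_span_range_iff_exists_fun] at h1
    obtain ⟨H, hH⟩ := h1
    choose h hh using fun l => Seq_trunc (H l) n
    refine ⟨h, ?_⟩
    have hfin : {f : σ →₀ ℕ | f.degree < n}.Finite := Finsupp.finite_of_degree_lt n
    have key : ∀ m ∈ {f : σ →₀ ℕ | f.degree < n}, ∀ᶠ i in (UU : Filter ℕ),
        coeff m (q i - ∑ l, h l i * p l i) = 0 := by
      intro m hm
      have h3 : SeqLim σ k (fun i => q i - ∑ l, h l i * p l i) =
          SeqLim σ k q - ∑ l, SeqLim σ k (h l) * SeqLim σ k (p l) := by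
        rw [show (fun i => q i - ∑ l, h l i * p l i) = q - ∑ l, h l * p l from by
          funext i
          rw [Pi.sub_apply, Finset.sum_apply]
          rfl]
        rw [map_sub, map_sum]
        simp only [map_mul]
      refine (Seq_coeff_eq_zero _ m).1 ?_
      rw [h3, ← hH, ← Finset.sum_sub_distrib, map_sum]
      refine Finset.sum_eq_zero fun l _ => ?_
      rw [← sub_mul, MvPowerSeries.coeff_mul]
      refine Finset.sum_eq_zero fun x hx => ?_
      have h4 : x.1.degree < n := by
        rw [Finset.HasAntidiagonal.mem_antidiagonal] at hx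
        have h5 : x.1.degree ≤ m.degree := by
          rw [← hx, map_add]
          exact Nat.le_add_right _ _
        exact lt_of_le_of_lt h5 hm
      rw [map_sub, hh l x.1 h4, sub_self, zero_mul]
    exact (Filter.eventually_all_finite hfin).2 key

theorem LNZ_of_mul {σ : Type} {F G : ℕ → MvPolynomial σ k} (h : LNZ (fun i => F i * G i)) :
    LNZ F := by
  rw [Seq_LNZ] at h ⊢
  intro h1
  apply h
  have h2 : SeqLim σ k (fun i => F i * G i) = SeqLim σ k F * SeqLim σ k G :=
    map_mul (SeqLim σ k) F G
  rw [h2, h1, zero_mul]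

theorem LNZ_of_rename {σ τ : Type} (f : σ → τ) (hf : Function.Injective f)
    {F : ℕ → MvPolynomial σ k} (h : LNZ (fun i => rename f (F i))) : LNZ F := by
  obtain ⟨m, hm⟩ := h
  obtain ⟨i, hi⟩ := hm.exists
  obtain ⟨u, rfl, -⟩ := coeff_rename_ne_zero f (F i) m hi
  refine ⟨u, hm.mono fun j hj => ?_⟩
  rwa [coeff_rename_mapDomain f hf] at hj

/-- `LNZ` for the product of the two sequences -/
theorem LNZ_mul {σ : Type} {F G : ℕ → MvPolynomial σ k} (hF : LNZ F) (hG : LNZ G) :
    LNZ (fun i => F i * G i) := by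
  rw [Seq_LNZ] at hF hG ⊢
  have h2 : SeqLim σ k (fun i => F i * G i) = SeqLim σ k F * SeqLim σ k G :=
    map_mul (SeqLim σ k) F G
  rw [h2]
  exact mul_ne_zero hF hG

end MLD
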