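import Pool.Agent.MLD.ExDiv
import Pool.Agent.MLD.Comb
import Pool.Agent.MLD.CombB
import Pool.Agent.MLD.Seq
import Pool.Agent.MLD.IdOrd

/-!
Auxiliary statements for the main theorem: log discrepancies of realized and dominated divisors.
-/

open MvPolynomial Filter

namespace MLD

universe u

theorem core_ev_false (h : ∀ᶠ _i : ℕ in UU, False) : False := by
  obtain ⟨_, h⟩ := h.exists
  exact h

open Classical in
theorem sum_pos_subtype {r : ℕ} (lam : Fin r → ℝ) (f : {j : Fin r // 0 < lam j} → ℝ) :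
    ∑ j, lam j * (if h : 0 < lam j then f ⟨j, h⟩ else 0) =
      ∑ j : {j : Fin r // 0 < lam j}, lam j.1 * f j := by
  have h1 := Fintype.sum_subtype_add_sum_subtype (fun j => 0 < lam j)
    (fun j => lam j * (if h : 0 < lam j then f ⟨j, h⟩ else 0))
  rw [← h1]
  have h2 : ∑ i : {x // ¬ 0 < lam x}, lam i.1 * (if h : 0 < lam i.1 then f ⟨i.1, h⟩ else 0) = 0 := by
    refine Finset.sum_eq_zero fun i _ => ?_
    rw [dif_neg i.2, mul_zero]
  rw [h2, add_zero]
  refine Finset.sum_congr rfl fun j _ => ?_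
  rw [dif_pos j.2]

section ereal
variable {k : Type u} [Field k] {σ : Type} [Fintype σ] [DecidableEq σ] {r : ℕ}

theorem aDisc_le (E : DivisorOver k σ) (lam : Fin r → ℝ) (hlam : ∀ j, 0 ≤ lam j)
    (a : Fin r → Ideal (MvPolynomial σ k)) (A : ℝ) (hA : E.logDisc ≤ (A : EReal))
    (μ : Fin r → ℝ) (hμ : ∀ j, 0 < lam j → μ j ≤ (E.ordI (a j) : ℝ)) :
    E.aDisc lam a ≤ ((A - ∑ j, lam j * μ j : ℝ) : EReal) := by
  unfold DivisorOver.aDisc
  rw [EReal.coe_sub]
  refine EReal.sub_le_sub hA ?_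
  rw [EReal.coe_le_coe_iff]
  refine Finset.sum_le_sum fun j _ => ?_
  rcases (hlam j).eq_or_lt with h | h
  · rw [← h]; simp
  · exact mul_le_mul_of_nonneg_left (hμ j h) h.le

theorem le_aDisc (E : DivisorOver k σ) (lam : Fin r → ℝ) (hlam : ∀ j, 0 ≤ lam j)
    (a : Fin r → Ideal (MvPolynomial σ k)) (A : ℝ) (hA : (A : EReal) ≤ E.logDisc)
    (μ : Fin r → ℝ) (hμ : ∀ j, 0 < lam j → (E.ordI (a j) : ℝ) ≤ μ j) :
    ((A - ∑ j, lam j * μ j : ℝ) : EReal) ≤ E.aDisc lam a := by
  unfold DivisorOver.aDisc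
  rw [EReal.coe_sub]
  refine EReal.sub_le_sub hA ?_
  rw [EReal.coe_le_coe_iff]
  refine Finset.sum_le_sum fun j _ => ?_
  rcases (hlam j).eq_or_lt with h | h
  · rw [← h]; simp
  · exact mul_le_mul_of_nonneg_left (hμ j h) h.le

end ereal

section wos
variable {k : Type u} [Field k] {σ : Type}

theorem wo_zero (w : σ → ℕ) : wo w (0 : MvPolynomial σ k) = ⊤ := by
  unfold wo
  rw [MvPolynomial.coe_zero, MvPowerSeries.weightedOrder_zero]

theorem wo_one (w : σ → ℕ) : wo w (1 : MvPolynomial σ k) = 0 := by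
  have h := wo_mul w (1 : MvPolynomial σ k) 1
  rw [mul_one] at h
  have h2 : wo w (1 : MvPolynomial σ k) ≠ ⊤ := by
    intro h3
    unfold wo at h3
    rw [MvPowerSeries.weightedOrder_eq_top_iff] at h3
    rw [MvPolynomial.coe_one] at h3
    exact one_ne_zero h3
  obtain ⟨n, hn⟩ := ENat.ne_top_iff_exists.mp h2
  rw [← hn] at h ⊢
  have : n = n + n := by exact_mod_cast h
  have : n = 0 := by omega
  rw [this]; rfl

theorem le_wo_add (w : σ → ℕ) {n : ℕ∞} {f g : MvPolynomial σ k} (hf : n ≤ wo w f)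
    (hg : n ≤ wo w g) : n ≤ wo w (f + g) := by
  unfold wo at *
  rw [MvPolynomial.coe_add]
  exact (le_min hf hg).trans (MvPowerSeries.min_weightedOrder_le_add w)

theorem le_wo_sum (w : σ → ℕ) {n : ℕ∞} {ι : Type*} (s : Finset ι) (f : ι → MvPolynomial σ k)
    (hf : ∀ i ∈ s, n ≤ wo w (f i)) : n ≤ wo w (∑ i ∈ s, f i) := by
  classical
  induction s using Finset.induction_on with
  | empty => rw [Finset.sum_empty, wo_zero]; exact le_top
  | insert a s ha ih =>
    rw [Finset.sum_insert ha]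
    exact le_wo_add w (hf a (Finset.mem_insert_self a s))
      (ih fun i hi => hf i (Finset.mem_insert_of_mem hi))

theorem wo_prod (w : σ → ℕ) {ι : Type*} (s : Finset ι) (f : ι → MvPolynomial σ k) :
    wo w (∏ i ∈ s, f i) = ∑ i ∈ s, wo w (f i) := by
  classical
  induction s using Finset.induction_on with
  | empty => rw [Finset.prod_empty, Finset.sum_empty, wo_one]
  | insert a s ha ih => rw [Finset.prod_insert ha, Finset.sum_insert ha, wo_mul, ih]

theorem wo_pow (w : σ → ℕ) (f : MvPolynomial σ k) (n : ℕ) : wo w (f ^ n) = n * wo w f := by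
  induction n with
  | zero => simp [wo_one]
  | succ n ih => rw [pow_succ, wo_mul, ih]; push_cast; ring

/-- polynomials without terms of degree `< n` have order `≥ n` after a substitution -/
theorem le_wo_aeval (w : σ → ℕ) (P : σ → MvPolynomial σ k) (hP : ∀ i, 1 ≤ wo w (P i)) (n : ℕ)
    (f : MvPolynomial σ k) (hf : ∀ m : σ →₀ ℕ, m.degree < n → coeff m f = 0) :
    (n : ℕ∞) ≤ wo w (aeval P f) := by
  rw [aeval_def, eval₂_eq]
  refine le_wo_sum w _ _ fun m hm => ?_
  have hm' : n ≤ m.degree := by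
    by_contra hcon
    exact (mem_support_iff.mp hm) (hf m (by omega))
  rw [wo_mul, wo_prod]
  have h1 : ((m.degree : ℕ) : ℕ∞) ≤ ∑ i ∈ m.support, wo w (P i ^ m i) := by
    have h2 : ((m.degree : ℕ) : ℕ∞) = ∑ i ∈ m.support, ((m i : ℕ) : ℕ∞) := by
      rw [Finsupp.degree_apply]
      push_cast
      rfl
    rw [h2]
    refine Finset.sum_le_sum fun i _ => ?_
    rw [wo_pow]
    calc ((m i : ℕ) : ℕ∞) = (m i : ℕ∞) * 1 := by rw [mul_one]
      _ ≤ _ := mul_le_mul_right (hP i) _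
  calc (n : ℕ∞) ≤ m.degree := by exact_mod_cast hm'
    _ ≤ _ := h1
    _ ≤ _ := le_add_self

end wos

end MLD
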