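import Mathlib

/-!
Divisors over affine space, log discrepancies and minimal log discrepancies.

`X = Spec k[x_i : i ∈ σ]`, `x` = the origin.  A divisor over `X` is given by the normalized
order function of its discrete valuation ring inside the function field `FF k σ` of `X`
(a valuation, trivial on `k`, whose residue field has transcendence degree `dim X - 1`,
nonnegative on the coordinate ring).
-/

open MvPolynomial

namespace MLD

universe u v

/-- The function field of the affine space with coordinates `x_i`, `i ∈ σ`, over `k`. -/
abbrev FF (k : Type u) [Field k] (σ : Type v) : Type _ := FractionRing (MvPolynomial σ k)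

/-- The inclusion of the polynomial ring in the function field. -/
noncomputable abbrev toFF (k : Type u) [Field k] (σ : Type v) :
    MvPolynomial σ k →ₐ[k] FF k σ := IsScalarTower.toAlgHom k (MvPolynomial σ k) (FF k σ)

/-- The coordinate function `x_i` as an element of the function field. -/
noncomputable def xx (k : Type u) [Field k] {σ : Type v} (i : σ) : FF k σ := toFF k σ (X i)

/-- An integer valued valuation (order function) of a field `K` over `k`, trivial on `k`.
The value at `0` is irrelevant. -/
structure OrdFn (k : Type u) [Field k] (K : Type v) [Field K] [Algebra k K] where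
  /-- the order function -/
  ord : K → ℤ
  ord_mul' : ∀ f g : K, f ≠ 0 → g ≠ 0 → ord (f * g) = ord f + ord g
  ord_add' : ∀ f g : K, f ≠ 0 → g ≠ 0 → f + g ≠ 0 → min (ord f) (ord g) ≤ ord (f + g)
  ord_const' : ∀ c : k, c ≠ 0 → ord (algebraMap k K c) = 0

/-- A prime divisor over the affine space `𝔸^σ`, given by its order function:
a surjective valuation of the function field, trivial on `k`, nonnegative on the
coordinate ring, whose residue field has transcendence degree `dim - 1` over `k` (there are
`dim - 1` functions with algebraically independent residues). -/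
structure DivisorOver (k : Type u) [Field k] (σ : Type v) [Fintype σ] extends
    OrdFn k (FF k σ) where
  ord_surj' : ∃ f : FF k σ, f ≠ 0 ∧ ord f = 1
  ord_poly' : ∀ p : MvPolynomial σ k, p ≠ 0 → 0 ≤ ord (toFF k σ p)
  residue' : ∃ g : Fin (Fintype.card σ - 1) → FF k σ,
    ∀ P : MvPolynomial (Fin (Fintype.card σ - 1)) k, P ≠ 0 →
      aeval g P ≠ 0 ∧ ord (aeval g P) = 0

namespace DivisorOver

variable {k : Type u} [Field k] {σ : Type v} [Fintype σ]

/-- The centre of `E` on the affine space is the origin. -/
def CenterZero (E : DivisorOver k σ) : Prop := ∀ i : σ, 0 < E.ord (xx k i)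

/-- The derivation `D` of the function field maps the valuation ring of `E` to itself. -/
def IntegralDer (E : DivisorOver k σ) (D : Derivation k (FF k σ) (FF k σ)) : Prop :=
  ∀ f : FF k σ, f ≠ 0 → 0 ≤ E.ord f → D f = 0 ∨ 0 ≤ E.ord (D f)

/-- The Jacobian determinant of the coordinate functions with respect to derivations `D_i`. -/
noncomputable def jac [DecidableEq σ] (D : σ → Derivation k (FF k σ) (FF k σ)) : FF k σ :=
  Matrix.det (Matrix.of fun i j : σ => D i (xx k j))

/-- The log discrepancy `A_X(E) = 1 + ord_E(K_{Y/X})`: the order along `E` of the Jacobian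
ideal, generated by the determinants `det (D_i x_j)` with `D_i` derivations of the valuation
ring of `E`, plus one. -/
noncomputable def logDisc [DecidableEq σ] (E : DivisorOver k σ) : EReal :=
  ⨅ D : {D : σ → Derivation k (FF k σ) (FF k σ) // (∀ i, E.IntegralDer (D i)) ∧ jac D ≠ 0},
    (((1 + E.ord (jac D.1) : ℤ) : ℝ) : EReal)

/-- The order of an ideal of the coordinate ring along `E`. -/
noncomputable def ordI (E : DivisorOver k σ) (I : Ideal (MvPolynomial σ k)) : ℕ :=
  sInf {m : ℕ | ∃ f ∈ I, f ≠ 0 ∧ E.ord (toFF k σ f) = m}

/-- The log discrepancy `a_E(X, 𝔞) = A_X(E) - ∑ λ_j ord_E(𝔞_j)`. -/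
noncomputable def aDisc [DecidableEq σ] (E : DivisorOver k σ) {r : ℕ} (lam : Fin r → ℝ)
    (a : Fin r → Ideal (MvPolynomial σ k)) : EReal :=
  E.logDisc - ((∑ j, lam j * (E.ordI (a j) : ℝ) : ℝ) : EReal)

end DivisorOver

/-- The minimal log discrepancy of `(𝔸^σ, ∏ 𝔞_j^{λ_j})` at the origin. -/
noncomputable def mld {k : Type u} [Field k] {σ : Type v} [Fintype σ] [DecidableEq σ] {r : ℕ}
    (lam : Fin r → ℝ) (a : Fin r → Ideal (MvPolynomial σ k)) : EReal :=
  ⨅ E : {E : DivisorOver k σ // E.CenterZero}, E.1.aDisc lam a

/-- The maximal ideal of the origin. -/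
noncomputable def mm (k : Type u) [Field k] (σ : Type v) : Ideal (MvPolynomial σ k) :=
  Ideal.span (Set.range (X : σ → MvPolynomial σ k))

/-- `f` is a product of polynomials each of which involves only the variables of one block
of the partition `blk`. -/
def IsBlockProduct {k : Type u} [Field k] {σ : Type v} {β : Type*} [Fintype β]
    (blk : σ → β) (f : MvPolynomial σ k) : Prop :=
  ∃ g : β → MvPolynomial σ k, (∀ b, ∀ i ∈ (g b).vars, blk i = b) ∧ f = ∏ b, g b

/-- Ideals generated by block products. -/
def IsBlockIdeal {k : Type u} [Field k] {σ : Type v} {β : Type*} [Fintype β]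
    (blk : σ → β) (I : Ideal (MvPolynomial σ k)) : Prop :=
  ∃ S : Set (MvPolynomial σ k), (∀ f ∈ S, IsBlockProduct blk f) ∧ I = Ideal.span S

end MLD
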