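import Pool.Agent.MLD.WDer

/-!
PIECE MLD-C4: existence of the monomial divisor of a birational substitution.

PROOF. `v` = weighted valuation (`exists_wval`), `Φ` = automorphism of `p` (`exists_birEquiv`),
`d i` = coordinate derivatives. `u := v ∘ Φ` is an order function with
`u (toFF f) = wo w (aeval p f)`. Let `g := gcd` of all `w i` (`Finset.univ.gcd w`); `g ≥ 1` because
some `w i > 0` (otherwise `wo w (p i) = 0`). All values of `v` are divisible by `g` (polynomials:
weights of monomials are multiples of `g`; then quotients). `E.ord := u / g`.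
* surjective: with `t i := Φ.symm (xx i)` one has `u (t i) = w i`; integers `n i` with
  `∑ n i * w i = g` (`Finset.gcd_eq_sum_mul`-like / `Int.gcd` Bezout), `f := ∏ t i ^ n i`.
* residue: choose `i0` with `w i0 > 0`; for `i ≠ i0` put `h i := t i ^ (w i0) / t i0 ^ (w i)`
  (order 0). For a nonzero polynomial `Q` in the variables `i ≠ i0`, `Φ (aeval h Q)` times
  `x_{i0}^N` (`N` large) is a polynomial in the `x i` whose monomials are pairwise different
  (the exponents of the `x i`, `i ≠ i0`, are `w i0 * (exponents of Q)`) and all of the same weight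
  `N * w i0`; so it is nonzero of order `N * w i0`, hence `Φ (aeval h Q)` has order 0.
  (Index set `{i // i ≠ i0} ≃ Fin (card σ - 1)`, `rename`.)
* log discrepancy: let `m` be the Laurent monomial `f` above (`Φ f = ∏ x i ^ n i`, order `g`).
  Derivations `D i := Φ⁻¹ ∘ (x i d i) ∘ Φ` for `i ≠ i0`,
  `D i0 := Φ⁻¹ ∘ ((∏ x^n)⁻¹ ∑ w i x i d i) ∘ Φ`. They are integral: `wval_logder`, `wval_euler`
  (for `D i0` and `ord f = 0` use that values are multiples of `g`; for `ord f > 0` use
  `wval_logder`). `Φ (det (D i (x j))) = (∏ x^n)⁻¹ * w i0 * (∏ x i) * jacP p`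
  (row `i0` is a combination of the rows `x i ∂_i p j`), so
  `g * (1 + ord jac) = ∑ w i + wo w (jacP p)` and `A := 1 + ord jac`.
-/

open MvPolynomial Filter

namespace MLD

universe u

section aux

variable {k : Type u} [Field k] {σ : Type}

private theorem exdiv_wo_nat (w : σ → ℕ) {f : MvPolynomial σ k} {N : ℕ} (h : wo w f = N) :
    ∃ m : σ →₀ ℕ, coeff m f ≠ 0 ∧ Finsupp.weight w m = N := by
  unfold wo at h
  rw [MvPowerSeries.weightedOrder_eq_nat] at h
  obtain ⟨⟨m, hm, hw⟩, -⟩ := h
  exact ⟨m, by rwa [MvPolynomial.coeff_coe] at hm, hw⟩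

private theorem exdiv_wo_homog (w : σ → ℕ) {f : MvPolynomial σ k} (hf : f ≠ 0) (N : ℕ)
    (h : ∀ m, coeff m f ≠ 0 → Finsupp.weight w m = N) : wo w f = N := by
  unfold wo
  rw [MvPowerSeries.weightedOrder_eq_nat]
  obtain ⟨m, hm⟩ := MvPolynomial.ne_zero_iff.mp hf
  refine ⟨⟨m, by rwa [MvPolynomial.coeff_coe], h m hm⟩, fun d hd => ?_⟩
  rw [MvPolynomial.coeff_coe]
  by_contra hc
  have := h d hc
  omega

private theorem exdiv_dvd_weight (w : σ → ℕ) {g : ℕ} (hg : ∀ i, g ∣ w i) (m : σ →₀ ℕ) :
    g ∣ Finsupp.weight w m := by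
  rw [Finsupp.weight_apply]
  refine Finset.dvd_sum fun i _ => ?_
  exact Dvd.dvd.mul_left (hg i) _

private theorem exdiv_toFF_ne {f : MvPolynomial σ k} (hf : f ≠ 0) : toFF k σ f ≠ 0 := by
  intro h
  apply hf
  have h2 : (algebraMap (MvPolynomial σ k) (FF k σ)) f = 0 := h
  exact (map_eq_zero_iff _ (IsFractionRing.injective _ _)).mp h2

private theorem exdiv_xx_ne (i : σ) : xx k i ≠ 0 := exdiv_toFF_ne (X_ne_zero i)

private theorem exdiv_zpow {K : Type*} [Field K] [Algebra k K] (v : OrdFn k K) {f : K}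
    (hf : f ≠ 0) (n : ℤ) : v.ord (f ^ n) = n * v.ord f := by
  cases n with
  | ofNat n => simpa using v.ord_pow hf n
  | negSucc n =>
    rw [zpow_negSucc, v.ord_inv _ (pow_ne_zero _ hf), v.ord_pow hf, Int.negSucc_eq]
    push_cast
    ring

/-- the rescaled pull-back of a valuation -/
private noncomputable def exdivOrd {K : Type*} [Field K] [Algebra k K] (v : OrdFn k K)
    (Φ : K ≃ₐ[k] K) (g : ℕ) (hg : 1 ≤ g) (hdiv : ∀ f, f ≠ 0 → (g : ℤ) ∣ v.ord f) :
    OrdFn k K where
  ord f := v.ord (Φ f) / g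
  ord_mul' f h hf hh := by
    have hf' : Φ f ≠ 0 := by simpa using hf
    have hh' : Φ h ≠ 0 := by simpa using hh
    rw [map_mul, v.ord_mul hf' hh', Int.add_ediv_of_dvd_left (hdiv _ hf')]
  ord_add' f h hf hh hfh := by
    have hf' : Φ f ≠ 0 := by simpa using hf
    have hh' : Φ h ≠ 0 := by simpa using hh
    have hfh' : Φ f + Φ h ≠ 0 := by
      rw [← map_add]
      exact (map_ne_zero_iff Φ Φ.injective).mpr hfh
    have hg' : (0 : ℤ) < g := by exact_mod_cast hg
    rw [map_add]
    have := v.ord_add' (Φ f) (Φ h) hf' hh' hfh'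
    rcases min_le_iff.mp this with h1 | h1
    · exact min_le_iff.mpr (Or.inl (Int.ediv_le_ediv hg' h1))
    · exact min_le_iff.mpr (Or.inr (Int.ediv_le_ediv hg' h1))
  ord_const' c hc := by
    rw [AlgEquiv.commutes, v.ord_algebraMap hc]
    simp

/-- conjugate of a derivation by an automorphism -/
private noncomputable def exdivConj {K : Type*} [Field K] [Algebra k K]
    (Φ : K ≃ₐ[k] K) (D : Derivation k K K) : Derivation k K K :=
  Derivation.mk' (Φ.symm.toLinearMap ∘ₗ D.toLinearMap ∘ₗ Φ.toLinearMap) (by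
    intro a b
    simp only [LinearMap.comp_apply, AlgEquiv.toLinearMap_apply, map_mul, smul_eq_mul]
    have h : D.toLinearMap (Φ a * Φ b) = Φ a * D.toLinearMap (Φ b) + Φ b * D.toLinearMap (Φ a) := by
      simp
    rw [h, map_add, map_mul, map_mul, AlgEquiv.symm_apply_apply, AlgEquiv.symm_apply_apply])

private theorem exdivConj_apply {K : Type*} [Field K] [Algebra k K]
    (Φ : K ≃ₐ[k] K) (D : Derivation k K K) (f : K) :
    Φ (exdivConj Φ D f) = D (Φ f) := by
  unfold exdivConj
  simp [LinearMap.comp_apply]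

end aux

section wv

variable {k : Type u} [Field k] {σ : Type} [Fintype σ] (w : σ → ℕ) (v : OrdFn k (FF k σ))
  (hv : ∀ f : MvPolynomial σ k, f ≠ 0 → ∃ m : ℕ, v.ord (toFF k σ f) = m ∧ wo w f = m)

include hv

private theorem exdiv_ord_xx (i : σ) : v.ord (xx k i) = w i := by
  obtain ⟨m, h1, h2⟩ := hv (X i) (X_ne_zero i)
  have h3 : wo w (X i : MvPolynomial σ k) = (w i : ℕ) := by
    refine exdiv_wo_homog w (X_ne_zero i) _ fun m hm => ?_
    classical
    rw [coeff_X] at hm
    split_ifs at hm with h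
    · rw [← h, Finsupp.weight_single]; simp
    · exact absurd rfl hm
  rw [h2] at h3
  have h4 : m = w i := by exact_mod_cast h3
  rw [← h4]
  exact h1

private theorem exdiv_dvd (g : ℕ) (hg : ∀ i, g ∣ w i) (f : FF k σ) (hf : f ≠ 0) :
    (g : ℤ) ∣ v.ord f := by
  obtain ⟨a, b, hb, rfl⟩ := IsFractionRing.div_surjective (A := MvPolynomial σ k) f
  have hb' : b ≠ 0 := nonZeroDivisors.ne_zero hb
  have ha' : a ≠ 0 := by
    rintro rfl
    simp at hf
  have key : ∀ c : MvPolynomial σ k, c ≠ 0 → (g : ℤ) ∣ v.ord (toFF k σ c) := by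
    intro c hc
    obtain ⟨m, h1, h2⟩ := hv c hc
    obtain ⟨s, hs, hw⟩ := exdiv_wo_nat w h2
    rw [h1, ← hw]
    exact_mod_cast exdiv_dvd_weight w hg s
  have h1 : v.ord (toFF k σ a / toFF k σ b) = v.ord (toFF k σ a) - v.ord (toFF k σ b) :=
    v.ord_div (exdiv_toFF_ne ha') (exdiv_toFF_ne hb')
  have h2 : (g : ℤ) ∣ v.ord (toFF k σ a) - v.ord (toFF k σ b) := dvd_sub (key a ha') (key b hb')
  rw [← h1] at h2
  exact h2

private theorem exdiv_residue [DecidableEq σ] (i0 : σ) (h0 : 1 ≤ w i0) :
    ∃ h : Fin (Fintype.card σ - 1) → FF k σ,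
      ∀ Q : MvPolynomial (Fin (Fintype.card σ - 1)) k, Q ≠ 0 →
        aeval h Q ≠ 0 ∧ v.ord (aeval h Q) = 0 := by
  classical
  have hcard : Fintype.card {i // i ≠ i0} = Fintype.card σ - 1 := by
    rw [Fintype.card_subtype_compl]
    simp
  let e : {i // i ≠ i0} ≃ Fin (Fintype.card σ - 1) := Fintype.equivFinOfCardEq hcard
  let c : Fin (Fintype.card σ - 1) → σ := fun j => (e.symm j : σ)
  have hc_inj : Function.Injective c := fun a b hab => e.symm.injective (Subtype.ext hab)
  have hc_ne : ∀ j, c j ≠ i0 := fun j => (e.symm j).2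
  let h : Fin (Fintype.card σ - 1) → FF k σ :=
    fun j => xx k (c j) ^ (w i0) / xx k i0 ^ (w (c j))
  refine ⟨h, fun Q hQ => ?_⟩
  let S : (Fin (Fintype.card σ - 1) →₀ ℕ) → ℕ := fun m => ∑ j, m j * w (c j)
  let N : ℕ := Q.support.sup S
  have hSN : ∀ m ∈ Q.support, S m ≤ N := fun m hm => Finset.le_sup (f := S) hm
  let μ : (Fin (Fintype.card σ - 1) →₀ ℕ) → (σ →₀ ℕ) := fun m =>
    Finsupp.single i0 (N - S m) + ∑ j, Finsupp.single (c j) (w i0 * m j)
  have hμ : ∀ m j, μ m (c j) = w i0 * m j := by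
    intro m j
    simp only [μ, Finsupp.add_apply, Finsupp.coe_finsetSum, Finset.sum_apply]
    rw [Finsupp.single_eq_of_ne (hc_ne j), zero_add, Finset.sum_eq_single j]
    · simp
    · intro b _ hb
      rw [Finsupp.single_eq_of_ne]
      intro hh
      exact hb (hc_inj hh.symm)
    · intro hj
      exact absurd (Finset.mem_univ j) hj
  have hμ_inj : Function.Injective μ := by
    intro a b hab
    ext j
    have h1 := hμ a j
    rw [hab, hμ b j] at h1
    exact Nat.eq_of_mul_eq_mul_left (by omega) h1.symm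
  have hweight : ∀ m ∈ Q.support, Finsupp.weight w (μ m) = N * w i0 := by
    intro m hm
    have h1 : Finsupp.weight w (μ m) = (N - S m) * w i0 + w i0 * S m := by
      simp only [μ, S, map_add, map_sum, Finsupp.weight_single, smul_eq_mul, Finset.mul_sum]
      congr 1
      refine Finset.sum_congr rfl fun j _ => ?_
      ring
    rw [h1, mul_comm (w i0) (S m), ← add_mul, Nat.sub_add_cancel (hSN m hm)]
  let R : MvPolynomial σ k := ∑ m ∈ Q.support, monomial (μ m) (coeff m Q)
  have hRcoeff : ∀ m ∈ Q.support, coeff (μ m) R = coeff m Q := by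
    intro m hm
    simp only [R, coeff_sum, coeff_monomial]
    rw [Finset.sum_eq_single m]
    · simp
    · intro b _ hb
      rw [if_neg]
      intro hh
      exact hb (hμ_inj hh)
    · intro hh
      exact absurd hm hh
  have hR0 : R ≠ 0 := by
    obtain ⟨m, hm⟩ := MvPolynomial.ne_zero_iff.mp hQ
    intro hR
    apply hm
    rw [← hRcoeff m (mem_support_iff.mpr hm), hR, coeff_zero]
  have hRw : wo w R = ((N * w i0 : ℕ) : ℕ∞) := by
    refine exdiv_wo_homog w hR0 _ fun s hs => ?_
    simp only [R, coeff_sum, coeff_monomial] at hs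
    obtain ⟨m, hm, hne⟩ := Finset.exists_ne_zero_of_sum_ne_zero hs
    have : μ m = s := by
      by_contra hh
      rw [if_neg hh] at hne
      exact hne rfl
    rw [← this]
    exact hweight m hm
  have hRord : v.ord (toFF k σ R) = ((N * w i0 : ℕ) : ℤ) := by
    obtain ⟨m, h1, h2⟩ := hv R hR0
    rw [hRw] at h2
    have h4 : N * w i0 = m := by exact_mod_cast h2
    rw [h1, h4]
  have hx0 : xx k i0 ≠ 0 := exdiv_xx_ne i0
  have hRQ : toFF k σ R = xx k i0 ^ N * aeval h Q := by
    rw [aeval_def, eval₂_eq', Finset.mul_sum]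
    simp only [R, map_sum]
    refine Finset.sum_congr rfl fun m hm => ?_
    have h1 : monomial (μ m) (coeff m Q) =
        C (coeff m Q) * (X i0 ^ (N - S m) * ∏ j, X (c j) ^ (w i0 * m j)) := by
      simp only [μ, X_pow_eq_monomial]
      rw [← monomial_sum_one, monomial_mul, C_mul_monomial]
      simp
    rw [h1]
    have h2 : xx k i0 ^ N = xx k i0 ^ (N - S m) * xx k i0 ^ (S m) := by
      rw [← pow_add, Nat.sub_add_cancel (hSN m hm)]
    have h3 : xx k i0 ^ (S m) * ∏ j, h j ^ m j = ∏ j, xx k (c j) ^ (w i0 * m j) := by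
      simp only [S, h]
      rw [← Finset.prod_pow_eq_pow_sum, ← Finset.prod_mul_distrib]
      refine Finset.prod_congr rfl fun j _ => ?_
      rw [div_pow, ← pow_mul, ← pow_mul, mul_comm (m j) (w (c j))]
      field_simp
    have h4 : toFF k σ (C (coeff m Q)) = algebraMap k (FF k σ) (coeff m Q) := by
      exact (toFF k σ).commutes (coeff m Q)
    rw [map_mul, map_mul, map_pow, map_prod, h4, h2]
    have h5 : ∏ j, toFF k σ (X (c j) ^ (w i0 * m j)) = ∏ j, xx k (c j) ^ (w i0 * m j) := by
      refine Finset.prod_congr rfl fun j _ => ?_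
      rw [map_pow]
      rfl
    rw [h5, ← h3]
    change algebraMap k (FF k σ) (coeff m Q) * (xx k i0 ^ (N - S m) * _) = _
    ring
  have hne : aeval h Q ≠ 0 := by
    intro hz
    rw [hz, mul_zero] at hRQ
    exact exdiv_toFF_ne hR0 hRQ
  refine ⟨hne, ?_⟩
  rw [hRQ, v.ord_mul (pow_ne_zero _ hx0) hne, v.ord_pow hx0, exdiv_ord_xx w v hv] at hRord
  push_cast at hRord
  linarith

private theorem exdiv_gcd_pos (p : σ → MvPolynomial σ k) (hp : Bir p) [Nonempty σ]
    (h1 : ∀ i, 1 ≤ wo w (p i)) : ∃ i0, 1 ≤ w i0 := by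
  by_contra hcon
  push Not at hcon
  obtain ⟨i⟩ := (inferInstance : Nonempty σ)
  have hpi : p i ≠ 0 := by
    have := hp.1 (X i) (X_ne_zero i)
    simpa using this
  obtain ⟨m, -, h3⟩ := hv (p i) hpi
  obtain ⟨s, hs, hw⟩ := exdiv_wo_nat w h3
  have h4 := h1 i
  rw [h3] at h4
  have h5 : 1 ≤ m := by exact_mod_cast h4
  have h6 : Finsupp.weight w s = 0 := by
    rw [Finsupp.weight_apply]
    refine Finset.sum_eq_zero fun j _ => ?_
    have := hcon j
    have h7 : w j = 0 := by omega
    simp [h7]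
  omega

end wv

theorem exists_divisor {k : Type u} [Field k] [CharZero k] {σ : Type} [Fintype σ] [DecidableEq σ]
    [Nonempty σ] (p : σ → MvPolynomial σ k) (w : σ → ℕ) (hp : Bir p) (h1 : ∀ i, 1 ≤ wo w (p i))
    (hJ : jacP p ≠ 0) :
    ∃ (E : DivisorOver k σ) (g A : ℕ), 1 ≤ g ∧ E.CenterZero ∧ E.logDisc ≤ ((A : ℝ) : EReal) ∧
      ((g * A : ℕ) : ℕ∞) = ((∑ i, w i : ℕ) : ℕ∞) + wo w (jacP p) ∧
      ∀ f : MvPolynomial σ k, f ≠ 0 →
        ∃ m : ℕ, E.ord (toFF k σ f) = m ∧ wo w (aeval p f) = ((g * m : ℕ) : ℕ∞) := by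
  obtain ⟨v, hv⟩ := exists_wval (k := k) w
  obtain ⟨Φ, hΦ⟩ := exists_birEquiv p hp
  obtain ⟨d, hd⟩ := exists_pderivFF k σ
  obtain ⟨i0, hi0⟩ := exdiv_gcd_pos w v hv p hp h1
  -- the gcd
  let gz : ℤ := Finset.univ.gcd fun i => (w i : ℤ)
  obtain ⟨n, hn⟩ := Finset.gcd_eq_sum_mul (Finset.univ : Finset σ) (fun i => (w i : ℤ))
  obtain ⟨g, hg⟩ : ∃ g : ℕ, (g : ℤ) = gz := by
    have h2 : normalize gz = gz := Finset.normalize_gcd
    refine ⟨gz.natAbs, ?_⟩
    rw [Int.natCast_natAbs, Int.abs_eq_normalize, h2]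
  have hgw : ∀ i, g ∣ w i := by
    intro i
    have h2 : gz ∣ (w i : ℤ) := Finset.gcd_dvd (Finset.mem_univ i)
    rw [← hg] at h2
    exact_mod_cast h2
  have hg1 : 1 ≤ g := by
    rcases Nat.eq_zero_or_pos g with h | h
    · have := hgw i0
      rw [h, zero_dvd_iff] at this
      omega
    · exact h
  have hgz : (0 : ℤ) < g := by exact_mod_cast hg1
  have hdiv := exdiv_dvd w v hv g hgw
  let V : OrdFn k (FF k σ) := exdivOrd v Φ g hg1 hdiv
  have hV : ∀ f : FF k σ, f ≠ 0 → (g : ℤ) * V.ord f = v.ord (Φ f) := by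
    intro f hf
    have hf' : Φ f ≠ 0 := (map_ne_zero_iff Φ Φ.injective).mpr hf
    exact Int.mul_ediv_cancel' (hdiv _ hf')
  have hpoly : ∀ f : MvPolynomial σ k, f ≠ 0 →
      ∃ m : ℕ, V.ord (toFF k σ f) = m ∧ wo w (aeval p f) = ((g * m : ℕ) : ℕ∞) := by
    intro f hf
    have hf' : aeval p f ≠ 0 := hp.1 f hf
    obtain ⟨m, h2, h3⟩ := hv _ hf'
    have h4 := hV _ (exdiv_toFF_ne hf)
    rw [hΦ, h2] at h4
    have h5 : (0 : ℤ) ≤ V.ord (toFF k σ f) := by
      by_contra hneg
      push Not at hneg
      have : (g : ℤ) * V.ord (toFF k σ f) < 0 := mul_neg_of_pos_of_neg hgz hneg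
      omega
    obtain ⟨m', hm'⟩ := Int.eq_ofNat_of_zero_le h5
    refine ⟨m', hm', ?_⟩
    rw [h3]
    rw [hm'] at h4
    have h6 : g * m' = m := by exact_mod_cast h4
    rw [h6]
  -- the Laurent monomial of order g
  let M : FF k σ := ∏ i, xx k i ^ n i
  have hxx : ∀ i : σ, xx k i ≠ 0 := fun i => exdiv_xx_ne i
  have hM0 : M ≠ 0 := Finset.prod_ne_zero_iff.mpr fun i _ => zpow_ne_zero _ (hxx i)
  have hMord : v.ord M = g := by
    simp only [M]
    rw [v.ord_prod _ _ fun i _ => zpow_ne_zero _ (hxx i), hg]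
    simp only [gz]
    rw [hn]
    refine Finset.sum_congr rfl fun i _ => ?_
    rw [exdiv_zpow v (hxx i), exdiv_ord_xx w v hv]
    ring
  -- residues
  obtain ⟨h, hh⟩ := exdiv_residue w v hv i0 hi0
  let E : DivisorOver k σ :=
    { toOrdFn := V
      ord_surj' := by
        refine ⟨Φ.symm M, ?_, ?_⟩
        · exact (map_ne_zero_iff Φ.symm Φ.symm.injective).mpr hM0
        · have h2 := hV (Φ.symm M) ((map_ne_zero_iff Φ.symm Φ.symm.injective).mpr hM0)
          rw [AlgEquiv.apply_symm_apply, hMord] at h2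
          have h3 : (g : ℤ) * V.ord (Φ.symm M) = g * 1 := by rw [h2, mul_one]
          exact mul_left_cancel₀ hgz.ne' h3
      ord_poly' := by
        intro f hf
        obtain ⟨m, h2, -⟩ := hpoly f hf
        rw [h2]
        positivity
      residue' := by
        refine ⟨fun j => Φ.symm (h j), fun P hP => ?_⟩
        have h2 : aeval (fun j => Φ.symm (h j)) P = Φ.symm (aeval h P) := by
          have := MvPolynomial.comp_aeval (R := k) h Φ.symm.toAlgHom
          have h3 := congrArg (fun F => F P) this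
          exact h3.symm
        obtain ⟨h3, h4⟩ := hh P hP
        have h5 : Φ.symm (aeval h P) ≠ 0 := (map_ne_zero_iff Φ.symm Φ.symm.injective).mpr h3
        rw [h2]
        refine ⟨h5, ?_⟩
        have h6 := hV _ h5
        rw [AlgEquiv.apply_symm_apply, h4] at h6
        rcases mul_eq_zero.mp h6 with h7 | h7
        · omega
        · exact h7 }
  have hE : E.ord = V.ord := rfl
  -- the Jacobian of p
  obtain ⟨mJ, hmJ, hmJ'⟩ := hv _ hJ
  have hgJ : (g : ℤ) ∣ (mJ : ℤ) := by
    rw [← hmJ]
    exact hdiv _ (exdiv_toFF_ne hJ)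
  have hgS : g ∣ ∑ i, w i + mJ := by
    refine dvd_add (Finset.dvd_sum fun i _ => hgw i) ?_
    exact_mod_cast hgJ
  obtain ⟨A, hA⟩ := hgS
  refine ⟨E, g, A, hg1, ?_, ?_, ?_, ?_⟩
  · intro i
    rw [hE]
    obtain ⟨m, h2, h3⟩ := hpoly (X i) (X_ne_zero i)
    have h4 : aeval p (X i : MvPolynomial σ k) = p i := aeval_X _ _
    rw [h4] at h3
    have h5 := h1 i
    rw [h3] at h5
    have h6 : 1 ≤ g * m := by exact_mod_cast h5
    have h7 : m ≠ 0 := by
      rintro rfl
      simp at h6
    change 0 < V.ord (toFF k σ (X i))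
    rw [h2]
    omega
  · -- the derivations
    let Θ : Derivation k (FF k σ) (FF k σ) := ∑ i, ((w i : FF k σ) * xx k i) • d i
    have hΘ : ∀ f, Θ f = ∑ i, (w i : FF k σ) * xx k i * d i f := by
      intro f
      have h2 := map_sum (Derivation.coeFnAddMonoidHom (R := k) (A := FF k σ) (M := FF k σ))
        (fun i => ((w i : FF k σ) * xx k i) • d i) Finset.univ
      have h3 := congrFun h2 f
      rw [Finset.sum_apply] at h3
      exact h3
    let Dn : σ → Derivation k (FF k σ) (FF k σ) :=
      fun i => if i = i0 then M⁻¹ • Θ else xx k i • d i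
    have hDn0 : ∀ f, Dn i0 f = M⁻¹ * Θ f := by
      intro f
      simp [Dn]
    have hDn1 : ∀ i, i ≠ i0 → ∀ f, Dn i f = xx k i * d i f := by
      intro i hi f
      simp [Dn, hi]
    have hDer : ∀ i, E.IntegralDer (exdivConj Φ (Dn i)) := by
      intro i f hf h0
      by_cases hz : exdivConj Φ (Dn i) f = 0
      · exact Or.inl hz
      right
      rw [hE] at h0 ⊢
      have h2 := hV _ hz
      rw [exdivConj_apply] at h2
      have hf' : Φ f ≠ 0 := (map_ne_zero_iff Φ Φ.injective).mpr hf
      have h3 := hV f hf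
      have hge : v.ge 0 (Dn i (Φ f)) := by
        by_cases hi : i = i0
        · rw [hi, hDn0]
          have hΘg : v.ge g (Θ (Φ f)) := by
            rcases lt_or_eq_of_le h0 with hpos | hzero
            · have h4 : (g : ℤ) ≤ v.ord (Φ f) := by
                rw [← h3]
                nlinarith
              rw [hΘ]
              refine v.ge_mono h4 ?_
              refine v.ge_sum _ _ fun j _ => ?_
              have h5 := wval_logder w v hv d hd j (Φ f) hf'
              have h6 : v.ge 0 ((w j : FF k σ)) := by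
                have := v.ge_const (w j : k)
                simpa using this
              have h7 := v.ge_mul h6 h5
              rw [zero_add, ← mul_assoc] at h7
              exact h7
            · have h4 : v.ord (Φ f) = 0 := by
                rw [← h3, ← hzero]
                simp
              have h5 := wval_euler w v hv d hd (Φ f) hf' h4
              rw [← hΘ] at h5
              by_cases h6 : Θ (Φ f) = 0
              · exact Or.inl h6
              rcases h5 with h5 | h5
              · exact Or.inl h5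
              right
              obtain ⟨c, hc⟩ := hdiv _ h6
              rw [hc] at h5 ⊢
              have hc1 : 1 ≤ c := by
                by_contra hcon
                push Not at hcon
                nlinarith
              nlinarith
          have h7 : v.ge (-(g : ℤ)) (M⁻¹) := Or.inr (by rw [v.ord_inv _ hM0, hMord])
          have h8 := v.ge_mul h7 hΘg
          rw [neg_add_cancel] at h8
          exact h8
        · rw [hDn1 i hi]
          refine v.ge_mono ?_ (wval_logder w v hv d hd i (Φ f) hf')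
          rw [← h3]
          positivity
      rcases hge with h4 | h4
      · exfalso
        apply hz
        apply Φ.injective
        rw [exdivConj_apply, h4, map_zero]
      · rw [← h2] at h4
        by_contra hneg
        push Not at hneg
        nlinarith
    -- the Jacobian
    let C' : Matrix σ σ (FF k σ) := Matrix.of fun i j => toFF k σ (pderiv i (p j))
    have hC' : C'.det = toFF k σ (jacP p) := by
      unfold jacP
      rw [AlgHom.map_det]
      rfl
    let b : σ → FF k σ := fun l => M⁻¹ * ((w l : FF k σ) * xx k l)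
    let B' : Matrix σ σ (FF k σ) := (Matrix.diagonal (xx k)).updateRow i0 b
    have hB' : B'.det = M⁻¹ * (w i0 : FF k σ) * ∏ i, xx k i := by
      have h2 := Matrix.mulVec_cramer (Matrix.diagonal (xx k)) b
      have h3 := congrFun h2 i0
      rw [Matrix.mulVec_diagonal, Matrix.det_diagonal] at h3
      have h4 : (Matrix.diagonal (xx k)).cramer b i0 = B'.det := by
        have h5 := Matrix.cramer_transpose_apply (Matrix.diagonal (xx k)) b i0
        rw [Matrix.diagonal_transpose] at h5
        exact h5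
      rw [h4] at h3
      apply mul_left_cancel₀ (hxx i0)
      rw [h3]
      simp only [Pi.smul_apply, smul_eq_mul, b]
      ring
    have hΦxx : ∀ j, Φ (xx k j) = toFF k σ (p j) := by
      intro j
      have h2 := hΦ (X j)
      rw [aeval_X] at h2
      exact h2
    have hjac : Φ (DivisorOver.jac fun i => exdivConj Φ (Dn i)) = B'.det * C'.det := by
      rw [← Matrix.det_mul]
      unfold DivisorOver.jac
      rw [AlgEquiv.map_det]
      congr 1
      ext i j
      rw [AlgEquiv.mapMatrix_apply, Matrix.map_apply, Matrix.of_apply, exdivConj_apply, hΦxx,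
        Matrix.mul_apply]
      by_cases hi : i = i0
      · subst hi
        rw [hDn0, hΘ, Finset.mul_sum]
        refine Finset.sum_congr rfl fun l _ => ?_
        rw [hd]
        simp only [B', Matrix.updateRow_self, b, C', Matrix.of_apply]
        ring
      · rw [hDn1 i hi, hd, Finset.sum_eq_single i]
        · simp only [B', C', Matrix.updateRow_ne hi, Matrix.of_apply, Matrix.diagonal_apply_eq]
        · intro l _ hl
          simp only [B', Matrix.updateRow_ne hi, Matrix.diagonal_apply_ne' _ hl, zero_mul]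
        · intro hh
          exact absurd (Finset.mem_univ i) hh
    have hwk : ((w i0 : k)) ≠ 0 := by
      have : w i0 ≠ 0 := by omega
      exact_mod_cast this
    have hwF : ((w i0 : FF k σ)) = algebraMap k (FF k σ) (w i0 : k) := by
      rw [map_natCast]
    have hwne : ((w i0 : FF k σ)) ≠ 0 := by
      rw [hwF]
      exact (map_ne_zero_iff _ (algebraMap k (FF k σ)).injective).mpr hwk
    have hword : v.ord ((w i0 : FF k σ)) = 0 := by
      rw [hwF]
      exact v.ord_algebraMap hwk
    have hprod : (∏ i, xx k i : FF k σ) ≠ 0 := Finset.prod_ne_zero_iff.mpr fun i _ => hxx i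
    have hval : v.ord (Φ (DivisorOver.jac fun i => exdivConj Φ (Dn i))) =
        -(g : ℤ) + (∑ i, (w i : ℤ) + mJ) := by
      rw [hjac, hB', hC', v.ord_mul (mul_ne_zero (mul_ne_zero (inv_ne_zero hM0) hwne) hprod)
        (exdiv_toFF_ne hJ), v.ord_mul (mul_ne_zero (inv_ne_zero hM0) hwne) hprod,
        v.ord_mul (inv_ne_zero hM0) hwne, v.ord_inv _ hM0, hMord, hword, hmJ,
        v.ord_prod _ _ fun i _ => hxx i]
      simp only [exdiv_ord_xx w v hv]
      ring
    have hne : Φ (DivisorOver.jac fun i => exdivConj Φ (Dn i)) ≠ 0 := by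
      rw [hjac, hB', hC']
      exact mul_ne_zero (mul_ne_zero (mul_ne_zero (inv_ne_zero hM0) hwne) hprod)
        (exdiv_toFF_ne hJ)
    have hne' : DivisorOver.jac (fun i => exdivConj Φ (Dn i)) ≠ 0 :=
      (map_ne_zero_iff Φ Φ.injective).mp hne
    have hfin : 1 + V.ord (DivisorOver.jac fun i => exdivConj Φ (Dn i)) = A := by
      have h2 := hV _ hne'
      rw [hval] at h2
      have h3 : (∑ i, (w i : ℤ) + mJ) = g * A := by
        exact_mod_cast hA
      rw [h3] at h2
      have h4 : (g : ℤ) * (1 + V.ord (DivisorOver.jac fun i => exdivConj Φ (Dn i))) = g * A := by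
        rw [mul_add, h2]
        ring
      exact mul_left_cancel₀ hgz.ne' h4
    unfold DivisorOver.logDisc
    refine iInf_le_of_le ⟨fun i => exdivConj Φ (Dn i), hDer, hne'⟩ ?_
    rw [hE]
    simp only
    rw [hfin]
    norm_num
  · rw [hmJ', ← hA]
    push_cast
    rfl
  · exact hpoly

end MLD
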