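import Pool.Agent.MLD.Defs

/-!
Ideals generated by products of polynomials of degree at most one.
-/

open MvPolynomial

namespace MLD

universe u v

/-- `f` is a product of polynomials of degree at most one. -/
def IsLinearProduct {k : Type u} [Field k] {σ : Type v} (f : MvPolynomial σ k) : Prop :=
  ∃ s : Multiset (MvPolynomial σ k), (∀ g ∈ s, g.totalDegree ≤ 1) ∧ f = s.prod

/-- Ideals generated by products of polynomials of degree at most one. -/
def IsLinearProductIdeal {k : Type u} [Field k] {σ : Type v} (I : Ideal (MvPolynomial σ k)) :
    Prop :=
  ∃ S : Set (MvPolynomial σ k), (∀ f ∈ S, IsLinearProduct f) ∧ I = Ideal.span S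

end MLD
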