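import Pool.Agent.MLD.Fin1
import Pool.Agent.MLD.LinDefs

/-!
Products of polynomials of degree at most one.
-/

open MvPolynomial Filter

namespace MLD

universe u

variable {k : Type u} [Field k]

theorem eq_lf_of_totalDegree {B : Type} [Fintype B] (g : MvPolynomial B k)
    (hg : g.totalDegree ≤ 1) :
    g = C (coeff 0 g) + lf (fun b => coeff (Finsupp.single b 1) g) := by
  classical
  ext m
  rw [coeff_add, coeff_C, lf, coeff_sum]
  simp only [coeff_C_mul, coeff_X, mul_ite, mul_one, mul_zero]
  by_cases hm0 : m = 0
  · subst hm0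
    rw [if_pos rfl, Finset.sum_eq_zero, add_zero]
    intro b _
    rw [if_neg]
    intro h
    have := congrArg (fun f => f b) h
    simp at this
  · rw [if_neg (fun h => hm0 h.symm), zero_add]
    by_cases hm1 : ∃ b, m = Finsupp.single b 1
    · obtain ⟨b, rfl⟩ := hm1
      rw [Finset.sum_eq_single b]
      · rw [if_pos rfl]
      · intro b' _ hb'
        rw [if_neg]
        intro h
        exact hb' (Finsupp.single_left_injective one_ne_zero h)
      · intro h
        exact absurd (Finset.mem_univ b) h
    · push Not at hm1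
      rw [Finset.sum_eq_zero fun b _ => if_neg fun h => hm1 b h.symm]
      by_contra hne
      have h1 := le_totalDegree (mem_support_iff.mpr hne)
      have h2 : m.degree ≤ 1 := by
        have h3 : m.degree = m.sum fun _ e => e := rfl
        omega
      have h3 : m.degree ≠ 0 := fun h => hm0 ((Finsupp.degree_eq_zero_iff m).mp h)
      obtain ⟨b, hb⟩ := Finsupp.ne_iff.mp hm0
      have hb' : m b ≠ 0 := hb
      have h5 : m b ≤ m.degree := Finsupp.le_degree b m
      refine hm1 b (Finsupp.ext fun b' => ?_)
      rw [Finsupp.single_apply]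
      split_ifs with h
      · subst h
        omega
      · have h6 : m b + m b' ≤ m.degree := by
          rw [Finsupp.degree_eq_sum, ← Finset.sum_pair h]
          exact Finset.sum_le_sum_of_subset (Finset.subset_univ _)
        omega

theorem unitMul_linProd {B : Type} [Fintype B] (f : MvPolynomial B k) (hf : IsLinearProduct f) :
    f ∈ unitMul (linProd k B) := by
  obtain ⟨s, hs, rfl⟩ := hf
  induction s using Multiset.induction_on with
  | empty =>
    refine ⟨1, 1, ?_, ⟨0, by simp⟩, by simp⟩
    show constantCoeff (1 : MvPolynomial B k) ≠ 0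
    simp
  | cons g s ih =>
    obtain ⟨U, f, hU, ⟨t, rfl⟩, he⟩ := ih fun g hg => hs g (Multiset.mem_cons_of_mem hg)
    rw [Multiset.prod_cons, he]
    by_cases h0 : coeff 0 g = 0
    · refine ⟨U, lf (fun b => coeff (Finsupp.single b 1) g) * (t.map lf).prod, hU,
        ⟨(fun b => coeff (Finsupp.single b 1) g) ::ₘ t, ?_⟩, ?_⟩
      · rw [Multiset.map_cons, Multiset.prod_cons]
      · have h1 := eq_lf_of_totalDegree g (hs g (Multiset.mem_cons_self g s))
        rw [h0, C_0, zero_add] at h1
        rw [← h1]
        ring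
    · refine ⟨g * U, (t.map lf).prod, ?_, ⟨t, rfl⟩, by ring⟩
      have h1 : ∀ G : MvPolynomial B k, coeff 0 G = constantCoeff G := fun _ => rfl
      rw [h1] at h0 hU ⊢
      rw [map_mul]
      exact mul_ne_zero h0 hU

theorem isLinearProduct_rename {σ τ : Type} (e : σ → τ) (f : MvPolynomial σ k)
    (hf : IsLinearProduct f) : IsLinearProduct (rename e f) := by
  obtain ⟨s, hs, rfl⟩ := hf
  refine ⟨s.map (rename e), ?_, ?_⟩
  · intro g hg
    obtain ⟨g', hg', rfl⟩ := Multiset.mem_map.mp hg
    exact (totalDegree_rename_le e g').trans (hs g' hg')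
  · rw [map_multiset_prod]

theorem classOf_of_linear {n : ℕ} (I : Ideal (MvPolynomial (Fin n) k))
    (h : IsLinearProductIdeal I) :
    ClassOf (fun _ : Fin n => ()) (fun b => unitMul (linProd k {_i : Fin n // () = b})) I := by
  obtain ⟨S, hS, rfl⟩ := h
  have hsurj : ∀ (b : Unit) (f : MvPolynomial (Fin n) k), rename Subtype.val
      (rename (fun i : Fin n => (⟨i, rfl⟩ : {_i : Fin n // () = b})) f) = f := by
    intro b f
    rw [rename_rename]
    exact rename_id_apply f
  have hbp : ∀ f : MvPolynomial (Fin n) k, bprod (fun _ : Fin n => ())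
      (fun b => rename (fun i : Fin n => (⟨i, rfl⟩ : {_i : Fin n // () = b})) f) = f := by
    intro f
    unfold bprod
    rw [Finset.prod_congr rfl fun b _ => hsurj b f]
    simp
  refine ⟨(fun f b => rename (fun i : Fin n => (⟨i, rfl⟩ : {_i : Fin n // () = b})) f) '' S,
    ?_, ?_⟩
  · rintro _ ⟨f, hf, rfl⟩ b
    exact unitMul_linProd _ (isLinearProduct_rename _ _ (hS f hf))
  · congr 1
    rw [Set.image_image]
    ext f
    constructor
    · intro hf
      exact ⟨f, hf, hbp f⟩
    · rintro ⟨g, hg, rfl⟩
      simp only [hbp]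
      exact hg

end MLD
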