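import Pool.Agent.MLD.Small
import Pool.Agent.MLD.Blk2

/-!
PIECE MLD-S4: strong block theorem for at most one variable, transport along bijections.

See `Small.lean` for the plain versions. `card_le_one`: for `B = {b}` the types are the same,
`T l = X b ^ (m l) * G`, `G` nonvanishing at the origin; if `0 < v.ord (aeval x (T l₀))` then
`m l₀ ≥ 1` and `Dmd2` holds with `b₀ := b`, `g := aeval x (T l₀)`, `P := (aeval x (pderiv b (T l₀)))`
(`der_aeval`), of order `(m l₀ - 1) * θ` (characteristic zero). `B` empty: the orders are `0`.
`equiv`: reindex.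
-/

open MvPolynomial Filter

namespace MLD

universe u

variable {k : Type u} [Field k]

private theorem Small2_empty (B : Type) [Fintype B] [DecidableEq B] [IsEmpty B] :
    BlockOKS k B := by
  intro Λ _ F hF
  have h0 : ∀ᶠ i in UU, ∀ l, coeff 0 (F l i) ≠ 0 := by
    rw [eventually_all]
    intro l
    obtain ⟨m, hm⟩ := hF l
    obtain rfl : m = 0 := Subsingleton.elim _ _
    exact hm
  refine ⟨Unit, inferInstance, fun _ => ⟨0, 0, 0, fun _ => 0⟩, ?_, ?_⟩
  · filter_upwards [h0] with i hi
    intro K _ _ v x hx l₀
    refine ⟨(), 0, le_refl _, ⟨fun b => isEmptyElim b, 1, fun b => isEmptyElim b, ?_,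
      fun _ b => isEmptyElim b, ?_, ?_⟩, ?_⟩
    · rw [Matrix.det_one]
      exact one_ne_zero
    · rw [Matrix.det_one, map_one, v.ord_one]
      simp [LinType.aa]
    · intro l
      rw [(v.ord_aeval_of_coeff_zero x (fun b => isEmptyElim b) (F l i) (hi l)).2]
      simp [LinType.vv]
    · intro h1
      rw [(v.ord_aeval_of_coeff_zero x (fun b => isEmptyElim b) (F l₀ i) (hi l₀)).2] at h1
      exact absurd h1 (lt_irrefl _)
  · intro t θ _
    filter_upwards [h0] with i hi
    refine ⟨fun b => isEmptyElim b, fun b => isEmptyElim b, ⟨?_, fun b => isEmptyElim b⟩,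
      fun b => isEmptyElim b, ?_, ?_⟩
    · intro G hG
      have h1 : G = C (coeff 0 G) := by
        ext m
        obtain rfl : m = 0 := Subsingleton.elim _ _
        simp
      rw [h1, aeval_C]
      intro h2
      apply hG
      rw [h1]
      rw [MvPolynomial.algebraMap_eq] at h2
      exact h2
    · rw [map_one, jacP, Matrix.det_isEmpty, wo, MvPolynomial.coe_one]
      simp [LinType.aa]
    · intro l
      simp [LinType.vv]

private theorem Small2_eq_single {B : Type} [Unique B] (d : B →₀ ℕ) :
    d = Finsupp.single default (d default) := by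
  ext
  simp

/-- Order of a polynomial in one variable. -/
private theorem Small2_ord {B : Type} [Unique B] {K : Type u} [Field K] [Algebra k K]
    (v : OrdFn k K) (x : B → K) (hx : Cen v x) (f : MvPolynomial B k) (n : ℕ)
    (hn : coeff (Finsupp.single (default : B) n) f ≠ 0)
    (hmin : ∀ d : B →₀ ℕ, coeff d f ≠ 0 → n ≤ d default) :
    v.ord (aeval x f) = n * v.ord (x default) := by
  classical
  have hx0 : ∀ b, x b ≠ 0 := by
    intro b
    have := hx.2 (X b) (X_ne_zero b)
    rwa [aeval_X] at this
  have hpos := hx.1 default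
  set c := coeff (Finsupp.single (default : B) n) f with hcdef
  have h2 : aeval x f = algebraMap k K c * x default ^ n +
      aeval x (f - monomial (Finsupp.single (default : B) n) c) := by
    have h20 : (Finsupp.single (default : B) n).prod (fun b n => x b ^ n) =
        x default ^ n := Finsupp.prod_single_index (pow_zero _)
    rw [map_sub, aeval_monomial, h20]
    ring
  have h3 : algebraMap k K c ≠ 0 := by
    rwa [Ne, map_eq_zero]
  have h4 : algebraMap k K c * x default ^ n ≠ 0 :=
    mul_ne_zero h3 (pow_ne_zero _ (hx0 _))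
  have h5 : v.ord (algebraMap k K c * x default ^ n) = n * v.ord (x default) := by
    rw [v.ord_mul h3 (pow_ne_zero _ (hx0 _)), v.ord_algebraMap hn, v.ord_pow (hx0 _),
      zero_add]
  have h6 : v.ge (v.ord (algebraMap k K c * x default ^ n) + 1)
      (aeval x (f - monomial (Finsupp.single (default : B) n) c)) := by
    rw [h5]
    refine v.ge_aeval x (fun _ => v.ord (x default)) (fun b => ?_) _ _ fun d hdne => ?_
    · rw [Subsingleton.elim b default]
      exact v.ge_self _
    · rw [Small2_eq_single d, Finsupp.sum_single_index (by simp)]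
      have h7 : n < d default := by
        by_contra hle
        have h8 : d default = n ∨ d default < n := by omega
        rcases h8 with h8 | h8
        · apply hdne
          rw [Small2_eq_single d, h8, coeff_sub, coeff_monomial, if_pos rfl, ← hcdef,
            sub_self]
        · apply hdne
          rw [coeff_sub, coeff_monomial, if_neg, sub_zero]
          · by_contra h9
            exact absurd (hmin d h9) (by omega)
          · intro h9
            rw [← h9, Finsupp.single_eq_same] at h8
            exact lt_irrefl _ h8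
      have h8 : (n : ℤ) + 1 ≤ (d default : ℤ) := by exact_mod_cast h7
      nlinarith
  rw [h2, (v.ord_add_eq h4 h6).2, h5]

private theorem Small2_unique [CharZero k] (B : Type) [Fintype B] [DecidableEq B] [Unique B] :
    BlockOKS k B := by
  classical
  intro Λ _ F hF
  have hex : ∀ l, ∃ n : ℕ, (∀ᶠ i in UU, coeff (Finsupp.single (default : B) n) (F l i) ≠ 0) ∧
      ∀ n' < n, ∀ᶠ i in UU, coeff (Finsupp.single (default : B) n') (F l i) = 0 := by
    intro l
    have h1 : ∃ n : ℕ, ∀ᶠ i in UU, coeff (Finsupp.single (default : B) n) (F l i) ≠ 0 := by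
      obtain ⟨m, hm⟩ := hF l
      refine ⟨m default, ?_⟩
      rw [← Small2_eq_single m]
      exact hm
    refine ⟨Nat.find h1, Nat.find_spec h1, fun n' hn' => ?_⟩
    have h2 := Nat.find_min h1 hn'
    rw [← Ultrafilter.eventually_not] at h2
    filter_upwards [h2] with i hi
    exact not_not.1 hi
  choose m hm1 hm2 using hex
  have h0 : ∀ᶠ i in UU, ∀ l, coeff (Finsupp.single (default : B) (m l)) (F l i) ≠ 0 ∧
      ∀ n ∈ Finset.range (m l), coeff (Finsupp.single (default : B) n) (F l i) = 0 := by
    rw [eventually_all]
    intro l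
    refine (hm1 l).and ?_
    rw [eventually_all_finset]
    intro n hn
    exact hm2 l n (Finset.mem_range.1 hn)
  have h00 : ∀ᶠ i in UU, ∀ l, coeff (Finsupp.single (default : B) (m l)) (F l i) ≠ 0 ∧
      ∀ d : B →₀ ℕ, coeff d (F l i) ≠ 0 → m l ≤ d default := by
    filter_upwards [h0] with i hi
    intro l
    refine ⟨(hi l).1, fun d hd => ?_⟩
    by_contra hlt
    apply hd
    rw [Small2_eq_single d]
    exact (hi l).2 _ (Finset.mem_range.2 (not_le.1 hlt))
  refine ⟨Unit, inferInstance, fun _ => ⟨1, 1, 1, fun l _ => m l⟩, ?_, ?_⟩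
  · filter_upwards [h00] with i hi
    intro K _ _ v x hx l₀
    have hx0 : ∀ b, x b ≠ 0 := by
      intro b
      have := hx.2 (X b) (X_ne_zero b)
      rwa [aeval_X] at this
    have hpos := hx.1 default
    have hto : (((v.ord (x default)).toNat : ℕ) : ℤ) = v.ord (x default) :=
      Int.toNat_of_nonneg hpos.le
    have haa : (LinType.aa (⟨1, 1, 1, fun l _ => m l⟩ : LinType Λ)
          fun _ => (v.ord (x default)).toNat) = (v.ord (x default)).toNat := by
      simp [LinType.aa]
    have hvv : ∀ l, (LinType.vv (⟨1, 1, 1, fun l _ => m l⟩ : LinType Λ) l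
          fun _ => (v.ord (x default)).toNat) = m l * (v.ord (x default)).toNat := by
      intro l
      simp [LinType.vv]
    have hordF : ∀ l, v.ord (aeval x (F l i)) = m l * v.ord (x default) := fun l =>
      Small2_ord v x hx (F l i) (m l) (hi l).1 (hi l).2
    refine ⟨(), fun _ => (v.ord (x default)).toNat, ?_, ⟨x, 1, hx0, ?_, ?_, ?_, ?_⟩, ?_⟩
    · intro c
      change 1 ≤ (v.ord (x default)).toNat
      omega
    · rw [Matrix.det_one]
      exact one_ne_zero
    · intro D b
      rw [Fintype.sum_unique, Subsingleton.elim b default, Matrix.one_apply_eq, one_mul]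
    · rw [Matrix.det_one, map_one, v.ord_one, Fintype.sum_unique, haa, hto]
      simp
    · intro l
      rw [hvv, Nat.cast_mul, hto]
      exact (hordF l).le
    · intro hl0
      have hm0 : 1 ≤ m l₀ := by
        by_contra hlt
        have h0 : m l₀ = 0 := by omega
        rw [hordF, h0] at hl0
        simp at hl0
      have hFne : aeval x (F l₀ i) ≠ 0 := by
        apply hx.2
        intro h0
        apply (hi l₀).1
        rw [h0, coeff_zero]
      obtain ⟨n, hn⟩ : ∃ n, m l₀ = n + 1 := ⟨m l₀ - 1, by omega⟩
      have hcd : ∀ d : B →₀ ℕ, coeff d (pderiv default (F l₀ i)) =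
          coeff (d + Finsupp.single default 1) (F l₀ i) * ((d default : k) + 1) := by
        intro d
        rw [coeff_pderiv]
      have hd1 : coeff (Finsupp.single (default : B) n) (pderiv default (F l₀ i)) ≠ 0 := by
        rw [hcd, ← Finsupp.single_add, ← hn, Finsupp.single_eq_same]
        exact mul_ne_zero (hi l₀).1 (by exact_mod_cast Nat.succ_ne_zero n)
      have hd2 : ∀ d : B →₀ ℕ, coeff d (pderiv default (F l₀ i)) ≠ 0 → n ≤ d default := by
        intro d hd
        rw [hcd] at hd
        have h1 := (hi l₀).2 _ (left_ne_zero_of_mul hd)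
        rw [Finsupp.add_apply, Finsupp.single_eq_same] at h1
        omega
      have hdne : pderiv default (F l₀ i) ≠ 0 := by
        intro h0
        apply hd1
        rw [h0, coeff_zero]
      have hordP := Small2_ord v x hx (pderiv default (F l₀ i)) n hd1 hd2
      have hdet : (Matrix.of fun _ _ : B => aeval x (pderiv default (F l₀ i))).det =
          aeval x (pderiv default (F l₀ i)) := by
        rw [Matrix.det_unique, Matrix.of_apply]
      refine ⟨default, fun _ => aeval x (F l₀ i),
        Matrix.of fun _ _ => aeval x (pderiv default (F l₀ i)), rfl, fun _ => hFne, ?_, ?_, ?_⟩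
      · rw [hdet]
        exact hx.2 _ hdne
      · intro D b
        rw [der_aeval, Fintype.sum_unique, Fintype.sum_unique, Matrix.of_apply]
      · rw [hdet, hordP, map_one, v.ord_one, Fintype.sum_unique, haa, hvv, Nat.cast_mul, hto,
          hordF, hn]
        push_cast
        linarith
  · intro t θ hθ
    filter_upwards [h00] with i hi
    have hθ0 : 1 ≤ θ 0 := hθ 0
    refine ⟨X, fun _ => θ 0, ⟨?_, ?_⟩, ?_, ?_, ?_⟩
    · intro G hG
      rw [aeval_X_left_apply]
      exact hG
    · intro b
      refine ⟨X b, 1, ?_, ?_⟩
      · rw [map_one]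
        exact one_ne_zero
      · rw [map_one, mul_one, aeval_X_left_apply]
    · intro b
      have h1 : wo (fun _ : B => θ 0) (X b : MvPolynomial B k) = (θ 0 : ℕ) := by
        have h2 := MvPowerSeries.weightedOrder_monomial_of_ne_zero (fun _ : B => θ 0)
          (d := Finsupp.single b 1) (one_ne_zero (α := k))
        rw [wo, MvPolynomial.X, MvPolynomial.coe_monomial, h2]
        simp [Finsupp.weight_apply]
      rw [h1]
      exact_mod_cast hθ0
    · have h1 : jacP (X : B → MvPolynomial B k) = 1 := by
        rw [jacP]
        have h2 : (Matrix.of fun i j : B => pderiv i (X j : MvPolynomial B k)) = 1 := by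
          ext i' j'
          rw [Matrix.of_apply, pderiv_X, Matrix.one_apply, Pi.single_apply]
          simp only [eq_comm]
        rw [h2, Matrix.det_one]
      rw [h1, map_one, wo, MvPolynomial.coe_one, MvPowerSeries.weightedOrder_one]
      simp [LinType.aa]
    · intro l
      rw [aeval_X_left_apply]
      have h1 : (LinType.vv (⟨1, 1, 1, fun l _ => m l⟩ : LinType Λ) l θ) = m l * θ 0 := by
        simp [LinType.vv]
      rw [h1, wo]
      refine MvPowerSeries.le_weightedOrder _ fun d hd => ?_
      rw [MvPolynomial.coeff_coe]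
      by_contra hne
      have h2 := (hi l).2 d hne
      have h3 : Finsupp.weight (fun _ : B => θ 0) d = d default * θ 0 := by
        rw [Small2_eq_single d]
        simp [Finsupp.weight_apply]
      rw [h3] at hd
      have h4 : d default * θ 0 < m l * θ 0 := by exact_mod_cast hd
      exact absurd (Nat.mul_le_mul_right (θ 0) h2) (not_le.2 h4)

theorem blockOKS_card_le_one [CharZero k] (B : Type) [Fintype B] [DecidableEq B]
    (hB : Fintype.card B ≤ 1) : BlockOKS k B := by
  have hs : Subsingleton B := Fintype.card_le_one_iff_subsingleton.1 hB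
  rcases isEmpty_or_nonempty B with h | ⟨⟨b⟩⟩
  · exact Small2_empty B
  · have : Unique B := uniqueOfSubsingleton b
    exact Small2_unique B

private theorem Small2_wo_rename {B B' : Type} (e : B ≃ B') (w : B → ℕ) (f : MvPolynomial B k) :
    wo (w ∘ e.symm) (rename e f) = wo w f := by
  have hw : ∀ u : B →₀ ℕ, Finsupp.weight (w ∘ e.symm) (u.mapDomain e) = Finsupp.weight w u := by
    intro u
    rw [Finsupp.weight_apply, Finsupp.weight_apply, Finsupp.sum_mapDomain_index
      (fun i => by simp) (fun i m n => by rw [add_smul])]
    apply Finsupp.sum_congr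
    intro b _
    simp
  unfold wo
  apply le_antisymm
  · apply MvPowerSeries.le_weightedOrder
    intro d hd
    rw [← hw d] at hd
    have h := MvPowerSeries.coeff_eq_zero_of_lt_weightedOrder _ hd
    rw [MvPolynomial.coeff_coe] at h ⊢
    rwa [coeff_rename_mapDomain _ e.injective] at h
  · apply MvPowerSeries.le_weightedOrder
    intro d hd
    rw [MvPolynomial.coeff_coe]
    by_contra hne
    obtain ⟨u, rfl, hu⟩ := coeff_rename_ne_zero _ _ _ hne
    rw [hw u] at hd
    have h := MvPowerSeries.coeff_eq_zero_of_lt_weightedOrder _ hd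
    rw [MvPolynomial.coeff_coe] at h
    exact hu h

theorem blockOKS_equiv {B B' : Type} [Fintype B] [DecidableEq B] [Fintype B'] [DecidableEq B']
    (e : B ≃ B') (h : BlockOKS k B) : BlockOKS k B' := by
  intro Λ _ F' hF'
  have hren : ∀ f : MvPolynomial B' k, rename e (rename e.symm f) = f := by
    intro f
    rw [rename_rename, Equiv.self_comp_symm, rename_id_apply]
  obtain ⟨ι, hι, τ, hD, hR⟩ := h Λ (fun l i => rename e.symm (F' l i))
    (fun l => by
      obtain ⟨m, hm⟩ := hF' l
      refine ⟨m.mapDomain e.symm, ?_⟩
      filter_upwards [hm] with i hi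
      rw [coeff_rename_mapDomain _ e.symm.injective]
      exact hi)
  refine ⟨ι, hι, τ, ?_, ?_⟩
  · filter_upwards [hD] with i hi
    intro K _ _ v x' hx' l₀
    have hcen : Cen v (x' ∘ e) := by
      refine ⟨fun b => hx'.1 (e b), fun G hG => ?_⟩
      rw [← aeval_rename]
      refine hx'.2 _ fun h0 => hG ?_
      exact rename_injective e e.injective (by rw [h0, map_zero])
    have hae0 : ∀ l, aeval (x' ∘ e) (rename e.symm (F' l i)) = aeval x' (F' l i) := by
      intro l
      rw [← aeval_rename, hren]
    obtain ⟨t, θ, hlo, ⟨g, P, hg, hP, hder, hA, hV⟩, h2⟩ := hi K v (x' ∘ e) hcen l₀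
    refine ⟨t, θ, hlo, ⟨g ∘ e.symm, P.submatrix e.symm e.symm, fun b' => hg _, ?_, ?_, ?_, ?_⟩,
      ?_⟩
    · rw [Matrix.det_submatrix_equiv_self]
      exact hP
    · intro D b'
      rw [Function.comp_apply, hder D (e.symm b'), ← Equiv.sum_comp e.symm]
      refine Finset.sum_congr rfl fun c _ => ?_
      rw [Matrix.submatrix_apply, Function.comp_apply, Equiv.apply_symm_apply]
    · rw [Matrix.det_submatrix_equiv_self, map_one]
      rw [map_one] at hA
      have h1 : ∑ b', v.ord ((g ∘ e.symm) b') = ∑ b, v.ord (g b) :=
        Equiv.sum_comp e.symm fun b => v.ord (g b)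
      rw [h1]
      exact hA
    · intro l
      have h1 := hV l
      rw [hae0] at h1
      exact h1
    · intro hpos
      obtain ⟨b₀, g, P, hgb, hg, hP, hder, hA⟩ := h2 (by rw [hae0]; exact hpos)
      refine ⟨e b₀, g ∘ e.symm, P.submatrix e.symm e.symm, ?_, fun b' => hg _, ?_, ?_, ?_⟩
      · rw [Function.comp_apply, Equiv.symm_apply_apply, hgb, hae0]
      · rw [Matrix.det_submatrix_equiv_self]
        exact hP
      · intro D b'
        rw [Function.comp_apply, hder D (e.symm b'), ← Equiv.sum_comp e.symm]
        refine Finset.sum_congr rfl fun c _ => ?_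
        rw [Matrix.submatrix_apply, Function.comp_apply, Equiv.apply_symm_apply]
      · rw [Matrix.det_submatrix_equiv_self, map_one]
        rw [map_one] at hA
        have h1 : ∑ b', v.ord ((g ∘ e.symm) b') = ∑ b, v.ord (g b) :=
          Equiv.sum_comp e.symm fun b => v.ord (g b)
        rw [h1, Function.comp_apply, Equiv.symm_apply_apply]
        exact hA
  · intro t θ hlo
    filter_upwards [hR t θ hlo] with i hi
    obtain ⟨p, w, ⟨hb1, hb2⟩, hp, hA, hV⟩ := hi
    have hae : ∀ G : MvPolynomial B k, aeval (fun b' => rename e (p (e.symm b'))) (rename e G) =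
        rename e (aeval p G) := by
      intro G
      rw [aeval_rename, comp_aeval_apply]
      congr 2
      funext b
      simp
    have hae' : ∀ G : MvPolynomial B' k, aeval (fun b' => rename e (p (e.symm b'))) G =
        rename e (aeval p (rename e.symm G)) := by
      intro G
      rw [← hae, hren]
    refine ⟨fun b' => rename e (p (e.symm b')), w ∘ e.symm, ⟨?_, ?_⟩, ?_, ?_, ?_⟩
    · intro G hG
      rw [hae']
      intro h0
      have h1 : aeval p (rename e.symm G) = 0 :=
        rename_injective e e.injective (by rw [h0, map_zero])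
      refine hb1 _ (fun h2 => hG ?_) h1
      exact rename_injective e.symm e.symm.injective (by rw [h2, map_zero])
    · intro b'
      obtain ⟨N, D, h1, h2⟩ := hb2 (e.symm b')
      refine ⟨rename e N, rename e D, ?_, ?_⟩
      · rw [hae]
        intro h0
        exact h1 (rename_injective e e.injective (by rw [h0, map_zero]))
      · rw [hae, hae, ← h2, map_mul, rename_X, Equiv.apply_symm_apply]
    · intro b'
      rw [Small2_wo_rename]
      exact hp _
    · have h1 : jacP (fun b' => rename e (p (e.symm b'))) = rename e (jacP p) := by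
        rw [jacP, jacP, AlgHom.map_det, ← Matrix.det_submatrix_equiv_self e.symm]
        congr 1
        ext i' j'
        rw [Matrix.of_apply, Matrix.submatrix_apply, AlgHom.mapMatrix_apply, Matrix.map_apply,
          Matrix.of_apply]
        have h2 := pderiv_rename e.injective (R := k) (e.symm i') (p (e.symm j'))
        rw [Equiv.apply_symm_apply] at h2
        exact congrArg (coeff _) h2
      rw [h1, Small2_wo_rename, map_one]
      rw [map_one] at hA
      have h3 : ∑ b', (w ∘ e.symm) b' = ∑ b, w b := Equiv.sum_comp e.symm w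
      have h4 : wo (w ∘ e.symm) (1 : MvPolynomial B' k) = wo w (1 : MvPolynomial B k) := by
        rw [← Small2_wo_rename e w 1, map_one]
      rw [h3, h4]
      exact hA
    · intro l
      rw [hae', Small2_wo_rename]
      exact hV l

end MLD
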