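import Pool.Agent.MLD.TwoB
import Pool.Agent.MLD.Blk2

/-!
PIECE MLD-S1: strong domination goes down from the charts of the blow-up.

PROOF. Exactly as `dmd_m1`, `dmd_m2` in `TwoB.lean` (copy and adapt the private lemmas there): the
hypothesis `h` applied to `v, x'` and the same `l₀` gives `t, θ` with `Dmd1` for `x'` and, since
`aeval x' (aeval (m1 c) (T l₀)) = aeval x (T l₀)`, under `0 < v.ord (aeval x (T l₀))` also `Dmd2` for `x'`,
with `b₀, g, P'`. As in `TwoB.lean` replace `P'` by `P := P' * !![1/Z, -Y/Z^2; 0, 1]`; `g b₀` is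
unchanged and the inequality is the same.
-/

open MvPolynomial Filter

namespace MLD

universe u

private theorem twoB2_indep {k : Type u} [Field k] {K : Type u} [Field K] [Algebra k K]
    (x x' : Fin 2 → K) (m : Fin 2 → MvPolynomial (Fin 2) k) (s : MvPolynomial (Fin 2) k)
    (hs : aeval m s = X 1)
    (hb : ∀ b, ∃ (N : ℕ) (G' : MvPolynomial (Fin 2) k),
      aeval x G' = (aeval x s) ^ N * x' b ∧ aeval m G' = X 1 ^ N * X b)
    (G : MvPolynomial (Fin 2) k) :
    ∃ (N : ℕ) (G' : MvPolynomial (Fin 2) k),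
      aeval x G' = (aeval x s) ^ N * aeval x' G ∧ aeval m G' = X 1 ^ N * G := by
  induction G using MvPolynomial.induction_on with
  | C a =>
    refine ⟨0, C a, ?_, ?_⟩
    · simp
    · rw [pow_zero, one_mul, MvPolynomial.aeval_C]
      rfl
  | add p q hp hq =>
    obtain ⟨N1, G1, h1, e1⟩ := hp
    obtain ⟨N2, G2, h2, e2⟩ := hq
    refine ⟨N1 + N2, s ^ N2 * G1 + s ^ N1 * G2, ?_, ?_⟩
    · rw [map_add, map_mul, map_mul, map_pow, map_pow, h1, h2, map_add, pow_add]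
      ring
    · rw [map_add, map_mul, map_mul, map_pow, map_pow, e1, e2, hs, pow_add]
      ring
  | mul_X p b hp =>
    obtain ⟨N1, G1, h1, e1⟩ := hp
    obtain ⟨N2, G2, h2, e2⟩ := hb b
    refine ⟨N1 + N2, G1 * G2, ?_, ?_⟩
    · rw [map_mul, h1, h2, map_mul, aeval_X, pow_add]
      ring
    · rw [map_mul, e1, e2, pow_add]
      ring

private theorem twoB2_indep' {k : Type u} [Field k] {K : Type u} [Field K] [Algebra k K]
    (x x' : Fin 2 → K) (m : Fin 2 → MvPolynomial (Fin 2) k) (s : MvPolynomial (Fin 2) k)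
    (hs : aeval m s = X 1)
    (hx : ∀ G : MvPolynomial (Fin 2) k, G ≠ 0 → aeval x G ≠ 0)
    (hb : ∀ b, ∃ (N : ℕ) (G' : MvPolynomial (Fin 2) k),
      aeval x G' = (aeval x s) ^ N * x' b ∧ aeval m G' = X 1 ^ N * X b)
    (G : MvPolynomial (Fin 2) k) (hG : G ≠ 0) : aeval x' G ≠ 0 := by
  obtain ⟨N, G', h1, e1⟩ := twoB2_indep x x' m s hs hb G
  intro h0
  have hG' : G' ≠ 0 := by
    intro h2
    rw [h2, map_zero] at e1
    exact mul_ne_zero (pow_ne_zero N (X_ne_zero 1)) hG e1.symm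
  apply hx G' hG'
  rw [h1, h0, mul_zero]

private theorem twoB2_comp {k : Type u} [Field k] {K : Type u} [Field K] [Algebra k K]
    (x x' : Fin 2 → K) (m : Fin 2 → MvPolynomial (Fin 2) k) (h : ∀ b, aeval x' (m b) = x b)
    (G : MvPolynomial (Fin 2) k) : aeval x' (aeval m G) = aeval x G := by
  induction G using MvPolynomial.induction_on with
  | C a =>
    rw [MvPolynomial.aeval_C, MvPolynomial.aeval_C]
    exact (aeval x').commutes a
  | add p q hp hq => rw [map_add, map_add, map_add, hp, hq]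
  | mul_X p b hp => rw [map_mul, map_mul, map_mul, hp, aeval_X, aeval_X, h b]

private theorem twoB2_down1 {k : Type u} [Field k] {Λ : Type} (τ : LinType Λ)
    (θ : Fin τ.q → ℕ) (T : Λ → MvPolynomial (Fin 2) k) (J : MvPolynomial (Fin 2) k)
    {K : Type u} [Field K] [Algebra k K] (v : OrdFn k K) (x x' : Fin 2 → K)
    (m : Fin 2 → MvPolynomial (Fin 2) k) (hm : ∀ b, aeval x' (m b) = x b)
    (Q : Matrix (Fin 2) (Fin 2) K) (hQ0 : Q.det ≠ 0)
    (hQ : ∀ D : Derivation k K K, ∀ c, D (x' c) = ∑ d, Q c d * D (x d))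
    (hx1 : x' 1 ≠ 0) (hQo : v.ord Q.det = - v.ord (x' 1)) (hJx : aeval x J ≠ 0)
    (h : Dmd1 τ θ (fun l => aeval m (T l)) (aeval m J * X 1) v x') : Dmd1 τ θ T J v x := by
  obtain ⟨g, P, hg, hP, hD, hA, hT⟩ := h
  refine ⟨g, P * Q, hg, ?_, ?_, ?_, ?_⟩
  · rw [Matrix.det_mul]
    exact mul_ne_zero hP hQ0
  · intro D b
    rw [hD D b]
    simp only [Matrix.mul_apply, Finset.sum_mul]
    rw [Finset.sum_comm]
    refine Finset.sum_congr rfl fun c _ => ?_
    rw [hQ D c, Finset.mul_sum]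
    refine Finset.sum_congr rfl fun d _ => ?_
    ring
  · rw [Matrix.det_mul, v.ord_mul hP hQ0, hQo]
    rw [map_mul, twoB2_comp x x' m hm J, aeval_X, v.ord_mul hJx hx1] at hA
    linarith
  · intro l
    have := hT l
    simp only [twoB2_comp x x' m hm (T l)] at this
    exact this

private theorem twoB2_down2 {k : Type u} [Field k] {Λ : Type} (τ : LinType Λ)
    (θ : Fin τ.q → ℕ) (T : Λ → MvPolynomial (Fin 2) k) (J : MvPolynomial (Fin 2) k) (l₀ : Λ)
    {K : Type u} [Field K] [Algebra k K] (v : OrdFn k K) (x x' : Fin 2 → K)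
    (m : Fin 2 → MvPolynomial (Fin 2) k) (hm : ∀ b, aeval x' (m b) = x b)
    (Q : Matrix (Fin 2) (Fin 2) K) (hQ0 : Q.det ≠ 0)
    (hQ : ∀ D : Derivation k K K, ∀ c, D (x' c) = ∑ d, Q c d * D (x d))
    (hx1 : x' 1 ≠ 0) (hQo : v.ord Q.det = - v.ord (x' 1)) (hJx : aeval x J ≠ 0)
    (h : Dmd2 τ θ (fun l => aeval m (T l)) (aeval m J * X 1) l₀ v x') :
    Dmd2 τ θ T J l₀ v x := by
  obtain ⟨b₀, g, P, hb, hg, hP, hD, hA⟩ := h
  refine ⟨b₀, g, P * Q, ?_, hg, ?_, ?_, ?_⟩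
  · rw [hb]
    exact twoB2_comp x x' m hm (T l₀)
  · rw [Matrix.det_mul]
    exact mul_ne_zero hP hQ0
  · intro D b
    rw [hD D b]
    simp only [Matrix.mul_apply, Finset.sum_mul]
    rw [Finset.sum_comm]
    refine Finset.sum_congr rfl fun c _ => ?_
    rw [hQ D c, Finset.mul_sum]
    refine Finset.sum_congr rfl fun d _ => ?_
    ring
  · rw [Matrix.det_mul, v.ord_mul hP hQ0, hQo]
    rw [map_mul, twoB2_comp x x' m hm J, aeval_X, v.ord_mul hJx hx1] at hA
    linarith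

private theorem twoB2_down {k : Type u} [Field k] {Λ ι : Type} (τ : ι → LinType Λ)
    (T : Λ → MvPolynomial (Fin 2) k) (J : MvPolynomial (Fin 2) k) (l₀ : Λ)
    {K : Type u} [Field K] [Algebra k K] (v : OrdFn k K) (x x' : Fin 2 → K)
    (m : Fin 2 → MvPolynomial (Fin 2) k) (hm : ∀ b, aeval x' (m b) = x b)
    (Q : Matrix (Fin 2) (Fin 2) K) (hQ0 : Q.det ≠ 0)
    (hQ : ∀ D : Derivation k K K, ∀ c, D (x' c) = ∑ d, Q c d * D (x d))
    (hx1 : x' 1 ≠ 0) (hQo : v.ord Q.det = - v.ord (x' 1)) (hJx : aeval x J ≠ 0)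
    (h : DmdS τ (fun l => aeval m (T l)) (aeval m J * X 1) l₀ v x') : DmdS τ T J l₀ v x := by
  obtain ⟨t, θ, hlo, h1, h2⟩ := h
  refine ⟨t, θ, hlo, twoB2_down1 (τ t) θ T J v x x' m hm Q hQ0 hQ hx1 hQo hJx h1, fun h3 => ?_⟩
  refine twoB2_down2 (τ t) θ T J l₀ v x x' m hm Q hQ0 hQ hx1 hQo hJx (h2 ?_)
  rwa [twoB2_comp x x' m hm (T l₀)]

variable {k : Type u} [Field k] {Λ ι : Type} (τ : ι → LinType Λ)
  (T : Λ → MvPolynomial (Fin 2) k) (J : MvPolynomial (Fin 2) k) (hJ : J ≠ 0) (l₀ : Λ)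
  {K : Type u} [Field K] [Algebra k K] (v : OrdFn k K) (x : Fin 2 → K) (hx : Cen v x)

include hJ hx

theorem dmd_m1S (c : k) (h : DomS τ (fun l => aeval (m1 c) (T l)) (aeval (m1 c) J * X 1))
    (hc : 0 < v.ord (x 0 / x 1 - algebraMap k K c)) : DmdS τ T J l₀ v x := by
  have hx0 : x 0 ≠ 0 := by
    have := hx.2 (X 0) (X_ne_zero 0)
    rwa [aeval_X] at this
  have hx1 : x 1 ≠ 0 := by
    have := hx.2 (X 1) (X_ne_zero 1)
    rwa [aeval_X] at this
  have e0 : (m1 c : Fin 2 → MvPolynomial (Fin 2) k) 0 = X 1 * (X 0 + C c) := rfl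
  have e1 : (m1 c : Fin 2 → MvPolynomial (Fin 2) k) 1 = X 1 := rfl
  set x' : Fin 2 → K := ![x 0 / x 1 - algebraMap k K c, x 1] with hx'
  have f0 : x' 0 = x 0 / x 1 - algebraMap k K c := rfl
  have f1 : x' 1 = x 1 := rfl
  have hm : ∀ b, aeval x' (m1 c b) = x b := by
    intro b
    fin_cases b
    · show aeval x' (m1 c 0) = x 0
      rw [e0, map_mul, map_add, aeval_X, aeval_X, MvPolynomial.aeval_C, f0, f1]
      field_simp
      ring
    · show aeval x' (m1 c 1) = x 1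
      rw [e1, aeval_X, f1]
  have hcen : Cen v x' := by
    refine ⟨?_, ?_⟩
    · intro b
      fin_cases b
      · exact hc
      · exact hx.1 1
    · apply twoB2_indep' x x' (m1 c) (X 1) (by rw [aeval_X, e1]) hx.2
      intro b
      fin_cases b
      · refine ⟨1, X 0 - C c * X 1, ?_, ?_⟩
        · show aeval x (X 0 - C c * X 1) = (aeval x (X 1)) ^ 1 * x' 0
          rw [map_sub, map_mul, aeval_X, aeval_X, MvPolynomial.aeval_C, f0]
          field_simp
        · show aeval (m1 c) (X 0 - C c * X 1) = X 1 ^ 1 * X 0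
          rw [map_sub, map_mul, aeval_X, aeval_X, MvPolynomial.aeval_C, e0, e1]
          show X 1 * (X 0 + C c) - C c * X 1 = X 1 ^ 1 * X 0
          ring
      · refine ⟨0, X 1, ?_, ?_⟩
        · show aeval x (X 1) = (aeval x (X 1)) ^ 0 * x' 1
          rw [aeval_X, f1, pow_zero, one_mul]
        · show aeval (m1 c) (X 1) = X 1 ^ 0 * X 1
          rw [aeval_X, e1, pow_zero, one_mul]
  refine twoB2_down τ T J l₀ v x x' (m1 c) hm !![1 / x 1, - x 0 / x 1 ^ 2; 0, 1] ?_ ?_ ?_ ?_ ?_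
    (h K v x' hcen l₀)
  · rw [Matrix.det_fin_two_of]
    simpa using hx1
  · intro D b
    rw [Fin.sum_univ_two]
    fin_cases b
    · show D (x 0 / x 1 - algebraMap k K c) = 1 / x 1 * D (x 0) + - x 0 / x 1 ^ 2 * D (x 1)
      rw [map_sub, D.map_algebraMap, sub_zero, Derivation.leibniz_div]
      simp only [smul_eq_mul]
      field_simp
      ring
    · show D (x 1) = 0 * D (x 0) + 1 * D (x 1)
      ring
  · rw [f1]; exact hx1
  · rw [Matrix.det_fin_two_of, f1]
    have : (1 / x 1 * 1 - -x 0 / x 1 ^ 2 * 0 : K) = (x 1)⁻¹ := by ring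
    rw [this, v.ord_inv _ hx1]
  · exact hx.2 J hJ

theorem dmd_m2S (h : DomS τ (fun l => aeval (m2 k) (T l)) (aeval (m2 k) J * X 1))
    (hc : v.ord (x 0) < v.ord (x 1)) : DmdS τ T J l₀ v x := by
  have hx0 : x 0 ≠ 0 := by
    have := hx.2 (X 0) (X_ne_zero 0)
    rwa [aeval_X] at this
  have hx1 : x 1 ≠ 0 := by
    have := hx.2 (X 1) (X_ne_zero 1)
    rwa [aeval_X] at this
  have e0 : (m2 k : Fin 2 → MvPolynomial (Fin 2) k) 0 = X 1 := rfl
  have e1 : (m2 k : Fin 2 → MvPolynomial (Fin 2) k) 1 = X 1 * X 0 := rfl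
  set x' : Fin 2 → K := ![x 1 / x 0, x 0] with hx'
  have f0 : x' 0 = x 1 / x 0 := rfl
  have f1 : x' 1 = x 0 := rfl
  have hm : ∀ b, aeval x' (m2 k b) = x b := by
    intro b
    fin_cases b
    · show aeval x' (m2 k 0) = x 0
      rw [e0, aeval_X, f1]
    · show aeval x' (m2 k 1) = x 1
      rw [e1, map_mul, aeval_X, aeval_X, f0, f1]
      field_simp
  have hcen : Cen v x' := by
    refine ⟨?_, ?_⟩
    · intro b
      fin_cases b
      · show 0 < v.ord (x 1 / x 0)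
        rw [v.ord_div hx1 hx0]
        linarith
      · exact hx.1 0
    · apply twoB2_indep' x x' (m2 k) (X 0) (by rw [aeval_X, e0]) hx.2
      intro b
      fin_cases b
      · refine ⟨1, X 1, ?_, ?_⟩
        · show aeval x (X 1) = (aeval x (X 0)) ^ 1 * x' 0
          rw [aeval_X, aeval_X, f0]
          field_simp
        · show aeval (m2 k) (X 1) = X 1 ^ 1 * X 0
          rw [aeval_X, e1, pow_one]
      · refine ⟨0, X 0, ?_, ?_⟩
        · show aeval x (X 0) = (aeval x (X 0)) ^ 0 * x' 1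
          rw [aeval_X, f1, pow_zero, one_mul]
        · show aeval (m2 k) (X 0) = X 1 ^ 0 * X 1
          rw [aeval_X, e0, pow_zero, one_mul]
  refine twoB2_down τ T J l₀ v x x' (m2 k) hm !![- x 1 / x 0 ^ 2, 1 / x 0; 1, 0] ?_ ?_ ?_ ?_ ?_
    (h K v x' hcen l₀)
  · rw [Matrix.det_fin_two_of]
    simpa using hx0
  · intro D b
    rw [Fin.sum_univ_two]
    fin_cases b
    · show D (x 1 / x 0) = - x 1 / x 0 ^ 2 * D (x 0) + 1 / x 0 * D (x 1)
      rw [Derivation.leibniz_div]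
      simp only [smul_eq_mul]
      field_simp
      ring
    · show D (x 0) = 1 * D (x 0) + 0 * D (x 1)
      ring
  · rw [f1]; exact hx0
  · rw [Matrix.det_fin_two_of, f1]
    have : (- x 1 / x 0 ^ 2 * 0 - 1 / x 0 * 1 : K) = - (x 0)⁻¹ := by ring
    rw [this, v.ord_neg _ (inv_ne_zero hx0), v.ord_inv _ hx0]
  · exact hx.2 J hJ

end MLD
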