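import Pool.Agent.MLD.TwoD
import Pool.Agent.MLD.Blk2

/-!
PIECE MLD-S2: strong domination at the generic point of the exceptional divisor.

PROOF. `dmd_generic` (see `TwoD.lean`, copy its proof to get hold of `t = ()` and `θ = ord Z`) gives
`Dmd1`. Let `Y := x 0`, `Z := x 1`, `θ := ord Y = ord Z ≥ 1`, `N := L l₀ + M l₀ + e l₀`. By `genOrd_F`
`v.ord (aeval x (T l₀)) = N θ`. Suppose this is positive, so `N ≥ 1`, `(N : k) ≠ 0`. For `Dmd2` take
`h := Y / Z - c` where `c : k` is chosen with `0 < v.ord (Y / Z - c)` if such `c` exists, otherwise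
`c := 0` (then `h = Y / Z`, order `0`); in both cases `h ≠ 0` and `0 ≤ v.ord h`.
`b₀ := 0`, `g := ![aeval x (T l₀), h]`, `P := !![aeval x (pderiv 0 (T l₀)), aeval x (pderiv 1 (T l₀));
1 / Z, -Y / Z ^ 2]` (`der_aeval`). Then `det P = -(Y * T_Y + Z * T_Z) / Z ^ 2`
`= - aeval x (X 0 * pderiv 0 T + X 1 * pderiv 1 T) / Z ^ 2`. CLAIM: the Euler polynomial
`ET := X 0 * pderiv 0 T + X 1 * pderiv 1 T` satisfies `aeval x ET ≠ 0`, `v.ord (aeval x ET) = N θ`:
`ET = X 0 ^ L * X 1 ^ M * ((L + M : k) • F + EF)`, and the polynomial `G := (L + M) F + EF` has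
coefficients `(L + M + degree m) * coeff m F`, so its coefficients of degree `< e` vanish and
`ini e G = N • ini e F`: apply `genOrd_F` to `G` (nonzero because `k` has characteristic zero; same
roots as `ini e F`). Hence
`v.ord P.det = N θ - 2 θ` and the inequality reads
`(2 + α + β) θ ≤ (N θ - N θ) + (N θ + ord h) - (N θ - 2 θ) + (α + β) θ`.
-/

open MvPolynomial Filter

namespace MLD

universe u

private theorem TwoD2_coeff {k : Type u} [Field k] (F : MvPolynomial (Fin 2) k)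
    (m : Fin 2 →₀ ℕ) :
    coeff m (X 0 * pderiv 0 F + X 1 * pderiv 1 F) = ((m 0 : k) + (m 1 : k)) * coeff m F := by
  classical
  induction F using MvPolynomial.induction_on' with
  | monomial u a =>
    rw [X_mul_pderiv_monomial, X_mul_pderiv_monomial, coeff_add, coeff_smul, coeff_smul,
      coeff_monomial]
    by_cases h : u = m
    · subst h
      rw [if_pos rfl, nsmul_eq_mul, nsmul_eq_mul]
      ring
    · rw [if_neg h]
      simp
  | add p q hp hq =>
    have h1 : X 0 * pderiv 0 (p + q) + X 1 * pderiv 1 (p + q) =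
        (X 0 * pderiv 0 p + X 1 * pderiv 1 p) + (X 0 * pderiv 0 q + X 1 * pderiv 1 q) := by
      rw [map_add, map_add]
      ring
    rw [h1, coeff_add, hp, hq, coeff_add]
    ring

private theorem TwoD2_ini {k : Type u} [Field k] (L M e : ℕ) (F : MvPolynomial (Fin 2) k) :
    ini e (C ((L : k) + (M : k)) * F + (X 0 * pderiv 0 F + X 1 * pderiv 1 F)) =
      Polynomial.C ((L + M + e : ℕ) : k) * ini e F := by
  rw [ini, ini, Finset.mul_sum]
  refine Finset.sum_congr rfl fun j hj => ?_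
  have hj' : j ≤ e := by
    rw [Finset.mem_range] at hj
    omega
  rw [coeff_add, coeff_C_mul, TwoD2_coeff, ← mul_assoc, ← Polynomial.C_mul]
  congr 2
  have h0 : (mon j (e - j)) 0 = j := mon_apply_zero _ _
  have h1 : (mon j (e - j)) 1 = e - j := by
    rw [mon]
    simp
  rw [h0, h1]
  have h2 : ((j : ℕ) : k) + ((e - j : ℕ) : k) = (e : k) := by
    rw [← Nat.cast_add]
    congr 1
    omega
  push_cast
  rw [← h2]
  ring

private theorem TwoD2_euler {k : Type u} [Field k] (L M : ℕ) (F : MvPolynomial (Fin 2) k) :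
    X 0 * pderiv 0 (X 0 ^ L * X 1 ^ M * F) + X 1 * pderiv 1 (X 0 ^ L * X 1 ^ M * F) =
      X 0 ^ L * X 1 ^ M * (C ((L : k) + (M : k)) * F + (X 0 * pderiv 0 F + X 1 * pderiv 1 F)) := by
  have hX : ∀ (i : Fin 2) (n : ℕ), (X i : MvPolynomial (Fin 2) k) * pderiv i (X i ^ n) =
      C (n : k) * X i ^ n := by
    intro i n
    rw [Derivation.leibniz_pow, pderiv_X_self, smul_eq_mul, mul_one, nsmul_eq_mul]
    rcases n with _ | n
    · simp
    · rw [Nat.add_sub_cancel, map_natCast, pow_succ]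
      ring
  have h01 : pderiv 0 (X 1 ^ M : MvPolynomial (Fin 2) k) = 0 := by
    rw [Derivation.leibniz_pow, pderiv_X_of_ne (by decide)]
    simp
  have h10 : pderiv 1 (X 0 ^ L : MvPolynomial (Fin 2) k) = 0 := by
    rw [Derivation.leibniz_pow, pderiv_X_of_ne (by decide)]
    simp
  rw [Derivation.leibniz, Derivation.leibniz, Derivation.leibniz, Derivation.leibniz, h01, h10]
  simp only [smul_eq_mul, mul_zero, zero_add, add_zero]
  have e0 := hX 0 L
  have e1 := hX 1 M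
  rw [map_add]
  linear_combination (X 1 ^ M * F) * e0 + (X 0 ^ L * F) * e1

private theorem TwoD2_dmd1 {k : Type u} [Field k] [IsAlgClosed k] {Λ : Type}
    (α β : ℕ) (L M e : Λ → ℕ) (F : Λ → MvPolynomial (Fin 2) k) (V : MvPolynomial (Fin 2) k)
    (T : Λ → MvPolynomial (Fin 2) k) (J : MvPolynomial (Fin 2) k)
    (hT : ∀ l, T l = X 0 ^ L l * X 1 ^ M l * F l) (hJ : J = X 0 ^ α * X 1 ^ β * V)
    (hV : coeff 0 V ≠ 0) (he : ∀ l, ∀ m : Fin 2 →₀ ℕ, m.degree < e l → coeff m (F l) = 0)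
    (hi : ∀ l, ini (e l) (F l) ≠ 0)
    {K : Type u} [Field K] [Algebra k K] (v : OrdFn k K) (x : Fin 2 → K) (hx : Cen v x)
    (hord : v.ord (x 0) = v.ord (x 1))
    (hroot : ∀ l, ∀ ρ : k, (ini (e l) (F l)).IsRoot ρ →
      ¬ 0 < v.ord (x 0 / x 1 - algebraMap k K ρ)) :
    Dmd1 (divType α β L M e) (fun _ => (v.ord (x 1)).toNat) T J v x := by
  have hY : x 0 ≠ 0 := by
    have := hx.2 (X 0) (X_ne_zero 0)
    rwa [aeval_X] at this
  have hZ : x 1 ≠ 0 := by
    have := hx.2 (X 1) (X_ne_zero 1)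
    rwa [aeval_X] at this
  have hq : 0 < v.ord (x 1) := hx.1 1
  have hYZ : v.ord (x 0 / x 1) = 0 := by
    rw [v.ord_div hY hZ, hord, sub_self]
  have hqn : ((v.ord (x 1)).toNat : ℤ) = v.ord (x 1) := Int.toNat_of_nonneg hq.le
  have hdet : (!![1 / x 1, -(x 0 / x 1 ^ 2); 0, 1] : Matrix (Fin 2) (Fin 2) K).det = 1 / x 1 := by
    rw [Matrix.det_fin_two_of]
    ring
  refine ⟨![x 0 / x 1, x 1], !![1 / x 1, -(x 0 / x 1 ^ 2); 0, 1], ?_, ?_, ?_, ?_, ?_⟩
  · intro b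
    fin_cases b
    · exact div_ne_zero hY hZ
    · exact hZ
  · rw [hdet]
    exact one_div_ne_zero hZ
  · intro D b
    rw [Fin.sum_univ_two]
    fin_cases b
    · show D (x 0 / x 1) = 1 / x 1 * D (x 0) + -(x 0 / x 1 ^ 2) * D (x 1)
      rw [Derivation.leibniz_div]
      simp only [smul_eq_mul]
      field_simp
      ring
    · show D (x 1) = 0 * D (x 0) + 1 * D (x 1)
      ring
  · have hJord : v.ord (aeval x J) = α * v.ord (x 1) + β * v.ord (x 1) := by
      obtain ⟨hV1, hV2⟩ := v.ord_aeval_of_coeff_zero x (fun b => Or.inr (hx.1 b)) V hV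
      rw [hJ, map_mul, map_mul, map_pow, map_pow, aeval_X, aeval_X,
        v.ord_mul (mul_ne_zero (pow_ne_zero _ hY) (pow_ne_zero _ hZ)) hV1,
        v.ord_mul (pow_ne_zero _ hY) (pow_ne_zero _ hZ), v.ord_pow hY, v.ord_pow hZ, hV2, hord,
        add_zero]
    rw [hdet, hJord, Fin.sum_univ_two]
    have h1 : v.ord (1 / x 1) = - v.ord (x 1) := by
      rw [one_div, v.ord_inv _ hZ]
    rw [h1]
    show (((divType α β L M e).aa fun _ => (v.ord (x 1)).toNat : ℕ) : ℤ) ≤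
      v.ord (x 0 / x 1) + v.ord (x 1) - -v.ord (x 1) + (α * v.ord (x 1) + β * v.ord (x 1))
    rw [hYZ]
    have h2 : ((divType α β L M e).aa fun _ => (v.ord (x 1)).toNat)
        = (2 + α + β) * (v.ord (x 1)).toNat := by
      rw [LinType.aa]
      exact Fin.sum_univ_one (fun _ : Fin 1 => (2 + α + β) * (v.ord (x 1)).toNat)
    rw [h2]
    push_cast
    rw [hqn]
    linarith
  · intro l
    obtain ⟨hF1, hF2⟩ := genOrd_F v x hx hord (e l) (F l) (he l) (hi l) (hroot l)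
    have h2 : ((divType α β L M e).vv l fun _ => (v.ord (x 1)).toNat)
        = (L l + M l + e l) * (v.ord (x 1)).toNat := by
      rw [LinType.vv]
      exact Fin.sum_univ_one (fun _ : Fin 1 => (L l + M l + e l) * (v.ord (x 1)).toNat)
    rw [h2, hT, map_mul, map_mul, map_pow, map_pow, aeval_X, aeval_X,
      v.ord_mul (mul_ne_zero (pow_ne_zero _ hY) (pow_ne_zero _ hZ)) hF1,
      v.ord_mul (pow_ne_zero _ hY) (pow_ne_zero _ hZ), v.ord_pow hY, v.ord_pow hZ, hF2, hord]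
    push_cast
    rw [hqn]
    linarith

theorem dmd_genericS {k : Type u} [Field k] [IsAlgClosed k] [CharZero k] {Λ : Type}
    (α β : ℕ) (L M e : Λ → ℕ) (F : Λ → MvPolynomial (Fin 2) k) (V : MvPolynomial (Fin 2) k)
    (T : Λ → MvPolynomial (Fin 2) k) (J : MvPolynomial (Fin 2) k) (l₀ : Λ)
    (hT : ∀ l, T l = X 0 ^ L l * X 1 ^ M l * F l) (hJ : J = X 0 ^ α * X 1 ^ β * V)
    (hV : coeff 0 V ≠ 0) (he : ∀ l, ∀ m : Fin 2 →₀ ℕ, m.degree < e l → coeff m (F l) = 0)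
    (hi : ∀ l, ini (e l) (F l) ≠ 0)
    {K : Type u} [Field K] [Algebra k K] (v : OrdFn k K) (x : Fin 2 → K) (hx : Cen v x)
    (hord : v.ord (x 0) = v.ord (x 1))
    (hroot : ∀ l, ∀ ρ : k, (ini (e l) (F l)).IsRoot ρ →
      ¬ 0 < v.ord (x 0 / x 1 - algebraMap k K ρ)) :
    DmdS (fun _ : Unit => divType α β L M e) T J l₀ v x := by
  have hY : x 0 ≠ 0 := by
    have := hx.2 (X 0) (X_ne_zero 0)
    rwa [aeval_X] at this
  have hZ : x 1 ≠ 0 := by
    have := hx.2 (X 1) (X_ne_zero 1)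
    rwa [aeval_X] at this
  have hq : 0 < v.ord (x 1) := hx.1 1
  have hYZ : v.ord (x 0 / x 1) = 0 := by
    rw [v.ord_div hY hZ, hord, sub_self]
  have hqn : ((v.ord (x 1)).toNat : ℤ) = v.ord (x 1) := Int.toNat_of_nonneg hq.le
  refine ⟨(), fun _ => (v.ord (x 1)).toNat, ?_, TwoD2_dmd1 α β L M e F V T J hT hJ hV he hi v x hx
    hord hroot, ?_⟩
  · intro c
    show 1 ≤ (v.ord (x 1)).toNat
    omega
  intro hpos
  obtain ⟨hF1, hF2⟩ := genOrd_F v x hx hord (e l₀) (F l₀) (he l₀) (hi l₀) (hroot l₀)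
  have hmon : x 0 ^ L l₀ * x 1 ^ M l₀ ≠ 0 := mul_ne_zero (pow_ne_zero _ hY) (pow_ne_zero _ hZ)
  have hmonord : v.ord (x 0 ^ L l₀ * x 1 ^ M l₀) = (L l₀ + M l₀ : ℕ) * v.ord (x 1) := by
    rw [v.ord_mul (pow_ne_zero _ hY) (pow_ne_zero _ hZ), v.ord_pow hY, v.ord_pow hZ, hord]
    push_cast
    ring
  have hTne : aeval x (T l₀) ≠ 0 := by
    rw [hT, map_mul, map_mul, map_pow, map_pow, aeval_X, aeval_X]
    exact mul_ne_zero hmon hF1
  have hTord : v.ord (aeval x (T l₀)) = ((L l₀ + M l₀ + e l₀ : ℕ) : ℤ) * v.ord (x 1) := by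
    rw [hT, map_mul, map_mul, map_pow, map_pow, aeval_X, aeval_X, v.ord_mul hmon hF1, hmonord, hF2]
    push_cast
    ring
  have hN : (L l₀ + M l₀ + e l₀) ≠ 0 := by
    intro h
    rw [hTord, h] at hpos
    simp at hpos
  have hNk : ((L l₀ + M l₀ + e l₀ : ℕ) : k) ≠ 0 := Nat.cast_ne_zero.mpr hN
  set G : MvPolynomial (Fin 2) k := C ((L l₀ : k) + (M l₀ : k)) * F l₀ +
    (X 0 * pderiv 0 (F l₀) + X 1 * pderiv 1 (F l₀)) with hG
  have hGini : ini (e l₀) G = Polynomial.C ((L l₀ + M l₀ + e l₀ : ℕ) : k) * ini (e l₀) (F l₀) :=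
    TwoD2_ini (L l₀) (M l₀) (e l₀) (F l₀)
  have hGlow : ∀ m : Fin 2 →₀ ℕ, m.degree < e l₀ → coeff m G = 0 := by
    intro m hm
    rw [hG, coeff_add, coeff_C_mul, TwoD2_coeff, he l₀ m hm]
    ring
  have hGne : ini (e l₀) G ≠ 0 := by
    rw [hGini]
    exact mul_ne_zero (by rwa [Ne, Polynomial.C_eq_zero]) (hi l₀)
  have hGroot : ∀ ρ : k, (ini (e l₀) G).IsRoot ρ →
      ¬ 0 < v.ord (x 0 / x 1 - algebraMap k K ρ) := by
    intro ρ hρ
    refine hroot l₀ ρ ?_
    rw [hGini, Polynomial.IsRoot.def, Polynomial.eval_mul, Polynomial.eval_C] at hρ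
    rcases mul_eq_zero.mp hρ with h | h
    · exact absurd h hNk
    · exact h
  obtain ⟨hG1, hG2⟩ := genOrd_F v x hx hord (e l₀) G hGlow hGne hGroot
  have hE : x 0 * aeval x (pderiv 0 (T l₀)) + x 1 * aeval x (pderiv 1 (T l₀)) =
      x 0 ^ L l₀ * x 1 ^ M l₀ * aeval x G := by
    have h := congrArg (aeval x) (TwoD2_euler (L l₀) (M l₀) (F l₀))
    rw [← hT l₀, ← hG] at h
    rw [map_add, map_mul, map_mul, aeval_X, aeval_X, map_mul, map_mul, map_pow, map_pow, aeval_X,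
      aeval_X] at h
    exact h
  have hdet : (!![aeval x (pderiv 0 (T l₀)), aeval x (pderiv 1 (T l₀));
      1 / x 1, -(x 0 / x 1 ^ 2)] : Matrix (Fin 2) (Fin 2) K).det =
      -(x 0 ^ L l₀ * x 1 ^ M l₀ * aeval x G) / x 1 ^ 2 := by
    rw [Matrix.det_fin_two_of, ← hE]
    field_simp
    ring
  have hEne : x 0 ^ L l₀ * x 1 ^ M l₀ * aeval x G ≠ 0 := mul_ne_zero hmon hG1
  have hEord : v.ord (x 0 ^ L l₀ * x 1 ^ M l₀ * aeval x G) =
      ((L l₀ + M l₀ + e l₀ : ℕ) : ℤ) * v.ord (x 1) := by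
    rw [v.ord_mul hmon hG1, hmonord, hG2]
    push_cast
    ring
  have hdetord : v.ord (-(x 0 ^ L l₀ * x 1 ^ M l₀ * aeval x G) / x 1 ^ 2) =
      ((L l₀ + M l₀ + e l₀ : ℕ) : ℤ) * v.ord (x 1) - 2 * v.ord (x 1) := by
    rw [v.ord_div (neg_ne_zero.mpr hEne) (pow_ne_zero _ hZ), v.ord_neg _ hEne, hEord, v.ord_pow hZ]
    push_cast
    ring
  refine ⟨0, ![aeval x (T l₀), x 0 / x 1], !![aeval x (pderiv 0 (T l₀)), aeval x (pderiv 1 (T l₀));
      1 / x 1, -(x 0 / x 1 ^ 2)], rfl, ?_, ?_, ?_, ?_⟩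
  · intro b
    fin_cases b
    · exact hTne
    · exact div_ne_zero hY hZ
  · rw [hdet]
    exact div_ne_zero (neg_ne_zero.mpr hEne) (pow_ne_zero _ hZ)
  · intro D b
    rw [Fin.sum_univ_two]
    fin_cases b
    · show D (aeval x (T l₀)) = aeval x (pderiv 0 (T l₀)) * D (x 0) +
        aeval x (pderiv 1 (T l₀)) * D (x 1)
      rw [der_aeval, Fin.sum_univ_two]
    · show D (x 0 / x 1) = 1 / x 1 * D (x 0) + -(x 0 / x 1 ^ 2) * D (x 1)
      rw [Derivation.leibniz_div]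
      simp only [smul_eq_mul]
      field_simp
      ring
  · have hJord : v.ord (aeval x J) = α * v.ord (x 1) + β * v.ord (x 1) := by
      obtain ⟨hV1, hV2⟩ := v.ord_aeval_of_coeff_zero x (fun b => Or.inr (hx.1 b)) V hV
      rw [hJ, map_mul, map_mul, map_pow, map_pow, aeval_X, aeval_X,
        v.ord_mul (mul_ne_zero (pow_ne_zero _ hY) (pow_ne_zero _ hZ)) hV1,
        v.ord_mul (pow_ne_zero _ hY) (pow_ne_zero _ hZ), v.ord_pow hY, v.ord_pow hZ, hV2, hord,
        add_zero]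
    rw [hdet, hdetord, hJord, Fin.sum_univ_two]
    show (((divType α β L M e).aa fun _ => (v.ord (x 1)).toNat : ℕ) : ℤ) ≤
      ((((divType α β L M e).vv l₀ fun _ => (v.ord (x 1)).toNat : ℕ) : ℤ) -
        v.ord (aeval x (T l₀))) + (v.ord (aeval x (T l₀)) + v.ord (x 0 / x 1)) -
        (((L l₀ + M l₀ + e l₀ : ℕ) : ℤ) * v.ord (x 1) - 2 * v.ord (x 1)) +
        (α * v.ord (x 1) + β * v.ord (x 1))
    have h2 : ((divType α β L M e).aa fun _ => (v.ord (x 1)).toNat)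
        = (2 + α + β) * (v.ord (x 1)).toNat := by
      rw [LinType.aa]
      exact Fin.sum_univ_one (fun _ : Fin 1 => (2 + α + β) * (v.ord (x 1)).toNat)
    have h3 : ((divType α β L M e).vv l₀ fun _ => (v.ord (x 1)).toNat)
        = (L l₀ + M l₀ + e l₀) * (v.ord (x 1)).toNat := by
      rw [LinType.vv]
      exact Fin.sum_univ_one (fun _ : Fin 1 => (L l₀ + M l₀ + e l₀) * (v.ord (x 1)).toNat)
    rw [h2, h3, hYZ, hTord]
    push_cast
    rw [hqn]
    linarith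

end MLD
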