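import Pool.Agent.MLD.TwoF
import Pool.Agent.MLD.Blk2

/-!
PIECE MLD-S3: strong domination at terminal points. See `TwoF.lean` for the plain versions.

PROOF of `dom_t0S`. `Y := x 0`, `Z := x 1`, `θ = ![ord Y, ord Z]` as in `dom_t0`. Let `T := T l₀`,
`L := L l₀`, `M := M l₀`, `F := F l₀` (a unit at the origin), and suppose `0 < v.ord (aeval x T)`, so
`L + M ≥ 1`. If `M ≥ 1`: `b₀ := 1`, `g := ![Y, aeval x T]`, `P := !![1, 0; T_Y, T_Z]`, `det P = T_Z`,
`T_Z = Y^L Z^(M-1) (M F + Z F_Z)` with `M F + Z F_Z` nonvanishing at the origin (characteristic zero).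
If `M = 0`, `L ≥ 1`: `b₀ := 0`, `g := ![aeval x T, Z]`, `P := !![T_Y, T_Z; 0, 1]`,
`T_Y = Y^(L-1) Z^M (L F + Y F_Y)`. Both inequalities are equalities.

PROOF of `dom_t1S`. Let `N := N l₀`, `M := M l₀`.
(a) `N = 0`, `M = 0`: `T l₀` does not vanish at the origin, so its order is `0`; use `dom_t1`.
(b) `N ≥ 1`: take `θ = ![b, ord Z]` and the tuple for `Dmd1` as in the proof of `dom_t1` (`b` is the
maximum of `ord Y` and of the slopes `δ l j := ord ((∂_Y)^j F_l) - ord ((∂_Y)^(j+1) F_l)`, `j < N l`).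
`Dmd2`: `b₀ := 0`, `g := ![aeval x T, Z]`, `P := !![T_Y, T_Z; 0, 1]`, `det P = T_Y = Z^M F_Y`,
`ord F_Y = ∑_{1 ≤ j < N} δ l₀ j ≤ (N - 1) b` (`∂_Y^N F` is a unit at the origin), so
`b + (1+β) ord Z ≤ (N b + M ord Z) + ord Z - (M ord Z + ord F_Y) + β ord Z`.
(c) `N = 0`, `M ≥ 1`: `T = Z^M F`, `F` nonvanishing at the origin. Use the polynomial vector field
`δ G := (M F + Z F_Z) G_Y - Z F_Y G_Z`, so that `T_Y G_Z - T_Z G_Y = - Z^(M-1) δ G`. For every `l`
the polynomial `δ^(N l) (F l)` is nonvanishing at the origin: modulo `Z` (apply `atY`) `δ` becomes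
`u * d/dY` with `u := M * atY F`, `u(0) ≠ 0`, and `atY (F l) = c Y^(N l) + higher` with `c ≠ 0` by
`hF`, `hF0`, so `(u d/dY)^(N l)` has constant term `u(0)^N N! c`. So all `G l j := δ^j (F l)`,
`j ≤ N l`, are nonzero. Let `b` be the maximum of `ord Y` and of all slopes
`ord (G l j) - ord (G l (j+1))`, `j < N l`; it is attained by some `h` with `ord h - ord (δ h) = b`
(`h = Y`: `δ Y = M F + Z F_Z` is a unit at the origin). `v.ord (F l) ≤ N l * b`. `θ := ![b, ord Z]`.
The tuple `g := ![aeval x T, h]`, `P := !![T_Y, T_Z; h_Y, h_Z]`, `det P = - Z^(M-1) δ h` serves for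
`Dmd1` and for `Dmd2` (`b₀ := 0`): `ord T + ord h - ord det P + β ord Z
= M ord Z + ord h - (M-1) ord Z - ord (δ h) + β ord Z = b + (1 + β) ord Z`, and `vv = ord T = M ord Z`.
-/

open MvPolynomial Filter

namespace MLD

universe u

variable {k : Type u} [Field k] {Λ : Type}

section

variable {K : Type u} [Field K] [Algebra k K] {v : OrdFn k K} {x : Fin 2 → K}

private theorem TwoF2_ge (hx : Cen v x) : ∀ b, v.ge 1 (x b) :=
  fun b => Or.inr (by have := hx.1 b; omega)

private theorem TwoF2_ne (hx : Cen v x) (b : Fin 2) : x b ≠ 0 := by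
  have h := hx.2 (X b) (X_ne_zero b)
  rwa [aeval_X] at h

private theorem TwoF2_mon (hx : Cen v x) (a b : ℕ) (G : MvPolynomial (Fin 2) k)
    (hG : aeval x G ≠ 0) :
    v.ord (aeval x (X 0 ^ a * X 1 ^ b * G)) =
      a * v.ord (x 0) + b * v.ord (x 1) + v.ord (aeval x G) := by
  have h0 := TwoF2_ne hx 0
  have h1 := TwoF2_ne hx 1
  rw [map_mul, map_mul, map_pow, map_pow, aeval_X, aeval_X,
    v.ord_mul (mul_ne_zero (pow_ne_zero _ h0) (pow_ne_zero _ h1)) hG,
    v.ord_mul (pow_ne_zero _ h0) (pow_ne_zero _ h1), v.ord_pow h0, v.ord_pow h1]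

private theorem TwoF2_mk1 (τ : LinType Λ) (θ : Fin τ.q → ℕ)
    (T : Λ → MvPolynomial (Fin 2) k) (J : MvPolynomial (Fin 2) k) (g0 g1 a b c d : K)
    (hg0 : g0 ≠ 0) (hg1 : g1 ≠ 0) (hdet : a * d - b * c ≠ 0)
    (hD0 : ∀ D : Derivation k K K, D g0 = a * D (x 0) + b * D (x 1))
    (hD1 : ∀ D : Derivation k K K, D g1 = c * D (x 0) + d * D (x 1))
    (haa : ((τ.aa θ : ℕ) : ℤ) ≤
      v.ord g0 + v.ord g1 - v.ord (a * d - b * c) + v.ord (aeval x J))
    (hvv : ∀ l, v.ord (aeval x (T l)) ≤ ((τ.vv l θ : ℕ) : ℤ)) : Dmd1 τ θ T J v x := by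
  have hdet' : (!![a, b; c, d] : Matrix (Fin 2) (Fin 2) K).det = a * d - b * c :=
    Matrix.det_fin_two_of _ _ _ _
  refine ⟨![g0, g1], !![a, b; c, d], ?_, ?_, ?_, ?_, hvv⟩
  · intro i
    fin_cases i
    · exact hg0
    · exact hg1
  · rw [hdet']
    exact hdet
  · intro D i
    rw [Fin.sum_univ_two]
    fin_cases i
    · exact hD0 D
    · exact hD1 D
  · rw [hdet', Fin.sum_univ_two]
    exact haa

private theorem TwoF2_mk2 (τ : LinType Λ) (θ : Fin τ.q → ℕ)
    (T : Λ → MvPolynomial (Fin 2) k) (J : MvPolynomial (Fin 2) k) (l₀ : Λ) (g1 c d : K)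
    (hT : T l₀ ≠ 0) (hx : Cen v x)
    (hg1 : g1 ≠ 0)
    (hdet : aeval x (pderiv 0 (T l₀)) * d - aeval x (pderiv 1 (T l₀)) * c ≠ 0)
    (hD1 : ∀ D : Derivation k K K, D g1 = c * D (x 0) + d * D (x 1))
    (haa : ((τ.aa θ : ℕ) : ℤ) ≤ ((τ.vv l₀ θ : ℕ) : ℤ) + v.ord g1
      - v.ord (aeval x (pderiv 0 (T l₀)) * d - aeval x (pderiv 1 (T l₀)) * c)
      + v.ord (aeval x J)) : Dmd2 τ θ T J l₀ v x := by
  have hdet' : (!![aeval x (pderiv 0 (T l₀)), aeval x (pderiv 1 (T l₀)); c, d] :
      Matrix (Fin 2) (Fin 2) K).det =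
      aeval x (pderiv 0 (T l₀)) * d - aeval x (pderiv 1 (T l₀)) * c :=
    Matrix.det_fin_two_of _ _ _ _
  refine ⟨0, ![aeval x (T l₀), g1],
    !![aeval x (pderiv 0 (T l₀)), aeval x (pderiv 1 (T l₀)); c, d], rfl, ?_, ?_, ?_, ?_⟩
  · intro i
    fin_cases i
    · exact hx.2 _ hT
    · exact hg1
  · rw [hdet']
    exact hdet
  · intro D i
    rw [Fin.sum_univ_two]
    fin_cases i
    · change D (aeval x (T l₀)) = aeval x (pderiv 0 (T l₀)) * D (x 0)
        + aeval x (pderiv 1 (T l₀)) * D (x 1)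
      rw [der_aeval, Fin.sum_univ_two]
    · exact hD1 D
  · rw [hdet', Fin.sum_univ_two]
    change ((τ.aa θ : ℕ) : ℤ) ≤ (((τ.vv l₀ θ : ℕ) : ℤ) - v.ord (aeval x (T l₀))) +
      (v.ord (aeval x (T l₀)) + v.ord g1)
      - v.ord (aeval x (pderiv 0 (T l₀)) * d - aeval x (pderiv 1 (T l₀)) * c)
      + v.ord (aeval x J)
    linarith

private theorem TwoF2_iter0 (δ : MvPolynomial (Fin 2) k → MvPolynomial (Fin 2) k)
    (hδ : δ 0 = 0) (F : MvPolynomial (Fin 2) k) (n : ℕ) (hn : δ^[n] F ≠ 0) :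
    ∀ j ≤ n, δ^[j] F ≠ 0 := by
  intro j hj h
  apply hn
  obtain ⟨i, rfl⟩ := Nat.exists_eq_add_of_le hj
  rw [Nat.add_comm, Function.iterate_add_apply, h]
  clear hn hj h
  induction i with
  | zero => rfl
  | succ i ih => rw [Function.iterate_succ_apply', ih, hδ]

private theorem TwoF2_max [Finite Λ] (δ : MvPolynomial (Fin 2) k → MvPolynomial (Fin 2) k)
    (hδ : δ 0 = 0) (N : Λ → ℕ) (F : Λ → MvPolynomial (Fin 2) k) (hx : Cen v x)
    (hN : ∀ l, coeff 0 (δ^[N l] (F l)) ≠ 0) (hY : coeff 0 (δ (X 0)) ≠ 0) :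
    ∃ b : ℕ, 1 ≤ b ∧
      (∃ h, h ≠ 0 ∧ δ h ≠ 0 ∧ (b : ℤ) = v.ord (aeval x h) - v.ord (aeval x (δ h))) ∧
      ∀ l, ∀ j ≤ N l, v.ord (aeval x (δ^[j] (F l))) ≤ ((N l : ℤ) - j) * b := by
  have hge := TwoF2_ge hx
  let G : Λ → ℕ → MvPolynomial (Fin 2) k := fun l j => δ^[j] (F l)
  have hG1 : ∀ l j, G l (j + 1) = δ (G l j) := fun l j =>
    Function.iterate_succ_apply' _ _ _
  have hGN' : ∀ l, G l (N l) ≠ 0 := by
    intro l h
    have h1 := hN l
    change coeff 0 (G l (N l)) ≠ 0 at h1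
    rw [h, coeff_zero] at h1
    exact h1 rfl
  have hGne : ∀ l j, j ≤ N l → G l j ≠ 0 := fun l j hj =>
    TwoF2_iter0 δ hδ (F l) (N l) (hGN' l) j hj
  have hGN : ∀ l, v.ord (aeval x (G l (N l))) = 0 := fun l =>
    (v.ord_aeval_of_coeff_zero x hge _ (hN l)).2
  have hYo : v.ord (aeval x (δ (X 0))) = 0 := (v.ord_aeval_of_coeff_zero x hge _ hY).2
  have hYn : δ (X 0) ≠ 0 := by
    intro h
    rw [h, coeff_zero] at hY
    exact hY rfl
  let s : (Option (Σ l : Λ, Fin (N l))) → ℤ := fun o => o.elim (v.ord (x 0))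
    (fun p => v.ord (aeval x (G p.1 p.2)) - v.ord (aeval x (G p.1 (p.2 + 1))))
  obtain ⟨o, ho⟩ := Finite.exists_max s
  have ho1 : 1 ≤ s o := by
    have h1 : s none ≤ s o := ho none
    have h2 : 0 < v.ord (x 0) := hx.1 0
    change v.ord (x 0) ≤ s o at h1
    omega
  obtain ⟨b, hb⟩ := Int.eq_ofNat_of_zero_le (a := s o) (by omega)
  have hb' : s o = (b : ℤ) := hb
  have hb1 : 1 ≤ b := by omega
  refine ⟨b, hb1, ?_, ?_⟩
  · cases o with
    | none =>
      refine ⟨X 0, X_ne_zero 0, hYn, ?_⟩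
      rw [hYo, sub_zero, aeval_X]
      exact hb'.symm
    | some p =>
      have hp2 := p.2.2
      refine ⟨G p.1 p.2, hGne _ _ hp2.le, ?_, ?_⟩
      · rw [← hG1]
        exact hGne _ _ hp2
      · rw [← hG1]
        exact hb'.symm
  · intro l
    have key : ∀ i ≤ N l, v.ord (aeval x (G l (N l - i))) ≤ (i : ℤ) * b := by
      intro i
      induction i with
      | zero =>
        intro _
        rw [Nat.sub_zero, hGN]
        simp
      | succ i ih =>
        intro hi
        have h1 := ih (by omega)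
        have h2 : N l - (i + 1) < N l := by omega
        have h3 := ho (some ⟨l, ⟨N l - (i + 1), h2⟩⟩)
        rw [hb'] at h3
        change v.ord (aeval x (G l (N l - (i + 1)))) -
          v.ord (aeval x (G l (N l - (i + 1) + 1))) ≤ (b : ℤ) at h3
        have h4 : N l - (i + 1) + 1 = N l - i := by omega
        rw [h4] at h3
        push_cast
        linarith
    intro j hj
    have h1 := key (N l - j) (by omega)
    have h2 : N l - (N l - j) = j := by omega
    rw [h2] at h1
    rw [Nat.cast_sub hj] at h1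
    exact h1

end

private theorem TwoF2_coeff0_X1mul (G : MvPolynomial (Fin 2) k) (i : Fin 2) :
    coeff 0 (X i * G) = 0 := by
  rw [← constantCoeff_eq, map_mul, constantCoeff_X, zero_mul]

theorem dom_t0S [CharZero k] (α β : ℕ) (L M : Λ → ℕ) (F : Λ → MvPolynomial (Fin 2) k)
    (V : MvPolynomial (Fin 2) k) (T : Λ → MvPolynomial (Fin 2) k) (J : MvPolynomial (Fin 2) k)
    (hT : ∀ l, T l = X 0 ^ L l * X 1 ^ M l * F l) (hJ : J = X 0 ^ α * X 1 ^ β * V)
    (hV : coeff 0 V ≠ 0) (hF : ∀ l, coeff 0 (F l) ≠ 0) :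
    DomS (fun _ : Unit => t0Type α β L M) T J := by
  intro K _ _ v x hx l₀
  have hge := TwoF2_ge hx
  have h0 := hx.1 0
  have h1 := hx.1 1
  obtain ⟨a, ha⟩ := Int.eq_ofNat_of_zero_le h0.le
  obtain ⟨b, hb⟩ := Int.eq_ofNat_of_zero_le h1.le
  have hV' := v.ord_aeval_of_coeff_zero x hge V hV
  have haa : (t0Type α β L M).aa ![a, b] = (1 + α) * a + (1 + β) * b := by
    change ∑ c : Fin 2, (![1 + α, 1 + β] : Fin 2 → ℕ) c * (![a, b] : Fin 2 → ℕ) c = _
    rw [Fin.sum_univ_two]
    rfl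
  have hvv : ∀ l, (t0Type α β L M).vv l ![a, b] = L l * a + M l * b := by
    intro l
    change ∑ c : Fin 2, (![L l, M l] : Fin 2 → ℕ) c * (![a, b] : Fin 2 → ℕ) c = _
    rw [Fin.sum_univ_two]
    rfl
  have hJo : v.ord (aeval x J) = α * a + β * b := by
    rw [hJ, TwoF2_mon hx α β V hV'.1, hV'.2, ha, hb]
    push_cast
    ring
  have hTo : ∀ l, v.ord (aeval x (T l)) = L l * a + M l * b := by
    intro l
    have hF' := v.ord_aeval_of_coeff_zero x hge (F l) (hF l)
    rw [hT, TwoF2_mon hx _ _ (F l) hF'.1, hF'.2, ha, hb]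
    push_cast
    ring
  have hTne : ∀ l, T l ≠ 0 := by
    intro l h
    have hF0 : F l ≠ 0 := by
      intro h'
      have := hF l
      rw [h', coeff_zero] at this
      exact this rfl
    rw [hT] at h
    exact mul_ne_zero (mul_ne_zero (pow_ne_zero _ (X_ne_zero _)) (pow_ne_zero _ (X_ne_zero _)))
      hF0 h
  refine ⟨(), ![a, b], ?_, ?_, ?_⟩
  · intro c
    change (1 : ℕ) ≤ (![a, b] : Fin 2 → ℕ) c
    fin_cases c
    · change 1 ≤ a
      omega
    · change 1 ≤ b
      omega
  · refine TwoF2_mk1 _ _ T J (x 0) (x 1) 1 0 0 1 (TwoF2_ne hx 0) (TwoF2_ne hx 1) ?_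
      (fun D => by ring) (fun D => by ring) ?_ ?_
    · rw [mul_one, mul_zero, sub_zero]
      exact one_ne_zero
    · rw [mul_one, mul_zero, sub_zero, v.ord_one, haa, hJo, ha, hb]
      push_cast
      apply le_of_eq
      ring
    · intro l
      rw [hvv, hTo]
      push_cast
      exact le_rfl
  · intro hpos
    rw [hTo] at hpos
    rcases Nat.eq_zero_or_pos (L l₀) with hL | hL
    · -- use the other variable
      have hM : 0 < M l₀ := by
        rcases Nat.eq_zero_or_pos (M l₀) with hM | hM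
        · rw [hL, hM] at hpos
          simp at hpos
        · exact hM
      obtain ⟨m, hm⟩ := Nat.exists_eq_add_of_le hM
      let U : MvPolynomial (Fin 2) k := C (((m : k) + 1)) * F l₀ + X 1 * pderiv 1 (F l₀)
      have hU : coeff 0 U ≠ 0 := by
        change coeff 0 (C ((m : k) + 1) * F l₀ + X 1 * pderiv 1 (F l₀)) ≠ 0
        rw [coeff_add, coeff_C_mul, TwoF2_coeff0_X1mul, add_zero]
        exact mul_ne_zero (Nat.cast_add_one_ne_zero _) (hF l₀)
      have hTZ : pderiv 1 (T l₀) = X 0 ^ L l₀ * X 1 ^ m * U := by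
        change _ = X 0 ^ L l₀ * X 1 ^ m * (C ((m : k) + 1) * F l₀ + X 1 * pderiv 1 (F l₀))
        rw [hT, hm, hL, pow_zero, one_mul, one_mul]
        rw [Derivation.leibniz, Derivation.leibniz_pow, pderiv_X_self]
        simp only [smul_eq_mul, nsmul_eq_mul]
        rw [Nat.add_sub_cancel_left, map_add, map_one, map_natCast]
        push_cast
        ring
      have hU' := v.ord_aeval_of_coeff_zero x hge U hU
      have hTZo : v.ord (aeval x (pderiv 1 (T l₀))) = L l₀ * a + m * b := by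
        rw [hTZ, TwoF2_mon hx _ _ U hU'.1, hU'.2, ha, hb]
        push_cast
        ring
      have hTZne : aeval x (pderiv 1 (T l₀)) ≠ 0 := by
        rw [hTZ]
        apply hx.2
        apply mul_ne_zero
        · exact mul_ne_zero (pow_ne_zero _ (X_ne_zero _)) (pow_ne_zero _ (X_ne_zero _))
        · intro h
          rw [h, coeff_zero] at hU
          exact hU rfl
      refine TwoF2_mk2 _ _ T J l₀ (x 0) 1 0 (hTne l₀) hx (TwoF2_ne hx 0) ?_ (fun D => by ring) ?_
      · rw [mul_zero, mul_one, zero_sub]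
        exact neg_ne_zero.2 hTZne
      · rw [mul_zero, mul_one, zero_sub, v.ord_neg _ hTZne, hTZo, haa, hvv, hJo, ha, hm]
        push_cast
        apply le_of_eq
        ring
    · obtain ⟨m, hm⟩ := Nat.exists_eq_add_of_le hL
      let U : MvPolynomial (Fin 2) k := C (((m : k) + 1)) * F l₀ + X 0 * pderiv 0 (F l₀)
      have hU : coeff 0 U ≠ 0 := by
        change coeff 0 (C ((m : k) + 1) * F l₀ + X 0 * pderiv 0 (F l₀)) ≠ 0
        rw [coeff_add, coeff_C_mul, TwoF2_coeff0_X1mul, add_zero]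
        exact mul_ne_zero (Nat.cast_add_one_ne_zero _) (hF l₀)
      have hTY : pderiv 0 (T l₀) = X 0 ^ m * X 1 ^ M l₀ * U := by
        change _ = X 0 ^ m * X 1 ^ M l₀ * (C ((m : k) + 1) * F l₀ + X 0 * pderiv 0 (F l₀))
        rw [hT, hm]
        rw [Derivation.leibniz, Derivation.leibniz, Derivation.leibniz_pow,
          Derivation.leibniz_pow, pderiv_X_self, pderiv_X_of_ne (by decide)]
        simp only [smul_eq_mul, nsmul_eq_mul]
        rw [Nat.add_sub_cancel_left, map_add, map_one, map_natCast]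
        push_cast
        ring
      have hU' := v.ord_aeval_of_coeff_zero x hge U hU
      have hTYo : v.ord (aeval x (pderiv 0 (T l₀))) = m * a + M l₀ * b := by
        rw [hTY, TwoF2_mon hx _ _ U hU'.1, hU'.2, ha, hb]
        push_cast
        ring
      have hTYne : aeval x (pderiv 0 (T l₀)) ≠ 0 := by
        rw [hTY]
        apply hx.2
        apply mul_ne_zero
        · exact mul_ne_zero (pow_ne_zero _ (X_ne_zero _)) (pow_ne_zero _ (X_ne_zero _))
        · intro h
          rw [h, coeff_zero] at hU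
          exact hU rfl
      refine TwoF2_mk2 _ _ T J l₀ (x 1) 0 1 (hTne l₀) hx (TwoF2_ne hx 1) ?_ (fun D => by ring) ?_
      · rw [mul_zero, mul_one, sub_zero]
        exact hTYne
      · rw [mul_zero, mul_one, sub_zero, hTYo, haa, hvv, hJo, hb, hm]
        push_cast
        apply le_of_eq
        ring

/-- iterates of the derivative, at the origin -/
private theorem TwoF2_iter [CharZero k] (F : MvPolynomial (Fin 2) k) (j : ℕ) :
    ∀ n, coeff (mon (n + j) 0) F ≠ 0 → coeff (mon n 0) ((pderiv 0)^[j] F) ≠ 0 := by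
  induction j with
  | zero =>
    intro n h
    exact h
  | succ j ih =>
    intro n h
    rw [Function.iterate_succ_apply', coeff_pderiv]
    have e1 : mon n 0 + Finsupp.single (0 : Fin 2) 1 = mon (n + 1) 0 := by
      unfold mon
      rw [Finsupp.single_zero, add_zero, add_zero, ← Finsupp.single_add]
    rw [e1]
    apply mul_ne_zero
    · apply ih
      have : n + 1 + j = n + (j + 1) := by ring
      rw [this]
      exact h
    · exact Nat.cast_add_one_ne_zero _

private theorem TwoF2_mon00 : mon 0 0 = (0 : Fin 2 →₀ ℕ) := by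
  unfold mon
  rw [Finsupp.single_zero, Finsupp.single_zero, add_zero]

/-- the vector field of case (c) -/
private noncomputable def TwoF2_vf (c : k) (F : MvPolynomial (Fin 2) k)
    (G : MvPolynomial (Fin 2) k) : MvPolynomial (Fin 2) k :=
  (C c * F + X 1 * pderiv 1 F) * pderiv 0 G - X 1 * pderiv 0 F * pderiv 1 G

private theorem TwoF2_atY_pderiv (G : MvPolynomial (Fin 2) k) :
    atY (pderiv 0 G) = Polynomial.derivative (atY G) := by
  ext j
  rw [coeff_atY, Polynomial.coeff_derivative, coeff_atY, coeff_pderiv]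
  have e1 : mon j 0 + Finsupp.single (0 : Fin 2) 1 = mon (j + 1) 0 := by
    unfold mon
    rw [Finsupp.single_zero, add_zero, add_zero, ← Finsupp.single_add]
  rw [e1, mon_apply_zero]

private theorem TwoF2_atY_vf (c : k) (F G : MvPolynomial (Fin 2) k) :
    atY (TwoF2_vf c F G) =
      Polynomial.C c * atY F * Polynomial.derivative (atY G) := by
  have h1 : atY (X 1 : MvPolynomial (Fin 2) k) = 0 := by
    rw [atY, aeval_X]
    rfl
  have h2 : atY (C c : MvPolynomial (Fin 2) k) = Polynomial.C c := by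
    rw [atY, aeval_C]
    rfl
  rw [TwoF2_vf, map_sub, map_mul, map_add, map_mul, map_mul, map_mul, map_mul, h1, h2,
    TwoF2_atY_pderiv]
  ring

private theorem TwoF2_vf_iter [CharZero k] (c : k) (F : MvPolynomial (Fin 2) k) (hc : c ≠ 0)
    (hF : coeff 0 F ≠ 0) (G : MvPolynomial (Fin 2) k) (j : ℕ) :
    ∀ n, coeff (mon (n + j) 0) G ≠ 0 → (∀ i < n + j, coeff (mon i 0) G = 0) →
      coeff (mon n 0) ((TwoF2_vf c F)^[j] G) ≠ 0 ∧
      ∀ i < n, coeff (mon i 0) ((TwoF2_vf c F)^[j] G) = 0 := by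
  induction j with
  | zero =>
    intro n h h'
    exact ⟨h, h'⟩
  | succ j ih =>
    intro n h h'
    have e0 : n + 1 + j = n + (j + 1) := by ring
    obtain ⟨h1, h2⟩ := ih (n + 1) (by rw [e0]; exact h) (by rw [e0]; exact h')
    set H := (TwoF2_vf c F)^[j] G with hH
    have hH' : (TwoF2_vf c F)^[j + 1] G = TwoF2_vf c F H := Function.iterate_succ_apply' _ _ _
    rw [hH']
    simp only [← coeff_atY] at h1 h2 ⊢
    rw [TwoF2_atY_vf]
    have h3 : ∀ i < n, (Polynomial.derivative (atY H)).coeff i = 0 := by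
      intro i hi
      rw [Polynomial.coeff_derivative, h2 (i + 1) (by omega), zero_mul]
    have h4 : (Polynomial.derivative (atY H)).coeff n ≠ 0 := by
      rw [Polynomial.coeff_derivative]
      exact mul_ne_zero h1 (Nat.cast_add_one_ne_zero _)
    have h5 : (Polynomial.C c * atY F).coeff 0 ≠ 0 := by
      rw [Polynomial.coeff_C_mul, coeff_atY, TwoF2_mon00]
      exact mul_ne_zero hc hF
    constructor
    · rw [Polynomial.coeff_mul, Finset.sum_eq_single (0, n)]
      · exact mul_ne_zero h5 h4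
      · rintro ⟨p, q⟩ hpq hne
        rw [Finset.HasAntidiagonal.mem_antidiagonal] at hpq
        have hq : q < n := by
          rcases Nat.eq_zero_or_pos p with hp | hp
          · exfalso
            apply hne
            subst hp
            simp at hpq
            rw [hpq]
          · simp at hpq
            omega
        change _ * (Polynomial.derivative (atY H)).coeff q = 0
        rw [h3 q hq, mul_zero]
      · intro hn
        exfalso
        apply hn
        rw [Finset.HasAntidiagonal.mem_antidiagonal]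
        simp
    · intro i hi
      rw [Polynomial.coeff_mul]
      apply Finset.sum_eq_zero
      rintro ⟨p, q⟩ hpq
      rw [Finset.HasAntidiagonal.mem_antidiagonal] at hpq
      simp at hpq
      change _ * (Polynomial.derivative (atY H)).coeff q = 0
      rw [h3 q (by omega), mul_zero]

theorem dom_t1S [CharZero k] [Finite Λ] (β : ℕ) (M N : Λ → ℕ) (F : Λ → MvPolynomial (Fin 2) k)
    (V : MvPolynomial (Fin 2) k) (T : Λ → MvPolynomial (Fin 2) k) (J : MvPolynomial (Fin 2) k)
    (hT : ∀ l, T l = X 1 ^ M l * F l) (hJ : J = X 1 ^ β * V)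
    (hV : coeff 0 V ≠ 0) (hF : ∀ l, coeff (mon (N l) 0) (F l) ≠ 0)
    (hF0 : ∀ l, ∀ j < N l, coeff (mon j 0) (F l) = 0) :
    DomS (fun _ : Unit => t1Type β M N) T J := by
  intro K _ _ v x hx l₀
  have hge := TwoF2_ge hx
  have h1 := hx.1 1
  obtain ⟨z, hz⟩ := Int.eq_ofNat_of_zero_le h1.le
  have hV' := v.ord_aeval_of_coeff_zero x hge V hV
  have hFne : ∀ l, F l ≠ 0 := by
    intro l h
    have := hF l
    rw [h, coeff_zero] at this
    exact this rfl
  have hTne : ∀ l, T l ≠ 0 := by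
    intro l
    rw [hT]
    exact mul_ne_zero (pow_ne_zero _ (X_ne_zero _)) (hFne l)
  have haa : ∀ b : ℕ, (t1Type β M N).aa ![b, z] = 1 * b + (1 + β) * z := by
    intro b
    change ∑ c : Fin 2, (![1, 1 + β] : Fin 2 → ℕ) c * (![b, z] : Fin 2 → ℕ) c = _
    rw [Fin.sum_univ_two]
    rfl
  have hvv : ∀ (b : ℕ) l, (t1Type β M N).vv l ![b, z] = N l * b + M l * z := by
    intro b l
    change ∑ c : Fin 2, (![N l, M l] : Fin 2 → ℕ) c * (![b, z] : Fin 2 → ℕ) c = _
    rw [Fin.sum_univ_two]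
    rfl
  have hJo : v.ord (aeval x J) = β * z := by
    have hJ' : J = X 0 ^ 0 * X 1 ^ β * V := by
      rw [hJ, pow_zero, one_mul]
    rw [hJ', TwoF2_mon hx 0 β V hV'.1, hV'.2, hz]
    push_cast
    ring
  have hTo : ∀ l, v.ord (aeval x (T l)) = M l * z + v.ord (aeval x (F l)) := by
    intro l
    have hT' : T l = X 0 ^ 0 * X 1 ^ M l * F l := by
      rw [hT, pow_zero, one_mul]
    rw [hT', TwoF2_mon hx _ _ (F l) (hx.2 _ (hFne l)), hz]
    push_cast
    ring
  have hlo : ∀ b : ℕ, 1 ≤ b → (t1Type β M N).lo ≤ (![b, z] : Fin 2 → ℕ) := by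
    intro b hb c
    change (1 : ℕ) ≤ (![b, z] : Fin 2 → ℕ) c
    fin_cases c
    · exact hb
    · change 1 ≤ z
      omega
  rcases Nat.eq_zero_or_pos (N l₀) with hN | hN
  · have hF00 : coeff 0 (F l₀) ≠ 0 := by
      have := hF l₀
      rw [hN, TwoF2_mon00] at this
      exact this
    rcases Nat.eq_zero_or_pos (M l₀) with hM | hM
    · -- case (a)
      obtain ⟨t, θ, hθ, h2⟩ := dom_t1 β M N F V T J hT hJ hV hF K v x hx
      refine ⟨t, θ, hθ, h2, fun hpos => ?_⟩
      exfalso
      rw [hTo, hM, (v.ord_aeval_of_coeff_zero x hge _ hF00).2] at hpos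
      simp at hpos
    · -- case (c)
      obtain ⟨m, hm⟩ := Nat.exists_eq_add_of_le hM
      have hc : ((m : k) + 1) ≠ 0 := Nat.cast_add_one_ne_zero _
      have hN' : ∀ l, coeff 0 ((TwoF2_vf ((m : k) + 1) (F l₀))^[N l] (F l)) ≠ 0 := by
        intro l
        have h2 := (TwoF2_vf_iter ((m : k) + 1) (F l₀) hc hF00 (F l) (N l) 0
          (by rw [zero_add]; exact hF l) (by rw [zero_add]; exact hF0 l)).1
        rw [TwoF2_mon00] at h2
        exact h2
      have hvf0 : TwoF2_vf ((m : k) + 1) (F l₀) 0 = 0 := by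
        rw [TwoF2_vf, map_zero, map_zero, mul_zero, mul_zero, sub_zero]
      have hY : coeff 0 (TwoF2_vf ((m : k) + 1) (F l₀) (X 0)) ≠ 0 := by
        rw [TwoF2_vf, pderiv_X_self, pderiv_X_of_ne (by decide), mul_zero, mul_one, sub_zero,
          coeff_add, coeff_C_mul, TwoF2_coeff0_X1mul, add_zero]
        exact mul_ne_zero hc hF00
      obtain ⟨b, hb1, ⟨h, hh0, hh1, hhb⟩, hFb⟩ :=
        TwoF2_max (TwoF2_vf ((m : k) + 1) (F l₀)) hvf0 N F hx hN' hY
      have hTY : pderiv 0 (T l₀) = X 1 ^ (m + 1) * pderiv 0 (F l₀) := by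
        rw [hT, hm, Derivation.leibniz, Derivation.leibniz_pow, pderiv_X_of_ne (by decide)]
        simp only [smul_eq_mul, nsmul_eq_mul]
        ring
      have hTZ : pderiv 1 (T l₀) = X 1 ^ m * (C ((m : k) + 1) * F l₀ + X 1 * pderiv 1 (F l₀)) := by
        rw [hT, hm, Derivation.leibniz, Derivation.leibniz_pow, pderiv_X_self]
        simp only [smul_eq_mul, nsmul_eq_mul]
        rw [Nat.add_sub_cancel_left, map_add, map_one, map_natCast]
        push_cast
        ring
      have hdet : aeval x (pderiv 0 (T l₀)) * aeval x (pderiv 1 h)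
          - aeval x (pderiv 1 (T l₀)) * aeval x (pderiv 0 h)
          = - aeval x (X 0 ^ 0 * X 1 ^ m * TwoF2_vf ((m : k) + 1) (F l₀) h) := by
        rw [← map_mul, ← map_mul, ← map_sub, ← map_neg]
        congr 1
        rw [hTY, hTZ, TwoF2_vf]
        ring
      have hdne : aeval x (X 0 ^ 0 * X 1 ^ m * TwoF2_vf ((m : k) + 1) (F l₀) h) ≠ 0 := by
        apply hx.2
        apply mul_ne_zero _ hh1
        exact mul_ne_zero (pow_ne_zero _ (X_ne_zero _)) (pow_ne_zero _ (X_ne_zero _))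
      have hdo : v.ord (aeval x (pderiv 0 (T l₀)) * aeval x (pderiv 1 h)
          - aeval x (pderiv 1 (T l₀)) * aeval x (pderiv 0 h)) =
          m * z + v.ord (aeval x (TwoF2_vf ((m : k) + 1) (F l₀) h)) := by
        rw [hdet, v.ord_neg _ hdne, TwoF2_mon hx _ _ _ (hx.2 _ hh1), hz]
        push_cast
        ring
      have hT0 : v.ord (aeval x (T l₀)) = M l₀ * z := by
        rw [hTo, (v.ord_aeval_of_coeff_zero x hge _ hF00).2, add_zero]
      refine ⟨(), ![b, z], hlo b hb1, ?_, fun _ => ?_⟩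
      · refine TwoF2_mk1 _ _ T J (aeval x (T l₀)) (aeval x h) (aeval x (pderiv 0 (T l₀)))
          (aeval x (pderiv 1 (T l₀))) (aeval x (pderiv 0 h)) (aeval x (pderiv 1 h))
          (hx.2 _ (hTne _)) (hx.2 _ hh0) ?_ ?_ ?_ ?_ ?_
        · rw [hdet]
          exact neg_ne_zero.2 hdne
        · intro D
          rw [der_aeval, Fin.sum_univ_two]
        · intro D
          rw [der_aeval, Fin.sum_univ_two]
        · rw [hdo, haa, hJo, hT0, hm]
          push_cast
          push_cast at hhb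
          linarith
        · intro l
          rw [hvv, hTo]
          have h3 := hFb l 0 (Nat.zero_le _)
          push_cast
          push_cast at h3
          rw [sub_zero] at h3
          change v.ord (aeval x (F l)) ≤ _ at h3
          linarith
      · refine TwoF2_mk2 _ _ T J l₀ (aeval x h) (aeval x (pderiv 0 h)) (aeval x (pderiv 1 h))
          (hTne _) hx (hx.2 _ hh0) ?_ ?_ ?_
        · rw [hdet]
          exact neg_ne_zero.2 hdne
        · intro D
          rw [der_aeval, Fin.sum_univ_two]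
        · rw [hdo, haa, hvv, hJo, hN, hm]
          push_cast
          push_cast at hhb
          linarith
  · -- case (b)
    have hN' : ∀ l, coeff 0 ((pderiv 0 : Derivation k _ _)^[N l] (F l)) ≠ 0 := by
      intro l
      have h2 := TwoF2_iter (F l) (N l) 0 (by rw [zero_add]; exact hF l)
      rw [TwoF2_mon00] at h2
      exact h2
    have hY : coeff 0 (pderiv 0 (X 0 : MvPolynomial (Fin 2) k)) ≠ 0 := by
      rw [pderiv_X_self, coeff_zero_one]
      exact one_ne_zero
    obtain ⟨b, hb1, ⟨h, hh0, hh1, hhb⟩, hFb⟩ :=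
      TwoF2_max (fun G => pderiv 0 G) (map_zero _) N F hx hN' hY
    obtain ⟨n, hn⟩ := Nat.exists_eq_add_of_le hN
    have hGne : ∀ j ≤ N l₀, (pderiv 0 : Derivation k _ _)^[j] (F l₀) ≠ 0 := by
      apply TwoF2_iter0 (fun G => pderiv 0 G) (map_zero _)
      intro h'
      have h2 := hN' l₀
      change coeff 0 ((fun G => pderiv 0 G)^[N l₀] (F l₀)) ≠ 0 at h2
      rw [h', coeff_zero] at h2
      exact h2 rfl
    have hFY : pderiv 0 (F l₀) ≠ 0 := hGne 1 hN
    have hTY : pderiv 0 (T l₀) = X 0 ^ 0 * X 1 ^ M l₀ * pderiv 0 (F l₀) := by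
      rw [hT, Derivation.leibniz, Derivation.leibniz_pow, pderiv_X_of_ne (by decide)]
      simp only [smul_eq_mul, nsmul_eq_mul]
      ring
    have hTYne : aeval x (pderiv 0 (T l₀)) ≠ 0 := by
      apply hx.2
      rw [hTY]
      apply mul_ne_zero _ hFY
      exact mul_ne_zero (pow_ne_zero _ (X_ne_zero _)) (pow_ne_zero _ (X_ne_zero _))
    have hTYo : v.ord (aeval x (pderiv 0 (T l₀))) =
        M l₀ * z + v.ord (aeval x (pderiv 0 (F l₀))) := by
      rw [hTY, TwoF2_mon hx _ _ _ (hx.2 _ hFY), hz]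
      push_cast
      ring
    refine ⟨(), ![b, z], hlo b hb1, ?_, fun _ => ?_⟩
    · refine TwoF2_mk1 _ _ T J (aeval x h) (x 1) (aeval x (pderiv 0 h))
        (aeval x (pderiv 1 h)) 0 1 (hx.2 _ hh0) (TwoF2_ne hx 1) ?_ ?_ (fun D => by ring) ?_ ?_
      · rw [mul_one, mul_zero, sub_zero]
        exact hx.2 _ hh1
      · intro D
        rw [der_aeval, Fin.sum_univ_two]
      · rw [mul_one, mul_zero, sub_zero, haa, hJo, hz]
        push_cast
        push_cast at hhb
        linarith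
      · intro l
        rw [hvv, hTo]
        have h3 := hFb l 0 (Nat.zero_le _)
        push_cast
        push_cast at h3
        rw [sub_zero] at h3
        change v.ord (aeval x (F l)) ≤ _ at h3
        linarith
    · refine TwoF2_mk2 _ _ T J l₀ (x 1) 0 1 (hTne _) hx (TwoF2_ne hx 1) ?_ (fun D => by ring) ?_
      · rw [mul_one, mul_zero, sub_zero]
        exact hTYne
      · rw [mul_one, mul_zero, sub_zero, hTYo, haa, hvv, hJo, hz]
        have h3 := hFb l₀ 1 hN
        change v.ord (aeval x (pderiv 0 (F l₀))) ≤ _ at h3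
        push_cast
        push_cast at h3
        linarith

end MLD
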