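import Pool.Agent.MLD.TwoG
import Pool.Agent.MLD.TwoB2
import Pool.Agent.MLD.TwoD2
import Pool.Agent.MLD.TwoF2

/-!
PIECE MLD-S5: the strong block theorem for two variables.

PROOF. Use the structure `St`, `child1`, `child2`, `ev_exists`, ... of `TwoG.lean` and copy `node`,
`terminal0`, `terminal1`, `bad_child`, `not_bad_unflagged`, `not_bad_regular`, `all_types`,
`blockOK_two` from there with `HasTypesS`, `DomS`, `DmdS` in place of `HasTypes`, `Dom`, `Dmd`, and
`dmd_m1S`, `dmd_m2S`, `dmd_genericS`, `dom_t0S`, `dom_t1S`. (`DmdS.comp` as `Dmd.comp`.) The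
additional hypothesis `hF0` of `dom_t1S` comes from `he0` (`(mon j 0).degree = j < e l`).
-/

open MvPolynomial Filter

namespace MLD

universe u

private theorem TwoG2_comp {k : Type u} [Field k] {B : Type} [Fintype B] [DecidableEq B]
    {Λ : Type} {ι ι' : Type} {τ : ι → LinType Λ} {τ' : ι' → LinType Λ} (f : ι → ι')
    (hf : ∀ t, τ t = τ' (f t)) {T : Λ → MvPolynomial B k} {J : MvPolynomial B k} {l₀ : Λ}
    {K : Type u} [Field K] [Algebra k K] {v : OrdFn k K} {x : B → K} (h : DmdS τ T J l₀ v x) :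
    DmdS τ' T J l₀ v x := by
  obtain ⟨t, θ, h1, h2, h3⟩ := h
  have : ∃ (θ : Fin (τ' (f t)).q → ℕ), (τ' (f t)).lo ≤ θ ∧ Dmd1 (τ' (f t)) θ T J v x ∧
      (0 < v.ord (aeval x (T l₀)) → Dmd2 (τ' (f t)) θ T J l₀ v x) := by
    rw [← hf t]
    exact ⟨θ, h1, h2, h3⟩
  obtain ⟨θ', h1', h2', h3'⟩ := this
  exact ⟨f t, θ', h1', h2', h3'⟩

section st

variable {k : Type u} [Field k] {Λ : Type}

/-- if all children have types, then so does the state -/
private theorem TwoG2_node [IsAlgClosed k] [CharZero k] [Finite Λ] (s : St k Λ)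
    (h1 : ∀ c : ℕ → k, HasTypesS (fun l i => aeval (m1 (c i)) (s.T l i))
      (fun i => aeval (m1 (c i)) (s.J i) * X 1))
    (h2 : HasTypesS (fun l i => aeval (m2 k) (s.T l i)) (fun i => aeval (m2 k) (s.J i) * X 1)) :
    HasTypesS s.T s.J := by
  classical
  -- special sequences
  let cc : Option (Σ l : Λ, Fin (s.e l)) → ℕ → k := fun o i =>
    match o with
    | none => 0
    | some ⟨l, t⟩ => (ini (s.e l) (s.F l i)).roots.toList.getD t 0
  have hcc : ∀ l i ρ, ini (s.e l) (s.F l i) ≠ 0 → (ini (s.e l) (s.F l i)).IsRoot ρ →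
      ∃ o, cc o i = ρ := by
    intro l i ρ h0 hρ
    have hmem : ρ ∈ (ini (s.e l) (s.F l i)).roots.toList := by
      rw [Multiset.mem_toList, Polynomial.mem_roots h0]
      exact hρ
    obtain ⟨t, ht, heq⟩ := List.mem_iff_getElem.mp hmem
    have hlen : t < s.e l := by
      have h3 := Polynomial.card_roots' (ini (s.e l) (s.F l i))
      have h4 := ini_natDegree (s.e l) (s.F l i)
      rw [Multiset.length_toList] at ht
      omega
    refine ⟨some ⟨l, ⟨t, hlen⟩⟩, ?_⟩
    show (ini (s.e l) (s.F l i)).roots.toList.getD t 0 = ρ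
    rw [List.getD_eq_getElem _ _ ht, heq]
  have h1' : ∀ o, ∃ (ι : Type) (_ : Finite ι) (τ : ι → LinType Λ),
    (∀ᶠ i in UU, DomS τ (fun l => aeval (m1 (cc o i)) (s.T l i))
      (aeval (m1 (cc o i)) (s.J i) * X 1)) ∧
      ∀ (t : ι) (θ : Fin (τ t).q → ℕ), (τ t).lo ≤ θ →
        ∀ᶠ i in UU, Rlz (τ t) θ (fun l => aeval (m1 (cc o i)) (s.T l i))
          (aeval (m1 (cc o i)) (s.J i) * X 1) := fun o => h1 (cc o)
  choose ι hι τ hdom hrlz using h1'
  obtain ⟨ι2, hι2, τ2, hdom2, hrlz2⟩ := h2
  refine ⟨(Σ o, ι o) ⊕ ι2 ⊕ Unit, inferInstance,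
    Sum.elim (fun p => τ p.1 p.2) (Sum.elim τ2 (fun _ => divType s.α s.β s.L s.M s.e)), ?_, ?_⟩
  · have e1 := Filter.eventually_all.mpr hdom
    have e2 := Filter.eventually_all.mpr s.hT
    have e3 := Filter.eventually_all.mpr s.he0
    have e4 := Filter.eventually_all.mpr (ini_ev s)
    filter_upwards [e1, hdom2, e2, e3, e4, s.hJ, s.hV] with i hi1 hi2 hiT hie hini hiJ hiV
    intro K _ _ v x hx l₀
    have hJ0 : s.J i ≠ 0 := by
      rw [hiJ]
      refine mul_ne_zero (mul_ne_zero (pow_ne_zero _ (X_ne_zero _)) (pow_ne_zero _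
        (X_ne_zero _))) ?_
      intro h0
      rw [h0] at hiV
      exact hiV (coeff_zero _)
    rcases lt_trichotomy (v.ord (x 0)) (v.ord (x 1)) with hlt | heq | hgt
    · have := dmd_m2S τ2 (fun l => s.T l i) (s.J i) hJ0 l₀ v x hx hi2 hlt
      exact TwoG2_comp (fun t => Sum.inr (Sum.inl t)) (fun _ => rfl) this
    · by_cases hex : ∃ l, ∃ ρ, (ini (s.e l) (s.F l i)).IsRoot ρ ∧
          0 < v.ord (x 0 / x 1 - algebraMap k K ρ)
      · obtain ⟨l, ρ, hρ, hpos⟩ := hex
        obtain ⟨o, ho⟩ := hcc l i ρ (hini l) hρ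
        have := dmd_m1S (τ o) (fun l => s.T l i) (s.J i) hJ0 l₀ v x hx (cc o i) (hi1 o)
          (by rw [ho]; exact hpos)
        exact TwoG2_comp (fun t => Sum.inl ⟨o, t⟩) (fun _ => rfl) this
      · push Not at hex
        have := dmd_genericS s.α s.β s.L s.M s.e (fun l => s.F l i) (s.V i) (fun l => s.T l i)
          (s.J i) l₀ hiT hiJ hiV hie hini v x hx heq (fun l ρ hρ => not_lt.mpr (hex l ρ hρ))
        exact TwoG2_comp (fun t => Sum.inr (Sum.inr t)) (fun _ => rfl) this
    · have h0 : 0 < v.ord (x 0 / x 1 - algebraMap k K 0) := by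
        have hx0 : x 0 ≠ 0 := by
          have := hx.2 (X 0) (X_ne_zero 0)
          rwa [aeval_X] at this
        have hx1 : x 1 ≠ 0 := by
          have := hx.2 (X 1) (X_ne_zero 1)
          rwa [aeval_X] at this
        rw [map_zero, sub_zero, v.ord_div hx0 hx1]
        omega
      have := dmd_m1S (τ none) (fun l => s.T l i) (s.J i) hJ0 l₀ v x hx (cc none i) (hi1 none) h0
      exact TwoG2_comp (fun t => Sum.inl ⟨none, t⟩) (fun _ => rfl) this
  · rintro (⟨o, t⟩ | t | t) θ hθ
    · filter_upwards [hrlz o t θ hθ] with i hi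
      exact rlz_m1 _ _ _ _ _ hi
    · filter_upwards [hrlz2 t θ hθ] with i hi
      exact rlz_m2 _ _ _ _ hi
    · have e2 := Filter.eventually_all.mpr s.hT
      have e3 := Filter.eventually_all.mpr s.he0
      filter_upwards [e2, e3, s.hJ, s.hV] with i hiT hie hiJ hiV
      exact rlz_div s.α s.β s.L s.M s.e (fun l => s.F l i) (s.V i) (fun l => s.T l i)
          (s.J i) hiT hiJ hiV hie θ hθ

/-- normal crossing states have types -/
private theorem TwoG2_terminal0 [CharZero k] [Finite Λ] (s : St k Λ) (h : ∀ l, s.e l = 0) : HasTypesS s.T s.J := by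
  have hF : ∀ l, ∀ᶠ i in UU, coeff 0 (s.F l i) ≠ 0 := by
    intro l
    obtain ⟨m, hm, h1⟩ := s.he1 l
    rw [h l] at hm
    have : m = 0 := by
      rw [eq_mon m, mon_degree] at hm
      rw [eq_mon m, show m 0 = 0 by omega, show m 1 = 0 by omega]
      simp [mon]
    rwa [this] at h1
  have e1 := Filter.eventually_all.mpr hF
  have e2 := Filter.eventually_all.mpr s.hT
  refine ⟨Unit, inferInstance, fun _ => t0Type s.α s.β s.L s.M, ?_, ?_⟩
  · filter_upwards [e1, e2, s.hJ, s.hV] with i hF hT hJ hV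
    exact dom_t0S s.α s.β s.L s.M (fun l => s.F l i) (s.V i) (fun l => s.T l i) (s.J i) hT hJ hV hF
  · intro _ θ hθ
    filter_upwards [e2, s.hJ, s.hV] with i hT hJ hV
    exact rlz_t0 s.α s.β s.L s.M (fun l => s.F l i) (s.V i) (fun l => s.T l i) (s.J i) hT hJ hV
      θ hθ

/-- states on a smooth unflagged branch have types -/
private theorem TwoG2_terminal1 [CharZero k] [Finite Λ] (s : St k Λ) (hf : ¬ s.fY)
    (hreg : ∀ l, ∀ᶠ i in UU, coeff (mon (s.e l) 0) (s.F l i) ≠ 0)
    (hψ : ∀ b : ℕ, ∃ ψ : ℕ → Polynomial k, ∀ᶠ i in UU, (ψ i).coeff 0 = 0 ∧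
      ∀ l, ∀ p q : ℕ, b * p + q < b * s.e l →
        coeff (mon p q) (aeval (sh (ψ i)) (s.F l i)) = 0) : HasTypesS s.T s.J := by
  obtain ⟨hα, hL⟩ := s.hfY hf
  have e1 := Filter.eventually_all.mpr hreg
  have e2 := Filter.eventually_all.mpr s.hT
  have e3 := Filter.eventually_all.mpr s.he0
  refine ⟨Unit, inferInstance, fun _ => t1Type s.β s.M s.e, ?_, ?_⟩
  · filter_upwards [e1, e2, s.hJ, s.hV, e3] with i hF hT hJ hV he
    refine dom_t1S s.β s.M s.e (fun l => s.F l i) (s.V i) (fun l => s.T l i) (s.J i) ?_ ?_ hV hF ?_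
    · intro l
      rw [hT l, hL l]
      ring
    · rw [hJ, hα]
      ring
    · intro l j hj
      exact he l _ (by rw [mon_degree]; omega)
  · intro _ θ hθ
    obtain ⟨ψ, h⟩ := hψ (θ (0 : Fin 2))
    filter_upwards [e2, s.hJ, s.hV, h] with i hT hJ hV hi
    refine rlz_t1 s.β s.M s.e (fun l => s.F l i) (s.V i) (fun l => s.T l i) (s.J i) ?_ ?_ hV
      θ hθ _ _ rfl rfl (ψ i) hi.1 hi.2
    · intro l
      rw [hT l, hL l]
      ring
    · rw [hJ, hα]
      ring

section term
variable [IsAlgClosed k] [CharZero k] [Fintype Λ]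

/-- a bad regular state has a bad regular child -/
private theorem TwoG2_bad_child (N : ℕ) (hN : 0 < N)
    (hmin : ∀ s : St k Λ, ∑ l, s.e l < N → HasTypesS s.T s.J) (s : St k Λ)
    (hs : ∑ l, s.e l = N) (hbad : ¬ HasTypesS s.T s.J)
    (hreg : ∀ l, ∀ᶠ i in UU, coeff (mon (s.e l) 0) (s.F l i) ≠ 0) :
    ∃ (c : ℕ → k) (s' : St k Λ), ¬ HasTypesS s'.T s'.J ∧ s'.e = s.e ∧
      (∀ l, ∀ᶠ i in UU, coeff (mon (s'.e l) 0) (s'.F l i) ≠ 0) ∧
      (s'.fY ↔ s.fY ∧ ∀ᶠ i in UU, c i = 0) ∧
      (¬ s.fY ∨ (∀ᶠ i in UU, c i = 0) →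
        ∀ l, ∀ᶠ i in UU, s'.F l i = ch1 (c i) (s.e l) (s.F l i)) := by
  by_contra hcon
  push Not at hcon
  apply hbad
  apply TwoG2_node s
  · intro c
    obtain ⟨s', hT, hJ, hle, hr, hf, hF⟩ := child1 s c
    have hT' : s'.T = fun l i => aeval (m1 (c i)) (s.T l i) := funext fun l => funext fun i => hT l i
    have hJ' : s'.J = fun i => aeval (m1 (c i)) (s.J i) * X 1 := funext hJ
    rw [← hT', ← hJ']
    by_contra hb
    have hsum : ¬ ∑ l, s'.e l < N := fun h => hb (hmin s' h)
    have heq : ∀ l, s'.e l = s.e l := by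
      have h1 : ∑ l, s'.e l = ∑ l, s.e l :=
        le_antisymm (Finset.sum_le_sum fun l _ => hle l) (by omega)
      intro l
      exact (Finset.sum_eq_sum_iff_of_le fun l _ => hle l).mp h1 l (Finset.mem_univ l)
    obtain ⟨h1, h2⟩ := hcon c s' hb (funext heq) (fun l => by rw [heq l]; exact hr l (heq l)) hf
    obtain ⟨l, h2⟩ := h2
    exact ev_false ((h2.and (hF h1 l)).mono fun i hi => hi.1 hi.2)
  · obtain ⟨s', hT, hJ, hle, hr, hz⟩ := child2 s
    have hT' : s'.T = fun l i => aeval (m2 k) (s.T l i) := funext fun l => funext fun i => hT l i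
    have hJ' : s'.J = fun i => aeval (m2 k) (s.J i) * X 1 := funext hJ
    rw [← hT', ← hJ']
    apply hmin
    rw [Finset.sum_eq_zero fun l _ => hz l (hreg l)]
    exact hN

private theorem TwoG2_not_bad_unflagged (N : ℕ) (hN : 0 < N)
    (hmin : ∀ s : St k Λ, ∑ l, s.e l < N → HasTypesS s.T s.J) (s : St k Λ)
    (hs : ∑ l, s.e l = N) (hf : ¬ s.fY)
    (hreg : ∀ l, ∀ᶠ i in UU, coeff (mon (s.e l) 0) (s.F l i) ≠ 0) : HasTypesS s.T s.J := by
  by_contra hbad
  refine hbad (TwoG2_terminal1 s hf hreg ?_)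
  intro b
  induction b generalizing s with
  | zero =>
    refine ⟨fun _ => 0, Eventually.of_forall fun i => ⟨by simp, ?_⟩⟩
    intro l p q h
    omega
  | succ b ih =>
    obtain ⟨c, s', hb', he', hr', hf', hF'⟩ := TwoG2_bad_child N hN hmin s hs hbad hreg
    obtain ⟨ψ, hψ⟩ := ih s' (by rw [he', hs]) (fun h => hf (hf'.mp h).1) hr' hb'
    have e1 := Filter.eventually_all.mpr (hF' (Or.inl hf))
    have e2 := Filter.eventually_all.mpr s.he0
    refine ⟨fun i => Polynomial.X * (Polynomial.C (c i) + ψ i), ?_⟩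
    filter_upwards [hψ, e1, e2] with i hi hF he
    refine ⟨by simp, ?_⟩
    intro l p q hpq
    rw [shift_coeff _ _ _ _ (he l)]
    split_ifs with hle
    · rw [← hF l]
      apply hi.2
      rw [he']
      have h1 : (b + 1) * p + q = b * p + (p + q) := by ring
      have h2 : (b + 1) * s.e l = b * s.e l + s.e l := by ring
      omega
    · rfl

private theorem TwoG2_not_bad_regular (N : ℕ) (hN : 0 < N)
    (hmin : ∀ s : St k Λ, ∑ l, s.e l < N → HasTypesS s.T s.J) (s : St k Λ)
    (hs : ∑ l, s.e l = N)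
    (hreg : ∀ l, ∀ᶠ i in UU, coeff (mon (s.e l) 0) (s.F l i) ≠ 0) : HasTypesS s.T s.J := by
  by_contra hbad
  have hf : s.fY := by
    by_contra hf
    exact hbad (TwoG2_not_bad_unflagged N hN hmin s hs hf hreg)
  have key : ∀ b : ℕ, ∀ l, ∀ᶠ i in UU, ∀ q < b * s.e l, coeff (mon 0 q) (s.F l i) = 0 := by
    intro b
    clear hf
    induction b generalizing s with
    | zero =>
      intro l
      exact Eventually.of_forall fun i q hq => by omega
    | succ b ih =>
      obtain ⟨c, s', hb', he', hr', hf', hF'⟩ := TwoG2_bad_child N hN hmin s hs hbad hreg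
      have hfs' : s'.fY := by
        by_contra hf
        exact hb' (TwoG2_not_bad_unflagged N hN hmin s' (by rw [he', hs]) hf hr')
      have hc0 := (hf'.mp hfs').2
      have ih' := ih s' (by rw [he', hs]) hr' hb'
      intro l
      filter_upwards [ih' l, hF' (Or.inr hc0) l, s.he0 l, hc0] with i hi hF he hc q hq
      have hz := atZ_ch1_zero (s.e l) (s.F l i) he
      rw [← coeff_atZ, ← hz, Polynomial.coeff_X_pow_mul']
      split_ifs with hle
      · rw [coeff_atZ]
        rw [hc] at hF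
        rw [← hF]
        apply hi
        rw [he']
        have h2 : (b + 1) * s.e l = b * s.e l + s.e l := by ring
        omega
      · rfl
  obtain ⟨l, hl⟩ : ∃ l, 0 < s.e l := by
    by_contra hcon
    push Not at hcon
    have : ∑ l, s.e l = 0 := Finset.sum_eq_zero fun l _ => by have := hcon l; omega
    omega
  obtain ⟨q, hq⟩ := s.hY hf l
  refine ev_false ?_
  filter_upwards [hq, key (q + 1) l] with i h1 h2
  exact h1 (h2 q (by nlinarith))

private theorem TwoG2_all_types (s : St k Λ) : HasTypesS s.T s.J := by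
  have key : ∀ N : ℕ, ∀ s : St k Λ, ∑ l, s.e l = N → HasTypesS s.T s.J := by
    intro N
    induction N using Nat.strong_induction_on with
    | _ N ih =>
      intro s hs
      rcases Nat.eq_zero_or_pos N with h0 | hN
      · subst h0
        apply TwoG2_terminal0
        intro l
        exact (Finset.sum_eq_zero_iff.mp hs) l (Finset.mem_univ l)
      · have hmin : ∀ s : St k Λ, ∑ l, s.e l < N → HasTypesS s.T s.J :=
          fun s' hs' => ih _ hs' s' rfl
        apply TwoG2_node s
        · intro c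
          obtain ⟨s', hT, hJ, hle, hr, -, -⟩ := child1 s c
          have hT' : s'.T = fun l i => aeval (m1 (c i)) (s.T l i) :=
            funext fun l => funext fun i => hT l i
          have hJ' : s'.J = fun i => aeval (m1 (c i)) (s.J i) * X 1 := funext hJ
          rw [← hT', ← hJ']
          by_cases hlt : ∑ l, s'.e l < N
          · exact hmin s' hlt
          · have h1 : ∑ l, s'.e l = ∑ l, s.e l :=
              le_antisymm (Finset.sum_le_sum fun l _ => hle l) (by omega)
            have heq : ∀ l, s'.e l = s.e l := fun l =>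
              (Finset.sum_eq_sum_iff_of_le fun l _ => hle l).mp h1 l (Finset.mem_univ l)
            exact TwoG2_not_bad_regular N hN hmin s' (by omega)
              (fun l => by rw [heq l]; exact hr l (heq l))
        · obtain ⟨s', hT, hJ, hle, hr, -⟩ := child2 s
          have hT' : s'.T = fun l i => aeval (m2 k) (s.T l i) :=
            funext fun l => funext fun i => hT l i
          have hJ' : s'.J = fun i => aeval (m2 k) (s.J i) * X 1 := funext hJ
          rw [← hT', ← hJ']
          by_cases hlt : ∑ l, s'.e l < N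
          · exact hmin s' hlt
          · have h1 : ∑ l, s'.e l = ∑ l, s.e l :=
              le_antisymm (Finset.sum_le_sum fun l _ => hle l) (by omega)
            have heq : ∀ l, s'.e l = s.e l := fun l =>
              (Finset.sum_eq_sum_iff_of_le fun l _ => hle l).mp h1 l (Finset.mem_univ l)
            exact TwoG2_not_bad_regular N hN hmin s' (by omega)
              (fun l => by rw [heq l]; exact hr l (heq l))
  exact key _ s rfl

end term

end st

/-- The strong block theorem for two variables. -/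
theorem blockOKS_two (k : Type u) [Field k] [IsAlgClosed k] [CharZero k] :
    BlockOKS k (Fin 2) := by
  intro Λ _ F hF
  have := Fintype.ofFinite Λ
  have h : ∀ l, ∃ e, (∀ᶠ i in UU, ∀ m : Fin 2 →₀ ℕ, m.degree < e → coeff m (F l i) = 0) ∧
      ∃ m : Fin 2 →₀ ℕ, m.degree = e ∧ ∀ᶠ i in UU, coeff m (F l i) ≠ 0 := by
    intro l
    obtain ⟨m, hm⟩ := hF l
    obtain ⟨e, _, h1, h2⟩ := exists_order (F l) _ m rfl hm
    exact ⟨e, h1, h2⟩
  choose e he0 he1 using h
  exact TwoG2_all_types {
    T := F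
    J := fun _ => 1
    F := F
    V := fun _ => 1
    L := fun _ => 0
    M := fun _ => 0
    α := 0
    β := 0
    e := e
    fY := False
    fZ := False
    hT := fun l => Eventually.of_forall fun i => by simp
    hJ := Eventually.of_forall fun i => by simp
    hV := Eventually.of_forall fun i => by
      show constantCoeff (1 : MvPolynomial (Fin 2) k) ≠ 0
      simp
    he0 := he0
    he1 := he1
    hfY := fun _ => ⟨rfl, fun _ => rfl⟩
    hfZ := fun _ => ⟨rfl, fun _ => rfl⟩
    hY := fun h => h.elim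
    hZ := fun h => h.elim }

end MLD
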