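import Pool.Agent.MLD.Core2
import Pool.Agent.MLD.TwoG2
import Pool.Agent.MLD.Small2
import Pool.Agent.MLD.SplitQ1

/-!
Boundedness for split tuples.
-/

open MvPolynomial Filter

namespace MLD

universe u

variable {k : Type u} [Field k]

theorem blockOKS_le_two [IsAlgClosed k] [CharZero k] {σ β : Type} [Fintype σ] [DecidableEq σ]
    [DecidableEq β] (blk : σ → β) (b : β)
    (hb : Fintype.card {i // blk i = b} ≤ 2) : BlockOKS k {i // blk i = b} := by
  rcases Nat.lt_or_ge (Fintype.card {i // blk i = b}) 2 with h | h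
  · exact blockOKS_card_le_one _ (by omega)
  · have h2 : Fintype.card {i // blk i = b} = 2 := le_antisymm hb h
    exact blockOKS_equiv (Fintype.equivFinOfCardEq h2).symm (blockOKS_two k)

theorem bdd_isSplit [IsAlgClosed k] [CharZero k] (n : ℕ) (hn : 0 < n) (R : ℕ)
    (lam : Fin (R + 1) → ℝ) (hlam : ∀ j, 0 ≤ lam j) (h1 : lam 0 ≤ 1) :
    BddT (IsSplit (k := k) (n := n) (r := R)) lam := by
  have : Nonempty (Fin n) := ⟨⟨0, hn⟩⟩
  exact split_bdd n hn lam hlam fun blk hblk =>
    core2 blk (fun b => blockOKS_le_two blk b (hblk b)) lam hlam h1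

end MLD
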