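import Pool.Agent.MLD.Defs

/-!
Formal coordinates at the origin of affine space, block ideals and block sums in formal
coordinates.
-/

open MvPolynomial

namespace MLD

universe u v

section
variable {k : Type u} [Field k] {σ : Type v}

/-- The power series `g` involves only the variables of the block `b`. -/
def InBlock {β : Type*} (blk : σ → β) (b : β) (g : MvPowerSeries σ k) : Prop :=
  ∀ m : σ →₀ ℕ, MvPowerSeries.coeff m g ≠ 0 → ∀ i, m i ≠ 0 → blk i = b

/-- The extension of an ideal of the coordinate ring to the ring of formal power series. -/
noncomputable def hatI (I : Ideal (MvPolynomial σ k)) : Ideal (MvPowerSeries σ k) :=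
  I.map (MvPolynomial.coeToMvPowerSeries.ringHom (σ := σ) (R := k))

/-- In the formal coordinates `φ(x_i)` the ideal `I` is generated by products of power series,
each of which involves only the variables of one block. -/
def FormalBlockIdeal {β : Type*} [Fintype β] (blk : σ → β)
    (φ : MvPowerSeries σ k ≃ₐ[k] MvPowerSeries σ k) (I : Ideal (MvPolynomial σ k)) : Prop :=
  ∃ S : Set (β → MvPowerSeries σ k), (∀ g ∈ S, ∀ b, InBlock blk b (g b)) ∧
    hatI I = Ideal.span ((fun g => φ (∏ b, g b)) '' S)

/-- In the formal coordinates `φ(x_i)` the ideal `I` is generated by one sum of power series,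
each of which involves only the variables of one block. -/
def FormalBlockSum {β : Type*} [Fintype β] (blk : σ → β)
    (φ : MvPowerSeries σ k ≃ₐ[k] MvPowerSeries σ k) (I : Ideal (MvPolynomial σ k)) : Prop :=
  ∃ g : β → MvPowerSeries σ k, (∀ b, InBlock blk b (g b)) ∧
    hatI I = Ideal.span {φ (∑ b, g b)}

end

/-- The tuple of ideals `(a_0, ..., a_r)` splits: in suitable formal coordinates at the origin,
partitioned into blocks of at most two coordinates, `a_0` is generated by a sum of power series in
the single blocks, and `a_1, ..., a_r` are generated by products of power series in the single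
blocks. -/
def IsSplit {k : Type u} [Field k] {n r : ℕ} (a : Fin (r + 1) → Ideal (MvPolynomial (Fin n) k)) :
    Prop :=
  ∃ (blk : Fin n → Fin n) (φ : MvPowerSeries (Fin n) k ≃ₐ[k] MvPowerSeries (Fin n) k),
    (∀ b, Fintype.card {i // blk i = b} ≤ 2) ∧ FormalBlockSum blk φ (a 0) ∧
      ∀ j : Fin r, FormalBlockIdeal blk φ (a j.succ)

end MLD
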