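import Pool.Agent.MLD.ExtVal

/-!
PIECE MLD-C12: the monomial extension of a valuation to a rational function field.

PROOF. For `G ≠ 0` in `K₂[X_c]` let `u G := min over m in the support of (∑ α c * m c + v₂ (coeff m G))`
(`Finset.inf'` over the nonempty support, in `ℤ`).  `u (G + H) ≥ min` is clear.
`u (G * H) = u G + u H`: `≥` from the coefficients of the product.  For `≤`: let `A` be the set of `m` in
the support of `G` where the minimum is attained, `B` the same for `H`; let `m_G`, `m_H` be the largest elements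
of `A`, `B` for a monomial order (e.g. `MonomialOrder.lex`, or any linear order on `Γ →₀ ℕ` compatible with
addition; `Γ` may be replaced by `Fin n`).  In the coefficient of `G * H` at `m_G + m_H` the term `(m_G, m_H)`
has value exactly `u G + u H - ∑ α (m_G + m_H)`, all other terms `(a, b)`, `a + b = m_G + m_H`, have
larger value (`a ∉ A` or `b ∉ B`; otherwise `a ≤ m_G`, `b ≤ m_H` force equality).  Use `ord_add_eq`.
Then extend to fractions: `ord (a / b) := u a - u b` as in `extend_ord` (`ExtVal.lean`), whose proof can be copied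
with `ℤ` in place of `ℕ`.
-/

open MvPolynomial

namespace MLD

universe u

/-- `v` is the monomial extension of `v₂` with `v (q_c) = α c`. -/
def IsGauss {k K₂ : Type u} [Field k] [Field K₂] [Algebra k K₂] (v₂ : OrdFn k K₂) {Γ : Type}
    [Fintype Γ] (α : Γ → ℤ) (v : OrdFn k (FractionRing (MvPolynomial Γ K₂))) : Prop :=
  ∀ G : MvPolynomial Γ K₂, G ≠ 0 →
    (∀ m ∈ G.support, v.ord (algebraMap _ (FractionRing (MvPolynomial Γ K₂)) G) ≤
      ∑ c, α c * (m c : ℤ) + v₂.ord (coeff m G)) ∧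
    ∃ m ∈ G.support, v.ord (algebraMap _ (FractionRing (MvPolynomial Γ K₂)) G) =
      ∑ c, α c * (m c : ℤ) + v₂.ord (coeff m G)

private theorem Gauss_extend {k : Type u} [Field k] {R F : Type u} [CommRing R] [IsDomain R]
    [Algebra k R] [Field F] [Algebra R F] [IsFractionRing R F] [Algebra k F]
    [IsScalarTower k R F] (u : R → ℤ)
    (hmul : ∀ f g, f ≠ 0 → g ≠ 0 → u (f * g) = u f + u g)
    (hadd : ∀ f g, f ≠ 0 → g ≠ 0 → f + g ≠ 0 → min (u f) (u g) ≤ u (f + g))
    (hc : ∀ c : k, c ≠ 0 → u (algebraMap k R c) = 0) :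
    ∃ v : OrdFn k F, ∀ f : R, f ≠ 0 → v.ord (algebraMap R F f) = u f := by
  classical
  have hinj : Function.Injective (algebraMap R F) := IsFractionRing.injective R F
  have hex : ∀ f : F, ∃ a b : R, b ≠ 0 ∧ algebraMap R F a / algebraMap R F b = f := by
    intro f
    obtain ⟨a, b, hb, hab⟩ := IsFractionRing.div_surjective (A := R) f
    exact ⟨a, b, nonZeroDivisors.ne_zero hb, hab⟩
  choose num den hden hfrac using hex
  have hnum : ∀ f : F, f ≠ 0 → num f ≠ 0 := by
    intro f hf h0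
    apply hf
    rw [← hfrac f, h0, map_zero, zero_div]
  have key : ∀ a b : R, a ≠ 0 → b ≠ 0 →
      u (num (algebraMap R F a / algebraMap R F b)) -
        u (den (algebraMap R F a / algebraMap R F b)) = u a - u b := by
    intro a b ha hb
    set f := algebraMap R F a / algebraMap R F b with hf
    have ha' : algebraMap R F a ≠ 0 := fun h => ha (hinj (by rw [h, map_zero]))
    have hb' : algebraMap R F b ≠ 0 := fun h => hb (hinj (by rw [h, map_zero]))
    have hf0 : f ≠ 0 := div_ne_zero ha' hb'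
    have hd' : algebraMap R F (den f) ≠ 0 := fun h => hden f (hinj (by rw [h, map_zero]))
    have h1 := hfrac f
    rw [hf] at h1
    rw [← hf] at h1
    rw [hf, div_eq_div_iff hd' hb', ← map_mul, ← map_mul] at h1
    rw [← hf] at h1
    have h2 := hinj h1
    have h3 := hmul (num f) b (hnum f hf0) hb
    have h4 := hmul a (den f) ha (hden f)
    rw [h2, h4] at h3
    omega
  have hrep : ∀ f : F, f ≠ 0 → ∃ a b : R, a ≠ 0 ∧ b ≠ 0 ∧
      f = algebraMap R F a / algebraMap R F b := fun f hf =>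
    ⟨num f, den f, hnum f hf, hden f, (hfrac f).symm⟩
  have hu1 : u 1 = 0 := by
    have := hmul 1 1 one_ne_zero one_ne_zero
    rw [mul_one] at this
    omega
  refine ⟨⟨fun f => u (num f) - u (den f), ?_, ?_, ?_⟩, ?_⟩
  · intro f g hf hg
    obtain ⟨a, b, ha, hb, rfl⟩ := hrep f hf
    obtain ⟨c, d, hc', hd, rfl⟩ := hrep g hg
    have h1 : algebraMap R F a / algebraMap R F b * (algebraMap R F c / algebraMap R F d) =
        algebraMap R F (a * c) / algebraMap R F (b * d) := by
      rw [div_mul_div_comm, map_mul, map_mul]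
    rw [h1, key _ _ (mul_ne_zero ha hc') (mul_ne_zero hb hd), key _ _ ha hb, key _ _ hc' hd,
      hmul a c ha hc', hmul b d hb hd]
    ring
  · intro f g hf hg hfg
    obtain ⟨a, b, ha, hb, rfl⟩ := hrep f hf
    obtain ⟨c, d, hc', hd, rfl⟩ := hrep g hg
    have hb' : algebraMap R F b ≠ 0 := fun h => hb (hinj (by rw [h, map_zero]))
    have hd' : algebraMap R F d ≠ 0 := fun h => hd (hinj (by rw [h, map_zero]))
    have h1 : algebraMap R F a / algebraMap R F b + algebraMap R F c / algebraMap R F d =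
        algebraMap R F (a * d + b * c) / algebraMap R F (b * d) := by
      rw [div_add_div _ _ hb' hd', map_add, map_mul, map_mul, map_mul]
    have h2 : a * d + b * c ≠ 0 := by
      intro h0
      apply hfg
      rw [h1, h0, map_zero, zero_div]
    rw [h1, key _ _ h2 (mul_ne_zero hb hd), key _ _ ha hb, key _ _ hc' hd, hmul b d hb hd]
    have h3 := hadd (a * d) (b * c) (mul_ne_zero ha hd) (mul_ne_zero hb hc') h2
    rw [hmul a d ha hd, hmul b c hb hc'] at h3
    omega
  · intro c hc0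
    have h1 : algebraMap k F c = algebraMap R F (algebraMap k R c) / algebraMap R F 1 := by
      rw [map_one, div_one, ← IsScalarTower.algebraMap_apply]
    have h2 : algebraMap k R c ≠ 0 := by
      rw [Ne, map_eq_zero]
      exact hc0
    rw [h1, key _ _ h2 one_ne_zero, hc c hc0, hu1]
    simp
  · intro f hf
    have h1 : algebraMap R F f = algebraMap R F f / algebraMap R F 1 := by
      rw [map_one, div_one]
    change u (num (algebraMap R F f)) - u (den (algebraMap R F f)) = u f
    have h2 := key f 1 hf one_ne_zero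
    rw [← h1, hu1] at h2
    simpa using h2

section

variable {k K₂ : Type u} [Field k] [Field K₂] [Algebra k K₂] (v₂ : OrdFn k K₂)
  {Γ : Type} [Fintype Γ] (α : Γ → ℤ)

/-- the weight of a monomial -/
private def Gauss_W (m : Γ →₀ ℕ) : ℤ := ∑ c, α c * (m c : ℤ)

private theorem Gauss_W_add (a b : Γ →₀ ℕ) : Gauss_W α (a + b) = Gauss_W α a + Gauss_W α b := by
  unfold Gauss_W
  rw [← Finset.sum_add_distrib]
  refine Finset.sum_congr rfl fun c _ => ?_
  rw [Finsupp.add_apply]
  push_cast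
  ring

open Classical in
/-- the value of a polynomial -/
private noncomputable def Gauss_u (G : MvPolynomial Γ K₂) : ℤ :=
  if h : G = 0 then 0 else
    G.support.inf' (MvPolynomial.support_nonempty.2 h)
      fun m => Gauss_W α m + v₂.ord (coeff m G)

private theorem Gauss_le {G : MvPolynomial Γ K₂} {m : Γ →₀ ℕ} (hm : m ∈ G.support) :
    Gauss_u v₂ α G ≤ Gauss_W α m + v₂.ord (coeff m G) := by
  have h : G ≠ 0 := by
    rintro rfl
    simp at hm
  unfold Gauss_u
  rw [dif_neg h]
  exact Finset.inf'_le _ hm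

private theorem Gauss_att {G : MvPolynomial Γ K₂} (h : G ≠ 0) : ∃ m ∈ G.support,
    Gauss_u v₂ α G = Gauss_W α m + v₂.ord (coeff m G) := by
  unfold Gauss_u
  rw [dif_neg h]
  exact Finset.exists_mem_eq_inf' _ _

private theorem Gauss_ge (G : MvPolynomial Γ K₂) (m : Γ →₀ ℕ) :
    v₂.ge (Gauss_u v₂ α G - Gauss_W α m) (coeff m G) := by
  by_cases h : coeff m G = 0
  · exact Or.inl h
  · right
    have h1 := Gauss_le v₂ α (MvPolynomial.mem_support_iff.2 h)
    omega

private theorem Gauss_of_ge {G : MvPolynomial Γ K₂} (hG : G ≠ 0) {N : ℤ}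
    (h : ∀ m, v₂.ge (N - Gauss_W α m) (coeff m G)) : N ≤ Gauss_u v₂ α G := by
  obtain ⟨m, hm, h1⟩ := Gauss_att v₂ α hG
  rcases h m with h2 | h2
  · exact absurd h2 (MvPolynomial.mem_support_iff.1 hm)
  · omega

private theorem Gauss_add {G H : MvPolynomial Γ K₂} (hGH : G + H ≠ 0) :
    min (Gauss_u v₂ α G) (Gauss_u v₂ α H) ≤ Gauss_u v₂ α (G + H) := by
  refine Gauss_of_ge v₂ α hGH fun m => ?_
  rw [coeff_add]
  refine v₂.ge_add (v₂.ge_mono ?_ (Gauss_ge v₂ α G m)) (v₂.ge_mono ?_ (Gauss_ge v₂ α H m))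
  · have := min_le_left (Gauss_u v₂ α G) (Gauss_u v₂ α H)
    omega
  · have := min_le_right (Gauss_u v₂ α G) (Gauss_u v₂ α H)
    omega

private theorem Gauss_mul_ge {G H : MvPolynomial Γ K₂} (hG : G ≠ 0) (hH : H ≠ 0) :
    Gauss_u v₂ α G + Gauss_u v₂ α H ≤ Gauss_u v₂ α (G * H) := by
  classical
  refine Gauss_of_ge v₂ α (mul_ne_zero hG hH) fun m => ?_
  rw [coeff_mul]
  refine v₂.ge_sum _ _ fun x hx => ?_
  rw [Finset.HasAntidiagonal.mem_antidiagonal] at hx
  have h1 := v₂.ge_mul (Gauss_ge v₂ α G x.1) (Gauss_ge v₂ α H x.2)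
  refine v₂.ge_mono ?_ h1
  rw [← hx, Gauss_W_add]
  omega

private theorem Gauss_exists_order (Γ : Type) [Fintype Γ] : ∃ (L : Type) (_ : AddCommMonoid L)
    (_ : LinearOrder L) (_ : IsOrderedCancelAddMonoid L) (φ : (Γ →₀ ℕ) →+ L),
    Function.Injective φ := by
  classical
  let _ : LinearOrder Γ := LinearOrder.lift' (Fintype.equivFin Γ) (Fintype.equivFin Γ).injective
  let M : MonomialOrder Γ := MonomialOrder.lex
  exact ⟨M.syn, inferInstance, inferInstance, inferInstance, M.toSyn.toAddMonoidHom,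
    M.toSyn.injective⟩

private theorem Gauss_mul_le {G H : MvPolynomial Γ K₂} (hG : G ≠ 0) (hH : H ≠ 0) :
    Gauss_u v₂ α (G * H) ≤ Gauss_u v₂ α G + Gauss_u v₂ α H := by
  classical
  obtain ⟨L, _, _, _, φ, hφ⟩ := Gauss_exists_order Γ
  have hmax : ∀ {P : MvPolynomial Γ K₂}, P ≠ 0 → ∃ m ∈ P.support,
      Gauss_u v₂ α P = Gauss_W α m + v₂.ord (coeff m P) ∧
      ∀ a ∈ P.support, Gauss_u v₂ α P = Gauss_W α a + v₂.ord (coeff a P) → φ a ≤ φ m := by
    intro P hP
    obtain ⟨m0, hm0, h0⟩ := Gauss_att v₂ α hP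
    obtain ⟨m, hm, h1⟩ := Finset.exists_max_image
      (P.support.filter fun a => Gauss_u v₂ α P = Gauss_W α a + v₂.ord (coeff a P)) φ
      ⟨m0, Finset.mem_filter.2 ⟨hm0, h0⟩⟩
    rw [Finset.mem_filter] at hm
    exact ⟨m, hm.1, hm.2, fun a ha h2 => h1 a (Finset.mem_filter.2 ⟨ha, h2⟩)⟩
  obtain ⟨mG, hmG, hG1, hG2⟩ := hmax hG
  obtain ⟨mH, hmH, hH1, hH2⟩ := hmax hH
  have cG := MvPolynomial.mem_support_iff.1 hmG
  have cH := MvPolynomial.mem_support_iff.1 hmH
  have hterm : ∀ x ∈ (Finset.HasAntidiagonal.antidiagonal (mG + mH)).erase (mG, mH),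
      v₂.ge (v₂.ord (coeff mG G * coeff mH H) + 1) (coeff x.1 G * coeff x.2 H) := by
    rintro ⟨a, b⟩ hx
    rw [Finset.mem_erase, Finset.HasAntidiagonal.mem_antidiagonal] at hx
    obtain ⟨hne, hab⟩ := hx
    have hab' : a + b = mG + mH := hab
    change v₂.ge _ (coeff a G * coeff b H)
    by_cases ha : coeff a G = 0
    · rw [ha, zero_mul]; exact v₂.ge_zero _
    by_cases hb : coeff b H = 0
    · rw [hb, mul_zero]; exact v₂.ge_zero _
    right
    rw [v₂.ord_mul cG cH, v₂.ord_mul ha hb]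
    have ha1 := MvPolynomial.mem_support_iff.2 ha
    have hb1 := MvPolynomial.mem_support_iff.2 hb
    have h1 := Gauss_le v₂ α ha1
    have h2 := Gauss_le v₂ α hb1
    have h3 := Gauss_W_add α a b
    rw [hab', Gauss_W_add] at h3
    by_cases h4 : Gauss_u v₂ α G = Gauss_W α a + v₂.ord (coeff a G)
    · by_cases h5 : Gauss_u v₂ α H = Gauss_W α b + v₂.ord (coeff b H)
      · exfalso
        have h6 := hG2 a ha1 h4
        have h7 := hH2 b hb1 h5
        have h8 : φ a + φ b = φ mG + φ mH := by rw [← map_add, hab', map_add]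
        have h9 : φ a = φ mG := by
          rcases h6.lt_or_eq with h | h
          · exact absurd h8 (add_lt_add_of_lt_of_le h h7).ne
          · exact h
        have h10 : φ b = φ mH := by
          rw [h9] at h8
          exact add_left_cancel h8
        exact hne (Prod.ext (hφ h9) (hφ h10))
      · omega
    · omega
  have hsum : coeff (mG + mH) (G * H) = coeff mG G * coeff mH H +
      ∑ x ∈ (Finset.HasAntidiagonal.antidiagonal (mG + mH)).erase (mG, mH), coeff x.1 G * coeff x.2 H := by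
    rw [coeff_mul]
    exact (Finset.add_sum_erase (Finset.HasAntidiagonal.antidiagonal (mG + mH))
      (fun x : (Γ →₀ ℕ) × (Γ →₀ ℕ) => coeff x.1 G * coeff x.2 H) (a := (mG, mH))
      (Finset.HasAntidiagonal.mem_antidiagonal.2 rfl)).symm
  have h1 := v₂.ord_add_eq (mul_ne_zero cG cH) (v₂.ge_sum _ _ hterm)
  rw [← hsum] at h1
  have h2 := Gauss_le v₂ α (MvPolynomial.mem_support_iff.2 h1.1)
  rw [h1.2, v₂.ord_mul cG cH, Gauss_W_add] at h2
  omega

private theorem Gauss_const (c : k) (hc : c ≠ 0) :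
    Gauss_u v₂ α (algebraMap k (MvPolynomial Γ K₂) c) = 0 := by
  classical
  have h0 : algebraMap k (MvPolynomial Γ K₂) c = C (algebraMap k K₂ c) := rfl
  have h1 : algebraMap k K₂ c ≠ 0 := by
    rw [Ne, map_eq_zero]
    exact hc
  have h2 : (C (algebraMap k K₂ c) : MvPolynomial Γ K₂) ≠ 0 := by
    rw [Ne, MvPolynomial.C_eq_zero]
    exact h1
  obtain ⟨m, hm, h3⟩ := Gauss_att v₂ α h2
  have h4 : m = 0 := by
    have h5 := MvPolynomial.mem_support_iff.1 hm
    rw [coeff_C] at h5
    by_contra h6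
    exact h5 (if_neg (Ne.symm h6))
  rw [h0, h3, h4, coeff_zero_C, v₂.ord_algebraMap hc]
  simp [Gauss_W]

end

theorem exists_gauss {k K₂ : Type u} [Field k] [Field K₂] [Algebra k K₂] (v₂ : OrdFn k K₂)
    {Γ : Type} [Fintype Γ] (α : Γ → ℤ) :
    ∃ v : OrdFn k (FractionRing (MvPolynomial Γ K₂)), IsGauss v₂ α v := by
  obtain ⟨v, hv⟩ := Gauss_extend (k := k) (R := MvPolynomial Γ K₂)
    (F := FractionRing (MvPolynomial Γ K₂)) (Gauss_u v₂ α)
    (fun f g hf hg => le_antisymm (Gauss_mul_le v₂ α hf hg) (Gauss_mul_ge v₂ α hf hg))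
    (fun f g _ _ hfg => Gauss_add v₂ α hfg) (Gauss_const v₂ α)
  refine ⟨v, fun G hG => ⟨fun m hm => ?_, ?_⟩⟩
  · rw [hv G hG]
    exact Gauss_le v₂ α hm
  · rw [hv G hG]
    exact Gauss_att v₂ α hG

end MLD
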