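import Pool.Agent.MLD.Gauss
import Pool.Agent.MLD.ArcExtD

/-!
PIECE MLD-C13: derivations of the rational function field `K₂(q_c)` which preserve the filtration of
the monomial extension.

PROOF. (a) `δ` acts on the coefficients: the derivation `G ↦ ∑ δ (coeff m G) X^m` of `K₂[q]` over `k`
(`MvPolynomial.mkDerivation` is only for `K₂`-derivations; there is `Derivation.mapCoeff` for polynomials and
perhaps for `MvPolynomial`; or construct the linear map by `Finsupp.mapRange` and check Leibniz on monomials; see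
`ArcPs.lean` (coefficientwise derivation of Laurent series) and `ArcExtD.lean` for models), extended to the fraction
field (`exists_pderivFF` in `Der.lean` / `ArcPs` are models of the extension of a derivation to fractions;
`IsLocalization` formal etaleness also works).
(b) `q_c₀ ∂/∂q_c₀` on `K₂[q]` multiplies the coefficient at `m` by `m c₀`.
Filtration: for polynomials `G ≠ 0` every coefficient of `D G` is `δ (coeff m G)` or `m c₀ * coeff m G`, so
`v.ge (v.ord G) (D G)` (`IsGauss` for `D G`, if it is nonzero, and for `G`).  For a fraction `f = a / b`: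
`D f = (D a * b - a * D b) / b ^ 2`, `v.ge_sub`, `v.ge_mul`.
-/

open MvPolynomial

namespace MLD

universe u

variable {k K₂ : Type u} [Field k] [Field K₂] [Algebra k K₂] (v₂ : OrdFn k K₂) {Γ : Type}
  [Fintype Γ] [DecidableEq Γ] (α : Γ → ℤ) (v : OrdFn k (FractionRing (MvPolynomial Γ K₂)))

private theorem GaussDer_key (hv : IsGauss v₂ α v) (G H : MvPolynomial Γ K₂) (hG : G ≠ 0)
    (h : ∀ m, v₂.ge (v₂.ord (coeff m G)) (coeff m H)) (h0 : ∀ m, coeff m G = 0 → coeff m H = 0) :
    v.ge (v.ord (algebraMap _ (FractionRing (MvPolynomial Γ K₂)) G))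
      (algebraMap _ (FractionRing (MvPolynomial Γ K₂)) H) := by
  by_cases hH : H = 0
  · left
    rw [hH, map_zero]
  · right
    obtain ⟨m, hm, hm'⟩ := (hv H hH).2
    have hmH : coeff m H ≠ 0 := mem_support_iff.mp hm
    have hmG : m ∈ G.support := by
      rw [mem_support_iff]
      exact fun h1 => hmH (h0 m h1)
    have h1 := (hv G hG).1 m hmG
    have h2 : v₂.ord (coeff m G) ≤ v₂.ord (coeff m H) := by
      rcases h m with h3 | h3
      · exact absurd h3 hmH
      · exact h3
    rw [hm']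
    linarith

omit [Fintype Γ] [DecidableEq Γ] in
private theorem GaussDer_frac (D : Derivation k (FractionRing (MvPolynomial Γ K₂))
      (FractionRing (MvPolynomial Γ K₂)))
    (key : ∀ a : MvPolynomial Γ K₂, a ≠ 0 →
      v.ge (v.ord (algebraMap _ (FractionRing (MvPolynomial Γ K₂)) a))
        (D (algebraMap _ (FractionRing (MvPolynomial Γ K₂)) a)))
    (f : FractionRing (MvPolynomial Γ K₂)) (hf : f ≠ 0) : v.ge (v.ord f) (D f) := by
  obtain ⟨a, b, hb, rfl⟩ := IsFractionRing.div_surjective (A := MvPolynomial Γ K₂) f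
  have hb0 : b ≠ 0 := nonZeroDivisors.ne_zero hb
  have ha0 : a ≠ 0 := by
    rintro rfl
    rw [map_zero, zero_div] at hf
    exact hf rfl
  have hinj : Function.Injective
      (algebraMap (MvPolynomial Γ K₂) (FractionRing (MvPolynomial Γ K₂))) :=
    IsFractionRing.injective _ _
  set ι := algebraMap (MvPolynomial Γ K₂) (FractionRing (MvPolynomial Γ K₂)) with hι
  have hb' : ι b ≠ 0 := fun h => hb0 (hinj (by rw [h, map_zero]))
  have ha' : ι a ≠ 0 := fun h => ha0 (hinj (by rw [h, map_zero]))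
  have hord : v.ord (ι a) = v.ord (ι a / ι b) + v.ord (ι b) := by
    rw [← v.ord_mul hf hb', div_mul_cancel₀ _ hb']
  have h1 : D (ι a) = ι a / ι b * D (ι b) + ι b * D (ι a / ι b) := by
    have h2 := D.leibniz (ι a / ι b) (ι b)
    rw [div_mul_cancel₀ _ hb', smul_eq_mul, smul_eq_mul] at h2
    exact h2
  have h3 : D (ι a / ι b) = (ι b)⁻¹ * (D (ι a) - ι a / ι b * D (ι b)) := by
    rw [h1, add_sub_cancel_left, inv_mul_cancel_left₀ hb']
  have h4 : v.ge (v.ord (ι a)) (D (ι a) - ι a / ι b * D (ι b)) := by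
    refine v.ge_sub (key a ha0) ?_
    rw [hord]
    exact v.ge_mul (v.ge_self _) (key b hb0)
  have h5 : v.ge (v.ord (ι b)⁻¹) (ι b)⁻¹ := v.ge_self _
  have h6 := v.ge_mul h5 h4
  rw [← h3, v.ord_inv _ hb', hord] at h6
  have h7 : -v.ord (ι b) + (v.ord (ι a / ι b) + v.ord (ι b)) = v.ord (ι a / ι b) := by ring
  rw [h7] at h6
  exact h6

theorem gauss_coef (hv : IsGauss v₂ α v) (δ : Derivation k K₂ K₂)
    (hδ : ∀ f, f ≠ 0 → v₂.ge (v₂.ord f) (δ f)) :
    ∃ D : Derivation k (FractionRing (MvPolynomial Γ K₂)) (FractionRing (MvPolynomial Γ K₂)),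
      (∀ f : K₂, D (algebraMap _ _ (C f : MvPolynomial Γ K₂)) =
        algebraMap _ _ (C (δ f) : MvPolynomial Γ K₂)) ∧
      (∀ c, D (algebraMap _ _ (X c : MvPolynomial Γ K₂)) = 0) ∧
      ∀ f, f ≠ 0 → v.ge (v.ord f) (D f) := by
  obtain ⟨D, hD1, hD2, hD3⟩ := exists_extDer (σ := Γ) δ
  refine ⟨D, fun f => hD2 f, fun c => hD3 c, fun f hf => GaussDer_frac v D ?_ f hf⟩
  intro a ha
  obtain ⟨q, hq, hq'⟩ := hD1 a
  have h1 : D (algebraMap _ (FractionRing (MvPolynomial Γ K₂)) a) =
      algebraMap _ (FractionRing (MvPolynomial Γ K₂)) q := hq'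
  rw [h1]
  refine GaussDer_key v₂ α v hv a q ha (fun m => ?_) (fun m hm => ?_)
  · rw [hq]
    by_cases h0 : coeff m a = 0
    · left
      rw [h0, map_zero]
    · exact hδ _ h0
  · rw [hq, hm, map_zero]

theorem gauss_euler (hv : IsGauss v₂ α v) (c₀ : Γ) :
    ∃ D : Derivation k (FractionRing (MvPolynomial Γ K₂)) (FractionRing (MvPolynomial Γ K₂)),
      (∀ f : K₂, D (algebraMap _ _ (C f : MvPolynomial Γ K₂)) = 0) ∧
      (∀ c, D (algebraMap _ _ (X c : MvPolynomial Γ K₂)) =
        if c = c₀ then algebraMap _ _ (X c : MvPolynomial Γ K₂) else 0) ∧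
      ∀ f, f ≠ 0 → v.ge (v.ord f) (D f) := by
  obtain ⟨E, hE⟩ := exists_zDer (k := k) (L := K₂) (σ := Γ)
  obtain ⟨hE1, hE2, hE3⟩ := hE c₀
  refine ⟨(algebraMap _ (FractionRing (MvPolynomial Γ K₂)) (X c₀ : MvPolynomial Γ K₂)) • E c₀,
    fun f => ?_, fun c => ?_, fun f hf => GaussDer_frac v _ ?_ f hf⟩
  · rw [Derivation.smul_apply]
    have h1 : E c₀ (algebraMap _ _ (C f : MvPolynomial Γ K₂)) = 0 := hE2 f
    rw [h1, smul_zero]
  · rw [Derivation.smul_apply]
    have h1 : E c₀ (algebraMap _ _ (X c : MvPolynomial Γ K₂)) = if c₀ = c then 1 else 0 := hE3 c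
    rw [h1]
    by_cases h : c = c₀
    · subst h
      rw [if_pos rfl, if_pos rfl, smul_eq_mul, mul_one]
    · rw [if_neg h, if_neg (Ne.symm h), smul_zero]
  · intro a ha
    rw [Derivation.smul_apply]
    have h1 : E c₀ (algebraMap _ (FractionRing (MvPolynomial Γ K₂)) a) =
        algebraMap _ (FractionRing (MvPolynomial Γ K₂)) (pderiv c₀ a) := hE1 a
    rw [h1, smul_eq_mul, ← map_mul]
    have hc : ∀ m, coeff m (X c₀ * pderiv c₀ a) = (m c₀ : K₂) * coeff m a := by
      intro m
      rw [coeff_X_mul']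
      by_cases hm : c₀ ∈ m.support
      · rw [if_pos hm, coeff_pderiv]
        have hm1 : 1 ≤ m c₀ := Nat.one_le_iff_ne_zero.mpr (Finsupp.mem_support_iff.mp hm)
        have h2 : m - Finsupp.single c₀ 1 + Finsupp.single c₀ 1 = m := by
          refine tsub_add_cancel_of_le ?_
          rwa [Finsupp.single_le_iff]
        rw [h2]
        have h3 : (((m - Finsupp.single c₀ 1 : Γ →₀ ℕ) c₀ : ℕ) : K₂) + 1 = (m c₀ : K₂) := by
          rw [Finsupp.tsub_apply, Finsupp.single_eq_same]
          have : m c₀ - 1 + 1 = m c₀ := Nat.sub_add_cancel hm1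
          exact_mod_cast congrArg (fun n : ℕ => (n : K₂)) this
        rw [h3, mul_comm]
      · rw [if_neg hm]
        rw [Finsupp.notMem_support_iff] at hm
        rw [hm, Nat.cast_zero, zero_mul]
    refine GaussDer_key v₂ α v hv a _ ha (fun m => ?_) (fun m hm => ?_)
    · rw [hc]
      by_cases h0 : (m c₀ : K₂) = 0
      · left
        rw [h0, zero_mul]
      · have h2 : v₂.ge 0 (m c₀ : K₂) := by
          have := v₂.ge_const (m c₀ : k)
          rwa [map_natCast] at this
        have h3 := v₂.ge_mul h2 (v₂.ge_self (coeff m a))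
        rwa [zero_add] at h3
    · rw [hc, hm, mul_zero]

end MLD
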