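import Pool.Agent.MLD.PsBase
import Pool.Agent.MLD.FormDefs

/-!
The Hessian matrix of a power series.
-/

open MvPolynomial Filter

namespace MLD

universe u

variable {k : Type u} [Field k]

/-- the Hessian matrix at the origin -/
noncomputable def hess {σ : Type} (f : MvPowerSeries σ k) : Matrix σ σ k :=
  Matrix.of fun i j => MvPowerSeries.constantCoeff
    (MvPowerSeries.pderiv k i (MvPowerSeries.pderiv k j f))

end MLD
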