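import Pool.Agent.MLD.PsBase

/-!
PIECE MLD-W2: the formal inverse function theorem.

`exists_automorphism`: `MvPowerSeries.substAlgHom` for `y` (`HasSubst`: constant terms nilpotent, finite
index). It maps `Low N` to `Low N`, and on homogeneous components of degree `N` modulo `Low (N+1)` it is
the substitution by the linear parts, which is bijective because the matrix is invertible.
Injective: if `Low N f` and not `Low (N+1) f` then the component of degree `N` of the image is not
zero. Surjective: successive approximation: for `g` find polynomials `f_N` homogeneous of degree `N` with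
`g - φ (∑_{N < M} f_N)` in `Low M`; `f := ∑ f_N` coefficientwise, `g - φ f` in `Low M` for all `M`.
(First compose with the linear automorphism to reduce to `y i = X i + Low 2` if this is easier: then
`φ f - f ∈ Low (N+1)` for `f ∈ Low N`, and `f ↦ φ f` is bijective since `1 - (1 - φ)` can be inverted by
the Neumann series.) `AlgEquiv.ofBijective`.
`extend_automorphism`: conjugate `PowerSeries.map φ` by `MvPowerSeries.finSuccEquiv`.
-/

open MvPolynomial Filter

namespace MLD

universe u

variable {k : Type u} [Field k] {σ : Type}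

private theorem if_low_sum {ι : Type*} {N : ℕ} (s : Finset ι) (f : ι → MvPowerSeries σ k)
    (h : ∀ i ∈ s, Low N (f i)) : Low N (∑ i ∈ s, f i) := by
  classical
  intro m hm
  rw [map_sum]
  exact Finset.sum_eq_zero fun i hi => h i hi m hm

private theorem if_low_one : Low 0 (1 : MvPowerSeries σ k) := by
  intro m hm
  exact absurd hm (Nat.not_lt_zero _)

private theorem if_eq_zero (g : MvPowerSeries σ k) (h : ∀ N, Low N g) : g = 0 := by
  ext m
  rw [h (m.degree + 1) m (Nat.lt_succ_self _)]
  simp

/-- pairs of power series which agree to the leading order -/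
private theorem if_pair_pow {m : ℕ} {a b : MvPowerSeries σ k} (ha : Low m a) (hb : Low m b)
    (hab : Low (m + 1) (a - b)) (n : ℕ) :
    Low (n * m) (a ^ n) ∧ Low (n * m) (b ^ n) ∧ Low (n * m + 1) (a ^ n - b ^ n) := by
  induction n with
  | zero =>
    simp only [zero_mul, pow_zero, sub_self]
    exact ⟨if_low_one, if_low_one, low_zero _⟩
  | succ n ih =>
    obtain ⟨h1, h2, h3⟩ := ih
    have e : (n + 1) * m = n * m + m := by ring
    rw [e, pow_succ, pow_succ]
    refine ⟨h1.mul ha, h2.mul hb, ?_⟩
    have e2 : a ^ n * a - b ^ n * b = (a ^ n - b ^ n) * a + b ^ n * (a - b) := by ring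
    rw [e2]
    refine Low.add ?_ ?_
    · exact (h3.mul ha).mono (by omega)
    · exact (h2.mul hab).mono (by omega)

private theorem if_pair_prod (s : Finset σ) (n : σ → ℕ) (a b : σ → MvPowerSeries σ k)
    (ha : ∀ i ∈ s, Low (n i) (a i)) (hb : ∀ i ∈ s, Low (n i) (b i))
    (hab : ∀ i ∈ s, Low (n i + 1) (a i - b i)) :
    Low (∑ i ∈ s, n i) (∏ i ∈ s, a i) ∧ Low (∑ i ∈ s, n i) (∏ i ∈ s, b i) ∧
      Low (∑ i ∈ s, n i + 1) (∏ i ∈ s, a i - ∏ i ∈ s, b i) := by
  classical
  induction s using Finset.induction_on with
  | empty =>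
    simp only [Finset.sum_empty, Finset.prod_empty, sub_self]
    exact ⟨if_low_one, if_low_one, low_zero _⟩
  | insert i s hi ih =>
    obtain ⟨h1, h2, h3⟩ := ih (fun j hj => ha j (Finset.mem_insert_of_mem hj))
      (fun j hj => hb j (Finset.mem_insert_of_mem hj))
      (fun j hj => hab j (Finset.mem_insert_of_mem hj))
    have ha' := ha i (Finset.mem_insert_self i s)
    have hb' := hb i (Finset.mem_insert_self i s)
    have hab' := hab i (Finset.mem_insert_self i s)
    rw [Finset.sum_insert hi, Finset.prod_insert hi, Finset.prod_insert hi]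
    refine ⟨ha'.mul h1, hb'.mul h2, ?_⟩
    have e2 : a i * ∏ j ∈ s, a j - b i * ∏ j ∈ s, b j =
        (a i - b i) * ∏ j ∈ s, a j + b i * (∏ j ∈ s, a j - ∏ j ∈ s, b j) := by ring
    rw [e2]
    refine Low.add ?_ ?_
    · exact (hab'.mul h1).mono (by omega)
    · exact (hb'.mul h3).mono (by omega)

private theorem if_lowX (i : σ) : Low 1 (MvPowerSeries.X i : MvPowerSeries σ k) := by
  classical
  intro m hm
  have : m = 0 := by
    have : m.degree = 0 := by omega
    exact (Finsupp.degree_eq_zero_iff m).1 this
  rw [this]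
  simp

private theorem if_low_of_const {g : MvPowerSeries σ k} (h : MvPowerSeries.constantCoeff g = 0) :
    Low 1 g := by
  intro m hm
  have : m = 0 := by
    have : m.degree = 0 := by omega
    exact (Finsupp.degree_eq_zero_iff m).1 this
  rw [this]
  simpa using h

private theorem if_degree [Fintype σ] (d : σ →₀ ℕ) : ∑ i ∈ d.support, d i = d.degree := by
  rfl

private theorem if_prodX (d : σ →₀ ℕ) :
    (d.prod fun s e => (MvPowerSeries.X s : MvPowerSeries σ k) ^ e) =
      MvPowerSeries.monomial d 1 := by
  rw [MvPowerSeries.monomial_one_eq]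

private theorem if_mono_low [Fintype σ] (z : σ → MvPowerSeries σ k) (h1 : ∀ i, Low 1 (z i))
    (h2 : ∀ i, Low 2 (z i - MvPowerSeries.X i)) (d : σ →₀ ℕ) :
    Low d.degree (d.prod fun s e => (z s) ^ e) ∧
      Low (d.degree + 1) ((d.prod fun s e => (z s) ^ e) - MvPowerSeries.monomial d 1) := by
  have h := if_pair_prod (k := k) d.support (fun i => d i) (fun i => z i ^ d i)
    (fun i => (MvPowerSeries.X i : MvPowerSeries σ k) ^ d i)
    (fun i _ => by
      have := (if_pair_pow (h1 i) (if_lowX i) (h2 i) (d i)).1
      rwa [mul_one] at this)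
    (fun i _ => by
      have := (if_pair_pow (h1 i) (if_lowX i) (h2 i) (d i)).2.1
      rwa [mul_one] at this)
    (fun i _ => by
      have := (if_pair_pow (h1 i) (if_lowX i) (h2 i) (d i)).2.2
      rwa [mul_one] at this)
  rw [if_degree] at h
  refine ⟨h.1, ?_⟩
  have h3 := h.2.2
  rw [← if_prodX]
  exact h3

/-- substitution tangent to the identity -/
private theorem if_sub_self [Fintype σ] (z : σ → MvPowerSeries σ k)
    (hz : MvPowerSeries.HasSubst z)
    (h1 : ∀ i, Low 1 (z i)) (h2 : ∀ i, Low 2 (z i - MvPowerSeries.X i)) {N : ℕ}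
    {f : MvPowerSeries σ k} (hf : Low N f) : Low (N + 1) (MvPowerSeries.subst z f - f) := by
  classical
  intro e he
  have key : ∀ d : σ →₀ ℕ, N ≤ d.degree →
      MvPowerSeries.coeff e (d.prod fun s e => (z s) ^ e) =
        MvPowerSeries.coeff e (MvPowerSeries.monomial d (1 : k)) := by
    intro d hd
    have := (if_mono_low z h1 h2 d).2 e (by omega)
    rwa [map_sub, sub_eq_zero] at this
  rw [map_sub, MvPowerSeries.coeff_subst hz, finsum_eq_single _ e, sub_eq_zero]
  · by_cases hN : e.degree < N
    · rw [hf e hN, zero_smul]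
    · rw [key e (by omega), MvPowerSeries.coeff_monomial_same, smul_eq_mul, mul_one]
  · intro d hd
    by_cases hN : d.degree < N
    · rw [hf d hN, zero_smul]
    · rw [key d (by omega), MvPowerSeries.coeff_monomial_ne (Ne.symm hd), smul_zero]

private theorem if_low_subst [Fintype σ] (z : σ → MvPowerSeries σ k)
    (hz : MvPowerSeries.HasSubst z)
    (h1 : ∀ i, Low 1 (z i)) (h2 : ∀ i, Low 2 (z i - MvPowerSeries.X i)) {N : ℕ}
    {f : MvPowerSeries σ k} (hf : Low N f) : Low N (MvPowerSeries.subst z f) := by
  have := ((if_sub_self z hz h1 h2 hf).mono (Nat.le_succ N)).add hf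
  rwa [sub_add_cancel] at this

private theorem if_bij [Fintype σ] (z : σ → MvPowerSeries σ k)
    (hz : MvPowerSeries.HasSubst z)
    (h1 : ∀ i, Low 1 (z i)) (h2 : ∀ i, Low 2 (z i - MvPowerSeries.X i)) :
    Function.Bijective (MvPowerSeries.substAlgHom (R := k) hz) := by
  constructor
  · rw [injective_iff_map_eq_zero]
    intro f hf
    rw [MvPowerSeries.substAlgHom_apply] at hf
    have h3 : ∀ N, Low N f := by
      intro N
      induction N with
      | zero => exact fun m hm => absurd hm (Nat.not_lt_zero _)
      | succ N ih =>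
        have h4 := if_sub_self z hz h1 h2 ih
        rw [hf, zero_sub] at h4
        have h5 := (low_zero (k := k) (σ := σ) (N + 1)).sub h4
        rwa [zero_sub, neg_neg] at h5
    exact if_eq_zero f h3
  · intro g
    -- successive approximation
    let F : ℕ → MvPowerSeries σ k := fun n => Nat.rec (motive := fun _ => MvPowerSeries σ k) 0
      (fun _ f => f + (g - MvPowerSeries.subst z f)) n
    have hF : ∀ n, F (n + 1) = F n + (g - MvPowerSeries.subst z (F n)) := fun n => rfl
    have he : ∀ n, Low n (g - MvPowerSeries.subst z (F n)) := by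
      intro n
      induction n with
      | zero => exact fun m hm => absurd hm (Nat.not_lt_zero _)
      | succ n ih =>
        have h3 := if_sub_self z hz h1 h2 ih
        have h4 : g - MvPowerSeries.subst z (F (n + 1)) =
            0 - (MvPowerSeries.subst z (g - MvPowerSeries.subst z (F n)) -
              (g - MvPowerSeries.subst z (F n))) := by
          rw [hF, MvPowerSeries.subst_add hz]
          ring
        rw [h4]
        exact (low_zero _).sub h3
    have hstab : ∀ (d : σ →₀ ℕ) (n : ℕ), d.degree + 1 ≤ n →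
        MvPowerSeries.coeff d (F n) = MvPowerSeries.coeff d (F (d.degree + 1)) := by
      intro d n hn
      induction n, hn using Nat.le_induction with
      | base => rfl
      | succ n hn ih =>
        rw [hF, map_add, he n d (by omega), add_zero, ih]
    let f : MvPowerSeries σ k := fun d => MvPowerSeries.coeff d (F (d.degree + 1))
    have hf : ∀ d, MvPowerSeries.coeff d f = MvPowerSeries.coeff d (F (d.degree + 1)) :=
      fun d => rfl
    have hfF : ∀ n, Low n (f - F n) := by
      intro n d hd
      rw [map_sub, hf, hstab d n hd, sub_self]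
    refine ⟨f, ?_⟩
    rw [MvPowerSeries.substAlgHom_apply]
    have h5 : ∀ N, Low N (MvPowerSeries.subst z f - g) := by
      intro N
      have h6 : MvPowerSeries.subst z f - g =
          MvPowerSeries.subst z (f - F N) - (g - MvPowerSeries.subst z (F N)) := by
        rw [MvPowerSeries.subst_sub hz]
        ring
      rw [h6]
      exact (if_low_subst z hz h1 h2 (hfF N)).sub (he N)
    exact sub_eq_zero.1 (if_eq_zero _ h5)

/-- the linear substitution -/
private noncomputable def if_lin [Fintype σ] (A : Matrix σ σ k) (j : σ) : MvPowerSeries σ k :=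
  ∑ i, A i j • MvPowerSeries.X i

private theorem if_lin_const [Fintype σ] (A : Matrix σ σ k) (j : σ) :
    MvPowerSeries.constantCoeff (if_lin A j) = 0 := by
  simp [if_lin, MvPowerSeries.smul_eq_C_mul]

private theorem if_lin_subst [Fintype σ] (A : Matrix σ σ k) (j : σ) (y : σ → MvPowerSeries σ k)
    (hy : MvPowerSeries.HasSubst y) :
    MvPowerSeries.subst y (if_lin A j) = ∑ i, A i j • y i := by
  rw [← MvPowerSeries.substAlgHom_apply (R := k) hy, if_lin, map_sum]
  refine Finset.sum_congr rfl fun i _ => ?_
  rw [map_smul, MvPowerSeries.substAlgHom_X]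

private theorem if_lin_comp [Fintype σ] [DecidableEq σ] (A B : Matrix σ σ k) (hAB : A * B = 1)
    (y : σ → MvPowerSeries σ k) (j : σ) :
    ∑ i, B i j • (∑ l, A l i • y l) = y j := by
  simp only [Finset.smul_sum, smul_smul]
  rw [Finset.sum_comm]
  have h : ∀ l, ∑ i, (B i j * A l i) • y l = (if l = j then (1 : k) else 0) • y l := by
    intro l
    rw [← Finset.sum_smul]
    congr 1
    have := congrFun (congrFun hAB l) j
    rw [Matrix.mul_apply, Matrix.one_apply] at this
    rw [← this]
    exact Finset.sum_congr rfl fun i _ => mul_comm _ _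
  simp only [h, ite_smul, one_smul, zero_smul, Finset.sum_ite_eq', Finset.mem_univ, if_true]

theorem exists_automorphism [Fintype σ] [DecidableEq σ] (y : σ → MvPowerSeries σ k)
    (h0 : ∀ i, MvPowerSeries.constantCoeff (y i) = 0)
    (h1 : (Matrix.of fun i j : σ => MvPowerSeries.coeff (Finsupp.single i 1) (y j)).det ≠ 0) :
    ∃ φ : MvPowerSeries σ k ≃ₐ[k] MvPowerSeries σ k, ∀ i, φ (MvPowerSeries.X i) = y i := by
  set A : Matrix σ σ k := Matrix.of fun i j : σ =>
    MvPowerSeries.coeff (Finsupp.single i 1) (y j) with hA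
  have hu : IsUnit A.det := isUnit_iff_ne_zero.2 h1
  have hAB : A * A⁻¹ = 1 := Matrix.mul_nonsing_inv A hu
  have hBA : A⁻¹ * A = 1 := Matrix.nonsing_inv_mul A hu
  set B := A⁻¹ with hB
  have hy : MvPowerSeries.HasSubst y := MvPowerSeries.hasSubst_of_constantCoeff_zero h0
  have hlA : MvPowerSeries.HasSubst (if_lin A) :=
    MvPowerSeries.hasSubst_of_constantCoeff_zero (if_lin_const A)
  have hlB : MvPowerSeries.HasSubst (if_lin B) :=
    MvPowerSeries.hasSubst_of_constantCoeff_zero (if_lin_const B)
  -- the normalised substitution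
  set z : σ → MvPowerSeries σ k := fun j => ∑ l, B l j • y l with hz'
  have hz0 : ∀ j, MvPowerSeries.constantCoeff (z j) = 0 := by
    intro j
    simp [hz', MvPowerSeries.smul_eq_C_mul, h0]
  have hz : MvPowerSeries.HasSubst z := MvPowerSeries.hasSubst_of_constantCoeff_zero hz0
  have hz1 : ∀ j, Low 1 (z j) := fun j => if_low_of_const (hz0 j)
  have hz2 : ∀ j, Low 2 (z j - MvPowerSeries.X j) := by
    intro j m hm
    by_cases hm0 : m.degree = 0
    · have : m = 0 := (Finsupp.degree_eq_zero_iff m).1 hm0
      rw [this]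
      simp [hz0]
    · have hm1 : m.degree = 1 := by omega
      obtain ⟨i, hi⟩ : ∃ i, m = Finsupp.single i 1 := by
        have hne : m ≠ 0 := fun h => hm0 ((Finsupp.degree_eq_zero_iff m).2 h)
        obtain ⟨i, hi⟩ := Finsupp.support_nonempty_iff.2 hne
        refine ⟨i, ?_⟩
        have hi1 : m i ≠ 0 := Finsupp.mem_support_iff.1 hi
        have hs : ∑ l ∈ m.support, m l = 1 := by
          rw [if_degree, hm1]
        rw [← Finset.add_sum_erase _ _ hi] at hs
        have hmi : m i = 1 := by omega
        have hrest : ∑ l ∈ m.support.erase i, m l = 0 := by omega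
        ext l
        by_cases hl : l = i
        · rw [hl, Finsupp.single_eq_same, hmi]
        · rw [Finsupp.single_eq_of_ne (by tauto)]
          by_contra hc
          exact hc ((Finset.sum_eq_zero_iff.1 hrest) l
            (Finset.mem_erase.2 ⟨hl, Finsupp.mem_support_iff.2 hc⟩))
      rw [hi, map_sub, sub_eq_zero, hz']
      simp only [map_sum, MvPowerSeries.coeff_smul]
      have h3 : ∑ l, B l j * MvPowerSeries.coeff (Finsupp.single i 1) (y l) = (A * B) i j := by
        rw [Matrix.mul_apply]
        exact Finset.sum_congr rfl fun l _ => mul_comm _ _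
      rw [h3, hAB, Matrix.one_apply, MvPowerSeries.coeff_index_single_X]
  let φz : MvPowerSeries σ k ≃ₐ[k] MvPowerSeries σ k :=
    AlgEquiv.ofBijective (MvPowerSeries.substAlgHom (R := k) hz) (if_bij z hz hz1 hz2)
  have hcomp : ∀ (P Q : Matrix σ σ k) (hP : MvPowerSeries.HasSubst (if_lin P))
      (hQ : MvPowerSeries.HasSubst (if_lin Q)), Q * P = 1 → ∀ f : MvPowerSeries σ k,
      MvPowerSeries.subst (if_lin Q) (MvPowerSeries.subst (if_lin P) f) = f := by
    intro P Q hP hQ h f
    rw [MvPowerSeries.subst_comp_subst_apply hP hQ]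
    have : (fun s => MvPowerSeries.subst (if_lin Q) (if_lin P s)) = MvPowerSeries.X := by
      funext s
      rw [if_lin_subst P s _ hQ]
      exact if_lin_comp Q P h _ s
    rw [this, MvPowerSeries.subst_self]
    rfl
  let φA : MvPowerSeries σ k ≃ₐ[k] MvPowerSeries σ k :=
    AlgEquiv.ofAlgHom (MvPowerSeries.substAlgHom (R := k) hlA)
      (MvPowerSeries.substAlgHom (R := k) hlB)
      (by
        ext1 f
        simp only [AlgHom.comp_apply, MvPowerSeries.substAlgHom_apply, AlgHom.id_apply]
        exact hcomp B A hlB hlA hAB f)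
      (by
        ext1 f
        simp only [AlgHom.comp_apply, MvPowerSeries.substAlgHom_apply, AlgHom.id_apply]
        exact hcomp A B hlA hlB hBA f)
  refine ⟨φA.trans φz, fun i => ?_⟩
  have e1 : (φA.trans φz) (MvPowerSeries.X i) = MvPowerSeries.substAlgHom (R := k) hz
      (MvPowerSeries.substAlgHom (R := k) hlA (MvPowerSeries.X i)) := rfl
  rw [e1, MvPowerSeries.substAlgHom_X, MvPowerSeries.substAlgHom_apply, if_lin_subst A i z hz]
  exact if_lin_comp B A hBA y i

/-- an automorphism of the power series ring in the last variables extends -/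
theorem extend_automorphism {n : ℕ} (φ : MvPowerSeries (Fin n) k ≃ₐ[k] MvPowerSeries (Fin n) k) :
    ∃ φ' : MvPowerSeries (Fin (n + 1)) k ≃ₐ[k] MvPowerSeries (Fin (n + 1)) k,
      φ' (MvPowerSeries.X 0) = MvPowerSeries.X 0 ∧
      ∀ f : MvPowerSeries (Fin n) k,
        φ' ((MvPowerSeries.finSuccEquiv k n).symm (PowerSeries.C f)) =
          (MvPowerSeries.finSuccEquiv k n).symm (PowerSeries.C (φ f)) := by
  have hmap : ∀ (χ : MvPowerSeries (Fin n) k →ₐ[k] MvPowerSeries (Fin n) k)
      (f : PowerSeries (MvPowerSeries (Fin n) k)) (m : ℕ),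
      PowerSeries.coeff m (PowerSeries.mapAlgHom χ f) = χ (PowerSeries.coeff m f) := by
    intro χ f m
    rw [PowerSeries.mapAlgHom_apply, PowerSeries.coeff_map]
    rfl
  let ψ : PowerSeries (MvPowerSeries (Fin n) k) ≃ₐ[k] PowerSeries (MvPowerSeries (Fin n) k) :=
    AlgEquiv.ofAlgHom (PowerSeries.mapAlgHom (φ : MvPowerSeries (Fin n) k →ₐ[k] _))
      (PowerSeries.mapAlgHom (φ.symm : MvPowerSeries (Fin n) k →ₐ[k] _))
      (by
        ext1 f
        refine PowerSeries.ext fun m => ?_
        rw [AlgHom.comp_apply, hmap, hmap]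
        simp)
      (by
        ext1 f
        refine PowerSeries.ext fun m => ?_
        rw [AlgHom.comp_apply, hmap, hmap]
        simp)
  have hψ : ∀ f m, PowerSeries.coeff m (ψ f) = φ (PowerSeries.coeff m f) := fun f m =>
    hmap (φ : MvPowerSeries (Fin n) k →ₐ[k] MvPowerSeries (Fin n) k) f m
  have h2 : ∀ g, (((MvPowerSeries.finSuccEquiv k n).trans ψ).trans
      (MvPowerSeries.finSuccEquiv k n).symm) g =
      (MvPowerSeries.finSuccEquiv k n).symm (ψ (MvPowerSeries.finSuccEquiv k n g)) := fun g => rfl
  refine ⟨((MvPowerSeries.finSuccEquiv k n).trans ψ).trans (MvPowerSeries.finSuccEquiv k n).symm,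
    ?_, ?_⟩
  · rw [h2, AlgEquiv.symm_apply_eq, MvPowerSeries.finSuccEquiv_X_zero]
    refine PowerSeries.ext fun m => ?_
    rw [hψ, PowerSeries.coeff_X]
    split_ifs <;> simp
  · intro f
    rw [h2, AlgEquiv.apply_symm_apply]
    congr 1
    refine PowerSeries.ext fun m => ?_
    rw [hψ, PowerSeries.coeff_C, PowerSeries.coeff_C]
    split_ifs <;> simp

end MLD
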