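import Pool.Agent.MLD.Lin

/-!
PIECE MLD-L2: complete flags containing given flats.
-/

open MvPolynomial Filter

namespace MLD

universe u

variable {k : Type u} [Field k] {B : Type} [Fintype B]

/-- a hyperplane of `W` containing a proper subspace `A` -/
private theorem LinB_hyper {V : Type*} [AddCommGroup V] [Module k V] [FiniteDimensional k V]
    {m : ℕ} (A W : Submodule k V) (hAW : A ≤ W) (hA : Module.finrank k A ≤ m)
    (hW : Module.finrank k W = m + 1) :
    ∃ W' : Submodule k V, A ≤ W' ∧ W' ≤ W ∧ Module.finrank k W' = m := by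
  obtain ⟨v, hvW, hvA⟩ : ∃ v ∈ W, v ∉ A := by
    by_contra h
    push Not at h
    have : A = W := le_antisymm hAW h
    rw [this] at hA
    omega
  obtain ⟨φ, hφ, hker⟩ := Submodule.exists_le_ker_of_notMem hvA
  refine ⟨(LinearMap.ker (φ.comp W.subtype)).map W.subtype, ?_, ?_, ?_⟩
  · intro a ha
    refine ⟨⟨a, hAW ha⟩, ?_, rfl⟩
    exact hker ha
  · exact Submodule.map_subtype_le _ _
  · have h1 := LinearMap.finrank_range_add_finrank_ker (φ.comp W.subtype)
    have h2 : LinearMap.range (φ.comp W.subtype) = ⊤ := by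
      rw [LinearMap.range_eq_top]
      intro a
      refine ⟨(a / φ v) • ⟨v, hvW⟩, ?_⟩
      rw [map_smul]
      change a / φ v * φ v = a
      field_simp
    rw [h2, finrank_top, Module.finrank_self, hW] at h1
    rw [Submodule.finrank_map_subtype_eq]
    omega

private theorem LinB_chain {V : Type*} [AddCommGroup V] [Module k V] [FiniteDimensional k V]
    (U : ℕ → Submodule k V) (hU : Monotone U) (m : ℕ) :
    ∀ W : Submodule k V, Module.finrank k W = m → U m ≤ W →
      (∀ j ≤ m, Module.finrank k (U j) ≤ j) →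
      ∃ f : Fin m → V, LinearIndependent k f ∧ Submodule.span k (Set.range f) = W ∧
        ∀ j ≤ m, U j ≤ Submodule.span k (f '' {i | (i : ℕ) < j}) := by
  induction m with
  | zero =>
    intro W hW hUW hd
    have hb : W = ⊥ := Submodule.finrank_eq_zero.1 hW
    subst hb
    refine ⟨Fin.elim0, linearIndependent_empty_type, ?_, ?_⟩
    · simp
    · intro j hj
      obtain rfl : j = 0 := by omega
      exact hUW.trans bot_le
  | succ m ih =>
    intro W hW hUW hd
    obtain ⟨W', h1, h2, h3⟩ := LinB_hyper (U m) W ((hU (Nat.le_succ m)).trans hUW)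
      (hd m (by omega)) hW
    obtain ⟨f, hf1, hf2, hf3⟩ := ih W' h3 h1 fun j hj => hd j (by omega)
    obtain ⟨v, hvW, hvW'⟩ : ∃ v ∈ W, v ∉ W' := by
      by_contra h
      push Not at h
      have h5 : W' = W := le_antisymm h2 h
      rw [h5] at h3
      omega
    have hli : LinearIndependent k (Fin.snoc f v : Fin (m + 1) → V) := by
      rw [linearIndependent_finSnoc, hf2]
      exact ⟨hf1, hvW'⟩
    have hspan : Submodule.span k (Set.range (Fin.snoc f v : Fin (m + 1) → V)) = W := by
      apply Submodule.eq_of_le_of_finrank_eq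
      · rw [Submodule.span_le]
        rintro _ ⟨i, rfl⟩
        refine Fin.lastCases ?_ (fun i => ?_) i
        · rw [Fin.snoc_last]
          exact hvW
        · rw [Fin.snoc_castSucc]
          apply h2
          rw [← hf2]
          exact Submodule.subset_span ⟨i, rfl⟩
      · rw [finrank_span_eq_card hli, Fintype.card_fin, hW]
    refine ⟨Fin.snoc f v, hli, hspan, fun j hj => ?_⟩
    rcases Nat.lt_or_ge m j with hj' | hj'
    · obtain rfl : j = m + 1 := by omega
      have h6 : {i : Fin (m + 1) | (i : ℕ) < m + 1} = Set.univ :=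
        Set.eq_univ_of_forall fun i => i.2
      rw [h6, Set.image_univ, hspan]
      exact hUW
    · refine (hf3 j hj').trans (Submodule.span_mono ?_)
      rintro _ ⟨i, hi, rfl⟩
      exact ⟨i.castSucc, by simpa using hi, Fin.snoc_castSucc ..⟩

/-- complete flags containing given flats -/
theorem flag2 {Θ : Type} [Finite Θ] (c : Θ → (B → k)) (s : Θ → Fin (Fintype.card B))
    (h : ∀ j : Fin (Fintype.card B),
      Module.finrank k (Submodule.span k (c '' {t | s t ≤ j})) ≤ j + 1) :
    ∃ e : Module.Basis (Fin (Fintype.card B)) k (B → k),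
      ∀ t, ∀ i, s t < i → e.repr (c t) i = 0 := by
  have hmono : Monotone fun j : ℕ => Submodule.span k (c '' {t | (s t : ℕ) < j}) := by
    intro i j hij
    refine Submodule.span_mono (Set.image_mono ?_)
    intro t ht
    exact lt_of_lt_of_le ht hij
  obtain ⟨f, hf1, hf2, hf3⟩ := LinB_chain
    (fun j : ℕ => Submodule.span k (c '' {t | (s t : ℕ) < j})) hmono (Fintype.card B)
    ⊤ (by rw [finrank_top, Module.finrank_fintype_fun_eq_card]) le_top (by
      intro j hj
      rcases j with _ | j
      · have h0 : {t | (s t : ℕ) < 0} = ∅ := by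
          ext t
          simp
        change Module.finrank k (Submodule.span k (c '' {t | (s t : ℕ) < 0})) ≤ 0
        rw [h0, Set.image_empty, Submodule.span_empty, finrank_bot]
      · have h1 := h ⟨j, hj⟩
        have h2 : {t | (s t : ℕ) < j + 1} = {t | s t ≤ ⟨j, hj⟩} := by
          apply Set.ext
          intro t
          exact Nat.lt_succ_iff
        change Module.finrank k (Submodule.span k (c '' {t | (s t : ℕ) < j + 1})) ≤ j + 1
        rw [h2]
        exact h1)
  refine ⟨Module.Basis.mk hf1 hf2.ge, fun t i hi => ?_⟩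
  have h3 : c t ∈ Submodule.span k (f '' {i | (i : ℕ) < (s t : ℕ) + 1}) :=
    hf3 _ (s t).2 (Submodule.subset_span ⟨t, Nat.lt_succ_self _, rfl⟩)
  have h4 : (f : Fin (Fintype.card B) → B → k) = Module.Basis.mk hf1 hf2.ge := by
    rw [Module.Basis.coe_mk]
  rw [h4, Module.Basis.mem_span_image] at h3
  by_contra hne
  have h5 := h3 (Finsupp.mem_support_iff.2 hne)
  have h6 : (i : ℕ) < (s t : ℕ) + 1 := h5
  have h7 : (s t : ℕ) < i := hi
  omega

end MLD
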