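import Pool.Agent.MLD.Sqrt
import Pool.Agent.MLD.InvFun
import Pool.Agent.MLD.HessDefs

/-!
PIECE MLD-W3: splitting off one square.

`morse_step`. (1) The symmetric matrix `hess f` is not zero, so `q(c) := ∑ c_i c_j hess i j ≠ 0` for
some `c : Fin (n+1) → k` (characteristic not 2). Choose an invertible matrix whose first column is
`c`; the linear automorphism `X_i ↦ ∑ ..` (`exists_automorphism`) reduces to the case
`hess f 0 0 ≠ 0` (the coefficient of `X 0 ^ 2` is not zero). (2) Let `y 0 := pderiv 0 f`, `y i := X i`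
(`i ≥ 1`): the linear parts form an invertible matrix, so there is an automorphism `θ` with
`θ (X 0) = pderiv 0 f`, `θ (X i) = X i`. `θ⁻¹ (X 0)` modulo `X 0` is a power series `ψ` in the variables
`X 1, ..., X n` without constant term; let `τ` be the automorphism `X 0 ↦ X 0 + ψ`, `X i ↦ X i`.
Then `X 0` divides `τ (pderiv 0 f)`: `θ⁻¹` maps the ideal `(pderiv 0 f)` to `(X 0)`; `X 0 - ψ` lies in
`(pderiv 0 f)` up to a unit: indeed `θ⁻¹ (X 0) - ψ ∈ (X 0)`, so `X 0 - θ ψ = X 0 - ψ ∈ (pderiv 0 f)`
(`θ ψ = ψ`), and comparing linear parts `pderiv 0 f ∈ (X 0 - ψ)` (both generate prime ideals / the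
quotient is a unit). And `pderiv 0 (τ f) = τ (pderiv 0 f)`. So `F := τ f` satisfies
`pderiv 0 F ∈ (X 0)`, i.e. `F` has no terms of degree one in `X 0`:
`F = f₀ (X 1, ..) + X 0 ^ 2 * V`, `V` with constant term `hess f 0 0 / 2 ≠ 0`
(`finSuccEquiv`). (3) `V = w ^ 2` (`exists_sqrt`), automorphism `ρ` with `ρ (X 0) = X 0 * w`,
`ρ (X i) = X i`: `F = ρ (X 0 ^ 2 + f₀)`. So `f = τ⁻¹ (ρ (X 0 ^ 2 + f₀))`.
-/

open MvPolynomial Filter

namespace MLD

universe u

variable {k : Type u} [Field k]

private theorem morse_low_sum {σ : Type} {ι : Type*} (s : Finset ι) {N : ℕ}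
    (g : ι → MvPowerSeries σ k) (h : ∀ j ∈ s, Low N (g j)) : Low N (∑ j ∈ s, g j) := by
  intro m hm
  rw [map_sum]
  exact Finset.sum_eq_zero fun j hj => h j hj m hm

/-- the chain rule for an automorphism -/
private theorem morse_chain {σ : Type} [Fintype σ] [DecidableEq σ]
    (φ : MvPowerSeries σ k ≃ₐ[k] MvPowerSeries σ k) (i : σ) (f : MvPowerSeries σ k) :
    MvPowerSeries.pderiv k i (φ f) =
      ∑ j, φ (MvPowerSeries.pderiv k j f) * MvPowerSeries.pderiv k i (φ (MvPowerSeries.X j)) := by
  classical
  have hpol : ∀ p : MvPolynomial σ k,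
      MvPowerSeries.pderiv k i (φ (p : MvPowerSeries σ k)) =
      ∑ j, φ (MvPowerSeries.pderiv k j (p : MvPowerSeries σ k)) *
        MvPowerSeries.pderiv k i (φ (MvPowerSeries.X j)) := by
    intro p
    induction p using MvPolynomial.induction_on with
    | C a =>
      have h1 : ((MvPolynomial.C a : MvPolynomial σ k) : MvPowerSeries σ k) =
          algebraMap k (MvPowerSeries σ k) a := by
        rw [MvPolynomial.coe_C]; rfl
      rw [h1, AlgEquiv.commutes, Derivation.map_algebraMap]
      symm
      refine Finset.sum_eq_zero fun j _ => ?_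
      rw [Derivation.map_algebraMap, map_zero, zero_mul]
    | add p q hp hq =>
      rw [MvPolynomial.coe_add, map_add, map_add, hp, hq, ← Finset.sum_add_distrib]
      refine Finset.sum_congr rfl fun j _ => ?_
      rw [map_add, map_add, add_mul]
    | mul_X p j hp =>
      rw [MvPolynomial.coe_mul, map_mul, Derivation.leibniz, hp, MvPolynomial.coe_X,
        smul_eq_mul, smul_eq_mul, Finset.mul_sum]
      have h2 : ∀ l : σ, φ (MvPowerSeries.pderiv k l ((p : MvPowerSeries σ k) *
            MvPowerSeries.X j)) * MvPowerSeries.pderiv k i (φ (MvPowerSeries.X l)) =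
          φ (p : MvPowerSeries σ k) * (φ (MvPowerSeries.pderiv k l (MvPowerSeries.X j)) *
            MvPowerSeries.pderiv k i (φ (MvPowerSeries.X l))) +
          φ (MvPowerSeries.X j) * (φ (MvPowerSeries.pderiv k l (p : MvPowerSeries σ k)) *
            MvPowerSeries.pderiv k i (φ (MvPowerSeries.X l))) := by
        intro l
        rw [Derivation.leibniz, smul_eq_mul, smul_eq_mul, map_add, map_mul, map_mul]
        ring
      rw [Finset.sum_congr rfl fun l _ => h2 l, Finset.sum_add_distrib, ← Finset.mul_sum]
      congr 2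
      rw [Finset.sum_eq_single j]
      · rw [MvPowerSeries.pderiv_X_self, map_one, one_mul]
      · intro l _ hl
        rw [MvPowerSeries.pderiv_X_of_ne (Ne.symm hl), map_zero, zero_mul, mul_zero]
      · intro h; exact absurd (Finset.mem_univ _) h
  have hlow : ∀ N, Low N (MvPowerSeries.pderiv k i (φ f) -
      ∑ j, φ (MvPowerSeries.pderiv k j f) *
        MvPowerSeries.pderiv k i (φ (MvPowerSeries.X j))) := by
    intro N
    set p : MvPolynomial σ k := MvPowerSeries.truncTotal (N + 1) f with hp
    have hr := low_sub_trunc (N + 1) f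
    rw [← hp] at hr
    have e : MvPowerSeries.pderiv k i (φ f) -
      ∑ j, φ (MvPowerSeries.pderiv k j f) *
        MvPowerSeries.pderiv k i (φ (MvPowerSeries.X j)) =
        MvPowerSeries.pderiv k i (φ (f - (p : MvPowerSeries σ k))) -
      ∑ j, MvPowerSeries.pderiv k i (φ (MvPowerSeries.X j)) *
        φ (MvPowerSeries.pderiv k j (f - (p : MvPowerSeries σ k))) := by
      rw [map_sub φ, map_sub, hpol p]
      simp only [map_sub, mul_sub, Finset.sum_sub_distrib]
      simp only [mul_comm]
      ring
    rw [e]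
    refine Low.sub (Low.pderiv (low_automorphism φ hr) i) (morse_low_sum _ _ fun j _ => ?_)
    exact Low.mul_left _ (low_automorphism φ (Low.pderiv hr j))
  rw [← sub_eq_zero]
  ext m
  rw [map_zero]
  exact hlow (m.degree + 1) m (Nat.lt_succ_self _)

/-- the inclusion of the power series in the last variables -/
private noncomputable def mincl {n : ℕ} (g : MvPowerSeries (Fin n) k) :
    MvPowerSeries (Fin (n + 1)) k :=
  (MvPowerSeries.finSuccEquiv k n).symm (PowerSeries.C g)

/-- an automorphism fixing the last variables fixes all power series in these variables -/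
private theorem morse_fix {n : ℕ}
    (φ : MvPowerSeries (Fin (n + 1)) k ≃ₐ[k] MvPowerSeries (Fin (n + 1)) k)
    (h : ∀ i : Fin n, φ (MvPowerSeries.X i.succ) = MvPowerSeries.X i.succ)
    (g : MvPowerSeries (Fin n) k) : φ (mincl g) = mincl g := by
  classical
  have hX : ∀ i : Fin n, mincl (k := k) (MvPowerSeries.X i) = MvPowerSeries.X i.succ := by
    intro i
    rw [mincl, AlgEquiv.symm_apply_eq, MvPowerSeries.finSuccEquiv_X_succ]
  have hpol : ∀ p : MvPolynomial (Fin n) k,
      φ (mincl (p : MvPowerSeries (Fin n) k)) = mincl (p : MvPowerSeries (Fin n) k) := by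
    intro p
    induction p using MvPolynomial.induction_on with
    | C a =>
      have h1 : mincl ((MvPolynomial.C a : MvPolynomial (Fin n) k) : MvPowerSeries (Fin n) k) =
          algebraMap k (MvPowerSeries (Fin (n + 1)) k) a := by
        rw [mincl, AlgEquiv.symm_apply_eq, MvPowerSeries.algebraMap_apply, MvPolynomial.coe_C,
          MvPowerSeries.finSuccEquiv_C]
        rfl
      rw [h1, AlgEquiv.commutes]
    | add p q hp hq =>
      have e : mincl (((p + q : MvPolynomial (Fin n) k)) : MvPowerSeries (Fin n) k) =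
          mincl (p : MvPowerSeries (Fin n) k) + mincl (q : MvPowerSeries (Fin n) k) := by
        simp [mincl]
      rw [e, map_add, hp, hq]
    | mul_X p j hp =>
      have e : mincl (((p * MvPolynomial.X j : MvPolynomial (Fin n) k)) :
          MvPowerSeries (Fin n) k) =
          mincl (p : MvPowerSeries (Fin n) k) * MvPowerSeries.X j.succ := by
        rw [← hX j]
        simp [mincl]
      rw [e, map_mul, hp, h]
  have hlowincl : ∀ (N : ℕ) (r : MvPowerSeries (Fin n) k), Low N r → Low N (mincl r) := by
    intro N r hr m hm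
    have e : MvPowerSeries.coeff m (mincl r) =
        MvPowerSeries.coeff m.tail (PowerSeries.coeff (m 0) (PowerSeries.C r)) := by
      have := MvPowerSeries.coeff_coeff_finSuccEquiv (mincl r) (k := m 0) (x := m.tail)
      rw [Finsupp.cons_tail, mincl, AlgEquiv.apply_symm_apply] at this
      exact this.symm
    rw [e, PowerSeries.coeff_C]
    split_ifs with h0
    · apply hr
      refine lt_of_le_of_lt ?_ hm
      have : m = Finsupp.cons (m 0) m.tail := (Finsupp.cons_tail m).symm
      rw [this, h0]
      simp only [Finsupp.degree_eq_sum, Fin.sum_univ_succ, Finsupp.cons_zero,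
        Finsupp.cons_succ, Finsupp.tail_cons]
      simp
    · rw [map_zero]
  rw [← sub_eq_zero]
  ext m
  rw [map_zero]
  set N := m.degree + 1 with hN
  set p : MvPolynomial (Fin n) k := MvPowerSeries.truncTotal N g with hp
  have hr := low_sub_trunc N g
  rw [← hp] at hr
  have e : φ (mincl g) - mincl g = φ (mincl (g - (p : MvPowerSeries (Fin n) k))) -
      mincl (g - (p : MvPowerSeries (Fin n) k)) := by
    have e2 : mincl (g - (p : MvPowerSeries (Fin n) k)) = mincl g -
      mincl (p : MvPowerSeries (Fin n) k) := by simp [mincl]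
    rw [e2, map_sub, hpol]
    ring
  rw [e]
  exact Low.sub (low_automorphism φ (hlowincl _ _ hr)) (hlowincl _ _ hr) m (Nat.lt_succ_self _)


private theorem morse_const_pderiv {σ : Type} (y : MvPowerSeries σ k) (i : σ) :
    MvPowerSeries.constantCoeff (MvPowerSeries.pderiv k i y) =
      MvPowerSeries.coeff (Finsupp.single i 1) y := by
  rw [← MvPowerSeries.coeff_zero_eq_constantCoeff_apply, MvPowerSeries.coeff_pderiv]
  simp

private theorem morse_aut {n : ℕ} (y : MvPowerSeries (Fin (n + 1)) k)
    (h0 : MvPowerSeries.constantCoeff y = 0)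
    (h1 : MvPowerSeries.constantCoeff (MvPowerSeries.pderiv k 0 y) ≠ 0) :
    ∃ φ : MvPowerSeries (Fin (n + 1)) k ≃ₐ[k] MvPowerSeries (Fin (n + 1)) k,
      φ (MvPowerSeries.X 0) = y ∧
        ∀ i : Fin n, φ (MvPowerSeries.X i.succ) = MvPowerSeries.X i.succ := by
  classical
  rw [morse_const_pderiv] at h1
  obtain ⟨φ, hφ⟩ := exists_automorphism (k := k) (σ := Fin (n + 1))
    (fun i => Fin.cases y (fun i : Fin n => MvPowerSeries.X i.succ) i)
    (by
      intro i
      refine Fin.cases h0 (fun i => ?_) i
      exact MvPowerSeries.constantCoeff_X _) (by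
      rw [Matrix.det_of_isLowerTriangular]
      · rw [Fin.prod_univ_succ]
        refine mul_ne_zero h1 ?_
        refine Finset.prod_ne_zero_iff.mpr fun i _ => ?_
        simp [Matrix.of_apply, MvPowerSeries.coeff_X]
      · intro i j hij
        have hij' : i < j := hij
        rw [Matrix.of_apply]
        obtain ⟨j', rfl⟩ := Fin.exists_succ_eq_of_ne_zero (Fin.pos_iff_ne_zero.mp
          (lt_of_le_of_lt (Fin.zero_le _) hij'))
        simp only [Fin.cases_succ]
        rw [MvPowerSeries.coeff_X, if_neg]
        intro h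
        have := (Finsupp.single_left_inj (one_ne_zero)).mp h
        exact absurd this (ne_of_lt hij'))
  exact ⟨φ, hφ 0, fun i => hφ i.succ⟩

private theorem morse_div {n : ℕ} (F : MvPowerSeries (Fin (n + 1)) k) :
    ∃ (q : MvPowerSeries (Fin (n + 1)) k) (a : MvPowerSeries (Fin n) k),
      F = MvPowerSeries.X 0 * q + mincl a := by
  refine ⟨(MvPowerSeries.finSuccEquiv k n).symm (PowerSeries.mk fun p =>
    PowerSeries.coeff (p + 1) (MvPowerSeries.finSuccEquiv k n F)),
    PowerSeries.constantCoeff (MvPowerSeries.finSuccEquiv k n F), ?_⟩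
  apply (MvPowerSeries.finSuccEquiv k n).injective
  rw [map_add, map_mul, mincl, AlgEquiv.apply_symm_apply, AlgEquiv.apply_symm_apply,
    MvPowerSeries.finSuccEquiv_X_zero]
  exact PowerSeries.eq_X_mul_shift_add_const _

private theorem morse_div_unique {n : ℕ} (q : MvPowerSeries (Fin (n + 1)) k)
    (a : MvPowerSeries (Fin n) k) (h : MvPowerSeries.X 0 * q + mincl a = 0) : a = 0 := by
  have h1 := congrArg (fun z => PowerSeries.constantCoeff (MvPowerSeries.finSuccEquiv k n z)) h
  simp only [mincl, map_add, map_mul, MvPowerSeries.finSuccEquiv_X_zero,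
    AlgEquiv.apply_symm_apply, map_zero, PowerSeries.constantCoeff_C] at h1
  simpa using h1

private theorem morse_pderiv_incl {n : ℕ} (a : MvPowerSeries (Fin n) k) :
    MvPowerSeries.pderiv k 0 (mincl a) = 0 := by
  ext m
  rw [MvPowerSeries.coeff_pderiv]
  have := MvPowerSeries.coeff_coeff_finSuccEquiv (mincl a) (k := m 0 + 1) (x := m.tail)
  have e : Finsupp.cons (m 0 + 1) m.tail = m + Finsupp.single 0 1 := by
    ext i
    refine Fin.cases ?_ (fun i => ?_) i
    · simp
    · simp [Finsupp.tail_apply]
  rw [e, mincl, AlgEquiv.apply_symm_apply, PowerSeries.coeff_C, if_neg (Nat.succ_ne_zero _),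
    map_zero] at this
  rw [mincl, ← this, zero_mul]
  exact (map_zero _).symm

private theorem morse_core [IsAlgClosed k] [CharZero k] {n : ℕ}
    (f : MvPowerSeries (Fin (n + 1)) k) (hf : Low 2 f) (hH : hess f 0 0 ≠ 0) :
    ∃ (φ : MvPowerSeries (Fin (n + 1)) k ≃ₐ[k] MvPowerSeries (Fin (n + 1)) k)
      (f₀ : MvPowerSeries (Fin n) k), f = φ (MvPowerSeries.X 0 ^ 2 + mincl f₀) := by
  classical
  obtain ⟨g, hg⟩ : ∃ g, g = MvPowerSeries.pderiv k 0 f := ⟨_, rfl⟩
  have g0 : MvPowerSeries.constantCoeff g = 0 := by
    rw [hg, morse_const_pderiv]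
    exact hf _ (by simp)
  have g1 : MvPowerSeries.constantCoeff (MvPowerSeries.pderiv k 0 g) ≠ 0 := by
    rw [hg]; exact hH
  obtain ⟨θ, hθ0, hθ⟩ := morse_aut g g0 g1
  obtain ⟨q, ψ, hq⟩ := morse_div (θ.symm (MvPowerSeries.X 0))
  have e1 : MvPowerSeries.X 0 - mincl ψ = g * θ q := by
    have := congrArg θ hq
    rw [AlgEquiv.apply_symm_apply, map_add, map_mul, hθ0, morse_fix θ hθ] at this
    rw [this]; ring
  obtain ⟨u, hu⟩ : ∃ u, u = θ q := ⟨_, rfl⟩
  rw [← hu] at e1
  have ψ0 : MvPowerSeries.constantCoeff (mincl ψ) = 0 := by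
    have := congrArg MvPowerSeries.constantCoeff e1
    rw [map_sub, MvPowerSeries.constantCoeff_X, map_mul, g0, zero_mul, zero_sub,
      neg_eq_zero] at this
    exact this
  have u0 : MvPowerSeries.constantCoeff u ≠ 0 := by
    have := congrArg (fun z => MvPowerSeries.constantCoeff (MvPowerSeries.pderiv k 0 z)) e1
    simp only [map_sub, morse_pderiv_incl, MvPowerSeries.pderiv_X_self, Derivation.leibniz,
      smul_eq_mul, map_add, map_mul, g0, zero_mul, zero_add, map_one, sub_zero] at this
    intro h
    rw [h, zero_mul] at this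
    exact one_ne_zero this
  obtain ⟨τ, hτ0, hτ⟩ := morse_aut (MvPowerSeries.X 0 + mincl ψ)
    (by rw [map_add, MvPowerSeries.constantCoeff_X, ψ0, add_zero])
    (by rw [map_add, MvPowerSeries.pderiv_X_self, morse_pderiv_incl, add_zero, map_one]
        exact one_ne_zero)
  have e2 : MvPowerSeries.pderiv k 0 (τ f) = τ g := by
    rw [morse_chain, Fin.sum_univ_succ, hτ0, map_add, MvPowerSeries.pderiv_X_self,
      morse_pderiv_incl, add_zero, mul_one, ← hg]
    have : ∑ i : Fin n, τ (MvPowerSeries.pderiv k i.succ f) *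
        MvPowerSeries.pderiv k 0 (τ (MvPowerSeries.X i.succ)) = 0 := by
      refine Finset.sum_eq_zero fun i _ => ?_
      rw [hτ, MvPowerSeries.pderiv_X_of_ne (Fin.succ_ne_zero i), mul_zero]
    rw [this, add_zero]
  have e3 : τ g * τ u = MvPowerSeries.X 0 := by
    rw [← map_mul, ← e1, map_sub, hτ0, morse_fix τ hτ]
    ring
  obtain ⟨q1, f₀, hF⟩ := morse_div (τ f)
  obtain ⟨V, b, hV⟩ := morse_div q1
  have e4 : τ g = q1 + MvPowerSeries.X 0 * MvPowerSeries.pderiv k 0 q1 := by
    rw [← e2, hF, map_add, morse_pderiv_incl, Derivation.leibniz, MvPowerSeries.pderiv_X_self,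
      smul_eq_mul, smul_eq_mul]
    ring
  have τu : τ u * (τ u)⁻¹ = 1 := by
    apply MvPowerSeries.mul_inv_cancel
    intro h
    have h1 := congrArg (fun z => MvPowerSeries.constantCoeff (MvPowerSeries.pderiv k 0 z)) e3
    have h2 := congrArg MvPowerSeries.constantCoeff e4
    have h3 : ¬ IsUnit (τ u) := by
      rw [MvPowerSeries.isUnit_iff_constantCoeff, h]; exact not_isUnit_zero
    apply h3
    have : IsUnit u := by
      rw [MvPowerSeries.isUnit_iff_constantCoeff]; exact isUnit_iff_ne_zero.mpr u0
    exact this.map τ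
  have b0 : b = 0 := by
    apply morse_div_unique (V + MvPowerSeries.pderiv k 0 q1 - (τ u)⁻¹)
    have e5 : τ g = MvPowerSeries.X 0 * (τ u)⁻¹ := by
      rw [← e3, mul_assoc, τu, mul_one]
    have e6 := e4
    rw [e5] at e6
    calc MvPowerSeries.X 0 * (V + MvPowerSeries.pderiv k 0 q1 - (τ u)⁻¹) + mincl b
        = (MvPowerSeries.X 0 * V + mincl b) + MvPowerSeries.X 0 * MvPowerSeries.pderiv k 0 q1 -
            MvPowerSeries.X 0 * (τ u)⁻¹ := by ring
      _ = 0 := by rw [← hV, ← e6, sub_self]
  have hq1 : q1 = MvPowerSeries.X 0 * V := by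
    rw [hV, b0]
    simp [mincl]
  have e7 : (2 * V + MvPowerSeries.X 0 * MvPowerSeries.pderiv k 0 V) * τ u = 1 := by
    have hX : (MvPowerSeries.X 0 : MvPowerSeries (Fin (n + 1)) k) ≠ 0 := by
      intro h
      have := congrArg (fun z => MvPowerSeries.constantCoeff (MvPowerSeries.pderiv k 0 z)) h
      simp only [MvPowerSeries.pderiv_X_self, map_one, map_zero] at this
      exact one_ne_zero this
    apply mul_left_cancel₀ hX
    rw [mul_one, ← mul_assoc]
    conv_rhs => rw [← e3, e4, hq1, Derivation.leibniz, MvPowerSeries.pderiv_X_self,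
      smul_eq_mul, smul_eq_mul]
    ring
  have V0 : MvPowerSeries.constantCoeff V ≠ 0 := by
    intro h
    have := congrArg MvPowerSeries.constantCoeff e7
    rw [map_mul, map_add, map_mul, map_mul, MvPowerSeries.constantCoeff_X, h, mul_zero, zero_mul,
      add_zero, zero_mul, map_one] at this
    exact zero_ne_one this
  obtain ⟨w, hw⟩ := exists_sqrt V V0
  have w0 : MvPowerSeries.constantCoeff w ≠ 0 := by
    intro h
    apply V0
    rw [← hw, map_pow, h]
    exact zero_pow two_ne_zero
  obtain ⟨ρ, hρ0, hρ⟩ := morse_aut (MvPowerSeries.X 0 * w)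
    (by rw [map_mul, MvPowerSeries.constantCoeff_X, zero_mul])
    (by
      rw [Derivation.leibniz, MvPowerSeries.pderiv_X_self, smul_eq_mul, smul_eq_mul, map_add,
        map_mul, MvPowerSeries.constantCoeff_X, zero_mul, zero_add, mul_one]
      exact w0)
  refine ⟨ρ.trans τ.symm, f₀, ?_⟩
  rw [AlgEquiv.trans_apply, AlgEquiv.eq_symm_apply, map_add, map_pow, hρ0, morse_fix ρ hρ, hF,
    hq1, mul_pow, hw]
  ring


private theorem morse_const_aut {σ : Type} [Finite σ]
    (φ : MvPowerSeries σ k ≃ₐ[k] MvPowerSeries σ k) (f : MvPowerSeries σ k) :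
    MvPowerSeries.constantCoeff (φ f) = MvPowerSeries.constantCoeff f := by
  obtain ⟨c, hc⟩ : ∃ c, c = MvPowerSeries.constantCoeff f := ⟨_, rfl⟩
  have h1 : Low 1 (f - algebraMap k _ c) := by
    intro m hm
    have hm0 : m = 0 := by
      rw [← Finsupp.degree_eq_zero_iff]; omega
    rw [hm0, MvPowerSeries.coeff_zero_eq_constantCoeff_apply, map_sub, ← hc,
      MvPowerSeries.algebraMap_apply, MvPowerSeries.constantCoeff_C]
    simp
  have h2 := low_automorphism φ h1 0 (by simp)
  rw [MvPowerSeries.coeff_zero_eq_constantCoeff_apply, map_sub, map_sub, AlgEquiv.commutes,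
    MvPowerSeries.algebraMap_apply, MvPowerSeries.constantCoeff_C, sub_eq_zero] at h2
  rw [h2, hc]
  simp

/-- a linear automorphism with prescribed first row -/
private theorem morse_lin {n : ℕ} (c : Fin (n + 1) → k) (p : Fin (n + 1)) (hp : c p ≠ 0) :
    ∃ L : MvPowerSeries (Fin (n + 1)) k ≃ₐ[k] MvPowerSeries (Fin (n + 1)) k,
      ∀ j, MvPowerSeries.pderiv k 0 (L (MvPowerSeries.X j)) = MvPowerSeries.C (c j) := by
  classical
  set s : Equiv.Perm (Fin (n + 1)) := Equiv.swap 0 p with hs
  let y : Fin (n + 1) → MvPowerSeries (Fin (n + 1)) k := fun j =>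
    MvPowerSeries.C (c j) * MvPowerSeries.X 0 + if j = p then 0 else MvPowerSeries.X (s j)
  have hsj : ∀ j, j ≠ p → s j ≠ 0 := by
    intro j hj h
    apply hj
    have : s p = 0 := Equiv.swap_apply_right 0 p
    exact s.injective (h.trans this.symm)
  have hy0 : ∀ j, MvPowerSeries.pderiv k 0 (y j) = MvPowerSeries.C (c j) := by
    intro j
    simp only [y]
    rw [map_add, Derivation.leibniz, MvPowerSeries.pderiv_X_self, MvPowerSeries.pderiv_C,
      smul_zero, add_zero, smul_eq_mul, mul_one]
    split_ifs with h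
    · rw [map_zero, add_zero]
    · rw [MvPowerSeries.pderiv_X_of_ne (hsj j h), add_zero]
  obtain ⟨L, hL⟩ := exists_automorphism (k := k) (σ := Fin (n + 1)) y
    (by
      intro j
      simp only [y]
      rw [map_add, map_mul, MvPowerSeries.constantCoeff_X, mul_zero, zero_add]
      split_ifs with h
      · rw [map_zero]
      · exact MvPowerSeries.constantCoeff_X _)
    (by
      intro hdet
      have h1 := Matrix.det_permute' s (Matrix.of fun i j : Fin (n + 1) =>
        MvPowerSeries.coeff (Finsupp.single i 1) (y j))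
      rw [hdet, mul_zero, Matrix.det_of_isUpperTriangular] at h1
      · have h2 : ∀ i, (Matrix.submatrix (Matrix.of fun i j : Fin (n + 1) =>
          MvPowerSeries.coeff (Finsupp.single i 1) (y j)) id s) i i ≠ 0 := by
          intro i
          simp only [Matrix.submatrix_apply, id, Matrix.of_apply]
          refine Fin.cases ?_ (fun i => ?_) i
          · rw [← morse_const_pderiv, hy0, MvPowerSeries.constantCoeff_C, hs,
              Equiv.swap_apply_left]
            exact hp
          · have hne : s i.succ ≠ p := by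
              intro h
              have : s 0 = p := Equiv.swap_apply_left 0 p
              exact Fin.succ_ne_zero i (s.injective (h.trans this.symm))
            have hss : s (s i.succ) = i.succ := Equiv.swap_apply_self _ _ _
            simp only [y]
            rw [if_neg hne, hss, map_add, MvPowerSeries.coeff_C_mul, MvPowerSeries.coeff_X,
              MvPowerSeries.coeff_X, if_neg, if_pos rfl, mul_zero, zero_add]
            · exact one_ne_zero
            · intro h
              exact Fin.succ_ne_zero i ((Finsupp.single_left_inj (one_ne_zero)).mp h)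
        exact (Finset.prod_ne_zero_iff.mpr fun i _ => h2 i) h1
      · intro i j hij
        have hij' : j < i := hij
        simp only [Matrix.submatrix_apply, id, Matrix.of_apply]
        have hi0 : i ≠ 0 := Fin.pos_iff_ne_zero.mp (lt_of_le_of_lt (Fin.zero_le _) hij')
        have hss : s (s j) = j := Equiv.swap_apply_self _ _ _
        simp only [y]
        rw [map_add, MvPowerSeries.coeff_C_mul, MvPowerSeries.coeff_X, if_neg, mul_zero, zero_add]
        · split_ifs with h
          · exact map_zero _
          · rw [hss, MvPowerSeries.coeff_X, if_neg]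
            intro h'
            exact absurd ((Finsupp.single_left_inj (one_ne_zero)).mp h') (ne_of_gt hij')
        · intro h'
          exact hi0 ((Finsupp.single_left_inj (one_ne_zero)).mp h'))
  exact ⟨L, fun j => by rw [hL, hy0]⟩

private theorem morse_hess_symm {σ : Type} (f : MvPowerSeries σ k) (i j : σ) :
    hess f i j = hess f j i := by
  classical
  by_cases hij : i = j
  · rw [hij]
  simp only [hess, Matrix.of_apply]
  rw [morse_const_pderiv, morse_const_pderiv, MvPowerSeries.coeff_pderiv,
    MvPowerSeries.coeff_pderiv, Finsupp.single_eq_of_ne (Ne.symm hij),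
    Finsupp.single_eq_of_ne hij, add_comm]

theorem morse_step [IsAlgClosed k] [CharZero k] {n : ℕ} (f : MvPowerSeries (Fin (n + 1)) k)
    (hf : Low 2 f) (hH : hess f ≠ 0) :
    ∃ (φ : MvPowerSeries (Fin (n + 1)) k ≃ₐ[k] MvPowerSeries (Fin (n + 1)) k)
      (f₀ : MvPowerSeries (Fin n) k),
      f = φ (MvPowerSeries.X 0 ^ 2 + (MvPowerSeries.finSuccEquiv k n).symm (PowerSeries.C f₀)) := by
  classical
  -- a vector on which the quadratic form does not vanish
  obtain ⟨c, hc⟩ : ∃ c : Fin (n + 1) → k, ∑ j, ∑ l, hess f l j * c l * c j ≠ 0 := by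
    by_contra hcon
    push Not at hcon
    apply hH
    have hdiag : ∀ i, hess f i i = 0 := by
      intro i
      have := hcon (Pi.single i 1)
      rw [Finset.sum_eq_single i, Finset.sum_eq_single i] at this
      · simpa using this
      · intro l _ hl
        rw [Pi.single_eq_of_ne hl]; ring
      · intro h; exact absurd (Finset.mem_univ _) h
      · intro l _ hl
        refine Finset.sum_eq_zero fun l' _ => ?_
        rw [Pi.single_eq_of_ne hl]; ring
      · intro h; exact absurd (Finset.mem_univ _) h
    ext i j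
    by_cases hij : i = j
    · rw [hij, hdiag]; rfl
    have := hcon (Pi.single i 1 + Pi.single j 1)
    have e : ∑ b, ∑ l, hess f l b * (Pi.single i (1 : k) + Pi.single j 1 : Fin (n + 1) → k) l *
        (Pi.single i (1 : k) + Pi.single j 1 : Fin (n + 1) → k) b =
        (hess f i i + hess f j i) + (hess f i j + hess f j j) := by
      have inner : ∀ b, ∑ l, hess f l b *
          (Pi.single i (1 : k) + Pi.single j 1 : Fin (n + 1) → k) l *
          (Pi.single i (1 : k) + Pi.single j 1 : Fin (n + 1) → k) b =
          (hess f i b + hess f j b) *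
            (Pi.single i (1 : k) + Pi.single j 1 : Fin (n + 1) → k) b := by
        intro b
        rw [← Finset.sum_mul]
        congr 1
        simp only [Pi.add_apply, mul_add, Finset.sum_add_distrib]
        simp [Pi.single_apply]
      simp only [inner]
      simp only [Pi.add_apply, mul_add, Finset.sum_add_distrib]
      simp [Pi.single_apply]
    rw [e, hdiag, hdiag, morse_hess_symm f j i, zero_add, add_zero, ← two_mul] at this
    simpa using this
  have hp : ∃ p, c p ≠ 0 := by
    by_contra hcon
    push Not at hcon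
    apply hc
    simp [hcon]
  obtain ⟨p, hp⟩ := hp
  obtain ⟨L, hL⟩ := morse_lin c p hp
  have h1 : hess (L f) 0 0 = ∑ j, ∑ l, hess f l j * c l * c j := by
    simp only [hess, Matrix.of_apply]
    rw [morse_chain, map_sum, map_sum]
    refine Finset.sum_congr rfl fun j _ => ?_
    rw [hL, Derivation.leibniz, MvPowerSeries.pderiv_C, smul_zero, zero_add, smul_eq_mul, map_mul,
      MvPowerSeries.constantCoeff_C, morse_chain, map_sum, Finset.mul_sum]
    refine Finset.sum_congr rfl fun l _ => ?_
    rw [hL, map_mul, MvPowerSeries.constantCoeff_C, morse_const_aut]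
    ring
  have h2 : Low 2 (L f) := low_automorphism L hf
  obtain ⟨φ, f₀, h⟩ := morse_core (L f) h2 (by rw [h1]; exact hc)
  refine ⟨φ.trans L.symm, f₀, ?_⟩
  rw [AlgEquiv.trans_apply, AlgEquiv.eq_symm_apply, h]
  rfl

end MLD
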