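import Pool.Agent.MLD.ExtVal
import Pool.Agent.MLD.Der

/-!
PIECE MLD-C16: the valuation of an irreducible plane curve, with derivations.

PROOF. `u f := θ * multiplicity h f` (`emultiplicity h f` is finite for `f ≠ 0` because `h` is prime, not a
unit; `emultiplicity_mul`, `min_le_emultiplicity_add`), `extend_ord` (`ExtVal.lean`).  `∂_c h ≠ 0` for some `c`
(characteristic zero, `h` is not constant: degree of `h` in `X c` positive), say `c`, and `c'` the other index.
`h ∤ ∂_c h` (its degree in `X c` is smaller).  `δ` (index `c`) `:= h ∂_c`, `δ` (index `c'`) `:= (∂_c' h) ∂_c - (∂_c h) ∂_c'`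
(`exists_pderivFF`; `Derivation` is a module over the field).  If `f = h ^ n * g` (polynomials) then
`h ∂_c f = h ^ n * (n g ∂_c h + h ∂_c g)` and the second derivation kills `h`; so both preserve the filtration on
polynomials; fractions `a / b`: `D f = (D a * b - a * D b) / b ^ 2`.
`det (δ i (xx j)) = ± h * ∂_c h`, of order `θ`.
-/

open MvPolynomial

namespace MLD

universe u

private theorem OrdH_der {k : Type u} [Field k] [CharZero k] (h : MvPolynomial (Fin 2) k)
    (hh : Irreducible h) : ∃ c : Fin 2, ¬ h ∣ pderiv c h := by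
  classical
  have h0 : h ≠ 0 := hh.ne_zero
  by_cases hex : ∃ m ∈ h.support, m ≠ 0
  · obtain ⟨m, hm, hm0⟩ := hex
    obtain ⟨c, hc⟩ : ∃ c, m c ≠ 0 := by
      by_contra hcon
      push Not at hcon
      exact hm0 (Finsupp.ext hcon)
    have hd0 : pderiv c h ≠ 0 := by
      intro hz
      have h1 := MvPolynomial.coeff_pderiv (i := c) h (m - Finsupp.single c 1)
      rw [hz, coeff_zero] at h1
      have h2 : m - Finsupp.single c 1 + Finsupp.single c 1 = m := by
        apply tsub_add_cancel_of_le
        rw [Finsupp.single_le_iff]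
        omega
      rw [h2] at h1
      have h3 : coeff m h ≠ 0 := mem_support_iff.mp hm
      rcases mul_eq_zero.mp h1.symm with h4 | h4
      · exact h3 h4
      · exact (Nat.cast_add_one_ne_zero _) h4
    refine ⟨c, ?_⟩
    rintro ⟨q, hq⟩
    have hq0 : q ≠ 0 := by
      rintro rfl
      rw [mul_zero] at hq
      exact hd0 hq
    have h5 : totalDegree (pderiv c h) = totalDegree h + totalDegree q := by
      rw [hq, totalDegree_mul_of_isDomain h0 hq0]
    have h6 : totalDegree (pderiv c h) + 1 ≤ totalDegree h := by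
      obtain ⟨m', hm', hdeg⟩ : ∃ m' ∈ (pderiv c h).support,
          totalDegree (pderiv c h) = m'.sum fun _ e => e := by
        have hne : (pderiv c h).support.Nonempty := by
          rwa [Finset.nonempty_iff_ne_empty, Ne, support_eq_empty]
        obtain ⟨m', hm', hs⟩ := Finset.exists_mem_eq_sup _ hne
          (fun s : Fin 2 →₀ ℕ => s.sum fun _ e => e)
        exact ⟨m', hm', hs⟩
      have hm2 : m' + Finsupp.single c 1 ∈ h.support := by
        rw [mem_support_iff] at hm' ⊢
        rw [MvPolynomial.coeff_pderiv] at hm'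
        exact left_ne_zero_of_mul hm'
      have h7 := le_totalDegree hm2
      rw [Finsupp.sum_add_index' (fun _ => rfl) (fun _ _ _ => rfl),
        Finsupp.sum_single_index rfl] at h7
      omega
    omega
  · push Not at hex
    exfalso
    apply hh.not_isUnit
    have h1 : h = C (coeff 0 h) := by
      ext m
      rw [coeff_C]
      by_cases hm : m = 0
      · subst hm; simp
      · rw [if_neg (Ne.symm hm)]
        by_contra hne
        exact hm (hex m (mem_support_iff.mpr hne))
    rw [h1]
    apply IsUnit.map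
    rw [isUnit_iff_ne_zero]
    intro hz
    rw [hz, C_0] at h1
    exact h0 h1

private theorem OrdH_val {k : Type u} [Field k] (h : MvPolynomial (Fin 2) k)
    (hh : Irreducible h) (θ : ℕ) :
    ∃ v : OrdFn k (FF k (Fin 2)), v.ord (toFF k (Fin 2) h) = θ ∧
      (∀ f : MvPolynomial (Fin 2) k, ¬ h ∣ f → v.ord (toFF k (Fin 2) f) = 0) ∧
      (∀ (n : ℕ) (f : MvPolynomial (Fin 2) k), v.ge (n * θ) (toFF k (Fin 2) (h ^ n * f))) := by
  classical
  have hp : Prime h := hh.prime
  have hfin : ∀ f : MvPolynomial (Fin 2) k, f ≠ 0 → FiniteMultiplicity h f := fun f hf =>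
    FiniteMultiplicity.of_not_isUnit hh.not_isUnit hf
  obtain ⟨v, hv⟩ := extend_ord (k := k) (R := MvPolynomial (Fin 2) k) (F := FF k (Fin 2))
    (fun f => θ * multiplicity h f)
    (by
      intro f g hf hg
      rw [multiplicity_mul hp (hfin _ (mul_ne_zero hf hg)), mul_add])
    (by
      intro f g hf hg hfg
      have h1 : min (multiplicity h f) (multiplicity h g) ≤ multiplicity h (f + g) := by
        apply (hfin _ hfg).le_multiplicity_of_pow_dvd
        exact dvd_add ((pow_dvd_pow _ (min_le_left _ _)).trans (pow_multiplicity_dvd _ _))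
          ((pow_dvd_pow _ (min_le_right _ _)).trans (pow_multiplicity_dvd _ _))
      rcases min_le_iff.mp h1 with h2 | h2
      · exact (min_le_left _ _).trans (Nat.mul_le_mul_left _ h2)
      · exact (min_le_right _ _).trans (Nat.mul_le_mul_left _ h2))
    (by
      intro c hc
      have : multiplicity h (algebraMap k (MvPolynomial (Fin 2) k) c) = 0 := by
        apply multiplicity_eq_zero.mpr
        intro hd
        apply hh.not_isUnit
        apply isUnit_of_dvd_unit hd
        apply IsUnit.map
        exact isUnit_iff_ne_zero.mpr hc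
      rw [this, mul_zero])
  refine ⟨v, ?_, ?_, ?_⟩
  · have h1 := hv h hh.ne_zero
    rw [multiplicity_self, mul_one] at h1
    exact h1
  · intro f hf
    have hf0 : f ≠ 0 := by
      rintro rfl
      exact hf (dvd_zero _)
    have h1 := hv f hf0
    rw [multiplicity_eq_zero.mpr hf, mul_zero] at h1
    exact_mod_cast h1
  · intro n f
    by_cases hf : f = 0
    · left; rw [hf, mul_zero, map_zero]
    · right
      have hne : h ^ n * f ≠ 0 := mul_ne_zero (pow_ne_zero _ hh.ne_zero) hf
      have h1 := hv _ hne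
      have h2 : n ≤ multiplicity h (h ^ n * f) :=
        (hfin _ hne).le_multiplicity_of_pow_dvd (Dvd.intro _ rfl)
      have h3 : toFF k (Fin 2) (h ^ n * f)
          = algebraMap (MvPolynomial (Fin 2) k) (FF k (Fin 2)) (h ^ n * f) := rfl
      rw [h3, h1]
      have h4 : n * θ ≤ θ * multiplicity h (h ^ n * f) := by
        rw [mul_comm]
        exact Nat.mul_le_mul_left _ h2
      exact_mod_cast h4

private theorem OrdH_pres {k : Type u} [Field k] (h : MvPolynomial (Fin 2) k)
    (hh : Irreducible h) (v : OrdFn k (FF k (Fin 2))) (θ : ℕ)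
    (hv1 : v.ord (toFF k (Fin 2) h) = θ)
    (hv2 : ∀ f : MvPolynomial (Fin 2) k, ¬ h ∣ f → v.ord (toFF k (Fin 2) f) = 0)
    (hv3 : ∀ (n : ℕ) (f : MvPolynomial (Fin 2) k), v.ge (n * θ) (toFF k (Fin 2) (h ^ n * f)))
    (D : Derivation k (FF k (Fin 2)) (FF k (Fin 2)))
    (hD : ∀ (n : ℕ) (g : MvPolynomial (Fin 2) k), ∃ q : MvPolynomial (Fin 2) k,
      D (toFF k (Fin 2) (h ^ n * g)) = toFF k (Fin 2) (h ^ n * q))
    (f : FF k (Fin 2)) (hf : f ≠ 0) : v.ge (v.ord f) (D f) := by
  classical
  have hinj : Function.Injective (toFF k (Fin 2)) :=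
    IsFractionRing.injective (MvPolynomial (Fin 2) k) _
  have hpoly : ∀ a : MvPolynomial (Fin 2) k, a ≠ 0 →
      v.ge (v.ord (toFF k (Fin 2) a)) (D (toFF k (Fin 2) a)) := by
    intro a ha
    obtain ⟨g, hag, hg⟩ := (FiniteMultiplicity.of_not_isUnit hh.not_isUnit
      ha).exists_eq_pow_mul_and_not_dvd
    set n := multiplicity h a with hn
    have hg0 : g ≠ 0 := by
      rintro rfl
      exact hg (dvd_zero _)
    obtain ⟨q, hq⟩ := hD n g
    rw [← hag] at hq
    rw [hq]
    have hH0 : toFF k (Fin 2) h ≠ 0 := by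
      intro h0
      apply hh.ne_zero
      apply hinj
      rw [h0, map_zero]
    have hG0 : toFF k (Fin 2) g ≠ 0 := by
      intro h0
      apply hg0
      apply hinj
      rw [h0, map_zero]
    have h1 : v.ord (toFF k (Fin 2) a) = n * θ := by
      rw [hag, map_mul, map_pow, v.ord_mul (pow_ne_zero _ hH0) hG0, v.ord_pow hH0, hv1,
        hv2 g hg, add_zero]
    rw [h1]
    exact hv3 n q
  obtain ⟨a, b, hb, rfl⟩ := IsFractionRing.div_surjective (A := MvPolynomial (Fin 2) k) f
  have hb0 : b ≠ 0 := nonZeroDivisors.ne_zero hb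
  have hB0 : toFF k (Fin 2) b ≠ 0 := by
    intro h0
    apply hb0
    apply hinj
    rw [h0, map_zero]
  have ha0 : a ≠ 0 := by
    rintro rfl
    apply hf
    rw [map_zero, zero_div]
  have hA0 : toFF k (Fin 2) a ≠ 0 := by
    intro h0
    apply ha0
    apply hinj
    rw [h0, map_zero]
  change v.ge (v.ord (toFF k (Fin 2) a / toFF k (Fin 2) b))
    (D (toFF k (Fin 2) a / toFF k (Fin 2) b))
  have hA := hpoly a ha0
  have hB := hpoly b hb0
  rw [Derivation.leibniz_div, smul_eq_mul, smul_eq_mul, smul_eq_mul, v.ord_div hA0 hB0]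
  set A := toFF k (Fin 2) a
  set B := toFF k (Fin 2) b
  have h1 : v.ge (v.ord A + v.ord B) (B * D A) := by
    have := v.ge_mul (v.ge_self B) hA
    rwa [add_comm] at this
  have h2 : v.ge (v.ord A + v.ord B) (A * D B) := v.ge_mul (v.ge_self A) hB
  have h3 := v.ge_sub h1 h2
  have h4 : v.ge (-(2 * v.ord B)) (B⁻¹ ^ 2) := by
    right
    rw [v.ord_pow (inv_ne_zero hB0), v.ord_inv B hB0]
    push_cast
    linarith
  have h5 := v.ge_mul h4 h3
  refine v.ge_mono ?_ h5
  linarith

theorem exists_ordh {k : Type u} [Field k] [CharZero k] (h : MvPolynomial (Fin 2) k)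
    (hh : Irreducible h) (θ : ℕ) :
    ∃ (v : OrdFn k (FF k (Fin 2))) (δ : Fin 2 → Derivation k (FF k (Fin 2)) (FF k (Fin 2))),
      v.ord (toFF k (Fin 2) h) = θ ∧
      (∀ f : MvPolynomial (Fin 2) k, ¬ h ∣ f → v.ord (toFF k (Fin 2) f) = 0) ∧
      (∀ i f, f ≠ 0 → v.ge (v.ord f) (δ i f)) ∧
      (Matrix.of fun i j => δ i (xx k j)).det ≠ 0 ∧
      v.ord (Matrix.of fun i j => δ i (xx k j)).det = θ := by
  classical
  obtain ⟨c, hc⟩ := OrdH_der h hh
  obtain ⟨v, hv1, hv2, hv3⟩ := OrdH_val h hh θ
  obtain ⟨d, hd⟩ := exists_pderivFF k (Fin 2)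
  have hinj : Function.Injective (toFF k (Fin 2)) :=
    IsFractionRing.injective (MvPolynomial (Fin 2) k) _
  have hH0 : toFF k (Fin 2) h ≠ 0 := by
    intro h0
    apply hh.ne_zero
    apply hinj
    rw [h0, map_zero]
  have hC0 : toFF k (Fin 2) (pderiv c h) ≠ 0 := by
    intro h0
    apply hc
    have : pderiv c h = 0 := by
      apply hinj
      rw [h0, map_zero]
    rw [this]
    exact dvd_zero _
  let c' : Fin 2 := 1 - c
  let D0 : Derivation k (FF k (Fin 2)) (FF k (Fin 2)) := toFF k (Fin 2) h • d c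
  let D1 : Derivation k (FF k (Fin 2)) (FF k (Fin 2)) :=
    toFF k (Fin 2) (pderiv c' h) • d c - toFF k (Fin 2) (pderiv c h) • d c'
  have hD0 : ∀ f, D0 (toFF k (Fin 2) f) = toFF k (Fin 2) (h * pderiv c f) := by
    intro f
    change toFF k (Fin 2) h • d c (toFF k (Fin 2) f) = _
    rw [hd, smul_eq_mul, map_mul]
  have hD1 : ∀ f, D1 (toFF k (Fin 2) f)
      = toFF k (Fin 2) (pderiv c' h * pderiv c f - pderiv c h * pderiv c' f) := by
    intro f
    change toFF k (Fin 2) (pderiv c' h) • d c (toFF k (Fin 2) f)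
      - toFF k (Fin 2) (pderiv c h) • d c' (toFF k (Fin 2) f) = _
    rw [hd, hd, smul_eq_mul, smul_eq_mul, map_sub, map_mul, map_mul]
  have hpow : ∀ (e : Fin 2) (n : ℕ), h * pderiv e (h ^ n) = h ^ n * ((n : MvPolynomial (Fin 2) k)
      * pderiv e h) := by
    intro e n
    rcases n with _ | n
    · simp
    · rw [Derivation.leibniz_pow, smul_eq_mul, nsmul_eq_mul, Nat.add_sub_cancel, pow_succ]
      ring
  refine ⟨v, ![D0, D1], hv1, hv2, ?_, ?_⟩
  · intro i f hf
    fin_cases i
    · refine OrdH_pres h hh v θ hv1 hv2 hv3 D0 ?_ f hf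
      intro n g
      refine ⟨(n : MvPolynomial (Fin 2) k) * pderiv c h * g + h * pderiv c g, ?_⟩
      rw [hD0, Derivation.leibniz, smul_eq_mul, smul_eq_mul]
      congr 1
      linear_combination g * hpow c n
    · refine OrdH_pres h hh v θ hv1 hv2 hv3 D1 ?_ f hf
      intro n g
      refine ⟨pderiv c' h * pderiv c g - pderiv c h * pderiv c' g, ?_⟩
      rw [hD1, Derivation.leibniz, Derivation.leibniz, smul_eq_mul, smul_eq_mul, smul_eq_mul,
        smul_eq_mul]
      congr 1
      have h3 : pderiv c' h * pderiv c (h ^ n) = pderiv c h * pderiv c' (h ^ n) := by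
        apply mul_left_cancel₀ hh.ne_zero
        linear_combination pderiv c' h * hpow c n - pderiv c h * hpow c' n
      linear_combination g * h3
  · have hdet : (Matrix.of fun i j => (![D0, D1] : Fin 2 → Derivation k (FF k (Fin 2))
        (FF k (Fin 2))) i (xx k j)).det
        = toFF k (Fin 2) h * toFF k (Fin 2) (pderiv c h) ∨
        (Matrix.of fun i j => (![D0, D1] : Fin 2 → Derivation k (FF k (Fin 2))
        (FF k (Fin 2))) i (xx k j)).det
        = -(toFF k (Fin 2) h * toFF k (Fin 2) (pderiv c h)) := by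
      rw [Matrix.det_fin_two]
      simp only [Matrix.of_apply, Matrix.cons_val_zero, Matrix.cons_val_one, xx]
      rw [hD0, hD0, hD1, hD1]
      have hcases : c = 0 ∨ c = 1 := by
        fin_cases c
        · left; rfl
        · right; rfl
      rcases hcases with rfl | rfl
      · right
        have hc' : c' = 1 := rfl
        rw [hc']
        simp
      · left
        have hc' : c' = 0 := rfl
        rw [hc']
        simp
    have hcr : v.ord (toFF k (Fin 2) h * toFF k (Fin 2) (pderiv c h)) = θ := by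
      rw [v.ord_mul hH0 hC0, hv1, hv2 _ hc, add_zero]
    rcases hdet with hdet | hdet
    · rw [hdet]
      exact ⟨mul_ne_zero hH0 hC0, hcr⟩
    · rw [hdet]
      refine ⟨neg_ne_zero.mpr (mul_ne_zero hH0 hC0), ?_⟩
      rw [v.ord_neg _ (mul_ne_zero hH0 hC0), hcr]

end MLD
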