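import Pool.Agent.MLD.IdOrd
import Pool.Agent.MLD.LogForm
import Pool.Agent.MLD.Der

/-!
PIECE MLD-T1: power series, the filtration by the order, automorphisms.

`Low N g`: all coefficients of degree `< N` vanish.  HINTS. `low_automorphism`: `φ (X i)` has no
constant term (`X i` is not a unit, so `φ (X i)` is not a unit; a power series with nonzero
constant term is a unit, `MvPowerSeries.isUnit_iff_constantCoeff`). If `Low N g` then
`g = ∑_{m.degree = N} X^m * g_m` (finite sum; e.g. `MvPowerSeries` ideal `idealOfVars`, lemmas in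
`Mathlib/RingTheory/MvPowerSeries/Equiv.lean`, or induction on `N`: `Low (N+1) g` implies
`g = ∑ i, X i * g_i` with `Low N g_i`), apply `φ`.
`linear_part`: suppose the constant matrix `(constantCoeff (pderiv i (φ (X j))))` is singular; then
`∑ c_j φ (X j)` has `Low 2` for some `c ≠ 0`; apply `low_automorphism` to `φ.symm`: `∑ c_j X j` has
`Low 2`, so `c = 0`.
-/

open MvPolynomial Filter

namespace MLD

universe u

variable {k : Type u} [Field k] {σ : Type}

/-- all coefficients of degree `< N` vanish -/
def Low (N : ℕ) (g : MvPowerSeries σ k) : Prop :=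
  ∀ m : σ →₀ ℕ, m.degree < N → MvPowerSeries.coeff m g = 0

private theorem PsBase_iff {N : ℕ} {g : MvPowerSeries σ k} : Low N g ↔ (N : ℕ∞) ≤ g.order :=
  ⟨fun h => MvPowerSeries.nat_le_order h, fun h m hm =>
    MvPowerSeries.coeff_of_lt_order (lt_of_lt_of_le (by exact_mod_cast hm) h)⟩

theorem Low.mono {M N : ℕ} (h : M ≤ N) {g : MvPowerSeries σ k} (hg : Low N g) : Low M g :=
  fun m hm => hg m (lt_of_lt_of_le hm h)

theorem low_zero (N : ℕ) : Low N (0 : MvPowerSeries σ k) := fun _ _ => map_zero _

theorem Low.add {N : ℕ} {f g : MvPowerSeries σ k} (hf : Low N f) (hg : Low N g) :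
    Low N (f + g) := fun m hm => by rw [map_add, hf m hm, hg m hm, add_zero]

theorem Low.sub {N : ℕ} {f g : MvPowerSeries σ k} (hf : Low N f) (hg : Low N g) :
    Low N (f - g) := fun m hm => by rw [map_sub, hf m hm, hg m hm, sub_zero]

theorem Low.mul {M N : ℕ} {f g : MvPowerSeries σ k} (hf : Low M f) (hg : Low N g) :
    Low (M + N) (f * g) := by
  rw [PsBase_iff] at hf hg ⊢
  refine le_trans ?_ MvPowerSeries.le_order_mul
  push_cast
  exact add_le_add hf hg

theorem Low.mul_left {N : ℕ} (f : MvPowerSeries σ k) {g : MvPowerSeries σ k} (hg : Low N g) :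
    Low N (f * g) := by
  have h0 : Low 0 f := fun m hm => absurd hm (Nat.not_lt_zero _)
  have h1 := h0.mul hg
  rwa [zero_add] at h1

theorem Low.pderiv {N : ℕ} {g : MvPowerSeries σ k} (hg : Low (N + 1) g) (i : σ) :
    Low N (MvPowerSeries.pderiv k i g) := fun m hm => by
  rw [MvPowerSeries.coeff_pderiv, hg, zero_mul]
  rw [map_add, Finsupp.degree_single]
  omega

theorem low_sub_trunc [Finite σ] (N : ℕ) (g : MvPowerSeries σ k) :
    Low N (g - ((MvPowerSeries.truncTotal N g : MvPolynomial σ k) : MvPowerSeries σ k)) :=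
  fun m hm => by
    rw [map_sub, MvPolynomial.coeff_coe, MvPowerSeries.coeff_truncTotal _ hm, sub_self]

private theorem PsBase_sum {ι : Type*} (s : Finset ι) {N : ℕ} (f : ι → MvPowerSeries σ k)
    (h : ∀ i ∈ s, Low N (f i)) : Low N (∑ i ∈ s, f i) := fun m hm => by
  rw [map_sum]
  exact Finset.sum_eq_zero fun i hi => h i hi m hm

/-- division: a series of order at least `N + 1` is a combination of the variables -/
private theorem PsBase_div [Fintype σ] {N : ℕ} {g : MvPowerSeries σ k} (hg : Low (N + 1) g) :
    ∃ h : σ → MvPowerSeries σ k, (∀ i, Low N (h i)) ∧ g = ∑ i, MvPowerSeries.X i * h i := by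
  classical
  have hex : ∀ m : σ →₀ ℕ, m ≠ 0 → ∃ i, m i ≠ 0 := fun m hm => by
    by_contra hcon
    push Not at hcon
    exact hm (Finsupp.ext hcon)
  rcases isEmpty_or_nonempty σ with hσ | hσ
  · refine ⟨fun _ => 0, fun _ => low_zero N, ?_⟩
    ext m
    rw [hg m (by rw [Subsingleton.elim m 0, map_zero]; omega)]
    simp
  choose! c hc using hex
  let h : σ → MvPowerSeries σ k := fun i m =>
    if c (m + Finsupp.single i 1) = i then MvPowerSeries.coeff (m + Finsupp.single i 1) g else 0
  have hh : ∀ i m, MvPowerSeries.coeff m (h i) =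
      if c (m + Finsupp.single i 1) = i then
        MvPowerSeries.coeff (m + Finsupp.single i 1) g else 0 := fun i m => rfl
  refine ⟨h, fun i m hm => ?_, ?_⟩
  · rw [hh]
    split_ifs
    · refine hg _ ?_
      rw [map_add, Finsupp.degree_single]
      omega
    · rfl
  · ext m
    rw [map_sum]
    have h1 : ∀ i, MvPowerSeries.coeff m (MvPowerSeries.X i * h i) =
        if m i ≠ 0 ∧ c m = i then MvPowerSeries.coeff m g else 0 := by
      intro i
      rw [MvPowerSeries.X, MvPowerSeries.coeff_monomial_mul, one_mul, hh]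
      by_cases hmi : Finsupp.single i 1 ≤ m
      · have h2 : m i ≠ 0 := by
          have := hmi i
          rw [Finsupp.single_eq_same] at this
          omega
        rw [if_pos hmi, tsub_add_cancel_of_le hmi]
        simp only [h2, ne_eq, not_false_eq_true, true_and]
      · have h2 : ¬ (m i ≠ 0) := by
          intro h3
          apply hmi
          intro j
          by_cases hj : j = i
          · subst hj
            rw [Finsupp.single_eq_same]
            omega
          · rw [Finsupp.single_eq_of_ne hj]
            omega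
        rw [if_neg hmi, if_neg (fun h3 => h2 h3.1)]
    simp only [h1]
    by_cases hm : m = 0
    · subst hm
      rw [hg 0 (by rw [map_zero]; omega)]
      simp
    · rw [Finset.sum_eq_single (c m)]
      · rw [if_pos ⟨hc m hm, rfl⟩]
      · intro i _ hi
        rw [if_neg (fun h3 => hi h3.2.symm)]
      · intro h3
        exact absurd (Finset.mem_univ _) h3

theorem low_automorphism [Finite σ] (φ : MvPowerSeries σ k ≃ₐ[k] MvPowerSeries σ k) {N : ℕ}
    {g : MvPowerSeries σ k} (hg : Low N g) : Low N (φ g) := by
  have := Fintype.ofFinite σ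
  have hX : ∀ i, Low 1 (φ (MvPowerSeries.X i)) := by
    intro i m hm
    have hm0 : m = 0 := (Finsupp.degree_eq_zero_iff m).1 (by omega)
    subst hm0
    by_contra hcon
    have h1 : IsUnit (φ (MvPowerSeries.X i)) := by
      rw [MvPowerSeries.isUnit_iff_constantCoeff]
      exact isUnit_iff_ne_zero.2 hcon
    have h2 : IsUnit (MvPowerSeries.X i : MvPowerSeries σ k) := by
      have h3 := h1.map (φ.symm : MvPowerSeries σ k →* MvPowerSeries σ k)
      have h4 : (φ.symm : MvPowerSeries σ k →* MvPowerSeries σ k) (φ (MvPowerSeries.X i)) =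
          MvPowerSeries.X i := φ.symm_apply_apply _
      rwa [h4] at h3
    rw [MvPowerSeries.isUnit_iff_constantCoeff, MvPowerSeries.constantCoeff_X] at h2
    exact not_isUnit_zero h2
  induction N generalizing g with
  | zero => exact fun m hm => absurd hm (Nat.not_lt_zero _)
  | succ N ih =>
    obtain ⟨h, hh, hgh⟩ := PsBase_div hg
    rw [hgh, map_sum]
    refine PsBase_sum _ _ fun i _ => ?_
    rw [map_mul, add_comm]
    exact (hX i).mul (ih (hh i))

theorem linear_part [Fintype σ] [DecidableEq σ] (φ : MvPowerSeries σ k ≃ₐ[k] MvPowerSeries σ k) :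
    IsUnit (Matrix.det (Matrix.of fun i j : σ =>
      MvPowerSeries.pderiv k i (φ (MvPowerSeries.X j)))) := by
  rw [MvPowerSeries.isUnit_iff_constantCoeff, isUnit_iff_ne_zero, RingHom.map_det]
  intro hdet
  obtain ⟨c, hc0, hc⟩ := Matrix.exists_mulVec_eq_zero_iff.2 hdet
  let g : MvPowerSeries σ k := ∑ j, c j • MvPowerSeries.X j
  have hφg : φ g = ∑ j, c j • φ (MvPowerSeries.X j) := by
    rw [map_sum]
    refine Finset.sum_congr rfl fun j _ => ?_
    rw [map_smul]
  have hg1 : Low 1 g := by
    intro m hm
    have hm0 : m = 0 := (Finsupp.degree_eq_zero_iff m).1 (by omega)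
    subst hm0
    rw [map_sum]
    refine Finset.sum_eq_zero fun j _ => ?_
    rw [map_smul, MvPowerSeries.coeff_zero_X, smul_zero]
  have hlow : Low 2 (φ g) := by
    intro m hm
    rcases Nat.lt_or_ge m.degree 1 with h | h
    · exact low_automorphism φ hg1 m h
    · have hm1 : m ∈ {d : σ →₀ ℕ | d.degree = 1} := by
        change m.degree = 1
        omega
      rw [← Finsupp.range_single_one] at hm1
      obtain ⟨i, rfl⟩ := hm1
      have h2 := congrFun hc i
      rw [Matrix.mulVec, dotProduct, Pi.zero_apply] at h2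
      have h3 : ∀ j, (RingHom.mapMatrix MvPowerSeries.constantCoeff
          (Matrix.of fun i j : σ => MvPowerSeries.pderiv k i (φ (MvPowerSeries.X j)))) i j =
          MvPowerSeries.coeff (Finsupp.single i 1) (φ (MvPowerSeries.X j)) := by
        intro j
        rw [RingHom.mapMatrix_apply, Matrix.map_apply, Matrix.of_apply,
          ← MvPowerSeries.coeff_zero_eq_constantCoeff_apply, MvPowerSeries.coeff_pderiv, zero_add,
          Finsupp.coe_zero, Pi.zero_apply, Nat.cast_zero, zero_add, mul_one]
      rw [hφg, map_sum, ← h2]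
      refine Finset.sum_congr rfl fun j _ => ?_
      rw [map_smul, h3 j, smul_eq_mul, mul_comm]
  have hback := low_automorphism φ.symm hlow
  rw [AlgEquiv.symm_apply_apply] at hback
  apply hc0
  funext i
  have h4 := hback (Finsupp.single i 1) (by rw [Finsupp.degree_single]; omega)
  rw [map_sum, Finset.sum_eq_single i] at h4
  · rw [map_smul, MvPowerSeries.coeff_index_single_self_X, smul_eq_mul, mul_one] at h4
    rw [h4, Pi.zero_apply]
  · intro j _ hj
    rw [map_smul, MvPowerSeries.coeff_index_single_X, if_neg (Ne.symm hj), smul_zero]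
  · intro h5
    exact absurd (Finset.mem_univ _) h5

end MLD
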