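import Pool.Agent.MLD.PsVal

/-!
PIECE MLD-T3: pulling back a divisor by an automorphism of the formal germ.

PROOF. `exists_Phi`: `IsFractionRing.liftAlgHom` of the injective map `toPF ∘ φ ∘ coe`.
`approx`: `h = toPF P / toPF Q`; put `P' := truncTotal N (φ.symm P)`, `Q' := truncTotal N (φ.symm Q)`.
`φ P' - P`, `φ Q' - Q` have `Low N` (`low_sub_trunc`, `low_automorphism`), so for `N` larger than
`v.ord (toPF Q)` and so on `Q' ≠ 0`, `v.ord (toPF (φ Q')) = v.ord (toPF Q)` and
`Φ (P'/Q') - h = (φP' Q - P φQ') / (φQ' Q)` has order `≥ N - C`, `C` depending on `P, Q` only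
(`Hat.low`, `OrdFn.ge_mul`, ...).
`exists_pullback`: `ord f := v.ord (Φ f)`. `ord_surj'`: `E.ord h = 1` for some `h`; `h` as an element
of `PF` (`Φ₁` for `φ = id`), approximate it by `Φ f` (`approx`, `M = 2`), `OrdFn.ord_add_eq`.
`ord_poly'`: `Φ (toFF p) = toPF (φ p)` has order `≥ 0` (`Hat.low` with `N = 0`). `CenterZero`:
`φ (X i)` has `Low 1`. `residue'`: take `g` for `E`, approximate every `g i` (an element of
`PF` via `Φ₁`) by `Φ (g' i)` with error of order `≥ 1`; for `P ≠ 0` the difference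
`aeval (Φ ∘ g') P - aeval (Φ₁ ∘ g) P` has order `≥ 1` (induction on `P`, all values have order `≥ 0`:
`g i` has order `0` or use `P = X i`), and `aeval g P` has order `0`.
-/

open MvPolynomial Filter

namespace MLD

universe u

section
variable {k : Type u} [Field k] {σ : Type}

theorem exists_Phi (φ : MvPowerSeries σ k ≃ₐ[k] MvPowerSeries σ k) :
    ∃ Φ : FF k σ →ₐ[k] PF k σ, ∀ f : MvPolynomial σ k,
      Φ (toFF k σ f) = toPF k σ (φ (f : MvPowerSeries σ k)) := by
  let g : MvPolynomial σ k →ₐ[k] PF k σ :=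
    ((toPF k σ).comp (φ : MvPowerSeries σ k →ₐ[k] MvPowerSeries σ k)).comp
      (MvPolynomial.coeToMvPowerSeries.algHom (R := k) (σ := σ) k)
  have hg0 : ∀ f : MvPolynomial σ k, g f = toPF k σ (φ (f : MvPowerSeries σ k)) := by
    intro f
    simp [g]
  have hg : Function.Injective g := by
    intro a b hab
    rw [hg0, hg0] at hab
    have h1 := φ.injective (IsFractionRing.injective (MvPowerSeries σ k) (PF k σ) hab)
    exact MvPolynomial.coe_injective σ k h1
  refine ⟨IsFractionRing.liftAlgHom (K := FF k σ) hg, fun f => ?_⟩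
  rw [← hg0, IsFractionRing.liftAlgHom_apply]
  exact IsFractionRing.lift_algebraMap hg f

private theorem PsPull_ne {g : MvPowerSeries σ k} (hg : g ≠ 0) : toPF k σ g ≠ 0 := by
  intro h
  exact hg (IsFractionRing.injective (MvPowerSeries σ k) (PF k σ) (h.trans (map_zero _).symm))

private theorem PsPull_aeval {B : Type} (v : OrdFn k (PF k σ)) (x y : B → PF k σ)
    (hx : ∀ b, v.ge 0 (x b)) (hxy : ∀ b, v.ge 1 (y b - x b)) (P : MvPolynomial B k) :
    v.ge 1 (aeval y P - aeval x P) := by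
  have hy : ∀ b, v.ge 0 (y b) := by
    intro b
    have h1 := v.ge_add (v.ge_mono (by norm_num : (0 : ℤ) ≤ 1) (hxy b)) (hx b)
    rwa [sub_add_cancel] at h1
  induction P using MvPolynomial.induction_on with
  | C a =>
    rw [aeval_C, aeval_C, sub_self]
    exact v.ge_zero 1
  | add p q hp hq =>
    rw [map_add, map_add, add_sub_add_comm]
    exact v.ge_add hp hq
  | mul_X p b hp =>
    rw [map_mul, map_mul, aeval_X, aeval_X]
    have h1 : aeval y p * y b - aeval x p * x b =
        (aeval y p - aeval x p) * y b + aeval x p * (y b - x b) := by ring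
    rw [h1]
    refine v.ge_add ?_ ?_
    · have h2 := v.ge_mul hp (hy b)
      rwa [add_zero] at h2
    · have h2 := v.ge_mul (v.ge_zero_aeval x hx p) (hxy b)
      rwa [zero_add] at h2

variable [CharZero k] [Fintype σ] [DecidableEq σ] [Nonempty σ] (E : DivisorOver k σ)
  (v : OrdFn k (PF k σ)) (hv : Hat E v) (φ : MvPowerSeries σ k ≃ₐ[k] MvPowerSeries σ k)
  (Φ : FF k σ →ₐ[k] PF k σ)
  (hΦ : ∀ f : MvPolynomial σ k, Φ (toFF k σ f) = toPF k σ (φ (f : MvPowerSeries σ k)))

include hv hΦ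

theorem approx (h : PF k σ) (M : ℤ) : ∃ f : FF k σ, v.ge M (Φ f - h) := by
  have hpos : ∀ g : MvPowerSeries σ k, v.ge 0 (toPF k σ g) := by
    intro g
    have h1 := hv.low 0 g (fun m hm => absurd hm (Nat.not_lt_zero _))
    simpa using h1
  obtain ⟨P, Q, hQ, rfl⟩ := IsFractionRing.div_surjective (A := MvPowerSeries σ k) h
  have hQ0 : Q ≠ 0 := nonZeroDivisors.ne_zero hQ
  have hQF : toPF k σ Q ≠ 0 := PsPull_ne hQ0
  obtain ⟨N, hN1, hN2⟩ : ∃ N : ℕ, v.ord (toPF k σ Q) + 1 ≤ N ∧
      M + 2 * v.ord (toPF k σ Q) ≤ N := by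
    refine ⟨(max (v.ord (toPF k σ Q) + 1) (M + 2 * v.ord (toPF k σ Q))).toNat, ?_, ?_⟩
    · exact (le_max_left _ _).trans (Int.self_le_toNat _)
    · exact (le_max_right _ _).trans (Int.self_le_toNat _)
  have key : ∀ R : MvPowerSeries σ k, ∃ R' : MvPolynomial σ k,
      v.ge N (toPF k σ (φ (R' : MvPowerSeries σ k)) - toPF k σ R) := by
    intro R
    refine ⟨MvPowerSeries.truncTotal N (φ.symm R), ?_⟩
    have h1 := low_automorphism φ (low_sub_trunc N (φ.symm R))
    rw [map_sub, AlgEquiv.apply_symm_apply] at h1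
    have h2 := v.ge_neg (hv.low N _ h1)
    rwa [map_sub, neg_sub] at h2
  obtain ⟨P', hP'⟩ := key P
  obtain ⟨Q', hQ'⟩ := key Q
  obtain ⟨h3, h4⟩ := v.ord_add_eq hQF (v.ge_mono hN1 hQ')
  rw [add_sub_cancel] at h3 h4
  refine ⟨toFF k σ P' / toFF k σ Q', ?_⟩
  rw [map_div₀, hΦ, hΦ]
  set a := toPF k σ (φ (P' : MvPowerSeries σ k)) with ha
  set b := toPF k σ (φ (Q' : MvPowerSeries σ k)) with hb
  change v.ge M (a / b - toPF k σ P / toPF k σ Q)
  have h5 : a / b - toPF k σ P / toPF k σ Q =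
      ((a - toPF k σ P) * toPF k σ Q - toPF k σ P * (b - toPF k σ Q)) * (b * toPF k σ Q)⁻¹ := by
    field_simp
    ring
  rw [h5]
  have h6 : v.ge N ((a - toPF k σ P) * toPF k σ Q - toPF k σ P * (b - toPF k σ Q)) := by
    refine v.ge_sub ?_ ?_
    · have h7 := v.ge_mul hP' (hpos Q)
      rwa [add_zero] at h7
    · have h7 := v.ge_mul (hpos P) hQ'
      rwa [zero_add] at h7
  have h8 := v.ge_mul h6 (v.ge_self (b * toPF k σ Q)⁻¹)
  rw [v.ord_inv _ (mul_ne_zero h3 hQF), v.ord_mul h3 hQF, h4] at h8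
  exact v.ge_mono (by linarith) h8

theorem exists_pullback : ∃ E' : DivisorOver k σ, E'.CenterZero ∧
    ∀ f : FF k σ, f ≠ 0 → E'.ord f = v.ord (Φ f) := by
  obtain ⟨Φ₁, hΦ₁⟩ := exists_Phi (k := k) (σ := σ) AlgEquiv.refl
  have hne : ∀ f : FF k σ, f ≠ 0 → Φ f ≠ 0 := by
    intro f hf h
    exact hf (Φ.toRingHom.injective (h.trans (map_zero _).symm))
  have hne1 : ∀ f : FF k σ, f ≠ 0 → Φ₁ f ≠ 0 := by
    intro f hf h
    exact hf (Φ₁.toRingHom.injective (h.trans (map_zero _).symm))
  have hlow : ∀ (N : ℕ) (f : MvPolynomial σ k), f ≠ 0 → Low N (f : MvPowerSeries σ k) →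
      (N : ℤ) ≤ v.ord (Φ (toFF k σ f)) := by
    intro N f hf hl
    have h1 := hv.low N _ (low_automorphism φ hl)
    have h2 : toFF k σ f ≠ 0 := by
      intro h
      exact hf (IsFractionRing.injective (MvPolynomial σ k) (FF k σ) (h.trans (map_zero _).symm))
    rw [← hΦ] at h1
    exact h1.resolve_left (hne _ h2)
  have hord : ∀ h : FF k σ, h ≠ 0 → v.ord (Φ₁ h) = E.ord h := by
    intro h hh
    obtain ⟨P, Q, hQ, rfl⟩ := IsFractionRing.div_surjective (A := MvPolynomial σ k) h
    have hQ0 : Q ≠ 0 := nonZeroDivisors.ne_zero hQ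
    have hP0 : P ≠ 0 := by
      rintro rfl
      rw [map_zero, zero_div] at hh
      exact hh rfl
    have hinj := IsFractionRing.injective (MvPolynomial σ k) (FF k σ)
    have hPF : toFF k σ P ≠ 0 := fun h => hP0 (hinj (h.trans (map_zero _).symm))
    have hQF : toFF k σ Q ≠ 0 := fun h => hQ0 (hinj (h.trans (map_zero _).symm))
    change v.ord (Φ₁ (toFF k σ P / toFF k σ Q)) = E.ord (toFF k σ P / toFF k σ Q)
    rw [map_div₀, v.ord_div (hne1 _ hPF) (hne1 _ hQF), E.ord_div hPF hQF, hΦ₁, hΦ₁]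
    rw [← hv.poly P hP0, ← hv.poly Q hQ0]
    rfl
  let E' : DivisorOver k σ :=
    { ord := fun f => v.ord (Φ f)
      ord_mul' := by
        intro f g hf hg
        rw [map_mul, v.ord_mul (hne f hf) (hne g hg)]
      ord_add' := by
        intro f g hf hg hfg
        rw [map_add]
        refine v.ord_add' _ _ (hne f hf) (hne g hg) ?_
        rw [← map_add]
        exact hne _ hfg
      ord_const' := by
        intro c hc
        rw [AlgHom.commutes]
        exact v.ord_const' c hc
      ord_surj' := by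
        obtain ⟨h, hh, h1⟩ := E.ord_surj'
        obtain ⟨f, hf⟩ := approx E v hv φ Φ hΦ (Φ₁ h) 2
        have h2 : v.ge (v.ord (Φ₁ h) + 1) (Φ f - Φ₁ h) := by
          rw [hord h hh, h1]
          exact hf
        obtain ⟨h3, h4⟩ := v.ord_add_eq (hne1 h hh) h2
        rw [add_sub_cancel] at h3 h4
        refine ⟨f, ?_, ?_⟩
        · rintro rfl
          rw [map_zero] at h3
          exact h3 rfl
        · rw [h4, hord h hh, h1]
      ord_poly' := by
        intro p hp
        have h1 := hlow 0 p hp (fun m hm => absurd hm (Nat.not_lt_zero _))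
        simpa using h1
      residue' := by
        obtain ⟨g, hg⟩ := E.residue'
        choose g' hg' using fun i => approx E v hv φ Φ hΦ (Φ₁ (g i)) 1
        refine ⟨g', fun P hP => ?_⟩
        have h0 : ∀ i, v.ge 0 (Φ₁ (g i)) := by
          intro i
          obtain ⟨h1, h2⟩ := hg (X i) (X_ne_zero i)
          rw [aeval_X] at h1 h2
          right
          rw [hord _ h1, h2]
        have h1 := PsPull_aeval v (fun i => Φ₁ (g i)) (fun i => Φ (g' i)) h0 hg' P
        obtain ⟨h2, h3⟩ := hg P hP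
        have h4 : aeval (fun i => Φ₁ (g i)) P = Φ₁ (aeval g P) := by
          rw [← MvPolynomial.comp_aeval_apply]
        have h5 : aeval (fun i => Φ (g' i)) P = Φ (aeval g' P) := by
          rw [← MvPolynomial.comp_aeval_apply]
        rw [h4, h5] at h1
        have h6 : v.ge (v.ord (Φ₁ (aeval g P)) + 1) (Φ (aeval g' P) - Φ₁ (aeval g P)) := by
          rw [hord _ h2, h3]
          exact h1
        obtain ⟨h7, h8⟩ := v.ord_add_eq (hne1 _ h2) h6
        rw [add_sub_cancel] at h7 h8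
        refine ⟨?_, ?_⟩
        · intro h
          rw [h, map_zero] at h7
          exact h7 rfl
        · rw [h8, hord _ h2, h3] }
  refine ⟨E', ?_, fun f _ => rfl⟩
  intro i
  have h1 : Low 1 ((X i : MvPolynomial σ k) : MvPowerSeries σ k) := by
    intro m hm
    have hm0 : m = 0 := by
      rw [Nat.lt_one_iff] at hm
      exact (Finsupp.degree_eq_zero_iff m).1 hm
    rw [hm0, MvPolynomial.coe_X]
    simp
  have h2 := hlow 1 (X i) (X_ne_zero i) h1
  change 0 < v.ord (Φ (toFF k σ (X i)))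
  have h3 : ((1 : ℕ) : ℤ) = 1 := rfl
  rw [h3] at h2
  omega

end

end MLD
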