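import Pool.Agent.MLD.Q1
import Pool.Agent.MLD.FormDefs

/-!
PIECE MLD-Q2: from boundedness to the uniform ideal-adic semicontinuity, for classes of tuples.

`BddT 𝒯 lam`: as `Bdd`, for a class `𝒯` of `r`-tuples of ideals.
PROOF of `q1_fixedT`: as `q1_fixed` in `Q1.lean` (there `𝒯 a` is `∀ j, 𝒞 (a j)`).
PROOF of `q1_oneside`: the same estimates with one bounded divisor `E` for `a` only: `s` is so large
that `ℓ < lam j * s` for all `j` with `0 < lam j`. If `mld lam a < 0` then `E.aDisc lam a < 0` and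
`E.aDisc lam b < 0` (as in part (i) of `q1_fixed`), so `mld lam b < 0`. If `0 ≤ mld lam a` then `E` computes it,
`E.aDisc lam b = E.aDisc lam a`, so `mld lam b ≤ mld lam a ≤ mld lam b` (`hlow`).
-/

open MvPolynomial Filter

namespace MLD

universe u

variable {k : Type u} [Field k] {σ : Type} [Fintype σ] [DecidableEq σ]

/-- boundedness of divisors computing the minimal log discrepancy, for the class `𝒯` of tuples of
ideals and the exponents `lam` -/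
def BddT {r : ℕ} (𝒯 : (Fin r → Ideal (MvPolynomial σ k)) → Prop) (lam : Fin r → ℝ) : Prop :=
  ∃ ℓ : ℕ, ∀ a : Fin r → Ideal (MvPolynomial σ k), (∀ j, a j ≠ ⊥) → 𝒯 a →
    ∃ E : DivisorOver k σ, E.CenterZero ∧ E.logDisc ≤ ((ℓ : ℝ) : EReal) ∧
      (E.aDisc lam a < 0 ∨
        ∀ E' : DivisorOver k σ, E'.CenterZero → E.aDisc lam a ≤ E'.aDisc lam a)

/-- the comparison of the two minimal log discrepancies along one bounded divisor for `a` -/
theorem Q1T_one [Nonempty σ] {r : ℕ} (lam : Fin r → ℝ) (hlam : ∀ j, 0 ≤ lam j) {ℓ s : ℕ}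
    (hs : ∀ j, 0 < lam j → (ℓ : ℝ) < lam j * s) (a b : Fin r → Ideal (MvPolynomial σ k))
    (ha : ∀ j, a j ≠ ⊥) (hb : ∀ j, b j ≠ ⊥)
    (hab : ∀ j, a j ⊔ mm k σ ^ s = b j ⊔ mm k σ ^ s)
    (hE : ∃ E : DivisorOver k σ, E.CenterZero ∧ E.logDisc ≤ ((ℓ : ℝ) : EReal) ∧
      (E.aDisc lam a < 0 ∨
        ∀ E' : DivisorOver k σ, E'.CenterZero → E.aDisc lam a ≤ E'.aDisc lam a)) :
    (0 ≤ mld lam b → 0 ≤ mld lam a) ∧ (0 ≤ mld lam a → mld lam b ≤ mld lam a) := by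
  obtain ⟨E, hE, hl, hE2⟩ := hE
  have htr := Q1_transfer lam hlam hs a b ha hb hab E hE hl
  have hla := Q1_mld_le E hE lam a
  have hlb := Q1_mld_le E hE lam b
  constructor
  · intro h0
    by_contra hneg
    rw [not_le] at hneg
    have h1 : E.aDisc lam a < 0 := by
      rcases hE2 with h2 | h2
      · exact h2
      · exact lt_of_le_of_lt (Q1_le_mld lam a _ h2) hneg
    have h3 : E.aDisc lam b < 0 := by
      rcases htr with h4 | h4
      · rw [h4]; exact h1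
      · exact h4.2
    exact absurd (h0.trans hlb) (not_le.2 h3)
  · intro h0
    rcases htr with h4 | h4
    · rcases hE2 with h2 | h2
      · exact absurd (h0.trans hla) (not_le.2 h2)
      · calc mld lam b ≤ E.aDisc lam b := hlb
          _ = E.aDisc lam a := h4
          _ ≤ mld lam a := Q1_le_mld lam a _ h2
    · exact absurd (h0.trans hla) (not_le.2 h4.1)

theorem q1_fixedT [Nonempty σ] {r : ℕ} (𝒯 : (Fin r → Ideal (MvPolynomial σ k)) → Prop)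
    (lam : Fin r → ℝ) (hlam : ∀ j, 0 ≤ lam j) (hb : BddT 𝒯 lam) :
    ∃ s : ℕ, 1 ≤ s ∧ ∀ a b : Fin r → Ideal (MvPolynomial σ k), (∀ j, a j ≠ ⊥) → (∀ j, b j ≠ ⊥) →
      𝒯 a → 𝒯 b → (∀ j, a j ⊔ mm k σ ^ s = b j ⊔ mm k σ ^ s) →
      (0 ≤ mld lam a ↔ 0 ≤ mld lam b) ∧ (0 ≤ mld lam a → 0 ≤ mld lam b → mld lam a = mld lam b) := by
  obtain ⟨ℓ, hℓ⟩ := hb
  obtain ⟨s, hs1, hs⟩ := Q1_exists_s lam hlam ℓ
  refine ⟨s, hs1, ?_⟩
  intro a b ha hb hca hcb hab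
  have h1 := Q1T_one lam hlam hs a b ha hb hab (hℓ a ha hca)
  have h2 := Q1T_one lam hlam hs b a hb ha (fun j => (hab j).symm) (hℓ b hb hcb)
  exact ⟨⟨h2.1, h1.1⟩, fun h3 h4 => le_antisymm (h2.2 h4) (h1.2 h3)⟩

theorem q1_oneside [Nonempty σ] {r : ℕ} (lam : Fin r → ℝ) (hlam : ∀ j, 0 ≤ lam j) (ℓ s : ℕ)
    (hs : ∀ j, 0 < lam j → (ℓ : ℝ) < lam j * s) (a b : Fin r → Ideal (MvPolynomial σ k))
    (ha : ∀ j, a j ≠ ⊥) (hb : ∀ j, b j ≠ ⊥)
    (hab : ∀ j, a j ⊔ mm k σ ^ s = b j ⊔ mm k σ ^ s)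
    (hE : ∃ E : DivisorOver k σ, E.CenterZero ∧ E.logDisc ≤ ((ℓ : ℝ) : EReal) ∧
      (E.aDisc lam a < 0 ∨
        ∀ E' : DivisorOver k σ, E'.CenterZero → E.aDisc lam a ≤ E'.aDisc lam a))
    (hlow : 0 ≤ mld lam a → mld lam a ≤ mld lam b) :
    (0 ≤ mld lam a ↔ 0 ≤ mld lam b) ∧
      (0 ≤ mld lam a → 0 ≤ mld lam b → mld lam a = mld lam b) := by
  have h1 := Q1T_one lam hlam hs a b ha hb hab hE
  exact ⟨⟨fun h => h.trans (hlow h), h1.1⟩, fun h _ => le_antisymm (hlow h) (h1.2 h)⟩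

end MLD
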