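import Pool.Agent.MLD.FormDefs

/-!
Ideals of the coordinate ring of affine space which are generated, in suitable formal coordinates at
the origin, by elements of a given set of polynomials; polynomials which are homogeneous for several
weights; products of linear forms.
-/

open MvPolynomial

namespace MLD

universe u

variable {k : Type u} [Field k] {σ : Type}

/-- In the formal coordinates `φ(x_i)` the ideal `I` is generated by elements of `𝒢`: the ideal
`I k[[x]]` is generated by `φ(p)`, `p` in a subset of `𝒢`. -/
def FormalGen (𝒢 : Set (MvPolynomial σ k)) (φ : MvPowerSeries σ k ≃ₐ[k] MvPowerSeries σ k)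
    (I : Ideal (MvPolynomial σ k)) : Prop :=
  ∃ S : Set (MvPolynomial σ k), S ⊆ 𝒢 ∧
    hatI I = Ideal.span ((fun p : MvPolynomial σ k => φ (p : MvPowerSeries σ k)) '' S)

/-- `p` is homogeneous for each of the weights `W c`: for every `c`, all monomials of `p` have the
same `W c`-weight. -/
def MH [Fintype σ] {m : ℕ} (W : Fin (m + 1) → σ → ℤ) : Set (MvPolynomial σ k) :=
  {p | ∃ d : Fin (m + 1) → ℤ, ∀ e ∈ p.support, ∀ c, ∑ i, W c i * (e i : ℤ) = d c}

/-- products of linear forms -/
def LinProducts (k : Type u) [Field k] (σ : Type) : Set (MvPolynomial σ k) :=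
  {f | ∃ s : Multiset (MvPolynomial σ k), (∀ g ∈ s, g.IsHomogeneous 1) ∧ f = s.prod}

end MLD
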