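import Pool.Agent.MLD.Blk
import Pool.Agent.MLD.Q1T
import Pool.Agent.MLD.PsBase
import Pool.Agent.MLD.QhDefs

/-!
Definitions of phase 4: ideals generated by quasi-homogeneous elements in formal coordinates,
types with integer parameters in a polyhedron, toric charts.
-/

open MvPolynomial Filter

namespace MLD

universe u

section gen
variable {k : Type u} [Field k] {σ : Type}

/-- tuples of ideals generated by elements of `𝒢` -/
def GenBy (𝒢 : Set (MvPolynomial σ k)) {r : ℕ} (a : Fin r → Ideal (MvPolynomial σ k)) : Prop :=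
  ∀ j, ∃ S : Set (MvPolynomial σ k), S ⊆ 𝒢 ∧ a j = Ideal.span S

end gen

/-- A family of classes of weighted homogeneous polynomials, closed under products and, in the limit,
under truncation. -/
structure QClass (k : Type u) [Field k] (σ : Type) [Finite σ] where
  I : Type
  w : I → σ → ℕ
  P : I → Set (MvPolynomial σ k)
  hw : ∀ a i, 1 ≤ w a i
  one : ∀ a, (1 : MvPolynomial σ k) ∈ P a
  mul : ∀ a, ∀ p ∈ P a, ∀ q ∈ P a, p * q ∈ P a
  hom : ∀ a, ∀ p ∈ P a, ∃ d : ℕ, IsWeightedHomogeneous (w a) p d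
  trunc : ∀ seq : ℕ → I, ∃ a : I, ∀ S : ℕ, ∀ᶠ i in UU, ∀ g ∈ P (seq i),
    (MvPowerSeries.truncTotal S (g : MvPowerSeries σ k) : MvPolynomial σ k) = 0 ∨
      (MvPowerSeries.truncTotal S (g : MvPowerSeries σ k) : MvPolynomial σ k) ∈ P a

/-- A linear type with integer parameters `θ` in the polyhedron `lo κ ≤ cons κ · θ`. -/
structure ZType (Λ : Type) where
  P : Type
  [fP : Fintype P]
  K : Type
  [fK : Fintype K]
  cons : K → P → ℤ
  lo : K → ℤ
  A : P → ℤ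
  val : Λ → P → ℤ

attribute [instance] ZType.fP ZType.fK

/-- `θ` lies in the polyhedron -/
def ZType.Ok {Λ : Type} (τ : ZType Λ) (θ : τ.P → ℤ) : Prop :=
  ∀ κ, τ.lo κ ≤ ∑ c, τ.cons κ c * θ c
/-- log discrepancy of a type -/
def ZType.aa {Λ : Type} (τ : ZType Λ) (θ : τ.P → ℤ) : ℤ := ∑ c, τ.A c * θ c
/-- value of a type -/
def ZType.vv {Λ : Type} (τ : ZType Λ) (l : Λ) (θ : τ.P → ℤ) : ℤ := ∑ c, τ.val l c * θ c

/-- Global types: for all sequences of elements of `𝓕` with nonzero limits there are finitely many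
types which dominate all divisors centred at the origin and are realized. -/
def GT {k : Type u} [Field k] {σ : Type} [Fintype σ] [DecidableEq σ]
    (𝓕 : Set (MvPolynomial σ k)) : Prop :=
  ∀ (Λ : Type) [Finite Λ] (F : Λ → ℕ → MvPolynomial σ k), (∀ l i, F l i ∈ 𝓕) →
    (∀ l, LNZ (F l)) → ∃ (ι : Type) (_ : Finite ι) (τ : ι → ZType Λ),
      (∀ᶠ i in UU, ∀ E : DivisorOver k σ, E.CenterZero → ∃ (t : ι) (θ : (τ t).P → ℤ), (τ t).Ok θ ∧
        ((((τ t).aa θ : ℤ) : ℝ) : EReal) ≤ E.logDisc ∧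
        ∀ l, E.ord (toFF k σ (F l i)) ≤ (τ t).vv l θ) ∧
      ∀ (t : ι) (θ : (τ t).P → ℤ), (τ t).Ok θ → ∀ᶠ i in UU,
        ∃ (E : DivisorOver k σ) (g A₁ : ℕ), 0 < g ∧ E.CenterZero ∧
          E.logDisc ≤ (((A₁ : ℕ) : ℝ) : EReal) ∧ ((g * A₁ : ℕ) : ℤ) ≤ (τ t).aa θ ∧
          ∀ l, (τ t).vv l θ ≤ g * E.ord (toFF k σ (F l i))

/-- A toric chart: monomial coordinates `q_c = ∏ x_b ^ qe c b`, `z_i = ∏ x_b ^ ze i b` with
`x_b = ∏ q_c ^ e b c * ∏ z_i ^ ρ b i`. -/
structure TChart (σ C : Type) [Fintype σ] [Fintype C] [DecidableEq σ] [DecidableEq C] where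
  en : σ ≃ C ⊕ Fin 2
  e : σ → C → ℤ
  ρ : σ → Fin 2 → ℕ
  qe : C → σ → ℤ
  ze : Fin 2 → σ → ℤ
  h1 : ∀ b b', ∑ c, e b c * qe c b' + ∑ i, (ρ b i : ℤ) * ze i b' = if b = b' then 1 else 0
  h2 : ∀ c c', ∑ b, qe c b * e b c' = if c = c' then 1 else 0
  h3 : ∀ c i, ∑ b, qe c b * (ρ b i : ℤ) = 0
  h4 : ∀ i c, ∑ b, ze i b * e b c = 0
  h5 : ∀ i i', ∑ b, ze i b * (ρ b i' : ℤ) = if i = i' then 1 else 0

section chart
variable {σ C : Type} [Fintype σ] [Fintype C] [DecidableEq σ] [DecidableEq C] (ch : TChart σ C)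

/-- the polynomial of `F` in the chart, for `q = 1` -/
noncomputable def PP {k : Type u} [Field k] (F : MvPolynomial σ k) : MvPolynomial (Fin 2) k :=
  aeval (fun b => X 0 ^ ch.ρ b 0 * X 1 ^ ch.ρ b 1) F

/-- all monomials of `F` have `q`-degree `χ` -/
def QD {k : Type u} [Field k] (χ : C → ℤ) (F : MvPolynomial σ k) : Prop :=
  ∀ m ∈ F.support, ∀ c, ∑ b, (m b : ℤ) * ch.e b c = χ c

/-- the coordinate `q_c` -/
noncomputable def qq {K : Type u} [Field K] (x : σ → K) (c : C) : K := ∏ b, x b ^ ch.qe c b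

/-- the coordinate `z_i` -/
noncomputable def zz {K : Type u} [Field K] (x : σ → K) (i : Fin 2) : K := ∏ b, x b ^ ch.ze i b

/-- the exponents of the Jacobian -/
def jj (i : Fin 2) : ℕ := (∑ b, ch.ρ b i) - 1

end chart

/-- translation -/
noncomputable def tr {k : Type u} [Field k] (p : Fin 2 → k) :
    MvPolynomial (Fin 2) k →ₐ[k] MvPolynomial (Fin 2) k := aeval fun c => X c + C (p c)

end MLD
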