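import Pool.Agent.MLD.Qc
import Pool.Agent.MLD.FormBdd

/-!
PIECE MLD-C02: the upper estimate.

PROOF. As in `FormBdd.lean` (`FormBdd_core`; its private lemmas `FormBdd_ord1`, `FormBdd_le` may be copied).
Let `E` be the divisor of `hE`.  `transport E _ ℓ _ φ.symm` gives `v, E'` with `Hat E v`, `E'.CenterZero`,
`E'.logDisc ≤ E.logDisc`, `E'.ord f = v.ord (φ.symm f)`.  For `0 < lam j` and `N ≤ s₀`:
`N ≤ E'.ordI (c j) ↔ N ≤ E.ordI (A j)`: (→) for `p ∈ A j` take `β ∈ hatI (c j)` from `h1`, then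
`v.ge N (φ.symm β)` (`ordI_formal E' v φ.symm`, or span induction) and
`φ.symm (φ p - β) = p - φ.symm β` is `Low s₀` (`low_automorphism`), so `v.ge N p` (`ge_congr_low`), `Hat.poly`;
(←) for `f ∈ c j` take `q` from `h2`; `v.ge N q` as `q ∈ hatI (A j)`, so `v.ge N (φ.symm f)`.
Hence (`FormBdd_le`) `E'.aDisc lam c ≤ E.aDisc lam A ∨ E'.aDisc lam c < 0` (for `lam j = 0` nothing is
needed).  If `0 ≤ mld lam c` then `0 ≤ E'.aDisc lam c ≤ E.aDisc lam A`; so `E` computes `mld lam A`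
(`hE`), which is `≥ 0`, and `mld lam c ≤ E'.aDisc lam c ≤ E.aDisc lam A ≤ mld lam A`
(`Q1_mld_le`, `Q1_le_mld`).
-/

open MvPolynomial Filter

namespace MLD

universe u

variable {k : Type u} [Field k] [CharZero k] {σ : Type} [Fintype σ] [DecidableEq σ] [Nonempty σ]

private theorem QcUp_eq {x y T : ℕ} (h : ∀ N ≤ T, N ≤ x ↔ N ≤ y) (hx : x < T) : y = x := by
  have h1 := (h x hx.le).1 le_rfl
  have h2 : ¬ (x + 1 ≤ y) := fun h3 => by
    have := (h (x + 1) hx).2 h3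
    omega
  omega

omit [CharZero k] [DecidableEq σ] [Nonempty σ] in
private theorem QcUp_hpos {E : DivisorOver k σ} {v : OrdFn k (PF k σ)} (hv : Hat E v)
    (g : MvPowerSeries σ k) : v.ge 0 (toPF k σ g) := by
  have h := hv.low 0 g (fun m hm => absurd hm (Nat.not_lt_zero _))
  exact_mod_cast h

omit [CharZero k] [Fintype σ] [DecidableEq σ] [Nonempty σ] in
private theorem QcUp_map_refl (I : Ideal (MvPowerSeries σ k)) :
    I.map ((AlgEquiv.refl : MvPowerSeries σ k ≃ₐ[k] MvPowerSeries σ k) :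
      MvPowerSeries σ k →+* MvPowerSeries σ k) = I := by
  have h : ((AlgEquiv.refl : MvPowerSeries σ k ≃ₐ[k] MvPowerSeries σ k) :
      MvPowerSeries σ k →+* MvPowerSeries σ k) = RingHom.id _ := by
    ext x
    rfl
  rw [h, Ideal.map_id]

omit [CharZero k] [Nonempty σ] in
private theorem QcUp_le {r : ℕ} (lam : Fin r → ℝ) (hlam : ∀ j, 0 ≤ lam j) {ℓ T : ℕ}
    (hT : ∀ j, 0 < lam j → (ℓ : ℝ) < lam j * T) (E E' : DivisorOver k σ)
    (hl : E.logDisc ≤ ((ℓ : ℝ) : EReal)) (hll : E'.logDisc ≤ E.logDisc)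
    (a c : Fin r → Ideal (MvPolynomial σ k))
    (h : ∀ j, 0 < lam j → ∀ N ≤ T, N ≤ E'.ordI (a j) ↔ N ≤ E.ordI (c j)) :
    E'.aDisc lam a ≤ E.aDisc lam c ∨ E'.aDisc lam a < 0 := by
  obtain ⟨B, _, hBl, hB⟩ := logDisc_real E ℓ hl
  obtain ⟨B', _, hBl', hB'⟩ := logDisc_real E' B (hB ▸ hll)
  rw [Q1_aDisc E lam c hB, Q1_aDisc E' lam a hB']
  by_cases hbig : ∃ j, 0 < lam j ∧ T ≤ E'.ordI (a j)
  · right
    obtain ⟨j, hj, hja⟩ := hbig
    have h1 : lam j * T ≤ lam j * (E'.ordI (a j) : ℝ) :=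
      mul_le_mul_of_nonneg_left (by exact_mod_cast hja) (hlam j)
    have h2 : lam j * (E'.ordI (a j) : ℝ) ≤ ∑ j, lam j * (E'.ordI (a j) : ℝ) :=
      Finset.single_le_sum (f := fun j => lam j * (E'.ordI (a j) : ℝ))
        (fun i _ => mul_nonneg (hlam i) (Nat.cast_nonneg _)) (Finset.mem_univ j)
    have h3 := hT j hj
    have h4 : B' - ∑ j, lam j * (E'.ordI (a j) : ℝ) < 0 := by linarith
    exact_mod_cast h4
  · left
    push Not at hbig
    have h1 : ∑ j, lam j * (E'.ordI (a j) : ℝ) = ∑ j, lam j * (E.ordI (c j) : ℝ) := by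
      refine Finset.sum_congr rfl fun j _ => ?_
      by_cases hj : 0 < lam j
      · rw [QcUp_eq (h j hj) (hbig j hj)]
      · have h0 : lam j = 0 := le_antisymm (not_lt.1 hj) (hlam j)
        rw [h0, zero_mul, zero_mul]
    rw [h1]
    have h2 : B' - ∑ j, lam j * (E.ordI (c j) : ℝ) ≤ B - ∑ j, lam j * (E.ordI (c j) : ℝ) := by
      linarith
    exact_mod_cast h2

theorem qh_up {r : ℕ} (lam : Fin r → ℝ) (hlam : ∀ j, 0 ≤ lam j) (ℓ s₀ : ℕ)
    (hs₀ : ∀ j, 0 < lam j → (ℓ : ℝ) < lam j * s₀)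
    (c : Fin r → Ideal (MvPolynomial σ k)) (hc : ∀ j, c j ≠ ⊥)
    (φ : MvPowerSeries σ k ≃ₐ[k] MvPowerSeries σ k) (A : Fin r → Ideal (MvPolynomial σ k))
    (hA : ∀ j, A j ≠ ⊥)
    (h1 : ∀ j, 0 < lam j → ∀ p ∈ A j, ∃ β ∈ hatI (c j),
      Low s₀ (φ (p : MvPowerSeries σ k) - β))
    (h2 : ∀ j, 0 < lam j → ∀ f ∈ c j, ∃ q ∈ hatI (A j),
      Low s₀ (φ.symm (f : MvPowerSeries σ k) - q))
    (hE : ∃ E : DivisorOver k σ, E.CenterZero ∧ E.logDisc ≤ ((ℓ : ℝ) : EReal) ∧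
      (E.aDisc lam A < 0 ∨
        ∀ E' : DivisorOver k σ, E'.CenterZero → E.aDisc lam A ≤ E'.aDisc lam A)) :
    0 ≤ mld lam c → 0 ≤ mld lam A ∧ mld lam c ≤ mld lam A := by
  intro hc0
  obtain ⟨E, hEc, hEl, hE2⟩ := hE
  obtain ⟨v, E', hv, hE'c, hE'l, hE'o⟩ := transport E hEc ℓ hEl φ.symm
  have hpos := QcUp_hpos hv
  have key : ∀ j, 0 < lam j → ∀ N ≤ s₀, N ≤ E'.ordI (c j) ↔ N ≤ E.ordI (A j) := by
    intro j hj N hN
    have hrefl : ∀ f : MvPolynomial σ k, f ≠ 0 → E.ord (toFF k σ f) =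
        v.ord (toPF k σ ((AlgEquiv.refl : MvPowerSeries σ k ≃ₐ[k] MvPowerSeries σ k)
          (f : MvPowerSeries σ k))) := fun f hf => (hv.poly f hf).symm
    have k1 := ordI_formal E' v φ.symm hE'o hpos (c j) (hc j)
      ((hatI (c j)).map (φ.symm : MvPowerSeries σ k →+* MvPowerSeries σ k) :
        Set (MvPowerSeries σ k)) (Ideal.span_eq _).symm N
    have k2 := ordI_formal E' v φ.symm hE'o hpos (c j) (hc j)
      ((φ.symm : MvPowerSeries σ k →+* MvPowerSeries σ k) ''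
        ((MvPolynomial.coeToMvPowerSeries.ringHom (σ := σ) (R := k)) '' (c j)))
      (by
        have e0 : hatI (c j) = Ideal.span
            ((MvPolynomial.coeToMvPowerSeries.ringHom (σ := σ) (R := k)) '' (c j)) := rfl
        rw [e0, Ideal.map_span]) N
    have k3 := ordI_formal E v AlgEquiv.refl hrefl hpos (A j) (hA j)
      (hatI (A j) : Set (MvPowerSeries σ k))
      (by rw [QcUp_map_refl]; exact (Ideal.span_eq _).symm) N
    have k4 := ordI_formal E v AlgEquiv.refl hrefl hpos (A j) (hA j)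
      ((MvPolynomial.coeToMvPowerSeries.ringHom (σ := σ) (R := k)) '' (A j))
      (by rw [QcUp_map_refl]; rfl) N
    constructor
    · intro h
      rw [k4]
      rintro _ ⟨p, hp, rfl⟩
      obtain ⟨β, hβ, hlow⟩ := h1 j hj p hp
      have e1 : v.ge N (toPF k σ (φ.symm β)) := k1.1 h _
        (Ideal.mem_map_of_mem (φ.symm : MvPowerSeries σ k →+* MvPowerSeries σ k) hβ)
      have e2 := low_automorphism φ.symm hlow
      rw [map_sub, AlgEquiv.symm_apply_apply] at e2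
      exact (ge_congr_low hv hN e2).2 e1
    · intro h
      rw [k2]
      rintro _ ⟨_, ⟨f, hf, rfl⟩, rfl⟩
      obtain ⟨q, hq, hlow⟩ := h2 j hj f hf
      exact (ge_congr_low hv hN hlow).2 (k3.1 h q hq)
  have hcmp := QcUp_le lam hlam hs₀ E E' hEl hE'l c A key
  have m1 : mld lam c ≤ E'.aDisc lam c := Q1_mld_le E' hE'c lam c
  have m2 : E'.aDisc lam c ≤ E.aDisc lam A :=
    hcmp.resolve_right (not_lt.2 (hc0.trans m1))
  have m3 : 0 ≤ E.aDisc lam A := (hc0.trans m1).trans m2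
  have m4 : E.aDisc lam A ≤ mld lam A :=
    Q1_le_mld lam A _ (hE2.resolve_left (not_lt.2 m3))
  exact ⟨m3.trans m4, (m1.trans m2).trans m4⟩

end MLD
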