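import Pool.Agent.MLD.QcLow
import Pool.Agent.MLD.QcUp
import Pool.Agent.MLD.ExDiv
import Pool.Agent.MLD.Core

/-!
PIECE MLD-C03: the comparison of `a` with arbitrary `b`.

PROOF. Case 1: `Ideal.span (P j₀) = ⊥` for some `j₀` with `0 < lam j₀`.  Then by `h2` every `f ∈ a j₀` has
`Low s₀ (φ.symm f)`, so `Low s₀ f` (`low_automorphism`), so `a j₀ ≤ mm ^ s₀` (`mem_mm_pow_of_low`) and then
`b j₀ ≤ a j₀ ⊔ mm ^ S ≤ mm ^ s₀` (`S ≥ s₀`).  For the divisor `E` of the ordinary blow-up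
(`exists_divisor X (fun _ => 1)` as in `Core.lean`: `g, A0` with `g * A0 = card σ`, `g = 1`; or only
`E.logDisc ≤ card σ` and `CenterZero`) and `c = a, b`: `s₀ ≤ E.ordI (c j₀)` (`ordI_mm_pow`, `ordI_mono`),
`E.aDisc lam c ≤ card σ - lam j₀ * s₀ < 0` by `hn`.  So `mld lam a < 0`, `mld lam b < 0` and both
statements hold.
Case 2: otherwise put `P' j := P j` if `0 < lam j`, `P' j := {1}` if `lam j = 0` (then
`Ideal.span (P' j) = ⊤`), `A j := Ideal.span (P' j) ≠ ⊥`; `GenBy 𝒢 A`.  `1` is weighted homogeneous of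
degree `0 < S`.  For `c = a` and `c = b`:
(h1') for `0 < lam j`, `p ∈ P j` there is `β ∈ hatI (c j)` with `Low S (φ p - β)`: for `a` this is `h1`; for
`b`: `hatI (a j) ≤ hatI (b j ⊔ mm ^ S) = hatI (b j) ⊔ hatI (mm ^ S)` (`Ideal.map_sup`), and elements of
`hatI (mm ^ S)` are `Low S` (`Ideal.map_pow`; `Low.mul`; or `PsBase`/`FormOrd`), so
`β = β' + γ`, `β' ∈ hatI (b j)`, `Low S γ`.
(h1'') the same for all `p ∈ A j` with `s₀`: span induction, `Low.mul_left`, `φ` is an algebra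
homomorphism.
(h2') for `0 < lam j`, `f ∈ c j` there is `q ∈ hatI (A j)` with `Low s₀ (φ.symm f - q)`: for `a` this is
`h2` (`hatI (Ideal.span P) = Ideal.span (coe '' P)`, `Ideal.map_span`); for `b`: `f = f₁ + f₂`, `f₁ ∈ a j`,
`f₂ ∈ mm ^ S`, so `Low s₀ f₂`, `Low s₀ (φ.symm f₂)` (`low_automorphism`).
`qh_low w hw lam hlam S c _ φ P'` gives `0 ≤ mld lam A → mld lam A ≤ mld lam c`, and `qh_up` gives
`0 ≤ mld lam c → 0 ≤ mld lam A ∧ mld lam c ≤ mld lam A`.  So `0 ≤ mld lam c ↔ 0 ≤ mld lam A` and then they are equal,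
for `c = a` and `c = b`.
-/

open MvPolynomial Filter

namespace MLD

universe u

variable {k : Type u} [Field k] [CharZero k] {σ : Type} [Fintype σ] [DecidableEq σ] [Nonempty σ]

omit [CharZero k] [Fintype σ] [DecidableEq σ] [Nonempty σ] in
private theorem QcCore_low_mm (S : ℕ) {f : MvPolynomial σ k} (hf : f ∈ mm k σ ^ S) :
    Low S (f : MvPowerSeries σ k) := by
  intro m hm
  rw [MvPolynomial.coeff_coe]
  exact (mem_pow_idealOfVars_iff' S f).1 hf m hm

omit [CharZero k] [Fintype σ] [DecidableEq σ] [Nonempty σ] in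
private theorem QcCore_low_hat (S : ℕ) {g : MvPowerSeries σ k} (hg : g ∈ hatI (mm k σ ^ S)) :
    Low S g := by
  have h0 : hatI (mm k σ ^ S) = Ideal.span
      ((MvPolynomial.coeToMvPowerSeries.ringHom (σ := σ) (R := k)) ''
        (mm k σ ^ S : Ideal (MvPolynomial σ k))) := rfl
  rw [h0] at hg
  refine Submodule.span_induction ?_ ?_ ?_ ?_ hg
  · rintro _ ⟨f, hf, rfl⟩
    exact QcCore_low_mm S hf
  · exact low_zero S
  · intro x y _ _ hx hy
    exact hx.add hy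
  · intro a x _ hx
    rw [smul_eq_mul]
    exact Low.mul_left a hx

omit [CharZero k] [Fintype σ] [DecidableEq σ] [Nonempty σ] in
/-- the generators of `A` are approximated by elements of `hatI c` hence all elements -/
private theorem QcCore_span {N : ℕ} (φ : MvPowerSeries σ k ≃ₐ[k] MvPowerSeries σ k)
    (c : Ideal (MvPolynomial σ k)) (P : Set (MvPolynomial σ k))
    (h : ∀ p ∈ P, ∃ β ∈ hatI c, Low N (φ (p : MvPowerSeries σ k) - β)) :
    ∀ p ∈ Ideal.span P, ∃ β ∈ hatI c, Low N (φ (p : MvPowerSeries σ k) - β) := by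
  intro p hp
  refine Submodule.span_induction ?_ ?_ ?_ ?_ hp
  · exact h
  · refine ⟨0, Ideal.zero_mem _, ?_⟩
    have h1 : ((0 : MvPolynomial σ k) : MvPowerSeries σ k) = 0 :=
      map_zero (MvPolynomial.coeToMvPowerSeries.ringHom (σ := σ) (R := k))
    rw [h1, map_zero, sub_zero]
    exact low_zero N
  · rintro x y _ _ ⟨β, hβ, h1⟩ ⟨γ, hγ, h2⟩
    refine ⟨β + γ, Ideal.add_mem _ hβ hγ, ?_⟩
    have h3 : ((x + y : MvPolynomial σ k) : MvPowerSeries σ k) = (x : MvPowerSeries σ k) + y :=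
      map_add (MvPolynomial.coeToMvPowerSeries.ringHom (σ := σ) (R := k)) _ _
    rw [h3, map_add]
    have h4 : φ (x : MvPowerSeries σ k) + φ (y : MvPowerSeries σ k) - (β + γ) =
        (φ (x : MvPowerSeries σ k) - β) + (φ (y : MvPowerSeries σ k) - γ) := by ring
    rw [h4]
    exact h1.add h2
  · rintro a x _ ⟨β, hβ, h1⟩
    refine ⟨φ (a : MvPowerSeries σ k) * β, Ideal.mul_mem_left _ _ hβ, ?_⟩
    have h3 : ((a • x : MvPolynomial σ k) : MvPowerSeries σ k) = (a : MvPowerSeries σ k) * x := by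
      rw [smul_eq_mul]
      exact map_mul (MvPolynomial.coeToMvPowerSeries.ringHom (σ := σ) (R := k)) _ _
    rw [h3, map_mul]
    have h4 : φ (a : MvPowerSeries σ k) * φ (x : MvPowerSeries σ k) -
        φ (a : MvPowerSeries σ k) * β =
        φ (a : MvPowerSeries σ k) * (φ (x : MvPowerSeries σ k) - β) := by ring
    rw [h4]
    exact Low.mul_left _ h1

/-- case 1: one of the ideals is small -/
private theorem QcCore_neg {r : ℕ} (lam : Fin r → ℝ) (hlam : ∀ j, 0 ≤ lam j) (s₀ : ℕ)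
    (c : Fin r → Ideal (MvPolynomial σ k)) (hc : ∀ j, c j ≠ ⊥) (j₀ : Fin r) (hj₀ : 0 < lam j₀)
    (hn : (Fintype.card σ : ℝ) < lam j₀ * s₀) (hle : c j₀ ≤ mm k σ ^ s₀) : mld lam c < 0 := by
  obtain ⟨E, g, A0, hg, hE, hlog, hgA, hord⟩ := exists_divisor (k := k) (σ := σ) X
    (fun _ => 1) bir_X wo_X_one (by rw [jacP_X]; exact one_ne_zero)
  rw [jacP_X, wo_one, add_zero, Finset.sum_const, smul_eq_mul, mul_one, Finset.card_univ] at hgA
  have hgA' : g * A0 = Fintype.card σ := by exact_mod_cast hgA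
  have hA0 : A0 ≤ Fintype.card σ := by
    rw [← hgA']
    exact Nat.le_mul_of_pos_left _ hg
  have hs : s₀ ≤ E.ordI (c j₀) :=
    (ordI_mm_pow E hE s₀).trans (ordI_mono E (hc j₀) hle)
  have h1 := (Q1_mld_le E hE lam c).trans (aDisc_le E lam hlam c A0 hlog
    (fun j => (E.ordI (c j) : ℝ)) (fun _ _ => le_rfl))
  refine lt_of_le_of_lt h1 ?_
  have h2 : lam j₀ * (E.ordI (c j₀) : ℝ) ≤ ∑ j, lam j * (E.ordI (c j) : ℝ) :=
    Finset.single_le_sum (f := fun j => lam j * (E.ordI (c j) : ℝ))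
      (fun i _ => mul_nonneg (hlam i) (Nat.cast_nonneg _)) (Finset.mem_univ j₀)
  have h3 : lam j₀ * (s₀ : ℝ) ≤ lam j₀ * (E.ordI (c j₀) : ℝ) :=
    mul_le_mul_of_nonneg_left (by exact_mod_cast hs) hj₀.le
  have h4 : (A0 : ℝ) ≤ (Fintype.card σ : ℝ) := by exact_mod_cast hA0
  have h5 : (A0 : ℝ) - ∑ j, lam j * (E.ordI (c j) : ℝ) < 0 := by linarith
  exact_mod_cast h5

theorem qh_core (w : σ → ℕ) (hw : ∀ i, 1 ≤ w i) (𝒢 : Set (MvPolynomial σ k)) (hone : 1 ∈ 𝒢)
    {r : ℕ} (lam : Fin r → ℝ) (hlam : ∀ j, 0 ≤ lam j) (ℓ : ℕ)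
    (hℓ : ∀ A : Fin r → Ideal (MvPolynomial σ k), (∀ j, A j ≠ ⊥) → GenBy 𝒢 A →
      ∃ E : DivisorOver k σ, E.CenterZero ∧ E.logDisc ≤ ((ℓ : ℝ) : EReal) ∧
        (E.aDisc lam A < 0 ∨
          ∀ E' : DivisorOver k σ, E'.CenterZero → E.aDisc lam A ≤ E'.aDisc lam A))
    (s₀ S : ℕ) (hs₀ : ∀ j, 0 < lam j → (ℓ : ℝ) < lam j * s₀)
    (hn : ∀ j, 0 < lam j → (Fintype.card σ : ℝ) < lam j * s₀) (hS : s₀ ≤ S) (hS0 : 0 < S)
    (a b : Fin r → Ideal (MvPolynomial σ k)) (ha : ∀ j, a j ≠ ⊥) (hb : ∀ j, b j ≠ ⊥)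
    (hab : ∀ j, a j ⊔ mm k σ ^ S = b j ⊔ mm k σ ^ S)
    (φ : MvPowerSeries σ k ≃ₐ[k] MvPowerSeries σ k) (P : Fin r → Set (MvPolynomial σ k))
    (hPG : ∀ j, P j ⊆ 𝒢) (hPw : ∀ j, ∀ p ∈ P j, ∃ d : ℕ, d < S ∧ IsWeightedHomogeneous w p d)
    (h1 : ∀ j, ∀ p ∈ P j, ∃ β ∈ hatI (a j), Low S (φ (p : MvPowerSeries σ k) - β))
    (h2 : ∀ j, ∀ f ∈ a j,
      ∃ q ∈ Ideal.span ((fun p : MvPolynomial σ k => (p : MvPowerSeries σ k)) '' P j),
        Low s₀ (φ.symm (f : MvPowerSeries σ k) - q)) :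
    (0 ≤ mld lam a ↔ 0 ≤ mld lam b) ∧
      (0 ≤ mld lam a → 0 ≤ mld lam b → mld lam a = mld lam b) := by
  classical
  have hb1 : ∀ j, b j ≤ a j ⊔ mm k σ ^ S := fun j => by rw [hab j]; exact le_sup_left
  have ha1 : ∀ j, a j ≤ b j ⊔ mm k σ ^ S := fun j => by rw [← hab j]; exact le_sup_left
  by_cases hcase : ∃ j₀, 0 < lam j₀ ∧ Ideal.span (P j₀) = ⊥
  · obtain ⟨j₀, hj₀, hbot⟩ := hcase
    have hle : a j₀ ≤ mm k σ ^ s₀ := by
      intro f hf
      obtain ⟨q, hq, hlow⟩ := h2 j₀ f hf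
      apply mem_mm_pow_of_low
      have hq0 : q = 0 := by
        have h3 : Ideal.span ((fun p : MvPolynomial σ k => (p : MvPowerSeries σ k)) '' P j₀) =
            hatI (Ideal.span (P j₀)) := by
          unfold hatI
          rw [Ideal.map_span]
          rfl
        rw [h3, hbot] at hq
        unfold hatI at hq
        rw [Ideal.map_bot, Ideal.mem_bot] at hq
        exact hq
      rw [hq0, sub_zero] at hlow
      have h4 := low_automorphism φ hlow
      rwa [AlgEquiv.apply_symm_apply] at h4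
    have hmS : mm k σ ^ S ≤ mm k σ ^ s₀ := Ideal.pow_le_pow_right hS
    have hle' : b j₀ ≤ mm k σ ^ s₀ := (hb1 j₀).trans (sup_le hle hmS)
    have hA := QcCore_neg lam hlam s₀ a ha j₀ hj₀ (hn j₀ hj₀) hle
    have hB := QcCore_neg lam hlam s₀ b hb j₀ hj₀ (hn j₀ hj₀) hle'
    refine ⟨⟨fun h => absurd h (not_le.2 hA), fun h => absurd h (not_le.2 hB)⟩,
      fun h => absurd h (not_le.2 hA)⟩
  · have hcase' : ∀ j, 0 < lam j → Ideal.span (P j) ≠ ⊥ := fun j hj h => hcase ⟨j, hj, h⟩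
    let P' : Fin r → Set (MvPolynomial σ k) := fun j => if 0 < lam j then P j else {1}
    have hP'pos : ∀ j, 0 < lam j → P' j = P j := fun j hj => if_pos hj
    have hP'neg : ∀ j, ¬ 0 < lam j → P' j = {1} := fun j hj => if_neg hj
    have hP'0 : ∀ j, Ideal.span (P' j) ≠ ⊥ := by
      intro j
      by_cases hj : 0 < lam j
      · rw [hP'pos j hj]
        exact hcase' j hj
      · rw [hP'neg j hj, Ideal.span_singleton_one]
        exact top_ne_bot
    have hGen : GenBy 𝒢 (fun j => Ideal.span (P' j)) := by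
      intro j
      refine ⟨P' j, ?_, rfl⟩
      by_cases hj : 0 < lam j
      · rw [hP'pos j hj]
        exact hPG j
      · rw [hP'neg j hj, Set.singleton_subset_iff]
        exact hone
    have hP'w : ∀ j, ∀ p ∈ P' j, ∃ d : ℕ, d < S ∧ IsWeightedHomogeneous w p d := by
      intro j p hp
      by_cases hj : 0 < lam j
      · rw [hP'pos j hj] at hp
        exact hPw j p hp
      · rw [hP'neg j hj, Set.mem_singleton_iff] at hp
        rw [hp]
        exact ⟨0, hS0, isWeightedHomogeneous_one k w⟩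
    have hE := hℓ (fun j => Ideal.span (P' j)) hP'0 hGen
    -- the comparison for one tuple
    have key : ∀ c : Fin r → Ideal (MvPolynomial σ k), (∀ j, c j ≠ ⊥) →
        (∀ j, c j ≤ a j ⊔ mm k σ ^ S) → (∀ j, a j ≤ c j ⊔ mm k σ ^ S) →
        (0 ≤ mld lam (fun j => Ideal.span (P' j)) →
          mld lam (fun j => Ideal.span (P' j)) ≤ mld lam c) ∧
        (0 ≤ mld lam c → 0 ≤ mld lam (fun j => Ideal.span (P' j)) ∧
          mld lam c ≤ mld lam (fun j => Ideal.span (P' j))) := by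
      intro c hc hca hac
      have h1' : ∀ j, 0 < lam j → ∀ p ∈ P' j, ∃ β ∈ hatI (c j),
          Low S (φ (p : MvPowerSeries σ k) - β) := by
        intro j hj p hp
        rw [hP'pos j hj] at hp
        obtain ⟨β, hβ, hlow⟩ := h1 j p hp
        have h3 : hatI (a j) ≤ hatI (c j) ⊔ hatI (mm k σ ^ S) := by
          unfold hatI
          rw [← Ideal.map_sup]
          exact Ideal.map_mono (hac j)
        obtain ⟨β', hβ', γ, hγ, hsum⟩ := Submodule.mem_sup.1 (h3 hβ)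
        refine ⟨β', hβ', ?_⟩
        have h4 : φ (p : MvPowerSeries σ k) - β' = (φ (p : MvPowerSeries σ k) - β) + γ := by
          rw [← hsum]
          ring
        rw [h4]
        exact hlow.add (QcCore_low_hat S hγ)
      have h2' : ∀ j, 0 < lam j → ∀ f ∈ c j, ∃ q ∈ hatI (Ideal.span (P' j)),
          Low s₀ (φ.symm (f : MvPowerSeries σ k) - q) := by
        intro j hj f hf
        obtain ⟨f₁, hf₁, f₂, hf₂, hsum⟩ := Submodule.mem_sup.1 (hca j hf)
        obtain ⟨q, hq, hlow⟩ := h2 j f₁ hf₁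
        refine ⟨q, ?_, ?_⟩
        · rw [hP'pos j hj]
          unfold hatI
          rw [Ideal.map_span]
          exact hq
        · have h4 : (f : MvPowerSeries σ k) = (f₁ : MvPowerSeries σ k) + f₂ := by
            rw [← hsum]
            exact map_add (MvPolynomial.coeToMvPowerSeries.ringHom (σ := σ) (R := k)) _ _
          rw [h4, map_add]
          have h5 : φ.symm (f₁ : MvPowerSeries σ k) + φ.symm (f₂ : MvPowerSeries σ k) - q =
              (φ.symm (f₁ : MvPowerSeries σ k) - q) + φ.symm (f₂ : MvPowerSeries σ k) := by ring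
          rw [h5]
          exact hlow.add (low_automorphism φ.symm ((QcCore_low_mm S hf₂).mono hS))
      refine ⟨fun h0 => qh_low w hw lam hlam S c hc φ P' hP'0 hP'w h1' h0, ?_⟩
      refine qh_up lam hlam ℓ s₀ hs₀ c hc φ (fun j => Ideal.span (P' j)) hP'0 ?_ h2' hE
      intro j hj p hp
      refine QcCore_span φ (c j) (P' j) ?_ p hp
      intro p hp
      obtain ⟨β, hβ, hlow⟩ := h1' j hj p hp
      exact ⟨β, hβ, hlow.mono hS⟩
    obtain ⟨a1, a2⟩ := key a ha (fun j => le_sup_left) (fun j => le_sup_left)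
    obtain ⟨b1, b2⟩ := key b hb hb1 ha1
    refine ⟨⟨fun h => ?_, fun h => ?_⟩, fun h h' => ?_⟩
    · exact (a2 h).1.trans (b1 (a2 h).1)
    · exact (b2 h).1.trans (a1 (b2 h).1)
    · exact le_antisymm ((a2 h).2.trans (b1 (a2 h).1)) ((b2 h').2.trans (a1 (b2 h').1))

end MLD
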