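import Pool.Agent.MLD.Qc

/-!
PIECE MLD-C25: the multihomogeneous polynomials form a `QClass` (the weights may vary).

PROOF. `I := {W : Fin (m+1) → Fin n → ℤ // LinearIndependent ℤ W ∧ ∀ i, 0 < W 0 i}`,
`w W i := (W.1 0 i).toNat`, `P W := MH W.1`.  `one`, `mul`: support of a product
(`MvPolynomial.support_mul`/`mem_support` of a product comes from a sum of exponents).  `hom`: `d 0 ≥ 0` if the
polynomial is not zero, `Finsupp.weight` as a sum.
`trunc`: let `seq : ℕ → I`.  `Λ := {v : Fin n → ℤ | ∀ᶠ i in UU, ∀ c, ∑ j, (seq i).1 c j * v j = 0}` is a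
submodule of `Fin n → ℤ`, finitely generated (`IsNoetherian ℤ (Fin n → ℤ)`), so for almost all `i` every
`v ∈ Λ` satisfies `∑ j, (seq i).1 c j * v j = 0` for all `c`; choose such an `i₀` and `a := seq i₀`.
Given `S`: there are finitely many pairs of exponents `e, e'` of degree `< S`; for each pair either
`e - e' ∈ Λ`, or (ultrafilter) for almost all `i` not all `∑ (seq i).1 c j * (e j - e' j)` vanish.  So for almost all
`i`: for all `e, e'` of degree `< S`, if `∑ (seq i).1 c j * (e j - e' j) = 0` for all `c` then `e - e' ∈ Λ`, hence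
the same holds for `seq i₀`.  So the truncation of `g ∈ MH (seq i)` (exponents in the support of `g` of degree `< S`,
`MvPowerSeries.coeff_truncTotal_eq_ite`) is in `MH (seq i₀)` (`d` := the weights of one exponent of the support).
-/

open MvPolynomial Filter

namespace MLD

universe u

private abbrev QcMHI (n m : ℕ) : Type :=
  {W : Fin (m + 1) → Fin n → ℤ // LinearIndependent ℤ W ∧ ∀ i, 0 < W 0 i}

/-- the vectors orthogonal to the weights of almost all members of the sequence -/
private def QcMHL (n m : ℕ) (seq : ℕ → QcMHI n m) : Submodule ℤ (Fin n → ℤ) where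
  carrier := {v | ∀ᶠ i in UU, ∀ c, ∑ j, (seq i).1 c j * v j = 0}
  zero_mem' := by
    refine Filter.Eventually.of_forall fun i c => ?_
    simp
  add_mem' := by
    intro a b ha hb
    filter_upwards [ha, hb] with i h1 h2 c
    have h3 : ∑ j, (seq i).1 c j * (a + b) j =
        (∑ j, (seq i).1 c j * a j) + ∑ j, (seq i).1 c j * b j := by
      rw [← Finset.sum_add_distrib]
      refine Finset.sum_congr rfl fun j _ => ?_
      rw [Pi.add_apply, mul_add]
    rw [h3, h1 c, h2 c, add_zero]
  smul_mem' := by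
    intro t a ha
    filter_upwards [ha] with i h1 c
    have h3 : ∑ j, (seq i).1 c j * (t • a) j = t * ∑ j, (seq i).1 c j * a j := by
      rw [Finset.mul_sum]
      refine Finset.sum_congr rfl fun j _ => ?_
      rw [Pi.smul_apply, smul_eq_mul]
      ring
    rw [h3, h1 c, mul_zero]

private theorem QcMH_all (n m : ℕ) (seq : ℕ → QcMHI n m) :
    ∀ᶠ i in UU, ∀ v ∈ QcMHL n m seq, ∀ c, ∑ j, (seq i).1 c j * v j = 0 := by
  obtain ⟨s, hs⟩ : (QcMHL n m seq).FG := IsNoetherian.noetherian _
  have h1 : ∀ᶠ i in UU, ∀ v ∈ s, ∀ c, ∑ j, (seq i).1 c j * v j = 0 := by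
    rw [Filter.eventually_all_finset]
    intro v hv
    have h2 : v ∈ QcMHL n m seq := by
      rw [← hs]
      exact Submodule.subset_span hv
    exact h2
  filter_upwards [h1] with i hi v hv
  rw [← hs] at hv
  induction hv using Submodule.span_induction with
  | mem x hx => exact hi x hx
  | zero => intro c; simp
  | add x y _ _ hx hy =>
    intro c
    have h3 : ∑ j, (seq i).1 c j * (x + y) j =
        (∑ j, (seq i).1 c j * x j) + ∑ j, (seq i).1 c j * y j := by
      rw [← Finset.sum_add_distrib]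
      refine Finset.sum_congr rfl fun j _ => ?_
      rw [Pi.add_apply, mul_add]
    rw [h3, hx c, hy c, add_zero]
  | smul t x _ hx =>
    intro c
    have h3 : ∑ j, (seq i).1 c j * (t • x) j = t * ∑ j, (seq i).1 c j * x j := by
      rw [Finset.mul_sum]
      refine Finset.sum_congr rfl fun j _ => ?_
      rw [Pi.smul_apply, smul_eq_mul]
      ring
    rw [h3, hx c, mul_zero]

private theorem QcMH_trunc (k : Type u) [Field k] (n m : ℕ) (seq : ℕ → QcMHI n m) :
    ∃ a : QcMHI n m, ∀ S : ℕ, ∀ᶠ i in UU,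
      ∀ g ∈ (MH (seq i).1 : Set (MvPolynomial (Fin n) k)),
      (MvPowerSeries.truncTotal S (g : MvPowerSeries (Fin n) k) : MvPolynomial (Fin n) k) = 0 ∨
        (MvPowerSeries.truncTotal S (g : MvPowerSeries (Fin n) k) : MvPolynomial (Fin n) k) ∈
          (MH a.1 : Set (MvPolynomial (Fin n) k)) := by
  classical
  obtain ⟨i₀, hi₀⟩ := (QcMH_all n m seq).exists
  refine ⟨seq i₀, fun S => ?_⟩
  -- pairs of exponents of small degree
  have hfin : {e : Fin n →₀ ℕ | e.degree < S}.Finite := Finsupp.finite_of_degree_lt S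
  have hpairs : ∀ᶠ i in UU, ∀ e ∈ hfin.toFinset, ∀ e' ∈ hfin.toFinset,
      (∀ c, ∑ j, (seq i).1 c j * ((e j : ℤ) - (e' j : ℤ)) = 0) →
        (fun j => (e j : ℤ) - (e' j : ℤ)) ∈ QcMHL n m seq := by
    rw [Filter.eventually_all_finset]
    intro e _
    rw [Filter.eventually_all_finset]
    intro e' _
    by_cases h : (fun j => (e j : ℤ) - (e' j : ℤ)) ∈ QcMHL n m seq
    · exact Filter.Eventually.of_forall fun i _ => h
    · have h1 : ¬ ∀ᶠ i in UU, ∀ c, ∑ j, (seq i).1 c j * ((e j : ℤ) - (e' j : ℤ)) = 0 := h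
      rw [← Ultrafilter.eventually_not] at h1
      filter_upwards [h1] with i hi h2
      exact absurd h2 hi
  filter_upwards [hpairs] with i hi g hg
  obtain ⟨d, hd⟩ := hg
  obtain ⟨p, hp⟩ : ∃ p : MvPolynomial (Fin n) k,
      p = MvPowerSeries.truncTotal S (g : MvPowerSeries (Fin n) k) := ⟨_, rfl⟩
  rw [← hp]
  by_cases hp0 : p = 0
  · exact Or.inl hp0
  · right
    have hsupp : ∀ e ∈ p.support, e.degree < S ∧ e ∈ g.support := by
      intro e he
      rw [mem_support_iff, hp, MvPowerSeries.coeff_truncTotal_eq_ite] at he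
      by_cases hS : e.degree < S
      · rw [if_pos hS, MvPolynomial.coeff_coe] at he
        exact ⟨hS, mem_support_iff.2 he⟩
      · rw [if_neg hS] at he
        exact absurd rfl he
    obtain ⟨e', he'⟩ : ∃ e', e' ∈ p.support := by
      by_contra hno
      push Not at hno
      apply hp0
      rw [← MvPolynomial.support_eq_empty]
      exact Finset.eq_empty_of_forall_notMem hno
    refine ⟨fun c => ∑ j, (seq i₀).1 c j * (e' j : ℤ), fun e he c => ?_⟩
    have h1 : (fun j => (e j : ℤ) - (e' j : ℤ)) ∈ QcMHL n m seq := by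
      refine hi e (hfin.mem_toFinset.2 (hsupp e he).1) e' (hfin.mem_toFinset.2 (hsupp e' he').1) ?_
      intro c
      have h2 := hd e (hsupp e he).2 c
      have h3 := hd e' (hsupp e' he').2 c
      have h4 : ∑ j, (seq i).1 c j * ((e j : ℤ) - (e' j : ℤ)) =
          (∑ j, (seq i).1 c j * (e j : ℤ)) - ∑ j, (seq i).1 c j * (e' j : ℤ) := by
        rw [← Finset.sum_sub_distrib]
        refine Finset.sum_congr rfl fun j _ => ?_
        rw [mul_sub]
      rw [h4, h2, h3, sub_self]
    have h2 := hi₀ _ h1 c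
    have h4 : ∑ j, (seq i₀).1 c j * ((e j : ℤ) - (e' j : ℤ)) =
        (∑ j, (seq i₀).1 c j * (e j : ℤ)) - ∑ j, (seq i₀).1 c j * (e' j : ℤ) := by
      rw [← Finset.sum_sub_distrib]
      refine Finset.sum_congr rfl fun j _ => ?_
      rw [mul_sub]
    rw [h4] at h2
    exact sub_eq_zero.1 h2

private theorem QcMH_one (k : Type u) [Field k] (n m : ℕ) (W : Fin (m + 1) → Fin n → ℤ) :
    (1 : MvPolynomial (Fin n) k) ∈ (MH W : Set (MvPolynomial (Fin n) k)) := by
  refine ⟨fun _ => 0, fun e he c => ?_⟩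
  have h1 : e = 0 := by
    by_contra h
    rw [mem_support_iff, MvPolynomial.coeff_one, if_neg (fun h0 => h h0.symm)] at he
    exact he rfl
  rw [h1]
  simp

private theorem QcMH_mul (k : Type u) [Field k] (n m : ℕ) (W : Fin (m + 1) → Fin n → ℤ)
    (p : MvPolynomial (Fin n) k) (hp : p ∈ (MH W : Set (MvPolynomial (Fin n) k)))
    (q : MvPolynomial (Fin n) k) (hq : q ∈ (MH W : Set (MvPolynomial (Fin n) k))) :
    p * q ∈ (MH W : Set (MvPolynomial (Fin n) k)) := by
  classical
  obtain ⟨d, hd⟩ := hp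
  obtain ⟨d', hd'⟩ := hq
  refine ⟨fun c => d c + d' c, fun e he c => ?_⟩
  obtain ⟨e₁, h1, e₂, h2, rfl⟩ := Finset.mem_add.1 (MvPolynomial.support_mul p q he)
  change ∑ i, W c i * (((e₁ + e₂) i : ℕ) : ℤ) = d c + d' c
  rw [← hd e₁ h1 c, ← hd' e₂ h2 c, ← Finset.sum_add_distrib]
  refine Finset.sum_congr rfl fun j _ => ?_
  rw [Finsupp.add_apply]
  push_cast
  ring

private theorem QcMH_hom (k : Type u) [Field k] (n m : ℕ) (W : Fin (m + 1) → Fin n → ℤ)
    (hW : ∀ i, 0 < W 0 i) (p : MvPolynomial (Fin n) k)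
    (hp : p ∈ (MH W : Set (MvPolynomial (Fin n) k))) :
    ∃ d : ℕ, IsWeightedHomogeneous (fun i => (W 0 i).toNat) p d := by
  obtain ⟨d, hd⟩ := hp
  refine ⟨(d 0).toNat, fun e he => ?_⟩
  have h1 := hd e (mem_support_iff.2 he) 0
  rw [Finsupp.weight_apply, Finsupp.sum_fintype _ _ (fun i => by simp)]
  have h2 : ((∑ i, e i • (W 0 i).toNat : ℕ) : ℤ) = d 0 := by
    rw [← h1]
    push_cast
    refine Finset.sum_congr rfl fun i _ => ?_
    rw [smul_eq_mul]
    push_cast
    rw [Int.toNat_of_nonneg (hW i).le]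
    ring
  omega

theorem exists_qclass_MH (k : Type u) [Field k] (n m : ℕ) :
    ∃ C : QClass k (Fin n), ∃ W : C.I → (Fin (m + 1) → Fin n → ℤ),
      (∀ a, C.P a = MH (W a)) ∧ (∀ a, LinearIndependent ℤ (W a) ∧ ∀ i, 0 < W a 0 i) ∧
      ∀ V : Fin (m + 1) → Fin n → ℤ, LinearIndependent ℤ V → (∀ i, 0 < V 0 i) →
        ∃ a, W a = V := by
  refine ⟨{ I := QcMHI n m
            w := fun a i => (a.1 0 i).toNat
            P := fun a => MH a.1
            hw := fun a i => by
              have := a.2.2 i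
              omega
            one := fun a => QcMH_one k n m a.1
            mul := fun a p hp q hq => QcMH_mul k n m a.1 p hp q hq
            hom := fun a p hp => QcMH_hom k n m a.1 a.2.2 p hp
            trunc := fun seq => QcMH_trunc k n m seq }, fun a => a.1, fun a => rfl, fun a => a.2,
    fun V h1 h2 => ⟨⟨V, h1, h2⟩, rfl⟩⟩

end MLD
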