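import Pool.Agent.MLD.TcDom
import Pool.Agent.MLD.Der

/-!
PIECE MLD-C23: domination in a toric chart by the types at a point, and along a curve.

PROOF. Write `x b := xx k b`, `q := qq ch x`, `z := zz ch x`, `α c := E.ord (q c)`; everything is nonzero;
`z` is algebraically independent (`zz_ind`, `aeval_xx`, `toFF_ne` of `Core2.lean`/`Core.lean`).
`tc_dom_pt`: `x' c := z c - pt c` satisfies `Cen E.toOrdFn x'` (`aeval x' G = aeval z (tr (-pt) G)`, `tr` is an
automorphism) and `aeval x' (tr pt G) = aeval z G`.  `hdom` gives `t, θ, g, P` with `lo ≤ θ`, `g b ≠ 0`,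
`det P ≠ 0`, `D (g b) = ∑ P b c * D (x' c) = ∑ P b c * D (z c)` (constants), `aa θ ≤ ∑ ord (g b) - ord det P +
ord (aeval z (X 0 ^ jj 0 * X 1 ^ jj 1))`, `ord (aeval z (T l)) ≤ vv l θ`.  Then `tc_dom` (as
`ord (aeval z (X 0 ^ _ * X 1 ^ _)) = ∑ jj i * ord (z i)`), and `aeval_PP`: `ord F = ∑ χ c α c + ord (aeval z (PP ch F))`.
`tc_dom_curve`: `θ := ord (aeval z h)`.  If `θ = 0`: `tc_dom` with `g := z`, `P := 1`; the bound is
`∑ ord (z i) + ∑ jj i * ord (z i) ≥ 0`.  Otherwise `c` with `ord (∂_c h (z)) = 0`, `c'` the other index: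
`g c := aeval z h`, `g c' := z c'`, `P c j := aeval z (pderiv j h)`, `P c' j := if j = c' then 1 else 0`
(chain rule for derivations: `der_aeval` in `Der.lean`), `det P = ± aeval z (pderiv c h)` of order `0`; bound
`θ + ord (z c') + ∑ jj i * ord (z i) ≥ θ + ∑ jj i * κJ i * θ`.
-/

open MvPolynomial Filter

namespace MLD

universe u

variable {σ Γ : Type} [Fintype σ] [Fintype Γ] [DecidableEq σ] [DecidableEq Γ] (ch : TChart σ Γ)

private theorem TcDomT_toFF_ne {k : Type u} [Field k] {G : MvPolynomial σ k} (hG : G ≠ 0) :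
    toFF k σ G ≠ 0 := by
  intro h0
  apply hG
  have h2 : (algebraMap (MvPolynomial σ k) (FF k σ)) G = 0 := h0
  exact (map_eq_zero_iff _ (IsFractionRing.injective _ _)).mp h2

private theorem TcDomT_aeval_xx {k : Type u} [Field k] (G : MvPolynomial σ k) :
    aeval (fun i => xx k i) G = toFF k σ G := by
  have : (aeval (fun i => xx k i) : _ →ₐ[k] FF k σ) = toFF k σ := by
    apply MvPolynomial.algHom_ext
    intro c
    rw [aeval_X]
    rfl
  rw [this]

private theorem TcDomT_xx_ne {k : Type u} [Field k] (b : σ) : (xx k b : FF k σ) ≠ 0 :=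
  TcDomT_toFF_ne (X_ne_zero b)

private theorem TcDomT_ind {k : Type u} [Field k] (G : MvPolynomial (Fin 2) k) (hG : G ≠ 0) :
    aeval (zz ch (fun b => (xx k b : FF k σ))) G ≠ 0 :=
  zz_ind ch (fun b => (xx k b : FF k σ))
    (fun G hG => by rw [TcDomT_aeval_xx]; exact TcDomT_toFF_ne hG) G hG

private theorem TcDomT_zz_ne {k : Type u} [Field k] (i : Fin 2) :
    zz ch (fun b => (xx k b : FF k σ)) i ≠ 0 := by
  have h := TcDomT_ind ch (k := k) (X i) (X_ne_zero i)
  rwa [aeval_X] at h

private theorem TcDomT_qq_ne {k : Type u} [Field k] (c : Γ) :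
    qq ch (fun b => (xx k b : FF k σ)) c ≠ 0 :=
  Finset.prod_ne_zero_iff.mpr fun b _ => zpow_ne_zero _ (TcDomT_xx_ne b)

private theorem TcDomT_zpow {k : Type u} [Field k] {K : Type*} [Field K] [Algebra k K]
    (v : OrdFn k K) {f : K} (hf : f ≠ 0) (n : ℤ) : v.ord (f ^ n) = n * v.ord f := by
  cases n with
  | ofNat m => rw [Int.ofNat_eq_natCast, zpow_natCast, v.ord_pow hf]
  | negSucc m =>
    rw [zpow_negSucc, v.ord_inv _ (pow_ne_zero _ hf), v.ord_pow hf, Int.negSucc_eq]
    push_cast
    ring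

private theorem TcDomT_ordF {k : Type u} [Field k] (E : DivisorOver k σ) (F : MvPolynomial σ k)
    (χ : Γ → ℤ) (hF0 : F ≠ 0) (hF : QD ch χ F) :
    E.ord (toFF k σ F) = ∑ c, χ c * E.ord (qq ch (fun b => xx k b) c) +
      E.ord (aeval (zz ch (fun b => xx k b)) (PP ch F)) := by
  rw [← TcDomT_aeval_xx, aeval_PP ch (fun b => (xx k b : FF k σ)) TcDomT_xx_ne χ F hF,
    E.toOrdFn.ord_mul
      (Finset.prod_ne_zero_iff.mpr fun c _ => zpow_ne_zero _ (TcDomT_qq_ne ch c))
      (TcDomT_ind ch _ (PP_ne ch χ F hF hF0)),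
    E.toOrdFn.ord_prod _ _ (fun c _ => zpow_ne_zero _ (TcDomT_qq_ne ch c))]
  congr 1
  exact Finset.sum_congr rfl fun c _ => TcDomT_zpow E.toOrdFn (TcDomT_qq_ne ch c) _

private theorem TcDomT_tr {k : Type u} [Field k] {A : Type u} [CommRing A] [Algebra k A]
    (z : Fin 2 → A) (p : Fin 2 → k) (G : MvPolynomial (Fin 2) k) :
    aeval z (tr p G) = aeval (fun c => z c + algebraMap k A (p c)) G := by
  have : (aeval z : _ →ₐ[k] A).comp (tr p) = aeval (fun c => z c + algebraMap k A (p c)) := by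
    apply MvPolynomial.algHom_ext
    intro c
    rw [AlgHom.comp_apply, tr, aeval_X, map_add, aeval_X, aeval_C, aeval_X]
  rw [← this]
  rfl

private theorem TcDomT_tr_inv {k : Type u} [Field k] (p : Fin 2 → k) (G : MvPolynomial (Fin 2) k) :
    tr p (tr (fun c => - p c) G) = G := by
  have h := TcDomT_tr (A := MvPolynomial (Fin 2) k) (fun c => X c + C (p c)) (fun c => - p c) G
  have e : (fun c => X c + C (p c) + algebraMap k (MvPolynomial (Fin 2) k) (- p c)) =
      (X : Fin 2 → MvPolynomial (Fin 2) k) := by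
    funext c
    rw [map_neg, MvPolynomial.algebraMap_eq]
    ring
  rw [e] at h
  have h2 : aeval (X : Fin 2 → MvPolynomial (Fin 2) k) G = G := by
    rw [aeval_X_left]
    rfl
  rw [h2] at h
  exact h

theorem tc_dom_pt {k : Type u} [Field k] [CharZero k] (E : DivisorOver k σ) (pt : Fin 2 → k)
    {L ι : Type} (τ : ι → LinType L) (T : L → MvPolynomial (Fin 2) k)
    (hdom : Dom τ (fun l => tr pt (T l)) (tr pt (X 0 ^ jj ch 0 * X 1 ^ jj ch 1)))
    (hc : ∀ c, 0 < E.ord (zz ch (fun b => xx k b) c - algebraMap k (FF k σ) (pt c))) :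
    ∃ (t : ι) (θ : Fin (τ t).q → ℕ), (τ t).lo ≤ θ ∧
      (((∑ c, (∑ b, ch.e b c) * E.ord (qq ch (fun b => xx k b) c) + ((τ t).aa θ : ℤ) : ℤ) : ℝ) :
        EReal) ≤ E.logDisc ∧
      ∀ (F : MvPolynomial σ k) (χ : Γ → ℤ) (l : L), F ≠ 0 → QD ch χ F → T l = PP ch F →
        E.ord (toFF k σ F) ≤ ∑ c, χ c * E.ord (qq ch (fun b => xx k b) c) +
          ((τ t).vv l θ : ℤ) := by
  have hback : ∀ G : MvPolynomial (Fin 2) k,
      aeval (fun c => zz ch (fun b => xx k b) c - algebraMap k (FF k σ) (pt c)) (tr pt G) =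
        aeval (zz ch (fun b => (xx k b : FF k σ))) G := by
    intro G
    rw [TcDomT_tr]
    congr 2
    funext c
    ring
  have hcen : Cen E.toOrdFn
      (fun c => zz ch (fun b => xx k b) c - algebraMap k (FF k σ) (pt c)) := by
    refine ⟨hc, fun G hG => ?_⟩
    have h1 : tr (fun c => - pt c) G ≠ 0 := by
      intro h0
      apply hG
      have h2 := TcDomT_tr_inv pt G
      rw [h0, map_zero] at h2
      exact h2.symm
    have h3 := TcDomT_ind ch (tr (fun c => - pt c) G) h1
    rw [← hback, TcDomT_tr_inv] at h3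
    exact h3
  obtain ⟨t, θ, hlo, g, P, hg, hP, hD, hA, hV⟩ := hdom (FF k σ) E.toOrdFn _ hcen
  refine ⟨t, θ, hlo, ?_, ?_⟩
  · have hD' : ∀ D : Derivation k (FF k σ) (FF k σ), ∀ i,
        D (g i) = ∑ j, P i j * D (zz ch (fun b => xx k b) j) := by
      intro D i
      rw [hD D i]
      refine Finset.sum_congr rfl fun j _ => ?_
      rw [map_sub, D.map_algebraMap, sub_zero]
    refine le_trans ?_ (tc_dom ch E g P hg hP hD')
    rw [hback, map_mul, map_pow, map_pow, aeval_X, aeval_X,
      E.toOrdFn.ord_mul (pow_ne_zero _ (TcDomT_zz_ne ch 0)) (pow_ne_zero _ (TcDomT_zz_ne ch 1)),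
      E.toOrdFn.ord_pow (TcDomT_zz_ne ch 0), E.toOrdFn.ord_pow (TcDomT_zz_ne ch 1)] at hA
    rw [EReal.coe_le_coe_iff, Int.cast_le, Fin.sum_univ_two (f := fun i => (jj ch i : ℤ) * _)]
    linarith [hA]
  · intro F χ l hF0 hF hT
    rw [TcDomT_ordF ch E F χ hF0 hF]
    have h1 := hV l
    rw [hback, hT] at h1
    linarith [h1]

theorem tc_dom_curve {k : Type u} [Field k] [CharZero k] (E : DivisorOver k σ)
    {L : Type} (T : L → MvPolynomial (Fin 2) k) (jx : Fin 2 → L) (hjx : ∀ c, T (jx c) = X c)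
    (h : MvPolynomial (Fin 2) k) (κ : L → ℕ)
    (hz : ∀ c, 0 ≤ E.ord (zz ch (fun b => xx k b) c))
    (hκ : ∀ l, E.ord (aeval (zz ch (fun b => xx k b)) (T l)) =
      κ l * E.ord (aeval (zz ch (fun b => xx k b)) h))
    (h0 : 0 ≤ E.ord (aeval (zz ch (fun b => xx k b)) h)) (hh : h ≠ 0)
    (hc : E.ord (aeval (zz ch (fun b => xx k b)) h) = 0 ∨
      ∃ c, pderiv c h ≠ 0 ∧ E.ord (aeval (zz ch (fun b => xx k b)) (pderiv c h)) = 0) :
    (((∑ c, (∑ b, ch.e b c) * E.ord (qq ch (fun b => xx k b) c) +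
        (1 + ∑ i, (jj ch i : ℤ) * κ (jx i)) *
          E.ord (aeval (zz ch (fun b => xx k b)) h) : ℤ) : ℝ) : EReal) ≤ E.logDisc ∧
      ∀ (F : MvPolynomial σ k) (χ : Γ → ℤ) (l : L), F ≠ 0 → QD ch χ F → T l = PP ch F →
        E.ord (toFF k σ F) = ∑ c, χ c * E.ord (qq ch (fun b => xx k b) c) +
          κ l * E.ord (aeval (zz ch (fun b => xx k b)) h) := by
  refine ⟨?_, ?_⟩
  · have hzκ : ∀ i, E.ord (zz ch (fun b => xx k b) i) =
        κ (jx i) * E.ord (aeval (zz ch (fun b => xx k b)) h) := by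
      intro i
      have h1 := hκ (jx i)
      rwa [hjx, aeval_X] at h1
    rcases hc with hc | ⟨c, hc1, hc2⟩
    · have hD : ∀ D : Derivation k (FF k σ) (FF k σ), ∀ i,
          D (zz ch (fun b => xx k b) i) =
            ∑ j, (1 : Matrix (Fin 2) (Fin 2) (FF k σ)) i j * D (zz ch (fun b => xx k b) j) := by
        intro D i
        rw [Finset.sum_eq_single i]
        · rw [Matrix.one_apply_eq, one_mul]
        · intro j _ hj
          rw [Matrix.one_apply_ne (Ne.symm hj), zero_mul]
        · intro hi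
          exact absurd (Finset.mem_univ i) hi
      refine le_trans ?_ (tc_dom ch E (zz ch (fun b => xx k b)) 1 (TcDomT_zz_ne ch)
        (by rw [Matrix.det_one]; exact one_ne_zero) hD)
      rw [EReal.coe_le_coe_iff, Int.cast_le, Matrix.det_one, E.toOrdFn.ord_one, hc]
      have h1 : 0 ≤ ∑ i, E.ord (zz ch (fun b => xx k b) i) :=
        Finset.sum_nonneg fun i _ => hz i
      have h2 : 0 ≤ ∑ i, (jj ch i : ℤ) * E.ord (zz ch (fun b => xx k b) i) :=
        Finset.sum_nonneg fun i _ => mul_nonneg (by positivity) (hz i)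
      linarith
    · have hne : aeval (zz ch (fun b => (xx k b : FF k σ))) h ≠ 0 := TcDomT_ind ch h hh
      have hdet : (Matrix.of fun i j : Fin 2 => if i = c then
          aeval (zz ch (fun b => (xx k b : FF k σ))) (pderiv j h) else
            if i = j then 1 else 0).det =
          aeval (zz ch (fun b => (xx k b : FF k σ))) (pderiv c h) := by
        rw [Matrix.det_fin_two]
        fin_cases c <;> simp
      have hsum : ∑ i, E.ord (if i = c then aeval (zz ch (fun b => (xx k b : FF k σ))) h else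
          zz ch (fun b => xx k b) i) ≥ E.ord (aeval (zz ch (fun b => (xx k b : FF k σ))) h) := by
        rw [Fin.sum_univ_two]
        fin_cases c
        · simpa using hz 1
        · simpa using hz 0
      refine le_trans ?_ (tc_dom ch E
        (fun i => if i = c then aeval (zz ch (fun b => (xx k b : FF k σ))) h else
          zz ch (fun b => xx k b) i)
        (Matrix.of fun i j : Fin 2 => if i = c then
          aeval (zz ch (fun b => (xx k b : FF k σ))) (pderiv j h) else
            if i = j then 1 else 0) ?_ ?_ ?_)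
      · rw [EReal.coe_le_coe_iff, Int.cast_le, hdet, hc2]
        have h2 : ∑ i, (jj ch i : ℤ) * E.ord (zz ch (fun b => xx k b) i) =
            (∑ i, (jj ch i : ℤ) * κ (jx i)) *
              E.ord (aeval (zz ch (fun b => (xx k b : FF k σ))) h) := by
          rw [Finset.sum_mul]
          refine Finset.sum_congr rfl fun i _ => ?_
          rw [hzκ i]
          ring
        rw [h2]
        linarith [hsum]
      · intro i
        by_cases hi : i = c
        · simpa [hi] using hne
        · simpa [hi] using TcDomT_zz_ne ch i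
      · rw [hdet]
        exact TcDomT_ind ch _ hc1
      · intro D i
        by_cases hi : i = c
        · have h1 := der_aeval D (zz ch (fun b => (xx k b : FF k σ))) h
          simp only [Matrix.of_apply, if_pos hi]
          exact h1
        · simp only [Matrix.of_apply, if_neg hi]
          rw [Finset.sum_eq_single i]
          · simp
          · intro j _ hj
            rw [if_neg (Ne.symm hj), zero_mul]
          · intro hi'
            exact absurd (Finset.mem_univ i) hi'
  · intro F χ l hF0 hF hT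
    rw [TcDomT_ordF ch E F χ hF0 hF, ← hT, hκ l]

end MLD
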