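import Pool.Agent.MLD.Qc

/-!
PIECE MLD-C09: existence of toric charts.

PROOF. `σ = Fin (m+3)`.  Let `L : Submodule ℤ (σ → ℤ)` be the kernel of
`v ↦ (∑ i, W c i * v i)_c`, `(σ → ℤ) → (Fin (m+1) → ℤ)`.  The quotient `(σ → ℤ) ⧸ L` embeds in a free
module, so it is torsion free, hence free, hence `L` is a direct summand; `finrank L = 2` (rank-nullity; the rank
of the map is `m + 1` because `W` is linearly independent).  So there are a basis `B` of `σ → ℤ` indexed by
`Fin (m+1) ⊕ Fin 2` with `B (inr 0), B (inr 1)` a basis of `L` (e.g. from a complement `L'` free of rank `m+1`: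
`Submodule.exists_isCompl..`/`Module.projective_lifting_property`; or `Submodule.smithNormalForm` with all
elementary divisors `1` because `L` is saturated).  Put (for signs `ε : Fin 2 → {1,-1}`)
`z_i := ε i • B (inr i)`, dual coordinates `u_i := ε i • (B.coord (inr i))` (integer vectors
`u_i b = ε i * B.coord (inr i) (e_b)`), `w := W 0` with `w > 0` and `∑ w b * z_i b = 0`.  Choose `N : ℕ` with
`ρ b i := u_i b + N * w b ≥ 0` for all `b, i`.  Still `∑ b, ze i b * ρ b i' = δ`.  Put
`qe c := B (inl c) - ∑ i (∑ b, B (inl c) b * ρ b i) • z_i` (so h3), `e b c := B.coord (inl c) (e_b)`.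
h4: `∑ b, ze i b * e b c = B.coord (inl c) (z_i) = 0`; h2: `B.coord (inl c') (qe c) = δ`; h5: as said.
h1: the matrices `[e | ρ]` (σ × (C ⊕ 2)) and `[qe ; ze]` ((C ⊕ 2) × σ) satisfy `[qe; ze] * [e | ρ] = 1` by h2–h5
and are square (`en`), so `[e | ρ] * [qe; ze] = 1` (`Matrix.mul_eq_one_comm` after reindexing by `en`).
`en : Fin (m+3) ≃ Fin (m+1) ⊕ Fin 2` is `finSumFinEquiv.symm` (or by cardinality).
Homogeneity: if `∑ i, W c i * v i = 0` for all `c` then `v ∈ L`, a combination of the `z_i`, so by h4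
`∑ b, v b * e b c = 0`.
Charts: the four sign choices (`Fin 4` or any `Fin N` enumerating `Fin 2 → Bool`); for given `v` choose the signs with
`ε i * ∑ b, B (inr i) b * v b ≥ 0`.
-/

open MvPolynomial Filter

namespace MLD

private theorem TcEx_basis {m : ℕ} (W : Fin (m + 1) → Fin (m + 3) → ℤ)
    (hW : LinearIndependent ℤ W) :
    ∃ (P : Fin (m + 3) → Fin (m + 1) ⊕ Fin 2 → ℤ) (Q : Fin (m + 1) ⊕ Fin 2 → Fin (m + 3) → ℤ),
      (∀ j j', ∑ b, Q j b * P b j' = if j = j' then 1 else 0) ∧
      (∀ c i, ∑ b, W c b * Q (Sum.inr i) b = 0) ∧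
      (∀ v : Fin (m + 3) → ℤ, (∀ c, ∑ i, W c i * v i = 0) →
        ∀ c, ∑ b, v b * P b (Sum.inl c) = 0) := by
  classical
  let f : (Fin (m + 3) → ℤ) →ₗ[ℤ] (Fin (m + 1) → ℤ) := Matrix.mulVecLin (Matrix.of W)
  have hf : ∀ v c, f v c = ∑ i, W c i * v i := fun v c => rfl
  let R := LinearMap.range f
  let f' : (Fin (m + 3) → ℤ) →ₗ[ℤ] R := f.rangeRestrict
  have hf' : ∀ v, ((f' v : R) : Fin (m + 1) → ℤ) = f v := fun v => rfl
  have hsurj : Function.Surjective f' := f.surjective_rangeRestrict
  obtain ⟨s, hs⟩ := Module.projective_lifting_property f' LinearMap.id hsurj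
  have hs' : ∀ r, f' (s r) = r := fun r => LinearMap.congr_fun hs r
  -- the splitting
  let e : (R × LinearMap.ker f) ≃ₗ[ℤ] (Fin (m + 3) → ℤ) :=
    { toFun := fun p => s p.1 + p.2
      map_add' := fun p q => by
        simp only [Prod.fst_add, Prod.snd_add, map_add, Submodule.coe_add]
        abel
      map_smul' := fun c p => by
        simp only [Prod.smul_fst, Prod.smul_snd, map_smul, Submodule.coe_smul, RingHom.id_apply,
          smul_add]
      invFun := fun v => (f' v, ⟨v - s (f' v), by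
        rw [LinearMap.mem_ker, map_sub, sub_eq_zero, ← hf', ← hf', hs']⟩)
      left_inv := fun p => by
        have h1 : f' (p.2 : Fin (m + 3) → ℤ) = 0 := by
          apply Subtype.ext
          rw [hf']
          exact p.2.2
        have h2 : f' (s p.1 + p.2) = p.1 := by rw [map_add, hs', h1, add_zero]
        refine Prod.ext h2 (Subtype.ext ?_)
        change s p.1 + p.2 - s (f' (s p.1 + p.2)) = p.2
        rw [h2, add_sub_cancel_left]
      right_inv := fun v => by
        change s (f' v) + (v - s (f' v)) = v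
        abel }
  -- ranks
  have hR1 : Module.finrank ℤ R ≤ m + 1 := by
    have := Submodule.finrank_le R
    rwa [Module.finrank_fin_fun] at this
  have hR2 : m + 1 ≤ Module.finrank ℤ R := by
    let ψ : (Fin (m + 1) → ℤ) →ₗ[ℤ] Module.Dual ℤ R :=
      { toFun := fun a =>
          { toFun := fun y => ∑ c, a c * (y : Fin (m + 1) → ℤ) c
            map_add' := fun y z => by
              simp [mul_add, Finset.sum_add_distrib]
            map_smul' := fun t y => by
              simp only [Submodule.coe_smul, Pi.smul_apply, smul_eq_mul, RingHom.id_apply,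
                Finset.mul_sum]
              exact Finset.sum_congr rfl fun c _ => by ring }
        map_add' := fun a b => by
          ext y
          simp [add_mul, Finset.sum_add_distrib]
        map_smul' := fun t a => by
          ext y
          simp [Finset.mul_sum, mul_assoc] }
    have hψ : Function.Injective ψ := by
      rw [injective_iff_map_eq_zero]
      intro a ha
      have h1 : ∑ c, a c • W c = 0 := by
        funext i
        have h2 := LinearMap.congr_fun ha (f' (Pi.single i 1))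
        have h3 : ψ a (f' (Pi.single i 1)) = ∑ c, a c * W c i := by
          change ∑ c, a c * (f (Pi.single i 1)) c = _
          refine Finset.sum_congr rfl fun c _ => ?_
          rw [hf]
          simp [Pi.single_apply]
        rw [h3] at h2
        simpa [Finset.sum_apply] using h2
      funext c
      exact Fintype.linearIndependent_iff.1 hW a h1 c
    have h4 := LinearMap.finrank_le_finrank_of_injective hψ
    rw [Module.finrank_fin_fun] at h4
    have h5 : Module.finrank ℤ (Module.Dual ℤ R) = Module.finrank ℤ R :=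
      Module.finrank_linearMap_self ℤ ℤ R
    omega
  have hR : Module.finrank ℤ R = m + 1 := le_antisymm hR1 hR2
  have hL : Module.finrank ℤ (LinearMap.ker f) = 2 := by
    have h1 := e.finrank_eq
    rw [Module.finrank_prod, Module.finrank_fin_fun, hR] at h1
    omega
  let bR : Module.Basis (Fin (m + 1)) ℤ R := Module.finBasisOfFinrankEq ℤ R hR
  let bL : Module.Basis (Fin 2) ℤ (LinearMap.ker f) := Module.finBasisOfFinrankEq ℤ _ hL
  let B : Module.Basis (Fin (m + 1) ⊕ Fin 2) ℤ (Fin (m + 3) → ℤ) := (bR.prod bL).map e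
  have hrep : ∀ (v : Fin (m + 3) → ℤ) j, ∑ b, v b * B.repr (Pi.single b 1) j = B.repr v j := by
    intro v j
    conv_rhs => rw [← Finset.univ_sum_single v]
    rw [map_sum, Finsupp.finsetSum_apply]
    refine Finset.sum_congr rfl fun b _ => ?_
    have h1 : (Pi.single b (v b) : Fin (m + 3) → ℤ) = v b • Pi.single b 1 := by
      rw [← Pi.single_smul, smul_eq_mul, mul_one]
    rw [h1, map_smul, Finsupp.smul_apply, smul_eq_mul]
  refine ⟨fun b j => B.repr (Pi.single b 1) j, fun j => B j, ?_, ?_, ?_⟩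
  · intro j j'
    rw [hrep, B.repr_self, Finsupp.single_apply]
  · intro c i
    have h1 : B (Sum.inr i) = (bL i : Fin (m + 3) → ℤ) := by
      change s ((bR.prod bL) (Sum.inr i)).1 + (((bR.prod bL) (Sum.inr i)).2 : Fin (m + 3) → ℤ) = _
      rw [Module.Basis.prod_apply_inr_fst, Module.Basis.prod_apply_inr_snd, map_zero, zero_add]
    change ∑ b, W c b * B (Sum.inr i) b = 0
    rw [h1, ← hf]
    have h2 : f (bL i : Fin (m + 3) → ℤ) = 0 := (bL i).2
    rw [h2]
    rfl
  · intro v hv c
    rw [hrep]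
    have h1 : f' v = 0 := by
      apply Subtype.ext
      rw [hf']
      funext c'
      rw [hf]
      exact hv c'
    change (bR.prod bL).repr (e.symm v) (Sum.inl c) = 0
    rw [Module.Basis.prod_repr_inl]
    change bR.repr (f' v) c = 0
    rw [h1, map_zero]
    rfl

private theorem TcEx_chart {m : ℕ} (w : Fin (m + 3) → ℤ) (hpos : ∀ i, 0 < w i)
    (P : Fin (m + 3) → Fin (m + 1) ⊕ Fin 2 → ℤ) (Q : Fin (m + 1) ⊕ Fin 2 → Fin (m + 3) → ℤ)
    (hQP : ∀ j j', ∑ b, Q j b * P b j' = if j = j' then 1 else 0)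
    (hw : ∀ i, ∑ b, w b * Q (Sum.inr i) b = 0) (ε : Fin 2 → ℤ) (hε : ∀ i, ε i * ε i = 1) :
    ∃ ch : TChart (Fin (m + 3)) (Fin (m + 1)),
      (∀ b c, ch.e b c = P b (Sum.inl c)) ∧ ∀ i b, ch.ze i b = ε i * Q (Sum.inr i) b := by
  classical
  set N : ℤ := ∑ b, ∑ i : Fin 2, |ε i * P b (Sum.inr i)| with hN
  have hNb : ∀ b i, |ε i * P b (Sum.inr i)| ≤ N := by
    intro b i
    refine le_trans ?_ (Finset.single_le_sum (f := fun b => ∑ i : Fin 2, |ε i * P b (Sum.inr i)|)
      (fun b _ => Finset.sum_nonneg fun i _ => abs_nonneg _) (Finset.mem_univ b))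
    exact Finset.single_le_sum (f := fun i : Fin 2 => |ε i * P b (Sum.inr i)|)
      (fun i _ => abs_nonneg _) (Finset.mem_univ i)
  have hN0 : 0 ≤ N := Finset.sum_nonneg fun b _ => Finset.sum_nonneg fun i _ => abs_nonneg _
  let ρ : Fin (m + 3) → Fin 2 → ℕ := fun b i => (ε i * P b (Sum.inr i) + N * w b).toNat
  have hρ : ∀ b i, (ρ b i : ℤ) = ε i * P b (Sum.inr i) + N * w b := by
    intro b i
    refine Int.toNat_of_nonneg ?_
    have h1 := hNb b i
    have h2 := neg_abs_le (ε i * P b (Sum.inr i))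
    have h3 := hpos b
    nlinarith
  let ze : Fin 2 → Fin (m + 3) → ℤ := fun i b => ε i * Q (Sum.inr i) b
  have h5 : ∀ i i', ∑ b, ze i b * (ρ b i' : ℤ) = if i = i' then 1 else 0 := by
    intro i i'
    have h1 : ∑ b, ze i b * (ρ b i' : ℤ) =
        ε i * ε i' * ∑ b, Q (Sum.inr i) b * P b (Sum.inr i') +
          ε i * N * ∑ b, w b * Q (Sum.inr i) b := by
      rw [Finset.mul_sum, Finset.mul_sum, ← Finset.sum_add_distrib]
      refine Finset.sum_congr rfl fun b _ => ?_
      rw [hρ]
      change ε i * Q (Sum.inr i) b * _ = _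
      ring
    rw [h1, hQP, hw, mul_zero, add_zero]
    by_cases h : i = i'
    · subst h
      rw [if_pos rfl, if_pos rfl, hε, mul_one]
    · rw [if_neg h, if_neg (fun h' => h (Sum.inr_injective h')), mul_zero]
  have h4 : ∀ i c, ∑ b, ze i b * P b (Sum.inl c) = 0 := by
    intro i c
    have h1 : ∑ b, ze i b * P b (Sum.inl c) = ε i * ∑ b, Q (Sum.inr i) b * P b (Sum.inl c) := by
      rw [Finset.mul_sum]
      refine Finset.sum_congr rfl fun b _ => ?_
      change ε i * Q (Sum.inr i) b * _ = _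
      ring
    rw [h1, hQP, if_neg (by simp), mul_zero]
  let κ : Fin (m + 1) → Fin 2 → ℤ := fun c i => ∑ b, Q (Sum.inl c) b * (ρ b i : ℤ)
  let qe : Fin (m + 1) → Fin (m + 3) → ℤ := fun c b => Q (Sum.inl c) b - ∑ i, κ c i * ze i b
  have hqe : ∀ c (g : Fin (m + 3) → ℤ), ∑ b, qe c b * g b =
      ∑ b, Q (Sum.inl c) b * g b - ∑ i, κ c i * ∑ b, ze i b * g b := by
    intro c g
    have h1 : ∑ i, κ c i * ∑ b, ze i b * g b = ∑ b, (∑ i, κ c i * ze i b) * g b := by
      simp only [Finset.mul_sum, Finset.sum_mul]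
      rw [Finset.sum_comm]
      refine Finset.sum_congr rfl fun b _ => Finset.sum_congr rfl fun i _ => ?_
      ring
    rw [h1, ← Finset.sum_sub_distrib]
    refine Finset.sum_congr rfl fun b _ => ?_
    change (Q (Sum.inl c) b - ∑ i, κ c i * ze i b) * g b = _
    ring
  have h3 : ∀ c i, ∑ b, qe c b * (ρ b i : ℤ) = 0 := by
    intro c i
    rw [hqe]
    simp only [h5]
    simp [κ]
  have h2 : ∀ c c', ∑ b, qe c b * P b (Sum.inl c') = if c = c' then 1 else 0 := by
    intro c c'
    rw [hqe]
    simp only [h4, mul_zero, Finset.sum_const_zero, sub_zero, hQP]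
    simp
  -- the inverse matrices
  let A : Matrix (Fin (m + 3)) (Fin (m + 1) ⊕ Fin 2) ℤ :=
    fun b j => Sum.elim (fun c => P b (Sum.inl c)) (fun i => (ρ b i : ℤ)) j
  let A' : Matrix (Fin (m + 1) ⊕ Fin 2) (Fin (m + 3)) ℤ :=
    fun j b => Sum.elim (fun c => qe c b) (fun i => ze i b) j
  have hAA : A' * A = 1 := by
    ext j j'
    rw [Matrix.mul_apply, Matrix.one_apply]
    rcases j with c | i <;> rcases j' with c' | i'
    · change ∑ b, qe c b * P b (Sum.inl c') = _
      rw [h2]
      simp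
    · change ∑ b, qe c b * (ρ b i' : ℤ) = _
      rw [h3]
      simp
    · change ∑ b, ze i b * P b (Sum.inl c') = _
      rw [h4]
      simp
    · change ∑ b, ze i b * (ρ b i' : ℤ) = _
      rw [h5]
      simp
  have hAA' : A * A' = 1 := (Matrix.mul_eq_one_comm_of_equiv finSumFinEquiv).1 hAA
  have h1 : ∀ b b', ∑ c, P b (Sum.inl c) * qe c b' + ∑ i, (ρ b i : ℤ) * ze i b' =
      if b = b' then 1 else 0 := by
    intro b b'
    have h6 : (A * A') b b' = (1 : Matrix (Fin (m + 3)) (Fin (m + 3)) ℤ) b b' := by rw [hAA']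
    rw [Matrix.mul_apply, Fintype.sum_sum_type, Matrix.one_apply] at h6
    exact h6
  exact ⟨{ en := (finSumFinEquiv (m := m + 1) (n := 2)).symm
           e := fun b c => P b (Sum.inl c)
           ρ := ρ
           qe := qe
           ze := ze
           h1 := h1
           h2 := h2
           h3 := h3
           h4 := h4
           h5 := h5 }, fun _ _ => rfl, fun _ _ => rfl⟩

theorem exists_charts {m : ℕ} (W : Fin (m + 1) → Fin (m + 3) → ℤ) (hW : LinearIndependent ℤ W)
    (hpos : ∀ i, 0 < W 0 i) :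
    ∃ (N : ℕ) (ch : Fin N → TChart (Fin (m + 3)) (Fin (m + 1))),
      (∀ t, ∀ v : Fin (m + 3) → ℤ, (∀ c, ∑ i, W c i * v i = 0) →
        ∀ c, ∑ b, v b * (ch t).e b c = 0) ∧
      ∀ v : Fin (m + 3) → ℤ, ∃ t, ∀ i, 0 ≤ ∑ b, (ch t).ze i b * v b := by
  classical
  obtain ⟨P, Q, hQP, hWQ, hv⟩ := TcEx_basis W hW
  let ε : (Fin 2 → Bool) → Fin 2 → ℤ := fun s i => if s i then 1 else -1
  have hε : ∀ s i, ε s i * ε s i = 1 := by
    intro s i
    change (if s i = true then (1 : ℤ) else -1) * (if s i = true then (1 : ℤ) else -1) = 1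
    split_ifs <;> norm_num
  have hch := fun s => TcEx_chart (W 0) hpos P Q hQP (hWQ 0) (ε s) (hε s)
  choose ch hche hchz using hch
  refine ⟨Fintype.card (Fin 2 → Bool), fun t => ch ((Fintype.equivFin (Fin 2 → Bool)).symm t),
    ?_, ?_⟩
  · intro t v hvv c
    simp only [hche]
    exact hv v hvv c
  · intro v
    refine ⟨Fintype.equivFin (Fin 2 → Bool)
      (fun i => decide (0 ≤ ∑ b, Q (Sum.inr i) b * v b)), fun i => ?_⟩
    simp only [Equiv.symm_apply_apply, hchz, mul_assoc, ← Finset.mul_sum]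
    change 0 ≤ (if decide (0 ≤ ∑ b, Q (Sum.inr i) b * v b) = true then (1 : ℤ) else -1) *
      ∑ b, Q (Sum.inr i) b * v b
    split_ifs with h
    · rw [decide_eq_true_eq] at h
      rw [one_mul]
      exact h
    · rw [decide_eq_true_eq, not_le] at h
      linarith

end MLD
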