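import Pool.Agent.MLD.TcReal
import Pool.Agent.MLD.ExtVal
import Pool.Agent.MLD.Der

/-!
PIECE MLD-C15: realization in a toric chart at a point `pt` of the `z`-plane.

PROOF. From `hR`: `p : Fin 2 → k[Fin 2]`, `w`, `Bir p`, `∑ w + wo (jacP p) + wo (aeval p (tr pt J)) ≤ aa θ`,
`vv l θ ≤ wo (aeval p (tr pt (T l)))`.  `K₂ := FF k (Fin 2)`, `v₂` from `exists_wval w`,
`z i := toFF (p i + C (pt i))`; `aeval z G = toFF (aeval p (tr pt G))`, nonzero for `G ≠ 0` by `Bir p` (and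
`tr pt` is injective: inverse `tr (-pt)`).  `δ i := xx i * ∂/∂xx i` (`exists_pderivFF`); it multiplies the
coefficient of a monomial `m` by `m i`, so it preserves the filtration of `v₂` (polynomials first, then
fractions).  `det (δ i (z j)) = xx 0 * xx 1 * toFF (jacP p)` (`jacP p ≠ 0` because `wo (jacP p) < ⊤`), of order
`∑ w + wo (jacP p)`.  `∑ jj i * v₂ (z i) = v₂ (aeval z J) = wo (aeval p (tr pt J))`.
`hpos` of `tc_real`: `∑ ρ b i v₂ (z i) = v₂ (aeval z (PP ch (X b))) ≥ vv (idx b) θ`.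
Apply `tc_real`; for `T l = PP ch F`: `v₂ (aeval z (PP ch F)) ≥ vv l θ`.
-/

open MvPolynomial Filter

namespace MLD

universe u

private theorem TcReal1_aeval {k : Type u} [Field k] (p : Fin 2 → MvPolynomial (Fin 2) k)
    (pt : Fin 2 → k) (G : MvPolynomial (Fin 2) k) :
    aeval (fun i => toFF k (Fin 2) (p i + C (pt i))) G = toFF k (Fin 2) (aeval p (tr pt G)) := by
  have h : (aeval (fun i => toFF k (Fin 2) (p i + C (pt i))) :
      MvPolynomial (Fin 2) k →ₐ[k] FF k (Fin 2)) =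
      ((toFF k (Fin 2)).comp (aeval p)).comp (tr pt) := by
    apply MvPolynomial.algHom_ext
    intro i
    rw [aeval_X, AlgHom.comp_apply, AlgHom.comp_apply, tr, aeval_X, map_add, map_add, aeval_X,
      aeval_C, map_add, MvPolynomial.algebraMap_eq]
  rw [h]
  rfl

private theorem TcReal1_tr {k : Type u} [Field k] (pt : Fin 2 → k) (G : MvPolynomial (Fin 2) k)
    (hG : G ≠ 0) : tr pt G ≠ 0 := by
  intro h
  apply hG
  have h1 : (tr (-pt)).comp (tr pt) = AlgHom.id k (MvPolynomial (Fin 2) k) := by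
    apply MvPolynomial.algHom_ext
    intro i
    rw [AlgHom.comp_apply, AlgHom.id_apply]
    simp [tr]
  have h2 := DFunLike.congr_fun h1 G
  rw [AlgHom.comp_apply, h, map_zero, AlgHom.id_apply] at h2
  exact h2.symm

private theorem TcReal1_wo {k : Type u} [Field k] {σ : Type} (w : σ → ℕ) (i : σ)
    (P : MvPolynomial σ k) : wo w P ≤ wo w (X i * pderiv i P) := by
  classical
  unfold wo
  apply MvPowerSeries.le_weightedOrder
  intro d hd
  have h1 : coeff d P = 0 := by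
    have h2 := MvPowerSeries.coeff_eq_zero_of_lt_weightedOrder w hd
    rwa [MvPolynomial.coeff_coe] at h2
  rw [MvPolynomial.coeff_coe, coeff_X_mul']
  split_ifs with h
  · rw [coeff_pderiv]
    have h3 : d - Finsupp.single i 1 + Finsupp.single i 1 = d := by
      apply tsub_add_cancel_of_le
      rw [Finsupp.single_le_iff]
      exact Nat.one_le_iff_ne_zero.2 (Finsupp.mem_support_iff.1 h)
    rw [h3, h1, zero_mul]
  · rfl

private theorem TcReal1_ge {k : Type u} [Field k] (w : Fin 2 → ℕ) (v : OrdFn k (FF k (Fin 2)))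
    (hv : ∀ f : MvPolynomial (Fin 2) k, f ≠ 0 →
      ∃ m : ℕ, v.ord (toFF k (Fin 2) f) = m ∧ wo w f = m)
    (i : Fin 2) (d : Derivation k (FF k (Fin 2)) (FF k (Fin 2)))
    (hd : ∀ f, d (toFF k (Fin 2) f) = toFF k (Fin 2) (pderiv i f)) (f : FF k (Fin 2))
    (hf : f ≠ 0) : v.ge (v.ord f) ((xx k i • d) f) := by
  have hinj : Function.Injective (toFF k (Fin 2)) :=
    IsFractionRing.injective (MvPolynomial (Fin 2) k) _
  have hpoly : ∀ P : MvPolynomial (Fin 2) k, P ≠ 0 →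
      v.ge (v.ord (toFF k (Fin 2) P)) ((xx k i • d) (toFF k (Fin 2) P)) := by
    intro P hP
    rw [Derivation.smul_apply, hd, smul_eq_mul, xx, ← map_mul]
    by_cases h0 : X i * pderiv i P = 0
    · left
      rw [h0, map_zero]
    · right
      obtain ⟨m, h1, h2⟩ := hv _ hP
      obtain ⟨n, h3, h4⟩ := hv _ h0
      have h5 := TcReal1_wo w i P
      rw [h2, h4] at h5
      rw [h1, h3]
      exact_mod_cast h5
  obtain ⟨a, b, hb, hab⟩ := IsFractionRing.div_surjective (A := MvPolynomial (Fin 2) k) f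
  have hb0 : b ≠ 0 := nonZeroDivisors.ne_zero hb
  have ha0 : a ≠ 0 := by
    rintro rfl
    apply hf
    rw [← hab, map_zero, zero_div]
  have hA : toFF k (Fin 2) a ≠ 0 := fun h => ha0 (hinj (by rw [h, map_zero]))
  have hB : toFF k (Fin 2) b ≠ 0 := fun h => hb0 (hinj (by rw [h, map_zero]))
  have hfab : f = toFF k (Fin 2) a / toFF k (Fin 2) b := hab.symm
  rw [hfab, Derivation.leibniz_div, v.ord_div hA hB, smul_eq_mul, smul_eq_mul, smul_eq_mul]
  have h1 := v.ge_mul (v.ge_self (toFF k (Fin 2) b)) (hpoly a ha0)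
  have h2 := v.ge_mul (v.ge_self (toFF k (Fin 2) a)) (hpoly b hb0)
  rw [add_comm] at h2
  have h3 := v.ge_sub h1 h2
  have h4 := v.ge_mul (v.ge_pow (v.ge_self (toFF k (Fin 2) b)⁻¹) 2) h3
  refine v.ge_mono (le_of_eq ?_) h4
  rw [v.ord_inv _ hB]
  push_cast
  ring

theorem tc_real_pt {k : Type u} [Field k] [CharZero k] {σ Γ : Type} [Fintype σ] [Fintype Γ]
    [DecidableEq σ] [DecidableEq Γ] [Nonempty σ] (ch : TChart σ Γ) (pt : Fin 2 → k) {L : Type}
    (τ : LinType L) (θ : Fin τ.q → ℕ) (T : L → MvPolynomial (Fin 2) k)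
    (hR : Rlz τ θ (fun l => tr pt (T l)) (tr pt (X 0 ^ jj ch 0 * X 1 ^ jj ch 1)))
    (α : Γ → ℤ) (idx : σ → L) (hidx : ∀ b, T (idx b) = PP ch (X b))
    (hpos : ∀ b, 1 ≤ ∑ c, ch.e b c * α c + (τ.vv (idx b) θ : ℤ)) :
    ∃ (E : DivisorOver k σ) (g A₁ : ℕ), 0 < g ∧ E.CenterZero ∧
      E.logDisc ≤ (((A₁ : ℕ) : ℝ) : EReal) ∧
      ((g * A₁ : ℕ) : ℤ) ≤ ∑ c, (∑ b, ch.e b c) * α c + (τ.aa θ : ℤ) ∧
      ∀ (F : MvPolynomial σ k) (χ : Γ → ℤ) (l : L), F ≠ 0 → QD ch χ F → T l = PP ch F →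
        ∑ c, χ c * α c + (τ.vv l θ : ℤ) ≤ (g : ℤ) * E.ord (toFF k σ F) := by
  classical
  obtain ⟨p, w, hp, -, hA, hT⟩ := hR
  obtain ⟨v, hv⟩ := exists_wval (k := k) (σ := Fin 2) w
  obtain ⟨d, hd⟩ := exists_pderivFF k (Fin 2)
  have hinj : Function.Injective (toFF k (Fin 2)) :=
    IsFractionRing.injective (MvPolynomial (Fin 2) k) _
  have hne : ∀ P : MvPolynomial (Fin 2) k, P ≠ 0 → toFF k (Fin 2) P ≠ 0 :=
    fun P hP h => hP (hinj (by rw [h, map_zero]))
  set z : Fin 2 → FF k (Fin 2) := fun i => toFF k (Fin 2) (p i + C (pt i)) with hzdef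
  have hae : ∀ G, aeval z G = toFF k (Fin 2) (aeval p (tr pt G)) := TcReal1_aeval p pt
  have hnz : ∀ G : MvPolynomial (Fin 2) k, G ≠ 0 → aeval p (tr pt G) ≠ 0 := fun G hG =>
    hp.1 _ (TcReal1_tr pt G hG)
  have hz : ∀ G : MvPolynomial (Fin 2) k, G ≠ 0 → aeval z G ≠ 0 := fun G hG => by
    rw [hae]
    exact hne _ (hnz G hG)
  have hz0 : ∀ i, z i ≠ 0 := by
    intro i
    have h := hz (X i) (X_ne_zero i)
    rwa [aeval_X] at h
  -- the value of a polynomial in `z`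
  have hge : ∀ (G : MvPolynomial (Fin 2) k) (n : ℕ), G ≠ 0 →
      ((n : ℕ) : ℕ∞) ≤ wo w (aeval p (tr pt G)) → (n : ℤ) ≤ v.ord (aeval z G) := by
    intro G n hG hn
    obtain ⟨m, h1, h2⟩ := hv _ (hnz G hG)
    rw [hae, h1]
    rw [h2] at hn
    exact_mod_cast hn
  -- monomials
  have hmon : ∀ a b : ℕ, v.ord (aeval z (X 0 ^ a * X 1 ^ b : MvPolynomial (Fin 2) k)) =
      (a : ℤ) * v.ord (z 0) + (b : ℤ) * v.ord (z 1) := by
    intro a b
    rw [map_mul, map_pow, map_pow, aeval_X, aeval_X,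
      v.ord_mul (pow_ne_zero _ (hz0 0)) (pow_ne_zero _ (hz0 1)), v.ord_pow (hz0 0),
      v.ord_pow (hz0 1)]
  -- the derivations
  have hδ : ∀ i f, f ≠ 0 → v.ge (v.ord f) ((xx k i • d i) f) := fun i f hf =>
    TcReal1_ge w v hv i (d i) (hd i) f hf
  -- the determinant
  have hJ0 : jacP p ≠ 0 := by
    intro h
    have h1 : wo w (jacP p) = ⊤ := by
      rw [h, wo, MvPolynomial.coe_zero, MvPowerSeries.weightedOrder_zero]
    rw [h1, add_top, top_add] at hA
    exact absurd (top_le_iff.1 hA) (ENat.natCast_ne_top _)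
  have hdet : (Matrix.of fun i j => (xx k i • d i) (z j)).det =
      (∏ i, xx k i) * toFF k (Fin 2) (jacP p) := by
    have h1 : (Matrix.of fun i j => (xx k i • d i) (z j)) =
        Matrix.of fun i j => xx k i * (Matrix.of fun i j : Fin 2 =>
          toFF k (Fin 2) (pderiv i (p j))) i j := by
      ext i j
      rw [Matrix.of_apply, Matrix.of_apply, Matrix.of_apply, Derivation.smul_apply, smul_eq_mul,
        hzdef, hd, map_add, pderiv_C, add_zero]
    rw [h1, Matrix.det_mul_column]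
    congr 1
    rw [jacP, AlgHom.map_det]
    rfl
  have hx0 : ∀ i : Fin 2, xx k i ≠ 0 := fun i => hne _ (X_ne_zero i)
  have hxw : ∀ i : Fin 2, v.ord (xx k i) = w i := by
    intro i
    obtain ⟨m, h1, h2⟩ := hv (X i) (X_ne_zero i)
    rw [xx, h1]
    have h3 : wo w (X i : MvPolynomial (Fin 2) k) = w i := by
      rw [wo, MvPolynomial.coe_X]
      have h4 := MvPowerSeries.weightedOrder_monomial_of_ne_zero w (d := Finsupp.single i 1)
        (one_ne_zero (α := k))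
      rw [Finsupp.weight_single, one_smul] at h4
      exact h4
    rw [h3] at h2
    exact_mod_cast h2.symm
  have hdet0 : (Matrix.of fun i j => (xx k i • d i) (z j)).det ≠ 0 := by
    rw [hdet]
    exact mul_ne_zero (Finset.prod_ne_zero_iff.2 fun i _ => hx0 i) (hne _ hJ0)
  obtain ⟨mj, hmj1, hmj2⟩ := hv _ hJ0
  have hdetv : v.ord (Matrix.of fun i j => (xx k i • d i) (z j)).det = ∑ i, (w i : ℤ) + mj := by
    rw [hdet, v.ord_mul (Finset.prod_ne_zero_iff.2 fun i _ => hx0 i) (hne _ hJ0),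
      v.ord_prod _ _ fun i _ => hx0 i, hmj1]
    congr 1
    exact Finset.sum_congr rfl fun i _ => hxw i
  -- the Jacobian factor
  have hJne : (X 0 ^ jj ch 0 * X 1 ^ jj ch 1 : MvPolynomial (Fin 2) k) ≠ 0 :=
    mul_ne_zero (pow_ne_zero _ (X_ne_zero 0)) (pow_ne_zero _ (X_ne_zero 1))
  obtain ⟨mk, hmk1, hmk2⟩ := hv _ (hnz _ hJne)
  have hJv : ∑ i, (jj ch i : ℤ) * v.ord (z i) = mk := by
    rw [Fin.sum_univ_two, ← hmon, hae, hmk1]
  -- positivity
  have hPX : ∀ b, PP ch (X b : MvPolynomial σ k) = X 0 ^ ch.ρ b 0 * X 1 ^ ch.ρ b 1 := by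
    intro b
    rw [PP, aeval_X]
  have hpos' : ∀ b, 0 < ∑ c, ch.e b c * α c + ∑ i, (ch.ρ b i : ℤ) * v.ord (z i) := by
    intro b
    have h1 : (X 0 ^ ch.ρ b 0 * X 1 ^ ch.ρ b 1 : MvPolynomial (Fin 2) k) ≠ 0 :=
      mul_ne_zero (pow_ne_zero _ (X_ne_zero 0)) (pow_ne_zero _ (X_ne_zero 1))
    have h2 : ((τ.vv (idx b) θ : ℕ) : ℕ∞) ≤ wo w (aeval p (tr pt (T (idx b)))) := hT (idx b)
    rw [hidx, hPX] at h2
    have h3 := hge _ _ h1 h2
    rw [hmon] at h3
    have h4 := hpos b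
    rw [Fin.sum_univ_two]
    linarith
  obtain ⟨E, g, A₁, hg, hC, hL, hgA, hF⟩ :=
    tc_real ch v z hz (fun i => xx k i • d i) hδ hdet0 α hpos'
  refine ⟨E, g, A₁, hg, hC, hL, ?_, ?_⟩
  · refine hgA.trans ?_
    rw [hdetv, hJv]
    rw [hmj2, hmk2] at hA
    have h5 : (∑ b, w b) + mj + mk ≤ τ.aa θ := by exact_mod_cast hA
    have h6 : ((∑ b, w b : ℕ) : ℤ) + mj + mk ≤ (τ.aa θ : ℤ) := by exact_mod_cast h5
    push_cast at h6
    linarith
  · intro F χ l hF0 hQ hTl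
    rw [hF F χ hF0 hQ]
    have h1 : PP ch F ≠ 0 := PP_ne ch χ F hQ hF0
    have h2 : ((τ.vv l θ : ℕ) : ℕ∞) ≤ wo w (aeval p (tr pt (T l))) := hT l
    rw [hTl] at h2
    have h3 := hge _ _ h1 h2
    linarith

end MLD
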