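import Pool.Agent.MLD.TcReal
import Pool.Agent.MLD.OrdH

/-!
PIECE MLD-C17: realization in a toric chart along a curve `h = 0` of the `z`-plane.

PROOF. `tc_real` with `K₂ := FF k (Fin 2)`, `v₂, δ` from `exists_ordh h hh θ`, `z i := xx k i`
(`aeval z G = toFF G`).  If `f = h ^ n * u` with `h ∤ u` then `v₂ (toFF f) = n * θ` (`u ≠ 0`).
-/

open MvPolynomial Filter

namespace MLD

universe u

theorem tc_real_curve {k : Type u} [Field k] [CharZero k] {σ Γ : Type} [Fintype σ] [Fintype Γ]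
    [DecidableEq σ] [DecidableEq Γ] [Nonempty σ] (ch : TChart σ Γ)
    (h : MvPolynomial (Fin 2) k) (hh : Irreducible h) (θ : ℕ) (α : Γ → ℤ)
    (κ : σ → ℕ) (hκ : ∀ b, ∃ u, PP ch (X b : MvPolynomial σ k) = h ^ κ b * u ∧ ¬ h ∣ u)
    (κJ : Fin 2 → ℕ) (hκJ : ∀ i, ∃ u, (X i : MvPolynomial (Fin 2) k) = h ^ κJ i * u ∧ ¬ h ∣ u)
    (hpos : ∀ b, 1 ≤ ∑ c, ch.e b c * α c + (κ b : ℤ) * θ) :
    ∃ (E : DivisorOver k σ) (g A₁ : ℕ), 0 < g ∧ E.CenterZero ∧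
      E.logDisc ≤ (((A₁ : ℕ) : ℝ) : EReal) ∧
      ((g * A₁ : ℕ) : ℤ) ≤ ∑ c, (∑ b, ch.e b c) * α c +
        (1 + ∑ i, (jj ch i : ℤ) * κJ i) * θ ∧
      ∀ (F : MvPolynomial σ k) (χ : Γ → ℤ) (n : ℕ), F ≠ 0 → QD ch χ F →
        (∃ u, PP ch F = h ^ n * u ∧ ¬ h ∣ u) →
        ∑ c, χ c * α c + (n : ℤ) * θ ≤ (g : ℤ) * E.ord (toFF k σ F) := by
  classical
  obtain ⟨v, δ, hv1, hv2, hδ, hdet, hdo⟩ := exists_ordh h hh θ
  have hinj : Function.Injective (toFF k (Fin 2)) :=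
    IsFractionRing.injective (MvPolynomial (Fin 2) k) _
  have hne : ∀ f : MvPolynomial (Fin 2) k, f ≠ 0 → toFF k (Fin 2) f ≠ 0 := by
    intro f hf h0
    apply hf
    apply hinj
    rw [h0, map_zero]
  have hH0 : toFF k (Fin 2) h ≠ 0 := hne h hh.ne_zero
  have hae : ∀ G : MvPolynomial (Fin 2) k, aeval (fun i => xx k i) G = toFF k (Fin 2) G := by
    intro G
    have h1 : (aeval (fun i => xx k i) : MvPolynomial (Fin 2) k →ₐ[k] FF k (Fin 2))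
        = toFF k (Fin 2) := by
      apply MvPolynomial.algHom_ext
      intro i
      rw [aeval_X]
      rfl
    rw [h1]
  have hord : ∀ (f u : MvPolynomial (Fin 2) k) (n : ℕ), f = h ^ n * u → ¬ h ∣ u →
      v.ord (toFF k (Fin 2) f) = (n : ℤ) * θ := by
    intro f u n hf hu
    have hu0 : u ≠ 0 := by
      rintro rfl
      exact hu (dvd_zero _)
    rw [hf, map_mul, map_pow, v.ord_mul (pow_ne_zero _ hH0) (hne u hu0), v.ord_pow hH0, hv1,
      hv2 u hu, add_zero]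
  have hz : ∀ i : Fin 2, v.ord (xx k i) = (κJ i : ℤ) * θ := by
    intro i
    obtain ⟨u, hu1, hu2⟩ := hκJ i
    exact hord (X i) u (κJ i) hu1 hu2
  have hb : ∀ b, ∑ i, (ch.ρ b i : ℤ) * v.ord (xx k i) = (κ b : ℤ) * θ := by
    intro b
    obtain ⟨u, hu1, hu2⟩ := hκ b
    have h1 := hord _ u (κ b) hu1 hu2
    have h2 : PP ch (X b : MvPolynomial σ k) = X 0 ^ ch.ρ b 0 * X 1 ^ ch.ρ b 1 := by
      rw [PP, aeval_X]
    have hx0 : toFF k (Fin 2) (X 0) ≠ 0 := hne _ (X_ne_zero _)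
    have hx1 : toFF k (Fin 2) (X 1) ≠ 0 := hne _ (X_ne_zero _)
    rw [h2, map_mul, map_pow, map_pow, v.ord_mul (pow_ne_zero _ hx0) (pow_ne_zero _ hx1),
      v.ord_pow hx0, v.ord_pow hx1] at h1
    rw [Fin.sum_univ_two]
    exact h1
  obtain ⟨E, g, A₁, hg, hc, hl, hA, hF⟩ := tc_real ch v (fun i => xx k i)
    (fun G hG => by rw [hae]; exact hne G hG) δ hδ hdet α (by
      intro b
      rw [hb b]
      exact lt_of_lt_of_le zero_lt_one (hpos b))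
  refine ⟨E, g, A₁, hg, hc, hl, ?_, ?_⟩
  · refine hA.trans (le_of_eq ?_)
    rw [hdo]
    simp only [hz]
    rw [add_mul, one_mul, Finset.sum_mul]
    congr 1
    congr 1
    apply Finset.sum_congr rfl
    intro i _
    ring
  · intro F χ n hF0 hQ hu
    obtain ⟨u, hu1, hu2⟩ := hu
    rw [hF F χ hF0 hQ, hae, hord _ u n hu1 hu2]

end MLD
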