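import Pool.Agent.MLD.T2Glob
import Pool.Agent.MLD.TcDomT
import Pool.Agent.MLD.TcReal1
import Pool.Agent.MLD.TcReal2
import Pool.Agent.MLD.TcEx

/-!
PIECE MLD-C24: global types for multihomogeneous polynomials (torus of corank two).

PROOF. Let `Λ, F` be given.  `exists_charts W` gives charts `ch t`, `t : Fin N`.  Fix `t` and write `ch`.
`QD_ev` gives `χ l` with `QD ch (χ l) (F l i)` for almost all `i`.  Let `L := Λ ⊕ Fin (m+3) ⊕ Fin 2` and
`T (inl l) i := PP ch (F l i)`, `T (inr (inl b)) i := PP ch (X b)`, `T (inr (inr c)) i := X c`,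
`jx c := inr (inr c)`.  Bounded degree: `PP_bdd` (take `D` the maximum), nonzero for almost all `i`: `PP_ne`, `LNZ`.
`two_global T D _ jx _ (jj ch 0) (jj ch 1)` gives `N₀, pt, M, h, κ`, and `HasTypes` gives for every `s : Fin N₀`
finitely many types `τ s u`.
The types (index `Σ t, (Σ s, ι s) ⊕ Fin M`):
* point type `(t, s, u)`: `P := Γ ⊕ Fin (τ s u).q` (`Γ = Fin (m+1)`), parameters `(α, θ)`; constraints (index
  `Fin q ⊕ Fin (m+3)`): `lo c ≤ θ c` and `1 ≤ ∑ e b c α c + vv (inr (inl b)) θ` for all `b`;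
  `A := (∑ b, e b c)_c ⊕ (τ s u).A`, `val l := χ l ⊕ (τ s u).val (inl l)`.
* curve type `(t, m')`: `P := Γ ⊕ Unit`; constraints `0 ≤ θ`, `1 ≤ ∑ e b c α c + κ (inr (inl b)) m' * θ`;
  `A := (∑ b, e b c)_c ⊕ (1 + ∑ i, jj i * κ (jx i) m')`, `val l := χ l ⊕ κ (inl l) m'`.
Domination: for almost all `i` and every `E`: choose the chart `t` with `0 ≤ ∑ ze c b * E.ord (x b) = E.ord (z c)`;
`α c := E.ord (q c)`.  The third property of `two_global` with `K := FF k _`, `x := zz ch xx` (`zz_ind`): first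
alternative: `tc_dom_pt`; second: `tc_dom_curve`.  The constraints `1 ≤ ..` follow from `1 ≤ E.ord (x b) ≤
(value of X b)` (`QD_X`, `PP_X`, `E.CenterZero`).
Realization: point types: for `(α, θ)` in the polyhedron, `θ ≥ lo ≥ 0`, so `θ` comes from a natural vector `≥ lo`;
`Rlz` holds for almost all `i`; `tc_real_pt` with `idx b := inr (inl b)`.  Curve types: `θ` is a natural number;
`tc_real_curve` with `h := h m' i`, `κ b := κ (inr (inl b)) m'`, `κJ c := κ (jx c) m'` (second property of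
`two_global`).
(Sums over `Γ ⊕ Fin q`: `Fintype.sum_sum_type`.)
-/

open MvPolynomial Filter

namespace MLD

universe u

private theorem TcTypes_ne {k : Type u} [Field k] {σ : Type} {G : MvPolynomial σ k} (hG : G ≠ 0) :
    toFF k σ G ≠ 0 := by
  intro h0
  apply hG
  have h2 : (algebraMap (MvPolynomial σ k) (FF k σ)) G = 0 := h0
  exact (map_eq_zero_iff _ (IsFractionRing.injective _ _)).mp h2

private theorem TcTypes_aeval {k : Type u} [Field k] {σ : Type} (G : MvPolynomial σ k) :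
    aeval (fun i => xx k i) G = toFF k σ G := by
  have : (aeval (fun i => xx k i) : _ →ₐ[k] FF k σ) = toFF k σ := by
    apply MvPolynomial.algHom_ext
    intro c
    rw [aeval_X]
    rfl
  rw [this]

private theorem TcTypes_zpow {k : Type u} [Field k] {K : Type*} [Field K] [Algebra k K]
    (v : OrdFn k K) {f : K} (hf : f ≠ 0) (n : ℤ) : v.ord (f ^ n) = n * v.ord f := by
  obtain ⟨a, rfl | rfl⟩ := n.eq_nat_or_neg
  · rw [zpow_natCast, v.ord_pow hf]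
  · rw [zpow_neg, zpow_natCast, v.ord_inv _ (pow_ne_zero _ hf), v.ord_pow hf]
    ring

/-- the sequences of polynomials in the `z`-plane -/
private noncomputable def TcTypes_T {k : Type u} [Field k] {m : ℕ} {Λ : Type}
    (ch : TChart (Fin (m + 3)) (Fin (m + 1))) (F : Λ → ℕ → MvPolynomial (Fin (m + 3)) k) :
    (Λ ⊕ (Fin (m + 3) ⊕ Fin 2)) → ℕ → MvPolynomial (Fin 2) k
  | .inl l, i => PP ch (F l i)
  | .inr (.inl b), _ => PP ch (X b)
  | .inr (.inr c), _ => X c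

/-- types at a point of the `z`-plane -/
private def TcTypes_pt {m : ℕ} {Λ : Type} (ch : TChart (Fin (m + 3)) (Fin (m + 1)))
    (χ : Λ → Fin (m + 1) → ℤ) (τ : LinType (Λ ⊕ (Fin (m + 3) ⊕ Fin 2))) : ZType Λ where
  P := Fin (m + 1) ⊕ Fin τ.q
  K := Fin τ.q ⊕ Fin (m + 3)
  cons := fun κ c => match κ, c with
    | .inl _, .inl _ => 0
    | .inl a, .inr a' => if a' = a then 1 else 0
    | .inr b, .inl c => ch.e b c
    | .inr b, .inr a' => (τ.val (.inr (.inl b)) a' : ℤ)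
  lo := fun κ => match κ with
    | .inl a => (τ.lo a : ℤ)
    | .inr _ => 1
  A := fun c => match c with
    | .inl c => ∑ b, ch.e b c
    | .inr a => (τ.A a : ℤ)
  val := fun l c => match c with
    | .inl c => χ l c
    | .inr a => (τ.val (.inl l) a : ℤ)

/-- types along a curve of the `z`-plane -/
private def TcTypes_cv {m : ℕ} {Λ : Type} (ch : TChart (Fin (m + 3)) (Fin (m + 1)))
    (χ : Λ → Fin (m + 1) → ℤ) (κ : (Λ ⊕ (Fin (m + 3) ⊕ Fin 2)) → ℕ) : ZType Λ where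
  P := Fin (m + 1) ⊕ Unit
  K := Unit ⊕ Fin (m + 3)
  cons := fun κ' c => match κ', c with
    | .inl _, .inl _ => 0
    | .inl _, .inr _ => 1
    | .inr b, .inl c => ch.e b c
    | .inr b, .inr _ => (κ (.inr (.inl b)) : ℤ)
  lo := fun κ' => match κ' with
    | .inl _ => 0
    | .inr _ => 1
  A := fun c => match c with
    | .inl c => ∑ b, ch.e b c
    | .inr _ => 1 + ∑ i, (jj ch i : ℤ) * κ (.inr (.inr i))
  val := fun l c => match c with
    | .inl c => χ l c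
    | .inr _ => (κ (.inl l) : ℤ)

private theorem TcTypes_sum {P₁ P₂ : Type} [Fintype P₁] [Fintype P₂] (f : P₁ ⊕ P₂ → ℤ)
    (α : P₁ → ℤ) (θ : P₂ → ℤ) : ∑ c, f c * Sum.elim α θ c =
      ∑ c, f (.inl c) * α c + ∑ c, f (.inr c) * θ c := by
  rw [Fintype.sum_sum_type]
  rfl

section
variable {m : ℕ} {Λ : Type} (ch : TChart (Fin (m + 3)) (Fin (m + 1))) (χ : Λ → Fin (m + 1) → ℤ)

private theorem TcTypes_pt_ok (τ : LinType (Λ ⊕ (Fin (m + 3) ⊕ Fin 2)))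
    (α : Fin (m + 1) → ℤ) (θ : Fin τ.q → ℤ) :
    (TcTypes_pt ch χ τ).Ok (Sum.elim α θ) ↔ (∀ a, (τ.lo a : ℤ) ≤ θ a) ∧
      ∀ b, 1 ≤ ∑ c, ch.e b c * α c + ∑ a, (τ.val (.inr (.inl b)) a : ℤ) * θ a := by
  have e1 : ∀ a, ∑ c : Fin (m + 1) ⊕ Fin τ.q,
      (TcTypes_pt ch χ τ).cons (.inl a) c * Sum.elim α θ c = θ a := by
    intro a
    refine (TcTypes_sum _ α θ).trans ?_
    simp [TcTypes_pt]
  have e2 : ∀ b, ∑ c : Fin (m + 1) ⊕ Fin τ.q,
      (TcTypes_pt ch χ τ).cons (.inr b) c * Sum.elim α θ c =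
      ∑ c, ch.e b c * α c + ∑ a, (τ.val (.inr (.inl b)) a : ℤ) * θ a := fun b =>
    TcTypes_sum _ α θ
  constructor
  · intro h
    exact ⟨fun a => (h (.inl a)).trans_eq (e1 a), fun b => (h (.inr b)).trans_eq (e2 b)⟩
  · rintro ⟨h1, h2⟩ (a | b)
    · exact (h1 a).trans_eq (e1 a).symm
    · exact (h2 b).trans_eq (e2 b).symm

private theorem TcTypes_pt_aa (τ : LinType (Λ ⊕ (Fin (m + 3) ⊕ Fin 2)))
    (α : Fin (m + 1) → ℤ) (θ : Fin τ.q → ℤ) :
    (TcTypes_pt ch χ τ).aa (Sum.elim α θ) =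
      ∑ c, (∑ b, ch.e b c) * α c + ∑ a, (τ.A a : ℤ) * θ a :=
  TcTypes_sum (P₁ := Fin (m + 1)) (P₂ := Fin τ.q) (TcTypes_pt ch χ τ).A α θ

private theorem TcTypes_pt_vv (τ : LinType (Λ ⊕ (Fin (m + 3) ⊕ Fin 2)))
    (α : Fin (m + 1) → ℤ) (θ : Fin τ.q → ℤ) (l : Λ) :
    (TcTypes_pt ch χ τ).vv l (Sum.elim α θ) =
      ∑ c, χ l c * α c + ∑ a, (τ.val (.inl l) a : ℤ) * θ a :=
  TcTypes_sum (P₁ := Fin (m + 1)) (P₂ := Fin τ.q) ((TcTypes_pt ch χ τ).val l) α θ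

private theorem TcTypes_cv_ok (κ : (Λ ⊕ (Fin (m + 3) ⊕ Fin 2)) → ℕ)
    (α : Fin (m + 1) → ℤ) (θ : Unit → ℤ) :
    (TcTypes_cv ch χ κ).Ok (Sum.elim α θ) ↔ 0 ≤ θ () ∧
      ∀ b, 1 ≤ ∑ c, ch.e b c * α c + (κ (.inr (.inl b)) : ℤ) * θ () := by
  have e1 : ∑ c : Fin (m + 1) ⊕ Unit,
      (TcTypes_cv ch χ κ).cons (.inl ()) c * Sum.elim α θ c = θ () := by
    refine (TcTypes_sum _ α θ).trans ?_
    simp [TcTypes_cv]
  have e2 : ∀ b, ∑ c : Fin (m + 1) ⊕ Unit,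
      (TcTypes_cv ch χ κ).cons (.inr b) c * Sum.elim α θ c =
      ∑ c, ch.e b c * α c + (κ (.inr (.inl b)) : ℤ) * θ () := by
    intro b
    refine (TcTypes_sum _ α θ).trans ?_
    simp [TcTypes_cv]
  constructor
  · intro h
    exact ⟨(h (.inl ())).trans_eq e1, fun b => (h (.inr b)).trans_eq (e2 b)⟩
  · rintro ⟨h1, h2⟩ (a | b)
    · exact h1.trans_eq e1.symm
    · exact (h2 b).trans_eq (e2 b).symm

private theorem TcTypes_cv_aa (κ : (Λ ⊕ (Fin (m + 3) ⊕ Fin 2)) → ℕ)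
    (α : Fin (m + 1) → ℤ) (θ : Unit → ℤ) :
    (TcTypes_cv ch χ κ).aa (Sum.elim α θ) =
      ∑ c, (∑ b, ch.e b c) * α c +
        (1 + ∑ i, (jj ch i : ℤ) * κ (.inr (.inr i))) * θ () := by
  refine (TcTypes_sum (P₁ := Fin (m + 1)) (P₂ := Unit) (TcTypes_cv ch χ κ).A α θ).trans ?_
  simp [TcTypes_cv]

private theorem TcTypes_cv_vv (κ : (Λ ⊕ (Fin (m + 3) ⊕ Fin 2)) → ℕ)
    (α : Fin (m + 1) → ℤ) (θ : Unit → ℤ) (l : Λ) :
    (TcTypes_cv ch χ κ).vv l (Sum.elim α θ) =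
      ∑ c, χ l c * α c + (κ (.inl l) : ℤ) * θ () := by
  refine (TcTypes_sum (P₁ := Fin (m + 1)) (P₂ := Unit) ((TcTypes_cv ch χ κ).val l) α θ).trans ?_
  simp [TcTypes_cv]

end

private theorem TcTypes_aaN {L : Type} (τ : LinType L) (θ : Fin τ.q → ℕ) :
    ((τ.aa θ : ℕ) : ℤ) = ∑ a, (τ.A a : ℤ) * ((θ a : ℕ) : ℤ) := by
  simp [LinType.aa]

private theorem TcTypes_vvN {L : Type} (τ : LinType L) (l : L) (θ : Fin τ.q → ℕ) :
    ((τ.vv l θ : ℕ) : ℤ) = ∑ a, (τ.val l a : ℤ) * ((θ a : ℕ) : ℤ) := by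
  simp [LinType.vv]

/-- domination in one chart -/
private theorem TcTypes_dom {k : Type u} [Field k] [CharZero k] {m : ℕ} {Λ : Type}
    (ch : TChart (Fin (m + 3)) (Fin (m + 1))) (χ : Λ → Fin (m + 1) → ℤ)
    (F : Λ → ℕ → MvPolynomial (Fin (m + 3)) k) (i : ℕ) (hF : ∀ l, F l i ≠ 0)
    (hQ : ∀ l, QD ch (χ l) (F l i)) (E : DivisorOver k (Fin (m + 3))) (hE : E.CenterZero)
    (hz : ∀ c, 0 ≤ E.ord (zz ch (fun b => xx k b) c))
    (N₀ : ℕ) (pt : Fin N₀ → Fin 2 → k) (M : ℕ) (h : Fin M → MvPolynomial (Fin 2) k)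
    (κ : (Λ ⊕ (Fin (m + 3) ⊕ Fin 2)) → Fin M → ℕ) (ι : Fin N₀ → Type)
    (τ : ∀ s, ι s → LinType (Λ ⊕ (Fin (m + 3) ⊕ Fin 2)))
    (hdom : ∀ s, Dom (τ s) (fun l => tr (pt s) (TcTypes_T ch F l i))
      (tr (pt s) (X 0 ^ jj ch 0 * X 1 ^ jj ch 1)))
    (hirr : ∀ m', Irreducible (h m'))
    (hglob : ∀ (K : Type u) [Field K] [Algebra k K] (v : OrdFn k K) (x : Fin 2 → K),
        (∀ c, 0 ≤ v.ord (x c)) → (∀ G : MvPolynomial (Fin 2) k, G ≠ 0 → aeval x G ≠ 0) →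
        (∃ s, ∀ c, 0 < v.ord (x c - algebraMap k K (pt s c))) ∨
        ∃ m', (∀ l, v.ord (aeval x (TcTypes_T ch F l i)) = κ l m' * v.ord (aeval x (h m'))) ∧
          0 ≤ v.ord (aeval x (h m')) ∧ (v.ord (aeval x (h m')) = 0 ∨
            ∃ c, pderiv c (h m') ≠ 0 ∧ v.ord (aeval x (pderiv c (h m'))) = 0)) :
    (∃ (s : Fin N₀) (u : ι s) (θ : (TcTypes_pt ch χ (τ s u)).P → ℤ),
      (TcTypes_pt ch χ (τ s u)).Ok θ ∧
        ((((TcTypes_pt ch χ (τ s u)).aa θ : ℤ) : ℝ) : EReal) ≤ E.logDisc ∧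
        ∀ l, E.ord (toFF k (Fin (m + 3)) (F l i)) ≤ (TcTypes_pt ch χ (τ s u)).vv l θ) ∨
    ∃ (m' : Fin M) (θ : (TcTypes_cv ch χ (fun l => κ l m')).P → ℤ),
      (TcTypes_cv ch χ (fun l => κ l m')).Ok θ ∧
        ((((TcTypes_cv ch χ (fun l => κ l m')).aa θ : ℤ) : ℝ) : EReal) ≤ E.logDisc ∧
        ∀ l, E.ord (toFF k (Fin (m + 3)) (F l i)) ≤
          (TcTypes_cv ch χ (fun l => κ l m')).vv l θ := by
  have hX : ∀ b, (1 : ℤ) ≤ E.ord (toFF k (Fin (m + 3)) (X b)) := fun b => hE b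
  have hXne : ∀ b : Fin (m + 3), (X b : MvPolynomial (Fin (m + 3)) k) ≠ 0 := fun b => X_ne_zero b
  have hind := zz_ind ch (fun b : Fin (m + 3) => xx k b) (fun G hG => by
    rw [TcTypes_aeval]
    exact TcTypes_ne hG)
  rcases hglob (FF k (Fin (m + 3))) E.toOrdFn (zz ch (fun b => xx k b)) hz hind with
    ⟨s, hs⟩ | ⟨m', h1, h2, h3⟩
  · left
    obtain ⟨u, θ, hlo, hlog, hval⟩ := tc_dom_pt ch E (pt s) (τ s)
      (fun l => TcTypes_T ch F l i) (hdom s) hs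
    refine ⟨s, u, Sum.elim (fun c => E.ord (qq ch (fun b => xx k b) c))
      (fun a => ((θ a : ℕ) : ℤ)), ?_, ?_, fun l => ?_⟩
    · rw [TcTypes_pt_ok]
      refine ⟨fun a => by exact_mod_cast hlo a, fun b => ?_⟩
      have h4 := hval (X b) (ch.e b) (.inr (.inl b)) (hXne b) (QD_X ch b) rfl
      rw [TcTypes_vvN] at h4
      exact (hX b).trans h4
    · rw [TcTypes_pt_aa]
      rw [TcTypes_aaN] at hlog
      exact hlog
    · have h4 := hval (F l i) (χ l) (.inl l) (hF l) (hQ l) rfl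
      rw [TcTypes_vvN] at h4
      rw [TcTypes_pt_vv]
      exact h4
  · right
    obtain ⟨hlog, hval⟩ := tc_dom_curve ch E (fun l => TcTypes_T ch F l i)
      (fun c => .inr (.inr c)) (fun c => rfl) (h m') (fun l => κ l m') hz h1 h2
      (hirr m').ne_zero h3
    refine ⟨m', Sum.elim (fun c => E.ord (qq ch (fun b => xx k b) c))
      (fun _ => E.ord (aeval (zz ch (fun b => xx k b)) (h m'))), ?_, ?_, fun l => ?_⟩
    · rw [TcTypes_cv_ok]
      refine ⟨h2, fun b => ?_⟩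
      have h4 := hval (X b) (ch.e b) (.inr (.inl b)) (hXne b) (QD_X ch b) rfl
      rw [← h4]
      exact hX b
    · rw [TcTypes_cv_aa]
      exact hlog
    · have h4 := hval (F l i) (χ l) (.inl l) (hF l) (hQ l) rfl
      rw [TcTypes_cv_vv, h4]

theorem gt_MH (k : Type u) [Field k] [IsAlgClosed k] [CharZero k] {m : ℕ}
    (W : Fin (m + 1) → Fin (m + 3) → ℤ) (hW : LinearIndependent ℤ W) (hpos : ∀ i, 0 < W 0 i) :
    GT (k := k) (MH (k := k) W) := by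
  classical
  intro Λ _ F hFm hL
  obtain ⟨N, ch, hch, hcov⟩ := exists_charts W hW hpos
  have hFne : ∀ᶠ i in UU, ∀ l, F l i ≠ 0 := by
    rw [eventually_all]
    intro l
    obtain ⟨mm, hm⟩ := hL l
    filter_upwards [hm] with i hi h0
    rw [h0, coeff_zero] at hi
    exact hi rfl
  have hQ0 : ∀ t, ∃ χ : Λ → Fin (m + 1) → ℤ, ∀ᶠ i in UU, ∀ l, QD (ch t) (χ l) (F l i) := by
    intro t
    choose χ hχ using fun l => QD_ev (ch t) W (hch t) (F l) (hFm l) (hL l)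
    exact ⟨χ, eventually_all.2 hχ⟩
  choose χ hχ using hQ0
  have hTb : ∀ t (l : Λ ⊕ (Fin (m + 3) ⊕ Fin 2)), ∃ D : ℕ, ∀ᶠ i in UU,
      TcTypes_T (ch t) F l i ≠ 0 ∧ (TcTypes_T (ch t) F l i).totalDegree ≤ D := by
    intro t l
    rcases l with l | b | c
    · obtain ⟨D, hD⟩ := PP_bdd (ch t) W hpos (F l) (hFm l) (hL l)
      refine ⟨D, ?_⟩
      filter_upwards [hD, hFne, hχ t] with i h1 h2 h3
      exact ⟨PP_ne (ch t) (χ t l) (F l i) (h3 l) (h2 l), h1⟩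
    · refine ⟨(PP (ch t) (X b : MvPolynomial (Fin (m + 3)) k)).totalDegree, ?_⟩
      filter_upwards with i
      exact ⟨PP_ne (ch t) _ _ (QD_X (ch t) b) (X_ne_zero b), le_rfl⟩
    · refine ⟨(X c : MvPolynomial (Fin 2) k).totalDegree, ?_⟩
      filter_upwards with i
      exact ⟨X_ne_zero c, le_rfl⟩
  have key : ∀ t, ∃ (N₀ : ℕ) (pt : Fin N₀ → ℕ → Fin 2 → k) (M : ℕ)
      (h : Fin M → ℕ → MvPolynomial (Fin 2) k)
      (κ : (Λ ⊕ (Fin (m + 3) ⊕ Fin 2)) → Fin M → ℕ),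
      (∀ s, HasTypes (fun l i => tr (pt s i) (TcTypes_T (ch t) F l i))
        (fun i => tr (pt s i) (X 0 ^ jj (ch t) 0 * X 1 ^ jj (ch t) 1))) ∧
      (∀ᶠ i in UU, (∀ m', Irreducible (h m' i)) ∧
        ∀ m' l, ∃ u, TcTypes_T (ch t) F l i = h m' i ^ κ l m' * u ∧ ¬ h m' i ∣ u) ∧
      ∀ᶠ i in UU, ∀ (K : Type u) [Field K] [Algebra k K] (v : OrdFn k K) (x : Fin 2 → K),
        (∀ c, 0 ≤ v.ord (x c)) → (∀ G : MvPolynomial (Fin 2) k, G ≠ 0 → aeval x G ≠ 0) →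
        (∃ s, ∀ c, 0 < v.ord (x c - algebraMap k K (pt s i c))) ∨
        ∃ m', (∀ l, v.ord (aeval x (TcTypes_T (ch t) F l i)) =
            κ l m' * v.ord (aeval x (h m' i))) ∧
          0 ≤ v.ord (aeval x (h m' i)) ∧ (v.ord (aeval x (h m' i)) = 0 ∨
            ∃ c, pderiv c (h m' i) ≠ 0 ∧ v.ord (aeval x (pderiv c (h m' i))) = 0) := by
    intro t
    choose D hD using hTb t
    have := Fintype.ofFinite (Λ ⊕ (Fin (m + 3) ⊕ Fin 2))
    refine two_global (TcTypes_T (ch t) F) (Finset.univ.sup D) (fun l => ?_)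
      (fun c => .inr (.inr c)) (fun c i => rfl) (jj (ch t) 0) (jj (ch t) 1)
    filter_upwards [hD l] with i hi
    exact ⟨hi.1, hi.2.trans (Finset.le_sup (f := D) (Finset.mem_univ l))⟩
  choose N₀ pt M h κ hty hirr hglob using key
  choose ι hfin τ hdom hrlz using hty
  have : ∀ t s, Finite (ι t s) := hfin
  refine ⟨Σ t : Fin N, (Σ s : Fin (N₀ t), ι t s) ⊕ Fin (M t), inferInstance, fun p =>
    match p with
    | ⟨t, .inl su⟩ => TcTypes_pt (ch t) (χ t) (τ t su.1 su.2)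
    | ⟨t, .inr m'⟩ => TcTypes_cv (ch t) (χ t) (fun l => κ t l m'), ?_, ?_⟩
  · have e1 : ∀ᶠ i in UU, ∀ t l, QD (ch t) (χ t l) (F l i) := eventually_all.2 hχ
    have e2 : ∀ᶠ i in UU, ∀ t s, Dom (τ t s) (fun l => tr (pt t s i) (TcTypes_T (ch t) F l i))
        (tr (pt t s i) (X 0 ^ jj (ch t) 0 * X 1 ^ jj (ch t) 1)) :=
      eventually_all.2 fun t => eventually_all.2 fun s => hdom t s
    have e3 := eventually_all.2 hirr
    have e4 := eventually_all.2 hglob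
    filter_upwards [hFne, e1, e2, e3, e4] with i h1 h2 h3 h4 h5 E hE
    obtain ⟨t, ht⟩ := hcov fun b => E.ord (xx k b)
    have hxne : ∀ b : Fin (m + 3), xx k b ≠ 0 := fun b => TcTypes_ne (X_ne_zero b)
    have hz : ∀ c, 0 ≤ E.ord (zz (ch t) (fun b => xx k b) c) := by
      intro c
      have e : E.ord (zz (ch t) (fun b => xx k b) c) =
          ∑ b, (ch t).ze c b * E.ord (xx k b) := by
        unfold zz
        rw [E.toOrdFn.ord_prod _ _ fun b _ => zpow_ne_zero _ (hxne b)]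
        exact Finset.sum_congr rfl fun b _ => TcTypes_zpow E.toOrdFn (hxne b) _
      rw [e]
      exact ht c
    rcases TcTypes_dom (ch t) (χ t) F i h1 (h2 t) E hE hz (N₀ t) (fun s => pt t s i) (M t)
      (fun m' => h t m' i) (κ t) (ι t) (τ t) (h3 t) (h4 t).1 (h5 t) with
      ⟨s, u, θ, ha, hb, hc⟩ | ⟨m', θ, ha, hb, hc⟩
    · exact ⟨⟨t, .inl ⟨s, u⟩⟩, θ, ha, hb, hc⟩
    · exact ⟨⟨t, .inr m'⟩, θ, ha, hb, hc⟩
  · rintro ⟨t, ⟨s, u⟩ | m'⟩ θ hOk
    · change (TcTypes_pt (ch t) (χ t) (τ t s u)).P → ℤ at θ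
      change (TcTypes_pt (ch t) (χ t) (τ t s u)).Ok θ at hOk
      have hθ : θ = Sum.elim (θ ∘ Sum.inl) (θ ∘ Sum.inr) := (Sum.elim_comp_inl_inr θ).symm
      rw [hθ, TcTypes_pt_ok] at hOk
      obtain ⟨ho1, ho2⟩ := hOk
      have hn : ∀ a, (((θ (.inr a)).toNat : ℕ) : ℤ) = θ (.inr a) := fun a =>
        Int.toNat_of_nonneg ((Int.natCast_nonneg _).trans (ho1 a))
      have hlo : (τ t s u).lo ≤ fun a => (θ (.inr a)).toNat := by
        intro a
        have h1 : (((τ t s u).lo a : ℕ) : ℤ) ≤ (((θ (.inr a)).toNat : ℕ) : ℤ) :=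
          (ho1 a).trans_eq (hn a).symm
        exact_mod_cast h1
      filter_upwards [hFne, hχ t, hrlz t s u _ hlo] with i h1 h2 h3
      obtain ⟨E, g, A₁, hg, hcz, hlog, hA, hval⟩ := tc_real_pt (ch t) (pt t s i) (τ t s u)
        (fun a => (θ (.inr a)).toNat) (fun l => TcTypes_T (ch t) F l i) h3 (θ ∘ Sum.inl)
        (fun b => .inr (.inl b)) (fun b => rfl) (fun b => by
          rw [TcTypes_vvN]
          simp only [hn]
          exact ho2 b)
      refine ⟨E, g, A₁, hg, hcz, hlog, ?_, fun l => ?_⟩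
      · change _ ≤ (TcTypes_pt (ch t) (χ t) (τ t s u)).aa θ
        rw [hθ, TcTypes_pt_aa]
        rw [TcTypes_aaN] at hA
        simp only [hn] at hA
        exact hA
      · change (TcTypes_pt (ch t) (χ t) (τ t s u)).vv l θ ≤ _
        have h4 := hval (F l i) (χ t l) (.inl l) (h1 l) (h2 l) rfl
        rw [TcTypes_vvN] at h4
        simp only [hn] at h4
        rw [hθ, TcTypes_pt_vv]
        exact h4
    · change (TcTypes_cv (ch t) (χ t) (fun l => κ t l m')).P → ℤ at θ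
      change (TcTypes_cv (ch t) (χ t) (fun l => κ t l m')).Ok θ at hOk
      have hθ : θ = Sum.elim (θ ∘ Sum.inl) (θ ∘ Sum.inr) := (Sum.elim_comp_inl_inr θ).symm
      rw [hθ, TcTypes_cv_ok] at hOk
      obtain ⟨ho1, ho2⟩ := hOk
      have hn : (((θ (.inr ())).toNat : ℕ) : ℤ) = θ (.inr ()) := Int.toNat_of_nonneg ho1
      filter_upwards [hFne, hχ t, hirr t] with i h1 h2 h3
      obtain ⟨E, g, A₁, hg, hcz, hlog, hA, hval⟩ := tc_real_curve (ch t) (h t m' i) (h3.1 m')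
        (θ (.inr ())).toNat (θ ∘ Sum.inl) (fun b => κ t (.inr (.inl b)) m')
        (fun b => h3.2 m' (.inr (.inl b))) (fun c => κ t (.inr (.inr c)) m')
        (fun c => h3.2 m' (.inr (.inr c))) (fun b => by
          rw [hn]
          exact ho2 b)
      rw [hn] at hA
      refine ⟨E, g, A₁, hg, hcz, hlog, ?_, fun l => ?_⟩
      · change _ ≤ (TcTypes_cv (ch t) (χ t) (fun l => κ t l m')).aa θ
        rw [hθ, TcTypes_cv_aa]
        exact hA
      · change (TcTypes_cv (ch t) (χ t) (fun l => κ t l m')).vv l θ ≤ _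
        have h4 := hval (F l i) (χ t l) (κ t (.inl l) m') (h1 l) (h2 l) (h3.2 m' (.inl l))
        rw [hn] at h4
        rw [hθ, TcTypes_cv_vv]
        exact h4

end MLD
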