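import Mathlib

/-!
PIECE MLD-C07: the minimum of a piecewise linear function over the lattice points of a polyhedron is
attained if it is bounded below.

PROOF. As `min_attained` in `Dick.lean` (copy it), with integers: if there is no minimum there is a
sequence `θ n` in the polyhedron with `φ (θ n)` strictly decreasing (start from the given point `θs`).
To `n` attach the tuple of natural numbers: `(∑ cons κ c * θ n c - lo κ).toNat` for all `κ`, the
slacks `(∑ val j l c * θ n c - ∑ val j (cell j) c * θ n c).toNat` for all `j, l`, and the indicator of the cell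
`cell j` (an index `l` where `∑ val j l c * θ n c` is minimal).  By Dickson (`wellQuasiOrdered_le`)
there are `m < n` with componentwise `≤`; the cells agree.  Put `d := θ n - θ m`.  Then
`∑ cons κ c * d c ≥ 0`, and `∑ val j (cell j) c * d c ≤ ∑ val j l c * d c`, so `θ m + t d` is in the polyhedron with
the same cell for all `t : ℕ` and `φ (θ m + t d) = φ (θ m) + t (φ (θ n) - φ (θ m))`, negative for large `t`.
(No injectivity of the attached tuple is needed.)
-/

namespace MLD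

private theorem ZMin_lin {ι : Type} [Fintype ι] (a θ d : ι → ℤ) (t : ℤ) :
    ∑ c, a c * (θ c + t * d c) = ∑ c, a c * θ c + t * ∑ c, a c * d c := by
  rw [Finset.mul_sum, ← Finset.sum_add_distrib]
  refine Finset.sum_congr rfl fun c _ => ?_
  ring

private theorem ZMin_inf {L : Type} [Fintype L] [Nonempty L] (f : L → ℤ) (l : L)
    (h : ∀ l', f l ≤ f l') : Finset.univ.inf' Finset.univ_nonempty f = f l := by
  apply le_antisymm
  · exact Finset.inf'_le f (Finset.mem_univ l)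
  · exact Finset.le_inf' _ _ fun l' _ => h l'

theorem min_attainedZ {ι K : Type} [Fintype ι] [Fintype K] (cons : K → ι → ℤ) (lo : K → ℤ)
    (A : ι → ℤ) {Jt : Type} [Fintype Jt]
    (Λ : Jt → Type) [∀ j, Fintype (Λ j)] [∀ j, Nonempty (Λ j)] (val : ∀ j, Λ j → ι → ℤ)
    (lam : Jt → ℝ) (φ : (ι → ℤ) → ℝ)
    (hφ : ∀ θ, φ θ = ((∑ c, A c * θ c : ℤ) : ℝ) -
      ∑ j, lam j *
        ((Finset.univ.inf' Finset.univ_nonempty fun l : Λ j => ∑ c, val j l c * θ c : ℤ) : ℝ))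
    (hpos : ∀ θ, (∀ κ, lo κ ≤ ∑ c, cons κ c * θ c) → 0 ≤ φ θ)
    (θs : ι → ℤ) (hθs : ∀ κ, lo κ ≤ ∑ c, cons κ c * θs c) :
    ∃ θ₀, (∀ κ, lo κ ≤ ∑ c, cons κ c * θ₀ c) ∧
      ∀ θ, (∀ κ, lo κ ≤ ∑ c, cons κ c * θ c) → φ θ₀ ≤ φ θ := by
  classical
  by_contra hcon
  push Not at hcon
  -- a strictly decreasing sequence
  choose g hg1 hg2 using hcon
  let nx : {θ : ι → ℤ // ∀ κ, lo κ ≤ ∑ c, cons κ c * θ c} →
      {θ : ι → ℤ // ∀ κ, lo κ ≤ ∑ c, cons κ c * θ c} := fun x => ⟨g x.1 x.2, hg1 x.1 x.2⟩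
  let sq : ℕ → {θ : ι → ℤ // ∀ κ, lo κ ≤ ∑ c, cons κ c * θ c} := fun n => nx^[n] ⟨θs, hθs⟩
  have hsq : ∀ n, φ (sq (n + 1)).1 < φ (sq n).1 := by
    intro n
    have h1 : sq (n + 1) = nx (sq n) := Function.iterate_succ_apply' nx n _
    rw [h1]
    exact hg2 (sq n).1 (sq n).2
  have hanti : StrictAnti fun n => φ (sq n).1 := strictAnti_nat_of_succ_lt hsq
  -- the cells
  have hcell : ∀ (θ : ι → ℤ) (j : Jt), ∃ l : Λ j, ∀ l' : Λ j,
      ∑ c, val j l c * θ c ≤ ∑ c, val j l' c * θ c := by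
    intro θ j
    obtain ⟨l, -, hl⟩ := Finset.exists_min_image (Finset.univ : Finset (Λ j))
      (fun l => ∑ c, val j l c * θ c) Finset.univ_nonempty
    exact ⟨l, fun l' => hl l' (Finset.mem_univ l')⟩
  choose cell hc using hcell
  -- Dickson
  let F : ℕ → (K → ℕ) × (((Σ j, Λ j) → ℕ) × ((Σ j, Λ j) → ℕ)) := fun n =>
    ((fun κ => (∑ c, cons κ c * (sq n).1 c - lo κ).toNat),
      (fun p => (∑ c, val p.1 p.2 c * (sq n).1 c -
      ∑ c, val p.1 (cell (sq n).1 p.1) c * (sq n).1 c).toNat),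
      (fun p => if cell (sq n).1 p.1 = p.2 then 1 else 0))
  obtain ⟨m, n, hmn, hF⟩ := wellQuasiOrdered_le F
  obtain ⟨hF1, hF2, hF3⟩ : (F m).1 ≤ (F n).1 ∧ (F m).2.1 ≤ (F n).2.1 ∧ (F m).2.2 ≤ (F n).2.2 :=
    ⟨hF.1, hF.2.1, hF.2.2⟩
  have hceq : ∀ j, cell (sq n).1 j = cell (sq m).1 j := by
    intro j
    have h1 := hF3 ⟨j, cell (sq m).1 j⟩
    change (if cell (sq m).1 j = cell (sq m).1 j then 1 else 0) ≤
      (if cell (sq n).1 j = cell (sq m).1 j then 1 else 0) at h1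
    rw [if_pos rfl] at h1
    by_contra h2
    rw [if_neg h2] at h1
    exact Nat.not_succ_le_zero 0 h1
  obtain ⟨θ, hθdef⟩ : ∃ θ, θ = (sq m).1 := ⟨_, rfl⟩
  obtain ⟨d, hd⟩ : ∃ d : ι → ℤ, ∀ c, (sq n).1 c = θ c + d c := by
    refine ⟨fun c => (sq n).1 c - θ c, fun c => ?_⟩
    ring
  have hn : (sq n).1 = fun c => θ c + 1 * d c := by
    funext c
    rw [hd c, one_mul]
  have hlo : ∀ κ, lo κ ≤ ∑ c, cons κ c * θ c := by
    rw [hθdef]
    exact (sq m).2
  -- the direction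
  have hcons : ∀ κ, 0 ≤ ∑ c, cons κ c * d c := by
    intro κ
    have h1 := hF1 κ
    change (∑ c, cons κ c * (sq m).1 c - lo κ).toNat ≤
      (∑ c, cons κ c * (sq n).1 c - lo κ).toNat at h1
    have h3 := (sq n).2 κ
    rw [← hθdef, hn, ZMin_lin] at h1
    rw [hn, ZMin_lin] at h3
    have h2 := hlo κ
    omega
  have hdir : ∀ j (l' : Λ j), ∑ c, val j (cell θ j) c * d c ≤ ∑ c, val j l' c * d c := by
    intro j l'
    have h1 := hF2 ⟨j, l'⟩
    change (∑ c, val j l' c * (sq m).1 c - ∑ c, val j (cell (sq m).1 j) c * (sq m).1 c).toNat ≤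
      (∑ c, val j l' c * (sq n).1 c - ∑ c, val j (cell (sq n).1 j) c * (sq n).1 c).toNat at h1
    rw [hceq j, ← hθdef, hn] at h1
    rw [ZMin_lin, ZMin_lin] at h1
    have h2 := hc θ j l'
    have h3 := hc (sq n).1 j l'
    rw [hceq j, ← hθdef, hn, ZMin_lin, ZMin_lin] at h3
    omega
  have hval : ∀ t : ℕ, φ (fun c => θ c + (t : ℤ) * d c) =
      φ θ + t * (((∑ c, A c * d c : ℤ) : ℝ) -
        ∑ j, lam j * ((∑ c, val j (cell θ j) c * d c : ℤ) : ℝ)) := by
    intro t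
    rw [hφ, hφ θ]
    have h1 : ∀ j, (Finset.univ.inf' Finset.univ_nonempty
        fun l : Λ j => ∑ c, val j l c * (θ c + (t : ℤ) * d c)) =
        ∑ c, val j (cell θ j) c * (θ c + (t : ℤ) * d c) := by
      intro j
      refine ZMin_inf (fun l : Λ j => ∑ c, val j l c * (θ c + (t : ℤ) * d c)) (cell θ j)
        fun l' => ?_
      change ∑ c, val j (cell θ j) c * (θ c + (t : ℤ) * d c) ≤
        ∑ c, val j l' c * (θ c + (t : ℤ) * d c)
      rw [ZMin_lin, ZMin_lin]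
      exact add_le_add (hc θ j l')
        (mul_le_mul_of_nonneg_left (hdir j l') (Int.natCast_nonneg t))
    have h2 : ∀ j, (Finset.univ.inf' Finset.univ_nonempty
        fun l : Λ j => ∑ c, val j l c * θ c) = ∑ c, val j (cell θ j) c * θ c := fun j =>
      ZMin_inf (fun l : Λ j => ∑ c, val j l c * θ c) (cell θ j) (hc θ j)
    have e1 : ∑ j, lam j * ((Finset.univ.inf' Finset.univ_nonempty
        fun l : Λ j => ∑ c, val j l c * (θ c + (t : ℤ) * d c) : ℤ) : ℝ) =
        ∑ j, lam j * ((∑ c, val j (cell θ j) c * θ c +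
          (t : ℤ) * ∑ c, val j (cell θ j) c * d c : ℤ) : ℝ) :=
      Finset.sum_congr rfl fun j _ => by rw [h1 j, ZMin_lin]
    have e2 : ∑ j, lam j * ((Finset.univ.inf' Finset.univ_nonempty
        fun l : Λ j => ∑ c, val j l c * θ c : ℤ) : ℝ) =
        ∑ j, lam j * ((∑ c, val j (cell θ j) c * θ c : ℤ) : ℝ) :=
      Finset.sum_congr rfl fun j _ => by rw [h2 j]
    rw [e1, e2, ZMin_lin]
    push_cast
    have h3 : ∑ j, lam j * ((∑ c, (val j (cell θ j) c : ℝ) * (θ c : ℝ)) +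
        (t : ℝ) * ∑ c, (val j (cell θ j) c : ℝ) * (d c : ℝ)) =
        ∑ j, lam j * (∑ c, (val j (cell θ j) c : ℝ) * (θ c : ℝ)) +
        (t : ℝ) * ∑ j, lam j * ∑ c, (val j (cell θ j) c : ℝ) * (d c : ℝ) := by
      rw [Finset.mul_sum, ← Finset.sum_add_distrib]
      refine Finset.sum_congr rfl fun j _ => ?_
      ring
    rw [h3]
    ring
  set δ : ℝ := ((∑ c, A c * d c : ℤ) : ℝ) -
        ∑ j, lam j * ((∑ c, val j (cell θ j) c * d c : ℤ) : ℝ) with hδ
  have hneg : δ < 0 := by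
    have h1 := hanti hmn
    change φ (sq n).1 < φ (sq m).1 at h1
    have h2 := hval 1
    rw [← hθdef, hn] at h1
    push_cast at h2
    rw [one_mul] at h2
    have h3 : φ (fun c => θ c + 1 * d c) = φ θ + δ := by
      simpa using h2
    rw [h3] at h1
    linarith
  obtain ⟨t, ht⟩ := exists_nat_gt (φ θ / (-δ))
  have h1 := hpos (fun c => θ c + (t : ℤ) * d c) (fun κ => by
    rw [ZMin_lin]
    have h4 := hlo κ
    have h5 : 0 ≤ (t : ℤ) * ∑ c, cons κ c * d c := mul_nonneg (Int.natCast_nonneg t) (hcons κ)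
    omega)
  rw [hval t] at h1
  have h2 : φ θ < t * (-δ) := by
    rwa [div_lt_iff₀ (by linarith)] at ht
  nlinarith

end MLD
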