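import Pool.Agent.MLD.Qc
import Pool.Agent.MLD.Core
import Pool.Agent.MLD.ZMin

/-!
PIECE MLD-C08: boundedness from global types.

PROOF. As `core` in `Core.lean` (copy and simplify; there is no partition into blocks).  By contradiction:
for every `ℓ` a tuple `a ℓ` (nonzero, `a ℓ j = span (S ℓ j)`, `S ℓ j ⊆ 𝓕`) such that every `E` with
`CenterZero`, `logDisc ≤ ℓ` has `0 ≤ aDisc` and is not computing.  `noeth_ev` for `S ℓ j` gives `N j`,
sequences `p j l`.  `N j > 0` if `0 < lam j` as in `core` (reference divisor `exists_divisor X (fun _ => 1)`).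
`Λ := Σ j, Fin (N j)`, `F ⟨j, l⟩ := p j l`; `hGT` gives types `τ`.  Data: `μ t θ j :=` minimum over
`l : Fin (N j)` of `(τ t).vv ⟨j,l⟩ θ : ℤ` for `j` with `0 < lam j`; `φ t θ := aa θ - ∑ lam j * μ t θ j`.
Upper estimate: for `(τ t).Ok θ` and almost all `ℓ` the realized `E, g, A₁` satisfies
`μ t θ j ≤ g * E.ordI (a ℓ j)`: let `n₀ := (μ t θ j).toNat`; every `q ∈ S ℓ j` is
`∑ h l * p j l ℓ` plus terms of degree `≥ n₀` (property of `noeth_ev` for `n := n₀`), and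
`g * E.ord (h * p) ≥ g * E.ord p ≥ μ`, and terms of degree `≥ n₀` have order `≥ n₀` (`E.CenterZero`; see
`PsVal_ge`/`mem_mm_pow..`/`ordI_mm_pow`); so
`g * E.ord q ≥ μ` for all nonzero `q ∈ a ℓ j` (span induction, `E.ge`), then `ordI_mem`.
`A₁ ≤ g * A₁ ≤ aa θ`, so `aa θ ≥ 0` and `E.logDisc ≤ aa θ =: (aa θ).toNat ≤ ℓ` for almost all `ℓ`, so
`0 ≤ E.aDisc lam (a ℓ) ≤ (1/g) φ t θ`; hence `0 ≤ φ t θ` and `E.aDisc ≤ φ t θ`.
Lower estimate: for almost all `ℓ`, every `E` has `t, θ` with `Ok` and `φ t θ ≤ E.aDisc lam (a ℓ)` (`le_aDisc`;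
`E.ordI (a ℓ j) ≤ E.ord (p j l ℓ) ≤ vv`, as in `core`).
Minimum: for every `t` for which there is `θ` with `(τ t).Ok θ`, `min_attainedZ`; the other `t` are
irrelevant (use `Option` or `Finite.exists_min` on the subtype of the `t` with a point; it is nonempty by the lower
estimate for the reference divisor).  Conclude as in `core`.
-/

open MvPolynomial Filter

namespace MLD

universe u

variable {k : Type u} [Field k] {σ : Type} [Fintype σ] [DecidableEq σ]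

omit [DecidableEq σ] in
private theorem ZCore_ge_low (E : DivisorOver k σ) (hE : E.CenterZero) (n : ℕ)
    (G : MvPolynomial σ k) (hG : ∀ m : σ →₀ ℕ, m.degree < n → coeff m G = 0) :
    E.ge n (toFF k σ G) := by
  have h1 : toFF k σ = aeval (fun i => xx k i) := by
    apply MvPolynomial.algHom_ext
    intro i
    rw [aeval_X]
    rfl
  rw [h1]
  refine E.ge_aeval _ (fun _ => 1) (fun b => Or.inr (hE b)) G n fun m hm => ?_
  by_contra hcon
  apply hm
  apply hG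
  have h2 : (m.sum fun _ n => (n : ℤ) * 1) = ((m.degree : ℕ) : ℤ) := by
    rw [Finsupp.degree_apply, Finsupp.sum]
    push_cast
    simp
  rw [h2] at hcon
  omega

omit [DecidableEq σ] in
private theorem ZCore_ge_poly (E : DivisorOver k σ) (f : MvPolynomial σ k) :
    E.ge 0 (toFF k σ f) := by
  by_cases h0 : f = 0
  · left
    rw [h0, map_zero]
  · exact Or.inr (E.ord_poly' f h0)

omit [DecidableEq σ] in
private theorem ZCore_ordI_ge (E : DivisorOver k σ) (hE : E.CenterZero) (g : ℕ) (hg : 0 < g)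
    (S : Set (MvPolynomial σ k)) (hS : Ideal.span S ≠ ⊥) (μ : ℤ) {N : ℕ}
    (p : Fin N → MvPolynomial σ k) (hp : ∀ l, μ ≤ g * E.ord (toFF k σ (p l)))
    (h : ∀ q ∈ S, ∃ h : Fin N → MvPolynomial σ k, ∀ m : σ →₀ ℕ,
        m.degree < μ.toNat → coeff m (q - ∑ l, h l * p l) = 0) :
    μ ≤ g * (E.ordI (Ideal.span S) : ℤ) := by
  have hgz : (0 : ℤ) < g := by exact_mod_cast hg
  rcases le_or_gt μ 0 with h0 | h0
  · exact h0.trans (mul_nonneg hgz.le (Int.natCast_nonneg _))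
  have hμ : ((μ.toNat : ℕ) : ℤ) = μ := Int.toNat_of_nonneg h0.le
  have hex : ∃ n : ℕ, μ ≤ g * (n : ℤ) := by
    refine ⟨μ.toNat, ?_⟩
    rw [hμ]
    have h2 : 1 * μ ≤ g * μ := mul_le_mul_of_nonneg_right (by omega) h0.le
    omega
  have h1 := Nat.find_spec hex
  have h2 : ∀ x : ℤ, μ ≤ g * x → ((Nat.find hex : ℕ) : ℤ) ≤ x := by
    intro x hx
    have hx0 : 0 ≤ x := by
      by_contra hneg
      have : (g : ℤ) * x ≤ g * 0 := mul_le_mul_of_nonneg_left (by omega) hgz.le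
      rw [mul_zero] at this
      omega
    have h3 : Nat.find hex ≤ x.toNat := by
      refine Nat.find_min' hex ?_
      rw [Int.toNat_of_nonneg hx0]
      exact hx
    omega
  have h3 : ((Nat.find hex : ℕ) : ℤ) ≤ (μ.toNat : ℤ) := by
    rw [hμ]
    refine h2 μ ?_
    have h2 : 1 * μ ≤ g * μ := mul_le_mul_of_nonneg_right (by omega) h0.le
    omega
  have hmain : Nat.find hex ≤ E.ordI (Ideal.span S) := by
    refine le_ordI_span E hS _ fun f hf hf0 => ?_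
    obtain ⟨c, hc⟩ := h f hf
    have h4 : E.ge ((Nat.find hex : ℕ) : ℤ) (toFF k σ f) := by
      have h5 : f = (f - ∑ l, c l * p l) + ∑ l, c l * p l := by ring
      rw [h5, map_add]
      refine E.ge_add (E.ge_mono h3 (ZCore_ge_low E hE μ.toNat _ hc)) ?_
      rw [map_sum]
      refine E.ge_sum _ _ fun l _ => ?_
      rw [map_mul]
      have h6 := E.ge_mul (ZCore_ge_poly E (c l)) (g := toFF k σ (p l)) (N := (Nat.find hex : ℕ))
        (Or.inr (h2 _ (hp l)))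
      rwa [zero_add] at h6
    rcases h4 with h4 | h4
    · exfalso
      apply hf0
      have hinj : Function.Injective (algebraMap (MvPolynomial σ k) (FF k σ)) :=
        IsFractionRing.injective (MvPolynomial σ k) (FF k σ)
      apply hinj
      rw [map_zero]
      exact h4
    · exact h4
  refine h1.trans (mul_le_mul_of_nonneg_left ?_ hgz.le)
  exact_mod_cast hmain

theorem coreZ [CharZero k] [Nonempty σ] (𝓕 : Set (MvPolynomial σ k)) (hGT : GT 𝓕) {r : ℕ}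
    (lam : Fin r → ℝ) (hlam : ∀ j, 0 ≤ lam j) : BddT (GenBy (r := r) 𝓕) lam := by
  classical
  by_contra hcon
  unfold BddT at hcon
  push Not at hcon
  choose a ha0 haC hE using hcon
  choose S hS1 hS2 using haC
  have hne : ∀ ℓ j, (S ℓ j).Nonempty := by
    intro ℓ j
    rw [Set.nonempty_iff_ne_empty]
    intro h0
    apply ha0 ℓ j
    rw [hS2, h0, Ideal.span_empty]
  have hspan : ∀ ℓ j, Ideal.span (S ℓ j) ≠ ⊥ := by
    intro ℓ j
    rw [← hS2]
    exact ha0 ℓ j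
  have hnoeth := fun j => noeth_ev (fun ℓ => S ℓ j) (fun ℓ => hne ℓ j)
  choose N p hp1 hp2 hp3 using hnoeth
  have hge : ∀ A : ℕ, ∀ᶠ ℓ in UU, A ≤ ℓ := fun A => by
    have h1 : ∀ᶠ ℓ in (Filter.cofinite : Filter ℕ), A ≤ ℓ := by
      rw [Nat.cofinite_eq_atTop]
      exact eventually_ge_atTop A
    exact h1.filter_mono (hyperfilter_le_cofinite)
  -- the reference divisor
  obtain ⟨E0, g0, A0, hg0, hE0, hlog0, -, hord0⟩ := exists_divisor (k := k) (σ := σ) X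
    (fun _ => 1) bir_X wo_X_one (by rw [jacP_X]; exact one_ne_zero)
  -- the limits are not zero
  have hN : ∀ j, 0 < lam j → 0 < N j := by
    intro j hj
    by_contra hN0
    have hN0 : N j = 0 := by omega
    obtain ⟨n0, hn0⟩ := exists_nat_gt ((A0 : ℝ) / lam j)
    refine core_ev_false ?_
    filter_upwards [hge A0, hp3 j (g0 * n0)] with ℓ hℓ hgen
    have hlogℓ : E0.logDisc ≤ ((ℓ : ℝ) : EReal) := hlog0.trans (by exact_mod_cast hℓ)
    obtain ⟨hpos, -⟩ := hE ℓ E0 hE0 hlogℓ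
    have h1 := hpos.trans (aDisc_le E0 lam hlam (a ℓ) A0 hlog0 (fun j => (E0.ordI (a ℓ j) : ℝ))
      (fun _ _ => le_rfl))
    have h2 : 0 ≤ (A0 : ℝ) - ∑ j, lam j * (E0.ordI (a ℓ j) : ℝ) := by exact_mod_cast h1
    have h3 : lam j * (E0.ordI (a ℓ j) : ℝ) ≤ ∑ j, lam j * (E0.ordI (a ℓ j) : ℝ) :=
      Finset.single_le_sum (f := fun j => lam j * (E0.ordI (a ℓ j) : ℝ))
        (fun i _ => mul_nonneg (hlam i) (Nat.cast_nonneg _)) (Finset.mem_univ j)
    have h4 : (E0.ordI (a ℓ j) : ℝ) < n0 := by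
      refine lt_of_le_of_lt ?_ hn0
      rw [le_div_iff₀ hj]
      linarith
    have h5 : E0.ordI (a ℓ j) < n0 := by exact_mod_cast h4
    have h6 : n0 ≤ E0.ordI (a ℓ j) := by
      rw [hS2]
      refine le_ordI_span E0 (hspan ℓ j) n0 fun f hf hf0 => ?_
      obtain ⟨h, hh⟩ := hgen f hf
      have h7 : ∀ m : σ →₀ ℕ, m.degree < g0 * n0 → coeff m f = 0 := by
        intro m hm
        have h8 := hh m hm
        have h9 : ∑ l, h l * p j l ℓ = 0 := by
          apply Finset.sum_eq_zero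
          intro l _
          exact absurd l.2 (by omega)
        rwa [h9, sub_zero] at h8
      have h8 := le_wo_aeval (fun _ : σ => 1) X wo_X_one (g0 * n0) f h7
      obtain ⟨m, hm1, hm2⟩ := hord0 f hf0
      rw [hm2] at h8
      rw [hm1]
      have h9 : g0 * n0 ≤ g0 * m := by exact_mod_cast h8
      exact_mod_cast Nat.le_of_mul_le_mul_left h9 (by omega)
    omega
  -- the types
  let Λ : Type := Σ j : Fin r, Fin (N j)
  have hpm : ∀ (l : Λ) (ℓ : ℕ), p l.1 l.2 ℓ ∈ 𝓕 := fun l ℓ => hS1 ℓ l.1 (hp1 l.1 l.2 ℓ)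
  obtain ⟨ι, hι, τ, hdom, hrlz⟩ := hGT Λ (fun l => p l.1 l.2) hpm (fun l => hp2 l.1 l.2)
  have hp0 : ∀ᶠ ℓ in UU, ∀ l : Λ, p l.1 l.2 ℓ ≠ 0 := by
    rw [Filter.eventually_all]
    intro l
    obtain ⟨m, hm⟩ := hp2 l.1 l.2
    exact hm.mono fun ℓ h h0 => h (by rw [h0, coeff_zero])
  -- the linear data
  let Jt : Type := {j : Fin r // 0 < lam j}
  have hNe : ∀ j : Jt, Nonempty (Fin (N j.1)) := fun j => ⟨⟨0, hN j.1 j.2⟩⟩
  let vl : ∀ (t : ι) (j : Jt), Fin (N j.1) → (τ t).P → ℤ :=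
    fun t j l c => (τ t).val ⟨j.1, l⟩ c
  let μ : ∀ t : ι, ((τ t).P → ℤ) → Jt → ℤ := fun t θ j =>
    Finset.univ.inf' Finset.univ_nonempty fun l : Fin (N j.1) => ∑ c, vl t j l c * θ c
  let φ : ∀ t : ι, ((τ t).P → ℤ) → ℝ := fun t θ =>
    ((∑ c, (τ t).A c * θ c : ℤ) : ℝ) - ∑ j : Jt, lam j.1 * ((μ t θ j : ℤ) : ℝ)
  -- upper estimate
  have hU : ∀ (t : ι) (θ : (τ t).P → ℤ), (τ t).Ok θ →
      0 ≤ φ t θ ∧ ∀ᶠ ℓ in UU, ∃ E : DivisorOver k σ, E.CenterZero ∧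
        E.logDisc ≤ (((((τ t).aa θ).toNat : ℕ) : ℝ) : EReal) ∧
        E.aDisc lam (a ℓ) ≤ ((φ t θ : ℝ) : EReal) := by
    intro t θ hθ
    have hkey : ∀ᶠ ℓ in UU, ∃ E : DivisorOver k σ, E.CenterZero ∧
        E.logDisc ≤ (((((τ t).aa θ).toNat : ℕ) : ℝ) : EReal) ∧
        E.aDisc lam (a ℓ) ≤ ((φ t θ : ℝ) : EReal) ∧ 0 ≤ φ t θ := by
      have e2 := Filter.eventually_all.mpr fun j : Jt => hp3 j.1 (μ t θ j).toNat
      filter_upwards [hrlz t θ hθ, e2, hge ((τ t).aa θ).toNat] with ℓ h1 h2 h3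
      obtain ⟨E, g, A1, hg, hEc, hlog, hgA, hord⟩ := h1
      have hμ : ∀ j : Jt, μ t θ j ≤ g * (E.ordI (a ℓ j.1) : ℤ) := by
        intro j
        rw [hS2]
        refine ZCore_ordI_ge E hEc g hg _ (hspan ℓ j.1) (μ t θ j) (fun l => p j.1 l ℓ)
          (fun l => ?_) (h2 j)
        exact (Finset.inf'_le _ (Finset.mem_univ l)).trans (hord ⟨j.1, l⟩)
      have hg' : (0 : ℝ) < g := by exact_mod_cast hg
      have haD := aDisc_le E lam hlam (a ℓ) A1 hlog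
        (fun j => if h : 0 < lam j then (((μ t θ ⟨j, h⟩ : ℤ) : ℝ) / g) else 0) (fun j hj => by
          simp only [dif_pos hj]
          rw [div_le_iff₀ hg', mul_comm]
          exact_mod_cast hμ ⟨j, hj⟩)
      rw [sum_pos_subtype lam (fun j => ((μ t θ j : ℤ) : ℝ) / g)] at haD
      have hgA' : (g : ℝ) * A1 ≤ ((∑ c, (τ t).A c * θ c : ℤ) : ℝ) := by
        have h5 : ((g * A1 : ℕ) : ℤ) ≤ ∑ c, (τ t).A c * θ c := hgA
        have h6 : (((g * A1 : ℕ) : ℤ) : ℝ) ≤ ((∑ c, (τ t).A c * θ c : ℤ) : ℝ) :=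
          Int.cast_le.mpr h5
        rwa [Int.cast_natCast, Nat.cast_mul] at h6
      have hle : (A1 : ℝ) - ∑ j : Jt, lam j.1 * (((μ t θ j : ℤ) : ℝ) / g) ≤ φ t θ / g := by
        rw [le_div_iff₀ hg', sub_mul, Finset.sum_mul]
        have h5 : (A1 : ℝ) * g ≤ ((∑ c, (τ t).A c * θ c : ℤ) : ℝ) := by
          rw [mul_comm]; exact hgA'
        have h6 : ∑ j : Jt, lam j.1 * (((μ t θ j : ℤ) : ℝ) / g) * g =
            ∑ j : Jt, lam j.1 * ((μ t θ j : ℤ) : ℝ) := by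
          refine Finset.sum_congr rfl fun j _ => ?_
          field_simp
        rw [h6]
        exact sub_le_sub_right h5 _
      have hA1 : (A1 : ℝ) ≤ ((((τ t).aa θ).toNat : ℕ) : ℝ) := by
        have h5 : A1 ≤ g * A1 := Nat.le_mul_of_pos_left _ hg
        have h6 : ((A1 : ℕ) : ℤ) ≤ ((g * A1 : ℕ) : ℤ) := Int.ofNat_le.mpr h5
        have h7 : A1 ≤ ((τ t).aa θ).toNat := by omega
        exact_mod_cast h7
      have hlog' : E.logDisc ≤ (((((τ t).aa θ).toNat : ℕ) : ℝ) : EReal) :=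
        hlog.trans (by exact_mod_cast hA1)
      have hpos := (hE ℓ E hEc (hlog'.trans (by exact_mod_cast h3))).1
      have h7 : (0 : ℝ) ≤ φ t θ / g := by
        have := hpos.trans (haD.trans (EReal.coe_le_coe_iff.mpr hle))
        exact_mod_cast this
      have h8 : 0 ≤ φ t θ := by
        have := mul_nonneg h7 hg'.le
        rwa [div_mul_cancel₀ _ hg'.ne'] at this
      have h9 : φ t θ / g ≤ φ t θ := div_le_self h8 (by exact_mod_cast hg)
      exact ⟨E, hEc, hlog', haD.trans (EReal.coe_le_coe_iff.mpr (hle.trans h9)), h8⟩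
    obtain ⟨ℓ, E, -, -, -, h0⟩ := hkey.exists
    exact ⟨h0, hkey.mono fun ℓ ⟨E, h1, h2, h3, _⟩ => ⟨E, h1, h2, h3⟩⟩
  -- lower estimate
  have hL : ∀ᶠ ℓ in UU, ∀ E : DivisorOver k σ, E.CenterZero → ∃ (t : ι) (θ : (τ t).P → ℤ),
      (τ t).Ok θ ∧ ((φ t θ : ℝ) : EReal) ≤ E.aDisc lam (a ℓ) := by
    filter_upwards [hdom, hp0] with ℓ h1 h2 E hEc
    obtain ⟨t, θ, hlo, hlog, hV⟩ := h1 E hEc
    refine ⟨t, θ, hlo, ?_⟩
    have h3 := le_aDisc E lam hlam (a ℓ) _ hlog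
      (fun j => if h : 0 < lam j then ((μ t θ ⟨j, h⟩ : ℤ) : ℝ) else 0)
      (fun j hj => by
        simp only [dif_pos hj]
        have h4 : (E.ordI (a ℓ j) : ℤ) ≤ μ t θ ⟨j, hj⟩ := by
          refine Finset.le_inf' _ _ fun l _ => ?_
          refine (ordI_le E ?_ (h2 ⟨j, l⟩)).trans (hV ⟨j, l⟩)
          rw [hS2]
          exact Ideal.subset_span (hp1 j l ℓ)
        exact_mod_cast h4)
    rw [sum_pos_subtype lam (fun j => ((μ t θ j : ℤ) : ℝ))] at h3
    exact h3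
  -- the minimum
  let ι' : Type := {t : ι // ∃ θ, (τ t).Ok θ}
  have hmin : ∀ t : ι', ∃ θ₀, (τ t.1).Ok θ₀ ∧ ∀ θ, (τ t.1).Ok θ → φ t.1 θ₀ ≤ φ t.1 θ := by
    rintro ⟨t, θs, hθs⟩
    exact min_attainedZ (τ t).cons (τ t).lo (τ t).A (fun j : Jt => Fin (N j.1)) (vl t)
      (fun j => lam j.1) (φ t) (fun θ => rfl) (fun θ hθ => (hU t θ hθ).1) θs hθs
  choose θ₀ hθ₀ hφmin using hmin
  have hfin : Finite ι' := Subtype.finite
  have hnonempty : Nonempty ι' := by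
    obtain ⟨ℓ, hℓ⟩ := hL.exists
    obtain ⟨t, θ, hθ, -⟩ := hℓ E0 hE0
    exact ⟨⟨t, θ, hθ⟩⟩
  obtain ⟨ts, hts⟩ := Finite.exists_min (fun t : ι' => φ t.1 (θ₀ t))
  have hend : ∀ᶠ _ℓ : ℕ in UU, False := by
    filter_upwards [(hU ts.1 (θ₀ ts) (hθ₀ ts)).2, hL, hge ((τ ts.1).aa (θ₀ ts)).toNat]
      with ℓ h1 h2 h3
    obtain ⟨E, hEc, hlog, haD⟩ := h1
    obtain ⟨-, E', hE'c, hlt⟩ := hE ℓ E hEc (hlog.trans (by exact_mod_cast h3))
    obtain ⟨t, θ, hlo, hle⟩ := h2 E' hE'c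
    have h4 := (hle.trans_lt hlt).trans_le haD
    have h5 : φ t θ < φ ts.1 (θ₀ ts) := by exact_mod_cast h4
    have h6 := (hts ⟨t, θ, hlo⟩).trans (hφmin ⟨t, θ, hlo⟩ θ hlo)
    linarith
  exact core_ev_false hend

end MLD
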