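import Pool.Agent.MLD.QcGroup
import Pool.Agent.MLD.QcMH
import Pool.Agent.MLD.ZCore
import Pool.Agent.MLD.TcTypes

/-!
PIECE MLD-C26: uniform semicontinuity for `ℝ`-ideals invariant under a torus of corank two.

PROOF. `exists_qclass_MH k (m+3) m`, `qclass_general`; the boundedness is `coreZ _ (gt_MH k W ..)`.
-/

open MvPolynomial Filter

namespace MLD

universe u

theorem q1_torus (k : Type u) [Field k] [IsAlgClosed k] [CharZero k] (m : ℕ)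
    (I : Set ℝ) (hI : I.Finite) (hI0 : ∀ t ∈ I, 0 ≤ t) :
    ∃ s : ℕ, 1 ≤ s ∧ ∀ (r : ℕ) (lam : Fin r → ℝ)
      (a b : Fin r → Ideal (MvPolynomial (Fin (m + 3)) k)),
      (∀ j, lam j ∈ I) → (∀ j, a j ≠ ⊥) → (∀ j, b j ≠ ⊥) →
      (∃ (W : Fin (m + 1) → Fin (m + 3) → ℤ)
        (φ : MvPowerSeries (Fin (m + 3)) k ≃ₐ[k] MvPowerSeries (Fin (m + 3)) k),
        LinearIndependent ℤ W ∧ (∀ i, 0 < W 0 i) ∧ ∀ j, FormalGen (MH W) φ (a j)) →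
      (∀ j, a j ⊔ mm k (Fin (m + 3)) ^ s = b j ⊔ mm k (Fin (m + 3)) ^ s) →
      (0 ≤ mld lam a ↔ 0 ≤ mld lam b) ∧
        (0 ≤ mld lam a → 0 ≤ mld lam b → mld lam a = mld lam b) := by
  obtain ⟨C, W, hP, hW, hV⟩ := exists_qclass_MH k (m + 3) m
  obtain ⟨s, hs, h⟩ := qclass_general C (fun α R lam hlam => by
    rw [hP α]
    exact coreZ _ (gt_MH k (W α) (hW α).1 (hW α).2) lam hlam) I hI hI0
  refine ⟨s, hs, fun r lam a b h1 h2 h3 h4 h5 => h r lam a b h1 h2 h3 ?_ h5⟩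
  obtain ⟨V, φ, hV1, hV2, h6⟩ := h4
  obtain ⟨α, rfl⟩ := hV V hV1 hV2
  exact ⟨α, φ, fun j => by rw [hP α]; exact h6 j⟩

end MLD
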