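import Pool.Agent.MLD.QcVar

/-!
PIECE MLD-C05: uniform semicontinuity for a `QClass`, any number of factors, exponents in a
finite set, arbitrary `b`.

PROOF. As `q1_general` in `Q1.lean` / `q1_split` in `SplitQ1.lean`: let `t : Fin R → ℝ` enumerate the
finite set `I`; for `r, lam, a` put `c i := ∏ j with lam j = t i, a j`; `Q1_group` gives
`mld lam a = mld t c`.  `FormalGen (C.P α) φ` is closed under products (`C.mul`, `Ideal.span_mul_span'`,
`φ` multiplicative; model `SplitQ1_mul`, `SplitQ1_prod`) and holds for `⊤` (`C.one`, generator `1`).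
The congruences multiply (`Q1_prod`).  Apply `qclass_fixed C t`.
-/

open MvPolynomial Filter

namespace MLD

universe u

variable {k : Type u} [Field k] [CharZero k] {σ : Type} [Fintype σ] [DecidableEq σ] [Nonempty σ]

omit [CharZero k] [Fintype σ] [DecidableEq σ] [Nonempty σ] in
private theorem QcGroup_top (𝒢 : Set (MvPolynomial σ k)) (h1 : (1 : MvPolynomial σ k) ∈ 𝒢)
    (φ : MvPowerSeries σ k ≃ₐ[k] MvPowerSeries σ k) :
    FormalGen 𝒢 φ (⊤ : Ideal (MvPolynomial σ k)) := by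
  refine ⟨{1}, ?_, ?_⟩
  · intro g hg
    rw [Set.mem_singleton_iff] at hg
    rw [hg]
    exact h1
  · unfold hatI
    rw [Ideal.map_top, Set.image_singleton, MvPolynomial.coe_one, map_one,
      Ideal.span_singleton_one]

omit [CharZero k] [Fintype σ] [DecidableEq σ] [Nonempty σ] in
private theorem QcGroup_mul (𝒢 : Set (MvPolynomial σ k))
    (hm : ∀ p ∈ 𝒢, ∀ q ∈ 𝒢, p * q ∈ 𝒢)
    (φ : MvPowerSeries σ k ≃ₐ[k] MvPowerSeries σ k)
    {I J : Ideal (MvPolynomial σ k)} (hI : FormalGen 𝒢 φ I) (hJ : FormalGen 𝒢 φ J) :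
    FormalGen 𝒢 φ (I * J) := by
  obtain ⟨S, hS, hS2⟩ := hI
  obtain ⟨T, hT, hT2⟩ := hJ
  refine ⟨{f | ∃ g ∈ S, ∃ h ∈ T, f = g * h}, ?_, ?_⟩
  · rintro f ⟨g, hg, h, hh, rfl⟩
    exact hm g (hS hg) h (hT hh)
  · unfold hatI at hS2 hT2 ⊢
    rw [Ideal.map_mul, hS2, hT2, Ideal.span_mul_span']
    congr 1
    ext x
    constructor
    · rintro ⟨y, ⟨g, hg, rfl⟩, z, ⟨h, hh, rfl⟩, rfl⟩
      refine ⟨g * h, ⟨g, hg, h, hh, rfl⟩, ?_⟩
      show φ ((g * h : MvPolynomial σ k) : MvPowerSeries σ k) =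
        φ (g : MvPowerSeries σ k) * φ (h : MvPowerSeries σ k)
      rw [MvPolynomial.coe_mul, map_mul]
    · rintro ⟨f, ⟨g, hg, h, hh, rfl⟩, rfl⟩
      refine ⟨_, ⟨g, hg, rfl⟩, _, ⟨h, hh, rfl⟩, ?_⟩
      show φ (g : MvPowerSeries σ k) * φ (h : MvPowerSeries σ k) =
        φ ((g * h : MvPolynomial σ k) : MvPowerSeries σ k)
      rw [MvPolynomial.coe_mul, map_mul]

omit [CharZero k] [Fintype σ] [DecidableEq σ] [Nonempty σ] in
private theorem QcGroup_prod (𝒢 : Set (MvPolynomial σ k)) (h1 : (1 : MvPolynomial σ k) ∈ 𝒢)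
    (hm : ∀ p ∈ 𝒢, ∀ q ∈ 𝒢, p * q ∈ 𝒢)
    (φ : MvPowerSeries σ k ≃ₐ[k] MvPowerSeries σ k) {ι : Type*} (T : Finset ι)
    (a : ι → Ideal (MvPolynomial σ k)) (h : ∀ j ∈ T, FormalGen 𝒢 φ (a j)) :
    FormalGen 𝒢 φ (∏ j ∈ T, a j) := by
  classical
  induction T using Finset.induction_on with
  | empty =>
    rw [Finset.prod_empty, Ideal.one_eq_top]
    exact QcGroup_top 𝒢 h1 φ
  | insert x T hx ih =>
    rw [Finset.prod_insert hx]
    exact QcGroup_mul 𝒢 hm φ (h x (Finset.mem_insert_self _ _))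
      (ih fun j hj => h j (Finset.mem_insert_of_mem hj))

theorem qclass_general (C : QClass k σ)
    (hB : ∀ (α : C.I) (R : ℕ) (lam : Fin R → ℝ), (∀ j, 0 ≤ lam j) →
      BddT (GenBy (r := R) (C.P α)) lam)
    (I : Set ℝ) (hI : I.Finite) (hI0 : ∀ t ∈ I, 0 ≤ t) :
    ∃ s : ℕ, 1 ≤ s ∧ ∀ (r : ℕ) (lam : Fin r → ℝ) (a b : Fin r → Ideal (MvPolynomial σ k)),
      (∀ j, lam j ∈ I) → (∀ j, a j ≠ ⊥) → (∀ j, b j ≠ ⊥) →
      (∃ (α : C.I) (φ : MvPowerSeries σ k ≃ₐ[k] MvPowerSeries σ k),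
        ∀ j, FormalGen (C.P α) φ (a j)) →
      (∀ j, a j ⊔ mm k σ ^ s = b j ⊔ mm k σ ^ s) →
      (0 ≤ mld lam a ↔ 0 ≤ mld lam b) ∧
        (0 ≤ mld lam a → 0 ≤ mld lam b → mld lam a = mld lam b) := by
  classical
  set F : Finset ℝ := hI.toFinset with hF
  let e := F.equivFin
  set t : Fin F.card → ℝ := fun i => ((e.symm i : F) : ℝ) with ht
  have ht0 : ∀ i, 0 ≤ t i := fun i => hI0 _ (hI.mem_toFinset.1 (e.symm i).2)
  obtain ⟨s, hs1, hs⟩ := qclass_fixed C t ht0 (fun α => hB α _ t ht0)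
  refine ⟨s, hs1, ?_⟩
  intro r lam a b hlam ha hb' hc hab
  obtain ⟨α, φ, hc⟩ := hc
  have hmem : ∀ j, lam j ∈ F := fun j => hI.mem_toFinset.2 (hlam j)
  let g : Fin r → Fin F.card := fun j => e ⟨lam j, hmem j⟩
  have hg : ∀ j, t (g j) = lam j := fun j => by
    show ((e.symm (e ⟨lam j, hmem j⟩) : F) : ℝ) = lam j
    rw [Equiv.symm_apply_apply]
  rw [Q1_group lam t g hg a ha, Q1_group lam t g hg b hb']
  apply hs
  · exact fun i => (Q1_prod_mem (fun _ => True) trivial (fun _ _ _ _ => trivial) _ a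
      (fun _ => trivial) ha).2
  · exact fun i => (Q1_prod_mem (fun _ => True) trivial (fun _ _ _ _ => trivial) _ b
      (fun _ => trivial) hb').2
  · exact ⟨α, φ, fun i => QcGroup_prod (C.P α) (C.one α) (C.mul α) φ _ a fun j _ => hc j⟩
  · exact fun i => Q1_prod _ a b _ fun j _ => hab j

end MLD
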