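import Pool.Agent.MLD.QcGroup
import Pool.Agent.MLD.Fin2

/-!
PIECE MLD-C06: ideals generated (in formal coordinates) by products of linear forms, arbitrary `b`.

PROOF. `lin_bdd`: from `core` (`Core.lean`) with `blk : Fin n → Unit`, `𝓕 b := linProd k {i // () = b}`,
`blockOK_linProd`; `ClassOf` of this is the class of ideals generated by elements of
`linProd k (Fin n)` (compare `classOf_of_linear`, `isLinearProduct_rename` in `Fin2.lean`: renaming a
linear form along a bijection is a linear form).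
`lin_final`: `qclass_general` for the `QClass` with `I := Unit`, `w := fun _ _ => 1`,
`P := fun _ => linProd k (Fin n)`: `mul`: add the multisets; `hom`: `lf c` is homogeneous of degree
`1` (`IsWeightedHomogeneous` for the weight `1`, see `isHomogeneous..`), products; `trunc`: the truncation
of a homogeneous polynomial of degree `d` is `0` if `S ≤ d` and the polynomial itself otherwise
(`MvPowerSeries.coeff_truncTotal_eq_ite`).
-/

open MvPolynomial Filter

namespace MLD

universe u

variable {k : Type u} [Field k]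

private theorem QcLin_homog {B : Type} [Fintype B] (c : B → k) :
    (lf c : MvPolynomial B k).IsHomogeneous 1 := by
  unfold lf
  refine IsHomogeneous.sum _ _ _ fun b _ => ?_
  have := (isHomogeneous_C B (c b)).mul (isHomogeneous_X k b)
  simpa using this

private theorem QcLin_homog_prod {B : Type} [Fintype B] (s : Multiset (B → k)) :
    ((s.map lf).prod).IsHomogeneous (Multiset.card s) := by
  induction s using Multiset.induction_on with
  | empty => simpa using isHomogeneous_one B k
  | cons a s ih =>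
    rw [Multiset.map_cons, Multiset.prod_cons, Multiset.card_cons, add_comm]
    exact (QcLin_homog a).mul ih

private theorem QcLin_rename {n : ℕ} (b : Unit) (f : MvPolynomial (Fin n) k)
    (hf : f ∈ linProd k (Fin n)) :
    rename (fun i : Fin n => (⟨i, rfl⟩ : {_i : Fin n // () = b})) f ∈
      linProd k {_i : Fin n // () = b} := by
  obtain ⟨s, rfl⟩ := hf
  refine ⟨s.map fun c => fun x => c x.1, ?_⟩
  rw [map_multiset_prod, Multiset.map_map, Multiset.map_map]
  congr 1
  refine Multiset.map_congr rfl fun c _ => ?_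
  simp only [Function.comp_apply, lf, map_sum, map_mul, rename_C, rename_X]
  exact Fintype.sum_equiv (Equiv.subtypeUnivEquiv (fun _ => rfl)).symm _ _ fun i => rfl

theorem lin_bdd [IsAlgClosed k] [CharZero k] (n : ℕ) (hn : 0 < n) (R : ℕ) (lam : Fin R → ℝ)
    (hlam : ∀ j, 0 ≤ lam j) : BddT (GenBy (r := R) (linProd k (Fin n))) lam := by
  classical
  have : Nonempty (Fin n) := ⟨⟨0, hn⟩⟩
  obtain ⟨ℓ, h⟩ := core (k := k) (fun _ : Fin n => ())
    (fun b => linProd k {_i : Fin n // () = b}) (fun b => blockOK_linProd k _) lam hlam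
  refine ⟨ℓ, fun a ha0 haG => h a ha0 fun j => ?_⟩
  obtain ⟨S, hS, hSj⟩ := haG j
  rw [hSj]
  have hsurj : ∀ (b : Unit) (f : MvPolynomial (Fin n) k), rename Subtype.val
      (rename (fun i : Fin n => (⟨i, rfl⟩ : {_i : Fin n // () = b})) f) = f := by
    intro b f
    rw [rename_rename]
    exact rename_id_apply f
  have hbp : ∀ f : MvPolynomial (Fin n) k, bprod (fun _ : Fin n => ())
      (fun b => rename (fun i : Fin n => (⟨i, rfl⟩ : {_i : Fin n // () = b})) f) = f := by
    intro f
    unfold bprod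
    rw [Finset.prod_congr rfl fun b _ => hsurj b f]
    simp
  refine ⟨(fun f b => rename (fun i : Fin n => (⟨i, rfl⟩ : {_i : Fin n // () = b})) f) '' S,
    ?_, ?_⟩
  · rintro _ ⟨f, hf, rfl⟩ b
    exact QcLin_rename b f (hS hf)
  · congr 1
    rw [Set.image_image]
    ext f
    constructor
    · intro hf
      exact ⟨f, hf, hbp f⟩
    · rintro ⟨g, hg, rfl⟩
      simp only [hbp]
      exact hg

private theorem QcLin_trunc {n : ℕ} (S : ℕ) (g : MvPolynomial (Fin n) k)
    (hg : g ∈ linProd k (Fin n)) :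
    (MvPowerSeries.truncTotal S (g : MvPowerSeries (Fin n) k) : MvPolynomial (Fin n) k) = 0 ∨
      (MvPowerSeries.truncTotal S (g : MvPowerSeries (Fin n) k) : MvPolynomial (Fin n) k) ∈
        linProd k (Fin n) := by
  obtain ⟨s, hs⟩ := id hg
  have hh := QcLin_homog_prod s
  rw [← hs] at hh
  have hdeg : ∀ m : Fin n →₀ ℕ, coeff m g ≠ 0 → m.degree = Multiset.card s := by
    intro m hm
    have h1 := hh hm
    rw [← h1, Finsupp.degree_eq_weight_one]
    rfl
  rcases lt_or_ge (Multiset.card s) S with h | h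
  · right
    have h1 : (MvPowerSeries.truncTotal S (g : MvPowerSeries (Fin n) k) :
        MvPolynomial (Fin n) k) = g := by
      ext m
      rw [MvPowerSeries.coeff_truncTotal_eq_ite, MvPolynomial.coeff_coe]
      by_cases hm : coeff m g = 0
      · simp [hm]
      · rw [if_pos (by rw [hdeg m hm]; exact h)]
    rw [h1]
    exact hg
  · left
    ext m
    rw [MvPowerSeries.coeff_truncTotal_eq_ite, MvPolynomial.coeff_coe, coeff_zero]
    by_cases hm : coeff m g = 0
    · simp [hm]
    · rw [if_neg (by rw [hdeg m hm]; omega)]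

/-- the class of products of linear forms -/
private def QcLin_class (k : Type u) [Field k] (n : ℕ) : QClass k (Fin n) where
  I := Unit
  w := fun _ _ => 1
  P := fun _ => linProd k (Fin n)
  hw := fun _ _ => le_rfl
  one := fun _ => ⟨0, by simp⟩
  mul := by
    rintro _ p ⟨s, rfl⟩ q ⟨t, rfl⟩
    exact ⟨s + t, by rw [Multiset.map_add, Multiset.prod_add]⟩
  hom := by
    rintro _ p ⟨s, rfl⟩
    exact ⟨Multiset.card s, QcLin_homog_prod s⟩
  trunc := fun _ => ⟨(), fun S => Eventually.of_forall fun _ g hg => QcLin_trunc S g hg⟩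

theorem lin_final [IsAlgClosed k] [CharZero k] (n : ℕ) (hn : 0 < n)
    (I : Set ℝ) (hI : I.Finite) (hI0 : ∀ t ∈ I, 0 ≤ t) :
    ∃ s : ℕ, 1 ≤ s ∧ ∀ (r : ℕ) (lam : Fin r → ℝ) (a b : Fin r → Ideal (MvPolynomial (Fin n) k)),
      (∀ j, lam j ∈ I) → (∀ j, a j ≠ ⊥) → (∀ j, b j ≠ ⊥) →
      (∃ φ : MvPowerSeries (Fin n) k ≃ₐ[k] MvPowerSeries (Fin n) k,
        ∀ j, FormalGen (linProd k (Fin n)) φ (a j)) →
      (∀ j, a j ⊔ mm k (Fin n) ^ s = b j ⊔ mm k (Fin n) ^ s) →
      (0 ≤ mld lam a ↔ 0 ≤ mld lam b) ∧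
        (0 ≤ mld lam a → 0 ≤ mld lam b → mld lam a = mld lam b) := by
  have : Nonempty (Fin n) := ⟨⟨0, hn⟩⟩
  obtain ⟨s, hs, h⟩ := qclass_general (QcLin_class k n)
    (fun _ R lam hlam => lin_bdd n hn R lam hlam) I hI hI0
  refine ⟨s, hs, fun r lam a b h1 h2 h3 h4 h5 => h r lam a b h1 h2 h3 ?_ h5⟩
  obtain ⟨φ, hφ⟩ := h4
  exact ⟨(), φ, hφ⟩

end MLD
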