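import Pool.Agent.MLD.Qc
import Pool.Agent.MLD.Arc
import Pool.Agent.MLD.FormBdd

/-!
PIECE MLD-C01: the lower estimate for arbitrary ideals `c` whose initial ideals (in formal
coordinates) contain weighted homogeneous elements `P j`.

PROOF. `A j := Ideal.span (P j)`. It suffices that `mld lam A ≤ F.aDisc lam c` for every `F` with
`F.CenterZero` (`Q1_le_mld`).  If `F.logDisc` is not `≤ N` for any natural `N` then it is `⊤`
(`logDisc` is an infimum of integers over a set: by cases whether it is empty; in `IdOrd` see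
`one_le_logDisc`, `logDisc_real`) and there is nothing to show.  By `logDisc_real` let `F.logDisc = N`, `N : ℕ`.
`transport F hF N _ φ` gives `v, F'` with `Hat F v`, `F'.CenterZero`, `F'.logDisc ≤ F.logDisc` and
`F'.ord f = v.ord (φ f)` for `f ≠ 0`.  Let `μ j := F.ordI (c j)`; every `β ∈ hatI (c j)` has
`v.ge (μ j) β` (`ordI_formal F v AlgEquiv.refl`, with `G := hatI (c j)` itself, or `Hat.poly` and span
induction; compare `FormBdd.lean`).  By Noetherianity choose for every `j` a finite subset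
`Q j ⊆ P j` of nonzero elements with `Ideal.span (Q j) = A j` (`Submodule.fg_span_iff..`,
`Ideal.fg_of_isNoetherianRing`, `Submodule.exists_finset_span_eq..`; zero elements can be removed).
Let `T` be a natural number with `T ≥ S`, `T ≥ μ j` for all `j`.  For `0 < lam j`, `p ∈ Q j` take `β` from
`h1`, `h := φ.symm (φ p - β)` (`Low S h` by `low_automorphism`), `f := p - truncTotal T h`.  Then
`φ f = β + φ (h - truncTotal T h)`, `Low T (φ (h - ..))` (`low_sub_trunc`, `low_automorphism`), so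
`v.ge (μ j) (φ f)` (`Hat.low`), i.e. `μ j ≤ F'.ord f` if `f ≠ 0`.
`inw w f = p`: `p` is weighted homogeneous of weight `d < S`, and all monomials `m` of
`truncTotal T h` have `m.degree ≥ S`, hence weight `≥ S > d` as `w ≥ 1`; `p ≠ 0`; so `f ≠ 0`, `wlow w f = d` and
the component is `p`.
Apply `arc_degen F' _ N _ w` to the finite family of all `f` (`arc_degen` wants an index type in `Type`:
enumerate the finite sets `Q j` by `Fin`): `E₀, g, A₁` with `μ j ≤ F'.ord f ≤ g * E₀.ord p`, so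
`μ j ≤ g * E₀.ordI (A j)` (`le_ordI_span`-like, with `ordI_mem` or `le_ordI` and span induction; e.g. if
`g * n < μ` where `n = E₀.ordI (span Q)`, take the generator of smallest order).  Then
`F.aDisc lam c = N - ∑ lam j * μ j ≥ g * A₁ - ∑ lam j * g * E₀.ordI (A j) = g * (A₁ - ∑ ..) ≥
g * E₀.aDisc lam A ≥ g * mld lam A ≥ mld lam A` as `0 ≤ mld lam A`, `1 ≤ g` (`aDisc_le` in `CoreA`
is a model for the estimate with real numbers).
-/

open MvPolynomial Filter

namespace MLD

universe u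

section aux

variable {k : Type u} [Field k] {σ : Type} [Fintype σ]

private theorem QcLow_nat [DecidableEq σ] (E : DivisorOver k σ) (h : E.logDisc ≠ ⊤) :
    ∃ N : ℕ, E.logDisc = (((N : ℕ) : ℝ) : EReal) := by
  classical
  have h1 := one_le_logDisc E
  let T := {D : σ → Derivation k (FF k σ) (FF k σ) //
    (∀ i, E.IntegralDer (D i)) ∧ DivisorOver.jac D ≠ 0}
  have hne : Nonempty T := by
    by_contra hcon
    rw [not_nonempty_iff] at hcon
    apply h
    unfold DivisorOver.logDisc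
    exact iInf_of_empty _
  have hge : ∀ D : T, (1 : ℤ) ≤ 1 + E.ord (DivisorOver.jac D.1) := by
    intro D
    have h2 : E.logDisc ≤ (((1 + E.ord (DivisorOver.jac D.1) : ℤ) : ℝ) : EReal) := iInf_le _ D
    have h3 := h1.trans h2
    have h4 : ((1 : ℝ)) ≤ (((1 + E.ord (DivisorOver.jac D.1) : ℤ)) : ℝ) := by
      rw [← EReal.coe_le_coe_iff]
      exact_mod_cast h3
    exact_mod_cast h4
  let S : Set ℕ := {n | ∃ D : T, (1 + E.ord (DivisorOver.jac D.1)) = (n : ℤ)}
  have hS : S.Nonempty := by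
    obtain ⟨D⟩ := hne
    exact ⟨(1 + E.ord (DivisorOver.jac D.1)).toNat, D, by
      rw [Int.toNat_of_nonneg]; have := hge D; omega⟩
  refine ⟨sInf S, le_antisymm ?_ ?_⟩
  · obtain ⟨D, hD⟩ := Nat.sInf_mem hS
    refine (iInf_le _ D).trans ?_
    rw [hD]
    simp
  · refine le_iInf fun D => ?_
    have h2 : sInf S ≤ (1 + E.ord (DivisorOver.jac D.1)).toNat := by
      refine Nat.sInf_le ⟨D, ?_⟩
      rw [Int.toNat_of_nonneg]; have := hge D; omega
    have h3 : ((sInf S : ℕ) : ℤ) ≤ 1 + E.ord (DivisorOver.jac D.1) := by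
      have := hge D
      omega
    rw [EReal.coe_le_coe_iff]
    exact_mod_cast h3

private theorem QcLow_hpos {E : DivisorOver k σ} {v : OrdFn k (PF k σ)} (hv : Hat E v)
    (g : MvPowerSeries σ k) : v.ge 0 (toPF k σ g) := by
  have h := hv.low 0 g (fun m hm => absurd hm (Nat.not_lt_zero _))
  exact_mod_cast h

omit [Fintype σ] in
private theorem QcLow_map_refl (I : Ideal (MvPowerSeries σ k)) :
    I.map ((AlgEquiv.refl : MvPowerSeries σ k ≃ₐ[k] MvPowerSeries σ k) :
      MvPowerSeries σ k →+* MvPowerSeries σ k) = I := by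
  have h : ((AlgEquiv.refl : MvPowerSeries σ k ≃ₐ[k] MvPowerSeries σ k) :
      MvPowerSeries σ k →+* MvPowerSeries σ k) = RingHom.id _ := by
    ext x
    rfl
  rw [h, Ideal.map_id]

private theorem QcLow_degree (w : σ → ℕ) (hw : ∀ i, 1 ≤ w i) (m : σ →₀ ℕ) :
    m.degree ≤ Finsupp.weight w m := by
  rw [Finsupp.weight_apply, Finsupp.degree_apply, Finsupp.sum]
  refine Finset.sum_le_sum fun i _ => ?_
  rw [smul_eq_mul]
  exact Nat.le_mul_of_pos_right _ (hw i)

/-- the initial form of `p` minus terms of large degree -/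
private theorem QcLow_inw (w : σ → ℕ) (hw : ∀ i, 1 ≤ w i) {d S : ℕ} (hd : d < S)
    (p t : MvPolynomial σ k) (hp0 : p ≠ 0) (hp : IsWeightedHomogeneous w p d)
    (ht : ∀ m : σ →₀ ℕ, m.degree < S → coeff m t = 0) :
    p - t ≠ 0 ∧ inw w (p - t) = p := by
  classical
  obtain ⟨m0, hm0⟩ := MvPolynomial.support_nonempty.mpr hp0
  have hm1 : coeff m0 p ≠ 0 := MvPolynomial.mem_support_iff.1 hm0
  have hwt : ∀ m : σ →₀ ℕ, Finsupp.weight w m = d → coeff m t = 0 := by
    intro m hm
    apply ht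
    have := QcLow_degree w hw m
    omega
  have hc0 : coeff m0 (p - t) ≠ 0 := by
    rw [coeff_sub, hwt m0 (hp hm1), sub_zero]
    exact hm1
  have hlow : wlow w (p - t) = d := by
    unfold wlow
    apply le_antisymm
    · exact Nat.sInf_le ⟨m0, MvPolynomial.mem_support_iff.2 hc0, hp hm1⟩
    · refine le_csInf ⟨d, m0, MvPolynomial.mem_support_iff.2 hc0, hp hm1⟩ ?_
      rintro e ⟨m, hm, rfl⟩
      by_contra hcon
      rw [not_le] at hcon
      have h1 := QcLow_degree w hw m
      have h2 : coeff m t = 0 := ht m (by omega)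
      have h3 : coeff m (p - t) ≠ 0 := MvPolynomial.mem_support_iff.1 hm
      rw [coeff_sub, h2, sub_zero] at h3
      have h4 := hp h3
      omega
  refine ⟨fun h => hc0 (by rw [h, coeff_zero]), ?_⟩
  unfold inw
  rw [hlow]
  ext m
  rw [coeff_weightedHomogeneousComponent]
  split_ifs with h
  · rw [coeff_sub, hwt m h, sub_zero]
  · by_contra hcon
    exact h (hp (Ne.symm hcon))

omit [Fintype σ] in
/-- finitely many generators, enumerated by `Fin n` -/
private theorem QcLow_fg [Finite σ] (P : Set (MvPolynomial σ k)) :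
    ∃ (n : ℕ) (q : Fin n → MvPolynomial σ k), (∀ i, q i ∈ P) ∧
      Ideal.span (Set.range q) = Ideal.span P := by
  classical
  have h1 : (Ideal.span P).FG := IsNoetherian.noetherian _
  obtain ⟨s, hs, hs2⟩ := Submodule.fg_span_iff_fg_span_finset_subset P |>.1 h1
  refine ⟨s.card, fun i => (s.equivFin.symm i : MvPolynomial σ k), fun i =>
    hs (s.equivFin.symm i).2, ?_⟩
  have h2 : Set.range (fun i => (s.equivFin.symm i : MvPolynomial σ k)) =
      (s : Set (MvPolynomial σ k)) := by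
    ext x
    constructor
    · rintro ⟨i, rfl⟩
      exact (s.equivFin.symm i).2
    · intro hx
      exact ⟨s.equivFin ⟨x, hx⟩, by simp⟩
  rw [h2]
  exact hs2.symm

end aux

variable {k : Type u} [Field k] [CharZero k] {σ : Type} [Fintype σ] [DecidableEq σ] [Nonempty σ]

theorem qh_low (w : σ → ℕ) (hw : ∀ i, 1 ≤ w i) {r : ℕ} (lam : Fin r → ℝ) (hlam : ∀ j, 0 ≤ lam j)
    (S : ℕ) (c : Fin r → Ideal (MvPolynomial σ k)) (hc : ∀ j, c j ≠ ⊥)
    (φ : MvPowerSeries σ k ≃ₐ[k] MvPowerSeries σ k) (P : Fin r → Set (MvPolynomial σ k))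
    (hP0 : ∀ j, Ideal.span (P j) ≠ ⊥)
    (hP : ∀ j, ∀ p ∈ P j, ∃ d : ℕ, d < S ∧ IsWeightedHomogeneous w p d)
    (h1 : ∀ j, 0 < lam j → ∀ p ∈ P j, ∃ β ∈ hatI (c j),
      Low S (φ (p : MvPowerSeries σ k) - β))
    (h0 : 0 ≤ mld lam (fun j => Ideal.span (P j))) :
    mld lam (fun j => Ideal.span (P j)) ≤ mld lam c := by
  classical
  refine Q1_le_mld lam c _ fun F hF => ?_
  by_cases htop : F.logDisc = ⊤
  · unfold DivisorOver.aDisc
    rw [htop, EReal.top_sub_coe]
    exact le_top
  obtain ⟨N, hN⟩ := QcLow_nat F htop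
  obtain ⟨v, F', hv, hF'c, hF'l, hF'o⟩ := transport F hF N hN.le φ
  have hβ : ∀ j, ∀ β ∈ hatI (c j), v.ge (F.ordI (c j)) (toPF k σ β) := by
    intro j
    exact (ordI_formal F v AlgEquiv.refl (fun f hf => (hv.poly f hf).symm) (QcLow_hpos hv)
      (c j) (hc j) (hatI (c j) : Set (MvPowerSeries σ k))
      (by rw [QcLow_map_refl, Ideal.span_eq]) (F.ordI (c j))).1 le_rfl
  have hQ := fun j => QcLow_fg (P j)
  choose n q hqP hqs using hQ
  set T : ℕ := S + ∑ j, F.ordI (c j) with hT
  have hTj : ∀ j, F.ordI (c j) ≤ T := by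
    intro j
    have h2 : F.ordI (c j) ≤ ∑ j, F.ordI (c j) :=
      Finset.single_le_sum (f := fun j => F.ordI (c j)) (fun i _ => Nat.zero_le _)
        (Finset.mem_univ j)
    omega
  have hf : ∀ l : (Σ j : Fin r, Fin (n j)), ∃ f : MvPolynomial σ k, f ≠ 0 ∧
      (0 < lam l.1 → q l.1 l.2 ≠ 0 → inw w f = q l.1 l.2 ∧
        ((F.ordI (c l.1) : ℕ) : ℤ) ≤ F'.ord (toFF k σ f)) := by
    rintro ⟨j, i⟩
    by_cases hj : 0 < lam j ∧ q j i ≠ 0
    swap
    · exact ⟨1, one_ne_zero, fun h2 h3 => absurd ⟨h2, h3⟩ hj⟩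
    obtain ⟨hj, hq0⟩ := hj
    obtain ⟨d, hd, hhom⟩ := hP j (q j i) (hqP j i)
    obtain ⟨β, hβm, hlow⟩ := h1 j hj (q j i) (hqP j i)
    set h : MvPowerSeries σ k := φ.symm (φ (q j i : MvPowerSeries σ k) - β) with hh
    have hSh : Low S h := low_automorphism φ.symm hlow
    have ht : ∀ m : σ →₀ ℕ, m.degree < S →
        coeff m (MvPowerSeries.truncTotal T h : MvPolynomial σ k) = 0 := by
      intro m hm
      rw [MvPowerSeries.coeff_truncTotal _ (by omega)]
      exact hSh m hm
    obtain ⟨hne, hinw⟩ := QcLow_inw w hw hd (q j i) (MvPowerSeries.truncTotal T h) hq0 hhom ht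
    refine ⟨q j i - MvPowerSeries.truncTotal T h, hne, fun _ _ => ⟨hinw, ?_⟩⟩
    have hcoe : ((q j i - MvPowerSeries.truncTotal T h : MvPolynomial σ k) : MvPowerSeries σ k) =
        (q j i : MvPowerSeries σ k) -
          ((MvPowerSeries.truncTotal T h : MvPolynomial σ k) : MvPowerSeries σ k) :=
      map_sub (MvPolynomial.coeToMvPowerSeries.ringHom (σ := σ) (R := k)) _ _
    have heq : φ ((q j i - MvPowerSeries.truncTotal T h : MvPolynomial σ k) :
        MvPowerSeries σ k) =
        β + φ (h - ((MvPowerSeries.truncTotal T h : MvPolynomial σ k) : MvPowerSeries σ k)) := by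
      rw [hcoe, map_sub, map_sub, hh, AlgEquiv.apply_symm_apply]
      ring
    have hge : v.ge (F.ordI (c j)) (toPF k σ (φ ((q j i - MvPowerSeries.truncTotal T h :
        MvPolynomial σ k) : MvPowerSeries σ k))) := by
      rw [heq, map_add]
      refine v.ge_add (hβ j β hβm) ?_
      have h5 := hv.low T _ (low_automorphism φ (low_sub_trunc T h))
      exact v.ge_mono (by exact_mod_cast hTj j) h5
    rw [hF'o _ hne]
    rcases hge with h6 | h6
    · exfalso
      have h7 : Function.Injective (algebraMap (MvPowerSeries σ k) (PF k σ)) :=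
        IsFractionRing.injective (MvPowerSeries σ k) (PF k σ)
      have h8 : φ ((q j i - MvPowerSeries.truncTotal T h : MvPolynomial σ k) :
          MvPowerSeries σ k) = 0 := by
        apply h7
        rw [map_zero]
        exact h6
      rw [map_eq_zero_iff φ φ.injective] at h8
      apply hne
      exact MvPolynomial.coe_injective σ k (by rw [h8]; rfl)
    · exact h6
  choose f hf0 hf1 using hf
  obtain ⟨E₀, g, A₁, hg, hE₀, hlog, hgA, hord⟩ :=
    arc_degen F' hF'c N (hF'l.trans hN.le) w f hf0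
  have hμ : ∀ j, 0 < lam j →
      F.ordI (c j) ≤ g * E₀.ordI (Ideal.span (P j)) := by
    intro j hj
    by_contra hcon
    rw [not_le] at hcon
    have h3 : E₀.ordI (Ideal.span (P j)) + 1 ≤ E₀.ordI (Ideal.span (P j)) := by
      have hne : Ideal.span (Set.range (q j)) ≠ ⊥ := by rw [hqs j]; exact hP0 j
      have h4 := le_ordI_span E₀ hne (E₀.ordI (Ideal.span (P j)) + 1) ?_
      · rwa [hqs j] at h4
      · rintro _ ⟨i, rfl⟩ hi0
        obtain ⟨h5, h6⟩ := hf1 ⟨j, i⟩ hj hi0
        have h7 := hord ⟨j, i⟩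
        rw [h5] at h7
        have h8 := h6.trans h7
        have h9 : ((g * E₀.ordI (Ideal.span (P j)) : ℕ) : ℤ) <
            (g : ℤ) * E₀.ord (toFF k σ (q j i)) := by
          refine lt_of_lt_of_le ?_ h8
          exact_mod_cast hcon
        push_cast at h9
        have h10 := lt_of_mul_lt_mul_left h9 (by positivity)
        push_cast
        exact h10
    omega
  obtain ⟨B₀, hB1, hBA, hB₀⟩ := logDisc_real E₀ A₁ hlog
  have hx := Q1_aDisc E₀ lam (fun j => Ideal.span (P j)) hB₀
  have hy := Q1_aDisc F lam c hN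
  have hmld := Q1_mld_le E₀ hE₀ lam (fun j => Ideal.span (P j))
  refine hmld.trans ?_
  have h0' : (0 : EReal) ≤ E₀.aDisc lam (fun j => Ideal.span (P j)) := h0.trans hmld
  rw [hx] at h0' ⊢
  rw [hy, EReal.coe_le_coe_iff]
  have hx0 : 0 ≤ B₀ - ∑ j, lam j * (E₀.ordI (Ideal.span (P j)) : ℝ) := by exact_mod_cast h0'
  have hsum : ∑ j, lam j * (F.ordI (c j) : ℝ) ≤
      (g : ℝ) * ∑ j, lam j * (E₀.ordI (Ideal.span (P j)) : ℝ) := by
    rw [Finset.mul_sum]
    refine Finset.sum_le_sum fun j _ => ?_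
    rcases (hlam j).eq_or_lt with h | h
    · rw [← h]; simp
    · have h3 : (F.ordI (c j) : ℝ) ≤ (g : ℝ) * (E₀.ordI (Ideal.span (P j)) : ℝ) := by
        exact_mod_cast hμ j h
      calc lam j * (F.ordI (c j) : ℝ) ≤ lam j * ((g : ℝ) * (E₀.ordI (Ideal.span (P j)) : ℝ)) :=
            mul_le_mul_of_nonneg_left h3 h.le
        _ = _ := by ring
  have hgA' : (g : ℝ) * (A₁ : ℝ) ≤ (N : ℝ) := by exact_mod_cast hgA
  have hg1 : (1 : ℝ) ≤ (g : ℝ) := by exact_mod_cast hg
  have hgB : (g : ℝ) * B₀ ≤ (g : ℝ) * (A₁ : ℝ) := mul_le_mul_of_nonneg_left hBA (by linarith)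
  nlinarith [mul_nonneg (sub_nonneg.2 hg1) hx0]

end MLD
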