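import Pool.Agent.MLD.QcCore

/-!
PIECE MLD-C04: uniform semicontinuity for a `QClass`, fixed exponents, arbitrary `b`.

PROOF. By contradiction: for every `s ≥ 1` there are `a, b, α, φ` violating the conclusion; choose
sequences `a i, b i, α i, φ i` (for `i` use `s = i + 1`), and generating sets `Sg i j ⊆ C.P (α i)` with
`hatI (a i j) = span (φ i '' Sg i j)`.  By `C.trunc α` there is `α' : C.I` such that for every `S`, for
almost all `i` (along `UU`), all `g ∈ C.P (α i)` have `truncTotal S g = 0` or `truncTotal S g ∈ C.P α'`.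
Let `w := C.w α'`, `W := ∑ i, w i` (so `w i ≤ W`, `1 ≤ W`), `𝒢 := C.P α'`, `ℓ` from `hB α'` (`BddT`), and `s₀ ≥ 1`
so large that `ℓ < lam j * s₀` and `card σ < lam j * s₀` for all `j` with `0 < lam j` (`Q1_exists_s` applied to
`max ℓ (card σ)`).  Put `S := s₀ * W`.  For almost all `i`: `i + 1 ≥ S` (`hyperfilter_le_cofinite`, see `hge`
in `Core.lean`), so `a i j ⊔ mm ^ S = b i j ⊔ mm ^ S` (from `mm ^ (i+1) ≤ mm ^ S`, `Ideal.pow_le_pow_right`), and
the truncation property holds for `S`.  Fix such an `i`, and let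
`P j := {p | p ≠ 0 ∧ (∃ g ∈ Sg i j, p = truncTotal S g) ∧ ∃ d < S, IsWeightedHomogeneous w p d}`.
Apply `qh_core w (C.hw α') 𝒢 (C.one α') lam hlam ℓ _ s₀ S ..` :
(h1) `p = truncTotal S g`: `β := φ g ∈ hatI (a i j)`; `φ p - φ g = - φ (g - truncTotal S g)` is `Low S`
(`low_sub_trunc`, `low_automorphism`).
(h2) `f ∈ a i j`: `φ.symm f ∈ Ideal.span (coe '' Sg i j)` (apply `Ideal.map φ.symm` to `hatI (a i j)`; see
`FormBdd_map_symm` in `FormBdd.lean`).  By span induction it suffices to treat `g ∈ Sg i j`: if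
`truncTotal S g = 0` then `Low S g`, `q = 0` (`s₀ ≤ S`).  Otherwise `p := truncTotal S g ∈ C.P α'` is weighted
homogeneous of some degree `d`; if `d < S` then `p ∈ P j`, `q := p`; if `S ≤ d` then all monomials `m` of `p`
have `S ≤ weight ≤ W * m.degree`, so `m.degree ≥ s₀`, hence `Low s₀ p`, and `Low s₀ g`, `q := 0`.
This contradicts the choice of `a i, b i`.
-/

open MvPolynomial Filter

namespace MLD

universe u

variable {k : Type u} [Field k] [CharZero k] {σ : Type} [Fintype σ] [DecidableEq σ] [Nonempty σ]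

omit [DecidableEq σ] [Nonempty σ] in
private theorem QcVar_weight (w : σ → ℕ) (m : σ →₀ ℕ) :
    Finsupp.weight w m ≤ (∑ i, w i) * m.degree := by
  rw [Finsupp.weight_apply, Finsupp.sum_fintype _ _ (fun i => by simp), Finsupp.degree_eq_sum,
    Finset.mul_sum]
  refine Finset.sum_le_sum fun i _ => ?_
  rw [smul_eq_mul, mul_comm]
  exact Nat.mul_le_mul_right _ (Finset.single_le_sum (f := w) (fun _ _ => Nat.zero_le _)
    (Finset.mem_univ i))

theorem qclass_fixed (C : QClass k σ) {r : ℕ} (lam : Fin r → ℝ) (hlam : ∀ j, 0 ≤ lam j)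
    (hB : ∀ α, BddT (GenBy (r := r) (C.P α)) lam) :
    ∃ s : ℕ, 1 ≤ s ∧ ∀ a b : Fin r → Ideal (MvPolynomial σ k), (∀ j, a j ≠ ⊥) → (∀ j, b j ≠ ⊥) →
      (∃ (α : C.I) (φ : MvPowerSeries σ k ≃ₐ[k] MvPowerSeries σ k),
        ∀ j, FormalGen (C.P α) φ (a j)) →
      (∀ j, a j ⊔ mm k σ ^ s = b j ⊔ mm k σ ^ s) →
      (0 ≤ mld lam a ↔ 0 ≤ mld lam b) ∧
        (0 ≤ mld lam a → 0 ≤ mld lam b → mld lam a = mld lam b) := by
  classical
  by_contra hcon
  have h : ∀ i : ℕ, ∃ a b : Fin r → Ideal (MvPolynomial σ k), (∀ j, a j ≠ ⊥) ∧ (∀ j, b j ≠ ⊥) ∧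
      (∃ (α : C.I) (φ : MvPowerSeries σ k ≃ₐ[k] MvPowerSeries σ k),
        ∀ j, FormalGen (C.P α) φ (a j)) ∧
      (∀ j, a j ⊔ mm k σ ^ (i + 1) = b j ⊔ mm k σ ^ (i + 1)) ∧
      ¬ ((0 ≤ mld lam a ↔ 0 ≤ mld lam b) ∧
        (0 ≤ mld lam a → 0 ≤ mld lam b → mld lam a = mld lam b)) := by
    intro i
    by_contra h'
    apply hcon
    refine ⟨i + 1, by omega, fun a b ha hb hF hab => ?_⟩
    by_contra h''
    exact h' ⟨a, b, ha, hb, hF, hab, h''⟩
  choose a b ha hb hF hab hno using h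
  choose α φ hFG using hF
  choose Sg hSg hSpan using hFG
  obtain ⟨α', htr⟩ := C.trunc α
  obtain ⟨ℓ, hℓ⟩ := hB α'
  obtain ⟨s₀, hs₀1, hs₀⟩ := Q1_exists_s lam hlam (max ℓ (Fintype.card σ))
  obtain ⟨W, hWdef⟩ : ∃ W, W = ∑ i, C.w α' i := ⟨_, rfl⟩
  have hW : 1 ≤ W := by
    obtain ⟨i0⟩ := ‹Nonempty σ›
    rw [hWdef]
    exact (C.hw α' i0).trans (Finset.single_le_sum (f := C.w α') (fun _ _ => Nat.zero_le _)
      (Finset.mem_univ i0))
  obtain ⟨S, hSdef⟩ : ∃ S, S = s₀ * W := ⟨_, rfl⟩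
  have hsS : s₀ ≤ S := by
    rw [hSdef]
    exact Nat.le_mul_of_pos_right _ hW
  have hge : ∀ᶠ i in UU, S ≤ i := by
    have h1 : ∀ᶠ i in (Filter.cofinite : Filter ℕ), S ≤ i := by
      rw [Nat.cofinite_eq_atTop]
      exact eventually_ge_atTop S
    exact h1.filter_mono (hyperfilter_le_cofinite)
  obtain ⟨i, hi1, hi2⟩ := (hge.and (htr S)).exists
  -- the polynomials
  let P : Fin r → Set (MvPolynomial σ k) := fun j => {p | p ≠ 0 ∧
    (∃ g ∈ Sg i j, p = MvPowerSeries.truncTotal S (g : MvPowerSeries σ k)) ∧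
    ∃ d : ℕ, d < S ∧ IsWeightedHomogeneous (C.w α') p d}
  have hPG : ∀ j, P j ⊆ C.P α' := by
    rintro j p ⟨hp0, ⟨g, hg, rfl⟩, -⟩
    rcases hi2 g (hSg i j hg) with h1 | h1
    · exact absurd h1 hp0
    · exact h1
  have hPw : ∀ j, ∀ p ∈ P j, ∃ d : ℕ, d < S ∧ IsWeightedHomogeneous (C.w α') p d :=
    fun j p hp => hp.2.2
  have h1 : ∀ j, ∀ p ∈ P j, ∃ β ∈ hatI (a i j),
      Low S ((φ i) (p : MvPowerSeries σ k) - β) := by
    rintro j p ⟨hp0, ⟨g, hg, rfl⟩, -⟩
    refine ⟨φ i (g : MvPowerSeries σ k), ?_, ?_⟩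
    · rw [hSpan i j]
      exact Ideal.subset_span ⟨g, hg, rfl⟩
    · rw [← map_sub]
      apply low_automorphism
      have h2 := (low_zero S).sub (low_sub_trunc S (g : MvPowerSeries σ k))
      rwa [zero_sub, neg_sub] at h2
  have h2 : ∀ j, ∀ f ∈ a i j,
      ∃ q ∈ Ideal.span ((fun p : MvPolynomial σ k => (p : MvPowerSeries σ k)) '' P j),
        Low s₀ ((φ i).symm (f : MvPowerSeries σ k) - q) := by
    intro j f hf
    have hf1 : (f : MvPowerSeries σ k) ∈ hatI (a i j) := Ideal.mem_map_of_mem _ hf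
    rw [hSpan i j] at hf1
    refine Submodule.span_induction
      (p := fun y _ => ∃ q ∈ Ideal.span ((fun p : MvPolynomial σ k =>
        (p : MvPowerSeries σ k)) '' P j), Low s₀ ((φ i).symm y - q)) ?_ ?_ ?_ ?_ hf1
    · rintro _ ⟨g, hg, rfl⟩
      have hsy : (φ i).symm ((fun p : MvPolynomial σ k => φ i (p : MvPowerSeries σ k)) g) =
          (g : MvPowerSeries σ k) := (φ i).symm_apply_apply _
      rw [hsy]
      have hlow : Low s₀ ((g : MvPowerSeries σ k) -
          ((MvPowerSeries.truncTotal S (g : MvPowerSeries σ k) : MvPolynomial σ k) :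
            MvPowerSeries σ k)) := (low_sub_trunc S (g : MvPowerSeries σ k)).mono hsS
      by_cases ht0 : (MvPowerSeries.truncTotal S (g : MvPowerSeries σ k) : MvPolynomial σ k) = 0
      · refine ⟨0, Submodule.zero_mem _, ?_⟩
        rw [ht0] at hlow
        simpa using hlow
      · rcases hi2 g (hSg i j hg) with h3 | h3
        · exact absurd h3 ht0
        · obtain ⟨d, hd⟩ := C.hom α' _ h3
          by_cases hdS : d < S
          · exact ⟨_, Ideal.subset_span ⟨_, ⟨ht0, ⟨g, hg, rfl⟩, d, hdS, hd⟩, rfl⟩, hlow⟩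
          · refine ⟨0, Submodule.zero_mem _, ?_⟩
            have hlow2 : Low s₀ ((MvPowerSeries.truncTotal S (g : MvPowerSeries σ k) :
                MvPolynomial σ k) : MvPowerSeries σ k) := by
              intro m hm
              by_contra hne
              rw [MvPolynomial.coeff_coe] at hne
              have h4 := hd hne
              have h5 := QcVar_weight (C.w α') m
              rw [h4, ← hWdef] at h5
              have h6 : W * m.degree < W * s₀ := Nat.mul_lt_mul_of_pos_left hm hW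
              rw [mul_comm W s₀, ← hSdef] at h6
              omega
            have h7 := hlow.add hlow2
            rw [sub_add_cancel] at h7
            rwa [sub_zero]
    · exact ⟨0, Submodule.zero_mem _, by rw [map_zero, sub_zero]; exact low_zero s₀⟩
    · rintro x y _ _ ⟨q, hq, hlq⟩ ⟨q', hq', hlq'⟩
      refine ⟨q + q', Submodule.add_mem _ hq hq', ?_⟩
      have h3 := hlq.add hlq'
      rw [map_add]
      have h4 : (φ i).symm x + (φ i).symm y - (q + q') =
          ((φ i).symm x - q) + ((φ i).symm y - q') := by ring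
      rw [h4]
      exact h3
    · rintro c x _ ⟨q, hq, hlq⟩
      refine ⟨(φ i).symm c * q, Ideal.mul_mem_left _ _ hq, ?_⟩
      rw [smul_eq_mul, map_mul, ← mul_sub]
      exact hlq.mul_left _
  refine hno i (qh_core (C.w α') (C.hw α') (C.P α') (C.one α') lam hlam ℓ hℓ s₀ S ?_ ?_ hsS
    (by omega) (a i) (b i) (ha i) (hb i) ?_ (φ i) P hPG hPw h1 h2)
  · intro j hj
    refine lt_of_le_of_lt ?_ (hs₀ j hj)
    exact_mod_cast le_max_left _ _
  · intro j hj
    refine lt_of_le_of_lt ?_ (hs₀ j hj)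
    exact_mod_cast le_max_right _ _
  · intro j
    have h3 := hab i j
    have h4 : mm k σ ^ (i + 1) ≤ mm k σ ^ S := Ideal.pow_le_pow_right (by omega)
    have h5 : a i j ⊔ mm k σ ^ S = (a i j ⊔ mm k σ ^ (i + 1)) ⊔ mm k σ ^ S := by
      rw [sup_assoc, sup_eq_right.2 h4]
    have h6 : b i j ⊔ mm k σ ^ S = (b i j ⊔ mm k σ ^ (i + 1)) ⊔ mm k σ ^ S := by
      rw [sup_assoc, sup_eq_right.2 h4]
    rw [h5, h6, h3]

end MLD
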