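import Pool.Agent.MLD.QcLin

/-!
The class of products of linear forms.
-/

open MvPolynomial

namespace MLD

universe u

variable {k : Type u} [Field k]

theorem lf_of_isHomogeneous {B : Type} [Fintype B] (g : MvPolynomial B k)
    (hg : g.IsHomogeneous 1) : g = lf (fun b => coeff (Finsupp.single b 1) g) := by
  classical
  have h1 := eq_lf_of_totalDegree g hg.totalDegree_le
  have h2 : coeff 0 g = 0 := by
    apply hg.coeff_eq_zero
    simp
  rw [h2, C_0, zero_add] at h1
  exact h1

theorem linProducts_eq (B : Type) [Fintype B] : LinProducts k B ⊆ linProd k B := by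
  rintro f ⟨s, hs, rfl⟩
  refine ⟨s.map fun g b => coeff (Finsupp.single b 1) g, ?_⟩
  rw [Multiset.map_map]
  congr 1
  symm
  calc s.map (lf ∘ fun g b => coeff (Finsupp.single b 1) g) = s.map id :=
        Multiset.map_congr rfl fun g hg => (lf_of_isHomogeneous g (hs g hg)).symm
    _ = s := Multiset.map_id s

end MLD
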