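import Pool.Agent.MLD.Morse

/-!
PIECE MLD-W4: invariance of the rank of the Hessian matrix, the splitting lemma.

`hess_rank`: modulo `Low 3` `f = ∑ q_ij X_i X_j`, `φ f = ∑ q_ij ℓ_i ℓ_j`, `ℓ_i` the linear part of
`φ (X i)`: `hess (φ f) = Lᵀ * hess f * L`, `L` invertible (`linear_part`).
`splitting`: induction on `n`. `n ≤ 2`: `blk := fun _ => 0`, `φ := id`. `n + 1 ≥ 3`: `(hess f).rank ≥ 1`,
so `morse_step`; `f₀` has `Low 2` (`low_automorphism` for `φ⁻¹`), `(hess f₀).rank + 1 = (hess f).rank`
(`hess_rank`; the matrix `hess (X 0 ^ 2 + f₀)` is block diagonal), induction hypothesis for `f₀`: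
`blk₀, φ₀, g₀`; `blk 0 := 0`, `blk (i+1) := (blk₀ i) + 1`, `extend_automorphism φ₀`, the series
`g 0 := X 0 ^ 2`, `g (b+1) := g₀ b` in the variables `X 1, ...`.
-/

open MvPolynomial Filter

namespace MLD

universe u

variable {k : Type u} [Field k]

private theorem split_hess_apply {σ : Type} [DecidableEq σ] (f : MvPowerSeries σ k) (a b : σ) :
    hess f a b = MvPowerSeries.coeff (Finsupp.single a 1 + Finsupp.single b 1) f *
      (((Finsupp.single a 1 : σ →₀ ℕ) b : ℕ) + 1) := by
  unfold hess
  rw [Matrix.of_apply, ← MvPowerSeries.coeff_zero_eq_constantCoeff_apply,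
    MvPowerSeries.coeff_pderiv, MvPowerSeries.coeff_pderiv]
  simp

private theorem split_hess_symm {σ : Type} [DecidableEq σ] (f : MvPowerSeries σ k) (a b : σ) :
    hess f a b = hess f b a := by
  rw [split_hess_apply, split_hess_apply, add_comm (Finsupp.single a 1) (Finsupp.single b 1)]
  congr 2
  rw [Finsupp.single_apply, Finsupp.single_apply]
  by_cases h : a = b
  · subst h; rfl
  · rw [if_neg h, if_neg (Ne.symm h)]

private theorem split_hess_add {σ : Type} (f g : MvPowerSeries σ k) :
    hess (f + g) = hess f + hess g := by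
  ext a b
  unfold hess
  simp

private theorem split_hess_low {σ : Type} (f : MvPowerSeries σ k) (hf : Low 3 f) :
    hess f = 0 := by
  ext a b
  unfold hess
  rw [Matrix.of_apply, ← MvPowerSeries.coeff_zero_eq_constantCoeff_apply]
  exact ((hf.pderiv b).pderiv a) 0 (by simp)

private theorem split_hess_mul {σ : Type} (u v : MvPowerSeries σ k)
    (hu : MvPowerSeries.constantCoeff u = 0) (hv : MvPowerSeries.constantCoeff v = 0) (a b : σ) :
    hess (u * v) a b =
      MvPowerSeries.constantCoeff (MvPowerSeries.pderiv k a u) *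
        MvPowerSeries.constantCoeff (MvPowerSeries.pderiv k b v) +
      MvPowerSeries.constantCoeff (MvPowerSeries.pderiv k b u) *
        MvPowerSeries.constantCoeff (MvPowerSeries.pderiv k a v) := by
  unfold hess
  rw [Matrix.of_apply]
  simp only [Derivation.leibniz, smul_eq_mul, map_add, map_mul, hu, hv]
  ring

private theorem split_hess_smul {σ : Type} (c : k) (f : MvPowerSeries σ k) (a b : σ) :
    hess (c • f) a b = c * hess f a b := by
  unfold hess
  simp

private theorem split_hess_sum {σ ι : Type} (s : Finset ι) (f : ι → MvPowerSeries σ k) (a b : σ) :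
    hess (∑ i ∈ s, f i) a b = ∑ i ∈ s, hess (f i) a b := by
  unfold hess
  simp

/-- the quadratic form with matrix `h / 2` at `u` -/
private noncomputable def splitQuad {σ : Type} [Fintype σ] (h : Matrix σ σ k)
    (u : σ → MvPowerSeries σ k) : MvPowerSeries σ k :=
  ∑ i, ∑ j, (h i j / 2) • (u i * u j)

private theorem split_hess_quad {σ : Type} [Fintype σ] [CharZero k] (h : Matrix σ σ k)
    (hs : ∀ a b, h a b = h b a) (u : σ → MvPowerSeries σ k)
    (hu : ∀ i, MvPowerSeries.constantCoeff (u i) = 0) :
    hess (splitQuad h u) =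
      (Matrix.of fun a i => MvPowerSeries.constantCoeff (MvPowerSeries.pderiv k a (u i))) * h *
      (Matrix.transpose
        (Matrix.of fun a i => MvPowerSeries.constantCoeff (MvPowerSeries.pderiv k a (u i)))) := by
  ext a b
  unfold splitQuad
  rw [split_hess_sum]
  simp_rw [split_hess_sum, split_hess_smul, split_hess_mul _ _ (hu _) (hu _)]
  rw [Matrix.mul_apply]
  simp_rw [Matrix.mul_apply, Matrix.transpose_apply, Matrix.of_apply, mul_add,
    Finset.sum_add_distrib, Finset.sum_mul]
  have h1 : ∑ x, ∑ x_1, h x x_1 / 2 *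
      (MvPowerSeries.constantCoeff (MvPowerSeries.pderiv k b (u x)) *
        MvPowerSeries.constantCoeff (MvPowerSeries.pderiv k a (u x_1))) =
      ∑ x, ∑ x_1, h x x_1 / 2 *
      (MvPowerSeries.constantCoeff (MvPowerSeries.pderiv k a (u x)) *
        MvPowerSeries.constantCoeff (MvPowerSeries.pderiv k b (u x_1))) := by
    rw [Finset.sum_comm]
    refine Finset.sum_congr rfl fun x _ => Finset.sum_congr rfl fun y _ => ?_
    rw [hs y x]
    ring
  rw [h1, ← Finset.sum_add_distrib]
  simp_rw [← Finset.sum_add_distrib]
  rw [Finset.sum_comm]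
  refine Finset.sum_congr rfl fun x _ => Finset.sum_congr rfl fun y _ => ?_
  ring

private theorem split_low_succ {σ : Type} [CharZero k] (N : ℕ) (g : MvPowerSeries σ k)
    (h0 : MvPowerSeries.constantCoeff g = 0) (h1 : ∀ i, Low N (MvPowerSeries.pderiv k i g)) :
    Low (N + 1) g := by
  classical
  intro m hm
  by_cases h : m = 0
  · rw [h]
    exact h0
  · obtain ⟨i, hi⟩ := Finsupp.ne_iff.mp h
    rw [Finsupp.zero_apply] at hi
    have hle : Finsupp.single i 1 ≤ m := by
      rw [Finsupp.single_le_iff]
      omega
    have h2 := h1 i (m - Finsupp.single i 1) (by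
      have h3 : (m - Finsupp.single i 1).degree + (Finsupp.single i 1 : σ →₀ ℕ).degree =
          m.degree := by
        rw [← map_add, tsub_add_cancel_of_le hle]
      rw [Finsupp.degree_single] at h3
      omega)
    rw [MvPowerSeries.coeff_pderiv, tsub_add_cancel_of_le hle] at h2
    rcases mul_eq_zero.mp h2 with h3 | h3
    · exact h3
    · exfalso
      have : (((m - Finsupp.single i 1 : σ →₀ ℕ) i + 1 : ℕ) : k) = 0 := by
        push_cast
        exact h3
      exact absurd (Nat.cast_eq_zero.mp this) (by omega)

theorem hess_rank {σ : Type} [Fintype σ] [DecidableEq σ] [CharZero k] (f : MvPowerSeries σ k)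
    (hf : Low 2 f) (φ : MvPowerSeries σ k ≃ₐ[k] MvPowerSeries σ k) :
    (hess (φ f)).rank = (hess f).rank := by
  set h := hess f with hh
  have hs : ∀ a b, h a b = h b a := split_hess_symm f
  have hX : ∀ i : σ, MvPowerSeries.constantCoeff (MvPowerSeries.X i : MvPowerSeries σ k) = 0 :=
    fun i => MvPowerSeries.constantCoeff_X i
  have hlX : ∀ i : σ, Low 1 (MvPowerSeries.X i : MvPowerSeries σ k) := by
    intro i m hm
    have : m = 0 := by
      have h2 : m.degree = 0 := by omega
      exact Finsupp.degree_eq_zero_iff m |>.mp h2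
    rw [this, MvPowerSeries.coeff_zero_eq_constantCoeff_apply, hX]
  have hφX : ∀ i : σ, MvPowerSeries.constantCoeff (φ (MvPowerSeries.X i)) = 0 := by
    intro i
    have := low_automorphism φ (hlX i) 0 (by simp)
    rwa [MvPowerSeries.coeff_zero_eq_constantCoeff_apply] at this
  -- the remainder
  set g : MvPowerSeries σ k := f - splitQuad h (fun i => MvPowerSeries.X i) with hg
  have hfg : f = g + splitQuad h (fun i => MvPowerSeries.X i) := by rw [hg]; ring
  have hone : (Matrix.of fun a i : σ => MvPowerSeries.constantCoeff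
      (MvPowerSeries.pderiv k a (MvPowerSeries.X i : MvPowerSeries σ k))) = 1 := by
    ext a i
    rw [Matrix.of_apply, MvPowerSeries.pderiv_X]
    by_cases hai : a = i
    · subst hai; simp
    · simp [hai, Ne.symm hai]
  have hQX : hess (splitQuad h (fun i => (MvPowerSeries.X i : MvPowerSeries σ k))) = h := by
    rw [split_hess_quad h hs _ hX, hone]
    simp
  have hg3 : Low 3 g := by
    have hQ2 : Low 2 (splitQuad h (fun i => (MvPowerSeries.X i : MvPowerSeries σ k))) := by
      unfold splitQuad
      intro m hm
      rw [map_sum]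
      refine Finset.sum_eq_zero fun i _ => ?_
      rw [map_sum]
      refine Finset.sum_eq_zero fun j _ => ?_
      have := (hlX i).mul (hlX j) m hm
      rw [map_smul, this, smul_zero]
    have hg2 : Low 2 g := hf.sub hQ2
    have hg0 : hess g = 0 := by
      have h1 : hess f = hess g + hess (splitQuad h (fun i => MvPowerSeries.X i)) := by
        rw [← split_hess_add, ← hfg]
      rw [hQX, ← hh] at h1
      have h2 : (0 : Matrix σ σ k) + h = hess g + h := by rw [zero_add]; exact h1
      exact (add_right_cancel h2).symm
    apply split_low_succ 2 g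
    · have := hg2 0 (by simp)
      rwa [MvPowerSeries.coeff_zero_eq_constantCoeff_apply] at this
    · intro i
      apply split_low_succ 1
      · have := (hg2.pderiv i) 0 (by simp)
        rwa [MvPowerSeries.coeff_zero_eq_constantCoeff_apply] at this
      · intro j m hm
        have hm0 : m = 0 := (Finsupp.degree_eq_zero_iff m).mp (by omega)
        have h1 : hess g j i = 0 := by rw [hg0]; rfl
        unfold hess at h1
        rw [Matrix.of_apply] at h1
        rw [hm0, MvPowerSeries.coeff_zero_eq_constantCoeff_apply]
        exact h1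
  have hφf : φ f = φ g + splitQuad h (fun i => φ (MvPowerSeries.X i)) := by
    conv_lhs => rw [hfg]
    rw [map_add]
    congr 1
    unfold splitQuad
    rw [map_sum]
    refine Finset.sum_congr rfl fun i _ => ?_
    rw [map_sum]
    refine Finset.sum_congr rfl fun j _ => ?_
    rw [map_smul, map_mul]
  rw [hφf, split_hess_add, split_hess_low _ (low_automorphism φ hg3), zero_add,
    split_hess_quad h hs _ hφX]
  have hL : IsUnit (Matrix.of fun a i : σ => MvPowerSeries.constantCoeff
      (MvPowerSeries.pderiv k a (φ (MvPowerSeries.X i)))).det := by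
    have h1 := (linear_part φ).map (MvPowerSeries.constantCoeff (σ := σ) (R := k))
    rw [RingHom.map_det] at h1
    exact h1
  rw [Matrix.rank_mul_eq_left_of_isUnit_det _ _ (by rw [Matrix.det_transpose]; exact hL),
    Matrix.rank_mul_eq_right_of_isUnit_det _ _ hL]

private theorem split_rank_add {m n : Type} [Fintype n] [Fintype m] (A B : Matrix m n k) :
    (A + B).rank ≤ A.rank + B.rank := by
  unfold Matrix.rank
  rw [Matrix.mulVecLin_add]
  refine le_trans (Submodule.finrank_mono (?_ : LinearMap.range (A.mulVecLin + B.mulVecLin) ≤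
    LinearMap.range A.mulVecLin ⊔ LinearMap.range B.mulVecLin)) ?_
  · rintro _ ⟨x, rfl⟩
    rw [LinearMap.add_apply]
    exact Submodule.add_mem_sup ⟨x, rfl⟩ ⟨x, rfl⟩
  · exact Submodule.finrank_add_le_finrank_add_finrank _ _

/-- a power series in the last variables -/
private noncomputable def splitIota {n : ℕ} (g : MvPowerSeries (Fin n) k) :
    MvPowerSeries (Fin (n + 1)) k :=
  (MvPowerSeries.finSuccEquiv k n).symm (PowerSeries.C g)

private theorem split_coeff_iota {n : ℕ} (g : MvPowerSeries (Fin n) k) (c : ℕ) (x : Fin n →₀ ℕ) :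
    MvPowerSeries.coeff (Finsupp.cons c x) (splitIota g) =
      if c = 0 then MvPowerSeries.coeff x g else 0 := by
  rw [← MvPowerSeries.coeff_coeff_finSuccEquiv]
  unfold splitIota
  rw [AlgEquiv.apply_symm_apply, PowerSeries.coeff_C]
  split_ifs with h
  · rfl
  · simp

private theorem split_coeff_iota' {n : ℕ} (g : MvPowerSeries (Fin n) k)
    (m : Fin (n + 1) →₀ ℕ) :
    MvPowerSeries.coeff m (splitIota g) =
      if m 0 = 0 then MvPowerSeries.coeff m.tail g else 0 := by
  conv_lhs => rw [← Finsupp.cons_tail m]
  exact split_coeff_iota g (m 0) m.tail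

private theorem split_iota_add {n : ℕ} (g h : MvPowerSeries (Fin n) k) :
    splitIota (g + h) = splitIota g + splitIota h := by
  unfold splitIota
  rw [map_add, map_add]

private theorem split_iota_sum {n : ℕ} {ι : Type} (s : Finset ι)
    (g : ι → MvPowerSeries (Fin n) k) :
    splitIota (∑ i ∈ s, g i) = ∑ i ∈ s, splitIota (g i) := by
  unfold splitIota
  rw [map_sum, map_sum]

/-- the inclusion matrix -/
private def splitInc (k : Type u) [Field k] (n : ℕ) : Matrix (Fin (n + 1)) (Fin n) k :=
  Matrix.of fun a i => if a = i.succ then 1 else 0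

private theorem split_hess_iota {n : ℕ} (g : MvPowerSeries (Fin n) k) :
    hess (splitIota g) = splitInc k n * hess g * (splitInc k n).transpose := by
  ext a b
  rw [split_hess_apply, split_coeff_iota', Matrix.mul_apply]
  simp_rw [Matrix.mul_apply, Matrix.transpose_apply]
  unfold splitInc
  simp only [Matrix.of_apply]
  refine Fin.cases ?_ (fun i => ?_) a
  · have h0 : ((Finsupp.single 0 1 + Finsupp.single b 1 : Fin (n + 1) →₀ ℕ)) 0 ≠ 0 := by
      simp
    rw [if_neg h0, zero_mul]
    symm
    refine Finset.sum_eq_zero fun x _ => ?_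
    rw [Finset.sum_eq_zero, zero_mul]
    intro y _
    rw [if_neg (Fin.succ_ne_zero y).symm, zero_mul]
  · refine Fin.cases ?_ (fun j => ?_) b
    · have h0 : ((Finsupp.single i.succ 1 + Finsupp.single 0 1 : Fin (n + 1) →₀ ℕ)) 0 ≠ 0 := by
        simp
      rw [if_neg h0, zero_mul]
      symm
      refine Finset.sum_eq_zero fun x _ => ?_
      rw [if_neg (Fin.succ_ne_zero x).symm, mul_zero]
    · have h0 : ((Finsupp.single i.succ 1 + Finsupp.single j.succ 1 : Fin (n + 1) →₀ ℕ)) 0 = 0 := by
        simp
      have h1 : (Finsupp.single i.succ 1 + Finsupp.single j.succ 1 : Fin (n + 1) →₀ ℕ).tail =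
          Finsupp.single i 1 + Finsupp.single j 1 := by
        ext x
        simp [Finsupp.tail_apply, Finsupp.single_apply]
      rw [if_pos h0, h1]
      simp only [Fin.succ_inj, ite_mul, one_mul, zero_mul, mul_ite, mul_one, mul_zero,
        Finset.sum_ite_eq, Finset.mem_univ, if_true]
      rw [split_hess_apply]
      congr 2
      simp [Finsupp.single_apply]

private theorem split_hess_rank_step {n : ℕ} (g : MvPowerSeries (Fin n) k) :
    (hess (MvPowerSeries.X 0 ^ 2 + splitIota g)).rank ≤ (hess g).rank + 1 := by
  rw [split_hess_add]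
  refine (split_rank_add _ _).trans ?_
  rw [Nat.add_comm]
  refine Nat.add_le_add ?_ ?_
  · rw [split_hess_iota]
    exact (Matrix.rank_mul_le_left _ _).trans (Matrix.rank_mul_le_right _ _)
  · have h1 : hess (MvPowerSeries.X 0 ^ 2 : MvPowerSeries (Fin (n + 1)) k) =
        Matrix.vecMulVec (fun a : Fin (n + 1) => if a = 0 then (2 : k) else 0)
          (fun a : Fin (n + 1) => if a = 0 then (1 : k) else 0) := by
      ext a b
      rw [pow_two, split_hess_mul _ _ (MvPowerSeries.constantCoeff_X 0)
        (MvPowerSeries.constantCoeff_X 0), Matrix.vecMulVec_apply, MvPowerSeries.pderiv_X,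
        MvPowerSeries.pderiv_X]
      by_cases ha : a = 0 <;> by_cases hb : b = 0
      · subst ha; subst hb; simp; norm_num
      · subst ha; simp [hb, Ne.symm hb]
      · subst hb; simp [ha, Ne.symm ha]
      · simp [ha, hb, Ne.symm ha, Ne.symm hb]
    rw [h1]
    exact Matrix.rank_vecMulVec_le _ _

/-- The splitting lemma in corank at most two. -/
theorem splitting [IsAlgClosed k] [CharZero k] (n : ℕ) (f : MvPowerSeries (Fin n) k)
    (hf : Low 2 f) (hH : n ≤ (hess f).rank + 2) :
    ∃ (blk : Fin n → Fin n) (φ : MvPowerSeries (Fin n) k ≃ₐ[k] MvPowerSeries (Fin n) k)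
      (g : Fin n → MvPowerSeries (Fin n) k), (∀ b, Fintype.card {i // blk i = b} ≤ 2) ∧
      (∀ b, InBlock blk b (g b)) ∧ f = φ (∑ b, g b) := by
  induction n with
  | zero =>
    refine ⟨fun i => i, AlgEquiv.refl, fun i => i.elim0, fun b => b.elim0, fun b => b.elim0, ?_⟩
    ext m
    have hm : m = 0 := Subsingleton.elim _ _
    rw [hm, hf 0 (by simp)]
    simp
  | succ n ih =>
    rcases Nat.lt_or_ge n 2 with hn | hn
    · refine ⟨fun _ => 0, AlgEquiv.refl, fun b => if b = 0 then f else 0, fun b => ?_,
        fun b => ?_, ?_⟩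
      · refine (Fintype.card_subtype_le _).trans ?_
        rw [Fintype.card_fin]
        omega
      · intro m hm i hi
        by_cases hb : b = 0
        · exact hb.symm
        · simp only [if_neg hb] at hm
          exact absurd (by simp) hm
      · simp
    · have hH0 : hess f ≠ 0 := by
        intro h0
        rw [h0, Matrix.rank_zero] at hH
        omega
      obtain ⟨φ, f₀, hφ⟩ := morse_step f hf hH0
      change f = φ (MvPowerSeries.X 0 ^ 2 + splitIota f₀) at hφ
      have hF : Low 2 (MvPowerSeries.X 0 ^ 2 + splitIota f₀) := by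
        have h1 : MvPowerSeries.X 0 ^ 2 + splitIota f₀ = φ.symm f := by
          rw [hφ, AlgEquiv.symm_apply_apply]
        rw [h1]
        exact low_automorphism φ.symm hf
      have hf₀ : Low 2 f₀ := by
        intro m hm
        have hdeg : (Finsupp.cons 0 m : Fin (n + 1) →₀ ℕ).degree = m.degree := by
          rw [Finsupp.degree_eq_sum, Finsupp.degree_eq_sum, Fin.sum_univ_succ]
          simp
        have h1 := hF (Finsupp.cons 0 m) (by rw [hdeg]; exact hm)
        rw [map_add, split_coeff_iota, if_pos rfl, MvPowerSeries.coeff_X_pow, if_neg, zero_add]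
          at h1
        · exact h1
        · intro h2
          have h3 := DFunLike.congr_fun h2 0
          simp at h3
      have hr : (hess f).rank = (hess (MvPowerSeries.X 0 ^ 2 + splitIota f₀)).rank := by
        conv_lhs => rw [hφ]
        exact hess_rank _ hF φ
      have hr2 := split_hess_rank_step f₀
      obtain ⟨blk₀, φ₀, g₀, hcard, hblk, hfg⟩ := ih f₀ hf₀ (by omega)
      obtain ⟨φ', hφ'0, hφ'⟩ := extend_automorphism φ₀
      refine ⟨Fin.cases 0 (fun i => (blk₀ i).succ), φ'.trans φ,
        Fin.cases (MvPowerSeries.X 0 ^ 2) (fun b => splitIota (g₀ b)), ?_, ?_, ?_⟩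
      · intro b
        refine Fin.cases ?_ (fun b' => ?_) b
        · refine (Fintype.card_le_of_injective (β := Fin 1) (fun _ => 0) ?_).trans (by simp)
          rintro ⟨x, hx⟩ ⟨y, hy⟩ -
          have h0 : ∀ x : Fin (n + 1),
              (Fin.cases 0 (fun i => (blk₀ i).succ) x : Fin (n + 1)) = 0 → x = 0 := by
            intro x
            refine Fin.cases (fun _ => rfl) (fun i hi => ?_) x
            exact absurd hi (Fin.succ_ne_zero _)
          exact Subtype.ext ((h0 x hx).trans (h0 y hy).symm)
        · refine (Fintype.card_le_of_surjective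
            (fun x : {i // blk₀ i = b'} =>
              (⟨x.1.succ, by simp [x.2]⟩ : {i : Fin (n + 1) //
                (Fin.cases 0 (fun i => (blk₀ i).succ) i : Fin (n + 1)) = b'.succ})) ?_).trans
            (hcard b')
          rintro ⟨x, hx⟩
          revert hx
          refine Fin.cases (fun hx => ?_) (fun i hi => ?_) x
          · exact absurd hx (Fin.succ_ne_zero _).symm
          · exact ⟨⟨i, Fin.succ_injective _ hi⟩, rfl⟩
      · intro b
        refine Fin.cases ?_ (fun b' => ?_) b
        · intro m hm i hi
          have hm' : MvPowerSeries.coeff m (MvPowerSeries.X 0 ^ 2 : MvPowerSeries (Fin (n + 1)) k)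
              ≠ 0 := hm
          rw [MvPowerSeries.coeff_X_pow] at hm'
          have h1 : m = Finsupp.single 0 2 := by
            by_contra h
            exact hm' (if_neg h)
          have h2 : i = 0 := by
            by_contra h
            rw [h1, Finsupp.single_apply, if_neg (Ne.symm h)] at hi
            exact hi rfl
          rw [h2]
          rfl
        · intro m hm i
          have hm' : MvPowerSeries.coeff m (splitIota (g₀ b')) ≠ 0 := hm
          rw [split_coeff_iota'] at hm'
          have h1 : m 0 = 0 := by
            by_contra h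
            exact hm' (if_neg h)
          rw [if_pos h1] at hm'
          refine Fin.cases (fun hi => absurd h1 hi) (fun j hj => ?_) i
          exact congrArg Fin.succ (hblk b' m.tail hm' j hj)
      · conv_lhs => rw [hφ]
        rw [AlgEquiv.trans_apply]
        congr 1
        rw [Fin.sum_univ_succ]
        simp only [Fin.cases_zero, Fin.cases_succ]
        rw [map_add, map_pow, hφ'0, ← split_iota_sum]
        congr 1
        conv_lhs => rw [hfg]
        exact (hφ' (∑ b, g₀ b)).symm

end MLD
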