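import Pool.Agent.MLD.PsBase

/-!
PIECE MLD-W1: square roots of units.

`exists_sqrt`: Hensel's lemma for the complete local ring of power series, or recursion on the
degree (the homogeneous components of `w` are determined successively; `2 * w_0` is invertible),
or the binomial series `PowerSeries` substituted at `u / u(0) - 1`.
-/

open MvPolynomial Filter

namespace MLD

universe u

variable {k : Type u} [Field k] {σ : Type}

theorem exists_sqrt [IsAlgClosed k] [CharZero k] [Finite σ] (u : MvPowerSeries σ k)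
    (hu : MvPowerSeries.constantCoeff u ≠ 0) : ∃ w : MvPowerSeries σ k, w ^ 2 = u := by
  obtain ⟨c, hc⟩ := IsAlgClosed.exists_pow_nat_eq (MvPowerSeries.constantCoeff u) (n := 2)
    (by norm_num)
  have h1 : MvPowerSeries.constantCoeff
      (MvPowerSeries.C (MvPowerSeries.constantCoeff u)⁻¹ * u - 1 : MvPowerSeries σ k) = 0 := by
    simp [hu]
  have hs : PowerSeries.HasSubst
      (MvPowerSeries.C (MvPowerSeries.constantCoeff u)⁻¹ * u - 1 : MvPowerSeries σ k) :=
    PowerSeries.HasSubst.of_constantCoeff_zero h1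
  have hb : (PowerSeries.binomialSeries k (1 / 2 : ℚ)) ^ 2 = 1 + PowerSeries.X := by
    rw [pow_two, ← PowerSeries.binomialSeries_add]
    have : (1 / 2 + 1 / 2 : ℚ) = ((1 : ℕ) : ℚ) := by norm_num
    rw [this, PowerSeries.binomialSeries_nat, pow_one]
  refine ⟨MvPowerSeries.C c * PowerSeries.subst
    (MvPowerSeries.C (MvPowerSeries.constantCoeff u)⁻¹ * u - 1 : MvPowerSeries σ k)
    (PowerSeries.binomialSeries k (1 / 2 : ℚ)), ?_⟩
  rw [mul_pow, ← PowerSeries.subst_pow hs, hb, PowerSeries.subst_add hs, PowerSeries.subst_X hs,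
    ← map_pow, hc]
  have h2 : PowerSeries.subst
      (MvPowerSeries.C (MvPowerSeries.constantCoeff u)⁻¹ * u - 1 : MvPowerSeries σ k)
      (1 : PowerSeries k) = 1 := by
    rw [← PowerSeries.coe_substAlgHom hs, map_one]
  rw [h2, add_sub_cancel, ← mul_assoc, ← map_mul, mul_inv_cancel₀ hu, map_one, one_mul]

end MLD
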