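import Mathlib

/-!
PIECE MLD-C19: a bounded elimination polynomial for two plane polynomials without common factor.

PROOF (by dimensions). Let `f, g ≠ 0` be relatively prime of total degree `≤ d`, `a := deg f`, `b := deg g`.  Let `V t`
be the space of polynomials of total degree `≤ t`, of dimension `(t+2 choose 2)`.  The kernel of
`V (t-a) × V (t-b) → V t`, `(u, v) ↦ u f + v g`, is `{(s g, - s f)}`, `s ∈ V (t-a-b)` (`f ∣ v g` implies `f ∣ v`), so the
image has codimension `C(t+2,2) - C(t-a+2,2) - C(t-b+2,2) + C(t-a-b+2,2) = a b ≤ d²` for `t ≥ a + b`.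
So the images of `1, X c, ..., X c ^ (d²)` in `V t / image` (`t` large) are linearly dependent, which gives
`r ≠ 0` of degree `≤ d²` with `r (X c) ∈ Ideal.span {f, g}`.
Any other bound depending only on `d` is fine (the statement only asks for some `N`).  Another proof: by
the Gauss lemma `f, g` are coprime in `k(X c)[X c']` (if both have positive degree in `X c'`), the resultant with
respect to `X c'` (`Polynomial.resultant`, determinant of the Sylvester matrix) is a nonzero element of
the ideal, of degree `≤ 2 d²`.  Or by compactness: if there were no bound there would be sequences `f i, g i`;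
in the ultraproduct field ...
-/

open MvPolynomial

namespace MLD

universe u

private def t2bBox (c c' : Fin 2) (s t : ℕ) : Set (Fin 2 →₀ ℕ) := {e | e c' < s ∧ e c ≤ t}

private noncomputable def t2bEquiv {c c' : Fin 2} (h : c' ≠ c) (s t : ℕ) :
    t2bBox c c' s t ≃ Fin s × Fin (t + 1) where
  toFun e := (⟨e.1 c', e.2.1⟩, ⟨e.1 c, Nat.lt_succ_of_le e.2.2⟩)
  invFun x := ⟨Finsupp.single c' x.1.1 + Finsupp.single c x.2.1, by
    have h1 := x.1.2
    have h2 := x.2.2
    refine ⟨?_, ?_⟩
    · simp [h.symm]
    · simp [h]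
      omega⟩
  left_inv e := by
    apply Subtype.ext
    apply Finsupp.ext
    intro a
    have ha : a = c' ∨ a = c := by
      revert h
      fin_cases a <;> fin_cases c <;> fin_cases c' <;> simp
    rcases ha with rfl | rfl
    · simp [h.symm]
    · simp [h]
  right_inv x := by
    apply Prod.ext
    · apply Fin.ext
      simp [h.symm]
    · apply Fin.ext
      simp [h]

private theorem t2b_finrank (k : Type u) [Field k] {c c' : Fin 2} (h : c' ≠ c) (s t : ℕ) :
    Module.finrank k (restrictSupport k (t2bBox c c' s t)) = s * (t + 1) := by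
  rw [Module.finrank_eq_nat_card_basis (basisRestrictSupport k (t2bBox c c' s t)),
    Nat.card_congr (t2bEquiv h s t)]
  simp

private theorem t2b_finite (k : Type u) [Field k] {c c' : Fin 2} (h : c' ≠ c) (s t : ℕ) :
    Module.Finite k (restrictSupport k (t2bBox c c' s t)) := by
  haveI : Finite (t2bBox c c' s t) := Finite.of_equiv _ (t2bEquiv h s t).symm
  exact Module.Finite.of_basis (basisRestrictSupport k (t2bBox c c' s t))

private theorem t2b_mem {k : Type u} [Field k] {c c' : Fin 2} {s t : ℕ}
    {p : MvPolynomial (Fin 2) k} :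
    p ∈ restrictSupport k (t2bBox c c' s t) ↔ ∀ e ∈ p.support, e c' < s ∧ e c ≤ t := by
  rw [mem_restrictSupport_iff]
  rfl

private theorem t2b_mul {k : Type u} [Field k] {c c' : Fin 2} {s t s' t' a b : ℕ}
    {p q : MvPolynomial (Fin 2) k}
    (hp : p ∈ restrictSupport k (t2bBox c c' s t)) (hq : q ∈ restrictSupport k (t2bBox c c' s' t'))
    (ha : s + s' ≤ a + 1) (hb : t + t' ≤ b) :
    p * q ∈ restrictSupport k (t2bBox c c' a b) := by
  classical
  rw [t2b_mem] at hp hq ⊢
  intro e he
  have h1 := MvPolynomial.support_mul p q he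
  obtain ⟨x, hx, y, hy, rfl⟩ := Finset.mem_add.1 h1
  have h2 := hp x hx
  have h3 := hq y hy
  simp only [Finsupp.add_apply]
  omega

theorem t2_bez (k : Type u) [Field k] (d : ℕ) :
    ∃ N : ℕ, ∀ f g : MvPolynomial (Fin 2) k, f ≠ 0 → g ≠ 0 → IsRelPrime f g →
      f.totalDegree ≤ d → g.totalDegree ≤ d → ∀ c : Fin 2, ∃ r : Polynomial k, r ≠ 0 ∧
        r.natDegree ≤ N ∧
        Polynomial.aeval (X c : MvPolynomial (Fin 2) k) r ∈ Ideal.span {f, g} := by
  classical
  refine ⟨(2 * d + 1) * d, ?_⟩
  intro f g hf hg hfg hdf hdg c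
  obtain ⟨c', h⟩ : ∃ c' : Fin 2, c' ≠ c := exists_ne c
  set m := degreeOf c' f with hm
  set n := degreeOf c' g with hn
  have hmd : m ≤ d := (degreeOf_le_totalDegree f c').trans hdf
  have hnd : n ≤ d := (degreeOf_le_totalDegree g c').trans hdg
  set M := (n + 1 + m) * d + 1 with hM
  have hfm : f ∈ restrictSupport k (t2bBox c c' (m + 1) d) := by
    rw [t2b_mem]
    intro e he
    exact ⟨Nat.lt_succ_of_le (monomial_le_degreeOf c' he),
      (monomial_le_degreeOf c he).trans ((degreeOf_le_totalDegree f c).trans hdf)⟩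
  have hgm : g ∈ restrictSupport k (t2bBox c c' (n + 1) d) := by
    rw [t2b_mem]
    intro e he
    exact ⟨Nat.lt_succ_of_le (monomial_le_degreeOf c' he),
      (monomial_le_degreeOf c he).trans ((degreeOf_le_totalDegree g c).trans hdg)⟩
  have hX : ∀ j : ℕ, j ≤ M + d → (X c : MvPolynomial (Fin 2) k) ^ j ∈
      restrictSupport k (t2bBox c c' (n + 1 + m) (M + d)) := by
    intro j hj
    rw [t2b_mem]
    intro e he
    rw [MvPolynomial.support_X_pow, Finset.mem_singleton] at he
    subst he
    refine ⟨?_, ?_⟩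
    · simp [h.symm]
    · simpa using hj
  have hw : ∀ w ∈ Polynomial.degreeLT k M, Polynomial.aeval (X c : MvPolynomial (Fin 2) k) w ∈
      restrictSupport k (t2bBox c c' (n + 1 + m) (M + d)) := by
    intro w hw
    rw [Polynomial.mem_degreeLT] at hw
    rw [Polynomial.aeval_def, Polynomial.eval₂_eq_sum, Polynomial.sum_def]
    refine Submodule.sum_mem _ ?_
    intro j hj
    have hj2 : j < M := by
      have h1 := Polynomial.le_degree_of_mem_supp j hj
      exact_mod_cast lt_of_le_of_lt h1 hw
    rw [← Algebra.smul_def]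
    exact Submodule.smul_mem _ _ (hX j (by omega))
  let U := restrictSupport k (t2bBox c c' (n + 1) M)
  let V := restrictSupport k (t2bBox c c' m M)
  let W := Polynomial.degreeLT k M
  let T := restrictSupport k (t2bBox c c' (n + 1 + m) (M + d))
  haveI : Module.Finite k U := t2b_finite k h _ _
  haveI : Module.Finite k V := t2b_finite k h _ _
  haveI : Module.Finite k T := t2b_finite k h _ _
  haveI : Module.Finite k W := Module.Finite.equiv (Polynomial.degreeLTEquiv k M).symm
  have hWr : Module.finrank k W = M := by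
    rw [(Polynomial.degreeLTEquiv k M).finrank_eq]
    simp
  let Φ0 : (U × V × W) →ₗ[k] MvPolynomial (Fin 2) k :=
    ((LinearMap.mulRight k f).comp U.subtype).coprod
      (((LinearMap.mulRight k g).comp V.subtype).coprod
        ((Polynomial.aeval (X c : MvPolynomial (Fin 2) k)).toLinearMap.comp W.subtype))
  have hΦ0 : ∀ x : U × V × W, Φ0 x = (x.1 : MvPolynomial (Fin 2) k) * f +
      ((x.2.1 : MvPolynomial (Fin 2) k) * g +
        Polynomial.aeval (X c : MvPolynomial (Fin 2) k) (x.2.2 : Polynomial k)) := by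
    intro x
    simp [Φ0]
  have hT : ∀ x : U × V × W, Φ0 x ∈ T := by
    intro x
    rw [hΦ0]
    refine Submodule.add_mem _ ?_ (Submodule.add_mem _ ?_ ?_)
    · exact t2b_mul x.1.2 hfm (by omega) (by omega)
    · exact t2b_mul x.2.1.2 hgm (by omega) (by omega)
    · exact hw _ x.2.2.2
  let Φ : (U × V × W) →ₗ[k] T := Φ0.codRestrict T hT
  have hlt : Module.finrank k T < Module.finrank k (U × V × W) := by
    rw [Module.finrank_prod, Module.finrank_prod, hWr, t2b_finrank k h, t2b_finrank k h,
      t2b_finrank k h]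
    have : (n + 1 + m) * (M + d + 1) = (n + 1) * (M + 1) + m * (M + 1) + (n + 1 + m) * d := by
      ring
    omega
  have hker := LinearMap.ker_ne_bot_of_finrank_lt (f := Φ) hlt
  obtain ⟨x, hx, hx0⟩ := (Submodule.ne_bot_iff _).1 hker
  have hx1 : Φ0 x = 0 := by
    have := LinearMap.mem_ker.1 hx
    have h2 := congrArg Subtype.val this
    simpa [Φ] using h2
  rw [hΦ0] at hx1
  have hwne : (x.2.2 : Polynomial k) ≠ 0 := by
    intro hw0
    rw [hw0, map_zero, add_zero] at hx1
    have hdiv : f ∣ (x.2.1 : MvPolynomial (Fin 2) k) * g := by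
      refine ⟨-(x.1 : MvPolynomial (Fin 2) k), ?_⟩
      linear_combination hx1
    have hdv : f ∣ (x.2.1 : MvPolynomial (Fin 2) k) := hfg.dvd_of_dvd_mul_right hdiv
    have hv0 : (x.2.1 : MvPolynomial (Fin 2) k) = 0 := by
      by_contra hne
      obtain ⟨q, hq⟩ := hdv
      have hq0 : q ≠ 0 := by
        rintro rfl
        rw [mul_zero] at hq
        exact hne hq
      have h1 : degreeOf c' (x.2.1 : MvPolynomial (Fin 2) k) = m + degreeOf c' q := by
        rw [hq, degreeOf_mul_eq hf hq0]
      have h2 := t2b_mem.1 x.2.1.2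
      obtain ⟨e0, he0⟩ := MvPolynomial.support_nonempty.2 hne
      have hmpos : 0 < m := lt_of_le_of_lt (Nat.zero_le _) (h2 e0 he0).1
      have h3 : degreeOf c' (x.2.1 : MvPolynomial (Fin 2) k) < m :=
        (degreeOf_lt_iff hmpos).2 (fun e he => (h2 e he).1)
      omega
    have hu0 : (x.1 : MvPolynomial (Fin 2) k) = 0 := by
      rw [hv0, zero_mul, add_zero] at hx1
      exact (mul_eq_zero.1 hx1).resolve_right hf
    apply hx0
    apply Prod.ext
    · exact Subtype.ext hu0
    · apply Prod.ext
      · exact Subtype.ext hv0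
      · exact Subtype.ext hw0
  refine ⟨x.2.2, hwne, ?_, ?_⟩
  · have h1 := Polynomial.mem_degreeLT.1 x.2.2.2
    have h2 : (x.2.2 : Polynomial k).natDegree < M := by
      rw [Polynomial.natDegree_lt_iff_degree_lt hwne]
      exact h1
    have h3 : (n + 1 + m) * d ≤ (2 * d + 1) * d := Nat.mul_le_mul_right _ (by omega)
    omega
  · have h1 : Polynomial.aeval (X c : MvPolynomial (Fin 2) k) (x.2.2 : Polynomial k) =
        -(x.1 : MvPolynomial (Fin 2) k) * f + -(x.2.1 : MvPolynomial (Fin 2) k) * g := by
      linear_combination hx1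
    rw [h1]
    exact Ideal.add_mem _ (Ideal.mul_mem_left _ _ (Ideal.subset_span (by simp)))
      (Ideal.mul_mem_left _ _ (Ideal.subset_span (by simp)))

end MLD
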