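import Pool.Agent.MLD.Blk
import Pool.Agent.MLD.Ord
import Pool.Agent.MLD.T2Bez

/-!
PIECE MLD-C20: centres of valuations on the plane relative to a family of irreducible curves.

PROOF. Let `N` be the bound of `t2_bez k D` for degree `D`.  Consider the finitely many pairs `(f, g)`:
`(h m, h m')` for `m ≠ m'`, and `(h m, ∂_c h m)` for those `c` with `∂_c h m ≠ 0` (characteristic zero:
`h m` is irreducible, not constant, so some `∂_c h m ≠ 0`; `h m ∤ ∂_c h m` by the degree in `X c`); all are
relatively prime (irreducible and not dividing).  For each pair and each coordinate the elimination polynomial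
`r` has at most `N` roots.  The points `pt` are all pairs (root of `r_0`, root of `r_1`) for all pairs `(f, g)`:
at most `(M² + 2 M) * N²`; enumerate them as a family indexed by `Fin N₀` with `N₀ := (M² + 2M) * N² + 1` or any bound
depending only on `M, D` (use `List.getD`/`Multiset.toList.getD` as in `TwoG2.lean`, `cc`).
Given `v, x`: `v.ord (aeval x G) ≥ 0` for all `G ≠ 0`.  If `v` is positive on both members of a pair
`(f, g)` then `v (aeval x (r (X c))) > 0`, i.e. `v.ge 1 (Polynomial.aeval (x c) r)`, and `r = lc * ∏ (X - root)`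
(`IsAlgClosed.splits`), so for some root `p_c`, `0 < v.ord (x c - p_c)`, for `c = 0, 1`: first alternative.
Otherwise at most one `m` has `v (h m (x)) > 0` (for `m ≠ m'` not both).  If there is one, then not both
`v (h m) > 0` and `v (∂_c h m) > 0` for the `c` with `∂_c h m ≠ 0`, so `v.ord (aeval x (∂_c h m)) = 0`: second
alternative.  If there is none take `m := m₀`.
-/

open MvPolynomial Filter

namespace MLD

universe u

/-- a polynomial with vanishing first order derivatives is constant -/
private theorem T2Cls_const {k : Type u} [Field k] [CharZero k] (f : MvPolynomial (Fin 2) k)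
    (h : ∀ c, pderiv c f = 0) : f = C (coeff 0 f) := by
  classical
  ext m
  rw [coeff_C]
  split_ifs with hm
  · rw [hm]
  · obtain ⟨c, hc⟩ : ∃ c, m c ≠ 0 := by
      by_contra hcon
      push Not at hcon
      exact hm (Finsupp.ext fun c => (hcon c).symm)
    have h1 := congrArg (coeff (m - Finsupp.single c 1)) (h c)
    rw [coeff_pderiv, coeff_zero] at h1
    have h2 : m - Finsupp.single c 1 + Finsupp.single c 1 = m :=
      tsub_add_cancel_of_le (by
        rw [Finsupp.single_le_iff]
        omega)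
    rw [h2] at h1
    rcases mul_eq_zero.mp h1 with h3 | h3
    · exact h3
    · exfalso
      exact Nat.cast_add_one_ne_zero _ h3

/-- the total degree of a nonzero derivative is smaller -/
private theorem T2Cls_deg {k : Type u} [Field k] (f : MvPolynomial (Fin 2) k) (c : Fin 2)
    (h : pderiv c f ≠ 0) : (pderiv c f).totalDegree < f.totalDegree := by
  classical
  obtain ⟨m, hm, hdeg⟩ : ∃ m ∈ (pderiv c f).support,
      (pderiv c f).totalDegree = m.sum fun _ e => e := by
    have hne : (pderiv c f).support.Nonempty := by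
      rw [Finset.nonempty_iff_ne_empty]
      intro h0
      exact h (support_eq_empty.mp h0)
    exact Finset.exists_mem_eq_sup _ hne _
  have h1 : coeff (m + Finsupp.single c 1) f ≠ 0 := by
    intro h0
    apply mem_support_iff.mp hm
    rw [coeff_pderiv, h0, zero_mul]
  have h2 := le_totalDegree (mem_support_iff.mpr h1)
  rw [hdeg]
  refine lt_of_lt_of_le ?_ h2
  rw [Finsupp.sum_add_index' (fun _ => rfl) (fun _ _ _ => rfl), Finsupp.sum_single_index rfl]
  omega

/-- an irreducible polynomial is prime to its nonzero derivatives -/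
private theorem T2Cls_rel {k : Type u} [Field k] (f : MvPolynomial (Fin 2) k) (c : Fin 2)
    (hf : Irreducible f) (h : pderiv c f ≠ 0) : IsRelPrime f (pderiv c f) := by
  rw [hf.isRelPrime_iff_not_dvd]
  rintro ⟨q, hq⟩
  have h1 := T2Cls_deg f c h
  have hq0 : q ≠ 0 := by
    rintro rfl
    rw [mul_zero] at hq
    exact h hq
  rw [hq, totalDegree_mul_of_isDomain hf.ne_zero hq0] at h1
  omega

/-- roots of elimination polynomials -/
private theorem T2Cls_root {k : Type u} [Field k] [IsAlgClosed k] {K : Type u} [Field K]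
    [Algebra k K] (v : OrdFn k K) (x : Fin 2 → K) (hx : ∀ c, 0 ≤ v.ord (x c))
    (hG : ∀ G : MvPolynomial (Fin 2) k, G ≠ 0 → aeval x G ≠ 0) (f g : MvPolynomial (Fin 2) k)
    (hf : 0 < v.ord (aeval x f)) (hg : 0 < v.ord (aeval x g)) (c : Fin 2) (r : Polynomial k)
    (hr : r ≠ 0) (hs : Polynomial.aeval (X c : MvPolynomial (Fin 2) k) r ∈ Ideal.span {f, g}) :
    ∃ ρ ∈ r.roots, 0 < v.ord (x c - algebraMap k K ρ) := by
  classical
  have hge : ∀ G : MvPolynomial (Fin 2) k, v.ge 0 (aeval x G) :=
    fun G => v.ge_zero_aeval x (fun b => Or.inr (hx b)) G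
  obtain ⟨a, b, hab⟩ := Ideal.mem_span_pair.mp hs
  have h1 : v.ge 1 (aeval x (Polynomial.aeval (X c : MvPolynomial (Fin 2) k) r)) := by
    rw [← hab, map_add, map_mul, map_mul]
    exact v.ge_add (v.ge_mul (M := 0) (N := 1) (hge a) (Or.inr hf))
      (v.ge_mul (M := 0) (N := 1) (hge b) (Or.inr hg))
  have h2 : aeval x (Polynomial.aeval (X c : MvPolynomial (Fin 2) k) r) =
      Polynomial.aeval (x c) r := by
    rw [← Polynomial.aeval_algHom_apply, aeval_X]
  rw [h2] at h1
  have h3 : Polynomial.aeval (x c) r = algebraMap k K r.leadingCoeff *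
      (r.roots.map fun ρ => x c - algebraMap k K ρ).prod := by
    conv_lhs => rw [(IsAlgClosed.splits r).eq_prod_roots]
    rw [map_mul, Polynomial.aeval_C, map_multiset_prod, Multiset.map_map]
    congr 3
    ext ρ
    simp
  have hne : ∀ ρ : k, x c - algebraMap k K ρ ≠ 0 := by
    intro ρ
    have h4 : (X c - C ρ : MvPolynomial (Fin 2) k) ≠ 0 := by
      intro h0
      have h5 := congrArg (coeff (Finsupp.single c 1)) h0
      have h6 : ¬ (0 : Fin 2 →₀ ℕ) = Finsupp.single c 1 := by
        intro h6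
        have := DFunLike.congr_fun h6 c
        simp at this
      have h7 : coeff (Finsupp.single c 1) (X c : MvPolynomial (Fin 2) k) = 1 := by
        rw [coeff_X, if_pos rfl]
      rw [coeff_sub, h7, coeff_C, coeff_zero, if_neg h6, sub_zero] at h5
      exact one_ne_zero h5
    have h5 := hG _ h4
    rwa [map_sub, aeval_X, aeval_C] at h5
  by_contra hcon
  push Not at hcon
  have h6 : ∀ s : Multiset k, (∀ ρ ∈ s, v.ord (x c - algebraMap k K ρ) ≤ 0) →
      (s.map fun ρ => x c - algebraMap k K ρ).prod ≠ 0 ∧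
        v.ord ((s.map fun ρ => x c - algebraMap k K ρ).prod) ≤ 0 := by
    intro s
    induction s using Multiset.induction_on with
    | empty =>
      intro _
      simp [v.ord_one]
    | cons ρ s ih =>
      intro h
      obtain ⟨h7, h8⟩ := ih fun ρ' h' => h ρ' (Multiset.mem_cons_of_mem h')
      rw [Multiset.map_cons, Multiset.prod_cons]
      refine ⟨mul_ne_zero (hne ρ) h7, ?_⟩
      rw [v.ord_mul (hne ρ) h7]
      have := h ρ (Multiset.mem_cons_self ρ s)
      omega
  obtain ⟨h7, h8⟩ := h6 r.roots hcon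
  have hlc : algebraMap k K r.leadingCoeff ≠ 0 := by
    rw [Ne, map_eq_zero]
    exact Polynomial.leadingCoeff_ne_zero.mpr hr
  rw [h3] at h1
  rcases h1 with h1 | h1
  · exact mul_ne_zero hlc h7 h1
  · rw [v.ord_mul hlc h7, v.ord_algebraMap (Polynomial.leadingCoeff_ne_zero.mpr hr)] at h1
    omega

theorem t2_cls (k : Type u) [Field k] [IsAlgClosed k] [CharZero k] (M D : ℕ) (hM : 0 < M) :
    ∃ N₀ : ℕ, ∀ h : Fin M → MvPolynomial (Fin 2) k,
      (∀ m, Irreducible (h m) ∧ (h m).totalDegree ≤ D) → (∀ m m', m ≠ m' → ¬ h m ∣ h m') →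
      ∃ pt : Fin N₀ → Fin 2 → k,
        ∀ (K : Type u) [Field K] [Algebra k K] (v : OrdFn k K) (x : Fin 2 → K),
          (∀ c, 0 ≤ v.ord (x c)) → (∀ G : MvPolynomial (Fin 2) k, G ≠ 0 → aeval x G ≠ 0) →
          (∃ s, ∀ c, 0 < v.ord (x c - algebraMap k K (pt s c))) ∨
          ∃ m, (∀ m', m' ≠ m → v.ord (aeval x (h m')) = 0) ∧ 0 ≤ v.ord (aeval x (h m)) ∧
            (v.ord (aeval x (h m)) = 0 ∨
              ∃ c, pderiv c (h m) ≠ 0 ∧ v.ord (aeval x (pderiv c (h m))) = 0) := by
  classical
  obtain ⟨N, hN⟩ := t2_bez k D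
  refine ⟨Fintype.card (((Fin M × Fin M) ⊕ (Fin M × Fin 2)) × (Fin 2 → Fin N)), ?_⟩
  intro h hirr hnd
  let fp : (Fin M × Fin M) ⊕ (Fin M × Fin 2) → MvPolynomial (Fin 2) k :=
    Sum.elim (fun p => h p.1) (fun p => h p.1)
  let gp : (Fin M × Fin M) ⊕ (Fin M × Fin 2) → MvPolynomial (Fin 2) k :=
    Sum.elim (fun p => h p.2) (fun p => pderiv p.2 (h p.1))
  -- elimination polynomials
  have hr : ∀ (p : (Fin M × Fin M) ⊕ (Fin M × Fin 2)) (c : Fin 2), ∃ r : Polynomial k,
      gp p ≠ 0 → IsRelPrime (fp p) (gp p) → (r ≠ 0 ∧ r.natDegree ≤ N ∧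
        Polynomial.aeval (X c : MvPolynomial (Fin 2) k) r ∈ Ideal.span {fp p, gp p}) := by
    intro p c
    by_cases hp : gp p ≠ 0 ∧ IsRelPrime (fp p) (gp p)
    · have hf0 : fp p ≠ 0 := by
        rcases p with p | p
        · exact (hirr p.1).1.ne_zero
        · exact (hirr p.1).1.ne_zero
      have hfd : (fp p).totalDegree ≤ D := by
        rcases p with p | p
        · exact (hirr p.1).2
        · exact (hirr p.1).2
      have hgd : (gp p).totalDegree ≤ D := by
        rcases p with p | p
        · exact (hirr p.2).2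
        · exact ((T2Cls_deg (h p.1) p.2 hp.1).le).trans (hirr p.1).2
      obtain ⟨r, h1, h2, h3⟩ := hN (fp p) (gp p) hf0 hp.1 hp.2 hfd hgd c
      exact ⟨r, fun _ _ => ⟨h1, h2, h3⟩⟩
    · exact ⟨0, fun h1 h2 => absurd ⟨h1, h2⟩ hp⟩
  choose r hr using hr
  let e := Fintype.equivFin (((Fin M × Fin M) ⊕ (Fin M × Fin 2)) × (Fin 2 → Fin N))
  refine ⟨fun s c => (r (e.symm s).1 c).roots.toList.getD ((e.symm s).2 c) 0, ?_⟩
  intro K _ _ v x hx hG
  have hge : ∀ G : MvPolynomial (Fin 2) k, G ≠ 0 → 0 ≤ v.ord (aeval x G) := by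
    intro G hG0
    rcases v.ge_zero_aeval x (fun b => Or.inr (hx b)) G with h1 | h1
    · exact absurd h1 (hG G hG0)
    · exact h1
  -- a good pair with both members positive
  have key : ∀ p, gp p ≠ 0 → IsRelPrime (fp p) (gp p) → 0 < v.ord (aeval x (fp p)) →
      0 < v.ord (aeval x (gp p)) →
      ∃ s, ∀ c, 0 < v.ord (x c - algebraMap k K
        ((r (e.symm s).1 c).roots.toList.getD ((e.symm s).2 c) 0)) := by
    intro p hp1 hp2 hp3 hp4
    have h1 : ∀ c, ∃ t : Fin N, 0 < v.ord (x c - algebraMap k K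
        ((r p c).roots.toList.getD t 0)) := by
      intro c
      obtain ⟨h2, h3, h4⟩ := hr p c hp1 hp2
      obtain ⟨ρ, hρ, hpos⟩ := T2Cls_root v x hx hG (fp p) (gp p) hp3 hp4 c (r p c) h2 h4
      obtain ⟨t, ht, heq⟩ := List.mem_iff_getElem.mp (Multiset.mem_toList.mpr hρ)
      have hlen : t < N := by
        have h5 := Polynomial.card_roots' (r p c)
        rw [Multiset.length_toList] at ht
        omega
      refine ⟨⟨t, hlen⟩, ?_⟩
      rw [List.getD_eq_getElem _ _ ht, heq]
      exact hpos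
    choose t ht using h1
    refine ⟨e (p, t), fun c => ?_⟩
    rw [Equiv.symm_apply_apply]
    exact ht c
  by_cases hA : ∃ p, gp p ≠ 0 ∧ IsRelPrime (fp p) (gp p) ∧ 0 < v.ord (aeval x (fp p)) ∧
      0 < v.ord (aeval x (gp p))
  · left
    obtain ⟨p, h1, h2, h3, h4⟩ := hA
    exact key p h1 h2 h3 h4
  right
  push Not at hA
  have hnn : ∀ m, 0 ≤ v.ord (aeval x (h m)) := fun m => hge _ (hirr m).1.ne_zero
  by_cases hB : ∃ m, 0 < v.ord (aeval x (h m))
  · obtain ⟨m, hm⟩ := hB
    refine ⟨m, ?_, hnn m, Or.inr ?_⟩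
    · intro m' hm'
      refine le_antisymm ?_ (hnn m')
      exact hA (Sum.inl (m, m')) (hirr m').1.ne_zero
        ((hirr m).1.isRelPrime_iff_not_dvd.mpr (hnd m m' (Ne.symm hm'))) hm
    · obtain ⟨c, hc⟩ : ∃ c, pderiv c (h m) ≠ 0 := by
        by_contra hcon
        push Not at hcon
        have h1 := T2Cls_const (h m) hcon
        have h2 : IsUnit (h m) := by
          rw [h1]
          refine IsUnit.map C (IsUnit.mk0 _ ?_)
          intro h0
          rw [h0, C_0] at h1
          exact (hirr m).1.ne_zero h1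
        exact (hirr m).1.not_isUnit h2
      refine ⟨c, hc, le_antisymm ?_ (hge _ hc)⟩
      exact hA (Sum.inr (m, c)) hc (T2Cls_rel (h m) c (hirr m).1 hc) hm
  · push Not at hB
    refine ⟨⟨0, hM⟩, fun m' _ => le_antisymm (hB m') (hnn m'), hnn _, Or.inl ?_⟩
    exact le_antisymm (hB _) (hnn _)

end MLD
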