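import Pool.Agent.MLD.Blk

/-!
PIECE MLD-C18: factorization of sequences of plane polynomials of bounded degree.

PROOF. For every `i` with all `T l i ≠ 0` and `totalDegree ≤ D` let `H i` be a finite set of representatives of
the irreducible factors of `∏ l, T l i` up to units (`UniqueFactorizationMonoid`; for instance
`(normalizedFactors _).toFinset` after choosing a normalization, or images of `Associates.factors`).  Each factor
has degree between `1` and `D`, pairwise non associated irreducible factors of `T l i` multiply to a divisor,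
so there are at most `D` for each `l`, at most `N := |L| * D` in all.  The cardinality `M i ≤ N` is constant for
almost all `i` (`UU` is an ultrafilter: `Ultrafilter.eventually_exists_mem_iff`/finite union), say `M`; enumerate
`h m i`, `m : Fin M`.  For `l, m` let `κ i l m` be the multiplicity of `h m i` in `T l i`, at most `D`, so constant for
almost all `i`.  (Bad `i`: any values.)
Last property: if a prime element (in the sense of a valuation) ... every irreducible factor of `T l i` is associated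
to one of the `h m i`, so `T l i = C c * ∏ m, h m i ^ κ l m` with a unit `C c`, `c ≠ 0`
(units of the polynomial ring are constants, `MvPolynomial.isUnit_iff_eq_C_of_isReduced` or so).
-/

open MvPolynomial Filter

namespace MLD

universe u

private theorem T2Fac_pos {k : Type u} [Field k] {p : MvPolynomial (Fin 2) k}
    (hp : Irreducible p) : 1 ≤ p.totalDegree := by
  by_contra h
  have h0 : p.totalDegree = 0 := by omega
  have h1 := MvPolynomial.totalDegree_eq_zero_iff_eq_C.mp h0
  have hc : coeff 0 p ≠ 0 := by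
    intro h2
    rw [h2, C_0] at h1
    exact hp.ne_zero h1
  apply hp.not_isUnit
  rw [h1]
  exact (IsUnit.mk0 _ hc).map C

private theorem T2Fac_sum {k : Type u} [Field k] (s : Multiset (MvPolynomial (Fin 2) k))
    (hs : ∀ p ∈ s, Irreducible p) : s.card ≤ s.prod.totalDegree ∧ s.prod ≠ 0 := by
  induction s using Multiset.induction_on with
  | empty => simp
  | cons p s ih =>
    obtain ⟨h1, h2⟩ := ih (fun q hq => hs q (Multiset.mem_cons_of_mem hq))
    have hp := hs p (Multiset.mem_cons_self p s)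
    have h3 := T2Fac_pos hp
    rw [Multiset.card_cons, Multiset.prod_cons, totalDegree_mul_of_isDomain hp.ne_zero h2]
    exact ⟨by omega, mul_ne_zero hp.ne_zero h2⟩

private theorem T2Fac_dvd {k : Type u} [Field k] {p q : MvPolynomial (Fin 2) k}
    (h : p ∣ q) (hq : q ≠ 0) : p.totalDegree ≤ q.totalDegree := by
  obtain ⟨w, rfl⟩ := h
  have hp : p ≠ 0 := fun h => hq (by rw [h, zero_mul])
  have hw : w ≠ 0 := fun h => hq (by rw [h, mul_zero])
  rw [totalDegree_mul_of_isDomain hp hw]
  omega

private theorem T2Fac_prod {k : Type u} [Field k] {L : Type} (s : Finset L)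
    (T : L → MvPolynomial (Fin 2) k) (D : ℕ)
    (hT : ∀ l, T l ≠ 0 ∧ (T l).totalDegree ≤ D) :
    (∏ l ∈ s, T l).totalDegree ≤ s.card * D := by
  classical
  induction s using Finset.induction_on with
  | empty => simp
  | insert a s ha ih =>
    rw [Finset.prod_insert ha, Finset.card_insert_of_notMem ha,
      totalDegree_mul_of_isDomain (hT a).1 (Finset.prod_ne_zero_iff.mpr fun l _ => (hT l).1)]
    have := (hT a).2
    nlinarith

private theorem T2Fac_static {k : Type u} [Field k] {L : Type} [Fintype L]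
    (T : L → MvPolynomial (Fin 2) k) (D : ℕ)
    (hT : ∀ l, T l ≠ 0 ∧ (T l).totalDegree ≤ D) :
    ∃ (M : Fin (Fintype.card L * D + 1)) (κ : L → Fin M → Fin (D + 1))
      (h : Fin M → MvPolynomial (Fin 2) k),
        (∀ m, Irreducible (h m) ∧ (h m).totalDegree ≤ D) ∧
        (∀ m m', m ≠ m' → ¬ h m ∣ h m') ∧
        (∀ l, ∃ c : k, c ≠ 0 ∧ T l = C c * ∏ m, h m ^ (κ l m : ℕ)) ∧
        ∀ m l, ∃ u, T l = h m ^ (κ l m : ℕ) * u ∧ ¬ h m ∣ u := by
  classical
  let _ : StrongNormalizationMonoid (MvPolynomial (Fin 2) k) :=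
    UniqueFactorizationMonoid.normalizationMonoid
  have hP0 : (∏ l, T l) ≠ 0 := Finset.prod_ne_zero_iff.mpr fun l _ => (hT l).1
  have hcard : ∀ f : MvPolynomial (Fin 2) k, f ≠ 0 →
      (UniqueFactorizationMonoid.normalizedFactors f).card ≤ f.totalDegree := by
    intro f hf
    have h1 := T2Fac_sum (UniqueFactorizationMonoid.normalizedFactors f)
      (fun p hp => UniqueFactorizationMonoid.irreducible_of_normalized_factor p hp)
    exact h1.1.trans (T2Fac_dvd
      (UniqueFactorizationMonoid.prod_normalizedFactors hf).dvd hf)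
  set S := (UniqueFactorizationMonoid.normalizedFactors (∏ l, T l)).toFinset with hS
  have hSirr : ∀ h ∈ S, Irreducible h := fun h hh =>
    UniqueFactorizationMonoid.irreducible_of_normalized_factor h (Multiset.mem_toFinset.mp hh)
  have hSnorm : ∀ h ∈ S, normalize h = h := fun h hh =>
    UniqueFactorizationMonoid.normalize_normalized_factor h (Multiset.mem_toFinset.mp hh)
  have hSdvd : ∀ h ∈ S, ∀ h' ∈ S, h ∣ h' → h = h' := by
    intro h hh h' hh' hd
    have h1 : Associated h h' := (hSirr h hh).associated_of_dvd (hSirr h' hh') hd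
    rw [← hSnorm h hh, ← hSnorm h' hh']
    exact normalize_eq_normalize_iff.mpr ⟨h1.dvd, h1.symm.dvd⟩
  have hScard : S.card ≤ Fintype.card L * D := by
    refine (Multiset.toFinset_card_le _).trans ((hcard _ hP0).trans ?_)
    exact T2Fac_prod Finset.univ T D hT
  have hSdeg : ∀ h ∈ S, h.totalDegree ≤ D := by
    intro h hh
    have h1 : h ∣ ∏ l, T l :=
      UniqueFactorizationMonoid.dvd_of_mem_normalizedFactors (Multiset.mem_toFinset.mp hh)
    have hpr : Prime h := (hSirr h hh).prime
    obtain ⟨l, _, hl⟩ := (hpr.dvd_finsetProd_iff _).mp h1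
    exact (T2Fac_dvd hl (hT l).1).trans (hT l).2
  have hsub : ∀ l, (UniqueFactorizationMonoid.normalizedFactors (T l)).toFinset ⊆ S := by
    intro l p hp
    rw [Multiset.mem_toFinset] at hp
    rw [hS, Multiset.mem_toFinset]
    refine Multiset.mem_of_le ?_ hp
    rw [← UniqueFactorizationMonoid.dvd_iff_normalizedFactors_le_normalizedFactors (hT l).1 hP0]
    exact Finset.dvd_prod_of_mem T (Finset.mem_univ l)
  have hκ : ∀ (l : L) (p : MvPolynomial (Fin 2) k),
      (UniqueFactorizationMonoid.normalizedFactors (T l)).count p < D + 1 := by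
    intro l p
    have h1 := Multiset.count_le_card p (UniqueFactorizationMonoid.normalizedFactors (T l))
    have h2 := hcard (T l) (hT l).1
    have h3 := (hT l).2
    omega
  have hfac : ∀ l, ∃ c : k, c ≠ 0 ∧ T l = C c * ∏ p ∈ S,
      p ^ (UniqueFactorizationMonoid.normalizedFactors (T l)).count p := by
    intro l
    obtain ⟨u, hu⟩ := UniqueFactorizationMonoid.prod_normalizedFactors (hT l).1
    have h1 : (UniqueFactorizationMonoid.normalizedFactors (T l)).prod = ∏ p ∈ S,
        p ^ (UniqueFactorizationMonoid.normalizedFactors (T l)).count p :=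
      Finset.prod_multiset_count_of_subset _ _ (hsub l)
    have hun : IsUnit (u : MvPolynomial (Fin 2) k) := u.isUnit
    obtain ⟨c, hc, hcu⟩ := MvPolynomial.isUnit_iff_eq_C_of_isReduced.mp hun
    refine ⟨c, hc.ne_zero, ?_⟩
    rw [← h1, ← hcu, mul_comm]
    exact hu.symm
  let e := S.equivFin
  refine ⟨⟨S.card, by omega⟩,
    fun l m => ⟨(UniqueFactorizationMonoid.normalizedFactors (T l)).count (e.symm m).1,
      hκ l _⟩, fun m => (e.symm m).1, ?_, ?_, ?_, ?_⟩
  · intro m
    exact ⟨hSirr _ (e.symm m).2, hSdeg _ (e.symm m).2⟩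
  · intro m m' hm hd
    apply hm
    have h1 := hSdvd _ (e.symm m).2 _ (e.symm m').2 hd
    exact e.symm.injective (Subtype.ext h1)
  · intro l
    obtain ⟨c, hc, hcl⟩ := hfac l
    refine ⟨c, hc, ?_⟩
    refine hcl.trans ?_
    congr 1
    rw [← Finset.prod_coe_sort]
    exact (Equiv.prod_comp e.symm (fun p : S => (p : MvPolynomial (Fin 2) k) ^
      (UniqueFactorizationMonoid.normalizedFactors (T l)).count (p : MvPolynomial (Fin 2) k))).symm
  · intro m l
    obtain ⟨c, hc, hcl⟩ := hfac l
    refine ⟨C c * ∏ p ∈ S.erase (e.symm m).1,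
      p ^ (UniqueFactorizationMonoid.normalizedFactors (T l)).count p, ?_, ?_⟩
    · refine hcl.trans ?_
      rw [← Finset.mul_prod_erase S _ (e.symm m).2]
      ring
    · intro hd
      have hpr : Prime (e.symm m).1 := (hSirr _ (e.symm m).2).prime
      rcases hpr.dvd_or_dvd hd with h1 | h1
      · exact hpr.not_isUnit (isUnit_of_dvd_unit h1 ((IsUnit.mk0 _ hc).map C))
      · obtain ⟨q, hq, hq1⟩ := (hpr.dvd_finsetProd_iff _).mp h1
        have h2 := hpr.dvd_of_dvd_pow hq1
        have h3 := hSdvd _ (e.symm m).2 _ (Finset.mem_of_mem_erase hq) h2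
        exact Finset.ne_of_mem_erase hq h3.symm

theorem t2_fac {k : Type u} [Field k] {L : Type} [Finite L]
    (T : L → ℕ → MvPolynomial (Fin 2) k) (D : ℕ)
    (hT : ∀ l, ∀ᶠ i in UU, T l i ≠ 0 ∧ (T l i).totalDegree ≤ D) :
    ∃ (M : ℕ) (h : Fin M → ℕ → MvPolynomial (Fin 2) k) (κ : L → Fin M → ℕ),
      ∀ᶠ i in UU, (∀ m, Irreducible (h m i) ∧ (h m i).totalDegree ≤ D) ∧
        (∀ m m', m ≠ m' → ¬ h m i ∣ h m' i) ∧
        (∀ l, ∃ c : k, c ≠ 0 ∧ T l i = C c * ∏ m, h m i ^ κ l m) ∧
        ∀ m l, ∃ u, T l i = h m i ^ κ l m * u ∧ ¬ h m i ∣ u := by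
  classical
  have : Fintype L := Fintype.ofFinite L
  have hall : ∀ᶠ i in UU, ∀ l, T l i ≠ 0 ∧ (T l i).totalDegree ≤ D :=
    Filter.eventually_all.mpr hT
  let Pr : (Σ M : Fin (Fintype.card L * D + 1), L → Fin M → Fin (D + 1)) → ℕ → Prop :=
    fun x i => ∃ h : Fin x.1 → MvPolynomial (Fin 2) k,
        (∀ m, Irreducible (h m) ∧ (h m).totalDegree ≤ D) ∧
        (∀ m m', m ≠ m' → ¬ h m ∣ h m') ∧
        (∀ l, ∃ c : k, c ≠ 0 ∧ T l i = C c * ∏ m, h m ^ (x.2 l m : ℕ)) ∧
        ∀ m l, ∃ u, T l i = h m ^ (x.2 l m : ℕ) * u ∧ ¬ h m ∣ u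
  have h1 : ∀ᶠ i in UU, ∃ x, Pr x i := by
    filter_upwards [hall] with i hi
    obtain ⟨M, κ, h, hh⟩ := T2Fac_static (fun l => T l i) D hi
    exact ⟨⟨M, κ⟩, h, hh⟩
  obtain ⟨x, hx⟩ := Ultrafilter.eventually_exists_iff.mp h1
  refine ⟨x.1, fun m i => if hi : Pr x i then hi.choose m else 0, fun l m => x.2 l m, ?_⟩
  filter_upwards [hx] with i hi
  simp only [dif_pos hi]
  exact hi.choose_spec

end MLD
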