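import Pool.Agent.MLD.TwoG
import Pool.Agent.MLD.Qc

/-!
PIECE MLD-C21: types at a moving point, with monomial Jacobian.

PROOF. `all_types` (`TwoG.lean`) for a state `s : St k L` with `s.T l i = tr (pt i) (T l i)`,
`s.J i = tr (pt i) (X 0 ^ A * X 1 ^ B) = (X 0 + C (pt i 0)) ^ A * (X 1 + C (pt i 1)) ^ B`.
`fY := ∀ᶠ i in UU, pt i 0 = 0`, `fZ := ∀ᶠ i in UU, pt i 1 = 0`.  If `fY`, let `L l` be the largest `n` such that
`X 0 ^ n ∣ tr (pt i) (T l i)` (bounded by `D`, constant for almost all `i`), `α := A`; otherwise `L l := 0`,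
`α := 0` and then `pt i 0 ≠ 0` for almost all `i` (ultrafilter) and `(X 0 + C (pt i 0)) ^ A` goes to `V i`.
The same for `fZ`, `M l`, `β`.  `F l i :=` the quotient of `tr (pt i) (T l i)` by `X 0 ^ L l * X 1 ^ M l`
(`X 0`, `X 1` are coprime primes; define by `Classical.choose`/`if`), of total degree `≤ D`, nonzero.
`e l :=` the order of `F l i` (least degree of a monomial, `≤ D`), constant for almost all `i`; the monomials of
degree `≤ D` are finitely many, so one of degree `e l` has a nonzero coefficient for almost all `i`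
(`exists_order` in `TwoG.lean`: from `LNZ`; a sequence of nonzero polynomials of bounded degree satisfies `LNZ` by
`Ultrafilter` finiteness).  `hY`: if `fY` then `X 0 ∤ F l i`, so some `coeff (mon 0 q) (F l i) ≠ 0`, `q ≤ D`, constant for
almost all `i`.  `hZ` similarly.  (`tr p` is an automorphism preserving `totalDegree ≤ D`.)
-/

open MvPolynomial Filter

namespace MLD

universe u

section aux
variable {k : Type u} [Field k]

private theorem T2Pt_inv (p : Fin 2 → k) (G : MvPolynomial (Fin 2) k) :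
    tr (fun c => - p c) (tr p G) = G := by
  have h : (tr (fun c => - p c)).comp (tr p) = AlgHom.id k (MvPolynomial (Fin 2) k) := by
    apply MvPolynomial.algHom_ext
    intro c
    rw [AlgHom.comp_apply, AlgHom.id_apply]
    simp only [tr, aeval_X, map_add, aeval_C, algebraMap_eq, C_neg]
    ring
  exact congrArg (fun f : MvPolynomial (Fin 2) k →ₐ[k] MvPolynomial (Fin 2) k => f G) h

private theorem T2Pt_ne (p : Fin 2 → k) {G : MvPolynomial (Fin 2) k} (hG : G ≠ 0) :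
    tr p G ≠ 0 := by
  intro h
  apply hG
  rw [← T2Pt_inv p G, h, map_zero]

private theorem T2Pt_deg (p : Fin 2 → k) (G : MvPolynomial (Fin 2) k) :
    (tr p G).totalDegree ≤ G.totalDegree := by
  have hX : ∀ c, (X c + C (p c) : MvPolynomial (Fin 2) k).totalDegree ≤ 1 := by
    intro c
    refine (totalDegree_add _ _).trans ?_
    rw [totalDegree_X, totalDegree_C]
    exact le_rfl
  have e : tr p G = ∑ m ∈ G.support, C (coeff m G) *
      ((X 0 + C (p 0)) ^ (m 0) * (X 1 + C (p 1)) ^ (m 1)) := by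
    rw [tr, aeval_def, eval₂_eq']
    refine Finset.sum_congr rfl fun m _ => ?_
    rw [Fin.prod_univ_two]
    rfl
  rw [e]
  apply totalDegree_finsetSum_le
  intro m hm
  have h1 := le_totalDegree hm
  have h2 : (m.sum fun _ e => e) = m 0 + m 1 := by
    rw [Finsupp.sum_fintype _ _ (fun _ => rfl), Fin.sum_univ_two]
  rw [h2] at h1
  refine (totalDegree_mul _ _).trans ?_
  rw [totalDegree_C, zero_add]
  refine (totalDegree_mul _ _).trans (le_trans ?_ h1)
  refine add_le_add ?_ ?_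
  · refine (totalDegree_pow _ _).trans ?_
    exact (Nat.mul_le_mul_left _ (hX 0)).trans_eq (mul_one _)
  · refine (totalDegree_pow _ _).trans ?_
    exact (Nat.mul_le_mul_left _ (hX 1)).trans_eq (mul_one _)

private theorem T2Pt_bound {F : MvPolynomial (Fin 2) k} {D : ℕ} (hd : F.totalDegree ≤ D)
    {m : Fin 2 →₀ ℕ} (hm : coeff m F ≠ 0) : m 0 + m 1 ≤ D := by
  have h1 := le_totalDegree (mem_support_iff.2 hm)
  have h2 : (m.sum fun _ e => e) = m 0 + m 1 := by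
    rw [Finsupp.sum_fintype _ _ (fun _ => rfl), Fin.sum_univ_two]
  rw [h2] at h1
  exact h1.trans hd

private theorem T2Pt_mon {F : MvPolynomial (Fin 2) k} {D : ℕ} (hd : F.totalDegree ≤ D)
    (hF : F ≠ 0) : ∃ t : Fin (D + 1) × Fin (D + 1), coeff (mon t.1 t.2) F ≠ 0 := by
  obtain ⟨m, hm⟩ := ne_zero_iff.1 hF
  have h := T2Pt_bound hd hm
  refine ⟨(⟨m 0, by omega⟩, ⟨m 1, by omega⟩), ?_⟩
  rw [eq_mon m] at hm
  exact hm

private theorem T2Pt_dvd {F : MvPolynomial (Fin 2) k} (c : Fin 2) (h : ¬ X c ∣ F) :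
    ∃ m : Fin 2 →₀ ℕ, m c = 0 ∧ coeff m F ≠ 0 := by
  by_contra hcon
  push Not at hcon
  apply h
  rw [X_dvd_iff_modMonomial_eq_zero]
  ext m
  rw [coeff_zero]
  by_cases hm : Finsupp.single c 1 ≤ m
  · exact coeff_modMonomial_of_le _ hm
  · rw [coeff_modMonomial_of_not_le _ hm]
    apply hcon
    by_contra h0
    apply hm
    rw [Finsupp.single_le_iff]
    omega

private theorem T2Pt_dvdY {F : MvPolynomial (Fin 2) k} {D : ℕ} (hd : F.totalDegree ≤ D)
    (h : ¬ X 0 ∣ F) : ∃ t : Fin (D + 1), coeff (mon 0 t) F ≠ 0 := by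
  obtain ⟨m, h0, hm⟩ := T2Pt_dvd 0 h
  have h1 := T2Pt_bound hd hm
  refine ⟨⟨m 1, by omega⟩, ?_⟩
  rw [eq_mon m, h0] at hm
  exact hm

private theorem T2Pt_dvdZ {F : MvPolynomial (Fin 2) k} {D : ℕ} (hd : F.totalDegree ≤ D)
    (h : ¬ X 1 ∣ F) : ∃ t : Fin (D + 1), coeff (mon t 0) F ≠ 0 := by
  obtain ⟨m, h0, hm⟩ := T2Pt_dvd 1 h
  have h1 := T2Pt_bound hd hm
  refine ⟨⟨m 0, by omega⟩, ?_⟩
  rw [eq_mon m, h0] at hm
  exact hm

private theorem T2Pt_factor {G : MvPolynomial (Fin 2) k} {D : ℕ} (hG : G ≠ 0)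
    (hd : G.totalDegree ≤ D) (fY fZ : Prop) :
    ∃ t : Fin (D + 1) × Fin (D + 1), (¬ fY → (t.1 : ℕ) = 0) ∧ (¬ fZ → (t.2 : ℕ) = 0) ∧
      ∃ F : MvPolynomial (Fin 2) k, G = X 0 ^ (t.1 : ℕ) * X 1 ^ (t.2 : ℕ) * F ∧ F ≠ 0 ∧
        F.totalDegree ≤ D ∧ (fY → ¬ X 0 ∣ F) ∧ (fZ → ¬ X 1 ∣ F) := by
  have s1 : ∃ (n : ℕ) (G' : MvPolynomial (Fin 2) k), (¬ fY → n = 0) ∧ G = X 0 ^ n * G' ∧
      (fY → ¬ X 0 ∣ G') := by
    by_cases h : fY
    · obtain ⟨n, G', h1, h2⟩ := WfDvdMonoid.max_power_factor hG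
        (X_prime (R := k) (i := (0 : Fin 2))).irreducible
      exact ⟨n, G', fun h' => absurd h h', h2, fun _ => h1⟩
    · exact ⟨0, G, fun _ => rfl, by rw [pow_zero, one_mul], fun h' => absurd h' h⟩
  obtain ⟨n, G', hn, hG', hY⟩ := s1
  have hG'0 : G' ≠ 0 := by
    rintro rfl
    exact hG (by rw [hG', mul_zero])
  have s2 : ∃ (m : ℕ) (F : MvPolynomial (Fin 2) k), (¬ fZ → m = 0) ∧ G' = X 1 ^ m * F ∧
      (fZ → ¬ X 1 ∣ F) := by
    by_cases h : fZ
    · obtain ⟨n, G', h1, h2⟩ := WfDvdMonoid.max_power_factor hG'0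
        (X_prime (R := k) (i := (1 : Fin 2))).irreducible
      exact ⟨n, G', fun h' => absurd h h', h2, fun _ => h1⟩
    · exact ⟨0, G', fun _ => rfl, by rw [pow_zero, one_mul], fun h' => absurd h' h⟩
  obtain ⟨m, F, hm, hF, hZ⟩ := s2
  have hF0 : F ≠ 0 := by
    rintro rfl
    exact hG'0 (by rw [hF, mul_zero])
  have hY' : fY → ¬ X 0 ∣ F := fun h hdv => hY h (by rw [hF]; exact hdv.mul_left _)
  have e : G = X 0 ^ n * X 1 ^ m * F := by rw [hG', hF, mul_assoc]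
  have hdeg : n + m + F.totalDegree ≤ D := by
    have h0 : (X 0 : MvPolynomial (Fin 2) k) ^ n ≠ 0 := pow_ne_zero _ (X_ne_zero _)
    have h1 : (X 1 : MvPolynomial (Fin 2) k) ^ m ≠ 0 := pow_ne_zero _ (X_ne_zero _)
    rw [e, totalDegree_mul_of_isDomain (mul_ne_zero h0 h1) hF0,
      totalDegree_mul_of_isDomain h0 h1, totalDegree_X_pow, totalDegree_X_pow] at hd
    exact hd
  exact ⟨(⟨n, by omega⟩, ⟨m, by omega⟩), hn, hm, F, e, hF0, by omega, hY', hZ⟩

end aux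

theorem hasTypes_pt {k : Type u} [Field k] [IsAlgClosed k] [CharZero k] {L : Type} [Finite L]
    (T : L → ℕ → MvPolynomial (Fin 2) k) (D : ℕ)
    (hT : ∀ l, ∀ᶠ i in UU, T l i ≠ 0 ∧ (T l i).totalDegree ≤ D) (pt : ℕ → Fin 2 → k)
    (A B : ℕ) :
    HasTypes (fun l i => tr (pt i) (T l i)) (fun i => tr (pt i) (X 0 ^ A * X 1 ^ B)) := by
  classical
  set fY : Prop := ∀ᶠ i in UU, pt i 0 = 0 with hfY
  set fZ : Prop := ∀ᶠ i in UU, pt i 1 = 0 with hfZ
  have key : ∀ l, ∃ t : Fin (D + 1) × Fin (D + 1), (¬ fY → (t.1 : ℕ) = 0) ∧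
      (¬ fZ → (t.2 : ℕ) = 0) ∧ ∀ᶠ i in UU, ∃ F : MvPolynomial (Fin 2) k,
        tr (pt i) (T l i) = X 0 ^ (t.1 : ℕ) * X 1 ^ (t.2 : ℕ) * F ∧ F ≠ 0 ∧
        F.totalDegree ≤ D ∧ (fY → ¬ X 0 ∣ F) ∧ (fZ → ¬ X 1 ∣ F) := by
    intro l
    have h1 : ∀ᶠ i in UU, ∃ t : Fin (D + 1) × Fin (D + 1), ((¬ fY → (t.1 : ℕ) = 0) ∧
      (¬ fZ → (t.2 : ℕ) = 0)) ∧ ∃ F : MvPolynomial (Fin 2) k,
        tr (pt i) (T l i) = X 0 ^ (t.1 : ℕ) * X 1 ^ (t.2 : ℕ) * F ∧ F ≠ 0 ∧
        F.totalDegree ≤ D ∧ (fY → ¬ X 0 ∣ F) ∧ (fZ → ¬ X 1 ∣ F) := by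
      filter_upwards [hT l] with i hi
      obtain ⟨t, h1, h2, h3⟩ := T2Pt_factor (T2Pt_ne (pt i) hi.1)
        ((T2Pt_deg (pt i) (T l i)).trans hi.2) fY fZ
      exact ⟨t, ⟨h1, h2⟩, h3⟩
    obtain ⟨t, ht⟩ := ev_exists h1
    obtain ⟨i, hi⟩ := ht.exists
    exact ⟨t, hi.1.1, hi.1.2, ht.mono fun i hi => hi.2⟩
  choose t ht1 ht2 ht3 using key
  let F : L → ℕ → MvPolynomial (Fin 2) k := fun l i =>
    if h : ∃ F : MvPolynomial (Fin 2) k,
        tr (pt i) (T l i) = X 0 ^ ((t l).1 : ℕ) * X 1 ^ ((t l).2 : ℕ) * F ∧ F ≠ 0 ∧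
        F.totalDegree ≤ D ∧ (fY → ¬ X 0 ∣ F) ∧ (fZ → ¬ X 1 ∣ F) then h.choose else 0
  have hF : ∀ l, ∀ᶠ i in UU,
        tr (pt i) (T l i) = X 0 ^ ((t l).1 : ℕ) * X 1 ^ ((t l).2 : ℕ) * F l i ∧ F l i ≠ 0 ∧
        (F l i).totalDegree ≤ D ∧ (fY → ¬ X 0 ∣ F l i) ∧ (fZ → ¬ X 1 ∣ F l i) := by
    intro l
    filter_upwards [ht3 l] with i hi
    have e : F l i = hi.choose := dif_pos hi
    rw [e]
    exact hi.choose_spec
  have ho : ∀ l, ∃ e, (∀ᶠ i in UU, ∀ m : Fin 2 →₀ ℕ, m.degree < e → coeff m (F l i) = 0) ∧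
      ∃ m : Fin 2 →₀ ℕ, m.degree = e ∧ ∀ᶠ i in UU, coeff m (F l i) ≠ 0 := by
    intro l
    obtain ⟨q, hq⟩ := ev_exists ((hF l).mono fun i hi => T2Pt_mon hi.2.2.1 hi.2.1)
    obtain ⟨e, -, h1, h2⟩ := exists_order (F l) _ (mon q.1 q.2) rfl hq
    exact ⟨e, h1, h2⟩
  choose e he0 he1 using ho
  let V : ℕ → MvPolynomial (Fin 2) k := fun i =>
    (if fY then 1 else (X 0 + C (pt i 0)) ^ A) * (if fZ then 1 else (X 1 + C (pt i 1)) ^ B)
  have hJ : ∀ᶠ i in UU, tr (pt i) (X 0 ^ A * X 1 ^ B : MvPolynomial (Fin 2) k) =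
      X 0 ^ (if fY then A else 0) * X 1 ^ (if fZ then B else 0) * V i := by
    have e0 : ∀ i, tr (pt i) (X 0 ^ A * X 1 ^ B : MvPolynomial (Fin 2) k) =
        (X 0 + C (pt i 0)) ^ A * (X 1 + C (pt i 1)) ^ B := by
      intro i
      simp only [tr, map_mul, map_pow, aeval_X]
    by_cases h1 : fY
    · by_cases h2 : fZ
      · filter_upwards [h1, h2] with i hi1 hi2
        rw [e0]
        simp only [V, if_pos h1, if_pos h2, hi1, hi2, C_0, add_zero, mul_one]
      · filter_upwards [h1] with i hi1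
        rw [e0]
        simp only [V, if_pos h1, if_neg h2, hi1, C_0, add_zero, mul_one, one_mul, pow_zero]
    · by_cases h2 : fZ
      · filter_upwards [h2] with i hi2
        rw [e0]
        simp only [V, if_neg h1, if_pos h2, hi2, C_0, add_zero, mul_one, one_mul, pow_zero]
        ring
      · refine Eventually.of_forall fun i => ?_
        rw [e0]
        simp only [V, if_neg h1, if_neg h2, one_mul, pow_zero]
  have hV : ∀ᶠ i in UU, coeff 0 (V i) ≠ 0 := by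
    have hc : ∀ G : MvPolynomial (Fin 2) k, coeff 0 G = constantCoeff G := fun _ => rfl
    have a1 : ∀ᶠ i in UU, constantCoeff (if fY then 1 else (X 0 + C (pt i 0)) ^ A :
        MvPolynomial (Fin 2) k) ≠ 0 := by
      by_cases h1 : fY
      · refine Eventually.of_forall fun i => ?_
        rw [if_pos h1, map_one]
        exact one_ne_zero
      · filter_upwards [ev_not h1] with i hi
        rw [if_neg h1, map_pow, map_add, constantCoeff_X, constantCoeff_C, zero_add]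
        exact pow_ne_zero _ hi
    have a2 : ∀ᶠ i in UU, constantCoeff (if fZ then 1 else (X 1 + C (pt i 1)) ^ B :
        MvPolynomial (Fin 2) k) ≠ 0 := by
      by_cases h1 : fZ
      · refine Eventually.of_forall fun i => ?_
        rw [if_pos h1, map_one]
        exact one_ne_zero
      · filter_upwards [ev_not h1] with i hi
        rw [if_neg h1, map_pow, map_add, constantCoeff_X, constantCoeff_C, zero_add]
        exact pow_ne_zero _ hi
    filter_upwards [a1, a2] with i h1 h2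
    rw [hc, map_mul]
    exact mul_ne_zero h1 h2
  have := Fintype.ofFinite L
  exact all_types {
    T := fun l i => tr (pt i) (T l i)
    J := fun i => tr (pt i) (X 0 ^ A * X 1 ^ B)
    F := F
    V := V
    L := fun l => (t l).1
    M := fun l => (t l).2
    α := if fY then A else 0
    β := if fZ then B else 0
    e := e
    fY := fY
    fZ := fZ
    hT := fun l => (hF l).mono fun i hi => hi.1
    hJ := hJ
    hV := hV
    he0 := he0
    he1 := he1
    hfY := fun h => ⟨if_neg h, fun l => ht1 l h⟩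
    hfZ := fun h => ⟨if_neg h, fun l => ht2 l h⟩
    hY := fun h l => by
      obtain ⟨q, hq⟩ := ev_exists ((hF l).mono fun i hi => T2Pt_dvdY hi.2.2.1 (hi.2.2.2.1 h))
      exact ⟨q, hq⟩
    hZ := fun h l => by
      obtain ⟨q, hq⟩ := ev_exists ((hF l).mono fun i hi => T2Pt_dvdZ hi.2.2.1 (hi.2.2.2.2 h))
      exact ⟨q, hq⟩ }

end MLD
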