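import Pool.Agent.MLD.T2Fac
import Pool.Agent.MLD.T2Cls
import Pool.Agent.MLD.T2Pt

/-!
PIECE MLD-C22: global types for sequences of plane polynomials of bounded degree.

PROOF. `t2_fac` gives `M, h, κ`.  `M > 0` because `T (jx 0) i = X 0` is not a unit (otherwise
`T (jx 0) i = C c`).  `t2_cls k M D` gives `N₀` and, for almost all `i`, points `pt s i` (choose; arbitrary for
the other `i`).  `hasTypes_pt` for every `s`.  In the second alternative of `t2_cls`,
`T l i = C c * ∏ m', h m' i ^ κ l m'` gives `v.ord (aeval x (T l i)) = κ l m * v.ord (aeval x (h m i))`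
(`v.ord_mul`, `ord_prod`, `ord_pow`, `ord_algebraMap`; nothing vanishes).
-/

open MvPolynomial Filter

namespace MLD

universe u

theorem two_global {k : Type u} [Field k] [IsAlgClosed k] [CharZero k] {L : Type} [Finite L]
    (T : L → ℕ → MvPolynomial (Fin 2) k) (D : ℕ)
    (hT : ∀ l, ∀ᶠ i in UU, T l i ≠ 0 ∧ (T l i).totalDegree ≤ D)
    (jx : Fin 2 → L) (hjx : ∀ c i, T (jx c) i = X c) (A B : ℕ) :
    ∃ (N₀ : ℕ) (pt : Fin N₀ → ℕ → Fin 2 → k) (M : ℕ) (h : Fin M → ℕ → MvPolynomial (Fin 2) k)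
      (κ : L → Fin M → ℕ),
      (∀ s, HasTypes (fun l i => tr (pt s i) (T l i))
        (fun i => tr (pt s i) (X 0 ^ A * X 1 ^ B))) ∧
      (∀ᶠ i in UU, (∀ m, Irreducible (h m i)) ∧
        ∀ m l, ∃ u, T l i = h m i ^ κ l m * u ∧ ¬ h m i ∣ u) ∧
      ∀ᶠ i in UU, ∀ (K : Type u) [Field K] [Algebra k K] (v : OrdFn k K) (x : Fin 2 → K),
        (∀ c, 0 ≤ v.ord (x c)) → (∀ G : MvPolynomial (Fin 2) k, G ≠ 0 → aeval x G ≠ 0) →
        (∃ s, ∀ c, 0 < v.ord (x c - algebraMap k K (pt s i c))) ∨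
        ∃ m, (∀ l, v.ord (aeval x (T l i)) = κ l m * v.ord (aeval x (h m i))) ∧
          0 ≤ v.ord (aeval x (h m i)) ∧ (v.ord (aeval x (h m i)) = 0 ∨
            ∃ c, pderiv c (h m i) ≠ 0 ∧ v.ord (aeval x (pderiv c (h m i))) = 0) := by
  classical
  obtain ⟨M, h, κ, hev⟩ := t2_fac T D hT
  have hM : 0 < M := by
    rcases Nat.eq_zero_or_pos M with h0 | h0
    · exfalso
      subst h0
      obtain ⟨i, hi⟩ := hev.exists
      obtain ⟨c, -, hc⟩ := hi.2.2.1 (jx 0)
      rw [hjx] at hc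
      have h1 := congrArg MvPolynomial.totalDegree hc
      rw [totalDegree_X] at h1
      simp at h1
    · exact h0
  obtain ⟨N₀, hN⟩ := t2_cls k M D hM
  have key : ∀ i, ∃ pt : Fin N₀ → Fin 2 → k,
      (∀ m, Irreducible (h m i) ∧ (h m i).totalDegree ≤ D) →
      (∀ m m', m ≠ m' → ¬ h m i ∣ h m' i) →
        ∀ (K : Type u) [Field K] [Algebra k K] (v : OrdFn k K) (x : Fin 2 → K),
          (∀ c, 0 ≤ v.ord (x c)) → (∀ G : MvPolynomial (Fin 2) k, G ≠ 0 → aeval x G ≠ 0) →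
          (∃ s, ∀ c, 0 < v.ord (x c - algebraMap k K (pt s c))) ∨
          ∃ m, (∀ m', m' ≠ m → v.ord (aeval x (h m' i)) = 0) ∧ 0 ≤ v.ord (aeval x (h m i)) ∧
            (v.ord (aeval x (h m i)) = 0 ∨
              ∃ c, pderiv c (h m i) ≠ 0 ∧ v.ord (aeval x (pderiv c (h m i))) = 0) := by
    intro i
    by_cases h1 : (∀ m, Irreducible (h m i) ∧ (h m i).totalDegree ≤ D) ∧
      (∀ m m', m ≠ m' → ¬ h m i ∣ h m' i)
    · obtain ⟨pt, hpt⟩ := hN (fun m => h m i) h1.1 h1.2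
      exact ⟨pt, fun _ _ => hpt⟩
    · exact ⟨fun _ _ => 0, fun h2 h3 => absurd ⟨h2, h3⟩ h1⟩
  choose pt hpt using key
  refine ⟨N₀, fun s i => pt i s, M, h, κ, fun s => hasTypes_pt T D hT (fun i => pt i s) A B, ?_, ?_⟩
  · filter_upwards [hev] with i hi
    exact ⟨fun m => (hi.1 m).1, fun m l => hi.2.2.2 m l⟩
  · filter_upwards [hev] with i hi
    intro K _ _ v x hx0 hG
    rcases hpt i hi.1 hi.2.1 K v x hx0 hG with h1 | ⟨m, hm1, hm2, hm3⟩
    · exact Or.inl h1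
    · refine Or.inr ⟨m, fun l => ?_, hm2, hm3⟩
      obtain ⟨c, hc, hTl⟩ := hi.2.2.1 l
      have hne : ∀ m', aeval x (h m' i) ≠ 0 := fun m' => hG _ (hi.1 m').1.ne_zero
      have e1 : aeval x (T l i) = algebraMap k K c * ∏ m', aeval x (h m' i) ^ κ l m' := by
        rw [hTl, map_mul, map_prod, aeval_C]
        congr 1
        exact Finset.prod_congr rfl fun m' _ => map_pow _ _ _
      have hc' : algebraMap k K c ≠ 0 := by
        rw [Ne, map_eq_zero]
        exact hc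
      rw [e1, v.ord_mul hc' (Finset.prod_ne_zero_iff.mpr fun m' _ => pow_ne_zero _ (hne m')),
        v.ord_algebraMap hc, zero_add, v.ord_prod _ _ (fun m' _ => pow_ne_zero _ (hne m')),
        Finset.sum_eq_single m]
      · rw [v.ord_pow (hne m)]
      · intro m' _ hm'
        rw [v.ord_pow (hne m'), hm1 m' hm', mul_zero]
      · intro hh
        exact absurd (Finset.mem_univ m) hh

end MLD
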