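import Pool.Agent.MLD.TcPoly2
import Pool.Agent.MLD.LogForm

/-!
PIECE MLD-C11: the lower bound of the log discrepancy in a toric chart.

PROOF. Apply `logDisc_ge E G Q` with, for `s : σ`, `G s := q_c` if `ch.en s = inl c`, `G s := g i` if
`ch.en s = inr i`.  For a derivation `D`: `D (q_c) = q_c * ∑ b, qe c b * D (x_b) / x_b`,
`D (z_i) = z_i * ∑ b, ze i b * D (x_b) / x_b` (`Derivation.leibniz_zpow`? or prove by hand for products of
integer powers), `D (g i) = ∑ j, P i j * D (z_j)`.  So the matrix is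
`Q = (reindex) fromBlocks (diag q) 0 0 (P * diag z) * V * diag (1/x_b)`, `V` the matrix `(qe; ze)`, reindexed
by `en`; `det V = ±1` as `V * U = 1` for the integer matrix `U = (e | ρ)` (h2–h5), so
`det Q = ± (∏ q_c) * det P * z_0 * z_1 / ∏ x_b`, nonzero.  Hence
`∑ ord (G s) - ord (det Q) = ∑_i ord (g i) - ord (det P) - ∑_i ord z_i + ∑_b ord x_b` and
`ord x_b = ∑_c e b c * ord q_c + ∑_i ρ b i * ord z_i` (`xb_eq`).
-/

open MvPolynomial Filter

namespace MLD

universe u

variable {σ C : Type} [Fintype σ] [Fintype C] [DecidableEq σ] [DecidableEq C] (ch : TChart σ C)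

private theorem TcDom_toFF_ne {k : Type u} [Field k] {G : MvPolynomial σ k} (hG : G ≠ 0) :
    toFF k σ G ≠ 0 := by
  intro h0
  apply hG
  have h2 : (algebraMap (MvPolynomial σ k) (FF k σ)) G = 0 := h0
  exact (map_eq_zero_iff _ (IsFractionRing.injective _ _)).mp h2

private theorem TcDom_xx_ne {k : Type u} [Field k] (b : σ) : (xx k b : FF k σ) ≠ 0 :=
  TcDom_toFF_ne (X_ne_zero b)

private theorem TcDom_zpow {k : Type u} [Field k] {K : Type*} [Field K] [Algebra k K]
    (v : OrdFn k K) {f : K} (hf : f ≠ 0) (n : ℤ) : v.ord (f ^ n) = n * v.ord f := by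
  obtain ⟨a, rfl | rfl⟩ := n.eq_nat_or_neg
  · rw [zpow_natCast, v.ord_pow hf]
  · rw [zpow_neg, zpow_natCast, v.ord_inv _ (pow_ne_zero _ hf), v.ord_pow hf]
    ring

/-- logarithmic derivative of a monomial with integer exponents -/
private theorem TcDom_dlog {k : Type u} [Field k] {K : Type*} [Field K] [Algebra k K]
    (D : Derivation k K K) (x : σ → K) (hx : ∀ b, x b ≠ 0) (n : σ → ℤ) :
    D (∏ b, x b ^ n b) = (∏ b, x b ^ n b) * ∑ b, (n b : K) * (D (x b) / x b) := by
  have key : ∀ s : Finset σ, D (∏ b ∈ s, x b ^ n b) =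
      (∏ b ∈ s, x b ^ n b) * ∑ b ∈ s, (n b : K) * (D (x b) / x b) := by
    intro s
    induction s using Finset.induction_on with
    | empty => simp
    | insert b s hb ih =>
      rw [Finset.prod_insert hb, Finset.sum_insert hb, Derivation.leibniz, ih,
        Derivation.leibniz_zpow, smul_eq_mul, smul_eq_mul, smul_eq_mul, zsmul_eq_mul,
        zpow_sub_one₀ (hx b)]
      have := hx b
      field_simp
      ring
  exact key Finset.univ

theorem tc_dom {k : Type u} [Field k] [CharZero k] (E : DivisorOver k σ)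
    (g : Fin 2 → FF k σ) (P : Matrix (Fin 2) (Fin 2) (FF k σ)) (hg : ∀ i, g i ≠ 0)
    (hP : P.det ≠ 0)
    (hD : ∀ D : Derivation k (FF k σ) (FF k σ), ∀ i,
      D (g i) = ∑ j, P i j * D (zz ch (fun b => xx k b) j)) :
    (((∑ c, (∑ b, ch.e b c) * E.ord (qq ch (fun b => xx k b) c) +
      (∑ i, E.ord (g i) - E.ord P.det +
        ∑ i, (jj ch i : ℤ) * E.ord (zz ch (fun b => xx k b) i)) : ℤ) : ℝ) : EReal) ≤
      E.logDisc := by
  set x : σ → FF k σ := fun b => xx k b with hxdef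
  have hx : ∀ b, x b ≠ 0 := fun b => TcDom_xx_ne b
  have hq : ∀ c, qq ch x c ≠ 0 := fun c =>
    Finset.prod_ne_zero_iff.mpr fun b _ => zpow_ne_zero _ (hx b)
  have hz : ∀ i, zz ch x i ≠ 0 := fun i =>
    Finset.prod_ne_zero_iff.mpr fun b _ => zpow_ne_zero _ (hx b)
  -- the integer matrices
  set V : Matrix (C ⊕ Fin 2) σ ℤ := Matrix.of fun t b => Sum.elim ch.qe ch.ze t b with hV
  set U : Matrix σ (C ⊕ Fin 2) ℤ :=
    Matrix.of fun b t => Sum.elim (ch.e b) (fun i => (ch.ρ b i : ℤ)) t with hU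
  have hVU : V * U = 1 := by
    ext t t'
    rw [Matrix.mul_apply]
    rcases t with c | i <;> rcases t' with c' | i'
    · simp only [hV, hU, Matrix.of_apply, Sum.elim_inl]
      rw [ch.h2, Matrix.one_apply]
      simp
    · simp only [hV, hU, Matrix.of_apply, Sum.elim_inl, Sum.elim_inr]
      rw [ch.h3, Matrix.one_apply]
      simp
    · simp only [hV, hU, Matrix.of_apply, Sum.elim_inl, Sum.elim_inr]
      rw [ch.h4, Matrix.one_apply]
      simp
    · simp only [hV, hU, Matrix.of_apply, Sum.elim_inr]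
      rw [ch.h5, Matrix.one_apply]
      simp
  set W : Matrix σ σ ℤ := V.submatrix ch.en id with hW
  have hWU : W * (U.submatrix id ch.en) = 1 := by
    rw [hW, ← Matrix.submatrix_mul _ _ _ _ _ Function.bijective_id, hVU,
      Matrix.submatrix_one_equiv]
  have hWdet : W.det = 1 ∨ W.det = -1 := by
    have h1 : W.det * (U.submatrix id ch.en).det = 1 := by
      rw [← Matrix.det_mul, hWU, Matrix.det_one]
    exact Int.isUnit_iff.mp (IsUnit.of_mul_eq_one _ h1)
  have hWord : E.ord ((W.det : ℤ) : FF k σ) = 0 ∧ ((W.det : ℤ) : FF k σ) ≠ 0 := by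
    rcases hWdet with h | h
    · rw [h, Int.cast_one]
      exact ⟨E.toOrdFn.ord_one, one_ne_zero⟩
    · rw [h, Int.cast_neg, Int.cast_one]
      exact ⟨E.toOrdFn.ord_neg_one, neg_ne_zero.mpr one_ne_zero⟩
  set A : Matrix (C ⊕ Fin 2) (C ⊕ Fin 2) (FF k σ) :=
    Matrix.fromBlocks (Matrix.diagonal (qq ch x)) 0 0 (P * Matrix.diagonal (zz ch x)) with hA
  have hAdet : A.det = (∏ c, qq ch x c) * (P.det * ∏ i, zz ch x i) := by
    rw [hA, Matrix.det_fromBlocks_zero₂₁, Matrix.det_diagonal, Matrix.det_mul,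
      Matrix.det_diagonal]
  set Wk : Matrix σ σ (FF k σ) := W.map (Int.castRingHom (FF k σ)) with hWk
  have hWkdet : Wk.det = ((W.det : ℤ) : FF k σ) := by
    rw [hWk, ← RingHom.mapMatrix_apply, ← RingHom.map_det]
    rfl
  set Q : Matrix σ σ (FF k σ) :=
    A.submatrix ch.en ch.en * Wk * Matrix.diagonal (fun b => (x b)⁻¹) with hQ
  have hQdet : Q.det = A.det * Wk.det * ∏ b, (x b)⁻¹ := by
    rw [hQ, Matrix.det_mul, Matrix.det_mul, Matrix.det_diagonal,
      Matrix.det_submatrix_equiv_self]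
  have hpq : ∏ c, qq ch x c ≠ 0 := Finset.prod_ne_zero_iff.mpr fun c _ => hq c
  have hpz : ∏ i, zz ch x i ≠ 0 := Finset.prod_ne_zero_iff.mpr fun c _ => hz c
  have hpx : ∏ b, (x b)⁻¹ ≠ 0 := Finset.prod_ne_zero_iff.mpr fun b _ => inv_ne_zero (hx b)
  have hA0 : A.det ≠ 0 := by
    rw [hAdet]
    exact mul_ne_zero hpq (mul_ne_zero hP hpz)
  have hWk0 : Wk.det ≠ 0 := by
    rw [hWkdet]
    exact hWord.2
  have hQ0 : Q.det ≠ 0 := by
    rw [hQdet]
    exact mul_ne_zero (mul_ne_zero hA0 hWk0) hpx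
  set G : C ⊕ Fin 2 → FF k σ := Sum.elim (qq ch x) g with hG
  have hG0 : ∀ s, G (ch.en s) ≠ 0 := by
    intro s
    rcases h : ch.en s with c | i
    · exact hq c
    · exact hg i
  have hder : ∀ D : Derivation k (FF k σ) (FF k σ), ∀ s,
      D (G (ch.en s)) = ∑ b, Q s b * D (xx k b) := by
    intro D s
    have hdq : ∀ c, D (qq ch x c) =
        qq ch x c * ∑ b, (ch.qe c b : FF k σ) * (D (x b) / x b) := fun c =>
      TcDom_dlog D x hx _
    have hdz : ∀ i, D (zz ch x i) =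
        zz ch x i * ∑ b, (ch.ze i b : FF k σ) * (D (x b) / x b) := fun c =>
      TcDom_dlog D x hx _
    have hQe : ∀ b, Q s b = (∑ t, A (ch.en s) t * (V t b : FF k σ)) * (x b)⁻¹ := by
      intro b
      rw [hQ, Matrix.mul_diagonal, Matrix.mul_apply]
      congr 1
      rw [← Equiv.sum_comp ch.en]
      rfl
    have hQs : ∑ b, Q s b * D (xx k b) =
        ∑ t, A (ch.en s) t * ∑ b, (V t b : FF k σ) * (D (x b) / x b) := by
      simp_rw [Finset.mul_sum]
      rw [Finset.sum_comm]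
      refine Finset.sum_congr rfl fun b _ => ?_
      rw [hQe b, Finset.sum_mul, Finset.sum_mul]
      refine Finset.sum_congr rfl fun t _ => ?_
      rw [div_eq_mul_inv]
      ring
    rw [hQs, Fintype.sum_sum_type]
    rcases h : ch.en s with c | i
    · have e1 : ∑ i, A (Sum.inl c) (Sum.inr i) *
          ∑ b, (V (Sum.inr i) b : FF k σ) * (D (x b) / x b) = 0 := by
        refine Finset.sum_eq_zero fun i _ => ?_
        rw [hA, Matrix.fromBlocks_apply₁₂, Matrix.zero_apply, zero_mul]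
      rw [e1, add_zero, Finset.sum_eq_single c]
      · rw [hA, Matrix.fromBlocks_apply₁₁, Matrix.diagonal_apply_eq]
        exact hdq c
      · intro c' _ hc'
        rw [hA, Matrix.fromBlocks_apply₁₁, Matrix.diagonal_apply_ne _ (Ne.symm hc'), zero_mul]
      · intro hc
        exact absurd (Finset.mem_univ c) hc
    · have e1 : ∑ c, A (Sum.inr i) (Sum.inl c) *
          ∑ b, (V (Sum.inl c) b : FF k σ) * (D (x b) / x b) = 0 := by
        refine Finset.sum_eq_zero fun c _ => ?_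
        rw [hA, Matrix.fromBlocks_apply₂₁, Matrix.zero_apply, zero_mul]
      rw [e1, zero_add]
      change D (g i) = _
      rw [hD D i]
      refine Finset.sum_congr rfl fun j _ => ?_
      rw [hdz j, hA, Matrix.fromBlocks_apply₂₂, Matrix.mul_diagonal, mul_assoc]
      rfl
  refine le_trans (le_of_eq ?_) (logDisc_ge E (fun s => G (ch.en s)) Q hG0 hQ0 hder)
  congr 2
  -- the orders
  have hxord : ∀ b, E.ord (x b) = ∑ c, ch.e b c * E.ord (qq ch x c) +
      ∑ i, (ch.ρ b i : ℤ) * E.ord (zz ch x i) := by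
    intro b
    have h1 := xb_eq ch x hx b
    have h2 : E.ord (x b) =
        E.ord ((∏ c, qq ch x c ^ ch.e b c) * ∏ i, zz ch x i ^ ch.ρ b i) := by rw [← h1]
    rw [h2, E.toOrdFn.ord_mul (Finset.prod_ne_zero_iff.mpr fun c _ => zpow_ne_zero _ (hq c))
      (Finset.prod_ne_zero_iff.mpr fun c _ => pow_ne_zero _ (hz c)),
      E.toOrdFn.ord_prod _ _ (fun c _ => zpow_ne_zero _ (hq c)),
      E.toOrdFn.ord_prod _ _ (fun c _ => pow_ne_zero _ (hz c))]
    congr 1
    · exact Finset.sum_congr rfl fun c _ => TcDom_zpow E.toOrdFn (hq c) _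
    · exact Finset.sum_congr rfl fun c _ => E.toOrdFn.ord_pow (hz c) _
  have hdetord : E.ord Q.det = ∑ c, E.ord (qq ch x c) + (E.ord P.det +
      ∑ i, E.ord (zz ch x i)) - ∑ b, E.ord (x b) := by
    rw [hQdet, E.toOrdFn.ord_mul (mul_ne_zero hA0 hWk0) hpx, E.toOrdFn.ord_mul hA0 hWk0, hWkdet,
      hWord.1, hAdet, E.toOrdFn.ord_mul hpq (mul_ne_zero hP hpz), E.toOrdFn.ord_mul hP hpz,
      E.toOrdFn.ord_prod _ _ (fun c _ => hq c), E.toOrdFn.ord_prod _ _ (fun c _ => hz c),
      E.toOrdFn.ord_prod _ _ (fun b _ => inv_ne_zero (hx b))]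
    have e : ∑ b, E.ord (x b)⁻¹ = - ∑ b, E.ord (x b) := by
      rw [← Finset.sum_neg_distrib]
      exact Finset.sum_congr rfl fun b _ => E.toOrdFn.ord_inv _ (hx b)
    rw [e]
    ring
  have hsumG : ∑ s, E.ord (G (ch.en s)) = ∑ c, E.ord (qq ch x c) + ∑ i, E.ord (g i) := by
    rw [Equiv.sum_comp ch.en (fun t => E.ord (G t)), Fintype.sum_sum_type]
    rfl
  have hsumx : ∑ b, E.ord (x b) = ∑ c, (∑ b, ch.e b c) * E.ord (qq ch x c) +
      ∑ i, ((∑ b, (ch.ρ b i : ℤ))) * E.ord (zz ch x i) := by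
    simp_rw [hxord, Finset.sum_add_distrib, Finset.sum_mul]
    rw [Finset.sum_comm]
    congr 1
    rw [Finset.sum_comm]
  have hjj : ∑ i, (jj ch i : ℤ) * E.ord (zz ch x i) =
      ∑ i, ((∑ b, (ch.ρ b i : ℤ))) * E.ord (zz ch x i) - ∑ i, E.ord (zz ch x i) := by
    rw [← Finset.sum_sub_distrib]
    refine Finset.sum_congr rfl fun i _ => ?_
    have h1 := rho_pos ch i
    have h2 : (jj ch i : ℤ) = (∑ b, (ch.ρ b i : ℤ)) - 1 := by
      unfold jj
      rw [Nat.cast_sub h1]
      push_cast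
      rfl
    rw [h2]
    ring
  rw [hsumG, hdetord, hsumx, hjj]
  ring

end MLD
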