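import Pool.Agent.MLD.Qc

/-!
PIECE MLD-C10: polynomials in a toric chart.

`PP ch F` is `F` with `x_b` replaced by `z_0 ^ ρ b 0 * z_1 ^ ρ b 1` (that is, `q = 1`).
PROOF. `xb_eq`: exponents (`h1`), `Finset.prod_comm`, `zpow_add₀`, `Finset.prod_zpow`.
`aeval_PP`: expand `F` in monomials (`MvPolynomial.aeval_def`, `eval₂_eq`/`Finsupp.prod`); each monomial
`m` gives `∏_b x_b ^ m_b = ∏_c q_c ^ (∑ m_b e b c) * ∏_i z_i ^ (∑ m_b ρ b i)`, and the `q`-part is
constant by `hF`.
`PP_ne`: the map `m ↦ (∑ m_b ρ b i)_i` is injective on the support of `F`: if `v = m - m'` has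
`∑ v_b e b c = 0` and `∑ v_b ρ b i = 0` then `v b' = ∑_b v_b (if b = b' then 1 else 0) = 0` by `h1`.  So the
coefficient of `PP ch F` at the image of `m` is the coefficient of `F` at `m`.
`PP_X`, `rho_pos`: `h5`.
-/

open MvPolynomial Filter

namespace MLD

universe u

variable {σ C : Type} [Fintype σ] [Fintype C] [DecidableEq σ] [DecidableEq C] (ch : TChart σ C)

theorem rho_pos (i : Fin 2) : 1 ≤ ∑ b, ch.ρ b i := by
  by_contra h
  have h0 : ∑ b, ch.ρ b i = 0 := by omega
  rw [Finset.sum_eq_zero_iff] at h0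
  have h5 := ch.h5 i i
  rw [Finset.sum_eq_zero (fun b hb => by rw [h0 b hb]; simp)] at h5
  simp at h5

theorem PP_X {k : Type u} [Field k] (b : σ) :
    PP ch (X b : MvPolynomial σ k) = X 0 ^ ch.ρ b 0 * X 1 ^ ch.ρ b 1 := by
  unfold PP
  rw [aeval_X]

theorem QD_X {k : Type u} [Field k] (b : σ) : QD ch (ch.e b) (X b : MvPolynomial σ k) := by
  intro m hm c
  rw [support_X, Finset.mem_singleton] at hm
  subst hm
  rw [Finset.sum_eq_single b]
  · simp
  · intro b' _ hb'
    rw [Finsupp.single_eq_of_ne hb']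
    simp
  · intro h
    exact absurd (Finset.mem_univ b) h

theorem TcPoly_zpow_sum {K : Type u} [Field K] {ι : Type} [Fintype ι] (a : K) (ha : a ≠ 0)
    (f : ι → ℤ) : a ^ (∑ i, f i) = ∏ i, a ^ f i := by
  classical
  have : ∀ s : Finset ι, a ^ (∑ i ∈ s, f i) = ∏ i ∈ s, a ^ f i := by
    intro s
    induction s using Finset.induction_on with
    | empty => simp
    | insert i s hi ih => rw [Finset.sum_insert hi, Finset.prod_insert hi, zpow_add₀ ha, ih]
  exact this Finset.univ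

theorem xb_eq {K : Type u} [Field K] (x : σ → K) (hx : ∀ b, x b ≠ 0) (b : σ) :
    x b = (∏ c, qq ch x c ^ ch.e b c) * ∏ i, zz ch x i ^ ch.ρ b i := by
  have hq : (∏ c, qq ch x c ^ ch.e b c) = ∏ b', x b' ^ (∑ c, ch.e b c * ch.qe c b') := by
    unfold qq
    simp_rw [← Finset.prod_zpow, ← zpow_mul]
    rw [Finset.prod_comm]
    refine Finset.prod_congr rfl fun b' _ => ?_
    rw [TcPoly_zpow_sum _ (hx b')]
    refine Finset.prod_congr rfl fun c _ => ?_
    rw [mul_comm]
  have hz : (∏ i, zz ch x i ^ ch.ρ b i) = ∏ b', x b' ^ (∑ i, (ch.ρ b i : ℤ) * ch.ze i b') := by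
    unfold zz
    simp_rw [← zpow_natCast, ← Finset.prod_zpow, ← zpow_mul]
    rw [Finset.prod_comm]
    refine Finset.prod_congr rfl fun b' _ => ?_
    rw [TcPoly_zpow_sum _ (hx b')]
    refine Finset.prod_congr rfl fun c _ => ?_
    rw [mul_comm]
  rw [hq, hz, ← Finset.prod_mul_distrib]
  simp_rw [← zpow_add₀ (hx _), ch.h1]
  rw [Finset.prod_eq_single b]
  · simp
  · intro b' _ hb'
    rw [if_neg (Ne.symm hb'), zpow_zero]
  · intro h
    exact absurd (Finset.mem_univ b) h

/-- the same identity for given `q`, `z` in a field -/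
theorem aeval_PP' {k K : Type u} [Field k] [Field K] [Algebra k K] (q : C → K) (z : Fin 2 → K)
    (hq : ∀ c, q c ≠ 0) (hz : ∀ i, z i ≠ 0) (χ : C → ℤ) (F : MvPolynomial σ k)
    (hF : QD ch χ F) :
    aeval (fun b => (∏ c, q c ^ ch.e b c) * ∏ i, z i ^ ch.ρ b i) F =
      (∏ c, q c ^ χ c) * aeval z (PP ch F) := by
  have hP : aeval z (PP ch F) = aeval (fun b => ∏ i, z i ^ ch.ρ b i) F := by
    unfold PP
    rw [← AlgHom.comp_apply, comp_aeval]
    congr 2
    funext b
    rw [map_mul, map_pow, map_pow, aeval_X, aeval_X, Fin.prod_univ_two]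
  rw [hP, aeval_def, aeval_def, eval₂_eq', eval₂_eq', Finset.mul_sum]
  refine Finset.sum_congr rfl fun m hm => ?_
  have hq' : (∏ b, (∏ c, q c ^ ch.e b c) ^ m b) = ∏ c, q c ^ χ c := by
    simp_rw [← zpow_natCast, ← Finset.prod_zpow, ← zpow_mul]
    rw [Finset.prod_comm]
    refine Finset.prod_congr rfl fun c _ => ?_
    rw [← hF m hm c, TcPoly_zpow_sum _ (hq c)]
    refine Finset.prod_congr rfl fun b _ => ?_
    rw [mul_comm]
  simp_rw [mul_pow]
  rw [Finset.prod_mul_distrib, hq']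
  ring

theorem aeval_PP {k K : Type u} [Field k] [Field K] [Algebra k K] (x : σ → K)
    (hx : ∀ b, x b ≠ 0) (χ : C → ℤ) (F : MvPolynomial σ k) (hF : QD ch χ F) :
    aeval x F = (∏ c, qq ch x c ^ χ c) * aeval (zz ch x) (PP ch F) := by
  have h := aeval_PP' ch (qq ch x) (zz ch x) (fun c => ?_) (fun i => ?_) χ F hF
  · rw [← h]
    congr 2
    funext b
    exact xb_eq ch x hx b
  · exact Finset.prod_ne_zero_iff.mpr fun b _ => zpow_ne_zero _ (hx b)
  · exact Finset.prod_ne_zero_iff.mpr fun b _ => zpow_ne_zero _ (hx b)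


theorem PP_ne {k : Type u} [Field k] (χ : C → ℤ) (F : MvPolynomial σ k) (hF : QD ch χ F)
    (h0 : F ≠ 0) : PP ch F ≠ 0 := by
  intro hP
  have hx : ∀ b : σ, toFF k σ (X b) ≠ 0 := by
    intro b hb
    have h1 : toFF k σ (X b) = algebraMap (MvPolynomial σ k) (FF k σ) (X b) := rfl
    rw [h1] at hb
    exact X_ne_zero b ((IsFractionRing.injective (MvPolynomial σ k) (FF k σ))
      (hb.trans (map_zero _).symm))
  have h := aeval_PP ch (fun b : σ => toFF k σ (X b)) hx χ F hF
  rw [hP, map_zero, mul_zero] at h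
  have h2 : aeval (fun b : σ => toFF k σ (X b)) F = toFF k σ F := by
    have : (aeval (fun b : σ => toFF k σ (X b)) : MvPolynomial σ k →ₐ[k] FF k σ) = toFF k σ := by
      apply MvPolynomial.algHom_ext
      intro b
      rw [aeval_X]
    rw [this]
  rw [h2] at h
  have h1 : toFF k σ F = algebraMap (MvPolynomial σ k) (FF k σ) F := rfl
  rw [h1] at h
  exact h0 ((IsFractionRing.injective (MvPolynomial σ k) (FF k σ)) (h.trans (map_zero _).symm))

end MLD
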