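import Pool.Agent.MLD.TcPoly

/-!
PIECE MLD-C10b: polynomials in a toric chart, continued.

PROOF. `zz_ind`: for `G ≠ 0`, `aeval (zz ch x) G = ∑_n coeff n G * ∏_b x_b ^ (∑_i n_i ze i b)`; multiply by
`∏_b x_b ^ N` with `N` large: this is `aeval x` of a polynomial with the distinct exponents
`N + ∑_i n_i ze i b` (distinct by `h5`: `∑_b ze i b ρ b i' = δ`), so nonzero.
`PP_bdd`: `F i ∈ MH W`, `W 0 > 0`, some monomial `m₀` is in the support of `F i` for almost all `i`; all
monomials `m` of `F i` have `∑ W 0 b * m b = ∑ W 0 b * m₀ b =: d`, so `m.degree ≤ d`; the total degree of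
`PP ch (F i)` is at most `d * ∑_b (ρ b 0 + ρ b 1)`.
`QD_ev`: `χ c := ∑ b, m₀ b * e b c`, with `hch`.
-/

open MvPolynomial Filter

namespace MLD

universe u

variable {σ C : Type} [Fintype σ] [Fintype C] [DecidableEq σ] [DecidableEq C] (ch : TChart σ C)

theorem zz_ind {k K : Type u} [Field k] [Field K] [Algebra k K] (x : σ → K)
    (hx : ∀ G : MvPolynomial σ k, G ≠ 0 → aeval x G ≠ 0) :
    ∀ G : MvPolynomial (Fin 2) k, G ≠ 0 → aeval (zz ch x) G ≠ 0 := by
  classical
  intro G hG h0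
  have hxb : ∀ b, x b ≠ 0 := fun b hb => hx (X b) (X_ne_zero b) (by simpa using hb)
  let f : (Fin 2 →₀ ℕ) → σ → ℤ := fun n b => ∑ i, (n i : ℤ) * ch.ze i b
  let N : ℕ := ∑ n ∈ G.support, ∑ b, (f n b).natAbs
  have hN : ∀ n ∈ G.support, ∀ b, 0 ≤ (N : ℤ) + f n b := by
    intro n hn b
    have h1 : (f n b).natAbs ≤ ∑ b, (f n b).natAbs :=
      Finset.single_le_sum (f := fun b => (f n b).natAbs) (fun _ _ => Nat.zero_le _)
        (Finset.mem_univ b)
    have h2 : ∑ b, (f n b).natAbs ≤ N :=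
      Finset.single_le_sum (f := fun n => ∑ b, (f n b).natAbs) (fun _ _ => Nat.zero_le _) hn
    omega
  let E : (Fin 2 →₀ ℕ) → (σ →₀ ℕ) := fun n =>
    Finsupp.equivFunOnFinite.symm fun b => ((N : ℤ) + f n b).toNat
  have hE : ∀ n ∈ G.support, ∀ b, ((E n b : ℕ) : ℤ) = (N : ℤ) + f n b := by
    intro n hn b
    have : E n b = ((N : ℤ) + f n b).toNat := rfl
    rw [this, Int.toNat_of_nonneg (hN n hn b)]
  have hinj : ∀ n ∈ G.support, ∀ n' ∈ G.support, E n = E n' → n = n' := by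
    intro n hn n' hn' hnn
    have hf : ∀ b, f n b = f n' b := by
      intro b
      have h1 := hE n hn b
      have h2 := hE n' hn' b
      rw [hnn] at h1
      linarith
    have key : ∀ (n : Fin 2 →₀ ℕ) (i' : Fin 2), ∑ b, f n b * (ch.ρ b i' : ℤ) = (n i' : ℤ) := by
      intro n i'
      have : ∑ b, f n b * (ch.ρ b i' : ℤ) =
          ∑ i, (n i : ℤ) * ∑ b, ch.ze i b * (ch.ρ b i' : ℤ) := by
        simp only [f, Finset.sum_mul, Finset.mul_sum]
        rw [Finset.sum_comm]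
        refine Finset.sum_congr rfl fun i _ => Finset.sum_congr rfl fun b _ => by ring
      rw [this]
      simp [ch.h5]
    ext i'
    have h1 := key n i'
    have h2 := key n' i'
    have : ∑ b, f n b * (ch.ρ b i' : ℤ) = ∑ b, f n' b * (ch.ρ b i' : ℤ) :=
      Finset.sum_congr rfl fun b _ => by rw [hf b]
    have h3 : (n i' : ℤ) = (n' i' : ℤ) := by rw [← h1, ← h2, this]
    exact_mod_cast h3
  let G' : MvPolynomial σ k := ∑ n ∈ G.support, monomial (E n) (coeff n G)
  have hG' : G' ≠ 0 := by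
    obtain ⟨n0, hn0⟩ := MvPolynomial.support_nonempty.mpr hG
    intro h
    have h1 : coeff (E n0) G' = coeff n0 G := by
      simp only [G', coeff_sum, coeff_monomial]
      rw [Finset.sum_eq_single n0]
      · simp
      · intro n hn hne
        rw [if_neg]
        exact fun h => hne (hinj n hn n0 hn0 h)
      · intro h
        exact absurd hn0 h
    rw [h] at h1
    exact (mem_support_iff.mp hn0) (by simpa using h1.symm)
  refine hx G' hG' ?_
  have hz : ∀ n : Fin 2 →₀ ℕ, ∏ i, zz ch x i ^ (n i) = ∏ b, x b ^ (f n b) := by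
    intro n
    simp only [zz, f]
    have : ∀ b, x b ^ (∑ i, (n i : ℤ) * ch.ze i b) = ∏ i, (x b ^ (ch.ze i b)) ^ (n i) := by
      intro b
      rw [Fin.sum_univ_two, Fin.prod_univ_two, zpow_add₀ (hxb b), mul_comm ((n 0 : ℕ) : ℤ),
        mul_comm ((n 1 : ℕ) : ℤ), zpow_mul, zpow_mul, zpow_natCast, zpow_natCast]
    simp_rw [this]
    rw [Finset.prod_comm]
    refine Finset.prod_congr rfl fun i _ => ?_
    rw [Finset.prod_pow]
  have hmain : aeval x G' = (∏ b, x b ^ N) * aeval (zz ch x) G := by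
    conv_rhs => rw [aeval_def, eval₂_eq']
    simp only [G', map_sum, aeval_monomial, Finset.mul_sum]
    refine Finset.sum_congr rfl fun n hn => ?_
    rw [hz n, Finsupp.prod_fintype _ _ (fun b => pow_zero _)]
    rw [mul_left_comm, ← Finset.prod_mul_distrib]
    congr 1
    refine Finset.prod_congr rfl fun b _ => ?_
    rw [← zpow_natCast (x b) (E n b), hE n hn b, zpow_add₀ (hxb b), zpow_natCast]
  rw [hmain, h0, mul_zero]

theorem PP_bdd {k : Type u} [Field k] {m : ℕ} (W : Fin (m + 1) → σ → ℤ) (hpos : ∀ i, 0 < W 0 i)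
    (F : ℕ → MvPolynomial σ k) (hF : ∀ i, F i ∈ MH W) (hL : LNZ F) :
    ∃ D : ℕ, ∀ᶠ i in UU, (PP ch (F i)).totalDegree ≤ D := by
  classical
  obtain ⟨m₀, hm₀⟩ := hL
  let d : ℤ := ∑ b, W 0 b * (m₀ b : ℤ)
  refine ⟨d.toNat * ∑ b, (ch.ρ b 0 + ch.ρ b 1), ?_⟩
  filter_upwards [hm₀] with i hi
  obtain ⟨dd, hdd⟩ := hF i
  have hm : ∀ m ∈ (F i).support, ∀ b, m b ≤ d.toNat := by
    intro m hm b
    have h1 : ∑ b, W 0 b * (m b : ℤ) = d := by
      rw [hdd m hm 0]
      exact (hdd m₀ (mem_support_iff.mpr hi) 0).symm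
    have h2 : W 0 b * (m b : ℤ) ≤ ∑ b, W 0 b * (m b : ℤ) :=
      Finset.single_le_sum (f := fun b => W 0 b * (m b : ℤ))
        (fun b _ => mul_nonneg (hpos b).le (by positivity)) (Finset.mem_univ b)
    have h3 : (m b : ℤ) ≤ W 0 b * (m b : ℤ) := by
      have := hpos b
      nlinarith [Int.natCast_nonneg (m b)]
    omega
  unfold PP
  rw [aeval_def, eval₂_eq']
  refine (totalDegree_finsetSum _ _).trans (Finset.sup_le fun m hms => ?_)
  refine (totalDegree_mul _ _).trans ?_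
  have h1 : totalDegree ((algebraMap k (MvPolynomial (Fin 2) k)) (coeff m (F i))) = 0 := by
    rw [algebraMap_eq]
    exact totalDegree_C _
  rw [h1, zero_add]
  refine (totalDegree_finsetProd _ _).trans ?_
  rw [Finset.mul_sum]
  refine Finset.sum_le_sum fun b _ => ?_
  refine (totalDegree_pow _ _).trans ?_
  refine Nat.mul_le_mul (hm m hms b) ?_
  refine (totalDegree_mul _ _).trans ?_
  refine add_le_add ?_ ?_ <;>
  · refine (totalDegree_pow _ _).trans ?_
    simp

theorem QD_ev {k : Type u} [Field k] {m : ℕ} (W : Fin (m + 1) → σ → ℤ)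
    (hch : ∀ v : σ → ℤ, (∀ c, ∑ i, W c i * v i = 0) → ∀ c, ∑ b, v b * ch.e b c = 0)
    (F : ℕ → MvPolynomial σ k) (hF : ∀ i, F i ∈ MH W) (hL : LNZ F) :
    ∃ χ : C → ℤ, ∀ᶠ i in UU, QD ch χ (F i) := by
  classical
  obtain ⟨m₀, hm₀⟩ := hL
  refine ⟨fun c => ∑ b, (m₀ b : ℤ) * ch.e b c, ?_⟩
  filter_upwards [hm₀] with i hi
  obtain ⟨dd, hdd⟩ := hF i
  intro m hm c
  have h := hch (fun b => (m b : ℤ) - (m₀ b : ℤ)) (by
    intro c
    have h1 := hdd m hm c
    have h2 := hdd m₀ (mem_support_iff.mpr hi) c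
    simp only [mul_sub, Finset.sum_sub_distrib]
    rw [h1, h2, sub_self]) c
  simp only [sub_mul, Finset.sum_sub_distrib] at h
  linarith

end MLD
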