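import Pool.Agent.MLD.TcPoly2
import Pool.Agent.MLD.GaussDer
import Pool.Agent.MLD.ArcGen
import Pool.Agent.MLD.ArcJac

/-!
PIECE MLD-C14: realization of divisors in a toric chart.

PROOF. `W := FractionRing (MvPolynomial Γ K₂)`, `v` from `exists_gauss v₂ α`, `q c := algebraMap (X c)`,
`y i := algebraMap (C (z i))`, `x b := (∏ c, q c ^ ch.e b c) * ∏ i, y i ^ ch.ρ b i`; `z i ≠ 0` by `hz (X i)`.
Derivations, indexed by `s : σ` via `ch.en s`: `inl c ↦` the Euler derivation of `q_c` (`gauss_euler`),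
`inr i ↦` `δ i` on the coefficients (`gauss_coef`).  `D_s (x b) = x b * N s b` with `N (inl c) b = e b c`,
`N (inr i) b = ∑ j, ρ b j * δ i (z j) / z j`.  So the matrix `(D_s (x b))` is the product (reindexed by `en`)
`fromBlocks 1 0 0 (δ i (z j) / z j) * (e | ρ)ᵀ * diag (x b)`, with determinant
`± det (δ i (z j)) / (z 0 * z 1) * ∏ x b`, nonzero, of order
`v₂ (det) - ∑ v₂ (z i) + ∑_b (∑_c e b c α c + ∑_i ρ b i v₂ (z i))` `= ∑_c (∑_b e b c) α c + v₂ (det) + ∑_i jj i * v₂ (z i)`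
(`rho_pos`).  By the Jacobian criterion (`arc_jac_det`) the `x b` are algebraically independent, so
`ι : FF k σ →ₐ[k] W` with `ι (xx k b) = x b` exists.  Apply `gen_divisor v ι`.  For `F ≠ 0` with `QD ch χ F`:
`v.ord (ι F) = ∑ χ c α c + v₂ (aeval z (PP ch F))` by `aeval_PP'` and `IsGauss` for constants
(`v.ord (algebraMap (C f)) = v₂.ord f`).
-/

open MvPolynomial Filter

namespace MLD

universe u

section lg
variable {k W : Type u} [Field k] [Field W] [Algebra k W] (D : Derivation k W W)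

private theorem TcReal_mul {x y a b : W} (hx : D x = x * a) (hy : D y = y * b) :
    D (x * y) = x * y * (a + b) := by
  rw [Derivation.leibniz, hx, hy, smul_eq_mul, smul_eq_mul]
  ring

private theorem TcReal_pow {x a : W} (hx : D x = x * a) (n : ℕ) :
    D (x ^ n) = x ^ n * (n * a) := by
  induction n with
  | zero => simp
  | succ n ih =>
    rw [pow_succ, TcReal_mul D ih hx]
    push_cast
    ring

private theorem TcReal_inv {x a : W} (hx : D x = x * a) (h0 : x ≠ 0) :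
    D x⁻¹ = x⁻¹ * (-a) := by
  have h1 : D (x * x⁻¹) = 0 := by rw [mul_inv_cancel₀ h0, Derivation.map_one_eq_zero]
  rw [Derivation.leibniz, hx, smul_eq_mul, smul_eq_mul] at h1
  have h2 : x * D x⁻¹ = -a := by
    have h3 : x⁻¹ * (x * a) = a := by rw [← mul_assoc, inv_mul_cancel₀ h0, one_mul]
    rw [h3] at h1
    exact eq_neg_of_add_eq_zero_left h1
  rw [← h2, ← mul_assoc, inv_mul_cancel₀ h0, one_mul]

private theorem TcReal_zpow {x a : W} (hx : D x = x * a) (h0 : x ≠ 0) (n : ℤ) :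
    D (x ^ n) = x ^ n * (n * a) := by
  obtain ⟨m, rfl | rfl⟩ := n.eq_nat_or_neg
  · rw [zpow_natCast, TcReal_pow D hx]
    push_cast
    rfl
  · rw [zpow_neg, zpow_natCast, TcReal_inv D (TcReal_pow D hx m) (pow_ne_zero _ h0)]
    push_cast
    ring

private theorem TcReal_prod {ι : Type*} (s : Finset ι) (x a : ι → W)
    (hx : ∀ i, D (x i) = x i * a i) : D (∏ i ∈ s, x i) = (∏ i ∈ s, x i) * ∑ i ∈ s, a i := by
  classical
  induction s using Finset.induction_on with
  | empty => simp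
  | insert i s hi ih =>
    rw [Finset.prod_insert hi, Finset.sum_insert hi]
    exact TcReal_mul D (hx i) ih

end lg

private theorem TcReal_ordz {k : Type u} [Field k] {K : Type*} [Field K] [Algebra k K]
    (v : OrdFn k K) {f : K} (hf : f ≠ 0) (n : ℤ) : v.ord (f ^ n) = n * v.ord f := by
  obtain ⟨a, rfl | rfl⟩ := n.eq_nat_or_neg
  · rw [zpow_natCast, v.ord_pow hf]
  · rw [zpow_neg, zpow_natCast, v.ord_inv _ (pow_ne_zero _ hf), v.ord_pow hf]
    ring

/-- the determinant of the exponent matrix is `± 1` -/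
private theorem TcReal_unit {σ Γ : Type} [Fintype σ] [Fintype Γ] [DecidableEq σ] [DecidableEq Γ]
    (ch : TChart σ Γ) :
    (Matrix.of fun b s : σ => Sum.elim (fun c => ch.e b c) (fun i => (ch.ρ b i : ℤ)) (ch.en s)).det
        = 1 ∨
    (Matrix.of fun b s : σ => Sum.elim (fun c => ch.e b c) (fun i => (ch.ρ b i : ℤ)) (ch.en s)).det
        = -1 := by
  set Q : Matrix σ σ ℤ :=
    Matrix.of fun b s : σ => Sum.elim (fun c => ch.e b c) (fun i => (ch.ρ b i : ℤ)) (ch.en s) with hQ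
  set S : Matrix σ σ ℤ :=
    Matrix.of fun s b : σ => Sum.elim (fun c => ch.qe c b) (fun i => ch.ze i b) (ch.en s) with hS
  have h1 : Q * S = 1 := by
    ext b b'
    rw [Matrix.mul_apply, Matrix.one_apply, ← ch.h1 b b']
    have h2 : ∀ s, Q b s * S s b' =
        (fun t : Γ ⊕ Fin 2 => Sum.elim (fun c => ch.e b c) (fun i => (ch.ρ b i : ℤ)) t *
          Sum.elim (fun c => ch.qe c b') (fun i => ch.ze i b') t) (ch.en s) := fun s => rfl
    simp_rw [h2]
    rw [ch.en.sum_comp (fun t : Γ ⊕ Fin 2 =>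
      Sum.elim (fun c => ch.e b c) (fun i => (ch.ρ b i : ℤ)) t *
          Sum.elim (fun c => ch.qe c b') (fun i => ch.ze i b') t), Fintype.sum_sum_type]
    rfl
  have h3 : Q.det * S.det = 1 := by rw [← Matrix.det_mul, h1, Matrix.det_one]
  exact Int.isUnit_iff.1 (IsUnit.of_mul_eq_one _ h3)

theorem tc_real {k : Type u} [Field k] [CharZero k] {σ Γ : Type} [Fintype σ] [Fintype Γ]
    [DecidableEq σ] [DecidableEq Γ] [Nonempty σ] (ch : TChart σ Γ) {K₂ : Type u} [Field K₂]
    [Algebra k K₂] (v₂ : OrdFn k K₂) (z : Fin 2 → K₂)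
    (hz : ∀ G : MvPolynomial (Fin 2) k, G ≠ 0 → aeval z G ≠ 0)
    (δ : Fin 2 → Derivation k K₂ K₂) (hδ : ∀ i f, f ≠ 0 → v₂.ge (v₂.ord f) (δ i f))
    (hdet : (Matrix.of fun i j => δ i (z j)).det ≠ 0) (α : Γ → ℤ)
    (hpos : ∀ b, 0 < ∑ c, ch.e b c * α c + ∑ i, (ch.ρ b i : ℤ) * v₂.ord (z i)) :
    ∃ (E : DivisorOver k σ) (g A₁ : ℕ), 0 < g ∧ E.CenterZero ∧
      E.logDisc ≤ (((A₁ : ℕ) : ℝ) : EReal) ∧
      ((g * A₁ : ℕ) : ℤ) ≤ ∑ c, (∑ b, ch.e b c) * α c +
        (v₂.ord (Matrix.of fun i j => δ i (z j)).det + ∑ i, (jj ch i : ℤ) * v₂.ord (z i)) ∧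
      ∀ (F : MvPolynomial σ k) (χ : Γ → ℤ), F ≠ 0 → QD ch χ F →
        (g : ℤ) * E.ord (toFF k σ F) = ∑ c, χ c * α c + v₂.ord (aeval z (PP ch F)) := by
  classical
  obtain ⟨v, hv⟩ := exists_gauss v₂ α
  have hinj : Function.Injective
      (algebraMap (MvPolynomial Γ K₂) (FractionRing (MvPolynomial Γ K₂))) :=
    IsFractionRing.injective _ _
  -- constants
  set iC : K₂ →+* FractionRing (MvPolynomial Γ K₂) :=
    (algebraMap (MvPolynomial Γ K₂) (FractionRing (MvPolynomial Γ K₂))).comp C with hiC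
  have hiCa : ∀ f, iC f = algebraMap (MvPolynomial Γ K₂) (FractionRing (MvPolynomial Γ K₂)) (C f) :=
    fun f => rfl
  have hiC0 : ∀ f, f ≠ 0 → iC f ≠ 0 := fun f hf => (map_ne_zero iC).2 hf
  have hiCo : ∀ f, f ≠ 0 → v.ord (iC f) = v₂.ord f := by
    intro f hf
    obtain ⟨m, hm, hm'⟩ := (hv (C f) (by rwa [Ne, C_eq_zero])).2
    have hm0 : m = 0 := by
      by_contra h
      rw [mem_support_iff, coeff_C, if_neg (Ne.symm h)] at hm
      exact hm rfl
    subst hm0
    rw [hiCa, hm', coeff_C, if_pos rfl]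
    simp
  -- the variables
  set q : Γ → FractionRing (MvPolynomial Γ K₂) := fun c =>
    algebraMap (MvPolynomial Γ K₂) (FractionRing (MvPolynomial Γ K₂)) (X c) with hq
  have hq0 : ∀ c, q c ≠ 0 := fun c h => X_ne_zero (R := K₂) c (hinj (h.trans (map_zero _).symm))
  have hqo : ∀ c, v.ord (q c) = α c := by
    intro c
    obtain ⟨m, hm, hm'⟩ := (hv (X c) (X_ne_zero c)).2
    rw [support_X, Finset.mem_singleton] at hm
    subst hm
    have h1 : v.ord (q c) = ∑ c_1, α c_1 * ((Finsupp.single c 1) c_1 : ℕ) +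
        v₂.ord (coeff (Finsupp.single c 1) (X c)) := hm'
    rw [h1, coeff_X, if_pos rfl, v₂.ord_one, add_zero, Finset.sum_eq_single c]
    · rw [Finsupp.single_eq_same]
      simp
    · intro c' _ hc'
      rw [Finsupp.single_eq_of_ne hc']
      simp
    · intro h
      exact absurd (Finset.mem_univ c) h
  have hz0 : ∀ i, z i ≠ 0 := by
    intro i
    have h := hz (X i) (X_ne_zero i)
    rwa [aeval_X] at h
  set y : Fin 2 → FractionRing (MvPolynomial Γ K₂) := fun i => iC (z i) with hy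
  have hy0 : ∀ i, y i ≠ 0 := fun i => hiC0 _ (hz0 i)
  have hyo : ∀ i, v.ord (y i) = v₂.ord (z i) := fun i => hiCo _ (hz0 i)
  set x : σ → FractionRing (MvPolynomial Γ K₂) := fun b =>
    (∏ c, q c ^ ch.e b c) * ∏ i, y i ^ ch.ρ b i with hx
  have hqp0 : ∀ χ : Γ → ℤ, (∏ c, q c ^ χ c) ≠ 0 := fun χ =>
    Finset.prod_ne_zero_iff.2 fun c _ => zpow_ne_zero _ (hq0 c)
  have hyp0 : ∀ b, (∏ i, y i ^ ch.ρ b i) ≠ 0 := fun b =>
    Finset.prod_ne_zero_iff.2 fun i _ => pow_ne_zero _ (hy0 i)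
  have hx0 : ∀ b, x b ≠ 0 := fun b => mul_ne_zero (hqp0 _) (hyp0 b)
  have hqpo : ∀ χ : Γ → ℤ, v.ord (∏ c, q c ^ χ c) = ∑ c, χ c * α c := by
    intro χ
    rw [v.ord_prod _ _ fun c _ => zpow_ne_zero _ (hq0 c)]
    refine Finset.sum_congr rfl fun c _ => ?_
    rw [TcReal_ordz v (hq0 c), hqo]
  have hxo : ∀ b, v.ord (x b) =
      ∑ c, ch.e b c * α c + ∑ i, (ch.ρ b i : ℤ) * v₂.ord (z i) := by
    intro b
    have h1 : v.ord (x b) = v.ord (∏ c, q c ^ ch.e b c) + v.ord (∏ i, y i ^ ch.ρ b i) :=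
      v.ord_mul (hqp0 _) (hyp0 b)
    rw [h1, hqpo, v.ord_prod _ _ fun i _ => pow_ne_zero _ (hy0 i)]
    congr 1
    refine Finset.sum_congr rfl fun i _ => ?_
    rw [v.ord_pow (hy0 i), hyo]
  -- the derivations
  choose De hDe1 hDe2 hDe3 using fun c₀ => gauss_euler v₂ α v hv c₀
  choose Dc hDc1 hDc2 hDc3 using fun i => gauss_coef v₂ α v hv (δ i) (hδ i)
  have hDex : ∀ c₀ b, De c₀ (x b) = x b * (ch.e b c₀ : FractionRing (MvPolynomial Γ K₂)) := by
    intro c₀ b
    have h1 : ∀ c, De c₀ (q c ^ ch.e b c) = q c ^ ch.e b c *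
        ((ch.e b c : FractionRing (MvPolynomial Γ K₂)) * if c = c₀ then 1 else 0) := by
      intro c
      refine TcReal_zpow _ ?_ (hq0 c) _
      refine (hDe2 c₀ c).trans ?_
      split_ifs
      · rw [mul_one]
      · rw [mul_zero]
    have h2 : ∀ i, De c₀ (y i ^ ch.ρ b i) = y i ^ ch.ρ b i *
        ((ch.ρ b i : FractionRing (MvPolynomial Γ K₂)) * 0) := by
      intro i
      refine TcReal_pow _ ?_ _
      rw [mul_zero]
      exact hDe1 c₀ (z i)
    have h3 := TcReal_mul (De c₀) (TcReal_prod (De c₀) Finset.univ _ _ h1)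
      (TcReal_prod (De c₀) Finset.univ _ _ h2)
    refine h3.trans ?_
    congr 1
    simp
  have hDcx : ∀ i b, Dc i (x b) = x b *
      ∑ j, (ch.ρ b j : FractionRing (MvPolynomial Γ K₂)) * (iC (δ i (z j)) * (y j)⁻¹) := by
    intro i b
    have h1 : ∀ c, Dc i (q c ^ ch.e b c) = q c ^ ch.e b c *
        ((ch.e b c : FractionRing (MvPolynomial Γ K₂)) * 0) := by
      intro c
      refine TcReal_zpow _ ?_ (hq0 c) _
      rw [mul_zero]
      exact hDc2 i c
    have h2 : ∀ j, Dc i (y j ^ ch.ρ b j) = y j ^ ch.ρ b j *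
        ((ch.ρ b j : FractionRing (MvPolynomial Γ K₂)) * (iC (δ i (z j)) * (y j)⁻¹)) := by
      intro j
      refine TcReal_pow _ ?_ _
      refine (hDc1 i (z j)).trans ?_
      rw [mul_comm, mul_assoc, inv_mul_cancel₀ (hy0 j), mul_one]
      rfl
    have h3 := TcReal_mul (Dc i) (TcReal_prod (Dc i) Finset.univ _ _ h1)
      (TcReal_prod (Dc i) Finset.univ _ _ h2)
    refine h3.trans ?_
    congr 1
    simp
  let D : σ → Derivation k (FractionRing (MvPolynomial Γ K₂)) (FractionRing (MvPolynomial Γ K₂)) :=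
    fun s => Sum.elim De Dc (ch.en s)
  have hD3 : ∀ s f, f ≠ 0 → v.ge (v.ord f) (D s f) := by
    intro s f hf
    show v.ge (v.ord f) (Sum.elim De Dc (ch.en s) f)
    rcases ch.en s with c | i
    · exact hDe3 c f hf
    · exact hDc3 i f hf
  -- the determinant
  set Δ : Matrix (Fin 2) (Fin 2) (FractionRing (MvPolynomial Γ K₂)) :=
    Matrix.of fun i j => (y j)⁻¹ * iC (δ i (z j)) with hΔ
  set P : Matrix (Γ ⊕ Fin 2) (Γ ⊕ Fin 2) (FractionRing (MvPolynomial Γ K₂)) :=
    Matrix.fromBlocks 1 0 0 Δ with hP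
  set Q : Matrix σ σ ℤ :=
    Matrix.of fun b s : σ => Sum.elim (fun c => ch.e b c) (fun i => (ch.ρ b i : ℤ)) (ch.en s) with hQ
  have hΔd : Δ.det = (∏ j, (y j)⁻¹) * iC (Matrix.of fun i j => δ i (z j)).det := by
    have h1 := Matrix.det_mul_row (fun j => (y j)⁻¹) (Matrix.of fun i j => iC (δ i (z j)))
    have h2 : (Matrix.of fun i j => iC (δ i (z j))).det = iC (Matrix.of fun i j => δ i (z j)).det := by
      rw [RingHom.map_det]
      rfl
    rw [← h2, ← h1]
    rfl
  have hM : (Matrix.of fun s b => D s (x b)) =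
      Matrix.of fun s b => x b * ((P.submatrix ch.en ch.en) *
        (Q.map (Int.castRingHom (FractionRing (MvPolynomial Γ K₂)))).transpose) s b := by
    ext s b
    rw [Matrix.of_apply, Matrix.of_apply, Matrix.mul_apply]
    have h2 : ∀ s', (P.submatrix ch.en ch.en) s s' *
        (Q.map (Int.castRingHom (FractionRing (MvPolynomial Γ K₂)))).transpose s' b =
        (fun t : Γ ⊕ Fin 2 => P (ch.en s) t *
          ((Sum.elim (fun c => ch.e b c) (fun i => (ch.ρ b i : ℤ)) t : ℤ) :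
            FractionRing (MvPolynomial Γ K₂))) (ch.en s') := fun s' => rfl
    simp_rw [h2]
    rw [ch.en.sum_comp (fun t : Γ ⊕ Fin 2 => P (ch.en s) t *
          ((Sum.elim (fun c => ch.e b c) (fun i => (ch.ρ b i : ℤ)) t : ℤ) :
            FractionRing (MvPolynomial Γ K₂))), Fintype.sum_sum_type]
    show Sum.elim De Dc (ch.en s) (x b) = _
    rcases ch.en s with c | i
    · show De c (x b) = _
      rw [hDex]
      congr 1
      simp only [hP, Matrix.fromBlocks_apply₁₁, Matrix.fromBlocks_apply₁₂, Sum.elim_inl,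
        Matrix.zero_apply, zero_mul, Finset.sum_const_zero, add_zero, Matrix.one_apply, ite_mul,
        one_mul, Finset.sum_ite_eq, Finset.mem_univ, if_true]
    · show Dc i (x b) = _
      rw [hDcx]
      congr 1
      simp only [hP, Matrix.fromBlocks_apply₂₁, Matrix.fromBlocks_apply₂₂, Sum.elim_inr,
        Matrix.zero_apply, zero_mul, Finset.sum_const_zero, zero_add]
      refine Finset.sum_congr rfl fun j _ => ?_
      rw [hΔ, Matrix.of_apply, Int.cast_natCast]
      ring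
  have hMd : (Matrix.of fun s b => D s (x b)).det = (∏ b, x b) *
      ((∏ j, (y j)⁻¹) * iC (Matrix.of fun i j => δ i (z j)).det *
        ((Q.det : ℤ) : FractionRing (MvPolynomial Γ K₂))) := by
    rw [hM, Matrix.det_mul_row, Matrix.det_mul, Matrix.det_submatrix_equiv_self,
      Matrix.det_transpose, hP, Matrix.det_fromBlocks_zero₂₁, Matrix.det_one, one_mul, hΔd]
    congr 2
    have h1 := RingHom.map_det (Int.castRingHom (FractionRing (MvPolynomial Γ K₂))) Q
    exact h1.symm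
  have hQd : ((Q.det : ℤ) : FractionRing (MvPolynomial Γ K₂)) ≠ 0 ∧
      v.ord ((Q.det : ℤ) : FractionRing (MvPolynomial Γ K₂)) = 0 := by
    rcases TcReal_unit ch with h | h
    · have h' : Q.det = 1 := h
      rw [h', Int.cast_one]
      exact ⟨one_ne_zero, v.ord_one⟩
    · have h' : Q.det = -1 := h
      rw [h', Int.cast_neg, Int.cast_one]
      exact ⟨neg_ne_zero.2 one_ne_zero, v.ord_neg_one⟩
  have hxp0 : (∏ b, x b) ≠ 0 := Finset.prod_ne_zero_iff.2 fun b _ => hx0 b
  have hyp : (∏ j, (y j)⁻¹) ≠ 0 := Finset.prod_ne_zero_iff.2 fun j _ => inv_ne_zero (hy0 j)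
  have hMne : (Matrix.of fun s b => D s (x b)).det ≠ 0 := by
    rw [hMd]
    exact mul_ne_zero hxp0 (mul_ne_zero (mul_ne_zero hyp (hiC0 _ hdet)) hQd.1)
  have hMo : v.ord (Matrix.of fun s b => D s (x b)).det = ∑ c, (∑ b, ch.e b c) * α c +
        (v₂.ord (Matrix.of fun i j => δ i (z j)).det + ∑ i, (jj ch i : ℤ) * v₂.ord (z i)) := by
    rw [hMd, v.ord_mul hxp0 (mul_ne_zero (mul_ne_zero hyp (hiC0 _ hdet)) hQd.1),
      v.ord_mul (mul_ne_zero hyp (hiC0 _ hdet)) hQd.1, v.ord_mul hyp (hiC0 _ hdet), hQd.2,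
      hiCo _ hdet, v.ord_prod _ _ (fun b _ => hx0 b),
      v.ord_prod _ _ (fun j _ => inv_ne_zero (hy0 j))]
    simp_rw [hxo, Finset.sum_add_distrib]
    rw [Finset.sum_comm (f := fun b c => ch.e b c * α c),
      Finset.sum_comm (f := fun b i => (ch.ρ b i : ℤ) * v₂.ord (z i))]
    simp_rw [← Finset.sum_mul]
    have h1 : ∀ i, (jj ch i : ℤ) = ∑ b, (ch.ρ b i : ℤ) - 1 := by
      intro i
      have h2 := rho_pos ch i
      unfold jj
      rw [Nat.cast_sub h2]
      push_cast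
      rfl
    simp_rw [h1, sub_mul, Finset.sum_sub_distrib, one_mul]
    have h3 : ∑ j, v.ord (y j)⁻¹ = - ∑ i, v₂.ord (z i) := by
      rw [← Finset.sum_neg_distrib]
      refine Finset.sum_congr rfl fun j _ => ?_
      rw [v.ord_inv _ (hy0 j), hyo]
    rw [h3]
    ring
  -- the embedding
  have hai : AlgebraicIndependent k x := arc_jac_det x D hMne
  let ι : FF k σ →ₐ[k] FractionRing (MvPolynomial Γ K₂) :=
    IsFractionRing.liftAlgHom (g := aeval x) hai
  have hι : ∀ f : MvPolynomial σ k, ι (toFF k σ f) = aeval x f := by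
    intro f
    exact IsFractionRing.lift_algebraMap (K := FF k σ)
      (g := (aeval x : MvPolynomial σ k →ₐ[k] FractionRing (MvPolynomial Γ K₂)).toRingHom) hai f
  have hιx : ∀ i, ι (xx k i) = x i := by
    intro i
    show ι (toFF k σ (X i)) = _
    rw [hι, aeval_X]
  obtain ⟨E, g, A₁, hg, hE0, hE1, hE2, hE3⟩ := gen_divisor v ι
    (fun i => by rw [hιx, hxo]; exact hpos i) D hD3 (by simpa only [hιx] using hMne)
  refine ⟨E, g, A₁, hg, hE0, hE2, ?_, ?_⟩
  · rw [← hMo]
    simpa only [hιx] using hE3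
  · intro F χ hF hQF
    have hF0 : toFF k σ F ≠ 0 := by
      intro h0
      apply hF
      have h2 : (algebraMap (MvPolynomial σ k) (FF k σ)) F = 0 := h0
      exact (map_eq_zero_iff _ (IsFractionRing.injective _ _)).mp h2
    rw [← hE1 _ hF0, hι]
    have h1 : aeval x F = (∏ c, q c ^ χ c) * aeval y (PP ch F) :=
      aeval_PP' ch q y hq0 hy0 χ F hQF
    have h2 : ∀ G : MvPolynomial (Fin 2) k, aeval y G = iC (aeval z G) := by
      intro G
      induction G using MvPolynomial.induction_on with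
      | C a =>
        rw [aeval_C, aeval_C]
        rfl
      | add p q hp hq => rw [map_add, map_add, map_add, hp, hq]
      | mul_X p i hp => rw [map_mul, map_mul, map_mul, hp, aeval_X, aeval_X]
    have h3 : aeval z (PP ch F) ≠ 0 := hz _ (PP_ne ch χ F hQF hF)
    rw [h1, h2, v.ord_mul (hqp0 _) (hiC0 _ h3), hqpo, hiCo _ h3]

end MLD
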