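import Pool.Agent.MLD.Ord

/-!
Two variables `Y = X 0`, `Z = X 1`: charts of the blow-up, initial forms, linear types.
-/

open MvPolynomial Filter

namespace MLD

universe u

section
variable {k : Type u} [Field k] {Λ : Type}

/-- the monomial `Y^a Z^b` -/
noncomputable def mon (a b : ℕ) : Fin 2 →₀ ℕ := Finsupp.single 0 a + Finsupp.single 1 b

/-- chart of the blow-up: `Y = Z' (Y' + c)`, `Z = Z'` -/
noncomputable def m1 (c : k) : Fin 2 → MvPolynomial (Fin 2) k := ![X 1 * (X 0 + C c), X 1]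

/-- the other chart: `Y = Z'`, `Z = Z' Y'` -/
noncomputable def m2 (k : Type u) [Field k] : Fin 2 → MvPolynomial (Fin 2) k :=
  ![X 1, X 1 * X 0]

/-- the shift `Y ↦ Y + ψ(Z)` -/
noncomputable def sh (ψ : Polynomial k) : Fin 2 → MvPolynomial (Fin 2) k :=
  ![X 0 + Polynomial.aeval (X 1) ψ, X 1]

/-- the initial form of degree `e`, dehomogenized: `∑ coeff (Y^j Z^(e-j)) X^j` -/
noncomputable def ini (e : ℕ) (F : MvPolynomial (Fin 2) k) : Polynomial k :=
  ∑ j ∈ Finset.range (e + 1), Polynomial.C (coeff (mon j (e - j)) F) * Polynomial.X ^ j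

/-- strict transform in the first chart -/
noncomputable def ch1 (c : k) (e : ℕ) (F : MvPolynomial (Fin 2) k) : MvPolynomial (Fin 2) k :=
  ∑ m ∈ F.support, C (coeff m F) * (X 0 + C c) ^ (m 0) * X 1 ^ (m 0 + m 1 - e)

/-- strict transform in the second chart -/
noncomputable def ch2 (e : ℕ) (F : MvPolynomial (Fin 2) k) : MvPolynomial (Fin 2) k :=
  ∑ m ∈ F.support, C (coeff m F) * X 0 ^ (m 1) * X 1 ^ (m 0 + m 1 - e)

/-- restriction to `Z = 0` -/
noncomputable def atY : MvPolynomial (Fin 2) k →ₐ[k] Polynomial k :=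
  aeval ![Polynomial.X, 0]

/-- restriction to `Y = 0` -/
noncomputable def atZ : MvPolynomial (Fin 2) k →ₐ[k] Polynomial k :=
  aeval ![0, Polynomial.X]

/-- the type of the exceptional divisor of the blow-up -/
def divType (α β : ℕ) (L M e : Λ → ℕ) : LinType Λ :=
  ⟨1, fun _ => 1, fun _ => 2 + α + β, fun l _ => L l + M l + e l⟩

/-- the type of a normal crossing point -/
def t0Type (α β : ℕ) (L M : Λ → ℕ) : LinType Λ :=
  ⟨2, fun _ => 1, ![1 + α, 1 + β], fun l => ![L l, M l]⟩

/-- the type of a point on a smooth non-exceptional branch of multiplicity `N l` -/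
def t1Type (β : ℕ) (M N : Λ → ℕ) : LinType Λ :=
  ⟨2, fun _ => 1, ![1, 1 + β], fun l => ![N l, M l]⟩

end

end MLD
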