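import Pool.Agent.MLD.Two

/-!
PIECE MLD-E1: polynomial identities for the charts of the blow-up.
-/

open MvPolynomial Filter

namespace MLD

universe u

variable {k : Type u} [Field k]

theorem mon_apply_zero (a b : ℕ) : mon a b 0 = a := by
  simp [mon]

theorem mon_apply_one (a b : ℕ) : mon a b 1 = b := by
  simp [mon]

theorem eq_mon (m : Fin 2 →₀ ℕ) : m = mon (m 0) (m 1) := by
  ext i
  fin_cases i
  · exact (mon_apply_zero _ _).symm
  · exact (mon_apply_one _ _).symm

private theorem twoA_degree (m : Fin 2 →₀ ℕ) : m.degree = m 0 + m 1 := by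
  rw [Finsupp.degree_eq_sum, Fin.sum_univ_two]

theorem mon_degree (a b : ℕ) : (mon a b).degree = a + b := by
  rw [twoA_degree, mon_apply_zero, mon_apply_one]

private theorem twoA_aeval {S : Type*} [CommRing S] [Algebra k S] (f : Fin 2 → S)
    (F : MvPolynomial (Fin 2) k) :
    aeval f F = ∑ m ∈ F.support, algebraMap k S (coeff m F) * (f 0 ^ (m 0) * f 1 ^ (m 1)) := by
  rw [aeval_def, eval₂_eq']
  refine Finset.sum_congr rfl fun m _ => ?_
  rw [Fin.prod_univ_two]

private theorem twoA_le {e : ℕ} {F : MvPolynomial (Fin 2) k}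
    (he : ∀ m : Fin 2 →₀ ℕ, m.degree < e → coeff m F = 0) {m : Fin 2 →₀ ℕ}
    (hm : m ∈ F.support) : e ≤ m 0 + m 1 := by
  by_contra h
  exact (mem_support_iff.1 hm) (he m (by rw [twoA_degree]; omega))

theorem aeval_m1_eq (c : k) (e : ℕ) (F : MvPolynomial (Fin 2) k)
    (he : ∀ m : Fin 2 →₀ ℕ, m.degree < e → coeff m F = 0) :
    aeval (m1 c) F = X 1 ^ e * ch1 c e F := by
  rw [twoA_aeval, ch1, Finset.mul_sum]
  refine Finset.sum_congr rfl fun m hm => ?_
  have h := twoA_le he hm
  obtain ⟨d, hd⟩ := Nat.exists_eq_add_of_le h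
  have h0 : m1 c 0 = X 1 * (X 0 + C c) := rfl
  have h1 : m1 c 1 = (X 1 : MvPolynomial (Fin 2) k) := rfl
  have h2 : m 0 + m 1 - e = d := by omega
  rw [h0, h1, h2, algebraMap_eq]
  have h3 : (X 1 : MvPolynomial (Fin 2) k) ^ (m 0) * X 1 ^ (m 1) = X 1 ^ e * X 1 ^ d := by
    rw [← pow_add, ← pow_add, hd]
  calc (C (coeff m F) : MvPolynomial (Fin 2) k) * ((X 1 * (X 0 + C c)) ^ (m 0) * X 1 ^ (m 1))
      = C (coeff m F) * (X 0 + C c) ^ (m 0) * (X 1 ^ (m 0) * X 1 ^ (m 1)) := by
        rw [mul_pow]; ring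
    _ = _ := by rw [h3]; ring

theorem aeval_m2_eq (e : ℕ) (F : MvPolynomial (Fin 2) k)
    (he : ∀ m : Fin 2 →₀ ℕ, m.degree < e → coeff m F = 0) :
    aeval (m2 k) F = X 1 ^ e * ch2 e F := by
  rw [twoA_aeval, ch2, Finset.mul_sum]
  refine Finset.sum_congr rfl fun m hm => ?_
  have h := twoA_le he hm
  obtain ⟨d, hd⟩ := Nat.exists_eq_add_of_le h
  have h0 : m2 k 0 = (X 1 : MvPolynomial (Fin 2) k) := rfl
  have h1 : m2 k 1 = (X 1 * X 0 : MvPolynomial (Fin 2) k) := rfl
  have h2 : m 0 + m 1 - e = d := by omega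
  rw [h0, h1, h2, algebraMap_eq]
  have h3 : (X 1 : MvPolynomial (Fin 2) k) ^ (m 0) * X 1 ^ (m 1) = X 1 ^ e * X 1 ^ d := by
    rw [← pow_add, ← pow_add, hd]
  calc (C (coeff m F) : MvPolynomial (Fin 2) k) * (X 1 ^ (m 0) * (X 1 * X 0) ^ (m 1))
      = C (coeff m F) * X 0 ^ (m 1) * (X 1 ^ (m 0) * X 1 ^ (m 1)) := by
        rw [mul_pow]; ring
    _ = _ := by rw [h3]; ring

private theorem twoA_atY (F : MvPolynomial (Fin 2) k) :
    atY F = ∑ m ∈ F.support,
      Polynomial.C (coeff m F) * (Polynomial.X ^ (m 0) * 0 ^ (m 1)) := by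
  rw [atY, twoA_aeval]
  rfl

private theorem twoA_atZ (F : MvPolynomial (Fin 2) k) :
    atZ F = ∑ m ∈ F.support,
      Polynomial.C (coeff m F) * (0 ^ (m 0) * Polynomial.X ^ (m 1)) := by
  rw [atZ, twoA_aeval]
  rfl

theorem coeff_atY (F : MvPolynomial (Fin 2) k) (j : ℕ) :
    (atY F).coeff j = coeff (mon j 0) F := by
  rw [twoA_atY, Polynomial.finsetSum_coeff]
  rw [Finset.sum_eq_single (mon j 0)]
  · rw [mon_apply_zero, mon_apply_one, pow_zero, mul_one, Polynomial.coeff_C_mul,
      Polynomial.coeff_X_pow, if_pos rfl, mul_one]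
  · intro m _ hm
    rcases Nat.eq_zero_or_pos (m 1) with h | h
    · have h0 : m 0 ≠ j := by
        intro h0
        apply hm
        rw [eq_mon m, h, h0]
      rw [h, pow_zero, mul_one, Polynomial.coeff_C_mul, Polynomial.coeff_X_pow,
        if_neg (fun h' => h0 h'.symm), mul_zero]
    · rw [zero_pow (by omega), mul_zero, mul_zero, Polynomial.coeff_zero]
  · intro h
    rw [notMem_support_iff.1 h]
    simp

theorem coeff_atZ (F : MvPolynomial (Fin 2) k) (j : ℕ) :
    (atZ F).coeff j = coeff (mon 0 j) F := by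
  rw [twoA_atZ, Polynomial.finsetSum_coeff]
  rw [Finset.sum_eq_single (mon 0 j)]
  · rw [mon_apply_zero, mon_apply_one, pow_zero, one_mul, Polynomial.coeff_C_mul,
      Polynomial.coeff_X_pow, if_pos rfl, mul_one]
  · intro m _ hm
    rcases Nat.eq_zero_or_pos (m 0) with h | h
    · have h0 : m 1 ≠ j := by
        intro h0
        apply hm
        rw [eq_mon m, h, h0]
      rw [h, pow_zero, one_mul, Polynomial.coeff_C_mul, Polynomial.coeff_X_pow,
        if_neg (fun h' => h0 h'.symm), mul_zero]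
    · rw [zero_pow (by omega), zero_mul, mul_zero, Polynomial.coeff_zero]
  · intro h
    rw [notMem_support_iff.1 h]
    simp

/-- sum over the terms of degree `e` -/
private theorem twoA_sum {M : Type*} [AddCommMonoid M] (e : ℕ) (F : MvPolynomial (Fin 2) k)
    (G : (Fin 2 →₀ ℕ) → M) (hG : ∀ m, coeff m F = 0 → G m = 0) :
    ∑ m ∈ F.support, (if m 0 + m 1 = e then G m else 0) =
      ∑ j ∈ Finset.range (e + 1), G (mon j (e - j)) := by
  classical
  have hinj : ∀ i ∈ Finset.range (e + 1), ∀ j ∈ Finset.range (e + 1),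
      mon i (e - i) = mon j (e - j) → i = j := by
    intro i _ j _ h
    have := DFunLike.congr_fun h 0
    rwa [mon_apply_zero, mon_apply_zero] at this
  rw [← Finset.sum_filter, ← Finset.sum_image (f := G) (g := fun j => mon j (e - j)) hinj]
  refine Finset.sum_subset ?_ ?_
  · intro m hm
    rw [Finset.mem_filter] at hm
    rw [Finset.mem_image]
    refine ⟨m 0, Finset.mem_range.2 (by omega), ?_⟩
    have : e - m 0 = m 1 := by omega
    rw [this]
    exact (eq_mon m).symm
  · intro m hm hm'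
    rw [Finset.mem_image] at hm
    obtain ⟨j, hj, rfl⟩ := hm
    rw [Finset.mem_range] at hj
    apply hG
    by_contra h
    apply hm'
    rw [Finset.mem_filter]
    refine ⟨mem_support_iff.2 h, ?_⟩
    rw [mon_apply_zero, mon_apply_one]
    omega

theorem atY_ch1 (c : k) (e : ℕ) (F : MvPolynomial (Fin 2) k)
    (he : ∀ m : Fin 2 →₀ ℕ, m.degree < e → coeff m F = 0) :
    atY (ch1 c e F) = (ini e F).comp (Polynomial.X + Polynomial.C c) := by
  have h0 : atY (X 0 : MvPolynomial (Fin 2) k) = Polynomial.X := by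
    rw [atY, aeval_X]; rfl
  have h1 : atY (X 1 : MvPolynomial (Fin 2) k) = 0 := by
    rw [atY, aeval_X]; rfl
  have hC : ∀ a : k, atY (C a : MvPolynomial (Fin 2) k) = Polynomial.C a := by
    intro a
    rw [atY, aeval_C]; rfl
  have hcomp : (ini e F).comp (Polynomial.X + Polynomial.C c) =
      ∑ j ∈ Finset.range (e + 1), (Polynomial.C (coeff (mon j (e - j)) F) *
        Polynomial.X ^ j).comp (Polynomial.X + Polynomial.C c) := by
    rw [ini]
    exact map_sum (Polynomial.compRingHom (Polynomial.X + Polynomial.C c)) _ _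
  rw [ch1, map_sum, hcomp]
  have hs := twoA_sum e F (fun m => Polynomial.C (coeff m F) *
    (Polynomial.X + Polynomial.C c) ^ (m 0)) (fun m hm => by rw [hm]; simp)
  calc ∑ m ∈ F.support, atY (C (coeff m F) * (X 0 + C c) ^ (m 0) * X 1 ^ (m 0 + m 1 - e))
      = ∑ m ∈ F.support, (if m 0 + m 1 = e then Polynomial.C (coeff m F) *
          (Polynomial.X + Polynomial.C c) ^ (m 0) else 0) := by
        refine Finset.sum_congr rfl fun m hm => ?_
        have h := twoA_le he hm
        rw [map_mul, map_mul, map_pow, map_pow, map_add, h0, h1, hC, hC]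
        by_cases hme : m 0 + m 1 = e
        · rw [if_pos hme, hme, Nat.sub_self, pow_zero, mul_one]
        · rw [if_neg hme, zero_pow (by omega), mul_zero]
    _ = _ := hs
    _ = _ := by
        refine Finset.sum_congr rfl fun j _ => ?_
        rw [mon_apply_zero, Polynomial.mul_comp, Polynomial.C_comp, Polynomial.pow_comp,
          Polynomial.X_comp]

theorem atY_ch2 (e : ℕ) (F : MvPolynomial (Fin 2) k)
    (he : ∀ m : Fin 2 →₀ ℕ, m.degree < e → coeff m F = 0) :
    atY (ch2 e F) = ∑ j ∈ Finset.range (e + 1),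
      Polynomial.C (coeff (mon (e - j) j) F) * Polynomial.X ^ j := by
  have h0 : atY (X 0 : MvPolynomial (Fin 2) k) = Polynomial.X := by
    rw [atY, aeval_X]; rfl
  have h1 : atY (X 1 : MvPolynomial (Fin 2) k) = 0 := by
    rw [atY, aeval_X]; rfl
  have hC : ∀ a : k, atY (C a : MvPolynomial (Fin 2) k) = Polynomial.C a := by
    intro a
    rw [atY, aeval_C]; rfl
  rw [ch2, map_sum]
  have hs := twoA_sum e F (fun m => Polynomial.C (coeff m F) * Polynomial.X ^ (m 1))
    (fun m hm => by rw [hm]; simp)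
  calc ∑ m ∈ F.support, atY (C (coeff m F) * X 0 ^ (m 1) * X 1 ^ (m 0 + m 1 - e))
      = ∑ m ∈ F.support, (if m 0 + m 1 = e then Polynomial.C (coeff m F) *
          Polynomial.X ^ (m 1) else 0) := by
        refine Finset.sum_congr rfl fun m hm => ?_
        have h := twoA_le he hm
        rw [map_mul, map_mul, map_pow, map_pow, h0, h1, hC]
        by_cases hme : m 0 + m 1 = e
        · rw [if_pos hme, hme, Nat.sub_self, pow_zero, mul_one]
        · rw [if_neg hme, zero_pow (by omega), mul_zero]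
    _ = _ := hs
    _ = _ := by
        rw [← Finset.sum_range_reflect]
        refine Finset.sum_congr rfl fun j hj => ?_
        rw [Finset.mem_range] at hj
        have h2 : e + 1 - 1 - j = e - j := by omega
        have h3 : e - (e - j) = j := by omega
        rw [h2, h3, mon_apply_one]

theorem atZ_ch1_zero (e : ℕ) (F : MvPolynomial (Fin 2) k)
    (he : ∀ m : Fin 2 →₀ ℕ, m.degree < e → coeff m F = 0) :
    Polynomial.X ^ e * atZ (ch1 0 e F) = atZ F := by
  have h0 : atZ (X 0 : MvPolynomial (Fin 2) k) = 0 := by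
    rw [atZ, aeval_X]; rfl
  have h1 : atZ (X 1 : MvPolynomial (Fin 2) k) = Polynomial.X := by
    rw [atZ, aeval_X]; rfl
  have hC : ∀ a : k, atZ (C a : MvPolynomial (Fin 2) k) = Polynomial.C a := by
    intro a
    rw [atZ, aeval_C]; rfl
  rw [twoA_atZ F, ch1, map_sum, Finset.mul_sum]
  refine Finset.sum_congr rfl fun m hm => ?_
  have h := twoA_le he hm
  rw [map_mul, map_mul, map_pow, map_pow, map_add, h0, h1, hC, hC, Polynomial.C_0, add_zero]
  rcases Nat.eq_zero_or_pos (m 0) with hm0 | hm0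
  · rw [hm0, pow_zero, mul_one, one_mul, zero_add]
    have h2 : m 1 = e + (m 1 - e) := by omega
    calc Polynomial.X ^ e * (Polynomial.C (coeff m F) * Polynomial.X ^ (m 1 - e))
        = Polynomial.C (coeff m F) * Polynomial.X ^ (e + (m 1 - e)) := by rw [pow_add]; ring
      _ = _ := by rw [← h2]
  · rw [zero_pow (by omega)]
    ring

theorem atZ_ch2 (e : ℕ) (F : MvPolynomial (Fin 2) k)
    (he : ∀ m : Fin 2 →₀ ℕ, m.degree < e → coeff m F = 0) :
    Polynomial.X ^ e * atZ (ch2 e F) = atY F := by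
  have h0 : atZ (X 0 : MvPolynomial (Fin 2) k) = 0 := by
    rw [atZ, aeval_X]; rfl
  have h1 : atZ (X 1 : MvPolynomial (Fin 2) k) = Polynomial.X := by
    rw [atZ, aeval_X]; rfl
  have hC : ∀ a : k, atZ (C a : MvPolynomial (Fin 2) k) = Polynomial.C a := by
    intro a
    rw [atZ, aeval_C]; rfl
  rw [twoA_atY F, ch2, map_sum, Finset.mul_sum]
  refine Finset.sum_congr rfl fun m hm => ?_
  have h := twoA_le he hm
  rw [map_mul, map_mul, map_pow, map_pow, h0, h1, hC]
  rcases Nat.eq_zero_or_pos (m 1) with hm0 | hm0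
  · rw [hm0, pow_zero, mul_one, mul_one, add_zero]
    have h2 : m 0 = e + (m 0 - e) := by omega
    calc Polynomial.X ^ e * (Polynomial.C (coeff m F) * Polynomial.X ^ (m 0 - e))
        = Polynomial.C (coeff m F) * Polynomial.X ^ (e + (m 0 - e)) := by rw [pow_add]; ring
      _ = _ := by rw [← h2]
  · rw [zero_pow (by omega)]
    ring

theorem coeff_ini (e : ℕ) (F : MvPolynomial (Fin 2) k) (j : ℕ) :
    (ini e F).coeff j = if j ≤ e then coeff (mon j (e - j)) F else 0 := by
  rw [ini, Polynomial.finsetSum_coeff]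
  by_cases hj : j ≤ e
  · rw [if_pos hj, Finset.sum_eq_single j]
    · rw [Polynomial.coeff_C_mul, Polynomial.coeff_X_pow, if_pos rfl, mul_one]
    · intro i _ hi
      rw [Polynomial.coeff_C_mul, Polynomial.coeff_X_pow, if_neg (fun h => hi h.symm), mul_zero]
    · intro h
      exact absurd (Finset.mem_range.2 (by omega)) h
  · rw [if_neg hj]
    refine Finset.sum_eq_zero fun i hi => ?_
    rw [Finset.mem_range] at hi
    rw [Polynomial.coeff_C_mul, Polynomial.coeff_X_pow, if_neg (by omega), mul_zero]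

theorem ini_ne_zero (e : ℕ) (F : MvPolynomial (Fin 2) k) (m : Fin 2 →₀ ℕ) (hm : m.degree = e)
    (h : coeff m F ≠ 0) : ini e F ≠ 0 := by
  intro h0
  apply h
  rw [twoA_degree] at hm
  have h1 := coeff_ini e F (m 0)
  rw [h0, Polynomial.coeff_zero, if_pos (by omega)] at h1
  have h2 : e - m 0 = m 1 := by omega
  rw [h2, ← eq_mon m] at h1
  exact h1.symm

private theorem twoA_coeff_blow (H : MvPolynomial (Fin 2) k) (p q : ℕ) :
    coeff (mon p (p + q)) (aeval ![X 1 * X 0, (X 1 : MvPolynomial (Fin 2) k)] H) =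
      coeff (mon p q) H := by
  classical
  rw [twoA_aeval, coeff_sum]
  have hterm : ∀ m : Fin 2 →₀ ℕ, algebraMap k (MvPolynomial (Fin 2) k) (coeff m H) *
      ((![X 1 * X 0, (X 1 : MvPolynomial (Fin 2) k)] 0) ^ (m 0) *
        (![X 1 * X 0, (X 1 : MvPolynomial (Fin 2) k)] 1) ^ (m 1)) =
      monomial (mon (m 0) (m 0 + m 1)) (coeff m H) := by
    intro m
    have h0 : (![X 1 * X 0, (X 1 : MvPolynomial (Fin 2) k)] 0) = X 1 * X 0 := rfl
    have h1 : (![X 1 * X 0, (X 1 : MvPolynomial (Fin 2) k)] 1) = X 1 := rfl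
    rw [h0, h1, algebraMap_eq, monomial_eq, Finsupp.prod_fintype _ _ (fun i => pow_zero _),
      Fin.prod_univ_two, mon_apply_zero, mon_apply_one, mul_pow, pow_add]
    ring
  have h2 : ∀ m ∈ H.support, coeff (mon p (p + q)) (algebraMap k (MvPolynomial (Fin 2) k)
      (coeff m H) * ((![X 1 * X 0, (X 1 : MvPolynomial (Fin 2) k)] 0) ^ (m 0) *
        (![X 1 * X 0, (X 1 : MvPolynomial (Fin 2) k)] 1) ^ (m 1))) =
      if m = mon p q then coeff m H else 0 := by
    intro m _
    rw [hterm m, coeff_monomial]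
    by_cases hm : m = mon p q
    · rw [if_pos hm, if_pos]
      rw [hm, mon_apply_zero, mon_apply_one]
    · rw [if_neg hm, if_neg]
      intro h
      apply hm
      have e0 := DFunLike.congr_fun h 0
      have e1 := DFunLike.congr_fun h 1
      rw [mon_apply_zero, mon_apply_zero] at e0
      rw [mon_apply_one, mon_apply_one] at e1
      rw [eq_mon m]
      congr 1
      omega
  rw [Finset.sum_congr rfl h2, Finset.sum_ite_eq']
  by_cases h : mon p q ∈ H.support
  · rw [if_pos h]
  · rw [if_neg h]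
    exact (notMem_support_iff.1 h).symm

theorem shift_coeff (c : k) (ψ : Polynomial k) (e : ℕ) (F : MvPolynomial (Fin 2) k)
    (he : ∀ m : Fin 2 →₀ ℕ, m.degree < e → coeff m F = 0) (p q : ℕ) :
    coeff (mon p q) (aeval (sh (Polynomial.X * (Polynomial.C c + ψ))) F) =
      if e ≤ p + q then coeff (mon p (p + q - e)) (aeval (sh ψ) (ch1 c e F)) else 0 := by
  have key : aeval ![X 1 * X 0, (X 1 : MvPolynomial (Fin 2) k)]
      (aeval (sh (Polynomial.X * (Polynomial.C c + ψ))) F) =
      X 1 ^ e * aeval (sh ψ) (ch1 c e F) := by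
    have h1 : aeval (sh ψ) (aeval (m1 c) F) = X 1 ^ e * aeval (sh ψ) (ch1 c e F) := by
      rw [aeval_m1_eq c e F he, map_mul, map_pow, aeval_X]
      rfl
    rw [← h1]
    have h2 : (aeval ![X 1 * X 0, (X 1 : MvPolynomial (Fin 2) k)]).comp
        (aeval (sh (Polynomial.X * (Polynomial.C c + ψ)))) =
        (aeval (sh ψ)).comp (aeval (R := k) (m1 c)) := by
      apply MvPolynomial.algHom_ext
      intro i
      rw [AlgHom.comp_apply, AlgHom.comp_apply, aeval_X, aeval_X]
      have a0 : aeval ![X 1 * X 0, (X 1 : MvPolynomial (Fin 2) k)]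
          (X 0 : MvPolynomial (Fin 2) k) = X 1 * X 0 := by
        rw [aeval_X]; rfl
      have a1 : aeval ![X 1 * X 0, (X 1 : MvPolynomial (Fin 2) k)]
          (X 1 : MvPolynomial (Fin 2) k) = X 1 := by
        rw [aeval_X]; rfl
      have b0 : aeval (sh ψ) (X 0 : MvPolynomial (Fin 2) k) =
          X 0 + Polynomial.aeval (X 1) ψ := by
        rw [aeval_X]; rfl
      have b1 : aeval (sh ψ) (X 1 : MvPolynomial (Fin 2) k) = X 1 := by
        rw [aeval_X]; rfl
      have hψ : aeval ![X 1 * X 0, (X 1 : MvPolynomial (Fin 2) k)]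
          (Polynomial.aeval (X 1 : MvPolynomial (Fin 2) k) ψ) = Polynomial.aeval (X 1) ψ := by
        rw [← Polynomial.aeval_algHom_apply, a1]
      have hc : ∀ f : Fin 2 → MvPolynomial (Fin 2) k, aeval f (C c) = C c := by
        intro f
        rw [aeval_C]; rfl
      fin_cases i
      · change aeval ![X 1 * X 0, (X 1 : MvPolynomial (Fin 2) k)]
          (X 0 + Polynomial.aeval (X 1) (Polynomial.X * (Polynomial.C c + ψ))) =
          aeval (sh ψ) (X 1 * (X 0 + C c))
        rw [map_mul (Polynomial.aeval (X 1)), map_add (Polynomial.aeval (X 1)),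
          Polynomial.aeval_X, Polynomial.aeval_C, algebraMap_eq, map_add, map_mul, map_add, a0,
          a1, hψ, hc, map_mul, map_add, b0, b1, hc]
        ring
      · change aeval ![X 1 * X 0, (X 1 : MvPolynomial (Fin 2) k)] (X 1) = aeval (sh ψ) (X 1)
        rw [a1, b1]
    have h3 := DFunLike.congr_fun h2 F
    exact h3
  rw [← twoA_coeff_blow, key, X_pow_eq_monomial, coeff_monomial_mul']
  by_cases h : e ≤ p + q
  · rw [if_pos h, if_pos, one_mul]
    · congr 1
      ext i
      fin_cases i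
      · simp [mon]
      · simp [mon]
    · intro i
      fin_cases i
      · simp [mon]
      · simp [mon]; exact h
  · rw [if_neg h, if_neg]
    intro h'
    apply h
    have := h' 1
    simpa [mon] using this

end MLD
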