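import Pool.Agent.MLD.TwoA
import Pool.Agent.MLD.Der

/-!
PIECE MLD-E3: domination goes down from the charts of the blow-up.

PROOF of `dmd_m1`. `Y := x 0`, `Z := x 1` (nonzero), `x' := ![Y / Z - c, Z]`.
* `Cen v x'`: orders are positive. Independence: claim: for every `G` there are `N` and `G'` with
  `aeval x G' = Z ^ N * aeval x' G` and `aeval (m1 c) G' = X 1 ^ N * G`
  (`MvPolynomial.induction_on`: constants, sums (multiply to a common `N`), products with `X 0`:
  `G' (X 0 - C c * X 1)`, `N + 1`, with `X 1`: `G' X 1`). If `G ≠ 0` then `G' ≠ 0` by the second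
  identity, so `aeval x G' ≠ 0`, so `aeval x' G ≠ 0`.
* `aeval x' (aeval (m1 c) T) = aeval x T` because `aeval x' ∘ m1 c = x` (`Z (Y/Z - c + c) = Y`).
* apply `h` to `v, x'`: get `t, θ, g, P'` with `D (g b) = ∑ P' b c * D (x' c)`; and
  `D (x' 0) = D Y / Z - Y * D Z / Z^2`, `D (x' 1) = D Z`. Put `P := P' * !![1/Z, -Y/Z^2; 0, 1]`,
  `det P = det P' / Z`, `ord det P = ord det P' - ord Z`; `aeval x' (aeval (m1 c) J * X 1)
  = aeval x J * Z` has order `ord (aeval x J) + ord Z` (`aeval x J ≠ 0` is needed: hypothesis `hJ`).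
  So the inequality for `aa` is the same.
PROOF of `dmd_m2`: the same with `x' := ![Z / Y, Y]`,
`D (x' 0) = D Z / Y - Z D Y / Y^2`, `D (x' 1) = D Y`, `det !![-Z/Y^2, 1/Y; 1, 0] = -1/Y`.
-/

open MvPolynomial Filter

namespace MLD

universe u

private theorem twoB_indep {k : Type u} [Field k] {K : Type u} [Field K] [Algebra k K]
    (x x' : Fin 2 → K) (m : Fin 2 → MvPolynomial (Fin 2) k) (s : MvPolynomial (Fin 2) k)
    (hs : aeval m s = X 1)
    (hb : ∀ b, ∃ (N : ℕ) (G' : MvPolynomial (Fin 2) k),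
      aeval x G' = (aeval x s) ^ N * x' b ∧ aeval m G' = X 1 ^ N * X b)
    (G : MvPolynomial (Fin 2) k) :
    ∃ (N : ℕ) (G' : MvPolynomial (Fin 2) k),
      aeval x G' = (aeval x s) ^ N * aeval x' G ∧ aeval m G' = X 1 ^ N * G := by
  induction G using MvPolynomial.induction_on with
  | C a =>
    refine ⟨0, C a, ?_, ?_⟩
    · simp
    · rw [pow_zero, one_mul, MvPolynomial.aeval_C]
      rfl
  | add p q hp hq =>
    obtain ⟨N1, G1, h1, e1⟩ := hp
    obtain ⟨N2, G2, h2, e2⟩ := hq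
    refine ⟨N1 + N2, s ^ N2 * G1 + s ^ N1 * G2, ?_, ?_⟩
    · rw [map_add, map_mul, map_mul, map_pow, map_pow, h1, h2, map_add, pow_add]
      ring
    · rw [map_add, map_mul, map_mul, map_pow, map_pow, e1, e2, hs, pow_add]
      ring
  | mul_X p b hp =>
    obtain ⟨N1, G1, h1, e1⟩ := hp
    obtain ⟨N2, G2, h2, e2⟩ := hb b
    refine ⟨N1 + N2, G1 * G2, ?_, ?_⟩
    · rw [map_mul, h1, h2, map_mul, aeval_X, pow_add]
      ring
    · rw [map_mul, e1, e2, pow_add]
      ring

private theorem twoB_indep' {k : Type u} [Field k] {K : Type u} [Field K] [Algebra k K]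
    (x x' : Fin 2 → K) (m : Fin 2 → MvPolynomial (Fin 2) k) (s : MvPolynomial (Fin 2) k)
    (hs : aeval m s = X 1)
    (hx : ∀ G : MvPolynomial (Fin 2) k, G ≠ 0 → aeval x G ≠ 0)
    (hb : ∀ b, ∃ (N : ℕ) (G' : MvPolynomial (Fin 2) k),
      aeval x G' = (aeval x s) ^ N * x' b ∧ aeval m G' = X 1 ^ N * X b)
    (G : MvPolynomial (Fin 2) k) (hG : G ≠ 0) : aeval x' G ≠ 0 := by
  obtain ⟨N, G', h1, e1⟩ := twoB_indep x x' m s hs hb G
  intro h0
  have hG' : G' ≠ 0 := by
    intro h2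
    rw [h2, map_zero] at e1
    exact mul_ne_zero (pow_ne_zero N (X_ne_zero 1)) hG e1.symm
  apply hx G' hG'
  rw [h1, h0, mul_zero]

private theorem twoB_comp {k : Type u} [Field k] {K : Type u} [Field K] [Algebra k K]
    (x x' : Fin 2 → K) (m : Fin 2 → MvPolynomial (Fin 2) k) (h : ∀ b, aeval x' (m b) = x b)
    (G : MvPolynomial (Fin 2) k) : aeval x' (aeval m G) = aeval x G := by
  induction G using MvPolynomial.induction_on with
  | C a =>
    rw [MvPolynomial.aeval_C, MvPolynomial.aeval_C]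
    exact (aeval x').commutes a
  | add p q hp hq => rw [map_add, map_add, map_add, hp, hq]
  | mul_X p b hp => rw [map_mul, map_mul, map_mul, hp, aeval_X, aeval_X, h b]

private theorem twoB_down {k : Type u} [Field k] {Λ ι : Type} (τ : ι → LinType Λ)
    (T : Λ → MvPolynomial (Fin 2) k) (J : MvPolynomial (Fin 2) k)
    {K : Type u} [Field K] [Algebra k K] (v : OrdFn k K) (x x' : Fin 2 → K)
    (m : Fin 2 → MvPolynomial (Fin 2) k) (hm : ∀ b, aeval x' (m b) = x b)
    (Q : Matrix (Fin 2) (Fin 2) K) (hQ0 : Q.det ≠ 0)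
    (hQ : ∀ D : Derivation k K K, ∀ c, D (x' c) = ∑ d, Q c d * D (x d))
    (hx1 : x' 1 ≠ 0) (hQo : v.ord Q.det = - v.ord (x' 1)) (hJx : aeval x J ≠ 0)
    (h : Dmd τ (fun l => aeval m (T l)) (aeval m J * X 1) v x') : Dmd τ T J v x := by
  obtain ⟨t, θ, hlo, g, P, hg, hP, hD, hA, hT⟩ := h
  refine ⟨t, θ, hlo, g, P * Q, hg, ?_, ?_, ?_, ?_⟩
  · rw [Matrix.det_mul]
    exact mul_ne_zero hP hQ0
  · intro D b
    rw [hD D b]
    simp only [Matrix.mul_apply, Finset.sum_mul]
    rw [Finset.sum_comm]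
    refine Finset.sum_congr rfl fun c _ => ?_
    rw [hQ D c, Finset.mul_sum]
    refine Finset.sum_congr rfl fun d _ => ?_
    ring
  · rw [Matrix.det_mul, v.ord_mul hP hQ0, hQo]
    rw [map_mul, twoB_comp x x' m hm J, aeval_X, v.ord_mul hJx hx1] at hA
    linarith
  · intro l
    have := hT l
    simp only [twoB_comp x x' m hm (T l)] at this
    exact this

variable {k : Type u} [Field k] {Λ ι : Type} (τ : ι → LinType Λ)
  (T : Λ → MvPolynomial (Fin 2) k) (J : MvPolynomial (Fin 2) k) (hJ : J ≠ 0)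
  {K : Type u} [Field K] [Algebra k K] (v : OrdFn k K) (x : Fin 2 → K) (hx : Cen v x)

include hJ hx

theorem dmd_m1 (c : k) (h : Dom τ (fun l => aeval (m1 c) (T l)) (aeval (m1 c) J * X 1))
    (hc : 0 < v.ord (x 0 / x 1 - algebraMap k K c)) : Dmd τ T J v x := by
  have hx0 : x 0 ≠ 0 := by
    have := hx.2 (X 0) (X_ne_zero 0)
    rwa [aeval_X] at this
  have hx1 : x 1 ≠ 0 := by
    have := hx.2 (X 1) (X_ne_zero 1)
    rwa [aeval_X] at this
  have e0 : (m1 c : Fin 2 → MvPolynomial (Fin 2) k) 0 = X 1 * (X 0 + C c) := rfl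
  have e1 : (m1 c : Fin 2 → MvPolynomial (Fin 2) k) 1 = X 1 := rfl
  set x' : Fin 2 → K := ![x 0 / x 1 - algebraMap k K c, x 1] with hx'
  have f0 : x' 0 = x 0 / x 1 - algebraMap k K c := rfl
  have f1 : x' 1 = x 1 := rfl
  have hm : ∀ b, aeval x' (m1 c b) = x b := by
    intro b
    fin_cases b
    · show aeval x' (m1 c 0) = x 0
      rw [e0, map_mul, map_add, aeval_X, aeval_X, MvPolynomial.aeval_C, f0, f1]
      field_simp
      ring
    · show aeval x' (m1 c 1) = x 1
      rw [e1, aeval_X, f1]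
  have hcen : Cen v x' := by
    refine ⟨?_, ?_⟩
    · intro b
      fin_cases b
      · exact hc
      · exact hx.1 1
    · apply twoB_indep' x x' (m1 c) (X 1) (by rw [aeval_X, e1]) hx.2
      intro b
      fin_cases b
      · refine ⟨1, X 0 - C c * X 1, ?_, ?_⟩
        · show aeval x (X 0 - C c * X 1) = (aeval x (X 1)) ^ 1 * x' 0
          rw [map_sub, map_mul, aeval_X, aeval_X, MvPolynomial.aeval_C, f0]
          field_simp
        · show aeval (m1 c) (X 0 - C c * X 1) = X 1 ^ 1 * X 0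
          rw [map_sub, map_mul, aeval_X, aeval_X, MvPolynomial.aeval_C, e0, e1]
          show X 1 * (X 0 + C c) - C c * X 1 = X 1 ^ 1 * X 0
          ring
      · refine ⟨0, X 1, ?_, ?_⟩
        · show aeval x (X 1) = (aeval x (X 1)) ^ 0 * x' 1
          rw [aeval_X, f1, pow_zero, one_mul]
        · show aeval (m1 c) (X 1) = X 1 ^ 0 * X 1
          rw [aeval_X, e1, pow_zero, one_mul]
  refine twoB_down τ T J v x x' (m1 c) hm !![1 / x 1, - x 0 / x 1 ^ 2; 0, 1] ?_ ?_ ?_ ?_ ?_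
    (h K v x' hcen)
  · rw [Matrix.det_fin_two_of]
    simpa using hx1
  · intro D b
    rw [Fin.sum_univ_two]
    fin_cases b
    · show D (x 0 / x 1 - algebraMap k K c) = 1 / x 1 * D (x 0) + - x 0 / x 1 ^ 2 * D (x 1)
      rw [map_sub, D.map_algebraMap, sub_zero, Derivation.leibniz_div]
      simp only [smul_eq_mul]
      field_simp
      ring
    · show D (x 1) = 0 * D (x 0) + 1 * D (x 1)
      ring
  · rw [f1]; exact hx1
  · rw [Matrix.det_fin_two_of, f1]
    have : (1 / x 1 * 1 - -x 0 / x 1 ^ 2 * 0 : K) = (x 1)⁻¹ := by ring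
    rw [this, v.ord_inv _ hx1]
  · exact hx.2 J hJ

theorem dmd_m2 (h : Dom τ (fun l => aeval (m2 k) (T l)) (aeval (m2 k) J * X 1))
    (hc : v.ord (x 0) < v.ord (x 1)) : Dmd τ T J v x := by
  have hx0 : x 0 ≠ 0 := by
    have := hx.2 (X 0) (X_ne_zero 0)
    rwa [aeval_X] at this
  have hx1 : x 1 ≠ 0 := by
    have := hx.2 (X 1) (X_ne_zero 1)
    rwa [aeval_X] at this
  have e0 : (m2 k : Fin 2 → MvPolynomial (Fin 2) k) 0 = X 1 := rfl
  have e1 : (m2 k : Fin 2 → MvPolynomial (Fin 2) k) 1 = X 1 * X 0 := rfl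
  set x' : Fin 2 → K := ![x 1 / x 0, x 0] with hx'
  have f0 : x' 0 = x 1 / x 0 := rfl
  have f1 : x' 1 = x 0 := rfl
  have hm : ∀ b, aeval x' (m2 k b) = x b := by
    intro b
    fin_cases b
    · show aeval x' (m2 k 0) = x 0
      rw [e0, aeval_X, f1]
    · show aeval x' (m2 k 1) = x 1
      rw [e1, map_mul, aeval_X, aeval_X, f0, f1]
      field_simp
  have hcen : Cen v x' := by
    refine ⟨?_, ?_⟩
    · intro b
      fin_cases b
      · show 0 < v.ord (x 1 / x 0)
        rw [v.ord_div hx1 hx0]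
        linarith
      · exact hx.1 0
    · apply twoB_indep' x x' (m2 k) (X 0) (by rw [aeval_X, e0]) hx.2
      intro b
      fin_cases b
      · refine ⟨1, X 1, ?_, ?_⟩
        · show aeval x (X 1) = (aeval x (X 0)) ^ 1 * x' 0
          rw [aeval_X, aeval_X, f0]
          field_simp
        · show aeval (m2 k) (X 1) = X 1 ^ 1 * X 0
          rw [aeval_X, e1, pow_one]
      · refine ⟨0, X 0, ?_, ?_⟩
        · show aeval x (X 0) = (aeval x (X 0)) ^ 0 * x' 1
          rw [aeval_X, f1, pow_zero, one_mul]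
        · show aeval (m2 k) (X 0) = X 1 ^ 0 * X 1
          rw [aeval_X, e0, pow_zero, one_mul]
  refine twoB_down τ T J v x x' (m2 k) hm !![- x 1 / x 0 ^ 2, 1 / x 0; 1, 0] ?_ ?_ ?_ ?_ ?_
    (h K v x' hcen)
  · rw [Matrix.det_fin_two_of]
    simpa using hx0
  · intro D b
    rw [Fin.sum_univ_two]
    fin_cases b
    · show D (x 1 / x 0) = - x 1 / x 0 ^ 2 * D (x 0) + 1 / x 0 * D (x 1)
      rw [Derivation.leibniz_div]
      simp only [smul_eq_mul]
      field_simp
      ring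
    · show D (x 0) = 1 * D (x 0) + 0 * D (x 1)
      ring
  · rw [f1]; exact hx0
  · rw [Matrix.det_fin_two_of, f1]
    have : (- x 1 / x 0 ^ 2 * 0 - 1 / x 0 * 1 : K) = - (x 0)⁻¹ := by ring
    rw [this, v.ord_neg _ (inv_ne_zero hx0), v.ord_inv _ hx0]
  · exact hx.2 J hJ

end MLD
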