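import Pool.Agent.MLD.ExtVal
import Pool.Agent.MLD.Der

/-!
PIECE MLD-C3: logarithmic derivations and the weighted valuation.

`v` is the weighted valuation, `d i` the coordinate derivatives on the function field.
PROOF. `f = a / b` with polynomials `a, b ≠ 0`; `x_i d_i f = (b * x_i ∂_i a - a * x_i ∂_i b)/b^2`.
For a polynomial `a`: every monomial of `X i * pderiv i a` is a monomial of `a`
(`X i * pderiv i (monomial m c) = m i • monomial m c`), so `wo w (X i * pderiv i a) ≥ wo w a`.
Euler: `∑ w i * X i * pderiv i (monomial m c) = (weight w m) • monomial m c`. If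
`N = wo w a`, then `∑ w i X i ∂_i a - N • a` has only monomials of weight `≥ N+1` (those of weight
`N` cancel). For `v f = 0` one has `wo w a = wo w b = N`, and
`b * δ a - a * δ b = b * (δ a - N a) - a * (δ b - N b)` has order `≥ 2 N + 1`.
-/

open MvPolynomial Filter

namespace MLD

universe u

section aux

variable {k : Type u} [Field k] {σ : Type} (w : σ → ℕ)

/-- all monomials of `a` have weight at least `N` -/
private def WDer_Hi (N : ℕ) (a : MvPolynomial σ k) : Prop :=
  ∀ m, coeff m a ≠ 0 → N ≤ Finsupp.weight w m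

private theorem WDer_coeff (i : σ) (a : MvPolynomial σ k) (m : σ →₀ ℕ) :
    coeff m (X i * pderiv i a) = (m i : k) * coeff m a := by
  classical
  induction a using MvPolynomial.induction_on' with
  | monomial s c =>
    rw [pderiv_monomial, X, monomial_mul, one_mul, coeff_monomial, coeff_monomial]
    by_cases hs : s i = 0
    · rw [hs, Nat.cast_zero, mul_zero, ite_self]
      by_cases h : s = m
      · rw [if_pos h, ← h, hs, Nat.cast_zero, zero_mul]
      · rw [if_neg h, mul_zero]
    · have h1 : Finsupp.single i 1 + (s - Finsupp.single i 1) = s := by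
        ext j
        rw [Finsupp.add_apply, Finsupp.tsub_apply]
        by_cases hj : j = i
        · subst hj
          rw [Finsupp.single_eq_same]
          omega
        · rw [Finsupp.single_eq_of_ne hj]
          omega
      rw [h1]
      by_cases h : s = m
      · rw [if_pos h, if_pos h, h, mul_comm]
      · rw [if_neg h, if_neg h, mul_zero]
  | add p q hp hq => rw [map_add, mul_add, coeff_add, hp, hq, coeff_add, mul_add]

private theorem WDer_Hi_log {N : ℕ} {a : MvPolynomial σ k} (h : WDer_Hi w N a) (i : σ) :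
    WDer_Hi w N (X i * pderiv i a) := by
  intro m hm
  rw [WDer_coeff] at hm
  exact h m (right_ne_zero_of_mul hm)

private theorem WDer_Hi_euler [Fintype σ] {N : ℕ} {a : MvPolynomial σ k} (h : WDer_Hi w N a) :
    WDer_Hi w (N + 1) (∑ i, C (w i : k) * (X i * pderiv i a) - C (N : k) * a) := by
  intro m hm
  rw [coeff_sub, coeff_sum, coeff_C_mul] at hm
  have h1 : ∑ i, coeff m (C (w i : k) * (X i * pderiv i a)) =
      ((Finsupp.weight w m : ℕ) : k) * coeff m a := by
    have h2 : (Finsupp.weight w m : ℕ) = ∑ i, m i * w i := by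
      rw [Finsupp.weight_apply, Finsupp.sum_fintype]
      · simp [smul_eq_mul]
      · intro i
        simp
    rw [h2]
    push_cast
    rw [Finset.sum_mul]
    refine Finset.sum_congr rfl fun i _ => ?_
    rw [coeff_C_mul, WDer_coeff]
    ring
  rw [h1, ← sub_mul] at hm
  have h3 := h m (right_ne_zero_of_mul hm)
  have h4 : Finsupp.weight w m ≠ N := by
    intro h5
    apply hm
    rw [h5, sub_self, zero_mul]
  omega

end aux

variable {k : Type u} [Field k] {σ : Type} [Fintype σ] (w : σ → ℕ) (v : OrdFn k (FF k σ))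
  (hv : ∀ f : MvPolynomial σ k, f ≠ 0 → ∃ m : ℕ, v.ord (toFF k σ f) = m ∧ wo w f = m)
  (d : σ → Derivation k (FF k σ) (FF k σ)) (hd : ∀ i f, d i (toFF k σ f) = toFF k σ (pderiv i f))

include hv

omit [Fintype σ] in
private theorem WDer_ge {N : ℕ} {a : MvPolynomial σ k} (h : WDer_Hi w N a) :
    v.ge N (toFF k σ a) := by
  by_cases ha : a = 0
  · left
    rw [ha, map_zero]
  right
  obtain ⟨m, hm, hm'⟩ := hv a ha
  rw [hm]
  unfold wo at hm'
  have h1 : ((MvPowerSeries.weightedOrder w (a : MvPowerSeries σ k)).toNat : ℕ∞) =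
      MvPowerSeries.weightedOrder w (a : MvPowerSeries σ k) := by
    rw [hm']
    rfl
  obtain ⟨s, hs, hs'⟩ := MvPowerSeries.exists_coeff_ne_zero_and_weightedOrder w h1
  rw [MvPolynomial.coeff_coe] at hs
  have h2 := h s hs
  rw [hm'] at hs'
  have h3 : Finsupp.weight w s = m := by exact_mod_cast hs'
  rw [← h3]
  exact_mod_cast h2

omit [Fintype σ] in
private theorem WDer_ord {a : MvPolynomial σ k} (ha : a ≠ 0) :
    ∃ N : ℕ, v.ord (toFF k σ a) = N ∧ WDer_Hi w N a := by
  obtain ⟨m, hm, hm'⟩ := hv a ha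
  refine ⟨m, hm, fun s hs => ?_⟩
  have h1 : MvPowerSeries.weightedOrder w (a : MvPowerSeries σ k) ≤ Finsupp.weight w s :=
    MvPowerSeries.weightedOrder_le w (by rwa [MvPolynomial.coeff_coe])
  unfold wo at hm'
  rw [hm'] at h1
  exact_mod_cast h1

omit [Fintype σ] hv in
private theorem WDer_inj {a : MvPolynomial σ k} (ha : a ≠ 0) : toFF k σ a ≠ 0 := by
  intro h
  apply ha
  apply (IsFractionRing.injective (MvPolynomial σ k) (FF k σ))
  rw [map_zero]
  exact h

omit [Fintype σ] hv in
private theorem WDer_div {N : ℤ} {x y : FF k σ} (hy : y ≠ 0) (hx : v.ge N x) :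
    v.ge (N - 2 * v.ord y) (y⁻¹ ^ 2 * x) := by
  have h1 : v.ge ((2 : ℕ) * v.ord y⁻¹) (y⁻¹ ^ 2) := v.ge_pow (v.ge_self _) 2
  have h2 := v.ge_mul h1 hx
  refine v.ge_mono ?_ h2
  rw [v.ord_inv y hy]
  push_cast
  linarith

include hd

theorem wval_logder (i : σ) (f : FF k σ) (hf : f ≠ 0) : v.ge (v.ord f) (xx k i * d i f) := by
  obtain ⟨a, b, hb, rfl⟩ := IsFractionRing.div_surjective (A := MvPolynomial σ k) f
  have hb0 : b ≠ 0 := nonZeroDivisors.ne_zero hb
  have ha0 : a ≠ 0 := by
    rintro rfl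
    apply hf
    rw [map_zero, zero_div]
  change v.ge (v.ord (toFF k σ a / toFF k σ b)) (xx k i * d i (toFF k σ a / toFF k σ b))
  obtain ⟨A, hA, hA'⟩ := WDer_ord w v hv ha0
  obtain ⟨N, hN, hN'⟩ := WDer_ord w v hv hb0
  have ha := WDer_inj ha0
  have hb := WDer_inj hb0
  have h1 : xx k i * d i (toFF k σ a / toFF k σ b) = (toFF k σ b)⁻¹ ^ 2 *
      (toFF k σ b * toFF k σ (X i * pderiv i a) - toFF k σ a * toFF k σ (X i * pderiv i b)) := by
    rw [Derivation.leibniz_div, hd, hd, map_mul, map_mul]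
    simp only [smul_eq_mul]
    unfold xx
    ring
  rw [h1, v.ord_div ha hb, hA, hN]
  have h2 : v.ge ((N : ℤ) + A) (toFF k σ b * toFF k σ (X i * pderiv i a)) :=
    v.ge_mul (WDer_ge w v hv hN') (WDer_ge w v hv (WDer_Hi_log w hA' i))
  have h3 : v.ge ((A : ℤ) + N) (toFF k σ a * toFF k σ (X i * pderiv i b)) :=
    v.ge_mul (WDer_ge w v hv hA') (WDer_ge w v hv (WDer_Hi_log w hN' i))
  have h4 := WDer_div v hb (v.ge_sub h2 (v.ge_mono (by omega) h3))
  refine v.ge_mono ?_ h4
  rw [hN]
  omega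

theorem wval_euler (f : FF k σ) (hf : f ≠ 0) (h0 : v.ord f = 0) :
    v.ge 1 (∑ i, (w i : FF k σ) * xx k i * d i f) := by
  obtain ⟨a, b, hb, rfl⟩ := IsFractionRing.div_surjective (A := MvPolynomial σ k) f
  have hb0 : b ≠ 0 := nonZeroDivisors.ne_zero hb
  have ha0 : a ≠ 0 := by
    rintro rfl
    apply hf
    rw [map_zero, zero_div]
  change v.ge 1 (∑ i, (w i : FF k σ) * xx k i * d i (toFF k σ a / toFF k σ b))
  change v.ord (toFF k σ a / toFF k σ b) = 0 at h0
  obtain ⟨A, hA, hA'⟩ := WDer_ord w v hv ha0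
  obtain ⟨N, hN, hN'⟩ := WDer_ord w v hv hb0
  have ha := WDer_inj ha0
  have hb := WDer_inj hb0
  rw [v.ord_div ha hb, hA, hN] at h0
  have hAN : A = N := by omega
  subst hAN
  have h1 : ∑ i, (w i : FF k σ) * xx k i * d i (toFF k σ a / toFF k σ b) =
      (toFF k σ b)⁻¹ ^ 2 *
      (toFF k σ b * toFF k σ (∑ i, C (w i : k) * (X i * pderiv i a) - C (A : k) * a) -
        toFF k σ a * toFF k σ (∑ i, C (w i : k) * (X i * pderiv i b) - C (A : k) * b)) := by
    have h2 : ∀ c : MvPolynomial σ k,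
        toFF k σ (∑ i, C (w i : k) * (X i * pderiv i c) - C (A : k) * c) =
        ∑ i, (w i : FF k σ) * (xx k i * toFF k σ (pderiv i c)) - (A : FF k σ) * toFF k σ c := by
      intro c
      rw [map_sub, map_sum, map_mul]
      have h3 : ∀ n : ℕ, toFF k σ (C (n : k)) = (n : FF k σ) := by
        intro n
        rw [map_natCast, map_natCast]
      rw [h3]
      congr 1
      refine Finset.sum_congr rfl fun i _ => ?_
      rw [map_mul, map_mul, h3]
      rfl
    rw [h2, h2]
    have h4 : ∀ i, (w i : FF k σ) * xx k i * d i (toFF k σ a / toFF k σ b) =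
        (toFF k σ b)⁻¹ ^ 2 * (toFF k σ b * ((w i : FF k σ) * (xx k i * toFF k σ (pderiv i a))) -
          toFF k σ a * ((w i : FF k σ) * (xx k i * toFF k σ (pderiv i b)))) := by
      intro i
      rw [Derivation.leibniz_div, hd, hd]
      simp only [smul_eq_mul]
      ring
    rw [Finset.sum_congr rfl fun i _ => h4 i, ← Finset.mul_sum, Finset.sum_sub_distrib,
      ← Finset.mul_sum, ← Finset.mul_sum]
    ring
  rw [h1]
  have h2 : v.ge ((A : ℤ) + (A + 1 : ℕ)) (toFF k σ b *
      toFF k σ (∑ i, C (w i : k) * (X i * pderiv i a) - C (A : k) * a)) :=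
    v.ge_mul (WDer_ge w v hv hN') (WDer_ge w v hv (WDer_Hi_euler w hA'))
  have h3 : v.ge ((A : ℤ) + (A + 1 : ℕ)) (toFF k σ a *
      toFF k σ (∑ i, C (w i : k) * (X i * pderiv i b) - C (A : k) * b)) :=
    v.ge_mul (WDer_ge w v hv hA') (WDer_ge w v hv (WDer_Hi_euler w hN'))
  have h4 := WDer_div v hb (v.ge_sub h2 h3)
  refine v.ge_mono ?_ h4
  rw [hN]
  push_cast
  omega

end MLD
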